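import Mathlib
import Pool.Agent.Work.MP_a8f287_co.Defs

/-! Bundle of small proof modules (one section per former module). -/

section

/-!
Item L: graphs with at most one triangle, no house and no `K_{2,3}`.
-/

namespace Pool.Agent.WW

set_option linter.unusedSectionVars false

section GraphCount

variable {α : Type*} [DecidableEq α] (adj : α → α → Prop) [DecidableRel adj]

/-- the indicator of adjacency -/
def gf (x y : α) : ℕ := if adj x y then 1 else 0

/-- number of ordered adjacent pairs in `D` -/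
def gm (D : Finset α) : ℕ := ∑ x ∈ D, ∑ y ∈ D, gf adj x y

/-- at most one triangle in `D` -/
def OneTri (D : Finset α) : Prop :=
  ∀ x ∈ D, ∀ y ∈ D, ∀ z ∈ D, ∀ x' ∈ D, ∀ y' ∈ D, ∀ z' ∈ D, adj x y → adj y z → adj x z →
      adj x' y' → adj y' z' → adj x' z' → ({x, y, z} : Finset α) = {x', y', z'}

theorem gm_eq (D : Finset α) : ((D ×ˢ D).filter (fun p => adj p.1 p.2)).card = gm adj D := by
  rw [Finset.card_filter, Finset.sum_product]; rfl

variable {adj}

theorem gf_le_one (x y : α) : gf adj x y ≤ 1 := by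
  unfold gf; split_ifs <;> simp

theorem gf_of {x y : α} (h : 0 < gf adj x y) : adj x y := by
  by_contra hc
  simp [gf, hc] at h

theorem gf_zero {x y : α} (h : ¬ adj x y) : gf adj x y = 0 := by
  simp [gf, h]

theorem gf_symm (hsym : ∀ x y, adj x y → adj y x) (x y : α) : gf adj x y = gf adj y x := by
  unfold gf
  by_cases h : adj x y
  · simp [h, hsym _ _ h]
  · have : ¬ adj y x := fun h' => h (hsym _ _ h')
    simp [h, this]

theorem gf_self (hirr : ∀ x, ¬ adj x x) (x : α) : gf adj x x = 0 := gf_zero (hirr x)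

theorem gm_erase (hsym : ∀ x y, adj x y → adj y x) (hirr : ∀ x, ¬ adj x x) (D : Finset α)
    (v : α) (hv : v ∈ D) : gm adj D = gm adj (D.erase v) + 2 * ∑ y ∈ D, gf adj v y := by
  unfold gm
  rw [← Finset.add_sum_erase D _ hv]
  have h1 : ∀ x ∈ D.erase v, ∑ y ∈ D, gf adj x y = gf adj x v + ∑ y ∈ D.erase v, gf adj x y :=
    fun x _ => (Finset.add_sum_erase D _ hv).symm
  rw [Finset.sum_congr rfl h1, Finset.sum_add_distrib]
  have h2 : ∑ x ∈ D.erase v, gf adj x v = ∑ y ∈ D, gf adj v y := by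
    rw [← Finset.add_sum_erase D (fun y => gf adj v y) hv, gf_self hirr v, zero_add]
    exact Finset.sum_congr rfl (fun x _ => gf_symm hsym x v)
  rw [h2]; ring

theorem gm4 (hsym : ∀ x y, adj x y → adj y x) (hirr : ∀ x, ¬ adj x x) {a b c d : α}
    (hab : a ≠ b) (hac : a ≠ c) (had : a ≠ d) (hbc : b ≠ c) (hbd : b ≠ d) (hcd : c ≠ d) :
    gm adj {a, b, c, d} = 2 * (gf adj a b + gf adj a c + gf adj a d + gf adj b c + gf adj b d +
      gf adj c d) := by
  have e : ∀ F : α → ℕ, ∑ x ∈ ({a, b, c, d} : Finset α), F x = F a + (F b + (F c + F d)) := by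
    intro F
    rw [Finset.sum_insert (by simp [hab, hac, had]), Finset.sum_insert (by simp [hbc, hbd]),
      Finset.sum_insert (by simp [hcd]), Finset.sum_singleton]
  unfold gm
  simp only [e]
  rw [gf_symm hsym b a, gf_symm hsym c a, gf_symm hsym c b, gf_symm hsym d a, gf_symm hsym d b,
    gf_symm hsym d c, gf_self hirr, gf_self hirr, gf_self hirr, gf_self hirr]
  ring

theorem gm5 (hsym : ∀ x y, adj x y → adj y x) (hirr : ∀ x, ¬ adj x x) {a b c d e : α}
    (hd : [a, b, c, d, e].Nodup) :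
    gm adj {a, b, c, d, e} = 2 * (gf adj a b + gf adj a c + gf adj a d + gf adj a e + gf adj b c +
      gf adj b d + gf adj b e + gf adj c d + gf adj c e + gf adj d e) := by
  simp only [List.nodup_cons, List.mem_cons, List.not_mem_nil, or_false, not_or] at hd
  obtain ⟨⟨hab, hac, had, hae⟩, ⟨hbc, hbd, hbe⟩, ⟨hcd, hce⟩, hde, -⟩ := hd
  have es : ∀ F : α → ℕ, ∑ x ∈ ({a, b, c, d, e} : Finset α), F x =
      F a + (F b + (F c + (F d + F e))) := by
    intro F
    rw [Finset.sum_insert (by simp [hab, hac, had, hae]), Finset.sum_insert (by simp [hbc, hbd,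
      hbe]), Finset.sum_insert (by simp [hcd, hce]), Finset.sum_insert (by simp [hde]),
      Finset.sum_singleton]
  unfold gm
  simp only [es]
  rw [gf_symm hsym b a, gf_symm hsym c a, gf_symm hsym c b, gf_symm hsym d a, gf_symm hsym d b,
    gf_symm hsym d c, gf_symm hsym e a, gf_symm hsym e b, gf_symm hsym e c, gf_symm hsym e d,
    gf_self hirr, gf_self hirr, gf_self hirr, gf_self hirr, gf_self hirr]
  ring

/-- two triangles on a common edge -/
theorem no_diamond {D : Finset α} (hT : OneTri adj D) (_ : ∀ x y, adj x y → adj y x)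
    (hirr : ∀ x, ¬ adj x x) {a b c d : α}
    (ha : a ∈ D) (hb : b ∈ D) (hc : c ∈ D) (hd : d ∈ D) (hab : a ≠ b) (h1 : adj a c)
    (h2 : adj a d) (h3 : adj c d) (h4 : adj b c) (h5 : adj b d) : False := by
  have h := hT a ha c hc d hd b hb c hc d hd h1 h3 h2 h4 h3 h5
  have h6 : a ∈ ({b, c, d} : Finset α) := by rw [← h]; simp
  simp only [Finset.mem_insert, Finset.mem_singleton] at h6
  rcases h6 with rfl | rfl | rfl
  · exact hab rfl
  · exact hirr _ h1
  · exact hirr _ h2

theorem gm_four (hsym : ∀ x y, adj x y → adj y x) (hirr : ∀ x, ¬ adj x x) (D : Finset α)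
    (h4 : D.card = 4) (hT : OneTri adj D) : gm adj D ≤ 8 := by
  obtain ⟨a, b, c, d, hab, hac, had, hbc, hbd, hcd, rfl⟩ := Finset.card_eq_four.1 h4
  rw [gm4 hsym hirr hab hac had hbc hbd hcd]
  by_contra hlt
  have u1 := gf_le_one (adj := adj) a b
  have u2 := gf_le_one (adj := adj) a c
  have u3 := gf_le_one (adj := adj) a d
  have u4 := gf_le_one (adj := adj) b c
  have u5 := gf_le_one (adj := adj) b d
  have u6 := gf_le_one (adj := adj) c d
  have ma : a ∈ ({a, b, c, d} : Finset α) := by simp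
  have mb : b ∈ ({a, b, c, d} : Finset α) := by simp
  have mc : c ∈ ({a, b, c, d} : Finset α) := by simp
  have md : d ∈ ({a, b, c, d} : Finset α) := by simp
  by_cases h1 : 0 < gf adj a b
  · by_cases h2 : 0 < gf adj a c
    · by_cases h3 : 0 < gf adj b d
      · by_cases h4 : 0 < gf adj b c
        · -- triangle a b c, and one of the two others
          by_cases h5 : 0 < gf adj a d
          · exact no_diamond hT hsym hirr mc md ma mb hcd (hsym _ _ (gf_of h2))
              (hsym _ _ (gf_of h4)) (gf_of h1) (hsym _ _ (gf_of h5)) (hsym _ _ (gf_of h3))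
          · have h6 : 0 < gf adj c d := by omega
            exact no_diamond hT hsym hirr ma md mb mc had (gf_of h1) (gf_of h2) (gf_of h4)
              (hsym _ _ (gf_of h3)) (hsym _ _ (gf_of h6))
        · have h5 : 0 < gf adj a d := by omega
          have h6 : 0 < gf adj c d := by omega
          exact no_diamond hT hsym hirr mb mc ma md hbc (hsym _ _ (gf_of h1)) (gf_of h3)
            (gf_of h5) (hsym _ _ (gf_of h2)) (gf_of h6)
      · have h4 : 0 < gf adj b c := by omega
        have h5 : 0 < gf adj a d := by omega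
        have h6 : 0 < gf adj c d := by omega
        exact no_diamond hT hsym hirr mb md ma mc hbd (hsym _ _ (gf_of h1)) (gf_of h4)
          (gf_of h2) (hsym _ _ (gf_of h5)) (hsym _ _ (gf_of h6))
    · have h3 : 0 < gf adj b d := by omega
      have h4 : 0 < gf adj b c := by omega
      have h5 : 0 < gf adj a d := by omega
      have h6 : 0 < gf adj c d := by omega
      exact no_diamond hT hsym hirr ma mc mb md hac (gf_of h1) (gf_of h5) (gf_of h3)
        (hsym _ _ (gf_of h4)) (gf_of h6)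
  · have h2 : 0 < gf adj a c := by omega
    have h3 : 0 < gf adj b d := by omega
    have h4 : 0 < gf adj b c := by omega
    have h5 : 0 < gf adj a d := by omega
    have h6 : 0 < gf adj c d := by omega
    exact no_diamond hT hsym hirr ma mb mc md hab (gf_of h2) (gf_of h5) (gf_of h6) (gf_of h4)
      (gf_of h3)

theorem OneTri.mono {D D' : Finset α} (h : OneTri adj D) (hs : D' ⊆ D) : OneTri adj D' :=
  fun x hx y hy z hz x' hx' y' hy' z' hz' => h x (hs hx) y (hs hy) z (hs hz) x' (hs hx') y' (hs hy')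
    z' (hs hz')

theorem gm_bound (hsym : ∀ x y, adj x y → adj y x) (hirr : ∀ x, ¬ adj x x) (n : ℕ) :
    ∀ D : Finset α, D.card = n + 4 → OneTri adj D → 3 * gm adj D ≤ 2 * (n + 4) * (n + 3) := by
  induction n with
  | zero =>
    intro D h4 hT
    have := gm_four hsym hirr D (by simpa using h4) hT
    omega
  | succ n ih =>
    intro D hD hT
    have h1 : ∀ v ∈ D, 3 * gm adj (D.erase v) ≤ 2 * (n + 4) * (n + 3) := by
      intro v hv
      apply ih _ _ (hT.mono (Finset.erase_subset _ _))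
      rw [Finset.card_erase_of_mem hv, hD]; omega
    have h2 : ∑ v ∈ D, gm adj D = ∑ v ∈ D, (gm adj (D.erase v) + 2 * ∑ y ∈ D, gf adj v y) :=
      Finset.sum_congr rfl (fun v hv => gm_erase hsym hirr D v hv)
    rw [Finset.sum_const, Finset.sum_add_distrib, ← Finset.mul_sum, smul_eq_mul, hD] at h2
    have h3 : ∑ x ∈ D, ∑ y ∈ D, gf adj x y = gm adj D := rfl
    rw [h3] at h2
    have h4 : ∑ v ∈ D, 3 * gm adj (D.erase v) ≤ ∑ v ∈ D, 2 * (n + 4) * (n + 3) :=
      Finset.sum_le_sum h1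
    rw [Finset.sum_const, ← Finset.mul_sum, smul_eq_mul, hD] at h4
    have h5 : (n + 3) * (3 * gm adj D) ≤ (n + 3) * (2 * (n + 1 + 4) * (n + 1 + 3)) := by
      nlinarith
    exact Nat.le_of_mul_le_mul_left h5 (by omega)

theorem gm_five (hsym : ∀ x y, adj x y → adj y x) (hirr : ∀ x, ¬ adj x x) (D : Finset α)
    (h5 : D.card = 5) (hT : OneTri adj D)
    (hhouse : ∀ a ∈ D, ∀ b ∈ D, ∀ c ∈ D, ∀ x ∈ D, ∀ y ∈ D, [a, b, c, x, y].Nodup → adj a b →
      adj b c → adj a c → adj a x → adj x y → adj y b → False)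
    (hK23 : ∀ a ∈ D, ∀ b ∈ D, ∀ x ∈ D, ∀ y ∈ D, ∀ z ∈ D, [a, b, x, y, z].Nodup → adj a x →
      adj a y → adj a z → adj b x → adj b y → adj b z → False) : gm adj D ≤ 10 := by
  by_contra hlt
  push Not at hlt
  by_cases htri : ∃ a ∈ D, ∃ b ∈ D, ∃ c ∈ D, adj a b ∧ adj b c ∧ adj a c
  · obtain ⟨a, ha, b, hb, c, hc, hab, hbc, hac⟩ := htri
    have nab : a ≠ b := fun h => hirr _ (h ▸ hab)
    have nbc : b ≠ c := fun h => hirr _ (h ▸ hbc)
    have nac : a ≠ c := fun h => hirr _ (h ▸ hac)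
    have hsub : ({a, b, c} : Finset α) ⊆ D := by
      intro x hx
      simp only [Finset.mem_insert, Finset.mem_singleton] at hx
      rcases hx with rfl | rfl | rfl <;> assumption
    have hcard : (D \ {a, b, c}).card = 2 := by
      rw [Finset.card_sdiff_of_subset hsub, h5, Finset.card_eq_three.2 ⟨a, b, c, nab, nac, nbc, rfl⟩]
    obtain ⟨x, y, nxy, hxy⟩ := Finset.card_eq_two.1 hcard
    have hx : x ∈ D \ {a, b, c} := by rw [hxy]; simp
    have hy : y ∈ D \ {a, b, c} := by rw [hxy]; simp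
    simp only [Finset.mem_sdiff, Finset.mem_insert, Finset.mem_singleton, not_or] at hx hy
    obtain ⟨hx, nxa, nxb, nxc⟩ := hx
    obtain ⟨hy, nya, nyb, nyc⟩ := hy
    have hnd : [a, b, c, x, y].Nodup := by
      simp [nab, nbc, nac, nxy, Ne.symm nxa, Ne.symm nxb, Ne.symm nxc, Ne.symm nya, Ne.symm nyb,
        Ne.symm nyc]
    have hD : D = {a, b, c, x, y} := by
      have h6 : D = {a, b, c} ∪ (D \ {a, b, c}) := by rw [Finset.union_sdiff_of_subset hsub]
      rw [hxy] at h6
      rw [h6]; ext u; simp; tauto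
    have hm := gm5 hsym hirr hnd
    rw [← hD] at hm
    have u1 := gf_le_one (adj := adj) a b
    have u2 := gf_le_one (adj := adj) a c
    have u3 := gf_le_one (adj := adj) b c
    have u4 := gf_le_one (adj := adj) x y
    have v1 := gf_le_one (adj := adj) a x
    have v2 := gf_le_one (adj := adj) b x
    have v3 := gf_le_one (adj := adj) c x
    have v4 := gf_le_one (adj := adj) a y
    have v5 := gf_le_one (adj := adj) b y
    have v6 := gf_le_one (adj := adj) c y
    have key : ∀ w ∈ D, w ≠ a → w ≠ b → w ≠ c → gf adj a w + gf adj b w + gf adj c w ≤ 1 := by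
      intro w hw nwa nwb nwc
      have v1 := gf_le_one (adj := adj) a w
      have v2 := gf_le_one (adj := adj) b w
      have v3 := gf_le_one (adj := adj) c w
      by_contra h7
      by_cases h8 : 0 < gf adj a w
      · by_cases h9 : 0 < gf adj b w
        · exact no_diamond hT hsym hirr hw hc ha hb nwc (hsym _ _ (gf_of h8)) (hsym _ _ (gf_of h9))
            hab (hsym _ _ hac) (hsym _ _ hbc)
        · have h10 : 0 < gf adj c w := by omega
          exact no_diamond hT hsym hirr hw hb ha hc nwb (hsym _ _ (gf_of h8))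
            (hsym _ _ (gf_of h10)) hac (hsym _ _ hab) hbc
      · have h9 : 0 < gf adj b w := by omega
        have h10 : 0 < gf adj c w := by omega
        exact no_diamond hT hsym hirr hw ha hb hc nwa (hsym _ _ (gf_of h9))
          (hsym _ _ (gf_of h10)) hbc hab hac
    have kx := key x hx nxa nxb nxc
    have ky := key y hy nya nyb nyc
    have hxy1 : 0 < gf adj x y := by omega
    -- same foot: a second triangle
    have same : ∀ w ∈ D, w ∈ ({a, b, c} : Finset α) → adj w x → adj w y → False := by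
      intro w hw hw1 hwx hwy
      have h7 := hT a ha b hb c hc w hw x hx y hy hab hbc hac hwx (gf_of hxy1) hwy
      have h8 : x ∈ ({a, b, c} : Finset α) := by rw [h7]; simp
      simp [nxa, nxb, nxc] at h8
    have nd : ∀ p q r : α, [p, q, r, x, y].Nodup ↔ p ≠ q ∧ p ≠ r ∧ p ≠ x ∧ p ≠ y ∧ q ≠ r ∧ q ≠ x ∧
        q ≠ y ∧ r ≠ x ∧ r ≠ y ∧ x ≠ y := by
      intro p q r; simp [and_assoc]
    have hh : ∀ p ∈ D, ∀ q ∈ D, ∀ r ∈ D, p ≠ q → p ≠ r → q ≠ r → p ≠ x → p ≠ y → q ≠ x → q ≠ y →
        r ≠ x → r ≠ y → adj p q → adj q r → adj p r → adj p x → adj q y → False := by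
      intro p hp q hq r hr h1 h2 h3 h4 h6 h7 h8 h9 h10 g1 g2 g3 g4 g5
      exact hhouse p hp q hq r hr x hx y hy ((nd p q r).2 ⟨h1, h2, h4, h6, h3, h7, h8, h9, h10,
        nxy⟩) g1 g2 g3 g4 (gf_of hxy1) (hsym _ _ g5)
    have sx : 0 < gf adj a x ∨ 0 < gf adj b x ∨ 0 < gf adj c x := by omega
    have sy : 0 < gf adj a y ∨ 0 < gf adj b y ∨ 0 < gf adj c y := by omega
    rcases sx with h7 | h7 | h7 <;> rcases sy with h8 | h8 | h8
    · exact same a ha (by simp) (gf_of h7) (gf_of h8)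
    · exact hh a ha b hb c hc nab nac nbc (Ne.symm nxa) (Ne.symm nya) (Ne.symm nxb) (Ne.symm nyb)
        (Ne.symm nxc) (Ne.symm nyc) hab hbc hac (gf_of h7) (gf_of h8)
    · exact hh a ha c hc b hb nac nab (Ne.symm nbc) (Ne.symm nxa) (Ne.symm nya) (Ne.symm nxc)
        (Ne.symm nyc) (Ne.symm nxb) (Ne.symm nyb) hac (hsym _ _ hbc) hab (gf_of h7) (gf_of h8)
    · exact hh b hb a ha c hc (Ne.symm nab) nbc nac (Ne.symm nxb) (Ne.symm nyb) (Ne.symm nxa)
        (Ne.symm nya) (Ne.symm nxc) (Ne.symm nyc) (hsym _ _ hab) hac hbc (gf_of h7) (gf_of h8)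
    · exact same b hb (by simp) (gf_of h7) (gf_of h8)
    · exact hh b hb c hc a ha nbc (Ne.symm nab) (Ne.symm nac) (Ne.symm nxb) (Ne.symm nyb)
        (Ne.symm nxc) (Ne.symm nyc) (Ne.symm nxa) (Ne.symm nya) hbc (hsym _ _ hac) (hsym _ _ hab)
        (gf_of h7) (gf_of h8)
    · exact hh c hc a ha b hb (Ne.symm nac) (Ne.symm nbc) nab (Ne.symm nxc) (Ne.symm nyc)
        (Ne.symm nxa) (Ne.symm nya) (Ne.symm nxb) (Ne.symm nyb) (hsym _ _ hac) hab (hsym _ _ hbc)
        (gf_of h7) (gf_of h8)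
    · exact hh c hc b hb a ha (Ne.symm nbc) (Ne.symm nac) (Ne.symm nab) (Ne.symm nxc)
        (Ne.symm nyc) (Ne.symm nxb) (Ne.symm nyb) (Ne.symm nxa) (Ne.symm nya) (hsym _ _ hbc)
        (hsym _ _ hab) (hsym _ _ hac) (gf_of h7) (gf_of h8)
    · exact same c hc (by simp) (gf_of h7) (gf_of h8)
  · -- triangle free
    have hno : ∀ a ∈ D, ∀ b ∈ D, ∀ c ∈ D, adj a b → adj b c → adj a c → False :=
      fun a ha b hb c hc h1 h2 h3 => htri ⟨a, ha, b, hb, c, hc, h1, h2, h3⟩
    have hdeg : ∃ a ∈ D, 2 < (D.filter (fun y => adj a y)).card := by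
      by_contra h6
      push Not at h6
      have h7 : gm adj D ≤ ∑ x ∈ D, 2 := by
        apply Finset.sum_le_sum
        intro x hx
        have := h6 x hx
        rwa [Finset.card_filter] at this
      rw [Finset.sum_const, h5, smul_eq_mul] at h7
      omega
    obtain ⟨a, ha, hdeg⟩ := hdeg
    obtain ⟨x, hx, y, hy, z, hz, nxy, nxz, nyz⟩ := Finset.two_lt_card.1 hdeg
    rw [Finset.mem_filter] at hx hy hz
    obtain ⟨hx, hax⟩ := hx
    obtain ⟨hy, hay⟩ := hy
    obtain ⟨hz, haz⟩ := hz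
    have nax : a ≠ x := fun h => hirr _ (h ▸ hax)
    have nay : a ≠ y := fun h => hirr _ (h ▸ hay)
    have naz : a ≠ z := fun h => hirr _ (h ▸ haz)
    have hsub : ({a, x, y, z} : Finset α) ⊆ D := by
      intro w hw
      simp only [Finset.mem_insert, Finset.mem_singleton] at hw
      rcases hw with rfl | rfl | rfl | rfl <;> assumption
    have hcard : (D \ {a, x, y, z}).card = 1 := by
      rw [Finset.card_sdiff_of_subset hsub, h5, Finset.card_eq_four.2 ⟨a, x, y, z, nax, nay, naz,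
        nxy, nxz, nyz, rfl⟩]
    obtain ⟨b, hbD⟩ := Finset.card_eq_one.1 hcard
    have hb : b ∈ D \ {a, x, y, z} := by rw [hbD]; simp
    simp only [Finset.mem_sdiff, Finset.mem_insert, Finset.mem_singleton, not_or] at hb
    obtain ⟨hb, nba, nbx, nby, nbz⟩ := hb
    have hnd : [a, b, x, y, z].Nodup := by
      simp [nax, nay, naz, nxy, nxz, nyz, Ne.symm nba, nbx, nby, nbz]
    have hD : D = {a, b, x, y, z} := by
      have h6 : D = {a, x, y, z} ∪ (D \ {a, x, y, z}) := by rw [Finset.union_sdiff_of_subset hsub]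
      rw [hbD] at h6
      rw [h6]; ext u; simp; tauto
    have hm := gm5 hsym hirr hnd
    rw [← hD] at hm
    have z1 : gf adj x y = 0 := gf_zero (fun h => hno a ha x hx y hy hax h hay)
    have z2 : gf adj x z = 0 := gf_zero (fun h => hno a ha x hx z hz hax h haz)
    have z3 : gf adj y z = 0 := gf_zero (fun h => hno a ha y hy z hz hay h haz)
    have u1 := gf_le_one (adj := adj) a x
    have u2 := gf_le_one (adj := adj) a y
    have u3 := gf_le_one (adj := adj) a z
    have u4 := gf_le_one (adj := adj) a b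
    have v1 := gf_le_one (adj := adj) b x
    have v2 := gf_le_one (adj := adj) b y
    have v3 := gf_le_one (adj := adj) b z
    by_cases hab : adj a b
    · have w1 : gf adj b x = 0 := gf_zero (fun h => hno a ha b hb x hx hab h hax)
      have w2 : gf adj b y = 0 := gf_zero (fun h => hno a ha b hb y hy hab h hay)
      have w3 : gf adj b z = 0 := gf_zero (fun h => hno a ha b hb z hz hab h haz)
      omega
    · have w0 : gf adj a b = 0 := gf_zero hab
      have w1 : 0 < gf adj b x := by omega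
      have w2 : 0 < gf adj b y := by omega
      have w3 : 0 < gf adj b z := by omega
      exact hK23 a ha b hb x hx y hy z hz hnd hax hay haz (gf_of w1) (gf_of w2) (gf_of w3)

theorem gm_triv (hirr : ∀ x, ¬ adj x x) (D : Finset α) : gm adj D ≤ D.card * (D.card - 1) := by
  have h : ∀ x ∈ D, ∑ y ∈ D, gf adj x y ≤ D.card - 1 := by
    intro x hx
    rw [← Finset.add_sum_erase D _ hx, gf_self hirr, zero_add]
    calc ∑ y ∈ D.erase x, gf adj x y ≤ ∑ y ∈ D.erase x, 1 :=
          Finset.sum_le_sum (fun y _ => gf_le_one x y)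
      _ = D.card - 1 := by rw [Finset.sum_const, Finset.card_erase_of_mem hx]; simp
  calc gm adj D ≤ ∑ x ∈ D, (D.card - 1) := Finset.sum_le_sum h
    _ = _ := by rw [Finset.sum_const, smul_eq_mul]

end GraphCount

/-- a graph with at most one triangle -/
theorem graph_bound {α : Type*} [DecidableEq α] (D : Finset α) (adj : α → α → Prop)
    [DecidableRel adj] (hsym : ∀ x y, adj x y → adj y x) (hirr : ∀ x, ¬ adj x x)
    (h1 : ∀ x ∈ D, ∀ y ∈ D, ∀ z ∈ D, ∀ x' ∈ D, ∀ y' ∈ D, ∀ z' ∈ D, adj x y → adj y z → adj x z →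
      adj x' y' → adj y' z' → adj x' z' → ({x, y, z} : Finset α) = {x', y', z'})
    (hhouse : ∀ a ∈ D, ∀ b ∈ D, ∀ c ∈ D, ∀ x ∈ D, ∀ y ∈ D, [a, b, c, x, y].Nodup → adj a b →
      adj b c → adj a c → adj a x → adj x y → adj y b → False)
    (hK23 : ∀ a ∈ D, ∀ b ∈ D, ∀ x ∈ D, ∀ y ∈ D, ∀ z ∈ D, [a, b, x, y, z].Nodup → adj a x →
      adj a y → adj a z → adj b x → adj b y → adj b z → False) (m : ℕ)
    (hm : m = ((D ×ˢ D).filter (fun p => adj p.1 p.2)).card) (h5 : 4 * D.card + 10 < 3 * m) :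
    6 ≤ D.card ∧ 3 * m ≤ 2 * D.card * (D.card - 1) := by
  rw [gm_eq] at hm
  have h4 : 4 ≤ D.card := by
    by_contra h
    have h2 := gm_triv hirr D
    rw [← hm] at h2
    have h3 : D.card ≤ 3 := by omega
    generalize D.card = t at *
    interval_cases t <;> omega
  obtain ⟨n, hn⟩ : ∃ n, D.card = n + 4 := ⟨D.card - 4, by omega⟩
  have h2 := gm_bound hsym hirr n D hn h1
  rw [← hm] at h2
  refine ⟨?_, ?_⟩
  · by_contra h
    have h6 : n = 0 ∨ n = 1 := by omega
    rcases h6 with rfl | rfl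
    · omega
    · have h7 := gm_five hsym hirr D (by omega) h1 hhouse hK23
      omega
  · rw [hn]
    simpa using h2

end Pool.Agent.WW

end

section

/-!
Certificates: vectors are coded by natural numbers below `2 ^ m` (bit `i` stands for `b i`).
-/

namespace Pool.Agent.WW

variable {V : Type*} [AddCommGroup V] [Module (ZMod 2) V]

/-- the vector with code `n` -/
def comb {m : ℕ} (b : Fin m → V) (n : ℕ) : V := ∑ i : Fin m, if n.testBit i then b i else 0

/-- all sums of sublists, the empty sum first -/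
def spanList : List ℕ → List ℕ
  | [] => [0]
  | c :: C => spanList C ++ (spanList C).map (c ^^^ ·)

/-- the code `v` is congruent modulo the span of `C` to a code in the bit mask `M` -/
def presC (M : ℕ) (C : List ℕ) (v : ℕ) : Bool := (spanList C).any fun k => M.testBit (v ^^^ k)

/-- the Boolean check of a certificate: `M` is a bit mask of present codes, the codes in `C`
are contracted, `s0, ..., s3` are the star codes. -/
def checkK5 (M : ℕ) (C : List ℕ) (s0 s1 s2 s3 : ℕ) : Bool :=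
  C.all (fun c => M.testBit c) &&
  ([s0, s1, s2, s3, s0 ^^^ s1, s0 ^^^ s2, s0 ^^^ s3, s1 ^^^ s2, s1 ^^^ s3, s2 ^^^ s3].all
    fun v => presC M C v) &&
  ((spanList [s0, s1, s2, s3]).tail.all fun v => !((spanList C).any fun k => v == k))

/-- bit mask of a list of codes -/
def mask (l : List ℕ) : ℕ := l.foldl (fun M n => M ||| (1 <<< n)) 0

end Pool.Agent.WW

end

section

/-!
The contraction inequality: counting three-point lines before and after the contraction of
an element.
-/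

set_option linter.unusedSimpArgs false
set_option linter.unusedSectionVars false

namespace Pool.Agent.WW

open Submodule Module

variable {V W : Type*} [AddCommGroup V] [Module (ZMod 2) V]
  [AddCommGroup W] [Module (ZMod 2) W]

theorem ctr_two_add (v : V) : v + v = 0 := by
  have : (2 : ZMod 2) • v = 0 := by
    rw [show (2 : ZMod 2) = 0 from rfl, zero_smul]
  rwa [two_smul] at this

section Contr
variable [DecidableEq V] [DecidableEq W] (π : V →ₗ[ZMod 2] W) (E : Finset V) (e : V)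
  (hker : ∀ v, π v = 0 ↔ v = 0 ∨ v = e) (h0 : (0 : V) ∉ E) (he : e ∈ E)

omit [DecidableEq V] [DecidableEq W] in
include hker in
theorem ctr_pi_eq_iff (a b : V) : π a = π b ↔ a = b ∨ a = b + e := by
  have h1 : π a = π b ↔ π (a + b) = 0 := by
    rw [map_add]
    constructor
    · intro h
      rw [h, ctr_two_add]
    · intro h
      calc π a = π a + (π b + π b) := by rw [ctr_two_add, add_zero]
        _ = (π a + π b) + π b := by rw [add_assoc]
        _ = π b := by rw [h, zero_add]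
  rw [h1, hker]
  constructor
  · rintro (h | h)
    · left
      calc a = a + (b + b) := by rw [ctr_two_add, add_zero]
        _ = (a + b) + b := by rw [add_assoc]
        _ = b := by rw [h, zero_add]
    · right
      calc a = a + (b + b) := by rw [ctr_two_add, add_zero]
        _ = (a + b) + b := by rw [add_assoc]
        _ = b + e := by rw [h, add_comm]
  · rintro (h | h)
    · left; rw [h, ctr_two_add]
    · right; rw [h, add_right_comm, ctr_two_add, zero_add]

/-- the elements with a partner -/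
def ctrFF (E : Finset V) (e : V) : Finset V := E.filter (fun a => a + e ∈ E)

include hker h0 in
omit [DecidableEq V] [DecidableEq W] in
theorem ctr_pi_ne_zero {a : V} (ha : a ∈ E) (hae : a ≠ e) : π a ≠ 0 := by
  rw [Ne, hker]
  rintro (h | h)
  · exact h0 (h ▸ ha)
  · exact hae h

include h0 in
omit [DecidableEq W] [Module (ZMod 2) V] in
theorem ctr_ne_of_FF [Module (ZMod 2) V] {a : V} (ha : a ∈ ctrFF E e) : a ≠ e := by
  intro h
  have := (Finset.mem_filter.1 ha).2
  rw [h, ctr_two_add] at this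
  exact h0 this

include hker h0 in
theorem ctr_DD_eq : DD π E e = (ctrFF E e).image π := by
  rw [DD, Finset.erase_eq_of_notMem]
  · rfl
  · intro h
    obtain ⟨a, ha, ha0⟩ := Finset.mem_image.1 h
    exact ctr_pi_ne_zero π E e hker h0 (Finset.mem_filter.1 ha).1 (ctr_ne_of_FF E e h0 ha) ha0

include hker h0 in
theorem ctr_contr_eq : contr π E = (E.erase e).image π := by
  ext w
  rw [contr, Finset.mem_erase, Finset.mem_image, Finset.mem_image]
  constructor
  · rintro ⟨hw, a, ha, rfl⟩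
    refine ⟨a, Finset.mem_erase.2 ⟨?_, ha⟩, rfl⟩
    rintro rfl
    exact hw ((hker a).2 (Or.inr rfl))
  · rintro ⟨a, ha, rfl⟩
    rw [Finset.mem_erase] at ha
    exact ⟨ctr_pi_ne_zero π E e hker h0 ha.2 ha.1, a, ha.2, rfl⟩

omit [Module (ZMod 2) V] in
theorem ctr_FF_add [Module (ZMod 2) V] {a : V} (ha : a ∈ ctrFF E e) : a + e ∈ ctrFF E e := by
  obtain ⟨h1, h2⟩ := Finset.mem_filter.1 ha
  refine Finset.mem_filter.2 ⟨h2, ?_⟩
  rwa [add_assoc, ctr_two_add, add_zero]

include hker h0 he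

theorem card_DD : 2 * (DD π E e).card = deg E e := by
  rw [ctr_DD_eq π E e hker h0]
  change _ = (ctrFF E e).card
  rw [Finset.card_eq_sum_card_image π (ctrFF E e), Finset.sum_const_nat (m := 2), mul_comm]
  intro w hw
  obtain ⟨a, ha, rfl⟩ := Finset.mem_image.1 hw
  have : (ctrFF E e).filter (fun x => π x = π a) = {a, a + e} := by
    ext x
    rw [Finset.mem_filter, ctr_pi_eq_iff π e hker, Finset.mem_insert, Finset.mem_singleton]
    constructor
    · exact fun h => h.2
    · rintro (h | h)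
      · exact ⟨h ▸ ha, Or.inl h⟩
      · exact ⟨h ▸ ctr_FF_add E e ha, Or.inr h⟩
  rw [this, Finset.card_pair]
  intro h
  have : e = 0 := by
    have h2 := congrArg (fun z => z - a) h
    simpa using h2.symm
  exact h0 (this ▸ he)

theorem card_contr : 2 * (contr π E).card + 2 + deg E e = 2 * E.card := by
  have hDD := card_DD π E e hker h0 he
  rw [ctr_DD_eq π E e hker h0] at hDD
  have h1 : (E.erase e) = (ctrFF E e) ∪ ((E.erase e) \ (ctrFF E e)) := by
    rw [Finset.union_sdiff_of_subset]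
    intro a ha
    exact Finset.mem_erase.2 ⟨ctr_ne_of_FF E e h0 ha, (Finset.mem_filter.1 ha).1⟩
  have h2 : (contr π E).card = ((ctrFF E e).image π).card + ((E.erase e) \ (ctrFF E e)).card := by
    rw [ctr_contr_eq π E e hker h0]
    conv_lhs => rw [h1, Finset.image_union]
    rw [Finset.card_union_of_disjoint]
    · congr 1
      rw [Finset.card_image_of_injOn]
      intro a ha b hb hab
      rw [Finset.mem_coe, Finset.mem_sdiff, Finset.mem_erase] at ha hb
      rcases (ctr_pi_eq_iff π e hker a b).1 hab with h | h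
      · exact h
      · exfalso
        exact hb.2 (Finset.mem_filter.2 ⟨hb.1.2, h ▸ ha.1.2⟩)
    · rw [Finset.disjoint_left]
      intro w hw hw'
      obtain ⟨a, ha, rfl⟩ := Finset.mem_image.1 hw
      obtain ⟨b, hb, hab⟩ := Finset.mem_image.1 hw'
      rw [Finset.mem_sdiff] at hb
      rcases (ctr_pi_eq_iff π e hker b a).1 hab with h | h
      · exact hb.2 (h ▸ ha)
      · exact hb.2 (h ▸ ctr_FF_add E e ha)
  have h3 : (E.erase e).card = (ctrFF E e).card + ((E.erase e) \ (ctrFF E e)).card := by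
    conv_lhs => rw [h1]
    rw [Finset.card_union_of_disjoint Finset.disjoint_sdiff]
  have h4 : (E.erase e).card + 1 = E.card := Finset.card_erase_add_one he
  have h5 : deg E e = (ctrFF E e).card := rfl
  omega

omit he in
/-- the fibre of `E` over `x` -/
theorem ctr_card_fib_le {x : W} (hxD : x ∉ DD π E e) :
    (E.filter (fun a => π a = x)).card ≤ 1 := by
  rw [Finset.card_le_one]
  intro a ha b hb
  rw [Finset.mem_filter] at ha hb
  rcases (ctr_pi_eq_iff π e hker a b).1 (ha.2.trans hb.2.symm) with h | h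
  · exact h
  · exfalso
    refine hxD ?_
    rw [ctr_DD_eq π E e hker h0, ← hb.2]
    exact Finset.mem_image_of_mem _ (Finset.mem_filter.2 ⟨hb.1, h ▸ ha.1⟩)

omit h0 he in
omit [DecidableEq V] in
theorem ctr_card_fib_le_two (x : W) :
    (E.filter (fun a => π a = x)).card ≤ 2 := by
  classical
  by_cases hne : (E.filter (fun a => π a = x)).Nonempty
  · obtain ⟨a, ha⟩ := hne
    refine (Finset.card_le_card (t := {a, a + e}) ?_).trans Finset.card_le_two
    intro b hb
    rw [Finset.mem_filter] at ha hb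
    rw [Finset.mem_insert, Finset.mem_singleton]
    exact (ctr_pi_eq_iff π e hker b a).1 (hb.2.trans ha.2.symm)
  · rw [Finset.not_nonempty_iff_eq_empty.1 hne]
    simp

theorem tri_contr : tri E ≤ tri (contr π E) + 3 * deg E e + 3 * EE π E e := by
  set T := (E ×ˢ E).filter (fun p => p.1 + p.2 ∈ E) with hT
  set T1 := T.filter (fun p => p.1 = e) with hT1
  set T2 := T.filter (fun p => p.2 = e) with hT2
  set T3 := T.filter (fun p => p.1 + p.2 = e) with hT3
  set T4 := T.filter (fun p => p.1 ≠ e ∧ p.2 ≠ e ∧ p.1 + p.2 ≠ e) with hT4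
  have hcov : T ⊆ T1 ∪ (T2 ∪ (T3 ∪ T4)) := by
    intro p hp
    simp only [hT1, hT2, hT3, hT4, Finset.mem_union, Finset.mem_filter, hp, true_and]
    tauto
  have hc1 : T1.card ≤ deg E e := by
    refine Finset.card_le_card_of_injOn (fun p => p.2) ?_ ?_
    · intro p hp
      rw [Finset.mem_coe, hT1, Finset.mem_filter, hT, Finset.mem_filter, Finset.mem_product] at hp
      refine Finset.mem_coe.2 (Finset.mem_filter.2 ⟨hp.1.1.2, ?_⟩)
      have := hp.1.2
      rwa [hp.2, add_comm] at this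
    · intro p hp q hq hpq
      rw [Finset.mem_coe, hT1, Finset.mem_filter] at hp hq
      exact Prod.ext (hp.2.trans hq.2.symm) hpq
  have hc2 : T2.card ≤ deg E e := by
    refine Finset.card_le_card_of_injOn (fun p => p.1) ?_ ?_
    · intro p hp
      rw [Finset.mem_coe, hT2, Finset.mem_filter, hT, Finset.mem_filter, Finset.mem_product] at hp
      refine Finset.mem_coe.2 (Finset.mem_filter.2 ⟨hp.1.1.1, ?_⟩)
      have := hp.1.2
      rwa [hp.2] at this
    · intro p hp q hq hpq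
      rw [Finset.mem_coe, hT2, Finset.mem_filter] at hp hq
      exact Prod.ext hpq (hp.2.trans hq.2.symm)
  have hc3 : T3.card ≤ deg E e := by
    refine Finset.card_le_card_of_injOn (fun p => p.1) ?_ ?_
    · intro p hp
      rw [Finset.mem_coe, hT3, Finset.mem_filter, hT, Finset.mem_filter, Finset.mem_product] at hp
      refine Finset.mem_coe.2 (Finset.mem_filter.2 ⟨hp.1.1.1, ?_⟩)
      have : p.1 + e = p.2 := by rw [← hp.2, ← add_assoc, ctr_two_add, zero_add]
      change p.1 + e ∈ E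
      rw [this]
      exact hp.1.1.2
    · intro p hp q hq hpq
      rw [Finset.mem_coe, hT3, Finset.mem_filter] at hp hq
      have hpq' : p.1 = q.1 := hpq
      refine Prod.ext hpq' ?_
      have := hp.2.trans hq.2.symm
      rw [hpq'] at this
      exact add_left_cancel this
  -- the remaining pairs
  set S := (contr π E ×ˢ contr π E).filter (fun p => p.1 + p.2 ∈ contr π E) with hS
  have hmap : ∀ p ∈ T4, (π p.1, π p.2) ∈ S := by
    intro p hp
    rw [hT4, Finset.mem_filter, hT, Finset.mem_filter, Finset.mem_product] at hp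
    have hmem : ∀ a ∈ E, a ≠ e → π a ∈ contr π E := by
      intro a ha hae
      rw [ctr_contr_eq π E e hker h0]
      exact Finset.mem_image_of_mem _ (Finset.mem_erase.2 ⟨hae, ha⟩)
    rw [hS, Finset.mem_filter, Finset.mem_product]
    refine ⟨⟨hmem _ hp.1.1.1 hp.2.1, hmem _ hp.1.1.2 hp.2.2.1⟩, ?_⟩
    change π p.1 + π p.2 ∈ _
    rw [← map_add]
    exact hmem _ hp.1.2 hp.2.2.2
  let D := DD π E e
  have hfib : ∀ q ∈ S, (T4.filter (fun p => (π p.1, π p.2) = q)).card ≤
      1 + ((if q.1 ∈ D ∧ q.2 ∈ D then 1 else 0) + (if q.2 ∈ D ∧ q.1 + q.2 ∈ D then 1 else 0) +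
        (if q.1 ∈ D ∧ q.1 + q.2 ∈ D then 1 else 0)) := by
    intro q hq
    rw [hS, Finset.mem_filter, Finset.mem_product] at hq
    set A := E.filter (fun a => π a = q.1)
    set B := E.filter (fun a => π a = q.2)
    set C := E.filter (fun a => π a = q.1 + q.2)
    have hAB : (T4.filter (fun p => (π p.1, π p.2) = q)).card ≤ A.card * B.card := by
      rw [← Finset.card_product]
      refine Finset.card_le_card_of_injOn id ?_ (fun _ _ _ _ h => h)
      intro p hp
      rw [Finset.mem_coe, Finset.mem_filter, hT4, Finset.mem_filter, hT, Finset.mem_filter,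
        Finset.mem_product] at hp
      have h1 := congrArg Prod.fst hp.2
      have h2 := congrArg Prod.snd hp.2
      exact Finset.mem_coe.2 (Finset.mem_product.2 ⟨Finset.mem_filter.2 ⟨hp.1.1.1.1, h1⟩,
        Finset.mem_filter.2 ⟨hp.1.1.1.2, h2⟩⟩)
    have hAC : (T4.filter (fun p => (π p.1, π p.2) = q)).card ≤ A.card * C.card := by
      rw [← Finset.card_product]
      refine Finset.card_le_card_of_injOn (fun p => (p.1, p.1 + p.2)) ?_ ?_
      · intro p hp
        rw [Finset.mem_coe, Finset.mem_filter, hT4, Finset.mem_filter, hT, Finset.mem_filter,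
          Finset.mem_product] at hp
        have h1 : π p.1 = q.1 := congrArg Prod.fst hp.2
        have h2 : π p.2 = q.2 := congrArg Prod.snd hp.2
        refine Finset.mem_coe.2 (Finset.mem_product.2 ⟨Finset.mem_filter.2 ⟨hp.1.1.1.1, h1⟩,
          Finset.mem_filter.2 ⟨hp.1.1.2, ?_⟩⟩)
        change π (p.1 + p.2) = _
        rw [map_add, h1, h2]
      · intro p _ p' _ h
        obtain ⟨h1, h2⟩ := Prod.mk.inj (show (p.1, p.1 + p.2) = (p'.1, p'.1 + p'.2) from h)
        rw [h1] at h2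
        exact Prod.ext h1 (add_left_cancel h2)
    have hBC : (T4.filter (fun p => (π p.1, π p.2) = q)).card ≤ B.card * C.card := by
      rw [← Finset.card_product]
      refine Finset.card_le_card_of_injOn (fun p => (p.2, p.1 + p.2)) ?_ ?_
      · intro p hp
        rw [Finset.mem_coe, Finset.mem_filter, hT4, Finset.mem_filter, hT, Finset.mem_filter,
          Finset.mem_product] at hp
        have h1 : π p.1 = q.1 := congrArg Prod.fst hp.2
        have h2 : π p.2 = q.2 := congrArg Prod.snd hp.2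
        refine Finset.mem_coe.2 (Finset.mem_product.2 ⟨Finset.mem_filter.2 ⟨hp.1.1.1.2, h2⟩,
          Finset.mem_filter.2 ⟨hp.1.1.2, ?_⟩⟩)
        change π (p.1 + p.2) = _
        rw [map_add, h1, h2]
      · intro p _ p' _ h
        obtain ⟨h1, h2⟩ := Prod.mk.inj (show (p.2, p.1 + p.2) = (p'.2, p'.1 + p'.2) from h)
        rw [h1] at h2
        exact Prod.ext (add_right_cancel h2) h1
    have hA2 : A.card ≤ 2 := ctr_card_fib_le_two π E e hker q.1
    have hB2 : B.card ≤ 2 := ctr_card_fib_le_two π E e hker q.2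
    have hC2 : C.card ≤ 2 := ctr_card_fib_le_two π E e hker (q.1 + q.2)
    have hA1 : q.1 ∉ D → A.card ≤ 1 := fun h => ctr_card_fib_le π E e hker h0 h
    have hB1 : q.2 ∉ D → B.card ≤ 1 := fun h => ctr_card_fib_le π E e hker h0 h
    have hC1 : q.1 + q.2 ∉ D → C.card ≤ 1 := fun h => ctr_card_fib_le π E e hker h0 h
    have hm : ∀ x y : ℕ, ∀ a b : ℕ, x ≤ a → y ≤ b → x * y ≤ a * b :=
      fun x y a b h1 h2 => Nat.mul_le_mul h1 h2
    by_cases ha : q.1 ∈ D <;> by_cases hb : q.2 ∈ D <;> by_cases hc : q.1 + q.2 ∈ D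
    · simp only [ha, hb, hc, and_self, if_true]
      exact hAB.trans (hm _ _ 2 2 hA2 hB2)
    · simp only [ha, hb, hc, and_self, and_true, and_false, if_true, if_false]
      exact hBC.trans (hm _ _ 2 1 hB2 (hC1 hc))
    · simp only [ha, hb, hc, and_self, and_true, and_false, false_and, if_true, if_false]
      exact hBC.trans (hm _ _ 1 2 (hB1 hb) hC2)
    · simp only [ha, hb, hc, and_true, and_false, false_and, and_self, if_false]
      exact hBC.trans (hm _ _ 1 1 (hB1 hb) (hC1 hc))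
    · simp only [ha, hb, hc, and_self, and_true, and_false, false_and, if_true, if_false]
      exact hAB.trans (hm _ _ 1 2 (hA1 ha) hB2)
    · simp only [ha, hb, hc, and_true, and_false, false_and, and_self, if_false]
      exact hAC.trans (hm _ _ 1 1 (hA1 ha) (hC1 hc))
    · simp only [ha, hb, hc, and_true, and_false, false_and, and_self, if_false]
      exact hAB.trans (hm _ _ 1 1 (hA1 ha) (hB1 hb))
    · simp only [ha, hb, hc, and_false, and_self, if_false]
      exact hAB.trans (hm _ _ 1 1 (hA1 ha) (hB1 hb))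
  have hDc : D ⊆ contr π E := by
    intro w hw
    have hw := Finset.mem_erase.1 hw
    rw [contr, Finset.mem_erase]
    refine ⟨hw.1, ?_⟩
    exact Finset.image_subset_image (Finset.filter_subset _ _) hw.2
  have hs1 : (S.filter (fun q => q.1 ∈ D ∧ q.2 ∈ D)).card ≤ EE π E e := by
    refine Finset.card_le_card_of_injOn id ?_ (fun _ _ _ _ h => h)
    intro q hq
    rw [Finset.mem_coe, Finset.mem_filter, hS, Finset.mem_filter] at hq
    exact Finset.mem_coe.2 (Finset.mem_filter.2 ⟨Finset.mem_product.2 hq.2, hq.1.2⟩)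
  have hs2 : (S.filter (fun q => q.2 ∈ D ∧ q.1 + q.2 ∈ D)).card ≤ EE π E e := by
    refine Finset.card_le_card_of_injOn (fun q => (q.2, q.1 + q.2)) ?_ ?_
    · intro q hq
      rw [Finset.mem_coe, Finset.mem_filter, hS, Finset.mem_filter, Finset.mem_product] at hq
      refine Finset.mem_coe.2 (Finset.mem_filter.2 ⟨Finset.mem_product.2 hq.2, ?_⟩)
      change q.2 + (q.1 + q.2) ∈ _
      rw [add_left_comm, ctr_two_add, add_zero]
      exact hq.1.1.1
    · intro p _ p' _ h
      obtain ⟨h1, h2⟩ := Prod.mk.inj (show (p.2, p.1 + p.2) = (p'.2, p'.1 + p'.2) from h)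
      rw [h1] at h2
      exact Prod.ext (add_right_cancel h2) h1
  have hs3 : (S.filter (fun q => q.1 ∈ D ∧ q.1 + q.2 ∈ D)).card ≤ EE π E e := by
    refine Finset.card_le_card_of_injOn (fun q => (q.1, q.1 + q.2)) ?_ ?_
    · intro q hq
      rw [Finset.mem_coe, Finset.mem_filter, hS, Finset.mem_filter, Finset.mem_product] at hq
      refine Finset.mem_coe.2 (Finset.mem_filter.2 ⟨Finset.mem_product.2 hq.2, ?_⟩)
      change q.1 + (q.1 + q.2) ∈ _
      rw [← add_assoc, ctr_two_add, zero_add]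
      exact hq.1.1.2
    · intro p _ p' _ h
      obtain ⟨h1, h2⟩ := Prod.mk.inj (show (p.1, p.1 + p.2) = (p'.1, p'.1 + p'.2) from h)
      rw [h1] at h2
      exact Prod.ext h1 (add_left_cancel h2)
  have hc4 : T4.card ≤ tri (contr π E) + 3 * EE π E e := by
    rw [Finset.card_eq_sum_card_fiberwise (f := fun p => (π p.1, π p.2)) (t := S)
      (fun p hp => hmap p hp)]
    refine (Finset.sum_le_sum hfib).trans ?_
    rw [Finset.sum_add_distrib, Finset.sum_add_distrib, Finset.sum_add_distrib,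
      ← Finset.card_filter, ← Finset.card_filter, ← Finset.card_filter, Finset.sum_const,
      smul_eq_mul, mul_one]
    have : S.card = tri (contr π E) := rfl
    omega
  have hle : tri E ≤ T1.card + (T2.card + (T3.card + T4.card)) := by
    change T.card ≤ _
    refine (Finset.card_le_card hcov).trans ((Finset.card_union_le _ _).trans ?_)
    gcongr
    refine (Finset.card_union_le _ _).trans ?_
    gcongr
    exact Finset.card_union_le _ _
  omega

omit hker he in
theorem sum_deg : ∑ x ∈ E, deg E x = tri E := by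
  unfold deg tri
  rw [Finset.card_eq_sum_card_fiberwise (f := fun p : V × V => p.2) (t := E)
    (fun p hp => (Finset.mem_product.1 (Finset.mem_filter.1 hp).1).2)]
  refine Finset.sum_congr rfl fun x hx => ?_
  refine Finset.card_bij (fun a _ => (a, x)) ?_ ?_ ?_
  · intro a ha
    rw [Finset.mem_filter] at ha
    rw [Finset.mem_filter, Finset.mem_filter, Finset.mem_product]
    exact ⟨⟨⟨ha.1, hx⟩, ha.2⟩, rfl⟩
  · intro a _ b _ h
    exact congrArg Prod.fst h
  · rintro ⟨a, b⟩ hp
    rw [Finset.mem_filter, Finset.mem_filter, Finset.mem_product] at hp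
    obtain ⟨⟨⟨h1, h2⟩, h3⟩, h4⟩ := hp
    have h4' : b = x := h4
    subst h4'
    exact ⟨a, Finset.mem_filter.2 ⟨h1, h3⟩, rfl⟩

end Contr

end Pool.Agent.WW

end

section

/-!
Matroid intersection for vector matroids.
-/

namespace Pool.Agent.WW

open Submodule Module

section LinInt

variable {ι k U' : Type*} [DecidableEq ι] [Field k] [AddCommGroup U'] [Module k U']
    [FiniteDimensional k U']

theorem finrank_submod (P Q R S : Submodule k U') (h1 : R ≤ P ⊔ Q) (h2 : S ≤ P ⊓ Q) :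
    finrank k R + finrank k S ≤ finrank k P + finrank k Q := by
  have h3 := Submodule.finrank_mono h1
  have h4 := Submodule.finrank_mono h2
  have h5 := Submodule.finrank_sup_add_finrank_inf_eq P Q
  omega

theorem finrank_sup_singleton' (U : Submodule k U') (y : U') (hy : y ∉ U) :
    finrank k ↥(U ⊔ span k {y}) = finrank k U + 1 := by
  have h0 : y ≠ 0 := fun h => hy (h ▸ U.zero_mem)
  have h1 := Submodule.finrank_sup_add_finrank_inf_eq U (span k {y})
  have h2 : U ⊓ span k {y} = ⊥ := by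
    rw [eq_bot_iff]
    intro z hz
    obtain ⟨hz1, hz2⟩ := Submodule.mem_inf.1 hz
    obtain ⟨c, rfl⟩ := Submodule.mem_span_singleton.1 hz2
    by_cases hc : c = 0
    · simp [hc]
    · exact absurd ((Submodule.smul_mem_iff _ hc).1 hz1) hy
  rw [h2, finrank_bot, finrank_span_singleton h0] at h1
  omega

theorem lin_inter (v : ι → U') (U W : Submodule k U') (E : Finset ι) (ν : ℕ)
    (h : ∀ A ⊆ E, finrank k U + finrank k W + ν ≤
      finrank k ↥(U ⊔ span k (v '' A)) + finrank k ↥(W ⊔ span k (v '' (E \ A : Finset ι)))) :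
    ∃ Z ⊆ E, Z.card = ν ∧ finrank k ↥(U ⊔ span k (v '' Z)) = finrank k U + ν ∧
      finrank k ↥(W ⊔ span k (v '' Z)) = finrank k W + ν := by
  induction E using Finset.induction_on generalizing U W ν with
  | empty =>
    have h0 := h ∅ (Finset.Subset.refl _)
    have e1 : span k (v '' ((∅ : Finset ι) : Set ι)) = ⊥ := by simp
    have e2 : span k (v '' ((∅ \ ∅ : Finset ι) : Set ι)) = ⊥ := by simp
    have hν : ν = 0 := by
      have h1 : finrank k ↥(U ⊔ span k (v '' ((∅ : Finset ι) : Set ι))) = finrank k U := by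
        rw [e1, sup_bot_eq]
      have h2 : finrank k ↥(W ⊔ span k (v '' ((∅ \ ∅ : Finset ι) : Set ι))) = finrank k W := by
        rw [e2, sup_bot_eq]
      rw [h1, h2] at h0
      omega
    subst hν
    exact ⟨∅, Finset.Subset.refl _, rfl, by rw [e1, sup_bot_eq, add_zero],
      by rw [e1, sup_bot_eq, add_zero]⟩
  | insert x E' hx ih =>
    have mono : ∀ {S T : Finset ι}, S ⊆ T → span k (v '' (S : Set ι)) ≤ span k (v '' (T : Set ι)) :=
      fun hST => span_mono (Set.image_mono (by exact_mod_cast hST))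
    have ins : ∀ (P : Submodule k U') (S : Finset ι),
        P ⊔ span k (v '' (insert x S : Finset ι)) = P ⊔ span k {v x} ⊔ span k (v '' (S : Set ι)) := by
      intro P S
      rw [Finset.coe_insert, Set.image_insert_eq, span_insert, sup_assoc]
    have hE1 : ∀ A ⊆ E', insert x E' \ insert x A = E' \ A := by
      intro A hA
      ext y
      simp only [Finset.mem_sdiff, Finset.mem_insert, not_or]
      constructor
      · rintro ⟨h1 | h1, h2, h3⟩
        · exact absurd h1 h2
        · exact ⟨h1, h3⟩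
      · rintro ⟨h1, h2⟩
        exact ⟨Or.inr h1, fun h3 => hx (h3 ▸ h1), h2⟩
    have hE2 : ∀ A ⊆ E', insert x E' \ A = insert x (E' \ A) := by
      intro A hA
      ext y
      simp only [Finset.mem_sdiff, Finset.mem_insert]
      constructor
      · rintro ⟨h1 | h1, h2⟩
        · exact Or.inl h1
        · exact Or.inr ⟨h1, h2⟩
      · rintro (h1 | ⟨h1, h2⟩)
        · exact ⟨Or.inl h1, fun h3 => hx (hA (h1 ▸ h3))⟩
        · exact ⟨Or.inr h1, h2⟩
    by_cases h1 : ∀ A ⊆ E', finrank k U + finrank k W + ν ≤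
      finrank k ↥(U ⊔ span k (v '' A)) + finrank k ↥(W ⊔ span k (v '' (E' \ A : Finset ι)))
    · obtain ⟨Z, hZ, h2, h3, h4⟩ := ih U W ν h1
      exact ⟨Z, hZ.trans (Finset.subset_insert _ _), h2, h3, h4⟩
    push Not at h1
    obtain ⟨A, hA, hAlt⟩ := h1
    have hleU : ∀ S : Finset ι, finrank k U ≤ finrank k ↥(U ⊔ span k (v '' (S : Set ι))) :=
      fun S => Submodule.finrank_mono le_sup_left
    have hleW : ∀ S : Finset ι, finrank k W ≤ finrank k ↥(W ⊔ span k (v '' (S : Set ι))) :=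
      fun S => Submodule.finrank_mono le_sup_left
    have hνpos : 1 ≤ ν := by
      have := hleU A
      have := hleW (E' \ A)
      omega
    have hxU : v x ∉ U := by
      intro hmem
      have h2 := h (insert x A) (Finset.insert_subset_insert _ hA)
      rw [hE1 A hA, ins, sup_eq_left.2 ((span_singleton_le_iff_mem _ _).2 hmem)] at h2
      omega
    have hxW : v x ∉ W := by
      intro hmem
      have h2 := h A (hA.trans (Finset.subset_insert _ _))
      rw [hE2 A hA, ins, sup_eq_left.2 ((span_singleton_le_iff_mem _ _).2 hmem)] at h2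
      omega
    have hU1 := finrank_sup_singleton' U (v x) hxU
    have hW1 := finrank_sup_singleton' W (v x) hxW
    by_cases h2 : ∀ B ⊆ E', finrank k ↥(U ⊔ span k {v x}) + finrank k ↥(W ⊔ span k {v x}) + (ν - 1) ≤
      finrank k ↥(U ⊔ span k {v x} ⊔ span k (v '' B)) +
        finrank k ↥(W ⊔ span k {v x} ⊔ span k (v '' (E' \ B : Finset ι)))
    · obtain ⟨Z, hZ, h3, h4, h5⟩ := ih _ _ (ν - 1) h2
      refine ⟨insert x Z, Finset.insert_subset_insert _ hZ, ?_, ?_, ?_⟩
      · rw [Finset.card_insert_of_notMem (fun h6 => hx (hZ h6)), h3]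
        omega
      · rw [ins, h4]
        omega
      · rw [ins, h5]
        omega
    push Not at h2
    obtain ⟨B, hB, hBlt⟩ := h2
    exfalso
    have g1 := h (insert x (A ∪ B)) (Finset.insert_subset_insert _ (Finset.union_subset hA hB))
    have g2 := h (A ∩ B) ((Finset.inter_subset_left.trans hA).trans (Finset.subset_insert _ _))
    rw [hE1 _ (Finset.union_subset hA hB), ins] at g1
    rw [hE2 _ (Finset.inter_subset_left.trans hA), ins] at g2
    have s1 := finrank_submod (U ⊔ span k (v '' (A : Set ι)))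
      (U ⊔ span k {v x} ⊔ span k (v '' (B : Set ι)))
      (U ⊔ span k {v x} ⊔ span k (v '' ((A ∪ B : Finset ι) : Set ι)))
      (U ⊔ span k (v '' ((A ∩ B : Finset ι) : Set ι)))
      (by
        rw [Finset.coe_union, Set.image_union, span_union]
        refine sup_le (sup_le (le_sup_left.trans le_sup_left) ?_) (sup_le ?_ ?_)
        · exact (le_sup_right.trans le_sup_left).trans le_sup_right
        · exact le_sup_right.trans le_sup_left
        · exact le_sup_right.trans le_sup_right)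
      (by
        refine le_inf (sup_le_sup le_rfl (mono Finset.inter_subset_left)) ?_
        exact sup_le_sup le_sup_left (mono Finset.inter_subset_right))
    have s2 := finrank_submod (W ⊔ span k (v '' ((E' \ A : Finset ι) : Set ι)))
      (W ⊔ span k {v x} ⊔ span k (v '' ((E' \ B : Finset ι) : Set ι)))
      (W ⊔ span k {v x} ⊔ span k (v '' ((E' \ (A ∩ B) : Finset ι) : Set ι)))
      (W ⊔ span k (v '' ((E' \ (A ∪ B) : Finset ι) : Set ι)))
      (by
        have h6 : E' \ (A ∩ B) = (E' \ A) ∪ (E' \ B) := by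
          ext y
          simp only [Finset.mem_sdiff, Finset.mem_inter, Finset.mem_union]
          tauto
        rw [h6, Finset.coe_union, Set.image_union, span_union]
        refine sup_le (sup_le (le_sup_left.trans le_sup_left) ?_) (sup_le ?_ ?_)
        · exact (le_sup_right.trans le_sup_left).trans le_sup_right
        · exact le_sup_right.trans le_sup_left
        · exact le_sup_right.trans le_sup_right)
      (by
        refine le_inf (sup_le_sup le_rfl (mono (Finset.sdiff_subset_sdiff le_rfl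
          Finset.subset_union_left))) ?_
        exact sup_le_sup le_sup_left (mono (Finset.sdiff_subset_sdiff le_rfl
          Finset.subset_union_right)))
    omega

end LinInt

end Pool.Agent.WW

end

section

/-!
Rado's theorem for families of vectors (independent transversals), and the partition of a
finite set of vectors of `V` with `|X| ≤ k r(X)` into `k` independent sets, in the form of
`k` linear functionals.
-/

namespace Pool.Agent.WW

open Submodule Module

section Rado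

variable {ι κ F U : Type*} [DecidableEq ι] [DecidableEq κ] [Field F] [AddCommGroup U]
  [Module F U]

/-- the span of all choices for the members of `X` -/
def radoSpan (F : Type*) {ι κ U : Type*} [Field F] [AddCommGroup U] [Module F U]
    (w : ι → κ → U) (S : ι → Finset κ) (X : Finset ι) : Submodule F U :=
  span F {u | ∃ e ∈ X, ∃ i ∈ S e, u = w e i}

omit [DecidableEq ι] [DecidableEq κ] in
theorem mem_radoSpan (w : ι → κ → U) (S : ι → Finset κ) (X : Finset ι) {e : ι} {i : κ}
    (he : e ∈ X) (hi : i ∈ S e) : w e i ∈ radoSpan F w S X :=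
  subset_span ⟨e, he, i, hi, rfl⟩

omit [DecidableEq ι] [DecidableEq κ] in
theorem radoSpan_le (w : ι → κ → U) (S : ι → Finset κ) (X : Finset ι) (P : Submodule F U)
    (h : ∀ e ∈ X, ∀ i ∈ S e, w e i ∈ P) : radoSpan F w S X ≤ P := by
  rw [radoSpan, span_le]
  rintro _ ⟨e, he, i, hi, rfl⟩
  exact h e he i hi

/-- Rado's theorem for vector families. -/
theorem rado [FiniteDimensional F U] [Nonempty κ] (w : ι → κ → U) (E : Finset ι) :
    ∀ (n : ℕ) (S : ι → Finset κ), ∑ e ∈ E, (S e).card = n →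
      (∀ X ⊆ E, X.card ≤ finrank F (radoSpan F w S X)) →
      ∃ c : ι → κ, (∀ e ∈ E, c e ∈ S e) ∧ LinearIndependent F (fun e : E => w e (c e)) := by
  intro n
  induction n using Nat.strong_induction_on with
  | _ n IH =>
    intro S hn h
    by_cases hall : ∀ e ∈ E, (S e).card ≤ 1
    · have hne : ∀ e ∈ E, (S e).Nonempty := by
        intro e he
        by_contra hcon
        rw [Finset.not_nonempty_iff_eq_empty] at hcon
        have h1 := h {e} (by simpa using he)
        have h2 : radoSpan F w S {e} = ⊥ := by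
          rw [eq_bot_iff]
          apply radoSpan_le
          intro e' he' i hi
          rw [Finset.mem_singleton] at he'
          subst he'
          simp [hcon] at hi
        rw [h2] at h1
        simp at h1
      have hex : ∀ e, ∃ c : κ, e ∈ E → S e = {c} := by
        intro e
        by_cases he : e ∈ E
        · have h1 : (S e).card = 1 := le_antisymm (hall e he) (Finset.card_pos.mpr (hne e he))
          obtain ⟨c, hc⟩ := Finset.card_eq_one.mp h1
          exact ⟨c, fun _ => hc⟩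
        · exact ⟨Classical.arbitrary κ, fun h' => absurd h' he⟩
      choose c hc using hex
      refine ⟨c, fun e he => by rw [hc e he]; simp, ?_⟩
      rw [linearIndependent_iff_card_le_finrank_span]
      have h1 := h E subset_rfl
      rw [Fintype.card_coe]
      refine h1.trans (Submodule.finrank_mono ?_)
      apply radoSpan_le
      intro e he i hi
      rw [hc e he, Finset.mem_singleton] at hi
      subst hi
      exact subset_span ⟨⟨e, he⟩, rfl⟩
    · push Not at hall
      obtain ⟨e0, he0, hcard⟩ := hall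
      obtain ⟨x, hx, y, hy, hxy⟩ := Finset.one_lt_card.mp hcard
      -- removing a choice
      have key : ∀ z ∈ S e0, (∀ X ⊆ E, X.card ≤ finrank F
          (radoSpan F w (Function.update S e0 ((S e0).erase z)) X)) →
          ∃ c : ι → κ, (∀ e ∈ E, c e ∈ S e) ∧
            LinearIndependent F (fun e : E => w e (c e)) := by
        intro z hz hX
        have hlt : ∑ e ∈ E, (Function.update S e0 ((S e0).erase z) e).card < n := by
          rw [← hn]
          apply Finset.sum_lt_sum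
          · intro e _
            by_cases hee : e = e0
            · subst hee
              simp [Finset.card_le_card (Finset.erase_subset z (S e))]
            · simp [Function.update_of_ne hee]
          · refine ⟨e0, he0, ?_⟩
            simpa using Finset.card_erase_lt_of_mem hz
        obtain ⟨c, hc1, hc2⟩ := IH _ hlt _ rfl hX
        refine ⟨c, fun e he => ?_, hc2⟩
        have := hc1 e he
        by_cases hee : e = e0
        · subst hee
          simp only [Function.update_self] at this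
          exact Finset.mem_of_mem_erase this
        · rwa [Function.update_of_ne hee] at this
      by_contra hcon
      have hx' := mt (key x hx) hcon
      have hy' := mt (key y hy) hcon
      push Not at hx' hy'
      obtain ⟨A, hA, hA'⟩ := hx'
      obtain ⟨B, hB, hB'⟩ := hy'
      have hmem : ∀ (z : κ) (X : Finset ι), X ⊆ E → finrank F
          (radoSpan F w (Function.update S e0 ((S e0).erase z)) X) < X.card → e0 ∈ X := by
        intro z X hX hlt
        by_contra hc0
        have : radoSpan F w (Function.update S e0 ((S e0).erase z)) X = radoSpan F w S X := by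
          apply le_antisymm
          · apply radoSpan_le
            intro e he i hi
            have hee : e ≠ e0 := fun h0 => hc0 (h0 ▸ he)
            rw [Function.update_of_ne hee] at hi
            exact mem_radoSpan w S X he hi
          · apply radoSpan_le
            intro e he i hi
            have hee : e ≠ e0 := fun h0 => hc0 (h0 ▸ he)
            refine mem_radoSpan w _ X he ?_
            rwa [Function.update_of_ne hee]
        rw [this] at hlt
        exact absurd (h X hX) (not_le.mpr hlt)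
      have heA := hmem x A hA hA'
      have heB := hmem y B hB hB'
      set P := radoSpan F w (Function.update S e0 ((S e0).erase x)) A with hP
      set Q := radoSpan F w (Function.update S e0 ((S e0).erase y)) B with hQ
      have h1 : radoSpan F w S (A ∪ B) ≤ P ⊔ Q := by
        apply radoSpan_le
        intro e he i hi
        by_cases hee : e = e0
        · subst hee
          by_cases hix : i = x
          · subst hix
            apply mem_sup_right
            refine mem_radoSpan w _ B heB ?_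
            simp [hi, hxy]
          · apply mem_sup_left
            refine mem_radoSpan w _ A heA ?_
            simp [hi, hix]
        · rcases Finset.mem_union.mp he with he | he
          · apply mem_sup_left
            refine mem_radoSpan w _ A he ?_
            rwa [Function.update_of_ne hee]
          · apply mem_sup_right
            refine mem_radoSpan w _ B he ?_
            rwa [Function.update_of_ne hee]
      have h2 : radoSpan F w S ((A ∩ B).erase e0) ≤ P ⊓ Q := by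
        apply radoSpan_le
        intro e he i hi
        have hee : e ≠ e0 := Finset.ne_of_mem_erase he
        have he' := Finset.mem_inter.mp (Finset.mem_of_mem_erase he)
        refine ⟨mem_radoSpan w _ A he'.1 ?_, mem_radoSpan w _ B he'.2 ?_⟩
        · rwa [Function.update_of_ne hee]
        · rwa [Function.update_of_ne hee]
      have h3 := Submodule.finrank_mono h1
      have h4 := Submodule.finrank_mono h2
      have h5 := h (A ∪ B) (Finset.union_subset hA hB)
      have h6 := h ((A ∩ B).erase e0)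
        ((Finset.erase_subset _ _).trans (Finset.inter_subset_left.trans hA))
      have h7 := Submodule.finrank_sup_add_finrank_inf_eq P Q
      have h8 := Finset.card_union_add_card_inter A B
      have h9 : ((A ∩ B).erase e0).card = (A ∩ B).card - 1 :=
        Finset.card_erase_of_mem (Finset.mem_inter.mpr ⟨heA, heB⟩)
      have h10 : 0 < (A ∩ B).card := Finset.card_pos.mpr ⟨e0, Finset.mem_inter.mpr ⟨heA, heB⟩⟩
      omega

end Rado

variable {V : Type*} [AddCommGroup V] [Module (ZMod 2) V]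

theorem finrank_radoSpan [FiniteDimensional (ZMod 2) V] (k : ℕ) (X : Finset V) :
    k * finrank (ZMod 2) ↥(span (ZMod 2) (X : Set V)) ≤
      finrank (ZMod 2) (radoSpan (ZMod 2) (fun (e : V) (i : Fin k) => (Pi.single i e : Fin k → V))
        (fun _ => Finset.univ) X) := by
  classical
  set P := radoSpan (ZMod 2) (fun (e : V) (i : Fin k) => (Pi.single i e : Fin k → V))
        (fun _ => Finset.univ) X
  let L : (Fin k → ↥(span (ZMod 2) (X : Set V))) →ₗ[ZMod 2] (Fin k → V) :=
    (span (ZMod 2) (X : Set V)).subtype.compLeft (Fin k)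
  have hL : Function.Injective L := by
    intro a b hab
    ext i
    have := congrFun hab i
    simpa [L] using this
  have hsingle : ∀ (i : Fin k) (v : V), v ∈ span (ZMod 2) (X : Set V) →
      (Pi.single i v : Fin k → V) ∈ P := by
    intro i v hv
    have hle : span (ZMod 2) (X : Set V) ≤ P.comap (LinearMap.single (ZMod 2) (fun _ => V) i) := by
      rw [span_le]
      intro e he
      exact mem_radoSpan (F := ZMod 2)
        (fun (e : V) (i : Fin k) => (Pi.single i e : Fin k → V)) _ X he (Finset.mem_univ i)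
    exact hle hv
  have hrange : LinearMap.range L ≤ P := by
    rintro _ ⟨g, rfl⟩
    have : L g = ∑ i, (Pi.single i (g i : V) : Fin k → V) := by
      rw [Finset.univ_sum_single]
      rfl
    rw [this]
    exact P.sum_mem (fun i _ => hsingle i _ (g i).2)
  have h1 := Submodule.finrank_mono hrange
  rw [LinearMap.finrank_range_of_inj hL] at h1
  simpa [Module.finrank_pi_fintype] using h1

/-- C -/
theorem exists_functional [FiniteDimensional (ZMod 2) V] (k : ℕ) (E : Finset V)
    (h : ∀ X ⊆ E, X.card ≤ k * finrank (ZMod 2) ↥(span (ZMod 2) (X : Set V))) :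
    ∃ f : V →ₗ[ZMod 2] (Fin k → ZMod 2), ∀ v ∈ E, f v ≠ 0 := by
  classical
  rcases Nat.eq_zero_or_pos k with hk | hk
  · subst hk
    refine ⟨0, fun v hv => ?_⟩
    have := h {v} (by simpa using hv)
    simp at this
  have : Nonempty (Fin k) := ⟨⟨0, hk⟩⟩
  obtain ⟨c, -, hc⟩ := rado (F := ZMod 2)
    (fun (e : V) (i : Fin k) => (Pi.single i e : Fin k → V)) E _ (fun _ => Finset.univ) rfl
    (fun X hX => (h X hX).trans (finrank_radoSpan k X))
  obtain ⟨φ, hφ⟩ : ∃ φ : (Fin k → V) →ₗ[ZMod 2] ZMod 2,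
      ∀ e : E, φ (Pi.single (c e) (e : V)) = 1 := by
    obtain ⟨φ, hφ⟩ := LinearMap.exists_extend
      ((Finsupp.linearCombination (ZMod 2) (fun _ : E => (1 : ZMod 2))) ∘ₗ hc.repr)
    refine ⟨φ, fun e => ?_⟩
    have h1 := LinearMap.congr_fun hφ ⟨Pi.single (c e) (e : V), subset_span ⟨e, rfl⟩⟩
    rw [LinearMap.comp_apply] at h1
    rw [LinearMap.comp_apply, hc.repr_eq_single e _ rfl] at h1
    simpa using h1
  refine ⟨LinearMap.pi (fun i => φ.comp (LinearMap.single (ZMod 2) (fun _ => V) i)), ?_⟩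
  intro v hv h0
  have := congrFun h0 (c v)
  have h1 := hφ ⟨v, hv⟩
  simp at this
  rw [h1] at this
  exact one_ne_zero this

end Pool.Agent.WW

end

section

namespace Pool.Agent.WW

open Submodule Module

variable {V W : Type*} [AddCommGroup V] [Module (ZMod 2) V]
  [AddCommGroup W] [Module (ZMod 2) W]

theorem r4_char (x : V) : x + x = 0 := by
  have : (2 : ZMod 2) • x = 0 := by
    rw [show (2 : ZMod 2) = 0 from rfl, zero_smul]
  rwa [two_smul] at this

/-- the star of a `K5` inside a four-dimensional space with three missing vectors -/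
def r4star : Fin 4 → (Fin 4 → ZMod 2) := ![![0, 1, 1, 1], ![1, 0, 1, 1], ![1, 1, 0, 1], ![1, 1, 1, 0]]

theorem r4star_indep : ∀ c : Fin 4 → ZMod 2, ∑ i, c i • r4star i = 0 → c = 0 := by decide

theorem r4star_single : ∀ i, r4star i ≠ 0 ∧ r4star i ≠ ![1, 0, 0, 0] ∧ r4star i ≠ ![0, 1, 0, 0] ∧
    r4star i ≠ ![0, 0, 1, 0] := by decide

theorem r4star_pair : ∀ i j, i ≠ j → r4star i + r4star j ≠ 0 ∧
    r4star i + r4star j ≠ ![1, 0, 0, 0] ∧ r4star i + r4star j ≠ ![0, 1, 0, 0] ∧
    r4star i + r4star j ≠ ![0, 0, 1, 0] := by decide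

theorem hasK5_of_three_missing (E : Set V) (K U : Submodule (ZMod 2) V) (hK : Gen E K)
    (hKU : K ⊓ U = ⊥) (hU : finrank (ZMod 2) U = 4) (a b c : V) (ha : a ∈ U) (hb : b ∈ U)
    (hc : c ∈ U) (habc : LinearIndependent (ZMod 2) ![a, b, c])
    (h : ∀ u ∈ U, u ≠ 0 → u ≠ a → u ≠ b → u ≠ c → Pres E K u) : HasK5 E := by
  classical
  have hfin : FiniteDimensional (ZMod 2) U := FiniteDimensional.of_finrank_pos (by omega)
  obtain ⟨d, hdU, hd⟩ : ∃ d ∈ U, d ∉ span (ZMod 2) (Set.range ![a, b, c]) := by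
    by_contra hn
    push Not at hn
    have h1 : U ≤ span (ZMod 2) (Set.range ![a, b, c]) := hn
    have : FiniteDimensional (ZMod 2) ↥(span (ZMod 2) (Set.range ![a, b, c])) :=
      Module.Finite.span_of_finite _ (Set.finite_range _)
    have h2 := Submodule.finrank_mono h1
    rw [hU, finrank_span_eq_card habc, Fintype.card_fin] at h2
    omega
  have hind : LinearIndependent (ZMod 2) (Fin.snoc ![a, b, c] d : Fin 4 → V) :=
    (linearIndependent_finSnoc).2 ⟨habc, hd⟩
  set v : Fin 4 → V := Fin.snoc ![a, b, c] d with hv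
  have hvU : ∀ i, v i ∈ U := by
    intro i
    fin_cases i
    · exact ha
    · exact hb
    · exact hc
    · exact hdU
  set φ : (Fin 4 → ZMod 2) →ₗ[ZMod 2] V := Fintype.linearCombination (ZMod 2) v with hφ
  have hinj : Function.Injective φ := by
    rw [hφ]
    exact linearIndependent_iff_injective_fintypeLinearCombination.1 hind
  have hφU : ∀ w, φ w ∈ U := by
    intro w
    rw [hφ, Fintype.linearCombination_apply]
    exact sum_mem (fun i _ => U.smul_mem _ (hvU i))
  have hφK : ∀ w, φ w ∈ K → w = 0 := by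
    intro w hw
    have h1 : φ w ∈ K ⊓ U := ⟨hw, hφU w⟩
    rw [hKU, mem_bot] at h1
    exact hinj (by rw [h1, map_zero])
  have hφa : φ ![1, 0, 0, 0] = a := by
    rw [hφ, Fintype.linearCombination_apply, Fin.sum_univ_four]
    simp [hv]
  have hφb : φ ![0, 1, 0, 0] = b := by
    rw [hφ, Fintype.linearCombination_apply, Fin.sum_univ_four]
    simp [hv]
  have hφc : φ ![0, 0, 1, 0] = c := by
    rw [hφ, Fintype.linearCombination_apply, Fin.sum_univ_four]
    simp [hv]
  have hP : ∀ w, (w ≠ 0 ∧ w ≠ ![1, 0, 0, 0] ∧ w ≠ ![0, 1, 0, 0] ∧ w ≠ ![0, 0, 1, 0]) →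
      Pres E K (φ w) := by
    rintro w ⟨h0, h1, h2, h3⟩
    refine h (φ w) (hφU w) ?_ ?_ ?_ ?_
    · intro he
      exact h0 (hinj (by rw [he, map_zero]))
    · intro he
      exact h1 (hinj (by rw [he, hφa]))
    · intro he
      exact h2 (hinj (by rw [he, hφb]))
    · intro he
      exact h3 (hinj (by rw [he, hφc]))
  refine ⟨K, hK, fun i => φ (r4star i), ?_, ?_, ?_⟩
  · intro w hw
    refine r4star_indep w (hφK _ ?_)
    rw [map_sum]
    simpa only [map_smul] using hw
  · intro i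
    exact hP _ (r4star_single i)
  · intro i j hij
    have := hP _ (r4star_pair i j hij)
    rwa [map_add] at this

theorem r4_tri_le_card [DecidableEq V] (E : Finset V) (h0 : (0 : V) ∉ E) :
    tri E + E.card ≤ E.card * E.card := by
  have h1 : tri E + E.card ≤ (E ×ˢ E).card := by
    have h2 : E.card = ((E ×ˢ E).filter (fun p => ¬ (p.1 + p.2 ∈ E))).card ∨
        E.card ≤ ((E ×ˢ E).filter (fun p => ¬ (p.1 + p.2 ∈ E))).card := by
      right
      have : (E.image (fun x => (x, x))).card = E.card :=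
        Finset.card_image_of_injective _ (fun x y hxy => (Prod.mk.inj hxy).1)
      rw [← this]
      apply Finset.card_le_card
      intro p hp
      obtain ⟨x, hx, rfl⟩ := Finset.mem_image.1 hp
      simp [hx, r4_char, h0]
    have h3 : E.card ≤ ((E ×ˢ E).filter (fun p => ¬ (p.1 + p.2 ∈ E))).card := by
      rcases h2 with h | h
      · exact h.le
      · exact h
    have h4 := Finset.card_filter_add_card_filter_not (s := E ×ˢ E) (fun p => p.1 + p.2 ∈ E)
    unfold tri
    omega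
  rwa [Finset.card_product] at h1

omit [Module (ZMod 2) V] in
/-- inclusion and exclusion for `tri` -/
theorem r4_count [Fintype V] [DecidableEq V] (E : Finset V) :
    tri E + tri Eᶜ + 3 * (Fintype.card V * Eᶜ.card) = Fintype.card V ^ 2 + 3 * Eᶜ.card ^ 2 := by
  set C := Eᶜ with hC
  have e1 : (tri E : ℤ) = ∑ a : V, ∑ b : V, (if a ∈ E then 1 else 0) * (if b ∈ E then 1 else 0) *
      (if a + b ∈ E then 1 else 0) := by
    unfold tri
    rw [Finset.card_filter]
    push_cast
    rw [Finset.sum_product, ← Finset.sum_subset (Finset.subset_univ E)]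
    · apply Finset.sum_congr rfl
      intro a ha
      rw [← Finset.sum_subset (Finset.subset_univ E)]
      · apply Finset.sum_congr rfl
        intro b hb
        simp [ha, hb]
      · intro b _ hb
        simp [hb]
    · intro a _ ha
      simp [ha]
  have e2 : (tri C : ℤ) = ∑ a : V, ∑ b : V, (if a ∈ C then 1 else 0) * (if b ∈ C then 1 else 0) *
      (if a + b ∈ C then 1 else 0) := by
    unfold tri
    rw [Finset.card_filter]
    push_cast
    rw [Finset.sum_product, ← Finset.sum_subset (Finset.subset_univ C)]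
    · apply Finset.sum_congr rfl
      intro a ha
      rw [← Finset.sum_subset (Finset.subset_univ C)]
      · apply Finset.sum_congr rfl
        intro b hb
        simp [ha, hb]
      · intro b _ hb
        simp [hb]
    · intro a _ ha
      simp [ha]
  set g : V → ℤ := fun a => if a ∈ C then 1 else 0 with hg
  have hgs : ∑ a : V, g a = C.card := by
    simp [hg]
  have hf : ∀ a : V, (if a ∈ E then (1 : ℤ) else 0) = 1 - g a := by
    intro a
    by_cases ha : a ∈ E
    · simp [hg, hC, ha]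
    · simp [hg, hC, ha]
  have hshift : ∀ a : V, ∑ b : V, g (a + b) = C.card := by
    intro a
    rw [← hgs]
    exact Fintype.sum_equiv (Equiv.addLeft a) _ _ (fun b => rfl)
  have hshift' : ∀ b : V, ∑ a : V, g (a + b) = C.card := by
    intro b
    rw [← hgs]
    exact Fintype.sum_equiv (Equiv.addRight b) _ _ (fun a => rfl)
  have e3 : (tri E : ℤ) = ∑ a : V, ∑ b : V, (1 - g a - g b - g (a + b) + g a * g b +
      g a * g (a + b) + g b * g (a + b) - g a * g b * g (a + b)) := by
    rw [e1]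
    apply Finset.sum_congr rfl
    intro a _
    apply Finset.sum_congr rfl
    intro b _
    rw [hf, hf, hf]
    ring
  have t1 : ∑ a : V, ∑ b : V, (1 : ℤ) = (Fintype.card V : ℤ) ^ 2 := by
    simp [sq]
  have t2 : ∑ a : V, ∑ b : V, g a = (Fintype.card V : ℤ) * C.card := by
    simp only [Finset.sum_const, Finset.card_univ, nsmul_eq_mul]
    rw [← Finset.mul_sum, hgs]
  have t3 : ∑ a : V, ∑ b : V, g b = (Fintype.card V : ℤ) * C.card := by
    rw [hgs]
    simp
  have t4 : ∑ a : V, ∑ b : V, g (a + b) = (Fintype.card V : ℤ) * C.card := by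
    simp only [hshift]
    simp
  have t5 : ∑ a : V, ∑ b : V, g a * g b = (C.card : ℤ) ^ 2 := by
    simp only [← Finset.mul_sum, ← Finset.sum_mul, hgs]
    ring
  have t6 : ∑ a : V, ∑ b : V, g a * g (a + b) = (C.card : ℤ) ^ 2 := by
    simp only [← Finset.mul_sum, hshift]
    rw [← Finset.sum_mul, hgs]
    ring
  have t7 : ∑ a : V, ∑ b : V, g b * g (a + b) = (C.card : ℤ) ^ 2 := by
    rw [Finset.sum_comm]
    simp only [← Finset.mul_sum, hshift']
    rw [← Finset.sum_mul, hgs]
    ring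
  have e4 : (tri E : ℤ) = (Fintype.card V : ℤ) ^ 2 - Fintype.card V * C.card -
      Fintype.card V * C.card - Fintype.card V * C.card + (C.card : ℤ) ^ 2 + (C.card : ℤ) ^ 2 +
      (C.card : ℤ) ^ 2 - tri C := by
    rw [e3]
    simp only [Finset.sum_add_distrib, Finset.sum_sub_distrib]
    rw [t1, t2, t3, t4, t5, t6, t7, e2]
  have : ((tri E + tri C + 3 * (Fintype.card V * C.card) : ℕ) : ℤ) =
      ((Fintype.card V ^ 2 + 3 * C.card ^ 2 : ℕ) : ℤ) := by
    push_cast
    rw [e4]
    ring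
  exact_mod_cast this

theorem r4_indep (a b c : V) (h1 : a ≠ 0) (h2 : b ≠ 0) (h3 : c ≠ 0) (h4 : a ≠ b) (h5 : a ≠ c)
    (h6 : b ≠ c) (h7 : a + b ≠ c) : LinearIndependent (ZMod 2) ![a, b, c] := by
  have key : ∀ x y : V, x + y = 0 → x = y := by
    intro x y hxy
    rw [← add_zero x, ← r4_char y, ← add_assoc, hxy, zero_add]
  rw [Fintype.linearIndependent_iff]
  intro g hg
  rw [Fin.sum_univ_three] at hg
  simp only [Matrix.cons_val_zero, Matrix.cons_val_one, Matrix.cons_val] at hg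
  have hz : ∀ t : ZMod 2, t = 0 ∨ t = 1 := by decide
  have : g 0 = 0 ∧ g 1 = 0 ∧ g 2 = 0 := by
    rcases hz (g 0) with e0 | e0 <;> rcases hz (g 1) with e1 | e1 <;>
      rcases hz (g 2) with e2 | e2 <;> rw [e0, e1, e2] at hg <;>
      simp only [zero_smul, one_smul, zero_add, add_zero] at hg
    · exact ⟨e0, e1, e2⟩
    · exact absurd hg h3
    · exact absurd hg h2
    · exact absurd (key _ _ hg) h6
    · exact absurd hg h1
    · exact absurd (key _ _ hg) h5
    · exact absurd (key _ _ hg) h4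
    · exact absurd (key _ _ hg) h7
  intro i
  fin_cases i
  · exact this.1
  · exact this.2.1
  · exact this.2.2

theorem r4_enlarge [Fintype V] [DecidableEq V] (hV : Fintype.card V = 16) :
    ∀ (n : ℕ) (X : Finset V), X.card + n = 3 → (0 : V) ∉ X →
      (∀ a ∈ X, ∀ b ∈ X, a + b ∉ X) →
      ∃ Y : Finset V, X ⊆ Y ∧ Y.card = 3 ∧ (0 : V) ∉ Y ∧ (∀ a ∈ Y, ∀ b ∈ Y, a + b ∉ Y) := by
  intro n
  induction n with
  | zero =>
    intro X hX h0 hl
    exact ⟨X, subset_rfl, hX, h0, hl⟩
  | succ n ih =>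
    intro X hX h0 hl
    set F : Finset V := insert 0 (X ∪ (X ×ˢ X).image (fun p => p.1 + p.2)) with hF
    have hc : F.card < (Finset.univ : Finset V).card := by
      rw [Finset.card_univ, hV]
      have c1 : F.card ≤ (X ∪ (X ×ˢ X).image (fun p => p.1 + p.2)).card + 1 :=
        Finset.card_insert_le _ _
      have c2 : (X ∪ (X ×ˢ X).image (fun p => p.1 + p.2)).card ≤
          X.card + ((X ×ˢ X).image (fun p => p.1 + p.2)).card := Finset.card_union_le _ _
      have c3 : ((X ×ˢ X).image (fun p => p.1 + p.2)).card ≤ X.card * X.card := by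
        refine Finset.card_image_le.trans ?_
        rw [Finset.card_product]
      have c4 : X.card ≤ 2 := by omega
      have c5 : X.card * X.card ≤ 2 * 2 := Nat.mul_le_mul c4 c4
      omega
    obtain ⟨c, _, hcF⟩ := Finset.exists_mem_notMem_of_card_lt_card hc
    have hc0 : c ≠ 0 := by
      rintro rfl
      exact hcF (Finset.mem_insert_self _ _)
    have hcX : c ∉ X := fun h => hcF (by
      rw [hF]; exact Finset.mem_insert_of_mem (Finset.mem_union_left _ h))
    have hcS : ∀ a ∈ X, ∀ b ∈ X, a + b ≠ c := by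
      intro a ha b hb he
      apply hcF
      rw [hF]
      refine Finset.mem_insert_of_mem (Finset.mem_union_right _ ?_)
      exact Finset.mem_image.2 ⟨(a, b), Finset.mem_product.2 ⟨ha, hb⟩, he⟩
    obtain ⟨Y, h1, h2, h3, h4⟩ := ih (insert c X) (by
      rw [Finset.card_insert_of_notMem hcX]; omega) (by
      rw [Finset.mem_insert, not_or]; exact ⟨hc0.symm, h0⟩) (by
      intro a ha b hb hab
      rw [Finset.mem_insert] at ha hb hab
      rcases ha with rfl | ha <;> rcases hb with rfl | hb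
      · rw [r4_char] at hab
        rcases hab with h | h
        · exact hc0 h.symm
        · exact h0 h
      · rcases hab with h | h
        · have : b = 0 := by simpa using h
          exact h0 (this ▸ hb)
        · refine hcS _ h b hb ?_
          rw [add_assoc, r4_char, add_zero]
      · rcases hab with h | h
        · have : a = 0 := by simpa using h
          exact h0 (this ▸ ha)
        · refine hcS a ha _ h ?_
          rw [← add_assoc, r4_char, zero_add]
      · rcases hab with h | h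
        · exact hcS a ha b hb h
        · exact hl a ha b hb h)
    exact ⟨Y, (Finset.subset_insert _ _).trans h1, h2, h3, h4⟩

theorem tri_rank4 [DecidableEq V] (hV : finrank (ZMod 2) V = 4) (E : Finset V) (h0 : (0 : V) ∉ E)
    (h3 : 3 ≤ E.card) (hfree : ¬ HasK5 (E : Set V)) : tri E + 24 ≤ 10 * E.card := by
  have hfin : FiniteDimensional (ZMod 2) V := FiniteDimensional.of_finrank_pos (by omega)
  have : Finite V := Module.finite_of_finite (ZMod 2)
  let _ : Fintype V := Fintype.ofFinite V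
  have hcard : Fintype.card V = 16 := by
    rw [Module.card_eq_pow_finrank (K := ZMod 2) (V := V), hV, ZMod.card]
    norm_num
  have hcount := r4_count E
  rw [hcard] at hcount
  have hcompl : E.card + Eᶜ.card = 16 := by
    rw [Finset.card_add_card_compl, hcard]
  -- the trivial lower bound for the complement
  have h0C : (0 : V) ∈ Eᶜ := by simpa using h0
  set C := Eᶜ with hC
  set X := C.erase 0 with hX
  have hXcard : X.card + 1 = C.card := Finset.card_erase_add_one h0C
  have hXm : ∀ x, x ∈ X ↔ x ≠ 0 ∧ x ∉ E := by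
    intro x
    rw [hX, Finset.mem_erase, hC, Finset.mem_compl]
  have hX0 : (0 : V) ∉ X := by
    rw [hXm]
    simp
  have htC : 3 * X.card + 1 ≤ tri C := by
    have : (({((0 : V), (0 : V))} : Finset (V × V)) ∪ X.image (fun x => ((0 : V), x)) ∪
        X.image (fun x => (x, (0 : V))) ∪ X.image (fun x => (x, x))).card = 3 * X.card + 1 := by
      rw [Finset.card_union_of_disjoint, Finset.card_union_of_disjoint,
        Finset.card_union_of_disjoint, Finset.card_image_of_injective,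
        Finset.card_image_of_injective, Finset.card_image_of_injective, Finset.card_singleton]
      · ring
      · intro x y hxy
        exact (Prod.mk.inj hxy).1
      · intro x y hxy
        exact (Prod.mk.inj hxy).1
      · intro x y hxy
        exact (Prod.mk.inj hxy).2
      · rw [Finset.disjoint_left]
        intro p hp hq
        obtain ⟨x, hx, rfl⟩ := Finset.mem_image.1 hq
        rw [Finset.mem_singleton] at hp
        have := (Prod.mk.inj hp).2
        exact hX0 (this ▸ hx)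
      · rw [Finset.disjoint_left]
        intro p hp hq
        obtain ⟨x, hx, rfl⟩ := Finset.mem_image.1 hq
        rw [Finset.mem_union, Finset.mem_singleton, Finset.mem_image] at hp
        rcases hp with hp | ⟨y, hy, hp⟩
        · have := (Prod.mk.inj hp).1
          exact hX0 (this ▸ hx)
        · have := (Prod.mk.inj hp).1
          exact hX0 (this ▸ hx)
      · rw [Finset.disjoint_left]
        intro p hp hq
        obtain ⟨x, hx, rfl⟩ := Finset.mem_image.1 hq
        rw [Finset.mem_union, Finset.mem_union, Finset.mem_singleton, Finset.mem_image,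
          Finset.mem_image] at hp
        rcases hp with (hp | ⟨y, hy, hp⟩) | ⟨y, hy, hp⟩
        · have := (Prod.mk.inj hp).1
          exact hX0 (this ▸ hx)
        · have := (Prod.mk.inj hp).1
          exact hX0 (this ▸ hx)
        · have := (Prod.mk.inj hp).2
          exact hX0 (this ▸ hx)
    rw [← this]
    unfold tri
    apply Finset.card_le_card
    intro p hp
    rw [Finset.mem_union, Finset.mem_union, Finset.mem_union, Finset.mem_singleton,
      Finset.mem_image, Finset.mem_image, Finset.mem_image] at hp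
    rw [Finset.mem_filter, Finset.mem_product]
    rcases hp with ((rfl | ⟨y, hy, rfl⟩) | ⟨y, hy, rfl⟩) | ⟨y, hy, rfl⟩
    · simpa using h0C
    · have := Finset.mem_of_mem_erase hy
      simp [h0C, this]
    · have := Finset.mem_of_mem_erase hy
      simp [h0C, this]
    · have := Finset.mem_of_mem_erase hy
      simp [r4_char, h0C, this]
  have htc := r4_tri_le_card E h0
  -- arithmetic, by the size of the complement
  have hC16 : C.card ≤ 13 := by omega
  rcases lt_or_ge X.card 4 with hsmall | hbig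
  · by_cases hl : ∀ a ∈ X, ∀ b ∈ X, a + b ∉ X
    · exfalso
      obtain ⟨Y, h1, h2, h3', h4⟩ := r4_enlarge hcard (3 - X.card) X (by omega) hX0 hl
      obtain ⟨a, b, c, hab, hac, hbc, rfl⟩ := Finset.card_eq_three.1 h2
      have ha0 : a ≠ 0 := by
        rintro rfl
        exact h3' (by simp)
      have hb0 : b ≠ 0 := by
        rintro rfl
        exact h3' (by simp)
      have hc0 : c ≠ 0 := by
        rintro rfl
        exact h3' (by simp)
      have habc : a + b ≠ c := by
        intro he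
        exact h4 a (by simp) b (by simp) (by simp [he])
      refine hfree (hasK5_of_three_missing (E : Set V) ⊥ ⊤ bot_le (by simp)
        (by rw [finrank_top, hV]) a b c mem_top mem_top mem_top
        (r4_indep a b c ha0 hb0 hc0 hab hac hbc habc) ?_)
      intro u _ hu0 hua hub huc
      refine ⟨u, ?_, ?_⟩
      · by_contra hn
        have hn' : u ∉ E := hn
        have := h1 ((hXm u).2 ⟨hu0, hn'⟩)
        simp only [Finset.mem_insert, Finset.mem_singleton] at this
        rcases this with h | h | h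
        · exact hua h
        · exact hub h
        · exact huc h
      · rw [r4_char]
        exact zero_mem _
    · push Not at hl
      obtain ⟨a, ha, b, hb, hab⟩ := hl
      have ha0 : a ≠ 0 := fun h => hX0 (h ▸ ha)
      have hb0 : b ≠ 0 := fun h => hX0 (h ▸ hb)
      have hne : a ≠ b := by
        rintro rfl
        rw [r4_char] at hab
        exact hX0 hab
      have hsub : ({a, b, a + b} : Finset V) ⊆ X := by
        intro x hx
        simp only [Finset.mem_insert, Finset.mem_singleton] at hx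
        rcases hx with rfl | rfl | rfl
        · exact ha
        · exact hb
        · exact hab
      have hcard3 : ({a, b, a + b} : Finset V).card = 3 := by
        rw [Finset.card_eq_three]
        refine ⟨a, b, a + b, hne, ?_, ?_, rfl⟩
        · intro h
          exact hb0 (by simpa using h)
        · intro h
          exact ha0 (by simpa using h)
      have hXeq : ({a, b, a + b} : Finset V) = X :=
        Finset.eq_of_subset_of_card_le hsub (by omega)
      have hX3 : X.card = 3 := by rw [← hXeq, hcard3]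
      have hCeq : ∀ x, x ∈ C ↔ x = 0 ∨ x = a ∨ x = b ∨ x = a + b := by
        intro x
        by_cases hx : x = 0
        · subst hx
          simp [h0C]
        · have : x ∈ C ↔ x ∈ X := by
            rw [hX, Finset.mem_erase]
            simp [hx]
          rw [this, ← hXeq]
          simp [hx]
      have hclosed : ∀ x ∈ C, ∀ y ∈ C, x + y ∈ C := by
        intro x hx y hy
        rw [hCeq] at hx hy ⊢
        have hba : b + a = a + b := add_comm b a
        have e1 : a + (a + b) = b := by rw [← add_assoc, r4_char, zero_add]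
        have e2 : b + (a + b) = a := by rw [add_comm a b, ← add_assoc, r4_char, zero_add]
        have e3 : a + b + a = b := by rw [add_comm (a + b) a, e1]
        have e4 : a + b + b = a := by rw [add_comm (a + b) b, e2]
        rcases hx with rfl | rfl | rfl | rfl <;> rcases hy with rfl | rfl | rfl | rfl <;>
          simp only [zero_add, add_zero, r4_char, true_or, or_true, hba, e1, e2, e3, e4]
      have htC16 : tri C = C.card * C.card := by
        unfold tri
        rw [← Finset.card_product, Finset.filter_true_of_mem]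
        intro p hp
        rw [Finset.mem_product] at hp
        exact hclosed p.1 hp.1 p.2 hp.2
      have hC4 : C.card = 4 := by omega
      rw [htC16, hC4] at hcount
      omega
  · obtain ⟨M, hM⟩ : ∃ M, C.card = M := ⟨_, rfl⟩
    have hE : E.card = 16 - M := by omega
    have hXM : X.card = M - 1 := by omega
    rw [hM] at hcount
    rw [hE] at htc ⊢
    rw [hXM] at htC
    have hM5 : 5 ≤ M := by omega
    have hM13 : M ≤ 13 := by omega
    interval_cases M <;> omega

end Pool.Agent.WW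

end

section

/-!
A minimal counterexample is vertically 4-connected.
-/

namespace Pool.Agent.WW

open Submodule Module

variable {V W : Type*} [AddCommGroup V] [Module (ZMod 2) V]
  [AddCommGroup W] [Module (ZMod 2) W]

theorem split_add_self (v : V) : v + v = 0 := by
  have h : (2 : ZMod 2) = 0 := rfl
  rw [← two_smul (ZMod 2) v, h, zero_smul]

theorem split_eq_of_add {x y : V} (h : x + y = 0) : x = y := by
  have h1 := split_add_self y
  rw [← h1] at h
  exact add_right_cancel h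

theorem tri_le_card (E : Finset V) [DecidableEq V] (h0 : (0 : V) ∉ E) :
    tri E + E.card ≤ E.card * E.card := by
  have hdisj : Disjoint ((E ×ˢ E).filter (fun p => p.1 + p.2 ∈ E)) E.diag := by
    rw [Finset.disjoint_left]
    rintro ⟨x, y⟩ hp hd
    rw [Finset.mem_filter] at hp
    rw [Finset.mem_diag] at hd
    obtain ⟨_, hxy⟩ := hd
    have h := hp.2
    simp only at hxy h
    rw [hxy, split_add_self] at h
    exact h0 h
  have hsub : (E ×ˢ E).filter (fun p => p.1 + p.2 ∈ E) ∪ E.diag ⊆ E ×ˢ E := by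
    refine Finset.union_subset (Finset.filter_subset _ _) ?_
    rintro ⟨x, y⟩ hd
    rw [Finset.mem_diag] at hd
    obtain ⟨hx, hxy⟩ := hd
    simp only at hx hxy
    rw [Finset.mem_product]
    exact ⟨hx, hxy ▸ hx⟩
  have h := Finset.card_le_card hsub
  rw [Finset.card_union_of_disjoint hdisj, Finset.diag_card, Finset.card_product] at h
  exact h

theorem tri_eq_zero_of_card [DecidableEq V] (F : Finset V) (h0 : (0 : V) ∉ F)
    (hF : F.card ≤ 2) : tri F = 0 := by
  unfold tri
  rw [Finset.card_eq_zero, Finset.filter_eq_empty_iff]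
  rintro ⟨x, y⟩ hp hxy
  rw [Finset.mem_product] at hp
  obtain ⟨hx, hy⟩ := hp
  simp only at hx hy hxy
  have h1 : x ≠ y := by
    rintro rfl
    rw [split_add_self] at hxy
    exact h0 hxy
  have h2 : x ≠ x + y := by
    intro h
    have h3 : y = 0 := by simpa using h
    exact h0 (h3 ▸ hy)
  have h3 : y ≠ x + y := by
    intro h
    have h3 : x = 0 := by simpa using h
    exact h0 (h3 ▸ hx)
  have h4 : ({x, y, x + y} : Finset V) ⊆ F := by
    intro z hz
    simp only [Finset.mem_insert, Finset.mem_singleton] at hz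
    rcases hz with rfl | rfl | rfl <;> assumption
  have h5 := Finset.card_le_card h4
  rw [Finset.card_insert_of_notMem (by simp [h1, h2]), Finset.card_insert_of_notMem (by simpa using h3),
    Finset.card_singleton] at h5
  omega

theorem vc_of_min [DecidableEq V] [FiniteDimensional (ZMod 2) V] (E : Finset V) (h0 : (0 : V) ∉ E)
    (h3 : 3 ≤ E.card) (hbad : 10 * E.card < tri E + 24)
    (ih : ∀ F ⊆ E, F ≠ E → 3 ≤ F.card → tri F + 24 ≤ 10 * F.card) : VC (E : Set V) := by
  classical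
  rintro H ⟨a, haE, haH⟩ ⟨b, hbE, hbH, hbS⟩
  by_contra hlt
  rw [not_le] at hlt
  set S := span (ZMod 2) ((E : Set V) \ (H : Set V)) with hS
  set F1 := E.filter (fun x => x ∈ S) with hF1
  set F2 := E.filter (fun x => x ∈ H) with hF2
  set F3 := E.filter (fun x => x ∈ S ⊓ H) with hF3
  have _hfin : Finite V := Module.finite_of_finite (ZMod 2)
  have hSmem : ∀ x ∈ E, x ∉ H → x ∈ S := fun x hx hxH => subset_span ⟨hx, hxH⟩
  have hunion : F1 ∪ F2 = E := by
    apply Finset.Subset.antisymm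
    · exact Finset.union_subset (Finset.filter_subset _ _) (Finset.filter_subset _ _)
    · intro x hx
      rw [Finset.mem_union, hF1, hF2, Finset.mem_filter, Finset.mem_filter]
      by_cases hxH : x ∈ H
      · exact Or.inr ⟨hx, hxH⟩
      · exact Or.inl ⟨hx, hSmem x hx hxH⟩
  have hinter : F1 ∩ F2 = F3 := by
    ext x
    simp only [hF1, hF2, hF3, Finset.mem_inter, Finset.mem_filter, Submodule.mem_inf]
    tauto
  have hcard : F1.card + F2.card = E.card + F3.card := by
    have h := Finset.card_union_add_card_inter F1 F2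
    rw [hunion, hinter] at h
    exact h.symm
  -- counting triples
  have htri : tri E + tri F3 ≤ tri F1 + tri F2 := by
    have hsub1 : (E ×ˢ E).filter (fun p => p.1 + p.2 ∈ E) ⊆
        (F1 ×ˢ F1).filter (fun p => p.1 + p.2 ∈ F1) ∪
          (F2 ×ˢ F2).filter (fun p => p.1 + p.2 ∈ F2) := by
      rintro ⟨x, y⟩ hp
      simp only [Finset.mem_filter, Finset.mem_product] at hp
      obtain ⟨⟨hx, hy⟩, hxy⟩ := hp
      simp only [Finset.mem_union, Finset.mem_filter, Finset.mem_product, hF1, hF2]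
      have hyx : y = x + (x + y) := by rw [← add_assoc, split_add_self, zero_add]
      have hxy' : x = (x + y) + y := by rw [add_assoc, split_add_self, add_zero]
      by_cases hxH : x ∈ H
      · by_cases hyH : y ∈ H
        · exact Or.inr ⟨⟨⟨hx, hxH⟩, ⟨hy, hyH⟩⟩, hxy, H.add_mem hxH hyH⟩
        · have hsH : x + y ∉ H := fun h => hyH (by rw [hyx]; exact H.add_mem hxH h)
          have h1 := hSmem y hy hyH
          have h2 := hSmem _ hxy hsH
          exact Or.inl ⟨⟨⟨hx, by rw [hxy']; exact S.add_mem h2 h1⟩, ⟨hy, h1⟩⟩, hxy, h2⟩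
      · by_cases hyH : y ∈ H
        · have hsH : x + y ∉ H := fun h => hxH (by rw [hxy']; exact H.add_mem h hyH)
          have h1 := hSmem x hx hxH
          have h2 := hSmem _ hxy hsH
          exact Or.inl ⟨⟨⟨hx, h1⟩, ⟨hy, by rw [hyx]; exact S.add_mem h1 h2⟩⟩, hxy, h2⟩
        · have h1 := hSmem x hx hxH
          have h2 := hSmem y hy hyH
          exact Or.inl ⟨⟨⟨hx, h1⟩, ⟨hy, h2⟩⟩, hxy, S.add_mem h1 h2⟩
    have hsub2 : (F3 ×ˢ F3).filter (fun p => p.1 + p.2 ∈ F3) ⊆
        (F1 ×ˢ F1).filter (fun p => p.1 + p.2 ∈ F1) ∩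
          (F2 ×ˢ F2).filter (fun p => p.1 + p.2 ∈ F2) := by
      rintro ⟨x, y⟩ hp
      simp only [hF3, Finset.mem_filter, Finset.mem_product, Submodule.mem_inf] at hp
      simp only [Finset.mem_inter, Finset.mem_filter, Finset.mem_product, hF1, hF2]
      tauto
    have h1 := Finset.card_le_card hsub1
    have h2 := Finset.card_le_card hsub2
    have h4 := Finset.card_union_add_card_inter ((F1 ×ˢ F1).filter (fun p => p.1 + p.2 ∈ F1))
      ((F2 ×ˢ F2).filter (fun p => p.1 + p.2 ∈ F2))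
    unfold tri
    omega
  -- the intersection is small
  have hG4 : Nat.card ↥(S ⊓ H) ≤ 4 := by
    rw [Module.natCard_eq_pow_finrank (K := ZMod 2), Nat.card_zmod]
    calc 2 ^ finrank (ZMod 2) ↥(S ⊓ H) ≤ 2 ^ 2 := Nat.pow_le_pow_right (by norm_num) (by omega)
      _ = 4 := by norm_num
  have hGn : ((S ⊓ H : Submodule (ZMod 2) V) : Set V).ncard ≤ 4 := by
    rw [← Nat.card_coe_set_eq]; exact hG4
  have h0F3 : (0 : V) ∉ F3 := fun h => h0 (Finset.mem_filter.mp h).1
  have hsubG : ((insert 0 F3 : Finset V) : Set V) ⊆ ((S ⊓ H : Submodule (ZMod 2) V) : Set V) := by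
    intro x hx
    rw [Finset.mem_coe, Finset.mem_insert] at hx
    rcases hx with rfl | hx
    · exact (S ⊓ H).zero_mem
    · exact (Finset.mem_filter.mp hx).2
  have hins : (insert 0 F3 : Finset V).card = F3.card + 1 := Finset.card_insert_of_notMem h0F3
  have hF3card : F3.card ≤ 3 := by
    have h := Set.ncard_le_ncard hsubG (Set.toFinite _)
    rw [Set.ncard_coe_finset, hins] at h
    omega
  have hF3tri : F3.card = 3 → 6 ≤ tri F3 := by
    intro hc
    have heq : ((insert 0 F3 : Finset V) : Set V) = ((S ⊓ H : Submodule (ZMod 2) V) : Set V) := by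
      refine Set.eq_of_subset_of_ncard_le hsubG ?_ (Set.toFinite _)
      rw [Set.ncard_coe_finset, hins, hc]
      exact hGn
    have hoff : F3.offDiag ⊆ (F3 ×ˢ F3).filter (fun p => p.1 + p.2 ∈ F3) := by
      rintro ⟨x, y⟩ hp
      rw [Finset.mem_offDiag] at hp
      obtain ⟨hx, hy, hne⟩ := hp
      simp only at hx hy hne
      rw [Finset.mem_filter, Finset.mem_product]
      refine ⟨⟨hx, hy⟩, ?_⟩
      have hxG := (Finset.mem_filter.mp hx).2
      have hyG := (Finset.mem_filter.mp hy).2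
      have hs : x + y ∈ ((S ⊓ H : Submodule (ZMod 2) V) : Set V) := (S ⊓ H).add_mem hxG hyG
      rw [← heq, Finset.mem_coe, Finset.mem_insert] at hs
      rcases hs with hs | hs
      · exact absurd (split_eq_of_add hs) hne
      · exact hs
    have h := Finset.card_le_card hoff
    rw [Finset.offDiag_card, hc] at h
    exact h
  have hF1E : F1 ≠ E := by
    intro h
    have hb : b ∈ F1 := by rw [h]; exact hbE
    exact hbS (Finset.mem_filter.mp hb).2
  have hF2E : F2 ≠ E := by
    intro h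
    have ha : a ∈ F2 := by rw [h]; exact haE
    exact haH (Finset.mem_filter.mp ha).2
  have hs1 : F1 ⊆ E := Finset.filter_subset _ _
  have hs2 : F2 ⊆ E := Finset.filter_subset _ _
  have hc1 := Finset.card_le_card hs1
  have hc2 := Finset.card_le_card hs2
  have hi1 := ih F1 hs1 hF1E
  have hi2 := ih F2 hs2 hF2E
  have hz1 := tri_eq_zero_of_card F1 (fun h => h0 (hs1 h))
  have hz2 := tri_eq_zero_of_card F2 (fun h => h0 (hs2 h))
  omega

end Pool.Agent.WW

end

section

/-!
Transfer lemmas for `HasK5`.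
-/

namespace Pool.Agent.WW

open Submodule Module

variable {V W : Type*} [AddCommGroup V] [Module (ZMod 2) V]
  [AddCommGroup W] [Module (ZMod 2) W]

private lemma add_self_tr (v : V) : v + v = 0 := by
  have h : (2 : ZMod 2) = 0 := rfl
  rw [← two_smul (ZMod 2) v, h, zero_smul]

theorem HasK5.mono {E F : Set V} (h : HasK5 E) (hEF : E ⊆ F) : HasK5 F := by
  obtain ⟨K, hG, s, hi, hp, hpp⟩ := h
  have hP : ∀ v, Pres E K v → Pres F K v := fun v ⟨x, hx, hv⟩ => ⟨x, hEF hx, hv⟩
  exact ⟨K, hG.trans (span_mono (Set.inter_subset_inter_left _ hEF)), s, hi,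
    fun i => hP _ (hp i), fun i j hij => hP _ (hpp i j hij)⟩

theorem HasK5.of_map (φ : W →ₗ[ZMod 2] V) (F : Set W) (E : Set V) (K : Submodule (ZMod 2) V)
    (hK : Gen E K) (hinj : ∀ w, φ w ∈ K → w = 0) (hF : ∀ w ∈ F, Pres E K (φ w))
    (h : HasK5 F) : HasK5 E := by
  obtain ⟨KF, hGF, s, hi, hp, hpp⟩ := h
  set K' : Submodule (ZMod 2) V := K ⊔ map φ KF with hK'
  have hKK' : K ≤ K' := le_sup_left
  have hmK' : ∀ y ∈ KF, φ y ∈ K' := fun y hy => (le_sup_right : map φ KF ≤ K') (mem_map_of_mem hy)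
  have hP : ∀ v, Pres F KF v → Pres E K' (φ v) := by
    rintro v ⟨w, hw, hwv⟩
    obtain ⟨x, hx, hxw⟩ := hF w hw
    refine ⟨x, hx, ?_⟩
    have e : x + φ v = (x + φ w) + φ (w + v) := by
      rw [map_add]
      calc x + φ v = x + φ v + (φ w + φ w) := by rw [add_self_tr, add_zero]
        _ = _ := by abel
    rw [e]
    exact add_mem (hKK' hxw) (hmK' _ hwv)
  refine ⟨K', ?_, fun i => φ (s i), ?_, fun i => hP _ (hp i), fun i j hij => ?_⟩
  · have h1 : K ≤ span (ZMod 2) (E ∩ K') :=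
      hK.trans (span_mono (Set.inter_subset_inter_right _ hKK'))
    refine sup_le h1 ?_
    refine (map_mono hGF).trans ?_
    rw [map_span, span_le]
    rintro _ ⟨w, ⟨hwF, hwK⟩, rfl⟩
    obtain ⟨x, hx, hxw⟩ := hF w hwF
    have e : φ w = x + (x + φ w) := by
      rw [← add_assoc, add_self_tr, zero_add]
    have e' : x = (x + φ w) + φ w := by
      rw [add_assoc, add_self_tr, add_zero]
    have hxK' : x ∈ K' := by
      rw [e']
      exact add_mem (hKK' hxw) (hmK' _ hwK)
    rw [SetLike.mem_coe, e]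
    exact add_mem (subset_span ⟨hx, hxK'⟩) (h1 hxw)
  · intro c hc
    rw [hK', mem_sup] at hc
    obtain ⟨k, hk, z, ⟨y, hy, rfl⟩, hz⟩ := hc
    apply hi
    have e : φ (∑ i, c i • s i - y) = k := by
      rw [map_sub, map_sum]
      simp only [map_smul]
      rw [← hz]
      abel
    have h0 := hinj (∑ i, c i • s i - y) (by rw [e]; exact hk)
    rw [sub_eq_zero] at h0
    rw [h0]
    exact hy
  · have := hP _ (hpp i j hij)
    rwa [map_add] at this

theorem HasK5.of_contr [DecidableEq W] (π : V →ₗ[ZMod 2] W) {e : V}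
    (hker : ∀ v, π v = 0 ↔ v = 0 ∨ v = e) (E : Finset V) (he : e ∈ E)
    (h : HasK5 (contr π E : Set W)) : HasK5 (E : Set V) := by
  obtain ⟨K', hG, s, hi, hp, hpp⟩ := h
  have hpi : π e = 0 := (hker e).mpr (Or.inr rfl)
  have hmem : ∀ w ∈ (contr π E : Set W), ∃ x ∈ E, π x = w := by
    intro w hw
    unfold contr at hw
    rw [Finset.mem_coe, Finset.mem_erase, Finset.mem_image] at hw
    exact hw.2
  choose w hw hws using hp
  choose x hx hxw using fun i => hmem (w i) (hw i)
  have hxs : ∀ i, π (x i) + s i ∈ K' := fun i => by rw [hxw]; exact hws i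
  refine ⟨comap π K', ?_, x, ?_, ?_, ?_⟩
  · intro v hv
    have hv' : π v ∈ K' := hv
    have h1 : π v ∈ map π (span (ZMod 2) ((E : Set V) ∩ comap π K')) := by
      rw [map_span]
      refine span_mono ?_ (hG hv')
      rintro u ⟨hu, huK⟩
      obtain ⟨a, ha, rfl⟩ := hmem u hu
      exact ⟨a, ⟨ha, huK⟩, rfl⟩
    obtain ⟨u, hu, huv⟩ := h1
    have h2 : π (v - u) = 0 := by rw [map_sub, huv, sub_self]
    have h3 : v - u ∈ span (ZMod 2) ((E : Set V) ∩ comap π K') := by
      rcases (hker _).mp h2 with h | h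
      · rw [h]; exact zero_mem _
      · rw [h]
        refine subset_span ⟨he, ?_⟩
        change π e ∈ K'
        rw [hpi]; exact zero_mem _
    have := add_mem h3 hu
    rwa [sub_add_cancel] at this
  · intro c hc
    apply hi
    have hc' : π (∑ i, c i • x i) ∈ K' := hc
    have e1 : ∑ i, c i • s i = ∑ i, c i • (π (x i) + s i) - π (∑ i, c i • x i) := by
      rw [map_sum]
      simp only [map_smul, smul_add, Finset.sum_add_distrib]
      abel
    rw [e1]
    exact sub_mem (sum_mem fun i _ => smul_mem _ _ (hxs i)) hc'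
  · intro i
    refine ⟨x i, hx i, ?_⟩
    rw [add_self_tr]; exact zero_mem _
  · intro i j hij
    obtain ⟨z, hz, hzs⟩ := hpp i j hij
    obtain ⟨y, hy, rfl⟩ := hmem z hz
    refine ⟨y, hy, ?_⟩
    change π (y + (x i + x j)) ∈ K'
    have e1 : π (y + (x i + x j)) = (π y + (s i + s j)) + (π (x i) + s i) + (π (x j) + s j) := by
      rw [map_add, map_add]
      calc π y + (π (x i) + π (x j)) =
          π y + (π (x i) + π (x j)) + (s i + s i) + (s j + s j) := by
            rw [add_self_tr, add_self_tr, add_zero, add_zero]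
        _ = _ := by abel
    rw [e1]
    exact add_mem (add_mem hzs (hxs i)) (hxs j)

end Pool.Agent.WW

end

section

/-!
The types of a cocircuit of rank four: table. A configuration is a pair of masks `A`, `X` of
codes below 8.
-/

namespace Pool.Agent.WW

/-- copies of `M(K5)` in rank four: mask and star -/
def tyK5 : List (ℕ × ℕ × ℕ × ℕ × ℕ) := [
  (6014, 1, 2, 4, 8),
  (11134, 1, 2, 4, 9),
  (19838, 1, 2, 4, 10),
  (36478, 1, 2, 4, 11),
  (29054, 1, 2, 4, 12),
  (45694, 1, 2, 4, 13),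
  (54398, 1, 2, 4, 14),
  (59518, 1, 2, 4, 15),
  (10174, 1, 2, 5, 8),
  (7102, 1, 2, 5, 9),
  (36286, 1, 2, 5, 10),
  (20158, 1, 2, 5, 11),
  (29374, 1, 2, 5, 12),
  (45502, 1, 2, 5, 13),
  (55486, 1, 2, 5, 14),
  (58558, 1, 2, 5, 15),
  (18398, 1, 2, 6, 8),
  (35806, 1, 2, 6, 9),
  (7646, 1, 2, 6, 10),
  (11998, 1, 2, 6, 11),
  (29918, 1, 2, 6, 12),
  (47326, 1, 2, 6, 13),
  (53726, 1, 2, 6, 14),
  (58078, 1, 2, 6, 15),
  (34798, 1, 2, 7, 8),
  (19438, 1, 2, 7, 9),
  (11758, 1, 2, 7, 10),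
  (7918, 1, 2, 7, 11),
  (30958, 1, 2, 7, 12),
  (46318, 1, 2, 7, 13),
  (53998, 1, 2, 7, 14),
  (57838, 1, 2, 7, 15),
  (30494, 1, 2, 8, 12),
  (46894, 1, 2, 8, 13),
  (55118, 1, 2, 8, 14),
  (59278, 1, 2, 8, 15),
  (31534, 1, 2, 9, 12),
  (47902, 1, 2, 9, 13),
  (56206, 1, 2, 9, 14),
  (60238, 1, 2, 9, 15),
  (32078, 1, 2, 10, 12),
  (48526, 1, 2, 10, 13),
  (56606, 1, 2, 10, 14),
  (60718, 1, 2, 10, 15),
  (32398, 1, 2, 11, 12),
  (48718, 1, 2, 11, 13),
  (56878, 1, 2, 11, 14),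
  (60958, 1, 2, 11, 15),
  (21494, 1, 4, 6, 8),
  (41974, 1, 4, 6, 9),
  (23798, 1, 4, 6, 10),
  (44278, 1, 4, 6, 11),
  (13814, 1, 4, 6, 12),
  (15094, 1, 4, 6, 13),
  (50678, 1, 4, 6, 14),
  (51958, 1, 4, 6, 15),
  (37882, 1, 4, 7, 8),
  (25594, 1, 4, 7, 9),
  (27898, 1, 4, 7, 10),
  (40186, 1, 4, 7, 11),
  (14842, 1, 4, 7, 12),
  (14074, 1, 4, 7, 13),
  (50938, 1, 4, 7, 14),
  (51706, 1, 4, 7, 15),
  (24374, 1, 4, 8, 10),
  (40762, 1, 4, 8, 11),
  (55154, 1, 4, 8, 14),
  (56242, 1, 4, 8, 15),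
  (28474, 1, 4, 9, 10),
  (44854, 1, 4, 9, 11),
  (59314, 1, 4, 9, 14),
  (60274, 1, 4, 9, 15),
  (32114, 1, 4, 10, 12),
  (32434, 1, 4, 10, 13),
  (48562, 1, 4, 11, 12),
  (48754, 1, 4, 11, 13),
  (62774, 1, 4, 12, 14),
  (63802, 1, 4, 12, 15),
  (63034, 1, 4, 13, 14),
  (64054, 1, 4, 13, 15),
  (24518, 1, 6, 8, 10),
  (28618, 1, 6, 8, 11),
  (30674, 1, 6, 8, 12),
  (31714, 1, 6, 8, 13),
  (40906, 1, 6, 9, 10),
  (44998, 1, 6, 9, 11),
  (47074, 1, 6, 9, 12),
  (48082, 1, 6, 9, 13),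
  (56786, 1, 6, 10, 14),
  (57058, 1, 6, 10, 15),
  (60898, 1, 6, 11, 14),
  (61138, 1, 6, 11, 15),
  (62918, 1, 6, 12, 14),
  (63178, 1, 6, 12, 15),
  (63946, 1, 6, 13, 14),
  (64198, 1, 6, 13, 15),
  (16214, 1, 8, 10, 12),
  (16294, 1, 8, 10, 13),
  (53078, 1, 8, 10, 14),
  (53158, 1, 8, 10, 15),
  (16282, 1, 8, 11, 12),
  (16234, 1, 8, 11, 13),
  (53098, 1, 8, 11, 14),
  (53146, 1, 8, 11, 15),
  (62294, 1, 8, 12, 14),
  (62362, 1, 8, 12, 15),
  (62314, 1, 8, 13, 14),
  (62374, 1, 8, 13, 15),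
  (64598, 1, 10, 12, 14),
  (64618, 1, 10, 12, 15),
  (64666, 1, 10, 13, 14),
  (64678, 1, 10, 13, 15),
  (38396, 2, 4, 7, 8),
  (27388, 2, 4, 7, 9),
  (26108, 2, 4, 7, 10),
  (39676, 2, 4, 7, 11),
  (23036, 2, 4, 7, 12),
  (42748, 2, 4, 7, 13),
  (22268, 2, 4, 7, 14),
  (43516, 2, 4, 7, 15),
  (40796, 2, 4, 8, 11),
  (46964, 2, 4, 8, 13),
  (48596, 2, 4, 8, 15),
  (28508, 2, 4, 9, 10),
  (31604, 2, 4, 9, 12),
  (32468, 2, 4, 9, 14),
  (59348, 2, 4, 10, 13),
  (60788, 2, 4, 10, 15),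
  (56276, 2, 4, 11, 12),
  (56948, 2, 4, 11, 14),
  (63836, 2, 4, 12, 15),
  (63068, 2, 4, 13, 14),
  (28588, 2, 5, 8, 11),
  (30644, 2, 5, 8, 12),
  (32228, 2, 5, 8, 14),
  (40876, 2, 5, 9, 10),
  (48052, 2, 5, 9, 13),
  (48868, 2, 5, 9, 15),
  (55268, 2, 5, 10, 12),
  (56756, 2, 5, 10, 14),
  (60388, 2, 5, 11, 13),
  (61108, 2, 5, 11, 15),
  (63148, 2, 5, 12, 15),
  (63916, 2, 5, 13, 14),
  (24476, 2, 8, 11, 12),
  (44908, 2, 8, 11, 13),
  (24428, 2, 8, 11, 14),
  (44956, 2, 8, 11, 15),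
  (62876, 2, 8, 12, 15),
  (62828, 2, 8, 13, 14),
  (64108, 2, 9, 12, 15),
  (64156, 2, 9, 13, 14),
  (31672, 3, 4, 8, 13),
  (32216, 3, 4, 8, 14),
  (47032, 3, 4, 9, 12),
  (48856, 3, 4, 9, 15),
  (55256, 3, 4, 10, 12),
  (57016, 3, 4, 10, 15),
  (60376, 3, 4, 11, 13),
  (60856, 3, 4, 11, 14),
  (47992, 3, 5, 8, 12),
  (48616, 3, 5, 8, 15),
  (30584, 3, 5, 9, 13),
  (32488, 3, 5, 9, 14),
  (59368, 3, 5, 10, 13),
  (61048, 3, 5, 10, 14),
  (56296, 3, 5, 11, 12),
  (56696, 3, 5, 11, 15)]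

/-- copies of `K4` in rank four: mask and basis -/
def tyK4 : List (ℕ × List ℕ) := [
  (126, [1, 2, 4]),
  (190, [1, 2, 5]),
  (222, [1, 2, 6]),
  (238, [1, 2, 7]),
  (1806, [1, 2, 8]),
  (2830, [1, 2, 9]),
  (3342, [1, 2, 10]),
  (3598, [1, 2, 11]),
  (28686, [1, 2, 12]),
  (45070, [1, 2, 13]),
  (53262, [1, 2, 14]),
  (57358, [1, 2, 15]),
  (246, [1, 4, 6]),
  (250, [1, 4, 7]),
  (4914, [1, 4, 8]),
  (9010, [1, 4, 9]),
  (19506, [1, 4, 10]),
  (35890, [1, 4, 11]),
  (12594, [1, 4, 12]),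
  (12850, [1, 4, 13]),
  (50226, [1, 4, 14]),
  (51250, [1, 4, 15]),
  (17346, [1, 6, 8]),
  (33730, [1, 6, 9]),
  (7362, [1, 6, 10]),
  (11458, [1, 6, 11]),
  (13506, [1, 6, 12]),
  (14530, [1, 6, 13]),
  (49602, [1, 6, 14]),
  (49858, [1, 6, 15]),
  (3846, [1, 8, 10]),
  (3850, [1, 8, 11]),
  (13074, [1, 8, 12]),
  (13090, [1, 8, 13]),
  (49986, [1, 8, 14]),
  (50050, [1, 8, 15]),
  (15426, [1, 10, 12]),
  (15490, [1, 10, 13]),
  (52242, [1, 10, 14]),
  (52258, [1, 10, 15]),
  (61446, [1, 12, 14]),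
  (61450, [1, 12, 15]),
  (252, [2, 4, 7]),
  (5460, [2, 4, 8]),
  (10836, [2, 4, 9]),
  (17748, [2, 4, 10]),
  (35412, [2, 4, 11]),
  (20820, [2, 4, 12]),
  (41556, [2, 4, 13]),
  (21588, [2, 4, 14]),
  (43092, [2, 4, 15]),
  (9636, [2, 5, 8]),
  (6820, [2, 5, 9]),
  (34212, [2, 5, 10]),
  (19108, [2, 5, 11]),
  (21156, [2, 5, 12]),
  (41380, [2, 5, 13]),
  (22692, [2, 5, 14]),
  (42148, [2, 5, 15]),
  (3852, [2, 8, 11]),
  (21780, [2, 8, 12]),
  (42276, [2, 8, 13]),
  (21828, [2, 8, 14]),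
  (42372, [2, 8, 15]),
  (23076, [2, 9, 12]),
  (43540, [2, 9, 13]),
  (23172, [2, 9, 14]),
  (43588, [2, 9, 15]),
  (61452, [2, 12, 15]),
  (6552, [3, 4, 8]),
  (9880, [3, 4, 9]),
  (18072, [3, 4, 10]),
  (35224, [3, 4, 11]),
  (37272, [3, 4, 12]),
  (25240, [3, 4, 13]),
  (25752, [3, 4, 14]),
  (39064, [3, 4, 15]),
  (10600, [3, 5, 8]),
  (5736, [3, 5, 9]),
  (34408, [3, 5, 10]),
  (18792, [3, 5, 11]),
  (37480, [3, 5, 12]),
  (24936, [3, 5, 13]),
  (26728, [3, 5, 14]),
  (37992, [3, 5, 15]),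
  (39192, [3, 8, 12]),
  (26920, [3, 8, 13]),
  (26952, [3, 8, 14]),
  (39304, [3, 8, 15]),
  (38440, [3, 9, 12]),
  (26136, [3, 9, 13]),
  (26248, [3, 9, 14]),
  (38472, [3, 9, 15]),
  (13104, [4, 8, 13]),
  (21840, [4, 8, 14]),
  (39312, [4, 8, 15]),
  (26256, [4, 9, 14]),
  (43600, [4, 9, 15]),
  (52272, [4, 10, 15]),
  (26976, [5, 8, 14]),
  (42400, [5, 8, 15]),
  (23200, [5, 9, 14]),
  (38496, [5, 9, 15]),
  (50112, [6, 8, 15]),
  (15552, [6, 10, 13])]

/-- proper subspaces of a three-dimensional space -/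
def subM : List ℕ := [1, 3, 5, 9, 17, 33, 65, 129, 15, 51, 195, 85, 165, 153, 105]

/-- number of codes below 8 in the mask -/
def pop8 (M : ℕ) : ℕ := ((List.range 8).filter fun n => M.testBit n).length

/-- lower bound for the dimension -/
def dimM (M : ℕ) : ℕ :=
  if 8 ≤ pop8 M then 3 else if 4 ≤ pop8 M then 2 else if 2 ≤ pop8 M then 1 else 0

/-- the join of two subspaces -/
def joinM (L M : ℕ) : ℕ := mask ((List.range 8).filter fun n =>
  (List.range 8).any fun x => L.testBit x && M.testBit (n ^^^ x))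

/-- splitting into cosets -/
def splM (A L M : ℕ) : Bool := (List.range 8).any fun i => (List.range 8).any fun j =>
  (List.range 8).all fun c => !A.testBit c || L.testBit (i ^^^ c) || M.testBit (j ^^^ c)

/-- the bound at a corner -/
def cbM (A L M : ℕ) : ℕ := if 2 ≤ dimM M then dimM M else if splM A L M then 2 else dimM M

/-- compatibility of two pairs of traces -/
def compatM (A : ℕ) (p q : ℕ × ℕ) : Bool :=
  decide (cbM A (p.1 &&& q.1) (joinM p.2 q.2) + cbM A (p.2 &&& q.2) (joinM p.1 q.1) ≤ 4) ||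
  decide (cbM A (p.1 &&& q.2) (joinM p.2 q.1) + cbM A (p.2 &&& q.1) (joinM p.1 q.2) ≤ 4)

/-- the points of the contraction of `a` in `Γ` -/
def nM (A X a : ℕ) : ℕ := mask ((List.range 8).filter fun n =>
  n != 0 && (X.testBit n || A.testBit (a ^^^ n)))

/-- number of full lines through `a` -/
def tM (A X a : ℕ) : ℕ :=
  ((List.range 8).filter fun b => A.testBit b && X.testBit (a ^^^ b)).length

/-- pairs of traces -/
def trsM (N : ℕ) : List (ℕ × ℕ) := (subM ×ˢ subM).filter fun p =>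
  (N ||| (p.1 ||| p.2)) == (p.1 ||| p.2)

/-- no compatible choice of traces -/
def asgM (A X : ℕ) : List ℕ → List (ℕ × ℕ) → Bool
  | [], _ => false
  | a :: l, acc => (trsM (nM A X a)).all fun p =>
      acc.any (fun q => !compatM A p q) || asgM A X l (p :: acc)

/-- elements on at most two full lines -/
def lowM (A X : ℕ) : List ℕ := (List.range 8).filter fun a => A.testBit a && decide (tM A X a ≤ 2)

/-- some low element has six points in `Γ` -/
def oneM (A X : ℕ) : Bool := (lowM A X).any fun a => decide (6 ≤ pop8 (nM A X a))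

/-- the condition `LPl` -/
def lplM (A X : ℕ) : Bool := (List.range 8).all fun x => !X.testBit x ||
  !(2 * pop8 A == 8 + ((List.range 8).filter fun a => A.testBit a && A.testBit (a ^^^ x)).length) ||
  ((List.range 8).all fun u => (List.range 8).all fun v => !X.testBit u || !X.testBit v ||
    u == x || v == x || u == v || u ^^^ v == x)

/-- low elements, those with many points in `Γ` first -/
def elsM (A X : ℕ) : List ℕ :=
  ((lowM A X).filter fun a => decide (5 ≤ pop8 (nM A X a))) ++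
  ((lowM A X).filter fun a => pop8 (nM A X a) == 4) ++
  ((lowM A X).filter fun a => decide (pop8 (nM A X a) ≤ 3))

/-- the check of one configuration -/
def tyChk (A X : ℕ) : Bool :=
  (tyK5.any fun f => (X + 256 * A) &&& f.1 == f.1) ||
  (tyK4.any fun f => (X + 256 * A) &&& f.1 == f.1) ||
  oneM A X || (asgM A X (elsM A X) [] && lplM A X)

/-- all configurations in normal form -/
def tyAs : List ℕ := (List.range 16).map fun k =>
  23 + 8 * (k % 2) + 32 * (k / 2 % 2) + 64 * (k / 4 % 2) + 128 * (k / 8)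

end Pool.Agent.WW

end

section

/-!
Definitions for the second part (critical exponent at most 4).
-/

namespace Pool.Agent.WW

open Submodule Module

variable {V W : Type*} [AddCommGroup V] [Module (ZMod 2) V]
  [AddCommGroup W] [Module (ZMod 2) W]

/-- every covering of `E` by two proper subspaces has an intersection of dimension `≥ κ` -/
def SepGe (E : Set V) (κ : ℕ) : Prop :=
  ∀ A B : Submodule (ZMod 2) V, A ≠ ⊤ → B ≠ ⊤ → (∀ x ∈ E, x ∈ A ∨ x ∈ B) →
    κ ≤ finrank (ZMod 2) ↥(A ⊓ B)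

/-- the linking condition for a set `B` in the subspace `T`, relative to `U ≤ T` -/
structure Lk (B : Set V) (U T : Submodule (ZMod 2) V) (κ : ℕ) : Prop where
  le : U ≤ T
  sub : ∀ x ∈ B, x ∈ T
  span : T ≤ U ⊔ span (ZMod 2) B
  cond : ∀ H : Submodule (ZMod 2) V, U ≤ H → H < T →
    κ ≤ finrank (ZMod 2) ↥(Submodule.span (ZMod 2) (B \ (H : Set V)) ⊓ H)

/-- `K` is a contraction set inside `B` which is disjoint from `U`, has codimension one over `U`
in `T`, and after which the rest of `B` is a star with apex `x` and differences spanning a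
subspace of `U` of dimension `≥ κ`. -/
structure StarAt (B : Set V) (U T : Submodule (ZMod 2) V) (κ : ℕ) (K : Submodule (ZMod 2) V)
    (x : V) : Prop where
  gen : Gen B K
  le : K ≤ T
  disj : K ⊓ U = ⊥
  rank : finrank (ZMod 2) K + finrank (ZMod 2) U + 1 = finrank (ZMod 2) T
  mem : x ∈ B
  out : x ∉ U ⊔ K
  star : κ ≤ finrank (ZMod 2) ↥(span (ZMod 2) {u : V | u ∈ U ∧ Pres B K (x + u)})

/-- `(A, B)` is a separation of `S ∩ F` in the subspace `F`, with an intersection of dimension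
at most two -/
def Sep (S : Set V) (F A B : Submodule (ZMod 2) V) : Prop :=
  A ≤ F ∧ B ≤ F ∧ A ≠ F ∧ B ≠ F ∧ (∀ x ∈ S, x ∈ F → x ∈ A ∨ x ∈ B) ∧
    finrank (ZMod 2) ↥(A ⊓ B) ≤ 2

/-- all such separations meet in a line which is full in `S` -/
def Full (S : Set V) (F : Submodule (ZMod 2) V) : Prop :=
  ∀ A B : Submodule (ZMod 2) V, Sep S F A B →
    finrank (ZMod 2) ↥(A ⊓ B) = 2 ∧ ∀ x ∈ A ⊓ B, x ≠ 0 → x ∈ S

/-- every separation of `S ∩ Z` is induced by a separation of `S ∩ G` with the same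
intersection -/
def Inv (S : Set V) (G Z : Submodule (ZMod 2) V) : Prop :=
  Z ≤ G ∧ ∀ A B : Submodule (ZMod 2) V, Sep S Z A B →
    ∃ A' B' : Submodule (ZMod 2) V, Sep S G A' B' ∧ A' ⊓ Z = A ∧ B' ⊓ Z = B ∧ A' ⊓ B' = A ⊓ B

/-- `S` is a maximal `M(K5)`-free set of nonzero vectors -/
def MaxFree (S : Set V) : Prop :=
  (0 : V) ∉ S ∧ ¬ HasK5 S ∧ ∀ x : V, x ≠ 0 → ¬ HasK5 (insert x S) → x ∈ S

section Count

variable [DecidableEq V] [DecidableEq W]

/-- the pair `x`, `y` of points of the contraction is the image of a pair of elements of `E`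
with sum in `E` -/
def Lif (π : V →ₗ[ZMod 2] W) (E : Finset V) (x y : W) : Prop :=
  ∃ a ∈ E, ∃ b ∈ E, a + b ∈ E ∧ π a = x ∧ π b = y

open Classical in
/-- number of ordered pairs in `X` with sum in `X` that are lifted (six times the number of
lifted lines of `X`) -/
noncomputable def triL (π : V →ₗ[ZMod 2] W) (E : Finset V) (X : Finset W) : ℕ :=
  ((X ×ˢ X).filter (fun p => p.1 + p.2 ∈ X ∧ Lif π E p.1 p.2)).card

/-- the inequality `3 T* + 9 ≤ 4 n`, and `3 T* + 12 ≤ 4 n` if some line of `X` is not lifted -/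
def QQ (π : V →ₗ[ZMod 2] W) (E : Finset V) (X : Finset W) : Prop :=
  triL π E X + 18 ≤ 8 * X.card ∧
    ((∃ x ∈ X, ∃ y ∈ X, x + y ∈ X ∧ ¬ Lif π E x y) → triL π E X + 24 ≤ 8 * X.card)

end Count

universe u

/-- the triangle inequality `3 T + 9 ≤ 4 n` in rank `n` -/
def TT (n : ℕ) : Prop :=
  ∀ (V : Type u) [AddCommGroup V] [Module (ZMod 2) V] [FiniteDimensional (ZMod 2) V]
    [DecidableEq V] (E : Finset V), Good (E : Set V) → finrank (ZMod 2) V = n →
    tri E + 18 ≤ 8 * E.card

/-- the density inequality `|E| + 5 ≤ 4 n` in rank `n` -/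
def D4 (n : ℕ) : Prop :=
  ∀ (V : Type u) [AddCommGroup V] [Module (ZMod 2) V] [FiniteDimensional (ZMod 2) V]
    [DecidableEq V] (E : Finset V), Good (E : Set V) → finrank (ZMod 2) V = n →
    E.card + 5 ≤ 4 * n

/-- codes of the set `C15` -/
def c15 : List ℕ := [1, 2, 4, 8, 16, 7, 11, 5, 9, 22, 15, 17, 18, 26, 31]

/-- codes of the nine points of the complement of two skew lines `{1,2,3}`, `{4,8,12}` -/
def nine : List ℕ := [5, 6, 7, 9, 10, 11, 13, 14, 15]

/-- there is a certificate for the bit mask `M` -/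
def CertM (M : ℕ) : Prop := ∃ (C : List ℕ) (s0 s1 s2 s3 : ℕ), checkK5 M C s0 s1 s2 s3 = true

/-- representatives of the seven translation classes of stars `{0, a, b, c}` with `a, b, c`
independent in a three-dimensional space with codes -/
def starReps : List (List ℕ) :=
  [[0, 1, 2, 4], [0, 2, 4, 7], [0, 1, 4, 7], [0, 1, 2, 7], [0, 1, 2, 5], [0, 1, 2, 6], [0, 1, 4, 6]]

/-! ### Bit mask tools for rank five -/

/-- the linear map on codes with images `h` of the unit codes -/
def linC : List ℕ → ℕ → ℕ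
  | [], _ => 0
  | c :: h, m => (if m % 2 = 1 then c else 0) ^^^ linC h (m / 2)

/-- number of set bits below 32 -/
def popM (M : ℕ) : ℕ := ((List.range 32).filter (fun n => M.testBit n)).length

/-- number of ordered pairs of codes in the mask with sum in the mask -/
def triM (M : ℕ) : ℕ :=
  ((List.range 32 ×ˢ List.range 32).filter
    (fun p => M.testBit p.1 && M.testBit p.2 && M.testBit (p.1 ^^^ p.2))).length

/-- the code `v` is neither `0` nor `ε` and one of `v`, `v + ε` is in the mask -/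
def prM (M ε v : ℕ) : Bool := v != 0 && v != ε && (M.testBit v || M.testBit (v ^^^ ε))

/-- twice the number of points of the contraction by `ε` -/
def nXM (M ε : ℕ) : ℕ := ((List.range 32).filter (prM M ε)).length

/-- some lift of the pair `u`, `v` has its sum in the mask -/
def lifM (M ε u v : ℕ) : Bool :=
  [0, ε].any fun i => [0, ε].any fun j =>
    M.testBit (u ^^^ i) && M.testBit (v ^^^ j) && M.testBit (u ^^^ i ^^^ (v ^^^ j))

/-- four times `triL` for the contraction by `ε` -/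
def triLM (M ε : ℕ) : ℕ :=
  ((List.range 32 ×ˢ List.range 32).filter
    (fun p => prM M ε p.1 && prM M ε p.2 && prM M ε (p.1 ^^^ p.2) && lifM M ε p.1 p.2)).length

/-- the codes of `h` are independent -/
def IndepC (h : List ℕ) : Prop := ∀ m < 2 ^ h.length, m ≠ 0 → linC h m ≠ 0

/-- parity of a code below 32 -/
def parC (n : ℕ) : Bool :=
  ((n.testBit 0).xor (n.testBit 1)).xor (((n.testBit 2).xor (n.testBit 3)).xor (n.testBit 4))

/-- the mask is covered by the hyperplane `f = 0` and the span of three codes, one of them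
outside the hyperplane -/
def NonVC (M : ℕ) : Prop := ∃ f c1 c2 c3 : ℕ, c1 < 32 ∧ c2 < 32 ∧ c3 < 32 ∧
  (∀ v < 32, M.testBit v = true → parC (f &&& v) = false ∨ v ∈ spanList [c1, c2, c3]) ∧
  ∃ c ∈ [c1, c2, c3], parC (f &&& c) = true

/-- the mask contains a Fano plane -/
def FanoM (M : ℕ) : Prop := ∃ h : List ℕ, h.length = 3 ∧ (∀ c ∈ h, c < 32) ∧ IndepC h ∧
  ∀ m < 8, m ≠ 0 → M.testBit (linC h m) = true

/-- the mask contains an odd triangle -/
def Del4M (M : ℕ) : Prop := ∃ h : List ℕ, h.length = 4 ∧ (∀ c ∈ h, c < 32) ∧ IndepC h ∧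
  ∀ m ∈ [1, 2, 4, 8, 3, 5, 9, 7, 13, 11], M.testBit (linC h m) = true

/-- the mask contains `C15` -/
def C15M (M : ℕ) : Prop := ∃ h : List ℕ, h.length = 5 ∧ (∀ c ∈ h, c < 32) ∧ IndepC h ∧
  ∀ m ∈ c15, M.testBit (linC h m) = true

/-- a list of masks contains the unit basis and is closed under one-point extensions without
`M(K5)`-minor, up to linear equivalence -/
def ClosedList (L : List ℕ) : Prop :=
  mask [1, 2, 4, 8, 16] ∈ L ∧ ∀ M ∈ L, M < 2 ^ 32 ∧ M.testBit 0 = false ∧
    ∀ n < 32, n ≠ 0 → M.testBit n = false →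
      CertM (M + 2 ^ n) ∨ ∃ M' ∈ L, ∃ h : List ℕ, h.length = 5 ∧ (∀ c ∈ h, c < 32) ∧ IndepC h ∧
        ∀ m < 32, M'.testBit m = (M + 2 ^ n).testBit (linC h m)

/-- the classification of the free sets in rank five and its consequences -/
def TabR5 : Prop := ∃ L : List ℕ, ClosedList L ∧ ∀ M ∈ L,
  (NonVC M ∨ (popM M ≤ 15 ∧ triM M + 18 ≤ 8 * popM M)) ∧
  ∀ ε < 32, M.testBit ε = true → 22 ≤ nXM M ε →
    (triLM M ε ≤ 240 ∨ FanoM M ∨ Del4M M ∨ C15M M)

end Pool.Agent.WW

end

section

/-!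
Soundness of the certificates.
-/

namespace Pool.Agent.WW

open Submodule Module

variable {V W : Type*} [AddCommGroup V] [Module (ZMod 2) V]
  [AddCommGroup W] [Module (ZMod 2) W]

lemma add_self_z2 (v : V) : v + v = 0 := by
  have h : (2 : ZMod 2) = 0 := rfl
  rw [← two_smul (ZMod 2) v, h, zero_smul]

theorem comb_xor {m : ℕ} (b : Fin m → V) (x y : ℕ) :
    comb b (x ^^^ y) = comb b x + comb b y := by
  unfold comb
  rw [← Finset.sum_add_distrib]
  refine Finset.sum_congr rfl fun i _ => ?_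
  rw [Nat.testBit_xor]
  cases x.testBit i <;> cases y.testBit i <;> simp [add_self_z2]

omit [Module (ZMod 2) V] in
theorem comb_zero {m : ℕ} (b : Fin m → V) : comb b 0 = 0 := by
  simp [comb]

theorem testBit_mask_aux (l : List ℕ) (M n : ℕ) :
    (l.foldl (fun M n => M ||| (1 <<< n)) M).testBit n = true ↔ M.testBit n = true ∨ n ∈ l := by
  induction l generalizing M with
  | nil => simp
  | cons a l ih =>
    rw [List.foldl_cons, ih, List.mem_cons, Nat.testBit_or, Nat.testBit_shiftLeft]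
    simp only [Bool.or_eq_true, Bool.and_eq_true, decide_eq_true_eq,
      Nat.testBit_one_eq_true_iff_self_eq_zero]
    constructor
    · rintro ((h | ⟨h2, h3⟩) | h)
      · exact Or.inl h
      · exact Or.inr (Or.inl (by omega))
      · exact Or.inr (Or.inr h)
    · rintro (h | h | h)
      · exact Or.inl (Or.inl h)
      · exact Or.inl (Or.inr ⟨by omega, by omega⟩)
      · exact Or.inr h

theorem testBit_mask (l : List ℕ) (n : ℕ) : (mask l).testBit n = true ↔ n ∈ l := by
  unfold mask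
  rw [testBit_mask_aux]
  simp

theorem comb_mem_imp {m : ℕ} (b : Fin m → V) (K : Submodule (ZMod 2) V)
    (hb : ∀ c : Fin m → ZMod 2, ∑ i, c i • b i ∈ K → c = 0) (n : ℕ) (hn : n < 2 ^ m)
    (h : comb b n ∈ K) : n = 0 := by
  have h1 := hb (fun i => if n.testBit i then 1 else 0) (by
    have : ∑ i : Fin m, (if n.testBit i then (1 : ZMod 2) else 0) • b i = comb b n := by
      unfold comb
      refine Finset.sum_congr rfl fun i _ => ?_
      split_ifs <;> simp
    rw [this]
    exact h)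
  apply Nat.eq_of_testBit_eq
  intro i
  rw [Nat.zero_testBit]
  by_cases hi : i < m
  · have h2 := congrFun h1 ⟨i, hi⟩
    simp only [Pi.zero_apply, ite_eq_right_iff] at h2
    by_contra h3
    have h4 : n.testBit i = true := by simpa using h3
    exact one_ne_zero (h2 h4)
  · exact Nat.testBit_lt_two_pow (lt_of_lt_of_le hn (Nat.pow_le_pow_right (by norm_num) (by omega)))

theorem zero_mem_spanList (C : List ℕ) : 0 ∈ spanList C := by
  induction C with
  | nil => simp [spanList]
  | cons c C ih => simp [spanList, ih]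

theorem spanList_lt {m : ℕ} (C : List ℕ) (hC : ∀ c ∈ C, c < 2 ^ m) :
    ∀ k ∈ spanList C, k < 2 ^ m := by
  induction C with
  | nil => simp [spanList]
  | cons c C ih =>
    intro k hk
    rw [spanList, List.mem_append, List.mem_map] at hk
    have ih' := ih fun c hc => hC c (List.mem_cons_of_mem _ hc)
    rcases hk with hk | ⟨k', hk', rfl⟩
    · exact ih' k hk
    · exact Nat.xor_lt_two_pow (hC c List.mem_cons_self) (ih' k' hk')

theorem comb_spanList {m : ℕ} (b : Fin m → V) (C : List ℕ) :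
    ∀ k ∈ spanList C, comb b k ∈ span (ZMod 2) (comb b '' {c | c ∈ C}) := by
  induction C with
  | nil =>
    intro k hk
    simp only [spanList, List.mem_singleton] at hk
    rw [hk, comb_zero]
    exact zero_mem _
  | cons c C ih =>
    intro k hk
    have hle : span (ZMod 2) (comb b '' {c | c ∈ C}) ≤
        span (ZMod 2) (comb b '' {x | x ∈ c :: C}) :=
      span_mono (Set.image_mono fun x hx => List.mem_cons_of_mem _ hx)
    rw [spanList, List.mem_append, List.mem_map] at hk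
    rcases hk with hk | ⟨k', hk', rfl⟩
    · exact hle (ih k hk)
    · rw [comb_xor]
      exact add_mem (subset_span ⟨c, List.mem_cons_self, rfl⟩) (hle (ih k' hk'))

theorem exists_spanList {m : ℕ} (b : Fin m → V) (C : List ℕ) :
    ∀ v ∈ span (ZMod 2) (comb b '' {c | c ∈ C}), ∃ k ∈ spanList C, v = comb b k := by
  induction C with
  | nil =>
    intro v hv
    simp only [List.not_mem_nil, Set.ofPred_false, Set.image_empty, span_empty, mem_bot] at hv
    exact ⟨0, zero_mem_spanList _, by rw [hv, comb_zero]⟩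
  | cons c C ih =>
    intro v hv
    have h1 : comb b '' {x | x ∈ c :: C} = insert (comb b c) (comb b '' {x | x ∈ C}) := by
      rw [← Set.image_insert_eq]
      congr 1
      ext x
      simp
    rw [h1, mem_span_insert] at hv
    obtain ⟨a, w, hw, rfl⟩ := hv
    obtain ⟨k, hk, rfl⟩ := ih w hw
    have ha : ∀ a : ZMod 2, a = 0 ∨ a = 1 := by decide
    rcases ha a with rfl | rfl
    · exact ⟨k, by rw [spanList, List.mem_append]; exact Or.inl hk, by simp⟩
    · refine ⟨c ^^^ k, ?_, by rw [comb_xor]; simp⟩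
      rw [spanList, List.mem_append, List.mem_map]
      exact Or.inr ⟨k, hk, rfl⟩

theorem hasK5_of_cert {m : ℕ} (b : Fin m → V) (E : Set V) (K : Submodule (ZMod 2) V)
    (hK : Gen E K) (hb : ∀ n < 2 ^ m, comb b n ∈ K → n = 0) (M : ℕ)
    (hM : ∀ n, M.testBit n = true → n < 2 ^ m ∧ Pres E K (comb b n)) (C : List ℕ)
    (s0 s1 s2 s3 : ℕ) (h : checkK5 M C s0 s1 s2 s3 = true) : HasK5 E := by
  unfold checkK5 at h
  rw [Bool.and_eq_true, Bool.and_eq_true, List.all_eq_true, List.all_eq_true,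
    List.all_eq_true] at h
  obtain ⟨⟨hC, hP⟩, hT⟩ := h
  set S : Submodule (ZMod 2) V := span (ZMod 2) (comb b '' {c | c ∈ C}) with hS
  have hClt : ∀ k ∈ spanList C, k < 2 ^ m := spanList_lt C fun c hc => (hM c (hC c hc)).1
  -- presence
  have hpres : ∀ v, presC M C v = true → v < 2 ^ m ∧ Pres E (K ⊔ S) (comb b v) := by
    intro v hv
    unfold presC at hv
    rw [List.any_eq_true] at hv
    obtain ⟨k, hk, hkM⟩ := hv
    obtain ⟨h1, x, hx, hxK⟩ := hM _ hkM
    have hvk : v = (v ^^^ k) ^^^ k := by rw [Nat.xor_xor_cancel_right]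
    refine ⟨?_, x, hx, ?_⟩
    · rw [hvk]
      exact Nat.xor_lt_two_pow h1 (hClt k hk)
    · have h2 : x + comb b v = (x + comb b (v ^^^ k)) + comb b k := by
        rw [comb_xor, add_assoc, add_assoc, add_self_z2, add_zero]
      rw [h2]
      exact add_mem (mem_sup_left hxK) (mem_sup_right (comb_spanList b C k hk))
  have hgen : Gen E (K ⊔ S) := by
    unfold Gen
    refine sup_le (hK.trans (span_mono (Set.inter_subset_inter_right _ ?_))) ?_
    · intro x hx
      exact mem_sup_left hx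
    · rw [hS, span_le]
      rintro _ ⟨c, hc, rfl⟩
      obtain ⟨-, x, hx, hxK⟩ := hM c (hC c hc)
      have hcS : comb b c ∈ S := subset_span ⟨c, hc, rfl⟩
      have hxx : x = (x + comb b c) + comb b c := by rw [add_assoc, add_self_z2, add_zero]
      have hx' : x ∈ K ⊔ S := by
        rw [hxx]
        exact add_mem (mem_sup_left hxK) (mem_sup_right hcS)
      have h3 : x ∈ span (ZMod 2) (E ∩ ((K ⊔ S : Submodule (ZMod 2) V) : Set V)) :=
        subset_span ⟨hx, hx'⟩
      have h4 : x + comb b c ∈ span (ZMod 2) (E ∩ ((K ⊔ S : Submodule (ZMod 2) V) : Set V)) := by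
        refine span_mono (Set.inter_subset_inter_right _ ?_) (hK hxK)
        intro y hy
        exact mem_sup_left hy
      have h5 : comb b c = x + (x + comb b c) := by rw [← add_assoc, add_self_z2, zero_add]
      rw [SetLike.mem_coe, h5]
      exact add_mem h3 h4
  have hP' := fun v hv => hpres v (hP v hv)
  simp only [List.mem_cons, List.not_mem_nil, or_false, forall_eq_or_imp, forall_eq] at hP'
  obtain ⟨p0, p1, p2, p3, p01, p02, p03, p12, p13, p23⟩ := hP'
  have hlt := spanList_lt (m := m) [s0, s1, s2, s3] (by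
    simp only [List.mem_cons, List.not_mem_nil, or_false, forall_eq_or_imp, forall_eq]
    exact ⟨p0.1, p1.1, p2.1, p3.1⟩)
  have hnot : ∀ v ∈ (spanList [s0, s1, s2, s3]).tail, comb b v ∉ K ⊔ S := by
    intro v hv hvK
    rw [mem_sup] at hvK
    obtain ⟨a, ha, w, hw, haw⟩ := hvK
    obtain ⟨k, hk, rfl⟩ := exists_spanList b C w hw
    have h1 : comb b (v ^^^ k) ∈ K := by
      rw [comb_xor, ← haw, add_assoc, add_self_z2, add_zero]
      exact ha
    have h2 := hb _ (Nat.xor_lt_two_pow (hlt v (List.mem_of_mem_tail hv)) (hClt k hk)) h1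
    have h3 : v = k := by
      have h4 : (v ^^^ k) ^^^ k = 0 ^^^ k := by rw [h2]
      rwa [Nat.xor_xor_cancel_right, Nat.zero_xor] at h4
    have h4 := hT v hv
    rw [Bool.not_eq_true', List.any_eq_false] at h4
    exact h4 k hk (by simp [h3])
  refine ⟨K ⊔ S, hgen, ![comb b s0, comb b s1, comb b s2, comb b s3], ?_, ?_, ?_⟩
  · intro c hc
    have ha : ∀ a : ZMod 2, a = 0 ∨ a = 1 := by decide
    simp only [Fin.sum_univ_four, Matrix.cons_val_zero, Matrix.cons_val_one, Matrix.cons_val] at hc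
    simp only [spanList, List.nil_append, List.map_cons, List.map_nil, List.cons_append,
      List.tail_cons, List.mem_cons, List.not_mem_nil, or_false, forall_eq_or_imp, forall_eq,
      Nat.xor_zero, comb_xor] at hnot
    obtain ⟨n1, n2, n3, n4, n5, n6, n7, n8, n9, n10, n11, n12, n13, n14, n15⟩ := hnot
    rcases ha (c 0) with c0 | c0 <;> rcases ha (c 1) with c1 | c1 <;>
      rcases ha (c 2) with c2 | c2 <;> rcases ha (c 3) with c3 | c3 <;>
      simp only [c0, c1, c2, c3, zero_smul, one_smul, zero_add, add_zero, add_assoc] at hc <;>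
      first
      | (funext i; fin_cases i <;> assumption)
      | (exfalso; revert hc; assumption)
  · intro i
    fin_cases i
    · exact p0.2
    · exact p1.2
    · exact p2.2
    · exact p3.2
  · intro i j hij
    rw [comb_xor] at p01 p02 p03 p12 p13 p23
    fin_cases i <;> fin_cases j <;> first
      | exact absurd rfl hij
      | exact p01.2
      | exact p02.2
      | exact p03.2
      | exact p12.2
      | exact p13.2
      | exact p23.2
      | (change Pres E _ (comb b s1 + comb b s0); rw [add_comm]; exact p01.2)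
      | (change Pres E _ (comb b s2 + comb b s0); rw [add_comm]; exact p02.2)
      | (change Pres E _ (comb b s3 + comb b s0); rw [add_comm]; exact p03.2)
      | (change Pres E _ (comb b s2 + comb b s1); rw [add_comm]; exact p12.2)
      | (change Pres E _ (comb b s3 + comb b s1); rw [add_comm]; exact p13.2)
      | (change Pres E _ (comb b s3 + comb b s2); rw [add_comm]; exact p23.2)

end Pool.Agent.WW

end

section

/-!
Tables of certificates for the house and for K_{2,3} (item K).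
`tabOK m code edges T` checks all 64 sign patterns.
-/

set_option autoImplicit false

namespace Pool.Agent.WW

/-- the codes of the six edge vectors, for the sign pattern `sg` -/
def edgeCodes (code : Fin 5 → ℕ) (edges : Fin 6 → Fin 5 × Fin 5) (sg : ℕ) : List ℕ :=
  [0, 1, 2, 3, 4, 5].map fun k : Fin 6 =>
    code (edges k).1 ^^^ code (edges k).2 ^^^ (if sg.testBit k then 1 else 0)

/-- all codes known to be present -/
def allCodes (code : Fin 5 → ℕ) (edges : Fin 6 → Fin 5 × Fin 5) (sg : ℕ) : List ℕ :=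
  1 :: (([0, 1, 2, 3, 4].flatMap fun i : Fin 5 => [code i, code i ^^^ 1]) ++
    edgeCodes code edges sg)

/-- the check of a table -/
def tabOK (m : ℕ) (code : Fin 5 → ℕ) (edges : Fin 6 → Fin 5 × Fin 5)
    (T : List (List ℕ × ℕ × ℕ × ℕ × ℕ)) : Bool :=
  (List.range 64).all fun sg => (allCodes code edges sg).all (fun n => decide (n < 2 ^ m)) &&
    match T[sg]? with
    | some (C, s0, s1, s2, s3) => checkK5 (mask (allCodes code edges sg)) C s0 s1 s2 s3
    | none => false

/-- edges of the house: a b, b c, a c, a x, x y, y b -/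
def houseE : Fin 6 → Fin 5 × Fin 5 := ![(0, 1), (1, 2), (0, 2), (0, 3), (3, 4), (4, 1)]

/-- edges of K_{2,3}: a x, a y, a z, b x, b y, b z -/
def k23E : Fin 6 → Fin 5 × Fin 5 := ![(0, 2), (0, 3), (0, 4), (1, 2), (1, 3), (1, 4)]

theorem house_0 : ∃ T, tabOK 6 ![2, 4, 8, 16, 32] houseE T = true := ⟨[
    ([6, 8], 32, 16, 2, 1), ([10, 12], 32, 16, 2, 1), ([6, 8], 32, 16, 2, 1),
    ([16, 32], 9, 4, 3, 1), ([6, 8], 32, 16, 2, 1), ([16, 32], 9, 5, 2, 1),
    ([6, 8], 32, 16, 2, 1), ([11, 13], 32, 16, 2, 1), ([16, 32], 8, 4, 2, 1),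
    ([7, 8], 33, 17, 2, 1), ([10, 13], 33, 17, 2, 1), ([7, 8], 33, 17, 2, 1),
    ([11, 12], 33, 17, 2, 1), ([7, 8], 33, 17, 2, 1), ([16, 32], 8, 5, 3, 1),
    ([7, 8], 33, 17, 2, 1), ([16, 32], 8, 4, 2, 1), ([7, 8], 32, 17, 3, 1),
    ([10, 13], 32, 17, 3, 1), ([7, 8], 32, 17, 3, 1), ([11, 12], 32, 17, 3, 1),
    ([7, 8], 32, 17, 3, 1), ([16, 32], 8, 5, 3, 1), ([7, 8], 32, 17, 3, 1),
    ([6, 8], 33, 16, 3, 1), ([10, 12], 33, 16, 3, 1), ([6, 8], 33, 16, 3, 1),
    ([16, 32], 9, 4, 3, 1), ([6, 8], 33, 16, 3, 1), ([16, 32], 9, 5, 2, 1),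
    ([6, 8], 33, 16, 3, 1), ([11, 13], 33, 16, 3, 1), ([16, 32], 8, 4, 2, 1),
    ([7, 8], 32, 16, 2, 1), ([10, 13], 32, 16, 2, 1), ([7, 8], 32, 16, 2, 1),
    ([11, 12], 32, 16, 2, 1), ([7, 8], 32, 16, 2, 1), ([16, 32], 8, 5, 3, 1),
    ([7, 8], 32, 16, 2, 1), ([6, 8], 33, 17, 2, 1), ([10, 12], 33, 17, 2, 1),
    ([6, 8], 33, 17, 2, 1), ([16, 32], 9, 4, 3, 1), ([6, 8], 33, 17, 2, 1),
    ([16, 32], 9, 5, 2, 1), ([6, 8], 33, 17, 2, 1), ([11, 13], 33, 17, 2, 1),
    ([6, 8], 32, 17, 3, 1), ([10, 12], 32, 17, 3, 1), ([6, 8], 32, 17, 3, 1),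
    ([16, 32], 9, 4, 3, 1), ([6, 8], 32, 17, 3, 1), ([16, 32], 9, 5, 2, 1),
    ([6, 8], 32, 17, 3, 1), ([11, 13], 32, 17, 3, 1), ([16, 32], 8, 4, 2, 1),
    ([7, 8], 33, 16, 3, 1), ([10, 13], 33, 16, 3, 1), ([7, 8], 33, 16, 3, 1),
    ([11, 12], 33, 16, 3, 1), ([7, 8], 33, 16, 3, 1), ([16, 32], 8, 5, 3, 1),
    ([7, 8], 33, 16, 3, 1)], by decide +kernel⟩

theorem house_1 : ∃ T, tabOK 5 ![2, 4, 8, 14, 16] houseE T = true := ⟨[
    ([2], 20, 8, 5, 4), ([2], 20, 8, 5, 4), ([2], 20, 8, 5, 4), ([2], 20, 8, 5, 4),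
    ([2], 20, 8, 5, 4), ([2], 20, 8, 5, 4), ([2], 20, 8, 5, 4), ([2], 20, 8, 5, 4),
    ([2], 20, 8, 5, 4), ([2], 20, 8, 5, 4), ([2], 20, 8, 5, 4), ([2], 20, 8, 5, 4),
    ([2], 20, 8, 5, 4), ([2], 20, 8, 5, 4), ([2], 20, 8, 5, 4), ([2], 20, 8, 5, 4),
    ([2], 20, 9, 4, 5), ([2], 20, 9, 4, 5), ([2], 20, 9, 4, 5), ([2], 20, 9, 4, 5),
    ([2], 20, 9, 4, 5), ([2], 20, 9, 4, 5), ([2], 20, 9, 4, 5), ([2], 20, 9, 4, 5),
    ([2], 20, 9, 4, 5), ([2], 20, 9, 4, 5), ([2], 20, 9, 4, 5), ([2], 20, 9, 4, 5),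
    ([2], 20, 9, 4, 5), ([2], 20, 9, 4, 5), ([2], 20, 9, 4, 5), ([2], 20, 9, 4, 5),
    ([2], 21, 9, 5, 4), ([2], 21, 9, 5, 4), ([2], 21, 9, 5, 4), ([2], 21, 9, 5, 4),
    ([2], 21, 9, 5, 4), ([2], 21, 9, 5, 4), ([2], 21, 9, 5, 4), ([2], 21, 9, 5, 4),
    ([2], 21, 9, 5, 4), ([2], 21, 9, 5, 4), ([2], 21, 9, 5, 4), ([2], 21, 9, 5, 4),
    ([2], 21, 9, 5, 4), ([2], 21, 9, 5, 4), ([2], 21, 9, 5, 4), ([2], 21, 9, 5, 4),
    ([2], 21, 8, 4, 5), ([2], 21, 8, 4, 5), ([2], 21, 8, 4, 5), ([2], 21, 8, 4, 5),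
    ([2], 21, 8, 4, 5), ([2], 21, 8, 4, 5), ([2], 21, 8, 4, 5), ([2], 21, 8, 4, 5),
    ([2], 21, 8, 4, 5), ([2], 21, 8, 4, 5), ([2], 21, 8, 4, 5), ([2], 21, 8, 4, 5),
    ([2], 21, 8, 4, 5), ([2], 21, 8, 4, 5), ([2], 21, 8, 4, 5), ([2], 21, 8, 4, 5)], by decide +kernel⟩

theorem house_2 : ∃ T, tabOK 5 ![2, 4, 8, 16, 14] houseE T = true := ⟨[
    ([4], 18, 8, 3, 2), ([4], 18, 8, 3, 2), ([4], 18, 8, 3, 2), ([4], 18, 8, 3, 2),
    ([4], 18, 8, 3, 2), ([4], 18, 8, 3, 2), ([4], 18, 8, 3, 2), ([4], 18, 8, 3, 2),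
    ([4], 19, 9, 3, 2), ([4], 19, 9, 3, 2), ([4], 19, 9, 3, 2), ([4], 19, 9, 3, 2),
    ([4], 19, 9, 3, 2), ([4], 19, 9, 3, 2), ([4], 19, 9, 3, 2), ([4], 19, 9, 3, 2),
    ([4], 18, 9, 2, 3), ([4], 18, 9, 2, 3), ([4], 18, 9, 2, 3), ([4], 18, 9, 2, 3),
    ([4], 18, 9, 2, 3), ([4], 18, 9, 2, 3), ([4], 18, 9, 2, 3), ([4], 18, 9, 2, 3),
    ([4], 19, 8, 2, 3), ([4], 19, 8, 2, 3), ([4], 19, 8, 2, 3), ([4], 19, 8, 2, 3),
    ([4], 19, 8, 2, 3), ([4], 19, 8, 2, 3), ([4], 19, 8, 2, 3), ([4], 19, 8, 2, 3),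
    ([4], 18, 8, 3, 2), ([4], 18, 8, 3, 2), ([4], 18, 8, 3, 2), ([4], 18, 8, 3, 2),
    ([4], 18, 8, 3, 2), ([4], 18, 8, 3, 2), ([4], 18, 8, 3, 2), ([4], 18, 8, 3, 2),
    ([4], 19, 9, 3, 2), ([4], 19, 9, 3, 2), ([4], 19, 9, 3, 2), ([4], 19, 9, 3, 2),
    ([4], 19, 9, 3, 2), ([4], 19, 9, 3, 2), ([4], 19, 9, 3, 2), ([4], 19, 9, 3, 2),
    ([4], 18, 9, 2, 3), ([4], 18, 9, 2, 3), ([4], 18, 9, 2, 3), ([4], 18, 9, 2, 3),
    ([4], 18, 9, 2, 3), ([4], 18, 9, 2, 3), ([4], 18, 9, 2, 3), ([4], 18, 9, 2, 3),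
    ([4], 19, 8, 2, 3), ([4], 19, 8, 2, 3), ([4], 19, 8, 2, 3), ([4], 19, 8, 2, 3),
    ([4], 19, 8, 2, 3), ([4], 19, 8, 2, 3), ([4], 19, 8, 2, 3), ([4], 19, 8, 2, 3)], by decide +kernel⟩

theorem house_3 : ∃ T, tabOK 5 ![2, 4, 8, 16, 22] houseE T = true := ⟨[
    ([16], 8, 4, 2, 1), ([8], 23, 5, 6, 1), ([10], 23, 5, 6, 1), ([8], 23, 5, 6, 1),
    ([11], 23, 5, 6, 1), ([8], 23, 5, 6, 1), ([16], 8, 5, 3, 1), ([8], 23, 5, 6, 1),
    ([8], 23, 17, 18, 1), ([8], 23, 17, 18, 1), ([8], 23, 17, 18, 1), ([8], 23, 17, 18, 1),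
    ([8], 23, 17, 18, 1), ([8], 23, 17, 18, 1), ([8], 23, 17, 18, 1), ([8], 23, 17, 18, 1),
    ([8], 23, 5, 6, 1), ([10], 23, 5, 6, 1), ([8], 23, 5, 6, 1), ([16], 9, 4, 3, 1),
    ([8], 23, 5, 6, 1), ([16], 9, 5, 2, 1), ([8], 23, 5, 6, 1), ([11], 23, 5, 6, 1),
    ([8], 23, 17, 18, 1), ([8], 23, 16, 19, 1), ([8], 23, 17, 18, 1), ([8], 23, 16, 19, 1),
    ([8], 23, 17, 18, 1), ([8], 23, 16, 19, 1), ([8], 23, 17, 18, 1), ([8], 23, 16, 19, 1),
    ([8], 23, 17, 18, 1), ([8], 23, 17, 18, 1), ([8], 23, 17, 18, 1), ([8], 23, 17, 18, 1),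
    ([8], 23, 17, 18, 1), ([8], 23, 17, 18, 1), ([8], 23, 17, 18, 1), ([8], 23, 17, 18, 1),
    ([16], 8, 4, 2, 1), ([8], 23, 4, 7, 1), ([10], 23, 4, 7, 1), ([8], 23, 4, 7, 1),
    ([11], 23, 4, 7, 1), ([8], 23, 4, 7, 1), ([16], 8, 5, 3, 1), ([8], 23, 4, 7, 1),
    ([8], 23, 17, 18, 1), ([8], 23, 16, 19, 1), ([8], 23, 17, 18, 1), ([8], 23, 16, 19, 1),
    ([8], 23, 17, 18, 1), ([8], 23, 16, 19, 1), ([8], 23, 17, 18, 1), ([8], 23, 16, 19, 1),
    ([8], 23, 4, 7, 1), ([10], 23, 4, 7, 1), ([8], 23, 4, 7, 1), ([16], 9, 4, 3, 1),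
    ([8], 23, 4, 7, 1), ([16], 9, 5, 2, 1), ([8], 23, 4, 7, 1), ([11], 23, 4, 7, 1)], by decide +kernel⟩

theorem house_4 : ∃ T, tabOK 5 ![2, 4, 8, 16, 26] houseE T = true := ⟨[
    ([2], 16, 12, 9, 8), ([2], 16, 12, 9, 8), ([2], 17, 13, 9, 8), ([2], 17, 13, 9, 8),
    ([2], 16, 12, 9, 8), ([2], 16, 12, 9, 8), ([2], 17, 13, 9, 8), ([2], 17, 13, 9, 8),
    ([2], 16, 12, 9, 8), ([2], 16, 12, 9, 8), ([2], 17, 13, 9, 8), ([2], 17, 13, 9, 8),
    ([2], 16, 12, 9, 8), ([2], 16, 12, 9, 8), ([2], 17, 13, 9, 8), ([2], 17, 13, 9, 8),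
    ([2], 16, 12, 9, 8), ([2], 16, 12, 9, 8), ([2], 17, 13, 9, 8), ([2], 17, 13, 9, 8),
    ([2], 16, 12, 9, 8), ([2], 16, 12, 9, 8), ([2], 17, 13, 9, 8), ([2], 17, 13, 9, 8),
    ([2], 16, 12, 9, 8), ([2], 16, 12, 9, 8), ([2], 17, 13, 9, 8), ([2], 17, 13, 9, 8),
    ([2], 16, 12, 9, 8), ([2], 16, 12, 9, 8), ([2], 17, 13, 9, 8), ([2], 17, 13, 9, 8),
    ([2], 17, 12, 8, 9), ([2], 17, 12, 8, 9), ([2], 16, 13, 8, 9), ([2], 16, 13, 8, 9),
    ([2], 17, 12, 8, 9), ([2], 17, 12, 8, 9), ([2], 16, 13, 8, 9), ([2], 16, 13, 8, 9),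
    ([2], 17, 12, 8, 9), ([2], 17, 12, 8, 9), ([2], 16, 13, 8, 9), ([2], 16, 13, 8, 9),
    ([2], 17, 12, 8, 9), ([2], 17, 12, 8, 9), ([2], 16, 13, 8, 9), ([2], 16, 13, 8, 9),
    ([2], 17, 12, 8, 9), ([2], 17, 12, 8, 9), ([2], 16, 13, 8, 9), ([2], 16, 13, 8, 9),
    ([2], 17, 12, 8, 9), ([2], 17, 12, 8, 9), ([2], 16, 13, 8, 9), ([2], 16, 13, 8, 9),
    ([2], 17, 12, 8, 9), ([2], 17, 12, 8, 9), ([2], 16, 13, 8, 9), ([2], 16, 13, 8, 9),
    ([2], 17, 12, 8, 9), ([2], 17, 12, 8, 9), ([2], 16, 13, 8, 9), ([2], 16, 13, 8, 9)], by decide +kernel⟩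

theorem house_5 : ∃ T, tabOK 5 ![2, 4, 8, 16, 28] houseE T = true := ⟨[
    ([4], 16, 8, 2, 1), ([4], 16, 8, 2, 1), ([2], 24, 8, 9, 5), ([2], 24, 8, 9, 5),
    ([4], 17, 8, 3, 1), ([4], 17, 8, 3, 1), ([2], 24, 8, 9, 5), ([2], 24, 8, 9, 5),
    ([4], 16, 9, 3, 1), ([4], 16, 9, 3, 1), ([2], 24, 8, 9, 5), ([2], 24, 8, 9, 5),
    ([4], 17, 9, 2, 1), ([4], 17, 9, 2, 1), ([2], 24, 8, 9, 5), ([2], 24, 8, 9, 5),
    ([2], 24, 8, 9, 5), ([2], 24, 8, 9, 5), ([4], 16, 8, 2, 1), ([4], 16, 8, 2, 1),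
    ([2], 24, 8, 9, 5), ([2], 24, 8, 9, 5), ([4], 17, 8, 3, 1), ([4], 17, 8, 3, 1),
    ([2], 24, 8, 9, 5), ([2], 24, 8, 9, 5), ([4], 16, 9, 3, 1), ([4], 16, 9, 3, 1),
    ([2], 24, 8, 9, 5), ([2], 24, 8, 9, 5), ([4], 17, 9, 2, 1), ([4], 17, 9, 2, 1),
    ([4], 16, 8, 2, 1), ([4], 16, 8, 2, 1), ([2], 25, 9, 8, 5), ([2], 25, 9, 8, 5),
    ([4], 17, 8, 3, 1), ([4], 17, 8, 3, 1), ([2], 25, 9, 8, 5), ([2], 25, 9, 8, 5),
    ([4], 16, 9, 3, 1), ([4], 16, 9, 3, 1), ([2], 25, 9, 8, 5), ([2], 25, 9, 8, 5),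
    ([4], 17, 9, 2, 1), ([4], 17, 9, 2, 1), ([2], 25, 9, 8, 5), ([2], 25, 9, 8, 5),
    ([2], 25, 9, 8, 5), ([2], 25, 9, 8, 5), ([4], 16, 8, 2, 1), ([4], 16, 8, 2, 1),
    ([2], 25, 9, 8, 5), ([2], 25, 9, 8, 5), ([4], 17, 8, 3, 1), ([4], 17, 8, 3, 1),
    ([2], 25, 9, 8, 5), ([2], 25, 9, 8, 5), ([4], 16, 9, 3, 1), ([4], 16, 9, 3, 1),
    ([2], 25, 9, 8, 5), ([2], 25, 9, 8, 5), ([4], 17, 9, 2, 1), ([4], 17, 9, 2, 1)], by decide +kernel⟩

theorem house_6 : ∃ T, tabOK 5 ![2, 4, 8, 16, 30] houseE T = true := ⟨[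
    ([1], 26, 8, 10, 4), ([1], 26, 8, 10, 4), ([1], 26, 8, 10, 4), ([1], 26, 8, 10, 4),
    ([1], 26, 8, 10, 4), ([1], 26, 8, 10, 4), ([1], 26, 8, 10, 4), ([1], 26, 8, 10, 4),
    ([1], 26, 8, 10, 4), ([1], 26, 8, 10, 4), ([1], 26, 8, 10, 4), ([1], 26, 8, 10, 4),
    ([1], 26, 8, 10, 4), ([1], 26, 8, 10, 4), ([1], 26, 8, 10, 4), ([1], 26, 8, 10, 4),
    ([1], 26, 8, 10, 4), ([1], 26, 8, 10, 4), ([1], 26, 8, 10, 4), ([1], 26, 8, 10, 4),
    ([1], 26, 8, 10, 4), ([1], 26, 8, 10, 4), ([1], 26, 8, 10, 4), ([1], 26, 8, 10, 4),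
    ([1], 26, 8, 10, 4), ([1], 26, 8, 10, 4), ([1], 26, 8, 10, 4), ([1], 26, 8, 10, 4),
    ([1], 26, 8, 10, 4), ([1], 26, 8, 10, 4), ([1], 26, 8, 10, 4), ([1], 26, 8, 10, 4),
    ([1], 26, 8, 10, 4), ([1], 26, 8, 10, 4), ([1], 26, 8, 10, 4), ([1], 26, 8, 10, 4),
    ([1], 26, 8, 10, 4), ([1], 26, 8, 10, 4), ([1], 26, 8, 10, 4), ([1], 26, 8, 10, 4),
    ([1], 26, 8, 10, 4), ([1], 26, 8, 10, 4), ([1], 26, 8, 10, 4), ([1], 26, 8, 10, 4),
    ([1], 26, 8, 10, 4), ([1], 26, 8, 10, 4), ([1], 26, 8, 10, 4), ([1], 26, 8, 10, 4),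
    ([1], 26, 8, 10, 4), ([1], 26, 8, 10, 4), ([1], 26, 8, 10, 4), ([1], 26, 8, 10, 4),
    ([1], 26, 8, 10, 4), ([1], 26, 8, 10, 4), ([1], 26, 8, 10, 4), ([1], 26, 8, 10, 4),
    ([1], 26, 8, 10, 4), ([1], 26, 8, 10, 4), ([1], 26, 8, 10, 4), ([1], 26, 8, 10, 4),
    ([1], 26, 8, 10, 4), ([1], 26, 8, 10, 4), ([1], 26, 8, 10, 4), ([1], 26, 8, 10, 4)], by decide +kernel⟩

theorem k23_0 : ∃ T, tabOK 6 ![2, 4, 8, 16, 32] k23E T = true := ⟨[
    ([8, 18], 32, 4, 2, 1), ([8, 18], 32, 4, 2, 1), ([10, 16], 32, 4, 2, 1),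
    ([11, 32], 17, 5, 2, 1), ([10, 32], 16, 4, 2, 1), ([11, 16], 33, 5, 2, 1),
    ([8, 19], 33, 5, 2, 1), ([8, 19], 33, 5, 2, 1), ([8, 18], 32, 4, 2, 1),
    ([8, 18], 32, 4, 2, 1), ([10, 32], 17, 5, 2, 1), ([11, 16], 32, 4, 2, 1),
    ([10, 16], 33, 5, 2, 1), ([11, 32], 16, 4, 2, 1), ([8, 19], 33, 5, 2, 1),
    ([8, 19], 33, 5, 2, 1), ([10, 16], 32, 4, 2, 1), ([11, 32], 17, 4, 3, 1),
    ([8, 19], 32, 4, 2, 1), ([8, 19], 32, 4, 2, 1), ([8, 18], 33, 5, 2, 1),
    ([8, 18], 33, 5, 2, 1), ([10, 32], 16, 5, 3, 1), ([11, 16], 33, 5, 2, 1),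
    ([10, 32], 17, 4, 3, 1), ([11, 16], 32, 4, 2, 1), ([8, 19], 32, 4, 2, 1),
    ([8, 19], 32, 4, 2, 1), ([8, 18], 33, 5, 2, 1), ([8, 18], 33, 5, 2, 1),
    ([10, 16], 33, 5, 2, 1), ([11, 32], 16, 5, 3, 1), ([10, 32], 16, 4, 2, 1),
    ([11, 16], 33, 4, 3, 1), ([8, 19], 33, 4, 3, 1), ([8, 19], 33, 4, 3, 1),
    ([8, 18], 32, 5, 3, 1), ([8, 18], 32, 5, 3, 1), ([10, 16], 32, 5, 3, 1),
    ([11, 32], 17, 5, 2, 1), ([10, 16], 33, 4, 3, 1), ([11, 32], 16, 4, 2, 1),
    ([8, 19], 33, 4, 3, 1), ([8, 19], 33, 4, 3, 1), ([8, 18], 32, 5, 3, 1),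
    ([8, 18], 32, 5, 3, 1), ([10, 32], 17, 5, 2, 1), ([11, 16], 32, 5, 3, 1),
    ([8, 18], 33, 4, 3, 1), ([8, 18], 33, 4, 3, 1), ([10, 32], 16, 5, 3, 1),
    ([11, 16], 33, 4, 3, 1), ([10, 16], 32, 5, 3, 1), ([11, 32], 17, 4, 3, 1),
    ([8, 19], 32, 5, 3, 1), ([8, 19], 32, 5, 3, 1), ([8, 18], 33, 4, 3, 1),
    ([8, 18], 33, 4, 3, 1), ([10, 16], 33, 4, 3, 1), ([11, 32], 16, 5, 3, 1),
    ([10, 32], 17, 4, 3, 1), ([11, 16], 32, 5, 3, 1), ([8, 19], 32, 5, 3, 1),
    ([8, 19], 32, 5, 3, 1)], by decide +kernel⟩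

theorem k23_1 : ∃ T, tabOK 5 ![2, 4, 8, 14, 16] k23E T = true := ⟨[
    ([8], 16, 4, 2, 1), ([8], 16, 4, 2, 1), ([8], 16, 4, 2, 1), ([8], 16, 4, 2, 1),
    ([8], 17, 5, 2, 1), ([8], 17, 5, 2, 1), ([8], 17, 5, 2, 1), ([8], 17, 5, 2, 1),
    ([8], 16, 4, 2, 1), ([8], 16, 4, 2, 1), ([8], 16, 4, 2, 1), ([8], 16, 4, 2, 1),
    ([8], 17, 5, 2, 1), ([8], 17, 5, 2, 1), ([8], 17, 5, 2, 1), ([8], 17, 5, 2, 1),
    ([8], 16, 4, 2, 1), ([8], 16, 4, 2, 1), ([8], 16, 4, 2, 1), ([8], 16, 4, 2, 1),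
    ([8], 17, 5, 2, 1), ([8], 17, 5, 2, 1), ([8], 17, 5, 2, 1), ([8], 17, 5, 2, 1),
    ([8], 16, 4, 2, 1), ([8], 16, 4, 2, 1), ([8], 16, 4, 2, 1), ([8], 16, 4, 2, 1),
    ([8], 17, 5, 2, 1), ([8], 17, 5, 2, 1), ([8], 17, 5, 2, 1), ([8], 17, 5, 2, 1),
    ([8], 17, 4, 3, 1), ([8], 17, 4, 3, 1), ([8], 17, 4, 3, 1), ([8], 17, 4, 3, 1),
    ([8], 16, 5, 3, 1), ([8], 16, 5, 3, 1), ([8], 16, 5, 3, 1), ([8], 16, 5, 3, 1),
    ([8], 17, 4, 3, 1), ([8], 17, 4, 3, 1), ([8], 17, 4, 3, 1), ([8], 17, 4, 3, 1),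
    ([8], 16, 5, 3, 1), ([8], 16, 5, 3, 1), ([8], 16, 5, 3, 1), ([8], 16, 5, 3, 1),
    ([8], 17, 4, 3, 1), ([8], 17, 4, 3, 1), ([8], 17, 4, 3, 1), ([8], 17, 4, 3, 1),
    ([8], 16, 5, 3, 1), ([8], 16, 5, 3, 1), ([8], 16, 5, 3, 1), ([8], 16, 5, 3, 1),
    ([8], 17, 4, 3, 1), ([8], 17, 4, 3, 1), ([8], 17, 4, 3, 1), ([8], 17, 4, 3, 1),
    ([8], 16, 5, 3, 1), ([8], 16, 5, 3, 1), ([8], 16, 5, 3, 1), ([8], 16, 5, 3, 1)], by decide +kernel⟩

theorem k23_2 : ∃ T, tabOK 5 ![2, 4, 8, 16, 14] k23E T = true := ⟨[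
    ([8], 16, 4, 2, 1), ([8], 16, 4, 2, 1), ([8], 17, 5, 2, 1), ([8], 17, 5, 2, 1),
    ([8], 16, 4, 2, 1), ([8], 16, 4, 2, 1), ([8], 17, 5, 2, 1), ([8], 17, 5, 2, 1),
    ([8], 16, 4, 2, 1), ([8], 16, 4, 2, 1), ([8], 17, 5, 2, 1), ([8], 17, 5, 2, 1),
    ([8], 16, 4, 2, 1), ([8], 16, 4, 2, 1), ([8], 17, 5, 2, 1), ([8], 17, 5, 2, 1),
    ([8], 17, 4, 3, 1), ([8], 17, 4, 3, 1), ([8], 16, 5, 3, 1), ([8], 16, 5, 3, 1),
    ([8], 17, 4, 3, 1), ([8], 17, 4, 3, 1), ([8], 16, 5, 3, 1), ([8], 16, 5, 3, 1),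
    ([8], 17, 4, 3, 1), ([8], 17, 4, 3, 1), ([8], 16, 5, 3, 1), ([8], 16, 5, 3, 1),
    ([8], 17, 4, 3, 1), ([8], 17, 4, 3, 1), ([8], 16, 5, 3, 1), ([8], 16, 5, 3, 1),
    ([8], 16, 4, 2, 1), ([8], 16, 4, 2, 1), ([8], 17, 5, 2, 1), ([8], 17, 5, 2, 1),
    ([8], 16, 4, 2, 1), ([8], 16, 4, 2, 1), ([8], 17, 5, 2, 1), ([8], 17, 5, 2, 1),
    ([8], 16, 4, 2, 1), ([8], 16, 4, 2, 1), ([8], 17, 5, 2, 1), ([8], 17, 5, 2, 1),
    ([8], 16, 4, 2, 1), ([8], 16, 4, 2, 1), ([8], 17, 5, 2, 1), ([8], 17, 5, 2, 1),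
    ([8], 17, 4, 3, 1), ([8], 17, 4, 3, 1), ([8], 16, 5, 3, 1), ([8], 16, 5, 3, 1),
    ([8], 17, 4, 3, 1), ([8], 17, 4, 3, 1), ([8], 16, 5, 3, 1), ([8], 16, 5, 3, 1),
    ([8], 17, 4, 3, 1), ([8], 17, 4, 3, 1), ([8], 16, 5, 3, 1), ([8], 16, 5, 3, 1),
    ([8], 17, 4, 3, 1), ([8], 17, 4, 3, 1), ([8], 16, 5, 3, 1), ([8], 16, 5, 3, 1)], by decide +kernel⟩

theorem k23_3 : ∃ T, tabOK 5 ![2, 4, 8, 16, 22] k23E T = true := ⟨[
    ([10], 23, 22, 18, 6), ([16], 9, 5, 2, 1), ([8], 20, 16, 17, 3), ([8], 20, 16, 17, 3),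
    ([8], 17, 21, 20, 3), ([8], 17, 21, 20, 3), ([8], 17, 21, 20, 3), ([8], 17, 21, 20, 3),
    ([16], 9, 4, 3, 1), ([11], 23, 22, 18, 6), ([8], 20, 16, 17, 3), ([8], 20, 16, 17, 3),
    ([8], 17, 21, 20, 3), ([8], 17, 21, 20, 3), ([8], 17, 21, 20, 3), ([8], 17, 21, 20, 3),
    ([8], 17, 21, 20, 3), ([8], 17, 21, 20, 3), ([8], 17, 21, 20, 3), ([8], 17, 21, 20, 3),
    ([16], 8, 4, 2, 1), ([11], 22, 23, 18, 7), ([8], 21, 17, 16, 3), ([8], 21, 17, 16, 3),
    ([8], 17, 21, 20, 3), ([8], 17, 21, 20, 3), ([8], 17, 21, 20, 3), ([8], 17, 21, 20, 3),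
    ([10], 22, 23, 18, 7), ([16], 8, 5, 3, 1), ([8], 21, 17, 16, 3), ([8], 21, 17, 16, 3),
    ([8], 20, 16, 17, 3), ([8], 20, 16, 17, 3), ([16], 8, 4, 2, 1), ([11], 23, 22, 19, 7),
    ([8], 17, 21, 20, 3), ([8], 17, 21, 20, 3), ([8], 16, 20, 21, 3), ([8], 16, 20, 21, 3),
    ([8], 20, 16, 17, 3), ([8], 20, 16, 17, 3), ([10], 23, 22, 19, 7), ([16], 8, 5, 3, 1),
    ([8], 17, 21, 20, 3), ([8], 17, 21, 20, 3), ([8], 16, 20, 21, 3), ([8], 16, 20, 21, 3),
    ([8], 17, 21, 20, 3), ([8], 17, 21, 20, 3), ([8], 16, 20, 21, 3), ([8], 16, 20, 21, 3),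
    ([8], 21, 17, 16, 3), ([8], 21, 17, 16, 3), ([10], 22, 23, 19, 6), ([16], 9, 5, 2, 1),
    ([8], 17, 21, 20, 3), ([8], 17, 21, 20, 3), ([8], 16, 20, 21, 3), ([8], 16, 20, 21, 3),
    ([8], 21, 17, 16, 3), ([8], 21, 17, 16, 3), ([16], 9, 4, 3, 1), ([11], 22, 23, 19, 6)], by decide +kernel⟩

theorem k23_4 : ∃ T, tabOK 5 ![2, 4, 8, 16, 26] k23E T = true := ⟨[
    ([1], 30, 26, 18, 10), ([1], 30, 26, 18, 10), ([1], 30, 26, 18, 10), ([1], 30, 26, 18, 10),
    ([1], 30, 26, 18, 10), ([1], 30, 26, 18, 10), ([1], 30, 26, 18, 10), ([1], 30, 26, 18, 10),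
    ([1], 30, 26, 18, 10), ([1], 30, 26, 18, 10), ([1], 30, 26, 18, 10), ([1], 30, 26, 18, 10),
    ([1], 30, 26, 18, 10), ([1], 30, 26, 18, 10), ([1], 30, 26, 18, 10), ([1], 30, 26, 18, 10),
    ([1], 30, 26, 18, 10), ([1], 30, 26, 18, 10), ([1], 30, 26, 18, 10), ([1], 30, 26, 18, 10),
    ([1], 30, 26, 18, 10), ([1], 30, 26, 18, 10), ([1], 30, 26, 18, 10), ([1], 30, 26, 18, 10),
    ([1], 30, 26, 18, 10), ([1], 30, 26, 18, 10), ([1], 30, 26, 18, 10), ([1], 30, 26, 18, 10),
    ([1], 30, 26, 18, 10), ([1], 30, 26, 18, 10), ([1], 30, 26, 18, 10), ([1], 30, 26, 18, 10),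
    ([1], 30, 26, 18, 10), ([1], 30, 26, 18, 10), ([1], 30, 26, 18, 10), ([1], 30, 26, 18, 10),
    ([1], 30, 26, 18, 10), ([1], 30, 26, 18, 10), ([1], 30, 26, 18, 10), ([1], 30, 26, 18, 10),
    ([1], 30, 26, 18, 10), ([1], 30, 26, 18, 10), ([1], 30, 26, 18, 10), ([1], 30, 26, 18, 10),
    ([1], 30, 26, 18, 10), ([1], 30, 26, 18, 10), ([1], 30, 26, 18, 10), ([1], 30, 26, 18, 10),
    ([1], 30, 26, 18, 10), ([1], 30, 26, 18, 10), ([1], 30, 26, 18, 10), ([1], 30, 26, 18, 10),
    ([1], 30, 26, 18, 10), ([1], 30, 26, 18, 10), ([1], 30, 26, 18, 10), ([1], 30, 26, 18, 10),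
    ([1], 30, 26, 18, 10), ([1], 30, 26, 18, 10), ([1], 30, 26, 18, 10), ([1], 30, 26, 18, 10),
    ([1], 30, 26, 18, 10), ([1], 30, 26, 18, 10), ([1], 30, 26, 18, 10), ([1], 30, 26, 18, 10)], by decide +kernel⟩

theorem k23_5 : ∃ T, tabOK 5 ![2, 4, 8, 16, 28] k23E T = true := ⟨[
    ([1], 30, 28, 20, 12), ([1], 30, 28, 20, 12), ([1], 30, 28, 20, 12), ([1], 30, 28, 20, 12),
    ([1], 30, 28, 20, 12), ([1], 30, 28, 20, 12), ([1], 30, 28, 20, 12), ([1], 30, 28, 20, 12),
    ([1], 30, 28, 20, 12), ([1], 30, 28, 20, 12), ([1], 30, 28, 20, 12), ([1], 30, 28, 20, 12),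
    ([1], 30, 28, 20, 12), ([1], 30, 28, 20, 12), ([1], 30, 28, 20, 12), ([1], 30, 28, 20, 12),
    ([1], 30, 28, 20, 12), ([1], 30, 28, 20, 12), ([1], 30, 28, 20, 12), ([1], 30, 28, 20, 12),
    ([1], 30, 28, 20, 12), ([1], 30, 28, 20, 12), ([1], 30, 28, 20, 12), ([1], 30, 28, 20, 12),
    ([1], 30, 28, 20, 12), ([1], 30, 28, 20, 12), ([1], 30, 28, 20, 12), ([1], 30, 28, 20, 12),
    ([1], 30, 28, 20, 12), ([1], 30, 28, 20, 12), ([1], 30, 28, 20, 12), ([1], 30, 28, 20, 12),
    ([1], 30, 28, 20, 12), ([1], 30, 28, 20, 12), ([1], 30, 28, 20, 12), ([1], 30, 28, 20, 12),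
    ([1], 30, 28, 20, 12), ([1], 30, 28, 20, 12), ([1], 30, 28, 20, 12), ([1], 30, 28, 20, 12),
    ([1], 30, 28, 20, 12), ([1], 30, 28, 20, 12), ([1], 30, 28, 20, 12), ([1], 30, 28, 20, 12),
    ([1], 30, 28, 20, 12), ([1], 30, 28, 20, 12), ([1], 30, 28, 20, 12), ([1], 30, 28, 20, 12),
    ([1], 30, 28, 20, 12), ([1], 30, 28, 20, 12), ([1], 30, 28, 20, 12), ([1], 30, 28, 20, 12),
    ([1], 30, 28, 20, 12), ([1], 30, 28, 20, 12), ([1], 30, 28, 20, 12), ([1], 30, 28, 20, 12),
    ([1], 30, 28, 20, 12), ([1], 30, 28, 20, 12), ([1], 30, 28, 20, 12), ([1], 30, 28, 20, 12),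
    ([1], 30, 28, 20, 12), ([1], 30, 28, 20, 12), ([1], 30, 28, 20, 12), ([1], 30, 28, 20, 12)], by decide +kernel⟩

theorem k23_6 : ∃ T, tabOK 5 ![2, 4, 8, 16, 30] k23E T = true := ⟨[
    ([2], 29, 28, 20, 12), ([2], 29, 28, 20, 12), ([2], 29, 28, 20, 12), ([2], 29, 28, 20, 12),
    ([2], 29, 28, 20, 12), ([2], 29, 28, 20, 12), ([2], 29, 28, 20, 12), ([2], 29, 28, 20, 12),
    ([3], 28, 29, 20, 13), ([3], 28, 29, 20, 13), ([3], 28, 29, 20, 13), ([3], 28, 29, 20, 13),
    ([3], 28, 29, 20, 13), ([3], 28, 29, 20, 13), ([3], 28, 29, 20, 13), ([3], 28, 29, 20, 13),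
    ([3], 28, 29, 21, 12), ([3], 28, 29, 21, 12), ([3], 28, 29, 21, 12), ([3], 28, 29, 21, 12),
    ([3], 28, 29, 21, 12), ([3], 28, 29, 21, 12), ([3], 28, 29, 21, 12), ([3], 28, 29, 21, 12),
    ([2], 29, 28, 21, 13), ([2], 29, 28, 21, 13), ([2], 29, 28, 21, 13), ([2], 29, 28, 21, 13),
    ([2], 29, 28, 21, 13), ([2], 29, 28, 21, 13), ([2], 29, 28, 21, 13), ([2], 29, 28, 21, 13),
    ([3], 29, 28, 20, 12), ([3], 29, 28, 20, 12), ([3], 29, 28, 20, 12), ([3], 29, 28, 20, 12),
    ([3], 29, 28, 20, 12), ([3], 29, 28, 20, 12), ([3], 29, 28, 20, 12), ([3], 29, 28, 20, 12),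
    ([2], 28, 29, 20, 13), ([2], 28, 29, 20, 13), ([2], 28, 29, 20, 13), ([2], 28, 29, 20, 13),
    ([2], 28, 29, 20, 13), ([2], 28, 29, 20, 13), ([2], 28, 29, 20, 13), ([2], 28, 29, 20, 13),
    ([2], 28, 29, 21, 12), ([2], 28, 29, 21, 12), ([2], 28, 29, 21, 12), ([2], 28, 29, 21, 12),
    ([2], 28, 29, 21, 12), ([2], 28, 29, 21, 12), ([2], 28, 29, 21, 12), ([2], 28, 29, 21, 12),
    ([3], 29, 28, 21, 13), ([3], 29, 28, 21, 13), ([3], 29, 28, 21, 13), ([3], 29, 28, 21, 13),
    ([3], 29, 28, 21, 13), ([3], 29, 28, 21, 13), ([3], 29, 28, 21, 13), ([3], 29, 28, 21, 13)], by decide +kernel⟩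

end Pool.Agent.WW

end

section

namespace Pool.Agent.WW

open Submodule Module

variable {V W : Type*} [AddCommGroup V] [Module (ZMod 2) V]
  [AddCommGroup W] [Module (ZMod 2) W]

theorem link_cond [FiniteDimensional (ZMod 2) V] (E : Set V) (hs : span (ZMod 2) E = ⊤)
    (hvc : VC E) (X Y : Submodule (ZMod 2) V) (hX : 3 ≤ finrank (ZMod 2) X)
    (hne : ∃ a ∈ E, a ∉ X) (hE : ∀ e ∈ E, e ∈ X ∨ e ∈ Y) :
    3 ≤ finrank (ZMod 2) ↥(X ⊓ Y) := by
  by_cases hEY : ∀ e ∈ E, e ∈ Y
  · have : Y = ⊤ := by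
      rw [eq_top_iff, ← hs]; exact span_le.2 hEY
    rw [this, inf_top_eq]; exact hX
  · push Not at hEY
    obtain ⟨b, hb, hbY⟩ := hEY
    have hle : span (ZMod 2) (E \ (X : Set V)) ≤ Y :=
      span_le.2 (fun e he => (hE e he.1).resolve_left he.2)
    have := hvc X hne ⟨b, hb, (hE b hb).resolve_right hbY, fun h => hbY (hle h)⟩
    refine this.trans (Submodule.finrank_mono ?_)
    exact le_inf inf_le_right (inf_le_left.trans hle)

theorem link_rank_le [FiniteDimensional (ZMod 2) V] (P : Submodule (ZMod 2) V) (Z : Finset V) :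
    finrank (ZMod 2) ↥(P ⊔ span (ZMod 2) (Z : Set V)) ≤ finrank (ZMod 2) P + Z.card :=
  (Submodule.finrank_add_le_finrank_add_finrank _ _).trans
    (Nat.add_le_add_left (finrank_span_finset_le_card Z) _)

theorem link_rank_singleton [FiniteDimensional (ZMod 2) V] (P : Submodule (ZMod 2) V) (x : V)
    (hx : x ∉ P) :
    finrank (ZMod 2) ↥(P ⊔ span (ZMod 2) {x}) = finrank (ZMod 2) P + 1 := by
  apply le_antisymm
  · have := link_rank_le P {x}
    rwa [Finset.coe_singleton, Finset.card_singleton] at this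
  · have : P < P ⊔ span (ZMod 2) {x} := by
      refine lt_of_le_of_ne le_sup_left ?_
      intro h
      apply hx
      rw [h]
      exact mem_sup_right (mem_span_singleton_self x)
    exact Submodule.finrank_lt_finrank_of_lt this

/-- independence modulo `P` of a finite set `Z` passes to subsets and gives disjointness -/
theorem link_disj [FiniteDimensional (ZMod 2) V] (P : Submodule (ZMod 2) V) (Z : Finset V)
    (h : finrank (ZMod 2) ↥(P ⊔ span (ZMod 2) (Z : Set V)) = finrank (ZMod 2) P + Z.card) :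
    span (ZMod 2) (Z : Set V) ⊓ P = ⊥ ∧ finrank (ZMod 2) ↥(span (ZMod 2) (Z : Set V)) = Z.card := by
  have h1 := Submodule.finrank_sup_add_finrank_inf_eq P (span (ZMod 2) (Z : Set V))
  have h2 : finrank (ZMod 2) ↥(span (ZMod 2) (Z : Set V)) ≤ Z.card := finrank_span_finset_le_card Z
  constructor
  · rw [inf_comm]
    apply Submodule.finrank_eq_zero.1
    omega
  · omega

theorem link_sub [FiniteDimensional (ZMod 2) V] (P : Submodule (ZMod 2) V) (Z Z' : Finset V)
    (hZ : Z' ⊆ Z)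
    (h : finrank (ZMod 2) ↥(P ⊔ span (ZMod 2) (Z : Set V)) = finrank (ZMod 2) P + Z.card) :
    finrank (ZMod 2) ↥(P ⊔ span (ZMod 2) (Z' : Set V)) = finrank (ZMod 2) P + Z'.card := by
  classical
  apply le_antisymm (link_rank_le P Z')
  have h1 := link_rank_le (P ⊔ span (ZMod 2) (Z' : Set V)) (Z \ Z')
  have h2 : P ⊔ span (ZMod 2) (Z' : Set V) ⊔ span (ZMod 2) ((Z \ Z' : Finset V) : Set V) =
      P ⊔ span (ZMod 2) (Z : Set V) := by
    rw [sup_assoc, ← span_union, ← Finset.coe_union, Finset.union_sdiff_of_subset hZ]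
  rw [h2, h] at h1
  have h3 := Finset.card_sdiff_add_card_eq_card hZ
  omega

theorem link_extend [FiniteDimensional (ZMod 2) V] (P : Submodule (ZMod 2) V) (F Z' : Finset V)
    (hZ : Z' ⊆ F)
    (h : finrank (ZMod 2) ↥(P ⊔ span (ZMod 2) (Z' : Set V)) = finrank (ZMod 2) P + Z'.card) :
    ∃ Z ⊆ F, Z' ⊆ Z ∧
      finrank (ZMod 2) ↥(P ⊔ span (ZMod 2) (Z : Set V)) = finrank (ZMod 2) P + Z.card ∧
      ∀ f ∈ F, f ∈ P ⊔ span (ZMod 2) (Z : Set V) := by
  classical
  obtain ⟨Z, hZm, hmax⟩ := Finset.exists_max_image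
    (F.powerset.filter (fun Z => Z' ⊆ Z ∧
      finrank (ZMod 2) ↥(P ⊔ span (ZMod 2) (Z : Set V)) = finrank (ZMod 2) P + Z.card))
    Finset.card ⟨Z', by simp [hZ, h]⟩
  simp only [Finset.mem_filter, Finset.mem_powerset] at hZm hmax
  refine ⟨Z, hZm.1, hZm.2.1, hZm.2.2, ?_⟩
  intro f hf
  by_contra hfn
  have hfZ : f ∉ Z := fun hm => hfn (mem_sup_right (subset_span hm))
  have := hmax (insert f Z) ⟨Finset.insert_subset hf hZm.1,
    hZm.2.1.trans (Finset.subset_insert _ _), by
      rw [Finset.coe_insert, ← Set.union_singleton, span_union, ← sup_assoc,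
        link_rank_singleton _ _ hfn, hZm.2.2, Finset.card_insert_of_notMem hfZ]
      ring⟩
  rw [Finset.card_insert_of_notMem hfZ] at this
  omega

theorem link_char (x : V) : x + x = 0 := by
  have : (2 : ZMod 2) • x = 0 := by
    rw [show (2 : ZMod 2) = 0 from rfl, zero_smul]
  rwa [two_smul] at this

theorem link_hyper [FiniteDimensional (ZMod 2) V] (E : Set V) (hs : span (ZMod 2) E = ⊤)
    (hvc : VC E) (U : Submodule (ZMod 2) V) (hU : 3 ≤ finrank (ZMod 2) U)
    (hne : ∃ a ∈ E, a ∉ U) :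
    ∃ K : Submodule (ZMod 2) V, Gen E K ∧ K ⊓ U = ⊥ ∧ ∃ x ∈ E, x ∉ U ⊔ K ∧
      3 ≤ finrank (ZMod 2) ↥(span (ZMod 2) {u : V | u ∈ U ∧ Pres E K (x + u)}) := by
  classical
  have : Finite V := Module.finite_of_finite (ZMod 2)
  -- a maximal proper submodule of the form `U ⊔ span Z0`
  obtain ⟨H, ⟨⟨Z0, hZ0, hHZ⟩, x, hxE, hxH⟩, hmax⟩ :=
    (wellFounded_gt (α := Submodule (ZMod 2) V)).has_min
      {H | (∃ Z0 ⊆ E, H = U ⊔ span (ZMod 2) Z0) ∧ ∃ a ∈ E, a ∉ H}
      ⟨U, ⟨∅, by simp, by simp⟩, hne⟩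
  have htop : ∀ a ∈ E, a ∈ H ⊔ span (ZMod 2) {x} := by
    intro a ha
    by_contra hn
    refine hmax (H ⊔ span (ZMod 2) {x}) ⟨⟨Z0 ∪ {x}, ?_, ?_⟩, a, ha, hn⟩ ?_
    · exact Set.union_subset hZ0 (by simpa using hxE)
    · rw [hHZ, span_union, sup_assoc]
    · refine lt_of_le_of_ne le_sup_left ?_
      intro h
      apply hxH
      rw [h]
      exact mem_sup_right (mem_span_singleton_self x)
  have hadd : ∀ a ∈ E, a ∉ H → a + x ∈ H := by
    intro a ha haH
    obtain ⟨h, hh, y, hy, rfl⟩ := mem_sup.1 (htop a ha)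
    obtain ⟨c, rfl⟩ := mem_span_singleton.1 hy
    have hc : c = 1 := by
      have hc0 : c ≠ 0 := by
        rintro rfl
        apply haH
        simpa using hh
      revert c
      intro c _ _ _ hc
      fin_cases c
      · exact absurd rfl hc
      · rfl
    subst hc
    rw [one_smul, add_assoc, link_char, add_zero]
    exact hh
  have hHtop : H ⊔ span (ZMod 2) {x} = ⊤ := by
    rw [eq_top_iff, ← hs]
    exact span_le.2 htop
  have hdimV : finrank (ZMod 2) V = finrank (ZMod 2) H + 1 := by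
    rw [← link_rank_singleton H x hxH, hHtop, finrank_top]
  set EH : Finset V := (Set.toFinite (E ∩ (H : Set V))).toFinset with hEH
  have hEHm : ∀ e, e ∈ EH ↔ e ∈ E ∧ e ∈ H := by
    intro e
    simp [hEH]
  have hUH : U ≤ H := by rw [hHZ]; exact le_sup_left
  set Wd : Submodule (ZMod 2) V := span (ZMod 2) ((fun y => y + x) '' (E \ (H : Set V))) with hWd
  have key : ∀ A ⊆ EH, finrank (ZMod 2) H + 3 ≤
      finrank (ZMod 2) ↥(U ⊔ span (ZMod 2) (A : Set V)) +
      finrank (ZMod 2) ↥(Wd ⊔ span (ZMod 2) ((EH \ A : Finset V) : Set V)) := by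
    intro A hA
    set X := U ⊔ span (ZMod 2) (A : Set V) with hX
    set Y0 := Wd ⊔ span (ZMod 2) ((EH \ A : Finset V) : Set V) with hY0
    have hXH : X ≤ H := by
      refine sup_le hUH (span_le.2 ?_)
      intro a ha
      exact ((hEHm a).1 (hA ha)).2
    have hcov : ∀ e ∈ E, e ∈ X ∨ e ∈ Y0 ⊔ span (ZMod 2) {x} := by
      intro e he
      by_cases heH : e ∈ H
      · by_cases heA : e ∈ A
        · left
          exact mem_sup_right (subset_span heA)
        · right
          refine mem_sup_left (mem_sup_right (subset_span ?_))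
          rw [Finset.mem_coe, Finset.mem_sdiff]
          exact ⟨(hEHm e).2 ⟨he, heH⟩, heA⟩
      · right
        have : e = (e + x) + x := by rw [add_assoc, link_char, add_zero]
        rw [this]
        exact add_mem (mem_sup_left (mem_sup_left (subset_span ⟨e, ⟨he, heH⟩, rfl⟩)))
          (mem_sup_right (mem_span_singleton_self x))
    have h3 := link_cond E hs hvc X (Y0 ⊔ span (ZMod 2) {x})
      (hU.trans (Submodule.finrank_mono le_sup_left)) ⟨x, hxE, fun h => hxH (hXH h)⟩ hcov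
    have hsup : X ⊔ (Y0 ⊔ span (ZMod 2) {x}) = ⊤ := by
      rw [eq_top_iff, ← hs]
      refine span_le.2 ?_
      intro e he
      rcases hcov e he with h | h
      · exact mem_sup_left h
      · exact mem_sup_right h
    have h4 := Submodule.finrank_sup_add_finrank_inf_eq X (Y0 ⊔ span (ZMod 2) {x})
    rw [hsup, finrank_top] at h4
    have h5 := link_rank_le Y0 {x}
    rw [Finset.coe_singleton, Finset.card_singleton] at h5
    omega
  obtain ⟨Z', hZ'E, hZ'c, hZ'1, hZ'2⟩ := lin_inter (id : V → V) U Wd EH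
    (finrank (ZMod 2) H + 3 - finrank (ZMod 2) U - finrank (ZMod 2) Wd) (by
      intro A hA
      have h1 := key A hA
      have h2 : finrank (ZMod 2) U ≤ finrank (ZMod 2) ↥(U ⊔ span (ZMod 2) (A : Set V)) :=
        Submodule.finrank_mono le_sup_left
      have h3 : finrank (ZMod 2) Wd ≤
          finrank (ZMod 2) ↥(Wd ⊔ span (ZMod 2) ((EH \ A : Finset V) : Set V)) :=
        Submodule.finrank_mono le_sup_left
      rw [Set.image_id, Set.image_id]
      omega)
  rw [Set.image_id] at hZ'1 hZ'2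
  obtain ⟨Z, hZE, hZ'Z, hZ1, hZspan⟩ := link_extend U EH Z' hZ'E (by rw [hZ'1, hZ'c])
  have hZsup : U ⊔ span (ZMod 2) (Z : Set V) = H := by
    apply le_antisymm
    · refine sup_le hUH (span_le.2 ?_)
      intro a ha
      exact ((hEHm a).1 (hZE ha)).2
    · conv_lhs => rw [hHZ]
      refine sup_le le_sup_left (span_le.2 ?_)
      intro a ha
      refine hZspan a ((hEHm a).2 ⟨hZ0 ha, ?_⟩)
      rw [hHZ]
      exact mem_sup_right (subset_span ha)
  obtain ⟨hd1, hd2⟩ := link_disj U Z hZ1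
  refine ⟨span (ZMod 2) (Z : Set V), ?_, hd1, x, hxE, ?_, ?_⟩
  · refine span_mono ?_
    intro z hz
    exact ⟨((hEHm z).1 (hZE hz)).1, subset_span hz⟩
  · rw [hZsup]; exact hxH
  · set S := span (ZMod 2) {u : V | u ∈ U ∧ Pres E (span (ZMod 2) (Z : Set V)) (x + u)} with hS
    have hle : Wd ≤ S ⊔ span (ZMod 2) (Z : Set V) := by
      rw [hWd]
      refine span_le.2 ?_
      rintro _ ⟨y, ⟨hyE, hyH⟩, rfl⟩
      have h1 : y + x ∈ U ⊔ span (ZMod 2) (Z : Set V) := by
        rw [hZsup]; exact hadd y hyE hyH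
      obtain ⟨u, hu, z, hz, huz⟩ := mem_sup.1 h1
      show y + x ∈ S ⊔ span (ZMod 2) (Z : Set V)
      rw [← huz]
      refine add_mem (mem_sup_left (subset_span ⟨hu, y, hyE, ?_⟩)) (mem_sup_right hz)
      have : y + (x + u) = z := by
        rw [← add_assoc, ← huz, add_comm u z, add_assoc, link_char, add_zero]
      rw [this]
      exact hz
    have h1 : finrank (ZMod 2) ↥(Wd ⊔ span (ZMod 2) (Z' : Set V)) ≤
        finrank (ZMod 2) ↥(S ⊔ span (ZMod 2) (Z : Set V)) :=
      Submodule.finrank_mono (sup_le hle ((span_mono (by exact_mod_cast hZ'Z)).trans le_sup_right))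
    have h2 := link_rank_le S Z
    have h3 : finrank (ZMod 2) H = finrank (ZMod 2) U + Z.card := by rw [← hZsup, hZ1]
    omega

theorem link_mid [FiniteDimensional (ZMod 2) V] (P : Submodule (ZMod 2) V)
    (hP : 5 ≤ finrank (ZMod 2) P) (Z : Finset V) :
    finrank (ZMod 2) ↥(P ⊔ span (ZMod 2) (Z : Set V)) ≤ 5 + Z.card →
    ∃ Z'' ⊆ Z, finrank (ZMod 2) ↥(P ⊔ span (ZMod 2) (Z'' : Set V)) = 5 + Z''.card := by
  classical
  induction Z using Finset.induction_on with
  | empty =>
    intro h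
    refine ⟨∅, by simp, ?_⟩
    rw [Finset.coe_empty, span_empty, sup_bot_eq, Finset.card_empty] at h ⊢
    omega
  | insert z Z hz ih =>
    intro h
    by_cases h1 : finrank (ZMod 2) ↥(P ⊔ span (ZMod 2) (Z : Set V)) ≤ 5 + Z.card
    · obtain ⟨Z'', h2, h3⟩ := ih h1
      exact ⟨Z'', h2.trans (Finset.subset_insert _ _), h3⟩
    · refine ⟨insert z Z, subset_rfl, ?_⟩
      have h2 : finrank (ZMod 2) ↥(P ⊔ span (ZMod 2) (Z : Set V)) ≤
          finrank (ZMod 2) ↥(P ⊔ span (ZMod 2) ((insert z Z : Finset V) : Set V)) :=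
        Submodule.finrank_mono (sup_le_sup_left (span_mono (by
          rw [Finset.coe_insert]; exact Set.subset_insert _ _)) _)
      rw [Finset.card_insert_of_notMem hz] at h ⊢
      omega

theorem link_two [FiniteDimensional (ZMod 2) V] (E : Set V) (hs : span (ZMod 2) E = ⊤)
    (hvc : VC E) (U₁ U₂ : Submodule (ZMod 2) V) (h1 : finrank (ZMod 2) U₁ = 4)
    (h2 : finrank (ZMod 2) U₂ = 4) (hne : U₁ ≠ U₂) :
    ∃ K : Submodule (ZMod 2) V, Gen E K ∧ K ⊓ U₁ = ⊥ ∧ K ⊓ U₂ = ⊥ ∧
      finrank (ZMod 2) ↥(U₁ ⊔ U₂ ⊔ K) = 5 + finrank (ZMod 2) K := by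
  classical
  have : Finite V := Module.finite_of_finite (ZMod 2)
  have h5 : 5 ≤ finrank (ZMod 2) ↥(U₁ ⊔ U₂) := by
    by_contra hlt
    push Not at hlt
    have e1 : U₁ = U₁ ⊔ U₂ := Submodule.eq_of_le_of_finrank_le le_sup_left (by omega)
    have e2 : U₂ = U₁ ⊔ U₂ := Submodule.eq_of_le_of_finrank_le le_sup_right (by omega)
    exact hne (e1.trans e2.symm)
  have hV5 : 5 ≤ finrank (ZMod 2) V := h5.trans (Submodule.finrank_le _)
  set EF : Finset V := (Set.toFinite E).toFinset with hEF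
  have hEFm : ∀ e, e ∈ EF ↔ e ∈ E := by
    intro e
    simp [hEF]
  obtain ⟨Z, hZE, hZc, hZ1, hZ2⟩ := lin_inter (id : V → V) U₁ U₂ EF
    (finrank (ZMod 2) V - 5) (by
      intro A hA
      rw [Set.image_id, Set.image_id]
      set X := U₁ ⊔ span (ZMod 2) (A : Set V) with hX
      set Y := U₂ ⊔ span (ZMod 2) ((EF \ A : Finset V) : Set V) with hY
      have hcov : ∀ e ∈ E, e ∈ X ∨ e ∈ Y := by
        intro e he
        by_cases heA : e ∈ A
        · left
          exact mem_sup_right (subset_span heA)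
        · right
          refine mem_sup_right (subset_span ?_)
          rw [Finset.mem_coe, Finset.mem_sdiff]
          exact ⟨(hEFm e).2 he, heA⟩
      have hX4 : 4 ≤ finrank (ZMod 2) X := by
        rw [← h1]; exact Submodule.finrank_mono le_sup_left
      have hY4 : 4 ≤ finrank (ZMod 2) Y := by
        rw [← h2]; exact Submodule.finrank_mono le_sup_left
      have hinf : 3 ≤ finrank (ZMod 2) ↥(X ⊓ Y) := by
        by_cases hall : ∃ a ∈ E, a ∉ X
        · exact link_cond E hs hvc X Y (by omega) hall hcov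
        · push Not at hall
          have : X = ⊤ := by
            rw [eq_top_iff, ← hs]; exact span_le.2 hall
          rw [this, top_inf_eq]
          omega
      have hsup : X ⊔ Y = ⊤ := by
        rw [eq_top_iff, ← hs]
        refine span_le.2 ?_
        intro e he
        rcases hcov e he with h | h
        · exact mem_sup_left h
        · exact mem_sup_right h
      have h4 := Submodule.finrank_sup_add_finrank_inf_eq X Y
      rw [hsup, finrank_top] at h4
      omega)
  rw [Set.image_id] at hZ1 hZ2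
  obtain ⟨Z'', hZ''Z, hZ''⟩ := link_mid (U₁ ⊔ U₂) h5 Z (by
    refine (Submodule.finrank_le _).trans ?_
    omega)
  have i1 := link_sub U₁ Z Z'' hZ''Z (by rw [hZ1, hZc])
  have i2 := link_sub U₂ Z Z'' hZ''Z (by rw [hZ2, hZc])
  obtain ⟨d1, d2⟩ := link_disj U₁ Z'' i1
  obtain ⟨d3, _⟩ := link_disj U₂ Z'' i2
  refine ⟨span (ZMod 2) (Z'' : Set V), ?_, d1, d3, ?_⟩
  · refine span_mono ?_
    intro z hz
    exact ⟨(hEFm z).1 (hZE (hZ''Z hz)), subset_span hz⟩
  · rw [hZ'', d2]

end Pool.Agent.WW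

end

section

/-!
Common vocabulary for the third part (critical exponent at most 3). Everything lives in a
vector space over `ZMod 2`; the standing assumption is `Good E` (see `Defs.lean`), which is
equivalent to: `0 ∉ E`, `span E = ⊤`, `SepGe E 3`, `¬ HasK5 E` (`good_iff_sepGe`).
-/

namespace Pool.Agent.WW

open Submodule Module

variable {V W : Type*} [AddCommGroup V] [Module (ZMod 2) V]
  [AddCommGroup W] [Module (ZMod 2) W]

/-- the pair `A`, `B` of proper subspaces covers `E` -/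
def Cov (E : Set V) (A B : Submodule (ZMod 2) V) : Prop :=
  A ≠ ⊤ ∧ B ≠ ⊤ ∧ ∀ x ∈ E, x ∈ A ∨ x ∈ B

/-- `e` is contractible: it lies in the guts of no vertical 4-separation -/
def Ctr (E : Set V) (e : V) : Prop := ∀ A B : Submodule (ZMod 2) V, Cov E A B → e ∈ A ⊓ B →
  4 ≤ finrank (ZMod 2) ↥(A ⊓ B)

/-- no cocircuit of rank at most four -/
def NoC4 (E : Set V) : Prop := ∀ H : Submodule (ZMod 2) V, H ≠ ⊤ →
  5 ≤ finrank (ZMod 2) ↥(span (ZMod 2) (E \ (H : Set V)))

/-- no plane contains six points of `E` (no `K4`, no Fano plane) -/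
def K4F (E : Set V) : Prop := ∀ U : Submodule (ZMod 2) V, finrank (ZMod 2) U = 3 →
  (E ∩ (U : Set V)).ncard ≤ 5

/-- codes of `GQ13`: the quadric `GQ(2,2)` (codes below 32 with three or four ones) minus two
collinear points -/
def gq13 : List ℕ := [7, 11, 13, 14, 21, 22, 23, 25, 26, 27, 28, 29, 30]

/-- `E` contains no copy of `GQ13` -/
def GQF (E : Set V) : Prop := ∀ b : Fin 5 → V, LinearIndependent (ZMod 2) b →
  ∃ n ∈ gq13, comb b n ∉ E

/-- `P` is not covered by two subspaces not containing it which cover `E ∩ P` -/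
def Unsp (E : Set V) (P : Submodule (ZMod 2) V) : Prop := ∀ A B : Submodule (ZMod 2) V,
  (∀ x ∈ E, x ∈ P → x ∈ A ∨ x ∈ B) → P ≤ A ∨ P ≤ B

/-- `(G, H)` is a vertical 4-separation with a point of `E` outside `P` in its guts, and
`P ≤ H` -/
def Frag (E : Set V) (P G H : Submodule (ZMod 2) V) : Prop :=
  Cov E G H ∧ finrank (ZMod 2) ↥(G ⊓ H) = 3 ∧ P ≤ H ∧ ∃ x ∈ E, x ∈ G ⊓ H ∧ x ∉ P

/-- the points of `E` in the subspace `A` -/
noncomputable def res (E : Finset V) (A : Submodule (ZMod 2) V) : Finset V := by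
  classical exact E.filter (fun x => x ∈ A)

theorem mem_res {E : Finset V} {A : Submodule (ZMod 2) V} {x : V} :
    x ∈ res E A ↔ x ∈ E ∧ x ∈ A := by
  classical
  simp [res]

theorem coe_res (E : Finset V) (A : Submodule (ZMod 2) V) :
    ((res E A : Finset V) : Set V) = (E : Set V) ∩ (A : Set V) := by
  ext x; simp [mem_res]

universe u

/-- the density bound `|E| ≤ 3 n` in rank `n` -/
def D3 (n : ℕ) : Prop :=
  ∀ (V : Type u) [AddCommGroup V] [Module (ZMod 2) V] [FiniteDimensional (ZMod 2) V]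
    [DecidableEq V] (E : Finset V), Good (E : Set V) → finrank (ZMod 2) V = n →
    E.card ≤ 3 * n

/-- the triangle inequality `T + 4 ≤ |W|` for a set `W` spanning rank `n` which has neither
`M(K5)` nor `K4` nor `GQ13` (`tri W` is six times the number `T` of lines) -/
def TR (n : ℕ) : Prop :=
  ∀ (V : Type u) [AddCommGroup V] [Module (ZMod 2) V] [FiniteDimensional (ZMod 2) V]
    [DecidableEq V] (W : Finset V), (0 : V) ∉ W →
    finrank (ZMod 2) ↥(span (ZMod 2) (W : Set V)) = n → K4F (W : Set V) →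
    ¬ HasK5 (W : Set V) → GQF (W : Set V) → tri W + 24 ≤ 6 * W.card

/-- a good set is the same as a spanning set of nonzero vectors without `M(K5)` in which every
covering by two proper subspaces has an intersection of dimension at least three -/
theorem good_iff_sepGe [FiniteDimensional (ZMod 2) V] (E : Set V) :
    Good E ↔ (0 : V) ∉ E ∧ span (ZMod 2) E = ⊤ ∧ SepGe E 3 ∧ ¬ HasK5 E := by
  constructor
  · intro h
    refine ⟨h.zero, h.span, ?_, h.free⟩
    intro A B hA hB hcov
    have h1 : ∃ a ∈ E, a ∉ B := by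
      by_contra hne
      push Not at hne
      apply hB
      rw [eq_top_iff, ← h.span]
      exact span_le.2 hne
    have hle : span (ZMod 2) (E \ (B : Set V)) ≤ A := by
      refine span_le.2 ?_
      rintro x ⟨hx, hxB⟩
      exact (hcov x hx).resolve_right hxB
    have h2 : ∃ b ∈ E, b ∈ B ∧ b ∉ span (ZMod 2) (E \ (B : Set V)) := by
      by_contra hne
      push Not at hne
      apply hA
      rw [eq_top_iff, ← h.span]
      refine span_le.2 ?_
      intro x hx
      by_cases hxB : x ∈ B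
      · exact hle (hne x hx hxB)
      · exact hle (subset_span ⟨hx, hxB⟩)
    exact (h.vc B h1 h2).trans (Submodule.finrank_mono (inf_le_inf_right B hle))
  · rintro ⟨h0, hs, hsep, hf⟩
    refine ⟨h0, hs, ?_, hf⟩
    rintro H ⟨a, ha, haH⟩ ⟨b, hb, hbH, hbs⟩
    apply hsep
    · rintro h
      exact hbs (h ▸ mem_top)
    · rintro h
      exact haH (h ▸ mem_top)
    · intro x hx
      by_cases hxH : x ∈ H
      · exact Or.inr hxH
      · exact Or.inl (subset_span ⟨hx, hxH⟩)

end Pool.Agent.WW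

end
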