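import Pool.Agent.Work.MP_a8f287_co.Bd.B01

/-! Bundle of small proof modules (one section per former module). -/

section

/-!
Statements of the items for the bound `c(M;2) ≤ 4`. Every `ClaimX` is proved in its own file as
`theorem claimX : ClaimX`.
-/

namespace Pool.Agent.WW

open Submodule Module

universe u

/-! ### General tools -/

/-- A1: transfer along a contraction, relative form -/
def ClaimRel : Prop := ∀ (V : Type u) [AddCommGroup V] [Module (ZMod 2) V]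
  [FiniteDimensional (ZMod 2) V] (E F : Set V) (K A : Submodule (ZMod 2) V),
  Gen E K → K ⊓ A = ⊥ → (∀ x ∈ F, x ∈ A) → (∀ x ∈ F, Pres E K x) → HasK5 F → HasK5 E

/-- A2: line sums -/
def ClaimSum : Prop := ∀ (V : Type u) [AddCommGroup V] [Module (ZMod 2) V]
  [FiniteDimensional (ZMod 2) V] (N : Set V) (F F' : Submodule (ZMod 2) V),
  (∀ x ∈ N, x ∈ F ∨ x ∈ F') → (∀ k ∈ F ⊓ F', k ≠ 0 → k ∈ N) → HasK5 N →
  HasK5 (N ∩ (F : Set V)) ∨ HasK5 (N ∩ (F' : Set V))

/-- A3: restriction to a subspace -/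
def ClaimSub : Prop := ∀ (V : Type u) [AddCommGroup V] [Module (ZMod 2) V]
  [FiniteDimensional (ZMod 2) V] (S : Set V) (Z : Submodule (ZMod 2) V),
  (0 : V) ∉ S → ¬ HasK5 S → Z ≠ ⊥ → (∀ A B : Submodule (ZMod 2) V, ¬ Sep S Z A B) →
  Good ((fun x : Z => (x : V)) ⁻¹' S)

/-! ### Linking -/

/-- B1: linking at a spanned hyperplane -/
def ClaimLkHyper : Prop := ∀ (V : Type u) [AddCommGroup V] [Module (ZMod 2) V]
  [FiniteDimensional (ZMod 2) V] (B : Set V) (U T H : Submodule (ZMod 2) V) (κ : ℕ),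
  Lk B U T κ → U ≤ H → H ≤ T → finrank (ZMod 2) H + 1 = finrank (ZMod 2) T →
  H ≤ U ⊔ span (ZMod 2) (B ∩ (H : Set V)) →
  ∃ (K : Submodule (ZMod 2) V) (x : V), StarAt B U T κ K x ∧ U ⊔ K = H

/-- B2: linking -/
def ClaimLkStar : Prop := ∀ (V : Type u) [AddCommGroup V] [Module (ZMod 2) V]
  [FiniteDimensional (ZMod 2) V] (B : Set V) (U T : Submodule (ZMod 2) V) (κ : ℕ),
  Lk B U T κ → U ≠ T → ∃ (K : Submodule (ZMod 2) V) (x : V), StarAt B U T κ K x

/-- B3: the linking condition at one side of a separation -/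
def ClaimLkSep : Prop := ∀ (V : Type u) [AddCommGroup V] [Module (ZMod 2) V]
  [FiniteDimensional (ZMod 2) V] (E : Set V) (F F' : Submodule (ZMod 2) V) (κ : ℕ),
  span (ZMod 2) E = ⊤ → SepGe E κ → F ≠ ⊤ → F' ≠ ⊤ → (∀ x ∈ E, x ∈ F ∨ x ∈ F') →
  Lk (E ∩ (F' : Set V)) (F ⊓ F') F' κ

/-- B4: the hyperplane trick -/
def ClaimTrick : Prop := ∀ (V : Type u) [AddCommGroup V] [Module (ZMod 2) V]
  [FiniteDimensional (ZMod 2) V] (B : Set V) (U T D : Submodule (ZMod 2) V) (κ : ℕ),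
  Lk B U T κ → finrank (ZMod 2) U + 2 ≤ finrank (ZMod 2) T → D ≤ U →
  finrank (ZMod 2) D + 2 ≤ κ →
  ∃ (K : Submodule (ZMod 2) V) (x : V), StarAt B U T κ K x ∧ ∃ z ∈ U, z ∉ D ∧ Pres B K z

/-- B5: filling the guts, dimension two -/
def ClaimFill : Prop := ∀ (V : Type u) [AddCommGroup V] [Module (ZMod 2) V]
  [FiniteDimensional (ZMod 2) V] (B : Set V) (U T : Submodule (ZMod 2) V),
  Lk B U T 2 → finrank (ZMod 2) U = 2 → U ≠ T → (0 : V) ∉ B →
  (∃ K : Submodule (ZMod 2) V, Gen B K ∧ K ≤ T ∧ K ⊓ U = ⊥ ∧ ∀ u ∈ U, u ≠ 0 → Pres B K u) ∨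
  (finrank (ZMod 2) T = 3 ∧ ∃ x p q : V, p ∈ U ∧ q ∈ U ∧ p ≠ 0 ∧ q ≠ 0 ∧ p ≠ q ∧ x ∉ U ∧
    x ∈ T ∧ B = {x, x + p, x + q})

/-- B6: filling the guts, dimension one -/
def ClaimFillOne : Prop := ∀ (V : Type u) [AddCommGroup V] [Module (ZMod 2) V]
  [FiniteDimensional (ZMod 2) V] (B : Set V) (U T : Submodule (ZMod 2) V),
  Lk B U T 1 → finrank (ZMod 2) U = 1 → U ≠ T →
  ∃ K : Submodule (ZMod 2) V, Gen B K ∧ K ≤ T ∧ K ⊓ U = ⊥ ∧ ∀ u ∈ U, u ≠ 0 → Pres B K u

/-- B7: vertical 4-connectivity as a statement on coverings, and for the contraction -/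
def ClaimSepGe : Prop := ∀ (V : Type u) [AddCommGroup V] [Module (ZMod 2) V]
  [FiniteDimensional (ZMod 2) V] (W : Type u) [AddCommGroup W] [Module (ZMod 2) W]
  [FiniteDimensional (ZMod 2) W] [DecidableEq W] (E : Finset V),
  Good (E : Set V) → 5 ≤ finrank (ZMod 2) V →
  SepGe (E : Set V) 3 ∧ ∀ (π : V →ₗ[ZMod 2] W) (e : V), Function.Surjective π →
    (∀ v, π v = 0 ↔ v = 0 ∨ v = e) → e ∈ E →
    span (ZMod 2) (contr π E : Set W) = ⊤ ∧ SepGe (contr π E : Set W) 2

/-! ### The maximal free superset -/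

/-- D1: an element of minimal degree sees no bad triad -/
def ClaimNoTriad : Prop := ∀ (V : Type u) [AddCommGroup V] [Module (ZMod 2) V]
  [FiniteDimensional (ZMod 2) V] [DecidableEq V] (W : Type u) [AddCommGroup W]
  [Module (ZMod 2) W] [FiniteDimensional (ZMod 2) W] [DecidableEq W] (E : Finset V)
  (π : V →ₗ[ZMod 2] W) (e : V) (F F' : Submodule (ZMod 2) W) (x p q : W),
  Good (E : Set V) → 5 ≤ finrank (ZMod 2) V → Function.Surjective π →
  (∀ v, π v = 0 ↔ v = 0 ∨ v = e) → e ∈ E → (∀ a ∈ E, deg E e ≤ deg E a) →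
  F ≠ ⊤ → F' ≠ ⊤ → (∀ y ∈ contr π E, y ∈ F ∨ y ∈ F') → finrank (ZMod 2) ↥(F ⊓ F') = 2 →
  finrank (ZMod 2) F' = 3 → x ∈ F' → x ∉ F → p ∈ F ⊓ F' → q ∈ F ⊓ F' → p ≠ 0 → q ≠ 0 →
  p ≠ q → (∀ y ∈ contr π E, y ∈ F' → y = x ∨ y = x + p ∨ y = x + q) → False

/-- D2: the guts of the separations of a maximal free superset are full lines -/
def ClaimFull : Prop := ∀ (V : Type u) [AddCommGroup V] [Module (ZMod 2) V]
  [FiniteDimensional (ZMod 2) V] [DecidableEq V] (W : Type u) [AddCommGroup W]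
  [Module (ZMod 2) W] [FiniteDimensional (ZMod 2) W] [DecidableEq W] (E : Finset V)
  (π : V →ₗ[ZMod 2] W) (e : V) (S : Set W),
  Good (E : Set V) → 5 ≤ finrank (ZMod 2) V → Function.Surjective π →
  (∀ v, π v = 0 ↔ v = 0 ∨ v = e) → e ∈ E → (∀ a ∈ E, deg E e ≤ deg E a) →
  (∀ x ∈ contr π E, x ∈ S) → MaxFree S → Full S ⊤

/-- D3: inheritance of separations -/
def ClaimInv : Prop := ∀ (W : Type u) [AddCommGroup W] [Module (ZMod 2) W]
  [FiniteDimensional (ZMod 2) W] (S : Set W) (G Z A B : Submodule (ZMod 2) W),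
  Full S G → Inv S G Z → Sep S Z A B → Inv S G A ∧ Inv S G B ∧ A ⊔ B = Z

/-- D4: the density bound for a piece -/
def ClaimPiece : Prop := ∀ (W : Type u) [AddCommGroup W] [Module (ZMod 2) W]
  [FiniteDimensional (ZMod 2) W] (S : Finset W) (Z : Submodule (ZMod 2) W) (n : ℕ),
  (0 : W) ∉ S → ¬ HasK5 (S : Set W) → Z ≠ ⊥ → (∀ A B, ¬ Sep (S : Set W) Z A B) →
  finrank (ZMod 2) Z = n → D4.{u} n → ((S : Set W) ∩ (Z : Set W)).ncard + 5 ≤ 4 * n

/-- D5: a free set in rank four has at most twelve elements, and the complement of twelve is a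
line -/
def ClaimTwelve : Prop := ∀ (W : Type u) [AddCommGroup W] [Module (ZMod 2) W]
  [FiniteDimensional (ZMod 2) W] (S : Set W) (Q : Submodule (ZMod 2) W),
  (0 : W) ∉ S → ¬ HasK5 S → finrank (ZMod 2) Q = 4 →
  (S ∩ (Q : Set W)).ncard ≤ 12 ∧ ((S ∩ (Q : Set W)).ncard = 12 →
    ∃ L : Submodule (ZMod 2) W, L ≤ Q ∧ finrank (ZMod 2) L = 2 ∧ (∀ y ∈ Q, y ∉ L → y ∈ S) ∧
      ∀ y ∈ L, y ∉ S)

/-- D6: the rooted density bound. `hyp` excludes a full `P12` next to its root. -/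
def ClaimRooted : Prop := ∀ (W : Type u) [AddCommGroup W] [Module (ZMod 2) W]
  [FiniteDimensional (ZMod 2) W] (S N : Set W),
  N ⊆ S → (0 : W) ∉ S → ¬ HasK5 S → Full S ⊤ →
  (∀ m, 5 ≤ m → m ≤ finrank (ZMod 2) W → D4.{u} m) →
  (∀ Q F F' : Submodule (ZMod 2) W, Sep S ⊤ F F' → F ⊓ F' ≤ Q → Q ≤ F →
    finrank (ZMod 2) Q = 4 → (S ∩ (Q : Set W)).ncard = 12 →
    ∃ x ∈ S, x ∈ Q ∧ x ∉ F ⊓ F' ∧ x ∉ N) →
  ∀ Z F F' : Submodule (ZMod 2) W, Sep S ⊤ F F' → F ⊓ F' ≤ Z → Z ≤ F → Inv S ⊤ Z →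
    ((N ∩ (Z : Set W)) ∪ (S ∩ ((F ⊓ F' : Submodule (ZMod 2) W) : Set W))).ncard + 5 ≤
      4 * finrank (ZMod 2) Z

/-- D7: the density bound for the contraction -/
def ClaimBoundN : Prop := ∀ (W : Type u) [AddCommGroup W] [Module (ZMod 2) W]
  [FiniteDimensional (ZMod 2) W] (S N : Set W),
  N ⊆ S → (0 : W) ∉ S → ¬ HasK5 S → Full S ⊤ → 5 ≤ finrank (ZMod 2) W →
  (∀ m, 5 ≤ m → m ≤ finrank (ZMod 2) W → D4.{u} m) →
  (∀ Q F F' : Submodule (ZMod 2) W, Sep S ⊤ F F' → F ⊓ F' ≤ Q → Q ≤ F →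
    finrank (ZMod 2) Q = 4 → (S ∩ (Q : Set W)).ncard = 12 →
    ∃ x ∈ S, x ∈ Q ∧ x ∉ F ⊓ F' ∧ x ∉ N) →
  N.ncard + 5 ≤ 4 * finrank (ZMod 2) W

/-! ### P12 pieces -/

/-- E1: a free set containing the complement of a line in `Q` is separated in every larger
space -/
def ClaimSepQ : Prop := ∀ (W : Type u) [AddCommGroup W] [Module (ZMod 2) W]
  [FiniteDimensional (ZMod 2) W] (S : Set W) (Q L Z : Submodule (ZMod 2) W),
  (0 : W) ∉ S → ¬ HasK5 S → finrank (ZMod 2) Q = 4 → finrank (ZMod 2) L = 2 → L ≤ Q →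
  (∀ y ∈ Q, y ∉ L → y ∈ S) → Q ≤ Z → Q ≠ Z → ∃ A B, Sep S Z A B ∧ Q ≤ A

/-- E2: the second branch at `Q` -/
def ClaimChain : Prop := ∀ (W : Type u) [AddCommGroup W] [Module (ZMod 2) W]
  [FiniteDimensional (ZMod 2) W] (S : Set W) (Q F F' : Submodule (ZMod 2) W),
  Full S ⊤ → Sep S ⊤ F F' → F ⊓ F' ≤ Q → Q ≤ F → Q ≠ F →
  (∀ Z, Q ≤ Z → Q ≠ Z → ∃ A B, Sep S Z A B ∧ Q ≤ A) →
  (∀ G G' : Submodule (ZMod 2) W, Sep S ⊤ G G' → G ⊓ G' = F ⊓ F' → Q ≤ G →
    finrank (ZMod 2) F ≤ finrank (ZMod 2) G) →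
  ∃ F1 F1' : Submodule (ZMod 2) W, Sep S F F1 F1' ∧ Q ≤ F1 ∧ F1 ⊓ F1' ≤ Q ∧
    F1 ⊓ F1' ≠ F ⊓ F' ∧ finrank (ZMod 2) ↥(F1 ⊓ F1') = 2 ∧ ∀ x ∈ F1 ⊓ F1', x ≠ 0 → x ∈ S

/-- E3: normal form of two lines skew to a line -/
def ClaimLines : Prop := ∀ (W : Type u) [AddCommGroup W] [Module (ZMod 2) W]
  [FiniteDimensional (ZMod 2) W] (Q L K K1 : Submodule (ZMod 2) W),
  finrank (ZMod 2) Q = 4 → finrank (ZMod 2) L = 2 → finrank (ZMod 2) K = 2 →
  finrank (ZMod 2) K1 = 2 → L ≤ Q → K ≤ Q → K1 ≤ Q → L ⊓ K = ⊥ → L ⊓ K1 = ⊥ → K ≠ K1 →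
  ∃ c : Fin 4 → W, LinearIndependent (ZMod 2) c ∧ span (ZMod 2) (Set.range c) = Q ∧
    L = span (ZMod 2) {c 0, c 1} ∧ K = span (ZMod 2) {c 2, c 3} ∧
    (K1 = span (ZMod 2) {c 2, c 3 + c 0} ∨ K1 = span (ZMod 2) {c 2 + c 0, c 3 + c 1})

/-- E4: lifting nine points -/
def ClaimLift : Prop := ∀ (V : Type u) [AddCommGroup V] [Module (ZMod 2) V]
  [FiniteDimensional (ZMod 2) V] [DecidableEq V] (W : Type u) [AddCommGroup W]
  [Module (ZMod 2) W] [FiniteDimensional (ZMod 2) W] [DecidableEq W] (E : Finset V)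
  (π : V →ₗ[ZMod 2] W) (e : V) (c : Fin 4 → W),
  (0 : V) ∉ E → (∀ v, π v = 0 ↔ v = 0 ∨ v = e) → e ∈ E → LinearIndependent (ZMod 2) c →
  (∀ n ∈ nine, comb c n ∈ contr π E) →
  ∃ b : Fin 5 → V, b 0 = e ∧ (∀ i : Fin 4, π (b i.succ) = c i) ∧ LinearIndependent (ZMod 2) b ∧
    (∀ n, n < 32 → π (comb b n) = comb c (n / 2)) ∧
    comb b 10 ∈ E ∧ comb b 12 ∈ E ∧ comb b 14 ∈ E ∧ comb b 18 ∈ E ∧
    ∀ n ∈ nine, comb b (2 * n) ∈ E ∨ comb b (2 * n + 1) ∈ E

/-- E5: normal form of a star with three independent differences in a 3-dimensional space -/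
def ClaimStar : Prop := ∀ (V : Type u) [AddCommGroup V] [Module (ZMod 2) V]
  [FiniteDimensional (ZMod 2) V] (E : Set V) (K : Submodule (ZMod 2) V) (x : V) (g : Fin 3 → V),
  LinearIndependent (ZMod 2) g → Pres E K x →
  3 ≤ finrank (ZMod 2) ↥(span (ZMod 2)
    {u : V | u ∈ span (ZMod 2) (Set.range g) ∧ Pres E K (x + u)}) →
  ∃ y : V, x + y ∈ span (ZMod 2) (Set.range g) ∧ ∃ t ∈ starReps, ∀ s ∈ t,
    Pres E K (y + comb g s)

/-- table for E6: `β` runs over the choices of the lifts of `10, 11, 13, 14, 15`; `d` is the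
code of an extra lift (`0` if none) -/
def TabLeaf : Prop := ∀ β < 32, ∀ d ∈ [0, 11, 13, 15, 19], (β ≠ 0 ∨ d ≠ 0) → ∀ t ∈ starReps,
  ∀ z ∈ [8, 9, 16, 17, 24, 25],
  CertM (mask ([1, 10, 12, 14, 18, 20 + β % 2, 22 + β / 2 % 2, 26 + β / 4 % 2,
    28 + β / 8 % 2, 30 + β / 16 % 2, z] ++ (if d = 0 then [] else [d]) ++
    t.map (fun s => 32 ^^^ (s % 2) ^^^ (8 * (s / 2)))))

/-- E6: the leaf configuration has an `M(K5)`-minor -/
def ClaimLeafCore : Prop := ∀ (V : Type u) [AddCommGroup V] [Module (ZMod 2) V]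
  [FiniteDimensional (ZMod 2) V] [DecidableEq V] (W : Type u) [AddCommGroup W]
  [Module (ZMod 2) W] [FiniteDimensional (ZMod 2) W] [DecidableEq W] (E : Finset V)
  (π : V →ₗ[ZMod 2] W) (e : V) (Q L K : Submodule (ZMod 2) W) (K' : Submodule (ZMod 2) V)
  (x z : V), TabLeaf → (0 : V) ∉ E → Function.Surjective π →
  (∀ v, π v = 0 ↔ v = 0 ∨ v = e) → e ∈ E → finrank (ZMod 2) Q = 4 →
  finrank (ZMod 2) L = 2 → finrank (ZMod 2) K = 2 → L ≤ Q → K ≤ Q → L ⊓ K = ⊥ →
  (∀ y ∈ Q, y ∉ L → y ∉ K → y ∈ contr π E) → (∀ y ∈ L, y ∉ contr π E) →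
  Q.comap π ≤ span (ZMod 2) {a : V | a ∈ E ∧ π a ∈ Q ∧ π a ∉ K} →
  Gen (E : Set V) K' → K' ⊓ Q.comap π = ⊥ → x ∈ E → x ∉ Q.comap π ⊔ K' →
  3 ≤ finrank (ZMod 2) ↥(span (ZMod 2) {u : V | u ∈ K.comap π ∧ Pres (E : Set V) K' (x + u)}) →
  z ∈ K.comap π → z ≠ 0 → z ≠ e → Pres (E : Set V) K' z → HasK5 (E : Set V)

/-- E7: the leaf case -/
def ClaimLeaf : Prop := ∀ (V : Type u) [AddCommGroup V] [Module (ZMod 2) V]
  [FiniteDimensional (ZMod 2) V] [DecidableEq V] (W : Type u) [AddCommGroup W]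
  [Module (ZMod 2) W] [FiniteDimensional (ZMod 2) W] [DecidableEq W] (E : Finset V)
  (π : V →ₗ[ZMod 2] W) (e : V) (Q L F' : Submodule (ZMod 2) W),
  TabLeaf → Good (E : Set V) → 5 ≤ finrank (ZMod 2) V → Function.Surjective π →
  (∀ v, π v = 0 ↔ v = 0 ∨ v = e) → e ∈ E → finrank (ZMod 2) Q = 4 →
  Q ≠ ⊤ → F' ≠ ⊤ → (∀ y ∈ contr π E, y ∈ Q ∨ y ∈ F') →
  finrank (ZMod 2) ↥(Q ⊓ F') = 2 → finrank (ZMod 2) L = 2 → L ≤ Q → L ⊓ (Q ⊓ F') = ⊥ →
  (∀ y ∈ Q, y ∉ L → y ∉ Q ⊓ F' → y ∈ contr π E) → (∀ y ∈ L, y ∉ contr π E) →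
  finrank (ZMod 2) F' = 3 ∧ ∀ y ∈ Q ⊓ F', y ∉ contr π E

/-- table for E8: the two types of a second line -/
def TabBranch : Prop := ∀ β < 32, ∀ t ∈ starReps, ∀ t' ∈ starReps, ∀ g ∈ [(8, 18), (10, 20)],
  CertM (mask ([1, 10, 12, 14, 18, 20 + β % 2, 22 + β / 2 % 2, 26 + β / 4 % 2,
    28 + β / 8 % 2, 30 + β / 16 % 2] ++
    t.map (fun s => 32 ^^^ (s % 2) ^^^ (8 * (s / 2))) ++
    t'.map (fun s => 64 ^^^ (s % 2) ^^^ (g.1 * (s / 2 % 2)) ^^^ (g.2 * (s / 4)))))

/-- E8: two stars at different lines -/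
def ClaimBranchCore : Prop := ∀ (V : Type u) [AddCommGroup V] [Module (ZMod 2) V]
  [FiniteDimensional (ZMod 2) V] [DecidableEq V] (W : Type u) [AddCommGroup W]
  [Module (ZMod 2) W] [FiniteDimensional (ZMod 2) W] [DecidableEq W] (E : Finset V)
  (π : V →ₗ[ZMod 2] W) (e : V) (Q L K K1 : Submodule (ZMod 2) W) (K' : Submodule (ZMod 2) V)
  (x x' : V), TabBranch → (0 : V) ∉ E → Function.Surjective π →
  (∀ v, π v = 0 ↔ v = 0 ∨ v = e) → e ∈ E → finrank (ZMod 2) Q = 4 →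
  finrank (ZMod 2) L = 2 → finrank (ZMod 2) K = 2 → finrank (ZMod 2) K1 = 2 →
  L ≤ Q → K ≤ Q → K1 ≤ Q → L ⊓ K = ⊥ → L ⊓ K1 = ⊥ → K ≠ K1 →
  (∀ y ∈ Q, y ∉ L → y ∉ K → y ∈ contr π E) →
  Gen (E : Set V) K' → K' ⊓ Q.comap π = ⊥ → Pres (E : Set V) K' x → Pres (E : Set V) K' x' →
  x ∉ Q.comap π ⊔ K' → x' ∉ Q.comap π ⊔ K' ⊔ span (ZMod 2) {x} →
  3 ≤ finrank (ZMod 2) ↥(span (ZMod 2) {u : V | u ∈ K.comap π ∧ Pres (E : Set V) K' (x + u)}) →
  3 ≤ finrank (ZMod 2) ↥(span (ZMod 2) {u : V | u ∈ K1.comap π ∧ Pres (E : Set V) K' (x' + u)}) →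
  HasK5 (E : Set V)

/-- E9: the branch case -/
def ClaimBranch : Prop := ∀ (V : Type u) [AddCommGroup V] [Module (ZMod 2) V]
  [FiniteDimensional (ZMod 2) V] [DecidableEq V] (W : Type u) [AddCommGroup W]
  [Module (ZMod 2) W] [FiniteDimensional (ZMod 2) W] [DecidableEq W] (E : Finset V)
  (π : V →ₗ[ZMod 2] W) (e : V) (Q L F F' F1 F1' : Submodule (ZMod 2) W),
  TabBranch → Good (E : Set V) → 5 ≤ finrank (ZMod 2) V → Function.Surjective π →
  (∀ v, π v = 0 ↔ v = 0 ∨ v = e) → e ∈ E →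
  F ≠ ⊤ → F' ≠ ⊤ → (∀ y ∈ contr π E, y ∈ F ∨ y ∈ F') → F ⊓ F' ≤ Q →
  finrank (ZMod 2) ↥(F ⊓ F') = 2 →
  F1 ≤ F → F1' ≤ F → F1 ≠ F → F1' ≠ F → (∀ y ∈ contr π E, y ∈ F → y ∈ F1 ∨ y ∈ F1') →
  Q ≤ F1 → F1 ⊓ F1' ≤ Q → finrank (ZMod 2) ↥(F1 ⊓ F1') = 2 → F1 ⊓ F1' ≠ F ⊓ F' →
  finrank (ZMod 2) Q = 4 → finrank (ZMod 2) L = 2 → L ≤ Q → L ⊓ (F ⊓ F') = ⊥ →
  L ⊓ (F1 ⊓ F1') = ⊥ → (∀ y ∈ Q, y ∉ L → y ∉ F ⊓ F' → y ∈ contr π E) → False

/-- E10: `hyp` of `ClaimRooted` for the contraction of a good set of rank at least seven, and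
the exceptional case in rank six -/
def ClaimHyp : Prop := TabLeaf → TabBranch → ∀ (V : Type u) [AddCommGroup V] [Module (ZMod 2) V]
  [FiniteDimensional (ZMod 2) V] [DecidableEq V] (W : Type u) [AddCommGroup W]
  [Module (ZMod 2) W] [FiniteDimensional (ZMod 2) W] [DecidableEq W] (E : Finset V)
  (π : V →ₗ[ZMod 2] W) (e : V) (S : Set W) (Q F F' : Submodule (ZMod 2) W),
  Good (E : Set V) → 5 ≤ finrank (ZMod 2) V → Function.Surjective π →
  (∀ v, π v = 0 ↔ v = 0 ∨ v = e) → e ∈ E → (∀ x ∈ contr π E, x ∈ S) → (0 : W) ∉ S →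
  ¬ HasK5 S → Full S ⊤ → Sep S ⊤ F F' → F ⊓ F' ≤ Q → Q ≤ F → finrank (ZMod 2) Q = 4 →
  (S ∩ (Q : Set W)).ncard = 12 → (∀ x ∈ S, x ∈ Q → x ∉ F ⊓ F' → x ∈ contr π E) →
  finrank (ZMod 2) W = 5 ∧ (contr π E).card ≤ 13

/-! ### Special sets -/

/-- table for `no_del4` -/
def TabDel4 : Prop := ∀ a < 16, ∀ b < 16, ∀ c < 16, a ≠ 0 → b ≠ 0 → c ≠ 0 → a ≠ b → a ≠ c →
  b ≠ c → a ^^^ b ≠ c →
  CertM (mask [1, 2, 4, 8, 3, 5, 9, 7, 13, 11, 16, 16 ^^^ a, 16 ^^^ b, 16 ^^^ c])

/-- F1: no odd triangle in a good set of rank at least five -/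
def ClaimNoDel4 : Prop := TabDel4 → ∀ (V : Type u) [AddCommGroup V] [Module (ZMod 2) V]
  [FiniteDimensional (ZMod 2) V] (E : Set V) (e p q r : V), Good E → 5 ≤ finrank (ZMod 2) V →
  Del4 E e p q r → finrank (ZMod 2) ↥(span (ZMod 2) {e, p, q, r}) = 4 → False

/-- table for `no_c15` -/
def TabC15 : Prop := ∀ a < 32, ∀ b < 32, ∀ c < 32, a ≠ 0 → b ≠ 0 → c ≠ 0 → a ≠ b → a ≠ c →
  b ≠ c → a ^^^ b ≠ c → CertM (mask (c15 ++ [32, 32 ^^^ a, 32 ^^^ b, 32 ^^^ c]))

/-- F2: no `C15` in a good set of rank at least six -/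
def ClaimNoC15 : Prop := TabC15 → ∀ (V : Type u) [AddCommGroup V] [Module (ZMod 2) V]
  [FiniteDimensional (ZMod 2) V] (E : Set V) (b : Fin 5 → V), Good E →
  6 ≤ finrank (ZMod 2) V → LinearIndependent (ZMod 2) b → (∀ n ∈ c15, comb b n ∈ E) → False

/-! ### Counting -/

/-- G1: Mantel -/
def ClaimMantel : Prop := ∀ (α : Type u) [DecidableEq α] (D : Finset α) (adj : α → α → Prop)
  [DecidableRel adj], (∀ x y, adj x y → adj y x) → (∀ x, ¬ adj x x) →
  (∀ x ∈ D, ∀ y ∈ D, ∀ z ∈ D, adj x y → adj y z → adj x z → False) →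
  2 * ((D ×ˢ D).filter (fun p => adj p.1 p.2)).card ≤ D.card * D.card

/-- G2: the contraction inequality with lifted lines -/
def ClaimTriL : Prop := ∀ (V : Type u) [AddCommGroup V] [Module (ZMod 2) V] [DecidableEq V]
  (W : Type u) [AddCommGroup W] [Module (ZMod 2) W] [DecidableEq W] (E : Finset V)
  (π : V →ₗ[ZMod 2] W) (e : V), (∀ v, π v = 0 ↔ v = 0 ∨ v = e) → (0 : V) ∉ E → e ∈ E →
  tri E ≤ triL π E (contr π E) + 3 * deg E e + 3 * EE π E e

/-- G3: a minimal counterexample to `QQ` is vertically 4-connected -/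
def ClaimQQMin : Prop := ∀ (V : Type u) [AddCommGroup V] [Module (ZMod 2) V] [DecidableEq V]
  (W : Type u) [AddCommGroup W] [Module (ZMod 2) W] [FiniteDimensional (ZMod 2) W]
  [DecidableEq W] (E : Finset V) (π : V →ₗ[ZMod 2] W) (X : Finset W),
  (0 : W) ∉ X → 3 ≤ X.card → ¬ QQ π E X → (∀ F ⊆ X, F ≠ X → 3 ≤ F.card → QQ π E F) →
  VC (X : Set W)

/-- G4: the inequality for all lines implies `QQ` -/
def ClaimQQTri : Prop := ∀ (V : Type u) [AddCommGroup V] [Module (ZMod 2) V] [DecidableEq V]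
  (W : Type u) [AddCommGroup W] [Module (ZMod 2) W] [DecidableEq W] (E : Finset V)
  (π : V →ₗ[ZMod 2] W) (X : Finset W), (0 : W) ∉ X → tri X + 18 ≤ 8 * X.card → QQ π E X

/-- G5: restriction of a vertically 4-connected set to its span -/
def ClaimVCSpan : Prop := ∀ (W : Type u) [AddCommGroup W] [Module (ZMod 2) W]
  [FiniteDimensional (ZMod 2) W] [DecidableEq W] (X : Finset W) (n : ℕ),
  (0 : W) ∉ X → ¬ HasK5 (X : Set W) → VC (X : Set W) → TT.{u} n →
  finrank (ZMod 2) ↥(span (ZMod 2) (X : Set W)) = n → tri X + 18 ≤ 8 * X.card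

/-- G6: small sets -/
def ClaimSmall : Prop := ∀ (W : Type u) [AddCommGroup W] [Module (ZMod 2) W]
  [FiniteDimensional (ZMod 2) W] [DecidableEq W] (X : Finset W), (0 : W) ∉ X → 3 ≤ X.card →
  (X.card ≤ 6 → tri X + 18 ≤ 8 * X.card) ∧
  (X.card = 7 → tri X + 18 ≤ 8 * X.card ∨
    ∃ G : Submodule (ZMod 2) W, finrank (ZMod 2) G = 3 ∧ ∀ x, x ∈ X ↔ x ∈ G ∧ x ≠ 0) ∧
  (8 ≤ X.card → X.card ≤ 10 → finrank (ZMod 2) ↥(span (ZMod 2) (X : Set W)) ≤ 4 →
    tri X + 18 ≤ 8 * X.card)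

/-- G7: a Fano piece has at least two lines that are not lifted -/
def ClaimFanoPiece : Prop := ∀ (V : Type u) [AddCommGroup V] [Module (ZMod 2) V]
  [FiniteDimensional (ZMod 2) V] [DecidableEq V]
  (W : Type u) [AddCommGroup W] [Module (ZMod 2) W] [FiniteDimensional (ZMod 2) W]
  [DecidableEq W] (E : Finset V) (π : V →ₗ[ZMod 2] W) (e : V) (X : Finset W)
  (G : Submodule (ZMod 2) W), (∀ v, π v = 0 ↔ v = 0 ∨ v = e) → (0 : V) ∉ E → e ∈ E →
  (∀ e p q r : V, Del4 (E : Set V) e p q r →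
    finrank (ZMod 2) ↥(span (ZMod 2) {e, p, q, r}) = 4 → False) →
  (∀ U : Submodule (ZMod 2) V, finrank (ZMod 2) U = 3 → ∃ u ∈ U, u ≠ 0 ∧ u ∉ E) →
  finrank (ZMod 2) G = 3 → (∀ x, x ∈ X ↔ x ∈ G ∧ x ≠ 0) → X ⊆ contr π E →
  triL π E X ≤ 30

/-! ### Rank five -/

/-- H1: soundness of the classification -/
def ClaimR5 : Prop := ∀ (L : List ℕ), ClosedList L → ∀ (V : Type u) [AddCommGroup V]
  [Module (ZMod 2) V] [FiniteDimensional (ZMod 2) V] (E : Set V), finrank (ZMod 2) V = 5 →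
  (0 : V) ∉ E → span (ZMod 2) E = ⊤ → ¬ HasK5 E →
  ∃ M ∈ L, ∃ b : Fin 5 → V, LinearIndependent (ZMod 2) b ∧
    ∀ n < 32, M.testBit n = true ↔ comb b n ∈ E

/-- H2: the base cases -/
def ClaimBase : Prop := TabR5 → TT.{u} 5 ∧ D4.{u} 5

/-- H3: pieces of rank four with at least eleven points -/
def ClaimBigPiece : Prop := TabR5 → ∀ (V : Type u) [AddCommGroup V] [Module (ZMod 2) V]
  [FiniteDimensional (ZMod 2) V] [DecidableEq V]
  (W : Type u) [AddCommGroup W] [Module (ZMod 2) W] [FiniteDimensional (ZMod 2) W]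
  [DecidableEq W] (E : Finset V) (π : V →ₗ[ZMod 2] W) (e : V) (X : Finset W)
  (Q : Submodule (ZMod 2) W), Function.Surjective π → (∀ v, π v = 0 ↔ v = 0 ∨ v = e) →
  (0 : V) ∉ E → e ∈ E → ¬ HasK5 (E : Set V) →
  (∀ e p q r : V, Del4 (E : Set V) e p q r →
    finrank (ZMod 2) ↥(span (ZMod 2) {e, p, q, r}) = 4 → False) →
  (∀ U : Submodule (ZMod 2) V, finrank (ZMod 2) U = 3 → ∃ u ∈ U, u ≠ 0 ∧ u ∉ E) →
  (∀ b : Fin 5 → V, LinearIndependent (ZMod 2) b → (∀ n ∈ c15, comb b n ∈ E) → False) →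
  finrank (ZMod 2) Q = 4 → (∀ x ∈ X, x ∈ Q) → X ⊆ contr π E → 11 ≤ X.card →
  triL π E X ≤ 60

/-- G8: `QQ` for all sets of at least three points of the contraction -/
def ClaimTL : Prop := ∀ (V : Type u) [AddCommGroup V] [Module (ZMod 2) V]
  [FiniteDimensional (ZMod 2) V] [DecidableEq V]
  (W : Type u) [AddCommGroup W] [Module (ZMod 2) W] [FiniteDimensional (ZMod 2) W]
  [DecidableEq W] (E : Finset V) (π : V →ₗ[ZMod 2] W) (e : V),
  Function.Surjective π → (∀ v, π v = 0 ↔ v = 0 ∨ v = e) →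
  (0 : V) ∉ E → e ∈ E → ¬ HasK5 (E : Set V) →
  (∀ m, 5 ≤ m → m ≤ finrank (ZMod 2) W → TT.{u} m) →
  (∀ (X : Finset W) (G : Submodule (ZMod 2) W), finrank (ZMod 2) G = 3 →
    (∀ x, x ∈ X ↔ x ∈ G ∧ x ≠ 0) → X ⊆ contr π E → triL π E X ≤ 30) →
  (∀ (X : Finset W) (Q : Submodule (ZMod 2) W), finrank (ZMod 2) Q = 4 → (∀ x ∈ X, x ∈ Q) →
    X ⊆ contr π E → 11 ≤ X.card → triL π E X ≤ 60) →
  4 ≤ finrank (ZMod 2) W → ∀ X ⊆ contr π E, 3 ≤ X.card → QQ π E X

/-! ### Colouring -/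

/-- C1: extension of a colouring by matroid partition -/
def ClaimExt : Prop := ∀ (V : Type u) [AddCommGroup V] [Module (ZMod 2) V]
  [FiniteDimensional (ZMod 2) V] (k : ℕ) (E : Finset V) (X : Submodule (ZMod 2) V)
  (f : V →ₗ[ZMod 2] (Fin k → ZMod 2)),
  (∀ A ⊆ E, (∀ v ∈ A, v ∉ X) →
    A.card + k * finrank (ZMod 2) X ≤
      k * finrank (ZMod 2) ↥(X ⊔ span (ZMod 2) (A : Set V))) →
  ∃ g : V →ₗ[ZMod 2] (Fin k → ZMod 2), (∀ x ∈ X, g x = f x) ∧ ∀ v ∈ E, v ∉ X → g v ≠ 0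

/-- C2: gluing of two colourings -/
def ClaimGlue : Prop := ∀ (V : Type u) [AddCommGroup V] [Module (ZMod 2) V]
  [FiniteDimensional (ZMod 2) V] (k : ℕ) (S H : Submodule (ZMod 2) V)
  (f g : V →ₗ[ZMod 2] (Fin k → ZMod 2)),
  (∀ x ∈ S ⊓ H, x ≠ 0 → f x ≠ 0 ∧ g x ≠ 0) →
  ∃ h : V →ₗ[ZMod 2] (Fin k → ZMod 2), (∀ x ∈ S, h x = f x) ∧ ∀ x ∈ H, g x ≠ 0 → h x ≠ 0

/-- C3: colouring of a good set from the density bound -/
def ClaimColGood : Prop := ∀ (V : Type u) [AddCommGroup V] [Module (ZMod 2) V]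
  [FiniteDimensional (ZMod 2) V] (E : Finset V), (0 : V) ∉ E → 0 < finrank (ZMod 2) V →
  E.card < 4 * finrank (ZMod 2) V →
  (∀ X : Submodule (ZMod 2) V, X ≠ ⊤ →
    ∃ f : V →ₗ[ZMod 2] (Fin 4 → ZMod 2), ∀ v ∈ E, v ∈ X → f v ≠ 0) →
  ∃ f : V →ₗ[ZMod 2] (Fin 4 → ZMod 2), ∀ v ∈ E, f v ≠ 0

/-- C4: colouring across a separation with guts of dimension at most two which is smallest
possible; `col` colours free sets inside proper subspaces -/
def ClaimColSep : Prop := ∀ (V : Type u) [AddCommGroup V] [Module (ZMod 2) V]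
  [FiniteDimensional (ZMod 2) V] (E : Finset V) (κ : ℕ) (S H : Submodule (ZMod 2) V),
  (0 : V) ∉ E → ¬ HasK5 (E : Set V) → span (ZMod 2) (E : Set V) = ⊤ →
  SepGe (E : Set V) κ → κ ≤ 2 → S ≠ ⊤ → H ≠ ⊤ → (∀ x ∈ E, x ∈ S ∨ x ∈ H) →
  finrank (ZMod 2) ↥(S ⊓ H) = κ →
  (∀ (X : Submodule (ZMod 2) V) (F : Set V), X ≠ ⊤ → (∀ x ∈ F, x ∈ X) → (0 : V) ∉ F →
    ¬ HasK5 F → ∃ f : V →ₗ[ZMod 2] (Fin 4 → ZMod 2), ∀ v ∈ F, f v ≠ 0) →
  ∃ f : V →ₗ[ZMod 2] (Fin 4 → ZMod 2), ∀ v ∈ E, f v ≠ 0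

/-- C5: the reduction of the colouring theorem to the density bound -/
def ClaimColour : Prop := (∀ m, 5 ≤ m → D4.{u} m) → ∀ (V : Type u) [AddCommGroup V]
  [Module (ZMod 2) V] [FiniteDimensional (ZMod 2) V] (E : Finset V), (0 : V) ∉ E →
  ¬ HasK5 (E : Set V) → ∃ f : V →ₗ[ZMod 2] (Fin 4 → ZMod 2), ∀ v ∈ E, f v ≠ 0

end Pool.Agent.WW

end

section

/-!
Packed tables of certificates: a certificate with `k` contracted codes below `2 ^ m` is a number
with `k + 4` digits in base `2 ^ m`, a table is a number with one certificate per digit.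
-/

namespace Pool.Agent.WW

/-- the Boolean check of a packed certificate -/
def certDec (m k M c : ℕ) : Bool :=
  checkK5 M ((List.range k).map (fun i => c / 2 ^ (m * i) % 2 ^ m)) (c / 2 ^ (m * k) % 2 ^ m)
    (c / 2 ^ (m * (k + 1)) % 2 ^ m) (c / 2 ^ (m * (k + 2)) % 2 ^ m)
    (c / 2 ^ (m * (k + 3)) % 2 ^ m)

theorem certDec_sound {m k M c : ℕ} (h : certDec m k M c = true) : CertM M :=
  ⟨_, _, _, _, _, h⟩

/-- the check of a packed table along a list of patterns -/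
def chkL {α : Type*} (f : α → ℕ) (m k : ℕ) : List α → ℕ → Bool
  | [], _ => true
  | a :: l, N => certDec m k (f a) (N % 2 ^ (m * (k + 4))) && chkL f m k l (N / 2 ^ (m * (k + 4)))

theorem chkL_sound {α : Type*} {f : α → ℕ} {m k : ℕ} :
    ∀ {l : List α} {N : ℕ}, chkL f m k l N = true → ∀ a ∈ l, CertM (f a)
  | [], _, _, a, ha => by simp at ha
  | b :: l, N, h, a, ha => by
    rw [chkL, Bool.and_eq_true] at h
    rcases List.mem_cons.1 ha with rfl | ha
    · exact certDec_sound h.1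
    · exact chkL_sound h.2 a ha

/-- numbers with digits in base `2 ^ b` -/
def unpack (b : ℕ) : List ℕ → ℕ
  | [] => 0
  | x :: l => x + 2 ^ b * unpack b l

theorem presC_mono {M M' : ℕ} (h : ∀ n, M.testBit n = true → M'.testBit n = true) (C : List ℕ)
    (v : ℕ) (hv : presC M C v = true) : presC M' C v = true := by
  unfold presC at *
  rw [List.any_eq_true] at *
  obtain ⟨k, hk, hkM⟩ := hv
  exact ⟨k, hk, h _ hkM⟩

theorem CertM.mono {M M' : ℕ} (h : ∀ n, M.testBit n = true → M'.testBit n = true)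
    (hM : CertM M) : CertM M' := by
  obtain ⟨C, s0, s1, s2, s3, hc⟩ := hM
  refine ⟨C, s0, s1, s2, s3, ?_⟩
  unfold checkK5 at *
  rw [Bool.and_eq_true, Bool.and_eq_true, List.all_eq_true, List.all_eq_true] at *
  refine ⟨⟨fun c hcC => h _ (hc.1.1 c hcC), fun v hv => presC_mono h C v (hc.1.2 v hv)⟩, hc.2⟩

theorem CertM.of_subset {l l' : List ℕ} (h : ∀ n ∈ l, n ∈ l') (hM : CertM (mask l)) :
    CertM (mask l') :=
  hM.mono fun n hn => (testBit_mask l' n).2 (h n ((testBit_mask l n).1 hn))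

/-- reduction to sorted triples -/
theorem sorted_triple (N : ℕ) (P : ℕ → ℕ → ℕ → Prop) (h12 : ∀ a b c, P a b c → P b a c)
    (h23 : ∀ a b c, P a b c → P a c b)
    (h : ∀ a < N, ∀ b < N, ∀ c < N, a ≠ 0 → a < b → b < c → a ^^^ b ≠ c → P a b c) :
    ∀ a < N, ∀ b < N, ∀ c < N, a ≠ 0 → b ≠ 0 → c ≠ 0 → a ≠ b → a ≠ c → b ≠ c → a ^^^ b ≠ c →
      P a b c := by
  intro a ha b hb c hc a0 b0 c0 ab ac bc h1
  have h2 : a ^^^ c ≠ b := by
    rintro rfl
    exact h1 (by rw [← Nat.xor_assoc, Nat.xor_self, Nat.zero_xor])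
  have h3 : b ^^^ c ≠ a := by
    rintro rfl
    exact h1 (by rw [Nat.xor_comm b c, Nat.xor_assoc, Nat.xor_self, Nat.xor_zero])
  rcases Nat.lt_or_gt_of_ne ab with ab | ab <;> rcases Nat.lt_or_gt_of_ne ac with ac | ac <;>
    rcases Nat.lt_or_gt_of_ne bc with bc | bc
  · exact h a ha b hb c hc a0 ab bc h1
  · exact h23 _ _ _ (h a ha c hc b hb a0 ac bc h2)
  · omega
  · -- c < a < b
    exact h23 _ _ _ (h12 _ _ _ (h c hc a ha b hb c0 ac ab (by rw [Nat.xor_comm]; exact h2)))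
  · -- b < a < c
    exact h12 _ _ _ (h b hb a ha c hc b0 ab ac (by rw [Nat.xor_comm]; exact h1))
  · omega
  · -- b < c < a
    exact h12 _ _ _ (h23 _ _ _ (h b hb c hc a ha b0 bc ac h3))
  · -- c < b < a
    exact h12 _ _ _ (h23 _ _ _ (h12 _ _ _ (h c hc b hb a ha c0 bc ab
      (by rw [Nat.xor_comm]; exact h3))))

end Pool.Agent.WW

end

section

/-!
Item H of the plan for MP_a8f287_co: in a vertically 4-connected binary matroid without
M(K5)-minor there is no Fano plane and no affine complement of a line in rank four,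
unless they are everything.
-/

namespace Pool.Agent.WW

open Submodule Module

variable {V W : Type*} [AddCommGroup V] [Module (ZMod 2) V]
  [AddCommGroup W] [Module (ZMod 2) W]

/-- In `ZMod 2` a scalar is `0` or `1`. -/
theorem fano_zmod2_cases (c : ZMod 2) : c = 0 ∨ c = 1 := by
  revert c; decide

theorem fano_pres_of_mem {E : Set V} {K : Submodule (ZMod 2) V} {v : V} (h : v ∈ E) :
    Pres E K v := ⟨v, h, by rw [ZModModule.add_self]; exact K.zero_mem⟩

/-- The star `x, x + u 0, x + u 1, x + u 2`. -/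
theorem fano_hasK5_of_star (E : Set V) (K U : Submodule (ZMod 2) V) (hK : Gen E K)
    (hKU : K ⊓ U = ⊥) (x : V) (hx : Pres E K x) (hxU : x ∉ U ⊔ K) (u : Fin 3 → V)
    (huU : ∀ i, u i ∈ U) (hu : LinearIndependent (ZMod 2) u)
    (hxu : ∀ i, Pres E K (x + u i)) (hp : ∀ i, Pres E K (u i))
    (hpp : ∀ i j, i ≠ j → Pres E K (u i + u j)) : HasK5 E := by
  have key : ∀ i, x + (x + u i) = u i := fun i => by
    rw [← add_assoc, ZModModule.add_self, zero_add]
  have key' : ∀ i, (x + u i) + x = u i := fun i => by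
    rw [add_comm, key]
  have key2 : ∀ i j, (x + u i) + (x + u j) = u i + u j := fun i j => by
    have : (x + u i) + (x + u j) = (x + x) + (u i + u j) := by abel
    rw [this, ZModModule.add_self, zero_add]
  refine ⟨K, hK, Fin.cons x (fun i => x + u i), ?_, ?_, ?_⟩
  · intro c hc
    rw [Fin.sum_univ_succ] at hc
    simp only [Fin.cons_zero, Fin.cons_succ] at hc
    have hsum : c 0 • x + ∑ i : Fin 3, c i.succ • (x + u i)
        = (c 0 + ∑ i : Fin 3, c i.succ) • x + ∑ i : Fin 3, c i.succ • u i := by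
      rw [add_smul, Finset.sum_smul, add_assoc, ← Finset.sum_add_distrib]
      simp only [smul_add]
    rw [hsum] at hc
    have hUsum : ∑ i : Fin 3, c i.succ • u i ∈ U :=
      Submodule.sum_mem _ (fun i _ => U.smul_mem _ (huU i))
    rcases fano_zmod2_cases (c 0 + ∑ i : Fin 3, c i.succ) with h0 | h1
    · rw [h0, zero_smul, zero_add] at hc
      have h3 : ∑ i : Fin 3, c i.succ • u i = 0 := by
        have : ∑ i : Fin 3, c i.succ • u i ∈ K ⊓ U := ⟨hc, hUsum⟩
        rw [hKU] at this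
        exact (Submodule.mem_bot _).mp this
      have h4 := Fintype.linearIndependent_iff.mp hu (fun i => c i.succ) h3
      have h5 : c 0 = 0 := by simpa [h4] using h0
      funext i
      refine Fin.cases ?_ (fun j => ?_) i
      · exact h5
      · exact h4 j
    · exfalso
      rw [h1, one_smul] at hc
      apply hxU
      have : x = ∑ i : Fin 3, c i.succ • u i + (x + ∑ i : Fin 3, c i.succ • u i) := by
        have h2 : ∑ i : Fin 3, c i.succ • u i + (x + ∑ i : Fin 3, c i.succ • u i)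
          = x + (∑ i : Fin 3, c i.succ • u i + ∑ i : Fin 3, c i.succ • u i) := by abel
        rw [h2, ZModModule.add_self, add_zero]
      rw [this]
      exact Submodule.add_mem_sup hUsum hc
  · intro i
    refine Fin.cases ?_ (fun j => ?_) i
    · exact hx
    · simpa using hxu j
  · intro i j
    refine Fin.cases ?_ (fun i' => ?_) i
    · refine Fin.cases ?_ (fun j' => ?_) j
      · intro h; exact absurd rfl h
      · intro _
        simp only [Fin.cons_zero, Fin.cons_succ, key]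
        exact hp j'
    · refine Fin.cases ?_ (fun j' => ?_) j
      · intro _
        simp only [Fin.cons_zero, Fin.cons_succ, key']
        exact hp i'
      · intro h
        simp only [Fin.cons_succ, key2]
        exact hpp i' j' (fun hij => h (by rw [hij]))

/-- Three independent elements of a set whose span has dimension at least three. -/
theorem fano_exists_three [FiniteDimensional (ZMod 2) V] (S : Set V)
    (h : 3 ≤ finrank (ZMod 2) ↥(span (ZMod 2) S)) :
    ∃ u : Fin 3 → V, (∀ i, u i ∈ S) ∧ LinearIndependent (ZMod 2) u := by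
  obtain ⟨f, hf, -, hli⟩ := exists_fun_fin_finrank_span_eq (ZMod 2) S
  exact ⟨fun i => f (Fin.castLE h i), fun i => hf _,
    hli.comp _ (Fin.castLE_injective h)⟩

theorem no_fano [FiniteDimensional (ZMod 2) V] {E : Set V} (hG : Good E)
    (U : Submodule (ZMod 2) V) (hU : finrank (ZMod 2) U = 3) (hne : ∃ a ∈ E, a ∉ U) :
    ∃ u ∈ U, u ≠ 0 ∧ u ∉ E := by
  by_contra hcon
  push Not at hcon
  obtain ⟨K, hK, hKU, x, hxE, hxU, h3⟩ := link_hyper E hG.span hG.vc U hU.ge hne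
  obtain ⟨u, hu, hli⟩ := fano_exists_three _ h3
  have hne0 : ∀ i, u i ≠ 0 := fun i => hli.ne_zero i
  have hnn : ∀ i j, i ≠ j → u i + u j ≠ 0 := by
    intro i j hij h
    apply hij
    apply hli.injective
    have := eq_neg_of_add_eq_zero_left h
    rwa [ZModModule.neg_eq_self] at this
  exact hG.free (fano_hasK5_of_star E K U hK hKU x (fano_pres_of_mem hxE) hxU u (fun i => (hu i).1) hli
    (fun i => (hu i).2) (fun i => fano_pres_of_mem (hcon _ (hu i).1 (hne0 i)))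
    (fun i j hij => fano_pres_of_mem (hcon _ (U.add_mem (hu i).1 (hu j).1) (hnn i j hij))))

theorem no_p12 [FiniteDimensional (ZMod 2) V] {E : Set V} (hG : Good E)
    (U L : Submodule (ZMod 2) V) (hU : finrank (ZMod 2) U = 4) (hL : finrank (ZMod 2) L = 2)
    (hLU : L ≤ U) (hne : ∃ a ∈ E, a ∉ U) : ∃ u ∈ U, u ∉ L ∧ u ∉ E := by
  by_contra hcon
  push Not at hcon
  obtain ⟨K, hK, hKU, x, hxE, hxU, h3⟩ := link_hyper E hG.span hG.vc U (by omega) hne
  by_cases hcase : ∃ s s' : V, (s ∈ U ∧ Pres E K (x + s)) ∧ (s' ∈ U ∧ Pres E K (x + s')) ∧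
      s ≠ s' ∧ s + s' ∈ L
  · obtain ⟨s, s', ⟨hsU, hs⟩, ⟨hsU', hs'⟩, hss, hl⟩ := hcase
    set l : V := s + s' with hldef
    have hl0 : l ≠ 0 := by
      intro h
      apply hss
      have := eq_neg_of_add_eq_zero_left (hldef ▸ h)
      rwa [ZModModule.neg_eq_self] at this
    set K' : Submodule (ZMod 2) V := K ⊔ span (ZMod 2) {x + s} with hK'def
    have hKK' : K ≤ K' := le_sup_left
    have hxsK' : x + s ∈ K' := Submodule.mem_sup_right (Submodule.mem_span_singleton_self _)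
    obtain ⟨y, hyE, hyK⟩ := hs
    have hyK' : y ∈ K' := by
      have h1 : y = (y + (x + s)) + (x + s) := by
        rw [add_assoc, ZModModule.add_self, add_zero]
      rw [h1]
      exact K'.add_mem (hKK' hyK) hxsK'
    have hmono : span (ZMod 2) (E ∩ K) ≤ span (ZMod 2) (E ∩ K') :=
      Submodule.span_mono (Set.inter_subset_inter_right _ hKK')
    have hGen' : Gen E K' := by
      refine sup_le (hK.trans hmono) ?_
      rw [Submodule.span_singleton_le_iff_mem]
      have h1 : x + s = y + (y + (x + s)) := by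
        rw [← add_assoc, ZModModule.add_self, zero_add]
      rw [h1]
      exact Submodule.add_mem _ (Submodule.subset_span ⟨hyE, hyK'⟩) (hmono (hK hyK))
    have hK'U : K' ⊓ U = ⊥ := by
      rw [eq_bot_iff]
      rintro v ⟨hvK, hvU⟩
      obtain ⟨k, hk, w, hw, rfl⟩ := Submodule.mem_sup.mp hvK
      obtain ⟨c, rfl⟩ := Submodule.mem_span_singleton.mp hw
      rcases fano_zmod2_cases c with rfl | rfl
      · rw [zero_smul, add_zero] at hvU ⊢
        rw [← hKU]; exact ⟨hk, hvU⟩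
      · exfalso
        rw [one_smul] at hvU
        apply hxU
        have h1 : x = ((k + (x + s)) + s) + k := by
          have : ((k + (x + s)) + s) + k = x + (s + s) + (k + k) := by abel
          rw [this, ZModModule.add_self, ZModModule.add_self, add_zero, add_zero]
        rw [h1]
        exact Submodule.add_mem_sup (U.add_mem hvU hsU) hk
    have hpl : Pres E K' l := by
      obtain ⟨y', hyE', hyK2⟩ := hs'
      refine ⟨y', hyE', ?_⟩
      have h1 : y' + l = (y' + (x + s')) + (x + s) := by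
        have : (y' + (x + s')) + (x + s) = y' + (s + s') + (x + x) := by abel
        rw [this, ZModModule.add_self, add_zero]
      rw [h1]
      exact K'.add_mem (hKK' hyK2) hxsK'
    -- a second element of L
    have hex : ∃ l1 ∈ L, l1 ∉ span (ZMod 2) {l} := by
      by_contra hno
      push Not at hno
      have hle : L ≤ span (ZMod 2) {l} := hno
      have := Submodule.finrank_mono hle
      have h1 := finrank_span_singleton (K := ZMod 2) hl0
      omega
    obtain ⟨l1, hl1, hl1n⟩ := hex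
    have hspan2 : LinearIndependent (ZMod 2) ![l, l1] := by
      rw [LinearIndependent.pair_iff]
      intro a b hab
      rcases fano_zmod2_cases b with rfl | rfl
      · rw [zero_smul, add_zero] at hab
        exact ⟨(smul_eq_zero.mp hab).resolve_right hl0, rfl⟩
      · exfalso
        apply hl1n
        rw [one_smul] at hab
        have h1 : l1 = a • l := by
          have := eq_neg_of_add_eq_zero_left hab
          rw [ZModModule.neg_eq_self] at this
          exact this.symm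
        rw [h1]
        exact Submodule.smul_mem _ _ (Submodule.mem_span_singleton_self _)
    have hLspan : span (ZMod 2) (Set.range ![l, l1]) = L := by
      apply Submodule.eq_of_le_of_finrank_eq
      · rw [Submodule.span_le]
        rintro _ ⟨i, rfl⟩
        fin_cases i
        · exact hl
        · exact hl1
      · rw [finrank_span_eq_card hspan2, hL]; rfl
    have hLelts : ∀ v ∈ L, v = 0 ∨ v = l ∨ v = l1 ∨ v = l1 + l := by
      intro v hv
      rw [← hLspan, Submodule.mem_span_range_iff_exists_fun] at hv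
      obtain ⟨c, rfl⟩ := hv
      rw [Fin.sum_univ_two]
      simp only [Matrix.cons_val_zero, Matrix.cons_val_one]
      rcases fano_zmod2_cases (c 0) with h0 | h0 <;> rcases fano_zmod2_cases (c 1) with h1 | h1 <;>
        rw [h0, h1]
      · left; simp
      · right; right; left; simp
      · right; left; simp
      · right; right; right; simp [add_comm]
    obtain ⟨c, hcU, hcL⟩ : ∃ c ∈ U, c ∉ L := by
      by_contra hno
      push Not at hno
      have hle : U ≤ L := hno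
      have := Submodule.finrank_mono hle
      omega
    have hli3 : LinearIndependent (ZMod 2) ![l1, l1 + l, c] := by
      rw [Fintype.linearIndependent_iff]
      intro g hg
      rw [Fin.sum_univ_three] at hg
      simp only [Matrix.cons_val_zero, Matrix.cons_val_one, Matrix.cons_val_two,
        Matrix.tail_cons, Matrix.head_cons] at hg
      have hg2 : g 2 = 0 := by
        rcases fano_zmod2_cases (g 2) with h | h
        · exact h
        · exfalso
          rw [h, one_smul] at hg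
          apply hcL
          have h1 : c = g 0 • l1 + g 1 • (l1 + l) := by
            have := eq_neg_of_add_eq_zero_right hg
            rw [ZModModule.neg_eq_self] at this
            exact this
          rw [h1]
          exact L.add_mem (L.smul_mem _ hl1) (L.smul_mem _ (L.add_mem hl1 hl))
      rw [hg2, zero_smul, add_zero] at hg
      have h2 : g 1 • l + (g 0 + g 1) • l1 = 0 := by
        rw [← hg, add_smul, smul_add (g 1) l1 l]; abel
      have h3 := (LinearIndependent.pair_iff.mp hspan2) _ _ h2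
      have h4 : g 1 = 0 := h3.1
      have h5 : g 0 = 0 := by simpa [h4] using h3.2
      intro i
      fin_cases i
      · exact h5
      · exact h4
      · exact hg2
    refine hG.free (hasK5_of_three_missing E K' U hGen' hK'U hU l1 (l1 + l) c (hLU hl1)
      (U.add_mem (hLU hl1) (hLU hl)) hcU hli3 ?_)
    intro u huU hu0 hul1 hul2 _
    by_cases huL : u ∈ L
    · rcases hLelts u huL with h | h | h | h
      · exact absurd h hu0
      · rw [h]; exact hpl
      · exact absurd h hul1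
      · exact absurd h hul2
    · exact fano_pres_of_mem (hcon u huU huL)
  · obtain ⟨u, hu, hli⟩ := fano_exists_three _ h3
    have h0S : (0 : V) ∈ U ∧ Pres E K (x + 0) := ⟨U.zero_mem, by
      rw [add_zero]; exact fano_pres_of_mem hxE⟩
    have huL : ∀ i, u i ∉ L := by
      intro i hi
      apply hcase
      exact ⟨u i, 0, hu i, h0S, hli.ne_zero i, by rw [add_zero]; exact hi⟩
    have huuL : ∀ i j, i ≠ j → u i + u j ∉ L := by
      intro i j hij h
      apply hcase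
      exact ⟨u i, u j, hu i, hu j, fun h' => hij (hli.injective h'), h⟩
    exact hG.free (fano_hasK5_of_star E K U hK hKU x (fano_pres_of_mem hxE) hxU u (fun i => (hu i).1) hli
      (fun i => (hu i).2) (fun i => fano_pres_of_mem (hcon _ (hu i).1 (huL i)))
      (fun i j hij => fano_pres_of_mem (hcon _ (U.add_mem (hu i).1 (hu j).1) (huuL i j hij))))

end Pool.Agent.WW

end

section

/-!
Definitions for Case II (there is a cocircuit of rank four) of the bound `c(M;2) ≤ 3`.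
-/

namespace Pool.Agent.WW

open Submodule Module

variable {V W : Type*} [AddCommGroup V] [Module (ZMod 2) V]
  [AddCommGroup W] [Module (ZMod 2) W]

/-- `H` is a hyperplane whose complement in `E` has rank four -/
def Coc4 (E : Set V) (H : Submodule (ZMod 2) V) : Prop :=
  finrank (ZMod 2) H + 1 = finrank (ZMod 2) V ∧
    finrank (ZMod 2) ↥(span (ZMod 2) (E \ (H : Set V))) = 4

/-- three points outside the guts line and none on it: the only side that cannot be filled -/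
def Triad (N : Set W) (F F' : Submodule (ZMod 2) W) : Prop :=
  Cov N F F' ∧ finrank (ZMod 2) ↥(F ⊓ F') = 2 ∧ finrank (ZMod 2) F' = 3 ∧
    ∃ x p q : W, x ∈ F' ∧ x ∉ F ∧ p ∈ F ⊓ F' ∧ q ∈ F ⊓ F' ∧ p ≠ 0 ∧ q ≠ 0 ∧ p ≠ q ∧
      ∀ y ∈ N, y ∈ F' → y = x ∨ y = x + p ∨ y = x + q

section Count

/-- the side `S` of the covering `(S, S')` is light: `|N ∩ S| ≤ 3 dim S - 3`, and one less if
the guts line has a missing point -/
def Light (N : Finset W) (S S' : Submodule (ZMod 2) W) : Prop :=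
  (res N S).card + 3 ≤ 3 * finrank (ZMod 2) S ∧
    ((∃ y ∈ S ⊓ S', y ≠ 0 ∧ y ∉ N) → (res N S).card + 4 ≤ 3 * finrank (ZMod 2) S)

/-- every 3-separation has a light side -/
def NoBad (N : Finset W) : Prop :=
  ∀ S S' : Submodule (ZMod 2) W, Cov (N : Set W) S S' → finrank (ZMod 2) ↥(S ⊓ S') = 2 →
    Light N S S' ∨ Light N S' S

variable [DecidableEq W]

/-- the contraction of the element `(a, 1)` of the set with elements `(f, 0)`, `f ∈ F`, and
`(b, 1)`, `b ∈ A` -/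
def NA (F A : Finset W) (a : W) : Finset W := (F ∪ A.image (fun b => a + b)).erase 0

/-- number of full lines through the element `(a, 1)` -/
def tA (F A : Finset W) (a : W) : ℕ := (A.filter (fun b => a + b ∈ F)).card

/-- a vertically 4-connected set with a cocircuit `A` of rank four, seen in the hyperplane: the
elements are `(f, 0)` for `f ∈ F` and `(b, 1)` for `b ∈ A` -/
structure Quad (F A : Finset W) (Γ : Submodule (ZMod 2) W) : Prop where
  zero : (0 : W) ∉ F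
  spF : span (ZMod 2) (F : Set W) = ⊤
  ne : A.Nonempty
  dim : finrank (ZMod 2) Γ = 3
  sub : ∀ a ∈ A, ∀ b ∈ A, a + b ∈ Γ
  sp : ∀ a ∈ A, Γ ≤ span (ZMod 2) {c : W | ∃ b ∈ A, c = a + b}
  v1 : ∀ (Q D : Submodule (ZMod 2) W) (a : W), D ≠ ⊤ → (∀ f ∈ F, f ∈ Q ∨ f ∈ D) →
    (∀ b ∈ A, a + b ∈ D) → 3 ≤ finrank (ZMod 2) ↥(Q ⊓ D)
  v2 : ∀ (Q D : Submodule (ZMod 2) W) (a b : W), Q ≠ ⊤ → D ≠ ⊤ → (∀ f ∈ F, f ∈ Q ∨ f ∈ D) →
    (∀ c ∈ A, a + c ∈ Q ∨ b + c ∈ D) → 2 ≤ finrank (ZMod 2) ↥(Q ⊓ D)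

/-- `A` splits into a part in a coset of `L` and a part in a coset of `M` -/
def Spl (A : Finset W) (L M : Submodule (ZMod 2) W) : Prop :=
  ∃ a b : W, ∀ c ∈ A, a + c ∈ L ∨ b + c ∈ M

open Classical in
/-- lower bound for the dimension of `Q ⊓ D` at a corner `Q` with opposite part `D`; here
`L = Q ⊓ Γ` and `M ≤ D ⊓ Γ` -/
noncomputable def cb (A : Finset W) (L M : Submodule (ZMod 2) W) : ℕ :=
  max (finrank (ZMod 2) M) (if Spl A L M then 2 else 0)

/-- two pairs of traces are compatible -/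
def Compat (A : Finset W) (l l' m m' : Submodule (ZMod 2) W) : Prop :=
  cb A (l ⊓ m) (l' ⊔ m') + cb A (l' ⊓ m') (l ⊔ m) ≤ 4 ∨
    cb A (l ⊓ m') (l' ⊔ m) + cb A (l' ⊓ m) (l ⊔ m') ≤ 4

/-- `(l, l')` is a possible pair of traces of a 3-separation of `NA F A a` on `Γ` -/
def IsTr (F A : Finset W) (Γ : Submodule (ZMod 2) W) (a : W) (l l' : Submodule (ZMod 2) W) :
    Prop :=
  l ≤ Γ ∧ l' ≤ Γ ∧ l ≠ Γ ∧ l' ≠ Γ ∧ ∀ p ∈ NA F A a, p ∈ Γ → p ∈ l ∨ p ∈ l'

/-- some element of the cocircuit lies on at most two full lines, and its contraction has six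
elements in `Γ` -/
def One (F A : Finset W) (Γ : Submodule (ZMod 2) W) : Prop :=
  ∃ a ∈ A, 6 ≤ (res (NA F A a) Γ).card ∧ tA F A a ≤ 2

/-- no pairwise compatible choice of traces for all elements on at most two full lines -/
def NoAss (F A : Finset W) (Γ : Submodule (ZMod 2) W) : Prop :=
  ∀ l l' : W → Submodule (ZMod 2) W, (∀ a ∈ A, tA F A a ≤ 2 → IsTr F A Γ a (l a) (l' a)) →
    (∀ a ∈ A, ∀ b ∈ A, a ≠ b → tA F A a ≤ 2 → tA F A b ≤ 2 →
      Compat A (l a) (l' a) (l b) (l' b)) → False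

/-- for a point `x` of `F` in `Γ` such that `A` has four classes modulo `x`, all other points
of `F` in `Γ` lie in one class modulo `x` -/
def LPl (F A : Finset W) (Γ : Submodule (ZMod 2) W) : Prop :=
  ∀ x ∈ F, x ∈ Γ → 2 * A.card = 8 + (A.filter (fun a => a + x ∈ A)).card →
    ∀ u ∈ F, ∀ v ∈ F, u ∈ Γ → v ∈ Γ → u ≠ x → v ≠ x → u = v ∨ u + v = x

end Count

end Pool.Agent.WW

end

section

/-!
Trees of certificates: the codes in a bit mask `M` are present, and for every clause (a list of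
bit masks) at least one of its masks consists of present codes. A tree proves that in every case
there is a certificate for an `M(K5)`-minor.
-/

namespace Pool.Agent.WW

/-- trees of certificates -/
inductive BT
  /-- certificate -/
  | leaf (C : List ℕ) (a b c d : ℕ) : BT
  /-- clause `i` is empty -/
  | abs (i : ℕ) : BT
  /-- branch on the alternative `k` of clause `i` -/
  | br (i k : ℕ) (l r : BT) : BT

/-- the check of a tree -/
def BT.chk : BT → ℕ → List (List ℕ) → Bool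
  | .leaf C a b c d, M, _ => checkK5 M C a b c d
  | .abs i, _, cls => (cls.getD i [0]).isEmpty
  | .br i k l r, M, cls =>
    l.chk (M ||| (cls.getD i [0]).getD k 0) cls &&
      r.chk M (cls.set i ((cls.getD i [0]).eraseIdx k))

theorem bt_mem_eraseIdx {l : List ℕ} {k a : ℕ} (ha : a ∈ l) (hk : a ≠ l.getD k 0) :
    a ∈ l.eraseIdx k := by
  rw [List.mem_eraseIdx_iff_getElem]
  obtain ⟨j, hj, rfl⟩ := List.mem_iff_getElem.1 ha
  refine ⟨j, hj, ?_, rfl⟩
  rintro rfl
  exact hk (by rw [List.getD_eq_getElem _ _ hj])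

theorem BT.sound (P : ℕ → Prop) (t : BT) : ∀ (M : ℕ) (cls : List (List ℕ)),
    t.chk M cls = true → (∀ n, M.testBit n = true → P n) →
    (∀ cl ∈ cls, ∃ a ∈ cl, ∀ n, a.testBit n = true → P n) →
    ∃ M', CertM M' ∧ ∀ n, M'.testBit n = true → P n := by
  induction t with
  | leaf C a b c d =>
    intro M cls h hM _
    exact ⟨M, ⟨C, a, b, c, d, h⟩, hM⟩
  | abs i =>
    intro M cls h hM hcl
    exfalso
    rw [BT.chk, List.isEmpty_iff] at h
    by_cases hi : i < cls.length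
    · rw [List.getD_eq_getElem _ _ hi] at h
      obtain ⟨a, ha, -⟩ := hcl _ (List.getElem_mem hi)
      rw [h] at ha
      simp at ha
    · rw [List.getD_eq_default _ _ (by omega)] at h
      simp at h
  | br i k l r ihl ihr =>
    intro M cls h hM hcl
    rw [BT.chk, Bool.and_eq_true] at h
    obtain ⟨hl, hr⟩ := h
    by_cases ha : ∀ n, ((cls.getD i [0]).getD k 0).testBit n = true → P n
    · refine ihl _ _ hl ?_ hcl
      intro n hn
      rw [Nat.testBit_or, Bool.or_eq_true] at hn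
      rcases hn with hn | hn
      · exact hM n hn
      · exact ha n hn
    · refine ihr _ _ hr hM ?_
      intro cl hmem
      by_cases hi : i < cls.length
      · rcases List.mem_or_eq_of_mem_set hmem with h1 | h1
        · exact hcl cl h1
        · subst h1
          rw [List.getD_eq_getElem _ _ hi] at ha ⊢
          obtain ⟨a, ham, haP⟩ := hcl _ (List.getElem_mem hi)
          refine ⟨a, bt_mem_eraseIdx ham ?_, haP⟩
          rintro rfl
          exact ha haP
      · rw [List.set_eq_of_length_le (by omega)] at hmem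
        exact hcl cl hmem

end Pool.Agent.WW

end

section

/-!
Definitions for the module K4: good sets with a `K4` plane are the sets `Delta`.
-/

namespace Pool.Agent.WW

open Submodule Module

variable {V W : Type*} [AddCommGroup V] [Module (ZMod 2) V]
  [AddCommGroup W] [Module (ZMod 2) W]

/-- `s` is the sequence of spokes (with period `n` up to the hub `h`) -/
def Spk (n : ℕ) (h : V) (s : ℕ → V) : Prop :=
  (∀ i, s (i + n) = s i + h) ∧
    LinearIndependent (ZMod 2) (Fin.cons h (fun i : Fin n => s i) : Fin (n + 1) → V) ∧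
    finrank (ZMod 2) V = n + 1

/-- `S` is the set `Delta` with hub `h` and spokes `s`: the hub, the spokes `s i` and the rims
`s i + s (i + 1)` -/
def DelSet (h : V) (s : ℕ → V) (S : Set V) : Prop :=
  ∀ v, v ∈ S ↔ v = h ∨ (∃ i, v = s i) ∨ ∃ i, v = s i + s (i + 1)

/-- `S` is a set `Delta` with `n` spokes (rank `n + 1`, `3 n + 1` points) -/
def IsDel (n : ℕ) (S : Set V) : Prop := ∃ (h : V) (s : ℕ → V), Spk n h s ∧ DelSet h s S

/-- `P` is a plane which contains at least six points of `E` -/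
def K4P (E : Set V) (P : Submodule (ZMod 2) V) : Prop :=
  finrank (ZMod 2) P = 3 ∧ 6 ≤ (E ∩ (P : Set V)).ncard

/-- `(G, H)` is a vertical 4-separation with `P` in the side `H` -/
def Away (E : Set V) (P G H : Submodule (ZMod 2) V) : Prop :=
  Cov E G H ∧ finrank (ZMod 2) ↥(G ⊓ H) = 3 ∧ P ≤ H

/-- the trace of a 4-separation through `g` on a side, as far as it is seen in the set `W` with
the guts plane `Γ`: `Q`, `R` are the traces of the two sides -/
def Tr (W : Set V) (Γ Q R : Submodule (ZMod 2) V) (g : V) : Prop :=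
  Q ≠ ⊤ ∧ g ∈ Q ∧ g ∈ R ∧ (∀ x ∈ W, x ∉ Γ → x ∈ Q ∨ x ∈ R) ∧ (∃ x ∈ W, x ∉ Γ ∧ x ∉ Q) ∧
    g ∈ span (ZMod 2) {x : V | x ∈ W ∧ x ∉ Γ ∧ x ∉ Q} ⊔ Γ

end Pool.Agent.WW

end

section

/-!
Statements of the items of the module T for the bound `c(M;2) ≤ 3`: Theorem C (existence of
contractible elements), the triangle inequality, and the case without a cocircuit of rank four.
Every `ClaimX` is proved in its own file `C3/X.lean` as `theorem claimX ... : ClaimX`, possibly
with other claims as hypotheses. We write `s(Y) = 6 |Y| - tri Y` in the comments.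
-/

namespace Pool.Agent.WW

open Submodule Module

universe u

/-! ### Theorem C -/

/-- T1: dimensions in a covering by two proper subspaces -/
def ClaimCovDim : Prop := ∀ (V : Type u) [AddCommGroup V] [Module (ZMod 2) V]
  [FiniteDimensional (ZMod 2) V] (E : Set V) (A B : Submodule (ZMod 2) V),
  span (ZMod 2) E = ⊤ → Cov E A B →
  A ⊔ B = ⊤ ∧ finrank (ZMod 2) ↥(A ⊓ B) + finrank (ZMod 2) V =
    finrank (ZMod 2) A + finrank (ZMod 2) B ∧ span (ZMod 2) (E \ (B : Set V)) ≤ A ∧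
  (SepGe E 3 → finrank (ZMod 2) ↥(A ⊓ B) = 3 → span (ZMod 2) (E \ (B : Set V)) = A)

/-- T2: crossing of a smallest fragment with the separation of a noncontractible element -/
def ClaimCross : Prop := ∀ (V : Type u) [AddCommGroup V] [Module (ZMod 2) V]
  [FiniteDimensional (ZMod 2) V] (E : Set V) (P G H : Submodule (ZMod 2) V) (g : V),
  span (ZMod 2) E = ⊤ → SepGe E 3 → (P = ⊥ ∨ 3 ≤ finrank (ZMod 2) P) → Unsp E P →
  Frag E P G H →
  (∀ G' H' : Submodule (ZMod 2) V, Frag E P G' H' → finrank (ZMod 2) G ≤ finrank (ZMod 2) G') →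
  g ∈ E → g ∉ H → ¬ Ctr E g →
  ∃ S S' : Submodule (ZMod 2) V, Cov E S S' ∧ g ∈ S ⊓ S' ∧ finrank (ZMod 2) ↥(S ⊓ S') = 3 ∧
    finrank (ZMod 2) ↥(G ⊓ S) ≤ 3 ∧ finrank (ZMod 2) ↥(G ⊓ S') ≤ 3

/-- T3: without cocircuits of rank four the fragment has dimension five and its points lie in
two planes meeting in `g` -/
def ClaimFive : Prop := ∀ (V : Type u) [AddCommGroup V] [Module (ZMod 2) V]
  [FiniteDimensional (ZMod 2) V] (E : Set V) (G H S S' : Submodule (ZMod 2) V) (g : V),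
  span (ZMod 2) E = ⊤ → SepGe E 3 → NoC4 E → Cov E G H → finrank (ZMod 2) ↥(G ⊓ H) = 3 →
  g ∈ E → g ∉ H → Cov E S S' → g ∈ S ⊓ S' → finrank (ZMod 2) ↥(G ⊓ S) ≤ 3 →
  finrank (ZMod 2) ↥(G ⊓ S') ≤ 3 →
  finrank (ZMod 2) G = 5 ∧ ∃ Q Q' : Submodule (ZMod 2) V, Q ≤ G ∧ Q' ≤ G ∧
    finrank (ZMod 2) Q = 3 ∧ finrank (ZMod 2) Q' = 3 ∧ Q ⊓ Q' = span (ZMod 2) {g} ∧
    (∀ x ∈ E, x ∈ G → x ∈ Q ∨ x ∈ Q') ∧
    finrank (ZMod 2) ↥(Q ⊓ H) = 1 ∧ finrank (ZMod 2) ↥(Q' ⊓ H) = 1

/-- T4: a smallest fragment contains a contractible element in its interior -/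
def ClaimMinFrag : Prop := ∀ (V : Type u) [AddCommGroup V] [Module (ZMod 2) V]
  [FiniteDimensional (ZMod 2) V] (E : Set V) (P G H : Submodule (ZMod 2) V),
  span (ZMod 2) E = ⊤ → SepGe E 3 → NoC4 E → (P = ⊥ ∨ 3 ≤ finrank (ZMod 2) P) → Unsp E P →
  Frag E P G H →
  (∀ G' H' : Submodule (ZMod 2) V, Frag E P G' H' → finrank (ZMod 2) G ≤ finrank (ZMod 2) G') →
  ∃ g ∈ E, g ∉ H ∧ Ctr E g

/-- T5: Theorem C -/
def ClaimThmC : Prop := ∀ (V : Type u) [AddCommGroup V] [Module (ZMod 2) V]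
  [FiniteDimensional (ZMod 2) V] (E : Set V) (P : Submodule (ZMod 2) V),
  span (ZMod 2) E = ⊤ → SepGe E 3 → NoC4 E → (P = ⊥ ∨ 3 ≤ finrank (ZMod 2) P) → Unsp E P →
  (∃ x ∈ E, x ∉ P) → ∃ e ∈ E, e ∉ P ∧ Ctr E e

/-! ### Counting lines -/

/-- T6: counting in a covering by two subspaces -/
def ClaimTriSplit : Prop := ∀ (V : Type u) [AddCommGroup V] [Module (ZMod 2) V]
  [DecidableEq V] (W : Finset V) (A B : Submodule (ZMod 2) V), (∀ x ∈ W, x ∈ A ∨ x ∈ B) →
  W.card + (res W (A ⊓ B)).card = (res W A).card + (res W B).card ∧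
  tri W + tri (res W (A ⊓ B)) = tri (res W A) + tri (res W B)

/-- T7: `s(Y) = 6 rank(Y)` in rank at most two -/
def ClaimTriLine : Prop := ∀ (V : Type u) [AddCommGroup V] [Module (ZMod 2) V]
  [FiniteDimensional (ZMod 2) V] [DecidableEq V] (Y : Finset V), (0 : V) ∉ Y →
  finrank (ZMod 2) ↥(span (ZMod 2) (Y : Set V)) ≤ 2 →
  6 * Y.card = tri Y + 6 * finrank (ZMod 2) ↥(span (ZMod 2) (Y : Set V))

/-- T8: `s(Y) = 18` in rank three, or `Y` is a 4-circuit and `s(Y) = 24` -/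
def ClaimTriPlane : Prop := ∀ (V : Type u) [AddCommGroup V] [Module (ZMod 2) V]
  [FiniteDimensional (ZMod 2) V] [DecidableEq V] (Y : Finset V), (0 : V) ∉ Y →
  K4F (Y : Set V) → finrank (ZMod 2) ↥(span (ZMod 2) (Y : Set V)) = 3 →
  6 * Y.card = tri Y + 18 ∨ (6 * Y.card = tri Y + 24 ∧ tri Y = 0 ∧
    ∃ a b c : V, LinearIndependent (ZMod 2) ![a, b, c] ∧ Y = {a, b, c, a + b + c})

/-- T9: `s(Y) ≥ 18` in rank four; `s(Y) ≥ 24` if a plane `Γ` meets `Y` in a 4-circuit and the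
other points of `Y` span rank four -/
def ClaimTriFour : Prop := ∀ (V : Type u) [AddCommGroup V] [Module (ZMod 2) V]
  [FiniteDimensional (ZMod 2) V] [DecidableEq V] (Y : Finset V), (0 : V) ∉ Y →
  K4F (Y : Set V) → finrank (ZMod 2) ↥(span (ZMod 2) (Y : Set V)) = 4 →
  tri Y + 18 ≤ 6 * Y.card ∧
  ∀ (Γ : Submodule (ZMod 2) V) (a b c : V), finrank (ZMod 2) Γ = 3 →
    LinearIndependent (ZMod 2) ![a, b, c] → res Y Γ = {a, b, c, a + b + c} →
    finrank (ZMod 2) ↥(span (ZMod 2) ((Y : Set V) \ (Γ : Set V))) = 4 →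
    tri Y + 24 ≤ 6 * Y.card

/-! ### The triangle inequality -/

/-- T10: sets which are not vertically 4-connected -/
def ClaimTNot4 : Prop := ∀ (V : Type u) [AddCommGroup V] [Module (ZMod 2) V]
  [FiniteDimensional (ZMod 2) V] [DecidableEq V] (W : Finset V) (A B : Submodule (ZMod 2) V),
  (0 : V) ∉ W → (∀ x ∈ W, x ∈ A ∨ x ∈ B) → (∃ x ∈ W, x ∉ A) → (∃ x ∈ W, x ∉ B) →
  finrank (ZMod 2) ↥(A ⊓ B) ≤ 2 → 5 ≤ finrank (ZMod 2) ↥(span (ZMod 2) (W : Set V)) →
  (∀ W' ⊆ W, 3 ≤ finrank (ZMod 2) ↥(span (ZMod 2) (W' : Set V)) →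
    finrank (ZMod 2) ↥(span (ZMod 2) (W' : Set V)) <
      finrank (ZMod 2) ↥(span (ZMod 2) (W : Set V)) → tri W' + 18 ≤ 6 * W'.card) →
  tri W + 24 ≤ 6 * W.card

/-- T11: sets with a vertical 4-separation -/
def ClaimTSep : Prop := ∀ (V : Type u) [AddCommGroup V] [Module (ZMod 2) V]
  [FiniteDimensional (ZMod 2) V] [DecidableEq V] (W : Finset V) (A B : Submodule (ZMod 2) V),
  (0 : V) ∉ W → K4F (W : Set V) → (∀ x ∈ W, x ∈ A ∨ x ∈ B) →
  finrank (ZMod 2) ↥(A ⊓ B) = 3 → tri (res W A) + 24 ≤ 6 * (res W A).card →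
  tri (res W B) + 24 ≤ 6 * (res W B).card → tri W + 24 ≤ 6 * W.card

/-- T12: sets with a cocircuit of rank four -/
def ClaimTC4 : Prop := ∀ (V : Type u) [AddCommGroup V] [Module (ZMod 2) V]
  [FiniteDimensional (ZMod 2) V] [DecidableEq V] (W : Finset V) (G H : Submodule (ZMod 2) V),
  (0 : V) ∉ W → K4F (W : Set V) → (∀ x ∈ W, x ∈ G ∨ x ∈ H) →
  finrank (ZMod 2) ↥(G ⊓ H) = 3 → finrank (ZMod 2) G = 4 →
  span (ZMod 2) ((W : Set V) \ (H : Set V)) = G →
  tri (res W H) + 24 ≤ 6 * (res W H).card → tri W + 24 ≤ 6 * W.card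

/-- T13: the contraction inequality for sets without `K4` -/
def ClaimTContr : Prop := ∀ (V : Type u) [AddCommGroup V] [Module (ZMod 2) V]
  [FiniteDimensional (ZMod 2) V] [DecidableEq V] (W : Type u) [AddCommGroup W]
  [Module (ZMod 2) W] [DecidableEq W] (E : Finset V) (π : V →ₗ[ZMod 2] W) (e : V),
  (∀ v, π v = 0 ↔ v = 0 ∨ v = e) → (0 : V) ∉ E → e ∈ E → K4F (E : Set V) →
  triL π E (contr π E) + 18 ≤ 6 * (contr π E).card → tri E + 24 ≤ 6 * E.card

/-- T14: contraction of a contractible element -/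
def ClaimCtrGood : Prop := ∀ (V : Type u) [AddCommGroup V] [Module (ZMod 2) V]
  [FiniteDimensional (ZMod 2) V] [DecidableEq V] (W : Type u) [AddCommGroup W]
  [Module (ZMod 2) W] [FiniteDimensional (ZMod 2) W] [DecidableEq W] (E : Finset V)
  (π : V →ₗ[ZMod 2] W) (e : V), Function.Surjective π → (∀ v, π v = 0 ↔ v = 0 ∨ v = e) →
  e ∈ E → Good (E : Set V) → Ctr (E : Set V) e →
  Good (contr π E : Set W) ∧ finrank (ZMod 2) W + 1 = finrank (ZMod 2) V

/-- stars at `GQ13` -/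
def TabGQ : Prop := ∀ a < 32, ∀ b < 32, ∀ c < 32, a ≠ 0 → b ≠ 0 → c ≠ 0 → a ≠ b → a ≠ c →
  b ≠ c → a ^^^ b ≠ c → CertM (mask (gq13 ++ [32, 32 ^^^ a, 32 ^^^ b, 32 ^^^ c]))

/-- T15: no `GQ13` in a good set of rank at least six -/
def ClaimNoGQ : Prop := TabGQ → ∀ (V : Type u) [AddCommGroup V] [Module (ZMod 2) V]
  [FiniteDimensional (ZMod 2) V] (E : Set V), Good E → 6 ≤ finrank (ZMod 2) V → GQF E

/-- the triangle inequality for spanning sets -/
def TA3 (n : ℕ) : Prop :=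
  ∀ (V : Type u) [AddCommGroup V] [Module (ZMod 2) V] [FiniteDimensional (ZMod 2) V]
    [DecidableEq V] (W : Finset V), (0 : V) ∉ W → span (ZMod 2) (W : Set V) = ⊤ →
    finrank (ZMod 2) V = n → K4F (W : Set V) → ¬ HasK5 (W : Set V) → GQF (W : Set V) →
    tri W + 24 ≤ 6 * W.card

/-- T16: restriction to the span -/
def ClaimTRel : Prop := ∀ n : ℕ, TA3.{u} n → TR.{u} n

/-- interface with the module K4: sets without cocircuits of rank four have no `K4` -/
def K4a : Prop := ∀ (V : Type u) [AddCommGroup V] [Module (ZMod 2) V]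
  [FiniteDimensional (ZMod 2) V] (E : Set V), Good E → 6 ≤ finrank (ZMod 2) V → NoC4 E →
  K4F E

/-- interface with the module K4: contractions of vertically 5-connected sets without `K4` have
no `K4` -/
def K4b : Prop := ∀ (V : Type u) [AddCommGroup V] [Module (ZMod 2) V]
  [FiniteDimensional (ZMod 2) V] [DecidableEq V] (W : Type u) [AddCommGroup W]
  [Module (ZMod 2) W] [FiniteDimensional (ZMod 2) W] [DecidableEq W] (E : Finset V)
  (π : V →ₗ[ZMod 2] W) (e : V), Function.Surjective π → (∀ v, π v = 0 ↔ v = 0 ∨ v = e) →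
  e ∈ E → Good (E : Set V) → SepGe (E : Set V) 4 → K4F (E : Set V) →
  7 ≤ finrank (ZMod 2) V → K4F (contr π E : Set W)

/-- interface with the tables: the step from rank five to rank six -/
def T6step : Prop := ∀ (V : Type u) [AddCommGroup V] [Module (ZMod 2) V]
  [FiniteDimensional (ZMod 2) V] [DecidableEq V] (W : Type u) [AddCommGroup W]
  [Module (ZMod 2) W] [FiniteDimensional (ZMod 2) W] [DecidableEq W] (E : Finset V)
  (π : V →ₗ[ZMod 2] W) (e : V), Function.Surjective π → (∀ v, π v = 0 ↔ v = 0 ∨ v = e) →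
  e ∈ E → Good (E : Set V) → SepGe (E : Set V) 4 → K4F (E : Set V) → GQF (E : Set V) →
  finrank (ZMod 2) V = 6 → triL π E (contr π E) + 18 ≤ 6 * (contr π E).card

/-- T17: the induction step of the triangle inequality -/
def ClaimTStep : Prop := K4b.{u} → T6step.{u} → TabGQ → ∀ n : ℕ, 6 ≤ n →
  (∀ m, 5 ≤ m → m < n → TR.{u} m) → TA3.{u} n

/-- T18: the triangle inequality -/
def ClaimTAll : Prop := K4b.{u} → T6step.{u} → TabGQ → TR.{u} 5 → ∀ n : ℕ, 5 ≤ n → TR.{u} n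

/-! ### Sets without cocircuits of rank four -/

/-- I1: degrees are even; lines through an interior point of a side stay in the side -/
def ClaimDegRes : Prop := ∀ (V : Type u) [AddCommGroup V] [Module (ZMod 2) V]
  [DecidableEq V] (E : Finset V) (g : V), (0 : V) ∉ E → g ∈ E → Even (deg E g) ∧
  ∀ G H : Submodule (ZMod 2) V, (∀ x ∈ E, x ∈ G ∨ x ∈ H) → g ∉ H →
    deg (res E G) g = deg E g

/-- I2: a side which lies in two planes meeting in one point `b` -/
def ClaimTwoPlanes : Prop := ∀ (V : Type u) [AddCommGroup V] [Module (ZMod 2) V]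
  [FiniteDimensional (ZMod 2) V] [DecidableEq V] (E : Finset V) (Q Q' : Submodule (ZMod 2) V)
  (b g : V), (0 : V) ∉ E → K4F (E : Set V) → (∀ x ∈ E, x ∈ Q ∨ x ∈ Q') →
  finrank (ZMod 2) Q = 3 → finrank (ZMod 2) Q' = 3 → Q ⊓ Q' = span (ZMod 2) {b} →
  g ∈ E → g ≠ b → deg E g ≤ 4

/-- I3: counting in a side all of whose interior points have degree at least six -/
def ClaimCount : Prop := ∀ (V : Type u) [AddCommGroup V] [Module (ZMod 2) V]
  [FiniteDimensional (ZMod 2) V] [DecidableEq V] (W : Finset V) (Γ : Submodule (ZMod 2) V),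
  (0 : V) ∉ W → K4F (W : Set V) → finrank (ZMod 2) Γ = 3 → (∀ g ∈ W, g ∉ Γ → 6 ≤ deg W g) →
  tri W + 24 ≤ 6 * W.card →
  tri W + 24 = 6 * W.card ∧ (∃ x ∈ W, x ∈ Γ) ∧ ∀ x ∈ W, x ∈ Γ → deg W x = 0

/-- I4: the side of I3 does not exist -/
def ClaimSide : Prop := ∀ (V : Type u) [AddCommGroup V] [Module (ZMod 2) V]
  [FiniteDimensional (ZMod 2) V] [DecidableEq V] (W : Finset V) (Γ : Submodule (ZMod 2) V)
  (d : ℕ), TR.{u} d → (0 : V) ∉ W → K4F (W : Set V) → ¬ HasK5 (W : Set V) →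
  GQF (W : Set V) → finrank (ZMod 2) Γ = 3 →
  finrank (ZMod 2) ↥(span (ZMod 2) (W : Set V)) = d →
  finrank (ZMod 2) ↥(span (ZMod 2) ((W : Set V) \ (Γ : Set V))) = d →
  (∀ g ∈ W, g ∉ Γ → 6 ≤ deg W g) → False

/-- I5: a good set without cocircuits of rank four has a contractible element of degree at most
four -/
def ClaimCaseI : Prop := ∀ (V : Type u) [AddCommGroup V] [Module (ZMod 2) V]
  [FiniteDimensional (ZMod 2) V] [DecidableEq V] (E : Finset V), Good (E : Set V) →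
  6 ≤ finrank (ZMod 2) V → NoC4 (E : Set V) → K4F (E : Set V) → GQF (E : Set V) →
  (∀ n, 5 ≤ n → n ≤ finrank (ZMod 2) V → TR.{u} n) →
  ∃ e ∈ E, Ctr (E : Set V) e ∧ deg E e ≤ 4

/-- I6: the density bound for sets without cocircuits of rank four -/
def ClaimD3NoC4 : Prop := K4a.{u} → K4b.{u} → T6step.{u} → TabGQ → TR.{u} 5 →
  ∀ (V : Type u) [AddCommGroup V] [Module (ZMod 2) V] [FiniteDimensional (ZMod 2) V]
    [DecidableEq V] (E : Finset V) (n : ℕ), Good (E : Set V) → finrank (ZMod 2) V = n + 1 →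
    5 ≤ n → NoC4 (E : Set V) → D3.{u} n → E.card ≤ 3 * (n + 1)

end Pool.Agent.WW

end

section

/-!
The base cases in rank five.
-/

namespace Pool.Agent.WW

open Submodule Module

universe u

/-- the codes of a basis in rank five -/
theorem base_inj {V : Type u} [AddCommGroup V] [Module (ZMod 2) V] (b : Fin 5 → V)
    (hb : LinearIndependent (ZMod 2) b) {x y : ℕ} (hx : x < 32) (hy : y < 32)
    (h : comb b x = comb b y) : x = y := by
  have h1 : comb b (x ^^^ y) ∈ (⊥ : Submodule (ZMod 2) V) := by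
    rw [Submodule.mem_bot, comb_xor, h, add_self_z2]
  have h2 : x ^^^ y = 0 := by
    apply comb_mem_imp b ⊥ _ _ _ h1
    · intro c hc
      rw [Submodule.mem_bot] at hc
      funext i
      exact Fintype.linearIndependent_iff.1 hb c hc i
    · exact Nat.xor_lt_two_pow (n := 5) hx hy
  exact Nat.xor_eq_zero_iff.1 h2

theorem base_surj {V : Type u} [AddCommGroup V] [Module (ZMod 2) V]
    [FiniteDimensional (ZMod 2) V] (hV : finrank (ZMod 2) V = 5) (b : Fin 5 → V)
    (hb : LinearIndependent (ZMod 2) b) (v : V) : ∃ n < 32, comb b n = v := by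
  classical
  have : Finite V := Module.finite_of_finite (ZMod 2)
  have : Fintype V := Fintype.ofFinite V
  have hc : Fintype.card V = 32 := by
    rw [Module.card_eq_pow_finrank (K := ZMod 2), hV, ZMod.card]
    norm_num
  have hbij : Function.Bijective (fun n : Fin 32 => comb b n) := by
    rw [Fintype.bijective_iff_injective_and_card, Fintype.card_fin, hc]
    refine ⟨fun x y hxy => ?_, rfl⟩
    exact Fin.ext (base_inj b hb x.2 y.2 hxy)
  obtain ⟨n, hn⟩ := hbij.2 v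
  exact ⟨n, n.2, hn⟩

theorem base_list1 (p : ℕ → Bool) :
    ((List.range 32).filter p).length = ((Finset.range 32).filter (fun n => p n = true)).card := by
  rw [Finset.card_def, Finset.filter_val, Finset.range_val]
  unfold Multiset.range
  rw [Multiset.filter_coe, Multiset.coe_card]
  simp

theorem base_list2 (p : ℕ × ℕ → Bool) :
    ((List.range 32 ×ˢ List.range 32).filter p).length =
      ((Finset.range 32 ×ˢ Finset.range 32).filter (fun n => p n = true)).card := by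
  rw [Finset.card_def, Finset.filter_val, Finset.product_val, Finset.range_val]
  unfold Multiset.range
  rw [Multiset.coe_product, Multiset.filter_coe, Multiset.coe_card]
  simp

/-- the counts -/
theorem base_count {V : Type u} [AddCommGroup V] [Module (ZMod 2) V] [DecidableEq V]
    [FiniteDimensional (ZMod 2) V] (hV : finrank (ZMod 2) V = 5) (b : Fin 5 → V)
    (hb : LinearIndependent (ZMod 2) b) (E : Finset V) (M : ℕ)
    (hM : ∀ n < 32, M.testBit n = true ↔ comb b n ∈ (E : Set V)) :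
    popM M = E.card ∧ triM M = tri E := by
  constructor
  · unfold popM
    rw [base_list1]
    apply Finset.card_bij (fun n _ => comb b n)
    · intro n hn
      rw [Finset.mem_filter, Finset.mem_range] at hn
      exact (hM n hn.1).1 hn.2
    · intro x hx y hy hxy
      rw [Finset.mem_filter, Finset.mem_range] at hx hy
      exact base_inj b hb hx.1 hy.1 hxy
    · intro v hv
      obtain ⟨n, hn, rfl⟩ := base_surj hV b hb v
      exact ⟨n, Finset.mem_filter.2 ⟨Finset.mem_range.2 hn, (hM n hn).2 hv⟩, rfl⟩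
  · unfold triM tri
    rw [base_list2]
    have hx : ∀ x y : ℕ, x < 32 → y < 32 → x ^^^ y < 32 := fun x y hx hy =>
      Nat.xor_lt_two_pow (n := 5) hx hy
    apply Finset.card_bij (fun p _ => (comb b p.1, comb b p.2))
    · rintro ⟨x, y⟩ hp
      simp only [Finset.mem_filter, Finset.mem_product, Finset.mem_range, Bool.and_eq_true] at hp
      obtain ⟨⟨h1, h2⟩, ⟨h3, h4⟩, h5⟩ := hp
      rw [Finset.mem_filter, Finset.mem_product]
      refine ⟨⟨(hM x h1).1 h3, (hM y h2).1 h4⟩, ?_⟩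
      have := (hM _ (hx x y h1 h2)).1 h5
      rw [comb_xor] at this
      exact this
    · rintro ⟨x, y⟩ hp ⟨x', y'⟩ hp' hxy
      simp only [Finset.mem_filter, Finset.mem_product, Finset.mem_range, Bool.and_eq_true]
        at hp hp'
      have e1 := base_inj b hb hp.1.1 hp'.1.1 (Prod.mk.inj hxy).1
      have e2 := base_inj b hb hp.1.2 hp'.1.2 (Prod.mk.inj hxy).2
      rw [e1, e2]
    · rintro ⟨v, w⟩ hp
      rw [Finset.mem_filter, Finset.mem_product] at hp
      obtain ⟨x, hx1, rfl⟩ := base_surj hV b hb v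
      obtain ⟨y, hy1, rfl⟩ := base_surj hV b hb w
      refine ⟨(x, y), ?_, rfl⟩
      simp only [Finset.mem_filter, Finset.mem_product, Finset.mem_range, Bool.and_eq_true]
      refine ⟨⟨hx1, hy1⟩, ⟨(hM x hx1).2 hp.1.1, (hM y hy1).2 hp.1.2⟩, ?_⟩
      rw [hM _ (hx x y hx1 hy1), comb_xor]
      exact hp.2

theorem base_bool (a0 a1 a2 a3 a4 : Bool) :
    (if a0 = true then (1 : ZMod 2) else 0) + (if a1 = true then 1 else 0) +
      (if a2 = true then 1 else 0) + (if a3 = true then 1 else 0) + (if a4 = true then 1 else 0) =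
      if ((a0 ^^ a1) ^^ ((a2 ^^ a3) ^^ a4)) = true then 1 else 0 := by
  revert a0 a1 a2 a3 a4
  decide

/-- the functional with code `f` -/
theorem base_functional {V : Type u} [AddCommGroup V] [Module (ZMod 2) V]
    [FiniteDimensional (ZMod 2) V] (hV : finrank (ZMod 2) V = 5) (b : Fin 5 → V)
    (hb : LinearIndependent (ZMod 2) b) (f : ℕ) :
    ∃ φ : V →ₗ[ZMod 2] ZMod 2, ∀ v : ℕ, φ (comb b v) = if parC (f &&& v) then 1 else 0 := by
  have hcard : Fintype.card (Fin 5) = finrank (ZMod 2) V := by rw [Fintype.card_fin, hV]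
  let B := basisOfLinearIndependentOfCardEqFinrank hb hcard
  have hB : ∀ i, B i = b i := fun i => by
    simp [B]
  refine ⟨B.constr (ZMod 2) (fun i => if f.testBit i then (1 : ZMod 2) else 0), ?_⟩
  intro v
  have h1 : ∀ i : Fin 5, (B.constr (ZMod 2) (fun i => if f.testBit i then (1 : ZMod 2) else 0))
      (if v.testBit i then b i else 0) = if (f &&& v).testBit i then 1 else 0 := by
    intro i
    rw [Nat.testBit_land]
    cases hv : v.testBit i
    · simp
    · rw [if_pos rfl, ← hB i, Basis.constr_basis]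
      simp
  unfold comb
  rw [map_sum]
  simp only [h1]
  unfold parC
  rw [Fin.sum_univ_five]
  generalize f &&& v = w
  simp only [Fin.val_zero, Fin.val_one, Fin.val_two]
  have h3 : ((3 : Fin 5) : ℕ) = 3 := rfl
  have h4 : ((4 : Fin 5) : ℕ) = 4 := rfl
  rw [h3, h4]
  exact base_bool (w.testBit 0) (w.testBit 1) (w.testBit 2) (w.testBit 3) (w.testBit 4)

/-- a set with `NonVC` mask has a small separation -/
theorem base_nonvc {V : Type u} [AddCommGroup V] [Module (ZMod 2) V]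
    [FiniteDimensional (ZMod 2) V] (hV : finrank (ZMod 2) V = 5) (b : Fin 5 → V)
    (hb : LinearIndependent (ZMod 2) b) (E : Set V) (M : ℕ)
    (hM : ∀ n < 32, M.testBit n = true ↔ comb b n ∈ E) (h : NonVC M) : ¬ SepGe E 3 := by
  classical
  obtain ⟨f, c1, c2, c3, -, -, -, hcov, c, hc, hpc⟩ := h
  obtain ⟨φ, hφ⟩ := base_functional hV b hb f
  intro hS
  let S : Finset V := {comb b c1, comb b c2, comb b c3}
  have hSset : comb b '' {c | c ∈ [c1, c2, c3]} = (S : Set V) := by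
    ext v
    simp only [Set.mem_image, S, Finset.coe_insert, Finset.coe_singleton,
      Set.mem_insert_iff, Set.mem_singleton_iff]
    constructor
    · rintro ⟨d, hd, rfl⟩
      have hd' : d ∈ [c1, c2, c3] := hd
      simp only [List.mem_cons, List.not_mem_nil, or_false] at hd'
      rcases hd' with rfl | rfl | rfl <;> simp
    · rintro (rfl | rfl | rfl)
      · exact ⟨c1, by simp, rfl⟩
      · exact ⟨c2, by simp, rfl⟩
      · exact ⟨c3, by simp, rfl⟩
  have hB3 : finrank (ZMod 2) ↥(span (ZMod 2) (S : Set V)) ≤ 3 :=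
    (finrank_span_finset_le_card S).trans Finset.card_le_three
  have hcB : comb b c ∈ span (ZMod 2) (S : Set V) := by
    rw [← hSset]
    exact subset_span ⟨c, hc, rfl⟩
  have hcA : comb b c ∉ LinearMap.ker φ := by
    rw [LinearMap.mem_ker, hφ, hpc]
    simp
  have h1 := hS (LinearMap.ker φ) (span (ZMod 2) (S : Set V)) ?_ ?_ ?_
  · have h2 : LinearMap.ker φ ⊓ span (ZMod 2) (S : Set V) < span (ZMod 2) (S : Set V) := by
      refine lt_of_le_of_ne inf_le_right ?_
      intro h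
      exact hcA (inf_eq_right.1 h hcB)
    have h3 := Submodule.finrank_lt_finrank_of_lt h2
    omega
  · intro h
    exact hcA (h ▸ Submodule.mem_top)
  · intro h
    rw [h, finrank_top] at hB3
    omega
  · intro x hx
    obtain ⟨n, hn, rfl⟩ := base_surj hV b hb x
    rcases hcov n hn ((hM n hn).2 hx) with h | h
    · left
      rw [LinearMap.mem_ker, hφ, h]
      simp
    · right
      rw [← hSset]
      exact comb_spanList b _ n h

/-- H2. -/
theorem claimBase (h : ClaimR5.{u}) (hg : ClaimSepGe.{u}) : ClaimBase.{u} := by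
  rintro ⟨L, hL, hprop⟩
  have key : ∀ (V : Type u) [AddCommGroup V] [Module (ZMod 2) V] [FiniteDimensional (ZMod 2) V]
      [DecidableEq V] (E : Finset V), Good (E : Set V) → finrank (ZMod 2) V = 5 →
      E.card ≤ 15 ∧ tri E + 18 ≤ 8 * E.card := by
    intro V _ _ _ _ E hE hV
    obtain ⟨M, hML, b, hb, hM⟩ := h L hL V (E : Set V) hV hE.zero hE.span hE.free
    rcases (hprop M hML).1 with h1 | ⟨h1, h2⟩
    · exact absurd (hg V V E hE (by omega)).1 (base_nonvc hV b hb (E : Set V) M hM h1)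
    · obtain ⟨e1, e2⟩ := base_count hV b hb E M hM
      rw [e1] at h1 h2
      rw [e2] at h2
      exact ⟨h1, h2⟩
  refine ⟨?_, ?_⟩
  · intro V _ _ _ _ E hE hV
    exact (key V E hE hV).2
  · intro V _ _ _ _ E hE hV
    have := (key V E hE hV).1
    omega

end Pool.Agent.WW

end

section

/-!
# E9: the branch case
-/

namespace Pool.Agent.WW

open Submodule Module

universe u

theorem branch_zmod (c : ZMod 2) : c = 0 ∨ c = 1 := by
  revert c
  decide

theorem branch_eq {V : Type*} [AddCommGroup V] [Module (ZMod 2) V] {a b : V} (h : a + b = 0) :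
    a = b := by
  have h2 := link_char b
  rw [← h2] at h
  exact add_right_cancel h

/-- E9: the branch case -/
theorem claimBranch (hk : ClaimLkStar.{u}) (hs : ClaimLkSep.{u}) (hg : ClaimSepGe.{u})
    (hc : ClaimBranchCore.{u}) : ClaimBranch.{u} := by
  intro V _ _ _ _ W _ _ _ _ E π e Q L F F' F1 F1' hTab hGood h5 hsurj hker heE hF hF' hcov hKQ
    hK2 hF1F hF1F' hF1 hF1' hcov1 hQF1 hK1Q hK12 hKK hQ4 hL2 hLQ hLK hLK1 hfull
  have hsep : SepGe (E : Set V) 3 := (hg V W E hGood h5).1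
  set A0 := F.comap π with hA0
  set A0' := F'.comap π with hA0'
  set A1 := F1.comap π with hA1
  set A1' := F1'.comap π with hA1'
  set Qt := Q.comap π with hQt
  have hne : ∀ G : Submodule (ZMod 2) W, G ≠ ⊤ → G.comap π ≠ ⊤ := by
    intro G hG hc
    apply hG
    have := Submodule.map_comap_eq_of_surjective hsurj G
    rw [hc, Submodule.map_top, LinearMap.range_eq_top.2 hsurj] at this
    exact this.symm
  have hA1A0 : A1 ≤ A0 := Submodule.comap_mono hF1F
  have hA1A0' : A1' ≤ A0 := Submodule.comap_mono hF1F'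
  have hQA1 : Qt ≤ A1 := Submodule.comap_mono hQF1
  have hK0Q : A0 ⊓ A0' ≤ Qt := by
    rw [hA0, hA0', ← Submodule.comap_inf]
    exact Submodule.comap_mono hKQ
  have hK1Qt : A1 ⊓ A1' ≤ Qt := by
    rw [hA1, hA1', ← Submodule.comap_inf]
    exact Submodule.comap_mono hK1Q
  have hmem : ∀ x ∈ E, π x = 0 ∨ π x ∈ contr π E := by
    intro x hx
    by_cases h0 : π x = 0
    · exact Or.inl h0
    · exact Or.inr (Finset.mem_erase.2 ⟨h0, Finset.mem_image_of_mem π hx⟩)
  have hcovE : ∀ x ∈ (E : Set V), x ∈ A0 ∨ x ∈ A0' := by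
    intro x hx
    rcases hmem x hx with h0 | h1
    · left
      change π x ∈ F
      rw [h0]
      exact F.zero_mem
    · exact hcov _ h1
  have hLk1 : Lk ((E : Set V) ∩ (A0' : Set V)) (A0 ⊓ A0') A0' 3 :=
    hs V E A0 A0' 3 hGood.span hsep (hne F hF) (hne F' hF') hcovE
  -- the second separation
  have hmod : (A1 ⊔ A0') ⊓ A0 = A1 := by
    rw [sup_inf_assoc_of_le A0' hA1A0, inf_comm A0' A0]
    exact sup_eq_left.2 (hK0Q.trans hQA1)
  have hB1 : A1 ⊔ A0' ≠ ⊤ := by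
    intro h
    rw [h, top_inf_eq] at hmod
    exact hF1 (Submodule.comap_injective_of_surjective hsurj hmod.symm)
  have hinf1 : (A1 ⊔ A0') ⊓ A1' = A1 ⊓ A1' := by
    calc (A1 ⊔ A0') ⊓ A1' = (A1 ⊔ A0') ⊓ (A0 ⊓ A1') := by rw [inf_eq_right.2 hA1A0']
      _ = A1 ⊓ A1' := by rw [← inf_assoc, hmod]
  have hcovE1 : ∀ x ∈ (E : Set V), x ∈ A1 ⊔ A0' ∨ x ∈ A1' := by
    intro x hx
    rcases hmem x hx with h0 | h1
    · left
      refine mem_sup_left ?_
      change π x ∈ F1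
      rw [h0]
      exact F1.zero_mem
    · rcases hcov _ h1 with h2 | h2
      · rcases hcov1 _ h1 h2 with h3 | h3
        · exact Or.inl (mem_sup_left h3)
        · exact Or.inr h3
      · exact Or.inl (mem_sup_right h2)
  have hA1'top : A1' ≠ ⊤ := by
    intro h
    apply hne F hF
    rw [eq_top_iff, ← h]
    exact hA1A0'
  have hLk2 : Lk ((E : Set V) ∩ (A1' : Set V)) (A1 ⊓ A1') A1' 3 := by
    rw [← hinf1]
    exact hs V E (A1 ⊔ A0') A1' 3 hGood.span hsep hB1 hA1'top hcovE1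
  have hne1 : A0 ⊓ A0' ≠ A0' := by
    intro h
    apply hne F hF
    rw [eq_top_iff, ← hGood.span]
    refine span_le.2 fun x hx => ?_
    rcases hcovE x hx with h1 | h1
    · exact h1
    · exact (inf_eq_right.1 h) h1
  have hne2 : A1 ⊓ A1' ≠ A1' := by
    intro h
    apply hB1
    rw [eq_top_iff, ← hGood.span]
    refine span_le.2 fun x hx => ?_
    rcases hcovE1 x hx with h1 | h1
    · exact h1
    · exact mem_sup_left ((inf_eq_right.1 h) h1)
  obtain ⟨Ka, x, hSa⟩ := hk V _ _ _ 3 hLk1 hne1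
  obtain ⟨Kb, x', hSb⟩ := hk V _ _ _ 3 hLk2 hne2
  have hxE := hSa.mem
  have hxE' := hSb.mem
  -- independence
  have hkey : ∀ q ∈ Qt, ∀ α β : ZMod 2, ∀ k0 ∈ Ka, ∀ k1 ∈ Kb,
      q + α • x + β • x' + k0 + k1 = 0 → α = 0 ∧ β = 0 ∧ q = 0 := by
    intro q hq α β k0 hk0 k1 hk1 h
    have e1 : (α • x + k0) + (q + β • x' + k1) = 0 := by
      rw [← h]
      abel
    have e2 := branch_eq e1
    have hm1 : α • x + k0 ∈ A0' := A0'.add_mem (A0'.smul_mem _ hxE.2) (hSa.le hk0)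
    have hm2 : α • x + k0 ∈ A0 := by
      rw [e2]
      exact A0.add_mem (A0.add_mem (hA1A0 (hQA1 hq)) (A0.smul_mem _ (hA1A0' hxE'.2)))
        (hA1A0' (hSb.le hk1))
    have hα : α = 0 := by
      rcases branch_zmod α with rfl | rfl
      · rfl
      · exfalso
        apply hSa.out
        refine mem_sup.2 ⟨(1 : ZMod 2) • x + k0, ⟨hm2, hm1⟩, k0, hk0, ?_⟩
        rw [add_assoc, link_char, add_zero, one_smul]
    subst hα
    rw [zero_smul, zero_add] at hm1 hm2 e2
    have hk00 : k0 = 0 := by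
      have : k0 ∈ Ka ⊓ (A0 ⊓ A0') := ⟨hk0, hm2, hm1⟩
      rw [hSa.disj] at this
      exact (mem_bot _).1 this
    have e3 : q + (β • x' + k1) = 0 := by
      rw [← add_assoc, ← e2, hk00]
    have e4 := branch_eq e3
    have hn1 : β • x' + k1 ∈ A1' := A1'.add_mem (A1'.smul_mem _ hxE'.2) (hSb.le hk1)
    have hn2 : β • x' + k1 ∈ A1 := by
      rw [← e4]
      exact hQA1 hq
    have hβ : β = 0 := by
      rcases branch_zmod β with rfl | rfl
      · rfl
      · exfalso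
        apply hSb.out
        refine mem_sup.2 ⟨(1 : ZMod 2) • x' + k1, ⟨hn2, hn1⟩, k1, hk1, ?_⟩
        rw [add_assoc, link_char, add_zero, one_smul]
    subst hβ
    rw [zero_smul, zero_add] at hn1 hn2 e4
    have hk10 : k1 = 0 := by
      have : k1 ∈ Kb ⊓ (A1 ⊓ A1') := ⟨hk1, hn2, hn1⟩
      rw [hSb.disj] at this
      exact (mem_bot _).1 this
    exact ⟨rfl, rfl, by rw [e4, hk10]⟩
  -- the contraction set
  have hGen : Gen (E : Set V) (Ka ⊔ Kb) := by
    refine sup_le ?_ ?_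
    · refine hSa.gen.trans (span_mono ?_)
      rintro v ⟨⟨hv1, -⟩, hv2⟩
      exact ⟨hv1, mem_sup_left hv2⟩
    · refine hSb.gen.trans (span_mono ?_)
      rintro v ⟨⟨hv1, -⟩, hv2⟩
      exact ⟨hv1, mem_sup_right hv2⟩
  have hdis : (Ka ⊔ Kb) ⊓ Qt = ⊥ := by
    rw [eq_bot_iff]
    rintro v ⟨hv1, hv2⟩
    obtain ⟨k0, hk0, k1, hk1, rfl⟩ := mem_sup.1 hv1
    rw [mem_bot]
    refine (hkey _ hv2 0 0 k0 hk0 k1 hk1 ?_).2.2
    rw [zero_smul, zero_smul, add_zero, add_zero, add_assoc, link_char]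
  have hx1 : x ∉ Qt ⊔ (Ka ⊔ Kb) := by
    intro h
    obtain ⟨q, hq, k, hkm, hx⟩ := mem_sup.1 h
    obtain ⟨k0, hk0, k1, hk1, rfl⟩ := mem_sup.1 hkm
    have := (hkey q hq 1 0 k0 hk0 k1 hk1 (by
      have e : q + (1 : ZMod 2) • x + (0 : ZMod 2) • x' + k0 + k1 = (q + (k0 + k1)) + x := by
        rw [one_smul, zero_smul]
        abel
      rw [e, hx, link_char])).1
    exact one_ne_zero this
  have hx2 : x' ∉ Qt ⊔ (Ka ⊔ Kb) ⊔ span (ZMod 2) {x} := by
    intro h
    obtain ⟨y, hy, z, hz, hx⟩ := mem_sup.1 h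
    obtain ⟨q, hq, k, hkm, rfl⟩ := mem_sup.1 hy
    obtain ⟨k0, hk0, k1, hk1, rfl⟩ := mem_sup.1 hkm
    obtain ⟨c, rfl⟩ := mem_span_singleton.1 hz
    have := (hkey q hq c 1 k0 hk0 k1 hk1 (by
      have e : q + c • x + (1 : ZMod 2) • x' + k0 + k1 = (q + (k0 + k1) + c • x) + x' := by
        rw [one_smul]
        abel
      rw [e, hx, link_char])).2.1
    exact one_ne_zero this
  refine hGood.free (hc V W E π e Q L (F ⊓ F') (F1 ⊓ F1') (Ka ⊔ Kb) x x' hTab hGood.zero hsurj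
    hker heE hQ4 hL2 hK2 hK12 hLQ hKQ hK1Q hLK hLK1 (Ne.symm hKK) hfull hGen hdis
    ⟨x, hxE.1, by rw [link_char]; exact Submodule.zero_mem _⟩
    ⟨x', hxE'.1, by rw [link_char]; exact Submodule.zero_mem _⟩ hx1 hx2 ?_ ?_)
  · refine hSa.star.trans (Submodule.finrank_mono (span_mono ?_))
    rintro v ⟨hv1, w, hw1, hw2⟩
    exact ⟨hv1, w, hw1.1, mem_sup_left hw2⟩
  · refine hSb.star.trans (Submodule.finrank_mono (span_mono ?_))
    rintro v ⟨hv1, w, hw1, hw2⟩
    exact ⟨hv1, w, hw1.1, mem_sup_right hw2⟩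

end Pool.Agent.WW

end

section

/-! E2: the second branch at `Q`. -/

namespace Pool.Agent.WW

open Submodule Module

universe u

section chain

variable {W : Type u} [AddCommGroup W] [Module (ZMod 2) W]

/-- a subspace covered by two subspaces lies in one of them -/
theorem chain_cover (K A B : Submodule (ZMod 2) W) (h : ∀ x ∈ K, x ∈ A ∨ x ∈ B) :
    K ≤ A ∨ K ≤ B := by
  by_contra hcon
  push Not at hcon
  obtain ⟨x, hxK, hxA⟩ := Set.not_subset.1 hcon.1
  obtain ⟨y, hyK, hyB⟩ := Set.not_subset.1 hcon.2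
  have hxB := (h x hxK).resolve_left hxA
  have hyA := (h y hyK).resolve_right hyB
  rcases h (x + y) (K.add_mem hxK hyK) with h1 | h1
  · exact hxA ((A.add_mem_iff_left hyA).1 h1)
  · exact hyB ((B.add_mem_iff_right hxB).1 h1)

theorem chain_inv_self (S : Set W) (G : Submodule (ZMod 2) W) : Inv S G G :=
  ⟨le_rfl, fun A B h => ⟨A, B, h, inf_eq_left.2 h.1, inf_eq_left.2 h.2.1, rfl⟩⟩

theorem chain_full {S : Set W} {G Z : Submodule (ZMod 2) W} (h : Full S G) (hi : Inv S G Z) :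
    Full S Z := by
  intro A B hAB
  obtain ⟨A', B', h1, _, _, h4⟩ := hi.2 A B hAB
  have h5 := h A' B' h1
  rwa [h4] at h5

theorem claimChain (hInv : ClaimInv.{u}) : ClaimChain.{u} := by
  classical
  intro W _ _ _ S Q F F' hfull hsep hKQ hQF hQneF hZ hmin
  have invF : Inv S ⊤ F := (hInv W S ⊤ ⊤ F F' hfull (chain_inv_self S ⊤) hsep).1
  have fullF : Full S F := chain_full hfull invF
  -- a pair with second entry of maximal dimension
  have hP0 : ∃ n, ∃ F1 F1' : Submodule (ZMod 2) W, Sep S F F1 F1' ∧ Q ≤ F1 ∧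
      finrank (ZMod 2) F1' = n := by
    obtain ⟨A, B, h1, h2⟩ := hZ F hQF hQneF
    exact ⟨_, A, B, h1, h2, rfl⟩
  obtain ⟨n0, hn0⟩ := hP0
  have hb : ∀ n, (∃ F1 F1' : Submodule (ZMod 2) W, Sep S F F1 F1' ∧ Q ≤ F1 ∧
      finrank (ZMod 2) F1' = n) → n ≤ finrank (ZMod 2) W := by
    rintro n ⟨F1, F1', _, _, rfl⟩
    exact Submodule.finrank_le _
  obtain ⟨F1, F1', hs1, hQ1, hn⟩ := Nat.findGreatest_spec
    (P := fun n => ∃ F1 F1' : Submodule (ZMod 2) W, Sep S F F1 F1' ∧ Q ≤ F1 ∧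
      finrank (ZMod 2) F1' = n) (hb n0 hn0) hn0
  have hmax : ∀ G G' : Submodule (ZMod 2) W, Sep S F G G' → Q ≤ G →
      finrank (ZMod 2) G' ≤ finrank (ZMod 2) F1' := by
    intro G G' h1 h2
    rw [hn]
    exact Nat.le_findGreatest (hb _ ⟨G, G', h1, h2, rfl⟩) ⟨G, G', h1, h2, rfl⟩
  obtain ⟨h2K, hKS⟩ := fullF F1 F1' hs1
  have hF1F : F1 ≤ F := hs1.1
  have hF1'F : F1' ≤ F := hs1.2.1
  have hF1ne : F1 ≠ F := hs1.2.2.1
  have hF1'ne : F1' ≠ F := hs1.2.2.2.1
  obtain ⟨invF1, _, hsup1⟩ := hInv W S ⊤ F F1 F1' hfull invF hs1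
  have fullF1 : Full S F1 := chain_full hfull invF1
  refine ⟨F1, F1', hs1, hQ1, ?_, ?_, h2K, hKS⟩
  · -- (1)
    have hQ0 : ∃ n, ∃ Z : Submodule (ZMod 2) W, Q ≤ Z ∧ F1 ⊓ F1' ≤ Z ∧ Inv S F1 Z ∧
        finrank (ZMod 2) Z = n := ⟨_, F1, hQ1, inf_le_left, chain_inv_self S F1, rfl⟩
    obtain ⟨Z, hQZ, hKZ, hIZ, hnZ⟩ := Nat.find_spec hQ0
    have hminZ : ∀ Y : Submodule (ZMod 2) W, Q ≤ Y → F1 ⊓ F1' ≤ Y → Inv S F1 Y →
        finrank (ZMod 2) Z ≤ finrank (ZMod 2) Y := by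
      intro Y h1 h2 h3
      rw [hnZ]
      exact Nat.find_min' hQ0 ⟨Y, h1, h2, h3, rfl⟩
    by_cases hQZ' : Q = Z
    · rw [hQZ']; exact hKZ
    exfalso
    obtain ⟨A, B, hAB, hQA⟩ := hZ Z hQZ hQZ'
    obtain ⟨A', B', hA'B', hA', hB', hiAB⟩ := hIZ.2 A B hAB
    obtain ⟨_, _, hsup⟩ := hInv W S F1 F1 A' B' fullF1 (chain_inv_self S F1) hA'B'
    obtain ⟨hd2, _⟩ := fullF1 A' B' hA'B'
    have hAA' : A ≤ A' := by rw [← hA']; exact inf_le_left
    have hA'F1 : A' ≤ F1 := hA'B'.1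
    have hB'F1 : B' ≤ F1 := hA'B'.2.1
    rcases chain_cover (F1 ⊓ F1') A' B' (fun x hx => by
      by_cases hx0 : x = 0
      · left; rw [hx0]; exact zero_mem _
      · exact hA'B'.2.2.2.2.1 x (hKS x hx hx0) hx.1) with hK | hK
    · have hKA : F1 ⊓ F1' ≤ A := by rw [← hA']; exact le_inf hK hKZ
      have h1 := hminZ A hQA hKA (hInv W S F1 Z A B fullF1 hIZ hAB).1
      have h2 := Submodule.finrank_lt_finrank_of_lt (lt_of_le_of_ne hAB.1 hAB.2.2.1)
      omega
    · have hmod : (B' ⊔ F1') ⊓ F1 = B' := by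
        rw [sup_inf_assoc_of_le _ hB'F1, inf_comm F1' F1]
        exact sup_eq_left.2 hK
      have hinf : A' ⊓ (B' ⊔ F1') = A' ⊓ B' := by
        apply le_antisymm
        · refine le_inf inf_le_left ?_
          conv_rhs => rw [← hmod]
          exact le_inf inf_le_right (inf_le_left.trans hA'F1)
        · exact le_inf inf_le_left (inf_le_right.trans le_sup_left)
      have hnew : Sep S F A' (B' ⊔ F1') := by
        refine ⟨hA'F1.trans hF1F, sup_le (hB'F1.trans hF1F) hF1'F, ?_, ?_, ?_, ?_⟩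
        · intro h
          exact hF1ne (le_antisymm hF1F (h ▸ hA'F1))
        · intro h
          rw [h, inf_eq_right.2 hF1F] at hmod
          exact hA'B'.2.2.2.1 hmod.symm
        · intro x hx hxF
          rcases hs1.2.2.2.2.1 x hx hxF with h | h
          · rcases hA'B'.2.2.2.2.1 x hx h with h | h
            · exact Or.inl h
            · exact Or.inr (mem_sup_left h)
          · exact Or.inr (mem_sup_right h)
        · rw [hinf]; exact hA'B'.2.2.2.2.2
      have h1 := hmax A' (B' ⊔ F1') hnew (hQA.trans hAA')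
      have h2 : F1' = B' ⊔ F1' := Submodule.eq_of_le_of_finrank_le le_sup_right h1
      have h3 : B' ≤ F1' := by rw [h2]; exact le_sup_left
      have h4 : B' ≤ F1 ⊓ F1' := le_inf hB'F1 h3
      have h5 := Submodule.finrank_mono h4
      have h6 : A' ⊓ B' = B' := Submodule.eq_of_le_of_finrank_le inf_le_right (by omega)
      have h7 : B' ≤ A' := inf_eq_right.1 h6
      apply hA'B'.2.2.1
      rw [← hsup]
      exact (sup_eq_left.2 h7).symm
  · -- (2)
    intro hK
    have hmod : (F1' ⊔ F') ⊓ F = F1' := by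
      rw [sup_inf_assoc_of_le _ hF1'F, inf_comm F' F, ← hK]
      exact sup_eq_left.2 inf_le_right
    have hinf : F1 ⊓ (F1' ⊔ F') = F1 ⊓ F1' := by
      apply le_antisymm
      · refine le_inf inf_le_left ?_
        conv_rhs => rw [← hmod]
        exact le_inf inf_le_right (inf_le_left.trans hF1F)
      · exact le_inf inf_le_left (inf_le_right.trans le_sup_left)
    have hnew : Sep S ⊤ F1 (F1' ⊔ F') := by
      refine ⟨le_top, le_top, ?_, ?_, ?_, ?_⟩
      · intro h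
        exact hF1ne (le_antisymm hF1F (h ▸ le_top))
      · intro h
        rw [h, top_inf_eq] at hmod
        exact hF1'ne hmod.symm
      · intro x hx _
        rcases hsep.2.2.2.2.1 x hx trivial with h | h
        · rcases hs1.2.2.2.2.1 x hx h with h | h
          · exact Or.inl h
          · exact Or.inr (mem_sup_left h)
        · exact Or.inr (mem_sup_right h)
      · rw [hinf]; exact hs1.2.2.2.2.2
    have h1 := hmin F1 (F1' ⊔ F') hnew (hinf.trans hK) hQ1
    have h2 := Submodule.finrank_lt_finrank_of_lt (lt_of_le_of_ne hF1F hF1ne)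
    omega

end chain

end Pool.Agent.WW

end

section

/-!
Colouring a set from the density bound and colourings of proper flats.
-/

namespace Pool.Agent.WW

open Submodule Module

universe u

/-- C3. -/
theorem claimColGood (h : ClaimExt.{u}) : ClaimColGood.{u} := by
  classical
  intro V _ _ _ E h0 hpos hcard hX
  have hfV : Finite V := Module.finite_of_finite (ZMod 2)
  obtain ⟨X, hmax⟩ := Finite.exists_max (fun X : Submodule (ZMod 2) V =>
    ((E.filter (fun v => v ∈ X)).card : ℤ) - 4 * (finrank (ZMod 2) X : ℤ))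
  have hXt : X ≠ ⊤ := by
    rintro rfl
    have h1 := hmax ⊥
    have h2 : E.filter (fun v => v ∈ (⊥ : Submodule (ZMod 2) V)) = ∅ := by
      rw [Finset.filter_eq_empty_iff]
      intro v hv hv'
      rw [Submodule.mem_bot] at hv'
      exact h0 (hv' ▸ hv)
    have h3 : E.filter (fun v => v ∈ (⊤ : Submodule (ZMod 2) V)) = E := by
      rw [Finset.filter_eq_self]
      intro v _
      trivial
    rw [h2, h3, finrank_bot, finrank_top] at h1
    simp only [Finset.card_empty] at h1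
    omega
  obtain ⟨f, hf⟩ := hX X hXt
  obtain ⟨g, hg1, hg2⟩ := h V 4 E X f (by
    intro A hA hAX
    have h1 := hmax (X ⊔ span (ZMod 2) (A : Set V))
    have h2 : A.card + (E.filter (fun v => v ∈ X)).card ≤
        (E.filter (fun v => v ∈ X ⊔ span (ZMod 2) (A : Set V))).card := by
      rw [← Finset.card_union_of_disjoint]
      · apply Finset.card_le_card
        intro v hv
        rcases Finset.mem_union.1 hv with hv | hv
        · exact Finset.mem_filter.2 ⟨hA hv, mem_sup_right (subset_span hv)⟩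
        · exact Finset.mem_filter.2 ⟨(Finset.mem_filter.1 hv).1,
            mem_sup_left (Finset.mem_filter.1 hv).2⟩
      · rw [Finset.disjoint_left]
        intro v hv hv'
        exact hAX v hv (Finset.mem_filter.1 hv').2
    omega)
  refine ⟨g, fun v hv => ?_⟩
  by_cases hvX : v ∈ X
  · rw [hg1 v hvX]
    exact hf v hv hvX
  · exact hg2 v hv hvX

end Pool.Agent.WW

end
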