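import Pool.Agent.Work.MP_a8f287_co.Bd.B02
import Pool.Agent.Work.MP_a8f287_co.Bd.B01
import Pool.Agent.Work.MP_a8f287_co.Bd.T08

/-! Bundle of small proof modules (one section per former module). -/

section

/-!
# Item G1: Mantel
-/

namespace Pool.Agent.WW

universe u

/-- G1: Mantel -/
theorem claimMantel : ClaimMantel.{u} := by
  intro α _ D adj _ hs hirr htri
  have hm1 : ((D ×ˢ D).filter (fun p => adj p.1 p.2)).card
      = ∑ x ∈ D, (D.filter (adj x)).card := by
    rw [Finset.card_filter, Finset.sum_product]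
    refine Finset.sum_congr rfl fun x _ => ?_
    rw [Finset.card_filter]
  have h1 : ∀ x ∈ D, ∀ y ∈ D, adj x y →
      (D.filter (adj x)).card + (D.filter (adj y)).card ≤ D.card := by
    intro x hx y hy hxy
    rw [← Finset.card_union_of_disjoint]
    · exact Finset.card_le_card
        (Finset.union_subset (Finset.filter_subset _ _) (Finset.filter_subset _ _))
    · rw [Finset.disjoint_left]
      intro z hz1 hz2
      rw [Finset.mem_filter] at hz1 hz2
      exact htri x hx y hy z hz1.1 hxy hz2.2 hz1.2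
  have h2 : ∑ x ∈ D, ∑ y ∈ D.filter (adj x),
      ((D.filter (adj x)).card + (D.filter (adj y)).card)
      ≤ (∑ x ∈ D, (D.filter (adj x)).card) * D.card := by
    rw [Finset.sum_mul]
    refine Finset.sum_le_sum fun x hx => ?_
    calc ∑ y ∈ D.filter (adj x), ((D.filter (adj x)).card + (D.filter (adj y)).card)
        ≤ ∑ y ∈ D.filter (adj x), D.card := by
          refine Finset.sum_le_sum fun y hy => ?_
          rw [Finset.mem_filter] at hy
          exact h1 x hx y hy.1 hy.2
      _ = (D.filter (adj x)).card * D.card := by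
          rw [Finset.sum_const, smul_eq_mul]
  have h3 : ∑ x ∈ D, ∑ y ∈ D.filter (adj x),
      ((D.filter (adj x)).card + (D.filter (adj y)).card)
      = 2 * ∑ x ∈ D, (D.filter (adj x)).card ^ 2 := by
    have e1 : ∑ x ∈ D, ∑ y ∈ D.filter (adj x), (D.filter (adj x)).card
        = ∑ x ∈ D, (D.filter (adj x)).card ^ 2 := by
      refine Finset.sum_congr rfl fun x _ => ?_
      rw [Finset.sum_const, smul_eq_mul, sq]
    have e2 : ∑ x ∈ D, ∑ y ∈ D.filter (adj x), (D.filter (adj y)).card
        = ∑ x ∈ D, ∑ y ∈ D.filter (adj x), (D.filter (adj x)).card := by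
      refine Finset.sum_comm' fun x y => ?_
      rw [Finset.mem_filter, Finset.mem_filter]
      constructor
      · rintro ⟨hx, hy, h⟩
        exact ⟨⟨hx, hs _ _ h⟩, hy⟩
      · rintro ⟨⟨hx, h⟩, hy⟩
        exact ⟨hx, hy, hs _ _ h⟩
    simp only [Finset.sum_add_distrib]
    rw [e2, e1]
    ring
  have h4 : (∑ x ∈ D, (D.filter (adj x)).card) ^ 2
      ≤ D.card * ∑ x ∈ D, (D.filter (adj x)).card ^ 2 := sq_sum_le_card_mul_sum_sq
  rw [hm1]
  rw [h3] at h2
  generalize ∑ x ∈ D, (D.filter (adj x)).card = m at h2 h4 ⊢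
  generalize ∑ x ∈ D, (D.filter (adj x)).card ^ 2 = q at h2 h4
  generalize D.card = d at h2 h4 ⊢
  rcases Nat.eq_zero_or_pos m with rfl | hm
  · simp
  · refine Nat.le_of_mul_le_mul_left (c := m) ?_ hm
    calc m * (2 * m) = 2 * m ^ 2 := by ring
      _ ≤ 2 * (d * q) := Nat.mul_le_mul_left 2 h4
      _ = d * (2 * q) := by ring
      _ ≤ d * (m * d) := Nat.mul_le_mul_left d h2
      _ = m * (d * d) := by ring

end Pool.Agent.WW

end

section

/-! D1: an element of minimal degree sees no bad triad. -/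

namespace Pool.Agent.WW

open Submodule Module

universe u

theorem claimNoTriad : ClaimNoTriad.{u} := by
  classical
  intro V _ _ _ _ W _ _ _ _ E π e F F' x p q hG h5 hπ hker he hmin hF hF' hcov hK2 hF3 hxF' hxF
    hp hq hp0 hq0 hpq htri
  have he0 : e ≠ 0 := fun h => hG.zero (by rw [← h]; exact he)
  have hmc : ∀ a ∈ E, π a ≠ 0 → π a ∈ contr π E := fun a ha h =>
    Finset.mem_erase.2 ⟨h, Finset.mem_image_of_mem π ha⟩
  have h1 : ∀ a ∈ E, π a ∉ F → π a ∈ F' ∧ (π a = x ∨ π a = x + p ∨ π a = x + q) := by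
    intro a ha haF
    have h0 : π a ≠ 0 := fun h => haF (by rw [h]; exact zero_mem _)
    have hm := hmc a ha h0
    have hF'a := (hcov _ hm).resolve_left haF
    exact ⟨hF'a, htri _ hm hF'a⟩
  have h2 : ∀ a ∈ E, π a ∈ F → π a ∈ F' → a = e := by
    intro a ha h h'
    by_contra hae
    have h0 : π a ≠ 0 := fun h0 => by
      rcases (hker a).1 h0 with h | h
      · exact hG.zero (by rw [← h]; exact ha)
      · exact hae h
    rcases htri _ (hmc a ha h0) h' with h3 | h3 | h3
    · exact hxF (h3 ▸ h)
    · rw [h3] at h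
      exact hxF ((F.add_mem_iff_left hp.1).1 h)
    · rw [h3] at h
      exact hxF ((F.add_mem_iff_left hq.1).1 h)
  have hyx : ∀ y : W, (y = x ∨ y = x + p ∨ y = x + q) → y + x ∈ F := by
    rintro y (rfl | rfl | rfl)
    · rw [link_char]; exact zero_mem _
    · have : x + p + x = p := by
        rw [add_comm x p, add_assoc, link_char, add_zero]
      rw [this]; exact hp.1
    · have : x + q + x = q := by
        rw [add_comm x q, add_assoc, link_char, add_zero]
      rw [this]; exact hq.1
  have hsum : ∀ y z : W, (y = x ∨ y = x + p ∨ y = x + q) → (z = x ∨ z = x + p ∨ z = x + q) →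
      y + z ∈ F := by
    intro y z hy hz
    have : y + z = (y + x) + (z + x) := by
      have h := link_char x
      calc y + z = y + z + (x + x) := by rw [h, add_zero]
        _ = (y + x) + (z + x) := by abel
    rw [this]
    exact add_mem (hyx y hy) (hyx z hz)
  have h3 : ∀ a ∈ E, π a ∉ F → ∀ b ∈ E, a + b ∈ E → b = e ∨ a + b = e := by
    intro a ha haF b hb hab
    obtain ⟨haF', haT⟩ := h1 a ha haF
    by_cases hbF : π b ∈ F
    · left
      have habF : π (a + b) ∉ F := by
        rw [map_add]
        intro h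
        exact haF ((F.add_mem_iff_left hbF).1 h)
      obtain ⟨habF', _⟩ := h1 (a + b) hab habF
      rw [map_add] at habF'
      exact h2 b hb hbF ((F'.add_mem_iff_right haF').1 habF')
    · right
      obtain ⟨hbF', hbT⟩ := h1 b hb hbF
      have habF : π (a + b) ∈ F := by
        rw [map_add]; exact hsum _ _ haT hbT
      exact h2 (a + b) hab habF (by rw [map_add]; exact add_mem haF' hbF')
  -- the degree of elements outside F
  have hnb : ∀ a ∈ E, π a ∉ F → ∀ b ∈ E, b + a ∈ E → b = e ∨ b = a + e := by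
    intro a ha haF b hb hab
    rw [add_comm] at hab
    rcases h3 a ha haF b hb hab with h | h
    · exact Or.inl h
    · right
      rw [← h, ← add_assoc, link_char, zero_add]
  have hdeg : ∀ a ∈ E, π a ∉ F → deg E a ≤ 2 := by
    intro a ha haF
    refine (Finset.card_le_card (t := {e, a + e}) ?_).trans Finset.card_le_two
    intro b hb
    rw [Finset.mem_filter] at hb
    rw [Finset.mem_insert, Finset.mem_singleton]
    exact hnb a ha haF b hb.1 hb.2
  have hdeg0 : ∀ a ∈ E, π a ∉ F → a + e ∉ E → deg E a = 0 := by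
    intro a ha haF hae
    unfold deg
    rw [Finset.card_eq_zero, Finset.filter_eq_empty_iff]
    intro b hb hab
    rcases hnb a ha haF b hb hab with h | h
    · rw [h, add_comm] at hab
      exact hae hab
    · rw [h] at hb
      exact hae hb
  -- the set outside F
  set D : Finset V := E.filter (fun a => π a ∉ F) with hD
  have hDc : ((D : Finset V) : Set V) = (E : Set V) \ ((F.comap π : Submodule (ZMod 2) V) : Set V) := by
    ext a
    simp [hD]
  have hex1 : ∃ a ∈ (E : Set V), a ∉ F.comap π := by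
    by_contra hcon
    push Not at hcon
    apply hF
    have h6 : F.comap π = ⊤ := by
      rw [eq_top_iff, ← hG.span]; exact span_le.2 hcon
    rw [eq_top_iff]
    intro w _
    obtain ⟨v, rfl⟩ := hπ w
    have : v ∈ F.comap π := by rw [h6]; trivial
    exact this
  have hDle : span (ZMod 2) ((E : Set V) \ ((F.comap π : Submodule (ZMod 2) V) : Set V))
      ≤ F'.comap π := by
    refine span_le.2 ?_
    rintro a ⟨ha, haF⟩
    exact (h1 a ha haF).1
  have hex2 : ∃ b ∈ (E : Set V), b ∈ F.comap π ∧
      b ∉ span (ZMod 2) ((E : Set V) \ ((F.comap π : Submodule (ZMod 2) V) : Set V)) := by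
    by_contra hcon
    push Not at hcon
    apply hF'
    have h6 : F'.comap π = ⊤ := by
      rw [eq_top_iff, ← hG.span]
      refine span_le.2 ?_
      intro b hb
      by_cases hbF : b ∈ F.comap π
      · exact hDle (hcon b hb hbF)
      · exact (h1 b hb hbF).1
    rw [eq_top_iff]
    intro w _
    obtain ⟨v, rfl⟩ := hπ w
    have : v ∈ F'.comap π := by rw [h6]; trivial
    exact this
  have h7 := hG.vc (F.comap π) hex1 hex2
  obtain ⟨a0, ha0, ha0F⟩ := hex1
  have h8 : finrank (ZMod 2) ↥(span (ZMod 2) ((E : Set V) \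
      ((F.comap π : Submodule (ZMod 2) V) : Set V)) ⊓ F.comap π) <
      finrank (ZMod 2) ↥(span (ZMod 2) ((E : Set V) \
      ((F.comap π : Submodule (ZMod 2) V) : Set V))) := by
    apply Submodule.finrank_lt_finrank_of_lt
    refine lt_of_le_of_ne inf_le_left ?_
    intro h
    have h9 : a0 ∈ span (ZMod 2) ((E : Set V) \ ((F.comap π : Submodule (ZMod 2) V) : Set V)) :=
      subset_span ⟨ha0, ha0F⟩
    rw [← h] at h9
    exact ha0F h9.2
  have h9 : 4 ≤ D.card := by
    have h10 : finrank (ZMod 2) ↥(span (ZMod 2) (D : Set V)) ≤ D.card :=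
      finrank_span_finset_le_card D
    rw [hDc] at h10
    omega
  by_cases hall : ∀ a ∈ D, a + e ∈ E
  · -- all doubled
    have h10 : D.card ≤ deg E e := by
      refine Finset.card_le_card ?_
      intro a ha
      rw [Finset.mem_filter]
      exact ⟨(Finset.mem_filter.1 ha).1, hall a ha⟩
    have h11 := hmin a0 ha0
    have h12 := hdeg a0 ha0 ha0F
    omega
  · push Not at hall
    obtain ⟨a, ha, hae⟩ := hall
    have haD := Finset.mem_filter.1 ha
    have h10 := hdeg0 a haD.1 haD.2 hae
    have h11 := hmin a haD.1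
    have h12 : deg E e = 0 := by omega
    have h13 : ({x, x + p, x + q} : Finset W).card < D.card :=
      lt_of_le_of_lt Finset.card_le_three (by omega)
    obtain ⟨b, hb, c, hc, hbc, hpi⟩ := Finset.exists_ne_map_eq_of_card_lt_of_maps_to (f := π) h13
      (fun a ha => by
        have ha := Finset.mem_filter.1 ha
        have := (h1 a ha.1 ha.2).2
        simpa using this)
    have h14 : π (b + c) = 0 := by rw [map_add, hpi, link_char]
    have h15 : b + c = e := by
      rcases (hker _).1 h14 with h | h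
      · exfalso
        apply hbc
        calc b = b + (c + c) := by rw [link_char, add_zero]
          _ = c := by rw [← add_assoc, h, zero_add]
      · exact h
    have h16 : b + e = c := by rw [← h15, ← add_assoc, link_char, zero_add]
    unfold deg at h12
    rw [Finset.card_eq_zero, Finset.filter_eq_empty_iff] at h12
    exact h12 (Finset.mem_filter.1 hb).1 (by rw [h16]; exact (Finset.mem_filter.1 hc).1)

end Pool.Agent.WW

end

section

/-!
# Item D4: the density bound for a piece
-/

namespace Pool.Agent.WW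

open Submodule Module

universe u

/-- D4: the density bound for a piece -/
theorem claimPiece (hSub : ClaimSub.{u}) : ClaimPiece.{u} := by
  classical
  intro W _ _ _ S Z n h0 hfree hZ hsep hn hD
  have hg := hSub W (S : Set W) Z h0 hfree hZ hsep
  have hfin : Finite Z := Module.finite_of_finite (ZMod 2)
  have : Fintype Z := Fintype.ofFinite Z
  let E : Finset Z := Finset.univ.filter (fun x : Z => (x : W) ∈ S)
  have hE : (E : Set Z) = (fun x : Z => (x : W)) ⁻¹' (S : Set W) := by
    ext x
    simp [E]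
  have h1 := hD Z E (by rw [hE]; exact hg) hn
  have h2 : ((S : Set W) ∩ (Z : Set W)) = (fun x : Z => (x : W)) '' (E : Set Z) := by
    rw [hE]
    ext x
    constructor
    · rintro ⟨hx, hxZ⟩
      exact ⟨⟨x, hxZ⟩, hx, rfl⟩
    · rintro ⟨y, hy, rfl⟩
      exact ⟨hy, y.2⟩
  rw [h2, Set.ncard_image_of_injective _ Subtype.val_injective, Set.ncard_coe_finset]
  exact h1

end Pool.Agent.WW

end

section

/-!
G3: a minimal counterexample to `QQ` is vertically 4-connected.
-/

namespace Pool.Agent.WW

open Submodule Module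

universe u

section QQMin

variable {W : Type u} [AddCommGroup W] [Module (ZMod 2) W] [DecidableEq W]

open Classical in
/-- `triL` for an arbitrary relation. -/
noncomputable def qqm_t (L : W → W → Prop) (X : Finset W) : ℕ :=
  ((X ×ˢ X).filter (fun p => p.1 + p.2 ∈ X ∧ L p.1 p.2)).card

/-- Some line of `X` is not lifted. -/
def qqm_U (L : W → W → Prop) (X : Finset W) : Prop :=
  ∃ x ∈ X, ∃ y ∈ X, x + y ∈ X ∧ ¬ L x y

theorem qqm_add_add (x y : W) : x + (x + y) = y := by
  rw [← add_assoc, split_add_self, zero_add]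

theorem qqm_add_add' (x y : W) : x + y + y = x := by
  rw [add_assoc, split_add_self, add_zero]

theorem qqm_t_le_tri (L : W → W → Prop) (X : Finset W) : qqm_t L X ≤ tri X := by
  classical
  unfold qqm_t tri
  apply Finset.card_le_card
  intro p hp
  rw [Finset.mem_filter] at hp ⊢
  exact ⟨hp.1, hp.2.1⟩

theorem qqm_six {L : W → W → Prop} (hs : ∀ x y, L x y → L y x) (ht : ∀ x y, L x y → L x (x + y))
    {X : Finset W} (h0 : (0 : W) ∉ X) (hU : qqm_U L X) : qqm_t L X + 6 ≤ tri X := by
  classical
  obtain ⟨x, hx, y, hy, hxy, hL⟩ := hU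
  have hx0 : x ≠ 0 := fun h => h0 (h ▸ hx)
  have hy0 : y ≠ 0 := fun h => h0 (h ▸ hy)
  have hz0 : x + y ≠ 0 := fun h => h0 (h ▸ hxy)
  have hne : x ≠ y := fun h => hz0 (by rw [h, split_add_self])
  have hxz : x ≠ x + y := fun h => hy0 (by simpa using h)
  have hyz : y ≠ x + y := fun h => hx0 (by simpa using h)
  set T : Finset W := {x, y, x + y} with hT
  have hTc : T.card = 3 := by
    rw [hT, Finset.card_insert_of_notMem (by simp [hne, hxz]),
      Finset.card_insert_of_notMem (by simpa using hyz), Finset.card_singleton]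
  have hoff : T.offDiag.card = 6 := by
    rw [Finset.offDiag_card, hTc]
  have e1 : y + x = x + y := add_comm y x
  have e2 : x + (x + y) = y := qqm_add_add x y
  have e3 : x + y + x = y := by rw [add_comm (x + y) x, e2]
  have e4 : y + (x + y) = x := by rw [add_comm x y, qqm_add_add]
  have e5 : x + y + y = x := qqm_add_add' x y
  have key : ∀ p ∈ T.offDiag, p.1 + p.2 ∈ X ∧ ¬ L p.1 p.2 ∧ p.1 ∈ X ∧ p.2 ∈ X := by
    rintro ⟨p, q⟩ hp
    rw [Finset.mem_offDiag] at hp
    obtain ⟨hp, hq, hpq⟩ := hp
    simp only [hT, Finset.mem_insert, Finset.mem_singleton] at hp hq hpq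
    have nyx : ¬ L y x := fun h => hL (hs _ _ h)
    have nxz : ¬ L x (x + y) := fun h => hL (by have := ht _ _ h; rwa [e2] at this)
    have nzx : ¬ L (x + y) x := fun h => nxz (hs _ _ h)
    have nyz : ¬ L y (x + y) := fun h => nyx (by have := ht _ _ h; rwa [e4] at this)
    have nzy : ¬ L (x + y) y := fun h => nyz (hs _ _ h)
    rcases hp with rfl | rfl | rfl <;> rcases hq with rfl | rfl | rfl
    · exact absurd rfl hpq
    · exact ⟨hxy, hL, hx, hy⟩
    · exact ⟨by rw [e2]; exact hy, nxz, hx, hxy⟩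
    · exact ⟨by rw [e1]; exact hxy, nyx, hy, hx⟩
    · exact absurd rfl hpq
    · exact ⟨by rw [e4]; exact hx, nyz, hy, hxy⟩
    · exact ⟨by rw [e3]; exact hy, nzx, hxy, hx⟩
    · exact ⟨by rw [e5]; exact hx, nzy, hxy, hy⟩
    · exact absurd rfl hpq
  have hdis : Disjoint ((X ×ˢ X).filter (fun p => p.1 + p.2 ∈ X ∧ L p.1 p.2)) T.offDiag := by
    rw [Finset.disjoint_left]
    intro p hp hp2
    exact (key p hp2).2.1 (Finset.mem_filter.mp hp).2.2
  have hsub : (X ×ˢ X).filter (fun p => p.1 + p.2 ∈ X ∧ L p.1 p.2) ∪ T.offDiag ⊆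
      (X ×ˢ X).filter (fun p => p.1 + p.2 ∈ X) := by
    intro p hp
    rcases Finset.mem_union.mp hp with h | h
    · rw [Finset.mem_filter] at h ⊢
      exact ⟨h.1, h.2.1⟩
    · obtain ⟨h1, -, h2, h3⟩ := key p h
      rw [Finset.mem_filter, Finset.mem_product]
      exact ⟨⟨h2, h3⟩, h1⟩
  have h := Finset.card_le_card hsub
  rw [Finset.card_union_of_disjoint hdis, hoff] at h
  unfold qqm_t tri
  convert! h using 3

theorem qqm_even {L : W → W → Prop} (x : W) (hx0 : x ≠ 0) (X : Finset W)
    (hL : ∀ a, L a x → L (a + x) x) [DecidablePred fun a => a + x ∈ X ∧ L a x] :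
    2 ∣ (X.filter (fun a => a + x ∈ X ∧ L a x)).card := by
  rw [← ZMod.natCast_eq_zero_iff]
  have h : ∑ _a ∈ X.filter (fun a => a + x ∈ X ∧ L a x), (1 : ZMod 2) = 0 := by
    refine Finset.sum_involution (fun a _ => a + x) ?_ ?_ ?_ ?_
    · intro a _
      rfl
    · intro a _ _ h
      exact hx0 (by simpa using h)
    · intro a ha
      rw [Finset.mem_filter] at ha ⊢
      refine ⟨ha.2.1, ?_, hL a ha.2.2⟩
      rw [qqm_add_add']
      exact ha.1
    · intro a _
      exact qqm_add_add' a x
  rw [Finset.sum_const, nsmul_eq_mul, mul_one] at h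
  exact h

theorem qqm_erase {L : W → W → Prop} (hs : ∀ x y, L x y → L y x)
    (ht : ∀ x y, L x y → L x (x + y)) (X : Finset W) (x : W)
    [DecidablePred fun a => a + x ∈ X ∧ L a x] :
    qqm_t L X ≤ qqm_t L (X.erase x) + 3 * (X.filter (fun a => a + x ∈ X ∧ L a x)).card := by
  classical
  set g := X.filter (fun a => a + x ∈ X ∧ L a x) with hg
  have hsub : (X ×ˢ X).filter (fun p => p.1 + p.2 ∈ X ∧ L p.1 p.2) ⊆
      ((X.erase x ×ˢ X.erase x).filter (fun p => p.1 + p.2 ∈ X.erase x ∧ L p.1 p.2)) ∪
        (g.image (fun a => (x, a)) ∪ (g.image (fun a => (a, x)) ∪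
          g.image (fun a => (a, a + x)))) := by
    rintro ⟨u, v⟩ hp
    rw [Finset.mem_filter, Finset.mem_product] at hp
    obtain ⟨⟨hu, hv⟩, huv, hL⟩ := hp
    simp only at hu hv huv hL
    rw [Finset.mem_union]
    by_cases h1 : u = x
    · right
      subst h1
      rw [Finset.mem_union]
      left
      rw [Finset.mem_image]
      refine ⟨v, ?_, rfl⟩
      rw [hg, Finset.mem_filter]
      exact ⟨hv, by rw [add_comm]; exact huv, hs _ _ hL⟩
    · by_cases h2 : v = x
      · right
        subst h2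
        rw [Finset.mem_union]
        right
        rw [Finset.mem_union]
        left
        rw [Finset.mem_image]
        refine ⟨u, ?_, rfl⟩
        rw [hg, Finset.mem_filter]
        exact ⟨hu, huv, hL⟩
      · by_cases h3 : u + v = x
        · right
          rw [Finset.mem_union]
          right
          rw [Finset.mem_union]
          right
          rw [Finset.mem_image]
          have h4 : u + x = v := by rw [← h3, qqm_add_add]
          refine ⟨u, ?_, by rw [h4]⟩
          rw [hg, Finset.mem_filter]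
          refine ⟨hu, by rw [h4]; exact hv, ?_⟩
          have := ht _ _ hL
          rwa [h3] at this
        · left
          rw [Finset.mem_filter, Finset.mem_product]
          exact ⟨⟨Finset.mem_erase.mpr ⟨h1, hu⟩, Finset.mem_erase.mpr ⟨h2, hv⟩⟩,
            Finset.mem_erase.mpr ⟨h3, huv⟩, hL⟩
  have h := Finset.card_le_card hsub
  have h1 : (g.image (fun a => (x, a))).card ≤ g.card := Finset.card_image_le
  have h2 : (g.image (fun a => (a, x))).card ≤ g.card := Finset.card_image_le
  have h3 : (g.image (fun a => (a, a + x))).card ≤ g.card := Finset.card_image_le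
  have h4 := Finset.card_union_le
    ((X.erase x ×ˢ X.erase x).filter (fun p => p.1 + p.2 ∈ X.erase x ∧ L p.1 p.2))
    (g.image (fun a => (x, a)) ∪ (g.image (fun a => (a, x)) ∪ g.image (fun a => (a, a + x))))
  have h5 := Finset.card_union_le (g.image (fun a => (x, a)))
    (g.image (fun a => (a, x)) ∪ g.image (fun a => (a, a + x)))
  have h6 := Finset.card_union_le (g.image (fun a => (a, x))) (g.image (fun a => (a, a + x)))
  unfold qqm_t
  have h7 : ((X ×ˢ X).filter (fun p => p.1 + p.2 ∈ X ∧ L p.1 p.2)).card ≤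
      ((X.erase x ×ˢ X.erase x).filter (fun p => p.1 + p.2 ∈ X.erase x ∧ L p.1 p.2)).card +
        3 * g.card := by omega
  convert! h7 using 3

/-- The inequality. -/
def qqm_Q (L : W → W → Prop) (X : Finset W) : Prop :=
  qqm_t L X + 18 ≤ 8 * X.card ∧ (qqm_U L X → qqm_t L X + 24 ≤ 8 * X.card)

/-- Claim 1: every point is on at least two lines. -/
theorem qqm_deg {L : W → W → Prop} (hs : ∀ x y, L x y → L y x)
    (ht : ∀ x y, L x y → L x (x + y)) {X : Finset W} (h0 : (0 : W) ∉ X) (h4 : 4 ≤ X.card)
    (hbad : ¬ qqm_Q L X) (ih : ∀ F ⊆ X, F ≠ X → 3 ≤ F.card → qqm_Q L F) {x : W} (hx : x ∈ X) :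
    4 ≤ (X.filter (fun a => a + x ∈ X)).card := by
  classical
  have hx0 : x ≠ 0 := fun h => h0 (h ▸ hx)
  have hFc : (X.erase x).card = X.card - 1 := Finset.card_erase_of_mem hx
  have hF := ih (X.erase x) (Finset.erase_subset _ _)
    (fun h => by have h1 := Finset.notMem_erase x X; rw [h] at h1; exact h1 hx) (by omega)
  have he := qqm_erase hs ht X x
  have hLx : ∀ a, L a x → L (a + x) x := fun a h => by
    have h1 := ht _ _ (hs _ _ h)
    rw [add_comm]
    exact hs _ _ h1
  have hg2 := qqm_even (L := L) x hx0 X hLx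
  have hf2 := qqm_even (L := fun _ _ => True) x hx0 X (fun _ _ => trivial)
  simp only [and_true] at hf2
  set g := X.filter (fun a => a + x ∈ X ∧ L a x) with hg
  have hgf : g ⊆ X.filter (fun a => a + x ∈ X) := by
    intro a ha
    rw [hg, Finset.mem_filter] at ha
    rw [Finset.mem_filter]
    exact ⟨ha.1, ha.2.1⟩
  have hgfc := Finset.card_le_card hgf
  obtain ⟨c, hc⟩ := hg2
  obtain ⟨d, hd⟩ := hf2
  unfold qqm_Q at hbad hF
  obtain ⟨hF1, hF2⟩ := hF
  by_cases hA : qqm_t L X + 18 ≤ 8 * X.card
  · have hB : qqm_U L X ∧ ¬ (qqm_t L X + 24 ≤ 8 * X.card) := by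
      by_contra hcon
      apply hbad
      refine ⟨hA, fun hU => ?_⟩
      by_contra h
      exact hcon ⟨hU, h⟩
    by_cases hUF : qqm_U L (X.erase x)
    · have := hF2 hUF
      omega
    · -- the unlifted pairs involve x
      have hstrict : g.card < (X.filter (fun a => a + x ∈ X)).card := by
        obtain ⟨u, hu, v, hv, huv, hL⟩ := hB.1
        have hex : ∃ a ∈ X, a + x ∈ X ∧ ¬ L a x := by
          by_cases h1 : u = x
          · subst h1
            exact ⟨v, hv, by rw [add_comm]; exact huv, fun h => hL (hs _ _ h)⟩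
          · by_cases h2 : v = x
            · subst h2
              exact ⟨u, hu, huv, hL⟩
            · by_cases h3 : u + v = x
              · have h4 : u + x = v := by rw [← h3, qqm_add_add]
                refine ⟨u, hu, by rw [h4]; exact hv, fun h => hL ?_⟩
                have := ht _ _ h
                rwa [h4] at this
              · exfalso
                exact hUF ⟨u, Finset.mem_erase.mpr ⟨h1, hu⟩, v, Finset.mem_erase.mpr ⟨h2, hv⟩,
                  Finset.mem_erase.mpr ⟨h3, huv⟩, hL⟩
        obtain ⟨a, ha, hax, hLa⟩ := hex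
        apply Finset.card_lt_card
        rw [Finset.ssubset_iff_of_subset hgf]
        refine ⟨a, Finset.mem_filter.mpr ⟨ha, hax⟩, fun h => ?_⟩
        rw [hg, Finset.mem_filter] at h
        exact hLa h.2.2
      omega
  · omega

/-- The main statement for a relation. -/
theorem qqm_main [FiniteDimensional (ZMod 2) W] {L : W → W → Prop} (hs : ∀ x y, L x y → L y x)
    (ht : ∀ x y, L x y → L x (x + y)) {X : Finset W} (h0 : (0 : W) ∉ X) (h3 : 3 ≤ X.card)
    (hbad : ¬ qqm_Q L X) (ih : ∀ F ⊆ X, F ≠ X → 3 ≤ F.card → qqm_Q L F) : VC (X : Set W) := by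
  classical
  -- at least four points
  have h4 : 4 ≤ X.card := by
    by_contra hlt
    apply hbad
    have hX : X.card = 3 := by omega
    have htri := tri_le_card X h0
    rw [hX] at htri
    have hle := qqm_t_le_tri L X
    refine ⟨by rw [hX]; omega, fun hU => ?_⟩
    have := qqm_six hs ht h0 hU
    rw [hX]
    omega
  rintro H ⟨a, haE, haH⟩ ⟨b, hbE, hbH, hbS⟩
  by_contra hlt
  rw [not_le] at hlt
  apply hbad
  set S := span (ZMod 2) ((X : Set W) \ (H : Set W)) with hS
  set F1 := X.filter (fun x => x ∈ S) with hF1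
  set F2 := X.filter (fun x => x ∈ H) with hF2
  set F3 := X.filter (fun x => x ∈ S ⊓ H) with hF3
  have _hfin : Finite W := Module.finite_of_finite (ZMod 2)
  have hSmem : ∀ x ∈ X, x ∉ H → x ∈ S := fun x hx hxH => subset_span ⟨hx, hxH⟩
  have hunion : F1 ∪ F2 = X := by
    apply Finset.Subset.antisymm
    · exact Finset.union_subset (Finset.filter_subset _ _) (Finset.filter_subset _ _)
    · intro x hx
      rw [Finset.mem_union, hF1, hF2, Finset.mem_filter, Finset.mem_filter]
      by_cases hxH : x ∈ H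
      · exact Or.inr ⟨hx, hxH⟩
      · exact Or.inl ⟨hx, hSmem x hx hxH⟩
  have hinter : F1 ∩ F2 = F3 := by
    ext x
    simp only [hF1, hF2, hF3, Finset.mem_inter, Finset.mem_filter, Submodule.mem_inf]
    tauto
  have hcard : F1.card + F2.card = X.card + F3.card := by
    have h := Finset.card_union_add_card_inter F1 F2
    rw [hunion, hinter] at h
    exact h.symm
  -- a line is contained in one of the sides
  have hside : ∀ x ∈ X, ∀ y ∈ X, x + y ∈ X →
      (x ∈ F1 ∧ y ∈ F1 ∧ x + y ∈ F1) ∨ (x ∈ F2 ∧ y ∈ F2 ∧ x + y ∈ F2) := by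
    intro x hx y hy hxy
    simp only [hF1, hF2, Finset.mem_filter]
    have hyx : y = x + (x + y) := (qqm_add_add x y).symm
    have hxy' : x = (x + y) + y := (qqm_add_add' x y).symm
    by_cases hxH : x ∈ H
    · by_cases hyH : y ∈ H
      · exact Or.inr ⟨⟨hx, hxH⟩, ⟨hy, hyH⟩, hxy, H.add_mem hxH hyH⟩
      · have hsH : x + y ∉ H := fun h => hyH (by rw [hyx]; exact H.add_mem hxH h)
        have h1 := hSmem y hy hyH
        have h2 := hSmem _ hxy hsH
        exact Or.inl ⟨⟨hx, by rw [hxy']; exact S.add_mem h2 h1⟩, ⟨hy, h1⟩, hxy, h2⟩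
    · by_cases hyH : y ∈ H
      · have hsH : x + y ∉ H := fun h => hxH (by rw [hxy']; exact H.add_mem h hyH)
        have h1 := hSmem x hx hxH
        have h2 := hSmem _ hxy hsH
        exact Or.inl ⟨⟨hx, h1⟩, ⟨hy, by rw [hyx]; exact S.add_mem h1 h2⟩, hxy, h2⟩
      · have h1 := hSmem x hx hxH
        have h2 := hSmem y hy hyH
        exact Or.inl ⟨⟨hx, h1⟩, ⟨hy, h2⟩, hxy, S.add_mem h1 h2⟩
  -- counting triples
  have htri : qqm_t L X + qqm_t L F3 ≤ qqm_t L F1 + qqm_t L F2 := by
    have hsub1 : (X ×ˢ X).filter (fun p => p.1 + p.2 ∈ X ∧ L p.1 p.2) ⊆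
        (F1 ×ˢ F1).filter (fun p => p.1 + p.2 ∈ F1 ∧ L p.1 p.2) ∪
          (F2 ×ˢ F2).filter (fun p => p.1 + p.2 ∈ F2 ∧ L p.1 p.2) := by
      rintro ⟨x, y⟩ hp
      simp only [Finset.mem_filter, Finset.mem_product] at hp
      obtain ⟨⟨hx, hy⟩, hxy, hL⟩ := hp
      simp only [Finset.mem_union, Finset.mem_filter, Finset.mem_product]
      rcases hside x hx y hy hxy with h | h
      · exact Or.inl ⟨⟨h.1, h.2.1⟩, h.2.2, hL⟩
      · exact Or.inr ⟨⟨h.1, h.2.1⟩, h.2.2, hL⟩
    have hsub2 : (F3 ×ˢ F3).filter (fun p => p.1 + p.2 ∈ F3 ∧ L p.1 p.2) ⊆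
        (F1 ×ˢ F1).filter (fun p => p.1 + p.2 ∈ F1 ∧ L p.1 p.2) ∩
          (F2 ×ˢ F2).filter (fun p => p.1 + p.2 ∈ F2 ∧ L p.1 p.2) := by
      rintro ⟨x, y⟩ hp
      simp only [hF3, Finset.mem_filter, Finset.mem_product, Submodule.mem_inf] at hp
      simp only [Finset.mem_inter, Finset.mem_filter, Finset.mem_product, hF1, hF2]
      tauto
    have h1 := Finset.card_le_card hsub1
    have h2 := Finset.card_le_card hsub2
    have h4 := Finset.card_union_add_card_inter
      ((F1 ×ˢ F1).filter (fun p => p.1 + p.2 ∈ F1 ∧ L p.1 p.2))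
      ((F2 ×ˢ F2).filter (fun p => p.1 + p.2 ∈ F2 ∧ L p.1 p.2))
    have h5 : ((X ×ˢ X).filter (fun p => p.1 + p.2 ∈ X ∧ L p.1 p.2)).card +
        ((F3 ×ˢ F3).filter (fun p => p.1 + p.2 ∈ F3 ∧ L p.1 p.2)).card ≤
        ((F1 ×ˢ F1).filter (fun p => p.1 + p.2 ∈ F1 ∧ L p.1 p.2)).card +
        ((F2 ×ˢ F2).filter (fun p => p.1 + p.2 ∈ F2 ∧ L p.1 p.2)).card := by omega
    unfold qqm_t
    convert! h5 using 4
  -- the intersection is small
  have hG4 : Nat.card ↥(S ⊓ H) ≤ 4 := by
    rw [Module.natCard_eq_pow_finrank (K := ZMod 2), Nat.card_zmod]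
    calc 2 ^ finrank (ZMod 2) ↥(S ⊓ H) ≤ 2 ^ 2 := Nat.pow_le_pow_right (by norm_num) (by omega)
      _ = 4 := by norm_num
  have hGn : ((S ⊓ H : Submodule (ZMod 2) W) : Set W).ncard ≤ 4 := by
    rw [← Nat.card_coe_set_eq]; exact hG4
  have h0F3 : (0 : W) ∉ F3 := fun h => h0 (Finset.mem_filter.mp h).1
  have hsubG : ((insert 0 F3 : Finset W) : Set W) ⊆ ((S ⊓ H : Submodule (ZMod 2) W) : Set W) := by
    intro x hx
    rw [Finset.mem_coe, Finset.mem_insert] at hx
    rcases hx with rfl | hx
    · exact (S ⊓ H).zero_mem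
    · exact (Finset.mem_filter.mp hx).2
  have hins : (insert 0 F3 : Finset W).card = F3.card + 1 := Finset.card_insert_of_notMem h0F3
  have hF3card : F3.card ≤ 3 := by
    have h := Set.ncard_le_ncard hsubG (Set.toFinite _)
    rw [Set.ncard_coe_finset, hins] at h
    omega
  have hF3tri : F3.card = 3 → 6 ≤ qqm_t L F3 ∨ qqm_U L F3 := by
    intro hc
    have heq : ((insert 0 F3 : Finset W) : Set W) = ((S ⊓ H : Submodule (ZMod 2) W) : Set W) := by
      refine Set.eq_of_subset_of_ncard_le hsubG ?_ (Set.toFinite _)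
      rw [Set.ncard_coe_finset, hins, hc]
      exact hGn
    have hsum : ∀ p ∈ F3.offDiag, p.1 ∈ F3 ∧ p.2 ∈ F3 ∧ p.1 + p.2 ∈ F3 := by
      rintro ⟨x, y⟩ hp
      rw [Finset.mem_offDiag] at hp
      obtain ⟨hx, hy, hne⟩ := hp
      simp only at hx hy hne
      refine ⟨hx, hy, ?_⟩
      have hxG := (Finset.mem_filter.mp hx).2
      have hyG := (Finset.mem_filter.mp hy).2
      have hs : x + y ∈ ((S ⊓ H : Submodule (ZMod 2) W) : Set W) := (S ⊓ H).add_mem hxG hyG
      rw [← heq, Finset.mem_coe, Finset.mem_insert] at hs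
      rcases hs with hs | hs
      · exact absurd (split_eq_of_add hs) hne
      · exact hs
    by_cases hall : ∀ p ∈ F3.offDiag, L p.1 p.2
    · left
      have hoff : F3.offDiag ⊆ (F3 ×ˢ F3).filter (fun p => p.1 + p.2 ∈ F3 ∧ L p.1 p.2) := by
        intro p hp
        obtain ⟨h1, h2, h5⟩ := hsum p hp
        rw [Finset.mem_filter, Finset.mem_product]
        exact ⟨⟨h1, h2⟩, h5, hall p hp⟩
      have h := Finset.card_le_card hoff
      rw [Finset.offDiag_card, hc] at h
      unfold qqm_t
      convert! h using 3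
    · right
      push Not at hall
      obtain ⟨p, hp, hL⟩ := hall
      obtain ⟨h1, h2, h5⟩ := hsum p hp
      exact ⟨p.1, h1, p.2, h2, h5, hL⟩
  have hF31 : F3 ⊆ F1 := by
    rw [← hinter]
    exact Finset.inter_subset_left
  have hF32 : F3 ⊆ F2 := by
    rw [← hinter]
    exact Finset.inter_subset_right
  have hUmono : ∀ {A B : Finset W}, A ⊆ B → qqm_U L A → qqm_U L B := by
    rintro A B hAB ⟨x, hx, y, hy, hxy, hL⟩
    exact ⟨x, hAB hx, y, hAB hy, hAB hxy, hL⟩
  have hUX : qqm_U L X → qqm_U L F1 ∨ qqm_U L F2 := by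
    rintro ⟨x, hx, y, hy, hxy, hL⟩
    rcases hside x hx y hy hxy with h | h
    · exact Or.inl ⟨x, h.1, y, h.2.1, h.2.2, hL⟩
    · exact Or.inr ⟨x, h.1, y, h.2.1, h.2.2, hL⟩
  have hF1E : F1 ≠ X := by
    intro h
    have hb : b ∈ F1 := by rw [h]; exact hbE
    exact hbS (Finset.mem_filter.mp hb).2
  have hF2E : F2 ≠ X := by
    intro h
    have ha : a ∈ F2 := by rw [h]; exact haE
    exact haH (Finset.mem_filter.mp ha).2
  have hs1 : F1 ⊆ X := Finset.filter_subset _ _
  have hs2 : F2 ⊆ X := Finset.filter_subset _ _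
  -- the sides are large
  have hbig1 : 3 ≤ F1.card := by
    have h5 := qqm_deg hs ht h0 h4 hbad ih haE
    have h6 : X.filter (fun c => c + a ∈ X) ⊆ F1 := by
      intro c hc
      rw [Finset.mem_filter] at hc
      rcases hside c hc.1 a haE hc.2 with h | h
      · exact h.1
      · exact absurd (Finset.mem_filter.mp h.2.1).2 haH
    have := Finset.card_le_card h6
    omega
  have hbig2 : 3 ≤ F2.card := by
    have h5 := qqm_deg hs ht h0 h4 hbad ih hbE
    have h6 : X.filter (fun c => c + b ∈ X) ⊆ F2 := by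
      intro c hc
      rw [Finset.mem_filter] at hc
      rcases hside c hc.1 b hbE hc.2 with h | h
      · exact absurd (Finset.mem_filter.mp h.2.1).2 hbS
      · exact h.1
    have := Finset.card_le_card h6
    omega
  obtain ⟨q1, r1⟩ := ih F1 hs1 hF1E hbig1
  obtain ⟨q2, r2⟩ := ih F2 hs2 hF2E hbig2
  rcases Nat.lt_or_ge F3.card 3 with hk | hk
  · refine ⟨by omega, fun hU => ?_⟩
    rcases hUX hU with h | h
    · have := r1 h
      omega
    · have := r2 h
      omega
  · have hk3 : F3.card = 3 := le_antisymm hF3card hk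
    rcases hF3tri hk3 with h6 | h6
    · refine ⟨by omega, fun hU => ?_⟩
      rcases hUX hU with h | h
      · have := r1 h
        omega
      · have := r2 h
        omega
    · have e1 := r1 (hUmono hF31 h6)
      have e2 := r2 (hUmono hF32 h6)
      exact ⟨by omega, fun _ => by omega⟩

end QQMin

theorem claimQQMin : ClaimQQMin.{u} := by
  intro V _ _ _ W _ _ _ _ E π X h0 h3 hbad ih
  refine qqm_main (L := Lif π E) ?_ ?_ h0 h3 hbad ih
  · rintro x y ⟨a, ha, b, hb, hab, rfl, rfl⟩
    exact ⟨b, hb, a, ha, by rw [add_comm]; exact hab, rfl, rfl⟩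
  · rintro x y ⟨a, ha, b, hb, hab, rfl, rfl⟩
    refine ⟨a, ha, a + b, hab, ?_, rfl, map_add π a b⟩
    rw [← add_assoc, split_add_self, zero_add]
    exact hb

end Pool.Agent.WW

end

section

/-!
# Item G4: the inequality for all lines implies `QQ`
-/

namespace Pool.Agent.WW

universe u

section

variable {V W : Type u} [AddCommGroup V] [Module (ZMod 2) V] [AddCommGroup W]
  [Module (ZMod 2) W]

private lemma qqt_self {V : Type u} [AddCommGroup V] [Module (ZMod 2) V] (v : V) :
    v + v = 0 := by
  have h : (2 : ZMod 2) = 0 := rfl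
  rw [← two_smul (ZMod 2) v, h, zero_smul]

private lemma qqt_cancel {V : Type u} [AddCommGroup V] [Module (ZMod 2) V] (v w : V) :
    v + (v + w) = w := by
  rw [← add_assoc, qqt_self, zero_add]

private lemma Lif_symm {π : V →ₗ[ZMod 2] W} {E : Finset V} {x y : W} (h : Lif π E x y) :
    Lif π E y x := by
  obtain ⟨a, ha, b, hb, hab, h1, h2⟩ := h
  exact ⟨b, hb, a, ha, by rwa [add_comm], h2, h1⟩

private lemma Lif_third {π : V →ₗ[ZMod 2] W} {E : Finset V} {x y : W} (h : Lif π E x y) :
    Lif π E x (x + y) := by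
  obtain ⟨a, ha, b, hb, hab, h1, h2⟩ := h
  exact ⟨a, ha, a + b, hab, by rwa [qqt_cancel], h1, by rw [map_add, h1, h2]⟩

end

/-- G4: the inequality for all lines implies `QQ` -/
theorem claimQQTri : ClaimQQTri.{u} := by
  classical
  intro V _ _ _ W _ _ _ E π X h0 hX
  have hsub : (X ×ˢ X).filter (fun p => p.1 + p.2 ∈ X ∧ Lif π E p.1 p.2)
      ⊆ (X ×ˢ X).filter (fun p => p.1 + p.2 ∈ X) := by
    intro p hp
    rw [Finset.mem_filter] at hp ⊢
    exact ⟨hp.1, hp.2.1⟩
  have hle : triL π E X ≤ tri X := by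
    unfold triL tri
    convert Finset.card_le_card hsub
  refine ⟨by omega, ?_⟩
  rintro ⟨x, hx, y, hy, hxy, hnl⟩
  have hx0 : x ≠ 0 := fun h => h0 (h ▸ hx)
  have hy0 : y ≠ 0 := fun h => h0 (h ▸ hy)
  have hz0 : x + y ≠ 0 := fun h => h0 (h ▸ hxy)
  have hne1 : x ≠ y := by
    rintro rfl
    exact hz0 (qqt_self x)
  have hne2 : x ≠ x + y := by
    intro h
    exact hy0 (by simpa using h)
  have hne3 : y ≠ x + y := by
    intro h
    exact hx0 (by simpa using h)
  have e1 : x + (x + y) = y := qqt_cancel x y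
  have e2 : y + (x + y) = x := by rw [add_comm x y]; exact qqt_cancel y x
  have n1 : ¬ Lif π E x y := hnl
  have n2 : ¬ Lif π E y x := fun h => hnl (Lif_symm h)
  have n3 : ¬ Lif π E x (x + y) := fun h => by
    have := Lif_third h
    rw [e1] at this
    exact hnl this
  have n4 : ¬ Lif π E (x + y) x := fun h => n3 (Lif_symm h)
  have n5 : ¬ Lif π E y (x + y) := fun h => by
    have := Lif_third h
    rw [e2] at this
    exact n2 this
  have n6 : ¬ Lif π E (x + y) y := fun h => n5 (Lif_symm h)
  let P : Finset (W × W) := {(x, y), (y, x), (x, x + y), (x + y, x), (y, x + y), (x + y, y)}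
  have hP : P.card = 6 := by
    have a1 : ((x, y) : W × W) ∉ ({(y, x), (x, x + y), (x + y, x), (y, x + y), (x + y, y)} :
        Finset (W × W)) := by
      simp only [Finset.mem_insert, Finset.mem_singleton, Prod.mk.injEq]
      rintro (⟨h, -⟩ | ⟨-, h⟩ | ⟨h, -⟩ | ⟨h, -⟩ | ⟨h, -⟩)
      · exact hne1 h
      · exact hne3 h
      · exact hne2 h
      · exact hne1 h
      · exact hne2 h
    have a2 : ((y, x) : W × W) ∉ ({(x, x + y), (x + y, x), (y, x + y), (x + y, y)} :
        Finset (W × W)) := by
      simp only [Finset.mem_insert, Finset.mem_singleton, Prod.mk.injEq]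
      rintro (⟨h, -⟩ | ⟨h, -⟩ | ⟨-, h⟩ | ⟨h, -⟩)
      · exact hne1 h.symm
      · exact hne3 h
      · exact hne2 h
      · exact hne3 h
    have a3 : ((x, x + y) : W × W) ∉ ({(x + y, x), (y, x + y), (x + y, y)} :
        Finset (W × W)) := by
      simp only [Finset.mem_insert, Finset.mem_singleton, Prod.mk.injEq]
      rintro (⟨h, -⟩ | ⟨h, -⟩ | ⟨h, -⟩)
      · exact hne2 h
      · exact hne1 h
      · exact hne2 h
    have a4 : ((x + y, x) : W × W) ∉ ({(y, x + y), (x + y, y)} : Finset (W × W)) := by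
      simp only [Finset.mem_insert, Finset.mem_singleton, Prod.mk.injEq]
      rintro (⟨h, -⟩ | ⟨-, h⟩)
      · exact hne3 h.symm
      · exact hne1 h
    have a5 : ((y, x + y) : W × W) ∉ ({(x + y, y)} : Finset (W × W)) := by
      simp only [Finset.mem_singleton, Prod.mk.injEq]
      rintro ⟨h, -⟩
      exact hne3 h
    show Finset.card _ = 6
    rw [Finset.card_insert_of_notMem a1, Finset.card_insert_of_notMem a2,
      Finset.card_insert_of_notMem a3, Finset.card_insert_of_notMem a4,
      Finset.card_insert_of_notMem a5, Finset.card_singleton]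
  have hPsub : P ⊆ (X ×ˢ X).filter (fun p => p.1 + p.2 ∈ X) := by
    intro p hp
    simp only [P, Finset.mem_insert, Finset.mem_singleton] at hp
    rw [Finset.mem_filter, Finset.mem_product]
    rcases hp with rfl | rfl | rfl | rfl | rfl | rfl
    · exact ⟨⟨hx, hy⟩, hxy⟩
    · exact ⟨⟨hy, hx⟩, by rw [add_comm y x]; exact hxy⟩
    · exact ⟨⟨hx, hxy⟩, by rw [e1]; exact hy⟩
    · exact ⟨⟨hxy, hx⟩, by rw [add_comm (x + y) x, e1]; exact hy⟩
    · exact ⟨⟨hy, hxy⟩, by rw [e2]; exact hx⟩
    · exact ⟨⟨hxy, hy⟩, by rw [add_comm (x + y) y, e2]; exact hx⟩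
  have hdis : Disjoint P ((X ×ˢ X).filter (fun p => p.1 + p.2 ∈ X ∧ Lif π E p.1 p.2)) := by
    rw [Finset.disjoint_left]
    intro p hp hp2
    rw [Finset.mem_filter] at hp2
    simp only [P, Finset.mem_insert, Finset.mem_singleton] at hp
    rcases hp with rfl | rfl | rfl | rfl | rfl | rfl
    · exact n1 hp2.2.2
    · exact n2 hp2.2.2
    · exact n3 hp2.2.2
    · exact n4 hp2.2.2
    · exact n5 hp2.2.2
    · exact n6 hp2.2.2
  have hfin := Finset.card_le_card (Finset.union_subset hPsub hsub)
  rw [Finset.card_union_of_disjoint hdis, hP] at hfin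
  have h7 : triL π E X = ((X ×ˢ X).filter (fun p => p.1 + p.2 ∈ X ∧ Lif π E p.1 p.2)).card := by
    unfold triL
    congr!
  have h8 : tri X = ((X ×ˢ X).filter (fun p => p.1 + p.2 ∈ X)).card := rfl
  omega

end Pool.Agent.WW

end

section

/-!
H1: soundness of the classification in rank five.
-/

namespace Pool.Agent.WW

open Submodule Module

section

variable {V : Type*} [AddCommGroup V] [Module (ZMod 2) V]

lemma r5s_comb_zero_imp {m : ℕ} {b : Fin m → V} (hb : LinearIndependent (ZMod 2) b) (n : ℕ)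
    (hn : n < 2 ^ m) (h : comb b n = 0) : n = 0 := by
  apply comb_mem_imp b ⊥ _ n hn
  · rw [mem_bot]
    exact h
  · intro c hc
    rw [mem_bot] at hc
    ext i
    exact Fintype.linearIndependent_iff.mp hb c hc i

lemma r5s_comb_inj {m : ℕ} {b : Fin m → V} (hb : LinearIndependent (ZMod 2) b) {x y : ℕ}
    (hx : x < 2 ^ m) (hy : y < 2 ^ m) (h : comb b x = comb b y) : x = y := by
  have h1 : comb b (x ^^^ y) = 0 := by
    rw [comb_xor, h, add_self_z2]
  have h2 := r5s_comb_zero_imp hb _ (Nat.xor_lt_two_pow hx hy) h1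
  exact Nat.xor_eq_zero_iff.mp h2

lemma r5s_comb_surj [FiniteDimensional (ZMod 2) V] (hV : finrank (ZMod 2) V = 5)
    {b : Fin 5 → V} (hb : LinearIndependent (ZMod 2) b) (v : V) : ∃ n < 32, comb b n = v := by
  have : Finite V := Module.finite_of_finite (ZMod 2)
  have := Fintype.ofFinite V
  have hcard : Fintype.card V = 32 := by
    rw [card_eq_pow_finrank (K := ZMod 2) (V := V), hV, ZMod.card]
    norm_num
  have hinj : Function.Injective (fun n : Fin 32 => comb b n) := by
    intro x y hxy
    ext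
    exact r5s_comb_inj hb (lt_of_lt_of_le x.2 (by norm_num)) (lt_of_lt_of_le y.2 (by norm_num)) hxy
  have hbij : Function.Bijective (fun n : Fin 32 => comb b n) :=
    (Fintype.bijective_iff_injective_and_card _).mpr ⟨hinj, by simp [hcard]⟩
  obtain ⟨n, hn⟩ := hbij.2 v
  exact ⟨n, n.2, hn⟩

lemma r5s_comb_pow {b : Fin 5 → V} (i : Fin 5) : comb b (2 ^ (i : ℕ)) = b i := by
  unfold comb
  rw [Finset.sum_eq_single i]
  · rw [if_pos]
    exact Nat.testBit_two_pow_self
  · intro j _ hj
    rw [if_neg]
    rw [Nat.testBit_two_pow_of_ne]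
    · simp
    · intro h
      exact hj (Fin.ext h).symm
  · intro h
    exact absurd (Finset.mem_univ i) h

lemma r5s_code (c : Fin 5 → ZMod 2) : ∃ n < 32, ∀ i : Fin 5,
    (if n.testBit i then (1 : ZMod 2) else 0) = c i := by
  revert c
  decide

lemma r5s_indep {b : Fin 5 → V} (h : ∀ n < 32, comb b n = 0 → n = 0) :
    LinearIndependent (ZMod 2) b := by
  rw [Fintype.linearIndependent_iff]
  intro c hc
  obtain ⟨n, hn, hnc⟩ := r5s_code c
  have h1 : comb b n = 0 := by
    rw [← hc]
    unfold comb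
    apply Finset.sum_congr rfl
    intro i _
    rw [← hnc i]
    split_ifs <;> simp
  have h2 := h n hn h1
  intro i
  rw [← hnc i, h2]
  simp

lemma r5s_linC {m : ℕ} (b : Fin m → V) (h : List ℕ) (k : ℕ) :
    comb (fun i : Fin h.length => comb b (h.get i)) k = comb b (linC h k) := by
  induction h generalizing k with
  | nil =>
    simp [linC, comb]
  | cons c h ih =>
    rw [linC, comb_xor, ← ih]
    have h0 := Fin.sum_univ_succ (n := h.length)
      (fun i : Fin (h.length + 1) => if k.testBit i then comb b ((c :: h).get i) else 0)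
    refine Eq.trans h0 ?_
    congr 1
    · simp only [Fin.val_zero, Nat.testBit_zero, decide_eq_true_eq, List.get_eq_getElem,
        List.getElem_cons_zero]
      split_ifs
      · rfl
      · exact (comb_zero b).symm
    · apply Finset.sum_congr rfl
      intro i _
      simp only [Fin.val_succ, Nat.testBit_succ]
      rfl

lemma r5s_linC_lt {m : ℕ} (h : List ℕ) (hh : ∀ c ∈ h, c < 2 ^ m) (k : ℕ) :
    linC h k < 2 ^ m := by
  induction h generalizing k with
  | nil =>
    rw [linC]
    positivity
  | cons c h ih =>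
    rw [linC]
    apply Nat.xor_lt_two_pow
    · split_ifs
      · exact hh c List.mem_cons_self
      · positivity
    · exact ih (fun c hc => hh c (List.mem_cons_of_mem _ hc)) _

lemma r5s_testBit_add {n : ℕ} : ∀ {M : ℕ}, M.testBit n = false → ∀ k : ℕ,
    ((M + 2 ^ n).testBit k = true ↔ M.testBit k = true ∨ k = n) := by
  induction n with
  | zero =>
    intro M h k
    rw [Nat.testBit_zero, decide_eq_false_iff_not] at h
    cases k with
    | zero =>
      simp only [Nat.testBit_zero, decide_eq_true_eq, or_true, iff_true, pow_zero]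
      omega
    | succ k =>
      rw [Nat.testBit_succ, Nat.testBit_succ]
      have h1 : (M + 2 ^ 0) / 2 = M / 2 := by
        simp only [pow_zero]
        omega
      rw [h1]
      simp
  | succ n ih =>
    intro M h k
    rw [Nat.testBit_succ] at h
    cases k with
    | zero =>
      simp only [Nat.testBit_zero, decide_eq_true_eq]
      rw [pow_succ]
      omega
    | succ k =>
      rw [Nat.testBit_succ, Nat.testBit_succ]
      have h1 : (M + 2 ^ (n + 1)) / 2 = M / 2 + 2 ^ n := by
        rw [pow_succ]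
        omega
      rw [h1, ih h k]
      simp

end

universe u

/-- H1: soundness of the classification. -/
theorem claimR5 : ClaimR5.{u} := by
  intro L hL V _ _ _ E hV h0 hspan hfree
  classical
  have : Finite V := Module.finite_of_finite (ZMod 2)
  -- a basis inside E
  obtain ⟨b0, hb0E, hb0⟩ : ∃ b0 : Fin 5 → V, (∀ i, b0 i ∈ E) ∧ LinearIndependent (ZMod 2) b0 := by
    have h1 : finrank (ZMod 2) ↥(span (ZMod 2) E) = 5 := by
      rw [hspan, finrank_top, hV]
    obtain ⟨f, hf1, -, hf2⟩ := exists_fun_fin_finrank_span_eq (ZMod 2) E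
    exact ⟨fun i => f (finCongr h1.symm i), fun i => hf1 _, hf2.comp _ (finCongr h1.symm).injective⟩
  have hzero : ∀ b : Fin 5 → V, LinearIndependent (ZMod 2) b → ∀ n < 32, comb b n = 0 → n = 0 :=
    fun b hb n hn h => r5s_comb_zero_imp hb n (by simpa using hn) h
  -- the induction
  have key : ∀ T : Finset V, (↑T : Set V) ⊆ E → ∃ M ∈ L, ∃ b : Fin 5 → V,
      LinearIndependent (ZMod 2) b ∧ ∀ n < 32, M.testBit n = true ↔
        comb b n ∈ Set.range b0 ∪ (↑T : Set V) := by
    intro T
    induction T using Finset.induction_on with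
    | empty =>
      intro _
      refine ⟨_, hL.1, b0, hb0, ?_⟩
      intro n hn
      rw [testBit_mask]
      simp only [Finset.coe_empty, Set.union_empty, Set.mem_range]
      constructor
      · intro h
        simp only [List.mem_cons, List.not_mem_nil, or_false] at h
        rcases h with h | h | h | h | h
        · exact ⟨0, by rw [h, ← r5s_comb_pow (b := b0) 0]; rfl⟩
        · exact ⟨1, by rw [h, ← r5s_comb_pow (b := b0) 1]; rfl⟩
        · exact ⟨2, by rw [h, ← r5s_comb_pow (b := b0) 2]; rfl⟩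
        · exact ⟨3, by rw [h, ← r5s_comb_pow (b := b0) 3]; rfl⟩
        · exact ⟨4, by rw [h, ← r5s_comb_pow (b := b0) 4]; rfl⟩
      · rintro ⟨i, hi⟩
        rw [← r5s_comb_pow (b := b0) i] at hi
        have h1 : 2 ^ (i : ℕ) < 32 := by
          have : (i : ℕ) < 5 := i.2
          calc 2 ^ (i : ℕ) < 2 ^ 5 := Nat.pow_lt_pow_right (by norm_num) this
            _ = 32 := by norm_num
        have h2 := r5s_comb_inj hb0 (by simpa using h1) (by simpa using hn) hi
        rw [← h2]
        fin_cases i <;> simp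
    | insert v T hv ih =>
      intro hT
      have hTE : (↑T : Set V) ⊆ E := fun x hx => hT (Finset.mem_insert_of_mem hx)
      have hvE : v ∈ E := hT (Finset.mem_insert_self v T)
      obtain ⟨M, hM, b, hb, hMb⟩ := ih hTE
      by_cases hvR : v ∈ Set.range b0
      · refine ⟨M, hM, b, hb, fun n hn => ?_⟩
        rw [hMb n hn]
        simp only [Finset.coe_insert, Set.union_insert]
        have hvm : v ∈ Set.range b0 ∪ (↑T : Set V) := Or.inl hvR
        rw [Set.insert_eq_of_mem hvm]
      · have hvn : v ∉ Set.range b0 ∪ (↑T : Set V) := by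
          rintro (h | h)
          · exact hvR h
          · exact hv h
        obtain ⟨n, hn, hnv⟩ := r5s_comb_surj hV hb v
        have hn0 : n ≠ 0 := by
          rintro rfl
          rw [comb_zero] at hnv
          rw [hnv] at h0
          exact h0 hvE
        have hMn : M.testBit n = false := by
          by_contra h
          rw [Bool.not_eq_false] at h
          rw [hMb n hn, hnv] at h
          exact hvn h
        obtain ⟨hM32, -, hclosed⟩ := hL.2 M hM
        have hins : ∀ k < 32, (M + 2 ^ n).testBit k = true ↔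
            comb b k ∈ Set.range b0 ∪ (↑(insert v T) : Set V) := by
          intro k hk
          rw [r5s_testBit_add hMn, hMb k hk]
          simp only [Finset.coe_insert, Set.union_insert, Set.mem_insert_iff]
          constructor
          · rintro (h | h)
            · exact Or.inr h
            · left
              rw [h, hnv]
          · rintro (h | h)
            · right
              rw [← hnv] at h
              exact r5s_comb_inj hb (by simpa using hk) (by simpa using hn) h
            · exact Or.inl h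
        have hsubE : Set.range b0 ∪ (↑(insert v T) : Set V) ⊆ E := by
          rintro x (⟨i, rfl⟩ | hx)
          · exact hb0E i
          · exact hT hx
        rcases hclosed n hn hn0 hMn with hcert | ⟨M', hM', h, hlen, hlt, hind, htb⟩
        · exfalso
          obtain ⟨C, s0, s1, s2, s3, hc⟩ := hcert
          apply hfree
          refine HasK5.mono ?_ hsubE
          refine hasK5_of_cert b _ ⊥ ?_ ?_ (M + 2 ^ n) ?_ C s0 s1 s2 s3 hc
          · unfold Gen
            exact bot_le
          · intro k hk hk0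
            rw [mem_bot] at hk0
            exact r5s_comb_zero_imp hb k hk hk0
          · intro k hk
            have hk32 : k < 32 := by
              by_contra hge
              rw [r5s_testBit_add hMn] at hk
              rcases hk with hk | hk
              · have : M.testBit k = false := Nat.testBit_lt_two_pow
                  (lt_of_lt_of_le hM32 (Nat.pow_le_pow_right (by norm_num) (by omega)))
                rw [this] at hk
                exact Bool.false_ne_true hk
              · omega
            refine ⟨by simpa using hk32, comb b k, (hins k hk32).mp hk, ?_⟩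
            rw [add_self_z2]
            exact zero_mem _
        · obtain ⟨b', hb'⟩ : ∃ b' : Fin 5 → V, ∀ k, comb b' k = comb b (linC h k) := by
            refine ⟨fun i => comb b (h.get (i.cast hlen.symm)), fun k => ?_⟩
            rw [← r5s_linC]
            unfold comb
            refine (Fintype.sum_equiv (finCongr hlen) _ _ ?_).symm
            intro i
            rfl
          have hlin : ∀ k, linC h k < 32 := fun k => by
            have := r5s_linC_lt (m := 5) h (by simpa using hlt) k
            simpa using this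
          refine ⟨M', hM', b', ?_, ?_⟩
          · apply r5s_indep
            intro k hk hk0
            rw [hb'] at hk0
            have h1 := r5s_comb_zero_imp hb _ (by simpa using hlin k) hk0
            by_contra hkne
            exact hind k (by rw [hlen]; simpa using hk) hkne h1
          · intro k hk
            rw [htb k hk, hins _ (hlin k), hb']
  obtain ⟨M, hM, b, hb, hMb⟩ := key (Set.toFinite E).toFinset (by simp)
  refine ⟨M, hM, b, hb, fun n hn => ?_⟩
  rw [hMb n hn, Set.Finite.coe_toFinset]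
  constructor
  · rintro (⟨i, hi⟩ | h)
    · rw [← hi]
      exact hb0E i
    · exact h
  · intro h
    exact Or.inr h

end Pool.Agent.WW

end

section

/-!
# Item A1: relative transfer
-/

namespace Pool.Agent.WW

open Submodule Module

universe u

/-- A1: transfer along a contraction, relative form -/
theorem claimRel : ClaimRel.{u} := by
  intro V _ _ _ E F K A hK hKA hFA hF h
  obtain ⟨K0, hG, s, hi, hp, hpp⟩ := h
  have hself : ∀ v : V, v + v = 0 := fun v => by
    have h : (2 : ZMod 2) = 0 := rfl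
    rw [← two_smul (ZMod 2) v, h, zero_smul]
  have hK0A : K0 ≤ A := hG.trans (span_le.2 fun x hx => hFA x hx.1)
  have hpA : ∀ v, Pres F K0 v → v ∈ A := by
    rintro v ⟨x, hx, hxv⟩
    have e : v = (x + v) - x := by abel
    rw [e]
    exact sub_mem (hK0A hxv) (hFA x hx)
  have hP : ∀ v, Pres F K0 v → Pres E (K0 ⊔ K) v := by
    rintro v ⟨w, hw, hwv⟩
    obtain ⟨x, hx, hxw⟩ := hF w hw
    refine ⟨x, hx, ?_⟩
    have e : x + v = (w + v) + (x + w) - (w + w) := by abel
    rw [e, hself, sub_zero]
    exact add_mem (mem_sup_left hwv) (mem_sup_right hxw)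
  refine ⟨K0 ⊔ K, ?_, s, ?_, fun i => hP _ (hp i), fun i j hij => hP _ (hpp i j hij)⟩
  · have h1 : K ≤ span (ZMod 2) (E ∩ ((K0 ⊔ K : Submodule (ZMod 2) V) : Set V)) := by
      have h2 : ((K : Set V)) ⊆ ((K0 ⊔ K : Submodule (ZMod 2) V) : Set V) := fun x hx =>
        mem_sup_right hx
      exact hK.trans (span_mono (Set.inter_subset_inter_right _ h2))
    refine sup_le (hG.trans (span_le.2 ?_)) h1
    rintro y ⟨hyF, hyK⟩
    obtain ⟨x, hx, hxy⟩ := hF y hyF
    have e : y = (x + y) - x := by abel
    have e' : x = (x + y) - y := by abel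
    have hxK : x ∈ K0 ⊔ K := by
      rw [e']
      exact sub_mem (mem_sup_right hxy) (mem_sup_left hyK)
    rw [SetLike.mem_coe, e]
    exact sub_mem (h1 hxy) (subset_span ⟨hx, hxK⟩)
  · intro c hc
    apply hi
    obtain ⟨k0, hk0, k, hk, hkk⟩ := mem_sup.1 hc
    have hsum : ∑ i, c i • s i ∈ A := sum_mem fun i _ => smul_mem _ _ (hpA _ (hp i))
    have hkA : k ∈ A := by
      have e : k = ∑ i, c i • s i - k0 := by rw [← hkk]; abel
      rw [e]
      exact sub_mem hsum (hK0A hk0)
    have hk00 : k = 0 := by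
      have : k ∈ K ⊓ A := ⟨hk, hkA⟩
      rw [hKA] at this
      exact (mem_bot _).1 this
    rw [← hkk, hk00, add_zero]
    exact hk0

end Pool.Agent.WW

end

section

/-!
Item D6: the rooted density bound.
-/

namespace Pool.Agent.WW

open Submodule Module

universe u

section

variable {W : Type*} [AddCommGroup W] [Module (ZMod 2) W]

theorem rooted_finite [FiniteDimensional (ZMod 2) W] : Finite W :=
  Module.finite_of_finite (ZMod 2)

theorem rooted_ncard [FiniteDimensional (ZMod 2) W] (Z : Submodule (ZMod 2) W) :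
    (Z : Set W).ncard = 2 ^ finrank (ZMod 2) Z := by
  have h := Module.natCard_eq_pow_finrank (K := ZMod 2) (V := Z)
  rw [Nat.card_zmod] at h
  rw [← h]
  rfl

theorem rooted_nz [FiniteDimensional (ZMod 2) W] (Z : Submodule (ZMod 2) W) (X : Set W)
    (hX : ∀ x ∈ X, x ∈ Z) (h0 : (0 : W) ∉ X) : X.ncard + 1 ≤ 2 ^ finrank (ZMod 2) Z := by
  have : Finite W := rooted_finite
  rw [← rooted_ncard, ← Set.ncard_insert_of_notMem h0 (Set.toFinite _)]
  refine Set.ncard_le_ncard ?_ (Set.toFinite _)
  rintro x (rfl | hx)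
  · exact Z.zero_mem
  · exact hX x hx

theorem rooted_three [FiniteDimensional (ZMod 2) W] (S : Set W) (h0 : (0 : W) ∉ S)
    (K : Submodule (ZMod 2) W) (hK : finrank (ZMod 2) K = 2)
    (hS : ∀ x ∈ K, x ≠ 0 → x ∈ S) : (S ∩ (K : Set W)).ncard = 3 := by
  have : Finite W := rooted_finite
  have h1 : S ∩ (K : Set W) = (K : Set W) \ {0} := by
    ext x
    constructor
    · rintro ⟨hx, hxK⟩
      refine ⟨hxK, ?_⟩
      rintro rfl
      exact h0 hx
    · rintro ⟨hxK, hx0⟩
      exact ⟨hS x hxK hx0, hxK⟩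
  rw [h1, Set.ncard_diff_singleton_of_mem K.zero_mem, rooted_ncard, hK]
  norm_num

theorem rooted_cover (K A B : Submodule (ZMod 2) W) (h : ∀ x ∈ K, x ∈ A ∨ x ∈ B) :
    K ≤ A ∨ K ≤ B := by
  by_contra hc
  push Not at hc
  obtain ⟨h1, h2⟩ := hc
  rw [SetLike.not_le_iff_exists] at h1 h2
  obtain ⟨a, haK, haA⟩ := h1
  obtain ⟨b, hbK, hbB⟩ := h2
  have haB : a ∈ B := (h a haK).resolve_left haA
  have hbA : b ∈ A := (h b hbK).resolve_right hbB
  rcases h (a + b) (K.add_mem haK hbK) with h3 | h3
  · exact haA ((Submodule.add_mem_iff_left A hbA).1 h3)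
  · exact hbB ((Submodule.add_mem_iff_right B haB).1 h3)

theorem rooted_step [FiniteDimensional (ZMod 2) W] (S N : Set W) (hNS : N ⊆ S)
    (h0 : (0 : W) ∉ S) (K K1 Z A B : Submodule (ZMod 2) W)
    (hcov : ∀ x ∈ S, x ∈ Z → x ∈ A ∨ x ∈ B) (hAB : A ⊔ B = Z) (hK1 : K1 = A ⊓ B)
    (hd : finrank (ZMod 2) K1 = 2) (hS1 : ∀ x ∈ K1, x ≠ 0 → x ∈ S)
    (hA : ((N ∩ (A : Set W)) ∪ (S ∩ (K : Set W))).ncard + 5 ≤ 4 * finrank (ZMod 2) A)
    (hB : ((N ∩ (B : Set W)) ∪ (S ∩ (K1 : Set W))).ncard + 5 ≤ 4 * finrank (ZMod 2) B) :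
    ((N ∩ (Z : Set W)) ∪ (S ∩ (K : Set W))).ncard + 5 ≤ 4 * finrank (ZMod 2) Z := by
  have : Finite W := rooted_finite
  have h1 : ((N ∩ (Z : Set W)) ∪ (S ∩ (K : Set W))).ncard ≤
      ((N ∩ (A : Set W)) ∪ (S ∩ (K : Set W))).ncard + ((N ∩ (B : Set W)) \ (K1 : Set W)).ncard := by
    refine le_trans (Set.ncard_le_ncard ?_ (Set.toFinite _)) (Set.ncard_union_le _ _)
    rintro x (⟨hxN, hxZ⟩ | hx)
    · rcases hcov x (hNS hxN) hxZ with h2 | h2
      · exact Or.inl (Or.inl ⟨hxN, h2⟩)
      · by_cases h3 : x ∈ K1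
        · rw [hK1] at h3
          exact Or.inl (Or.inl ⟨hxN, h3.1⟩)
        · exact Or.inr ⟨⟨hxN, h2⟩, h3⟩
    · exact Or.inl (Or.inr hx)
  have h2 : ((N ∩ (B : Set W)) \ (K1 : Set W)).ncard + 3 ≤
      ((N ∩ (B : Set W)) ∪ (S ∩ (K1 : Set W))).ncard := by
    rw [← rooted_three S h0 K1 hd hS1, ← Set.ncard_union_eq ?_ (Set.toFinite _) (Set.toFinite _)]
    · refine Set.ncard_le_ncard ?_ (Set.toFinite _)
      rintro x (⟨hx, -⟩ | hx)
      · exact Or.inl hx
      · exact Or.inr hx
    · rw [Set.disjoint_left]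
      rintro x ⟨-, hx⟩ ⟨-, hx'⟩
      exact hx hx'
  have h3 := Submodule.finrank_sup_add_finrank_inf_eq A B
  rw [hAB, ← hK1, hd] at h3
  omega

end

theorem claimRooted (hInv : ClaimInv.{u}) (hPiece : ClaimPiece.{u}) (hTw : ClaimTwelve.{u}) :
    ClaimRooted.{u} := by
  intro W _ _ _ S N hNS h0 hK5 hFull hD hyp
  have : Finite W := rooted_finite
  have key : ∀ n : ℕ, ∀ Z F F' : Submodule (ZMod 2) W, finrank (ZMod 2) Z = n → Sep S ⊤ F F' →
      F ⊓ F' ≤ Z → Z ≤ F → Inv S ⊤ Z →
      ((N ∩ (Z : Set W)) ∪ (S ∩ ((F ⊓ F' : Submodule (ZMod 2) W) : Set W))).ncard + 5 ≤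
        4 * finrank (ZMod 2) Z := by
    intro n
    induction n using Nat.strong_induction_on with
    | _ n ih =>
      intro Z F F' hn hsep hKZ hZF hinv
      obtain ⟨hK2, hKS⟩ := hFull F F' hsep
      set K := F ⊓ F' with hKdef
      have hXS : ∀ x ∈ (N ∩ (Z : Set W)) ∪ (S ∩ (K : Set W)), x ∈ S ∩ (Z : Set W) := by
        rintro x (⟨hxN, hxZ⟩ | ⟨hxS, hxK⟩)
        · exact ⟨hNS hxN, hxZ⟩
        · exact ⟨hxS, hKZ hxK⟩
      have hX0 : (0 : W) ∉ (N ∩ (Z : Set W)) ∪ (S ∩ (K : Set W)) := fun h => h0 (hXS _ h).1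
      have hXb := rooted_nz Z _ (fun x hx => (hXS x hx).2) hX0
      have hdim2 : 2 ≤ finrank (ZMod 2) Z := by
        have h := Submodule.finrank_mono hKZ
        omega
      have hXle : ((N ∩ (Z : Set W)) ∪ (S ∩ (K : Set W))).ncard ≤ (S ∩ (Z : Set W)).ncard :=
        Set.ncard_le_ncard hXS (Set.toFinite _)
      rcases lt_or_ge (finrank (ZMod 2) Z) 5 with hlt | hge
      · have hc : finrank (ZMod 2) Z = 2 ∨ finrank (ZMod 2) Z = 3 ∨ finrank (ZMod 2) Z = 4 := by
          omega
        rcases hc with hc | hc | hc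
        · rw [hc] at hXb ⊢
          omega
        · rw [hc] at hXb ⊢
          omega
        · obtain ⟨t1, -⟩ := hTw W S Z h0 hK5 hc
          rw [hc]
          rcases lt_or_ge (S ∩ (Z : Set W)).ncard 12 with h12 | h12
          · omega
          · have h13 : (S ∩ (Z : Set W)).ncard = 12 := le_antisymm t1 h12
            obtain ⟨x, hxS, hxZ, hxK, hxN⟩ := hyp Z F F' hsep hKZ hZF hc h13
            have h14 : ((N ∩ (Z : Set W)) ∪ (S ∩ (K : Set W))).ncard <
                (S ∩ (Z : Set W)).ncard := by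
              refine Set.ncard_lt_ncard ?_ (Set.toFinite _)
              refine ⟨hXS, fun hsub => ?_⟩
              rcases hsub (show x ∈ S ∩ (Z : Set W) from ⟨hxS, hxZ⟩) with h | h
              · exact hxN h.1
              · exact hxK h.2
            omega
      · by_cases hex : ∃ A B, Sep S Z A B
        · obtain ⟨A, B, hAB⟩ := hex
          obtain ⟨iA, iB, hsup⟩ := hInv W S ⊤ Z A B hFull hinv hAB
          obtain ⟨A', B', hsep', hA', hB', hint⟩ := hinv.2 A B hAB
          obtain ⟨hd1, hs1⟩ := hFull A' B' hsep'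
          obtain ⟨a1, a2, a3, a4, a5, a6⟩ := hAB
          have hlA : finrank (ZMod 2) A < n := by
            rw [← hn]
            exact Submodule.finrank_lt_finrank_of_lt (lt_of_le_of_ne a1 a3)
          have hlB : finrank (ZMod 2) B < n := by
            rw [← hn]
            exact Submodule.finrank_lt_finrank_of_lt (lt_of_le_of_ne a2 a4)
          have hcov : ∀ x ∈ K, x ∈ A ∨ x ∈ B := by
            intro x hx
            by_cases hx0 : x = 0
            · rw [hx0]
              exact Or.inl A.zero_mem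
            · exact a5 x (hKS x hx hx0) (hKZ hx)
          obtain ⟨b1, b2, b3, b4, b5, b6⟩ := hsep'
          rcases rooted_cover K A B hcov with hK | hK
          · have i1 := ih _ hlA A F F' rfl hsep hK (a1.trans hZF) iA
            have i2 := ih _ hlB B B' A' rfl
              ⟨b2, b1, b4, b3, fun x hx hx' => (b5 x hx hx').symm, by rw [inf_comm]; exact b6⟩
              (by rw [inf_comm, hint]; exact inf_le_right) (by rw [← hB']; exact inf_le_left) iB
            refine rooted_step S N hNS h0 K (B' ⊓ A') Z A B a5 hsup ?_ ?_ ?_ i1 i2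
            · rw [inf_comm, hint]
            · rw [inf_comm]
              exact hd1
            · rw [inf_comm]
              exact hs1
          · have i1 := ih _ hlB B F F' rfl hsep hK (a2.trans hZF) iB
            have i2 := ih _ hlA A A' B' rfl ⟨b1, b2, b3, b4, b5, b6⟩
              (by rw [hint]; exact inf_le_left) (by rw [← hA']; exact inf_le_left) iA
            refine rooted_step S N hNS h0 K (A' ⊓ B') Z B A (fun x hx hx' => (a5 x hx hx').symm)
              (by rw [sup_comm]; exact hsup) ?_ hd1 hs1 i1 i2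
            rw [hint, inf_comm]
        · have hne : Z ≠ ⊥ := by
            rintro rfl
            rw [finrank_bot] at hge
            omega
          classical
          have hp := hPiece W (Set.toFinite S).toFinset Z (finrank (ZMod 2) Z)
            (by simpa using h0) (by simpa using hK5) hne
            (by
              intro A B h
              exact hex ⟨A, B, by simpa using h⟩) rfl
            (hD _ hge (Submodule.finrank_le Z))
          have hp2 : (S ∩ (Z : Set W)).ncard + 5 ≤ 4 * finrank (ZMod 2) Z := by simpa using hp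
          omega
  intro Z F F' h1 h2 h3 h4
  exact key _ Z F F' rfl h1 h2 h3 h4

end Pool.Agent.WW

end

section

/-!
# Item B7: coverings of a good set and of its contraction
-/

namespace Pool.Agent.WW

open Submodule Module

universe u

/-- dimension of the preimage under a contraction -/
theorem c4_finrank_comap {V W : Type*} [AddCommGroup V] [Module (ZMod 2) V]
    [FiniteDimensional (ZMod 2) V] [AddCommGroup W] [Module (ZMod 2) W]
    (π : V →ₗ[ZMod 2] W) (e : V) (hπ : Function.Surjective π)
    (hker : ∀ v, π v = 0 ↔ v = 0 ∨ v = e) (he : e ≠ 0) (A : Submodule (ZMod 2) W) :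
    finrank (ZMod 2) ↥(A.comap π) = finrank (ZMod 2) A + 1 := by
  have hk : LinearMap.ker π = span (ZMod 2) {e} := by
    ext v
    rw [LinearMap.mem_ker, hker, mem_span_singleton]
    constructor
    · rintro (rfl | rfl)
      · exact ⟨0, zero_smul _ _⟩
      · exact ⟨1, one_smul _ _⟩
    · rintro ⟨a, rfl⟩
      have hz : ∀ z : ZMod 2, z = 0 ∨ z = 1 := by decide
      rcases hz a with rfl | rfl
      · left; exact zero_smul _ _
      · right; exact one_smul _ _
  have hle : LinearMap.ker π ≤ A.comap π := by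
    intro v hv
    rw [LinearMap.mem_ker] at hv
    rw [mem_comap, hv]
    exact zero_mem _
  have h1 := LinearMap.finrank_range_add_finrank_ker (π.domRestrict (A.comap π))
  rw [LinearMap.ker_domRestrict, (Submodule.comapSubtypeEquivOfLe hle).finrank_eq, hk,
    finrank_span_singleton he, LinearMap.range_domRestrict,
    Submodule.map_comap_eq_of_surjective hπ] at h1
  exact h1.symm

/-- B7: vertical 4-connectivity as a statement on coverings, and for the contraction -/
theorem claimSepGe : ClaimSepGe.{u} := by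
  intro V _ _ _ W _ _ _ _ E hE hdim
  have h0 := hE.zero
  have hs := hE.span
  have hne : ∀ A : Submodule (ZMod 2) V, A ≠ ⊤ → ∃ a ∈ (E : Set V), a ∉ A := by
    intro A hA
    by_contra hcon
    push Not at hcon
    apply hA
    rw [eq_top_iff, ← hs]
    exact span_le.2 hcon
  have hmain : SepGe (E : Set V) 3 := by
    intro A B hA hB hcov
    have hsup : A ⊔ B = ⊤ := by
      rw [eq_top_iff, ← hs]
      refine span_le.2 fun x hx => ?_
      rcases hcov x hx with h | h
      · exact mem_sup_left h
      · exact mem_sup_right h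
    have h1 := Submodule.finrank_sup_add_finrank_inf_eq A B
    rw [hsup, finrank_top] at h1
    rcases Nat.lt_or_ge (finrank (ZMod 2) A) 3 with h | h
    · have hB3 : 3 ≤ finrank (ZMod 2) B := by omega
      rw [inf_comm]
      exact link_cond (E : Set V) hs hE.vc B A hB3 (hne B hB) (fun x hx => (hcov x hx).symm)
    · exact link_cond (E : Set V) hs hE.vc A B h (hne A hA) hcov
  refine ⟨hmain, ?_⟩
  intro π e hπ hker he
  have he0 : e ≠ 0 := by
    rintro rfl
    exact h0 he
  refine ⟨?_, ?_⟩
  · rw [contr, Finset.coe_erase, Finset.coe_image, Submodule.span_sdiff_singleton_zero,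
      ← map_span, hs, Submodule.map_top, LinearMap.range_eq_top.2 hπ]
  · intro A B hA hB hcov
    have hcA : ∀ A : Submodule (ZMod 2) W, A ≠ ⊤ → A.comap π ≠ ⊤ := by
      intro A hA h
      apply hA
      have h1 := Submodule.map_comap_eq_of_surjective hπ A
      rw [h, Submodule.map_top, LinearMap.range_eq_top.2 hπ] at h1
      exact h1.symm
    have h1 := hmain (A.comap π) (B.comap π) (hcA A hA) (hcA B hB) (by
      intro x hx
      by_cases hx0 : π x = 0
      · left
        rw [mem_comap, hx0]
        exact zero_mem _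
      · exact hcov (π x) (by
          rw [contr, Finset.mem_coe, Finset.mem_erase]
          exact ⟨hx0, Finset.mem_image_of_mem π (Finset.mem_coe.1 hx)⟩))
    rw [← Submodule.comap_inf, c4_finrank_comap π e hπ hker he0] at h1
    omega

end Pool.Agent.WW

end

section

/-!
E1: separations around a `P12`.
-/

namespace Pool.Agent.WW

open Submodule Module

universe u

section SepQAux

variable {W : Type u} [AddCommGroup W] [Module (ZMod 2) W] [FiniteDimensional (ZMod 2) W]

/-- the complement of a line in a four-dimensional space is not covered by two proper subspaces -/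
theorem sepQ_side {Q L A B : Submodule (ZMod 2) W} (hQ : finrank (ZMod 2) Q = 4)
    (hL : finrank (ZMod 2) L = 2) (hcov : ∀ y ∈ Q, y ∉ L → y ∈ A ∨ y ∈ B) :
    Q ≤ A ∨ Q ≤ B := by
  by_contra hcon
  push Not at hcon
  obtain ⟨hA, hB⟩ := hcon
  obtain ⟨a, haQ, haA⟩ := Set.not_subset.1 hA
  obtain ⟨b, hbQ, hbB⟩ := Set.not_subset.1 hB
  have haQ' : a ∈ Q := haQ
  have hbQ' : b ∈ Q := hbQ
  have haA' : a ∉ A := haA
  have hbB' : b ∉ B := hbB
  obtain ⟨v, hvQ, hvA, hvB⟩ : ∃ v ∈ Q, v ∉ A ∧ v ∉ B := by
    by_cases h1 : a ∈ B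
    · by_cases h2 : b ∈ A
      · refine ⟨a + b, add_mem haQ' hbQ', fun h => haA' ?_, fun h => hbB' ?_⟩
        · have := sub_mem h h2
          rwa [add_sub_cancel_right] at this
        · have := sub_mem h h1
          rwa [add_sub_cancel_left] at this
      · exact ⟨b, hbQ', h2, hbB'⟩
    · exact ⟨a, haQ', haA', h1⟩
  obtain ⟨f, hfv, hfA⟩ := Submodule.exists_le_ker_of_notMem hvA
  obtain ⟨g, hgv, hgB⟩ := Submodule.exists_le_ker_of_notMem hvB
  let h : Q →ₗ[ZMod 2] (ZMod 2 × ZMod 2) := (f.prod g).comp Q.subtype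
  have hker : ∀ w : Q, w ∈ LinearMap.ker h ↔ f (w : W) = 0 ∧ g (w : W) = 0 := by
    intro w
    rw [LinearMap.mem_ker]
    show ((f (w : W), g (w : W)) : ZMod 2 × ZMod 2) = 0 ↔ _
    rw [Prod.mk_eq_zero]
  have hrank := LinearMap.finrank_range_add_finrank_ker h
  have hrange : finrank (ZMod 2) (LinearMap.range h) ≤ 2 := by
    have := Submodule.finrank_le (LinearMap.range h)
    have h2 : finrank (ZMod 2) (ZMod 2 × ZMod 2) = 2 := by
      rw [Module.finrank_prod, Module.finrank_self]
    rwa [h2] at this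
  have hstep : ∀ w ∈ Q, f w = 0 → g w = 0 → v + w ∈ L := by
    intro w hw hfw hgw
    by_contra hn
    rcases hcov (v + w) (add_mem hvQ hw) hn with h1 | h1
    · have := hfA h1
      rw [LinearMap.mem_ker, map_add, hfw, add_zero] at this
      exact hfv this
    · have := hgB h1
      rw [LinearMap.mem_ker, map_add, hgw, add_zero] at this
      exact hgv this
  have hvL : v ∈ L := by
    have := hstep 0 (zero_mem _) (map_zero _) (map_zero _)
    rwa [add_zero] at this
  have hle : map Q.subtype (LinearMap.ker h) ≤ L := by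
    rintro _ ⟨w, hw, rfl⟩
    obtain ⟨h1, h2⟩ := (hker w).1 hw
    have := sub_mem (hstep w w.2 h1 h2) hvL
    rwa [add_sub_cancel_left] at this
  have hlt : map Q.subtype (LinearMap.ker h) < L := by
    refine lt_of_le_of_ne hle fun he => ?_
    rw [← he] at hvL
    obtain ⟨w, hw, hwv⟩ := hvL
    obtain ⟨h1, _⟩ := (hker w).1 hw
    have hwv' : (w : W) = v := hwv
    rw [hwv'] at h1
    exact hfv h1
  have := Submodule.finrank_lt_finrank_of_lt hlt
  rw [finrank_map_subtype_eq, hL] at this
  omega

end SepQAux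

theorem claimSepQ (hSub : ClaimSub.{u}) : ClaimSepQ.{u} := by
  intro W _ _ _ S Q L Z h0 hfree hQ hL hLQ hP hQZ hne
  have hex : ∃ A B, Sep S Z A B := by
    by_contra hcon
    push Not at hcon
    have hZ : Z ≠ ⊥ := by
      rintro rfl
      have : Q = ⊥ := le_bot_iff.1 hQZ
      rw [this, finrank_bot] at hQ
      omega
    have hG := hSub W S Z h0 hfree hZ hcon
    have hU : finrank (ZMod 2) (comap Z.subtype Q) = 4 := by
      rw [(Submodule.comapSubtypeEquivOfLe hQZ).finrank_eq, hQ]
    have hL' : finrank (ZMod 2) (comap Z.subtype L) = 2 := by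
      rw [(Submodule.comapSubtypeEquivOfLe (hLQ.trans hQZ)).finrank_eq, hL]
    have hout : ∃ a ∈ ((fun x : Z => (x : W)) ⁻¹' S), a ∉ comap Z.subtype Q := by
      by_contra hcon2
      push Not at hcon2
      have h1 : span (ZMod 2) ((fun x : Z => (x : W)) ⁻¹' S) ≤ comap Z.subtype Q :=
        span_le.2 hcon2
      rw [hG.span] at h1
      apply hne
      refine le_antisymm hQZ fun z hz => ?_
      have := h1 (mem_top : (⟨z, hz⟩ : Z) ∈ ⊤)
      exact this
    obtain ⟨w, hw1, hw2, hw3⟩ := no_p12 hG (comap Z.subtype Q) (comap Z.subtype L) hU hL'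
      (comap_mono hLQ) hout
    exact hw3 (hP w hw1 hw2)
  obtain ⟨A, B, hs⟩ := hex
  have hcov : ∀ y ∈ Q, y ∉ L → y ∈ A ∨ y ∈ B := fun y hy hyL =>
    hs.2.2.2.2.1 y (hP y hy hyL) (hQZ hy)
  rcases sepQ_side hQ hL hcov with h | h
  · exact ⟨A, B, hs, h⟩
  · obtain ⟨h1, h2, h3, h4, h5, h6⟩ := hs
    refine ⟨B, A, ⟨h2, h1, h4, h3, fun x hx hxZ => (h5 x hx hxZ).symm, ?_⟩, h⟩
    rw [inf_comm]
    exact h6

end Pool.Agent.WW

end

section

namespace Pool.Agent.WW

open Submodule Module

universe u

namespace Small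

variable {V : Type*} [AddCommGroup V] [Module (ZMod 2) V]

theorem even_deg [DecidableEq V] (E : Finset V) (h0 : (0 : V) ∉ E) (e : V) (he : e ∈ E) :
    ∃ t, deg E e = 2 * t := by
  classical
  have hker : ∀ v, (span (ZMod 2) {e}).mkQ v = 0 ↔ v = 0 ∨ v = e := by
    intro v
    rw [Submodule.mkQ_apply, Submodule.Quotient.mk_eq_zero, Submodule.mem_span_singleton]
    constructor
    · rintro ⟨a, rfl⟩
      fin_cases a
      · left; exact zero_smul _ _
      · right; exact one_smul _ _
    · rintro (rfl | rfl)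
      · exact ⟨0, zero_smul _ _⟩
      · exact ⟨1, one_smul _ _⟩
  exact ⟨_, (card_DD (span (ZMod 2) {e}).mkQ E e hker h0 he).symm⟩

theorem deg_lt [DecidableEq V] (E : Finset V) (h0 : (0 : V) ∉ E) (e : V) (he : e ∈ E) :
    deg E e + 1 ≤ E.card := by
  unfold deg
  have : E.filter (fun a => a + e ∈ E) ⊆ E.erase e := by
    intro a ha
    rw [Finset.mem_filter] at ha
    rw [Finset.mem_erase]
    refine ⟨?_, ha.1⟩
    rintro rfl
    rw [r4_char] at ha
    exact h0 ha.2
  have h := Finset.card_le_card this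
  rw [Finset.card_erase_of_mem he] at h
  have : 0 < E.card := Finset.card_pos.2 ⟨e, he⟩
  omega

theorem deg_lt_two [DecidableEq V] (E : Finset V) (h0 : (0 : V) ∉ E) (e f : V) (he : e ∈ E)
    (hf : f ∈ E) (hne : f ≠ e) (hef : f + e ∉ E) : deg E e + 2 ≤ E.card := by
  unfold deg
  have : E.filter (fun a => a + e ∈ E) ⊆ (E.erase e).erase f := by
    intro a ha
    rw [Finset.mem_filter] at ha
    rw [Finset.mem_erase, Finset.mem_erase]
    refine ⟨?_, ?_, ha.1⟩
    · rintro rfl
      exact hef ha.2
    · rintro rfl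
      rw [r4_char] at ha
      exact h0 ha.2
  have h := Finset.card_le_card this
  have hfe : f ∈ E.erase e := Finset.mem_erase.2 ⟨hne, hf⟩
  have h1 := Finset.card_erase_add_one he
  have h2 := Finset.card_erase_add_one hfe
  omega

theorem seven [DecidableEq V] [FiniteDimensional (ZMod 2) V] (X : Finset V) (h0 : (0 : V) ∉ X)
    (h7 : X.card = 7) : tri X + 18 ≤ 8 * X.card ∨
    ∃ G : Submodule (ZMod 2) V, finrank (ZMod 2) G = 3 ∧ ∀ x, x ∈ X ↔ x ∈ G ∧ x ≠ 0 := by
  by_cases hcl : ∀ x ∈ X, ∀ y ∈ X, x ≠ y → x + y ∈ X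
  · right
    have hz : ∀ t : ZMod 2, t = 0 ∨ t = 1 := by decide
    let G : Submodule (ZMod 2) V :=
      { carrier := {x | x = 0 ∨ x ∈ X}
        zero_mem' := Or.inl rfl
        add_mem' := by
          rintro a b (ha | ha) (hb | hb)
          · left; rw [ha, hb, add_zero]
          · right; rw [ha, zero_add]; exact hb
          · right; rw [hb, add_zero]; exact ha
          · by_cases hab : a = b
            · left; rw [hab, r4_char]
            · right; exact hcl a ha b hb hab
        smul_mem' := by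
          rintro c x (hx | hx)
          · left; rw [hx, smul_zero]
          · rcases hz c with hc | hc
            · left; rw [hc, zero_smul]
            · right; rw [hc, one_smul]; exact hx }
    have hG : ∀ x, x ∈ G ↔ x = 0 ∨ x ∈ X := fun x => Iff.rfl
    refine ⟨G, ?_, ?_⟩
    · have hfin : Finite G := Module.finite_of_finite (ZMod 2)
      let _ : Fintype G := Fintype.ofFinite G
      have h1 : Fintype.card G = 2 ^ finrank (ZMod 2) G := by
        have := Module.card_eq_pow_finrank (K := ZMod 2) (V := G)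
        rwa [ZMod.card] at this
      have h2 : Fintype.card G = 8 := by
        have h3 : (insert 0 X : Finset V).card = 8 := by
          rw [Finset.card_insert_of_notMem h0, h7]
        rw [← h3]
        apply Fintype.card_of_subtype
        intro x
        rw [Finset.mem_insert, hG]
      rw [h2] at h1
      have h4 : (2 : ℕ) ^ 3 = 2 ^ finrank (ZMod 2) G := by rw [← h1]; norm_num
      exact (Nat.pow_right_injective le_rfl h4).symm
    · intro x
      rw [hG]
      constructor
      · intro hx
        exact ⟨Or.inr hx, fun h => h0 (h ▸ hx)⟩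
      · rintro ⟨hx | hx, hne⟩
        · exact absurd hx hne
        · exact hx
  · left
    push Not at hcl
    obtain ⟨x, hx, y, hy, hxy, hs⟩ := hcl
    have ex := even_deg X h0 x hx
    have ey := even_deg X h0 y hy
    have dx := deg_lt_two X h0 x y hx hy hxy.symm (by rwa [add_comm])
    have dy := deg_lt_two X h0 y x hy hx hxy hs
    have hsum : ∑ z ∈ X, deg X z = tri X := sum_deg X h0
    have hyx : y ∈ X.erase x := Finset.mem_erase.2 ⟨hxy.symm, hy⟩
    rw [← Finset.add_sum_erase X _ hx, ← Finset.add_sum_erase (X.erase x) _ hyx] at hsum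
    have hrest : ∑ z ∈ (X.erase x).erase y, deg X z ≤ ∑ _z ∈ (X.erase x).erase y, 6 := by
      apply Finset.sum_le_sum
      intro z hz
      have := deg_lt X h0 z (Finset.mem_of_mem_erase (Finset.mem_of_mem_erase hz))
      omega
    rw [Finset.sum_const, smul_eq_mul] at hrest
    have c1 := Finset.card_erase_add_one hx
    have c2 := Finset.card_erase_add_one hyx
    obtain ⟨s, hs1⟩ := ex
    obtain ⟨t, ht1⟩ := ey
    omega

theorem tri_zero [DecidableEq V] (C : Finset V) (h0C : (0 : V) ∈ C) :
    3 * (C.card - 1) + 1 ≤ tri C := by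
  set X := C.erase 0 with hX
  have hXcard : X.card + 1 = C.card := Finset.card_erase_add_one h0C
  have hX0 : (0 : V) ∉ X := Finset.notMem_erase _ _
  have : (({((0 : V), (0 : V))} : Finset (V × V)) ∪ X.image (fun x => ((0 : V), x)) ∪
      X.image (fun x => (x, (0 : V))) ∪ X.image (fun x => (x, x))).card = 3 * X.card + 1 := by
    rw [Finset.card_union_of_disjoint, Finset.card_union_of_disjoint,
      Finset.card_union_of_disjoint, Finset.card_image_of_injective,
      Finset.card_image_of_injective, Finset.card_image_of_injective, Finset.card_singleton]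
    · ring
    · intro x y hxy
      exact (Prod.mk.inj hxy).1
    · intro x y hxy
      exact (Prod.mk.inj hxy).1
    · intro x y hxy
      exact (Prod.mk.inj hxy).2
    · rw [Finset.disjoint_left]
      intro p hp hq
      obtain ⟨x, hx, rfl⟩ := Finset.mem_image.1 hq
      rw [Finset.mem_singleton] at hp
      have := (Prod.mk.inj hp).2
      exact hX0 (this ▸ hx)
    · rw [Finset.disjoint_left]
      intro p hp hq
      obtain ⟨x, hx, rfl⟩ := Finset.mem_image.1 hq
      rw [Finset.mem_union, Finset.mem_singleton, Finset.mem_image] at hp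
      rcases hp with hp | ⟨y, hy, hp⟩
      · have := (Prod.mk.inj hp).1
        exact hX0 (this ▸ hx)
      · have := (Prod.mk.inj hp).1
        exact hX0 (this ▸ hx)
    · rw [Finset.disjoint_left]
      intro p hp hq
      obtain ⟨x, hx, rfl⟩ := Finset.mem_image.1 hq
      rw [Finset.mem_union, Finset.mem_union, Finset.mem_singleton, Finset.mem_image,
        Finset.mem_image] at hp
      rcases hp with (hp | ⟨y, hy, hp⟩) | ⟨y, hy, hp⟩
      · have := (Prod.mk.inj hp).1
        exact hX0 (this ▸ hx)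
      · have := (Prod.mk.inj hp).1
        exact hX0 (this ▸ hx)
      · have := (Prod.mk.inj hp).2
        exact hX0 (this ▸ hx)
  have h2 : 3 * (C.card - 1) + 1 = 3 * X.card + 1 := by omega
  rw [h2, ← this]
  unfold tri
  apply Finset.card_le_card
  intro p hp
  rw [Finset.mem_union, Finset.mem_union, Finset.mem_union, Finset.mem_singleton,
    Finset.mem_image, Finset.mem_image, Finset.mem_image] at hp
  rw [Finset.mem_filter, Finset.mem_product]
  rcases hp with ((rfl | ⟨y, hy, rfl⟩) | ⟨y, hy, rfl⟩) | ⟨y, hy, rfl⟩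
  · simpa using h0C
  · have := Finset.mem_of_mem_erase hy
    simp [h0C, this]
  · have := Finset.mem_of_mem_erase hy
    simp [h0C, this]
  · have := Finset.mem_of_mem_erase hy
    simp [r4_char, h0C, this]

theorem rank_four [DecidableEq V] [Fintype V] (hV : Fintype.card V = 16) (X : Finset V)
    (h0 : (0 : V) ∉ X) (h8 : 8 ≤ X.card) (h10 : X.card ≤ 10) : tri X + 18 ≤ 8 * X.card := by
  have hcount := r4_count X
  rw [hV] at hcount
  have hcompl : X.card + Xᶜ.card = 16 := by
    rw [Finset.card_add_card_compl, hV]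
  have htC := tri_zero Xᶜ (by simpa using h0)
  have hc : X.card = 8 ∨ X.card = 9 ∨ X.card = 10 := by omega
  rcases hc with h | h | h
  · have h1 : Xᶜ.card = 8 := by omega
    rw [h1] at hcount htC
    omega
  · have h1 : Xᶜ.card = 7 := by omega
    rw [h1] at hcount htC
    omega
  · have h1 : Xᶜ.card = 6 := by omega
    rw [h1] at hcount htC
    omega

end Small

theorem claimSmall : ClaimSmall.{u} := by
  intro V _ _ _ _ E h0 h3
  refine ⟨?_, Small.seven E h0, ?_⟩
  · intro h6
    have h := r4_tri_le_card E h0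
    generalize E.card = k at *
    interval_cases k <;> omega
  · intro h8 h10 hrk
    classical
    set U := span (ZMod 2) (E : Set V) with hU
    let F : Finset U := E.attach.image (fun x => (⟨x.1, subset_span x.2⟩ : U))
    have hmem : ∀ x : U, x ∈ F ↔ (x : V) ∈ E := by
      intro x
      constructor
      · intro hx
        obtain ⟨y, -, rfl⟩ := Finset.mem_image.1 hx
        exact y.2
      · intro hx
        exact Finset.mem_image.2 ⟨⟨x.1, hx⟩, Finset.mem_attach _ _, Subtype.ext rfl⟩
    have hFE : F.image (U.subtype) = E := by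
      ext x
      rw [Finset.mem_image]
      constructor
      · rintro ⟨y, hy, rfl⟩
        exact (hmem y).1 hy
      · intro hx
        exact ⟨⟨x, subset_span hx⟩, (hmem _).2 hx, rfl⟩
    have hcard : F.card = E.card := by
      rw [← hFE, Finset.card_image_of_injective _ U.subtype_injective]
    have htri : tri F = tri E := by
      unfold tri
      apply Finset.card_bij (fun p _ => ((p.1 : V), (p.2 : V)))
      · intro p hp
        rw [Finset.mem_filter, Finset.mem_product] at hp ⊢
        exact ⟨⟨(hmem _).1 hp.1.1, (hmem _).1 hp.1.2⟩, (hmem _).1 hp.2⟩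
      · intro p _ q _ h
        rw [Prod.mk.injEq] at h
        exact Prod.ext (Subtype.ext h.1) (Subtype.ext h.2)
      · intro p hp
        rw [Finset.mem_filter, Finset.mem_product] at hp
        refine ⟨(⟨p.1, subset_span hp.1.1⟩, ⟨p.2, subset_span hp.1.2⟩), ?_, rfl⟩
        rw [Finset.mem_filter, Finset.mem_product]
        exact ⟨⟨(hmem _).2 hp.1.1, (hmem _).2 hp.1.2⟩, (hmem _).2 hp.2⟩
    have hF0 : (0 : U) ∉ F := fun h => h0 ((hmem 0).1 h)
    have hfin : Finite U := Module.finite_of_finite (ZMod 2)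
    let _ : Fintype U := Fintype.ofFinite U
    have hcU : Fintype.card U = 2 ^ finrank (ZMod 2) U := by
      have := Module.card_eq_pow_finrank (K := ZMod 2) (V := U)
      rwa [ZMod.card] at this
    have hlt : F.card < Fintype.card U := Finset.card_lt_univ_of_notMem hF0
    have hr : finrank (ZMod 2) U = 4 := by
      by_contra hne
      have h1 : finrank (ZMod 2) U ≤ 3 := by omega
      have h2 : 2 ^ finrank (ZMod 2) U ≤ 2 ^ 3 := Nat.pow_le_pow_right (by norm_num) h1
      omega
    rw [hr] at hcU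
    have := Small.rank_four (by rw [hcU]; norm_num) F hF0 (by omega) (by omega)
    omega

end Pool.Agent.WW

end

section

/-!
Item E5: normal form of a star with three independent differences in a 3-dimensional space.
-/

namespace Pool.Agent.WW

open Submodule Module

universe u

/-- Boolean form of the table of stars -/
def starNormChk (a b c : ℕ) : Bool :=
  [0, a, b, c].any fun v => starReps.any fun t => t.all fun s => [0, a, b, c].contains (v ^^^ s)

theorem starNorm_tab0 : ∀ a < 8, ∀ b < 8, ∀ c < 8,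
    (a == 0 || b == 0 || c == 0 || a == b || a == c || b == c || a ^^^ b == c ||
      starNormChk a b c) = true := by
  decide

theorem starNorm_tab (a : ℕ) (ha : a < 8) (b : ℕ) (hb : b < 8) (c : ℕ) (hc : c < 8) (a0 : a ≠ 0)
    (b0 : b ≠ 0) (c0 : c ≠ 0) (ab : a ≠ b) (ac : a ≠ c) (bc : b ≠ c) (abc : a ^^^ b ≠ c) :
    ∃ v ∈ [0, a, b, c], ∃ t ∈ starReps, ∀ s ∈ t, (v ^^^ s) ∈ [0, a, b, c] := by
  have h := starNorm_tab0 a ha b hb c hc
  simp only [Bool.or_eq_true, beq_iff_eq, a0, b0, c0, ab, ac, bc, abc, false_or] at h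
  unfold starNormChk at h
  rw [List.any_eq_true] at h
  obtain ⟨v, hv, h⟩ := h
  rw [List.any_eq_true] at h
  obtain ⟨t, ht, h⟩ := h
  rw [List.all_eq_true] at h
  exact ⟨v, hv, t, ht, fun s hs => List.contains_iff_mem.1 (h s hs)⟩

theorem starNorm_span_lt : ∀ k ∈ spanList [1, 2, 4], k < 8 := by decide

theorem starNorm_code {V : Type*} [AddCommGroup V] [Module (ZMod 2) V] (g : Fin 3 → V) (v : V)
    (hv : v ∈ span (ZMod 2) (Set.range g)) : ∃ n < 8, v = comb g n := by
  have h1 : Set.range g ⊆ comb g '' {c | c ∈ [1, 2, 4]} := by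
    rintro _ ⟨i, rfl⟩
    fin_cases i
    · exact ⟨1, by simp, by simp [comb, Fin.sum_univ_three, Nat.testBit]⟩
    · exact ⟨2, by simp, by simp [comb, Fin.sum_univ_three, Nat.testBit]⟩
    · exact ⟨4, by simp, by simp [comb, Fin.sum_univ_three, Nat.testBit]⟩
  obtain ⟨k, hk, rfl⟩ := exists_spanList g [1, 2, 4] v (span_mono h1 hv)
  exact ⟨k, starNorm_span_lt k hk, rfl⟩

/-- E5: normal form of a star with three independent differences in a 3-dimensional space -/
theorem claimStar : ClaimStar.{u} := by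
  intro V _ _ _ E K x g hg hx h3
  obtain ⟨w, hw, hli⟩ := fano_exists_three _ h3
  obtain ⟨a, ha, hwa⟩ := starNorm_code g (w 0) (hw 0).1
  obtain ⟨b, hb, hwb⟩ := starNorm_code g (w 1) (hw 1).1
  obtain ⟨c, hc, hwc⟩ := starNorm_code g (w 2) (hw 2).1
  have a0 : a ≠ 0 := by
    rintro rfl
    exact hli.ne_zero 0 (by rw [hwa, comb_zero])
  have b0 : b ≠ 0 := by
    rintro rfl
    exact hli.ne_zero 1 (by rw [hwb, comb_zero])
  have c0 : c ≠ 0 := by
    rintro rfl
    exact hli.ne_zero 2 (by rw [hwc, comb_zero])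
  have ab : a ≠ b := by
    rintro rfl
    have := hli.injective (hwa.trans hwb.symm)
    exact absurd this (by decide)
  have ac : a ≠ c := by
    rintro rfl
    have := hli.injective (hwa.trans hwc.symm)
    exact absurd this (by decide)
  have bc : b ≠ c := by
    rintro rfl
    have := hli.injective (hwb.trans hwc.symm)
    exact absurd this (by decide)
  have abc : a ^^^ b ≠ c := by
    intro h
    have h4 : w 0 + w 1 = w 2 := by rw [hwa, hwb, hwc, ← comb_xor, h]
    have h5 : ∑ i : Fin 3, (1 : ZMod 2) • w i = 0 := by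
      rw [Fin.sum_univ_three, one_smul, one_smul, one_smul, h4, ZModModule.add_self]
    have h6 := Fintype.linearIndependent_iff.1 hli (fun _ => 1) h5 0
    exact one_ne_zero h6
  obtain ⟨v, hv, t, ht, hts⟩ := starNorm_tab a ha b hb c hc a0 b0 c0 ab ac bc abc
  have key : ∀ n ∈ [0, a, b, c], comb g n ∈ span (ZMod 2) (Set.range g) ∧
      Pres E K (x + comb g n) := by
    intro n hn
    simp only [List.mem_cons, List.not_mem_nil, or_false] at hn
    rcases hn with rfl | rfl | rfl | rfl
    · rw [comb_zero, add_zero]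
      exact ⟨zero_mem _, hx⟩
    · rw [← hwa]; exact hw 0
    · rw [← hwb]; exact hw 1
    · rw [← hwc]; exact hw 2
  refine ⟨x + comb g v, ?_, t, ht, ?_⟩
  · rw [← add_assoc, ZModModule.add_self, zero_add]
    exact (key v hv).1
  · intro s hs
    rw [add_assoc, ← comb_xor]
    exact (key _ (hts s hs)).2

end Pool.Agent.WW

end

section

/-!
A3: restriction to a subspace without separation.
-/

namespace Pool.Agent.WW

open Submodule Module

universe u

private lemma add_self_sub' {V : Type*} [AddCommGroup V] [Module (ZMod 2) V] (v : V) :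
    v + v = 0 := by
  have h : (2 : ZMod 2) = 0 := rfl
  rw [← two_smul (ZMod 2) v, h, zero_smul]

theorem claimSub : ClaimSub.{u} := by
  intro V _ _ _ S Z h0 hK hZ hsep
  have hinj : Function.Injective Z.subtype := Z.injective_subtype
  set S' : Set Z := (fun x : Z => (x : V)) ⁻¹' S with hS'
  refine ⟨?_, ?_, ?_, ?_⟩
  · intro h
    exact h0 h
  · have hY : span (ZMod 2) (S ∩ (Z : Set V)) = Z := by
      by_contra hne
      refine hsep (span (ZMod 2) (S ∩ (Z : Set V))) ⊥ ⟨?_, bot_le, hne, fun h => hZ h.symm, ?_, ?_⟩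
      · rw [span_le]
        exact Set.inter_subset_right
      · intro x hx hxZ
        exact Or.inl (subset_span ⟨hx, hxZ⟩)
      · rw [inf_bot_eq, finrank_bot]
        omega
    apply Submodule.map_injective_of_injective hinj
    rw [map_span, Submodule.map_top, range_subtype]
    refine Eq.trans ?_ hY
    congr 1
    ext x
    constructor
    · rintro ⟨y, hy, rfl⟩
      exact ⟨hy, y.2⟩
    · rintro ⟨hx, hxZ⟩
      have hxZ' : x ∈ Z := hxZ
      exact ⟨⟨x, hxZ'⟩, hx, rfl⟩
  · intro H' ⟨a, haS, haH⟩ ⟨b, hbS, hbH, hbn⟩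
    by_contra hlt
    have hle : finrank (ZMod 2) ↥(span (ZMod 2) (S' \ (H' : Set Z)) ⊓ H') ≤ 2 := by omega
    refine hsep (map Z.subtype H') (map Z.subtype (span (ZMod 2) (S' \ (H' : Set Z))))
      ⟨map_subtype_le _ _, map_subtype_le _ _, ?_, ?_, ?_, ?_⟩
    · intro h
      have : (a : V) ∈ map Z.subtype H' := by rw [h]; exact a.2
      obtain ⟨y, hy, hya⟩ := this
      have : y = a := Subtype.ext hya
      exact haH (this ▸ hy)
    · intro h
      have : (b : V) ∈ map Z.subtype (span (ZMod 2) (S' \ (H' : Set Z))) := by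
        rw [h]; exact b.2
      obtain ⟨y, hy, hyb⟩ := this
      have : y = b := Subtype.ext hyb
      exact hbn (this ▸ hy)
    · intro x hx hxZ
      by_cases hxH : (⟨x, hxZ⟩ : Z) ∈ H'
      · exact Or.inl ⟨⟨x, hxZ⟩, hxH, rfl⟩
      · refine Or.inr ⟨⟨x, hxZ⟩, subset_span ⟨hx, hxH⟩, rfl⟩
    · rw [← Submodule.map_inf _ hinj, inf_comm, finrank_map_subtype_eq]
      exact hle
  · intro h
    refine hK (HasK5.of_map Z.subtype S' S ⊥ bot_le ?_ ?_ h)
    · intro w hw
      rw [mem_bot] at hw
      exact hinj (by rw [hw, map_zero])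
    · intro w hw
      refine ⟨(w : V), hw, ?_⟩
      show (w : V) + (w : V) ∈ _
      rw [add_self_sub']
      exact zero_mem _

end Pool.Agent.WW

end

section

/-!
# Item A2: line sums of free sets
-/

namespace Pool.Agent.WW

open Submodule Module

universe u

section

variable {V : Type u} [AddCommGroup V] [Module (ZMod 2) V]

private lemma sum_add_self (v : V) : v + v = 0 := by
  have h : (2 : ZMod 2) = 0 := rfl
  rw [← two_smul (ZMod 2) v, h, zero_smul]

/-- splitting of the elements of `K` -/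
private lemma sum_split {N : Set V} {F F' K : Submodule (ZMod 2) V}
    (hcov : ∀ x ∈ N, x ∈ F ∨ x ∈ F') (hG : Gen N K) {v : V} (hv : v ∈ K) :
    ∃ k1 ∈ span (ZMod 2) ((N ∩ (F : Set V)) ∩ ((K ⊓ F : Submodule (ZMod 2) V) : Set V)),
      ∃ k2 ∈ K ⊓ F', v = k1 + k2 := by
  have h1 : K ≤ span (ZMod 2) ((N ∩ (F : Set V)) ∩ ((K ⊓ F : Submodule (ZMod 2) V) : Set V)) ⊔
      (K ⊓ F') := by
    refine hG.trans (span_le.2 ?_)
    rintro x ⟨hx, hxK⟩
    rcases hcov x hx with h | h
    · exact mem_sup_left (subset_span ⟨⟨hx, h⟩, ⟨hxK, h⟩⟩)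
    · exact mem_sup_right ⟨hxK, h⟩
  obtain ⟨k1, hk1, k2, hk2, h⟩ := mem_sup.1 (h1 hv)
  exact ⟨k1, hk1, k2, hk2, h.symm⟩

private lemma sum_span_le {N : Set V} {F K : Submodule (ZMod 2) V} :
    span (ZMod 2) ((N ∩ (F : Set V)) ∩ ((K ⊓ F : Submodule (ZMod 2) V) : Set V)) ≤ K ⊓ F :=
  span_le.2 fun _ hx => hx.2

/-- (a) -/
private lemma sum_meet {N : Set V} {F F' K : Submodule (ZMod 2) V}
    (hcov : ∀ x ∈ N, x ∈ F ∨ x ∈ F') (hG : Gen N K) {z : V} (h1 : z ∈ F ⊔ K)
    (h2 : z ∈ F' ⊔ K) : ∃ g ∈ F ⊓ F', ∃ k ∈ K, z = g + k := by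
  obtain ⟨f, hf, k, hk, rfl⟩ := mem_sup.1 h1
  obtain ⟨f', hf', l, hl, he⟩ := mem_sup.1 h2
  obtain ⟨k1, hk1, k2, hk2, rfl⟩ := sum_split (F' := F') hcov hG hk
  obtain ⟨l1, hl1, l2, hl2, rfl⟩ := sum_split (F' := F') hcov hG hl
  have hk1' := sum_span_le hk1
  have hl1' := sum_span_le hl1
  -- f + k1 + k2 = f' + l1 + l2
  have e : f + k1 - l1 = f' + l2 - k2 := by
    have : f' + (l1 + l2) = f + (k1 + k2) := he
    have e2 : f' + l2 - k2 = f' + (l1 + l2) - l1 - k2 := by abel
    rw [e2, this]
    abel
  have hgF : f + k1 - l1 ∈ F := sub_mem (add_mem hf hk1'.2) hl1'.2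
  have hgF' : f + k1 - l1 ∈ F' := by
    rw [e]
    exact sub_mem (add_mem hf' hl2.2) hk2.2
  refine ⟨f + k1 - l1, ⟨hgF, hgF'⟩, l1 + k2, add_mem hl1'.1 hk2.1, ?_⟩
  abel

private lemma sum_one {N : Set V} {F F' K : Submodule (ZMod 2) V}
    (hcov : ∀ x ∈ N, x ∈ F ∨ x ∈ F') (hK : ∀ k ∈ F ⊓ F', k ≠ 0 → k ∈ N) (hG : Gen N K)
    {s : Fin 4 → V} (hi : ∀ c : Fin 4 → ZMod 2, ∑ i, c i • s i ∈ K → c = 0)
    (hp : ∀ i, Pres N K (s i)) (hpp : ∀ i j, i ≠ j → Pres N K (s i + s j))
    (hs : ∀ i, s i ∈ F ⊔ K) : HasK5 (N ∩ (F : Set V)) := by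
  have hs' : ∀ i, ∃ a ∈ F, ∃ t ∈ K, a + t = s i := fun i => mem_sup.1 (hs i)
  choose a ha t ht hat using hs'
  have hpres : ∀ v ∈ F, v ∉ K → Pres N K v → Pres (N ∩ (F : Set V)) (K ⊓ F) v := by
    rintro v hvF hvK ⟨x, hx, hxv⟩
    rcases hcov x hx with h | h
    · exact ⟨x, ⟨hx, h⟩, ⟨hxv, add_mem h hvF⟩⟩
    · have e : x = v + (x + v) := by
        rw [add_comm x v, ← add_assoc, sum_add_self, zero_add]
      have h1 : x ∈ F ⊔ K := by
        rw [e]
        exact add_mem (mem_sup_left hvF) (mem_sup_right hxv)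
      obtain ⟨g, hg, k, hk, hgk⟩ := sum_meet hcov hG h1 (mem_sup_left h)
      have h2 : g + v ∈ K := by
        have : g + v = (x + v) - k := by rw [hgk]; abel
        rw [this]
        exact sub_mem hxv hk
      have hg0 : g ≠ 0 := by
        rintro rfl
        rw [zero_add] at h2
        exact hvK h2
      exact ⟨g, ⟨hK g hg hg0, hg.1⟩, ⟨h2, add_mem hg.1 hvF⟩⟩
  have hsa : ∀ i, s i - a i ∈ K := fun i => by
    rw [← hat i, add_sub_cancel_left]
    exact ht i
  have hind1 : ∀ i, s i ∉ K := by
    intro i h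
    have h1 := hi (Pi.single i 1) (by
      rw [Finset.sum_eq_single i]
      · rw [Pi.single_eq_same, one_smul]; exact h
      · intro j _ hj
        rw [Pi.single_eq_of_ne hj, zero_smul]
      · intro h; exact absurd (Finset.mem_univ i) h)
    have h2 := congrFun h1 i
    rw [Pi.single_eq_same] at h2
    exact one_ne_zero h2
  have hind2 : ∀ i j, i ≠ j → s i + s j ∉ K := by
    intro i j hij h
    have h1 := hi (Pi.single i 1 + Pi.single j 1) (by
      simp only [Pi.add_apply, add_smul, Finset.sum_add_distrib]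
      have e : ∀ l : Fin 4, ∑ k, (Pi.single l (1 : ZMod 2) : Fin 4 → ZMod 2) k • s k = s l := by
        intro l
        rw [Finset.sum_eq_single l]
        · rw [Pi.single_eq_same, one_smul]
        · intro k _ hk
          rw [Pi.single_eq_of_ne hk, zero_smul]
        · intro h; exact absurd (Finset.mem_univ l) h
      rw [e i, e j]
      exact h)
    have h2 := congrFun h1 i
    rw [Pi.add_apply, Pi.single_eq_same, Pi.single_eq_of_ne hij, add_zero] at h2
    exact one_ne_zero h2
  refine ⟨K ⊓ F, ?_, a, ?_, ?_, ?_⟩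
  · intro v hv
    obtain ⟨k1, hk1, k2, hk2, rfl⟩ := sum_split (F' := F') hcov hG hv.1
    refine add_mem hk1 ?_
    have hk1' := sum_span_le hk1
    have hk2F : k2 ∈ F := by
      have := sub_mem hv.2 hk1'.2
      rwa [add_sub_cancel_left] at this
    by_cases h0 : k2 = 0
    · rw [h0]; exact zero_mem _
    · exact subset_span ⟨⟨hK k2 ⟨hk2F, hk2.2⟩ h0, hk2F⟩, ⟨hk2.1, hk2F⟩⟩
  · intro c hc
    apply hi
    have e : ∑ i, c i • s i = ∑ i, c i • a i + ∑ i, c i • (s i - a i) := by
      rw [← Finset.sum_add_distrib]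
      refine Finset.sum_congr rfl fun i _ => ?_
      rw [← smul_add]
      congr 1
      abel
    rw [e]
    exact add_mem hc.1 (sum_mem fun i _ => smul_mem _ _ (hsa i))
  · intro i
    refine hpres (a i) (ha i) ?_ ?_
    · intro h
      apply hind1 i
      have := add_mem h (hsa i)
      rwa [add_sub_cancel] at this
    · obtain ⟨x, hx, hxs⟩ := hp i
      refine ⟨x, hx, ?_⟩
      have : x + a i = (x + s i) - (s i - a i) := by abel
      rw [this]
      exact sub_mem hxs (hsa i)
  · intro i j hij
    refine hpres (a i + a j) (add_mem (ha i) (ha j)) ?_ ?_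
    · intro h
      apply hind2 i j hij
      have : s i + s j = (a i + a j) + (s i - a i) + (s j - a j) := by abel
      rw [this]
      exact add_mem (add_mem h (hsa i)) (hsa j)
    · obtain ⟨x, hx, hxs⟩ := hpp i j hij
      refine ⟨x, hx, ?_⟩
      have : x + (a i + a j) = (x + (s i + s j)) - (s i - a i) - (s j - a j) := by abel
      rw [this]
      exact sub_mem (sub_mem hxs (hsa i)) (hsa j)

end

/-- A2: line sums -/
theorem claimSum : ClaimSum.{u} := by
  intro V _ _ _ N F F' hcov hK hN
  obtain ⟨K, hG, s, hi, hp, hpp⟩ := hN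
  have hin : ∀ v, Pres N K v → v ∈ F ⊔ K ∨ v ∈ F' ⊔ K := by
    rintro v ⟨x, hx, hxv⟩
    have e : v = (x + v) - x := by abel
    rcases hcov x hx with h | h
    · left
      rw [e]
      exact sub_mem (mem_sup_right hxv) (mem_sup_left h)
    · right
      rw [e]
      exact sub_mem (mem_sup_right hxv) (mem_sup_left h)
  by_cases h : ∀ i, s i ∈ F' ⊔ K
  · right
    exact sum_one (fun x hx => (hcov x hx).symm) (fun k hk => hK k ⟨hk.2, hk.1⟩) hG hi hp hpp h
  · left
    push Not at h
    obtain ⟨i, hiF'⟩ := h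
    have hiF : s i ∈ F ⊔ K := (hin _ (hp i)).resolve_right hiF'
    refine sum_one hcov hK hG hi hp hpp fun j => ?_
    by_contra hj
    have hjF' : s j ∈ F' ⊔ K := (hin _ (hp j)).resolve_left hj
    have hij : i ≠ j := by
      rintro rfl
      exact hj hiF
    rcases hin _ (hpp i j hij) with h1 | h1
    · apply hj
      have := sub_mem h1 hiF
      rwa [add_sub_cancel_left] at this
    · apply hiF'
      have := sub_mem h1 hjF'
      rwa [add_sub_cancel_right] at this

end Pool.Agent.WW

end
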