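import Pool.Agent.Work.MP_a8f287_co.Bd.T05
import Pool.Agent.Work.MP_a8f287_co.Bd.B01

/-! Part of the former bundles, compiled separately. -/

section

/-!
Gluing two odd triangles through a common hub in rank five: a finite check with certificates.
-/

namespace Pool.Agent.WW

open Submodule Module

/-- certificates: entry `(c1, c2)` codes `C + 32 s0 + 32^2 s1 + 32^3 s2 + 32^4 s3` -/
def glueTab : List (List Nat) := [
    [0, 0, 0, 0, 0, 0, 0, 0, 0, 0, 0, 0, 0, 0, 0, 0, 0, 0, 0, 0, 0, 0, 0, 0, 0, 0, 0, 0, 0, 0,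
    0, 0],
    [0, 0, 0, 0, 0, 0, 0, 0, 0, 0, 0, 0, 0, 0, 0, 0, 0, 0, 0, 0, 0, 0, 0, 0, 0, 0, 0, 0, 0, 0,
    0, 0],
    [0, 0, 0, 0, 1152523, 1119784, 3215976, 2201192, 1156615, 1123876, 3220068, 2205284,
    1123877, 1123876, 3220068, 2205284, 0, 0, 0, 0, 4740840, 5822152, 6871723, 7921288, 8939364,
    10020676, 11070247, 12119812, 8939364, 10020676, 12119813, 12119812],
    [0, 0, 0, 0, 1151528, 1118731, 3216968, 2200136, 1155620, 1122823, 3221060, 2204228,
    1155620, 1155621, 3221060, 2204228, 0, 0, 0, 0, 4772552, 5788392, 6839947, 7887528, 8971076,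
    9986916, 11038471, 12086052, 8971076, 9986916, 12086053, 12086052],
    [0, 0, 1152523, 1151528, 0, 0, 2265768, 3282600, 1155623, 1189410, 1189411, 1189410,
    5382818, 4368034, 5382818, 4368034, 0, 0, 2641640, 3722952, 0, 0, 6871723, 7887528, 8939426,
    10020738, 8939426, 10020738, 12086055, 14219010, 14219011, 14219010],
    [0, 0, 1119784, 1118731, 0, 0, 3314312, 2233992, 1221154, 1123879, 1221154, 1221155,
    5383810, 4366978, 5383810, 4366978, 0, 0, 2673352, 3689192, 0, 0, 6839947, 7921288, 8971138,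
    9986978, 8971138, 9986978, 12119815, 14185250, 14185251, 14185250],
    [0, 0, 3215976, 3216968, 2265768, 3314312, 0, 0, 1221155, 1189410, 3220068, 1189410,
    5382818, 4368034, 5382818, 4368034, 0, 0, 2673384, 3689192, 4772584, 5788392, 0, 0, 8939426,
    10020738, 8939426, 10020738, 8939364, 14219010, 14185251, 14219010],
    [0, 0, 2201192, 2200136, 3282600, 2233992, 0, 0, 1221154, 1189411, 1221154, 2204228,
    5383810, 4366978, 5383810, 4366978, 0, 0, 2641608, 3722952, 4740808, 5822152, 0, 0, 8971138,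
    9986978, 8971138, 9986978, 8971076, 14185250, 14219011, 14185250],
    [0, 0, 1156615, 1155620, 1155623, 1221154, 1221155, 1221154, 0, 0, 2401060, 3417892,
    4498210, 5515042, 4498210, 5515042, 0, 0, 2641764, 3723076, 4741026, 5822338, 4741026,
    5822338, 0, 0, 11070247, 12086052, 12086055, 14185250, 14185251, 14185250],
    [0, 0, 1123876, 1122823, 1189410, 1123879, 1189410, 1189411, 0, 0, 3449604, 2369284,
    5546754, 4466434, 5546754, 4466434, 0, 0, 2673476, 3689316, 4772738, 5788578, 4772738,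
    5788578, 0, 0, 11038471, 12119812, 12119815, 14219010, 14219011, 14219010],
    [0, 0, 3220068, 3221060, 1189411, 1221154, 3220068, 1221154, 2401060, 3449604, 0, 0,
    4498210, 5515042, 4498210, 5515042, 0, 0, 2673508, 3689316, 4741026, 5822338, 4741026,
    5822338, 8971108, 9986916, 0, 0, 8971108, 14185250, 14219011, 14185250],
    [0, 0, 2205284, 2204228, 1189410, 1221155, 1189410, 2204228, 3417892, 2369284, 0, 0,
    5546754, 4466434, 5546754, 4466434, 0, 0, 2641732, 3723076, 4772738, 5788578, 4772738,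
    5788578, 8939332, 10020676, 0, 0, 8939332, 14219010, 14185251, 14219010],
    [0, 0, 1123877, 1155620, 5382818, 5383810, 5382818, 5383810, 4498210, 5546754, 4498210,
    5546754, 0, 0, 2401060, 3417892, 0, 0, 2641764, 3723076, 4772770, 5788578, 4772770, 5788578,
    8971170, 9986978, 8971170, 9986978, 0, 0, 12119813, 12086052],
    [0, 0, 1123876, 1155621, 4368034, 4366978, 4368034, 4366978, 5515042, 4466434, 5515042,
    4466434, 0, 0, 3449604, 2369284, 0, 0, 2673476, 3689316, 4740994, 5822338, 4740994, 5822338,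
    8939394, 10020738, 8939394, 10020738, 0, 0, 12086053, 12119812],
    [0, 0, 3220068, 3221060, 5382818, 5383810, 5382818, 5383810, 4498210, 5546754, 4498210,
    5546754, 2401060, 3449604, 0, 0, 0, 0, 2673508, 3689316, 4772770, 5788578, 4772770, 5788578,
    8971170, 9986978, 8971170, 9986978, 8971108, 9986916, 0, 0],
    [0, 0, 2205284, 2204228, 4368034, 4366978, 4368034, 4366978, 5515042, 4466434, 5515042,
    4466434, 3417892, 2369284, 0, 0, 0, 0, 2641732, 3723076, 4740994, 5822338, 4740994, 5822338,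
    8939394, 10020738, 8939394, 10020738, 8939332, 10020676, 0, 0],
    [0, 0, 0, 0, 0, 0, 0, 0, 0, 0, 0, 0, 0, 0, 0, 0, 0, 0, 0, 0, 0, 0, 0, 0, 0, 0, 0, 0, 0, 0,
    0, 0],
    [0, 0, 0, 0, 0, 0, 0, 0, 0, 0, 0, 0, 0, 0, 0, 0, 0, 0, 0, 0, 0, 0, 0, 0, 0, 0, 0, 0, 0, 0,
    0, 0],
    [0, 0, 0, 0, 2641640, 2673352, 2673384, 2641608, 2641764, 2673476, 2673508, 2641732,
    2641764, 2673476, 2673508, 2641732, 0, 0, 0, 0, 1624744, 1593000, 1688296, 1656552, 1624868,
    1593124, 1688420, 1656676, 1624868, 1593124, 1688420, 1656676],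
    [0, 0, 0, 0, 3722952, 3689192, 3689192, 3722952, 3723076, 3689316, 3689316, 3723076,
    3723076, 3689316, 3689316, 3723076, 0, 0, 0, 0, 1593000, 1624744, 1688296, 1656552, 1593124,
    1624868, 1688420, 1656676, 1593124, 1624868, 1688420, 1656676],
    [0, 0, 4740840, 4772552, 0, 0, 4772584, 4740808, 4741026, 4772738, 4741026, 4772738,
    4772770, 4740994, 4772770, 4740994, 0, 0, 1624744, 1593000, 0, 0, 1759784, 1728040, 1626914,
    1595170, 1626914, 1595170, 1754018, 1722274, 1754018, 1722274],
    [0, 0, 5822152, 5788392, 0, 0, 5788392, 5822152, 5822338, 5788578, 5822338, 5788578,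
    5788578, 5822338, 5788578, 5822338, 0, 0, 1593000, 1624744, 0, 0, 1759784, 1728040, 1595170,
    1626914, 1595170, 1626914, 1754018, 1722274, 1754018, 1722274],
    [0, 0, 6871723, 6839947, 6871723, 6839947, 0, 0, 4741026, 4772738, 4741026, 4772738,
    4772770, 4740994, 4772770, 4740994, 0, 0, 1688296, 1688296, 1759784, 1759784, 0, 0, 1626914,
    1595170, 1626914, 1595170, 1754018, 1722274, 1754018, 1722274],
    [0, 0, 7921288, 7887528, 7887528, 7921288, 0, 0, 5822338, 5788578, 5822338, 5788578,
    5788578, 5822338, 5788578, 5822338, 0, 0, 1656552, 1656552, 1728040, 1728040, 0, 0, 1595170,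
    1626914, 1595170, 1626914, 1754018, 1722274, 1754018, 1722274],
    [0, 0, 8939364, 8971076, 8939426, 8971138, 8939426, 8971138, 0, 0, 8971108, 8939332,
    8971170, 8939394, 8971170, 8939394, 0, 0, 1624868, 1593124, 1626914, 1595170, 1626914,
    1595170, 0, 0, 1894948, 1863204, 1896994, 1865250, 1896994, 1865250],
    [0, 0, 10020676, 9986916, 10020738, 9986978, 10020738, 9986978, 0, 0, 9986916, 10020676,
    9986978, 10020738, 9986978, 10020738, 0, 0, 1593124, 1624868, 1595170, 1626914, 1595170,
    1626914, 0, 0, 1894948, 1863204, 1896994, 1865250, 1896994, 1865250],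
    [0, 0, 11070247, 11038471, 8939426, 8971138, 8939426, 8971138, 11070247, 11038471, 0, 0,
    8971170, 8939394, 8971170, 8939394, 0, 0, 1688420, 1688420, 1626914, 1595170, 1626914,
    1595170, 1894948, 1894948, 0, 0, 1896994, 1865250, 1896994, 1865250],
    [0, 0, 12119812, 12086052, 10020738, 9986978, 10020738, 9986978, 12086052, 12119812, 0, 0,
    9986978, 10020738, 9986978, 10020738, 0, 0, 1656676, 1656676, 1595170, 1626914, 1595170,
    1626914, 1863204, 1863204, 0, 0, 1896994, 1865250, 1896994, 1865250],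
    [0, 0, 8939364, 8971076, 12086055, 12119815, 8939364, 8971076, 12086055, 12119815, 8971108,
    8939332, 0, 0, 8971108, 8939332, 0, 0, 1624868, 1593124, 1754018, 1754018, 1754018, 1754018,
    1896994, 1896994, 1896994, 1896994, 0, 0, 1894948, 1863204],
    [0, 0, 10020676, 9986916, 14219010, 14185250, 14219010, 14185250, 14185250, 14219010,
    14185250, 14219010, 0, 0, 9986916, 10020676, 0, 0, 1593124, 1624868, 1722274, 1722274,
    1722274, 1722274, 1865250, 1865250, 1865250, 1865250, 0, 0, 1894948, 1863204],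
    [0, 0, 12119813, 12086053, 14219011, 14185251, 14185251, 14219011, 14185251, 14219011,
    14219011, 14185251, 12119813, 12086053, 0, 0, 0, 0, 1688420, 1688420, 1754018, 1754018,
    1754018, 1754018, 1896994, 1896994, 1896994, 1896994, 1894948, 1894948, 0, 0],
    [0, 0, 12119812, 12086052, 14219010, 14185250, 14219010, 14185250, 14185250, 14219010,
    14185250, 14219010, 12086052, 12119812, 0, 0, 0, 0, 1656676, 1656676, 1722274, 1722274,
    1722274, 1722274, 1865250, 1865250, 1865250, 1865250, 1863204, 1863204, 0, 0]]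

/-- the present codes -/
def glueCodes (c1 c2 : Nat) : List Nat :=
  [1, 2, 4, 8, 3, 5, 9, 7, 13, 11, c1, c2, 16, c1 ^^^ 1, c2 ^^^ 1, 17,
    c1 ^^^ c2 ^^^ 1, c2 ^^^ 17, c1 ^^^ 17]

/-- the sum of the codes `1, c1, c2, 16` selected by the bits of `m` -/
def glueSum (c1 c2 m : Nat) : Nat :=
  (if m.testBit 0 then 1 else 0) ^^^ ((if m.testBit 1 then c1 else 0) ^^^
    ((if m.testBit 2 then c2 else 0) ^^^ (if m.testBit 3 then 16 else 0)))

/-- the Boolean check for the pair `(c1, c2)` with table entry `t` -/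
def glueOK (c1 c2 t : Nat) : Bool :=
  ((List.range 16).any fun m => (m != 0) && (glueSum c1 c2 m == 0)) ||
  checkK5 (mask (glueCodes c1 c2)) [t % 32] (t / 32 % 32) (t / 1024 % 32) (t / 32768 % 32)
    (t / 1048576)

theorem glue_table : ((List.range 32).all fun c1 => (List.range 32).all fun c2 =>
    glueOK c1 c2 ((glueTab.getD c1 []).getD c2 0)) = true := by
  decide +kernel

variable {V : Type*} [AddCommGroup V] [Module (ZMod 2) V]

/-- four vectors spanning a 4-space that meets `K` trivially are independent modulo `K` -/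
theorem glue_indep4 (K : Submodule (ZMod 2) V) (e p q r : V)
    (hU : finrank (ZMod 2) ↥(span (ZMod 2) {e, p, q, r}) = 4)
    (hK : K ⊓ span (ZMod 2) {e, p, q, r} = ⊥) (c : Fin 4 → ZMod 2)
    (h : ∑ i, c i • ![e, p, q, r] i ∈ K) : c = 0 := by
  have hr : Set.range ![e, p, q, r] = {e, p, q, r} := by
    ext x
    simp only [Matrix.range_cons, Matrix.range_empty, Set.union_empty, Set.singleton_union,
      Set.mem_insert_iff, Set.mem_singleton_iff]
  have hli : LinearIndependent (ZMod 2) ![e, p, q, r] := by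
    rw [linearIndependent_iff_card_eq_finrank_span, Set.finrank, hr, hU]
    simp
  have hmem : ∑ i, c i • ![e, p, q, r] i ∈ span (ZMod 2) {e, p, q, r} := by
    rw [← hr]
    exact Submodule.sum_mem _ fun i _ => Submodule.smul_mem _ _ (subset_span ⟨i, rfl⟩)
  have h0 : ∑ i, c i • ![e, p, q, r] i = 0 := by
    have : ∑ i, c i • ![e, p, q, r] i ∈ K ⊓ span (ZMod 2) {e, p, q, r} := ⟨h, hmem⟩
    rw [hK] at this
    exact (Submodule.mem_bot _).mp this
  funext i
  exact Fintype.linearIndependent_iff.mp hli c h0 i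

theorem glue_zmod2 (a : ZMod 2) : a = 0 ∨ a = 1 := by
  revert a; decide

theorem glue_add_self (v : V) : v + v = 0 := by
  have : (2 : ZMod 2) • v = v + v := two_smul _ v
  rw [← this, show (2 : ZMod 2) = 0 from rfl, zero_smul]

theorem glue_exists_code (c : Fin 5 → ZMod 2) :
    ∃ n < 32, ∀ i : Fin 5, n.testBit i = decide (c i = 1) := by
  revert c; decide +kernel

theorem glue_comb_eq_sum (b : Fin 5 → V) (c : Fin 5 → ZMod 2) (n : ℕ)
    (h : ∀ i : Fin 5, n.testBit i = decide (c i = 1)) : comb b n = ∑ i, c i • b i := by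
  unfold comb
  refine Finset.sum_congr rfl fun i _ => ?_
  rw [h i]
  rcases glue_zmod2 (c i) with h0 | h1
  · rw [h0]; simp
  · rw [h1]; simp

omit [Module (ZMod 2) V] in
theorem glue_comb_ite (b : Fin 5 → V) (t : Bool) (x : ℕ) :
    comb b (if t then x else 0) = if t then comb b x else 0 := by
  cases t
  · simp [comb]
  · simp

/-- the core case -/
theorem glue44_core (E : Set V) (K : Submodule (ZMod 2) V) (hK : Gen E K) (e p q r p' q' r' : V)
    (h1 : Del4 E e p q r) (h2 : Del4 E e p' q' r')
    (hU1 : finrank (ZMod 2) ↥(span (ZMod 2) {e, p, q, r}) = 4)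
    (hU2 : finrank (ZMod 2) ↥(span (ZMod 2) {e, p', q', r'}) = 4)
    (hK1 : K ⊓ span (ZMod 2) {e, p, q, r} = ⊥) (hK2 : K ⊓ span (ZMod 2) {e, p', q', r'} = ⊥)
    (h5 : finrank (ZMod 2) ↥(span (ZMod 2) {e, p, q, r} ⊔ span (ZMod 2) {e, p', q', r'} ⊔ K) =
      5 + finrank (ZMod 2) K) (hz : r' ∉ span (ZMod 2) {e, p, q, r} ⊔ K) : HasK5 E := by
  set b : Fin 5 → V := ![e, p, q, r, r'] with hbdef
  have i1 := glue_indep4 K e p q r hU1 hK1
  have i2 := glue_indep4 K e p' q' r' hU2 hK2
  have memU1 : ∀ x ∈ ({e, p, q, r} : Set V), x ∈ span (ZMod 2) {e, p, q, r} :=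
    fun x hx => subset_span hx
  have hb5 : ∀ c : Fin 5 → ZMod 2, ∑ i, c i • b i ∈ K → c = 0 := by
    intro c hc
    rw [Fin.sum_univ_five] at hc
    simp only [hbdef, Matrix.cons_val_zero, Matrix.cons_val_one, Matrix.cons_val] at hc
    rcases glue_zmod2 (c 4) with h0 | h1'
    · rw [h0, zero_smul, add_zero] at hc
      have := i1 ![c 0, c 1, c 2, c 3] (by
        rw [Fin.sum_univ_four]
        simpa only [Matrix.cons_val_zero, Matrix.cons_val_one, Matrix.cons_val] using hc)
      funext i
      fin_cases i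
      · exact congrFun this 0
      · exact congrFun this 1
      · exact congrFun this 2
      · exact congrFun this 3
      · exact h0
    · exfalso
      apply hz
      rw [h1', one_smul] at hc
      have hs : c 0 • e + c 1 • p + c 2 • q + c 3 • r ∈ span (ZMod 2) {e, p, q, r} := by
        refine Submodule.add_mem _ (Submodule.add_mem _ (Submodule.add_mem _ ?_ ?_) ?_) ?_
        · exact Submodule.smul_mem _ _ (memU1 e (by simp))
        · exact Submodule.smul_mem _ _ (memU1 p (by simp))
        · exact Submodule.smul_mem _ _ (memU1 q (by simp))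
        · exact Submodule.smul_mem _ _ (memU1 r (by simp))
      have := Submodule.sub_mem (span (ZMod 2) {e, p, q, r} ⊔ K) (Submodule.mem_sup_right hc)
        (Submodule.mem_sup_left hs)
      simpa using this
  have hbK : ∀ n < 2 ^ 5, comb b n ∈ K → n = 0 := fun n hn h => comb_mem_imp b K hb5 n hn h
  -- dimensions
  have hfd : FiniteDimensional (ZMod 2)
      ↥(span (ZMod 2) {e, p, q, r} ⊔ span (ZMod 2) {e, p', q', r'} ⊔ K) :=
    FiniteDimensional.of_finrank_pos (by omega)
  have hKle : K ≤ span (ZMod 2) {e, p, q, r} ⊔ span (ZMod 2) {e, p', q', r'} ⊔ K := le_sup_right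
  have hfK : FiniteDimensional (ZMod 2) K := Submodule.finiteDimensional_of_le hKle
  have hli : LinearIndependent (ZMod 2) b := by
    rw [Fintype.linearIndependent_iff]
    intro c hc i
    have := hb5 c (by rw [hc]; exact K.zero_mem)
    rw [this]; rfl
  have hfb : FiniteDimensional (ZMod 2) ↥(span (ZMod 2) (Set.range b)) :=
    FiniteDimensional.span_of_finite _ (Set.finite_range b)
  have hdb : finrank (ZMod 2) ↥(span (ZMod 2) (Set.range b)) = 5 := by
    have := finrank_span_eq_card hli
    simpa using this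
  have hinf : span (ZMod 2) (Set.range b) ⊓ K = ⊥ := by
    rw [eq_bot_iff]
    rintro x ⟨hx1, hx2⟩
    obtain ⟨c, hc⟩ := (Submodule.mem_span_range_iff_exists_fun _).mp hx1
    have := hb5 c (by rw [hc]; exact hx2)
    rw [this] at hc
    simp only [Pi.zero_apply, zero_smul, Finset.sum_const_zero] at hc
    rw [← hc]; exact Submodule.zero_mem _
  have hdS : finrank (ZMod 2) ↥(span (ZMod 2) (Set.range b) ⊔ K) = 5 + finrank (ZMod 2) K := by
    have := Submodule.finrank_sup_add_finrank_inf_eq (span (ZMod 2) (Set.range b)) K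
    rw [hinf, finrank_bot, hdb] at this
    omega
  have hle : span (ZMod 2) (Set.range b) ⊔ K ≤
      span (ZMod 2) {e, p, q, r} ⊔ span (ZMod 2) {e, p', q', r'} ⊔ K := by
    refine sup_le_sup_right ?_ K
    rw [span_le]
    rintro x ⟨i, rfl⟩
    fin_cases i
    · exact Submodule.mem_sup_left (memU1 e (by simp))
    · exact Submodule.mem_sup_left (memU1 p (by simp))
    · exact Submodule.mem_sup_left (memU1 q (by simp))
    · exact Submodule.mem_sup_left (memU1 r (by simp))
    · exact Submodule.mem_sup_right (subset_span (by simp [hbdef]))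
  have hST := Submodule.eq_of_le_of_finrank_eq hle (by rw [hdS, h5])
  have hcode : ∀ v ∈ span (ZMod 2) {e, p', q', r'}, ∃ n < 32, v + comb b n ∈ K := by
    intro v hv
    have hv' : v ∈ span (ZMod 2) (Set.range b) ⊔ K := by
      rw [hST]
      exact Submodule.mem_sup_left (Submodule.mem_sup_right hv)
    obtain ⟨y, hy, k, hk, rfl⟩ := Submodule.mem_sup.mp hv'
    obtain ⟨c, hc⟩ := (Submodule.mem_span_range_iff_exists_fun _).mp hy
    obtain ⟨n, hn, hbits⟩ := glue_exists_code c
    refine ⟨n, hn, ?_⟩
    rw [glue_comb_eq_sum b c n hbits, hc]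
    have : y + k + y = k + (y + y) := by abel
    rw [this, glue_add_self, add_zero]
    exact hk
  obtain ⟨c1, hc1, hp'⟩ := hcode p' (subset_span (by simp))
  obtain ⟨c2, hc2, hq'⟩ := hcode q' (subset_span (by simp))
  -- small combinations
  have k1 : comb b 1 = e := by simp [comb, Fin.sum_univ_five, Nat.testBit, hbdef]
  have k2 : comb b 2 = p := by simp [comb, Fin.sum_univ_five, Nat.testBit, hbdef]
  have k4 : comb b 4 = q := by simp [comb, Fin.sum_univ_five, Nat.testBit, hbdef]
  have k8 : comb b 8 = r := by simp [comb, Fin.sum_univ_five, Nat.testBit, hbdef]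
  have k16 : comb b 16 = r' := by simp [comb, Fin.sum_univ_five, Nat.testBit, hbdef]
  have k0 : comb b 0 = 0 := by simp [comb]
  -- the table
  have htab := glue_table
  rw [List.all_eq_true] at htab
  have htab1 := htab c1 (List.mem_range.mpr hc1)
  rw [List.all_eq_true] at htab1
  have hok := htab1 c2 (List.mem_range.mpr hc2)
  unfold glueOK at hok
  rw [Bool.or_eq_true] at hok
  rcases hok with hdep | hcert
  · exfalso
    rw [List.any_eq_true] at hdep
    obtain ⟨m, hm, hm2⟩ := hdep
    rw [Bool.and_eq_true, bne_iff_ne, beq_iff_eq] at hm2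
    obtain ⟨hm0, hsum⟩ := hm2
    have hm16 : m < 16 := List.mem_range.mp hm
    have hs := congrArg (comb b) hsum
    unfold glueSum at hs
    rw [comb_xor, comb_xor, comb_xor, glue_comb_ite, glue_comb_ite, glue_comb_ite, glue_comb_ite, k0, k1, k16] at hs
    have hz0 := i2 ![if m.testBit 0 then 1 else 0, if m.testBit 1 then 1 else 0,
      if m.testBit 2 then 1 else 0, if m.testBit 3 then 1 else 0] (by
        rw [Fin.sum_univ_four]
        simp only [Matrix.cons_val_zero, Matrix.cons_val_one, Matrix.cons_val, ite_smul, one_smul,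
          zero_smul]
        have e1 : (if m.testBit 1 then p' else 0) + (if m.testBit 1 then comb b c1 else 0) ∈ K := by
          split_ifs
          · exact hp'
          · simp
        have e2 : (if m.testBit 2 then q' else 0) + (if m.testBit 2 then comb b c2 else 0) ∈ K := by
          split_ifs
          · exact hq'
          · simp
        have e3 := Submodule.add_mem K e1 e2
        have e4 : (if m.testBit 0 then e else 0) + (if m.testBit 1 then p' else 0) +
            (if m.testBit 2 then q' else 0) + (if m.testBit 3 then r' else 0) =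
            ((if m.testBit 1 then p' else 0) + (if m.testBit 1 then comb b c1 else 0) +
            ((if m.testBit 2 then q' else 0) + (if m.testBit 2 then comb b c2 else 0))) +
            ((if m.testBit 0 then e else 0) + ((if m.testBit 1 then comb b c1 else 0) +
            ((if m.testBit 2 then comb b c2 else 0) + (if m.testBit 3 then r' else 0)))) := by
          have a1 := glue_add_self (if m.testBit 1 then comb b c1 else 0)
          have a2 := glue_add_self (if m.testBit 2 then comb b c2 else 0)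
          have : ((if m.testBit 1 then p' else 0) + (if m.testBit 1 then comb b c1 else 0) +
            ((if m.testBit 2 then q' else 0) + (if m.testBit 2 then comb b c2 else 0))) +
            ((if m.testBit 0 then e else 0) + ((if m.testBit 1 then comb b c1 else 0) +
            ((if m.testBit 2 then comb b c2 else 0) + (if m.testBit 3 then r' else 0)))) =
            (if m.testBit 0 then e else 0) + (if m.testBit 1 then p' else 0) +
            (if m.testBit 2 then q' else 0) + (if m.testBit 3 then r' else 0) +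
            (((if m.testBit 1 then comb b c1 else 0) + (if m.testBit 1 then comb b c1 else 0)) +
            ((if m.testBit 2 then comb b c2 else 0) + (if m.testBit 2 then comb b c2 else 0))) := by
            abel
          rw [this, a1, a2, add_zero, add_zero]
        rw [e4, hs, add_zero]
        exact e3)
    have z0 := congrFun hz0 0
    have z1 := congrFun hz0 1
    have z2 := congrFun hz0 2
    have z3 := congrFun hz0 3
    simp only [Matrix.cons_val_zero, Matrix.cons_val_one, Matrix.cons_val, Pi.zero_apply] at z0 z1 z2 z3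
    have fin : ∀ m < 16, (if m.testBit 0 then (1 : ZMod 2) else 0) = 0 →
      (if m.testBit 1 then (1 : ZMod 2) else 0) = 0 →
      (if m.testBit 2 then (1 : ZMod 2) else 0) = 0 →
      (if m.testBit 3 then (1 : ZMod 2) else 0) = 0 → m = 0 := by decide +kernel
    exact hm0 (fin m hm16 z0 z1 z2 z3)
  · refine hasK5_of_cert b E K hK hbK (mask (glueCodes c1 c2)) ?_ _ _ _ _ _ hcert
    intro n hn
    rw [testBit_mask] at hn
    obtain ⟨a0, a1, a2, a3, a4, a5, a6, a7, a8, a9⟩ := h1
    obtain ⟨b0, b1, b2, b3, b4, b5, b6, b7, b8, b9⟩ := h2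
    have hex : ∀ {x : V} {n : ℕ}, x ∈ E → comb b n = x → Pres E K (comb b n) := by
      intro x n hx h
      exact ⟨x, hx, by rw [h, glue_add_self]; exact K.zero_mem⟩
    have x3 : comb b 3 = p + e := by
      have hh : comb b 3 = comb b (2 ^^^ 1) := rfl
      rw [hh, comb_xor, k2, k1]
    have x5 : comb b 5 = q + e := by
      have hh : comb b 5 = comb b (4 ^^^ 1) := rfl
      rw [hh, comb_xor, k4, k1]
    have x9 : comb b 9 = r + e := by
      have hh : comb b 9 = comb b (8 ^^^ 1) := rfl
      rw [hh, comb_xor, k8, k1]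
    have x7 : comb b 7 = p + q + e := by
      have hh : comb b 7 = comb b (2 ^^^ 4 ^^^ 1) := rfl
      rw [hh, comb_xor, comb_xor, k2, k4, k1]
    have x13 : comb b 13 = q + r + e := by
      have hh : comb b 13 = comb b (4 ^^^ 8 ^^^ 1) := rfl
      rw [hh, comb_xor, comb_xor, k4, k8, k1]
    have x11 : comb b 11 = p + r + e := by
      have hh : comb b 11 = comb b (2 ^^^ 8 ^^^ 1) := rfl
      rw [hh, comb_xor, comb_xor, k2, k8, k1]
    have x17 : comb b 17 = r' + e := by
      have hh : comb b 17 = comb b (16 ^^^ 1) := rfl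
      rw [hh, comb_xor, k16, k1]
    have hx32 : ∀ {x y : ℕ}, x < 2 ^ 5 → y < 2 ^ 5 → x ^^^ y < 2 ^ 5 :=
      fun hx hy => Nat.xor_lt_two_pow hx hy
    have hc1' : c1 < 2 ^ 5 := hc1
    have hc2' : c2 < 2 ^ 5 := hc2
    simp only [glueCodes, List.mem_cons, List.not_mem_nil, or_false] at hn
    rcases hn with h | h | h | h | h | h | h | h | h | h | h | h | h | h | h | h | h | h | h <;>
      subst h
    · exact ⟨by norm_num, hex a0 k1⟩
    · exact ⟨by norm_num, hex a1 k2⟩
    · exact ⟨by norm_num, hex a2 k4⟩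
    · exact ⟨by norm_num, hex a3 k8⟩
    · exact ⟨by norm_num, hex a4 x3⟩
    · exact ⟨by norm_num, hex a5 x5⟩
    · exact ⟨by norm_num, hex a6 x9⟩
    · exact ⟨by norm_num, hex a7 x7⟩
    · exact ⟨by norm_num, hex a8 x13⟩
    · exact ⟨by norm_num, hex a9 x11⟩
    · exact ⟨hc1', p', b1, hp'⟩
    · exact ⟨hc2', q', b2, hq'⟩
    · exact ⟨by norm_num, hex b3 k16⟩
    · refine ⟨hx32 hc1' (by norm_num), p' + e, b4, ?_⟩
      rw [comb_xor, k1, show p' + e + (comb b c1 + e) = p' + comb b c1 + (e + e) by abel,
        glue_add_self, add_zero]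
      exact hp'
    · refine ⟨hx32 hc2' (by norm_num), q' + e, b5, ?_⟩
      rw [comb_xor, k1, show q' + e + (comb b c2 + e) = q' + comb b c2 + (e + e) by abel,
        glue_add_self, add_zero]
      exact hq'
    · exact ⟨by norm_num, hex b6 x17⟩
    · refine ⟨hx32 (hx32 hc1' hc2') (by norm_num), p' + q' + e, b7, ?_⟩
      rw [comb_xor, comb_xor, k1, show p' + q' + e + (comb b c1 + comb b c2 + e) =
        (p' + comb b c1) + (q' + comb b c2) + (e + e) by abel, glue_add_self, add_zero]
      exact Submodule.add_mem _ hp' hq'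
    · refine ⟨hx32 hc2' (by norm_num), q' + r' + e, b8, ?_⟩
      rw [comb_xor, x17, show q' + r' + e + (comb b c2 + (r' + e)) =
        (q' + comb b c2) + ((r' + r') + (e + e)) by abel, glue_add_self, glue_add_self, add_zero, add_zero]
      exact hq'
    · refine ⟨hx32 hc1' (by norm_num), p' + r' + e, b9, ?_⟩
      rw [comb_xor, x17, show p' + r' + e + (comb b c1 + (r' + e)) =
        (p' + comb b c1) + ((r' + r') + (e + e)) by abel, glue_add_self, glue_add_self, add_zero, add_zero]
      exact hp'

theorem glue44 (E : Set V) (K : Submodule (ZMod 2) V) (hK : Gen E K) (e p q r p' q' r' : V)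
    (h1 : Del4 E e p q r) (h2 : Del4 E e p' q' r')
    (hU1 : finrank (ZMod 2) ↥(span (ZMod 2) {e, p, q, r}) = 4)
    (hU2 : finrank (ZMod 2) ↥(span (ZMod 2) {e, p', q', r'}) = 4)
    (hK1 : K ⊓ span (ZMod 2) {e, p, q, r} = ⊥) (hK2 : K ⊓ span (ZMod 2) {e, p', q', r'} = ⊥)
    (h5 : finrank (ZMod 2) ↥(span (ZMod 2) {e, p, q, r} ⊔ span (ZMod 2) {e, p', q', r'} ⊔ K) =
      5 + finrank (ZMod 2) K) : HasK5 E := by
  by_cases hr : r' ∉ span (ZMod 2) {e, p, q, r} ⊔ K
  · exact glue44_core E K hK e p q r p' q' r' h1 h2 hU1 hU2 hK1 hK2 h5 hr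
  by_cases hp : p' ∉ span (ZMod 2) {e, p, q, r} ⊔ K
  · have hset : ({e, p', q', r'} : Set V) = {e, q', r', p'} := by
      ext x; simp only [Set.mem_insert_iff, Set.mem_singleton_iff]; tauto
    rw [hset] at hU2 hK2 h5
    obtain ⟨b0, b1, b2, b3, b4, b5, b6, b7, b8, b9⟩ := h2
    exact glue44_core E K hK e p q r q' r' p' h1
      ⟨b0, b2, b3, b1, b5, b6, b4, b8, by rwa [add_comm r' p'], by rwa [add_comm q' p']⟩
      hU1 hU2 hK1 hK2 h5 hp
  by_cases hq : q' ∉ span (ZMod 2) {e, p, q, r} ⊔ K
  · have hset : ({e, p', q', r'} : Set V) = {e, p', r', q'} := by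
      ext x; simp only [Set.mem_insert_iff, Set.mem_singleton_iff]; tauto
    rw [hset] at hU2 hK2 h5
    obtain ⟨b0, b1, b2, b3, b4, b5, b6, b7, b8, b9⟩ := h2
    exact glue44_core E K hK e p q r p' r' q' h1
      ⟨b0, b1, b3, b2, b4, b6, b5, b9, by rwa [add_comm r' q'], b7⟩
      hU1 hU2 hK1 hK2 h5 hq
  exfalso
  rw [not_not] at hr hp hq
  have hfd : FiniteDimensional (ZMod 2)
      ↥(span (ZMod 2) {e, p, q, r} ⊔ span (ZMod 2) {e, p', q', r'} ⊔ K) :=
    FiniteDimensional.of_finrank_pos (by omega)
  have hKle : K ≤ span (ZMod 2) {e, p, q, r} ⊔ span (ZMod 2) {e, p', q', r'} ⊔ K := le_sup_right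
  have hfK : FiniteDimensional (ZMod 2) K := Submodule.finiteDimensional_of_le hKle
  have hfU : FiniteDimensional (ZMod 2) ↥(span (ZMod 2) {e, p, q, r}) :=
    FiniteDimensional.of_finrank_pos (by omega)
  have hle : span (ZMod 2) {e, p, q, r} ⊔ span (ZMod 2) {e, p', q', r'} ⊔ K ≤
      span (ZMod 2) {e, p, q, r} ⊔ K := by
    refine sup_le (sup_le le_sup_left ?_) le_sup_right
    rw [span_le]
    rintro x (rfl | rfl | rfl | rfl)
    · exact Submodule.mem_sup_left (subset_span (by simp))
    · exact hp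
    · exact hq
    · exact hr
  have h6 := Submodule.finrank_mono hle
  have h7 := Submodule.finrank_add_le_finrank_add_finrank (span (ZMod 2) {e, p, q, r}) K
  rw [h5] at h6
  rw [hU1] at h7
  omega

end Pool.Agent.WW

end
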