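import Pool.Agent.Work.MP_a8f287_co.Bd.B02
import Pool.Agent.Work.MP_a8f287_co.Bd.B01
import Pool.Agent.Work.MP_a8f287_co.Bd.B04
import Pool.Agent.Work.MP_a8f287_co.Bd.T01

/-! Bundle of small proof modules (one section per former module). -/

section

/-!
G2: the contraction inequality with lifted lines.
-/

set_option linter.unusedSimpArgs false
set_option linter.unusedSectionVars false

namespace Pool.Agent.WW

open Submodule Module

universe u

section TriL

variable {V W : Type*} [AddCommGroup V] [Module (ZMod 2) V]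
  [AddCommGroup W] [Module (ZMod 2) W] [DecidableEq V] [DecidableEq W] (π : V →ₗ[ZMod 2] W)
  (E : Finset V) (e : V)
  (hker : ∀ v, π v = 0 ↔ v = 0 ∨ v = e) (h0 : (0 : V) ∉ E) (he : e ∈ E)

include hker h0 he

theorem c4_triL_contr : tri E ≤ triL π E (contr π E) + 3 * deg E e + 3 * EE π E e := by
  classical
  set T := (E ×ˢ E).filter (fun p => p.1 + p.2 ∈ E) with hT
  set T1 := T.filter (fun p => p.1 = e) with hT1
  set T2 := T.filter (fun p => p.2 = e) with hT2
  set T3 := T.filter (fun p => p.1 + p.2 = e) with hT3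
  set T4 := T.filter (fun p => p.1 ≠ e ∧ p.2 ≠ e ∧ p.1 + p.2 ≠ e) with hT4
  have hcov : T ⊆ T1 ∪ (T2 ∪ (T3 ∪ T4)) := by
    intro p hp
    simp only [hT1, hT2, hT3, hT4, Finset.mem_union, Finset.mem_filter, hp, true_and]
    tauto
  have hc1 : T1.card ≤ deg E e := by
    refine Finset.card_le_card_of_injOn (fun p => p.2) ?_ ?_
    · intro p hp
      rw [Finset.mem_coe, hT1, Finset.mem_filter, hT, Finset.mem_filter, Finset.mem_product] at hp
      refine Finset.mem_coe.2 (Finset.mem_filter.2 ⟨hp.1.1.2, ?_⟩)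
      have := hp.1.2
      rwa [hp.2, add_comm] at this
    · intro p hp q hq hpq
      rw [Finset.mem_coe, hT1, Finset.mem_filter] at hp hq
      exact Prod.ext (hp.2.trans hq.2.symm) hpq
  have hc2 : T2.card ≤ deg E e := by
    refine Finset.card_le_card_of_injOn (fun p => p.1) ?_ ?_
    · intro p hp
      rw [Finset.mem_coe, hT2, Finset.mem_filter, hT, Finset.mem_filter, Finset.mem_product] at hp
      refine Finset.mem_coe.2 (Finset.mem_filter.2 ⟨hp.1.1.1, ?_⟩)
      have := hp.1.2
      rwa [hp.2] at this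
    · intro p hp q hq hpq
      rw [Finset.mem_coe, hT2, Finset.mem_filter] at hp hq
      exact Prod.ext hpq (hp.2.trans hq.2.symm)
  have hc3 : T3.card ≤ deg E e := by
    refine Finset.card_le_card_of_injOn (fun p => p.1) ?_ ?_
    · intro p hp
      rw [Finset.mem_coe, hT3, Finset.mem_filter, hT, Finset.mem_filter, Finset.mem_product] at hp
      refine Finset.mem_coe.2 (Finset.mem_filter.2 ⟨hp.1.1.1, ?_⟩)
      have : p.1 + e = p.2 := by rw [← hp.2, ← add_assoc, ctr_two_add, zero_add]
      change p.1 + e ∈ E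
      rw [this]
      exact hp.1.1.2
    · intro p hp q hq hpq
      rw [Finset.mem_coe, hT3, Finset.mem_filter] at hp hq
      have hpq' : p.1 = q.1 := hpq
      refine Prod.ext hpq' ?_
      have := hp.2.trans hq.2.symm
      rw [hpq'] at this
      exact add_left_cancel this
  -- the remaining pairs
  set S := (contr π E ×ˢ contr π E).filter
    (fun p => p.1 + p.2 ∈ contr π E ∧ Lif π E p.1 p.2) with hS
  have hmap : ∀ p ∈ T4, (π p.1, π p.2) ∈ S := by
    intro p hp
    rw [hT4, Finset.mem_filter, hT, Finset.mem_filter, Finset.mem_product] at hp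
    have hmem : ∀ a ∈ E, a ≠ e → π a ∈ contr π E := by
      intro a ha hae
      rw [ctr_contr_eq π E e hker h0]
      exact Finset.mem_image_of_mem _ (Finset.mem_erase.2 ⟨hae, ha⟩)
    rw [hS, Finset.mem_filter, Finset.mem_product]
    refine ⟨⟨hmem _ hp.1.1.1 hp.2.1, hmem _ hp.1.1.2 hp.2.2.1⟩, ?_,
      ⟨p.1, hp.1.1.1, p.2, hp.1.1.2, hp.1.2, rfl, rfl⟩⟩
    change π p.1 + π p.2 ∈ _
    rw [← map_add]
    exact hmem _ hp.1.2 hp.2.2.2
  let D := DD π E e
  have hfib : ∀ q ∈ S, (T4.filter (fun p => (π p.1, π p.2) = q)).card ≤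
      1 + ((if q.1 ∈ D ∧ q.2 ∈ D then 1 else 0) + (if q.2 ∈ D ∧ q.1 + q.2 ∈ D then 1 else 0) +
        (if q.1 ∈ D ∧ q.1 + q.2 ∈ D then 1 else 0)) := by
    intro q hq
    rw [hS, Finset.mem_filter, Finset.mem_product] at hq
    set A := E.filter (fun a => π a = q.1)
    set B := E.filter (fun a => π a = q.2)
    set C := E.filter (fun a => π a = q.1 + q.2)
    have hAB : (T4.filter (fun p => (π p.1, π p.2) = q)).card ≤ A.card * B.card := by
      rw [← Finset.card_product]
      refine Finset.card_le_card_of_injOn id ?_ (fun _ _ _ _ h => h)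
      intro p hp
      rw [Finset.mem_coe, Finset.mem_filter, hT4, Finset.mem_filter, hT, Finset.mem_filter,
        Finset.mem_product] at hp
      have h1 := congrArg Prod.fst hp.2
      have h2 := congrArg Prod.snd hp.2
      exact Finset.mem_coe.2 (Finset.mem_product.2 ⟨Finset.mem_filter.2 ⟨hp.1.1.1.1, h1⟩,
        Finset.mem_filter.2 ⟨hp.1.1.1.2, h2⟩⟩)
    have hAC : (T4.filter (fun p => (π p.1, π p.2) = q)).card ≤ A.card * C.card := by
      rw [← Finset.card_product]
      refine Finset.card_le_card_of_injOn (fun p => (p.1, p.1 + p.2)) ?_ ?_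
      · intro p hp
        rw [Finset.mem_coe, Finset.mem_filter, hT4, Finset.mem_filter, hT, Finset.mem_filter,
          Finset.mem_product] at hp
        have h1 : π p.1 = q.1 := congrArg Prod.fst hp.2
        have h2 : π p.2 = q.2 := congrArg Prod.snd hp.2
        refine Finset.mem_coe.2 (Finset.mem_product.2 ⟨Finset.mem_filter.2 ⟨hp.1.1.1.1, h1⟩,
          Finset.mem_filter.2 ⟨hp.1.1.2, ?_⟩⟩)
        change π (p.1 + p.2) = _
        rw [map_add, h1, h2]
      · intro p _ p' _ h
        obtain ⟨h1, h2⟩ := Prod.mk.inj (show (p.1, p.1 + p.2) = (p'.1, p'.1 + p'.2) from h)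
        rw [h1] at h2
        exact Prod.ext h1 (add_left_cancel h2)
    have hBC : (T4.filter (fun p => (π p.1, π p.2) = q)).card ≤ B.card * C.card := by
      rw [← Finset.card_product]
      refine Finset.card_le_card_of_injOn (fun p => (p.2, p.1 + p.2)) ?_ ?_
      · intro p hp
        rw [Finset.mem_coe, Finset.mem_filter, hT4, Finset.mem_filter, hT, Finset.mem_filter,
          Finset.mem_product] at hp
        have h1 : π p.1 = q.1 := congrArg Prod.fst hp.2
        have h2 : π p.2 = q.2 := congrArg Prod.snd hp.2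
        refine Finset.mem_coe.2 (Finset.mem_product.2 ⟨Finset.mem_filter.2 ⟨hp.1.1.1.2, h2⟩,
          Finset.mem_filter.2 ⟨hp.1.1.2, ?_⟩⟩)
        change π (p.1 + p.2) = _
        rw [map_add, h1, h2]
      · intro p _ p' _ h
        obtain ⟨h1, h2⟩ := Prod.mk.inj (show (p.2, p.1 + p.2) = (p'.2, p'.1 + p'.2) from h)
        rw [h1] at h2
        exact Prod.ext (add_right_cancel h2) h1
    have hA2 : A.card ≤ 2 := ctr_card_fib_le_two π E e hker q.1
    have hB2 : B.card ≤ 2 := ctr_card_fib_le_two π E e hker q.2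
    have hC2 : C.card ≤ 2 := ctr_card_fib_le_two π E e hker (q.1 + q.2)
    have hA1 : q.1 ∉ D → A.card ≤ 1 := fun h => ctr_card_fib_le π E e hker h0 h
    have hB1 : q.2 ∉ D → B.card ≤ 1 := fun h => ctr_card_fib_le π E e hker h0 h
    have hC1 : q.1 + q.2 ∉ D → C.card ≤ 1 := fun h => ctr_card_fib_le π E e hker h0 h
    have hm : ∀ x y : ℕ, ∀ a b : ℕ, x ≤ a → y ≤ b → x * y ≤ a * b :=
      fun x y a b h1 h2 => Nat.mul_le_mul h1 h2
    by_cases ha : q.1 ∈ D <;> by_cases hb : q.2 ∈ D <;> by_cases hc : q.1 + q.2 ∈ D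
    · simp only [ha, hb, hc, and_self, if_true]
      exact hAB.trans (hm _ _ 2 2 hA2 hB2)
    · simp only [ha, hb, hc, and_self, and_true, and_false, if_true, if_false]
      exact hBC.trans (hm _ _ 2 1 hB2 (hC1 hc))
    · simp only [ha, hb, hc, and_self, and_true, and_false, false_and, if_true, if_false]
      exact hBC.trans (hm _ _ 1 2 (hB1 hb) hC2)
    · simp only [ha, hb, hc, and_true, and_false, false_and, and_self, if_false]
      exact hBC.trans (hm _ _ 1 1 (hB1 hb) (hC1 hc))
    · simp only [ha, hb, hc, and_self, and_true, and_false, false_and, if_true, if_false]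
      exact hAB.trans (hm _ _ 1 2 (hA1 ha) hB2)
    · simp only [ha, hb, hc, and_true, and_false, false_and, and_self, if_false]
      exact hAC.trans (hm _ _ 1 1 (hA1 ha) (hC1 hc))
    · simp only [ha, hb, hc, and_true, and_false, false_and, and_self, if_false]
      exact hAB.trans (hm _ _ 1 1 (hA1 ha) (hB1 hb))
    · simp only [ha, hb, hc, and_false, and_self, if_false]
      exact hAB.trans (hm _ _ 1 1 (hA1 ha) (hB1 hb))
  have hDc : D ⊆ contr π E := by
    intro w hw
    have hw := Finset.mem_erase.1 hw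
    rw [contr, Finset.mem_erase]
    refine ⟨hw.1, ?_⟩
    exact Finset.image_subset_image (Finset.filter_subset _ _) hw.2
  have hs1 : (S.filter (fun q => q.1 ∈ D ∧ q.2 ∈ D)).card ≤ EE π E e := by
    refine Finset.card_le_card_of_injOn id ?_ (fun _ _ _ _ h => h)
    intro q hq
    rw [Finset.mem_coe, Finset.mem_filter, hS, Finset.mem_filter] at hq
    exact Finset.mem_coe.2 (Finset.mem_filter.2 ⟨Finset.mem_product.2 hq.2, hq.1.2.1⟩)
  have hs2 : (S.filter (fun q => q.2 ∈ D ∧ q.1 + q.2 ∈ D)).card ≤ EE π E e := by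
    refine Finset.card_le_card_of_injOn (fun q => (q.2, q.1 + q.2)) ?_ ?_
    · intro q hq
      rw [Finset.mem_coe, Finset.mem_filter, hS, Finset.mem_filter, Finset.mem_product] at hq
      refine Finset.mem_coe.2 (Finset.mem_filter.2 ⟨Finset.mem_product.2 hq.2, ?_⟩)
      change q.2 + (q.1 + q.2) ∈ _
      rw [add_left_comm, ctr_two_add, add_zero]
      exact hq.1.1.1
    · intro p _ p' _ h
      obtain ⟨h1, h2⟩ := Prod.mk.inj (show (p.2, p.1 + p.2) = (p'.2, p'.1 + p'.2) from h)
      rw [h1] at h2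
      exact Prod.ext (add_right_cancel h2) h1
  have hs3 : (S.filter (fun q => q.1 ∈ D ∧ q.1 + q.2 ∈ D)).card ≤ EE π E e := by
    refine Finset.card_le_card_of_injOn (fun q => (q.1, q.1 + q.2)) ?_ ?_
    · intro q hq
      rw [Finset.mem_coe, Finset.mem_filter, hS, Finset.mem_filter, Finset.mem_product] at hq
      refine Finset.mem_coe.2 (Finset.mem_filter.2 ⟨Finset.mem_product.2 hq.2, ?_⟩)
      change q.1 + (q.1 + q.2) ∈ _
      rw [← add_assoc, ctr_two_add, zero_add]
      exact hq.1.1.2
    · intro p _ p' _ h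
      obtain ⟨h1, h2⟩ := Prod.mk.inj (show (p.1, p.1 + p.2) = (p'.1, p'.1 + p'.2) from h)
      rw [h1] at h2
      exact Prod.ext h1 (add_left_cancel h2)
  have hc4 : T4.card ≤ triL π E (contr π E) + 3 * EE π E e := by
    rw [Finset.card_eq_sum_card_fiberwise (f := fun p => (π p.1, π p.2)) (t := S)
      (fun p hp => hmap p hp)]
    refine (Finset.sum_le_sum hfib).trans ?_
    rw [Finset.sum_add_distrib, Finset.sum_add_distrib, Finset.sum_add_distrib,
      ← Finset.card_filter, ← Finset.card_filter, ← Finset.card_filter, Finset.sum_const,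
      smul_eq_mul, mul_one]
    have : S.card = triL π E (contr π E) := by
      rw [hS]
      unfold triL
      congr 1
    omega
  have hle : tri E ≤ T1.card + (T2.card + (T3.card + T4.card)) := by
    change T.card ≤ _
    refine (Finset.card_le_card hcov).trans ((Finset.card_union_le _ _).trans ?_)
    gcongr
    refine (Finset.card_union_le _ _).trans ?_
    gcongr
    exact Finset.card_union_le _ _
  omega

end TriL

theorem claimTriL : ClaimTriL.{u} :=
  fun _ _ _ _ _ _ _ _ E π e hker h0 he => c4_triL_contr π E e hker h0 he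

end Pool.Agent.WW

end

section

/-!
# B4: the hyperplane trick
-/

namespace Pool.Agent.WW

open Submodule Module

universe u

theorem trick_levels {V : Type u} [AddCommGroup V] [Module (ZMod 2) V]
    [FiniteDimensional (ZMod 2) V] {B : Set V} {U T : Submodule (ZMod 2) V} {κ : ℕ}
    (hL : Lk B U T κ) (n : ℕ) (hn : finrank (ZMod 2) U + n ≤ finrank (ZMod 2) T) :
    ∃ Y : Submodule (ZMod 2) V, U ≤ Y ∧ Y ≤ T ∧
      finrank (ZMod 2) Y = finrank (ZMod 2) U + n ∧
      Y ≤ U ⊔ span (ZMod 2) (B ∩ (Y : Set V)) := by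
  induction n with
  | zero => exact ⟨U, le_rfl, hL.le, rfl, le_sup_left⟩
  | succ n ih =>
    obtain ⟨Y, h1, h2, h3, h4⟩ := ih (by omega)
    have hex : ∃ b ∈ B, b ∉ Y := by
      by_contra hc
      push Not at hc
      have hTY : T ≤ Y := hL.span.trans (sup_le h1 (span_le.2 hc))
      have := Submodule.finrank_mono hTY
      omega
    obtain ⟨b, hb, hbY⟩ := hex
    refine ⟨Y ⊔ span (ZMod 2) {b}, h1.trans le_sup_left,
      sup_le h2 ((span_singleton_le_iff_mem _ _).2 (hL.sub b hb)), ?_, ?_⟩
    · rw [link_rank_singleton Y b hbY, h3]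
      ring
    · have hm : span (ZMod 2) (B ∩ (Y : Set V)) ≤
          span (ZMod 2) (B ∩ ((Y ⊔ span (ZMod 2) {b} : Submodule (ZMod 2) V) : Set V)) :=
        span_mono fun x hx => ⟨hx.1, (le_sup_left : Y ≤ _) hx.2⟩
      refine sup_le (h4.trans (sup_le_sup_left hm U)) ?_
      rw [span_singleton_le_iff_mem]
      exact mem_sup_right (subset_span ⟨hb, mem_sup_right (mem_span_singleton_self b)⟩)

theorem trick_zmod (c : ZMod 2) : c = 0 ∨ c = 1 := by
  revert c
  decide

/-- B4: the hyperplane trick -/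
theorem claimTrick (h : ClaimLkHyper.{u}) : ClaimTrick.{u} := by
  intro V _ _ _ B U T D κ hL hdim hDU hDk
  by_contra hcon
  have hstar : ∀ (K : Submodule (ZMod 2) V) (x : V), StarAt B U T κ K x →
      ∀ z ∈ U, Pres B K z → z ∈ D := by
    intro K x hs z hz hp
    by_contra hzD
    exact hcon ⟨K, x, hs, z, hz, hzD, hp⟩
  -- the subspace of codimension two
  obtain ⟨n, hn⟩ : ∃ n, finrank (ZMod 2) T = finrank (ZMod 2) U + n + 2 :=
    ⟨finrank (ZMod 2) T - finrank (ZMod 2) U - 2, by omega⟩
  obtain ⟨Y, hUY, hYT, hYd, hYs⟩ := trick_levels hL n (by omega)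
  set P : Submodule (ZMod 2) V := D ⊔ span (ZMod 2) (B ∩ (Y : Set V)) with hP
  have hPY : P ≤ Y := sup_le (hDU.trans hUY) (span_le.2 fun x hx => hx.2)
  -- the contraction sets
  have hK : ∀ b ∈ B, b ∉ Y → ∃ K : Submodule (ZMod 2) V, K ⊓ U = ⊥ ∧
      finrank (ZMod 2) K = n + 1 ∧ ∀ y ∈ B, y ∈ Y ⊔ span (ZMod 2) {b} → y ∈ D ⊔ K := by
    intro b hb hbY
    have hd : finrank (ZMod 2) ↥(Y ⊔ span (ZMod 2) {b}) + 1 = finrank (ZMod 2) T := by
      rw [link_rank_singleton Y b hbY]
      omega
    have hm : span (ZMod 2) (B ∩ (Y : Set V)) ≤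
        span (ZMod 2) (B ∩ ((Y ⊔ span (ZMod 2) {b} : Submodule (ZMod 2) V) : Set V)) :=
      span_mono fun x hx => ⟨hx.1, (le_sup_left : Y ≤ _) hx.2⟩
    obtain ⟨K, x, hs, hUK⟩ := h V B U T (Y ⊔ span (ZMod 2) {b}) κ hL (hUY.trans le_sup_left)
      (sup_le hYT ((span_singleton_le_iff_mem _ _).2 (hL.sub b hb))) hd
      (sup_le (hYs.trans (sup_le_sup_left hm U)) ((span_singleton_le_iff_mem _ _).2
        (mem_sup_right (subset_span ⟨hb, mem_sup_right (mem_span_singleton_self b)⟩))))
    refine ⟨K, hs.disj, ?_, ?_⟩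
    · have := hs.rank
      omega
    · intro y hy hyH
      rw [← hUK] at hyH
      obtain ⟨u, hu, k, hk, rfl⟩ := mem_sup.1 hyH
      refine mem_sup.2 ⟨u, hstar K x hs u hu ⟨u + k, hy, ?_⟩, k, hk, rfl⟩
      have : u + k + u = k := by
        rw [add_comm u k, add_assoc, link_char, add_zero]
      rw [this]
      exact hk
  -- dimensions of `P`
  have hex1 : ∃ b ∈ B, b ∉ Y := by
    by_contra hc
    push Not at hc
    have hTY : T ≤ Y := hL.span.trans (sup_le hUY (span_le.2 hc))
    have := Submodule.finrank_mono hTY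
    omega
  have hPK : ∀ b ∈ B, b ∉ Y → ∀ K : Submodule (ZMod 2) V,
      (∀ y ∈ B, y ∈ Y ⊔ span (ZMod 2) {b} → y ∈ D ⊔ K) → P ≤ D ⊔ K := by
    intro b hb hbY K hK'
    refine sup_le le_sup_left (span_le.2 fun y hy => hK' y hy.1 (mem_sup_left hy.2))
  have hPU : P ⊓ U = D := by
    obtain ⟨b, hb, hbY⟩ := hex1
    obtain ⟨K, hK1, -, hK3⟩ := hK b hb hbY
    apply le_antisymm
    · calc P ⊓ U ≤ (D ⊔ K) ⊓ U := inf_le_inf_right U (hPK b hb hbY K hK3)
        _ = D ⊔ K ⊓ U := sup_inf_assoc_of_le K hDU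
        _ = D := by rw [hK1, sup_bot_eq]
    · exact le_inf le_sup_left hDU
  have hPUY : P ⊔ U = Y := by
    apply le_antisymm (sup_le hPY hUY)
    refine hYs.trans (sup_le le_sup_right ?_)
    exact le_sup_of_le_left le_sup_right
  have hPd : finrank (ZMod 2) P = n + finrank (ZMod 2) D := by
    have := Submodule.finrank_sup_add_finrank_inf_eq P U
    rw [hPU, hPUY] at this
    omega
  -- elements over one point outside of `Y`
  have hcol : ∀ b ∈ B, b ∉ Y → ∀ y ∈ B, y ∈ Y ⊔ span (ZMod 2) {b} →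
      y ∈ P ⊔ span (ZMod 2) {b} := by
    intro b hb hbY y hy hyb
    obtain ⟨K, hK1, hK2, hK3⟩ := hK b hb hbY
    have hbP : b ∉ P := fun hc => hbY (hPY hc)
    have hle : P ⊔ span (ZMod 2) {b} ≤ D ⊔ K :=
      sup_le (hPK b hb hbY K hK3) ((span_singleton_le_iff_mem _ _).2
        (hK3 b hb (mem_sup_right (mem_span_singleton_self b))))
    have hdim2 : finrank (ZMod 2) ↥(D ⊔ K) ≤ finrank (ZMod 2) ↥(P ⊔ span (ZMod 2) {b}) := by
      rw [link_rank_singleton P b hbP]
      have := Submodule.finrank_add_le_finrank_add_finrank D K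
      omega
    rw [Submodule.eq_of_le_of_finrank_le hle hdim2]
    exact hK3 y hy hyb
  -- two points spanning `T` over `Y`
  obtain ⟨b1, hb1, hb1Y⟩ := hex1
  have hex2 : ∃ b ∈ B, b ∉ Y ⊔ span (ZMod 2) {b1} := by
    by_contra hc
    push Not at hc
    have hTY : T ≤ Y ⊔ span (ZMod 2) {b1} :=
      hL.span.trans (sup_le (hUY.trans le_sup_left) (span_le.2 hc))
    have := Submodule.finrank_mono hTY
    rw [link_rank_singleton Y b1 hb1Y] at this
    omega
  obtain ⟨b2, hb2, hb2Y⟩ := hex2
  have hb2Y' : b2 ∉ Y := fun hc => hb2Y (mem_sup_left hc)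
  have hTeq : Y ⊔ span (ZMod 2) {b1} ⊔ span (ZMod 2) {b2} = T := by
    apply Submodule.eq_of_le_of_finrank_le
    · exact sup_le (sup_le hYT ((span_singleton_le_iff_mem _ _).2 (hL.sub b1 hb1)))
        ((span_singleton_le_iff_mem _ _).2 (hL.sub b2 hb2))
    · rw [link_rank_singleton _ b2 hb2Y, link_rank_singleton Y b1 hb1Y]
      omega
  have hcases : ∀ b ∈ B, b ∈ Y ⊔ span (ZMod 2) {b1} ∨ b ∈ Y ⊔ span (ZMod 2) {b2} ∨
      b + (b1 + b2) ∈ Y := by
    intro b hb
    have hbT := hL.sub b hb
    rw [← hTeq] at hbT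
    obtain ⟨w, hw, v2, hv2, rfl⟩ := mem_sup.1 hbT
    obtain ⟨y, hy, v1, hv1, rfl⟩ := mem_sup.1 hw
    obtain ⟨c1, rfl⟩ := mem_span_singleton.1 hv1
    obtain ⟨c2, rfl⟩ := mem_span_singleton.1 hv2
    rcases trick_zmod c2 with rfl | rfl
    · left
      rw [zero_smul, add_zero]
      exact hw
    · rcases trick_zmod c1 with rfl | rfl
      · right; left
        rw [zero_smul, add_zero]
        exact mem_sup.2 ⟨y, hy, (1 : ZMod 2) • b2, hv2, rfl⟩
      · right; right
        have : y + (1 : ZMod 2) • b1 + (1 : ZMod 2) • b2 + (b1 + b2) = y := by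
          rw [one_smul, one_smul, add_assoc y b1 b2, add_assoc, link_char, add_zero]
        rw [this]
        exact hy
  have hb3 : ∃ b3 : V, ∀ b ∈ B, b + (b1 + b2) ∈ Y → b ∈ P ⊔ span (ZMod 2) {b3} := by
    by_cases hex : ∃ b3 ∈ B, b3 + (b1 + b2) ∈ Y
    · obtain ⟨b3, hb3, hb3Y⟩ := hex
      refine ⟨b3, fun b hb hbY => hcol b3 hb3 ?_ b hb ?_⟩
      · intro hc
        apply hb2Y
        have h12 : b1 + b2 ∈ Y := (Submodule.add_mem_iff_right Y hc).1 hb3Y
        refine mem_sup.2 ⟨b1 + b2, h12, b1, mem_span_singleton_self b1, ?_⟩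
        rw [add_comm b1 b2, add_assoc, link_char, add_zero]
      · have hs := Y.add_mem hbY hb3Y
        have e : b + (b1 + b2) + (b3 + (b1 + b2)) = b + b3 := by
          rw [add_add_add_comm, link_char, add_zero]
        rw [e] at hs
        refine mem_sup.2 ⟨b + b3, hs, b3, mem_span_singleton_self b3, ?_⟩
        rw [add_assoc, link_char, add_zero]
    · push Not at hex
      exact ⟨0, fun b hb hbY => absurd hbY (hex b hb)⟩
  obtain ⟨b3, hb3⟩ := hb3
  classical
  have hspan : span (ZMod 2) B ≤ P ⊔ span (ZMod 2) (({b1, b2, b3} : Finset V) : Set V) := by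
    have hmono : ∀ b ∈ ({b1, b2, b3} : Finset V), P ⊔ span (ZMod 2) {b} ≤
        P ⊔ span (ZMod 2) (({b1, b2, b3} : Finset V) : Set V) := by
      intro b hb
      exact sup_le_sup_left (span_mono (Set.singleton_subset_iff.2 (Finset.mem_coe.2 hb))) P
    refine span_le.2 fun b hb => ?_
    rcases hcases b hb with hc | hc | hc
    · exact hmono b1 (by simp) (hcol b1 hb1 hb1Y b hb hc)
    · exact hmono b2 (by simp) (hcol b2 hb2 hb2Y' b hb hc)
    · exact hmono b3 (by simp) (hb3 b hb hc)
  have hup : finrank (ZMod 2) ↥(span (ZMod 2) B) ≤ finrank (ZMod 2) P + 3 := by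
    refine (Submodule.finrank_mono hspan).trans ((link_rank_le P _).trans ?_)
    exact Nat.add_le_add_left Finset.card_le_three _
  -- lower bound
  have hUT : U < T := by
    refine lt_of_le_of_ne hL.le fun he => ?_
    rw [he] at hdim
    omega
  have hlow := hL.cond U le_rfl hUT
  have hsup : span (ZMod 2) (B \ (U : Set V)) ⊔ U = T := by
    apply le_antisymm
    · exact sup_le (span_le.2 fun x hx => hL.sub x hx.1) hL.le
    · refine hL.span.trans (sup_le le_sup_right (span_le.2 fun x hx => ?_))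
      by_cases hxU : x ∈ U
      · exact mem_sup_right hxU
      · exact mem_sup_left (subset_span ⟨hx, hxU⟩)
  have hdd := Submodule.finrank_sup_add_finrank_inf_eq (span (ZMod 2) (B \ (U : Set V))) U
  rw [hsup] at hdd
  have hmm : finrank (ZMod 2) ↥(span (ZMod 2) (B \ (U : Set V))) ≤
      finrank (ZMod 2) ↥(span (ZMod 2) B) :=
    Submodule.finrank_mono (span_mono Set.sdiff_subset)
  omega

end Pool.Agent.WW

end

section

/-!
A set without `K5` meets a four-dimensional space in at most twelve points.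
-/

namespace Pool.Agent.WW

open Submodule Module

universe u

theorem twelve_z2 (t : ZMod 2) : t = 0 ∨ t = 1 := by
  revert t
  decide

theorem claimTwelve : ClaimTwelve.{u} := by
  classical
  intro W _ _ _ S Q h0 hK hQ
  have hfinW : Finite W := Module.finite_of_finite (ZMod 2)
  let _ : Fintype W := Fintype.ofFinite W
  let _ : Fintype Q := Fintype.ofFinite Q
  have hcard : Fintype.card Q = 16 := by
    rw [Module.card_eq_pow_finrank (K := ZMod 2) (V := Q), hQ, ZMod.card]
    norm_num
  set X : Finset Q := Finset.univ.filter (fun y => y ≠ 0 ∧ (y : W) ∉ S) with hX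
  have hXm : ∀ y : Q, y ∈ X ↔ y ≠ 0 ∧ (y : W) ∉ S := by
    intro y
    simp [hX]
  have hX0 : (0 : Q) ∉ X := by
    rw [hXm]
    simp
  set P : Finset Q := Finset.univ.filter (fun y => (y : W) ∈ S) with hP
  have hPm : ∀ y : Q, y ∈ P ↔ (y : W) ∈ S := by
    intro y
    simp [hP]
  have hPn : (S ∩ (Q : Set W)).ncard = P.card := by
    rw [← Set.ncard_coe_finset P]
    have : S ∩ (Q : Set W) = (fun y : Q => (y : W)) '' (P : Set Q) := by
      ext w
      simp only [Set.mem_inter_iff, SetLike.mem_coe, Set.mem_image]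
      constructor
      · rintro ⟨h1, h2⟩
        exact ⟨⟨w, h2⟩, (hPm _).2 h1, rfl⟩
      · rintro ⟨y, hy, rfl⟩
        exact ⟨(hPm _).1 hy, y.2⟩
    rw [this, Set.ncard_image_of_injective _ Subtype.val_injective]
  have hsum : P.card + X.card = 15 := by
    have hdis : Disjoint P X := by
      rw [Finset.disjoint_left]
      intro y h1 h2
      exact ((hXm y).1 h2).2 ((hPm y).1 h1)
    have hun : insert (0 : Q) (P ∪ X) = Finset.univ := by
      ext y
      simp only [Finset.mem_insert, Finset.mem_union, Finset.mem_univ, iff_true]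
      by_cases hy : y = 0
      · exact Or.inl hy
      · by_cases hy' : (y : W) ∈ S
        · exact Or.inr (Or.inl ((hPm y).2 hy'))
        · exact Or.inr (Or.inr ((hXm y).2 ⟨hy, hy'⟩))
    have h0' : (0 : Q) ∉ P ∪ X := by
      rw [Finset.mem_union, not_or]
      refine ⟨?_, hX0⟩
      rw [hPm]
      exact h0
    have := congrArg Finset.card hun
    rw [Finset.card_insert_of_notMem h0', Finset.card_union_of_disjoint hdis, Finset.card_univ,
      hcard] at this
    omega
  -- a line-free set of at most three missing points is impossible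
  have key : 4 ≤ X.card ∨ ∃ a ∈ X, ∃ b ∈ X, a + b ∈ X := by
    by_contra hn
    push Not at hn
    obtain ⟨hc, hl⟩ := hn
    obtain ⟨Y, h1, h2, h3', h4⟩ := r4_enlarge hcard (3 - X.card) X (by omega) hX0 hl
    obtain ⟨a, b, c, hab, hac, hbc, rfl⟩ := Finset.card_eq_three.1 h2
    have ha0 : a ≠ 0 := by
      rintro rfl
      exact h3' (by simp)
    have hb0 : b ≠ 0 := by
      rintro rfl
      exact h3' (by simp)
    have hc0 : c ≠ 0 := by
      rintro rfl
      exact h3' (by simp)
    have habc : a + b ≠ c := by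
      intro he
      exact h4 a (by simp) b (by simp) (by simp [he])
    have hind : LinearIndependent (ZMod 2) ![(a : W), (b : W), (c : W)] := by
      refine r4_indep (a : W) b c ?_ ?_ ?_ ?_ ?_ ?_ ?_
      · exact fun h => ha0 (Subtype.ext h)
      · exact fun h => hb0 (Subtype.ext h)
      · exact fun h => hc0 (Subtype.ext h)
      · exact fun h => hab (Subtype.ext h)
      · exact fun h => hac (Subtype.ext h)
      · exact fun h => hbc (Subtype.ext h)
      · exact fun h => habc (Subtype.ext h)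
    refine hK (hasK5_of_three_missing S ⊥ Q bot_le (by simp) hQ (a : W) b c a.2 b.2 c.2 hind ?_)
    intro u huQ hu0 hua hub huc
    refine ⟨u, ?_, ?_⟩
    · by_contra hn
      have := h1 ((hXm ⟨u, huQ⟩).2 ⟨fun h => hu0 (congrArg Subtype.val h), hn⟩)
      simp only [Finset.mem_insert, Finset.mem_singleton] at this
      rcases this with h | h | h
      · exact hua (congrArg Subtype.val h)
      · exact hub (congrArg Subtype.val h)
      · exact huc (congrArg Subtype.val h)
    · rw [r4_char]
      exact zero_mem _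
  rw [hPn]
  -- a missing line
  have key2 : ∀ a ∈ X, ∀ b ∈ X, a + b ∈ X → 3 ≤ X.card ∧ (X.card = 3 → {a, b, a + b} = X) ∧
      a ≠ b := by
    intro a ha b hb hab
    have ha0 : a ≠ 0 := fun h => hX0 (h ▸ ha)
    have hb0 : b ≠ 0 := fun h => hX0 (h ▸ hb)
    have hne : a ≠ b := by
      rintro rfl
      rw [r4_char] at hab
      exact hX0 hab
    have hsub : ({a, b, a + b} : Finset Q) ⊆ X := by
      intro x hx
      simp only [Finset.mem_insert, Finset.mem_singleton] at hx
      rcases hx with rfl | rfl | rfl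
      · exact ha
      · exact hb
      · exact hab
    have hcard3 : ({a, b, a + b} : Finset Q).card = 3 := by
      rw [Finset.card_eq_three]
      refine ⟨a, b, a + b, hne, ?_, ?_, rfl⟩
      · intro h
        exact hb0 (by simpa using h)
      · intro h
        exact ha0 (by simpa using h)
    refine ⟨?_, ?_, hne⟩
    · rw [← hcard3]
      exact Finset.card_le_card hsub
    · intro h
      exact Finset.eq_of_subset_of_card_le hsub (by omega)
  constructor
  · rcases key with h | ⟨a, ha, b, hb, hab⟩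
    · omega
    · have := (key2 a ha b hb hab).1
      omega
  · intro h12
    have hX3 : X.card = 3 := by omega
    rcases key with h | ⟨a, ha, b, hb, hab⟩
    · omega
    · obtain ⟨_, h2, hne⟩ := key2 a ha b hb hab
      have hXeq := h2 hX3
      have ha0 : (a : W) ≠ 0 := fun h => hX0 ((Subtype.ext h : a = 0) ▸ ha)
      have hb0 : (b : W) ≠ 0 := fun h => hX0 ((Subtype.ext h : b = 0) ▸ hb)
      have hne' : (a : W) ≠ b := fun h => hne (Subtype.ext h)
      have hspan : ∀ y : W, y ∈ span (ZMod 2) ({(a : W), (b : W)} : Set W) ↔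
          y = 0 ∨ y = a ∨ y = b ∨ y = (a : W) + b := by
        intro y
        rw [Submodule.mem_span_pair]
        constructor
        · rintro ⟨s, t, rfl⟩
          rcases twelve_z2 s with rfl | rfl <;> rcases twelve_z2 t with rfl | rfl <;> simp
        · rintro (rfl | rfl | rfl | rfl)
          · exact ⟨0, 0, by simp⟩
          · exact ⟨1, 0, by simp⟩
          · exact ⟨0, 1, by simp⟩
          · exact ⟨1, 1, by simp⟩
      have hLX : ∀ y : Q, (y : W) ∈ span (ZMod 2) ({(a : W), (b : W)} : Set W) ↔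
          y = 0 ∨ y ∈ X := by
        intro y
        rw [hspan, ← hXeq]
        simp only [Finset.mem_insert, Finset.mem_singleton]
        constructor
        · rintro (h | h | h | h)
          · exact Or.inl (Subtype.ext h)
          · exact Or.inr (Or.inl (Subtype.ext h))
          · exact Or.inr (Or.inr (Or.inl (Subtype.ext h)))
          · exact Or.inr (Or.inr (Or.inr (Subtype.ext h)))
        · rintro (rfl | rfl | rfl | rfl)
          · exact Or.inl rfl
          · exact Or.inr (Or.inl rfl)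
          · exact Or.inr (Or.inr (Or.inl rfl))
          · exact Or.inr (Or.inr (Or.inr rfl))
      have hLQ : span (ZMod 2) ({(a : W), (b : W)} : Set W) ≤ Q := by
        rw [span_le]
        intro y hy
        rcases hy with rfl | hy
        · exact a.2
        · rw [Set.mem_singleton_iff.1 hy]
          exact b.2
      refine ⟨span (ZMod 2) ({(a : W), (b : W)} : Set W), hLQ, ?_, ?_, ?_⟩
      · have hli : LinearIndependent (ZMod 2) ![(a : W), (b : W)] := by
          rw [LinearIndependent.pair_iff]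
          intro s t hst
          rcases twelve_z2 s with rfl | rfl <;> rcases twelve_z2 t with rfl | rfl
          · exact ⟨rfl, rfl⟩
          · exact absurd (by simpa using hst) hb0
          · exact absurd (by simpa using hst) ha0
          · exfalso
            rw [one_smul, one_smul] at hst
            apply hne'
            rw [← add_zero (a : W), ← r4_char (b : W), ← add_assoc, hst, zero_add]
        have h5 := finrank_span_eq_card hli
        have h6 : Set.range ![(a : W), (b : W)] = {(a : W), (b : W)} := by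
          simp only [Matrix.range_cons, Matrix.range_empty, Set.union_empty]
          rfl
        rw [Fintype.card_fin, h6] at h5
        exact h5
      · intro y hyQ hyL
        by_contra hn
        apply hyL
        have h1 : (⟨y, hyQ⟩ : Q) = 0 ∨ (⟨y, hyQ⟩ : Q) ∈ X := by
          by_cases hy0 : (⟨y, hyQ⟩ : Q) = 0
          · exact Or.inl hy0
          · exact Or.inr ((hXm _).2 ⟨hy0, hn⟩)
        exact (hLX ⟨y, hyQ⟩).2 h1
      · intro y hyL hyS
        rcases (hLX ⟨y, hLQ hyL⟩).1 hyL with h | h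
        · have : y = 0 := congrArg Subtype.val h
          exact h0 (this ▸ hyS)
        · exact ((hXm _).1 h).2 hyS

end Pool.Agent.WW

end

section

/-!
G5: restriction of a vertically 4-connected set to its span.
-/

namespace Pool.Agent.WW

open Submodule Module

universe u

private lemma add_self_vcs {V : Type*} [AddCommGroup V] [Module (ZMod 2) V] (v : V) :
    v + v = 0 := by
  have h : (2 : ZMod 2) = 0 := rfl
  rw [← two_smul (ZMod 2) v, h, zero_smul]

theorem claimVCSpan : ClaimVCSpan.{u} := by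
  intro V _ _ _ _ E n h0 hfree hvc hTT hn
  classical
  set U := span (ZMod 2) (E : Set V) with hU
  let F : Finset U := E.attach.image (fun x => (⟨x.1, subset_span x.2⟩ : U))
  have hmem : ∀ x : U, x ∈ F ↔ (x : V) ∈ E := by
    intro x
    constructor
    · intro hx
      obtain ⟨y, -, rfl⟩ := Finset.mem_image.1 hx
      exact y.2
    · intro hx
      exact Finset.mem_image.2 ⟨⟨x.1, hx⟩, Finset.mem_attach _ _, Subtype.ext rfl⟩
  have hFE : F.image (U.subtype) = E := by
    ext x
    rw [Finset.mem_image]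
    constructor
    · rintro ⟨y, hy, rfl⟩
      exact (hmem y).1 hy
    · intro hx
      exact ⟨⟨x, subset_span hx⟩, (hmem _).2 hx, rfl⟩
  have hcard : F.card = E.card := by
    rw [← hFE, Finset.card_image_of_injective _ U.subtype_injective]
  have htri : tri F = tri E := by
    unfold tri
    apply Finset.card_bij (fun p _ => ((p.1 : V), (p.2 : V)))
    · intro p hp
      rw [Finset.mem_filter, Finset.mem_product] at hp ⊢
      exact ⟨⟨(hmem _).1 hp.1.1, (hmem _).1 hp.1.2⟩, (hmem _).1 hp.2⟩
    · intro p _ q _ h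
      rw [Prod.mk.injEq] at h
      exact Prod.ext (Subtype.ext h.1) (Subtype.ext h.2)
    · intro p hp
      rw [Finset.mem_filter, Finset.mem_product] at hp
      refine ⟨(⟨p.1, subset_span hp.1.1⟩, ⟨p.2, subset_span hp.1.2⟩), ?_, rfl⟩
      rw [Finset.mem_filter, Finset.mem_product]
      exact ⟨⟨(hmem _).2 hp.1.1, (hmem _).2 hp.1.2⟩, (hmem _).2 hp.2⟩
  have hF0 : (0 : U) ∉ F := fun h => h0 ((hmem 0).1 h)
  have hFfree : ¬ HasK5 (F : Set U) := by
    intro h
    apply hfree
    refine HasK5.of_map U.subtype (F : Set U) (E : Set V) ⊥ ?_ ?_ ?_ h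
    · intro x hx
      rw [Submodule.mem_bot] at hx
      rw [hx]; exact zero_mem _
    · intro w hw
      rw [Submodule.mem_bot] at hw
      exact Subtype.ext hw
    · intro w hw
      exact ⟨w, (hmem w).1 hw, by rw [Submodule.subtype_apply, add_self_vcs]; exact zero_mem _⟩
  have hFs : span (ZMod 2) (F : Set U) = ⊤ := by
    apply Submodule.map_injective_of_injective U.subtype_injective
    rw [Submodule.map_span, Submodule.map_top, Submodule.range_subtype]
    have : (U.subtype '' (F : Set U)) = (E : Set V) := by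
      rw [← Finset.coe_image, hFE]
    rw [this]
  have hFvc : VC (F : Set U) := by
    intro H' ⟨a, haF, haH⟩ ⟨b, hbF, hbH, hbn⟩
    have hinj := U.subtype_injective
    have hmH : ∀ x : U, (x : V) ∈ map U.subtype H' ↔ x ∈ H' := by
      intro x
      constructor
      · rintro ⟨y, hy, hyx⟩
        have : y = x := Subtype.ext hyx
        exact this ▸ hy
      · intro hx
        exact ⟨x, hx, rfl⟩
    have himg : (E : Set V) \ (map U.subtype H' : Submodule (ZMod 2) V) =
        U.subtype '' ((F : Set U) \ (H' : Set U)) := by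
      ext x
      constructor
      · rintro ⟨hx, hxH⟩
        have hxU : x ∈ U := subset_span hx
        refine ⟨⟨x, hxU⟩, ⟨(hmem _).2 hx, fun h => hxH ((hmH ⟨x, hxU⟩).2 h)⟩, rfl⟩
      · rintro ⟨y, ⟨hy, hyH⟩, rfl⟩
        exact ⟨(hmem y).1 hy, fun h => hyH ((hmH y).1 h)⟩
    have hspan : span (ZMod 2) ((E : Set V) \ (map U.subtype H' : Submodule (ZMod 2) V)) =
        map U.subtype (span (ZMod 2) ((F : Set U) \ (H' : Set U))) := by
      rw [himg, map_span]
    have key := hvc (map U.subtype H') ⟨a, (hmem a).1 haF, fun h => haH ((hmH a).1 h)⟩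
      ⟨b, (hmem b).1 hbF, (hmH b).2 hbH, by
        rw [hspan]
        rintro ⟨y, hy, hyb⟩
        have : y = b := Subtype.ext hyb
        exact hbn (this ▸ hy)⟩
    rw [hspan, ← Submodule.map_inf _ hinj, finrank_map_subtype_eq] at key
    exact key
  have := hTT U F ⟨hF0, hFs, hFvc, hFfree⟩ hn
  omega

end Pool.Agent.WW

end

section

/-! Triangles of doubled points. -/

namespace Pool.Agent.WW

open Submodule Module

variable {V W : Type*} [AddCommGroup V] [Module (ZMod 2) V]
  [AddCommGroup W] [Module (ZMod 2) W]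

theorem tri_self (v : V) : v + v = 0 := by
  have h : (2 : ZMod 2) • v = v + v := two_smul _ v
  rw [← h]
  have : (2 : ZMod 2) = 0 := rfl
  rw [this, zero_smul]

theorem tri_cancel (a b : V) : a + b + b = a := by
  rw [add_assoc, tri_self, add_zero]

theorem tri_eq_of_add {a b : V} (h : a + b = 0) : a = b := by
  have := congrArg (· + b) h
  simpa [add_assoc, tri_self] using this

theorem tri_add_eq_zero {a b : V} : a + b = 0 ↔ a = b :=
  ⟨tri_eq_of_add, fun h => by rw [h, tri_self]⟩

theorem tri_zmod (c : ZMod 2) : c = 0 ∨ c = 1 := by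
  revert c
  decide

theorem tri_mem_contr [DecidableEq W] (π : V →ₗ[ZMod 2] W) (E : Finset V) (x : W) :
    x ∈ contr π E ↔ x ≠ 0 ∧ ∃ a ∈ E, π a = x := by
  simp [contr]

theorem tri_mem_DD [DecidableEq V] [DecidableEq W] (π : V →ₗ[ZMod 2] W) (E : Finset V) (e : V)
    (x : W) : x ∈ DD π E e ↔ x ≠ 0 ∧ ∃ a ∈ E, a + e ∈ E ∧ π a = x := by
  simp [DD, and_assoc]

theorem tri_pi_eq {π : V →ₗ[ZMod 2] W} {e : V} (hker : ∀ v, π v = 0 ↔ v = 0 ∨ v = e) {a b : V}
    (h : π a = π b) : a = b ∨ a = b + e := by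
  have h1 : π (a + b) = 0 := by rw [map_add, h, tri_self]
  rcases (hker _).1 h1 with h2 | h2
  · exact Or.inl (tri_eq_of_add h2)
  · right
    rw [← h2, add_comm a b, ← add_assoc, tri_self, zero_add]

/-- both lifts of a doubled point are in `E` -/
theorem tri_both [DecidableEq V] [DecidableEq W] {π : V →ₗ[ZMod 2] W} {E : Finset V} {e : V}
    (hker : ∀ v, π v = 0 ↔ v = 0 ∨ v = e) {x : W} (hx : x ∈ DD π E e) {a : V} (ha : π a = x) :
    a ∈ E ∧ a + e ∈ E := by
  obtain ⟨-, b, hb, hbe, hbx⟩ := (tri_mem_DD π E e x).1 hx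
  rcases tri_pi_eq hker (ha.trans hbx.symm) with h | h
  · rw [h]
    exact ⟨hb, hbe⟩
  · rw [h, tri_cancel]
    exact ⟨hbe, hb⟩

theorem tri_one [DecidableEq W] {π : V →ₗ[ZMod 2] W} {E : Finset V} {e : V}
    (hker : ∀ v, π v = 0 ↔ v = 0 ∨ v = e) {x : W} (hx : x ∈ contr π E) {a : V} (ha : π a = x) :
    a ∈ E ∨ a + e ∈ E := by
  obtain ⟨-, b, hb, hbx⟩ := (tri_mem_contr π E x).1 hx
  rcases tri_pi_eq hker (ha.trans hbx.symm) with h | h
  · rw [h]
    exact Or.inl hb
  · rw [h, tri_cancel]
    exact Or.inr hb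

/-- independence of three vectors -/
theorem tri_indep3 {x y z : W} (hx : x ≠ 0) (hy : y ≠ 0) (hz : z ≠ 0) (hxy : x ≠ y) (hxz : x ≠ z)
    (hyz : y ≠ z) (hs : x + y ≠ z) {a b c : ZMod 2} (h : a • x + b • y + c • z = 0) :
    a = 0 ∧ b = 0 ∧ c = 0 := by
  rcases tri_zmod a with rfl | rfl <;> rcases tri_zmod b with rfl | rfl <;>
    rcases tri_zmod c with rfl | rfl <;> simp only [zero_smul, one_smul, zero_add, add_zero] at h
  · simp
  · exact absurd h hz
  · exact absurd h hy
  · exact absurd (tri_eq_of_add h) hyz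
  · exact absurd h hx
  · exact absurd (tri_eq_of_add h) hxz
  · exact absurd (tri_eq_of_add h) hxy
  · exact absurd (tri_eq_of_add h) hs

theorem tri_indep4 {π : V →ₗ[ZMod 2] W} {e : V} (he0 : e ≠ 0)
    (hker : ∀ v, π v = 0 ↔ v = 0 ∨ v = e) {p q r : V}
    (hx : π p ≠ 0) (hy : π q ≠ 0) (hz : π r ≠ 0) (hxy : π p ≠ π q) (hxz : π p ≠ π r)
    (hyz : π q ≠ π r) (hs : π p + π q ≠ π r) (c : Fin 4 → ZMod 2)
    (h : ∑ i, c i • (![e, p, q, r] : Fin 4 → V) i = 0) : c = 0 := by
  have h0 : c 0 • e + c 1 • p + c 2 • q + c 3 • r = 0 := by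
    rw [Fin.sum_univ_four] at h
    simpa using h
  have hpe : π e = 0 := (hker e).2 (Or.inr rfl)
  have h1 : c 1 • π p + c 2 • π q + c 3 • π r = 0 := by
    have := congrArg π h0
    simpa [map_add, map_smul, hpe] using this
  obtain ⟨h2, h3, h4⟩ := tri_indep3 hx hy hz hxy hxz hyz hs h1
  have h5 : c 0 = 0 := by
    rw [h2, h3, h4] at h0
    rcases tri_zmod (c 0) with h6 | h6
    · exact h6
    · rw [h6] at h0
      simp only [one_smul, zero_smul, add_zero] at h0
      exact absurd h0 he0
  funext i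
  fin_cases i
  · exact h5
  · exact h2
  · exact h3
  · exact h4

theorem tri_range4 (e p q r : V) : Set.range (![e, p, q, r] : Fin 4 → V) = {e, p, q, r} := by
  ext v
  simp [Matrix.range_cons, Matrix.range_empty, Set.singleton_union]
  tauto

theorem tri_range3 (e p q : V) : Set.range (![e, p, q] : Fin 3 → V) = {e, p, q} := by
  ext v
  simp [Matrix.range_cons, Matrix.range_empty, Set.singleton_union]
  tauto

theorem tri_range2 (e p : V) : Set.range (![e, p] : Fin 2 → V) = {e, p} := by
  ext v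
  simp [Matrix.range_cons, Matrix.range_empty, Set.singleton_union]
  tauto

theorem tri_finrank4 {e p q r : V}
    (h : ∀ c : Fin 4 → ZMod 2, ∑ i, c i • (![e, p, q, r] : Fin 4 → V) i = 0 → c = 0) :
    finrank (ZMod 2) ↥(span (ZMod 2) {e, p, q, r}) = 4 := by
  have hli : LinearIndependent (ZMod 2) (![e, p, q, r] : Fin 4 → V) := by
    rw [Fintype.linearIndependent_iff]
    intro c hc i
    rw [h c hc]
    rfl
  have := finrank_span_eq_card hli
  rw [tri_range4] at this
  simpa using this

theorem tri_finrank3 {e p q : V}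
    (h : ∀ c : Fin 3 → ZMod 2, ∑ i, c i • (![e, p, q] : Fin 3 → V) i = 0 → c = 0) :
    finrank (ZMod 2) ↥(span (ZMod 2) {e, p, q}) = 3 := by
  have hli : LinearIndependent (ZMod 2) (![e, p, q] : Fin 3 → V) := by
    rw [Fintype.linearIndependent_iff]
    intro c hc i
    rw [h c hc]
    rfl
  have := finrank_span_eq_card hli
  rw [tri_range3] at this
  simpa using this

theorem tri_finrank2 {e p : V} (h0 : e ≠ 0) (h1 : p ≠ 0) (h2 : e ≠ p) :
    finrank (ZMod 2) ↥(span (ZMod 2) {e, p}) = 2 := by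
  have hli : LinearIndependent (ZMod 2) (![e, p] : Fin 2 → V) := by
    rw [Fintype.linearIndependent_iff]
    intro c hc
    rw [Fin.sum_univ_two] at hc
    simp only [Matrix.cons_val_zero, Matrix.cons_val_one] at hc
    rcases tri_zmod (c 0) with h3 | h3 <;> rcases tri_zmod (c 1) with h4 | h4 <;>
      rw [h3, h4] at hc <;> simp only [zero_smul, one_smul, zero_add, add_zero] at hc
    · intro i
      fin_cases i
      · exact h3
      · exact h4
    · exact absurd hc h1
    · exact absurd hc h0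
    · exact absurd (tri_eq_of_add hc) h2
  have := finrank_span_eq_card hli
  rw [tri_range2] at this
  simpa using this

theorem tri_exists [FiniteDimensional (ZMod 2) V] {E : Set V} (hs : span (ZMod 2) E = ⊤)
    (U : Submodule (ZMod 2) V) (h : finrank (ZMod 2) U < finrank (ZMod 2) V) :
    ∃ a ∈ E, a ∉ U := by
  by_contra hcon
  push Not at hcon
  have h1 : span (ZMod 2) E ≤ U := span_le.2 hcon
  rw [hs, top_le_iff] at h1
  rw [h1, finrank_top] at h
  exact lt_irrefl _ h

section Tri
variable [FiniteDimensional (ZMod 2) V] [DecidableEq V] [DecidableEq W] {E : Finset V}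
  (hG : Good (E : Set V)) (h5 : 5 ≤ finrank (ZMod 2) V) {e : V} (he : e ∈ E)
  (π : V →ₗ[ZMod 2] W) (hker : ∀ v, π v = 0 ↔ v = 0 ∨ v = e)
include hG h5 he hker

/-- no line of doubled points -/
theorem no_dline (x y : W) (hx : x ∈ DD π E e) (hy : y ∈ DD π E e) (hxy : x ≠ y) :
    x + y ∉ DD π E e := by
  intro hs
  obtain ⟨hx0, p, hp, hpe, hpx⟩ := (tri_mem_DD π E e x).1 hx
  obtain ⟨hy0, q, hq, hqe, hqy⟩ := (tri_mem_DD π E e y).1 hy
  have he0 : e ≠ 0 := fun h => hG.zero (h ▸ he)
  have hsum : π (p + q) = x + y := by rw [map_add, hpx, hqy]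
  obtain ⟨h1, h2⟩ := tri_both hker hs hsum
  have hpe0 : π e = 0 := (hker e).2 (Or.inr rfl)
  have hli : ∀ c : Fin 3 → ZMod 2, ∑ i, c i • (![e, p, q] : Fin 3 → V) i = 0 → c = 0 := by
    intro c hc
    have h0 : c 0 • e + c 1 • p + c 2 • q = 0 := by
      rw [Fin.sum_univ_three] at hc
      simpa using hc
    have h3 : c 1 • x + c 2 • y = 0 := by
      have := congrArg π h0
      simpa [map_add, map_smul, hpe0, hpx, hqy] using this
    have h4 : c 1 = 0 ∧ c 2 = 0 := by
      rcases tri_zmod (c 1) with h6 | h6 <;> rcases tri_zmod (c 2) with h7 | h7 <;>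
        rw [h6, h7] at h3 <;> simp only [zero_smul, one_smul, zero_add, add_zero] at h3
      · exact ⟨h6, h7⟩
      · exact absurd h3 hy0
      · exact absurd h3 hx0
      · exact absurd (tri_eq_of_add h3) hxy
    have h5 : c 0 = 0 := by
      rw [h4.1, h4.2] at h0
      rcases tri_zmod (c 0) with h6 | h6
      · exact h6
      · rw [h6] at h0
        simp only [one_smul, zero_smul, add_zero] at h0
        exact absurd h0 he0
    funext i
    fin_cases i
    · exact h5
    · exact h4.1
    · exact h4.2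
  have hU := tri_finrank3 hli
  obtain ⟨u, hu, hu0, huE⟩ := no_fano hG (span (ZMod 2) {e, p, q}) hU
    (tri_exists hG.span _ (by omega))
  rw [mem_span_triple] at hu
  obtain ⟨a, b, c, rfl⟩ := hu
  apply huE
  rcases tri_zmod a with rfl | rfl <;> rcases tri_zmod b with rfl | rfl <;>
    rcases tri_zmod c with rfl | rfl <;>
    simp only [zero_smul, one_smul, zero_add, add_zero] at hu0 ⊢
  · exact absurd rfl hu0
  · exact hq
  · exact hp
  · exact h1
  · exact he
  · rw [add_comm]
    exact hqe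
  · rw [add_comm]
    exact hpe
  · rw [add_assoc, add_comm]
    exact h2

/-- lifts of a triangle -/
theorem triangle_lift (x y z : W) (hx : x ∈ DD π E e) (hy : y ∈ DD π E e) (hz : z ∈ DD π E e)
    (hxy : x + y ∈ contr π E) (hyz : y + z ∈ contr π E) (hxz : x + z ∈ contr π E) :
    ∃ p q r : V, π p = x ∧ π q = y ∧ π r = z ∧ Del4 (E : Set V) e p q r ∧
      finrank (ZMod 2) ↥(span (ZMod 2) {e, p, q, r}) = 4 := by
  have he0 : e ≠ 0 := fun h => hG.zero (h ▸ he)
  have hpe0 : π e = 0 := (hker e).2 (Or.inr rfl)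
  have hnxy : x ≠ y := fun h => ((tri_mem_contr π E _).1 hxy).1 (by rw [h, tri_self])
  have hnyz : y ≠ z := fun h => ((tri_mem_contr π E _).1 hyz).1 (by rw [h, tri_self])
  have hnxz : x ≠ z := fun h => ((tri_mem_contr π E _).1 hxz).1 (by rw [h, tri_self])
  have hns : x + y ≠ z := fun h => no_dline hG h5 he π hker x y hx hy hnxy (h ▸ hz)
  obtain ⟨hx0, p, hp, hpe, hpx⟩ := (tri_mem_DD π E e x).1 hx
  obtain ⟨hy0, q', hq', hqe', hqy'⟩ := (tri_mem_DD π E e y).1 hy
  obtain ⟨hz0, r', hr', hre', hrz'⟩ := (tri_mem_DD π E e z).1 hz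
  -- normalise q and r
  have key : ∀ (w : W) (_ : w ∈ DD π E e) (_ : x + w ∈ contr π E) (b : V) (_ : π b = w),
      ∃ q : V, π q = w ∧ q ∈ E ∧ q + e ∈ E ∧ p + q + e ∈ E := by
    intro w hw hxw b hb
    have hsum : π (p + b) = x + w := by rw [map_add, hpx, hb]
    rcases tri_one hker hxw hsum with h | h
    · have hbe : π (b + e) = w := by rw [map_add, hb, hpe0, add_zero]
      refine ⟨b + e, hbe, (tri_both hker hw hbe).1, (tri_both hker hw hbe).2, ?_⟩
      rw [← add_assoc, tri_cancel]
      exact h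
    · exact ⟨b, hb, (tri_both hker hw hb).1, (tri_both hker hw hb).2, h⟩
  obtain ⟨q, hqy, hq, hqe, hpq⟩ := key y hy hxy q' hqy'
  obtain ⟨r, hrz, hr, hre, hpr⟩ := key z hz hxz r' hrz'
  have hli : ∀ p' : V, π p' = x → ∀ c : Fin 4 → ZMod 2,
      ∑ i, c i • (![e, p', q, r] : Fin 4 → V) i = 0 → c = 0 := by
    intro p' hp' c hc
    apply tri_indep4 he0 hker _ _ _ _ _ _ _ c hc
    · rw [hp']; exact hx0
    · rw [hqy]; exact hy0
    · rw [hrz]; exact hz0
    · rw [hp', hqy]; exact hnxy
    · rw [hp', hrz]; exact hnxz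
    · rw [hqy, hrz]; exact hnyz
    · rw [hp', hqy, hrz]; exact hns
  have hsum : π (q + r) = y + z := by rw [map_add, hqy, hrz]
  rcases tri_one hker hyz hsum with h | h
  · -- even: a K5
    exfalso
    apply hG.free
    have hp'x : π (p + e) = x := by rw [map_add, hpx, hpe0, add_zero]
    refine ⟨⊥, bot_le, ![e, p + e, q, r], ?_, ?_, ?_⟩
    · intro c hc
      exact hli (p + e) hp'x c ((mem_bot _).1 hc)
    · have hP : ∀ v : V, v ∈ E → Pres (E : Set V) ⊥ v := fun v hv =>
        ⟨v, hv, by rw [tri_self]; exact zero_mem _⟩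
      intro i
      fin_cases i
      · exact hP e he
      · exact hP _ hpe
      · exact hP _ hq
      · exact hP _ hr
    · have hP : ∀ v : V, v ∈ E → Pres (E : Set V) ⊥ v := fun v hv =>
        ⟨v, hv, by rw [tri_self]; exact zero_mem _⟩
      have a1 : e + (p + e) ∈ E := by
        rw [add_comm, tri_cancel]
        exact hp
      have a2 : e + q ∈ E := by rw [add_comm]; exact hqe
      have a3 : e + r ∈ E := by rw [add_comm]; exact hre
      have a4 : p + e + q ∈ E := by rw [add_right_comm]; exact hpq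
      have a5 : p + e + r ∈ E := by rw [add_right_comm]; exact hpr
      intro i j hij
      fin_cases i <;> fin_cases j <;> first
        | exact absurd rfl hij
        | exact hP _ a1
        | exact hP _ a2
        | exact hP _ a3
        | exact hP _ a4
        | exact hP _ a5
        | exact hP _ h
        | exact hP _ (by rw [add_comm]; exact a1)
        | exact hP _ (by rw [add_comm]; exact a2)
        | exact hP _ (by rw [add_comm]; exact a3)
        | exact hP _ (by rw [add_comm]; exact a4)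
        | exact hP _ (by rw [add_comm]; exact a5)
        | exact hP _ (by rw [add_comm]; exact h)
  · exact ⟨p, q, r, hpx, hqy, hrz, ⟨he, hp, hq, hr, hpe, hqe, hre, hpq, h, hpr⟩,
      tri_finrank4 (hli p hpx)⟩

/-- at most one triangle -/
theorem one_triangle (x y z x' y' z' : W) (hx : x ∈ DD π E e) (hy : y ∈ DD π E e)
    (hz : z ∈ DD π E e) (hxy : x + y ∈ contr π E) (hyz : y + z ∈ contr π E)
    (hxz : x + z ∈ contr π E) (hx' : x' ∈ DD π E e) (hy' : y' ∈ DD π E e)
    (hz' : z' ∈ DD π E e) (hxy' : x' + y' ∈ contr π E) (hyz' : y' + z' ∈ contr π E)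
    (hxz' : x' + z' ∈ contr π E) : ({x, y, z} : Finset W) = {x', y', z'} := by
  have hnxy : x ≠ y := fun h => ((tri_mem_contr π E _).1 hxy).1 (by rw [h, tri_self])
  have hnyz : y ≠ z := fun h => ((tri_mem_contr π E _).1 hyz).1 (by rw [h, tri_self])
  have hnxz : x ≠ z := fun h => ((tri_mem_contr π E _).1 hxz).1 (by rw [h, tri_self])
  have hnxy' : x' ≠ y' := fun h => ((tri_mem_contr π E _).1 hxy').1 (by rw [h, tri_self])
  have hnyz' : y' ≠ z' := fun h => ((tri_mem_contr π E _).1 hyz').1 (by rw [h, tri_self])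
  have hnxz' : x' ≠ z' := fun h => ((tri_mem_contr π E _).1 hxz').1 (by rw [h, tri_self])
  have hpe0 : π e = 0 := (hker e).2 (Or.inr rfl)
  obtain ⟨p, q, r, hp, hq, hr, hD, hU⟩ := triangle_lift hG h5 he π hker x y z hx hy hz hxy hyz hxz
  obtain ⟨p', q', r', hp', hq', hr', hD', hU'⟩ :=
    triangle_lift hG h5 he π hker x' y' z' hx' hy' hz' hxy' hyz' hxz'
  by_cases hUU : span (ZMod 2) {e, p, q, r} = span (ZMod 2) {e, p', q', r'}
  swap
  · obtain ⟨K, hK, hK1, hK2, hK3⟩ := link_two (E : Set V) hG.span hG.vc _ _ hU hU' hUU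
    exact absurd (glue44 (E : Set V) K hK e p q r p' q' r' hD hD' hU hU' hK1 hK2 hK3) hG.free
  -- the middle point is not doubled
  have hmid : x + y + z ∉ DD π E e := by
    intro hm
    have hsum : π (p + q + r) = x + y + z := by rw [map_add, map_add, hp, hq, hr]
    obtain ⟨m1, m2⟩ := tri_both hker hm hsum
    have hL : finrank (ZMod 2) ↥(span (ZMod 2) {p + q, q + r}) = 2 := by
      have hx0 := ((tri_mem_DD π E e x).1 hx).1
      have hz0 := ((tri_mem_DD π E e z).1 hz).1
      apply tri_finrank2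
      · intro h
        exact hnxy (by rw [← hp, ← hq, tri_eq_of_add h])
      · intro h
        exact hnyz (by rw [← hq, ← hr, tri_eq_of_add h])
      · intro h
        have h1 : π (p + q) = π (q + r) := by rw [h]
        rw [map_add, map_add, hp, hq, hr, add_comm x y] at h1
        exact hnxz (add_left_cancel h1)
    have hLU : span (ZMod 2) {p + q, q + r} ≤ span (ZMod 2) {e, p, q, r} := by
      have hpU : p ∈ span (ZMod 2) {e, p, q, r} := subset_span (by simp)
      have hqU : q ∈ span (ZMod 2) {e, p, q, r} := subset_span (by simp)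
      have hrU : r ∈ span (ZMod 2) {e, p, q, r} := subset_span (by simp)
      rw [span_le]
      intro v hv
      simp only [Set.mem_insert_iff, Set.mem_singleton_iff] at hv
      rcases hv with rfl | rfl
      · exact add_mem hpU hqU
      · exact add_mem hqU hrU
    obtain ⟨u, hu, huL, huE⟩ := no_p12 hG _ _ hU hL hLU (tri_exists hG.span _ (by omega))
    rw [mem_span_insert] at hu
    obtain ⟨a, w, hw, rfl⟩ := hu
    rw [mem_span_triple] at hw
    obtain ⟨b, c, d, rfl⟩ := hw
    obtain ⟨d1, d2, d3, d4, d5, d6, d7, d8, d9, d10⟩ := hD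
    have l0 : (0 : V) ∈ span (ZMod 2) {p + q, q + r} := zero_mem _
    have l1 : p + q ∈ span (ZMod 2) {p + q, q + r} := subset_span (by simp)
    have l2 : q + r ∈ span (ZMod 2) {p + q, q + r} := subset_span (by simp)
    have l3 : p + r ∈ span (ZMod 2) {p + q, q + r} := by
      have : p + r = (p + q) + (q + r) := by
        rw [← add_assoc, tri_cancel]
      rw [this]
      exact add_mem l1 l2
    rcases tri_zmod a with rfl | rfl <;> rcases tri_zmod b with rfl | rfl <;>
      rcases tri_zmod c with rfl | rfl <;> rcases tri_zmod d with rfl | rfl <;>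
      simp only [zero_smul, one_smul, zero_add, add_zero] at huL huE
    · exact huL l0
    · exact huE d4
    · exact huE d3
    · exact huL l2
    · exact huE d2
    · exact huL l3
    · exact huL l1
    · exact huE m1
    · exact huE d1
    · exact huE (by rw [add_comm]; exact d7)
    · exact huE (by rw [add_comm]; exact d6)
    · exact huE (by rw [add_comm]; exact d9)
    · exact huE (by rw [add_comm]; exact d5)
    · exact huE (by rw [add_comm]; exact d10)
    · exact huE (by rw [add_comm]; exact d8)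
    · exact huE (by rw [add_comm]; exact m2)
  have key : ∀ (w : W) (_ : w ∈ DD π E e) (b : V) (_ : π b = w)
      (_ : b ∈ span (ZMod 2) {e, p, q, r}), w ∈ ({x, y, z} : Finset W) := by
    intro w hw b hb hbU
    rw [mem_span_insert] at hbU
    obtain ⟨a, v, hv, rfl⟩ := hbU
    rw [mem_span_triple] at hv
    obtain ⟨b, c, d, rfl⟩ := hv
    have hw' : w = b • x + c • y + d • z := by
      rw [← hb]
      simp [map_add, map_smul, hpe0, hp, hq, hr]
    have hw0 : w ≠ 0 := ((tri_mem_DD π E e w).1 hw).1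
    simp only [Finset.mem_insert, Finset.mem_singleton]
    rcases tri_zmod b with rfl | rfl <;> rcases tri_zmod c with rfl | rfl <;>
      rcases tri_zmod d with rfl | rfl <;>
      simp only [zero_smul, one_smul, zero_add, add_zero] at hw'
    · exact absurd hw' hw0
    · exact Or.inr (Or.inr hw')
    · exact Or.inr (Or.inl hw')
    · exact absurd (hw' ▸ hw) (no_dline hG h5 he π hker y z hy hz hnyz)
    · exact Or.inl hw'
    · exact absurd (hw' ▸ hw) (no_dline hG h5 he π hker x z hx hz hnxz)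
    · exact absurd (hw' ▸ hw) (no_dline hG h5 he π hker x y hx hy hnxy)
    · exact absurd (hw' ▸ hw) hmid
  have hsub : ({x', y', z'} : Finset W) ⊆ {x, y, z} := by
    intro w hw
    simp only [Finset.mem_insert, Finset.mem_singleton] at hw
    rcases hw with rfl | rfl | rfl
    · exact key _ hx' p' hp' (hUU ▸ subset_span (by simp))
    · exact key _ hy' q' hq' (hUU ▸ subset_span (by simp))
    · exact key _ hz' r' hr' (hUU ▸ subset_span (by simp))
  refine (Finset.eq_of_subset_of_card_le hsub ?_).symm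
  rw [Finset.card_eq_three.2 ⟨x, y, z, hnxy, hnxz, hnyz, rfl⟩,
    Finset.card_eq_three.2 ⟨x', y', z', hnxy', hnxz', hnyz', rfl⟩]

end Tri

end Pool.Agent.WW

end

section

/-!
I5: a good set without cocircuits of rank four has a contractible element of degree at most
four.
-/

namespace Pool.Agent.WW

open Submodule Module

universe u

theorem ci_K4F_mono {V : Type*} [AddCommGroup V] [Module (ZMod 2) V] {S E : Set V} (hE : E.Finite)
    (hSE : S ⊆ E) (h : K4F E) : K4F S := by
  intro U hU
  refine le_trans (Set.ncard_le_ncard (Set.inter_subset_inter_left _ hSE) ?_) (h U hU)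
  exact hE.subset Set.inter_subset_left

theorem ci_GQF_mono {V : Type*} [AddCommGroup V] [Module (ZMod 2) V] {S E : Set V}
    (hSE : S ⊆ E) (h : GQF E) : GQF S := by
  intro b hb
  obtain ⟨n, hn, hn2⟩ := h b hb
  exact ⟨n, hn, fun hmem => hn2 (hSE hmem)⟩

theorem claimCaseI (h1 : ClaimCovDim.{u}) (h2 : ClaimCross.{u}) (h3 : ClaimFive.{u})
    (h4 : ClaimMinFrag.{u}) (i1 : ClaimDegRes.{u}) (i2 : ClaimTwoPlanes.{u})
    (i4 : ClaimSide.{u}) : ClaimCaseI.{u} := by
  intro V _ _ _ _ E hE hdim hNo hK4 hGQ hTR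
  obtain ⟨h0, hsp, hsep, hfree⟩ := (good_iff_sepGe (E : Set V)).1 hE
  have h0' : (0 : V) ∉ E := by simpa using h0
  by_contra hcon
  push Not at hcon
  have h6 : ∀ e ∈ E, Ctr (E : Set V) e → 6 ≤ deg E e := by
    intro e he hc
    have h5 := hcon e he hc
    obtain ⟨k, hk⟩ := (i1 V E e h0' he).1
    omega
  by_cases hall : ∀ e ∈ E, Ctr (E : Set V) e
  · have ht := hTR (finrank (ZMod 2) V) (by omega) le_rfl V E h0' (by rw [hsp, finrank_top])
      hK4 hfree hGQ
    have hs : ∑ x ∈ E, deg E x = tri E := sum_deg E h0'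
    have hs2 : E.card * 6 ≤ ∑ x ∈ E, deg E x := by
      rw [← smul_eq_mul]
      apply Finset.card_nsmul_le_sum
      intro x hx
      exact h6 x hx (hall x hx)
    omega
  push Not at hall
  obtain ⟨x, hxE, hx⟩ := hall
  have hUnsp : Unsp (E : Set V) ⊥ := fun A B _ => Or.inl bot_le
  have hexF : ∃ d : ℕ, ∃ G H : Submodule (ZMod 2) V, Frag (E : Set V) ⊥ G H ∧
      finrank (ZMod 2) G = d := by
    unfold Ctr at hx
    push Not at hx
    obtain ⟨A, B, hcov, hxAB, hlt⟩ := hx
    refine ⟨_, A, B, ⟨hcov, ?_, bot_le, x, hxE, hxAB, ?_⟩, rfl⟩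
    · have := hsep A B hcov.1 hcov.2.1 hcov.2.2
      omega
    · intro hb
      rw [Submodule.mem_bot] at hb
      exact h0' (hb ▸ hxE)
  classical
  obtain ⟨G, H, hF, hd⟩ := Nat.find_spec hexF
  have hmin : ∀ G' H' : Submodule (ZMod 2) V, Frag (E : Set V) ⊥ G' H' →
      finrank (ZMod 2) G ≤ finrank (ZMod 2) G' := by
    intro G' H' hF'
    rw [hd]
    exact Nat.find_min' hexF ⟨G', H', hF', rfl⟩
  obtain ⟨hcov, hGH, -, -⟩ := id hF
  have hspG : span (ZMod 2) ((E : Set V) \ (H : Set V)) = G :=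
    (h1 V (E : Set V) G H hsp hcov).2.2.2 hsep hGH
  have hG5 : 5 ≤ finrank (ZMod 2) G := by
    have := hNo H hcov.2.1
    rwa [hspG] at this
  have hGV : finrank (ZMod 2) G ≤ finrank (ZMod 2) V := Submodule.finrank_le G
  have hEG : ∀ y ∈ E, y ∉ H → y ∈ G := fun y hy hyH => (hcov.2.2 y hy).resolve_right hyH
  have hfin : (E : Set V).Finite := E.finite_toSet
  have hsub : ((res E G : Finset V) : Set V) ⊆ (E : Set V) := by
    rw [coe_res]
    exact Set.inter_subset_left
  have h0r : (0 : V) ∉ res E G := fun h => h0' (mem_res.1 h).1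
  have hK4r : K4F ((res E G : Finset V) : Set V) := ci_K4F_mono hfin hsub hK4
  by_cases hb : ∃ b ∈ E, b ∉ H ∧ ¬ Ctr (E : Set V) b
  · obtain ⟨b, hbE, hbH, hbc⟩ := hb
    obtain ⟨S, S', hcS, hbS, hdS, hGS, hGS'⟩ := h2 V (E : Set V) ⊥ G H b hsp hsep (Or.inl rfl)
      hUnsp hF hmin hbE hbH hbc
    obtain ⟨-, Q, Q', hQG, hQ'G, hQ3, hQ'3, hQQ, hQc, -, -⟩ := h3 V (E : Set V) G H S S' b hsp
      hsep hNo hcov hGH hbE hbH hcS hbS hGS hGS'
    obtain ⟨g, hgE, hgH, hgc⟩ := h4 V (E : Set V) ⊥ G H hsp hsep hNo (Or.inl rfl) hUnsp hF hmin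
    have hgE' : g ∈ E := hgE
    have hgb : g ≠ b := by
      rintro rfl
      exact hbc hgc
    have hdeg := i2 V (res E G) Q Q' b g h0r hK4r (by
      intro y hy
      obtain ⟨hy1, hy2⟩ := mem_res.1 hy
      exact hQc y hy1 hy2) hQ3 hQ'3 hQQ (mem_res.2 ⟨hgE', hEG g hgE' hgH⟩) hgb
    have hdr := (i1 V E g h0' hgE').2 G H (fun y hy => hcov.2.2 y hy) hgH
    have := h6 g hgE' hgc
    omega
  · push Not at hb
    refine i4 V (res E G) (G ⊓ H) (finrank (ZMod 2) G) (hTR _ hG5 hGV) h0r hK4r
      (fun h => hfree (HasK5.mono h hsub)) (ci_GQF_mono hsub hGQ) hGH ?_ ?_ ?_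
    · have : span (ZMod 2) ((res E G : Finset V) : Set V) = G := by
        apply le_antisymm
        · rw [span_le, coe_res]
          exact Set.inter_subset_right
        · conv_lhs => rw [← hspG]
          apply span_mono
          rintro y ⟨hy1, hy2⟩
          rw [coe_res]
          exact ⟨hy1, hEG y hy1 hy2⟩
      rw [this]
    · have : ((res E G : Finset V) : Set V) \ ((G ⊓ H : Submodule (ZMod 2) V) : Set V)
          = (E : Set V) \ (H : Set V) := by
        rw [coe_res]
        ext y
        constructor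
        · rintro ⟨⟨hy1, hy2⟩, hy3⟩
          refine ⟨hy1, fun hyH => hy3 ⟨hy2, hyH⟩⟩
        · rintro ⟨hy1, hy2⟩
          exact ⟨⟨hy1, hEG y hy1 hy2⟩, fun h => hy2 h.2⟩
      rw [this, hspG]
    · intro g hg hgn
      obtain ⟨hg1, hg2⟩ := mem_res.1 hg
      have hgH : g ∉ H := fun h => hgn ⟨hg2, h⟩
      rw [(i1 V E g h0' hg1).2 G H (fun y hy => hcov.2.2 y hy) hgH]
      exact h6 g hg1 (hb g hg1 hgH)

end Pool.Agent.WW

end

section

/-!
Item I3: counting in a side all of whose interior points have degree at least six.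
-/

namespace Pool.Agent.WW

open Submodule Module

universe u

theorem cnt_deg_split {V : Type u} [AddCommGroup V] [Module (ZMod 2) V] [DecidableEq V]
    (W : Finset V) (Γ : Submodule (ZMod 2) V) (x : V) :
    deg (res W Γ) x ≤ deg W x := by
  unfold deg
  apply Finset.card_le_card
  intro a ha
  rw [Finset.mem_filter, mem_res, mem_res] at ha
  rw [Finset.mem_filter]
  exact ⟨ha.1.1, ha.2.1⟩

theorem claimCount (h7 : ClaimTriLine.{u}) (h8 : ClaimTriPlane.{u}) : ClaimCount.{u} := by
  intro V _ _ _ _ W Γ h0 hK hΓ hdeg htri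
  classical
  obtain ⟨X, hX⟩ : ∃ X, X = res W Γ := ⟨_, rfl⟩
  obtain ⟨A, hA⟩ : ∃ A, A = W.filter (fun x => x ∉ Γ) := ⟨_, rfl⟩
  have hXf : X = W.filter (fun x => x ∈ Γ) := by
    ext x
    rw [hX, mem_res, Finset.mem_filter]
  have hcard : X.card + A.card = W.card := by
    rw [hXf, hA]
    exact Finset.card_filter_add_card_filter_not _
  have hX0 : (0 : V) ∉ X := by
    intro h
    rw [hX, mem_res] at h
    exact h0 h.1
  have hsum : tri W = ∑ x ∈ X, deg W x + ∑ x ∈ A, deg W x := by
    rw [← sum_deg W h0, hXf, hA]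
    exact (Finset.sum_filter_add_sum_filter_not _ _ _).symm
  have hsumX : tri X = ∑ x ∈ X, deg X x := (sum_deg X hX0).symm
  have hle : ∀ x ∈ X, deg X x ≤ deg W x := by
    intro x _
    rw [hX]
    exact cnt_deg_split W Γ x
  have h1 : tri X ≤ ∑ x ∈ X, deg W x := by
    rw [hsumX]
    exact Finset.sum_le_sum hle
  have h2 : 6 * A.card ≤ ∑ x ∈ A, deg W x := by
    rw [mul_comm]
    refine Finset.card_nsmul_le_sum A _ 6 ?_
    intro g hg
    rw [hA, Finset.mem_filter] at hg
    exact hdeg g hg.1 hg.2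
  have hsub : (X : Set V) ⊆ Γ := by
    intro x hx
    rw [Finset.mem_coe, hX, mem_res] at hx
    exact hx.2
  have hrank : finrank (ZMod 2) ↥(span (ZMod 2) (X : Set V)) ≤ 3 := by
    rw [← hΓ]
    exact Submodule.finrank_mono (span_le.2 hsub)
  rcases Nat.lt_or_ge 2 (finrank (ZMod 2) ↥(span (ZMod 2) (X : Set V))) with hr | hr
  · have hr3 : finrank (ZMod 2) ↥(span (ZMod 2) (X : Set V)) = 3 := by omega
    have hKX : K4F (X : Set V) := by
      intro U hU
      refine le_trans (Set.ncard_le_ncard ?_ ?_) (hK U hU)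
      · rintro x ⟨hx, hxU⟩
        refine ⟨?_, hxU⟩
        rw [Finset.mem_coe, hX, mem_res] at hx
        exact hx.1
      · exact (Finset.finite_toSet W).subset Set.inter_subset_left
    rcases h8 V X hX0 hKX hr3 with h | ⟨h, ht, -⟩
    · exfalso
      omega
    · have heq : ∑ x ∈ X, deg W x = 0 := by omega
      refine ⟨by omega, ?_, ?_⟩
      · have hne : X.Nonempty := Finset.card_pos.1 (by omega)
        obtain ⟨x, hx⟩ := hne
        rw [hX, mem_res] at hx
        exact ⟨x, hx⟩
      · intro x hx hxΓ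
        have hxX : x ∈ X := by
          rw [hX, mem_res]
          exact ⟨hx, hxΓ⟩
        exact (Finset.sum_eq_zero_iff.1 heq) x hxX
  · exfalso
    have h := h7 V X hX0 hr
    omega

end Pool.Agent.WW

end

section

/-!
T1: dimensions in a covering.
-/

namespace Pool.Agent.WW

open Submodule Module

universe u

theorem covdim_aux {V : Type*} [AddCommGroup V] [Module (ZMod 2) V]
    [FiniteDimensional (ZMod 2) V] {E : Set V} {A B : Submodule (ZMod 2) V}
    (hs : span (ZMod 2) E = ⊤) (h : Cov E A B) :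
    A ⊔ B = ⊤ ∧ finrank (ZMod 2) ↥(A ⊓ B) + finrank (ZMod 2) V =
      finrank (ZMod 2) A + finrank (ZMod 2) B := by
  obtain ⟨-, -, hc⟩ := h
  have h1 : A ⊔ B = ⊤ := by
    rw [eq_top_iff, ← hs]
    refine span_le.2 ?_
    intro x hx
    rcases hc x hx with h | h
    · exact le_sup_left (a := A) (b := B) h
    · exact le_sup_right (a := A) (b := B) h
  refine ⟨h1, ?_⟩
  have h2 := Submodule.finrank_sup_add_finrank_inf_eq A B
  rw [h1, finrank_top] at h2
  omega

theorem claimCovDim : ClaimCovDim.{u} := by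
  intro V _ _ _ E A B hs h
  obtain ⟨h1, h2⟩ := covdim_aux hs h
  obtain ⟨hA, hB, hc⟩ := h
  have h3 : span (ZMod 2) (E \ (B : Set V)) ≤ A := by
    refine span_le.2 ?_
    rintro x ⟨hx, hxB⟩
    exact (hc x hx).resolve_right hxB
  refine ⟨h1, h2, h3, ?_⟩
  intro hsep h4
  have hA0 : span (ZMod 2) (E \ (B : Set V)) ≠ ⊤ := by
    intro h5
    apply hA
    rw [eq_top_iff, ← h5]
    exact h3
  have hc0 : Cov E (span (ZMod 2) (E \ (B : Set V))) B := by
    refine ⟨hA0, hB, ?_⟩
    intro x hx
    by_cases hxB : x ∈ B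
    · exact Or.inr hxB
    · exact Or.inl (subset_span ⟨hx, hxB⟩)
  have h5 := hsep _ _ hA0 hB hc0.2.2
  obtain ⟨-, h6⟩ := covdim_aux hs hc0
  apply Submodule.eq_of_le_of_finrank_le h3
  omega

end Pool.Agent.WW

end

section

/-!
T2: crossing of a smallest fragment with the separation of a noncontractible element.
-/

namespace Pool.Agent.WW

open Submodule Module

universe u

theorem cross_core (h : ClaimCovDim.{u}) {V : Type u} [AddCommGroup V] [Module (ZMod 2) V]
    [FiniteDimensional (ZMod 2) V] {E : Set V} {P G H S S' : Submodule (ZMod 2) V} {g : V}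
    (hsp : span (ZMod 2) E = ⊤) (hsep : SepGe E 3) (hF : Frag E P G H)
    (hmin : ∀ G' H' : Submodule (ZMod 2) V, Frag E P G' H' →
      finrank (ZMod 2) G ≤ finrank (ZMod 2) G')
    (hgE : g ∈ E) (hgH : g ∉ H) (hS : Cov E S S') (hgS : g ∈ S) (hgS' : g ∈ S')
    (h3 : finrank (ZMod 2) ↥(S ⊓ S') = 3)
    (hX : 3 ≤ finrank (ZMod 2) ↥(H ⊓ S') ∨ Frag E P S' S) :
    finrank (ZMod 2) ↥(G ⊓ S) ≤ 3 := by
  by_contra hcon
  push Not at hcon
  obtain ⟨hGH, hGH3, hPH, -⟩ := hF
  have hgG : g ∈ G := (hGH.2.2 g hgE).resolve_right hgH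
  have hgP : g ∉ P := fun hp => hgH (hPH hp)
  have d1 := (h V E G H hsp hGH).2.1
  have d2 := (h V E S S' hsp hS).2.1
  have m1 := Submodule.finrank_sup_add_finrank_inf_eq G S
  have m2 := Submodule.finrank_sup_add_finrank_inf_eq H S'
  rw [hGH3] at d1
  rw [h3] at d2
  have hle : finrank (ZMod 2) ↥(H ⊔ S') ≤ finrank (ZMod 2) V := Submodule.finrank_le _
  rcases Nat.lt_or_ge (finrank (ZMod 2) ↥(H ⊓ S')) 3 with hlt | hge
  · rcases hX with hX | hX
    · omega
    · have := hmin _ _ hX
      omega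
  · have hk : finrank (ZMod 2) V + 3 ≤ finrank (ZMod 2) ↥(G ⊔ S) +
        finrank (ZMod 2) ↥(H ⊓ S') := by
      by_cases htop : G ⊔ S = ⊤
      · rw [htop, finrank_top]
        omega
      · have hcov : Cov E (G ⊔ S) (H ⊓ S') := by
          refine ⟨htop, ?_, ?_⟩
          · intro ht
            exact hGH.2.1 (top_le_iff.1 (ht ▸ inf_le_left))
          · intro x hx
            rcases hGH.2.2 x hx with h1 | h1
            · exact Or.inl (mem_sup_left h1)
            · rcases hS.2.2 x hx with h2 | h2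
              · exact Or.inl (mem_sup_right h2)
              · exact Or.inr ⟨h1, h2⟩
        have e1 := (h V E _ _ hsp hcov).2.1
        have e2 := hsep _ _ hcov.1 hcov.2.1 hcov.2.2
        omega
    have hne : H ⊔ S' ≠ ⊤ := by
      intro ht
      rw [ht, finrank_top] at m2
      omega
    have hcov : Cov E (G ⊓ S) (H ⊔ S') := by
      refine ⟨?_, hne, ?_⟩
      · intro ht
        exact hGH.1 (top_le_iff.1 (ht ▸ inf_le_left))
      · intro x hx
        rcases hGH.2.2 x hx with h1 | h1
        · rcases hS.2.2 x hx with h2 | h2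
          · exact Or.inl ⟨h1, h2⟩
          · exact Or.inr (mem_sup_right h2)
        · exact Or.inr (mem_sup_left h1)
    have e1 := (h V E _ _ hsp hcov).2.1
    have e2 := hsep _ _ hcov.1 hcov.2.1 hcov.2.2
    have e3 : finrank (ZMod 2) ↥(G ⊓ S ⊓ (H ⊔ S')) = 3 := by omega
    have hfr : Frag E P (G ⊓ S) (H ⊔ S') :=
      ⟨hcov, e3, hPH.trans le_sup_left, g, hgE, ⟨⟨hgG, hgS⟩, mem_sup_right hgS'⟩, hgP⟩
    have hd := hmin _ _ hfr
    have hle2 : finrank (ZMod 2) ↥(H ⊔ S') ≤ finrank (ZMod 2) H := by omega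
    have heq : H = H ⊔ S' := Submodule.eq_of_le_of_finrank_le le_sup_left hle2
    apply hgH
    rw [heq]
    exact mem_sup_right hgS'

/-- T2 -/
theorem claimCross (h : ClaimCovDim.{u}) : ClaimCross.{u} := by
  intro V _ _ _ E P G H g hsp hsep hP hU hF hmin hgE hgH hctr
  have hgP : g ∉ P := fun hp => hgH (hF.2.2.1 hp)
  have hg0 : g ≠ 0 := by
    rintro rfl
    exact hgH H.zero_mem
  unfold Ctr at hctr
  push Not at hctr
  obtain ⟨A, B, hcov, hgAB, hlt⟩ := hctr
  have hge := hsep A B hcov.1 hcov.2.1 hcov.2.2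
  have h3 : finrank (ZMod 2) ↥(A ⊓ B) = 3 := by omega
  -- the case `P ≤ S'`
  have main : ∀ S S' : Submodule (ZMod 2) V, Cov E S S' → g ∈ S → g ∈ S' →
      finrank (ZMod 2) ↥(S ⊓ S') = 3 → P ≤ S' →
      finrank (ZMod 2) ↥(G ⊓ S) ≤ 3 ∧ finrank (ZMod 2) ↥(G ⊓ S') ≤ 3 := by
    intro S S' hS hgS hgS' hd hPS
    have hS2 : Cov E S' S := ⟨hS.2.1, hS.1, fun x hx => (hS.2.2 x hx).symm⟩
    have hd2 : finrank (ZMod 2) ↥(S' ⊓ S) = 3 := by rw [inf_comm]; exact hd
    constructor
    · apply cross_core h hsp hsep hF hmin hgE hgH hS hgS hgS' hd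
      rcases hP with hP | hP
      · right
        refine ⟨hS2, hd2, ?_, g, hgE, ⟨hgS', hgS⟩, hgP⟩
        rw [hP]
        exact bot_le
      · left
        exact hP.trans (Submodule.finrank_mono (le_inf hF.2.2.1 hPS))
    · apply cross_core h hsp hsep hF hmin hgE hgH hS2 hgS' hgS hd2
      exact Or.inr ⟨hS, hd, hPS, g, hgE, ⟨hgS, hgS'⟩, hgP⟩
  rcases hU A B (fun x hx _ => hcov.2.2 x hx) with hPA | hPB
  · have hcov2 : Cov E B A := ⟨hcov.2.1, hcov.1, fun x hx => (hcov.2.2 x hx).symm⟩
    have hd2 : finrank (ZMod 2) ↥(B ⊓ A) = 3 := by rw [inf_comm]; exact h3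
    have := main B A hcov2 hgAB.2 hgAB.1 hd2 hPA
    exact ⟨A, B, hcov, hgAB, h3, this.2, this.1⟩
  · have := main A B hcov hgAB.1 hgAB.2 h3 hPB
    exact ⟨A, B, hcov, hgAB, h3, this.1, this.2⟩

end Pool.Agent.WW

end

section

set_option autoImplicit false

/-!
# T14: contraction of a contractible element
-/

namespace Pool.Agent.WW

open Submodule Module

universe u

/-- T14: contraction of a contractible element -/
theorem claimCtrGood : ClaimCtrGood.{u} := by
  intro V _ _ _ _ W _ _ _ _ E π e hπ hker he hE hC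
  have h0 := hE.zero
  have hs := hE.span
  have he0 : e ≠ 0 := by
    rintro rfl
    exact h0 he
  have hpe : π e = 0 := (hker e).2 (Or.inr rfl)
  refine ⟨(good_iff_sepGe _).2 ⟨?_, ?_, ?_, ?_⟩, ?_⟩
  · rw [contr, Finset.mem_coe]
    exact Finset.notMem_erase _ _
  · rw [contr, Finset.coe_erase, Finset.coe_image, Submodule.span_sdiff_singleton_zero,
      ← map_span, hs, Submodule.map_top, LinearMap.range_eq_top.2 hπ]
  · intro A B hA hB hcov
    have hcA : ∀ A : Submodule (ZMod 2) W, A ≠ ⊤ → A.comap π ≠ ⊤ := by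
      intro A hA h
      apply hA
      have h1 := Submodule.map_comap_eq_of_surjective hπ A
      rw [h, Submodule.map_top, LinearMap.range_eq_top.2 hπ] at h1
      exact h1.symm
    have h1 := hC (A.comap π) (B.comap π) ⟨hcA A hA, hcA B hB, by
      intro x hx
      by_cases hx0 : π x = 0
      · left
        rw [mem_comap, hx0]
        exact zero_mem _
      · exact hcov (π x) (by
          rw [contr, Finset.mem_coe, Finset.mem_erase]
          exact ⟨hx0, Finset.mem_image_of_mem π (Finset.mem_coe.1 hx)⟩)⟩ (by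
      rw [mem_inf, mem_comap, mem_comap, hpe]
      exact ⟨zero_mem _, zero_mem _⟩)
    rw [← Submodule.comap_inf, c4_finrank_comap π e hπ hker he0] at h1
    omega
  · intro h
    exact hE.free (HasK5.of_contr π hker E he h)
  · have h1 := c4_finrank_comap π e hπ hker he0 ⊤
    rw [Submodule.comap_top, finrank_top, finrank_top] at h1
    exact h1.symm

end Pool.Agent.WW

end

section

/-!
Item I6: the density bound for sets without cocircuits of rank four.
-/

namespace Pool.Agent.WW

open Submodule Module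

universe u

theorem dnc_mkQ {V : Type u} [AddCommGroup V] [Module (ZMod 2) V] (e v : V) :
    (span (ZMod 2) {e}).mkQ v = 0 ↔ v = 0 ∨ v = e := by
  rw [Submodule.mkQ_apply, Submodule.Quotient.mk_eq_zero, mem_span_singleton]
  constructor
  · rintro ⟨c, rfl⟩
    have h2 : ∀ c : ZMod 2, c = 0 ∨ c = 1 := by decide
    rcases h2 c with h | h
    · left; rw [h, zero_smul]
    · right; rw [h, one_smul]
  · rintro (h | h)
    · exact ⟨0, by rw [zero_smul, h]⟩
    · exact ⟨1, by rw [one_smul, h]⟩

theorem claimD3NoC4 (t18 : ClaimTAll.{u}) (i5 : ClaimCaseI.{u}) (h14 : ClaimCtrGood.{u})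
    (h15 : ClaimNoGQ.{u}) : ClaimD3NoC4.{u} := by
  intro hKa hKb hT6 hTab hT5 V _ _ _ _ E n hE hn hn5 hNo hD3
  classical
  have hr6 : 6 ≤ finrank (ZMod 2) V := by omega
  have hK := hKa V E hE hr6 hNo
  have hG := h15 hTab V E hE hr6
  have hTR := t18 hKb hT6 hTab hT5
  obtain ⟨e, he, hC, hdeg⟩ := i5 V E hE hr6 hNo hK hG (fun m hm _ => hTR m hm)
  have he' : e ∈ (E : Set V) := he
  obtain ⟨hgood, hrank⟩ := h14 V (V ⧸ span (ZMod 2) {e}) E (span (ZMod 2) {e}).mkQ e
    (Submodule.mkQ_surjective _) (dnc_mkQ e) he hE hC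
  have hcard := hD3 (V ⧸ span (ZMod 2) {e}) (contr (span (ZMod 2) {e}).mkQ E) hgood (by omega)
  have h0 : (0 : V) ∉ E := hE.zero
  have hc := card_contr (span (ZMod 2) {e}).mkQ E e (dnc_mkQ e) h0 he
  omega

end Pool.Agent.WW

end
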