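import Pool.Agent.Work.MP_a8f287_co.Bd.B02
import Pool.Agent.Work.MP_a8f287_co.Bd.B01

/-! Bundle of small proof modules (one section per former module). -/

section

set_option autoImplicit false

namespace Pool.Agent.WW

open Submodule Module

universe u

theorem dgr_self {V : Type*} [AddCommGroup V] [Module (ZMod 2) V] (x : V) : x + x = 0 := by
  have h := add_smul (1 : ZMod 2) 1 x
  rw [show (1 : ZMod 2) + 1 = 0 from rfl, zero_smul, one_smul] at h
  exact h.symm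

theorem dgr_cancel {V : Type*} [AddCommGroup V] [Module (ZMod 2) V] (x y : V) :
    x + y + y = x := by
  rw [add_assoc, dgr_self, add_zero]

/-- I1: degrees are even; lines through an interior point of a side stay in the side. -/
theorem claimDegRes : ClaimDegRes.{u} := by
  intro V _ _ _ E g h0 hg
  have hg0 : g ≠ 0 := fun h => h0 (h ▸ hg)
  constructor
  · rw [← ZMod.natCast_eq_zero_iff_even]
    have h : ∑ _a ∈ E.filter (fun a => a + g ∈ E), (1 : ZMod 2) = 0 := by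
      refine Finset.sum_involution (fun a _ => a + g) ?_ ?_ ?_ ?_
      · intro a _
        rfl
      · intro a _ _ h
        exact hg0 (by simpa using h)
      · intro a ha
        rw [Finset.mem_filter] at ha ⊢
        refine ⟨ha.2, ?_⟩
        rw [dgr_cancel]
        exact ha.1
      · intro a _
        exact dgr_cancel a g
    rw [Finset.sum_const, nsmul_eq_mul, mul_one] at h
    exact h
  · intro G H hcov hgH
    unfold deg
    congr 1
    ext a
    rw [Finset.mem_filter, Finset.mem_filter, mem_res, mem_res]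
    constructor
    · rintro ⟨⟨h1, _⟩, h2, _⟩
      exact ⟨h1, h2⟩
    · rintro ⟨h1, h2⟩
      have hgG : g ∈ G := (hcov g hg).resolve_right hgH
      have haG : a ∈ G := by
        rcases hcov a h1 with h | h
        · exact h
        · rcases hcov (a + g) h2 with h' | h'
          · have := G.add_mem h' hgG
            rwa [dgr_cancel] at this
          · exfalso
            apply hgH
            have := H.add_mem h' h
            rwa [add_comm a g, dgr_cancel] at this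
      exact ⟨⟨h1, haG⟩, h2, G.add_mem haG hgG⟩

end Pool.Agent.WW

end

section

/-!
T3: without cocircuits of rank four the fragment has dimension five.
-/

namespace Pool.Agent.WW

open Submodule Module

universe u

/-- one side: the plane `Q = G ⊓ S` meets `H` in a point -/
theorem five_side {V : Type u} [AddCommGroup V] [Module (ZMod 2) V]
    [FiniteDimensional (ZMod 2) V] {E : Set V} {G H S S' : Submodule (ZMod 2) V} {g : V}
    (hnc : NoC4 E) (hGV : finrank (ZMod 2) G = 5) (hdim : 3 + finrank (ZMod 2) V =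
      5 + finrank (ZMod 2) H) (hcov : ∀ x ∈ E, x ∈ G ∨ x ∈ H)
    (hGH : finrank (ZMod 2) ↥(G ⊓ H) = 3) (hgH : g ∉ H)
    (hcovS : ∀ x ∈ E, x ∈ S ∨ x ∈ S') (hgQ : g ∈ G ⊓ S)
    (hQ : finrank (ZMod 2) ↥(G ⊓ S) = 3) (hQ' : finrank (ZMod 2) ↥(G ⊓ S') ≤ 3) :
    finrank (ZMod 2) ↥((G ⊓ S) ⊓ H) = 1 := by
  have hg0 : g ≠ 0 := fun h => hgH (h ▸ H.zero_mem)
  -- lower bound
  have h1 := Submodule.finrank_sup_add_finrank_inf_eq (G ⊓ S) (G ⊓ H)
  have h2 : finrank (ZMod 2) ↥((G ⊓ S) ⊔ (G ⊓ H)) ≤ 5 := by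
    rw [← hGV]
    exact Submodule.finrank_mono (sup_le inf_le_left inf_le_left)
  have h3 : (G ⊓ S) ⊓ (G ⊓ H) = (G ⊓ S) ⊓ H := by
    apply le_antisymm
    · exact inf_le_inf_left _ inf_le_right
    · exact le_inf inf_le_left (le_inf (inf_le_left.trans inf_le_left) inf_le_right)
  rw [h3, hQ, hGH] at h1
  have hlow : 1 ≤ finrank (ZMod 2) ↥((G ⊓ S) ⊓ H) := by omega
  -- upper bound
  have hspan : finrank (ZMod 2) ↥(span (ZMod 2) {g}) = 1 := finrank_span_singleton hg0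
  have hdisj : (G ⊓ S) ⊓ H ⊓ span (ZMod 2) {g} = ⊥ := by
    rw [eq_bot_iff]
    rintro x ⟨hx1, hx2⟩
    rw [SetLike.mem_coe, Submodule.mem_span_singleton] at hx2
    obtain ⟨c, rfl⟩ := hx2
    rw [Submodule.mem_bot]
    by_cases hc : c = 0
    · rw [hc, zero_smul]
    · exfalso
      apply hgH
      have h4 : c • g ∈ H := hx1.2
      have h5 := H.smul_mem c⁻¹ h4
      rwa [smul_smul, inv_mul_cancel₀ hc, one_smul] at h5
  have h6 := Submodule.finrank_sup_add_finrank_inf_eq ((G ⊓ S) ⊓ H) (span (ZMod 2) {g})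
  rw [hdisj, finrank_bot, hspan, add_zero] at h6
  have hle : (G ⊓ S) ⊓ H ⊔ span (ZMod 2) {g} ≤ G ⊓ S :=
    sup_le inf_le_left ((Submodule.span_singleton_le_iff_mem _ _).mpr hgQ)
  have h7 := Submodule.finrank_mono hle
  rw [hQ] at h7
  have hup : finrank (ZMod 2) ↥((G ⊓ S) ⊓ H) ≤ 2 := by omega
  by_contra hne
  have htwo : finrank (ZMod 2) ↥((G ⊓ S) ⊓ H) = 2 := by omega
  rw [htwo] at h6
  have heq : (G ⊓ S) ⊓ H ⊔ span (ZMod 2) {g} = G ⊓ S :=
    Submodule.eq_of_le_of_finrank_eq hle (by rw [h6, hQ])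
  have hQH' : G ⊓ S ≤ H ⊔ span (ZMod 2) {g} := by
    rw [← heq]
    exact sup_le_sup_right inf_le_right _
  have hH'ne : H ⊔ span (ZMod 2) {g} ≠ ⊤ := by
    intro htop
    have h8 := Submodule.finrank_add_le_finrank_add_finrank H (span (ZMod 2) {g})
    rw [htop, finrank_top, hspan] at h8
    omega
  have h9 := hnc _ hH'ne
  have h10 : span (ZMod 2) (E \ ((H ⊔ span (ZMod 2) {g} : Submodule (ZMod 2) V) : Set V)) ≤
      G ⊓ S' := by
    refine span_le.2 ?_
    rintro x ⟨hxE, hxH'⟩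
    have hxH : x ∉ H := fun h => hxH' ((le_sup_left : H ≤ H ⊔ span (ZMod 2) {g}) h)
    have hxG : x ∈ G := (hcov x hxE).resolve_right hxH
    have hxS : x ∉ S := fun h => hxH' (hQH' ⟨hxG, h⟩)
    exact ⟨hxG, (hcovS x hxE).resolve_left hxS⟩
  have h11 := Submodule.finrank_mono h10
  omega

theorem claimFive (h : ClaimCovDim.{u}) : ClaimFive.{u} := by
  intro V _ _ _ E G H S S' g hspan hsep hnc hcov hGH hgE hgH hcovS hgS hdS hdS'
  obtain ⟨-, hdim, -, hG⟩ := h V E G H hspan hcov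
  have hGspan := hG hsep hGH
  have hg0 : g ≠ 0 := fun h => hgH (h ▸ H.zero_mem)
  have hgG : g ∈ G := (hcov.2.2 g hgE).resolve_right hgH
  have hgQ : g ∈ G ⊓ S := ⟨hgG, hgS.1⟩
  have hgQ' : g ∈ G ⊓ S' := ⟨hgG, hgS.2⟩
  have h5 : 5 ≤ finrank (ZMod 2) G := by
    have := hnc H hcov.2.1
    rwa [hGspan] at this
  have hle : G ≤ (G ⊓ S) ⊔ (G ⊓ S') := by
    conv_lhs => rw [← hGspan]
    refine span_le.2 ?_
    rintro x ⟨hxE, hxH⟩
    have hxG : x ∈ G := (hcov.2.2 x hxE).resolve_right hxH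
    rcases hcovS.2.2 x hxE with hx | hx
    · exact Submodule.mem_sup_left ⟨hxG, hx⟩
    · exact Submodule.mem_sup_right ⟨hxG, hx⟩
  have hmod := Submodule.finrank_sup_add_finrank_inf_eq (G ⊓ S) (G ⊓ S')
  have hle2 := Submodule.finrank_mono hle
  have hsle : span (ZMod 2) {g} ≤ (G ⊓ S) ⊓ (G ⊓ S') :=
    (Submodule.span_singleton_le_iff_mem _ _).mpr ⟨hgQ, hgQ'⟩
  have hs1 : finrank (ZMod 2) ↥(span (ZMod 2) {g}) = 1 := finrank_span_singleton hg0
  have h1 := Submodule.finrank_mono hsle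
  rw [hs1] at h1
  have hQ3 : finrank (ZMod 2) ↥(G ⊓ S) = 3 := by omega
  have hQ'3 : finrank (ZMod 2) ↥(G ⊓ S') = 3 := by omega
  have hG5 : finrank (ZMod 2) G = 5 := by omega
  have hint : finrank (ZMod 2) ↥((G ⊓ S) ⊓ (G ⊓ S')) = 1 := by omega
  have hinteq : (G ⊓ S) ⊓ (G ⊓ S') = span (ZMod 2) {g} :=
    (Submodule.eq_of_le_of_finrank_eq hsle (by rw [hs1, hint])).symm
  have hdim' : 3 + finrank (ZMod 2) V = 5 + finrank (ZMod 2) H := by
    rw [← hGH, hdim, hG5]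
  refine ⟨hG5, G ⊓ S, G ⊓ S', inf_le_left, inf_le_left, hQ3, hQ'3, hinteq, ?_, ?_, ?_⟩
  · intro x hxE hxG
    rcases hcovS.2.2 x hxE with hx | hx
    · exact Or.inl ⟨hxG, hx⟩
    · exact Or.inr ⟨hxG, hx⟩
  · exact five_side hnc hG5 hdim' hcov.2.2 hGH hgH hcovS.2.2 hgQ hQ3 hQ'3.le
  · exact five_side hnc hG5 hdim' hcov.2.2 hGH hgH (fun x hx => (hcovS.2.2 x hx).symm) hgQ' hQ'3
      hQ3.le

end Pool.Agent.WW

end

section

/-!
Table for the HIT lemma: lifts of `Δ_5`. Codes below 64: `1` is the contracted element, `2` is the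
hub, `4, 8, 16, 32` are the spokes.
-/

namespace Pool.Agent.WW

/-- the present codes -/
def hitM : ℕ := 4295033110

/-- the clauses: lifts of the other spokes and of the rims; doubled points of the cocircuits -/
def hitCls : List (List ℕ) :=
  [[64, 128], [1024, 2048], [262144, 524288], [17179869184, 34359738368], [4096, 8192],
    [16777216, 33554432], [281474976710656, 562949953421312], [274877906944, 549755813888],
    [48, 192, 824633720832, 12288], [768, 3072, 12288, 50331648],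
    [196608, 786432, 50331648, 844424930131968],
    [12884901888, 51539607552, 844424930131968, 824633720832]]

/-- the tree -/
def hitTree : BT :=
    (.br 0 0 (.br 1 0 (.br 2 0 (.br 3 0 (.br 4 0 (.br 5 0 (.br 6 0 (.br 7 0 (.br 8 0 (.br 10 0
    (.leaf [5, 32] 1 2 8 16) (.br 10 0 (.leaf [5, 8] 1 2 18 34) (.br 10 0 (.leaf [5, 10] 1 2 18 34)
    (.br 10 0 (.leaf [5, 32] 1 2 8 16) (.abs 10))))) (.br 8 0 (.br 10 0 (.leaf [7, 8] 1 2 16 32)
    (.br 10 0 (.leaf [7, 32] 1 2 10 18) (.br 10 0 (.leaf [7, 8] 1 2 16 32) (.br 10 0 (.leaf [7, 34]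
    1 2 10 18) (.abs 10))))) (.br 8 0 (.br 9 0 (.leaf [6, 9] 1 2 16 32) (.br 9 0 (.leaf [4, 11] 1 2
    18 34) (.br 9 0 (.leaf [13, 16] 1 4 6 38) (.br 9 0 (.leaf [12, 25] 1 4 6 38) (.abs 9))))) (.br 8
    0 (.br 10 0 (.leaf [10, 13] 1 2 16 32) (.br 10 0 (.leaf [8, 13] 1 2 18 34) (.br 10 0 (.leaf [13,
    32] 1 4 6 20) (.br 10 0 (.leaf [13, 24] 1 4 6 36) (.abs 10))))) (.abs 8))))) (.br 7 0 (.br 9 0
    (.leaf [6, 9] 1 2 16 32) (.br 9 0 (.leaf [4, 11] 1 2 18 34) (.br 9 0 (.leaf [16, 39] 1 4 6 12)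
    (.br 9 0 (.leaf [12, 39] 1 4 6 20) (.abs 9))))) (.abs 7))) (.br 6 0 (.br 8 0 (.leaf [5, 32] 1 2
    8 16) (.br 8 0 (.leaf [7, 34] 1 2 10 18) (.br 8 0 (.leaf [8, 49] 1 16 18 22) (.br 8 0 (.leaf
    [24, 49] 1 8 10 12) (.abs 8))))) (.abs 6))) (.br 5 0 (.br 6 0 (.br 7 1 (.leaf [25, 39] 1 4 6 8)
    (.br 7 0 (.br 8 0 (.leaf [5, 10] 1 2 18 34) (.br 8 0 (.leaf [7, 8] 1 2 16 32) (.br 8 0 (.leaf
    [12, 25] 1 4 6 38) (.br 8 0 (.leaf [25, 32] 1 8 10 12) (.abs 8))))) (.abs 7))) (.br 6 0 (.br 8 0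
    (.leaf [5, 49] 1 2 8 17) (.br 8 0 (.leaf [7, 49] 1 2 10 19) (.br 8 0 (.leaf [8, 49] 1 16 18 22)
    (.br 8 0 (.leaf [25, 32] 1 8 10 12) (.abs 8))))) (.abs 6))) (.abs 5))) (.br 4 0 (.br 5 0 (.br 6
    0 (.br 11 0 (.leaf [4, 13] 1 2 16 32) (.br 11 0 (.leaf [6, 13] 1 2 18 34) (.br 11 0 (.leaf [13,
    24] 1 4 6 36) (.br 11 0 (.leaf [13, 16] 1 4 6 38) (.abs 11))))) (.br 6 0 (.br 7 0 (.leaf [13,
    49] 1 4 6 17) (.br 7 0 (.leaf [4, 32] 1 2 8 16) (.abs 7))) (.abs 6))) (.br 5 0 (.br 6 0 (.br 11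
    0 (.leaf [6, 8] 1 2 16 32) (.br 11 0 (.leaf [4, 10] 1 2 18 34) (.br 11 0 (.leaf [4, 25] 1 8 10
    40) (.br 11 0 (.leaf [4, 10] 1 2 18 34) (.abs 11))))) (.br 6 0 (.br 7 0 (.leaf [8, 18] 1 2 4 34)
    (.br 7 0 (.leaf [13, 49] 1 4 6 16) (.abs 7))) (.abs 6))) (.abs 5))) (.abs 4))) (.br 3 0 (.br 4 0
    (.br 5 0 (.br 6 0 (.br 7 0 (.br 9 0 (.leaf [9, 18] 1 2 4 34) (.br 9 0 (.leaf [4, 11] 1 2 18 34)
    (.br 9 0 (.leaf [6, 35] 1 2 10 18) (.br 9 0 (.leaf [16, 35] 1 2 4 8) (.abs 9))))) (.br 7 0 (.br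
    9 0 (.leaf [9, 39] 1 2 7 16) (.br 9 0 (.leaf [4, 35] 1 2 10 18) (.br 9 0 (.leaf [6, 35] 1 2 10
    18) (.br 9 0 (.leaf [6, 48] 1 16 18 24) (.abs 9))))) (.abs 7))) (.br 6 0 (.br 7 0 (.br 9 0
    (.leaf [4, 32] 1 2 8 16) (.br 9 0 (.leaf [11, 38] 1 2 5 18) (.br 9 0 (.leaf [4, 32] 1 2 8 16)
    (.br 9 0 (.leaf [4, 49] 1 16 18 24) (.abs 9))))) (.br 7 0 (.br 9 0 (.leaf [4, 32] 1 2 8 16) (.br
    9 0 (.leaf [11, 16] 1 2 6 33) (.br 9 0 (.leaf [4, 32] 1 2 8 16) (.br 9 0 (.leaf [18, 32] 1 2 6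
    10) (.abs 9))))) (.abs 7))) (.abs 6))) (.br 5 0 (.br 7 0 (.leaf [16, 35] 1 2 4 8) (.br 7 0
    (.leaf [18, 32] 1 2 6 10) (.abs 7))) (.abs 5))) (.br 4 0 (.br 5 0 (.br 6 0 (.leaf [6, 35] 1 2 10
    18) (.br 6 0 (.leaf [4, 32] 1 2 8 16) (.abs 6))) (.br 5 0 (.br 6 0 (.leaf [13, 35] 1 2 6 18)
    (.br 6 0 (.leaf [13, 32] 1 2 4 16) (.abs 6))) (.abs 5))) (.abs 4))) (.abs 3))) (.br 2 0 (.br 3 0
    (.br 4 0 (.br 5 0 (.br 7 1 (.leaf [19, 32] 1 2 6 10) (.br 7 0 (.br 6 0 (.br 8 0 (.leaf [5, 10] 1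
    2 18 34) (.br 8 0 (.leaf [7, 34] 1 2 10 18) (.br 8 0 (.leaf [19, 32] 1 2 6 10) (.br 8 0 (.leaf
    [8, 19] 1 2 4 34) (.abs 8))))) (.br 6 0 (.br 8 0 (.leaf [5, 24] 1 2 11 34) (.br 8 0 (.leaf [8,
    16] 1 2 6 32) (.br 8 0 (.leaf [10, 49] 1 16 18 22) (.br 8 0 (.leaf [10, 16] 1 2 6 32) (.abs
    8))))) (.abs 6))) (.abs 7))) (.br 5 0 (.br 7 1 (.leaf [16, 34] 1 2 4 8) (.br 7 0 (.br 6 0 (.br 8
    0 (.leaf [8, 19] 1 2 4 34) (.br 8 0 (.leaf [7, 25] 1 2 9 32) (.br 8 0 (.leaf [8, 48] 1 16 18 22)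
    (.br 8 0 (.leaf [8, 19] 1 2 4 34) (.abs 8))))) (.br 6 0 (.br 8 0 (.leaf [5, 32] 1 2 8 17) (.br 8
    0 (.leaf [7, 8] 1 2 17 32) (.br 8 0 (.leaf [16, 34] 1 2 4 8) (.br 8 0 (.leaf [10, 16] 1 2 6 32)
    (.abs 8))))) (.abs 6))) (.abs 7))) (.abs 5))) (.br 4 0 (.br 5 0 (.br 7 1 (.leaf [19, 39] 1 2 7
    10) (.br 7 0 (.br 6 0 (.leaf [8, 19] 1 2 4 34) (.br 6 0 (.leaf [10, 16] 1 2 6 32) (.abs 6)))
    (.abs 7))) (.br 5 0 (.br 7 1 (.leaf [16, 39] 1 2 5 8) (.br 7 0 (.br 6 0 (.leaf [8, 19] 1 2 4 34)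
    (.br 6 0 (.leaf [10, 16] 1 2 6 32) (.abs 6))) (.abs 7))) (.abs 5))) (.abs 4))) (.br 3 0 (.br 4 0
    (.br 5 0 (.br 7 1 (.leaf [19, 32] 1 2 6 10) (.br 7 0 (.br 6 0 (.br 8 0 (.leaf [2, 12] 1 4 16 32)
    (.br 8 0 (.leaf [2, 12] 1 4 16 32) (.br 8 0 (.leaf [19, 32] 1 2 6 10) (.br 8 0 (.leaf [4, 10] 1
    2 18 34) (.abs 8))))) (.br 6 0 (.br 8 0 (.leaf [5, 49] 1 2 8 16) (.br 8 0 (.leaf [7, 35] 1 2 10
    18) (.br 8 0 (.leaf [8, 49] 1 16 18 22) (.br 8 0 (.leaf [2, 13] 1 4 17 32) (.abs 8))))) (.abs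
    6))) (.abs 7))) (.br 5 0 (.br 7 0 (.leaf [16, 35] 1 2 4 8) (.br 7 0 (.br 6 0 (.br 8 0 (.leaf [2,
    12] 1 4 17 33) (.br 8 0 (.leaf [2, 12] 1 4 17 33) (.br 8 0 (.leaf [16, 35] 1 2 4 8) (.br 8 0
    (.leaf [6, 8] 1 2 17 33) (.abs 8))))) (.br 6 0 (.br 8 0 (.leaf [5, 32] 1 2 8 17) (.br 8 0 (.leaf
    [7, 49] 1 2 10 19) (.br 8 0 (.leaf [8, 49] 1 16 18 22) (.br 8 0 (.leaf [2, 13] 1 4 16 33) (.abs
    8))))) (.abs 6))) (.abs 7))) (.abs 5))) (.br 4 0 (.br 5 0 (.br 10 0 (.leaf [13, 32] 1 2 4 17)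
    (.br 10 0 (.leaf [6, 32] 1 2 10 18) (.br 10 0 (.leaf [13, 32] 1 4 7 20) (.br 10 0 (.leaf [6, 35]
    1 2 10 18) (.abs 10))))) (.br 5 0 (.br 10 0 (.leaf [4, 32] 1 2 8 17) (.br 10 0 (.leaf [13, 32] 1
    2 6 18) (.br 10 0 (.leaf [13, 32] 1 4 7 20) (.br 10 0 (.leaf [4, 32] 1 2 8 17) (.abs 10)))))
    (.abs 5))) (.abs 4))) (.abs 3))) (.abs 2))) (.br 1 0 (.br 2 0 (.br 3 0 (.br 4 0 (.br 5 0 (.br 6
    0 (.br 7 1 (.leaf [4, 11] 1 2 18 34) (.br 7 0 (.br 11 0 (.leaf [11, 16] 1 2 6 32) (.br 11 0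
    (.leaf [4, 11] 1 2 18 34) (.br 11 0 (.leaf [11, 16] 1 2 6 32) (.br 11 0 (.leaf [4, 11] 1 2 18
    34) (.abs 11))))) (.abs 7))) (.br 6 0 (.br 7 0 (.leaf [11, 16] 1 2 6 32) (.br 7 0 (.leaf [6, 34]
    1 2 10 18) (.abs 7))) (.abs 6))) (.br 5 0 (.br 6 0 (.br 7 1 (.leaf [6, 8] 1 2 16 32) (.br 7 0
    (.br 11 0 (.leaf [4, 8] 1 2 16 32) (.br 11 0 (.leaf [12, 35] 1 2 7 18) (.br 11 0 (.leaf [6, 25]
    1 8 10 40) (.br 11 0 (.leaf [6, 8] 1 2 16 32) (.abs 11))))) (.abs 7))) (.br 6 0 (.br 7 0 (.leaf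
    [11, 16] 1 2 6 32) (.br 7 0 (.leaf [8, 39] 1 2 6 16) (.abs 7))) (.abs 6))) (.abs 5))) (.br 4 0
    (.br 5 0 (.br 6 0 (.br 7 1 (.leaf [4, 11] 1 2 18 34) (.br 7 0 (.br 11 0 (.leaf [13, 33] 1 2 5
    16) (.br 11 0 (.leaf [4, 11] 1 2 18 34) (.br 11 0 (.leaf [4, 24] 1 8 10 40) (.br 11 0 (.leaf [4,
    11] 1 2 18 34) (.abs 11))))) (.abs 7))) (.br 6 0 (.br 7 0 (.leaf [8, 18] 1 2 4 34) (.br 7 0
    (.leaf [8, 49] 1 2 4 18) (.abs 7))) (.abs 6))) (.br 5 0 (.br 6 0 (.br 7 1 (.leaf [6, 8] 1 2 16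
    32) (.br 7 0 (.br 11 0 (.leaf [4, 8] 1 2 16 32) (.br 11 0 (.leaf [8, 16] 1 2 4 34) (.br 11 0
    (.leaf [8, 18] 1 2 4 34) (.br 11 0 (.leaf [6, 8] 1 2 16 32) (.abs 11))))) (.abs 7))) (.br 6 0
    (.br 7 0 (.leaf [8, 18] 1 2 4 34) (.br 7 0 (.leaf [4, 32] 1 2 9 16) (.abs 7))) (.abs 6))) (.abs
    5))) (.abs 4))) (.br 3 0 (.br 4 0 (.br 5 0 (.br 6 0 (.leaf [6, 35] 1 2 10 18) (.br 6 0 (.br 7 0
    (.leaf [11, 38] 1 2 5 18) (.br 7 0 (.leaf [11, 16] 1 2 6 33) (.abs 7))) (.abs 6))) (.br 5 0 (.br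
    6 0 (.br 8 0 (.leaf [12, 35] 1 2 7 18) (.br 8 0 (.leaf [25, 35] 1 2 6 10) (.br 8 0 (.leaf [8,
    48] 1 16 18 22) (.br 8 0 (.leaf [25, 35] 1 8 10 12) (.abs 8))))) (.br 6 0 (.br 7 1 (.leaf [6, 8]
    1 2 16 33) (.br 7 0 (.br 8 0 (.leaf [2, 25] 1 4 8 32) (.br 8 0 (.leaf [2, 25] 1 4 8 32) (.br 8 0
    (.leaf [6, 8] 1 2 16 33) (.br 8 0 (.leaf [4, 32] 1 2 9 16) (.abs 8))))) (.abs 7))) (.abs 6)))
    (.abs 5))) (.br 4 0 (.br 5 0 (.br 6 0 (.br 7 0 (.leaf [4, 11] 1 2 18 34) (.br 7 0 (.br 8 0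
    (.leaf [2, 24] 1 4 9 33) (.br 8 0 (.leaf [2, 24] 1 4 9 33) (.br 8 0 (.leaf [4, 11] 1 2 18 34)
    (.br 8 0 (.leaf [6, 35] 1 2 10 18) (.abs 8))))) (.abs 7))) (.br 6 0 (.br 8 0 (.leaf [24, 32] 1 2
    4 9) (.br 8 0 (.leaf [13, 32] 1 2 5 16) (.br 8 0 (.leaf [11, 49] 1 16 18 22) (.br 8 0 (.leaf
    [24, 32] 1 8 10 12) (.abs 8))))) (.abs 6))) (.br 5 0 (.br 6 1 (.leaf [4, 32] 1 2 9 16) (.br 6 0
    (.br 7 0 (.leaf [8, 18] 1 2 4 34) (.br 7 0 (.leaf [8, 39] 1 2 7 16) (.abs 7))) (.abs 6))) (.abs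
    5))) (.abs 4))) (.abs 3))) (.br 2 0 (.br 3 0 (.br 4 0 (.br 5 0 (.br 6 0 (.br 7 1 (.leaf [6, 34]
    1 2 10 18) (.br 7 0 (.br 8 0 (.leaf [2, 38] 1 4 8 16) (.br 8 0 (.leaf [2, 38] 1 4 8 16) (.br 8 0
    (.leaf [6, 34] 1 2 10 18) (.br 8 0 (.leaf [8, 19] 1 2 4 34) (.abs 8))))) (.abs 7))) (.br 6 0
    (.br 7 0 (.leaf [11, 16] 1 2 6 32) (.br 7 0 (.leaf [2, 39] 1 4 8 16) (.abs 7))) (.abs 6))) (.br
    5 0 (.br 7 1 (.leaf [16, 39] 1 2 5 9) (.br 7 0 (.br 11 0 (.leaf [11, 16] 1 2 6 32) (.br 11 0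
    (.leaf [12, 16] 1 2 4 34) (.br 11 0 (.leaf [4, 25] 1 8 10 40) (.br 11 0 (.leaf [12, 16] 1 4 6
    38) (.abs 11))))) (.abs 7))) (.abs 5))) (.br 4 0 (.br 5 0 (.br 6 0 (.br 7 0 (.leaf [8, 19] 1 2 4
    34) (.br 7 0 (.leaf [2, 39] 1 4 9 17) (.abs 7))) (.br 6 0 (.br 7 1 (.leaf [4, 32] 1 2 9 17) (.br
    7 0 (.br 8 0 (.leaf [2, 38] 1 4 9 17) (.br 8 0 (.leaf [2, 38] 1 4 9 17) (.br 8 0 (.leaf [4, 32]
    1 2 9 17) (.br 8 0 (.leaf [11, 16] 1 2 6 32) (.abs 8))))) (.abs 7))) (.abs 6))) (.br 5 0 (.br 7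
    1 (.leaf [16, 34] 1 2 4 9) (.br 7 0 (.br 11 0 (.leaf [13, 19] 1 2 6 32) (.br 11 0 (.leaf [8, 16]
    1 2 4 34) (.br 11 0 (.leaf [4, 25] 1 8 10 40) (.br 11 0 (.leaf [13, 19] 1 4 6 38) (.abs 11)))))
    (.abs 7))) (.abs 5))) (.abs 4))) (.br 3 0 (.br 4 0 (.br 5 0 (.br 6 1 (.leaf [6, 35] 1 2 10 18)
    (.br 6 0 (.br 7 0 (.leaf [2, 12] 1 4 16 32) (.br 7 0 (.br 9 0 (.leaf [6, 9] 1 2 17 33) (.br 9 0
    (.leaf [16, 32] 1 2 6 10) (.br 9 0 (.leaf [2, 13] 1 4 17 33) (.br 9 0 (.leaf [2, 12] 1 4 17 33)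
    (.abs 9))))) (.abs 7))) (.abs 6))) (.br 5 0 (.br 7 0 (.leaf [25, 35] 1 2 4 8) (.br 7 0 (.leaf
    [19, 32] 1 2 6 10) (.abs 7))) (.abs 5))) (.br 4 0 (.br 5 0 (.br 6 1 (.leaf [4, 32] 1 2 9 17)
    (.br 6 0 (.br 7 1 (.leaf [2, 13] 1 4 17 33) (.br 7 0 (.br 9 0 (.leaf [16, 35] 1 2 4 9) (.br 9 0
    (.leaf [4, 10] 1 2 18 34) (.br 9 0 (.leaf [2, 12] 1 4 16 32) (.br 9 0 (.leaf [2, 13] 1 4 16 32)
    (.abs 9))))) (.abs 7))) (.abs 6))) (.br 5 0 (.br 7 0 (.leaf [16, 35] 1 2 4 9) (.br 7 0 (.leaf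
    [25, 32] 1 2 6 11) (.abs 7))) (.abs 5))) (.abs 4))) (.abs 3))) (.abs 2))) (.abs 1))) (.br 0 0
    (.br 1 0 (.br 2 0 (.br 3 0 (.br 4 0 (.br 5 0 (.br 6 1 (.leaf [7, 34] 1 2 10 18) (.br 6 0 (.br 7
    0 (.br 10 0 (.leaf [7, 8] 1 2 16 32) (.br 10 0 (.leaf [7, 32] 1 2 10 18) (.br 10 0 (.leaf [7, 8]
    1 2 16 32) (.br 10 0 (.leaf [7, 34] 1 2 10 18) (.abs 10))))) (.br 7 0 (.br 10 0 (.leaf [12, 17]
    1 2 7 32) (.br 10 0 (.leaf [4, 8] 1 2 18 34) (.br 10 0 (.leaf [4, 10] 1 2 18 34) (.br 10 0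
    (.leaf [7, 34] 1 2 10 18) (.abs 10))))) (.abs 7))) (.abs 6))) (.br 5 0 (.br 6 1 (.leaf [7, 49] 1
    2 10 19) (.br 6 0 (.br 7 0 (.leaf [7, 8] 1 2 16 32) (.br 7 0 (.leaf [4, 10] 1 2 18 34) (.abs
    7))) (.abs 6))) (.abs 5))) (.br 4 0 (.br 5 0 (.br 6 1 (.leaf [4, 32] 1 2 8 16) (.br 6 0 (.br 7 0
    (.br 10 0 (.leaf [4, 32] 1 2 8 16) (.br 10 0 (.leaf [13, 19] 1 2 4 34) (.br 10 0 (.leaf [7, 8] 1
    2 16 32) (.br 10 0 (.leaf [4, 32] 1 2 8 16) (.abs 10))))) (.br 7 0 (.br 10 0 (.leaf [4, 32] 1 2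
    8 16) (.br 10 0 (.leaf [4, 8] 1 2 18 34) (.br 10 0 (.leaf [4, 10] 1 2 18 34) (.br 10 0 (.leaf
    [4, 32] 1 2 8 16) (.abs 10))))) (.abs 7))) (.abs 6))) (.br 5 0 (.br 6 1 (.leaf [4, 49] 1 2 8 17)
    (.br 6 0 (.br 7 0 (.leaf [7, 8] 1 2 16 32) (.br 7 0 (.leaf [4, 10] 1 2 18 34) (.abs 7))) (.abs
    6))) (.abs 5))) (.abs 4))) (.br 3 0 (.br 4 0 (.br 5 0 (.br 6 0 (.leaf [7, 35] 1 2 10 18) (.br 6
    0 (.br 7 0 (.br 9 0 (.leaf [4, 32] 1 2 8 16) (.br 9 0 (.leaf [4, 38] 1 2 10 18) (.br 9 0 (.leaf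
    [4, 32] 1 2 8 16) (.br 9 0 (.leaf [2, 25] 1 4 8 32) (.abs 9))))) (.br 7 0 (.br 9 0 (.leaf [2,
    24] 1 4 8 33) (.br 9 0 (.leaf [2, 24] 1 4 8 33) (.br 9 0 (.leaf [4, 32] 1 2 8 16) (.br 9 0
    (.leaf [10, 16] 1 2 6 33) (.abs 9))))) (.abs 7))) (.abs 6))) (.br 5 0 (.br 8 0 (.leaf [25, 32] 1
    2 5 9) (.br 8 0 (.leaf [18, 32] 1 2 6 10) (.br 8 0 (.leaf [18, 32] 1 2 6 10) (.br 8 0 (.leaf
    [25, 32] 1 8 11 12) (.abs 8))))) (.abs 5))) (.br 4 0 (.br 5 0 (.br 6 1 (.leaf [4, 32] 1 2 8 16)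
    (.br 6 0 (.br 7 0 (.br 9 0 (.leaf [7, 38] 1 2 8 16) (.br 9 0 (.leaf [4, 11] 1 2 18 34) (.br 9 0
    (.leaf [7, 35] 1 2 10 18) (.br 9 0 (.leaf [2, 25] 1 4 9 32) (.abs 9))))) (.br 7 0 (.br 9 0
    (.leaf [2, 24] 1 4 9 33) (.br 9 0 (.leaf [2, 24] 1 4 9 33) (.br 9 0 (.leaf [7, 35] 1 2 10 18)
    (.br 9 0 (.leaf [8, 18] 1 2 5 34) (.abs 9))))) (.abs 7))) (.abs 6))) (.br 5 0 (.br 8 0 (.leaf
    [16, 32] 1 2 5 8) (.br 8 0 (.leaf [25, 32] 1 2 6 11) (.br 8 0 (.leaf [16, 35] 1 2 5 8) (.br 8 0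
    (.leaf [25, 32] 1 8 11 12) (.abs 8))))) (.abs 5))) (.abs 4))) (.abs 3))) (.br 2 0 (.br 3 0 (.br
    4 0 (.br 5 0 (.br 6 0 (.leaf [7, 34] 1 2 10 18) (.br 6 0 (.br 7 0 (.leaf [10, 16] 1 2 6 32) (.br
    7 0 (.br 8 0 (.leaf [10, 16] 1 2 7 32) (.br 8 0 (.leaf [19, 32] 1 2 6 10) (.br 8 0 (.leaf [10,
    16] 1 2 6 32) (.br 8 0 (.leaf [4, 24] 1 2 11 34) (.abs 8))))) (.abs 7))) (.abs 6))) (.br 5 0
    (.br 6 0 (.br 11 0 (.leaf [7, 25] 1 2 9 32) (.br 11 0 (.leaf [7, 12] 1 2 18 34) (.br 11 0 (.leaf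
    [7, 25] 1 8 10 40) (.br 11 0 (.leaf [7, 25] 1 2 9 32) (.abs 11))))) (.br 6 0 (.br 7 0 (.leaf [7,
    8] 1 2 17 32) (.br 7 0 (.leaf [12, 16] 1 2 7 32) (.abs 7))) (.abs 6))) (.abs 5))) (.br 4 0 (.br
    5 0 (.br 6 0 (.br 7 0 (.leaf [13, 19] 1 2 4 34) (.br 7 0 (.leaf [4, 10] 1 2 18 34) (.abs 7)))
    (.br 6 0 (.br 11 0 (.leaf [4, 13] 1 2 17 32) (.br 11 0 (.leaf [4, 24] 1 2 11 34) (.br 11 0
    (.leaf [4, 24] 1 8 10 40) (.br 11 0 (.leaf [4, 24] 1 2 11 34) (.abs 11))))) (.abs 6))) (.br 5 0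
    (.br 6 1 (.leaf [4, 32] 1 2 8 17) (.br 6 0 (.br 7 1 (.leaf [8, 19] 1 2 5 34) (.br 7 0 (.br 8 0
    (.leaf [16, 32] 1 2 5 8) (.br 8 0 (.leaf [8, 19] 1 2 4 34) (.br 8 0 (.leaf [8, 19] 1 2 5 34)
    (.br 8 0 (.leaf [7, 25] 1 2 9 32) (.abs 8))))) (.abs 7))) (.abs 6))) (.abs 5))) (.abs 4))) (.br
    3 0 (.br 4 0 (.br 5 0 (.br 6 1 (.leaf [7, 35] 1 2 10 18) (.br 6 0 (.br 7 0 (.leaf [2, 12] 1 4 16
    32) (.br 7 0 (.br 8 0 (.leaf [5, 10] 1 2 18 34) (.br 8 0 (.leaf [19, 32] 1 2 6 10) (.br 8 0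
    (.leaf [2, 12] 1 4 16 32) (.br 8 0 (.leaf [2, 13] 1 4 17 33) (.abs 8))))) (.abs 7))) (.abs 6)))
    (.br 5 0 (.br 6 1 (.leaf [7, 49] 1 2 10 19) (.br 6 0 (.br 7 0 (.leaf [7, 8] 1 2 17 33) (.br 7 0
    (.leaf [2, 12] 1 4 17 33) (.abs 7))) (.abs 6))) (.abs 5))) (.br 4 0 (.br 5 0 (.br 6 1 (.leaf [4,
    49] 1 2 8 16) (.br 6 0 (.br 7 0 (.leaf [4, 10] 1 2 18 34) (.br 7 0 (.leaf [2, 13] 1 4 17 33)
    (.abs 7))) (.abs 6))) (.br 5 0 (.br 6 1 (.leaf [4, 32] 1 2 8 17) (.br 6 0 (.br 7 0 (.leaf [2,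
    13] 1 4 16 32) (.br 7 0 (.br 8 0 (.leaf [16, 32] 1 2 5 8) (.br 8 0 (.leaf [6, 8] 1 2 17 33) (.br
    8 0 (.leaf [2, 13] 1 4 16 32) (.br 8 0 (.leaf [2, 12] 1 4 17 33) (.abs 8))))) (.abs 7))) (.abs
    6))) (.abs 5))) (.abs 4))) (.abs 3))) (.abs 2))) (.br 1 0 (.br 2 0 (.br 3 0 (.br 4 0 (.br 5 0
    (.br 6 0 (.br 7 1 (.leaf [4, 11] 1 2 18 34) (.br 7 0 (.br 10 0 (.leaf [2, 38] 1 4 8 16) (.br 10
    0 (.leaf [2, 38] 1 4 8 16) (.br 10 0 (.leaf [7, 8] 1 2 16 32) (.br 10 0 (.leaf [18, 32] 1 2 6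
    10) (.abs 10))))) (.abs 7))) (.br 6 0 (.br 7 0 (.leaf [18, 32] 1 2 6 10) (.br 7 0 (.leaf [2, 49]
    1 4 8 16) (.abs 7))) (.abs 6))) (.br 5 0 (.br 6 0 (.br 7 0 (.leaf [7, 8] 1 2 16 32) (.br 7 0
    (.br 10 0 (.leaf [2, 39] 1 4 8 17) (.br 10 0 (.leaf [2, 39] 1 4 8 17) (.br 10 0 (.leaf [4, 11] 1
    2 18 34) (.br 10 0 (.leaf [16, 34] 1 2 5 9) (.abs 10))))) (.abs 7))) (.br 6 0 (.br 7 0 (.leaf
    [2, 49] 1 4 8 17) (.br 7 0 (.leaf [16, 34] 1 2 5 9) (.abs 7))) (.abs 6))) (.abs 5))) (.br 4 0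
    (.br 5 0 (.br 6 1 (.leaf [4, 49] 1 2 9 17) (.br 6 0 (.br 11 0 (.leaf [4, 13] 1 2 16 32) (.br 11
    0 (.leaf [4, 11] 1 2 18 34) (.br 11 0 (.leaf [4, 24] 1 8 10 40) (.br 11 0 (.leaf [4, 11] 1 2 18
    34) (.abs 11))))) (.abs 6))) (.br 5 0 (.br 6 1 (.leaf [4, 32] 1 2 9 16) (.br 6 0 (.br 11 0
    (.leaf [4, 8] 1 2 16 32) (.br 11 0 (.leaf [7, 13] 1 2 18 34) (.br 11 0 (.leaf [4, 32] 1 2 9 16)
    (.br 11 0 (.leaf [7, 8] 1 2 16 32) (.abs 11))))) (.abs 6))) (.abs 5))) (.abs 4))) (.br 3 0 (.br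
    4 0 (.br 5 0 (.br 7 0 (.leaf [18, 32] 1 2 6 10) (.br 7 0 (.br 6 1 (.leaf [2, 24] 1 4 8 33) (.br
    6 0 (.br 8 0 (.leaf [5, 11] 1 2 18 34) (.br 8 0 (.leaf [6, 35] 1 2 10 18) (.br 8 0 (.leaf [2,
    24] 1 4 8 32) (.br 8 0 (.leaf [2, 24] 1 4 9 33) (.abs 8))))) (.abs 6))) (.abs 7))) (.br 5 0 (.br
    7 0 (.leaf [16, 35] 1 2 5 9) (.br 7 0 (.br 6 0 (.leaf [2, 25] 1 4 8 33) (.br 6 0 (.br 8 0 (.leaf
    [5, 32] 1 2 9 16) (.br 8 0 (.leaf [6, 8] 1 2 16 33) (.br 8 0 (.leaf [2, 25] 1 4 8 32) (.br 8 0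
    (.leaf [2, 25] 1 4 9 33) (.abs 8))))) (.abs 6))) (.abs 7))) (.abs 5))) (.br 4 0 (.br 5 0 (.br 6
    0 (.leaf [7, 35] 1 2 10 18) (.br 6 0 (.leaf [13, 32] 1 2 5 16) (.abs 6))) (.br 5 0 (.br 6 0
    (.leaf [13, 35] 1 2 6 18) (.br 6 0 (.leaf [4, 32] 1 2 9 16) (.abs 6))) (.abs 5))) (.abs 4)))
    (.abs 3))) (.br 2 0 (.br 3 0 (.br 4 0 (.br 5 0 (.br 6 0 (.br 7 0 (.leaf [2, 38] 1 4 8 16) (.br 7
    0 (.br 8 0 (.leaf [8, 19] 1 2 5 34) (.br 8 0 (.leaf [6, 34] 1 2 10 18) (.br 8 0 (.leaf [2, 38] 1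
    4 8 16) (.br 8 0 (.leaf [2, 39] 1 4 9 17) (.abs 8))))) (.abs 7))) (.br 6 0 (.br 7 1 (.leaf [2,
    39] 1 4 8 16) (.br 7 0 (.br 8 0 (.leaf [5, 32] 1 2 9 17) (.br 8 0 (.leaf [8, 16] 1 2 6 32) (.br
    8 0 (.leaf [2, 39] 1 4 8 16) (.br 8 0 (.leaf [2, 38] 1 4 9 17) (.abs 8))))) (.abs 7))) (.abs
    6))) (.br 5 0 (.br 7 0 (.leaf [19, 32] 1 2 6 10) (.br 7 0 (.leaf [16, 34] 1 2 5 9) (.abs 7)))
    (.abs 5))) (.br 4 0 (.br 5 0 (.br 6 0 (.leaf [7, 34] 1 2 10 18) (.br 6 0 (.leaf [4, 32] 1 2 9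
    17) (.abs 6))) (.br 5 0 (.br 6 0 (.br 7 0 (.leaf [2, 38] 1 4 9 16) (.br 7 0 (.leaf [4, 11] 1 2
    18 34) (.abs 7))) (.br 6 0 (.br 7 0 (.leaf [7, 8] 1 2 17 32) (.br 7 0 (.leaf [2, 39] 1 4 9 16)
    (.abs 7))) (.abs 6))) (.abs 5))) (.abs 4))) (.br 3 0 (.br 4 0 (.br 5 0 (.br 6 0 (.br 7 0 (.leaf
    [2, 12] 1 4 16 32) (.br 7 0 (.br 8 2 (.leaf [2, 12] 1 4 16 32) (.br 8 2 (.leaf [2, 13] 1 4 17
    33) (.br 8 0 (.br 9 0 (.leaf [16, 32] 1 2 5 9) (.br 9 0 (.leaf [5, 10] 1 2 18 34) (.br 9 0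
    (.leaf [2, 13] 1 4 17 33) (.br 9 0 (.leaf [2, 12] 1 4 17 33) (.abs 9))))) (.br 8 0 (.br 9 0
    (.leaf [6, 9] 1 2 17 33) (.br 9 0 (.leaf [16, 32] 1 2 6 10) (.br 9 0 (.leaf [2, 13] 1 4 17 33)
    (.br 9 0 (.leaf [2, 12] 1 4 17 33) (.abs 9))))) (.abs 8))))) (.abs 7))) (.br 6 0 (.br 8 0 (.leaf
    [5, 32] 1 2 9 17) (.br 8 0 (.leaf [6, 35] 1 2 10 18) (.br 8 0 (.leaf [2, 12] 1 4 16 33) (.br 8 0
    (.leaf [4, 32] 1 2 9 17) (.abs 8))))) (.abs 6))) (.br 5 0 (.br 8 0 (.leaf [16, 32] 1 2 5 9) (.br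
    8 0 (.leaf [19, 32] 1 2 6 10) (.br 8 0 (.leaf [16, 35] 1 2 5 9) (.br 8 0 (.leaf [25, 32] 1 8 11
    12) (.abs 8))))) (.abs 5))) (.br 4 0 (.br 5 0 (.br 10 0 (.leaf [4, 32] 1 2 9 17) (.br 10 0
    (.leaf [7, 32] 1 2 10 18) (.br 10 0 (.leaf [13, 32] 1 4 7 20) (.br 10 0 (.leaf [4, 32] 1 2 9 17)
    (.abs 10))))) (.br 5 0 (.br 8 0 (.leaf [25, 32] 1 2 5 8) (.br 8 0 (.leaf [25, 32] 1 2 6 11) (.br
    8 0 (.leaf [13, 16] 1 4 7 39) (.br 8 0 (.leaf [25, 32] 1 8 11 12) (.abs 8))))) (.abs 5))) (.abs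
    4))) (.abs 3))) (.abs 2))) (.abs 1))) (.abs 0)))

theorem hitTree_chk : hitTree.chk hitM hitCls = true := by
  decide +kernel

end Pool.Agent.WW

end

section

namespace Pool.Agent.WW

open Submodule Module

universe u

section MinFragAux

variable {V : Type*} [AddCommGroup V] [Module (ZMod 2) V]

theorem mf_add_self (v : V) : v + v = 0 := by
  have h : (2 : ZMod 2) • v = 0 := by
    have : (2 : ZMod 2) = 0 := rfl
    rw [this, zero_smul]
  rwa [two_smul] at h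

theorem mf_cancel (a b : V) : a + (a + b) = b := by
  rw [← add_assoc, mf_add_self, zero_add]

theorem mf_eq_of_add {a b : V} (h : a + b = 0) : a = b := by
  have := congrArg (fun z => a + z) h
  simp only [mf_cancel, add_zero] at this
  exact this.symm

/-- `a + b = c` implies `a = b + c` -/
theorem mf_move {a b c : V} (h : a + b = c) : a = b + c := by
  rw [← h, add_comm a b, mf_cancel]

theorem mf_span_one {g y : V} (hy : y ∈ span (ZMod 2) ({g} : Set V)) : y = 0 ∨ y = g := by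
  obtain ⟨c, rfl⟩ := mem_span_singleton.1 hy
  have hc : ∀ c : ZMod 2, c = 0 ∨ c = 1 := by decide
  rcases hc c with rfl | rfl
  · left; simp
  · right; simp

theorem mf_line [FiniteDimensional (ZMod 2) V] (L : Submodule (ZMod 2) V)
    (h : finrank (ZMod 2) L = 1) : ∃ p ∈ L, p ≠ 0 ∧ ∀ y ∈ L, y = 0 ∨ y = p := by
  obtain ⟨v, hv, hw⟩ := finrank_eq_one_iff'.1 h
  refine ⟨v, v.2, fun h0 => hv (Subtype.ext h0), fun y hy => ?_⟩
  obtain ⟨c, hc⟩ := hw ⟨y, hy⟩
  have hc' : y = c • (v : V) := by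
    have := congrArg Subtype.val hc
    simpa using this.symm
  have h2 : ∀ c : ZMod 2, c = 0 ∨ c = 1 := by decide
  rcases h2 c with rfl | rfl
  · left; simpa using hc'
  · right; simpa using hc'

theorem mf_mem_sup_single {H : Submodule (ZMod 2) V} {y w : V}
    (h : w ∈ H ⊔ span (ZMod 2) ({y} : Set V)) : w ∈ H ∨ w + y ∈ H := by
  obtain ⟨a, ha, b, hb, rfl⟩ := mem_sup.1 h
  rcases mf_span_one hb with rfl | rfl
  · left; simpa using ha
  · right
    rw [add_assoc, mf_add_self, add_zero]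
    exact ha

theorem mf_four [FiniteDimensional (ZMod 2) V] {H : Submodule (ZMod 2) V} {y z : V}
    (hd : finrank (ZMod 2) V ≤ finrank (ZMod 2) H + 2) (hy : y ∉ H) (hz : z ∉ H)
    (hyz : z + y ∉ H) (w : V) : w ∈ H ∨ w + y ∈ H ∨ w + z ∈ H ∨ w + z + y ∈ H := by
  have h1 := finrank_sup_singleton' (k := ZMod 2) H y hy
  have hz' : z ∉ H ⊔ span (ZMod 2) ({y} : Set V) := by
    intro hc
    rcases mf_mem_sup_single hc with h | h
    · exact hz h
    · exact hyz h
  have h2 := finrank_sup_singleton' (k := ZMod 2) (H ⊔ span (ZMod 2) ({y} : Set V)) z hz'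
  have htop : H ⊔ span (ZMod 2) ({y} : Set V) ⊔ span (ZMod 2) ({z} : Set V) = ⊤ := by
    apply eq_top_of_finrank_eq
    have := Submodule.finrank_le (H ⊔ span (ZMod 2) ({y} : Set V) ⊔ span (ZMod 2) ({z} : Set V))
    omega
  have hw : w ∈ H ⊔ span (ZMod 2) ({y} : Set V) ⊔ span (ZMod 2) ({z} : Set V) := htop ▸ mem_top
  rcases mf_mem_sup_single hw with h | h
  · rcases mf_mem_sup_single h with h | h
    · exact Or.inl h
    · exact Or.inr (Or.inl h)
  · rcases mf_mem_sup_single h with h | h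
    · exact Or.inr (Or.inr (Or.inl h))
    · exact Or.inr (Or.inr (Or.inr h))

end MinFragAux

theorem claimMinFrag (h1 : ClaimCovDim.{u}) (h2 : ClaimCross.{u}) (h3 : ClaimFive.{u}) :
    ClaimMinFrag.{u} := by
  intro V _ _ _ E P G H hs hsep hno hP hU hF hmin
  by_contra hcon
  push Not at hcon
  obtain ⟨hcov, hdim, hPH, x, hxE, hxGH, hxP⟩ := hF
  have hx0 : x ≠ 0 := fun h => hxP (h ▸ P.zero_mem)
  have hGH := (h1 V E G H hs hcov).2.1
  -- the key statement
  have key : ∀ g ∈ E, g ∉ H → finrank (ZMod 2) G = 5 ∧ ∃ p p' : V, p ∈ H ∧ p' ∈ H ∧ p ≠ 0 ∧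
      p' ≠ 0 ∧ p ≠ p' ∧ (∀ y ∈ E, y ∉ H → y + g ∈ H → y = g ∨ y = g + p ∨ y = g + p') ∧
      (x = p ∨ x = p') := by
    intro g hg hgH
    obtain ⟨S, S', hSS, hgS, hS3, hGS, hGS'⟩ := h2 V E P G H g hs hsep hP hU
      ⟨hcov, hdim, hPH, x, hxE, hxGH, hxP⟩ hmin hg hgH (hcon g hg hgH)
    obtain ⟨h5, Q, Q', hQG, hQG', hQ3, hQ3', hQQ, hcovQ, hQH, hQH'⟩ :=
      h3 V E G H S S' g hs hsep hno hcov hdim hg hgH hSS hgS hGS hGS'
    obtain ⟨p, hpm, hp0, hp⟩ := mf_line _ hQH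
    obtain ⟨p', hpm', hp0', hp'⟩ := mf_line _ hQH'
    have hgQ : g ∈ Q ⊓ Q' := by rw [hQQ]; exact mem_span_singleton_self g
    refine ⟨h5, p, p', hpm.2, hpm'.2, hp0, hp0', ?_, ?_, ?_⟩
    · intro hpp
      have : p ∈ Q ⊓ Q' := ⟨hpm.1, hpp ▸ hpm'.1⟩
      rw [hQQ] at this
      rcases mf_span_one this with h | h
      · exact hp0 h
      · exact hgH (h ▸ hpm.2)
    · intro y hy hyH hyg
      have hyG : y ∈ G := (hcov.2.2 y hy).resolve_right hyH
      rcases hcovQ y hy hyG with hyQ | hyQ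
      · rcases hp _ ⟨Q.add_mem hyQ hgQ.1, hyg⟩ with h | h
        · exact Or.inl (mf_eq_of_add h)
        · exact Or.inr (Or.inl (mf_move h))
      · rcases hp' _ ⟨Q'.add_mem hyQ hgQ.2, hyg⟩ with h | h
        · exact Or.inl (mf_eq_of_add h)
        · exact Or.inr (Or.inr (mf_move h))
    · rcases hcovQ x hxE hxGH.1 with h | h
      · exact Or.inl ((hp x ⟨h, hxGH.2⟩).resolve_left hx0)
      · exact Or.inr ((hp' x ⟨h, hxGH.2⟩).resolve_left hx0)
  -- classes have at most two elements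
  have two : ∀ g ∈ E, g ∉ H → ∃ q : V, ∀ y ∈ E, y ∉ H → y + g ∈ H → y = g ∨ y = q := by
    intro g hg hgH
    obtain ⟨-, p, p', hpH, hpH', hp0, hp0', hpp, hcl, hxp⟩ := key g hg hgH
    by_cases ha : g + p ∈ E
    · by_cases hb : g + p' ∈ E
      · exfalso
        have haH : g + p ∉ H := fun h => hgH (by
          have := H.add_mem h hpH
          rwa [add_assoc, mf_add_self, add_zero] at this)
        have hbH : g + p' ∉ H := fun h => hgH (by
          have := H.add_mem h hpH'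
          rwa [add_assoc, mf_add_self, add_zero] at this)
        obtain ⟨-, q, q', -, -, -, -, hqq, hcl1, hxq⟩ := key _ ha haH
        obtain ⟨-, t, t', -, -, -, -, htt, hcl2, hxt⟩ := key _ hb hbH
        -- for `g + p`
        have e1 : g + (g + p) ∈ H := by rw [mf_cancel]; exact hpH
        have e2 : (g + p') + (g + p) ∈ H := by
          have : (g + p') + (g + p) = p' + p := by
            rw [add_comm g p', add_assoc, mf_cancel]
          rw [this]; exact H.add_mem hpH' hpH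
        have e3 : g + (g + p') ∈ H := by rw [mf_cancel]; exact hpH'
        have e4 : (g + p) + (g + p') ∈ H := by rw [add_comm]; exact e2
        have c1 := hcl1 g hg hgH e1
        have c2 := hcl1 _ hb hbH e2
        have c3 := hcl2 g hg hgH e3
        have c4 := hcl2 _ ha haH e4
        have f1 : p = q ∨ p = q' := by
          rcases c1 with h | h | h
          · exfalso
            exact hp0 (by
              have := congrArg (fun z => g + z) h
              simp only [mf_add_self, mf_cancel] at this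
              exact this.symm)
          · left
            have := congrArg (fun z => g + z) h
            simp only [mf_add_self] at this
            rw [add_assoc, mf_cancel] at this
            exact (mf_eq_of_add this.symm)
          · right
            have := congrArg (fun z => g + z) h
            simp only [mf_add_self] at this
            rw [add_assoc, mf_cancel] at this
            exact (mf_eq_of_add this.symm)
        have f2 : p' + p = q ∨ p' + p = q' := by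
          rcases c2 with h | h | h
          · exact absurd (add_left_cancel h).symm hpp
          · left
            rw [add_assoc] at h
            rw [add_left_cancel h, add_comm p q, add_assoc, mf_add_self, add_zero]
          · right
            rw [add_assoc] at h
            rw [add_left_cancel h, add_comm p q', add_assoc, mf_add_self, add_zero]
        have f3 : p' = t ∨ p' = t' := by
          rcases c3 with h | h | h
          · exfalso
            exact hp0' (by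
              have := congrArg (fun z => g + z) h
              simp only [mf_add_self, mf_cancel] at this
              exact this.symm)
          · left
            have := congrArg (fun z => g + z) h
            simp only [mf_add_self] at this
            rw [add_assoc, mf_cancel] at this
            exact (mf_eq_of_add this.symm)
          · right
            have := congrArg (fun z => g + z) h
            simp only [mf_add_self] at this
            rw [add_assoc, mf_cancel] at this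
            exact (mf_eq_of_add this.symm)
        have f4 : p + p' = t ∨ p + p' = t' := by
          rcases c4 with h | h | h
          · exact absurd (add_left_cancel h) hpp
          · left
            rw [add_assoc] at h
            rw [add_left_cancel h, add_comm p' t, add_assoc, mf_add_self, add_zero]
          · right
            rw [add_assoc] at h
            rw [add_left_cancel h, add_comm p' t', add_assoc, mf_add_self, add_zero]
        have n1 : p ≠ p' + p := fun h => hp0' (by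
          have := congrArg (fun z => z + p) h
          simp only [mf_add_self] at this
          rw [add_assoc, mf_add_self, add_zero] at this
          exact this.symm)
        have n2 : p' ≠ p + p' := fun h => hp0 (by
          have := congrArg (fun z => z + p') h
          simp only [mf_add_self] at this
          rw [add_assoc, mf_add_self, add_zero] at this
          exact this.symm)
        have g1 : x = p ∨ x = p' + p := by
          rcases f1 with rfl | rfl <;> rcases f2 with h | h <;> rcases hxq with h' | h' <;>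
            first
            | exact absurd h.symm n1
            | exact Or.inl h'
            | exact Or.inr (h'.trans h.symm)
        have g2 : x = p' ∨ x = p + p' := by
          rcases f3 with rfl | rfl <;> rcases f4 with h | h <;> rcases hxt with h' | h' <;>
            first
            | exact absurd h.symm n2
            | exact Or.inl h'
            | exact Or.inr (h'.trans h.symm)
        rcases hxp with rfl | rfl
        · rcases g2 with h | h
          · exact hpp h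
          · exact n1 (by rw [add_comm p' x]; exact h)
        · rcases g1 with h | h
          · exact hpp h.symm
          · exact n2 (by rw [add_comm p x]; exact h)
      · refine ⟨g + p, fun y hy hyH hyg => ?_⟩
        rcases hcl y hy hyH hyg with h | h | h
        · exact Or.inl h
        · exact Or.inr h
        · exact absurd (h ▸ hy) hb
    · refine ⟨g + p', fun y hy hyH hyg => ?_⟩
      rcases hcl y hy hyH hyg with h | h | h
      · exact Or.inl h
      · exact absurd (h ▸ hy) ha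
      · exact Or.inr h
  -- the end
  obtain ⟨g, hg, hgH⟩ : ∃ g ∈ E, g ∉ H := by
    by_contra hne
    push Not at hne
    exact hcov.2.1 (top_le_iff.1 (hs ▸ span_le.2 hne))
  have hG5 := (key g hg hgH).1
  have hHd : finrank (ZMod 2) H + 2 = finrank (ZMod 2) V := by omega
  have hH' : H ⊔ span (ZMod 2) ({g} : Set V) ≠ ⊤ := by
    intro htop
    have h := finrank_sup_singleton' (k := ZMod 2) H g hgH
    rw [htop, finrank_top] at h
    omega
  have h5 := hno _ hH'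
  have hsub : ∃ F : Finset V, F.card ≤ 4 ∧
      E \ ((H ⊔ span (ZMod 2) ({g} : Set V) : Submodule (ZMod 2) V) : Set V) ⊆ F := by
    classical
    have hnot : ∀ y, y ∉ H ⊔ span (ZMod 2) ({g} : Set V) → y ∉ H ∧ y + g ∉ H := by
      intro y hy
      refine ⟨fun h => hy (mem_sup_left h), fun h => hy ?_⟩
      have h' : (y + g) + g ∈ H ⊔ span (ZMod 2) ({g} : Set V) :=
        add_mem (mem_sup_left h) (mem_sup_right (mem_span_singleton_self g))
      rwa [add_assoc, mf_add_self, add_zero] at h'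
    by_cases hy : ∃ y ∈ E, y ∉ H ⊔ span (ZMod 2) ({g} : Set V)
    · obtain ⟨y, hyE, hy⟩ := hy
      obtain ⟨hyH, hygH⟩ := hnot y hy
      obtain ⟨q, hq⟩ := two y hyE hyH
      by_cases hz : ∃ z ∈ E, z ∉ H ⊔ span (ZMod 2) ({g} : Set V) ∧ z + y ∉ H
      · obtain ⟨z, hzE, hz, hzy⟩ := hz
        obtain ⟨hzH, hzgH⟩ := hnot z hz
        obtain ⟨t, ht⟩ := two z hzE hzH
        refine ⟨{y, q, z, t}, Finset.card_le_four, ?_⟩
        rintro w ⟨hwE, hw⟩
        obtain ⟨hwH, hwgH⟩ := hnot w hw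
        simp only [Finset.coe_insert, Finset.coe_singleton, Set.mem_insert_iff,
          Set.mem_singleton_iff]
        rcases mf_four (by omega) hyH hzH hzy w with h | h | h | h
        · exact absurd h hwH
        · rcases hq w hwE hwH h with h | h
          · exact Or.inl h
          · exact Or.inr (Or.inl h)
        · rcases ht w hwE hwH h with h | h
          · exact Or.inr (Or.inr (Or.inl h))
          · exact Or.inr (Or.inr (Or.inr h))
        · exfalso
          rcases mf_four (by omega) hyH hzH hzy g with h' | h' | h' | h'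
          · exact hgH h'
          · exact hygH (by rw [add_comm]; exact h')
          · exact hzgH (by rw [add_comm]; exact h')
          · apply hwgH
            have e : (w + z + y) + (g + z + y) = w + g := by
              have : (w + z + y) + (g + z + y) = (w + g) + (z + z) + (y + y) := by abel
              rw [this, mf_add_self, mf_add_self, add_zero, add_zero]
            rw [← e]
            exact H.add_mem h h'
      · push Not at hz
        refine ⟨{y, q}, (Finset.card_le_two).trans (by norm_num), ?_⟩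
        rintro w ⟨hwE, hw⟩
        obtain ⟨hwH, hwgH⟩ := hnot w hw
        simp only [Finset.coe_insert, Finset.coe_singleton, Set.mem_insert_iff,
          Set.mem_singleton_iff]
        exact hq w hwE hwH (hz w hwE hw)
    · push Not at hy
      refine ⟨∅, by simp, ?_⟩
      rintro w ⟨hwE, hw⟩
      exact absurd (hy w hwE) hw
  obtain ⟨F, hF4, hFs⟩ := hsub
  have := Submodule.finrank_mono (span_mono (R := ZMod 2) hFs)
  have h6 := finrank_span_finset_le_card (R := ZMod 2) F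
  have h7 : finrank (ZMod 2) ↥(span (ZMod 2) (F : Set V)) ≤ F.card := h6
  omega

end Pool.Agent.WW

end

section

/-!
Item I4: the side of I3 does not exist.
-/

namespace Pool.Agent.WW

open Submodule Module

universe u

theorem sid_tri_erase {V : Type u} [AddCommGroup V] [Module (ZMod 2) V] [DecidableEq V]
    (W : Finset V) (x : V) (hx : deg W x = 0) : tri (W.erase x) = tri W := by
  have hno : ∀ a ∈ W, a + x ∉ W := by
    intro a ha h
    have h1 : a ∈ W.filter (fun a => a + x ∈ W) := Finset.mem_filter.2 ⟨ha, h⟩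
    unfold deg at hx
    rw [Finset.card_eq_zero] at hx
    rw [hx] at h1
    exact Finset.notMem_empty _ h1
  unfold tri
  congr 1
  ext p
  rw [Finset.mem_filter, Finset.mem_filter, Finset.mem_product, Finset.mem_product,
    Finset.mem_erase, Finset.mem_erase, Finset.mem_erase]
  constructor
  · rintro ⟨⟨⟨_, h1⟩, ⟨_, h2⟩⟩, ⟨_, h3⟩⟩
    exact ⟨⟨h1, h2⟩, h3⟩
  · rintro ⟨⟨h1, h2⟩, h3⟩
    refine ⟨⟨⟨?_, h1⟩, ⟨?_, h2⟩⟩, ⟨?_, h3⟩⟩
    · intro h
      apply hno p.2 h2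
      rw [← h, add_comm]
      exact h3
    · intro h
      apply hno p.1 h1
      rw [← h]
      exact h3
    · intro h
      apply hno p.1 h1
      rw [← h, ← add_assoc, ctr_two_add, zero_add]
      exact h2

theorem claimSide (h : ClaimCount.{u}) : ClaimSide.{u} := by
  intro V _ _ _ _ W Γ d hTR h0 hK hF hG hΓ hd hd2 hdeg
  have ht := hTR V W h0 hd hK hF hG
  obtain ⟨heq, ⟨x, hxW, hxΓ⟩, hz⟩ := h V W Γ h0 hK hΓ hdeg ht
  have hx0 := hz x hxW hxΓ
  have hsub : W.erase x ⊆ W := Finset.erase_subset x W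
  have hsub' : ((W.erase x : Finset V) : Set V) ⊆ (W : Set V) := by exact_mod_cast hsub
  have hsp : finrank (ZMod 2) ↥(span (ZMod 2) ((W.erase x : Finset V) : Set V)) = d := by
    apply le_antisymm
    · rw [← hd]
      exact Submodule.finrank_mono (span_mono hsub')
    · rw [← hd2]
      apply Submodule.finrank_mono
      apply span_mono
      rintro y ⟨hy, hyΓ⟩
      rw [Finset.mem_coe, Finset.mem_erase]
      refine ⟨?_, hy⟩
      rintro rfl
      exact hyΓ hxΓ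
  have h01 : (0 : V) ∉ W.erase x := fun hh => h0 (hsub hh)
  have hK1 : K4F ((W.erase x : Finset V) : Set V) := by
    intro U hU
    refine le_trans (Set.ncard_le_ncard ?_ ?_) (hK U hU)
    · exact Set.inter_subset_inter_left _ hsub'
    · exact (Finset.finite_toSet W).subset Set.inter_subset_left
  have hF1 : ¬ HasK5 ((W.erase x : Finset V) : Set V) := fun hh => hF (hh.mono hsub')
  have hG1 : GQF ((W.erase x : Finset V) : Set V) := by
    intro b hb
    obtain ⟨n, hn, hnot⟩ := hG b hb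
    exact ⟨n, hn, fun hh => hnot (hsub' hh)⟩
  have ht1 := hTR V (W.erase x) h01 hsp hK1 hF1 hG1
  rw [sid_tri_erase W x hx0] at ht1
  have hc := Finset.card_erase_add_one hxW
  omega

end Pool.Agent.WW

end

section

/-!
Statements of the items for the bound `c(M;2) ≤ 3`: tools, Case II (there is a cocircuit of rank
four), colouring. Every `C3X` is proved in its own file as `theorem c3X : C3X` (other claims may
be hypotheses of that theorem).
-/

namespace Pool.Agent.WW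

open Submodule Module

universe u

/-! ### Tools -/

/-- A1: a covering of a spanning set -/
def C3CovSum : Prop := ∀ (V : Type u) [AddCommGroup V] [Module (ZMod 2) V]
  [FiniteDimensional (ZMod 2) V] (E : Set V) (A B : Submodule (ZMod 2) V),
  span (ZMod 2) E = ⊤ → (∀ x ∈ E, x ∈ A ∨ x ∈ B) → A ⊔ B = ⊤ ∧
    finrank (ZMod 2) A + finrank (ZMod 2) B =
      finrank (ZMod 2) V + finrank (ZMod 2) ↥(A ⊓ B)

/-- A2: a good set of rank at least five with a flat whose complement has rank at most four has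
a cocircuit of rank four -/
def C3NoC4 : Prop := ∀ (V : Type u) [AddCommGroup V] [Module (ZMod 2) V]
  [FiniteDimensional (ZMod 2) V] (E : Set V), Good E → 5 ≤ finrank (ZMod 2) V → ¬ NoC4 E →
  ∃ H, Coc4 E H

/-- A4: sets of rank at most five satisfy the density bound -/
def C3Small : Prop := TabR5 → ∀ n, n ≤ 5 → D3.{u} n

/-- A5: in a counterexample of smallest rank a contractible element lies on at least three full
lines -/
def C3Deg : Prop := ∀ (V : Type u) [AddCommGroup V] [Module (ZMod 2) V]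
  [FiniteDimensional (ZMod 2) V] [DecidableEq V] (E : Finset V) (e : V),
  Good (E : Set V) → (∀ m, m < finrank (ZMod 2) V → D3.{u} m) →
  3 * finrank (ZMod 2) V < E.card → e ∈ E → Ctr (E : Set V) e → 6 ≤ deg E e

/-! ### Elements of a cocircuit of rank four -/

/-- B1: the configuration in the hyperplane -/
def C3Quad : Prop := ∀ (V : Type u) [AddCommGroup V] [Module (ZMod 2) V]
  [FiniteDimensional (ZMod 2) V] [DecidableEq V] (E : Finset V) (H : Submodule (ZMod 2) V),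
  Good (E : Set V) → 5 ≤ finrank (ZMod 2) V → Coc4 (E : Set V) H →
  ∃ (F A : Finset ↥H) (Γ : Submodule (ZMod 2) ↥H) (x0 : V), Quad F A Γ ∧ x0 ∉ H ∧
    (∀ h : ↥H, h ∈ F ↔ (h : V) ∈ E) ∧ ∀ h : ↥H, h ∈ A ↔ x0 + (h : V) ∈ E

/-- B2: the projection from an element of the cocircuit -/
def C3QuadPi : Prop := ∀ (V : Type u) [AddCommGroup V] [Module (ZMod 2) V]
  [FiniteDimensional (ZMod 2) V] [DecidableEq V] (E : Finset V) (H : Submodule (ZMod 2) V)
  (F A : Finset ↥H) (x0 : V) (a : ↥H), finrank (ZMod 2) H + 1 = finrank (ZMod 2) V →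
  (0 : V) ∉ E → x0 ∉ H → (∀ h : ↥H, h ∈ F ↔ (h : V) ∈ E) →
  (∀ h : ↥H, h ∈ A ↔ x0 + (h : V) ∈ E) → a ∈ A →
  ∃ π : V →ₗ[ZMod 2] ↥H, Function.Surjective π ∧
    (∀ v, π v = 0 ↔ v = 0 ∨ v = x0 + (a : V)) ∧ contr π E = NA F A a ∧
    deg E (x0 + (a : V)) = 2 * tA F A a

/-- B3: the contraction of an element of the cocircuit is vertically 3-connected, and `Γ` is not
contained in a side of a 3-separation -/
def C3Sides : Prop := ∀ (W : Type u) [AddCommGroup W] [Module (ZMod 2) W]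
  [FiniteDimensional (ZMod 2) W] [DecidableEq W] (F A : Finset W) (Γ : Submodule (ZMod 2) W)
  (a : W), Quad F A Γ → a ∈ A →
  SepGe (NA F A a : Set W) 2 ∧ span (ZMod 2) (NA F A a : Set W) = ⊤ ∧
  Γ ≤ span (ZMod 2) ((NA F A a : Set W) ∩ (Γ : Set W)) ∧
  ∀ S S' : Submodule (ZMod 2) W, Cov (NA F A a : Set W) S S' →
    finrank (ZMod 2) ↥(S ⊓ S') ≤ 2 → ¬ Γ ≤ S ∧ ¬ Γ ≤ S'

/-- B4: six elements in `Γ` make the contraction vertically 4-connected -/
def C3Six : Prop := ∀ (W : Type u) [AddCommGroup W] [Module (ZMod 2) W]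
  [FiniteDimensional (ZMod 2) W] [DecidableEq W] (F A : Finset W) (Γ : Submodule (ZMod 2) W)
  (a : W), Quad F A Γ → a ∈ A → 6 ≤ (res (NA F A a) Γ).card → SepGe (NA F A a : Set W) 3

/-- B5: the bound at a corner -/
def C3Corner : Prop := ∀ (W : Type u) [AddCommGroup W] [Module (ZMod 2) W]
  [FiniteDimensional (ZMod 2) W] [DecidableEq W] (F A : Finset W)
  (Γ Q D L M : Submodule (ZMod 2) W), Quad F A Γ → Q ≠ ⊤ → (∀ f ∈ F, f ∈ Q ∨ f ∈ D) →
  L ≤ Q ⊓ Γ → M ≤ D ⊓ Γ → 3 ≤ finrank (ZMod 2) Q → cb A L M ≤ finrank (ZMod 2) ↥(Q ⊓ D)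

/-- B6: a side which meets `F` in the union of two subspaces of dimension at most two is
light -/
def C3SmallSide : Prop := ∀ (W : Type u) [AddCommGroup W] [Module (ZMod 2) W]
  [FiniteDimensional (ZMod 2) W] [DecidableEq W] (F A : Finset W)
  (Γ S S' P P' : Submodule (ZMod 2) W) (x : W), Quad F A Γ → x ∈ A →
  Cov (NA F A x : Set W) S S' → finrank (ZMod 2) ↥(S ⊓ S') = 2 →
  (finrank (ZMod 2) S = 3 → Light (NA F A x) S S') →
  (∀ f ∈ F, f ∈ S → f ∈ P ∨ f ∈ P') → finrank (ZMod 2) ↥(S ⊓ P) ≤ 2 →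
  finrank (ZMod 2) ↥(S ⊓ P') ≤ 2 → Γ ≤ (P ⊓ Γ) ⊔ (P' ⊓ Γ) → Light (NA F A x) S S'

/-- B7: bad separations of two elements have compatible traces -/
def C3Cross : Prop := ∀ (W : Type u) [AddCommGroup W] [Module (ZMod 2) W]
  [FiniteDimensional (ZMod 2) W] [DecidableEq W] (F A : Finset W)
  (Γ S S' R R' : Submodule (ZMod 2) W) (x y : W), Quad F A Γ → x ∈ A → y ∈ A →
  (∀ T T' : Submodule (ZMod 2) W, Cov (NA F A x : Set W) T T' →
    finrank (ZMod 2) ↥(T ⊓ T') = 2 → finrank (ZMod 2) T = 3 → Light (NA F A x) T T') →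
  (∀ T T' : Submodule (ZMod 2) W, Cov (NA F A y : Set W) T T' →
    finrank (ZMod 2) ↥(T ⊓ T') = 2 → finrank (ZMod 2) T = 3 → Light (NA F A y) T T') →
  Cov (NA F A x : Set W) S S' → finrank (ZMod 2) ↥(S ⊓ S') = 2 →
  Cov (NA F A y : Set W) R R' → finrank (ZMod 2) ↥(R ⊓ R') = 2 →
  ¬ Light (NA F A x) S S' → ¬ Light (NA F A x) S' S →
  ¬ Light (NA F A y) R R' → ¬ Light (NA F A y) R' R →
  Compat A (S ⊓ Γ) (S' ⊓ Γ) (R ⊓ Γ) (R' ⊓ Γ)

/-- B8: the types of a cocircuit of rank four (finite table) -/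
def C3Types : Prop := ∀ (V : Type u) [AddCommGroup V] [Module (ZMod 2) V]
  [FiniteDimensional (ZMod 2) V] [DecidableEq V] (E : Finset V) (H : Submodule (ZMod 2) V)
  (F A : Finset ↥H) (Γ : Submodule (ZMod 2) ↥H) (x0 : V), ¬ HasK5 (E : Set V) →
  K4F (E : Set V) → Quad F A Γ → x0 ∉ H → (∀ h : ↥H, h ∈ F ↔ (h : V) ∈ E) →
  (∀ h : ↥H, h ∈ A ↔ x0 + (h : V) ∈ E) → One F A Γ ∨ (NoAss F A Γ ∧ LPl F A Γ)

/-- B9: contractions at `One` -/
def C3OneCtr : Prop := ∀ (V : Type u) [AddCommGroup V] [Module (ZMod 2) V]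
  [FiniteDimensional (ZMod 2) V] [DecidableEq V] (E : Finset V) (H : Submodule (ZMod 2) V)
  (F A : Finset ↥H) (Γ : Submodule (ZMod 2) ↥H) (x0 : V), Good (E : Set V) →
  finrank (ZMod 2) H + 1 = finrank (ZMod 2) V → Quad F A Γ → x0 ∉ H →
  (∀ h : ↥H, h ∈ F ↔ (h : V) ∈ E) → (∀ h : ↥H, h ∈ A ↔ x0 + (h : V) ∈ E) → One F A Γ →
  ∃ y ∈ E, y ∉ H ∧ Ctr (E : Set V) y ∧ deg E y ≤ 4

/-- B10: plane sides are light -/
def C3Plane : Prop := ∀ (V : Type u) [AddCommGroup V] [Module (ZMod 2) V]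
  [FiniteDimensional (ZMod 2) V] [DecidableEq V] (W : Type u) [AddCommGroup W]
  [Module (ZMod 2) W] [FiniteDimensional (ZMod 2) W] [DecidableEq W] (E : Finset V)
  (π : V →ₗ[ZMod 2] W) (e : V) (S S' : Submodule (ZMod 2) W),
  Good (E : Set V) → K4F (E : Set V) → 6 ≤ finrank (ZMod 2) V →
  (∀ y ∈ E, Ctr (E : Set V) y → 6 ≤ deg E y) → Function.Surjective π →
  (∀ v, π v = 0 ↔ v = 0 ∨ v = e) → e ∈ E → Cov (contr π E : Set W) S S' →
  finrank (ZMod 2) ↥(S ⊓ S') = 2 → finrank (ZMod 2) S = 3 → Light (contr π E) S S'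

/-- B11: an element of the cocircuit without bad separation -/
def C3NoBadX : Prop := ∀ (V : Type u) [AddCommGroup V] [Module (ZMod 2) V]
  [FiniteDimensional (ZMod 2) V] [DecidableEq V] (E : Finset V) (H : Submodule (ZMod 2) V),
  Good (E : Set V) → K4F (E : Set V) → 6 ≤ finrank (ZMod 2) V →
  (∀ y ∈ E, Ctr (E : Set V) y → 6 ≤ deg E y) → Coc4 (E : Set V) H →
  ∃ (F A : Finset ↥H) (Γ : Submodule (ZMod 2) ↥H) (x0 : V) (a : ↥H), Quad F A Γ ∧ x0 ∉ H ∧
    (∀ h : ↥H, h ∈ F ↔ (h : V) ∈ E) ∧ (∀ h : ↥H, h ∈ A ↔ x0 + (h : V) ∈ E) ∧ a ∈ A ∧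
    tA F A a ≤ 2 ∧ NoBad (NA F A a)

/-- B12: the first triad type -/
def C3Tau : Prop := ∀ (V : Type u) [AddCommGroup V] [Module (ZMod 2) V]
  [FiniteDimensional (ZMod 2) V] [DecidableEq V] (E : Finset V) (H : Submodule (ZMod 2) V)
  (p x b c : V),
  Good (E : Set V) → K4F (E : Set V) → 6 ≤ finrank (ZMod 2) V →
  (∀ y ∈ E, Ctr (E : Set V) y → 6 ≤ deg E y) → Coc4 (E : Set V) H →
  (∀ v, v ∈ E ∧ v ∉ H ↔ v = p ∨ v = p + x ∨ v = b ∨ v = c) → x ∈ E → x ∈ H →
  (∀ v ∈ E, v ∈ H → v ∈ span (ZMod 2) ({p, x, b, c} : Set V) → v = x) →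
  ∃ (F A : Finset ↥H) (Γ : Submodule (ZMod 2) ↥H) (x0 : V) (a : ↥H), Quad F A Γ ∧ x0 ∉ H ∧
    (∀ h : ↥H, h ∈ F ↔ (h : V) ∈ E) ∧ (∀ h : ↥H, h ∈ A ↔ x0 + (h : V) ∈ E) ∧ a ∈ A ∧
    tA F A a = 0 ∧ NoBad (NA F A a)

/-- B13: the cocircuit of rank four at a triad -/
def C3TriadType : Prop := ∀ (V : Type u) [AddCommGroup V] [Module (ZMod 2) V]
  [FiniteDimensional (ZMod 2) V] [DecidableEq V] (W : Type u) [AddCommGroup W]
  [Module (ZMod 2) W] [FiniteDimensional (ZMod 2) W] [DecidableEq W] (E : Finset V)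
  (π : V →ₗ[ZMod 2] W) (e : V) (S S' : Submodule (ZMod 2) W),
  Good (E : Set V) → 6 ≤ finrank (ZMod 2) V → Function.Surjective π →
  (∀ v, π v = 0 ↔ v = 0 ∨ v = e) → e ∈ E → deg E e ≤ 4 → Triad (contr π E : Set W) S S' →
  ∃ (H : Submodule (ZMod 2) V) (p b c : V), Coc4 (E : Set V) H ∧ e ∈ H ∧
    (∀ v ∈ E, v ∈ H → v ∈ span (ZMod 2) ({p, e, b, c} : Set V) → v = e) ∧
    ((∀ v, v ∈ E ∧ v ∉ H ↔ v = p ∨ v = p + e ∨ v = b ∨ v = c) ∨
      (deg E e = 4 ∧ ∀ v, v ∈ E ∧ v ∉ H ↔ v = p ∨ v = p + e ∨ v = b ∨ v = b + e ∨ v = c))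

/-- B14: without triads the guts of the separations of a maximal free superset are full -/
def C3Full : Prop := ∀ (V : Type u) [AddCommGroup V] [Module (ZMod 2) V]
  [FiniteDimensional (ZMod 2) V] [DecidableEq V] (W : Type u) [AddCommGroup W]
  [Module (ZMod 2) W] [FiniteDimensional (ZMod 2) W] [DecidableEq W] (E : Finset V)
  (π : V →ₗ[ZMod 2] W) (e : V) (S : Set W),
  Good (E : Set V) → 5 ≤ finrank (ZMod 2) V → Function.Surjective π →
  (∀ v, π v = 0 ↔ v = 0 ∨ v = e) → e ∈ E → (∀ F F', ¬ Triad (contr π E : Set W) F F') →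
  (∀ x ∈ contr π E, x ∈ S) → MaxFree S → Full S ⊤

/-! ### Peeling the branches of a set without bad separation -/

/-- P1: a separation of one side extends -/
def C3ExtSep : Prop := ∀ (W : Type u) [AddCommGroup W] [Module (ZMod 2) W]
  [FiniteDimensional (ZMod 2) W] (S : Set W) (G U Z A B : Submodule (ZMod 2) W),
  Full S ⊤ → Inv S ⊤ G → Sep S G U Z → Sep S Z A B → U ⊓ Z ≤ B →
  Sep S G A (B ⊔ U) ∧ A ⊓ (B ⊔ U) = A ⊓ B ∧ Inv S ⊤ Z ∧ U ⊔ Z = G ∧ A ⊔ B = Z

/-- P2: a full line does not split -/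
def C3LineSide : Prop := ∀ (W : Type u) [AddCommGroup W] [Module (ZMod 2) W]
  [FiniteDimensional (ZMod 2) W] (S : Set W) (Z A B L : Submodule (ZMod 2) W),
  Sep S Z A B → L ≤ Z → finrank (ZMod 2) L = 2 → (∀ x ∈ L, x ≠ 0 → x ∈ S) → L ≤ A ∨ L ≤ B

/-- P3: there are at most three branches -/
def C3Trace4 : Prop := ∀ (W : Type u) [AddCommGroup W] [Module (ZMod 2) W]
  [FiniteDimensional (ZMod 2) W] (N : Set W) (Γ : Submodule (ZMod 2) W)
  (U C : Fin 4 → Submodule (ZMod 2) W), finrank (ZMod 2) Γ = 3 →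
  Γ ≤ span (ZMod 2) (N ∩ (Γ : Set W)) → (∀ i, ∀ x ∈ N, x ∈ U i ∨ x ∈ C i) →
  (∀ i, ¬ Γ ≤ U i) → (∀ i, ¬ Γ ≤ C i) → (∀ i j, i ≠ j → U i ≤ C j) → False

/-- P4: the density bound for a piece -/
def C3Piece : Prop := ∀ (W : Type u) [AddCommGroup W] [Module (ZMod 2) W]
  [FiniteDimensional (ZMod 2) W] [DecidableEq W] (S : Finset W) (Z : Submodule (ZMod 2) W)
  (n : ℕ), (0 : W) ∉ S → ¬ HasK5 (S : Set W) → Z ≠ ⊥ → (∀ A B, ¬ Sep (S : Set W) Z A B) →
  finrank (ZMod 2) Z = n → D3.{u} n → (res S Z).card ≤ 3 * n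

/-- P5: three light parts at one line -/
def C3SameLine : Prop := ∀ (W : Type u) [AddCommGroup W] [Module (ZMod 2) W]
  [FiniteDimensional (ZMod 2) W] [DecidableEq W] (S N : Finset W)
  (U Z A B : Submodule (ZMod 2) W), N ⊆ S → (0 : W) ∉ S → Full (S : Set W) ⊤ →
  Sep (S : Set W) ⊤ U Z → Sep (S : Set W) Z A B → A ⊓ B = U ⊓ Z → Light N U Z →
  Light N A (B ⊔ U) → Light N B (A ⊔ U) → N.card ≤ 3 * finrank (ZMod 2) W

/-- P6: counting at a core with at most three light branches -/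
def C3Peel : Prop := ∀ (W : Type u) [AddCommGroup W] [Module (ZMod 2) W]
  [FiniteDimensional (ZMod 2) W] [DecidableEq W] (S N : Finset W) (Γ : Submodule (ZMod 2) W),
  N ⊆ S → (0 : W) ∉ S → ¬ HasK5 (S : Set W) → Full (S : Set W) ⊤ →
  (∀ m, m ≤ finrank (ZMod 2) W → D3.{u} m) → finrank (ZMod 2) Γ = 3 →
  Γ ≤ span (ZMod 2) ((N : Set W) ∩ (Γ : Set W)) →
  (∀ F F' : Submodule (ZMod 2) W, Sep (S : Set W) ⊤ F F' → ¬ Γ ≤ F) →
  (∀ F F' : Submodule (ZMod 2) W, Sep (S : Set W) ⊤ F F' → Light N F F' ∨ Light N F' F) →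
  N.card ≤ 3 * finrank (ZMod 2) W

/-- B16: the bound for an element without bad separation and without triads -/
def C3Bound : Prop := ∀ (V : Type u) [AddCommGroup V] [Module (ZMod 2) V]
  [FiniteDimensional (ZMod 2) V] [DecidableEq V] (E : Finset V) (H : Submodule (ZMod 2) V)
  (F A : Finset ↥H) (Γ : Submodule (ZMod 2) ↥H) (x0 : V) (a : ↥H),
  Good (E : Set V) → 6 ≤ finrank (ZMod 2) V → finrank (ZMod 2) H + 1 = finrank (ZMod 2) V →
  (∀ m, m < finrank (ZMod 2) V → D3.{u} m) → Quad F A Γ → x0 ∉ H →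
  (∀ h : ↥H, h ∈ F ↔ (h : V) ∈ E) → (∀ h : ↥H, h ∈ A ↔ x0 + (h : V) ∈ E) → a ∈ A →
  NoBad (NA F A a) → (∀ S S', ¬ Triad (NA F A a : Set ↥H) S S') →
  2 * E.card + 4 ≤ 6 * finrank (ZMod 2) V + 2 * tA F A a

/-- B17: Case II -/
def C3CaseII : Prop := ∀ (V : Type u) [AddCommGroup V] [Module (ZMod 2) V]
  [FiniteDimensional (ZMod 2) V] [DecidableEq V] (E : Finset V) (H : Submodule (ZMod 2) V),
  Good (E : Set V) → K4F (E : Set V) → 6 ≤ finrank (ZMod 2) V →
  (∀ m, m < finrank (ZMod 2) V → D3.{u} m) → Coc4 (E : Set V) H →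
  E.card ≤ 3 * finrank (ZMod 2) V

/-- interface with the module K4: the density bound for good sets with a `K4` -/
def K4c : Prop := ∀ (V : Type u) [AddCommGroup V] [Module (ZMod 2) V]
  [FiniteDimensional (ZMod 2) V] [DecidableEq V] (E : Finset V), Good (E : Set V) →
  6 ≤ finrank (ZMod 2) V → ¬ K4F (E : Set V) → E.card ≤ 3 * finrank (ZMod 2) V

/-! ### Colouring -/

/-- K1: colouring of a good set from the density bound -/
def C3ColGood : Prop := ∀ (V : Type u) [AddCommGroup V] [Module (ZMod 2) V]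
  [FiniteDimensional (ZMod 2) V] (E : Finset V), (0 : V) ∉ E → 0 < finrank (ZMod 2) V →
  E.card ≤ 3 * finrank (ZMod 2) V →
  (∀ X : Submodule (ZMod 2) V, X ≠ ⊤ →
    ∃ f : V →ₗ[ZMod 2] (Fin 3 → ZMod 2), ∀ v ∈ E, v ∈ X → f v ≠ 0) →
  ∃ f : V →ₗ[ZMod 2] (Fin 3 → ZMod 2), ∀ v ∈ E, f v ≠ 0

/-- K2: colouring across a separation with guts of dimension at most two which is smallest
possible; `col` colours free sets inside proper subspaces -/
def C3ColSep : Prop := ∀ (V : Type u) [AddCommGroup V] [Module (ZMod 2) V]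
  [FiniteDimensional (ZMod 2) V] (E : Finset V) (κ : ℕ) (S H : Submodule (ZMod 2) V),
  (0 : V) ∉ E → ¬ HasK5 (E : Set V) → span (ZMod 2) (E : Set V) = ⊤ →
  SepGe (E : Set V) κ → κ ≤ 2 → S ≠ ⊤ → H ≠ ⊤ → (∀ x ∈ E, x ∈ S ∨ x ∈ H) →
  finrank (ZMod 2) ↥(S ⊓ H) = κ →
  (∀ (X : Submodule (ZMod 2) V) (F : Set V), X ≠ ⊤ → (∀ x ∈ F, x ∈ X) → (0 : V) ∉ F →
    ¬ HasK5 F → ∃ f : V →ₗ[ZMod 2] (Fin 3 → ZMod 2), ∀ v ∈ F, f v ≠ 0) →
  ∃ f : V →ₗ[ZMod 2] (Fin 3 → ZMod 2), ∀ v ∈ E, f v ≠ 0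

/-- K3: the reduction of the colouring theorem to the density bound -/
def C3Colour : Prop := (∀ m, D3.{u} m) → ∀ (V : Type u) [AddCommGroup V]
  [Module (ZMod 2) V] [FiniteDimensional (ZMod 2) V] (E : Finset V), (0 : V) ∉ E →
  ¬ HasK5 (E : Set V) → ∃ f : V →ₗ[ZMod 2] (Fin 3 → ZMod 2), ∀ v ∈ E, f v ≠ 0

end Pool.Agent.WW

end

section

set_option autoImplicit false

/-! Item T18: the triangle inequality in all ranks at least five (helper18). -/

namespace Pool.Agent.WW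

open Submodule Module

universe u

theorem claimTAll (h16 : ClaimTRel.{u}) (h17 : ClaimTStep.{u}) : ClaimTAll.{u} := by
  intro hK hT hG h5 n
  induction n using Nat.strong_induction_on with
  | _ n ih =>
    intro hn
    rcases Nat.eq_or_lt_of_le hn with h | h
    · rw [← h]
      exact h5
    · exact h16 n (h17 hK hT hG n h fun m hm hmn => ih m hmn hm)

end Pool.Agent.WW

end

section

/-!
`claimTNot4`: the triangle inequality for sets which are not vertically 4-connected.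
-/

namespace Pool.Agent.WW

open Submodule Module

universe u

/-- arithmetic: both sides have rank at least three -/
theorem tn4_arith1 {w y wa wb t ty ta tb k k' : ℕ} (h1 : w + y = wa + wb)
    (h2 : t + ty = ta + tb) (h3 : 6 * y = ty + 6 * k') (hk' : k' ≤ k) (hk : k ≤ 2)
    (ha : ta + 18 ≤ 6 * wa) (hb : tb + 18 ≤ 6 * wb) : t + 24 ≤ 6 * w := by
  omega

/-- arithmetic: the side `A` has rank at most two -/
theorem tn4_arith2 {w y wa wb t ty ta tb a k k' : ℕ} (h1 : w + y = wa + wb)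
    (h2 : t + ty = ta + tb) (h3 : 6 * y = ty + 6 * k') (hk' : k' ≤ k) (hka : k < a)
    (ha : 6 * wa = ta + 6 * a) (hb : tb + 18 ≤ 6 * wb) : t + 24 ≤ 6 * w := by
  omega

theorem claimTNot4 (h6 : ClaimTriSplit.{u}) (h7 : ClaimTriLine.{u}) : ClaimTNot4.{u} := by
  intro V _ _ _ _ W A B h0 hcov hA hB hAB hn hind
  obtain ⟨hc, ht⟩ := h6 V W A B hcov
  have hWA : res W A ⊆ W := fun x hx => (mem_res.1 hx).1
  have hWB : res W B ⊆ W := fun x hx => (mem_res.1 hx).1
  have hY : res W (A ⊓ B) ⊆ W := fun x hx => (mem_res.1 hx).1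
  have hsA : span (ZMod 2) (res W A : Set V) ≤ A := by
    rw [span_le]
    intro x hx
    exact (mem_res.1 (Finset.mem_coe.1 hx)).2
  have hsB : span (ZMod 2) (res W B : Set V) ≤ B := by
    rw [span_le]
    intro x hx
    exact (mem_res.1 (Finset.mem_coe.1 hx)).2
  have hsWA : span (ZMod 2) (res W A : Set V) ≤ span (ZMod 2) (W : Set V) :=
    span_mono (by exact_mod_cast hWA)
  have hsWB : span (ZMod 2) (res W B : Set V) ≤ span (ZMod 2) (W : Set V) :=
    span_mono (by exact_mod_cast hWB)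
  have hsup : span (ZMod 2) (res W A : Set V) ⊔ span (ZMod 2) (res W B : Set V) =
      span (ZMod 2) (W : Set V) := by
    apply le_antisymm (sup_le hsWA hsWB)
    rw [span_le]
    intro x hx
    have hx' : x ∈ W := Finset.mem_coe.1 hx
    rcases hcov x hx' with h | h
    · exact (le_sup_left : _ ≤ span (ZMod 2) (res W A : Set V) ⊔
        span (ZMod 2) (res W B : Set V)) (subset_span (Finset.mem_coe.2 (mem_res.2 ⟨hx', h⟩)))
    · exact (le_sup_right : _ ≤ span (ZMod 2) (res W A : Set V) ⊔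
        span (ZMod 2) (res W B : Set V)) (subset_span (Finset.mem_coe.2 (mem_res.2 ⟨hx', h⟩)))
  have hmod := Submodule.finrank_sup_add_finrank_inf_eq (span (ZMod 2) (res W A : Set V))
    (span (ZMod 2) (res W B : Set V))
  rw [hsup] at hmod
  have hk2 : finrank (ZMod 2) ↥(span (ZMod 2) (res W A : Set V) ⊓
      span (ZMod 2) (res W B : Set V)) ≤ 2 :=
    le_trans (Submodule.finrank_mono (inf_le_inf hsA hsB)) hAB
  have haN : finrank (ZMod 2) ↥(span (ZMod 2) (res W A : Set V)) <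
      finrank (ZMod 2) ↥(span (ZMod 2) (W : Set V)) := by
    apply Submodule.finrank_lt_finrank_of_lt
    refine lt_of_le_of_ne hsWA ?_
    intro heq
    obtain ⟨x, hx, hxA⟩ := hA
    apply hxA
    apply hsA
    rw [heq]
    exact subset_span (Finset.mem_coe.2 hx)
  have hbN : finrank (ZMod 2) ↥(span (ZMod 2) (res W B : Set V)) <
      finrank (ZMod 2) ↥(span (ZMod 2) (W : Set V)) := by
    apply Submodule.finrank_lt_finrank_of_lt
    refine lt_of_le_of_ne hsWB ?_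
    intro heq
    obtain ⟨x, hx, hxB⟩ := hB
    apply hxB
    apply hsB
    rw [heq]
    exact subset_span (Finset.mem_coe.2 hx)
  have hYs : span (ZMod 2) (res W (A ⊓ B) : Set V) ≤
      span (ZMod 2) (res W A : Set V) ⊓ span (ZMod 2) (res W B : Set V) := by
    apply le_inf
    · apply span_mono
      intro x hx
      have hx' := mem_res.1 (Finset.mem_coe.1 hx)
      exact Finset.mem_coe.2 (mem_res.2 ⟨hx'.1, hx'.2.1⟩)
    · apply span_mono
      intro x hx
      have hx' := mem_res.1 (Finset.mem_coe.1 hx)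
      exact Finset.mem_coe.2 (mem_res.2 ⟨hx'.1, hx'.2.2⟩)
  have hk' := Submodule.finrank_mono hYs
  have h3 := h7 V (res W (A ⊓ B)) (fun h => h0 (hY h)) (le_trans hk' hk2)
  by_cases ha : 3 ≤ finrank (ZMod 2) ↥(span (ZMod 2) (res W A : Set V))
  · have hta := hind _ hWA ha haN
    by_cases hb : 3 ≤ finrank (ZMod 2) ↥(span (ZMod 2) (res W B : Set V))
    · have htb := hind _ hWB hb hbN
      exact tn4_arith1 hc ht h3 hk' hk2 hta htb
    · have h7b := h7 V (res W B) (fun h => h0 (hWB h)) (by omega)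
      exact tn4_arith2 (by omega : W.card + (res W (A ⊓ B)).card =
        (res W B).card + (res W A).card) (by omega) h3 hk' (by omega) h7b hta
  · have h7a := h7 V (res W A) (fun h => h0 (hWA h)) (by omega)
    have htb := hind _ hWB (by omega) hbN
    exact tn4_arith2 hc ht h3 hk' (by omega) h7a htb

end Pool.Agent.WW

end

section

/-!
T16: restriction of a set to its span.
-/

namespace Pool.Agent.WW

open Submodule Module

universe u

private lemma add_self_trel {V : Type*} [AddCommGroup V] [Module (ZMod 2) V] (v : V) :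
    v + v = 0 := by
  have h : (2 : ZMod 2) = 0 := rfl
  rw [← two_smul (ZMod 2) v, h, zero_smul]

theorem claimTRel : ClaimTRel.{u} := by
  intro n hTA V _ _ _ _ E h0 hn hK4 hfree hGQ
  classical
  set U := span (ZMod 2) (E : Set V) with hU
  let F : Finset U := E.attach.image (fun x => (⟨x.1, subset_span x.2⟩ : U))
  have hmem : ∀ x : U, x ∈ F ↔ (x : V) ∈ E := by
    intro x
    constructor
    · intro hx
      obtain ⟨y, -, rfl⟩ := Finset.mem_image.1 hx
      exact y.2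
    · intro hx
      exact Finset.mem_image.2 ⟨⟨x.1, hx⟩, Finset.mem_attach _ _, Subtype.ext rfl⟩
  have hFE : F.image (U.subtype) = E := by
    ext x
    rw [Finset.mem_image]
    constructor
    · rintro ⟨y, hy, rfl⟩
      exact (hmem y).1 hy
    · intro hx
      exact ⟨⟨x, subset_span hx⟩, (hmem _).2 hx, rfl⟩
  have hcard : F.card = E.card := by
    rw [← hFE, Finset.card_image_of_injective _ U.subtype_injective]
  have htri : tri F = tri E := by
    unfold tri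
    apply Finset.card_bij (fun p _ => ((p.1 : V), (p.2 : V)))
    · intro p hp
      rw [Finset.mem_filter, Finset.mem_product] at hp ⊢
      exact ⟨⟨(hmem _).1 hp.1.1, (hmem _).1 hp.1.2⟩, (hmem _).1 hp.2⟩
    · intro p _ q _ h
      rw [Prod.mk.injEq] at h
      exact Prod.ext (Subtype.ext h.1) (Subtype.ext h.2)
    · intro p hp
      rw [Finset.mem_filter, Finset.mem_product] at hp
      refine ⟨(⟨p.1, subset_span hp.1.1⟩, ⟨p.2, subset_span hp.1.2⟩), ?_, rfl⟩
      rw [Finset.mem_filter, Finset.mem_product]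
      exact ⟨⟨(hmem _).2 hp.1.1, (hmem _).2 hp.1.2⟩, (hmem _).2 hp.2⟩
  have hF0 : (0 : U) ∉ F := fun h => h0 ((hmem 0).1 h)
  have hFfree : ¬ HasK5 (F : Set U) := by
    intro h
    apply hfree
    refine HasK5.of_map U.subtype (F : Set U) (E : Set V) ⊥ ?_ ?_ ?_ h
    · intro x hx
      rw [Submodule.mem_bot] at hx
      rw [hx]; exact zero_mem _
    · intro w hw
      rw [Submodule.mem_bot] at hw
      exact Subtype.ext hw
    · intro w hw
      exact ⟨w, (hmem w).1 hw, by rw [Submodule.subtype_apply, add_self_trel]; exact zero_mem _⟩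
  have hFs : span (ZMod 2) (F : Set U) = ⊤ := by
    apply Submodule.map_injective_of_injective U.subtype_injective
    rw [Submodule.map_span, Submodule.map_top, Submodule.range_subtype]
    have : (U.subtype '' (F : Set U)) = (E : Set V) := by
      rw [← Finset.coe_image, hFE]
    rw [this]
  have hFK4 : K4F (F : Set U) := by
    intro Z hZ
    have h1 := hK4 (Z.map U.subtype) (by rw [finrank_map_subtype_eq]; exact hZ)
    have h2 : (E : Set V) ∩ ((Z.map U.subtype : Submodule (ZMod 2) V) : Set V) =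
        U.subtype '' ((F : Set U) ∩ (Z : Set U)) := by
      ext x
      constructor
      · rintro ⟨hx, y, hy, rfl⟩
        exact ⟨y, ⟨(hmem y).2 hx, hy⟩, rfl⟩
      · rintro ⟨y, ⟨hy, hyZ⟩, rfl⟩
        exact ⟨(hmem y).1 hy, y, hyZ, rfl⟩
    rw [h2, Set.ncard_image_of_injective _ U.subtype_injective] at h1
    exact h1
  have hFGQ : GQF (F : Set U) := by
    intro b hb
    obtain ⟨k, hk, hkE⟩ := hGQ (U.subtype ∘ b)
      (hb.map' U.subtype (LinearMap.ker_eq_bot.2 U.subtype_injective))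
    refine ⟨k, hk, fun h => hkE ?_⟩
    have h3 : comb (U.subtype ∘ b) k = U.subtype (comb b k) := by
      unfold comb
      rw [map_sum]
      refine Finset.sum_congr rfl fun i _ => ?_
      split_ifs
      · rfl
      · simp
    rw [h3]
    exact (hmem _).1 h
  have := hTA U F hF0 hFs hn hFK4 hFfree hFGQ
  omega

end Pool.Agent.WW

end

section

/-!
Items T11, T12: the triangle inequality for sets with a vertical 4-separation, and for sets with
a cocircuit of rank four.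
-/

namespace Pool.Agent.WW

open Submodule Module

universe u

section

variable {V : Type u} [AddCommGroup V] [Module (ZMod 2) V]

theorem tsc_k4f_mono {Y Z : Finset V} (h : Y ⊆ Z) (hZ : K4F (Z : Set V)) : K4F (Y : Set V) := by
  intro U hU
  refine le_trans (Set.ncard_le_ncard ?_ ?_) (hZ U hU)
  · exact Set.inter_subset_inter_left _ (by exact_mod_cast h)
  · exact (Finset.finite_toSet Z).subset Set.inter_subset_left

theorem tsc_res_subset (E : Finset V) (A : Submodule (ZMod 2) V) : res E A ⊆ E := by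
  intro x hx
  exact (mem_res.1 hx).1

/-- the deficiency of a set in a plane -/
theorem tsc_plane (h7 : ClaimTriLine.{u}) (h8 : ClaimTriPlane.{u}) [FiniteDimensional (ZMod 2) V]
    [DecidableEq V] (W : Finset V) (Γ : Submodule (ZMod 2) V) (h0 : (0 : V) ∉ W)
    (hK : K4F (W : Set V)) (hΓ : finrank (ZMod 2) Γ = 3) :
    6 * (res W Γ).card ≤ tri (res W Γ) + 18 ∨
      (6 * (res W Γ).card = tri (res W Γ) + 24 ∧
        ∃ a b c : V, LinearIndependent (ZMod 2) ![a, b, c] ∧ res W Γ = {a, b, c, a + b + c}) := by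
  have h0' : (0 : V) ∉ res W Γ := fun h => h0 (mem_res.1 h).1
  have hK' : K4F ((res W Γ : Finset V) : Set V) := tsc_k4f_mono (tsc_res_subset W Γ) hK
  have hle : span (ZMod 2) ((res W Γ : Finset V) : Set V) ≤ Γ := by
    refine span_le.2 ?_
    intro x hx
    exact (mem_res.1 (Finset.mem_coe.1 hx)).2
  have hr : finrank (ZMod 2) ↥(span (ZMod 2) ((res W Γ : Finset V) : Set V)) ≤ 3 := by
    rw [← hΓ]
    exact Submodule.finrank_mono hle
  rcases Nat.lt_or_ge (finrank (ZMod 2) ↥(span (ZMod 2) ((res W Γ : Finset V) : Set V))) 3 with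
    h | h
  · left
    have := h7 V (res W Γ) h0' (by omega)
    omega
  · rcases h8 V (res W Γ) h0' hK' (by omega) with h1 | ⟨h1, _, h2⟩
    · left
      omega
    · right
      exact ⟨h1, h2⟩

end

/-- T11 -/
theorem claimTSep (h6 : ClaimTriSplit.{u}) (h7 : ClaimTriLine.{u}) (h8 : ClaimTriPlane.{u}) :
    ClaimTSep.{u} := by
  intro V _ _ _ _ W A B h0 hK hcov hAB hA hB
  obtain ⟨h1, h2⟩ := h6 V W A B hcov
  rcases tsc_plane h7 h8 W (A ⊓ B) h0 hK hAB with h3 | ⟨h3, _⟩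
  · omega
  · omega

/-- T12 -/
theorem claimTC4 (h6 : ClaimTriSplit.{u}) (h7 : ClaimTriLine.{u}) (h8 : ClaimTriPlane.{u})
    (h9 : ClaimTriFour.{u}) : ClaimTC4.{u} := by
  intro V _ _ _ _ W G H h0 hK hcov hGH hG hspan hH
  obtain ⟨h1, h2⟩ := h6 V W G H hcov
  have h0' : (0 : V) ∉ res W G := fun h => h0 (mem_res.1 h).1
  have hK' : K4F ((res W G : Finset V) : Set V) := tsc_k4f_mono (tsc_res_subset W G) hK
  have hsp : span (ZMod 2) ((res W G : Finset V) : Set V) = G := by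
    apply le_antisymm
    · refine span_le.2 ?_
      intro x hx
      exact (mem_res.1 (Finset.mem_coe.1 hx)).2
    · conv_lhs => rw [← hspan]
      apply span_mono
      rintro x ⟨hx, hxH⟩
      exact Finset.mem_coe.2 (mem_res.2 ⟨Finset.mem_coe.1 hx,
        (hcov x (Finset.mem_coe.1 hx)).resolve_right hxH⟩)
  have hr : finrank (ZMod 2) ↥(span (ZMod 2) ((res W G : Finset V) : Set V)) = 4 := by
    rw [hsp, hG]
  obtain ⟨h3, h4⟩ := h9 V (res W G) h0' hK' hr
  rcases tsc_plane h7 h8 W (G ⊓ H) h0 hK hGH with h5 | ⟨h5, a, b, c, hli, habc⟩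
  · omega
  · have e1 : res (res W G) (G ⊓ H) = res W (G ⊓ H) := by
      ext x
      simp only [mem_res, Submodule.mem_inf]
      tauto
    have e2 : ((res W G : Finset V) : Set V) \ ((G ⊓ H : Submodule (ZMod 2) V) : Set V) =
        (W : Set V) \ (H : Set V) := by
      ext x
      simp only [Set.mem_sdiff, mem_res, SetLike.mem_coe, Submodule.mem_inf]
      constructor
      · rintro ⟨⟨hx, hxG⟩, hn⟩
        exact ⟨hx, fun hxH => hn ⟨hxG, hxH⟩⟩
      · rintro ⟨hx, hxH⟩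
        exact ⟨⟨hx, (hcov x hx).resolve_right hxH⟩, fun h => hxH h.2⟩
    have h6' := h4 (G ⊓ H) a b c hGH hli (e1.trans habc) (by rw [e2, hspan, hG])
    omega

end Pool.Agent.WW

end

section

/-!
T17: the induction step of the triangle inequality.
-/

namespace Pool.Agent.WW

open Submodule Module

universe u

section aux

variable {V : Type*} [AddCommGroup V] [Module (ZMod 2) V]

theorem tst_K4F_mono {E F : Set V} (hF : F.Finite) (h : E ⊆ F) (hK : K4F F) : K4F E := by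
  intro U hU
  exact (Set.ncard_le_ncard (Set.inter_subset_inter_left _ h)
    (hF.subset Set.inter_subset_left)).trans (hK U hU)

theorem tst_GQF_mono {E F : Set V} (h : E ⊆ F) (hK : GQF F) : GQF E := by
  intro b hb
  obtain ⟨n, hn, hn'⟩ := hK b hb
  exact ⟨n, hn, fun hc => hn' (h hc)⟩

theorem tst_exists_not_mem {E : Set V} {A : Submodule (ZMod 2) V} (hE : span (ZMod 2) E = ⊤)
    (hA : A ≠ ⊤) : ∃ x ∈ E, x ∉ A := by
  by_contra hcon
  push Not at hcon
  apply hA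
  rw [eq_top_iff, ← hE]
  exact span_le.2 hcon

theorem tst_triL_le {W : Type*} [AddCommGroup W] [Module (ZMod 2) W] [DecidableEq V]
    [DecidableEq W] (π : V →ₗ[ZMod 2] W) (E : Finset V) (X : Finset W) :
    triL π E X ≤ tri X := by
  classical
  unfold triL tri
  apply Finset.card_le_card
  intro p hp
  rw [Finset.mem_filter] at hp ⊢
  exact ⟨hp.1, hp.2.1⟩

theorem tst_res_subset (W : Finset V) (A : Submodule (ZMod 2) V) : res W A ⊆ W := by
  intro x hx
  exact (mem_res.1 hx).1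

/-- the points of `W` in `H` span `H` if the points outside `G` do -/
theorem tst_span_res {W : Finset V} {G H : Submodule (ZMod 2) V}
    (hcov : ∀ x ∈ W, x ∈ G ∨ x ∈ H) (h : span (ZMod 2) ((W : Set V) \ (G : Set V)) = H) :
    span (ZMod 2) ((res W H : Finset V) : Set V) = H := by
  apply le_antisymm
  · rw [span_le]
    intro x hx
    exact (mem_res.1 (Finset.mem_coe.1 hx)).2
  · conv_lhs => rw [← h]
    apply span_mono
    rintro x ⟨hx, hxG⟩
    exact Finset.mem_coe.2 (mem_res.2 ⟨Finset.mem_coe.1 hx, (hcov x hx).resolve_left hxG⟩)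

end aux

theorem claimTStep (h1 : ClaimCovDim.{u}) (h8 : ClaimTriPlane.{u}) (h9 : ClaimTriFour.{u})
    (h10 : ClaimTNot4.{u}) (h11 : ClaimTSep.{u}) (h12 : ClaimTC4.{u}) (h13 : ClaimTContr.{u})
    (h14 : ClaimCtrGood.{u}) (h15 : ClaimNoGQ.{u}) : ClaimTStep.{u} := by
  intro hK4b hT6 hTab n hn hTR V _ _ _ _ W h0 hspan hrank hK4 hfree hGQ
  -- the triangle inequality for smaller spans
  have hsub : ∀ W' ⊆ W, 5 ≤ finrank (ZMod 2) ↥(span (ZMod 2) (W' : Set V)) →
      finrank (ZMod 2) ↥(span (ZMod 2) (W' : Set V)) < n → tri W' + 24 ≤ 6 * W'.card := by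
    intro W' hW' h5 hlt
    have hc : (W' : Set V) ⊆ (W : Set V) := Finset.coe_subset.2 hW'
    exact hTR _ h5 hlt V W' (fun h => h0 (hW' h)) rfl
      (tst_K4F_mono (Finset.finite_toSet W) hc hK4) (fun h => hfree (h.mono hc))
      (tst_GQF_mono hc hGQ)
  have hWrank : finrank (ZMod 2) ↥(span (ZMod 2) (W : Set V)) = n := by
    rw [hspan, finrank_top, hrank]
  -- (i)
  by_cases hsep3 : SepGe (W : Set V) 3
  swap
  · unfold SepGe at hsep3
    push Not at hsep3
    obtain ⟨A, B, hA, hB, hcov, hlt⟩ := hsep3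
    refine h10 V W A B h0 (fun x hx => hcov x hx) ?_ ?_ (by omega) (by omega) ?_
    · obtain ⟨x, hx, hxA⟩ := tst_exists_not_mem hspan hA
      exact ⟨x, hx, hxA⟩
    · obtain ⟨x, hx, hxB⟩ := tst_exists_not_mem hspan hB
      exact ⟨x, hx, hxB⟩
    · intro W' hW' h3 hlt'
      rw [hWrank] at hlt'
      have hc : (W' : Set V) ⊆ (W : Set V) := Finset.coe_subset.2 hW'
      have h0' : (0 : V) ∉ W' := fun h => h0 (hW' h)
      have hK' := tst_K4F_mono (Finset.finite_toSet W) hc hK4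
      rcases Nat.lt_or_ge (finrank (ZMod 2) ↥(span (ZMod 2) (W' : Set V))) 5 with h5 | h5
      · rcases Nat.lt_or_ge (finrank (ZMod 2) ↥(span (ZMod 2) (W' : Set V))) 4 with h4 | h4
        · rcases h8 V W' h0' hK' (by omega) with h | h
          · omega
          · omega
        · exact (h9 V W' h0' hK' (by omega)).1
      · have := hsub W' hW' h5 hlt'
        omega
  -- (ii)
  have hgood : Good (W : Set V) := (good_iff_sepGe _).2 ⟨h0, hspan, hsep3, hfree⟩
  by_cases hno : NoC4 (W : Set V)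
  swap
  · unfold NoC4 at hno
    push Not at hno
    obtain ⟨H, hH, hlt⟩ := hno
    set G := span (ZMod 2) ((W : Set V) \ (H : Set V)) with hG
    have hGtop : G ≠ ⊤ := by
      intro h
      rw [h, finrank_top, hrank] at hlt
      omega
    have hcov : ∀ x ∈ (W : Set V), x ∈ G ∨ x ∈ H := by
      intro x hx
      by_cases hxH : x ∈ H
      · exact Or.inr hxH
      · exact Or.inl (subset_span ⟨hx, hxH⟩)
    have h3 := hsep3 G H hGtop hH hcov
    obtain ⟨x, hx, hxH⟩ := tst_exists_not_mem hspan hH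
    have hlt2 : finrank (ZMod 2) ↥(G ⊓ H) < finrank (ZMod 2) G := by
      apply Submodule.finrank_lt_finrank_of_lt
      refine lt_of_le_of_ne inf_le_left ?_
      intro h
      have hxG : x ∈ G := subset_span ⟨hx, hxH⟩
      rw [← h] at hxG
      exact hxH hxG.2
    have hG4 : finrank (ZMod 2) G = 4 := by omega
    have hGH : finrank (ZMod 2) ↥(G ⊓ H) = 3 := by omega
    have hC1 := h1 V (W : Set V) G H hspan ⟨hGtop, hH, hcov⟩
    have hC2 := h1 V (W : Set V) H G hspan ⟨hH, hGtop, fun x hx => (hcov x hx).symm⟩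
    have hHG : finrank (ZMod 2) ↥(H ⊓ G) = 3 := by rw [inf_comm]; exact hGH
    have hspH : span (ZMod 2) ((W : Set V) \ (G : Set V)) = H := hC2.2.2.2 hsep3 hHG
    have hresH := tst_span_res (W := W) (G := G) (H := H) hcov hspH
    have hdim := hC1.2.1
    rw [hGH, hG4, hrank] at hdim
    refine h12 V W G H h0 hK4 hcov hGH hG4 rfl ?_
    apply hsub _ (tst_res_subset W H)
    · rw [hresH]; omega
    · rw [hresH]; omega
  -- (iii)
  by_cases hsep4 : SepGe (W : Set V) 4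
  swap
  · unfold SepGe at hsep4
    push Not at hsep4
    obtain ⟨A, B, hA, hB, hcov, hlt⟩ := hsep4
    have h3 := hsep3 A B hA hB hcov
    have hAB : finrank (ZMod 2) ↥(A ⊓ B) = 3 := by omega
    have hBA : finrank (ZMod 2) ↥(B ⊓ A) = 3 := by rw [inf_comm]; exact hAB
    have hC1 := h1 V (W : Set V) A B hspan ⟨hA, hB, hcov⟩
    have hC2 := h1 V (W : Set V) B A hspan ⟨hB, hA, fun x hx => (hcov x hx).symm⟩
    have hspA : span (ZMod 2) ((W : Set V) \ (B : Set V)) = A := hC1.2.2.2 hsep3 hAB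
    have hspB : span (ZMod 2) ((W : Set V) \ (A : Set V)) = B := hC2.2.2.2 hsep3 hBA
    have hA5 := hno B hB
    have hB5 := hno A hA
    rw [hspA] at hA5
    rw [hspB] at hB5
    have hAn : finrank (ZMod 2) A < n := by
      rw [← hrank]
      exact Submodule.finrank_lt hA
    have hBn : finrank (ZMod 2) B < n := by
      rw [← hrank]
      exact Submodule.finrank_lt hB
    have hresB := tst_span_res (W := W) (G := A) (H := B) hcov hspB
    have hresA := tst_span_res (W := W) (G := B) (H := A) (fun x hx => (hcov x hx).symm) hspA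
    refine h11 V W A B h0 hK4 hcov hAB ?_ ?_
    · apply hsub _ (tst_res_subset W A)
      · rw [hresA]; omega
      · rw [hresA]; omega
    · apply hsub _ (tst_res_subset W B)
      · rw [hresB]; omega
      · rw [hresB]; omega
  -- (iv)
  obtain ⟨e, he⟩ : ∃ e, e ∈ W := by
    have hbot : (⊥ : Submodule (ZMod 2) V) ≠ ⊤ := by
      intro h
      have h2 : finrank (ZMod 2) ↥(⊤ : Submodule (ZMod 2) V) = 0 := by
        rw [← h, finrank_bot]
      rw [finrank_top, hrank] at h2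
      omega
    obtain ⟨x, hx, _⟩ := tst_exists_not_mem hspan hbot
    exact ⟨x, hx⟩
  have hker : ∀ v, (span (ZMod 2) {e}).mkQ v = 0 ↔ v = 0 ∨ v = e := by
    intro v
    rw [Submodule.mkQ_apply, Submodule.Quotient.mk_eq_zero, Submodule.mem_span_singleton]
    constructor
    · rintro ⟨a, rfl⟩
      fin_cases a
      · left; exact zero_smul _ _
      · right; exact one_smul _ _
    · rintro (rfl | rfl)
      · exact ⟨0, zero_smul _ _⟩
      · exact ⟨1, one_smul _ _⟩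
  classical
  have hsurj : Function.Surjective (span (ZMod 2) {e}).mkQ := Submodule.mkQ_surjective _
  have hctr : Ctr (W : Set V) e := by
    intro A B hAB _
    exact hsep4 A B hAB.1 hAB.2.1 hAB.2.2
  obtain ⟨hNgood, hNrank⟩ := h14 V (V ⧸ span (ZMod 2) {e}) W (span (ZMod 2) {e}).mkQ e hsurj hker
    he hgood hctr
  rw [hrank] at hNrank
  refine h13 V (V ⧸ span (ZMod 2) {e}) W (span (ZMod 2) {e}).mkQ e hker h0 he hK4 ?_
  rcases Nat.lt_or_ge n 7 with h7 | h7
  · exact hT6 V (V ⧸ span (ZMod 2) {e}) W (span (ZMod 2) {e}).mkQ e hsurj hker he hgood hsep4 hK4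
      hGQ (by omega)
  · have hNK := hK4b V (V ⧸ span (ZMod 2) {e}) W (span (ZMod 2) {e}).mkQ e hsurj hker he hgood
      hsep4 hK4 (by omega)
    have hNG := h15 hTab (V ⧸ span (ZMod 2) {e}) _ hNgood (by omega)
    have hN := hTR (n - 1) (by omega) (by omega) (V ⧸ span (ZMod 2) {e})
      (contr (span (ZMod 2) {e}).mkQ W) hNgood.zero (by
        rw [hNgood.span, finrank_top]
        omega) hNK hNgood.free hNG
    have hle := tst_triL_le (span (ZMod 2) {e}).mkQ W (contr (span (ZMod 2) {e}).mkQ W)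
    omega

end Pool.Agent.WW

end

section

set_option autoImplicit false

/-!
# T5: Theorem C
-/

namespace Pool.Agent.WW

open Submodule Module

universe u

/-- T5: Theorem C -/
theorem claimThmC (h : ClaimMinFrag.{u}) : ClaimThmC.{u} := by
  intro V _ _ _ E P hs hsep hno hP hU hx
  obtain ⟨x, hxE, hxP⟩ := hx
  by_contra hcon
  push Not at hcon
  have hn := hcon x hxE hxP
  unfold Ctr at hn
  push Not at hn
  obtain ⟨A, B, hcov, hxAB, hlt⟩ := hn
  have h3 : finrank (ZMod 2) ↥(A ⊓ B) = 3 := by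
    have := hsep A B hcov.1 hcov.2.1 hcov.2.2
    omega
  have hex : ∃ n : ℕ, ∃ G H : Submodule (ZMod 2) V, Frag E P G H ∧ finrank (ZMod 2) G = n := by
    rcases hU A B (fun y hy _ => hcov.2.2 y hy) with hPA | hPB
    · refine ⟨_, B, A, ⟨⟨hcov.2.1, hcov.1, fun y hy => (hcov.2.2 y hy).symm⟩, ?_, hPA,
        x, hxE, ?_, hxP⟩, rfl⟩
      · rw [inf_comm]; exact h3
      · rw [inf_comm]; exact hxAB
    · exact ⟨_, A, B, ⟨hcov, h3, hPB, x, hxE, hxAB, hxP⟩, rfl⟩
  classical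
  obtain ⟨G, H, hF, hG⟩ := Nat.find_spec hex
  obtain ⟨g, hgE, hgH, hg⟩ := h V E P G H hs hsep hno hP hU hF (by
    intro G' H' hF'
    rw [hG]
    exact Nat.find_min' hex ⟨G', H', hF', rfl⟩)
  exact hcon g hgE (fun hgP => hgH (hF.2.2.1 hgP)) hg

end Pool.Agent.WW

end

section

/-!
Transport of counting problems in small rank to codes (for T8 and T9).
-/

namespace Pool.Agent.WW

open Submodule Module

section transport

variable {V : Type*} [AddCommGroup V] [Module (ZMod 2) V]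

/-- the span of three codes -/
def tfSp (h : ℕ × ℕ × ℕ) : List ℕ :=
  [0, h.1, h.2.1, h.1 ^^^ h.2.1, h.2.2, h.1 ^^^ h.2.2, h.2.1 ^^^ h.2.2, h.1 ^^^ (h.2.1 ^^^ h.2.2)]

lemma tf_zero_imp {m : ℕ} {b : Fin m → V} (hb : LinearIndependent (ZMod 2) b) (n : ℕ)
    (hn : n < 2 ^ m) (h : comb b n = 0) : n = 0 := by
  apply comb_mem_imp b ⊥ _ n hn
  · rw [mem_bot]
    exact h
  · intro c hc
    rw [mem_bot] at hc
    ext i
    exact Fintype.linearIndependent_iff.mp hb c hc i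

lemma tf_inj {m : ℕ} {b : Fin m → V} (hb : LinearIndependent (ZMod 2) b) {x y : ℕ}
    (hx : x < 2 ^ m) (hy : y < 2 ^ m) (h : comb b x = comb b y) : x = y := by
  have h1 : comb b (x ^^^ y) = 0 := by
    rw [comb_xor, h, add_self_z2]
  have h2 := tf_zero_imp hb _ (Nat.xor_lt_two_pow hx hy) h1
  exact Nat.xor_eq_zero_iff.mp h2

/-- all vectors of a subspace of dimension `m` with basis `b` have codes -/
lemma tf_surj {m : ℕ} [FiniteDimensional (ZMod 2) V] {b : Fin m → V}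
    (hb : LinearIndependent (ZMod 2) b) (S : Submodule (ZMod 2) V) (hbS : ∀ i, b i ∈ S)
    (hS : finrank (ZMod 2) S = m) : ∀ y ∈ S, ∃ n < 2 ^ m, comb b n = y := by
  have : Finite V := Module.finite_of_finite (ZMod 2)
  have := Fintype.ofFinite S
  have hcard : Fintype.card S = 2 ^ m := by
    rw [card_eq_pow_finrank (K := ZMod 2) (V := S), hS, ZMod.card]
  have hmem : ∀ n, comb b n ∈ S := by
    intro n
    unfold comb
    refine Submodule.sum_mem _ fun i _ => ?_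
    split_ifs
    · exact hbS i
    · exact zero_mem _
  have hinj : Function.Injective (fun n : Fin (2 ^ m) => (⟨comb b n, hmem n⟩ : S)) := by
    intro x y hxy
    ext
    exact tf_inj hb x.2 y.2 (congrArg Subtype.val hxy)
  have hbij : Function.Bijective (fun n : Fin (2 ^ m) => (⟨comb b n, hmem n⟩ : S)) :=
    (Fintype.bijective_iff_injective_and_card _).mpr ⟨hinj, by simp [hcard]⟩
  intro y hy
  obtain ⟨n, hn⟩ := hbij.2 ⟨y, hy⟩
  exact ⟨n, n.2, congrArg Subtype.val hn⟩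

/-- a basis of the span inside the set -/
lemma tf_basis {m : ℕ} [FiniteDimensional (ZMod 2) V] (Y : Finset V)
    (hY : finrank (ZMod 2) ↥(span (ZMod 2) (Y : Set V)) = m) :
    ∃ b : Fin m → V, (∀ i, b i ∈ Y) ∧ LinearIndependent (ZMod 2) b := by
  obtain ⟨f, hf1, -, hf2⟩ := exists_fun_fin_finrank_span_eq (ZMod 2) (Y : Set V)
  exact ⟨fun i => f (finCongr hY.symm i), fun i => hf1 _, hf2.comp _ (finCongr hY.symm).injective⟩

/-- the codes of a set -/
noncomputable def tfN {m : ℕ} [DecidableEq V] (b : Fin m → V) (Y : Finset V) : Finset ℕ :=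
  (Finset.range (2 ^ m)).filter fun n => comb b n ∈ Y

omit [Module (ZMod 2) V] in
lemma mem_tfN {m : ℕ} [DecidableEq V] {b : Fin m → V} {Y : Finset V} {n : ℕ} :
    n ∈ tfN b Y ↔ n < 2 ^ m ∧ comb b n ∈ Y := by
  simp [tfN]

lemma tf_card {m : ℕ} [DecidableEq V] {b : Fin m → V} (hb : LinearIndependent (ZMod 2) b)
    {Y : Finset V} (h : ∀ y ∈ Y, ∃ n < 2 ^ m, comb b n = y) : Y.card = (tfN b Y).card := by
  symm
  refine Finset.card_bij (fun n _ => comb b n) ?_ ?_ ?_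
  · intro n hn
    exact (mem_tfN.1 hn).2
  · intro x hx y hy hxy
    exact tf_inj hb (mem_tfN.1 hx).1 (mem_tfN.1 hy).1 hxy
  · intro y hy
    obtain ⟨n, hn, hny⟩ := h y hy
    exact ⟨n, mem_tfN.2 ⟨hn, by rw [hny]; exact hy⟩, hny⟩

lemma tf_tri {m : ℕ} [DecidableEq V] {b : Fin m → V} (hb : LinearIndependent (ZMod 2) b)
    {Y : Finset V} (h : ∀ y ∈ Y, ∃ n < 2 ^ m, comb b n = y) :
    tri Y = ((tfN b Y ×ˢ tfN b Y).filter (fun p => p.1 ^^^ p.2 ∈ tfN b Y)).card := by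
  symm
  unfold tri
  refine Finset.card_bij (fun p _ => (comb b p.1, comb b p.2)) ?_ ?_ ?_
  · rintro ⟨x, y⟩ hp
    simp only [Finset.mem_filter, Finset.mem_product, mem_tfN] at hp ⊢
    refine ⟨⟨hp.1.1.2, hp.1.2.2⟩, ?_⟩
    rw [← comb_xor]
    exact hp.2.2
  · rintro ⟨x, y⟩ hp ⟨x', y'⟩ hp' hxy
    simp only [Finset.mem_filter, Finset.mem_product, mem_tfN] at hp hp'
    simp only [Prod.mk.injEq] at hxy ⊢
    exact ⟨tf_inj hb hp.1.1.1 hp'.1.1.1 hxy.1, tf_inj hb hp.1.2.1 hp'.1.2.1 hxy.2⟩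
  · rintro ⟨u, v⟩ huv
    simp only [Finset.mem_filter, Finset.mem_product] at huv
    obtain ⟨x, hx, rfl⟩ := h u huv.1.1
    obtain ⟨y, hy, rfl⟩ := h v huv.1.2
    refine ⟨(x, y), ?_, rfl⟩
    simp only [Finset.mem_filter, Finset.mem_product, mem_tfN]
    refine ⟨⟨⟨hx, huv.1.1⟩, ⟨hy, huv.1.2⟩⟩, Nat.xor_lt_two_pow hx hy, ?_⟩
    rw [comb_xor]
    exact huv.2

/-- vectors with codes in the span of three codes are in the span of the three vectors -/
lemma tf_mem_span {m : ℕ} (b : Fin m → V) (h : ℕ × ℕ × ℕ) {n : ℕ} (hn : n ∈ tfSp h) :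
    comb b n ∈ span (ZMod 2) (Set.range ![comb b h.1, comb b h.2.1, comb b h.2.2]) := by
  have h0 : comb b h.1 ∈ span (ZMod 2) (Set.range ![comb b h.1, comb b h.2.1, comb b h.2.2]) :=
    subset_span ⟨0, rfl⟩
  have h1 : comb b h.2.1 ∈ span (ZMod 2) (Set.range ![comb b h.1, comb b h.2.1, comb b h.2.2]) :=
    subset_span ⟨1, rfl⟩
  have h2 : comb b h.2.2 ∈ span (ZMod 2) (Set.range ![comb b h.1, comb b h.2.1, comb b h.2.2]) :=
    subset_span ⟨2, rfl⟩
  simp only [tfSp, List.mem_cons, List.not_mem_nil, or_false] at hn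
  rcases hn with rfl | rfl | rfl | rfl | rfl | rfl | rfl | rfl
  · rw [comb_zero]; exact zero_mem _
  · exact h0
  · exact h1
  · rw [comb_xor]; exact add_mem h0 h1
  · exact h2
  · rw [comb_xor]; exact add_mem h0 h2
  · rw [comb_xor]; exact add_mem h1 h2
  · rw [comb_xor, comb_xor]; exact add_mem h0 (add_mem h1 h2)

/-- three independent codes -/
def tfInd (h : ℕ × ℕ × ℕ) : Bool := (tfSp h).tail.all fun n => n != 0

lemma tf_indep {m : ℕ} {b : Fin m → V} (hb : LinearIndependent (ZMod 2) b) {h : ℕ × ℕ × ℕ}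
    (h1 : h.1 < 2 ^ m) (h2 : h.2.1 < 2 ^ m) (h3 : h.2.2 < 2 ^ m) (hi : tfInd h = true) :
    LinearIndependent (ZMod 2) ![comb b h.1, comb b h.2.1, comb b h.2.2] := by
  simp only [tfInd, tfSp, List.tail_cons, List.all_cons, List.all_nil, Bool.and_true,
    Bool.and_eq_true, bne_iff_ne] at hi
  obtain ⟨i1, i2, i3, i4, i5, i6, i7⟩ := hi
  rw [Fintype.linearIndependent_iff]
  intro c hc
  rw [Fin.sum_univ_three] at hc
  simp only [Matrix.cons_val_zero, Matrix.cons_val_one, Matrix.cons_val] at hc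
  have hz : ∀ n < 2 ^ m, n ≠ 0 → comb b n ≠ 0 := fun n hn hn0 h => hn0 (tf_zero_imp hb n hn h)
  have hcases : ∀ x : ZMod 2, x = 0 ∨ x = 1 := by decide
  rcases hcases (c 0) with e0 | e0 <;> rcases hcases (c 1) with e1 | e1 <;>
    rcases hcases (c 2) with e2 | e2 <;>
    simp only [e0, e1, e2, zero_smul, one_smul, zero_add, add_zero] at hc
  · intro i; fin_cases i <;> assumption
  · exact absurd hc (hz _ h3 i4)
  · exact absurd hc (hz _ h2 i2)
  · rw [← comb_xor] at hc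
    exact absurd hc (hz _ (Nat.xor_lt_two_pow h2 h3) i6)
  · exact absurd hc (hz _ h1 i1)
  · rw [← comb_xor] at hc
    exact absurd hc (hz _ (Nat.xor_lt_two_pow h1 h3) i5)
  · rw [← comb_xor] at hc
    exact absurd hc (hz _ (Nat.xor_lt_two_pow h1 h2) i3)
  · rw [← comb_xor, ← comb_xor, Nat.xor_assoc] at hc
    exact absurd hc (hz _ (Nat.xor_lt_two_pow h1 (Nat.xor_lt_two_pow h2 h3)) i7)

/-- a plane contains at most five codes -/
lemma tf_plane {m : ℕ} [FiniteDimensional (ZMod 2) V] [DecidableEq V] {b : Fin m → V}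
    (hb : LinearIndependent (ZMod 2) b) {Y : Finset V} (hK : K4F (Y : Set V)) {h : ℕ × ℕ × ℕ}
    (h1 : h.1 < 2 ^ m) (h2 : h.2.1 < 2 ^ m) (h3 : h.2.2 < 2 ^ m) (hi : tfInd h = true) :
    ((tfN b Y).filter (fun n => n ∈ tfSp h)).card ≤ 5 := by
  have hli := tf_indep hb h1 h2 h3 hi
  set U := span (ZMod 2) (Set.range ![comb b h.1, comb b h.2.1, comb b h.2.2]) with hU
  have hUr : finrank (ZMod 2) U = 3 := by
    have := finrank_span_eq_card hli
    simpa using this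
  have h5 := hK U hUr
  refine le_trans ?_ h5
  have hfin : ((Y : Set V) ∩ (U : Set V)).Finite := (Finset.finite_toSet Y).inter_of_left _
  rw [← Set.ncard_coe_finset]
  refine Set.ncard_le_ncard_of_injOn (fun n => comb b n) ?_ ?_ hfin
  · intro n hn
    rw [Finset.mem_coe, Finset.mem_filter, mem_tfN] at hn
    exact ⟨hn.1.2, tf_mem_span b h hn.2⟩
  · intro x hx y hy hxy
    rw [Finset.mem_coe, Finset.mem_filter, mem_tfN] at hx hy
    exact tf_inj hb hx.1.1 hy.1.1 hxy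

end transport

/-- number of codes below 16 in a mask -/
def tfPop (M : ℕ) : ℕ := ((List.range 16).filter (fun n => M.testBit n)).length

/-- number of pairs of codes below 16 in a mask with sum in the mask -/
def tfTri (M : ℕ) : ℕ :=
  ((List.range 16 ×ˢ List.range 16).filter
    (fun p => M.testBit p.1 && M.testBit p.2 && M.testBit (p.1 ^^^ p.2))).length

/-- some plane contains six codes of the mask -/
def tfBad (P : List (ℕ × ℕ × ℕ)) (M : ℕ) : Bool :=
  P.any fun h => decide (6 ≤ ((tfSp h).filter (fun n => M.testBit n)).length)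

/-- the check of all extensions of a mask by the codes of a list -/
def tfGo (P : List (ℕ × ℕ × ℕ)) (fin : ℕ → Bool) : List ℕ → ℕ → Bool
  | [], M => fin M
  | c :: l, M => tfGo P fin l M &&
      (tfBad P (M ||| (1 <<< c)) || tfGo P fin l (M ||| (1 <<< c)))

lemma tf_testBit_or (M c n : ℕ) :
    (M ||| (1 <<< c)).testBit n = true ↔ M.testBit n = true ∨ n = c := by
  rw [Nat.testBit_or, Nat.testBit_shiftLeft]
  simp only [Bool.or_eq_true, Bool.and_eq_true, decide_eq_true_eq,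
    Nat.testBit_one_eq_true_iff_self_eq_zero]
  constructor
  · rintro (h | ⟨h1, h2⟩)
    · exact Or.inl h
    · exact Or.inr (by omega)
  · rintro (h | h)
    · exact Or.inl h
    · exact Or.inr ⟨by omega, by omega⟩

lemma tf_bad {P : List (ℕ × ℕ × ℕ)} {N : Finset ℕ} (hnd : ∀ h ∈ P, (tfSp h).Nodup)
    (hN : ∀ h ∈ P, (N.filter (fun n => n ∈ tfSp h)).card ≤ 5) {M : ℕ}
    (hM : ∀ n, M.testBit n = true → n ∈ N) : tfBad P M = false := by
  by_contra hb
  rw [Bool.not_eq_false, tfBad, List.any_eq_true] at hb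
  obtain ⟨h, hP, h6⟩ := hb
  rw [decide_eq_true_eq] at h6
  have h5 := hN h hP
  have h7 : ((tfSp h).filter (fun n => M.testBit n)).toFinset.card
      = ((tfSp h).filter (fun n => M.testBit n)).length :=
    List.toFinset_card_of_nodup ((hnd h hP).filter _)
  have h8 : ((tfSp h).filter (fun n => M.testBit n)).toFinset
      ⊆ N.filter (fun n => n ∈ tfSp h) := by
    intro n hn
    rw [List.mem_toFinset, List.mem_filter] at hn
    exact Finset.mem_filter.2 ⟨hM n hn.2, hn.1⟩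
  have := Finset.card_le_card h8
  omega

lemma tfGo_sound {P : List (ℕ × ℕ × ℕ)} {fin : ℕ → Bool} {N : Finset ℕ}
    (hnd : ∀ h ∈ P, (tfSp h).Nodup)
    (hN : ∀ h ∈ P, (N.filter (fun n => n ∈ tfSp h)).card ≤ 5) :
    ∀ (l : List ℕ) (M : ℕ), tfGo P fin l M = true → (∀ n, M.testBit n = true → n ∈ N) →
      (∀ n ∈ N, M.testBit n = true ∨ n ∈ l) →
      ∃ M', fin M' = true ∧ ∀ n, M'.testBit n = true ↔ n ∈ N := by
  intro l
  induction l with
  | nil =>
    intro M h h1 h2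
    refine ⟨M, h, fun n => ⟨h1 n, fun hn => ?_⟩⟩
    rcases h2 n hn with h3 | h3
    · exact h3
    · simp at h3
  | cons c l ih =>
    intro M h h1 h2
    rw [tfGo, Bool.and_eq_true, Bool.or_eq_true] at h
    by_cases hc : c ∈ N
    · have h3 : ∀ n, (M ||| (1 <<< c)).testBit n = true → n ∈ N := by
        intro n hn
        rcases (tf_testBit_or M c n).1 hn with h4 | h4
        · exact h1 n h4
        · rw [h4]; exact hc
      rcases h.2 with h4 | h4
      · rw [tf_bad hnd hN h3] at h4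
        exact absurd h4 Bool.false_ne_true
      · refine ih _ h4 h3 ?_
        intro n hn
        rw [tf_testBit_or]
        rcases h2 n hn with h5 | h5
        · exact Or.inl (Or.inl h5)
        · rcases List.mem_cons.1 h5 with h6 | h6
          · exact Or.inl (Or.inr h6)
          · exact Or.inr h6
    · refine ih _ h.1 h1 ?_
      intro n hn
      rcases h2 n hn with h5 | h5
      · exact Or.inl h5
      · rcases List.mem_cons.1 h5 with h6 | h6
        · exact absurd (h6 ▸ hn) hc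
        · exact Or.inr h6

lemma tf_pop {M : ℕ} {N : Finset ℕ} (hN : ∀ n ∈ N, n < 16)
    (hM : ∀ n, M.testBit n = true ↔ n ∈ N) : N.card = tfPop M := by
  have h1 : N = ((List.range 16).filter (fun n => M.testBit n)).toFinset := by
    ext n
    rw [List.mem_toFinset, List.mem_filter, List.mem_range, hM]
    exact ⟨fun h => ⟨hN n h, h⟩, fun h => h.2⟩
  rw [tfPop, ← List.toFinset_card_of_nodup ((List.nodup_range).filter _), ← h1]

lemma tf_triM {M : ℕ} {N : Finset ℕ} (hN : ∀ n ∈ N, n < 16)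
    (hM : ∀ n, M.testBit n = true ↔ n ∈ N) :
    ((N ×ˢ N).filter (fun p => p.1 ^^^ p.2 ∈ N)).card = tfTri M := by
  have h1 : (N ×ˢ N).filter (fun p => p.1 ^^^ p.2 ∈ N)
      = ((List.range 16 ×ˢ List.range 16).filter
    (fun p => M.testBit p.1 && M.testBit p.2 && M.testBit (p.1 ^^^ p.2))).toFinset := by
    ext ⟨x, y⟩
    rw [List.mem_toFinset, List.mem_filter, Finset.mem_filter, Finset.mem_product,
      List.mem_product, List.mem_range, List.mem_range]
    simp only [Bool.and_eq_true, hM]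
    exact ⟨fun h => ⟨⟨hN x h.1.1, hN y h.1.2⟩, h.1, h.2⟩, fun h => h.2⟩
  rw [tfTri, ← List.toFinset_card_of_nodup
    (((List.nodup_range).product (List.nodup_range)).filter _), ← h1]

end Pool.Agent.WW

end

section

/-!
T7: counting lines in rank at most two.
-/

namespace Pool.Agent.WW

open Submodule Module

universe u

namespace TriLine

variable {V : Type u} [AddCommGroup V] [Module (ZMod 2) V]

lemma zc (c : ZMod 2) : c = 0 ∨ c = 1 := by
  revert c
  decide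

lemma smul_cases (c : ZMod 2) (x : V) : c • x = 0 ∨ c • x = x := by
  rcases zc c with rfl | rfl
  · left; exact zero_smul _ x
  · right; exact one_smul _ x

lemma add_self (x : V) : x + x = 0 := ZModModule.add_self x

lemma mem_pair {a b x : V} (h : x ∈ span (ZMod 2) ({a, b} : Set V)) :
    x = 0 ∨ x = a ∨ x = b ∨ x = a + b := by
  rw [Submodule.mem_span_pair] at h
  obtain ⟨s, t, rfl⟩ := h
  rcases smul_cases s a with h1 | h1 <;> rcases smul_cases t b with h2 | h2 <;> rw [h1, h2] <;> simp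

lemma finrank_pair [FiniteDimensional (ZMod 2) V] {a b : V} (ha : a ≠ 0) (hb : b ≠ 0)
    (hab : a ≠ b) : finrank (ZMod 2) ↥(span (ZMod 2) ({a, b} : Set V)) = 2 := by
  have hli : LinearIndependent (ZMod 2) ![a, b] := by
    rw [LinearIndependent.pair_iff]
    intro s t h
    rcases zc s with rfl | rfl <;> rcases zc t with rfl | rfl
    · exact ⟨rfl, rfl⟩
    · simp at h
      exact absurd h hb
    · simp at h
      exact absurd h ha
    · exfalso
      simp only [one_smul] at h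
      apply hab
      have h1 : a + b + b = b := by rw [h, zero_add]
      rwa [add_assoc, add_self, add_zero] at h1
  have h := finrank_span_eq_card hli
  have hr : Set.range ![a, b] = ({a, b} : Set V) := by
    ext x
    simp only [Set.mem_range, Fin.exists_fin_two, Set.mem_insert_iff, Set.mem_singleton_iff]
    simp [eq_comm]
  rw [hr, Fintype.card_fin] at h
  exact h

end TriLine

open TriLine in
theorem claimTriLine : ClaimTriLine.{u} := by
  intro V _ _ _ _ Y h0 hr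
  rcases Y.eq_empty_or_nonempty with rfl | ⟨a, ha⟩
  · simp [tri]
  have ha0 : a ≠ 0 := fun h => h0 (h ▸ ha)
  by_cases hY : ∀ b ∈ Y, b = a
  · have hYa : Y = {a} := by
      ext x
      rw [Finset.mem_singleton]
      exact ⟨hY x, fun h => h ▸ ha⟩
    have ht : tri ({a} : Finset V) = 0 := by
      unfold tri
      rw [Finset.card_eq_zero, Finset.filter_eq_empty_iff]
      rintro ⟨p, q⟩ hp
      rw [Finset.mem_product, Finset.mem_singleton, Finset.mem_singleton] at hp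
      simp only at hp ⊢
      rw [hp.1, hp.2, add_self, Finset.mem_singleton]
      exact fun h => ha0 h.symm
    rw [hYa, ht, Finset.coe_singleton, finrank_span_singleton ha0, Finset.card_singleton]
  · push Not at hY
    obtain ⟨b, hb, hba⟩ := hY
    have hb0 : b ≠ 0 := fun h => h0 (h ▸ hb)
    have h2 := finrank_pair ha0 hb0 (Ne.symm hba)
    have hle : span (ZMod 2) ({a, b} : Set V) ≤ span (ZMod 2) (Y : Set V) := by
      apply span_mono
      intro x hx
      rcases hx with rfl | hx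
      · exact ha
      · rw [Set.mem_singleton_iff] at hx
        subst hx
        exact hb
    have heq : span (ZMod 2) ({a, b} : Set V) = span (ZMod 2) (Y : Set V) :=
      Submodule.eq_of_le_of_finrank_le hle (by rw [h2]; exact hr)
    have hfr : finrank (ZMod 2) ↥(span (ZMod 2) (Y : Set V)) = 2 := by rw [← heq, h2]
    have hmem : ∀ x ∈ Y, x = a ∨ x = b ∨ x = a + b := by
      intro x hx
      have h1 : x ∈ span (ZMod 2) ({a, b} : Set V) := by
        rw [heq]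
        exact subset_span hx
      rcases mem_pair h1 with h | h
      · exact absurd (h ▸ hx) h0
      · exact h
    have hab0 : a + b ≠ a := fun h => hb0 (by simpa using h)
    have hab1 : a + b ≠ b := fun h => ha0 (by simpa using h)
    rw [hfr]
    by_cases hc : a + b ∈ Y
    · have hYe : Y = {a, b, a + b} := by
        ext x
        simp only [Finset.mem_insert, Finset.mem_singleton]
        constructor
        · exact hmem x
        · rintro (rfl | rfl | rfl)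
          · exact ha
          · exact hb
          · exact hc
      have hcard : Y.card = 3 := by
        rw [hYe]
        exact Finset.card_eq_three.mpr ⟨a, b, a + b, hba.symm, hab0.symm, hab1.symm, rfl⟩
      have ht : tri Y = Y.offDiag.card := by
        unfold tri
        congr 1
        ext ⟨p, q⟩
        simp only [Finset.mem_filter, Finset.mem_product, Finset.mem_offDiag]
        constructor
        · rintro ⟨⟨hp, hq⟩, hs⟩
          refine ⟨hp, hq, ?_⟩
          rintro rfl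
          rw [add_self] at hs
          exact h0 hs
        · rintro ⟨hp, hq, hpq⟩
          refine ⟨⟨hp, hq⟩, ?_⟩
          have e1 : a + (a + b) = b := by rw [← add_assoc, add_self, zero_add]
          have e2 : b + (a + b) = a := by rw [add_comm a b, ← add_assoc, add_self, zero_add]
          rcases hmem p hp with hp' | hp' | hp' <;> rcases hmem q hq with hq' | hq' | hq' <;>
            rw [hp', hq']
          · exact absurd (hp'.trans hq'.symm) hpq
          · exact hc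
          · rw [e1]; exact hb
          · rw [add_comm]; exact hc
          · exact absurd (hp'.trans hq'.symm) hpq
          · rw [e2]; exact ha
          · rw [add_comm, e1]; exact hb
          · rw [add_comm, e2]; exact ha
          · exact absurd (hp'.trans hq'.symm) hpq
      rw [ht, Finset.offDiag_card, hcard]
    · have hYe : Y = {a, b} := by
        ext x
        simp only [Finset.mem_insert, Finset.mem_singleton]
        constructor
        · intro hx
          rcases hmem x hx with h | h | h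
          · exact Or.inl h
          · exact Or.inr h
          · exact absurd (h ▸ hx) hc
        · rintro (rfl | rfl)
          · exact ha
          · exact hb
      have hcard : Y.card = 2 := by
        rw [hYe]
        exact Finset.card_pair hba.symm
      have ht : tri Y = 0 := by
        unfold tri
        rw [Finset.card_eq_zero, Finset.filter_eq_empty_iff]
        rintro ⟨p, q⟩ hp hs
        rw [Finset.mem_product] at hp
        simp only at hs hp
        rcases hmem p hp.1 with hp' | hp' | hp'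
        · rcases hmem q hp.2 with hq' | hq' | hq'
          · rw [hp', hq', add_self] at hs; exact h0 hs
          · rw [hp', hq'] at hs; exact hc hs
          · exact hc (hq' ▸ hp.2)
        · rcases hmem q hp.2 with hq' | hq' | hq'
          · rw [hp', hq', add_comm] at hs; exact hc hs
          · rw [hp', hq', add_self] at hs; exact h0 hs
          · exact hc (hq' ▸ hp.2)
        · exact hc (hp' ▸ hp.1)
      rw [ht, hcard]

end Pool.Agent.WW

end
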