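import Pool.Agent.Work.MP_a8f287_co.Bd.B02
import Pool.Agent.Work.MP_a8f287_co.Bd.B01

/-! Bundle of small proof modules (one section per former module). -/

section

/-!
Colouring across a separation with guts of dimension at most two.
-/

namespace Pool.Agent.WW

open Submodule Module

universe u

/-- the guts can be filled by a contraction of the side `H` -/
def ColSepFill {V : Type u} [AddCommGroup V] [Module (ZMod 2) V] (E : Set V)
    (S H : Submodule (ZMod 2) V) : Prop :=
  ∃ K : Submodule (ZMod 2) V, Gen (E ∩ (H : Set V)) K ∧ K ≤ H ∧ K ⊓ (S ⊓ H) = ⊥ ∧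
    ∀ u ∈ S ⊓ H, u ≠ 0 → Pres (E ∩ (H : Set V)) K u

/-- the exceptional side -/
def ColSepBad {V : Type u} [AddCommGroup V] [Module (ZMod 2) V] (E : Set V)
    (S H : Submodule (ZMod 2) V) : Prop :=
  ∃ x p q : V, p ∈ S ⊓ H ∧ q ∈ S ⊓ H ∧ p ≠ 0 ∧ q ≠ 0 ∧ p ≠ q ∧ x ∉ S ⊓ H ∧
    x ∈ H ∧ E ∩ (H : Set V) = {x, x + p, x + q}

theorem colSep_gen_mono {V : Type u} [AddCommGroup V] [Module (ZMod 2) V] {E F : Set V}
    {K : Submodule (ZMod 2) V} (h : Gen E K) (hEF : E ⊆ F) : Gen F K :=
  h.trans (span_mono (Set.inter_subset_inter_left _ hEF))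

theorem colSep_pres_mono {V : Type u} [AddCommGroup V] [Module (ZMod 2) V] {E F : Set V}
    {K : Submodule (ZMod 2) V} {v : V} (h : Pres E K v) (hEF : E ⊆ F) : Pres F K v := by
  obtain ⟨x, hx, hxv⟩ := h
  exact ⟨x, hEF hx, hxv⟩

theorem colSep_add_self {V : Type u} [AddCommGroup V] [Module (ZMod 2) V] (v : V) : v + v = 0 := by
  have : v + v = (2 : ZMod 2) • v := by rw [two_smul]
  rw [this]
  have h2 : (2 : ZMod 2) = 0 := by decide
  rw [h2, zero_smul]

/-- fill or exception -/
theorem colSep_or (h2 : ClaimFill.{u}) (h1 : ClaimFillOne.{u}) {V : Type u} [AddCommGroup V]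
    [Module (ZMod 2) V] [FiniteDimensional (ZMod 2) V] (E : Set V) (κ : ℕ)
    (S H : Submodule (ZMod 2) V) (h0 : (0 : V) ∉ E)
    (hL : Lk (E ∩ (H : Set V)) (S ⊓ H) H κ) (hκ : κ ≤ 2)
    (hd : finrank (ZMod 2) ↥(S ⊓ H) = κ) (hne : S ⊓ H ≠ H) :
    ColSepFill E S H ∨ ColSepBad E S H := by
  have hcase : κ = 0 ∨ κ = 1 ∨ κ = 2 := by omega
  rcases hcase with rfl | rfl | rfl
  · left
    refine ⟨⊥, bot_le, bot_le, bot_inf_eq _, ?_⟩
    intro v hv hv0
    exfalso
    rw [Submodule.finrank_eq_zero] at hd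
    rw [hd, Submodule.mem_bot] at hv
    exact hv0 hv
  · left
    exact h1 V (E ∩ (H : Set V)) (S ⊓ H) H hL hd hne
  · rcases h2 V (E ∩ (H : Set V)) (S ⊓ H) H hL hd hne (fun h => h0 h.1) with h | h
    · exact Or.inl h
    · obtain ⟨_, x, p, q, k1, k2, k3, k4, k5, k6, k7, k8⟩ := h
      exact Or.inr ⟨x, p, q, k1, k2, k3, k4, k5, k6, k7, k8⟩

/-- adding the guts to the side `S` keeps it free -/
theorem colSep_free (hRel : ClaimRel.{u}) {V : Type u} [AddCommGroup V]
    [Module (ZMod 2) V] [FiniteDimensional (ZMod 2) V] (E : Set V)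
    (S H : Submodule (ZMod 2) V) (hE : ¬ HasK5 E) (hF : ColSepFill E S H) :
    ¬ HasK5 ((E ∩ (S : Set V)) ∪ {u | u ∈ S ⊓ H ∧ u ≠ 0}) := by
  intro hk
  obtain ⟨K, k1, k2, k3, k4⟩ := hF
  refine hE (hRel V E _ K S (colSep_gen_mono k1 Set.inter_subset_left) ?_ ?_ ?_ hk)
  · rw [eq_bot_iff, ← k3]
    intro v hv
    exact ⟨hv.1, hv.2, k2 hv.1⟩
  · rintro v (hv | hv)
    · exact hv.2
    · exact hv.1.1
  · rintro v (hv | hv)
    · exact ⟨v, hv.1, by rw [colSep_add_self]; exact K.zero_mem⟩
    · exact colSep_pres_mono (k4 v hv.1 hv.2) Set.inter_subset_left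

/-- a functional vanishing on `S` with value one at `x` -/
theorem colSep_dual {V : Type u} [AddCommGroup V] [Module (ZMod 2) V] (S : Submodule (ZMod 2) V)
    (x : V) (hx : x ∉ S) : ∃ ψ : V →ₗ[ZMod 2] ZMod 2, (∀ v ∈ S, ψ v = 0) ∧ ψ x = 1 := by
  have h1 : S.mkQ x ≠ 0 := by
    rw [Submodule.mkQ_apply]
    intro h
    exact hx ((Submodule.Quotient.mk_eq_zero S).1 h)
  have h2 : ¬ ∀ φ : Module.Dual (ZMod 2) (V ⧸ S), φ (S.mkQ x) = 0 := fun h =>
    h1 ((Module.forall_dual_apply_eq_zero_iff (ZMod 2) (S.mkQ x)).1 h)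
  push Not at h2
  obtain ⟨φ, hφ⟩ := h2
  refine ⟨φ.comp S.mkQ, ?_, ?_⟩
  · intro v hv
    rw [LinearMap.comp_apply, Submodule.mkQ_apply, (Submodule.Quotient.mk_eq_zero S).2 hv, map_zero]
  · rw [LinearMap.comp_apply]
    have h3 : ∀ a : ZMod 2, a ≠ 0 → a = 1 := by decide
    exact h3 _ hφ

/-- a colour different from three given ones -/
theorem colSep_colour (a b : Fin 4 → ZMod 2) : ∃ c : Fin 4 → ZMod 2, c ≠ 0 ∧ c ≠ a ∧ c ≠ b := by
  classical
  have h : ({0, a, b} : Finset (Fin 4 → ZMod 2)) ≠ Finset.univ := by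
    intro h
    have h1 := congrArg Finset.card h
    have h2 : (Finset.univ : Finset (Fin 4 → ZMod 2)).card = 16 := by
      rw [Finset.card_univ, Fintype.card_fun, ZMod.card, Fintype.card_fin]
      norm_num
    have h3 : ({0, a, b} : Finset (Fin 4 → ZMod 2)).card ≤ 3 := Finset.card_le_three
    omega
  obtain ⟨c, hc⟩ : ∃ c, c ∉ ({0, a, b} : Finset (Fin 4 → ZMod 2)) := by
    by_contra hcon
    push Not at hcon
    exact h (Finset.eq_univ_iff_forall.2 hcon)
  simp only [Finset.mem_insert, Finset.mem_singleton, not_or] at hc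
  exact ⟨c, hc.1, hc.2.1, hc.2.2⟩

/-- the exceptional case -/
theorem colSep_bad (hRel : ClaimRel.{u}) {V : Type u} [AddCommGroup V]
    [Module (ZMod 2) V] [FiniteDimensional (ZMod 2) V] (E : Set V)
    (S H : Submodule (ZMod 2) V) (h0 : (0 : V) ∉ E) (hE : ¬ HasK5 E) (hS : S ≠ ⊤)
    (hcov : ∀ x ∈ E, x ∈ S ∨ x ∈ H)
    (col : ∀ (X : Submodule (ZMod 2) V) (F : Set V), X ≠ ⊤ → (∀ x ∈ F, x ∈ X) → (0 : V) ∉ F →
      ¬ HasK5 F → ∃ f : V →ₗ[ZMod 2] (Fin 4 → ZMod 2), ∀ v ∈ F, f v ≠ 0)
    (hB : ColSepBad E S H) :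
    ∃ f : V →ₗ[ZMod 2] (Fin 4 → ZMod 2), ∀ v ∈ E, f v ≠ 0 := by
  obtain ⟨x, p, q, hp, hq, hp0, hq0, hpq, hxn, hxH, hEH⟩ := hB
  have hxS : x ∉ S := fun h => hxn ⟨h, hxH⟩
  have hxE : x ∈ E := by
    have : x ∈ E ∩ (H : Set V) := by rw [hEH]; simp
    exact this.1
  have hxp : x + p ∈ E := by
    have : x + p ∈ E ∩ (H : Set V) := by rw [hEH]; simp
    exact this.1
  have hxq : x + q ∈ E := by
    have : x + q ∈ E ∩ (H : Set V) := by rw [hEH]; simp
    exact this.1
  have hxx : ∀ v : V, (x + v) + v = x := fun v => by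
    rw [add_assoc, colSep_add_self, add_zero]
  have hfree : ¬ HasK5 ((E ∩ (S : Set V)) ∪ {p, q}) := by
    intro hk
    refine hE (hRel V E _ (span (ZMod 2) {x}) S ?_ ?_ ?_ ?_ hk)
    · apply span_mono
      intro v hv
      rw [Set.mem_singleton_iff] at hv
      subst hv
      exact ⟨hxE, mem_span_singleton_self v⟩
    · rw [eq_bot_iff]
      intro v hv
      rw [Submodule.mem_bot]
      obtain ⟨c, hc⟩ := mem_span_singleton.1 hv.1
      have h3 : ∀ a : ZMod 2, a = 0 ∨ a = 1 := by decide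
      rcases h3 c with rfl | rfl
      · rw [← hc, zero_smul]
      · exfalso
        rw [one_smul] at hc
        exact hxS (hc ▸ hv.2)
    · rintro v (hv | hv)
      · exact hv.2
      · rcases hv with rfl | rfl
        · exact hp.1
        · exact hq.1
    · rintro v (hv | hv)
      · exact ⟨v, hv.1, by rw [colSep_add_self]; exact Submodule.zero_mem _⟩
      · rcases hv with rfl | rfl
        · exact ⟨x + v, hxp, by rw [hxx]; exact mem_span_singleton_self x⟩
        · exact ⟨x + v, hxq, by rw [hxx]; exact mem_span_singleton_self x⟩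
  obtain ⟨f, hf⟩ := col S _ hS (by
    rintro v (hv | hv)
    · exact hv.2
    · rcases hv with rfl | rfl
      · exact hp.1
      · exact hq.1) (by
    rintro (hv | hv)
    · exact h0 hv.1
    · rcases hv with hv | hv
      · exact hp0 hv.symm
      · exact hq0 hv.symm) hfree
  obtain ⟨c, hc0, hcp, hcq⟩ := colSep_colour (f p) (f q)
  obtain ⟨ψ, hψS, hψx⟩ := colSep_dual S x hxS
  refine ⟨f + ψ.smulRight (c + f x), ?_⟩
  have hx' : (f + ψ.smulRight (c + f x)) x = c := by
    rw [LinearMap.add_apply, LinearMap.smulRight_apply, hψx, one_smul, add_comm c, ← add_assoc,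
      colSep_add_self, zero_add]
  have hS' : ∀ v ∈ S, (f + ψ.smulRight (c + f x)) v = f v := by
    intro v hv
    rw [LinearMap.add_apply, LinearMap.smulRight_apply, hψS v hv, zero_smul, add_zero]
  have hne : ∀ a b : Fin 4 → ZMod 2, a ≠ b → a + b ≠ 0 := by
    intro a b hab h
    apply hab
    calc a = (a + b) + b := by rw [add_assoc, colSep_add_self, add_zero]
      _ = b := by rw [h, zero_add]
  intro v hv
  rcases hcov v hv with hvS | hvH
  · rw [hS' v hvS]
    exact hf v (Or.inl ⟨hv, hvS⟩)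
  · have h1 : v ∈ E ∩ (H : Set V) := ⟨hv, hvH⟩
    rw [hEH] at h1
    rcases h1 with rfl | rfl | rfl
    · rw [hx']; exact hc0
    · rw [map_add, hx', hS' p hp.1]
      exact hne _ _ hcp
    · rw [map_add, hx', hS' q hq.1]
      exact hne _ _ hcq

/-- C4. -/
theorem claimColSep (hRel : ClaimRel.{u}) (hSep : ClaimLkSep.{u}) (h2 : ClaimFill.{u})
    (h1 : ClaimFillOne.{u}) (hG : ClaimGlue.{u}) : ClaimColSep.{u} := by
  intro V _ _ _ E κ S H h0 hE hsp hge hκ hS hH hcov hd col
  have h0' : (0 : V) ∉ (E : Set V) := h0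
  have hcov' : ∀ x ∈ (E : Set V), x ∈ S ∨ x ∈ H := hcov
  have hcov'' : ∀ x ∈ (E : Set V), x ∈ H ∨ x ∈ S := fun x hx => (hcov x hx).symm
  have hn : ∀ A B : Submodule (ZMod 2) V, A ≠ ⊤ → (∀ x ∈ (E : Set V), x ∈ A ∨ x ∈ B) →
      A ⊓ B ≠ B := by
    intro A B hA hc h
    apply hA
    rw [eq_top_iff, ← hsp, span_le]
    intro v hv
    rcases hc v hv with hv' | hv'
    · exact hv'
    · exact inf_eq_right.1 h hv'
  have hL1 := hSep V (E : Set V) S H κ hsp hge hS hH hcov'
  have hL2 := hSep V (E : Set V) H S κ hsp hge hH hS hcov''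
  have hd' : finrank (ZMod 2) ↥(H ⊓ S) = κ := by rw [inf_comm]; exact hd
  rcases colSep_or h2 h1 (E : Set V) κ S H h0' hL1 hκ hd (hn S H hS hcov') with hF1 | hB1
  · rcases colSep_or h2 h1 (E : Set V) κ H S h0' hL2 hκ hd' (hn H S hH hcov'') with hF2 | hB2
    · have f1 := colSep_free hRel (E : Set V) S H hE hF1
      have f2 := colSep_free hRel (E : Set V) H S hE hF2
      obtain ⟨f, hf⟩ := col S _ hS (by
        rintro v (hv | hv)
        · exact hv.2
        · exact hv.1.1) (by
        rintro (hv | hv)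
        · exact h0' hv.1
        · exact hv.2 rfl) f1
      obtain ⟨g, hg⟩ := col H _ hH (by
        rintro v (hv | hv)
        · exact hv.2
        · exact hv.1.1) (by
        rintro (hv | hv)
        · exact h0' hv.1
        · exact hv.2 rfl) f2
      obtain ⟨h, hh1, hh2⟩ := hG V 4 S H f g (fun x hx hx0 =>
        ⟨hf x (Or.inr ⟨hx, hx0⟩), hg x (Or.inr ⟨⟨hx.2, hx.1⟩, hx0⟩)⟩)
      refine ⟨h, fun v hv => ?_⟩
      rcases hcov v hv with hv' | hv'
      · rw [hh1 v hv']
        exact hf v (Or.inl ⟨hv, hv'⟩)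
      · exact hh2 v hv' (hg v (Or.inl ⟨hv, hv'⟩))
    · exact colSep_bad hRel (E : Set V) H S h0' hE hH hcov'' col hB2
  · exact colSep_bad hRel (E : Set V) S H h0' hE hS hcov' col hB1

end Pool.Agent.WW

end

section

/-!
Item C5: the reduction of the colouring theorem to the density bound.
-/

namespace Pool.Agent.WW

open Submodule Module

universe u

theorem colour_small {V : Type*} [AddCommGroup V] [Module (ZMod 2) V]
    [FiniteDimensional (ZMod 2) V] (h : finrank (ZMod 2) V ≤ 4) :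
    ∃ f : V →ₗ[ZMod 2] (Fin 4 → ZMod 2), Function.Injective f := by
  let b := finBasis (ZMod 2) V
  let g : V →ₗ[ZMod 2] (Fin 4 → ZMod 2) := b.constr (ZMod 2) fun i =>
    Pi.single (Fin.castLE h i) (1 : ZMod 2)
  refine ⟨g, ?_⟩
  have hli : LinearIndependent (ZMod 2)
      (fun i : Fin (finrank (ZMod 2) V) => (Pi.single (Fin.castLE h i) 1 : Fin 4 → ZMod 2)) :=
    (Pi.linearIndependent_single_one (Fin 4) (ZMod 2)).comp _ (Fin.castLE_injective h)
  rw [← LinearMap.ker_eq_bot, LinearMap.ker_eq_bot']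
  intro v hv
  have h1 : g v = ∑ i, b.repr v i • (Pi.single (Fin.castLE h i) 1 : Fin 4 → ZMod 2) := by
    rw [Basis.constr_apply_fintype]
    rfl
  rw [h1] at hv
  have h2 := Fintype.linearIndependent_iff.1 hli _ hv
  have h3 : b.repr v = 0 := by
    ext i
    exact h2 i
  simpa using h3

/-- colouring of a free set inside a proper subspace -/
theorem colour_sub {V : Type u} [AddCommGroup V] [Module (ZMod 2) V]
    [FiniteDimensional (ZMod 2) V]
    (ih : ∀ (W : Type u) [AddCommGroup W] [Module (ZMod 2) W] [FiniteDimensional (ZMod 2) W],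
      finrank (ZMod 2) W < finrank (ZMod 2) V → ∀ E : Finset W, (0 : W) ∉ E →
      ¬ HasK5 (E : Set W) → ∃ f : W →ₗ[ZMod 2] (Fin 4 → ZMod 2), ∀ v ∈ E, f v ≠ 0)
    (X : Submodule (ZMod 2) V) (F : Set V) (hX : X ≠ ⊤) (hF : ∀ x ∈ F, x ∈ X)
    (h0 : (0 : V) ∉ F) (hfree : ¬ HasK5 F) :
    ∃ f : V →ₗ[ZMod 2] (Fin 4 → ZMod 2), ∀ v ∈ F, f v ≠ 0 := by
  classical
  have hfin : Finite X := Module.finite_of_finite (ZMod 2)
  have : Fintype X := Fintype.ofFinite X
  let E : Finset X := Finset.univ.filter (fun x : X => (x : V) ∈ F)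
  have hE : ∀ x : X, x ∈ E ↔ (x : V) ∈ F := by
    intro x
    simp [E]
  obtain ⟨f, hf⟩ := ih X (Submodule.finrank_lt hX) E (fun h => h0 (by
    have := (hE 0).1 h
    simpa using this)) (fun h => hfree (by
      refine HasK5.of_map X.subtype (E : Set X) F ⊥ ?_ ?_ ?_ h
      · intro x hx
        rw [mem_bot] at hx
        rw [hx]
        exact zero_mem _
      · intro w hw
        rw [mem_bot] at hw
        exact Subtype.ext hw
      · intro w hw
        refine ⟨(w : V), (hE w).1 (by exact_mod_cast hw), ?_⟩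
        rw [mem_bot, Submodule.subtype_apply, ZModModule.add_self]))
  obtain ⟨g, hg⟩ := LinearMap.exists_extend f
  refine ⟨g, fun v hv => ?_⟩
  have h1 := LinearMap.congr_fun hg ⟨v, hF v hv⟩
  have h2 := hf ⟨v, hF v hv⟩ ((hE _).2 hv)
  rw [← h1] at h2
  exact h2

/-- C5: the reduction of the colouring theorem to the density bound -/
theorem claimColour (h3 : ClaimColGood.{u}) (h4 : ClaimColSep.{u}) : ClaimColour.{u} := by
  classical
  intro hD
  have key : ∀ n : ℕ, ∀ (V : Type u) [AddCommGroup V] [Module (ZMod 2) V]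
      [FiniteDimensional (ZMod 2) V], finrank (ZMod 2) V = n → ∀ E : Finset V, (0 : V) ∉ E →
      ¬ HasK5 (E : Set V) → ∃ f : V →ₗ[ZMod 2] (Fin 4 → ZMod 2), ∀ v ∈ E, f v ≠ 0 := by
    intro n
    induction n using Nat.strong_induction_on with
    | _ n ih =>
      intro V _ _ _ hn E h0 hfree
      have col := colour_sub (V := V) (fun W _ _ _ hW => ih _ (hn ▸ hW) W rfl)
      by_cases hspan : span (ZMod 2) (E : Set V) = ⊤
      · rcases Nat.lt_or_ge (finrank (ZMod 2) V) 5 with hdim | hdim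
        · obtain ⟨f, hf⟩ := colour_small (V := V) (by omega)
          refine ⟨f, fun v hv h => h0 ?_⟩
          have := hf (h.trans (map_zero f).symm)
          rwa [← this]
        · by_cases hVC : VC (E : Set V)
          · have hgood : Good (E : Set V) := ⟨by exact_mod_cast h0, hspan, hVC, hfree⟩
            have h5 := hD _ hdim V E hgood rfl
            refine h3 V E h0 (by omega) (by omega) ?_
            intro X hX
            obtain ⟨f, hf⟩ := col X ((E : Set V) ∩ X) hX (fun x hx => hx.2)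
              (fun h => h0 (by exact_mod_cast h.1)) (fun h => hfree (h.mono Set.inter_subset_left))
            exact ⟨f, fun v hv hvX => hf v ⟨by exact_mod_cast hv, hvX⟩⟩
          · unfold VC at hVC
            push Not at hVC
            obtain ⟨H, ⟨a, ha, haH⟩, ⟨b, hb, hbH, hbS⟩, hlt⟩ := hVC
            have hex : ∃ κ : ℕ, ∃ A B : Submodule (ZMod 2) V, A ≠ ⊤ ∧ B ≠ ⊤ ∧
                (∀ x ∈ E, x ∈ A ∨ x ∈ B) ∧ finrank (ZMod 2) ↥(A ⊓ B) = κ := by
              refine ⟨_, span (ZMod 2) ((E : Set V) \ (H : Set V)), H, ?_, ?_, ?_, rfl⟩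
              · intro h
                rw [h] at hbS
                exact hbS trivial
              · intro h
                rw [h] at haH
                exact haH trivial
              · intro x hx
                by_cases hxH : x ∈ H
                · exact Or.inr hxH
                · exact Or.inl (subset_span ⟨by exact_mod_cast hx, hxH⟩)
            obtain ⟨A, B, hA, hB, hcov, hr⟩ := Nat.find_spec hex
            have hmin : ∀ A B : Submodule (ZMod 2) V, A ≠ ⊤ → B ≠ ⊤ →
                (∀ x ∈ E, x ∈ A ∨ x ∈ B) → Nat.find hex ≤ finrank (ZMod 2) ↥(A ⊓ B) :=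
              fun A B h1 h2 h5 => Nat.find_min' hex ⟨A, B, h1, h2, h5, rfl⟩
            have hκ : Nat.find hex ≤ 2 := by
              have h6 := hmin (span (ZMod 2) ((E : Set V) \ (H : Set V))) H (by
                intro h
                rw [h] at hbS
                exact hbS trivial) (by
                intro h
                rw [h] at haH
                exact haH trivial) (by
                intro x hx
                by_cases hxH : x ∈ H
                · exact Or.inr hxH
                · exact Or.inl (subset_span ⟨by exact_mod_cast hx, hxH⟩))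
              omega
            exact h4 V E (Nat.find hex) A B h0 hfree hspan
              (fun A B h1 h2 h5 => hmin A B h1 h2 (fun x hx => h5 x (by exact_mod_cast hx))) hκ
              hA hB hcov hr col
      · obtain ⟨f, hf⟩ := col _ (E : Set V) hspan (fun x hx => subset_span hx)
          (by exact_mod_cast h0) hfree
        exact ⟨f, fun v hv => hf v (by exact_mod_cast hv)⟩
  intro V _ _ _ E h0 hfree
  exact key _ V rfl E h0 hfree

end Pool.Agent.WW

end

section

/-!
Extension of a colouring of a flat by matroid partition of the contraction.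
-/

namespace Pool.Agent.WW

open Submodule Module

universe u

/-- The dimension of a quotient of a subspace. -/
theorem ext_finrank {F V : Type*} [Field F] [AddCommGroup V] [Module F V]
    [FiniteDimensional F V] (X Y : Submodule F V) :
    finrank F ↥(Y.map X.mkQ) + finrank F X = finrank F ↥(X ⊔ Y) := by
  have h := LinearMap.finrank_range_add_finrank_ker (X.mkQ.domRestrict (X ⊔ Y))
  have h1 : LinearMap.range (X.mkQ.domRestrict (X ⊔ Y)) = Y.map X.mkQ := by
    rw [LinearMap.range_domRestrict, Submodule.map_sup, Submodule.mkQ_map_self, bot_sup_eq]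
  have h2 : finrank F (LinearMap.ker (X.mkQ.domRestrict (X ⊔ Y))) = finrank F X := by
    have h3 : LinearMap.ker (X.mkQ.domRestrict (X ⊔ Y)) = X.submoduleOf (X ⊔ Y) := by
      ext v
      rw [LinearMap.mem_ker, LinearMap.domRestrict_apply, Submodule.mkQ_apply,
        Submodule.Quotient.mk_eq_zero]
      rfl
    rw [h3]
    exact (Submodule.submoduleOfEquivOfLe le_sup_left).finrank_eq
  rw [h1, h2] at h
  exact h

/-- The dimension of the span of all choices, for the images under a linear map. -/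
theorem ext_rado {V W : Type*} [AddCommGroup V] [Module (ZMod 2) V] [AddCommGroup W]
    [Module (ZMod 2) W] [FiniteDimensional (ZMod 2) W] (k : ℕ) (π : V →ₗ[ZMod 2] W)
    (A : Finset V) :
    k * finrank (ZMod 2) ↥((span (ZMod 2) (A : Set V)).map π) ≤
      finrank (ZMod 2) (radoSpan (ZMod 2)
        (fun (e : V) (i : Fin k) => (Pi.single i (π e) : Fin k → W)) (fun _ => Finset.univ) A) := by
  classical
  set P := radoSpan (ZMod 2) (fun (e : V) (i : Fin k) => (Pi.single i (π e) : Fin k → W))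
        (fun _ => Finset.univ) A
  let L : (Fin k → ↥((span (ZMod 2) (A : Set V)).map π)) →ₗ[ZMod 2] (Fin k → W) :=
    ((span (ZMod 2) (A : Set V)).map π).subtype.compLeft (Fin k)
  have hL : Function.Injective L := by
    intro a b hab
    ext i
    have := congrFun hab i
    simpa [L] using this
  have hsingle : ∀ (i : Fin k) (v : W), v ∈ (span (ZMod 2) (A : Set V)).map π →
      (Pi.single i v : Fin k → W) ∈ P := by
    intro i v hv
    have hle : (span (ZMod 2) (A : Set V)).map π ≤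
        P.comap (LinearMap.single (ZMod 2) (fun _ => W) i) := by
      rw [Submodule.map_span, span_le]
      rintro _ ⟨e, he, rfl⟩
      exact mem_radoSpan (F := ZMod 2)
        (fun (e : V) (i : Fin k) => (Pi.single i (π e) : Fin k → W)) _ A he (Finset.mem_univ i)
    exact hle hv
  have hrange : LinearMap.range L ≤ P := by
    rintro _ ⟨g, rfl⟩
    have : L g = ∑ i, (Pi.single i (g i : W) : Fin k → W) := by
      rw [Finset.univ_sum_single]
      rfl
    rw [this]
    exact P.sum_mem (fun i _ => hsingle i _ (g i).2)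
  have h1 := Submodule.finrank_mono hrange
  rw [LinearMap.finrank_range_of_inj hL] at h1
  simpa [Module.finrank_pi_fintype] using h1

/-- C1. -/
theorem claimExt : ClaimExt.{u} := by
  classical
  intro V _ _ _ k E X f h
  rcases Nat.eq_zero_or_pos k with hk | hk
  · subst hk
    refine ⟨f, fun x _ => rfl, fun v hv hvX => ?_⟩
    have := h {v} (by simpa using hv) (by simpa using hvX)
    simp at this
  have : Nonempty (Fin k) := ⟨⟨0, hk⟩⟩
  set E' := E.filter (fun v => v ∉ X) with hE'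
  obtain ⟨c, -, hc⟩ := rado (F := ZMod 2)
    (fun (e : V) (i : Fin k) => (Pi.single i (X.mkQ e) : Fin k → V ⧸ X)) E' _
    (fun _ => Finset.univ) rfl (by
      intro A hA
      have h1 := h A (hA.trans (Finset.filter_subset _ _))
        (fun v hv => (Finset.mem_filter.1 (hA hv)).2)
      have h2 := ext_finrank X (span (ZMod 2) (A : Set V))
      have h3 := ext_rado k X.mkQ A
      rw [← h2, Nat.mul_add] at h1
      omega)
  obtain ⟨φ, hφ⟩ : ∃ φ : (Fin k → V ⧸ X) →ₗ[ZMod 2] ZMod 2,
      ∀ e : E', φ (Pi.single (c e) (X.mkQ (e : V))) = 1 + f e (c e) := by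
    obtain ⟨φ, hφ⟩ := LinearMap.exists_extend
      ((Finsupp.linearCombination (ZMod 2) (fun e : E' => (1 + f e (c e) : ZMod 2))) ∘ₗ hc.repr)
    refine ⟨φ, fun e => ?_⟩
    have h1 := LinearMap.congr_fun hφ ⟨Pi.single (c e) (X.mkQ (e : V)), subset_span ⟨e, rfl⟩⟩
    rw [LinearMap.comp_apply] at h1
    rw [LinearMap.comp_apply, hc.repr_eq_single e _ rfl, Finsupp.linearCombination_single,
      one_smul] at h1
    exact h1
  refine ⟨f + LinearMap.pi (fun i =>
    (φ.comp (LinearMap.single (ZMod 2) (fun _ => V ⧸ X) i)).comp X.mkQ), ?_, ?_⟩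
  · intro x hx
    have h0 : X.mkQ x = 0 := by
      rw [Submodule.mkQ_apply]
      exact (Submodule.Quotient.mk_eq_zero X).2 hx
    ext i
    simp [LinearMap.add_apply, LinearMap.pi_apply, LinearMap.comp_apply, h0]
  · intro v hv hvX h0
    have h1 := congrFun h0 (c v)
    have h2 := hφ ⟨v, Finset.mem_filter.2 ⟨hv, hvX⟩⟩
    rw [LinearMap.add_apply, Pi.add_apply, LinearMap.pi_apply, LinearMap.comp_apply,
      LinearMap.comp_apply, LinearMap.single_apply, h2] at h1
    simp only [Pi.zero_apply] at h1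
    have h3 : f v (c v) + f v (c v) = 0 := CharTwo.add_self_eq_zero _
    have h4 : (1 : ZMod 2) = 0 := by
      calc (1 : ZMod 2) = (f v (c v) + (1 + f v (c v))) - (f v (c v) + f v (c v)) := by ring
        _ = 0 := by rw [h1, h3, sub_zero]
    exact one_ne_zero h4

end Pool.Agent.WW

end

section

/-!
B5: filling the guts, dimension two.
-/

namespace Pool.Agent.WW

open Submodule Module

universe u

section

variable {V : Type*} [AddCommGroup V] [Module (ZMod 2) V]

theorem fill_scalar (c : ZMod 2) : c = 0 ∨ c = 1 := by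
  fin_cases c
  · exact Or.inl rfl
  · exact Or.inr rfl

theorem fill_single (p v : V) (h : v ∈ span (ZMod 2) ({p} : Set V)) : v = 0 ∨ v = p := by
  obtain ⟨c, rfl⟩ := mem_span_singleton.1 h
  rcases fill_scalar c with rfl | rfl
  · exact Or.inl (zero_smul _ _)
  · exact Or.inr (one_smul _ _)

/-- adding an element of `B` outside `U ⊔ K` to the contraction set -/
theorem fill_ext (B : Set V) (U T K : Submodule (ZMod 2) V) (hgen : Gen B K) (hKT : K ≤ T)
    (hKU : K ⊓ U = ⊥) (y : V) (hy : y ∈ B) (hyT : y ∈ T) (hyo : y ∉ U ⊔ K) :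
    Gen B (K ⊔ span (ZMod 2) {y}) ∧ K ⊔ span (ZMod 2) {y} ≤ T ∧
      (K ⊔ span (ZMod 2) {y}) ⊓ U = ⊥ := by
  refine ⟨?_, ?_, ?_⟩
  · refine sup_le ?_ ?_
    · refine le_trans hgen (span_mono ?_)
      exact Set.inter_subset_inter_right _ (fun a ha => mem_sup_left ha)
    · refine span_mono ?_
      intro a ha
      rw [Set.mem_singleton_iff] at ha
      subst ha
      exact ⟨hy, mem_sup_right (mem_span_singleton_self a)⟩
  · refine sup_le hKT (span_le.2 ?_)
    intro a ha
    rw [Set.mem_singleton_iff] at ha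
    subst ha
    exact hyT
  · rw [eq_bot_iff]
    rintro v ⟨hv, hvU⟩
    obtain ⟨k, hk, w, hw, rfl⟩ := mem_sup.1 hv
    rcases fill_single y w hw with rfl | rfl
    · rw [add_zero] at hvU ⊢
      have : k ∈ K ⊓ U := ⟨hk, hvU⟩
      rwa [hKU] at this
    · exfalso
      apply hyo
      have h1 : w = (k + w) + k := by
        rw [add_comm k w, add_assoc, link_char, add_zero]
      rw [h1]
      exact add_mem (mem_sup_left hvU) (mem_sup_right hk)

theorem fill_pres (B : Set V) (K K1 : Submodule (ZMod 2) V) (hK : K ≤ K1) (v w : V) (hw : w ∈ K1)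
    (h : Pres B K v) : Pres B K1 (v + w) := by
  obtain ⟨y, hy, hyv⟩ := h
  refine ⟨y, hy, ?_⟩
  rw [← add_assoc]
  exact add_mem (hK hyv) hw

theorem fill_pres_mono (B : Set V) (K K1 : Submodule (ZMod 2) V) (hK : K ≤ K1) (v : V)
    (h : Pres B K v) : Pres B K1 v := by
  obtain ⟨y, hy, hyv⟩ := h
  exact ⟨y, hy, hK hyv⟩

/-- the elements of a plane -/
theorem fill_plane [FiniteDimensional (ZMod 2) V] (U : Submodule (ZMod 2) V)
    (hU : finrank (ZMod 2) U = 2) (p q : V) (hp : p ∈ U) (hq : q ∈ U) (hp0 : p ≠ 0) (hq0 : q ≠ 0)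
    (hpq : p ≠ q) (u : V) (hu : u ∈ U) : u = 0 ∨ u = p ∨ u = q ∨ u = p + q := by
  have h1 : finrank (ZMod 2) ↥(span (ZMod 2) ({p} : Set V)) = 1 := finrank_span_singleton hp0
  have h2 : q ∉ span (ZMod 2) ({p} : Set V) := by
    intro h
    rcases fill_single p q h with h | h
    · exact hq0 h
    · exact hpq h.symm
  have h3 := link_rank_singleton _ q h2
  have h4 : span (ZMod 2) ({p} : Set V) ⊔ span (ZMod 2) ({q} : Set V) = U := by
    refine Submodule.eq_of_le_of_finrank_le ?_ ?_
    · refine sup_le (span_le.2 ?_) (span_le.2 ?_)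
      · rintro a rfl; exact hp
      · rintro a rfl; exact hq
    · rw [h3, h1, hU]
  rw [← h4] at hu
  obtain ⟨a, ha, b, hb, rfl⟩ := mem_sup.1 hu
  rcases fill_single p a ha with rfl | rfl <;> rcases fill_single q b hb with rfl | rfl
  · left; simp
  · right; right; left; simp
  · right; left; simp
  · right; right; right; rfl

/-- one element of the plane present, contraction of the opposite point of the star -/
theorem fill_side (B : Set V) (U T K : Submodule (ZMod 2) V) (hB : ∀ y ∈ B, y ∈ T)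
    (hgen : Gen B K) (hKT : K ≤ T) (hKU : K ⊓ U = ⊥) (x : V) (hx : x ∈ B) (hxo : x ∉ U ⊔ K)
    (p q : V) (hq : q ∈ U) (h1 : Pres B K (x + p)) (h2 : Pres B K (x + q)) (h3 : Pres B K p) :
    ∃ K1 : Submodule (ZMod 2) V, Gen B K1 ∧ K1 ≤ T ∧ K1 ⊓ U = ⊥ ∧ Pres B K1 p ∧ Pres B K1 q ∧
      Pres B K1 (p + q) := by
  obtain ⟨y, hy, hyK⟩ := h2
  have hyo : y ∉ U ⊔ K := by
    intro h
    apply hxo
    have e : x = (y + (x + q)) + y + q := by
      have : (y + (x + q)) + y + q = x + (y + y) + (q + q) := by abel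
      rw [this, link_char, link_char, add_zero, add_zero]
    rw [e]
    exact add_mem (add_mem (mem_sup_right hyK) h) (mem_sup_left hq)
  obtain ⟨g1, g2, g3⟩ := fill_ext B U T K hgen hKT hKU y hy (hB y hy) hyo
  have hxq : x + q ∈ K ⊔ span (ZMod 2) {y} := by
    have e : x + q = (y + (x + q)) + y := by
      have : (y + (x + q)) + y = x + q + (y + y) := by abel
      rw [this, link_char, add_zero]
    rw [e]
    exact add_mem (mem_sup_left hyK) (mem_sup_right (mem_span_singleton_self y))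
  refine ⟨K ⊔ span (ZMod 2) {y}, g1, g2, g3, ?_, ?_, ?_⟩
  · exact fill_pres_mono B K _ le_sup_left p h3
  · have := fill_pres B K _ le_sup_left x (x + q) hxq ⟨x, hx, by rw [link_char]; exact zero_mem _⟩
    rwa [← add_assoc, link_char, zero_add] at this
  · have := fill_pres B K _ le_sup_left (x + p) (x + q) hxq h1
    have e : x + p + (x + q) = p + q + (x + x) := by abel
    rwa [e, link_char, add_zero] at this

/-- the key lemma -/
theorem fill_key [FiniteDimensional (ZMod 2) V] (B : Set V) (U T K : Submodule (ZMod 2) V)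
    (hU : finrank (ZMod 2) U = 2) (hB : ∀ y ∈ B, y ∈ T)
    (hgen : Gen B K) (hKT : K ≤ T) (hKU : K ⊓ U = ⊥) (x : V) (hx : x ∈ B) (hxo : x ∉ U ⊔ K)
    (p q : V) (hp : p ∈ U) (hq : q ∈ U) (hp0 : p ≠ 0) (hq0 : q ≠ 0) (hpq : p ≠ q)
    (h1 : Pres B K (x + p)) (h2 : Pres B K (x + q))
    (h3 : (∃ z ∈ U, z ≠ 0 ∧ Pres B K z) ∨ Pres B K (x + (p + q))) :
    ∃ K1 : Submodule (ZMod 2) V, Gen B K1 ∧ K1 ≤ T ∧ K1 ⊓ U = ⊥ ∧
      ∀ u ∈ U, u ≠ 0 → Pres B K1 u := by
  have fin : (∃ K1 : Submodule (ZMod 2) V, Gen B K1 ∧ K1 ≤ T ∧ K1 ⊓ U = ⊥ ∧ Pres B K1 p ∧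
      Pres B K1 q ∧ Pres B K1 (p + q)) → ∃ K1 : Submodule (ZMod 2) V, Gen B K1 ∧ K1 ≤ T ∧
      K1 ⊓ U = ⊥ ∧ ∀ u ∈ U, u ≠ 0 → Pres B K1 u := by
    rintro ⟨K1, a1, a2, a3, a4, a5, a6⟩
    refine ⟨K1, a1, a2, a3, ?_⟩
    intro u hu hu0
    rcases fill_plane U hU p q hp hq hp0 hq0 hpq u hu with h | h | h | h
    · exact absurd h hu0
    · rw [h]; exact a4
    · rw [h]; exact a5
    · rw [h]; exact a6
  apply fin
  have top : Pres B (K ⊔ span (ZMod 2) {x}) (p + q) → ∃ K1 : Submodule (ZMod 2) V, Gen B K1 ∧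
      K1 ≤ T ∧ K1 ⊓ U = ⊥ ∧ Pres B K1 p ∧ Pres B K1 q ∧ Pres B K1 (p + q) := by
    intro h
    obtain ⟨g1, g2, g3⟩ := fill_ext B U T K hgen hKT hKU x hx (hB x hx) hxo
    have hxK : x ∈ K ⊔ span (ZMod 2) {x} := mem_sup_right (mem_span_singleton_self x)
    refine ⟨K ⊔ span (ZMod 2) {x}, g1, g2, g3, ?_, ?_, h⟩
    · have := fill_pres B K _ le_sup_left (x + p) x hxK h1
      have e : x + p + x = p + (x + x) := by abel
      rwa [e, link_char, add_zero] at this
    · have := fill_pres B K _ le_sup_left (x + q) x hxK h2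
      have e : x + q + x = q + (x + x) := by abel
      rwa [e, link_char, add_zero] at this
  rcases h3 with ⟨z, hz, hz0, hzP⟩ | h3
  · rcases fill_plane U hU p q hp hq hp0 hq0 hpq z hz with h | h | h | h
    · exact absurd h hz0
    · subst h
      exact fill_side B U T K hB hgen hKT hKU x hx hxo z q hq h1 h2 hzP
    · subst h
      obtain ⟨K1, a1, a2, a3, a4, a5, a6⟩ :=
        fill_side B U T K hB hgen hKT hKU x hx hxo z p hp h2 h1 hzP
      exact ⟨K1, a1, a2, a3, a5, a4, by rw [add_comm]; exact a6⟩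
    · subst h
      exact top (fill_pres_mono B K _ le_sup_left _ hzP)
  · apply top
    have := fill_pres B K (K ⊔ span (ZMod 2) {x}) le_sup_left (x + (p + q)) x
      (mem_sup_right (mem_span_singleton_self x)) h3
    have e : x + (p + q) + x = p + q + (x + x) := by abel
    rwa [e, link_char, add_zero] at this

/-- two distinct nonzero elements of a set with a span of dimension two -/
theorem fill_two [FiniteDimensional (ZMod 2) V] (S : Set V)
    (h : 2 ≤ finrank (ZMod 2) ↥(span (ZMod 2) S)) :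
    ∃ p ∈ S, ∃ q ∈ S, p ≠ 0 ∧ q ≠ 0 ∧ p ≠ q := by
  by_contra hn
  push Not at hn
  have key : ∃ p : V, span (ZMod 2) S ≤ span (ZMod 2) {p} := by
    by_cases h0 : ∃ p ∈ S, p ≠ 0
    · obtain ⟨p, hp, hp0⟩ := h0
      refine ⟨p, span_le.2 ?_⟩
      intro q hq
      by_cases hq0 : q = 0
      · rw [hq0]; exact zero_mem _
      · rw [← hn p hp q hq hp0 hq0]
        exact mem_span_singleton_self p
    · push Not at h0
      refine ⟨0, span_le.2 ?_⟩
      intro q hq
      rw [h0 q hq]
      exact zero_mem _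
  obtain ⟨p, hp⟩ := key
  have h1 := Submodule.finrank_mono hp
  have h2 : finrank (ZMod 2) ↥(span (ZMod 2) ({p} : Set V)) ≤ 1 := by
    have := link_rank_le (⊥ : Submodule (ZMod 2) V) {p}
    rwa [Finset.coe_singleton, Finset.card_singleton, bot_sup_eq, finrank_bot, zero_add] at this
  omega

end

theorem claimFill (h1 : ClaimTrick.{u}) (h2 : ClaimLkStar.{u}) : ClaimFill.{u} := by
  intro V _ _ _ B U T hLk hU hne h0B
  have hlt : finrank (ZMod 2) U < finrank (ZMod 2) T :=
    Submodule.finrank_lt_finrank_of_lt (lt_of_le_of_ne hLk.le hne)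
  by_cases h4 : 4 ≤ finrank (ZMod 2) T
  · left
    obtain ⟨K, x, hs, z, hz, hzD, hzP⟩ := h1 V B U T ⊥ 2 hLk (by omega) bot_le (by
      rw [finrank_bot])
    obtain ⟨p, hp, q, hq, hp0, hq0, hpq⟩ := fill_two _ hs.star
    exact fill_key B U T K hU hLk.sub hs.gen hs.le hs.disj x hs.mem hs.out p q hp.1 hq.1 hp0 hq0
      hpq hp.2 hq.2 (Or.inl ⟨z, hz, fun h => hzD (by rw [h]; exact zero_mem _), hzP⟩)
  · have h3 : finrank (ZMod 2) T = 3 := by omega
    obtain ⟨K, x, hs⟩ := h2 V B U T 2 hLk hne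
    have hK : K = ⊥ := by
      apply Submodule.finrank_eq_zero.1
      have := hs.rank
      omega
    subst hK
    obtain ⟨p, hp, q, hq, hp0, hq0, hpq⟩ := fill_two _ hs.star
    have hin : ∀ v : V, v ∈ B → Pres B ⊥ v := by
      intro v hv
      exact ⟨v, hv, by rw [link_char]; exact zero_mem _⟩
    have hout : ∀ v : V, Pres B ⊥ v → v ∈ B := by
      rintro v ⟨y, hy, hyv⟩
      rw [mem_bot] at hyv
      have : v = y := by
        have e : v = (y + v) + y := by
          have : (y + v) + y = v + (y + y) := by abel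
          rw [this, link_char, add_zero]
        rw [e, hyv, zero_add]
      rw [this]
      exact hy
    have hxU : x ∉ U := by
      have := hs.out
      rwa [sup_bot_eq] at this
    by_cases hc : (∃ z ∈ U, z ≠ 0 ∧ Pres B ⊥ z) ∨ Pres B ⊥ (x + (p + q))
    · left
      exact fill_key B U T ⊥ hU hLk.sub hs.gen hs.le hs.disj x hs.mem hs.out p q hp.1 hq.1 hp0 hq0
        hpq hp.2 hq.2 hc
    · right
      push Not at hc
      obtain ⟨hc1, hc2⟩ := hc
      refine ⟨h3, x, p, q, hp.1, hq.1, hp0, hq0, hpq, hxU, hLk.sub x hs.mem, ?_⟩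
      have hT : U ⊔ span (ZMod 2) {x} = T := by
        refine Submodule.eq_of_le_of_finrank_le ?_ ?_
        · refine sup_le hLk.le (span_le.2 ?_)
          rintro a rfl
          exact hLk.sub a hs.mem
        · rw [link_rank_singleton U x hxU, hU, h3]
      ext y
      simp only [Set.mem_insert_iff, Set.mem_singleton_iff]
      constructor
      · intro hy
        have hyT := hLk.sub y hy
        rw [← hT] at hyT
        obtain ⟨u, hu, w, hw, rfl⟩ := mem_sup.1 hyT
        rcases fill_single x w hw with rfl | rfl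
        · exfalso
          rw [add_zero] at hy
          exact hc1 u hu (fun h => h0B (by rw [← h]; exact hy)) (hin u hy)
        · rcases fill_plane U hU p q hp.1 hq.1 hp0 hq0 hpq u hu with h | h | h | h
          · left; rw [h, zero_add]
          · right; left; rw [h, add_comm]
          · right; right; rw [h, add_comm]
          · exfalso
            apply hc2
            rw [add_comm, ← h]
            exact hin _ hy
      · rintro (rfl | rfl | rfl)
        · exact hs.mem
        · exact hout _ hp.2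
        · exact hout _ hq.2

end Pool.Agent.WW

end

section

namespace Pool.Agent.WW

open Submodule Module

universe u

theorem fo_unique {V : Type*} [AddCommGroup V] [Module (ZMod 2) V]
    (U : Submodule (ZMod 2) V) (hU : finrank (ZMod 2) U = 1) (p q : V) (hp : p ∈ U) (hq : q ∈ U)
    (hp0 : p ≠ 0) (hq0 : q ≠ 0) : p = q := by
  have h1 := (finrank_eq_one_iff_of_nonzero' (⟨p, hp⟩ : U) (by
    intro h
    exact hp0 (congrArg Subtype.val h))).1 hU ⟨q, hq⟩
  obtain ⟨c, hc⟩ := h1
  have hc' : c • p = q := congrArg Subtype.val hc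
  have h2 : ∀ c : ZMod 2, c = 0 ∨ c = 1 := by decide
  rcases h2 c with h | h
  · rw [h, zero_smul] at hc'
    exact absurd hc'.symm hq0
  · rw [h, one_smul] at hc'
    exact hc'

theorem claimFillOne (h : ClaimLkStar.{u}) : ClaimFillOne.{u} := by
  intro V _ _ _ B U T hL hU hne
  obtain ⟨K, x, hS⟩ := h V B U T 1 hL hne
  have h2 : ∀ c : ZMod 2, c = 0 ∨ c = 1 := by decide
  -- a nonzero vector `p` of `U`
  obtain ⟨p, hpU, hp0, hp⟩ : ∃ p ∈ U, p ≠ 0 ∧ Pres B K (x + p) := by
    by_contra hn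
    push Not at hn
    have h1 : span (ZMod 2) {u : V | u ∈ U ∧ Pres B K (x + u)} = ⊥ := by
      rw [Submodule.span_eq_bot]
      rintro u ⟨huU, hu⟩
      by_contra h0
      exact hn u huU h0 hu
    have h3 := hS.star
    rw [h1, finrank_bot] at h3
    omega
  refine ⟨K ⊔ span (ZMod 2) {x}, ?_, ?_, ?_, ?_⟩
  · unfold Gen
    refine sup_le ?_ ?_
    · refine hS.gen.trans (span_mono ?_)
      rintro y ⟨hy, hyK⟩
      exact ⟨hy, mem_sup_left hyK⟩
    · rw [span_le]
      intro y hy
      rw [Set.mem_singleton_iff] at hy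
      subst hy
      exact subset_span ⟨hS.mem, mem_sup_right (mem_span_singleton_self _)⟩
  · refine sup_le hS.le ?_
    rw [span_le]
    intro y hy
    rw [Set.mem_singleton_iff] at hy
    subst hy
    exact hL.sub _ hS.mem
  · rw [eq_bot_iff]
    rintro y ⟨hy, hyU⟩
    obtain ⟨k, hk, z, hz, rfl⟩ := mem_sup.1 hy
    obtain ⟨c, rfl⟩ := mem_span_singleton.1 hz
    rcases h2 c with hc | hc
    · subst hc
      rw [zero_smul, add_zero] at hyU ⊢
      rw [← hS.disj]
      exact ⟨hk, hyU⟩
    · subst hc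
      rw [one_smul] at hyU
      exfalso
      apply hS.out
      have : x = (k + x) + (-k) := by abel
      rw [this]
      exact add_mem (mem_sup_left hyU) (mem_sup_right (K.neg_mem hk))
  · intro u hu hu0
    have : u = p := fo_unique U hU u p hu hpU hu0 hp0
    subst this
    obtain ⟨y0, hy0, hyK⟩ := hp
    refine ⟨y0, hy0, ?_⟩
    have h3 : y0 + u = (y0 + (x + u)) + x := by
      have h4 := r4_char x
      calc y0 + u = y0 + u + (x + x) := by rw [h4, add_zero]
        _ = (y0 + (x + u)) + x := by abel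
    rw [h3]
    exact add_mem (mem_sup_left hyK) (mem_sup_right (mem_span_singleton_self _))

end Pool.Agent.WW

end

section

/-!
D2: the guts of the separations of a maximal free superset are full lines.
-/

namespace Pool.Agent.WW

open Submodule Module

universe u

theorem fullLine_side {W : Type u} [AddCommGroup W] [Module (ZMod 2) W]
    [FiniteDimensional (ZMod 2) W] (hRel : ClaimRel.{u}) {S : Set W}
    {A B K' : Submodule (ZMod 2) W} (hS : ¬ HasK5 S) (hgen : Gen (S ∩ (B : Set W)) K')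
    (hle : K' ≤ B) (hdisj : K' ⊓ (A ⊓ B) = ⊥)
    (hpres : ∀ u ∈ A ⊓ B, u ≠ 0 → Pres (S ∩ (B : Set W)) K' u) :
    ¬ HasK5 ((S ∩ (A : Set W)) ∪ {k | k ∈ A ⊓ B ∧ k ≠ 0}) := by
  intro h
  apply hS
  refine hRel W S _ K' A ?_ ?_ ?_ ?_ h
  · intro x hx
    exact span_mono (Set.inter_subset_inter_left _ Set.inter_subset_left) (hgen hx)
  · rw [eq_bot_iff, ← hdisj]
    intro x hx
    exact ⟨hx.1, hx.2, hle hx.1⟩
  · rintro x (hx | hx)
    · exact hx.2
    · exact hx.1.1
  · rintro x (hx | hx)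
    · refine ⟨x, hx.1, ?_⟩
      rw [ZModModule.add_self]
      exact K'.zero_mem
    · obtain ⟨y, hy, hy2⟩ := hpres x hx.1 hx.2
      exact ⟨y, hy.1, hy2⟩

theorem claimFull (hRel : ClaimRel.{u}) (hSum : ClaimSum.{u}) (hSep : ClaimLkSep.{u})
    (hFill : ClaimFill.{u}) (hGe : ClaimSepGe.{u}) (hTri : ClaimNoTriad.{u}) :
    ClaimFull.{u} := by
  intro V _ _ _ _ W _ _ _ _ E π e S hGood h5 hsurj hker heE hmin hES hmax
  obtain ⟨h0, hfree, hmaxi⟩ := hmax
  obtain ⟨hspan, hge⟩ := (hGe V W E hGood h5).2 π e hsurj hker heE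
  have hspanS : span (ZMod 2) S = ⊤ := by
    rw [eq_top_iff, ← hspan]
    exact span_mono fun x hx => hES x hx
  have hgeS : SepGe S 2 := fun A B hA hB hc => hge A B hA hB fun x hx => hc x (hES x hx)
  -- one side
  have side : ∀ A B : Submodule (ZMod 2) W, A ≠ ⊤ → B ≠ ⊤ → (∀ x ∈ S, x ∈ A ∨ x ∈ B) →
      finrank (ZMod 2) ↥(A ⊓ B) = 2 →
      ¬ HasK5 ((S ∩ (A : Set W)) ∪ {k | k ∈ A ⊓ B ∧ k ≠ 0}) := by
    intro A B hA hB hc hd
    have hlk := hSep W S A B 2 hspanS hgeS hA hB hc
    have hne : A ⊓ B ≠ B := by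
      intro h
      apply hA
      have hBA : B ≤ A := by
        rw [← h]
        exact inf_le_left
      rw [eq_top_iff, ← hspanS, span_le]
      intro x hx
      rcases hc x hx with h1 | h1
      · exact h1
      · exact hBA h1
    rcases hFill W (S ∩ (B : Set W)) (A ⊓ B) B hlk hd hne (fun h => h0 h.1) with h | h
    · obtain ⟨K', h1, h2, h3, h4⟩ := h
      exact fullLine_side hRel hfree h1 h2 h3 h4
    · exfalso
      obtain ⟨hB3, x, p, q, hp, hq, hp0, hq0, hpq, hx, hxB, hset⟩ := h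
      refine hTri V W E π e A B x p q hGood h5 hsurj hker heE hmin hA hB
        (fun y hy => hc y (hES y hy)) hd hB3 hxB (fun h => hx ⟨h, hxB⟩) hp hq hp0 hq0 hpq ?_
      intro y hy hyB
      have h1 : y ∈ S ∩ (B : Set W) := ⟨hES y hy, hyB⟩
      rw [hset] at h1
      simpa using h1
  intro A B hAB
  obtain ⟨-, -, hA, hB, hc, hle⟩ := hAB
  have hc' : ∀ x ∈ S, x ∈ A ∨ x ∈ B := fun x hx => hc x hx mem_top
  have hd : finrank (ZMod 2) ↥(A ⊓ B) = 2 := le_antisymm hle (hgeS A B hA hB hc')
  refine ⟨hd, ?_⟩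
  have hN1 := side A B hA hB hc' hd
  have hN2 := side B A hB hA (fun x hx => (hc' x hx).symm) (by rw [inf_comm]; exact hd)
  have hN : ¬ HasK5 (S ∪ {k | k ∈ A ⊓ B ∧ k ≠ 0}) := by
    intro h
    have hcN : ∀ x ∈ S ∪ {k | k ∈ A ⊓ B ∧ k ≠ 0}, x ∈ A ∨ x ∈ B := by
      rintro x (hx | hx)
      · exact hc' x hx
      · exact Or.inl hx.1.1
    rcases hSum W (S ∪ {k | k ∈ A ⊓ B ∧ k ≠ 0}) A B hcN
      (fun k hk hk0 => Or.inr ⟨hk, hk0⟩) h with h1 | h1
    · apply hN1
      have h2 : (S ∪ {k | k ∈ A ⊓ B ∧ k ≠ 0}) ∩ (A : Set W) =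
          (S ∩ (A : Set W)) ∪ {k | k ∈ A ⊓ B ∧ k ≠ 0} := by
        ext x
        constructor
        · rintro ⟨h3 | h3, h4⟩
          · exact Or.inl ⟨h3, h4⟩
          · exact Or.inr h3
        · rintro (h3 | h3)
          · exact ⟨Or.inl h3.1, h3.2⟩
          · exact ⟨Or.inr h3, h3.1.1⟩
      rwa [h2] at h1
    · apply hN2
      have h2 : (S ∪ {k | k ∈ A ⊓ B ∧ k ≠ 0}) ∩ (B : Set W) =
          (S ∩ (B : Set W)) ∪ {k | k ∈ B ⊓ A ∧ k ≠ 0} := by
        ext x
        constructor
        · rintro ⟨h3 | h3, h4⟩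
          · exact Or.inl ⟨h3, h4⟩
          · exact Or.inr ⟨⟨h3.1.2, h3.1.1⟩, h3.2⟩
        · rintro (h3 | h3)
          · exact ⟨Or.inl h3.1, h3.2⟩
          · exact ⟨Or.inr ⟨⟨h3.1.2, h3.1.1⟩, h3.2⟩, h3.1.1⟩
      rwa [h2] at h1
  intro k hk hk0
  refine hmaxi k hk0 fun h => hN (h.mono ?_)
  rintro x (rfl | hx)
  · exact Or.inr ⟨hk, hk0⟩
  · exact Or.inl hx

end Pool.Agent.WW

end

section

/-!
Gluing of two colourings along the intersection of two subspaces.
-/

namespace Pool.Agent.WW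

open Submodule Module

universe u

/-- Two injective linear maps into a finite dimensional space differ by an automorphism. -/
theorem glueCol_aut {F K U : Type*} [Field F] [AddCommGroup K] [Module F K] [AddCommGroup U]
    [Module F U] [FiniteDimensional F U] (a b : K →ₗ[F] U) (ha : Function.Injective a)
    (hb : Function.Injective b) : ∃ τ : U ≃ₗ[F] U, ∀ x, τ (b x) = a x := by
  obtain ⟨q1, h1⟩ := Submodule.exists_isCompl (LinearMap.range b)
  obtain ⟨q2, h2⟩ := Submodule.exists_isCompl (LinearMap.range a)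
  have e1 : LinearMap.range b ≃ₗ[F] LinearMap.range a :=
    (LinearEquiv.ofInjective b hb).symm ≪≫ₗ (LinearEquiv.ofInjective a ha)
  have hq : finrank F q1 = finrank F q2 := by
    have k1 := Submodule.finrank_add_eq_of_isCompl h1
    have k2 := Submodule.finrank_add_eq_of_isCompl h2
    have k3 := e1.finrank_eq
    omega
  obtain ⟨e2⟩ : Nonempty (q1 ≃ₗ[F] q2) := FiniteDimensional.nonempty_linearEquiv_of_finrank_eq hq
  let e1' : LinearMap.range b ≃ₗ[F] LinearMap.range a :=
    (LinearEquiv.ofInjective b hb).symm ≪≫ₗ (LinearEquiv.ofInjective a ha)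
  refine ⟨(Submodule.prodEquivOfIsCompl _ _ h1).symm ≪≫ₗ (LinearEquiv.prodCongr e1' e2) ≪≫ₗ
    (Submodule.prodEquivOfIsCompl _ _ h2), ?_⟩
  intro x
  obtain ⟨y, hy⟩ : ∃ y : LinearMap.range b, y = ⟨b x, LinearMap.mem_range_self b x⟩ := ⟨_, rfl⟩
  have hy' : b x = (y : U) := by rw [hy]
  have h3 : (Submodule.prodEquivOfIsCompl _ _ h1).symm (b x) = (y, 0) := by
    rw [LinearEquiv.symm_apply_eq, hy']
    simp
  rw [LinearEquiv.trans_apply, LinearEquiv.trans_apply, h3]
  have h4 : (LinearEquiv.ofInjective b hb).symm y = x := by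
    rw [LinearEquiv.symm_apply_eq, hy]
    rfl
  simp [e1', h4]

/-- C2. -/
theorem claimGlue : ClaimGlue.{u} := by
  intro V _ _ _ k S H f g hK
  have hf : Function.Injective (f.domRestrict (S ⊓ H)) := by
    rw [injective_iff_map_eq_zero]
    intro x hx
    by_contra hne
    exact (hK x x.2 (fun h => hne (Subtype.ext h))).1 hx
  have hg : Function.Injective (g.domRestrict (S ⊓ H)) := by
    rw [injective_iff_map_eq_zero]
    intro x hx
    by_contra hne
    exact (hK x x.2 (fun h => hne (Subtype.ext h))).2 hx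
  obtain ⟨τ, hτ⟩ := glueCol_aut (f.domRestrict (S ⊓ H)) (g.domRestrict (S ⊓ H)) hf hg
  let a : V →ₗ.[ZMod 2] (Fin k → ZMod 2) := ⟨S, f.domRestrict S⟩
  let b : V →ₗ.[ZMod 2] (Fin k → ZMod 2) := ⟨H, (τ.toLinearMap ∘ₗ g).domRestrict H⟩
  have hab : ∀ (x : a.domain) (y : b.domain), (x : V) = y → a x = b y := by
    intro x y hxy
    have hx : (x : V) ∈ S ⊓ H := ⟨x.2, hxy ▸ y.2⟩
    have h1 := hτ ⟨x, hx⟩
    change f x = τ (g y)
    rw [← hxy]
    exact h1.symm
  obtain ⟨h, hh⟩ := LinearMap.exists_extend (a.sup b hab).toFun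
  refine ⟨h, ?_, ?_⟩
  · intro x hx
    have h1 := (LinearPMap.left_le_sup a b hab).2 (x := ⟨x, hx⟩)
      (y := ⟨x, (LinearPMap.left_le_sup a b hab).1 hx⟩) rfl
    have h2 := LinearMap.congr_fun hh ⟨x, (LinearPMap.left_le_sup a b hab).1 hx⟩
    exact h2.trans h1.symm
  · intro x hx hgx
    have h1 := (LinearPMap.right_le_sup a b hab).2 (x := ⟨x, hx⟩)
      (y := ⟨x, (LinearPMap.right_le_sup a b hab).1 hx⟩) rfl
    have h2 := LinearMap.congr_fun hh ⟨x, (LinearPMap.right_le_sup a b hab).1 hx⟩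
    have h3 : h x = τ (g x) := h2.trans h1.symm
    rw [h3]
    intro h0
    exact hgx ((LinearEquiv.map_eq_zero_iff τ).1 h0)

end Pool.Agent.WW

end

section

/-!
E10: the `P12` pieces, assembly.
-/

namespace Pool.Agent.WW

open Submodule Module

universe u

section HypAux

variable {W : Type u} [AddCommGroup W] [Module (ZMod 2) W] [FiniteDimensional (ZMod 2) W]

theorem hyp_ncard (P : Submodule (ZMod 2) W) :
    (P : Set W).ncard = 2 ^ finrank (ZMod 2) P := by
  have h := Module.natCard_eq_pow_finrank (K := ZMod 2) (V := P)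
  rw [Nat.card_zmod] at h
  rw [← h]
  rfl

omit [FiniteDimensional (ZMod 2) W] in
theorem hyp_disj {S : Set W} {L K : Submodule (ZMod 2) W} (hL : ∀ y ∈ L, y ∉ S)
    (hK : ∀ x ∈ K, x ≠ 0 → x ∈ S) : L ⊓ K = ⊥ := by
  rw [eq_bot_iff]
  rintro x ⟨hxL, hxK⟩
  rw [mem_bot]
  by_contra h
  exact hL x hxL (hK x hxK h)

theorem hyp_count {S : Set W} {Q G' : Submodule (ZMod 2) W} (X : Finset W)
    (h12 : (S ∩ (Q : Set W)).ncard = 12) (hK : finrank (ZMod 2) ↥(Q ⊓ G') = 2)
    (hKS : ∀ x ∈ Q ⊓ G', x ≠ 0 → x ∈ S) (hG' : finrank (ZMod 2) G' = 3)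
    (hXS : ∀ x ∈ X, x ∈ S) (hcov : ∀ x ∈ X, x ∈ Q ∨ x ∈ G') (hX : ∀ y ∈ Q ⊓ G', y ∉ X) :
    X.card ≤ 13 := by
  classical
  have hfin : Finite W := Module.finite_of_finite (ZMod 2)
  set K : Submodule (ZMod 2) W := Q ⊓ G' with hKdef
  have c1 : (K : Set W).ncard = 4 := by rw [hyp_ncard, hK]; norm_num
  have c2 : (G' : Set W).ncard = 8 := by rw [hyp_ncard, hG']; norm_num
  have c3 : ((K : Set W) \ {0}).ncard = 3 := by
    rw [Set.ncard_sdiff_singleton_of_mem (show (0 : W) ∈ (K : Set W) from zero_mem K), c1]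
  have hsub : (K : Set W) \ {0} ⊆ S ∩ (Q : Set W) := by
    rintro x ⟨hx, hx0⟩
    exact ⟨hKS x hx (by simpa using hx0), hx.1⟩
  have c4 : ((S ∩ (Q : Set W)) \ ((K : Set W) \ {0})).ncard = 9 := by
    have := Set.ncard_sdiff_add_ncard_of_subset hsub
    omega
  have c5 : ((G' : Set W) \ (K : Set W)).ncard = 4 := by
    have hs : (K : Set W) ⊆ (G' : Set W) := fun x hx => hx.2
    have := Set.ncard_sdiff_add_ncard_of_subset hs
    omega
  have hXsub : (X : Set W) ⊆ ((S ∩ (Q : Set W)) \ ((K : Set W) \ {0})) ∪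
      ((G' : Set W) \ (K : Set W)) := by
    intro x hx
    have hxK : x ∉ K := fun h => hX x h hx
    rcases hcov x hx with h | h
    · exact Or.inl ⟨⟨hXS x hx, h⟩, fun h' => hxK h'.1⟩
    · exact Or.inr ⟨h, hxK⟩
  have h1 := Set.ncard_le_ncard hXsub (Set.toFinite _)
  have h2 := Set.ncard_union_le ((S ∩ (Q : Set W)) \ ((K : Set W) \ {0}))
    ((G' : Set W) \ (K : Set W))
  rw [Set.ncard_coe_finset] at h1
  omega

end HypAux

theorem claimHyp (h5 : ClaimTwelve.{u}) (h1 : ClaimSepQ.{u}) (h2 : ClaimChain.{u})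
    (h7 : ClaimLeaf.{u}) (h9 : ClaimBranch.{u}) (hInv : ClaimInv.{u}) : ClaimHyp.{u} := by
  intro tL tB V _ _ _ _ W _ _ _ _ E π e S Q F F' hG hV hsurj hker he hES h0 hfree hFull hSep
    hKQ hQF hQ h12 hpt
  obtain ⟨L, hLQ, hL, hLS, hLn⟩ := (h5 W S Q h0 hfree hQ).2 h12
  -- a minimal pair
  have hex : ∃ n : ℕ, ∃ G G' : Submodule (ZMod 2) W, Sep S ⊤ G G' ∧ G ⊓ G' = F ⊓ F' ∧ Q ≤ G ∧
      finrank (ZMod 2) G = n := ⟨_, F, F', hSep, rfl, hQF, rfl⟩
  classical
  obtain ⟨G, G', hS, hGG, hQG, hn⟩ := Nat.find_spec hex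
  have hmin : ∀ H H' : Submodule (ZMod 2) W, Sep S ⊤ H H' → H ⊓ H' = G ⊓ G' → Q ≤ H →
      finrank (ZMod 2) G ≤ finrank (ZMod 2) H := by
    intro H H' hs hH hQH
    rw [hn]
    exact Nat.find_min' hex ⟨H, H', hs, hH.trans hGG, hQH, rfl⟩
  obtain ⟨hK2, hKS⟩ := hFull G G' hS
  obtain ⟨-, -, hGt, hGt', hcov, -⟩ := hS
  have hcovE : ∀ y ∈ contr π E, y ∈ G ∨ y ∈ G' := fun y hy => hcov y (hES y hy) mem_top
  have hLK : L ⊓ (G ⊓ G') = ⊥ := hyp_disj hLn hKS
  have hS : Sep S ⊤ G G' := ⟨le_top, le_top, hGt, hGt', hcov, hK2.le⟩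
  by_cases hGQ : G = Q
  · subst hGQ
    have hpt' : ∀ y ∈ G, y ∉ L → y ∉ G ⊓ G' → y ∈ contr π E := by
      intro y hy hyL hyK
      rw [hGG] at hyK
      exact hpt y (hLS y hy hyL) hy hyK
    obtain ⟨hG3, hno⟩ := h7 V W E π e G L G' tL hG hV hsurj hker he hQ hGt hGt' hcovE hK2 hL
      hLQ hLK hpt' (fun y hy h => hLn y hy (hES y h))
    have htop : G ⊔ G' = ⊤ := (hInv W S ⊤ ⊤ G G' hFull ⟨le_rfl, fun A B hAB =>
      ⟨A, B, hAB, inf_top_eq A, inf_top_eq B, rfl⟩⟩ hS).2.2
    have hdim := Submodule.finrank_sup_add_finrank_inf_eq G G'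
    rw [htop, finrank_top, hK2, hQ, hG3] at hdim
    refine ⟨by omega, ?_⟩
    exact hyp_count (contr π E) h12 hK2 hKS hG3 hES hcovE hno
  · exfalso
    have hKQ' : G ⊓ G' ≤ Q := by rw [hGG]; exact hKQ
    obtain ⟨F1, F1', hs1, hQ1, hK1, hne, hK12, hK1S⟩ := h2 W S Q G G' hFull hS hKQ' hQG
      (fun h => hGQ h.symm) (fun Z hQZ hne => h1 W S Q L Z h0 hfree hQ hL hLQ hLS hQZ hne) hmin
    obtain ⟨a1, a2, a3, a4, a5, a6⟩ := hs1
    have hLK1 : L ⊓ (F1 ⊓ F1') = ⊥ := hyp_disj hLn hK1S
    refine h9 V W E π e Q L G G' F1 F1' tB hG hV hsurj hker he hGt hGt' hcovE hKQ' hK2 a1 a2 a3 a4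
      (fun y hy hyG => a5 y (hES y hy) hyG) hQ1 hK1 hK12 hne hQ hL hLQ hLK hLK1 ?_
    intro y hy hyL hyK
    rw [hGG] at hyK
    exact hpt y (hLS y hy hyL) hy hyK

end Pool.Agent.WW

end

section

/-!
D3: inheritance of separations.
-/

namespace Pool.Agent.WW

open Submodule Module

universe u

section InvAux

variable {W : Type u} [AddCommGroup W] [Module (ZMod 2) W]

private lemma add_self_inv (v : W) : v + v = 0 := by
  have h : (2 : ZMod 2) = 0 := rfl
  rw [← two_smul (ZMod 2) v, h, zero_smul]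

theorem inv_sep_symm {S : Set W} {Z A B : Submodule (ZMod 2) W} (h : Sep S Z A B) : Sep S Z B A := by
  obtain ⟨h1, h2, h3, h4, h5, h6⟩ := h
  refine ⟨h2, h1, h4, h3, fun x hx hxZ => (h5 x hx hxZ).symm, ?_⟩
  rw [inf_comm]
  exact h6

/-- a subspace with all nonzero vectors in `S` is on one side of a covering of `S ∩ A` -/
theorem inv_side {S : Set W} {A A1 B1 K : Submodule (ZMod 2) W}
    (hcov : ∀ x ∈ S, x ∈ A → x ∈ A1 ∨ x ∈ B1) (hKA : K ≤ A) (hKS : ∀ x ∈ K, x ≠ 0 → x ∈ S) :
    K ≤ A1 ∨ K ≤ B1 := by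
  by_cases h : K ≤ A1
  · exact Or.inl h
  · right
    obtain ⟨p, hpK, hpA⟩ := Set.not_subset.1 h
    have hp0 : p ≠ 0 := fun h0 => hpA (by rw [h0]; exact zero_mem _)
    have hpB : p ∈ B1 := (hcov p (hKS p hpK hp0) (hKA hpK)).resolve_left hpA
    intro q hqK
    by_cases hq0 : q = 0
    · rw [hq0]; exact zero_mem _
    rcases hcov q (hKS q hqK hq0) (hKA hqK) with hqA | hqB
    · by_cases hpq : p + q = 0
      · have : q = p := by
          have h1 : q = (p + q) + p := by
            rw [add_comm p q, add_assoc, add_self_inv, add_zero]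
          rw [h1, hpq, zero_add]
        rw [this]; exact hpB
      · have hpqK : p + q ∈ K := add_mem hpK hqK
        rcases hcov _ (hKS _ hpqK hpq) (hKA hpqK) with h1 | h1
        · exfalso
          apply hpA
          have h2 : p = (p + q) + q := by rw [add_assoc, add_self_inv, add_zero]
          rw [h2]
          exact add_mem h1 hqA
        · have h2 : q = (p + q) + p := by
            rw [add_comm p q, add_assoc, add_self_inv, add_zero]
          rw [h2]
          exact add_mem h1 hpB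
    · exact hqB

theorem inv_sup {S : Set W} {G Z A B : Submodule (ZMod 2) W} (hF : Full S G) (hI : Inv S G Z)
    (hS : Sep S Z A B) : A ⊔ B = Z := by
  obtain ⟨h1, h2, h3, h4, h5, h6⟩ := hS
  by_contra hne
  have hZ : (⊥ : Submodule (ZMod 2) W) ≠ Z := by
    intro h
    apply h3
    rw [← h] at h1 ⊢
    exact le_bot_iff.1 h1
  have hsep : Sep S Z (A ⊔ B) ⊥ := by
    refine ⟨sup_le h1 h2, bot_le, hne, hZ, fun x hx hxZ => Or.inl ?_, ?_⟩
    · rcases h5 x hx hxZ with h | h
      · exact mem_sup_left h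
      · exact mem_sup_right h
    · rw [inf_bot_eq, finrank_bot]; omega
  obtain ⟨A', B', hs', _, _, hAB⟩ := hI.2 _ _ hsep
  have := (hF _ _ hs').1
  rw [hAB, inf_bot_eq, finrank_bot] at this
  omega

theorem inv_guts {S : Set W} {G Z A B : Submodule (ZMod 2) W} (hF : Full S G) (hI : Inv S G Z)
    (hS : Sep S Z A B) : ∀ x ∈ A ⊓ B, x ≠ 0 → x ∈ S := by
  obtain ⟨A', B', hs', _, _, hAB⟩ := hI.2 _ _ hS
  have := (hF _ _ hs').2
  rwa [hAB] at this

theorem inv_step {S : Set W} {G Z A B A1 B1 : Submodule (ZMod 2) W} (hI : Inv S G Z)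
    (hS : Sep S Z A B) (h1 : Sep S A A1 B1) (hK : A ⊓ B ≤ A1) :
    ∃ A' B' : Submodule (ZMod 2) W, Sep S G A' B' ∧ A' ⊓ A = A1 ∧ B' ⊓ A = B1 ∧
      A' ⊓ B' = A1 ⊓ B1 := by
  obtain ⟨sA, sB, nA, nB, hcov, hdim⟩ := hS
  obtain ⟨sA1, sB1, nA1, nB1, hcov1, hdim1⟩ := h1
  have hmod : (A1 ⊔ B) ⊓ A = A1 := by
    rw [sup_inf_assoc_of_le B sA1, inf_comm B A, sup_eq_left]
    exact hK
  have hinf : (A1 ⊔ B) ⊓ B1 = A1 ⊓ B1 := by
    have : (A1 ⊔ B) ⊓ B1 = ((A1 ⊔ B) ⊓ A) ⊓ B1 := by
      rw [inf_assoc, inf_eq_right.2 sB1]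
    rw [this, hmod]
  have hsep : Sep S Z (A1 ⊔ B) B1 := by
    refine ⟨sup_le (sA1.trans sA) sB, sB1.trans sA, ?_, ?_, ?_, ?_⟩
    · intro h
      apply nA1
      rw [← hmod, h]
      exact inf_eq_right.2 sA
    · intro h
      exact nB1 (le_antisymm sB1 (by rw [h]; exact sA))
    · intro x hx hxZ
      rcases hcov x hx hxZ with h | h
      · rcases hcov1 x hx h with h | h
        · exact Or.inl (mem_sup_left h)
        · exact Or.inr h
      · exact Or.inl (mem_sup_right h)
    · rw [hinf]; exact hdim1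
  obtain ⟨A', B', hs', hA', hB', hAB'⟩ := hI.2 _ _ hsep
  refine ⟨A', B', hs', ?_, ?_, hAB'.trans hinf⟩
  · calc A' ⊓ A = (A' ⊓ Z) ⊓ A := by rw [inf_assoc, inf_eq_right.2 sA]
      _ = A1 := by rw [hA', hmod]
  · calc B' ⊓ A = (B' ⊓ Z) ⊓ A := by rw [inf_assoc, inf_eq_right.2 sA]
      _ = B1 := by rw [hB']; exact inf_eq_left.2 sB1

theorem inv_one {S : Set W} {G Z A B : Submodule (ZMod 2) W} (hF : Full S G) (hI : Inv S G Z)
    (hS : Sep S Z A B) : Inv S G A := by
  refine ⟨hS.1.trans hI.1, fun A1 B1 h1 => ?_⟩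
  have hcov1 := h1.2.2.2.2.1
  rcases inv_side hcov1 (inf_le_left : A ⊓ B ≤ A) (inv_guts hF hI hS) with hK | hK
  · exact inv_step hI hS h1 hK
  · obtain ⟨A', B', hs', e1, e2, e3⟩ := inv_step hI hS (inv_sep_symm h1) hK
    refine ⟨B', A', inv_sep_symm hs', e2, e1, ?_⟩
    rw [inf_comm, e3, inf_comm]

end InvAux

theorem claimInv : ClaimInv.{u} := by
  intro W _ _ _ S G Z A B hF hI hS
  exact ⟨inv_one hF hI hS, inv_one hF hI (inv_sep_symm hS), inv_sup hF hI hS⟩

end Pool.Agent.WW

end

section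

/-!
# E7: the leaf case
-/

namespace Pool.Agent.WW

open Submodule Module

universe u

theorem leaf_finrank_comap {V W : Type*} [AddCommGroup V] [Module (ZMod 2) V]
    [AddCommGroup W] [Module (ZMod 2) W] [FiniteDimensional (ZMod 2) V]
    (π : V →ₗ[ZMod 2] W) (e : V) (hsurj : Function.Surjective π)
    (hker : ∀ v, π v = 0 ↔ v = 0 ∨ v = e) (he : e ≠ 0) (G : Submodule (ZMod 2) W) :
    finrank (ZMod 2) ↥(G.comap π) = finrank (ZMod 2) G + 1 := by
  have hk : LinearMap.ker π = span (ZMod 2) {e} := by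
    apply le_antisymm
    · intro v hv
      rcases (hker v).1 (LinearMap.mem_ker.1 hv) with h | h
      · rw [h]
        exact zero_mem _
      · rw [h]
        exact mem_span_singleton_self e
    · rw [span_singleton_le_iff_mem]
      exact LinearMap.mem_ker.2 ((hker e).2 (Or.inr rfl))
  have h1 := LinearMap.finrank_range_add_finrank_ker (π ∘ₗ (G.comap π).subtype)
  have h2 : LinearMap.range (π ∘ₗ (G.comap π).subtype) = G := by
    rw [LinearMap.range_comp, Submodule.range_subtype,
      Submodule.map_comap_eq_of_surjective hsurj]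
  have h3 : LinearMap.ker (π ∘ₗ (G.comap π).subtype) =
      (LinearMap.ker π).comap (G.comap π).subtype := LinearMap.ker_comp _ _
  have h4 : LinearMap.ker π ≤ G.comap π := by
    intro v hv
    change π v ∈ G
    rw [LinearMap.mem_ker.1 hv]
    exact G.zero_mem
  rw [h2, h3, LinearEquiv.finrank_eq (Submodule.comapSubtypeEquivOfLe h4), hk,
    finrank_span_singleton he] at h1
  exact h1.symm

/-- E7: the leaf case -/
theorem claimLeaf (hT : ClaimTrick.{u}) (hk : ClaimLkStar.{u}) (hs : ClaimLkSep.{u})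
    (hg : ClaimSepGe.{u}) (hc : ClaimLeafCore.{u}) : ClaimLeaf.{u} := by
  intro V _ _ _ _ W _ _ _ _ E π e Q L F' hTab hGood h5 hsurj hker heE hQ4 hQtop hF'top hcov hK2
    hL2 hLQ hLK hfull hLn
  have hsep : SepGe (E : Set V) 3 := (hg V W E hGood h5).1
  have he0 : e ≠ 0 := by
    rintro rfl
    exact hGood.zero heE
  have hdim := leaf_finrank_comap π e hsurj hker he0
  set Qt := Q.comap π with hQt
  set At := F'.comap π with hAt
  have hKt : (Q ⊓ F').comap π = Qt ⊓ At := Submodule.comap_inf Q F' π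
  have hKt3 : finrank (ZMod 2) ↥(Qt ⊓ At) = 3 := by
    rw [← hKt, hdim, hK2]
  have hne : ∀ G : Submodule (ZMod 2) W, G ≠ ⊤ → G.comap π ≠ ⊤ := by
    intro G hG hc
    apply hG
    have := Submodule.map_comap_eq_of_surjective hsurj G
    rw [hc, Submodule.map_top, LinearMap.range_eq_top.2 hsurj] at this
    exact this.symm
  have hQtt := hne Q hQtop
  have hAtt := hne F' hF'top
  have hmem : ∀ x ∈ E, π x = 0 ∨ π x ∈ contr π E := by
    intro x hx
    by_cases h0 : π x = 0
    · exact Or.inl h0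
    · exact Or.inr (Finset.mem_erase.2 ⟨h0, Finset.mem_image_of_mem π hx⟩)
  have hcovE : ∀ x ∈ (E : Set V), x ∈ Qt ∨ x ∈ At := by
    intro x hx
    rcases hmem x hx with h0 | h1
    · left
      change π x ∈ Q
      rw [h0]
      exact Q.zero_mem
    · exact hcov _ h1
  have hout : ∀ G : Submodule (ZMod 2) V, G ≠ ⊤ → ∃ a ∈ (E : Set V), a ∉ G := by
    intro G hG
    by_contra hcon
    push Not at hcon
    apply hG
    rw [eq_top_iff, ← hGood.span]
    exact span_le.2 hcon
  -- the spanning hypothesis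
  have hA0Q : span (ZMod 2) ((E : Set V) \ (At : Set V)) ≤ Qt :=
    span_le.2 fun x hx => (hcovE x hx.1).resolve_right hx.2
  have hvc : 3 ≤ finrank (ZMod 2) ↥(span (ZMod 2) ((E : Set V) \ (At : Set V)) ⊓ At) := by
    obtain ⟨b, hb, hbQ⟩ := hout Qt hQtt
    exact hGood.vc At (hout At hAtt)
      ⟨b, hb, (hcovE b hb).resolve_left hbQ, fun h => hbQ (hA0Q h)⟩
  have hKA0 : Qt ⊓ At ≤ span (ZMod 2) ((E : Set V) \ (At : Set V)) := by
    have h1 : span (ZMod 2) ((E : Set V) \ (At : Set V)) ⊓ At ≤ Qt ⊓ At := inf_le_inf_right At hA0Q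
    have h2 := Submodule.eq_of_le_of_finrank_le h1 (by rw [hKt3]; exact hvc)
    rw [← h2]
    exact inf_le_left
  have hsupt : span (ZMod 2) ((E : Set V) \ (At : Set V)) ⊔ At = ⊤ := by
    rw [eq_top_iff, ← hGood.span]
    refine span_le.2 fun x hx => ?_
    by_cases hxA : x ∈ At
    · exact mem_sup_right hxA
    · exact mem_sup_left (subset_span ⟨hx, hxA⟩)
  have hQA0 : Qt ≤ span (ZMod 2) ((E : Set V) \ (At : Set V)) := by
    have h1 : (span (ZMod 2) ((E : Set V) \ (At : Set V)) ⊔ At) ⊓ Qt =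
        span (ZMod 2) ((E : Set V) \ (At : Set V)) ⊔ At ⊓ Qt := sup_inf_assoc_of_le At hA0Q
    rw [hsupt, top_inf_eq, inf_comm At Qt, sup_eq_left.2 hKA0] at h1
    exact h1.le
  have hspan : Qt ≤ span (ZMod 2) {a : V | a ∈ E ∧ π a ∈ Q ∧ π a ∉ Q ⊓ F'} := by
    refine hQA0.trans (span_mono ?_)
    rintro a ⟨ha1, ha2⟩
    exact ⟨ha1, (hcovE a ha1).resolve_right ha2, fun h => ha2 h.2⟩
  have hLk : Lk ((E : Set V) ∩ (At : Set V)) (Qt ⊓ At) At 3 :=
    hs V E Qt At 3 hGood.span hsep hQtt hAtt hcovE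
  have heK : e ∈ Qt ⊓ At := by
    have h0 : π e = 0 := (hker e).2 (Or.inr rfl)
    constructor
    · change π e ∈ Q
      rw [h0]
      exact Q.zero_mem
    · change π e ∈ F'
      rw [h0]
      exact F'.zero_mem
  -- the core
  have hfin : ∀ (K' : Submodule (ZMod 2) V) (x z : V),
      StarAt ((E : Set V) ∩ (At : Set V)) (Qt ⊓ At) At 3 K' x → z ∈ Qt ⊓ At → z ≠ 0 → z ≠ e →
      Pres (E : Set V) K' z → False := by
    intro K' x z hS hz hz0 hze hP
    have hG : Gen (E : Set V) K' := by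
      refine hS.gen.trans (span_mono ?_)
      rintro v ⟨⟨hv1, -⟩, hv2⟩
      exact ⟨hv1, hv2⟩
    have hd : K' ⊓ Qt = ⊥ := by
      rw [eq_bot_iff, ← hS.disj]
      exact le_inf inf_le_left (le_inf inf_le_right (inf_le_left.trans hS.le))
    have hx : x ∉ Qt ⊔ K' := by
      intro h
      obtain ⟨q, hq, k, hkk, hxe⟩ := mem_sup.1 h
      apply hS.out
      refine mem_sup.2 ⟨q, ⟨hq, ?_⟩, k, hkk, hxe⟩
      have e1 : q = x + k := by
        rw [← hxe, add_assoc, link_char, add_zero]
      rw [e1]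
      exact At.add_mem hS.mem.2 (hS.le hkk)
    refine hGood.free (hc V W E π e Q L (Q ⊓ F') K' x z hTab hGood.zero hsurj hker heE hQ4 hL2 hK2
      hLQ inf_le_left hLK hfull hLn hspan hG hd hS.mem.1 hx ?_ (by rw [hKt]; exact hz) hz0 hze hP)
    refine hS.star.trans (Submodule.finrank_mono (span_mono ?_))
    rintro v ⟨hv1, w, hw1, hw2⟩
    rw [← hKt] at hv1
    exact ⟨hv1, w, hw1.1, hw2⟩
  have hup : finrank (ZMod 2) F' ≤ 3 := by
    by_contra hlt
    push Not at hlt
    obtain ⟨K', x, hS, z, hzU, hzD, hP⟩ := hT V ((E : Set V) ∩ (At : Set V)) (Qt ⊓ At) At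
      (span (ZMod 2) {e}) 3 hLk (by rw [hKt3, hdim]; omega)
      ((span_singleton_le_iff_mem _ _).2 heK) (by rw [finrank_span_singleton he0])
    refine hfin K' x z hS hzU ?_ ?_ ?_
    · rintro rfl
      exact hzD (zero_mem _)
    · rintro rfl
      exact hzD (mem_span_singleton_self z)
    · obtain ⟨w, hw1, hw2⟩ := hP
      exact ⟨w, hw1.1, hw2⟩
  have hlo : 3 ≤ finrank (ZMod 2) F' := by
    by_contra hlt
    push Not at hlt
    have h1 : Q ⊓ F' = F' := Submodule.eq_of_le_of_finrank_le inf_le_right (by omega)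
    have h2 : F' ≤ Q := inf_eq_right.1 h1
    apply hQtt
    rw [eq_top_iff, ← hGood.span]
    refine span_le.2 fun x hx => ?_
    rcases hcovE x hx with h3 | h3
    · exact h3
    · exact h2 h3
  refine ⟨le_antisymm hup hlo, fun y hy hyc => ?_⟩
  obtain ⟨hy0, hyi⟩ := Finset.mem_erase.1 hyc
  obtain ⟨z, hzE, hzy⟩ := Finset.mem_image.1 hyi
  have hUne : Qt ⊓ At ≠ At := by
    intro h
    have := hKt3
    rw [h, hdim] at this
    omega
  obtain ⟨K', x, hS⟩ := hk V _ _ _ 3 hLk hUne
  refine hfin K' x z hS ?_ ?_ ?_ ⟨z, hzE, ?_⟩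
  · rw [← hKt]
    change π z ∈ Q ⊓ F'
    rw [hzy]
    exact hy
  · rintro rfl
    exact hGood.zero hzE
  · rintro rfl
    apply hy0
    rw [← hzy]
    exact (hker z).2 (Or.inr rfl)
  · rw [link_char]
    exact zero_mem _

end Pool.Agent.WW

end

section

/-!
Item E6: the leaf configuration has an `M(K5)`-minor.
-/

namespace Pool.Agent.WW

open Submodule Module

universe u

section Aux

variable {V W : Type*} [AddCommGroup V] [Module (ZMod 2) V]
  [AddCommGroup W] [Module (ZMod 2) W]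

theorem lfc_cases (c : ZMod 2) : c = 0 ∨ c = 1 := by
  revert c; decide

theorem lfc_add_add (a b : V) : a + (a + b) = b := by
  rw [← add_assoc, ZModModule.add_self, zero_add]

theorem lfc_eq_of_add {a b : V} (h : a + b = 0) : a = b := by
  have := eq_neg_of_add_eq_zero_left h
  rwa [ZModModule.neg_eq_self] at this

/-- every vector of the span is a `comb` -/
theorem lfc_exists_comb {m : ℕ} (b : Fin m → V) (v : V)
    (hv : v ∈ span (ZMod 2) (Set.range b)) : ∃ n < 2 ^ m, v = comb b n := by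
  rw [Submodule.mem_span_range_iff_exists_fun] at hv
  obtain ⟨c, rfl⟩ := hv
  induction m with
  | zero => exact ⟨0, by norm_num, by simp [comb]⟩
  | succ m ih =>
    obtain ⟨n, hn, hn2⟩ := ih (fun i => b i.castSucc) (fun i => c i.castSucc)
    have h1 : ∀ k < 2 ^ m, comb b k = comb (fun i : Fin m => b i.castSucc) k := by
      intro k hk
      unfold comb
      rw [Fin.sum_univ_castSucc]
      have : (k.testBit ((Fin.last m : Fin (m + 1)) : ℕ)) = false := by
        rw [Fin.val_last]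
        exact Nat.testBit_lt_two_pow hk
      rw [this]
      simp
    have h2 : comb b (2 ^ m) = b (Fin.last m) := by
      unfold comb
      rw [Finset.sum_eq_single (Fin.last m)]
      · rw [Fin.val_last, Nat.testBit_two_pow_self]
        simp
      · intro i _ hi
        have : (2 ^ m).testBit (i : ℕ) = false := by
          rw [Nat.testBit_two_pow]
          have h3 : (i : ℕ) ≠ m := fun h => hi (Fin.ext (by rw [Fin.val_last]; exact h))
          simp [Ne.symm h3]
        rw [this]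
        simp
      · intro h
        exact absurd (Finset.mem_univ _) h
    rw [Fin.sum_univ_castSucc]
    rcases lfc_cases (c (Fin.last m)) with h | h
    · refine ⟨n, lt_trans hn (Nat.pow_lt_pow_right (by norm_num) (Nat.lt_succ_self m)), ?_⟩
      rw [h, zero_smul, add_zero, h1 n hn]
      exact hn2
    · refine ⟨n ^^^ 2 ^ m, ?_, ?_⟩
      · apply Nat.xor_lt_two_pow
        · exact lt_trans hn (Nat.pow_lt_pow_right (by norm_num) (Nat.lt_succ_self m))
        · exact Nat.pow_lt_pow_right (by norm_num) (Nat.lt_succ_self m)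
      · rw [comb_xor, h, one_smul, h1 n hn, h2, ← hn2]

theorem lfc_comb_mem {m : ℕ} (b : Fin m → V) (n : ℕ) :
    comb b n ∈ span (ZMod 2) (Set.range b) := by
  unfold comb
  refine Submodule.sum_mem _ fun i _ => ?_
  split_ifs
  · exact subset_span ⟨i, rfl⟩
  · exact zero_mem _

theorem lfc_comb_inj {m : ℕ} {b : Fin m → V} (hb : LinearIndependent (ZMod 2) b) (n : ℕ)
    (hn : n < 2 ^ m) (h : comb b n = 0) : n = 0 := by
  refine comb_mem_imp b ⊥ ?_ n hn (by rw [h]; exact zero_mem _)
  intro c hc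
  funext i
  exact Fintype.linearIndependent_iff.mp hb c ((mem_bot _).mp hc) i

omit [Module (ZMod 2) V] in
theorem lfc_comb_snoc {m : ℕ} (b : Fin m → V) (y : V) (n : ℕ) (hn : n < 2 ^ m) :
    comb (Fin.snoc b y : Fin (m + 1) → V) n = comb b n := by
  unfold comb
  rw [Fin.sum_univ_castSucc]
  have : (n.testBit ((Fin.last m : Fin (m + 1)) : ℕ)) = false := by
    rw [Fin.val_last]
    exact Nat.testBit_lt_two_pow hn
  rw [this]
  simp

omit [Module (ZMod 2) V] in
theorem lfc_comb_snoc_last {m : ℕ} (b : Fin m → V) (y : V) :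
    comb (Fin.snoc b y : Fin (m + 1) → V) (2 ^ m) = y := by
  unfold comb
  rw [Finset.sum_eq_single (Fin.last m)]
  · rw [Fin.val_last, Nat.testBit_two_pow_self]
    simp
  · intro i _ hi
    have : (2 ^ m).testBit (i : ℕ) = false := by
      rw [Nat.testBit_two_pow]
      have h3 : (i : ℕ) ≠ m := fun h => hi (Fin.ext (by rw [Fin.val_last]; exact h))
      simp [Ne.symm h3]
    rw [this]
    simp
  · intro h
    exact absurd (Finset.mem_univ _) h

/-- a basis of `Q` adapted to two complementary lines -/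
theorem lfc_basis [FiniteDimensional (ZMod 2) W] (Q L K : Submodule (ZMod 2) W)
    (hQ : finrank (ZMod 2) Q = 4) (hL : finrank (ZMod 2) L = 2) (hK : finrank (ZMod 2) K = 2)
    (hLQ : L ≤ Q) (hKQ : K ≤ Q) (hLK : L ⊓ K = ⊥) :
    ∃ c : Fin 4 → W, LinearIndependent (ZMod 2) c ∧ span (ZMod 2) (Set.range c) = Q ∧
      c 0 ∈ L ∧ c 1 ∈ L ∧ c 2 ∈ K ∧ c 3 ∈ K := by
  let bL := finBasisOfFinrankEq (ZMod 2) L hL
  let bK := finBasisOfFinrankEq (ZMod 2) K hK
  refine ⟨![bL 0, bL 1, bK 0, bK 1], ?_, ?_, (bL 0).2, (bL 1).2, (bK 0).2, (bK 1).2⟩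
  · rw [Fintype.linearIndependent_iff]
    intro g hg
    rw [Fin.sum_univ_four] at hg
    have hg' : g 0 • (bL 0 : W) + g 1 • (bL 1 : W) + g 2 • (bK 0 : W) + g 3 • (bK 1 : W) = 0 := hg
    have h1 : g 0 • (bL 0 : W) + g 1 • (bL 1 : W) = g 2 • (bK 0 : W) + g 3 • (bK 1 : W) := by
      apply lfc_eq_of_add
      rw [← hg']
      abel
    have h2 : g 0 • (bL 0 : W) + g 1 • (bL 1 : W) ∈ L ⊓ K := by
      refine ⟨add_mem (smul_mem _ _ (bL 0).2) (smul_mem _ _ (bL 1).2), ?_⟩
      rw [h1]
      exact add_mem (smul_mem _ _ (bK 0).2) (smul_mem _ _ (bK 1).2)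
    rw [hLK, mem_bot] at h2
    have h3 : g 0 • bL 0 + g 1 • bL 1 = 0 := Subtype.ext h2
    have h4 : g 2 • bK 0 + g 3 • bK 1 = 0 := Subtype.ext (by rw [h2] at h1; exact h1.symm)
    have h5 := Fintype.linearIndependent_iff.mp bL.linearIndependent ![g 0, g 1]
      (by rw [Fin.sum_univ_two]; exact h3)
    have h6 := Fintype.linearIndependent_iff.mp bK.linearIndependent ![g 2, g 3]
      (by rw [Fin.sum_univ_two]; exact h4)
    intro i
    fin_cases i
    · exact h5 0
    · exact h5 1
    · exact h6 0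
    · exact h6 1
  · have hli : LinearIndependent (ZMod 2) (![bL 0, bL 1, bK 0, bK 1] : Fin 4 → W) := by
      rw [Fintype.linearIndependent_iff]
      intro g hg
      rw [Fin.sum_univ_four] at hg
      have hg' : g 0 • (bL 0 : W) + g 1 • (bL 1 : W) + g 2 • (bK 0 : W) + g 3 • (bK 1 : W) = 0 := hg
      have h1 : g 0 • (bL 0 : W) + g 1 • (bL 1 : W) = g 2 • (bK 0 : W) + g 3 • (bK 1 : W) := by
        apply lfc_eq_of_add
        rw [← hg']
        abel
      have h2 : g 0 • (bL 0 : W) + g 1 • (bL 1 : W) ∈ L ⊓ K := by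
        refine ⟨add_mem (smul_mem _ _ (bL 0).2) (smul_mem _ _ (bL 1).2), ?_⟩
        rw [h1]
        exact add_mem (smul_mem _ _ (bK 0).2) (smul_mem _ _ (bK 1).2)
      rw [hLK, mem_bot] at h2
      have h3 : g 0 • bL 0 + g 1 • bL 1 = 0 := Subtype.ext h2
      have h4 : g 2 • bK 0 + g 3 • bK 1 = 0 := Subtype.ext (by rw [h2] at h1; exact h1.symm)
      have h5 := Fintype.linearIndependent_iff.mp bL.linearIndependent ![g 0, g 1]
        (by rw [Fin.sum_univ_two]; exact h3)
      have h6 := Fintype.linearIndependent_iff.mp bK.linearIndependent ![g 2, g 3]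
        (by rw [Fin.sum_univ_two]; exact h4)
      intro i
      fin_cases i
      · exact h5 0
      · exact h5 1
      · exact h6 0
      · exact h6 1
    apply Submodule.eq_of_le_of_finrank_eq
    · rw [span_le]
      rintro _ ⟨i, rfl⟩
      fin_cases i
      · exact hLQ (bL 0).2
      · exact hLQ (bL 1).2
      · exact hKQ (bK 0).2
      · exact hKQ (bK 1).2
    · rw [finrank_span_eq_card hli, hQ]
      rfl

omit [Module (ZMod 2) W] in
theorem lfc_comb4 (c : Fin 4 → W) (n : ℕ) : comb c n =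
    (if n.testBit 0 then c 0 else 0) + (if n.testBit 1 then c 1 else 0) +
    (if n.testBit 2 then c 2 else 0) + (if n.testBit 3 then c 3 else 0) := by
  unfold comb
  rw [Fin.sum_univ_four]
  rfl

omit [Module (ZMod 2) W] in
theorem lfc_comb5 (c : Fin 5 → W) (n : ℕ) : comb c n =
    (if n.testBit 0 then c 0 else 0) + (if n.testBit 1 then c 1 else 0) +
    (if n.testBit 2 then c 2 else 0) + (if n.testBit 3 then c 3 else 0) +
    (if n.testBit 4 then c 4 else 0) := by
  unfold comb
  rw [Fin.sum_univ_five]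
  rfl

/-- codes of elements of `L` and `K` -/
theorem lfc_memL {c : Fin 4 → W} (hc : LinearIndependent (ZMod 2) c)
    {L K : Submodule (ZMod 2) W} (hLK : L ⊓ K = ⊥) (h0 : c 0 ∈ L) (h1 : c 1 ∈ L) (h2 : c 2 ∈ K)
    (h3 : c 3 ∈ K) (n : ℕ) (hn : n < 16) :
    (comb c n ∈ L ↔ n < 4) ∧ (comb c n ∈ K ↔ n % 4 = 0) := by
  have hL : ∀ a b : Bool, (if a then c 0 else 0) + (if b then c 1 else 0) ∈ L := by
    intro a b
    cases a <;> cases b <;> simp [h0, h1, add_mem h0 h1]
  have hK : ∀ a b : Bool, (if a then c 2 else 0) + (if b then c 3 else 0) ∈ K := by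
    intro a b
    cases a <;> cases b <;> simp [h2, h3, add_mem h2 h3]
  have hsplit : comb c n = comb c (n % 4) + comb c (4 * (n / 4)) := by
    rw [← comb_xor]
    congr 1
    interval_cases n <;> rfl
  have hA : comb c (n % 4) ∈ L := by
    rw [lfc_comb4]
    have e2 : (n % 4).testBit 2 = false := by interval_cases n <;> rfl
    have e3 : (n % 4).testBit 3 = false := by interval_cases n <;> rfl
    rw [e2, e3]
    have h := hL ((n % 4).testBit 0) ((n % 4).testBit 1)
    simp only [Bool.false_eq_true, if_false, add_zero]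
    exact h
  have hB : comb c (4 * (n / 4)) ∈ K := by
    rw [lfc_comb4]
    have e2 : (4 * (n / 4)).testBit 0 = false := by interval_cases n <;> rfl
    have e3 : (4 * (n / 4)).testBit 1 = false := by interval_cases n <;> rfl
    rw [e2, e3]
    have h := hK ((4 * (n / 4)).testBit 2) ((4 * (n / 4)).testBit 3)
    simp only [Bool.false_eq_true, if_false, zero_add]
    exact h
  constructor
  · constructor
    · intro h
      have h5 : comb c (4 * (n / 4)) ∈ L := by
        have : comb c (4 * (n / 4)) = comb c (n % 4) + comb c n := by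
          rw [hsplit, lfc_add_add]
        rw [this]
        exact add_mem hA h
      have h6 : comb c (4 * (n / 4)) ∈ L ⊓ K := ⟨h5, hB⟩
      rw [hLK, mem_bot] at h6
      have h7 := lfc_comb_inj hc _ (by omega) h6
      omega
    · intro h
      have : n = n % 4 := by omega
      rw [this]
      exact hA
  · constructor
    · intro h
      have h5 : comb c (n % 4) ∈ K := by
        have : comb c (n % 4) = comb c n + comb c (4 * (n / 4)) := by
          rw [hsplit, add_assoc, ZModModule.add_self, add_zero]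
        rw [this]
        exact add_mem h hB
      have h6 : comb c (n % 4) ∈ L ⊓ K := ⟨hA, h5⟩
      rw [hLK, mem_bot] at h6
      exact lfc_comb_inj hc _ (by omega) h6
    · intro h
      have : n = 4 * (n / 4) := by omega
      rw [this]
      exact hB

end Aux

theorem claimLeafCore (_hL : ClaimLines.{u}) (hl : ClaimLift.{u}) (hS : ClaimStar.{u}) :
    ClaimLeafCore.{u} := by
  intro V _ _ _ _ W _ _ _ _ E π e Q L K K' x z hTab h0E hπs hπ heE hQ hL hK hLQ hKQ hLK
    hnine hLno hspan hGen hK'Q hxE hxQ hstar hzK hz0 hze hzP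
  obtain ⟨c, hc, hcQ, c0, c1, c2, c3⟩ := lfc_basis Q L K hQ hL hK hLQ hKQ hLK
  have hmem := fun n (hn : n < 16) => lfc_memL hc hLK c0 c1 c2 c3 n hn
  have hcE : ∀ n ∈ nine, comb c n ∈ contr π E := by
    intro n hn
    have hn16 : n < 16 := by
      unfold nine at hn
      simp only [List.mem_cons, List.not_mem_nil, or_false] at hn
      omega
    refine hnine _ (by rw [← hcQ]; exact lfc_comb_mem c n) ?_ ?_
    · rw [(hmem n hn16).1]
      unfold nine at hn
      simp only [List.mem_cons, List.not_mem_nil, or_false] at hn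
      omega
    · rw [(hmem n hn16).2]
      unfold nine at hn
      simp only [List.mem_cons, List.not_mem_nil, or_false] at hn
      omega
  obtain ⟨b, hb0, hbs, hbli, hπb, b10, b12, b14, b18, hb9⟩ :=
    hl V W E π e c h0E hπ heE hc hcE
  have heb : comb b 1 = e := by
    rw [← hb0, lfc_comb5]
    simp [Nat.testBit]
  -- elements of `Q.comap π`
  have hcomap : ∀ v, π v ∈ Q → ∃ n < 32, v = comb b n := by
    intro v hv
    rw [← hcQ] at hv
    obtain ⟨k, hk, hk2⟩ := lfc_exists_comb c _ hv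
    have h1 : π (v + comb b (2 * k)) = 0 := by
      rw [map_add, hπb _ (by omega), hk2]
      have : 2 * k / 2 = k := by omega
      rw [this, ZModModule.add_self]
    rcases (hπ _).1 h1 with h2 | h2
    · exact ⟨2 * k, by omega, lfc_eq_of_add h2⟩
    · refine ⟨(2 * k) ^^^ 1, ?_, ?_⟩
      · have : (2 * k) < 2 ^ 5 := by omega
        exact Nat.xor_lt_two_pow this (by norm_num)
      · rw [comb_xor, heb, ← h2]
        have : comb b (2 * k) + (v + comb b (2 * k)) = v + (comb b (2 * k) + comb b (2 * k)) := by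
          abel
        rw [this, ZModModule.add_self, add_zero]
  have hπQ : ∀ n < 32, π (comb b n) ∈ Q := by
    intro n hn
    rw [hπb n hn, ← hcQ]
    exact lfc_comb_mem c _
  have hπK : ∀ n < 32, (π (comb b n) ∈ K ↔ n / 2 % 4 = 0) := by
    intro n hn
    rw [hπb n hn]
    exact (hmem _ (by omega)).2
  have hπL : ∀ n < 32, (π (comb b n) ∈ L ↔ n / 2 < 4) := by
    intro n hn
    rw [hπb n hn]
    exact (hmem _ (by omega)).1
  -- the lifts
  obtain ⟨β10, h10, h10'⟩ : ∃ i < 2, comb b (20 + i) ∈ E ∧ (i = 0 → comb b 21 ∉ E) := by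
    by_cases h : comb b 21 ∈ E
    · exact ⟨1, by norm_num, h, by norm_num⟩
    · exact ⟨0, by norm_num, (hb9 10 (by simp [nine])).resolve_right h, fun _ => h⟩
  obtain ⟨β11, h11, h11'⟩ : ∃ i < 2, comb b (22 + i) ∈ E ∧ (i = 0 → comb b 23 ∉ E) := by
    by_cases h : comb b 23 ∈ E
    · exact ⟨1, by norm_num, h, by norm_num⟩
    · exact ⟨0, by norm_num, (hb9 11 (by simp [nine])).resolve_right h, fun _ => h⟩
  obtain ⟨β13, h13, h13'⟩ : ∃ i < 2, comb b (26 + i) ∈ E ∧ (i = 0 → comb b 27 ∉ E) := by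
    by_cases h : comb b 27 ∈ E
    · exact ⟨1, by norm_num, h, by norm_num⟩
    · exact ⟨0, by norm_num, (hb9 13 (by simp [nine])).resolve_right h, fun _ => h⟩
  obtain ⟨β14, h14, h14'⟩ : ∃ i < 2, comb b (28 + i) ∈ E ∧ (i = 0 → comb b 29 ∉ E) := by
    by_cases h : comb b 29 ∈ E
    · exact ⟨1, by norm_num, h, by norm_num⟩
    · exact ⟨0, by norm_num, (hb9 14 (by simp [nine])).resolve_right h, fun _ => h⟩
  obtain ⟨β15, h15, h15'⟩ : ∃ i < 2, comb b (30 + i) ∈ E ∧ (i = 0 → comb b 31 ∉ E) := by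
    by_cases h : comb b 31 ∈ E
    · exact ⟨1, by norm_num, h, by norm_num⟩
    · exact ⟨0, by norm_num, (hb9 15 (by simp [nine])).resolve_right h, fun _ => h⟩
  obtain ⟨β, hβ, hβ10, hβ11, hβ13, hβ14, hβ15⟩ : ∃ β < 32, β % 2 = β10 ∧ β / 2 % 2 = β11 ∧
      β / 4 % 2 = β13 ∧ β / 8 % 2 = β14 ∧ β / 16 % 2 = β15 :=
    ⟨β10 + 2 * β11 + 4 * β13 + 8 * β14 + 16 * β15, by omega, by omega, by omega, by omega,
      by omega, by omega⟩
  -- the extra lift
  obtain ⟨d, hd, hd1, hd2⟩ : ∃ d ∈ [0, 11, 13, 15, 19], (β ≠ 0 ∨ d ≠ 0) ∧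
      (d ≠ 0 → comb b d ∈ E) := by
    by_cases hβ0 : β = 0
    · have e10 : comb b 21 ∉ E := h10'.2 (by omega)
      have e11 : comb b 23 ∉ E := h11'.2 (by omega)
      have e13 : comb b 27 ∉ E := h13'.2 (by omega)
      have e14 : comb b 29 ∉ E := h14'.2 (by omega)
      have e15 : comb b 31 ∉ E := h15'.2 (by omega)
      set H : Submodule (ZMod 2) V := span (ZMod 2) (Set.range fun i : Fin 4 => b i.succ) with hH
      have heH : e ∉ H := by
        intro he
        rw [hH, Submodule.mem_span_range_iff_exists_fun] at he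
        obtain ⟨g, hg⟩ := he
        have h1 := Fintype.linearIndependent_iff.mp hbli (Fin.cons 1 g) (by
          rw [Fin.sum_univ_succ]
          simp only [Fin.cons_zero, Fin.cons_succ, one_smul]
          rw [hg, hb0, ZModModule.add_self]) 0
        simp at h1
      obtain ⟨a, ⟨haE, haQ, haK⟩, haH⟩ : ∃ a ∈ {a : V | a ∈ E ∧ π a ∈ Q ∧ π a ∉ K}, a ∉ H := by
        by_contra hno
        push Not at hno
        have h1 : Q.comap π ≤ H := hspan.trans (span_le.2 hno)
        have h2 : e ∈ Q.comap π := by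
          rw [mem_comap, ((hπ e).2 (Or.inr rfl))]
          exact zero_mem _
        exact heH (h1 h2)
      obtain ⟨n, hn, rfl⟩ := hcomap a haQ
      have hodd : n % 2 = 1 := by
        by_contra hev
        apply haH
        rw [lfc_comb5]
        have h0 : n.testBit 0 = false := by
          rw [Nat.testBit_zero]
          simp [hev]
        have hs : ∀ (B : Bool) (i : Fin 4), (if B then b i.succ else 0) ∈ H := by
          intro B i
          have hi : b i.succ ∈ H := subset_span ⟨i, rfl⟩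
          cases B
          · simp
          · simpa using hi
        rw [h0]
        have := add_mem (add_mem (add_mem (hs (n.testBit 1) 0) (hs (n.testBit 2) 1))
          (hs (n.testBit 3) 2)) (hs (n.testBit 4) 3)
        simpa using this
      have hnK := haK
      rw [hπK n hn] at hnK
      have hnL : ¬ (n / 2 < 4) := by
        rw [← hπL n hn]
        intro h1
        apply hLno _ h1
        unfold contr
        rw [Finset.mem_erase]
        refine ⟨?_, Finset.mem_image_of_mem _ haE⟩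
        intro h2
        rw [h2] at haK
        exact haK (zero_mem _)
      refine ⟨n, ?_, Or.inr (by omega), fun _ => haE⟩
      have n21 : n ≠ 21 := by rintro rfl; exact e10 haE
      have n23 : n ≠ 23 := by rintro rfl; exact e11 haE
      have n27 : n ≠ 27 := by rintro rfl; exact e13 haE
      have n29 : n ≠ 29 := by rintro rfl; exact e14 haE
      have n31 : n ≠ 31 := by rintro rfl; exact e15 haE
      simp only [List.mem_cons, List.not_mem_nil, or_false]
      omega
    · exact ⟨0, by simp, Or.inl hβ0, fun h => absurd rfl h⟩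
  -- the star
  have hg0 : π e = 0 := (hπ e).2 (Or.inr rfl)
  have hg1 : π (b 3) = c 2 := hbs 2
  have hg2 : π (b 4) = c 3 := hbs 3
  have hgli : LinearIndependent (ZMod 2) (![e, b 3, b 4] : Fin 3 → V) := by
    have h1 : (![e, b 3, b 4] : Fin 3 → V) = b ∘ (![0, 3, 4] : Fin 3 → Fin 5) := by
      funext i
      fin_cases i
      · exact hb0.symm
      · rfl
      · rfl
    rw [h1]
    exact hbli.comp _ (by decide)
  have hcombg : ∀ s < 8, comb (![e, b 3, b 4] : Fin 3 → V) s =
      comb b ((s % 2) ^^^ (8 * (s / 2))) := by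
    intro s hs
    unfold comb
    rw [Fin.sum_univ_three, Fin.sum_univ_five, hb0]
    interval_cases s <;> simp [Nat.testBit]
  have htb : ∀ n < 32, n / 2 % 4 = 0 → n.testBit 1 = false ∧ n.testBit 2 = false := by decide
  have hspang : span (ZMod 2) (Set.range (![e, b 3, b 4] : Fin 3 → V)) = K.comap π := by
    apply le_antisymm
    · rw [span_le]
      rintro _ ⟨i, rfl⟩
      fin_cases i
      · change π e ∈ K
        rw [hg0]
        exact zero_mem _
      · change π (b 3) ∈ K
        rw [hg1]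
        exact c2
      · change π (b 4) ∈ K
        rw [hg2]
        exact c3
    · intro v hv
      obtain ⟨n, hn, rfl⟩ := hcomap v (hKQ hv)
      have hn4 := (hπK n hn).1 hv
      have e0 : e ∈ span (ZMod 2) (Set.range (![e, b 3, b 4] : Fin 3 → V)) := subset_span ⟨0, rfl⟩
      have e1 : b 3 ∈ span (ZMod 2) (Set.range (![e, b 3, b 4] : Fin 3 → V)) :=
        subset_span ⟨1, rfl⟩
      have e2 : b 4 ∈ span (ZMod 2) (Set.range (![e, b 3, b 4] : Fin 3 → V)) :=
        subset_span ⟨2, rfl⟩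
      have hs : ∀ (B : Bool) (v : V), v ∈ span (ZMod 2) (Set.range (![e, b 3, b 4] : Fin 3 → V)) →
          (if B then v else 0) ∈ span (ZMod 2) (Set.range (![e, b 3, b 4] : Fin 3 → V)) := by
        intro B v hv
        cases B
        · simp
        · simpa using hv
      rw [lfc_comb5, hb0]
      rw [(htb n hn hn4).1, (htb n hn hn4).2]
      have := add_mem (add_mem (hs (n.testBit 0) _ e0) (hs (n.testBit 3) _ e1))
        (hs (n.testBit 4) _ e2)
      simpa using this
  obtain ⟨y, hxy, t, ht, hty⟩ := hS V (E : Set V) K' x ![e, b 3, b 4] hgli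
    ⟨x, hxE, by rw [ZModModule.add_self]; exact zero_mem _⟩ (by rw [hspang]; exact hstar)
  have hst8 : ∀ s ∈ t, s < 8 := by
    have h1 : ∀ t ∈ starReps, ∀ s ∈ t, s < 8 := by decide
    exact h1 t ht
  -- the code of `z`
  obtain ⟨nz, hnz, hznz⟩ : ∃ n ∈ [8, 9, 16, 17, 24, 25], z = comb b n := by
    obtain ⟨n, hn, rfl⟩ := hcomap z (hKQ hzK)
    refine ⟨n, ?_, rfl⟩
    have hn4 := (hπK n hn).1 hzK
    have n0 : n ≠ 0 := by rintro rfl; exact hz0 (comb_zero b)
    have n1 : n ≠ 1 := by rintro rfl; exact hze heb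
    simp only [List.mem_cons, List.not_mem_nil, or_false]
    omega
  obtain ⟨C, s0, s1, s2, s3, hcert⟩ := hTab β hβ d hd hd1 t ht nz hnz
  have hb'lt : ∀ n < 32, comb (Fin.snoc b y : Fin 6 → V) n = comb b n := fun n hn =>
    lfc_comb_snoc b y n hn
  have hb'top : comb (Fin.snoc b y : Fin 6 → V) 32 = y := lfc_comb_snoc_last b y
  have hPE : ∀ v ∈ E, Pres (E : Set V) K' v := fun v hv =>
    ⟨v, hv, by rw [ZModModule.add_self]; exact zero_mem _⟩
  have hx32 : ∀ n < 2 ^ 6, 32 ≤ n → n = 32 ^^^ (n - 32) := by decide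
  refine hasK5_of_cert (m := 6) (Fin.snoc b y : Fin 6 → V) (E : Set V) K' hGen ?_ _ ?_ C
    s0 s1 s2 s3 hcert
  · intro n hn hnK'
    by_cases h32 : n < 32
    · rw [hb'lt n h32] at hnK'
      have h1 : comb b n ∈ K' ⊓ Q.comap π := ⟨hnK', hπQ n h32⟩
      rw [hK'Q, mem_bot] at h1
      exact lfc_comb_inj hbli n h32 h1
    · exfalso
      have h1 : n = 32 ^^^ (n - 32) := hx32 n hn (by omega)
      rw [h1, comb_xor, hb'top, hb'lt _ (by omega)] at hnK'
      apply hxQ
      have h2 : x = ((x + y) + comb b (n - 32)) + (y + comb b (n - 32)) := by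
        have : ((x + y) + comb b (n - 32)) + (y + comb b (n - 32)) =
          x + (y + y) + (comb b (n - 32) + comb b (n - 32)) := by abel
        rw [this, ZModModule.add_self, ZModModule.add_self, add_zero, add_zero]
      rw [h2]
      refine add_mem_sup (add_mem ?_ (hπQ _ (by omega))) hnK'
      rw [hspang] at hxy
      exact hKQ hxy
  · intro n hn
    rw [testBit_mask] at hn
    have hfin : ∀ n < 32, comb b n ∈ E → n < 2 ^ 6 ∧
        Pres (E : Set V) K' (comb (Fin.snoc b y : Fin 6 → V) n) := by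
      intro n hn h
      refine ⟨by omega, ?_⟩
      rw [hb'lt n hn]
      exact hPE _ h
    rw [List.mem_append, List.mem_append] at hn
    rcases hn with (hn | hn) | hn
    · simp only [List.mem_cons, List.not_mem_nil, or_false] at hn
      rcases hn with rfl | rfl | rfl | rfl | rfl | rfl | rfl | rfl | rfl | rfl | rfl
      · exact hfin 1 (by norm_num) (by rw [heb]; exact heE)
      · exact hfin 10 (by norm_num) b10
      · exact hfin 12 (by norm_num) b12
      · exact hfin 14 (by norm_num) b14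
      · exact hfin 18 (by norm_num) b18
      · exact hfin _ (by omega) (by rw [hβ10]; exact h10'.1)
      · exact hfin _ (by omega) (by rw [hβ11]; exact h11'.1)
      · exact hfin _ (by omega) (by rw [hβ13]; exact h13'.1)
      · exact hfin _ (by omega) (by rw [hβ14]; exact h14'.1)
      · exact hfin _ (by omega) (by rw [hβ15]; exact h15'.1)
      · have hn32 : n < 32 := by
          simp only [List.mem_cons, List.not_mem_nil, or_false] at hnz
          omega
        refine ⟨by omega, ?_⟩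
        rw [hb'lt _ hn32, ← hznz]
        exact hzP
    · by_cases hd0 : d = 0
      · rw [if_pos hd0] at hn
        exact absurd hn (List.not_mem_nil)
      · rw [if_neg hd0, List.mem_singleton] at hn
        rw [hn]
        refine hfin d ?_ (hd2 hd0)
        simp only [List.mem_cons, List.not_mem_nil, or_false] at hd
        omega
    · rw [List.mem_map] at hn
      obtain ⟨s, hs, rfl⟩ := hn
      have hs8 := hst8 s hs
      have hlt : (s % 2) ^^^ (8 * (s / 2)) < 32 := by interval_cases s <;> decide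
      rw [Nat.xor_assoc]
      refine ⟨Nat.xor_lt_two_pow (by norm_num) (lt_trans hlt (by norm_num)), ?_⟩
      rw [comb_xor, hb'top, hb'lt _ hlt, ← hcombg s hs8]
      exact hty s hs

end Pool.Agent.WW

end

section

/-!
E4: lifting nine points.
-/

namespace Pool.Agent.WW

open Submodule Module

universe u

theorem lift_comb_succ {V W : Type u} [AddCommGroup V] [Module (ZMod 2) V]
    [AddCommGroup W] [Module (ZMod 2) W] (π : V →ₗ[ZMod 2] W) (b : Fin 5 → V) (c : Fin 4 → W)
    (h0 : π (b 0) = 0) (hb : ∀ i : Fin 4, π (b i.succ) = c i) (n : ℕ) :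
    π (comb b n) = comb c (n / 2) := by
  unfold comb
  rw [Fin.sum_univ_succ, map_add, map_sum]
  have h1 : π (if n.testBit ((0 : Fin 5) : ℕ) then b 0 else 0) = 0 := by
    split_ifs
    · exact h0
    · exact map_zero π
  rw [h1, zero_add]
  refine Finset.sum_congr rfl fun i _ => ?_
  rw [Fin.val_succ, Nat.testBit_succ]
  split_ifs
  · exact hb i
  · exact map_zero π

theorem claimLift : ClaimLift.{u} := by
  intro V _ _ _ _ W _ _ _ _ E π e c h0 hker he hc hnine
  have hex : ∀ n ∈ nine, ∃ u ∈ E, π u = comb c n := by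
    intro n hn
    have h := hnine n hn
    rw [contr, Finset.mem_erase, Finset.mem_image] at h
    exact h.2
  obtain ⟨u5, hu5, p5⟩ := hex 5 (by decide)
  obtain ⟨u6, hu6, p6⟩ := hex 6 (by decide)
  obtain ⟨u7, hu7, p7⟩ := hex 7 (by decide)
  obtain ⟨u9, hu9, p9⟩ := hex 9 (by decide)
  have tV : ∀ v : V, v + v = 0 := add_self_z2
  have tW : ∀ v : W, v + v = 0 := add_self_z2
  have q5 : π u5 = c 0 + c 2 := by
    rw [p5]; simp [comb, Fin.sum_univ_four, Nat.testBit]
  have q6 : π u6 = c 1 + c 2 := by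
    rw [p6]; simp [comb, Fin.sum_univ_four, Nat.testBit]
  have q7 : π u7 = c 0 + c 1 + c 2 := by
    rw [p7]; simp [comb, Fin.sum_univ_four, Nat.testBit]
  have q9 : π u9 = c 0 + c 3 := by
    rw [p9]; simp [comb, Fin.sum_univ_four, Nat.testBit]
  have πe : π e = 0 := (hker e).2 (Or.inr rfl)
  have e0 : e ≠ 0 := fun h => h0 (h ▸ he)
  set b : Fin 5 → V := ![e, u6 + u7, u5 + u7, u5 + u6 + u7, u9 + u6 + u7] with hbdef
  have hb : ∀ i : Fin 4, π (b i.succ) = c i := by
    intro i
    fin_cases i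
    · change π (u6 + u7) = c 0
      rw [map_add, q6, q7]
      calc c 1 + c 2 + (c 0 + c 1 + c 2) = c 0 + (c 1 + c 1) + (c 2 + c 2) := by abel
        _ = c 0 := by rw [tW, tW]; simp
    · change π (u5 + u7) = c 1
      rw [map_add, q5, q7]
      calc c 0 + c 2 + (c 0 + c 1 + c 2) = c 1 + (c 0 + c 0) + (c 2 + c 2) := by abel
        _ = c 1 := by rw [tW, tW]; simp
    · change π (u5 + u6 + u7) = c 2
      rw [map_add, map_add, q5, q6, q7]
      calc c 0 + c 2 + (c 1 + c 2) + (c 0 + c 1 + c 2) =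
          c 2 + (c 0 + c 0) + (c 1 + c 1) + (c 2 + c 2) := by abel
        _ = c 2 := by rw [tW, tW, tW]; simp
    · change π (u9 + u6 + u7) = c 3
      rw [map_add, map_add, q9, q6, q7]
      calc c 0 + c 3 + (c 1 + c 2) + (c 0 + c 1 + c 2) =
          c 3 + (c 0 + c 0) + (c 1 + c 1) + (c 2 + c 2) := by abel
        _ = c 3 := by rw [tW, tW, tW]; simp
  have hπb : ∀ n, π (comb b n) = comb c (n / 2) :=
    lift_comb_succ π b c πe hb
  refine ⟨b, rfl, hb, ?_, fun n _ => hπb n, ?_, ?_, ?_, ?_, ?_⟩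
  · rw [Fintype.linearIndependent_iff] at hc ⊢
    intro g hg
    rw [Fin.sum_univ_succ] at hg
    have h1 := congrArg π hg
    rw [map_add, map_sum, map_zero] at h1
    simp only [map_smul, hb] at h1
    have h2 : π (b 0) = 0 := πe
    rw [h2, smul_zero, zero_add] at h1
    have h3 := hc (fun i => g i.succ) h1
    have h4 : ∑ i : Fin 4, g i.succ • b i.succ = 0 :=
      Finset.sum_eq_zero fun i _ => by rw [h3 i, zero_smul]
    rw [h4, add_zero] at hg
    intro i
    refine Fin.cases ?_ (fun j => h3 j) i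
    exact (smul_eq_zero.1 hg).resolve_right e0
  · have : comb b 10 = u5 := by
      have : comb b 10 = (u6 + u7) + (u5 + u6 + u7) := by
        simp [comb, Fin.sum_univ_five, Nat.testBit, hbdef]
      rw [this]
      calc (u6 + u7) + (u5 + u6 + u7) = u5 + (u6 + u6) + (u7 + u7) := by abel
        _ = u5 := by rw [tV, tV]; simp
    rw [this]; exact hu5
  · have : comb b 12 = u6 := by
      have : comb b 12 = (u5 + u7) + (u5 + u6 + u7) := by
        simp [comb, Fin.sum_univ_five, Nat.testBit, hbdef]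
      rw [this]
      calc (u5 + u7) + (u5 + u6 + u7) = u6 + (u5 + u5) + (u7 + u7) := by abel
        _ = u6 := by rw [tV, tV]; simp
    rw [this]; exact hu6
  · have : comb b 14 = u7 := by
      have : comb b 14 = (u6 + u7) + (u5 + u7) + (u5 + u6 + u7) := by
        simp [comb, Fin.sum_univ_five, Nat.testBit, hbdef]
      rw [this]
      calc (u6 + u7) + (u5 + u7) + (u5 + u6 + u7) =
          u7 + (u6 + u6) + (u5 + u5) + (u7 + u7) := by abel
        _ = u7 := by rw [tV, tV, tV]; simp
    rw [this]; exact hu7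
  · have : comb b 18 = u9 := by
      have : comb b 18 = (u6 + u7) + (u9 + u6 + u7) := by
        simp [comb, Fin.sum_univ_five, Nat.testBit, hbdef]
      rw [this]
      calc (u6 + u7) + (u9 + u6 + u7) = u9 + (u6 + u6) + (u7 + u7) := by abel
        _ = u9 := by rw [tV, tV]; simp
    rw [this]; exact hu9
  · intro n hn
    obtain ⟨a, ha, hpa⟩ := hex n hn
    have h1 : π a = π (comb b (2 * n)) := by
      rw [hπb, hpa, Nat.mul_div_cancel_left n two_pos]
    rw [ctr_pi_eq_iff π e hker] at h1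
    have h2 : comb b (2 * n + 1) = comb b (2 * n) + e := by
      have h3 : 2 * n + 1 = (2 * n) ^^^ 1 := by
        fin_cases hn <;> rfl
      have h4 : comb b 1 = e := by
        simp [comb, Fin.sum_univ_five, Nat.testBit, hbdef]
      rw [h3, comb_xor, h4]
    rcases h1 with h1 | h1
    · left; rw [← h1]; exact ha
    · right; rw [h2, ← h1]; exact ha

end Pool.Agent.WW

end

section

/-!
# Item E3: normal form of two lines skew to a line
-/

namespace Pool.Agent.WW

open Submodule Module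

universe u

section

variable {W : Type u} [AddCommGroup W] [Module (ZMod 2) W]

private lemma lines_self (v : W) : v + v = 0 := by
  have h : (2 : ZMod 2) = 0 := rfl
  rw [← two_smul (ZMod 2) v, h, zero_smul]

private lemma lines_complete {X : Submodule (ZMod 2) W} (hX : finrank (ZMod 2) X = 2) {v : W}
    (hvX : v ∈ X) (hv : v ≠ 0) :
    ∃ w ∈ X, w ≠ 0 ∧ v ≠ w := by
  have h1 : span (ZMod 2) {v} ≤ X := by
    rw [span_le, Set.singleton_subset_iff]
    exact hvX
  have h2 : span (ZMod 2) {v} ≠ X := by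
    intro h
    have h3 := finrank_span_singleton (K := ZMod 2) hv
    rw [h, hX] at h3
    omega
  obtain ⟨w, hwX, hw⟩ := SetLike.exists_of_lt (lt_of_le_of_ne h1 h2)
  refine ⟨w, hwX, ?_, ?_⟩
  · rintro rfl
    exact hw (zero_mem _)
  · rintro rfl
    exact hw (mem_span_singleton_self v)

private lemma lines_indep {v w : W} (hv : v ≠ 0) (hw : w ≠ 0) (hvw : v ≠ w) :
    LinearIndependent (ZMod 2) ![v, w] := by
  rw [LinearIndependent.pair_iff]
  intro s t h
  have hz : ∀ z : ZMod 2, z = 0 ∨ z = 1 := by decide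
  rcases hz s with rfl | rfl <;> rcases hz t with rfl | rfl
  · exact ⟨rfl, rfl⟩
  · simp only [zero_smul, one_smul, zero_add] at h
    exact absurd h hw
  · simp only [zero_smul, one_smul, add_zero] at h
    exact absurd h hv
  · simp only [one_smul] at h
    exfalso
    apply hvw
    have h1 := lines_self w
    calc v = v + (w + w) := by rw [h1, add_zero]
      _ = (v + w) + w := by abel
      _ = w := by rw [h, zero_add]

variable [FiniteDimensional (ZMod 2) W]

private lemma lines_span {X : Submodule (ZMod 2) W} (hX : finrank (ZMod 2) X = 2) {v w : W}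
    (hvX : v ∈ X) (hwX : w ∈ X) (hv : v ≠ 0) (hw : w ≠ 0) (hvw : v ≠ w) :
    X = span (ZMod 2) {v, w} := by
  have h1 := finrank_span_eq_card (lines_indep hv hw hvw)
  have h2 : Set.range ![v, w] = {v, w} := by
    rw [Matrix.range_cons, Matrix.range_cons, Matrix.range_empty, Set.union_empty]
    rfl
  rw [h2, Fintype.card_fin] at h1
  refine (Submodule.eq_of_le_of_finrank_eq ?_ ?_).symm
  · rw [span_le]
    rintro x (rfl | rfl)
    · exact hvX
    · exact hwX
  · rw [h1, hX]

private lemma lines_quad {Q L K : Submodule (ZMod 2) W} (hQ : finrank (ZMod 2) Q = 4)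
    (hL : finrank (ZMod 2) L = 2) (hK : finrank (ZMod 2) K = 2) (hLQ : L ≤ Q) (hKQ : K ≤ Q)
    (hLK : L ⊓ K = ⊥) {p q a b : W} (h1 : L = span (ZMod 2) {p, q})
    (h2 : K = span (ZMod 2) {a, b}) :
    LinearIndependent (ZMod 2) ![p, q, a, b] ∧ span (ZMod 2) (Set.range ![p, q, a, b]) = Q := by
  have hsup : L ⊔ K = Q := by
    refine Submodule.eq_of_le_of_finrank_eq (sup_le hLQ hKQ) ?_
    have h := Submodule.finrank_sup_add_finrank_inf_eq L K
    rw [hLK, finrank_bot, hL, hK] at h
    omega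
  have hr : Set.range ![p, q, a, b] = {p, q} ∪ {a, b} := by
    ext x
    simp only [Set.mem_range, Set.mem_union, Set.mem_insert_iff, Set.mem_singleton_iff]
    constructor
    · rintro ⟨i, rfl⟩
      fin_cases i <;> simp
    · rintro ((rfl | rfl) | (rfl | rfl))
      · exact ⟨0, rfl⟩
      · exact ⟨1, rfl⟩
      · exact ⟨2, rfl⟩
      · exact ⟨3, rfl⟩
  have hs : span (ZMod 2) (Set.range ![p, q, a, b]) = Q := by
    rw [hr, span_union, ← h1, ← h2, hsup]
  refine ⟨?_, hs⟩
  rw [linearIndependent_iff_card_eq_finrank_span, Set.finrank, hs, hQ, Fintype.card_fin]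

end

/-- E3: normal form of two lines skew to a line -/
theorem claimLines : ClaimLines.{u} := by
  intro W _ _ _ Q L K K1 hQ hL hK hK1 hLQ hKQ hK1Q hLK hLK1 hne
  have hsup : L ⊔ K1 = Q := by
    refine Submodule.eq_of_le_of_finrank_eq (sup_le hLQ hK1Q) ?_
    have h := Submodule.finrank_sup_add_finrank_inf_eq L K1
    rw [hLK1, finrank_bot, hL, hK1] at h
    omega
  have hdisj : ∀ x, x ∈ L → x ∈ K → x = 0 := by
    intro x h1 h2
    have : x ∈ L ⊓ K := ⟨h1, h2⟩
    rw [hLK] at this
    exact (mem_bot _).1 this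
  have hl : ∀ k ∈ K, ∃ l ∈ L, k + l ∈ K1 := by
    intro k hk
    have h1 : k ∈ L ⊔ K1 := by rw [hsup]; exact hKQ hk
    obtain ⟨l, hl, k1, hk1, he⟩ := mem_sup.1 h1
    refine ⟨l, hl, ?_⟩
    have : k + l = k1 := by
      rw [← he]
      calc l + k1 + l = (l + l) + k1 := by abel
        _ = k1 := by rw [lines_self, zero_add]
    rw [this]
    exact hk1
  -- the statement for a given basis of `K` with `l(a) = 0`
  have key : ∀ a ∈ K, ∀ b ∈ K, a ≠ 0 → b ≠ 0 → a ≠ b → a ∈ K1 → ∀ l ∈ L, b + l ∈ K1 → l ≠ 0 →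
      ∃ c : Fin 4 → W, LinearIndependent (ZMod 2) c ∧ span (ZMod 2) (Set.range c) = Q ∧
        L = span (ZMod 2) {c 0, c 1} ∧ K = span (ZMod 2) {c 2, c 3} ∧
        (K1 = span (ZMod 2) {c 2, c 3 + c 0} ∨
          K1 = span (ZMod 2) {c 2 + c 0, c 3 + c 1}) := by
    intro a ha b hb ha0 hb0 hab haK1 l hl hbl hl0
    obtain ⟨m, hm, hm0, hlm⟩ := lines_complete hL hl hl0
    have e1 := lines_span hL hl hm hl0 hm0 hlm
    have e2 := lines_span hK ha hb ha0 hb0 hab
    obtain ⟨h1, h2⟩ := lines_quad hQ hL hK hLQ hKQ hLK e1 e2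
    refine ⟨![l, m, a, b], h1, h2, e1, e2, Or.inl ?_⟩
    refine lines_span hK1 haK1 hbl ha0 ?_ ?_
    · intro (h : b + l = 0)
      apply hb0
      apply hdisj b _ hb
      have : b = (b + l) - l := by abel
      rw [this, h, zero_sub]
      exact neg_mem hl
    · intro (h : a = b + l)
      apply hab
      have h3 : a - b ∈ L := by
        rw [h, add_sub_cancel_left]
        exact hl
      exact sub_eq_zero.1 (hdisj _ h3 (sub_mem ha hb))
  have hKbot : K ≠ ⊥ := by
    rintro rfl
    rw [finrank_bot] at hK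
    omega
  obtain ⟨a, ha, ha0⟩ := Submodule.exists_mem_ne_zero_of_ne_bot hKbot
  obtain ⟨b, hb, hb0, hab⟩ := lines_complete hK ha ha0
  obtain ⟨la, hla, hla1⟩ := hl a ha
  obtain ⟨lb, hlb, hlb1⟩ := hl b hb
  have hKab := lines_span hK ha hb ha0 hb0 hab
  by_cases h1 : la = 0
  · rw [h1, add_zero] at hla1
    by_cases h2 : lb = 0
    · exfalso
      rw [h2, add_zero] at hlb1
      exact hne (hKab.trans (lines_span hK1 hla1 hlb1 ha0 hb0 hab).symm)
    · exact key a ha b hb ha0 hb0 hab hla1 lb hlb hlb1 h2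
  · by_cases h2 : lb = 0
    · rw [h2, add_zero] at hlb1
      exact key b hb a ha hb0 ha0 hab.symm hlb1 la hla hla1 h1
    · by_cases h3 : la = lb
      · subst h3
        have h4 : a + b ∈ K1 := by
          have : a + b = (a + la) + (b + la) - (la + la) := by abel
          rw [this, lines_self, sub_zero]
          exact add_mem hla1 hlb1
        have h5 : a + b ≠ 0 := by
          intro h
          apply hab
          calc a = (a + b) - b := by abel
            _ = -b := by rw [h, zero_sub]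
            _ = b + -(b + b) := by abel
            _ = b := by rw [lines_self, neg_zero, add_zero]
        have h6 : a + b ≠ b := by
          intro h
          exact ha0 (by simpa using h)
        exact key (a + b) (add_mem ha hb) b hb h5 hb0 h6 h4 la hla hlb1 h1
      · have e1 := lines_span hL hla hlb h1 h2 h3
        obtain ⟨h4, h5⟩ := lines_quad hQ hL hK hLQ hKQ hLK e1 hKab
        refine ⟨![la, lb, a, b], h4, h5, e1, hKab, Or.inr ?_⟩
        refine lines_span hK1 hla1 hlb1 ?_ ?_ ?_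
        · intro (h : a + la = 0)
          apply ha0
          apply hdisj a _ ha
          have : a = (a + la) - la := by abel
          rw [this, h, zero_sub]
          exact neg_mem hla
        · intro (h : b + lb = 0)
          apply hb0
          apply hdisj b _ hb
          have : b = (b + lb) - lb := by abel
          rw [this, h, zero_sub]
          exact neg_mem hlb
        · intro (h : a + la = b + lb)
          apply hab
          have h6 : a - b ∈ L := by
            have : a - b = lb - la + ((a + la) - (b + lb)) := by abel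
            rw [this, h, sub_self, add_zero]
            exact sub_mem hlb hla
          exact sub_eq_zero.1 (hdisj _ h6 (sub_mem ha hb))

end Pool.Agent.WW

end

section

/-! B1: linking at a spanned hyperplane. -/

namespace Pool.Agent.WW

open Submodule Module

universe u

theorem claimLkHyper : ClaimLkHyper.{u} := by
  classical
  intro V _ _ _ B U T H κ hLk hUH hHT hdim hHs
  have : Finite V := Module.finite_of_finite (ZMod 2)
  have hHlt : H < T := by
    refine lt_of_le_of_ne hHT ?_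
    rintro rfl
    omega
  have hex : ∃ x ∈ B, x ∉ H := by
    by_contra hcon
    push Not at hcon
    have h1 : T ≤ H := hLk.span.trans (sup_le hUH (span_le.2 hcon))
    exact absurd hHlt (not_lt_of_ge h1)
  obtain ⟨x, hxE, hxH⟩ := hex
  have htopT : H ⊔ span (ZMod 2) {x} = T := by
    apply Submodule.eq_of_le_of_finrank_eq
    · exact sup_le hHT (span_le.2 (by simpa using hLk.sub x hxE))
    · rw [link_rank_singleton H x hxH, hdim]
  have htop : ∀ a ∈ B, a ∈ H ⊔ span (ZMod 2) {x} := by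
    intro a ha
    rw [htopT]; exact hLk.sub a ha
  have hadd : ∀ a ∈ B, a ∉ H → a + x ∈ H := by
    intro a ha haH
    obtain ⟨h, hh, y, hy, rfl⟩ := mem_sup.1 (htop a ha)
    obtain ⟨c, rfl⟩ := mem_span_singleton.1 hy
    have hc : c = 1 := by
      have hc0 : c ≠ 0 := by
        rintro rfl
        apply haH
        simpa using hh
      revert c
      intro c _ _ _ hc
      fin_cases c
      · exact absurd rfl hc
      · rfl
    subst hc
    rw [one_smul, add_assoc, link_char, add_zero]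
    exact hh
  set EH : Finset V := (Set.toFinite (B ∩ (H : Set V))).toFinset with hEH
  have hEHm : ∀ e, e ∈ EH ↔ e ∈ B ∧ e ∈ H := by
    intro e
    simp [hEH]
  set Wd : Submodule (ZMod 2) V := span (ZMod 2) ((fun y => y + x) '' (B \ (H : Set V))) with hWd
  have key : ∀ A ⊆ EH, finrank (ZMod 2) H + κ ≤
      finrank (ZMod 2) ↥(U ⊔ span (ZMod 2) (A : Set V)) +
      finrank (ZMod 2) ↥(Wd ⊔ span (ZMod 2) ((EH \ A : Finset V) : Set V)) := by
    intro A hA
    set X := U ⊔ span (ZMod 2) (A : Set V) with hX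
    set Y0 := Wd ⊔ span (ZMod 2) ((EH \ A : Finset V) : Set V) with hY0
    have hXH : X ≤ H := by
      refine sup_le hUH (span_le.2 ?_)
      intro a ha
      exact ((hEHm a).1 (hA ha)).2
    have hcov : ∀ e ∈ B, e ∈ X ∨ e ∈ Y0 ⊔ span (ZMod 2) {x} := by
      intro e he
      by_cases heH : e ∈ H
      · by_cases heA : e ∈ A
        · left
          exact mem_sup_right (subset_span heA)
        · right
          refine mem_sup_left (mem_sup_right (subset_span ?_))
          rw [Finset.mem_coe, Finset.mem_sdiff]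
          exact ⟨(hEHm e).2 ⟨he, heH⟩, heA⟩
      · right
        have : e = (e + x) + x := by rw [add_assoc, link_char, add_zero]
        rw [this]
        exact add_mem (mem_sup_left (mem_sup_left (subset_span ⟨e, ⟨he, heH⟩, rfl⟩)))
          (mem_sup_right (mem_span_singleton_self x))
    have h3 := hLk.cond X le_sup_left (lt_of_le_of_lt hXH hHlt)
    have h3' : κ ≤ finrank (ZMod 2) ↥(X ⊓ (Y0 ⊔ span (ZMod 2) {x})) := by
      refine h3.trans (Submodule.finrank_mono (le_inf inf_le_right (inf_le_left.trans ?_)))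
      refine span_le.2 fun e he => ?_
      exact (hcov e he.1).resolve_left he.2
    have hsup : T ≤ X ⊔ (Y0 ⊔ span (ZMod 2) {x}) := by
      refine hLk.span.trans (sup_le (le_sup_left.trans le_sup_left) (span_le.2 ?_))
      intro e he
      rcases hcov e he with h | h
      · exact mem_sup_left h
      · exact mem_sup_right h
    have h4 := Submodule.finrank_sup_add_finrank_inf_eq X (Y0 ⊔ span (ZMod 2) {x})
    have h6 := Submodule.finrank_mono hsup
    have h5 := link_rank_le Y0 {x}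
    rw [Finset.coe_singleton, Finset.card_singleton] at h5
    omega
  obtain ⟨Z', hZ'E, hZ'c, hZ'1, hZ'2⟩ := lin_inter (id : V → V) U Wd EH
    (finrank (ZMod 2) H + κ - finrank (ZMod 2) U - finrank (ZMod 2) Wd) (by
      intro A hA
      have h1 := key A hA
      have h2 : finrank (ZMod 2) U ≤ finrank (ZMod 2) ↥(U ⊔ span (ZMod 2) (A : Set V)) :=
        Submodule.finrank_mono le_sup_left
      have h3 : finrank (ZMod 2) Wd ≤
          finrank (ZMod 2) ↥(Wd ⊔ span (ZMod 2) ((EH \ A : Finset V) : Set V)) :=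
        Submodule.finrank_mono le_sup_left
      rw [Set.image_id, Set.image_id]
      omega)
  rw [Set.image_id] at hZ'1 hZ'2
  obtain ⟨Z, hZE, hZ'Z, hZ1, hZspan⟩ := link_extend U EH Z' hZ'E (by rw [hZ'1, hZ'c])
  have hZsup : U ⊔ span (ZMod 2) (Z : Set V) = H := by
    apply le_antisymm
    · refine sup_le hUH (span_le.2 ?_)
      intro a ha
      exact ((hEHm a).1 (hZE ha)).2
    · refine hHs.trans (sup_le le_sup_left (span_le.2 ?_))
      intro a ha
      exact hZspan a ((hEHm a).2 ha)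
  obtain ⟨hd1, hd2⟩ := link_disj U Z hZ1
  have h3 : finrank (ZMod 2) H = finrank (ZMod 2) U + Z.card := by rw [← hZsup, hZ1]
  refine ⟨span (ZMod 2) (Z : Set V), x, ⟨?_, ?_, hd1, ?_, hxE, ?_, ?_⟩, hZsup⟩
  · refine span_mono ?_
    intro z hz
    exact ⟨((hEHm z).1 (hZE hz)).1, subset_span hz⟩
  · exact (le_sup_right.trans hZsup.le).trans hHT
  · omega
  · rw [hZsup]; exact hxH
  · set S := span (ZMod 2) {u : V | u ∈ U ∧ Pres B (span (ZMod 2) (Z : Set V)) (x + u)} with hS
    have hle : Wd ≤ S ⊔ span (ZMod 2) (Z : Set V) := by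
      rw [hWd]
      refine span_le.2 ?_
      rintro _ ⟨y, ⟨hyE, hyH⟩, rfl⟩
      have h1 : y + x ∈ U ⊔ span (ZMod 2) (Z : Set V) := by
        rw [hZsup]; exact hadd y hyE hyH
      obtain ⟨u, hu, z, hz, huz⟩ := mem_sup.1 h1
      show y + x ∈ S ⊔ span (ZMod 2) (Z : Set V)
      rw [← huz]
      refine add_mem (mem_sup_left (subset_span ⟨hu, y, hyE, ?_⟩)) (mem_sup_right hz)
      have : y + (x + u) = z := by
        rw [← add_assoc, ← huz, add_comm u z, add_assoc, link_char, add_zero]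
      rw [this]
      exact hz
    have h1 : finrank (ZMod 2) ↥(Wd ⊔ span (ZMod 2) (Z' : Set V)) ≤
        finrank (ZMod 2) ↥(S ⊔ span (ZMod 2) (Z : Set V)) :=
      Submodule.finrank_mono (sup_le hle ((span_mono (by exact_mod_cast hZ'Z)).trans le_sup_right))
    have h2 := link_rank_le S Z
    omega

end Pool.Agent.WW

end

section

/-!
B3: the linking condition at one side of a separation.
-/

namespace Pool.Agent.WW

open Submodule Module

universe u

theorem claimLkSep : ClaimLkSep.{u} := by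
  intro V _ _ _ E F F' κ hE hSep hF hF' hcov
  refine ⟨inf_le_right, fun x hx => hx.2, ?_, ?_⟩
  · set B0 : Submodule (ZMod 2) V := (F ⊓ F') ⊔ span (ZMod 2) (E ∩ (F' : Set V)) with hB0
    have h1 : B0 ≤ F' := sup_le inf_le_right (span_le.2 (fun x hx => hx.2))
    have h2 : F ⊔ B0 = ⊤ := by
      rw [eq_top_iff, ← hE]
      refine span_le.2 ?_
      intro x hx
      by_cases hxF : x ∈ F
      · exact mem_sup_left hxF
      · exact mem_sup_right (mem_sup_right
          (subset_span ⟨hx, (hcov x hx).resolve_left hxF⟩))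
    have h3 : (B0 ⊔ F) ⊓ F' = B0 ⊔ F ⊓ F' := sup_inf_assoc_of_le F h1
    rw [sup_comm, h2, top_inf_eq] at h3
    rw [h3]
    exact sup_le le_rfl le_sup_left
  · intro H hH hHlt
    have h1 : (H ⊔ F) ⊓ F' = H := by
      rw [sup_inf_assoc_of_le F hHlt.le]
      exact sup_eq_left.2 hH
    have hA : H ⊔ F ≠ ⊤ := by
      intro h
      rw [h, top_inf_eq] at h1
      exact hHlt.ne h1.symm
    have hB : span (ZMod 2) ((E ∩ (F' : Set V)) \ (H : Set V)) ≤ F' :=
      span_le.2 (fun x hx => hx.1.2)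
    have hB' : span (ZMod 2) ((E ∩ (F' : Set V)) \ (H : Set V)) ≠ ⊤ := by
      intro h
      rw [h, top_le_iff] at hB
      exact hF' hB
    have h2 := hSep (H ⊔ F) (span (ZMod 2) ((E ∩ (F' : Set V)) \ (H : Set V))) hA hB' (by
      intro x hx
      by_cases hxF : x ∈ F
      · exact Or.inl (mem_sup_right hxF)
      · by_cases hxH : x ∈ H
        · exact Or.inl (mem_sup_left hxH)
        · exact Or.inr (subset_span ⟨⟨hx, (hcov x hx).resolve_left hxF⟩, hxH⟩))
    refine h2.trans (Submodule.finrank_mono ?_)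
    refine le_inf inf_le_right ?_
    have h3 : (H ⊔ F) ⊓ span (ZMod 2) ((E ∩ (F' : Set V)) \ (H : Set V)) ≤ (H ⊔ F) ⊓ F' :=
      inf_le_inf_left _ hB
    rw [h1] at h3
    exact h3

end Pool.Agent.WW

end

section

/-!
B2: linking, reduction to a spanned hyperplane.
-/

namespace Pool.Agent.WW

open Submodule Module

universe u

theorem claimLkStar (h : ClaimLkHyper.{u}) : ClaimLkStar.{u} := by
  intro V _ _ _ B U T κ hLk hne
  have : Finite V := Module.finite_of_finite (ZMod 2)
  obtain ⟨H, ⟨⟨Z0, hZ0, hHZ⟩, hHT⟩, hmax⟩ :=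
    (wellFounded_gt (α := Submodule (ZMod 2) V)).has_min
      {H | (∃ Z0 ⊆ B, H = U ⊔ span (ZMod 2) Z0) ∧ H ≠ T}
      ⟨U, ⟨∅, by simp, by simp⟩, hne⟩
  have hUH : U ≤ H := by rw [hHZ]; exact le_sup_left
  have hHle : H ≤ T := by
    rw [hHZ]
    exact sup_le hLk.le (span_le.2 (fun a ha => hLk.sub a (hZ0 ha)))
  obtain ⟨b, hbB, hbH⟩ : ∃ b ∈ B, b ∉ H := by
    by_contra hn
    push Not at hn
    apply hHT
    refine le_antisymm hHle (hLk.span.trans ?_)
    exact sup_le hUH (span_le.2 hn)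
  have hsup : H ⊔ span (ZMod 2) {b} = T := by
    by_contra hn
    refine hmax (H ⊔ span (ZMod 2) {b}) ⟨⟨Z0 ∪ {b}, ?_, ?_⟩, hn⟩ ?_
    · exact Set.union_subset hZ0 (by simpa using hbB)
    · rw [hHZ, span_union, sup_assoc]
    · refine lt_of_le_of_ne le_sup_left ?_
      intro h
      apply hbH
      rw [h]
      exact mem_sup_right (mem_span_singleton_self b)
  have hdim : finrank (ZMod 2) H + 1 = finrank (ZMod 2) T := by
    rw [← hsup, link_rank_singleton H b hbH]
  have hspan : H ≤ U ⊔ span (ZMod 2) (B ∩ (H : Set V)) := by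
    conv_lhs => rw [hHZ]
    refine sup_le le_sup_left ((span_mono ?_).trans le_sup_right)
    intro a ha
    refine ⟨hZ0 ha, ?_⟩
    rw [hHZ]
    exact mem_sup_right (subset_span ha)
  obtain ⟨K, x, hs, _⟩ := h V B U T H κ hLk hUH hHle hdim hspan
  exact ⟨K, x, hs⟩

end Pool.Agent.WW

end
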