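import Mathlib
import Pool.Agent.Work.MP_a8f287_co.Bd.B06
import Pool.Agent.Work.MP_a8f287_co.Bd.B02
import Pool.Agent.Work.MP_a8f287_co.Bd.B01
import Pool.Agent.Work.MP_a8f287_co.Bd.B03
import Pool.Agent.Work.MP_a8f287_co.Bd.B04

/-! Bundle of small proof modules (one section per former module). -/

section

/-!
`c3Corner`: the bound for the dimension of the guts at a corner.
-/

namespace Pool.Agent.WW

open Submodule Module

universe u

theorem c3Corner : C3Corner.{u} := by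
  intro W _ _ _ _ F A Γ Q D L M hq hQ hcov hL hM hQ3
  have hsup : Q ⊔ D = ⊤ := by
    rw [eq_top_iff, ← hq.spF, span_le]
    intro f hf
    rcases hcov f (Finset.mem_coe.1 hf) with h | h
    · exact (le_sup_left : Q ≤ Q ⊔ D) h
    · exact (le_sup_right : D ≤ Q ⊔ D) h
  have hmod := Submodule.finrank_sup_add_finrank_inf_eq Q D
  rw [hsup, finrank_top] at hmod
  have hmodD := Submodule.finrank_sup_add_finrank_inf_eq D Γ
  rw [hq.dim] at hmodD
  have hMD : finrank (ZMod 2) M ≤ finrank (ZMod 2) ↥(D ⊓ Γ) := Submodule.finrank_mono hM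
  have h1 : finrank (ZMod 2) M ≤ finrank (ZMod 2) ↥(Q ⊓ D) := by
    by_cases hD : D ⊔ Γ = ⊤
    · rw [hD, finrank_top] at hmodD
      omega
    · obtain ⟨a, ha⟩ := hq.ne
      have h3 := hq.v1 Q (D ⊔ Γ) a hD
        (fun f hf => (hcov f hf).imp_right (fun h => (le_sup_left : D ≤ D ⊔ Γ) h))
        (fun b hb => (le_sup_right : Γ ≤ D ⊔ Γ) (hq.sub a ha b hb))
      have hsup' : Q ⊔ (D ⊔ Γ) = ⊤ := by
        rw [← sup_assoc, hsup, top_sup_eq]
      have hmod' := Submodule.finrank_sup_add_finrank_inf_eq Q (D ⊔ Γ)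
      rw [hsup', finrank_top] at hmod'
      omega
  unfold cb
  apply max_le h1
  split_ifs with hs
  · obtain ⟨a, b, hab⟩ := hs
    by_cases hD : D = ⊤
    · rw [hD, inf_top_eq]
      omega
    · refine hq.v2 Q D a b hQ hD hcov ?_
      intro c hc
      rcases hab c hc with h | h
      · exact Or.inl (hL h).1
      · exact Or.inr (hM h).1
  · exact Nat.zero_le _

end Pool.Agent.WW

end

section

/-!
C3CovSum: dimensions of a covering.
-/

namespace Pool.Agent.WW

open Submodule Module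

universe u

theorem c3CovSum : C3CovSum.{u} := by
  intro V _ _ _ E A B hs hc
  have h1 : A ⊔ B = ⊤ := by
    rw [eq_top_iff, ← hs]
    refine span_le.2 ?_
    intro x hx
    rcases hc x hx with h | h
    · exact le_sup_left (a := A) (b := B) h
    · exact le_sup_right (a := A) (b := B) h
  refine ⟨h1, ?_⟩
  have h2 := Submodule.finrank_sup_add_finrank_inf_eq A B
  rw [h1, finrank_top] at h2
  omega

end Pool.Agent.WW

end

section

set_option autoImplicit false

namespace Pool.Agent.WW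

open Submodule Module

universe u

theorem cr3_gam {W : Type u} [AddCommGroup W] [Module (ZMod 2) W] (N : Set W)
    (Γ P P' : Submodule (ZMod 2) W) (h : Γ ≤ span (ZMod 2) (N ∩ (Γ : Set W)))
    (hc : ∀ x ∈ N, x ∈ P ∨ x ∈ P') : Γ ≤ (P ⊓ Γ) ⊔ (P' ⊓ Γ) := by
  refine h.trans (span_le.2 ?_)
  rintro x ⟨hx, hxΓ⟩
  rcases hc x hx with h1 | h1
  · exact mem_sup_left ⟨h1, hxΓ⟩
  · exact mem_sup_right ⟨h1, hxΓ⟩

theorem cr3_F {W : Type u} [AddCommGroup W] [Module (ZMod 2) W] [DecidableEq W] {F A : Finset W}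
    (h0 : (0 : W) ∉ F) (x : W) (P P' : Submodule (ZMod 2) W)
    (hc : ∀ v ∈ (NA F A x : Set W), v ∈ P ∨ v ∈ P') : ∀ f ∈ F, f ∈ P ∨ f ∈ P' := by
  intro f hf
  apply hc
  rw [Finset.mem_coe]
  unfold NA
  rw [Finset.mem_erase, Finset.mem_union]
  exact ⟨fun h => h0 (h ▸ hf), Or.inl hf⟩

/-- The bound at a pair of opposite corners. -/
theorem cr3_diag (hA1 : C3CovSum.{u}) (hB5 : C3Corner.{u}) {W : Type u} [AddCommGroup W]
    [Module (ZMod 2) W] [FiniteDimensional (ZMod 2) W] [DecidableEq W] (F A : Finset W)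
    (Γ S S' R R' : Submodule (ZMod 2) W) (hQ : Quad F A Γ) (hS : S ≠ ⊤) (hS' : S' ≠ ⊤)
    (hFS : ∀ f ∈ F, f ∈ S ∨ f ∈ S') (hFR : ∀ f ∈ F, f ∈ R ∨ f ∈ R')
    (hdS : finrank (ZMod 2) S + finrank (ZMod 2) S' = finrank (ZMod 2) W + 2)
    (hdR : finrank (ZMod 2) R + finrank (ZMod 2) R' = finrank (ZMod 2) W + 2)
    (h1 : 3 ≤ finrank (ZMod 2) ↥(S ⊓ R)) (h2 : 3 ≤ finrank (ZMod 2) ↥(S' ⊓ R')) :
    cb A ((S ⊓ Γ) ⊓ (R ⊓ Γ)) ((S' ⊓ Γ) ⊔ (R' ⊓ Γ)) +
      cb A ((S' ⊓ Γ) ⊓ (R' ⊓ Γ)) ((S ⊓ Γ) ⊔ (R ⊓ Γ)) ≤ 4 := by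
  have hcov1 : ∀ f ∈ F, f ∈ S ⊓ R ∨ f ∈ S' ⊔ R' := by
    intro f hf
    rcases hFS f hf with a | a
    · rcases hFR f hf with b | b
      · exact Or.inl ⟨a, b⟩
      · exact Or.inr (mem_sup_right b)
    · exact Or.inr (mem_sup_left a)
  have hcov2 : ∀ f ∈ F, f ∈ S' ⊓ R' ∨ f ∈ S ⊔ R := by
    intro f hf
    rcases hFS f hf with a | a
    · exact Or.inr (mem_sup_left a)
    · rcases hFR f hf with b | b
      · exact Or.inr (mem_sup_right b)
      · exact Or.inl ⟨a, b⟩
  have e1 := (hA1 W (F : Set W) (S ⊓ R) (S' ⊔ R') hQ.spF hcov1).2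
  have e2 := (hA1 W (F : Set W) (S' ⊓ R') (S ⊔ R) hQ.spF hcov2).2
  have e3 := finrank_sup_add_finrank_inf_eq S' R'
  have e4 := finrank_sup_add_finrank_inf_eq S R
  have c1 := hB5 W F A Γ (S ⊓ R) (S' ⊔ R') ((S ⊓ Γ) ⊓ (R ⊓ Γ)) ((S' ⊓ Γ) ⊔ (R' ⊓ Γ)) hQ
    (fun h => hS (top_le_iff.1 (h ▸ inf_le_left))) hcov1
    (le_inf (inf_le_inf inf_le_left inf_le_left) (inf_le_left.trans inf_le_right))
    (le_inf (sup_le_sup inf_le_left inf_le_left) (sup_le inf_le_right inf_le_right)) h1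
  have c2 := hB5 W F A Γ (S' ⊓ R') (S ⊔ R) ((S' ⊓ Γ) ⊓ (R' ⊓ Γ)) ((S ⊓ Γ) ⊔ (R ⊓ Γ)) hQ
    (fun h => hS' (top_le_iff.1 (h ▸ inf_le_left))) hcov2
    (le_inf (inf_le_inf inf_le_left inf_le_left) (inf_le_left.trans inf_le_right))
    (le_inf (sup_le_sup inf_le_left inf_le_left) (sup_le inf_le_right inf_le_right)) h2
  omega

/-- B7: bad separations of two elements have compatible traces. -/
theorem c3Cross (hA1 : C3CovSum.{u}) (hB3 : C3Sides.{u}) (hB5 : C3Corner.{u})
    (hB6 : C3SmallSide.{u}) : C3Cross.{u} := by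
  intro W _ _ _ _ F A Γ S S' R R' x y hQ hx hy hpx hpy hcS hdS hcR hdR n1 n2 n3 n4
  obtain ⟨-, spx, gx, -⟩ := hB3 W F A Γ x hQ hx
  obtain ⟨-, spy, gy, -⟩ := hB3 W F A Γ y hQ hy
  have eS := (hA1 W _ S S' spx hcS.2.2).2
  have eR := (hA1 W _ R R' spy hcR.2.2).2
  rw [hdS] at eS
  rw [hdR] at eR
  have hFS := cr3_F hQ.zero x S S' hcS.2.2
  have hFR := cr3_F hQ.zero y R R' hcR.2.2
  have gS := cr3_gam _ Γ S S' gx hcS.2.2
  have gR := cr3_gam _ Γ R R' gy hcR.2.2
  have hcS' : Cov (NA F A x : Set W) S' S := ⟨hcS.2.1, hcS.1, fun v hv => (hcS.2.2 v hv).symm⟩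
  have hcR' : Cov (NA F A y : Set W) R' R := ⟨hcR.2.1, hcR.1, fun v hv => (hcR.2.2 v hv).symm⟩
  have hdS' : finrank (ZMod 2) ↥(S' ⊓ S) = 2 := by rw [inf_comm]; exact hdS
  have hdR' : finrank (ZMod 2) ↥(R' ⊓ R) = 2 := by rw [inf_comm]; exact hdR
  by_cases a1 : 3 ≤ finrank (ZMod 2) ↥(S ⊓ R) ∧ 3 ≤ finrank (ZMod 2) ↥(S' ⊓ R')
  · left
    exact cr3_diag hA1 hB5 F A Γ S S' R R' hQ hcS.1 hcS.2.1 hFS hFR eS eR a1.1 a1.2
  by_cases a2 : 3 ≤ finrank (ZMod 2) ↥(S ⊓ R') ∧ 3 ≤ finrank (ZMod 2) ↥(S' ⊓ R)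
  · right
    exact cr3_diag hA1 hB5 F A Γ S S' R' R hQ hcS.1 hcS.2.1 hFS (fun f hf => (hFR f hf).symm) eS
      (by rw [add_comm]; exact eR) a2.1 a2.2
  exfalso
  have b1 : finrank (ZMod 2) ↥(S ⊓ R) ≤ 2 ∨ finrank (ZMod 2) ↥(S' ⊓ R') ≤ 2 := by
    by_contra hcon
    push Not at hcon
    exact a1 ⟨hcon.1, hcon.2⟩
  have b2 : finrank (ZMod 2) ↥(S ⊓ R') ≤ 2 ∨ finrank (ZMod 2) ↥(S' ⊓ R) ≤ 2 := by
    by_contra hcon
    push Not at hcon
    exact a2 ⟨hcon.1, hcon.2⟩
  rcases b1 with b1 | b1 <;> rcases b2 with b2 | b2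
  · exact n1 (hB6 W F A Γ S S' R R' x hQ hx hcS hdS (hpx S S' hcS hdS)
      (fun f hf _ => hFR f hf) b1 b2 gR)
  · exact n3 (hB6 W F A Γ R R' S S' y hQ hy hcR hdR (hpy R R' hcR hdR)
      (fun f hf _ => hFS f hf) (by rw [inf_comm]; exact b1) (by rw [inf_comm]; exact b2) gS)
  · exact n4 (hB6 W F A Γ R' R S S' y hQ hy hcR' hdR' (hpy R' R hcR' hdR')
      (fun f hf _ => hFS f hf) (by rw [inf_comm]; exact b2) (by rw [inf_comm]; exact b1) gS)
  · exact n2 (hB6 W F A Γ S' S R R' x hQ hx hcS' hdS' (hpx S' S hcS' hdS')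
      (fun f hf _ => hFR f hf) b2 b1 gR)

end Pool.Agent.WW

end

section

/-!
The density bound `|E| ≤ 3 n` for all ranks, from the claims.
-/

namespace Pool.Agent.WW

open Submodule Module

universe u

theorem d3_all_of (tR5 : TabR5) (hS : C3Small.{u}) (hI : ClaimD3NoC4.{u}) (ka : K4a.{u})
    (kb : K4b.{u}) (kc : K4c.{u}) (t6 : T6step.{u}) (tg : TabGQ) (t5 : TR.{u} 5)
    (hII : C3CaseII.{u}) (hN : C3NoC4.{u}) : ∀ n, D3.{u} n := by
  intro n
  induction n using Nat.strong_induction_on with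
  | _ n ih =>
    rcases Nat.lt_or_ge 5 n with h6 | h5
    · intro V _ _ _ _ E hG hn
      by_cases hK : K4F (E : Set V)
      · by_cases hC : NoC4 (E : Set V)
        · obtain ⟨m, rfl⟩ : ∃ m, n = m + 1 := ⟨n - 1, by omega⟩
          exact hI ka kb t6 tg t5 V E m hG hn (by omega) hC (ih m (by omega))
        · obtain ⟨H, hH⟩ := hN V (E : Set V) hG (by omega) hC
          have h := hII V E H hG hK (by omega) (fun m hm => ih m (by omega)) hH
          rw [hn] at h
          exact h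
      · have h := kc V E hG (by omega) hK
        rw [hn] at h
        exact h
    · exact hS tR5 n h5

/-- the colouring theorem from the claims -/
theorem crit_three_of (hD : ∀ n, D3.{u} n) (hC : C3Colour.{u}) {V : Type u} [AddCommGroup V]
    [Module (ZMod 2) V] [FiniteDimensional (ZMod 2) V] (E : Finset V) (h0 : (0 : V) ∉ E)
    (hfree : ¬ HasK5 (E : Set V)) :
    ∃ f : V →ₗ[ZMod 2] (Fin 3 → ZMod 2), ∀ v ∈ E, f v ≠ 0 :=
  hC hD V E h0 hfree

end Pool.Agent.WW

end

section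

/-! Contractible elements lie on three full lines. -/

namespace Pool.Agent.WW

open Submodule Module

universe u

namespace C3DegAux

theorem ker {V : Type u} [AddCommGroup V] [Module (ZMod 2) V] (e : V) :
    ∀ v, (span (ZMod 2) {e}).mkQ v = 0 ↔ v = 0 ∨ v = e := by
  intro v
  rw [Submodule.mkQ_apply, Submodule.Quotient.mk_eq_zero, Submodule.mem_span_singleton]
  constructor
  · rintro ⟨a, rfl⟩
    fin_cases a
    · left; exact zero_smul _ _
    · right; exact one_smul _ _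
  · rintro (rfl | rfl)
    · exact ⟨0, zero_smul _ _⟩
    · exact ⟨1, one_smul _ _⟩

end C3DegAux

theorem c3Deg (hCG : ClaimCtrGood.{u}) : C3Deg.{u} := by
  intro V _ _ _ _ E e hG hD hE he hctr
  classical
  have h0 : (0 : V) ∉ E := fun h => hG.zero (by exact_mod_cast h)
  have hker := C3DegAux.ker e
  set π := (span (ZMod 2) {e}).mkQ with hπ
  have hsurj : Function.Surjective π := Submodule.mkQ_surjective _
  obtain ⟨h1, h2⟩ := hCG V (V ⧸ span (ZMod 2) {e}) E π e hsurj hker he hG hctr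
  have h3 := hD (finrank (ZMod 2) (V ⧸ span (ZMod 2) {e})) (by omega)
    (V ⧸ span (ZMod 2) {e}) (contr π E) h1 rfl
  have h4 := card_contr π E e hker h0 he
  omega

end Pool.Agent.WW

end

section

/-!
P1, P2: a separation of one side extends; a full line does not split.
-/

namespace Pool.Agent.WW

open Submodule Module

universe u

theorem c3ExtSep (hInv : ClaimInv.{u}) : C3ExtSep.{u} := by
  intro W _ _ _ S G U Z A B hfull hG hGU hZ hUB
  obtain ⟨-, hiZ, hsup⟩ := hInv W S ⊤ G U Z hfull hG hGU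
  obtain ⟨-, -, hsup2⟩ := hInv W S ⊤ Z A B hfull hiZ hZ
  obtain ⟨hUG, hZG, hUne, hZne, hcov, -⟩ := hGU
  obtain ⟨hAZ, hBZ, hAne, hBne, hcov2, hdim⟩ := hZ
  have h1 : (B ⊔ U) ⊓ Z = B := by
    rw [sup_inf_assoc_of_le U hBZ]
    exact sup_eq_left.2 hUB
  have h2 : A ⊓ (B ⊔ U) = A ⊓ B := by
    calc A ⊓ (B ⊔ U) = (A ⊓ Z) ⊓ (B ⊔ U) := by rw [inf_eq_left.2 hAZ]
      _ = A ⊓ ((B ⊔ U) ⊓ Z) := by rw [inf_assoc, inf_comm Z]
      _ = A ⊓ B := by rw [h1]
  refine ⟨⟨hAZ.trans hZG, sup_le (hBZ.trans hZG) hUG, ?_, ?_, ?_, ?_⟩, h2, hiZ, hsup, hsup2⟩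
  · intro h
    exact hAne (le_antisymm hAZ (h ▸ hZG))
  · intro h
    apply hBne
    rw [← h1, h]
    exact inf_eq_right.2 hZG
  · intro x hx hxG
    rcases hcov x hx hxG with h | h
    · exact Or.inr (mem_sup_right h)
    · rcases hcov2 x hx h with h' | h'
      · exact Or.inl h'
      · exact Or.inr (mem_sup_left h')
  · rw [h2]
    exact hdim

theorem c3LineSide : C3LineSide.{u} := by
  intro W _ _ _ S Z A B L hsep hLZ _ hL
  obtain ⟨-, -, -, -, hcov, -⟩ := hsep
  by_contra hcon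
  push Not at hcon
  obtain ⟨h1, h2⟩ := hcon
  obtain ⟨u, huL, huA⟩ := SetLike.not_le_iff_exists.1 h1
  obtain ⟨v, hvL, hvB⟩ := SetLike.not_le_iff_exists.1 h2
  have hu0 : u ≠ 0 := fun h => huA (h ▸ zero_mem _)
  have hv0 : v ≠ 0 := fun h => hvB (h ▸ zero_mem _)
  have huB : u ∈ B := (hcov u (hL u huL hu0) (hLZ huL)).resolve_left huA
  have hvA : v ∈ A := (hcov v (hL v hvL hv0) (hLZ hvL)).resolve_right hvB
  have huv : u + v ≠ 0 := by
    intro h
    apply hvB
    have h3 : v = -u := by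
      rw [eq_neg_iff_add_eq_zero, add_comm]
      exact h
    rw [h3]
    exact neg_mem huB
  have huvL : u + v ∈ L := add_mem huL hvL
  rcases hcov (u + v) (hL _ huvL huv) (hLZ huvL) with h | h
  · exact huA ((add_mem_cancel_right hvA).1 h)
  · exact hvB ((add_mem_cancel_left huB).1 h)

end Pool.Agent.WW

end

section

/-!
B14: without triads the guts of the separations of a maximal free superset are full lines.
-/

namespace Pool.Agent.WW

open Submodule Module

universe u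

theorem c3Full (hRel : ClaimRel.{u}) (hSum : ClaimSum.{u}) (hSep : ClaimLkSep.{u})
    (hFill : ClaimFill.{u}) (hGe : ClaimSepGe.{u}) : C3Full.{u} := by
  intro V _ _ _ _ W _ _ _ _ E π e S hGood h5 hsurj hker heE hTri hES hmax
  obtain ⟨h0, hfree, hmaxi⟩ := hmax
  obtain ⟨hspan, hge⟩ := (hGe V W E hGood h5).2 π e hsurj hker heE
  have hspanS : span (ZMod 2) S = ⊤ := by
    rw [eq_top_iff, ← hspan]
    exact span_mono fun x hx => hES x hx
  have hgeS : SepGe S 2 := fun A B hA hB hc => hge A B hA hB fun x hx => hc x (hES x hx)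
  -- one side
  have side : ∀ A B : Submodule (ZMod 2) W, A ≠ ⊤ → B ≠ ⊤ → (∀ x ∈ S, x ∈ A ∨ x ∈ B) →
      finrank (ZMod 2) ↥(A ⊓ B) = 2 →
      ¬ HasK5 ((S ∩ (A : Set W)) ∪ {k | k ∈ A ⊓ B ∧ k ≠ 0}) := by
    intro A B hA hB hc hd
    have hlk := hSep W S A B 2 hspanS hgeS hA hB hc
    have hne : A ⊓ B ≠ B := by
      intro h
      apply hA
      have hBA : B ≤ A := by
        rw [← h]
        exact inf_le_left
      rw [eq_top_iff, ← hspanS, span_le]
      intro x hx
      rcases hc x hx with h1 | h1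
      · exact h1
      · exact hBA h1
    rcases hFill W (S ∩ (B : Set W)) (A ⊓ B) B hlk hd hne (fun h => h0 h.1) with h | h
    · obtain ⟨K', h1, h2, h3, h4⟩ := h
      exact fullLine_side hRel hfree h1 h2 h3 h4
    · exfalso
      obtain ⟨hB3, x, p, q, hp, hq, hp0, hq0, hpq, hx, hxB, hset⟩ := h
      refine hTri A B ⟨⟨hA, hB, fun y hy => hc y (hES y hy)⟩, hd, hB3, x, p, q, hxB,
        fun h => hx ⟨h, hxB⟩, hp, hq, hp0, hq0, hpq, ?_⟩
      intro y hy hyB
      have h1 : y ∈ S ∩ (B : Set W) := ⟨hES y hy, hyB⟩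
      rw [hset] at h1
      simpa using h1
  intro A B hAB
  obtain ⟨-, -, hA, hB, hc, hle⟩ := hAB
  have hc' : ∀ x ∈ S, x ∈ A ∨ x ∈ B := fun x hx => hc x hx mem_top
  have hd : finrank (ZMod 2) ↥(A ⊓ B) = 2 := le_antisymm hle (hgeS A B hA hB hc')
  refine ⟨hd, ?_⟩
  have hN1 := side A B hA hB hc' hd
  have hN2 := side B A hB hA (fun x hx => (hc' x hx).symm) (by rw [inf_comm]; exact hd)
  have hN : ¬ HasK5 (S ∪ {k | k ∈ A ⊓ B ∧ k ≠ 0}) := by
    intro h
    have hcN : ∀ x ∈ S ∪ {k | k ∈ A ⊓ B ∧ k ≠ 0}, x ∈ A ∨ x ∈ B := by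
      rintro x (hx | hx)
      · exact hc' x hx
      · exact Or.inl hx.1.1
    rcases hSum W (S ∪ {k | k ∈ A ⊓ B ∧ k ≠ 0}) A B hcN
      (fun k hk hk0 => Or.inr ⟨hk, hk0⟩) h with h1 | h1
    · apply hN1
      have h2 : (S ∪ {k | k ∈ A ⊓ B ∧ k ≠ 0}) ∩ (A : Set W) =
          (S ∩ (A : Set W)) ∪ {k | k ∈ A ⊓ B ∧ k ≠ 0} := by
        ext x
        constructor
        · rintro ⟨h3 | h3, h4⟩
          · exact Or.inl ⟨h3, h4⟩
          · exact Or.inr h3
        · rintro (h3 | h3)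
          · exact ⟨Or.inl h3.1, h3.2⟩
          · exact ⟨Or.inr h3, h3.1.1⟩
      rwa [h2] at h1
    · apply hN2
      have h2 : (S ∪ {k | k ∈ A ⊓ B ∧ k ≠ 0}) ∩ (B : Set W) =
          (S ∩ (B : Set W)) ∪ {k | k ∈ B ⊓ A ∧ k ≠ 0} := by
        ext x
        constructor
        · rintro ⟨h3 | h3, h4⟩
          · exact Or.inl ⟨h3, h4⟩
          · exact Or.inr ⟨⟨h3.1.2, h3.1.1⟩, h3.2⟩
        · rintro (h3 | h3)
          · exact ⟨Or.inl h3.1, h3.2⟩
          · exact ⟨Or.inr ⟨⟨h3.1.2, h3.1.1⟩, h3.2⟩, h3.1.1⟩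
      rwa [h2] at h1
  intro k hk hk0
  refine hmaxi k hk0 fun h => hN (h.mono ?_)
  rintro x (rfl | hx)
  · exact Or.inr ⟨hk, hk0⟩
  · exact Or.inl hx

end Pool.Agent.WW

end

section

/-!
The HIT lemma: a lift of `Δ_{n+1}` in which every cocircuit of rank four contains a doubled
point has an `M(K5)`-minor.
-/

namespace Pool.Agent.WW

open Submodule Module

variable {V : Type*} [AddCommGroup V] [Module (ZMod 2) V]

/-- `v` or `v + g` is present modulo `K` -/
def PG (E : Set V) (K : Submodule (ZMod 2) V) (g v : V) : Prop :=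
  Pres E K v ∨ Pres E K (v + g)

/-- `v` and `v + g` are present modulo `K` -/
def PD (E : Set V) (K : Submodule (ZMod 2) V) (g v : V) : Prop :=
  Pres E K v ∧ Pres E K (v + g)

/-- the cocircuit of rank four with centre `s (j + 1)` contains a doubled point -/
def HitAt (E : Set V) (K : Submodule (ZMod 2) V) (g h : V) (s : ℕ → V) (j : ℕ) : Prop :=
  PD E K g (s (j + 1)) ∨ PD E K g (s (j + 1) + h) ∨ PD E K g (s j + s (j + 1)) ∨
    PD E K g (s (j + 1) + s (j + 2))

/-- `E` modulo `K` contains a lift of `Δ_{n+1}` with projection centre `g` in which all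
cocircuits of rank four are hit by doubled points -/
structure LiftD (E : Set V) (K : Submodule (ZMod 2) V) (g h : V) (s : ℕ → V) (n : ℕ) : Prop where
  gen : Gen E K
  pg : Pres E K g
  tw : ∀ i, s (i + n) = s i + h
  ph : PG E K g h
  ps : ∀ i, PG E K g (s i)
  pr : ∀ i, PG E K g (s i + s (i + 1))
  dim : finrank (ZMod 2) K + (n + 2) ≤
    finrank (ZMod 2) ↥(K ⊔ span (ZMod 2) ({g, h} ∪ Set.range s))
  hit : ∀ j, HitAt E K g h s j

theorem pres_congr {E : Set V} {K : Submodule (ZMod 2) V} {v w : V} (h : v + w ∈ K)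
    (hv : Pres E K v) : Pres E K w := by
  obtain ⟨x, hx, hxv⟩ := hv
  refine ⟨x, hx, ?_⟩
  have : x + w = (x + v) + (v + w) := by
    rw [add_assoc, mf_cancel]
  rw [this]
  exact K.add_mem hxv h

theorem pres_mono {E : Set V} {K K' : Submodule (ZMod 2) V} (h : K ≤ K') {v : V}
    (hv : Pres E K v) : Pres E K' v := by
  obtain ⟨x, hx, hxv⟩ := hv
  exact ⟨x, hx, h hxv⟩

theorem PG.mono {E : Set V} {K K' : Submodule (ZMod 2) V} (h : K ≤ K') {g v : V}
    (hv : PG E K g v) : PG E K' g v := hv.imp (pres_mono h) (pres_mono h)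

theorem PD.mono {E : Set V} {K K' : Submodule (ZMod 2) V} (h : K ≤ K') {g v : V}
    (hv : PD E K g v) : PD E K' g v := ⟨pres_mono h hv.1, pres_mono h hv.2⟩

/-- congruence modulo `K` and `g` -/
def Cg (K : Submodule (ZMod 2) V) (g v w : V) : Prop := v + w ∈ K ∨ v + w + g ∈ K

theorem Cg.refl {K : Submodule (ZMod 2) V} {g : V} (v : V) : Cg K g v v :=
  Or.inl (by rw [mf_add_self]; exact K.zero_mem)

theorem Cg.symm {K : Submodule (ZMod 2) V} {g v w : V} (h : Cg K g v w) : Cg K g w v := by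
  rcases h with h | h
  · exact Or.inl (by rw [add_comm]; exact h)
  · exact Or.inr (by rw [add_comm w v]; exact h)

theorem Cg.add {K : Submodule (ZMod 2) V} {g v w v' w' : V} (h : Cg K g v w)
    (h' : Cg K g v' w') : Cg K g (v + v') (w + w') := by
  have e : v + v' + (w + w') = (v + w) + (v' + w') := by abel
  rcases h with h | h <;> rcases h' with h' | h'
  · exact Or.inl (by rw [e]; exact K.add_mem h h')
  · exact Or.inr (by
      rw [e, add_assoc]; exact K.add_mem h h')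
  · exact Or.inr (by
      have : v + v' + (w + w') + g = (v + w + g) + (v' + w') := by abel
      rw [this]; exact K.add_mem h h')
  · refine Or.inl ?_
    have : v + v' + (w + w') = (v + w + g) + (v' + w' + g) + (g + g) := by
      rw [mf_add_self, add_zero]
      have e2 : (v + w + g) + (v' + w' + g) = (v + v' + (w + w')) + (g + g) := by abel
      rw [e2, mf_add_self, add_zero]
    rw [this, mf_add_self, add_zero]
    exact K.add_mem h h'

theorem PG.congr {E : Set V} {K : Submodule (ZMod 2) V} {g v w : V} (h : Cg K g v w)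
    (hv : PG E K g v) : PG E K g w := by
  rcases h with h | h <;> rcases hv with hv | hv
  · exact Or.inl (pres_congr h hv)
  · refine Or.inr (pres_congr ?_ hv)
    have : v + g + (w + g) = v + w + (g + g) := by abel
    rw [this, mf_add_self, add_zero]; exact h
  · exact Or.inr (pres_congr (by rw [← add_assoc]; exact h) hv)
  · refine Or.inl (pres_congr ?_ hv)
    have : v + g + w = v + w + g := by abel
    rw [this]; exact h

theorem PD.congr {E : Set V} {K : Submodule (ZMod 2) V} {g v w : V} (h : Cg K g v w)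
    (hv : PD E K g v) : PD E K g w := by
  obtain ⟨h1, h2⟩ := hv
  rcases h with h | h
  · refine ⟨pres_congr h h1, pres_congr ?_ h2⟩
    have : v + g + (w + g) = v + w + (g + g) := by abel
    rw [this, mf_add_self, add_zero]; exact h
  · refine ⟨pres_congr ?_ h2, pres_congr (by rw [← add_assoc]; exact h) h1⟩
    have : v + g + w = v + w + g := by abel
    rw [this]; exact h

theorem ht_periodic {Q : ℕ → Prop} {n : ℕ} (hn : 0 < n) (hb : ∀ j < n, Q j)
    (hs : ∀ j, Q j → Q (j + n)) (j : ℕ) : Q j := by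
  induction j using Nat.strong_induction_on with
  | _ j ih =>
    by_cases hj : j < n
    · exact hb j hj
    · have h1 := hs (j - n) (ih (j - n) (by omega))
      rwa [Nat.sub_add_cancel (by omega)] at h1

theorem ht_add_add (a h : V) : a + h + h = a := by rw [add_assoc, mf_add_self, add_zero]

/-- a twisted sequence has period `2 n` -/
theorem ht_period {n : ℕ} {h : V} {s : ℕ → V} (tw : ∀ i, s (i + n) = s i + h) (i k : ℕ) :
    s (i + 2 * n * k) = s i := by
  induction k with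
  | zero => rw [Nat.mul_zero, Nat.add_zero]
  | succ k ih =>
    have e : i + 2 * n * (k + 1) = (i + 2 * n * k + n) + n := by ring
    rw [e, tw, tw, ih, ht_add_add]

theorem ht_range {n : ℕ} (hn : 0 < n) {h : V} {s : ℕ → V} (tw : ∀ i, s (i + n) = s i + h)
    (k : ℕ) : Set.range (fun i => s (i + k)) = Set.range s := by
  apply Set.Subset.antisymm
  · rintro _ ⟨i, rfl⟩
    exact ⟨i + k, rfl⟩
  · rintro _ ⟨i, rfl⟩
    refine ⟨i + 2 * n * k - k, ?_⟩
    change s (i + 2 * n * k - k + k) = s i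
    have hk : k ≤ 2 * n * k := Nat.le_mul_of_pos_left k (by omega)
    rw [Nat.sub_add_cancel (by omega), ht_period tw]

theorem LiftD.rotate [FiniteDimensional (ZMod 2) V] {E : Set V} {K : Submodule (ZMod 2) V}
    {g h : V} {s : ℕ → V} {n : ℕ}
    (L : LiftD E K g h s n) (hn : 0 < n) (k : ℕ) : LiftD E K g h (fun i => s (i + k)) n := by
  refine ⟨L.gen, L.pg, fun i => ?_, L.ph, fun i => L.ps _, fun i => ?_, ?_, fun j => ?_⟩
  · rw [← L.tw]; congr 1; omega
  · have := L.pr (i + k)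
    rwa [show i + k + 1 = i + 1 + k by omega] at this
  · rw [ht_range hn L.tw k]
    exact L.dim
  · have := L.hit (j + k)
    unfold HitAt at this ⊢
    rwa [show j + k + 1 = j + 1 + k by omega, show j + k + 2 = j + 2 + k by omega] at this

/-- contraction of the last rim -/
theorem LiftD.step [FiniteDimensional (ZMod 2) V] {E : Set V} {K : Submodule (ZMod 2) V}
    {g h : V} {s : ℕ → V} {n : ℕ} (L : LiftD E K g h s (n + 1)) (hn : 2 ≤ n)
    (hc : ¬ PD E K g (s n + s (n + 1)) ∨ PD E K g (s 0 + s 1)) :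
    ∃ (K' : Submodule (ZMod 2) V) (s' : ℕ → V), LiftD E K' g h s' n := by
  -- the new sequence
  set s' : ℕ → V := fun i => s (i % n) + ((i / n : ℕ) : ZMod 2) • h with hs'
  have hn0 : 0 < n := by omega
  have tw' : ∀ i, s' (i + n) = s' i + h := by
    intro i
    simp only [hs']
    rw [Nat.add_mod_right, Nat.add_div_right i hn0, Nat.cast_succ, add_smul, one_smul, add_assoc]
  have hlt : ∀ i < n, s' i = s i := by
    intro i hi
    simp only [hs']
    rw [Nat.mod_eq_of_lt hi, Nat.div_eq_of_lt hi, Nat.cast_zero, zero_smul, add_zero]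
  -- the contracted element
  obtain ⟨b, hb, hbe⟩ : ∃ b, Pres E K b ∧ (b = s n + s (n + 1) ∨ b = s n + s (n + 1) + g) := by
    rcases L.pr n with h1 | h1
    · exact ⟨_, h1, Or.inl rfl⟩
    · exact ⟨_, h1, Or.inr rfl⟩
  obtain ⟨x, hxE, hxb⟩ := hb
  set K' : Submodule (ZMod 2) V := K ⊔ span (ZMod 2) {x} with hK'
  have hKK : K ≤ K' := le_sup_left
  have hxK : x ∈ K' := mem_sup_right (mem_span_singleton_self x)
  have hbK : b ∈ K' := by
    have : b = x + (x + b) := (mf_cancel x b).symm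
    rw [this]
    exact K'.add_mem hxK (hKK hxb)
  have hcg : Cg K' g (s n) (s' n) := by
    have e1 : s' n = s 0 + h := by
      have := tw' 0
      rw [Nat.zero_add] at this
      rw [this, hlt 0 hn0]
    have e2 : s (n + 1) = s 0 + h := by
      have := L.tw 0
      rwa [Nat.zero_add] at this
    rw [e1, ← e2]
    rcases hbe with h1 | h1
    · exact Or.inl (h1 ▸ hbK)
    · exact Or.inr (h1 ▸ hbK)
  have e1 : s' (n + 1) = s (n + 2) := by
    have h1 := tw' 1
    have h2 := L.tw 1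
    rw [show 1 + n = n + 1 by omega] at h1
    rw [show 1 + (n + 1) = n + 2 by omega] at h2
    rw [h1, h2, hlt 1 (by omega)]
  have e2 : s' n = s (n + 1) := by
    have h1 := tw' 0
    have h2 := L.tw 0
    rw [Nat.zero_add] at h1 h2
    rw [h1, h2, hlt 0 hn0]
  have cgi : ∀ i ≤ n, Cg K' g (s i) (s' i) := by
    intro i hi
    rcases Nat.lt_or_eq_of_le hi with h1 | h1
    · rw [hlt i h1]; exact Cg.refl _
    · rw [h1]; exact hcg
  have cgh : Cg K' g h h := Cg.refl _
  refine ⟨K', s', ⟨?_, pres_mono hKK L.pg, tw', L.ph.mono hKK, ?_, ?_, ?_, ?_⟩⟩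
  · -- gen
    refine sup_le (L.gen.trans (span_mono ?_)) ?_
    · rintro y ⟨hy1, hy2⟩
      exact ⟨hy1, hKK hy2⟩
    · rw [span_singleton_le_iff_mem]
      exact subset_span ⟨hxE, hxK⟩
  · -- ps
    refine ht_periodic hn0 (fun i hi => ?_) (fun i hi => ?_)
    · exact ((L.ps i).mono hKK).congr (cgi i hi.le)
    · have e3 : s' (i + n) = s (i % n) + (((i + n) / n : ℕ) : ZMod 2) • h := by
        simp only [hs', Nat.add_mod_right]
      have hc2 : ∀ c : ZMod 2, c = 0 ∨ c = 1 := by decide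
      rcases hc2 (((i + n) / n : ℕ) : ZMod 2) with h0 | h0
      · rw [e3, h0, zero_smul, add_zero]
        exact (L.ps _).mono hKK
      · rw [e3, h0, one_smul, ← L.tw]
        exact (L.ps _).mono hKK
  · -- pr
    refine ht_periodic hn0 (fun i hi => ?_) (fun i hi => ?_)
    · exact ((L.pr i).mono hKK).congr ((cgi i hi.le).add (cgi (i + 1) hi))
    · have e3 : s' (i + n) + s' (i + n + 1) = s' i + s' (i + 1) := by
        rw [show i + n + 1 = i + 1 + n by omega, tw', tw']
        have : s' i + h + (s' (i + 1) + h) = s' i + s' (i + 1) + (h + h) := by abel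
        rw [this, mf_add_self, add_zero]
      rw [e3]
      exact hi
  · -- dim
    have h1 : finrank (ZMod 2) K' ≤ finrank (ZMod 2) K + 1 := by
      have h2 := Submodule.finrank_add_le_finrank_add_finrank K (span (ZMod 2) {x})
      have h3 : finrank (ZMod 2) ↥(span (ZMod 2) {x}) ≤ 1 := by
        by_cases hx0 : x = 0
        · rw [hx0, span_zero_singleton, finrank_bot]; omega
        · rw [finrank_span_singleton hx0]
      exact h2.trans (by omega)
    have h2 : K ⊔ span (ZMod 2) ({g, h} ∪ Set.range s) ≤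
        K' ⊔ span (ZMod 2) ({g, h} ∪ Set.range s') := by
      refine sup_le (hKK.trans le_sup_left) ?_
      rw [span_le]
      rintro y (hy | ⟨i, rfl⟩)
      · exact mem_sup_right (subset_span (Or.inl hy))
      · have hg : g ∈ K' ⊔ span (ZMod 2) ({g, h} ∪ Set.range s') :=
          mem_sup_right (subset_span (Or.inl (Or.inl rfl)))
        have hh : h ∈ K' ⊔ span (ZMod 2) ({g, h} ∪ Set.range s') :=
          mem_sup_right (subset_span (Or.inl (Or.inr rfl)))
        refine ht_periodic (Q := fun i => s i ∈ K' ⊔ span (ZMod 2) ({g, h} ∪ Set.range s'))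
          (Nat.succ_pos n) (fun j hj => ?_) (fun j hj => ?_) i
        · have h4 : s' j ∈ K' ⊔ span (ZMod 2) ({g, h} ∪ Set.range s') :=
            mem_sup_right (subset_span (Or.inr ⟨j, rfl⟩))
          rcases cgi j (by omega) with h5 | h5
          · have : s j = (s j + s' j) + s' j := (ht_add_add _ _).symm
            rw [this]
            exact add_mem (mem_sup_left h5) h4
          · have : s j = (s j + s' j + g) + s' j + g := by
              have e4 : (s j + s' j + g) + s' j + g = s j + (s' j + s' j) + (g + g) := by abel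
              rw [e4, mf_add_self, mf_add_self, add_zero, add_zero]
            rw [this]
            exact add_mem (add_mem (mem_sup_left h5) h4) hg
        · change s (j + (n + 1)) ∈ _
          rw [L.tw]
          exact add_mem hj hh
    have h3 := Submodule.finrank_mono h2
    have h4 := L.dim
    omega
  · -- hit
    refine ht_periodic hn0 (fun j hj => ?_) (fun j hj => ?_)
    · by_cases hj2 : j + 2 ≤ n
      · have c0 := cgi j (by omega)
        have c1 := cgi (j + 1) (by omega)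
        have c2 := cgi (j + 2) hj2
        rcases L.hit j with h1 | h1 | h1 | h1
        · exact Or.inl ((h1.mono hKK).congr c1)
        · exact Or.inr (Or.inl ((h1.mono hKK).congr (c1.add cgh)))
        · exact Or.inr (Or.inr (Or.inl ((h1.mono hKK).congr (c0.add c1))))
        · exact Or.inr (Or.inr (Or.inr ((h1.mono hKK).congr (c1.add c2))))
      · have hjn : j + 1 = n := by omega
        have hj2 : j + 2 = n + 1 := by omega
        rcases hc with hc | hc
        · have h1 := L.hit j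
          unfold HitAt at h1 ⊢
          rw [hj2, hjn] at *
          rcases h1 with h1 | h1 | h1 | h1
          · exact Or.inl ((h1.mono hKK).congr (cgi n le_rfl))
          · exact Or.inr (Or.inl ((h1.mono hKK).congr ((cgi n le_rfl).add cgh)))
          · exact Or.inr (Or.inr (Or.inl ((h1.mono hKK).congr
              ((cgi j (by omega)).add (cgi n le_rfl)))))
          · exact absurd h1 hc
        · refine Or.inr (Or.inr (Or.inr ?_))
          rw [hj2, hjn, e2, e1]
          have e3 : s (n + 1) + s (n + 2) = s 0 + s 1 := by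
            have h1 := L.tw 0
            have h2 := L.tw 1
            rw [Nat.zero_add] at h1
            rw [show 1 + (n + 1) = n + 2 by omega] at h2
            rw [h1, h2]
            have : s 0 + h + (s 1 + h) = s 0 + s 1 + (h + h) := by abel
            rw [this, mf_add_self, add_zero]
          rw [e3]
          exact hc.mono hKK
    · unfold HitAt at hj ⊢
      have f1 : s' (j + n + 1) = s' (j + 1) + h := by
        rw [show j + n + 1 = j + 1 + n by omega, tw']
      have f2 : s' (j + n + 2) = s' (j + 2) + h := by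
        rw [show j + n + 2 = j + 2 + n by omega, tw']
      have f3 : ∀ a c : V, a + h + (c + h) = a + c := by
        intro a c
        have : a + h + (c + h) = a + c + (h + h) := by abel
        rw [this, mf_add_self, add_zero]
      rw [f1, f2, tw', f3, f3, ht_add_add]
      rcases hj with h1 | h1 | h1 | h1
      · exact Or.inr (Or.inl h1)
      · exact Or.inl h1
      · exact Or.inr (Or.inr (Or.inl h1))
      · exact Or.inr (Or.inr (Or.inr h1))

end Pool.Agent.WW

end

section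

/-!
Statements of the first half of the module K4: the sets `Delta`, contractible elements outside a
`K4` plane, the analysis of large away sides, assembly.
-/

namespace Pool.Agent.WW

open Submodule Module

universe u

/-! ### The sets `Delta` -/

/-- D1: rotation of the spokes -/
def KDelShift : Prop := ∀ (V : Type u) [AddCommGroup V] [Module (ZMod 2) V] (n : ℕ) (h : V)
  (s : ℕ → V) (S : Set V) (k : ℕ), 1 ≤ n → Spk n h s → DelSet h s S →
  Spk n h (fun i => s (i + k)) ∧ DelSet h (fun i => s (i + k)) S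

/-- D2: the planes with six points -/
def KDelPlane : Prop := ∀ (V : Type u) [AddCommGroup V] [Module (ZMod 2) V] (n : ℕ) (h : V)
  (s : ℕ → V) (S : Set V) (Γ : Submodule (ZMod 2) V), 4 ≤ n → Spk n h s → DelSet h s S →
  K4P S Γ → ∃ i, Γ = span (ZMod 2) {h, s i, s (i + 1)}

/-- D3: the rims are contractible -/
def KDelRim : Prop := ∀ (V : Type u) [AddCommGroup V] [Module (ZMod 2) V] (n : ℕ) (h : V)
  (s : ℕ → V) (S : Set V) (i : ℕ), 3 ≤ n → Spk n h s → DelSet h s S → Ctr S (s i + s (i + 1))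

/-- D4: the traces at a rim next to a `K4` plane are large -/
def KDelTr : Prop := ∀ (V : Type u) [AddCommGroup V] [Module (ZMod 2) V] (n : ℕ) (h : V)
  (s : ℕ → V) (S : Set V) (Q R : Submodule (ZMod 2) V), 5 ≤ n → Spk n h s → DelSet h s S →
  Tr S (span (ZMod 2) {h, s 0, s 1}) Q R (s 1 + s 2) → 4 ≤ finrank (ZMod 2) R

/-- D5: the interior element used for large away sides -/
def KDelCore : Prop := ∀ (V : Type u) [AddCommGroup V] [Module (ZMod 2) V]
  [FiniteDimensional (ZMod 2) V] (n : ℕ) (S : Set V) (Γ : Submodule (ZMod 2) V), 5 ≤ n →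
  IsDel n S → K4P S Γ →
  ∃ g ∈ S, g ∉ Γ ∧ Ctr S g ∧ ∀ Q R : Submodule (ZMod 2) V, Tr S Γ Q R g →
    4 ≤ finrank (ZMod 2) R

/-- D6: number of points -/
def KDelCard : Prop := ∀ (V : Type u) [AddCommGroup V] [Module (ZMod 2) V] (n : ℕ)
  (S : Set V), 3 ≤ n → IsDel n S → S.ncard = 3 * n + 1

/-- D7: the cocircuits of rank four at a spoke -/
def KDelC4 : Prop := ∀ (V : Type u) [AddCommGroup V] [Module (ZMod 2) V]
  [FiniteDimensional (ZMod 2) V] (n : ℕ) (S : Set V), 3 ≤ n → IsDel n S → ¬ NoC4 S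

/-! ### `K4` planes and contractions -/

/-- E1: a `K4` plane is not covered by two proper subspaces -/
def KUnsp : Prop := ∀ (V : Type u) [AddCommGroup V] [Module (ZMod 2) V]
  [FiniteDimensional (ZMod 2) V] (E : Set V) (P : Submodule (ZMod 2) V), (0 : V) ∉ E →
  K4P E P → Unsp E P

/-- E2: the image of a `K4` plane -/
def KMap : Prop := ∀ (V : Type u) [AddCommGroup V] [Module (ZMod 2) V]
  [FiniteDimensional (ZMod 2) V] [DecidableEq V] (W : Type u) [AddCommGroup W]
  [Module (ZMod 2) W] [FiniteDimensional (ZMod 2) W] [DecidableEq W] (E : Finset V)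
  (π : V →ₗ[ZMod 2] W) (e : V) (P : Submodule (ZMod 2) V), Function.Surjective π →
  (∀ v, π v = 0 ↔ v = 0 ∨ v = e) → e ∉ P → (0 : V) ∉ E → K4P (E : Set V) P →
  K4P (contr π E : Set W) (P.map π)

/-- the interface with the modules HIT and L4 -/
def KHIT : Prop := ∀ (V : Type u) [AddCommGroup V] [Module (ZMod 2) V]
  [FiniteDimensional (ZMod 2) V] [DecidableEq V] (W : Type u) [AddCommGroup W]
  [Module (ZMod 2) W] [FiniteDimensional (ZMod 2) W] [DecidableEq W] (E : Finset V)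
  (π : V →ₗ[ZMod 2] W) (e : V) (n : ℕ) (h : W) (s : ℕ → W), Function.Surjective π →
  (∀ v, π v = 0 ↔ v = 0 ∨ v = e) → (0 : V) ∉ E → e ∈ E → ¬ HasK5 (E : Set V) → 5 ≤ n →
  Spk n h s → DelSet h s (contr π E : Set W) →
  ∃ (j : ℕ) (H : Submodule (ZMod 2) V) (a b c d : V), H ≠ ⊤ ∧ e ∈ H ∧
    (E : Set V) \ (H : Set V) = {a, b, c, d} ∧ π a = s (j + 1) ∧ π b = s (j + 1) + h ∧
    π c = s j + s (j + 1) ∧ π d = s (j + 1) + s (j + 2)

/-- L4: coextensions of `Delta` by an element of a cocircuit of rank four -/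
def KL4 : Prop := ∀ (V : Type u) [AddCommGroup V] [Module (ZMod 2) V]
  [FiniteDimensional (ZMod 2) V] [DecidableEq V] (W : Type u) [AddCommGroup W]
  [Module (ZMod 2) W] [FiniteDimensional (ZMod 2) W] [DecidableEq W] (E : Finset V)
  (π : V →ₗ[ZMod 2] W) (g : V) (H : Submodule (ZMod 2) V) (n : ℕ), Function.Surjective π →
  (∀ v, π v = 0 ↔ v = 0 ∨ v = g) → Good (E : Set V) → Coc4 (E : Set V) H → g ∈ E → g ∉ H →
  5 ≤ n → IsDel n (contr π E : Set W) → IsDel (n + 1) (E : Set V)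

/-- the classification in rank `r` -/
def P2 (r : ℕ) : Prop := ∀ (V : Type u) [AddCommGroup V] [Module (ZMod 2) V]
  [FiniteDimensional (ZMod 2) V] (E : Set V), Good E → finrank (ZMod 2) V = r → ¬ K4F E →
  IsDel (r - 1) E

/-- E3: Step 0, there is no away side which is a hyperplane, except in `Delta` -/
def KStep0 : Prop := KL4.{u} → ∀ (V : Type u) [AddCommGroup V] [Module (ZMod 2) V]
  [FiniteDimensional (ZMod 2) V] (E : Set V) (P G H : Submodule (ZMod 2) V), Good E →
  7 ≤ finrank (ZMod 2) V → P2.{u} (finrank (ZMod 2) V - 1) → K4P E P → Away E P G H →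
  finrank (ZMod 2) G + 1 = finrank (ZMod 2) V → IsDel (finrank (ZMod 2) V - 1) E

/-- E4: a contractible element in a cocircuit of rank four -/
def KStepA : Prop := KL4.{u} → ∀ (V : Type u) [AddCommGroup V] [Module (ZMod 2) V]
  [FiniteDimensional (ZMod 2) V] (E : Set V) (P H : Submodule (ZMod 2) V) (g : V), Good E →
  7 ≤ finrank (ZMod 2) V → P2.{u} (finrank (ZMod 2) V - 1) → K4P E P → Coc4 E H → g ∈ E →
  g ∉ H → g ∉ P → Ctr E g → IsDel (finrank (ZMod 2) V - 1) E

/-- E6: a noncontractible element whose image is contractible -/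
def KLiftCtr : Prop := ∀ (V : Type u) [AddCommGroup V] [Module (ZMod 2) V]
  [FiniteDimensional (ZMod 2) V] [DecidableEq V] (W : Type u) [AddCommGroup W]
  [Module (ZMod 2) W] [FiniteDimensional (ZMod 2) W] [DecidableEq W] (E : Finset V)
  (π : V →ₗ[ZMod 2] W) (e c : V) (A B : Submodule (ZMod 2) V), Function.Surjective π →
  (∀ v, π v = 0 ↔ v = 0 ∨ v = e) → e ∈ E → Good (E : Set V) → Good (contr π E : Set W) →
  Cov (E : Set V) A B → finrank (ZMod 2) ↥(A ⊓ B) = 3 → c ∈ E → c ∈ A → c ∈ B → c ≠ e →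
  Ctr (contr π E : Set W) (π c) →
  (e ∉ A ∧ finrank (ZMod 2) A + 1 = finrank (ZMod 2) V) ∨
    (e ∉ B ∧ finrank (ZMod 2) B + 1 = finrank (ZMod 2) V)

/-- E5: Step 1, a contractible element outside a `K4` plane -/
def KStep1 : Prop := KL4.{u} → KHIT.{u} → ∀ (V : Type u) [AddCommGroup V]
  [Module (ZMod 2) V] [FiniteDimensional (ZMod 2) V] (E : Set V) (P : Submodule (ZMod 2) V)
  (e : V), Good E → 7 ≤ finrank (ZMod 2) V → P2.{u} (finrank (ZMod 2) V - 1) → K4P E P →
  e ∈ E → e ∉ P → Ctr E e → IsDel (finrank (ZMod 2) V - 1) E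

/-! ### Away sides -/

/-- the compression of an away side -/
def KW : Prop := ∀ (V : Type u) [AddCommGroup V] [Module (ZMod 2) V]
  [FiniteDimensional (ZMod 2) V] (E : Set V) (P G H : Submodule (ZMod 2) V), Good E →
  K4P E P → Away E P G H →
  ∃ q ∈ G ⊓ H, q ≠ 0 ∧ Good ((fun x : G => (x : V)) ⁻¹'
    (E ∪ {x | x ∈ G ⊓ H ∧ x ≠ 0 ∧ x ≠ q}))

/-- F1: crossing, first case -/
def KCrossA : Prop := ∀ (V : Type u) [AddCommGroup V] [Module (ZMod 2) V]
  [FiniteDimensional (ZMod 2) V] (E : Set V) (P G H T T' : Submodule (ZMod 2) V) (g : V),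
  Good E → K4P E P → Away E P G H → Away E P T T' → g ∈ E → g ∉ H → g ∈ T → g ∈ T' →
  H ⊔ T' ≠ ⊤ → G ⊓ T < G ∧ G ⊓ (H ⊔ T') < G ∧ (∀ x ∈ E, x ∈ G → x ∈ T ∨ x ∈ H ⊔ T') ∧
    finrank (ZMod 2) ↥(G ⊓ T ⊓ (H ⊔ T')) = 3

/-- F2: crossing, second case -/
def KCrossB : Prop := ∀ (V : Type u) [AddCommGroup V] [Module (ZMod 2) V]
  [FiniteDimensional (ZMod 2) V] (E : Set V) (P G H T T' : Submodule (ZMod 2) V) (g : V),
  Good E → K4P E P → Away E P G H → Away E P T T' → g ∈ E → g ∉ H → g ∈ T → g ∈ T' →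
  H ⊔ T' = ⊤ → finrank (ZMod 2) ↥(G ⊓ T) ≤ 3 ∧ G ⊓ T' ≠ G ∧ (∃ x ∈ E, x ∉ H ∧ x ∉ T') ∧
    g ∈ span (ZMod 2) {x : V | x ∈ E ∧ x ∉ H ∧ x ∉ T'} ⊔ H ∧
    (finrank (ZMod 2) ↥(G ⊓ T) = 3 → G ⊔ T = ⊤ ∨ Away E P (G ⊔ T) (H ⊓ T')) ∧
    (G ⊔ T' ≠ ⊤ → 4 ≤ finrank (ZMod 2) ↥(G ⊓ T') →
      G ⊓ T' ≤ span (ZMod 2) {x : V | x ∈ E ∧ x ∉ H ∧ x ∉ T})

/-- F3: a noncontractible element of an away side, seen in the compression -/
def KTrace : Prop := ∀ (V : Type u) [AddCommGroup V] [Module (ZMod 2) V]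
  [FiniteDimensional (ZMod 2) V] (E : Set V) (P G H : Submodule (ZMod 2) V) (q : V) (g : ↥G),
  Good E → K4P E P → Away E P G H → q ∈ G ⊓ H → q ≠ 0 → (g : V) ∈ E → (g : V) ∉ H →
  ¬ Ctr E (g : V) →
  Ctr ((fun x : G => (x : V)) ⁻¹' (E ∪ {x | x ∈ G ⊓ H ∧ x ≠ 0 ∧ x ≠ q})) g →
  ∃ T T' : Submodule (ZMod 2) V, Away E P T T' ∧ (g : V) ∈ T ∧ (g : V) ∈ T' ∧
    H ⊔ T' = ⊤ ∧ finrank (ZMod 2) ↥(T.comap G.subtype) ≤ 3 ∧
    Tr ((fun x : G => (x : V)) ⁻¹' (E ∪ {x | x ∈ G ⊓ H ∧ x ≠ 0 ∧ x ≠ q}))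
      (H.comap G.subtype) (T'.comap G.subtype) (T.comap G.subtype) g ∧
    (finrank (ZMod 2) ↥(T.comap G.subtype) = 3 → G ⊔ T = ⊤ ∨ Away E P (G ⊔ T) (H ⊓ T')) ∧
    (G ⊔ T' ≠ ⊤ → 4 ≤ finrank (ZMod 2) ↥(T'.comap G.subtype) →
      T'.comap G.subtype ≤ span (ZMod 2) {x : ↥G | (x : V) ∈ E ∧ (x : V) ∉ H ∧ (x : V) ∉ T})

/-- F4: away sides have dimension at most five; `hc` says that there is no contractible element
outside `P` -/
def KS2 : Prop := ∀ (V : Type u) [AddCommGroup V] [Module (ZMod 2) V]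
  [FiniteDimensional (ZMod 2) V] (E : Set V) (P G H : Submodule (ZMod 2) V), Good E →
  K4P E P → (∀ e ∈ E, e ∉ P → ¬ Ctr E e) →
  (∀ d, 6 ≤ d → d < finrank (ZMod 2) V → P2.{u} d) → Away E P G H → finrank (ZMod 2) G ≤ 5

/-- table: good sets of rank five with a `K4` plane -/
def TabK5 : Prop := ∀ (V : Type u) [AddCommGroup V] [Module (ZMod 2) V]
  [FiniteDimensional (ZMod 2) V] (W : Set V), finrank (ZMod 2) V = 5 → Good W → ¬ K4F W →
  W.ncard ≤ 14 ∧ ∀ (Γ : Submodule (ZMod 2) V) (x : V), K4P W Γ → x ∈ W → x ∈ Γ →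
    ∃ g ∈ W, g ∉ Γ ∧ Ctr W g ∧ ∀ Q R : Submodule (ZMod 2) V, Tr W Γ Q R g →
      3 ≤ finrank (ZMod 2) R ∧ (finrank (ZMod 2) R = 3 → (x ∈ Q ∨ x ∈ R) →
        (4 ≤ finrank (ZMod 2) Q → Q ≤ span (ZMod 2) {y : V | y ∈ W ∧ y ∉ Γ ∧ y ∉ R}) → False)

/-- F5: away sides have dimension four -/
def KS3 : Prop := TabK5.{u} → ∀ (V : Type u) [AddCommGroup V] [Module (ZMod 2) V]
  [FiniteDimensional (ZMod 2) V] (E : Set V) (P : Submodule (ZMod 2) V), Good E →
  7 ≤ finrank (ZMod 2) V → K4P E P → (∀ e ∈ E, e ∉ P → ¬ Ctr E e) →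
  (∀ G H : Submodule (ZMod 2) V, Away E P G H → finrank (ZMod 2) G ≤ 5) →
  ∀ G H : Submodule (ZMod 2) V, Away E P G H → finrank (ZMod 2) G = 4

/-- Steps 4 and 5: it is impossible that all away sides have dimension four -/
def KS5 : Prop := TabK5.{u} → ∀ (V : Type u) [AddCommGroup V] [Module (ZMod 2) V]
  [FiniteDimensional (ZMod 2) V] (E : Set V) (P : Submodule (ZMod 2) V), Good E →
  7 ≤ finrank (ZMod 2) V → K4P E P → (∀ e ∈ E, e ∉ P → ¬ Ctr E e) →
  (∀ G H : Submodule (ZMod 2) V, Away E P G H → finrank (ZMod 2) G = 4) →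
  (8 ≤ finrank (ZMod 2) V → P2.{u} (finrank (ZMod 2) V - 2)) → False

/-! ### Assembly -/

/-- M1: the classification in all ranks -/
def KP2 : Prop := KL4.{u} → KHIT.{u} → TabK5.{u} → P2.{u} 6 → ∀ r, 6 ≤ r → P2.{u} r

/-- M2: the interfaces -/
def KInt : Prop := KHIT.{u} → (∀ r, 6 ≤ r → P2.{u} r) → K4a.{u} ∧ K4b.{u} ∧ K4c.{u}

end Pool.Agent.WW

end

section

/-!
C3NoBadX: an element of the cocircuit without bad separation.
-/

namespace Pool.Agent.WW

open Submodule Module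

universe u

theorem c3NoBadX (hQ : C3Quad.{u}) (hPi : C3QuadPi.{u}) (hT : C3Types.{u}) (hO : C3OneCtr.{u})
    (hSd : C3Sides.{u}) (hCr : C3Cross.{u}) (hPl : C3Plane.{u}) : C3NoBadX.{u} := by
  intro V _ _ _ _ E H hgood hk4 hdim hctr hcoc
  obtain ⟨F, A, Γ, x0, hquad, hx0, hF, hA⟩ := hQ V E H hgood (by omega) hcoc
  have hNA : NoAss F A Γ := by
    rcases hT V E H F A Γ x0 hgood.free hk4 hquad hx0 hF hA with h | h
    · obtain ⟨y, hy, -, hyc, hyd⟩ := hO V E H F A Γ x0 hgood hcoc.1 hquad hx0 hF hA h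
      have := hctr y hy hyc
      omega
    · exact h.1
  by_contra hcon
  -- every element on at most two full lines has a bad separation
  have hbad : ∀ a ∈ A, tA F A a ≤ 2 → ∃ p : Submodule (ZMod 2) ↥H × Submodule (ZMod 2) ↥H,
      Cov (NA F A a : Set ↥H) p.1 p.2 ∧ finrank (ZMod 2) ↥(p.1 ⊓ p.2) = 2 ∧
        ¬ Light (NA F A a) p.1 p.2 ∧ ¬ Light (NA F A a) p.2 p.1 := by
    intro a ha hta
    by_contra hno
    apply hcon
    refine ⟨F, A, Γ, x0, a, hquad, hx0, hF, hA, ha, hta, ?_⟩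
    intro S S' hcov hd
    by_contra hl
    push Not at hl
    exact hno ⟨(S, S'), hcov, hd, hl.1, hl.2⟩
  choose! p hp using hbad
  -- plane sides are light
  have hplane : ∀ a ∈ A, ∀ T T' : Submodule (ZMod 2) ↥H, Cov (NA F A a : Set ↥H) T T' →
      finrank (ZMod 2) ↥(T ⊓ T') = 2 → finrank (ZMod 2) T = 3 → Light (NA F A a) T T' := by
    intro a ha T T' hcov hd hT3
    obtain ⟨π, hsurj, hker, hcontr, -⟩ := hPi V E H F A x0 a hcoc.1 hgood.zero hx0 hF hA ha
    rw [← hcontr] at hcov ⊢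
    exact hPl V ↥H E π (x0 + (a : V)) T T' hgood hk4 hdim hctr hsurj hker ((hA a).1 ha) hcov hd hT3
  refine hNA (fun a => (p a).1 ⊓ Γ) (fun a => (p a).2 ⊓ Γ) ?_ ?_
  · intro a ha hta
    obtain ⟨h1, h2, -, -⟩ := hp a ha hta
    obtain ⟨-, -, -, h3⟩ := hSd ↥H F A Γ a hquad ha
    obtain ⟨h4, h5⟩ := h3 _ _ h1 h2.le
    refine ⟨inf_le_right, inf_le_right, fun h => h4 (inf_eq_right.1 h),
      fun h => h5 (inf_eq_right.1 h), ?_⟩
    intro q hq hqΓ
    rcases h1.2.2 q hq with h | h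
    · exact Or.inl ⟨h, hqΓ⟩
    · exact Or.inr ⟨h, hqΓ⟩
  · intro a ha b hb _ hta htb
    obtain ⟨h1, h2, h3, h4⟩ := hp a ha hta
    obtain ⟨g1, g2, g3, g4⟩ := hp b hb htb
    exact hCr ↥H F A Γ _ _ _ _ a b hquad ha hb (hplane a ha) (hplane b hb) h1 h2 g1 g2 h3 h4 g3 g4

end Pool.Agent.WW

end

section

/-!
A2: a good set of rank at least five with a flat whose complement has rank at most four has a
cocircuit of rank four.
-/

namespace Pool.Agent.WW

open Submodule Module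

universe u

theorem c3NoC4 : C3NoC4.{u} := by
  intro V _ _ _ E hE hn hno
  obtain ⟨-, hspan, hsep, -⟩ := (good_iff_sepGe E).1 hE
  unfold NoC4 at hno
  push Not at hno
  obtain ⟨H, hH, hlt⟩ := hno
  refine ⟨H, ?_⟩
  set A := span (ZMod 2) (E \ (H : Set V)) with hA
  have hAtop : A ≠ ⊤ := by
    intro h
    rw [h, finrank_top] at hlt
    omega
  have h1 := hsep A H hAtop hH (by
    intro x hx
    by_cases hxH : x ∈ H
    · exact Or.inr hxH
    · exact Or.inl (subset_span ⟨hx, hxH⟩))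
  have hsup : A ⊔ H = ⊤ := by
    rw [eq_top_iff, ← hspan]
    refine span_le.2 fun x hx => ?_
    by_cases hxH : x ∈ H
    · exact (le_sup_right : H ≤ A ⊔ H) hxH
    · exact (le_sup_left : A ≤ A ⊔ H) (subset_span ⟨hx, hxH⟩)
  have h2 := Submodule.finrank_sup_add_finrank_inf_eq A H
  rw [hsup, finrank_top] at h2
  have h3 : finrank (ZMod 2) H < finrank (ZMod 2) V := Submodule.finrank_lt hH
  constructor
  · omega
  · rw [← hA]
    omega

end Pool.Agent.WW

end

section

/-!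
B9: contractions at `One`.
-/

namespace Pool.Agent.WW

open Submodule Module

universe u

theorem c3OneCtr (hPi : C3QuadPi.{u}) (hSix : C3Six.{u}) : C3OneCtr.{u} := by
  intro V _ _ _ _ E H F A Γ x0 hG hHd hQ hx0 hF hA hOne
  obtain ⟨a, ha, h6, ht⟩ := hOne
  obtain ⟨π, hsurj, hker, hcontr, hdeg⟩ := hPi V E H F A x0 a hHd hG.zero hx0 hF hA ha
  have hyE : x0 + (a : V) ∈ E := (hA a).1 ha
  have hyH : x0 + (a : V) ∉ H := by
    intro h
    exact hx0 ((add_mem_cancel_right a.2).1 h)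
  refine ⟨x0 + (a : V), hyE, hyH, ?_, by omega⟩
  have hsep := hSix (↥H) F A Γ a hQ ha h6
  rw [← hcontr] at hsep
  have hy0 : x0 + (a : V) ≠ 0 := fun h => hyH (h ▸ zero_mem _)
  intro P P' hcov hy
  obtain ⟨hP, hP', hPP⟩ := hcov
  have hk : ∀ P : Submodule (ZMod 2) V, x0 + (a : V) ∈ P → (P.map π).comap π = P := by
    intro P hyP
    apply Submodule.comap_map_eq_self
    intro v hv
    rcases (hker v).1 hv with h | h
    · rw [h]; exact zero_mem _
    · rw [h]; exact hyP
  have hne : ∀ P : Submodule (ZMod 2) V, P ≠ ⊤ → x0 + (a : V) ∈ P → P.map π ≠ ⊤ := by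
    intro P hP hyP h
    apply hP
    rw [← hk P hyP, h, Submodule.comap_top]
  have h3 := hsep (P.map π) (P'.map π) (hne P hP hy.1) (hne P' hP' hy.2) (by
    intro x hx
    rw [Finset.mem_coe, contr, Finset.mem_erase, Finset.mem_image] at hx
    obtain ⟨-, v, hv, rfl⟩ := hx
    rcases hPP v hv with h | h
    · exact Or.inl (mem_map_of_mem h)
    · exact Or.inr (mem_map_of_mem h))
  have h4 := c4_finrank_comap π (x0 + (a : V)) hsurj hker hy0 (P.map π ⊓ P'.map π)
  rw [Submodule.comap_inf, hk P hy.1, hk P' hy.2] at h4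
  omega

end Pool.Agent.WW

end

section

/-!
P6: counting at a core with at most three light branches.
-/

set_option linter.unusedSectionVars false

namespace Pool.Agent.WW

open Submodule Module

universe u

section aux

variable {W : Type*} [AddCommGroup W] [Module (ZMod 2) W]

theorem peel_min {α : Type*} (P : α → Prop) (f : α → ℕ) (h : ∃ a, P a) :
    ∃ a, P a ∧ ∀ b, P b → f a ≤ f b := by
  obtain ⟨a, ha, hmin⟩ := WellFounded.has_min (measure f).wf {a | P a} h
  exact ⟨a, ha, fun b hb => not_lt.mp (hmin b hb)⟩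

theorem peel_max {α : Type*} (P : α → Prop) (f : α → ℕ) (B : ℕ) (hB : ∀ a, f a ≤ B)
    (h : ∃ a, P a) : ∃ a, P a ∧ ∀ b, P b → f b ≤ f a := by
  obtain ⟨a, ha, hmin⟩ := peel_min P (fun a => B - f a) h
  refine ⟨a, ha, fun b hb => ?_⟩
  have h1 := hmin b hb
  have h2 := hB a
  have h3 := hB b
  omega

theorem peel_sep_symm {S : Set W} {F A B : Submodule (ZMod 2) W} (h : Sep S F A B) :
    Sep S F B A :=
  ⟨h.2.1, h.1, h.2.2.2.1, h.2.2.1, fun x hx hxF => (h.2.2.2.2.1 x hx hxF).symm, by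
    rw [inf_comm]; exact h.2.2.2.2.2⟩

theorem peel_inv_top (S : Set W) : Inv S ⊤ ⊤ :=
  ⟨le_rfl, fun A B h => ⟨A, B, h, inf_top_eq A, inf_top_eq B, rfl⟩⟩

theorem peel_res_top (N : Finset W) : res N ⊤ = N := by
  ext x
  simp [mem_res]

theorem peel_count {S N : Finset W} (hNS : N ⊆ S) {G A B : Submodule (ZMod 2) W}
    (h : Sep (S : Set W) G A B) :
    (res N G).card + (res N (A ⊓ B)).card = (res N A).card + (res N B).card := by
  classical
  have h1 : res N G = res N A ∪ res N B := by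
    ext x
    rw [Finset.mem_union, mem_res, mem_res, mem_res]
    constructor
    · rintro ⟨hx, hxG⟩
      rcases h.2.2.2.2.1 x (hNS hx) hxG with hA | hB
      · exact Or.inl ⟨hx, hA⟩
      · exact Or.inr ⟨hx, hB⟩
    · rintro (⟨hx, hA⟩ | ⟨hx, hB⟩)
      · exact ⟨hx, h.1 hA⟩
      · exact ⟨hx, h.2.1 hB⟩
  have h2 : res N (A ⊓ B) = res N A ∩ res N B := by
    ext x
    rw [Finset.mem_inter, mem_res, mem_res, mem_res, Submodule.mem_inf]
    tauto
  rw [h1, h2, Finset.card_union_add_card_inter]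

variable [FiniteDimensional (ZMod 2) W]

theorem peel_card_sub (L : Submodule (ZMod 2) W) :
    (L : Set W).ncard = 2 ^ finrank (ZMod 2) L := by
  have h1 := Module.natCard_eq_pow_finrank (K := ZMod 2) (V := L)
  rw [Nat.card_zmod] at h1
  rw [← h1]
  rfl

theorem peel_finite (L : Submodule (ZMod 2) W) : (L : Set W).Finite := by
  have : Finite W := Module.finite_of_finite (ZMod 2)
  exact Set.toFinite _

theorem peel_card_le [DecidableEq W] {X : Finset W} {L : Submodule (ZMod 2) W} (h0 : (0 : W) ∉ X)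
    (hX : ∀ x ∈ X, x ∈ L) : X.card + 1 ≤ 2 ^ finrank (ZMod 2) L := by
  rw [← peel_card_sub, ← Finset.card_insert_of_notMem h0, ← Set.ncard_coe_finset]
  apply Set.ncard_le_ncard _ (peel_finite L)
  intro x hx
  rw [Finset.mem_coe, Finset.mem_insert] at hx
  rcases hx with rfl | hx
  · exact L.zero_mem
  · exact hX x hx

theorem peel_line [DecidableEq W] {S N : Finset W} {L : Submodule (ZMod 2) W}
    (h0 : (0 : W) ∉ S) (hNS : N ⊆ S) (h2 : finrank (ZMod 2) L = 2)
    (hf : ∀ x ∈ L, x ≠ 0 → x ∈ (S : Set W)) : (res N L).card + (res S L \ N).card = 3 := by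
  have h00 : (0 : W) ∉ res S L := fun h => h0 (mem_res.1 h).1
  have h3 : (res S L).card = 3 := by
    have h4 : ((insert 0 (res S L) : Finset W) : Set W) = (L : Set W) := by
      ext x
      rw [Finset.mem_coe, Finset.mem_insert]
      constructor
      · rintro (rfl | hx)
        · exact L.zero_mem
        · exact (mem_res.1 hx).2
      · intro hx
        by_cases hx0 : x = 0
        · exact Or.inl hx0
        · exact Or.inr (mem_res.2 ⟨Finset.mem_coe.1 (hf x hx hx0), hx⟩)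
    have h5 := peel_card_sub L
    rw [← h4, Set.ncard_coe_finset, Finset.card_insert_of_notMem h00, h2] at h5
    omega
  have h4 : res N L = res S L ∩ N := by
    ext x
    rw [Finset.mem_inter, mem_res, mem_res]
    constructor
    · rintro ⟨hx, hxL⟩
      exact ⟨⟨hNS hx, hxL⟩, hx⟩
    · rintro ⟨⟨_, hxL⟩, hx⟩
      exact ⟨hx, hxL⟩
  rw [h4, ← h3, Finset.card_inter_add_card_sdiff]

theorem peel_inter [DecidableEq W] {S N : Finset W} {L L' : Submodule (ZMod 2) W}
    (h0 : (0 : W) ∉ S) (h2 : finrank (ZMod 2) L = 2) (h2' : finrank (ZMod 2) L' = 2)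
    (hne : L ≠ L') : ((res S L \ N) ∩ (res S L' \ N)).card ≤ 1 := by
  have h1 : finrank (ZMod 2) ↥(L ⊓ L') ≤ 1 := by
    by_contra hcon
    have h3 : L ⊓ L' = L := Submodule.eq_of_le_of_finrank_le inf_le_left (by omega)
    have h4 : L ⊓ L' = L' := Submodule.eq_of_le_of_finrank_le inf_le_right (by omega)
    exact hne (h3.symm.trans h4)
  have h3 : ((res S L \ N) ∩ (res S L' \ N)).card + 1 ≤ 2 ^ finrank (ZMod 2) ↥(L ⊓ L') := by
    apply peel_card_le
    · intro h
      rw [Finset.mem_inter, Finset.mem_sdiff] at h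
      exact h0 (mem_res.1 h.1.1).1
    · intro x hx
      rw [Finset.mem_inter, Finset.mem_sdiff, Finset.mem_sdiff] at hx
      exact ⟨(mem_res.1 hx.1.1).2, (mem_res.1 hx.2.1).2⟩
  have h4 : 2 ^ finrank (ZMod 2) ↥(L ⊓ L') ≤ 2 ^ 1 := Nat.pow_le_pow_right (by norm_num) h1
  omega

/-- the missing points of two or three lines inside a subspace -/
theorem peel_missing [DecidableEq W] {S N M : Finset W} {B : Submodule (ZMod 2) W} (hNS : N ⊆ S)
    (hM : ∀ x ∈ M, x ∈ S ∧ x ∈ B ∧ x ∉ N) : (res N B).card + M.card ≤ (res S B).card := by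
  rw [← Finset.card_union_of_disjoint]
  · apply Finset.card_le_card
    intro x hx
    rw [Finset.mem_union] at hx
    rcases hx with hx | hx
    · obtain ⟨h1, h2⟩ := mem_res.1 hx
      exact mem_res.2 ⟨hNS h1, h2⟩
    · obtain ⟨h1, h2, _⟩ := hM x hx
      exact mem_res.2 ⟨h1, h2⟩
  · rw [Finset.disjoint_left]
    intro x hx hxM
    exact (hM x hxM).2.2 (mem_res.1 hx).1

theorem peel_light [DecidableEq W] {S N : Finset W} (h0 : (0 : W) ∉ S)
    {A B : Submodule (ZMod 2) W} (h : Light N A B) :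
    (res N A).card + 3 ≤ 3 * finrank (ZMod 2) A ∧
      (1 ≤ (res S (A ⊓ B) \ N).card → (res N A).card + 4 ≤ 3 * finrank (ZMod 2) A) := by
  refine ⟨h.1, fun h1 => h.2 ?_⟩
  obtain ⟨y, hy⟩ := Finset.card_pos.1 h1
  rw [Finset.mem_sdiff] at hy
  obtain ⟨h2, h3⟩ := mem_res.1 hy.1
  exact ⟨y, h3, fun h4 => h0 (h4 ▸ h2), hy.2⟩

theorem peel_inter_pos [DecidableEq W] {X Y : Finset W} (h : 1 ≤ (X ∩ Y).card) :
    1 ≤ X.card ∧ 1 ≤ Y.card := by
  obtain ⟨y, hy⟩ := Finset.card_pos.1 h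
  rw [Finset.mem_inter] at hy
  exact ⟨Finset.card_pos.2 ⟨y, hy.1⟩, Finset.card_pos.2 ⟨y, hy.2⟩⟩

theorem peel_union3 [DecidableEq W] (X Y Z : Finset W) :
    X.card + Y.card + Z.card ≤
      (X ∪ Y ∪ Z).card + (X ∩ Y).card + (X ∩ Z).card + (Y ∩ Z).card := by
  have h1 := Finset.card_union_add_card_inter X Y
  have h2 := Finset.card_union_add_card_inter (X ∪ Y) Z
  have h3 : ((X ∪ Y) ∩ Z).card ≤ (X ∩ Z).card + (Y ∩ Z).card := by
    rw [Finset.union_inter_distrib_right]
    exact Finset.card_union_le _ _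
  omega

end aux

theorem c3Peel (hInv : ClaimInv.{u}) (hExt : C3ExtSep.{u}) (hLine : C3LineSide.{u})
    (hTr : C3Trace4.{u}) (hPiece : C3Piece.{u}) (hSame : C3SameLine.{u}) : C3Peel.{u} := by
  intro W _ _ _ _ S N Γ hNS h0 hfree hfull hD hΓ3 hΓsp hΓF hL
  by_contra hcon
  push Not at hcon
  have hInvT : Inv (S : Set W) ⊤ ⊤ := peel_inv_top _
  have hrho : finrank (ZMod 2) ↥(⊤ : Submodule (ZMod 2) W) = finrank (ZMod 2) W := finrank_top _ _
  have hNne : (⊤ : Submodule (ZMod 2) W) ≠ ⊥ := by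
    intro h
    have h1 : finrank (ZMod 2) Γ ≤ finrank (ZMod 2) ↥(⊤ : Submodule (ZMod 2) W) :=
      Submodule.finrank_mono le_top
    rw [h, finrank_bot] at h1
    omega
  have hle : ∀ X : Submodule (ZMod 2) W, finrank (ZMod 2) X ≤ finrank (ZMod 2) W :=
    fun X => Submodule.finrank_le X
  -- facts on a separation of an inherited subspace
  have guts : ∀ G A B : Submodule (ZMod 2) W, Inv (S : Set W) ⊤ G → Sep (S : Set W) G A B →
      finrank (ZMod 2) ↥(A ⊓ B) = 2 ∧ (∀ x ∈ A ⊓ B, x ≠ 0 → x ∈ (S : Set W)) ∧ A ⊔ B = G ∧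
      Inv (S : Set W) ⊤ A ∧ Inv (S : Set W) ⊤ B ∧
      finrank (ZMod 2) A + finrank (ZMod 2) B = finrank (ZMod 2) G + 2 := by
    intro G A B hG hs
    obtain ⟨A', B', hs', _, _, hAB⟩ := hG.2 A B hs
    have h1 := hfull A' B' hs'
    rw [hAB] at h1
    obtain ⟨hA, hB, hsup⟩ := hInv W (S : Set W) ⊤ G A B hfull hG hs
    refine ⟨h1.1, h1.2, hsup, hA, hB, ?_⟩
    have h2 := Submodule.finrank_sup_add_finrank_inf_eq A B
    rw [hsup, h1.1] at h2
    omega
  -- a side is not contained in a line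
  have side : ∀ G A B L : Submodule (ZMod 2) W, Inv (S : Set W) ⊤ G → Sep (S : Set W) G A B →
      finrank (ZMod 2) L = 2 → ¬ A ≤ L := by
    intro G A B L hG hs hL2 hAL
    obtain ⟨h1, _, hsup, _, _, _⟩ := guts G A B hG hs
    have h2 : A ⊓ B = A := by
      apply Submodule.eq_of_le_of_finrank_le inf_le_left
      rw [h1]
      exact (Submodule.finrank_mono hAL).trans hL2.le
    have h3 : A ≤ B := by rw [← h2]; exact inf_le_right
    rw [sup_eq_right.2 h3] at hsup
    exact hs.2.2.2.1 hsup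
  -- two light sides
  have twoL : ∀ A B : Submodule (ZMod 2) W, Sep (S : Set W) ⊤ A B → Light N A B →
      Light N B A → False := by
    intro A B hs hA hB
    obtain ⟨h1, h2, _, _, _, h6⟩ := guts ⊤ A B hInvT hs
    have h3 := peel_count hNS hs
    rw [peel_res_top] at h3
    have h4 := peel_line h0 hNS h1 h2
    obtain ⟨a1, a2⟩ := peel_light h0 hA
    obtain ⟨b1, b2⟩ := peel_light h0 hB
    rw [inf_comm] at b2
    rw [hrho] at h6
    omega
  have piece : ∀ Z : Submodule (ZMod 2) W, Z ≠ ⊥ → (¬ ∃ A B, Sep (S : Set W) Z A B) →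
      (res S Z).card ≤ 3 * finrank (ZMod 2) Z := by
    intro Z hZ hno
    exact hPiece W S Z _ h0 hfree hZ (fun A B h => hno ⟨A, B, h⟩) rfl (hD _ (hle Z))
  by_cases hex : ∃ A B, Sep (S : Set W) ⊤ A B
  swap
  · have h1 := piece ⊤ hNne hex
    rw [peel_res_top, hrho] at h1
    have h2 := Finset.card_le_card hNS
    omega
  -- the first branch
  obtain ⟨⟨U, F1⟩, ⟨hUF, hUL⟩, hmin⟩ := peel_min
    (fun p : Submodule (ZMod 2) W × Submodule (ZMod 2) W =>
      Sep (S : Set W) ⊤ p.1 p.2 ∧ Light N p.1 p.2) (fun p => finrank (ZMod 2) p.2) (by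
      obtain ⟨A, B, h⟩ := hex
      rcases hL A B h with h1 | h1
      · exact ⟨(A, B), h, h1⟩
      · exact ⟨(B, A), (peel_sep_symm h), h1⟩)
  simp only at hUF hUL hmin
  obtain ⟨g0, g0f, g0s, _, hInvF1, g0d⟩ := guts ⊤ U F1 hInvT hUF
  rw [hrho] at g0d
  have c0 := peel_count hNS hUF
  rw [peel_res_top] at c0
  have l0 := peel_line h0 hNS g0 g0f
  obtain ⟨u1, u2⟩ := peel_light h0 hUL
  set L0 := U ⊓ F1 with hL0
  have hL0F1 : L0 ≤ F1 := inf_le_right
  have nebot : ∀ Z L : Submodule (ZMod 2) W, finrank (ZMod 2) L = 2 → L ≤ Z → Z ≠ ⊥ := by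
    intro Z L hL2 hLZ h
    have h1 := Submodule.finrank_mono hLZ
    rw [h, finrank_bot, hL2] at h1
    omega
  by_cases hex1 : ∃ A B, Sep (S : Set W) F1 A B
  swap
  · have h1 := piece F1 (nebot F1 L0 g0 hL0F1) hex1
    have h2 := peel_missing (B := F1) (M := res S L0 \ N) hNS (by
      intro x hx
      rw [Finset.mem_sdiff] at hx
      obtain ⟨hx1, hx2⟩ := mem_res.1 hx.1
      exact ⟨hx1, hL0F1 hx2, hx.2⟩)
    omega
  -- extension to the whole space
  have ext0 : ∀ A B : Submodule (ZMod 2) W, Sep (S : Set W) F1 A B → L0 ≤ B →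
      Sep (S : Set W) ⊤ A (B ⊔ U) ∧ A ⊓ (B ⊔ U) = A ⊓ B := by
    intro A B hs hLB
    obtain ⟨h1, h2, _⟩ := hExt W (S : Set W) ⊤ U F1 A B hfull hInvT hUF hs hLB
    exact ⟨h1, h2⟩
  have light1 : ∀ A B : Submodule (ZMod 2) W, Sep (S : Set W) F1 A B → L0 ≤ B →
      Light N A (B ⊔ U) := by
    intro A B hs hLB
    obtain ⟨h1, _⟩ := ext0 A B hs hLB
    rcases hL _ _ h1 with h2 | h2
    · exact h2
    · exfalso
      have h3 := hmin (B ⊔ U, A) ⟨(peel_sep_symm h1), h2⟩
      have h4 : finrank (ZMod 2) A < finrank (ZMod 2) F1 :=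
        Submodule.finrank_lt_finrank_of_lt (lt_of_le_of_ne hs.1 hs.2.2.1)
      simp only at h3
      omega
  have neL0 : ∀ A B : Submodule (ZMod 2) W, Sep (S : Set W) F1 A B → A ⊓ B ≠ L0 := by
    intro A B hs heq
    have hA : L0 ≤ A := by rw [← heq]; exact inf_le_left
    have hB : L0 ≤ B := by rw [← heq]; exact inf_le_right
    have h1 := light1 A B hs hB
    have h2 := light1 B A (peel_sep_symm hs) hA
    have h3 := hSame W S N U F1 A B hNS h0 hfull hUF hs heq hUL h1 h2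
    omega
  -- the second branch
  obtain ⟨⟨A1, B1⟩, ⟨hs1, hL0B1⟩, hmax1⟩ := peel_max
    (fun p : Submodule (ZMod 2) W × Submodule (ZMod 2) W =>
      Sep (S : Set W) F1 p.1 p.2 ∧ L0 ≤ p.2) (fun p => finrank (ZMod 2) p.1)
    (finrank (ZMod 2) W) (fun p => hle _) (by
      obtain ⟨A, B, h⟩ := hex1
      rcases hLine W (S : Set W) F1 A B L0 h hL0F1 g0 g0f with h1 | h1
      · exact ⟨(B, A), (peel_sep_symm h), h1⟩
      · exact ⟨(A, B), h, h1⟩)
  simp only at hs1 hL0B1 hmax1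
  obtain ⟨g1, g1f, g1s, hInvA1, hInvB1, g1d⟩ := guts F1 A1 B1 hInvF1 hs1
  have c1 := peel_count hNS hs1
  have l1 := peel_line h0 hNS g1 g1f
  obtain ⟨_, i1⟩ := ext0 A1 B1 hs1 hL0B1
  obtain ⟨a1, a2⟩ := peel_light h0 (light1 A1 B1 hs1 hL0B1)
  rw [i1] at a2
  have hne1 : A1 ⊓ B1 ≠ L0 := neL0 A1 B1 hs1
  set L1 := A1 ⊓ B1 with hL1
  have hL1B1 : L1 ≤ B1 := inf_le_right
  have pi01 := peel_inter (N := N) h0 g0 g1 (Ne.symm hne1)
  by_cases hex2 : ∃ A B, Sep (S : Set W) B1 A B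
  swap
  · have h1 := piece B1 (nebot B1 L0 g0 hL0B1) hex2
    have h2 := peel_missing (B := B1) (M := (res S L0 \ N) ∪ (res S L1 \ N)) hNS (by
      intro x hx
      rw [Finset.mem_union, Finset.mem_sdiff, Finset.mem_sdiff] at hx
      rcases hx with hx | hx
      · obtain ⟨hx1, hx2⟩ := mem_res.1 hx.1
        exact ⟨hx1, hL0B1 hx2, hx.2⟩
      · obtain ⟨hx1, hx2⟩ := mem_res.1 hx.1
        exact ⟨hx1, hL1B1 hx2, hx.2⟩)
    have h3 := Finset.card_union_add_card_inter (res S L0 \ N) (res S L1 \ N)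
    have h4 : 1 ≤ ((res S L0 \ N) ∩ (res S L1 \ N)).card →
      1 ≤ (res S L0 \ N).card ∧ 1 ≤ (res S L1 \ N).card := peel_inter_pos
    omega
  -- extension from B1 to F1
  have ext1 : ∀ A B : Submodule (ZMod 2) W, Sep (S : Set W) B1 A B → L1 ≤ B →
      Sep (S : Set W) F1 A (B ⊔ A1) ∧ A ⊓ (B ⊔ A1) = A ⊓ B := by
    intro A B hs hLB
    obtain ⟨h1, h2, _⟩ := hExt W (S : Set W) F1 A1 B1 A B hfull hInvF1 hs1 hs hLB
    exact ⟨h1, h2⟩
  -- maximality of A1
  have max1 : ∀ X Y Z : Submodule (ZMod 2) W, Sep (S : Set W) F1 X (Y ⊔ A1) → L0 ≤ X →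
      Z ≤ Y → Z ≤ B1 → Z ≤ L1 := by
    intro X Y Z hs hLX hZY hZB
    have h1 := hmax1 (Y ⊔ A1, X) ⟨(peel_sep_symm hs), hLX⟩
    simp only at h1
    have h2 : A1 = Y ⊔ A1 := Submodule.eq_of_le_of_finrank_le le_sup_right h1
    have h3 : Z ≤ A1 := by
      rw [h2]
      exact hZY.trans le_sup_left
    exact le_inf h3 hZB
  have same1 : ∀ A B : Submodule (ZMod 2) W, Sep (S : Set W) B1 A B → L0 ≤ B → L1 ≤ B := by
    intro A B hs hLB
    rcases hLine W (S : Set W) B1 A B L1 hs hL1B1 g1 g1f with h1 | h1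
    · exfalso
      obtain ⟨h2, _⟩ := ext1 B A (peel_sep_symm hs) h1
      exact side B1 A B L1 hInvB1 hs g1 (max1 B A A h2 hLB le_rfl hs.1)
    · exact h1
  -- the third branch
  obtain ⟨⟨A2, B2⟩, ⟨hs2, hL0B2, hL1B2⟩, hmax2⟩ := peel_max
    (fun p : Submodule (ZMod 2) W × Submodule (ZMod 2) W =>
      Sep (S : Set W) B1 p.1 p.2 ∧ L0 ≤ p.2 ∧ L1 ≤ p.2) (fun p => finrank (ZMod 2) p.1)
    (finrank (ZMod 2) W) (fun p => hle _) (by
      obtain ⟨A, B, h⟩ := hex2
      rcases hLine W (S : Set W) B1 A B L0 h hL0B1 g0 g0f with h1 | h1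
      · exact ⟨(B, A), (peel_sep_symm h), h1, same1 B A (peel_sep_symm h) h1⟩
      · exact ⟨(A, B), h, h1, same1 A B h h1⟩)
  simp only at hs2 hL0B2 hL1B2 hmax2
  obtain ⟨g2, g2f, g2s, hInvA2, hInvB2, g2d⟩ := guts B1 A2 B2 hInvB1 hs2
  have c2 := peel_count hNS hs2
  have l2 := peel_line h0 hNS g2 g2f
  obtain ⟨s2, i2⟩ := ext1 A2 B2 hs2 hL1B2
  obtain ⟨_, i2'⟩ := ext0 A2 (B2 ⊔ A1) s2 (hL0B2.trans le_sup_left)
  obtain ⟨b1, b2⟩ := peel_light h0 (light1 A2 (B2 ⊔ A1) s2 (hL0B2.trans le_sup_left))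
  rw [i2', i2] at b2
  have hne2 : A2 ⊓ B2 ≠ L0 := by
    rw [← i2]
    exact neL0 _ _ s2
  have hne3 : A2 ⊓ B2 ≠ L1 := by
    intro heq
    have h1 : L1 ≤ A2 := by rw [← heq]; exact inf_le_left
    obtain ⟨h2, _⟩ := ext1 B2 A2 (peel_sep_symm hs2) h1
    exact side B1 A2 B2 L1 hInvB1 hs2 g1 (max1 B2 A2 A2 h2 hL0B2 le_rfl hs2.1)
  set L2 := A2 ⊓ B2 with hL2
  have hL2B2 : L2 ≤ B2 := inf_le_right
  have pi02 := peel_inter (N := N) h0 g0 g2 (Ne.symm hne2)
  have pi12 := peel_inter (N := N) h0 g1 g2 (Ne.symm hne3)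
  have hno3 : ¬ ∃ A B, Sep (S : Set W) B2 A B := by
    -- extension from B2 to B1
    have ext2 : ∀ A B : Submodule (ZMod 2) W, Sep (S : Set W) B2 A B → L2 ≤ B →
        Sep (S : Set W) B1 A (B ⊔ A2) := by
      intro A B hs hLB
      exact (hExt W (S : Set W) B1 A2 B2 A B hfull hInvB1 hs2 hs hLB).1
    have key : ∀ A3 B3 : Submodule (ZMod 2) W, Sep (S : Set W) B2 A3 B3 → L0 ≤ B3 → False := by
      intro A3 B3 hs3 hL0B3
      have hL1B3 : L1 ≤ B3 := by
        rcases hLine W (S : Set W) B2 A3 B3 L1 hs3 hL1B2 g1 g1f with h1 | h1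
        swap
        · exact h1
        exfalso
        rcases hLine W (S : Set W) B2 A3 B3 L2 hs3 hL2B2 g2 g2f with h2 | h2
        · have h3 := ext2 B3 A3 (peel_sep_symm hs3) h2
          obtain ⟨h4, _⟩ := ext1 B3 (A3 ⊔ A2) h3 (h1.trans le_sup_left)
          exact side B1 A2 B2 L1 hInvB1 hs2 g1
            (max1 B3 (A3 ⊔ A2) A2 h4 hL0B3 le_sup_right hs2.1)
        · have h3 := ext2 A3 B3 hs3 h2
          obtain ⟨h4, _⟩ := ext1 (B3 ⊔ A2) A3 (peel_sep_symm h3) h1
          exact side B2 A3 B3 L1 hInvB2 hs3 g1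
            (max1 (B3 ⊔ A2) A3 A3 h4 (hL0B3.trans le_sup_left) le_rfl (hs3.1.trans hs2.2.1))
      have hL2B3 : L2 ≤ B3 := by
        rcases hLine W (S : Set W) B2 A3 B3 L2 hs3 hL2B2 g2 g2f with h1 | h1
        swap
        · exact h1
        exfalso
        have h3 := ext2 B3 A3 (peel_sep_symm hs3) h1
        have h4 := hmax2 (A3 ⊔ A2, B3) ⟨(peel_sep_symm h3), hL0B3, hL1B3⟩
        simp only at h4
        have h5 : A2 = A3 ⊔ A2 := Submodule.eq_of_le_of_finrank_le le_sup_right h4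
        have h6 : A3 ≤ A2 := by
          rw [h5]
          exact le_sup_left
        exact side B2 A3 B3 L2 hInvB2 hs3 g2 (le_inf h6 hs3.1)
      have t3 := ext2 A3 B3 hs3 hL2B3
      obtain ⟨t3', _⟩ := ext1 A3 (B3 ⊔ A2) t3 (hL1B3.trans le_sup_left)
      obtain ⟨t3'', _⟩ := ext0 A3 (B3 ⊔ A2 ⊔ A1) t3'
        ((hL0B3.trans le_sup_left).trans le_sup_left)
      obtain ⟨t2, _⟩ := ext0 A2 (B2 ⊔ A1) s2 (hL0B2.trans le_sup_left)
      obtain ⟨t1, _⟩ := ext0 A1 B1 hs1 hL0B1
      have seps : ∀ i : Fin 4, Sep (S : Set W) ⊤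
          ((![U, A1, A2, A3] : Fin 4 → Submodule (ZMod 2) W) i)
          ((![F1, B1 ⊔ U, B2 ⊔ A1 ⊔ U, B3 ⊔ A2 ⊔ A1 ⊔ U] : Fin 4 → Submodule (ZMod 2) W) i) := by
        intro i
        fin_cases i
        · exact hUF
        · exact t1
        · exact t2
        · exact t3''
      refine hTr W (N : Set W) Γ ![U, A1, A2, A3]
        ![F1, B1 ⊔ U, B2 ⊔ A1 ⊔ U, B3 ⊔ A2 ⊔ A1 ⊔ U] hΓ3 hΓsp ?_ ?_ ?_ ?_
      · intro i x hx
        exact (seps i).2.2.2.2.1 x (hNS hx) mem_top
      · intro i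
        exact hΓF _ _ (seps i)
      · intro i
        exact hΓF _ _ (peel_sep_symm (seps i))
      · have hB1F1 : B1 ≤ F1 := hs1.2.1
        have hA1F1 : A1 ≤ F1 := hs1.1
        have hB2B1 : B2 ≤ B1 := hs2.2.1
        have hA2B1 : A2 ≤ B1 := hs2.1
        have hA3B2 : A3 ≤ B2 := hs3.1
        intro i j hij
        fin_cases i <;> fin_cases j
        · exact absurd rfl hij
        · exact le_sup_right
        · exact le_sup_right
        · exact le_sup_right
        · exact hA1F1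
        · exact absurd rfl hij
        · exact le_sup_right.trans le_sup_left
        · exact le_sup_right.trans le_sup_left
        · exact hA2B1.trans hB1F1
        · exact hA2B1.trans le_sup_left
        · exact absurd rfl hij
        · exact (le_sup_right.trans le_sup_left).trans le_sup_left
        · exact (hA3B2.trans hB2B1).trans hB1F1
        · exact (hA3B2.trans hB2B1).trans le_sup_left
        · exact (hA3B2.trans le_sup_left).trans le_sup_left
        · exact absurd rfl hij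
    rintro ⟨A, B, hs⟩
    rcases hLine W (S : Set W) B2 A B L0 hs hL0B2 g0 g0f with h1 | h1
    · exact key B A (peel_sep_symm hs) h1
    · exact key A B hs h1
  have h1 := piece B2 (nebot B2 L0 g0 hL0B2) hno3
  have h2 := peel_missing (B := B2)
    (M := (res S L0 \ N) ∪ (res S L1 \ N) ∪ (res S L2 \ N)) hNS (by
    intro x hx
    rw [Finset.mem_union, Finset.mem_union, Finset.mem_sdiff, Finset.mem_sdiff,
      Finset.mem_sdiff] at hx
    rcases hx with (hx | hx) | hx
    · obtain ⟨hx1, hx2⟩ := mem_res.1 hx.1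
      exact ⟨hx1, hL0B2 hx2, hx.2⟩
    · obtain ⟨hx1, hx2⟩ := mem_res.1 hx.1
      exact ⟨hx1, hL1B2 hx2, hx.2⟩
    · obtain ⟨hx1, hx2⟩ := mem_res.1 hx.1
      exact ⟨hx1, hL2B2 hx2, hx.2⟩)
  have h3 := peel_union3 (res S L0 \ N) (res S L1 \ N) (res S L2 \ N)
  have q01 : 1 ≤ ((res S L0 \ N) ∩ (res S L1 \ N)).card →
    1 ≤ (res S L0 \ N).card ∧ 1 ≤ (res S L1 \ N).card := peel_inter_pos
  have q02 : 1 ≤ ((res S L0 \ N) ∩ (res S L2 \ N)).card →
    1 ≤ (res S L0 \ N).card ∧ 1 ≤ (res S L2 \ N).card := peel_inter_pos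
  have q12 : 1 ≤ ((res S L1 \ N) ∩ (res S L2 \ N)).card →
    1 ≤ (res S L1 \ N).card ∧ 1 ≤ (res S L2 \ N).card := peel_inter_pos
  omega

end Pool.Agent.WW

end

section

/-!
P4: the density bound for a piece.
-/

namespace Pool.Agent.WW

open Submodule Module

universe u

theorem c3Piece (hSub : ClaimSub.{u}) : C3Piece.{u} := by
  classical
  intro W _ _ _ _ S Z n h0 hfree hZ hsep hn hD
  have hg := hSub W (S : Set W) Z h0 hfree hZ hsep
  have hfin : Finite Z := Module.finite_of_finite (ZMod 2)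
  have : Fintype Z := Fintype.ofFinite Z
  let E : Finset Z := Finset.univ.filter (fun x : Z => (x : W) ∈ S)
  have hE : (E : Set Z) = (fun x : Z => (x : W)) ⁻¹' (S : Set W) := by
    ext x
    simp [E]
  have h1 := hD Z E (by rw [hE]; exact hg) hn
  have h2 : res S Z = E.image (fun x : Z => (x : W)) := by
    ext x
    rw [mem_res, Finset.mem_image]
    constructor
    · rintro ⟨hx, hxZ⟩
      exact ⟨⟨x, hxZ⟩, by simpa [E] using hx, rfl⟩
    · rintro ⟨y, hy, rfl⟩
      exact ⟨by simpa [E] using hy, y.2⟩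
  rw [h2, Finset.card_image_of_injective _ Subtype.val_injective]
  exact h1

end Pool.Agent.WW

end

section

/-!
B1: a vertically 4-connected set with a cocircuit of rank four, seen in the hyperplane.
-/

namespace Pool.Agent.WW

open Submodule Module

universe u

theorem qd_self {V : Type*} [AddCommGroup V] [Module (ZMod 2) V] (x : V) : x + x = 0 :=
  ZModModule.add_self x

theorem qd_zc (c : ZMod 2) : c = 0 ∨ c = 1 := by
  revert c
  decide

theorem qd_move3 {V : Type*} [AddCommGroup V] [Module (ZMod 2) V] (x a b : V) :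
    x + b = (a + b) + (x + a) := by
  calc x + b = (a + a) + (x + b) := by rw [ZModModule.add_self, zero_add]
    _ = (a + b) + (x + a) := by abel

theorem qd_move {V : Type*} [AddCommGroup V] [Module (ZMod 2) V] (x a b : V) :
    (x + a) + (x + b) = a + b := by
  calc (x + a) + (x + b) = (x + x) + (a + b) := by abel
    _ = a + b := by rw [qd_self, zero_add]

/-- adding a vector outside `H` to a subspace of `H` does not change the trace on `H` -/
theorem qd_trace {V : Type*} [AddCommGroup V] [Module (ZMod 2) V] {H : Submodule (ZMod 2) V}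
    (X : Submodule (ZMod 2) ↥H) {y : V} (hy : y ∉ H) {v : V} (hv : v ∈ H)
    (hm : v ∈ X.map H.subtype ⊔ span (ZMod 2) {y}) : v ∈ X.map H.subtype := by
  obtain ⟨x, hx, z, hz, rfl⟩ := mem_sup.1 hm
  obtain ⟨c, rfl⟩ := mem_span_singleton.1 hz
  have hxH : x ∈ H := by
    obtain ⟨w, _, rfl⟩ := Submodule.mem_map.1 hx
    exact w.2
  rcases qd_zc c with rfl | rfl
  · simpa using hx
  · exfalso
    apply hy
    rw [one_smul] at hv
    have := H.sub_mem hv hxH
    rwa [add_sub_cancel_left] at this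

theorem qd_proper {V : Type*} [AddCommGroup V] [Module (ZMod 2) V] {H : Submodule (ZMod 2) V}
    (X : Submodule (ZMod 2) ↥H) {y : V} (hy : y ∉ H) (hX : X ≠ ⊤) :
    X.map H.subtype ⊔ span (ZMod 2) {y} ≠ ⊤ := by
  intro h
  apply hX
  rw [eq_top_iff]
  intro w _
  have h1 : (w : V) ∈ X.map H.subtype ⊔ span (ZMod 2) {y} := by rw [h]; exact mem_top
  obtain ⟨w', hw', e⟩ := Submodule.mem_map.1 (qd_trace X hy w.2 h1)
  have : w' = w := Subtype.ext e
  rwa [← this]

theorem qd_hyper {V : Type*} [AddCommGroup V] [Module (ZMod 2) V] [FiniteDimensional (ZMod 2) V]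
    {H : Submodule (ZMod 2) V} (hH : finrank (ZMod 2) H + 1 = finrank (ZMod 2) V) {x y : V}
    (hx : x ∉ H) (hy : y ∉ H) : x + y ∈ H := by
  have hlt : H < H ⊔ span (ZMod 2) {x} := by
    refine lt_of_le_of_ne le_sup_left ?_
    intro h
    apply hx
    rw [h]
    exact mem_sup_right (mem_span_singleton_self x)
  have h1 := Submodule.finrank_lt_finrank_of_lt hlt
  have h2 : H ⊔ span (ZMod 2) {x} = ⊤ := by
    apply Submodule.eq_top_of_finrank_eq
    have := Submodule.finrank_le (H ⊔ span (ZMod 2) {x})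
    omega
  have h3 : y ∈ H ⊔ span (ZMod 2) {x} := by rw [h2]; exact mem_top
  obtain ⟨h, hh, z, hz, rfl⟩ := mem_sup.1 h3
  obtain ⟨c, rfl⟩ := mem_span_singleton.1 hz
  rcases qd_zc c with rfl | rfl
  · exfalso
    apply hy
    simpa using hh
  · rw [one_smul]
    have : x + (h + x) = h := by
      calc x + (h + x) = (x + x) + h := by abel
        _ = h := by rw [qd_self, zero_add]
    rwa [this]

theorem c3Quad : C3Quad.{u} := by
  classical
  intro V _ _ _ _ E H hE hn hC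
  obtain ⟨h0, hsp, hsep, -⟩ := (good_iff_sepGe (E : Set V)).1 hE
  obtain ⟨hH, h4⟩ := hC
  obtain ⟨G, hG⟩ : ∃ G, G = span (ZMod 2) ((E : Set V) \ (H : Set V)) := ⟨_, rfl⟩
  rw [← hG] at h4
  -- a point outside
  obtain ⟨x0, hx0E, hx0H⟩ : ∃ x0, x0 ∈ E ∧ x0 ∉ H := by
    by_contra hcon
    push Not at hcon
    have : G = ⊥ := by
      rw [hG]
      rw [Submodule.span_eq_bot]
      rintro x ⟨hx, hxH⟩
      exact absurd (hcon x hx) hxH
    rw [this, finrank_bot] at h4
    omega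
  have hHtop : H ≠ ⊤ := by
    rintro rfl
    exact hx0H mem_top
  have hGtop : G ≠ ⊤ := by
    rintro rfl
    rw [finrank_top] at h4
    omega
  -- the trace in `H`
  have : Finite ↥H := Module.finite_of_finite (ZMod 2)
  let _ : Fintype ↥H := Fintype.ofFinite _
  obtain ⟨F, hF⟩ : ∃ F : Finset ↥H, F = Finset.univ.filter (fun h : ↥H => (h : V) ∈ E) := ⟨_, rfl⟩
  obtain ⟨A, hA⟩ : ∃ A : Finset ↥H, A = Finset.univ.filter (fun h : ↥H => x0 + (h : V) ∈ E) :=
    ⟨_, rfl⟩
  have hFm : ∀ h : ↥H, h ∈ F ↔ (h : V) ∈ E := by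
    intro h; rw [hF]; simp
  have hAm : ∀ h : ↥H, h ∈ A ↔ x0 + (h : V) ∈ E := by
    intro h; rw [hA]; simp
  have hout : ∀ h : ↥H, x0 + (h : V) ∉ H := by
    intro h hh
    apply hx0H
    have := H.sub_mem hh h.2
    rwa [add_sub_cancel_right] at this
  have hAG : ∀ h ∈ A, x0 + (h : V) ∈ G := by
    intro h hh
    rw [hG]
    exact subset_span ⟨(hAm h).1 hh, hout h⟩
  have hrep : ∀ x ∈ E, x ∉ H → ∃ b ∈ A, x = x0 + ((b : ↥H) : V) := by
    intro x hx hxH
    have hb : x0 + x ∈ H := qd_hyper hH hx0H hxH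
    have e : x0 + (x0 + x) = x := by
      rw [← add_assoc, qd_self, zero_add]
    refine ⟨⟨x0 + x, hb⟩, ?_, ?_⟩
    · rw [hAm]
      simpa only [e] using hx
    · exact e.symm
  obtain ⟨H', hH'⟩ : ∃ H', H' = span (ZMod 2) ((E : Set V) ∩ (H : Set V)) := ⟨_, rfl⟩
  have hH'le : H' ≤ H := by
    rw [hH']
    exact span_le.2 fun x hx => hx.2
  have hsup : H' ⊔ G = ⊤ := by
    rw [eq_top_iff, ← hsp]
    refine span_le.2 ?_
    intro x hx
    by_cases hxH : x ∈ H
    · exact mem_sup_left (by rw [hH']; exact subset_span ⟨hx, hxH⟩)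
    · exact mem_sup_right (by rw [hG]; exact subset_span ⟨hx, hxH⟩)
  have hcov : ∀ x ∈ (E : Set V), x ∈ H' ∨ x ∈ G := by
    intro x hx
    by_cases hxH : x ∈ H
    · left; rw [hH']; exact subset_span ⟨hx, hxH⟩
    · right; rw [hG]; exact subset_span ⟨hx, hxH⟩
  have hH'top : H' ≠ ⊤ := by
    rintro rfl
    exact hHtop (top_le_iff.1 hH'le)
  have hHH : H' = H := by
    by_contra hne
    have hlt : H' < H := lt_of_le_of_ne hH'le hne
    have h1 := Submodule.finrank_lt_finrank_of_lt hlt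
    have h2 := hsep H' G hH'top hGtop hcov
    have h3 := Submodule.finrank_sup_add_finrank_inf_eq H' G
    rw [hsup, finrank_top] at h3
    omega
  have hHG : H ⊔ G = ⊤ := by rw [← hHH]; exact hsup
  obtain ⟨Γ, hΓ⟩ : ∃ Γ : Submodule (ZMod 2) ↥H, Γ = G.comap H.subtype := ⟨_, rfl⟩
  refine ⟨F, A, Γ, x0, ?_, hx0H, hFm, hAm⟩
  -- covering of `E` from a covering of the configuration
  have hcovE : ∀ (P S : Submodule (ZMod 2) V), (∀ f ∈ F, ((f : ↥H) : V) ∈ P ∨ ((f : ↥H) : V) ∈ S) →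
      (∀ b ∈ A, x0 + ((b : ↥H) : V) ∈ P ∨ x0 + ((b : ↥H) : V) ∈ S) →
      ∀ x ∈ (E : Set V), x ∈ P ∨ x ∈ S := by
    intro P S h1 h2 x hx
    by_cases hxH : x ∈ H
    · exact h1 ⟨x, hxH⟩ ((hFm _).2 hx)
    · obtain ⟨b, hb, rfl⟩ := hrep x hx hxH
      exact h2 b hb
  have hdimmap : ∀ X : Submodule (ZMod 2) ↥H, finrank (ZMod 2) ↥(X.map H.subtype) =
      finrank (ZMod 2) X := fun X => Submodule.finrank_map_subtype_eq H X
  refine ⟨?_, ?_, ?_, ?_, ?_, ?_, ?_, ?_⟩
  · intro h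
    exact h0 (by simpa using (hFm 0).1 h)
  · -- spF
    have e : (span (ZMod 2) (F : Set ↥H)).map H.subtype = (⊤ : Submodule (ZMod 2) ↥H).map H.subtype := by
      rw [Submodule.map_span, Submodule.map_subtype_top]
      refine Eq.trans ?_ (hH'.symm.trans hHH)
      congr 1
      ext x
      constructor
      · rintro ⟨f, hf, rfl⟩
        exact ⟨(hFm f).1 hf, f.2⟩
      · rintro ⟨hx, hxH⟩
        exact ⟨⟨x, hxH⟩, (hFm _).2 hx, rfl⟩
    exact Submodule.map_injective_of_injective H.injective_subtype e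
  · exact ⟨0, (hAm 0).2 (by simpa using hx0E)⟩
  · -- dim
    have e : Γ.map H.subtype = H ⊓ G := by rw [hΓ, Submodule.map_comap_subtype]
    rw [← hdimmap Γ, e]
    have h3 := Submodule.finrank_sup_add_finrank_inf_eq H G
    rw [hHG, finrank_top] at h3
    omega
  · -- sub
    intro a ha b hb
    rw [hΓ, Submodule.mem_comap]
    have := G.add_mem (hAG a ha) (hAG b hb)
    rw [qd_move] at this
    simpa using this
  · -- sp
    intro a ha γ hγ
    obtain ⟨D, hD⟩ : ∃ D, D = span (ZMod 2) {c : ↥H | ∃ b ∈ A, c = a + b} := ⟨_, rfl⟩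
    rw [← hD]
    have hGle : G ≤ D.map H.subtype ⊔ span (ZMod 2) {x0 + (a : V)} := by
      rw [hG]
      refine span_le.2 ?_
      rintro x ⟨hx, hxH⟩
      obtain ⟨b, hb, rfl⟩ := hrep x hx hxH
      have e : x0 + (b : V) = ((a + b : ↥H) : V) + (x0 + (a : V)) := by
        rw [Submodule.coe_add]
        exact qd_move3 x0 (a : V) (b : V)
      rw [SetLike.mem_coe, e]
      refine add_mem (mem_sup_left ?_) (mem_sup_right (mem_span_singleton_self _))
      refine Submodule.mem_map.2 ⟨a + b, ?_, rfl⟩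
      rw [hD]
      exact subset_span ⟨b, hb, rfl⟩
    rw [hΓ, Submodule.mem_comap] at hγ
    have h1 := hGle hγ
    obtain ⟨w, hw, e⟩ := Submodule.mem_map.1 (qd_trace D (hout a) γ.2 h1)
    have : w = γ := Subtype.ext e
    rwa [← this]
  · -- v1
    intro Q D a hD hFc hAc
    have hy := hout a
    have hQtop : Q.map H.subtype ≠ ⊤ := by
      intro h
      apply hHtop
      rw [eq_top_iff, ← h]
      exact Submodule.map_subtype_le H Q
    have h1 := hsep (Q.map H.subtype) (D.map H.subtype ⊔ span (ZMod 2) {x0 + (a : V)}) hQtop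
      (qd_proper D hy hD) (hcovE _ _ ?_ ?_)
    · refine h1.trans ?_
      rw [← hdimmap (Q ⊓ D)]
      refine Submodule.finrank_mono ?_
      rintro v ⟨hv1, hv2⟩
      have hvH : v ∈ H := Submodule.map_subtype_le H Q hv1
      have hv3 := qd_trace D hy hvH hv2
      obtain ⟨w, hw, rfl⟩ := Submodule.mem_map.1 hv1
      obtain ⟨w', hw', e⟩ := Submodule.mem_map.1 hv3
      have : w' = w := Subtype.ext e
      subst this
      exact Submodule.mem_map.2 ⟨w', ⟨hw, hw'⟩, rfl⟩
    · intro f hf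
      rcases hFc f hf with h | h
      · left; exact Submodule.mem_map.2 ⟨f, h, rfl⟩
      · right; exact mem_sup_left (Submodule.mem_map.2 ⟨f, h, rfl⟩)
    · intro b hb
      right
      have e : x0 + (b : V) = ((a + b : ↥H) : V) + (x0 + (a : V)) := by
        rw [Submodule.coe_add]
        exact qd_move3 x0 (a : V) (b : V)
      rw [e]
      exact add_mem (mem_sup_left (Submodule.mem_map.2 ⟨a + b, hAc b hb, rfl⟩))
        (mem_sup_right (mem_span_singleton_self _))
  · -- v2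
    intro Q D a b hQ hD hFc hAc
    have hya := hout a
    have hyb := hout b
    have h1 := hsep (Q.map H.subtype ⊔ span (ZMod 2) {x0 + (a : V)})
      (D.map H.subtype ⊔ span (ZMod 2) {x0 + (b : V)})
      (qd_proper Q hya hQ) (qd_proper D hyb hD) (hcovE _ _ ?_ ?_)
    · obtain ⟨Z, hZ⟩ : ∃ Z, Z = (Q.map H.subtype ⊔ span (ZMod 2) {x0 + (a : V)}) ⊓
        (D.map H.subtype ⊔ span (ZMod 2) {x0 + (b : V)}) := ⟨_, rfl⟩
      rw [← hZ] at h1
      have h2 : finrank (ZMod 2) ↥(Z ⊓ H) ≤ finrank (ZMod 2) ↥(Q ⊓ D) := by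
        rw [← hdimmap (Q ⊓ D)]
        refine Submodule.finrank_mono ?_
        rintro v ⟨hv, hvH⟩
        rw [hZ] at hv
        have hv1 := qd_trace Q hya hvH hv.1
        have hv2 := qd_trace D hyb hvH hv.2
        obtain ⟨w, hw, rfl⟩ := Submodule.mem_map.1 hv1
        obtain ⟨w', hw', e⟩ := Submodule.mem_map.1 hv2
        have : w' = w := Subtype.ext e
        subst this
        exact Submodule.mem_map.2 ⟨w', ⟨hw, hw'⟩, rfl⟩
      have h3 := Submodule.finrank_sup_add_finrank_inf_eq Z H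
      have h4 := Submodule.finrank_le (Z ⊔ H)
      omega
    · intro f hf
      rcases hFc f hf with h | h
      · left; exact mem_sup_left (Submodule.mem_map.2 ⟨f, h, rfl⟩)
      · right; exact mem_sup_left (Submodule.mem_map.2 ⟨f, h, rfl⟩)
    · intro c hc
      have e : ∀ a : ↥H, x0 + (c : V) = ((a + c : ↥H) : V) + (x0 + (a : V)) := by
        intro a
        rw [Submodule.coe_add]
        exact qd_move3 x0 (a : V) (c : V)
      rcases hAc c hc with h | h
      · left
        rw [e a]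
        exact add_mem (mem_sup_left (Submodule.mem_map.2 ⟨a + c, h, rfl⟩))
          (mem_sup_right (mem_span_singleton_self _))
      · right
        rw [e b]
        exact add_mem (mem_sup_left (Submodule.mem_map.2 ⟨b + c, h, rfl⟩))
          (mem_sup_right (mem_span_singleton_self _))

end Pool.Agent.WW

end

section

/-!
Item B2: the projection from an element of the cocircuit.
-/

namespace Pool.Agent.WW

open Submodule Module

universe u

section

variable {V : Type u} [AddCommGroup V] [Module (ZMod 2) V]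

/-- the functional with kernel `H` -/
theorem qpi_dual [FiniteDimensional (ZMod 2) V] (H : Submodule (ZMod 2) V) (x0 : V)
    (hd : finrank (ZMod 2) H + 1 = finrank (ZMod 2) V) (hx : x0 ∉ H) :
    ∃ ψ : V →ₗ[ZMod 2] ZMod 2, (∀ v, ψ v = 0 ↔ v ∈ H) ∧ ψ x0 = 1 := by
  obtain ⟨ψ, h1, h2⟩ := colSep_dual H x0 hx
  refine ⟨ψ, ?_, h2⟩
  have hle : H ≤ LinearMap.ker ψ := fun v hv => LinearMap.mem_ker.2 (h1 v hv)
  have hne : LinearMap.ker ψ ≠ ⊤ := by
    intro h
    have : x0 ∈ LinearMap.ker ψ := by rw [h]; exact mem_top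
    rw [LinearMap.mem_ker, h2] at this
    exact one_ne_zero this
  have hlt : finrank (ZMod 2) ↥(LinearMap.ker ψ) < finrank (ZMod 2) V :=
    Submodule.finrank_lt (lt_top_iff_ne_top.2 hne).ne
  have heq : H = LinearMap.ker ψ := Submodule.eq_of_le_of_finrank_le hle (by omega)
  intro v
  rw [heq, LinearMap.mem_ker]

theorem qpi_add_add (u v : V) : u + (u + v) = v := by
  rw [← add_assoc, colSep_add_self, zero_add]

/-- the projection along `e` onto the kernel `H` of `ψ` -/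
noncomputable def qpi (H : Submodule (ZMod 2) V) (ψ : V →ₗ[ZMod 2] ZMod 2) (e : V)
    (h : ∀ v, ψ v = 0 ↔ v ∈ H) (he : ψ e = 1) : V →ₗ[ZMod 2] ↥H :=
  LinearMap.codRestrict H (LinearMap.id + ψ.smulRight e) (fun v => by
    rw [← h]
    simp only [LinearMap.add_apply, LinearMap.id_apply, LinearMap.smulRight_apply, map_add,
      map_smul, he, smul_eq_mul, mul_one]
    exact CharTwo.add_self_eq_zero _)

theorem qpi_coe (H : Submodule (ZMod 2) V) (ψ : V →ₗ[ZMod 2] ZMod 2) (e : V)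
    (h : ∀ v, ψ v = 0 ↔ v ∈ H) (he : ψ e = 1) (v : V) :
    ((qpi H ψ e h he v : ↥H) : V) = v + ψ v • e := rfl

theorem qpi_in (H : Submodule (ZMod 2) V) (ψ : V →ₗ[ZMod 2] ZMod 2) (e : V)
    (h : ∀ v, ψ v = 0 ↔ v ∈ H) (he : ψ e = 1) {v : V} (hv : v ∈ H) :
    ((qpi H ψ e h he v : ↥H) : V) = v := by
  rw [qpi_coe, (h v).2 hv, zero_smul, add_zero]

theorem qpi_out (H : Submodule (ZMod 2) V) (ψ : V →ₗ[ZMod 2] ZMod 2) (e : V)
    (h : ∀ v, ψ v = 0 ↔ v ∈ H) (he : ψ e = 1) {v : V} (hv : v ∉ H) :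
    ((qpi H ψ e h he v : ↥H) : V) = v + e := by
  have h1 : ψ v = 1 := by
    have h2 : ∀ a : ZMod 2, a ≠ 0 → a = 1 := by decide
    exact h2 _ (fun h0 => hv ((h v).1 h0))
  rw [qpi_coe, h1, one_smul]

end

theorem c3QuadPi : C3QuadPi.{u} := by
  intro V _ _ _ _ E H F A x0 a hd h0 hx0 hF hA ha
  classical
  obtain ⟨ψ, hψ, hψ0⟩ := qpi_dual H x0 hd hx0
  obtain ⟨e, hedef⟩ : ∃ e, e = x0 + (a : V) := ⟨_, rfl⟩
  have hψa : ∀ b : ↥H, ψ (b : V) = 0 := fun b => (hψ _).2 b.2
  have he : ψ e = 1 := by rw [hedef, map_add, hψ0, hψa, add_zero]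
  have heE : e ∈ E := by rw [hedef]; exact (hA a).1 ha
  have hout : ∀ b : ↥H, x0 + (b : V) ∉ H := fun b hb => hx0 ((H.add_mem_iff_left b.2).1 hb)
  have hxv : ∀ v, v ∉ H → x0 + v ∈ H := by
    intro v hv
    rw [← hψ, map_add, hψ0]
    have h2 : ∀ a : ZMod 2, a ≠ 0 → 1 + a = 0 := by decide
    exact h2 _ (fun h0 => hv ((hψ v).1 h0))
  have heH : e ∉ H := by rw [hedef]; exact hout a
  rw [← hedef]
  refine ⟨qpi H ψ e hψ he, ?_, ?_, ?_, ?_⟩
  · intro w
    exact ⟨(w : V), Subtype.ext (qpi_in H ψ e hψ he w.2)⟩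
  · intro v
    constructor
    · intro h
      have h1 := congrArg (fun w : ↥H => (w : V)) h
      simp only [ZeroMemClass.coe_zero] at h1
      by_cases hv : v ∈ H
      · left
        rw [qpi_in H ψ e hψ he hv] at h1
        exact h1
      · right
        rw [qpi_out H ψ e hψ he hv] at h1
        calc v = (v + e) + e := by rw [add_assoc, colSep_add_self, add_zero]
          _ = e := by rw [h1, zero_add]
    · rintro (rfl | rfl)
      · exact map_zero _
      · apply Subtype.ext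
        rw [qpi_out H ψ v hψ he heH, colSep_add_self]
        rfl
  · unfold contr NA
    congr 1
    ext w
    rw [Finset.mem_image, Finset.mem_union, Finset.mem_image]
    constructor
    · rintro ⟨v, hv, rfl⟩
      by_cases hvH : v ∈ H
      · left
        rw [hF, qpi_in H ψ e hψ he hvH]
        exact hv
      · right
        refine ⟨⟨x0 + v, hxv v hvH⟩, ?_, ?_⟩
        · rw [hA]
          change x0 + (x0 + v) ∈ E
          rw [qpi_add_add]
          exact hv
        · apply Subtype.ext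
          rw [qpi_out H ψ e hψ he hvH, hedef]
          change (a : V) + (x0 + v) = v + (x0 + a)
          abel
    · rintro (hw | ⟨b, hb, rfl⟩)
      · exact ⟨(w : V), (hF w).1 hw, Subtype.ext (qpi_in H ψ e hψ he w.2)⟩
      · refine ⟨x0 + (b : V), (hA b).1 hb, ?_⟩
        apply Subtype.ext
        rw [qpi_out H ψ e hψ he (hout b), hedef]
        change x0 + (b : V) + (x0 + a) = a + b
        calc x0 + (b : V) + (x0 + a) = (x0 + x0) + (a + b) := by abel
          _ = a + b := by rw [colSep_add_self, zero_add]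
  · unfold deg tA
    obtain ⟨T, hT⟩ : ∃ T, T = A.filter (fun b => a + b ∈ F) := ⟨_, rfl⟩
    rw [← hT]
    have hTm : ∀ b, b ∈ T ↔ b ∈ A ∧ a + b ∈ F := by
      intro b; rw [hT, Finset.mem_filter]
    have key : E.filter (fun v => v + e ∈ E) =
        T.image (fun b : ↥H => (a : V) + (b : V)) ∪ T.image (fun b : ↥H => x0 + (b : V)) := by
      ext v
      rw [Finset.mem_filter, Finset.mem_union, Finset.mem_image, Finset.mem_image]
      constructor
      · rintro ⟨hv, hve⟩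
        by_cases hvH : v ∈ H
        · left
          refine ⟨⟨(a : V) + v, H.add_mem a.2 hvH⟩, ?_, ?_⟩
          · rw [hTm, hA, hF]
            constructor
            · change x0 + ((a : V) + v) ∈ E
              have : x0 + ((a : V) + v) = v + e := by rw [hedef]; abel
              rw [this]
              exact hve
            · change (a : V) + ((a : V) + v) ∈ E
              rw [qpi_add_add]
              exact hv
          · change (a : V) + ((a : V) + v) = v
            rw [qpi_add_add]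
        · right
          refine ⟨⟨x0 + v, hxv v hvH⟩, ?_, ?_⟩
          · rw [hTm, hA, hF]
            constructor
            · change x0 + (x0 + v) ∈ E
              rw [qpi_add_add]
              exact hv
            · change (a : V) + (x0 + v) ∈ E
              have : (a : V) + (x0 + v) = v + e := by rw [hedef]; abel
              rw [this]
              exact hve
          · change x0 + (x0 + v) = v
            rw [qpi_add_add]
      · rintro (⟨b, hb, rfl⟩ | ⟨b, hb, rfl⟩)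
        · rw [hTm, hA, hF] at hb
          refine ⟨hb.2, ?_⟩
          have : (a : V) + (b : V) + e = x0 + (b : V) := by
            rw [hedef]
            calc (a : V) + (b : V) + (x0 + a) = (a + a) + (x0 + b) := by abel
              _ = x0 + b := by rw [colSep_add_self, zero_add]
          rw [this]
          exact hb.1
        · rw [hTm, hA, hF] at hb
          refine ⟨hb.1, ?_⟩
          have : x0 + (b : V) + e = (a : V) + (b : V) := by
            rw [hedef]
            calc x0 + (b : V) + (x0 + a) = (x0 + x0) + (a + b) := by abel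
              _ = a + b := by rw [colSep_add_self, zero_add]
          rw [this]
          exact hb.2
    rw [key, Finset.card_union_of_disjoint, Finset.card_image_of_injective,
      Finset.card_image_of_injective]
    · ring
    · intro b b' h
      exact Subtype.ext (add_left_cancel h)
    · intro b b' h
      exact Subtype.ext (add_left_cancel h)
    · rw [Finset.disjoint_left]
      intro v hv hv'
      obtain ⟨b, _, rfl⟩ := Finset.mem_image.1 hv
      obtain ⟨b', _, h⟩ := Finset.mem_image.1 hv'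
      apply hout b'
      rw [h]
      exact H.add_mem a.2 b.2

end Pool.Agent.WW

end
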