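import Pool.Agent.Work.MP_a8f287_co.Bd.T01

/-! Part of the former bundles, compiled separately. -/

section

/-!
House and K_{2,3} among doubled points (item K), core part.
-/

set_option autoImplicit false

namespace Pool.Agent.WW

open Submodule Module

variable {V W : Type*} [AddCommGroup V] [Module (ZMod 2) V]
  [AddCommGroup W] [Module (ZMod 2) W]

theorem hk_add_self (v : V) : v + v = 0 := by
  rw [← two_smul (ZMod 2) v]
  have : (2 : ZMod 2) = 0 := by decide
  rw [this, zero_smul]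

theorem hk_pres_bot {E : Set V} {v : V} (h : v ∈ E) : Pres E ⊥ v :=
  ⟨v, h, by rw [Submodule.mem_bot]; exact hk_add_self v⟩

/-- one sign pattern -/
theorem hk_tab_core {m : ℕ} (b : Fin m → V) (E : Set V) (e : V) (p : Fin 5 → V)
    (hb : ∀ c : Fin m → ZMod 2, ∑ i, c i • b i = 0 → c = 0)
    (code : Fin 5 → ℕ) (edges : Fin 6 → Fin 5 × Fin 5)
    (h1 : comb b 1 = e) (hcode : ∀ i, comb b (code i) = p i)
    (he : e ∈ E) (hp : ∀ i, p i ∈ E) (hpe : ∀ i, p i + e ∈ E)
    (hedge : ∀ k, p (edges k).1 + p (edges k).2 ∈ E ∨ p (edges k).1 + p (edges k).2 + e ∈ E)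
    (hT : ∃ T, tabOK m code edges T = true) : HasK5 E := by
  classical
  obtain ⟨T, hT⟩ := hT
  -- the sign pattern
  have hsg : ∃ sg < 64, ∀ k : Fin 6, p (edges k).1 + p (edges k).2 +
      (if sg.testBit k then e else 0) ∈ E := by
    have hex : ∀ s : Fin 6 → Bool, ∃ sg < 64, ∀ k : Fin 6, sg.testBit (k : ℕ) = s k := by
      decide +kernel
    obtain ⟨sg, hlt, hs⟩ := hex fun k => decide (p (edges k).1 + p (edges k).2 ∉ E)
    refine ⟨sg, hlt, fun k => ?_⟩
    rw [hs k]
    by_cases hk : p (edges k).1 + p (edges k).2 ∈ E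
    · simp [hk]
    · simpa [hk] using (hedge k).resolve_left hk
  obtain ⟨sg, hlt, hs⟩ := hsg
  rw [tabOK, List.all_eq_true] at hT
  have h2 := hT sg (List.mem_range.2 hlt)
  rw [Bool.and_eq_true, List.all_eq_true] at h2
  obtain ⟨h3, h4⟩ := h2
  have h5 : ∃ C s0 s1 s2 s3, checkK5 (mask (allCodes code edges sg)) C s0 s1 s2 s3 = true := by
    revert h4
    cases hh : T[sg]? with
    | none => intro h; simp at h
    | some q =>
      obtain ⟨C, s0, s1, s2, s3⟩ := q
      intro h
      exact ⟨C, s0, s1, s2, s3, h⟩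
  obtain ⟨C, s0, s1, s2, s3, h6⟩ := h5
  refine hasK5_of_cert b E ⊥ bot_le ?_ _ ?_ C s0 s1 s2 s3 h6
  · intro n hn h
    exact comb_mem_imp b ⊥ (fun c hc => hb c ((Submodule.mem_bot _).1 hc)) n hn h
  · intro n hn
    rw [testBit_mask] at hn
    refine ⟨by simpa using h3 n hn, hk_pres_bot ?_⟩
    rw [allCodes, List.mem_cons, List.mem_append] at hn
    rcases hn with rfl | hn | hn
    · rw [h1]; exact he
    · rw [List.mem_flatMap] at hn
      obtain ⟨i, _, hi⟩ := hn
      rcases List.mem_cons.1 hi with rfl | hi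
      · rw [hcode]; exact hp i
      · rw [List.mem_singleton] at hi
        rw [hi, comb_xor, h1, hcode]
        exact hpe i
    · rw [edgeCodes, List.mem_map] at hn
      obtain ⟨k, _, rfl⟩ := hn
      rw [comb_xor, comb_xor, hcode, hcode]
      have := hs k
      by_cases hk : sg.testBit k
      · rw [if_pos hk] at this ⊢
        rw [h1]; exact this
      · rw [if_neg hk] at this ⊢
        have h0 : comb b 0 = 0 := by simp [comb]
        rw [h0]; exact this

/-- the six possible relations among the five points -/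
def relList : List (Fin 5 → ZMod 2) :=
  [![1, 1, 1, 1, 0], ![1, 1, 1, 0, 1], ![1, 1, 0, 1, 1], ![1, 0, 1, 1, 1], ![0, 1, 1, 1, 1],
    ![1, 1, 1, 1, 1]]

theorem rel_classify : ∀ r : Fin 5 → ZMod 2, r = 0 ∨ (∃ i, r = Pi.single i 1) ∨
    (∃ i j, i ≠ j ∧ r = Pi.single i 1 + Pi.single j 1) ∨
    (∃ i j k, i ≠ j ∧ j ≠ k ∧ i ≠ k ∧ r = Pi.single i 1 + Pi.single j 1 + Pi.single k 1) ∨
    r ∈ relList := by
  decide +kernel

theorem rel_diff : ∀ r ∈ relList, ∀ r' ∈ relList, r + r' = 0 ∨ r + r' ∉ relList := by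
  decide +kernel

theorem rel_cases (d : Fin 5 → W) (h0 : ∀ i, d i ≠ 0) (hinj : Function.Injective d)
    (h3 : ∀ i j k, i ≠ j → j ≠ k → i ≠ k → d i + d j ≠ d k) :
    (∀ r : Fin 5 → ZMod 2, ∑ j, r j • d j = 0 → r = 0) ∨
    ∃ r0 ∈ relList, ∑ j, r0 j • d j = 0 ∧ ∀ r : Fin 5 → ZMod 2, ∑ j, r j • d j = 0 →
      r = 0 ∨ r = r0 := by
  classical
  have hs : ∀ i, ∑ j, (Pi.single i 1 : Fin 5 → ZMod 2) j • d j = d i := by
    intro i
    rw [Finset.sum_eq_single i]
    · simp
    · intro j _ hj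
      rw [Pi.single_eq_of_ne hj, zero_smul]
    · intro h; exact absurd (Finset.mem_univ i) h
  have hadd : ∀ r r' : Fin 5 → ZMod 2, ∑ j, (r + r') j • d j =
      ∑ j, r j • d j + ∑ j, r' j • d j := by
    intro r r'
    rw [← Finset.sum_add_distrib]
    exact Finset.sum_congr rfl fun j _ => by rw [Pi.add_apply, add_smul]
  have key : ∀ r : Fin 5 → ZMod 2, ∑ j, r j • d j = 0 → r = 0 ∨ r ∈ relList := by
    intro r hr
    rcases rel_classify r with h | ⟨i, rfl⟩ | ⟨i, j, hij, rfl⟩ | ⟨i, j, k, hij, hjk, hik, rfl⟩ | h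
    · exact Or.inl h
    · rw [hs] at hr; exact absurd hr (h0 i)
    · rw [hadd, hs, hs] at hr
      exfalso
      apply hij
      apply hinj
      calc d i = d i + (d j + d j) := by rw [hk_add_self, add_zero]
        _ = (d i + d j) + d j := by abel
        _ = d j := by rw [hr, zero_add]
    · rw [hadd, hadd, hs, hs, hs] at hr
      exfalso
      refine h3 i j k hij hjk hik ?_
      calc d i + d j = d i + d j + (d k + d k) := by rw [hk_add_self, add_zero]
        _ = (d i + d j + d k) + d k := by abel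
        _ = d k := by rw [hr, zero_add]
    · exact Or.inr h
  by_cases hex : ∃ r0 ∈ relList, ∑ j, r0 j • d j = 0
  · right
    obtain ⟨r0, hr0, hsum⟩ := hex
    refine ⟨r0, hr0, hsum, fun r hr => ?_⟩
    rcases key r hr with h | h
    · exact Or.inl h
    · right
      have h1 : ∑ j, (r + r0) j • d j = 0 := by rw [hadd, hr, hsum, add_zero]
      have h2 : r + r0 = 0 := by
        rcases key _ h1 with h' | h'
        · exact h'
        · exact (rel_diff r h r0 hr0).resolve_right (fun hn => hn h')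
      calc r = r + (r0 + r0) := by rw [hk_add_self, add_zero]
        _ = (r + r0) + r0 := by abel
        _ = r0 := by rw [h2, zero_add]
  · left
    intro r hr
    rcases key r hr with h | h
    · exact h
    · exact absurd ⟨r, h, hr⟩ hex

section Five

variable [DecidableEq V] [DecidableEq W] {E : Finset V} {e : V} (π : V →ₗ[ZMod 2] W)

omit [DecidableEq V] [DecidableEq W] in
theorem hk_ker_cases (hker : ∀ v, π v = 0 ↔ v = 0 ∨ v = e) {u v : V} (h : π u = π v) :
    u = v ∨ u = v + e := by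
  have h1 : π (u + v) = 0 := by rw [map_add, h, hk_add_self]
  rcases (hker _).1 h1 with h2 | h2
  · left
    calc u = u + (v + v) := by rw [hk_add_self, add_zero]
      _ = (u + v) + v := by abel
      _ = v := by rw [h2, zero_add]
  · right
    calc u = u + (v + v) := by rw [hk_add_self, add_zero]
      _ = (u + v) + v := by abel
      _ = v + e := by rw [h2, add_comm]

theorem hk_DD_lift (hker : ∀ v, π v = 0 ↔ v = 0 ∨ v = e) {w : W} (hw : w ∈ DD π E e) :
    w ≠ 0 ∧ (∃ a, π a = w) ∧ ∀ a, π a = w → a ∈ E ∧ a + e ∈ E := by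
  rw [DD, Finset.mem_erase, Finset.mem_image] at hw
  obtain ⟨hw0, a, ha, rfl⟩ := hw
  rw [Finset.mem_filter] at ha
  refine ⟨hw0, ⟨a, rfl⟩, fun a' ha' => ?_⟩
  rcases hk_ker_cases π hker ha' with rfl | rfl
  · exact ha
  · refine ⟨ha.2, ?_⟩
    rw [add_assoc, hk_add_self, add_zero]
    exact ha.1

omit [DecidableEq V] in
theorem hk_edge_lift (hker : ∀ v, π v = 0 ↔ v = 0 ∨ v = e) {u v : V}
    (h : π u + π v ∈ contr π E) : u + v ∈ (E : Set V) ∨ u + v + e ∈ (E : Set V) := by
  rw [contr, Finset.mem_erase, Finset.mem_image] at h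
  obtain ⟨_, a, ha, hau⟩ := h
  rw [← map_add] at hau
  rcases hk_ker_cases π hker hau with rfl | rfl
  · exact Or.inl ha
  · exact Or.inr ha

theorem hk_case_none (hker : ∀ v, π v = 0 ↔ v = 0 ∨ v = e) (he : e ∈ E) (he0 : e ≠ 0)
    (d : Fin 5 → W) (hd : ∀ i, d i ∈ DD π E e) (edges : Fin 6 → Fin 5 × Fin 5)
    (hedge : ∀ k, d (edges k).1 + d (edges k).2 ∈ contr π E)
    (hrel : ∀ r : Fin 5 → ZMod 2, ∑ j, r j • d j = 0 → r = 0)
    (hT : ∃ T, tabOK 6 ![2, 4, 8, 16, 32] edges T = true) : HasK5 (E : Set V) := by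
  choose p hp using fun i => (hk_DD_lift π hker (hd i)).2.1
  have hpe : π e = 0 := (hker e).2 (Or.inr rfl)
  refine hk_tab_core (Fin.cons e p : Fin 6 → V) (E : Set V) e p ?_ ![2, 4, 8, 16, 32] edges ?_ ?_ he
    (fun i => ((hk_DD_lift π hker (hd i)).2.2 _ (hp i)).1)
    (fun i => ((hk_DD_lift π hker (hd i)).2.2 _ (hp i)).2) ?_ hT
  · intro c hc
    rw [Fin.sum_univ_succ] at hc
    simp only [Fin.cons_zero, Fin.cons_succ] at hc
    have h1 := congrArg π hc
    rw [map_add, map_smul, hpe, smul_zero, zero_add, map_sum, map_zero] at h1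
    simp only [map_smul, hp] at h1
    have h2 := hrel _ h1
    have h3 : ∀ i : Fin 5, c i.succ = 0 := fun i => congrFun h2 i
    simp only [h3, zero_smul, Finset.sum_const_zero, add_zero] at hc
    have h4 : c 0 = 0 := (smul_eq_zero.1 hc).resolve_right he0
    funext i
    refine Fin.cases h4 h3 i
  · simp [comb, Fin.sum_univ_succ, Nat.testBit]
  · intro i
    fin_cases i <;> simp [comb, Fin.sum_univ_succ, Nat.testBit]
  · intro k
    have := hedge k
    rw [← hp, ← hp] at this
    exact hk_edge_lift π hker this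

theorem hk_case_rel (hker : ∀ v, π v = 0 ↔ v = 0 ∨ v = e) (he : e ∈ E) (he0 : e ≠ 0)
    (d : Fin 5 → W) (hd : ∀ i, d i ∈ DD π E e) (edges : Fin 6 → Fin 5 × Fin 5)
    (hedge : ∀ k, d (edges k).1 + d (edges k).2 ∈ contr π E)
    (r0 : Fin 5 → ZMod 2) (hsum : ∑ j, r0 j • d j = 0)
    (hrel : ∀ r : Fin 5 → ZMod 2, ∑ j, r j • d j = 0 → r = 0 ∨ r = r0)
    (dep : Fin 5) (hdep : r0 dep = 1) (code : Fin 5 → ℕ)
    (hcode : ∀ b : Fin 5 → V, comb b 1 = b 0 ∧
      (∀ i : Fin 4, comb b (code (dep.succAbove i)) = b i.succ) ∧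
      comb b (code dep) = ∑ i : Fin 4, r0 (dep.succAbove i) • b i.succ)
    (hT : ∃ T, tabOK 5 code edges T = true) : HasK5 (E : Set V) := by
  choose p hp using fun i => (hk_DD_lift π hker (hd i)).2.1
  have hpe : π e = 0 := (hker e).2 (Or.inr rfl)
  -- the new lifts
  obtain ⟨p', hp'1, hp'2⟩ : ∃ p' : Fin 5 → V, (∀ i : Fin 4, p' (dep.succAbove i) =
      p (dep.succAbove i)) ∧ p' dep = ∑ i : Fin 4, r0 (dep.succAbove i) • p (dep.succAbove i) :=
    ⟨dep.insertNth (∑ i : Fin 4, r0 (dep.succAbove i) • p (dep.succAbove i))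
      (fun i => p (dep.succAbove i)), fun i => by simp, by simp⟩
  have hsum' : d dep = ∑ i : Fin 4, r0 (dep.succAbove i) • d (dep.succAbove i) := by
    rw [Fin.sum_univ_succAbove _ dep, hdep, one_smul] at hsum
    calc d dep = d dep + (∑ i : Fin 4, r0 (dep.succAbove i) • d (dep.succAbove i) +
          ∑ i : Fin 4, r0 (dep.succAbove i) • d (dep.succAbove i)) := by
            rw [hk_add_self, add_zero]
      _ = (d dep + ∑ i : Fin 4, r0 (dep.succAbove i) • d (dep.succAbove i)) +
          ∑ i : Fin 4, r0 (dep.succAbove i) • d (dep.succAbove i) := by abel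
      _ = _ := by rw [hsum, zero_add]
  have hp' : ∀ i, π (p' i) = d i := by
    intro i
    rcases Fin.eq_self_or_eq_succAbove dep i with rfl | ⟨j, rfl⟩
    · rw [hp'2, map_sum, hsum']
      exact Finset.sum_congr rfl fun j _ => by rw [map_smul, hp]
    · rw [hp'1, hp]
  have hb := hcode (Fin.cons e (fun i => p (dep.succAbove i)) : Fin 5 → V)
  simp only [Fin.cons_zero, Fin.cons_succ] at hb
  refine hk_tab_core (Fin.cons e (fun i => p (dep.succAbove i)) : Fin 5 → V) (E : Set V) e p' ?_ code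
    edges hb.1 ?_ he
    (fun i => ((hk_DD_lift π hker (hd i)).2.2 _ (hp' i)).1)
    (fun i => ((hk_DD_lift π hker (hd i)).2.2 _ (hp' i)).2) ?_ hT
  · intro c hc
    rw [Fin.sum_univ_succ] at hc
    simp only [Fin.cons_zero, Fin.cons_succ] at hc
    have h1 := congrArg π hc
    rw [map_add, map_smul, hpe, smul_zero, zero_add, map_sum, map_zero] at h1
    simp only [map_smul, hp] at h1
    let r : Fin 5 → ZMod 2 := dep.insertNth 0 (fun i => c i.succ)
    have hr1 : r dep = 0 := by simp [r]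
    have hr2 : ∀ i : Fin 4, r (dep.succAbove i) = c i.succ := fun i => by simp [r]
    have h2 : ∑ j, r j • d j = 0 := by
      rw [Fin.sum_univ_succAbove _ dep, hr1, zero_smul, zero_add, ← h1]
      exact Finset.sum_congr rfl fun j _ => by rw [hr2]
    have h2' : r = 0 := by
      rcases hrel r h2 with h | h
      · exact h
      · rw [h, hdep] at hr1
        exact absurd hr1 one_ne_zero
    have h3 : ∀ i : Fin 4, c i.succ = 0 := fun i => by rw [← hr2, h2']; rfl
    simp only [h3, zero_smul, Finset.sum_const_zero, add_zero] at hc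
    have h4 : c 0 = 0 := (smul_eq_zero.1 hc).resolve_right he0
    funext i
    refine Fin.cases h4 h3 i
  · intro i
    rcases Fin.eq_self_or_eq_succAbove dep i with rfl | ⟨j, rfl⟩
    · rw [hp'2]; exact hb.2.2
    · rw [hp'1]; exact hb.2.1 j
  · intro k
    have := hedge k
    rw [← hp', ← hp'] at this
    exact hk_edge_lift π hker this

theorem five_core (hker : ∀ v, π v = 0 ↔ v = 0 ∨ v = e) (he : e ∈ E) (he0 : e ≠ 0)
    (d : Fin 5 → W) (hd : ∀ i, d i ∈ DD π E e) (hinj : Function.Injective d)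
    (hline : ∀ x y, x ∈ DD π E e → y ∈ DD π E e → x ≠ y → x + y ∉ DD π E e)
    (edges : Fin 6 → Fin 5 × Fin 5)
    (hedge : ∀ k, d (edges k).1 + d (edges k).2 ∈ contr π E)
    (h0 : ∃ T, tabOK 6 ![2, 4, 8, 16, 32] edges T = true)
    (h1 : ∃ T, tabOK 5 ![2, 4, 8, 14, 16] edges T = true)
    (h2 : ∃ T, tabOK 5 ![2, 4, 8, 16, 14] edges T = true)
    (h3 : ∃ T, tabOK 5 ![2, 4, 8, 16, 22] edges T = true)
    (h4 : ∃ T, tabOK 5 ![2, 4, 8, 16, 26] edges T = true)
    (h5 : ∃ T, tabOK 5 ![2, 4, 8, 16, 28] edges T = true)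
    (h6 : ∃ T, tabOK 5 ![2, 4, 8, 16, 30] edges T = true) : HasK5 (E : Set V) := by
  rcases rel_cases d (fun i => (hk_DD_lift π hker (hd i)).1) hinj
    (fun i j k hij hjk hik h => hline (d i) (d j) (hd i) (hd j) (fun h' => hij (hinj h'))
      (by rw [h]; exact hd k)) with h | ⟨r0, hr0, hsum, huniq⟩
  · exact hk_case_none π hker he he0 d hd edges hedge h h0
  · simp only [relList, List.mem_cons, List.not_mem_nil, or_false] at hr0
    rcases hr0 with rfl | rfl | rfl | rfl | rfl | rfl
    · exact hk_case_rel π hker he he0 d hd edges hedge _ hsum huniq 3 rfl ![2, 4, 8, 14, 16]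
        (fun b => ⟨by simp [comb, Fin.sum_univ_succ, Nat.testBit],
          fun i => by fin_cases i <;> simp [comb, Fin.sum_univ_succ, Nat.testBit, Fin.succAbove],
          by simp [comb, Fin.sum_univ_succ, Nat.testBit, Fin.succAbove]⟩) h1
    · exact hk_case_rel π hker he he0 d hd edges hedge _ hsum huniq 4 rfl ![2, 4, 8, 16, 14]
        (fun b => ⟨by simp [comb, Fin.sum_univ_succ, Nat.testBit],
          fun i => by fin_cases i <;> simp [comb, Fin.sum_univ_succ, Nat.testBit, Fin.succAbove],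
          by simp [comb, Fin.sum_univ_succ, Nat.testBit, Fin.succAbove]⟩) h2
    · exact hk_case_rel π hker he he0 d hd edges hedge _ hsum huniq 4 rfl ![2, 4, 8, 16, 22]
        (fun b => ⟨by simp [comb, Fin.sum_univ_succ, Nat.testBit],
          fun i => by fin_cases i <;> simp [comb, Fin.sum_univ_succ, Nat.testBit, Fin.succAbove],
          by simp [comb, Fin.sum_univ_succ, Nat.testBit, Fin.succAbove]⟩) h3
    · exact hk_case_rel π hker he he0 d hd edges hedge _ hsum huniq 4 rfl ![2, 4, 8, 16, 26]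
        (fun b => ⟨by simp [comb, Fin.sum_univ_succ, Nat.testBit],
          fun i => by fin_cases i <;> simp [comb, Fin.sum_univ_succ, Nat.testBit, Fin.succAbove],
          by simp [comb, Fin.sum_univ_succ, Nat.testBit, Fin.succAbove]⟩) h4
    · exact hk_case_rel π hker he he0 d hd edges hedge _ hsum huniq 4 rfl ![2, 4, 8, 16, 28]
        (fun b => ⟨by simp [comb, Fin.sum_univ_succ, Nat.testBit],
          fun i => by fin_cases i <;> simp [comb, Fin.sum_univ_succ, Nat.testBit, Fin.succAbove],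
          by simp [comb, Fin.sum_univ_succ, Nat.testBit, Fin.succAbove]⟩) h5
    · exact hk_case_rel π hker he he0 d hd edges hedge _ hsum huniq 4 rfl ![2, 4, 8, 16, 30]
        (fun b => ⟨by simp [comb, Fin.sum_univ_succ, Nat.testBit],
          fun i => by fin_cases i <;> simp [comb, Fin.sum_univ_succ, Nat.testBit, Fin.succAbove],
          by simp [comb, Fin.sum_univ_succ, Nat.testBit, Fin.succAbove]⟩) h6

theorem house_core (hker : ∀ v, π v = 0 ↔ v = 0 ∨ v = e) (he : e ∈ E) (he0 : e ≠ 0)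
    (hline : ∀ x y, x ∈ DD π E e → y ∈ DD π E e → x ≠ y → x + y ∉ DD π E e)
    (a b c x y : W) (ha : a ∈ DD π E e) (hb : b ∈ DD π E e) (hc : c ∈ DD π E e)
    (hx : x ∈ DD π E e) (hy : y ∈ DD π E e) (hd : [a, b, c, x, y].Nodup)
    (h1 : a + b ∈ contr π E) (h2 : b + c ∈ contr π E) (h3 : a + c ∈ contr π E)
    (h4 : a + x ∈ contr π E) (h6 : x + y ∈ contr π E) (h7 : y + b ∈ contr π E) :
    HasK5 (E : Set V) := by
  refine five_core π hker he he0 ![a, b, c, x, y] ?_ ?_ hline houseE ?_ house_0 house_1 house_2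
    house_3 house_4 house_5 house_6
  · intro i; fin_cases i <;> assumption
  · simp only [List.nodup_cons, List.mem_cons, List.not_mem_nil, or_false, not_or, List.nodup_nil,
      not_false_eq_true, and_true] at hd
    obtain ⟨⟨n1, n2, n3, n4⟩, ⟨n5, n6, n7⟩, ⟨n8, n9⟩, n10⟩ := hd
    intro i j hij
    fin_cases i <;> fin_cases j <;> first | rfl | (exfalso; first
      | exact n1 hij | exact n1 hij.symm | exact n2 hij | exact n2 hij.symm
      | exact n3 hij | exact n3 hij.symm | exact n4 hij | exact n4 hij.symm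
      | exact n5 hij | exact n5 hij.symm | exact n6 hij | exact n6 hij.symm
      | exact n7 hij | exact n7 hij.symm | exact n8 hij | exact n8 hij.symm
      | exact n9 hij | exact n9 hij.symm | exact n10 hij | exact n10 hij.symm)
  · intro k; fin_cases k <;> assumption

theorem K23_core (hker : ∀ v, π v = 0 ↔ v = 0 ∨ v = e) (he : e ∈ E) (he0 : e ≠ 0)
    (hline : ∀ x y, x ∈ DD π E e → y ∈ DD π E e → x ≠ y → x + y ∉ DD π E e)
    (a b x y z : W) (ha : a ∈ DD π E e) (hb : b ∈ DD π E e) (hx : x ∈ DD π E e)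
    (hy : y ∈ DD π E e) (hz : z ∈ DD π E e) (hd : [a, b, x, y, z].Nodup)
    (h1 : a + x ∈ contr π E) (h2 : a + y ∈ contr π E) (h3 : a + z ∈ contr π E)
    (h4 : b + x ∈ contr π E) (h6 : b + y ∈ contr π E) (h7 : b + z ∈ contr π E) :
    HasK5 (E : Set V) := by
  refine five_core π hker he he0 ![a, b, x, y, z] ?_ ?_ hline k23E ?_ k23_0 k23_1 k23_2
    k23_3 k23_4 k23_5 k23_6
  · intro i; fin_cases i <;> assumption
  · simp only [List.nodup_cons, List.mem_cons, List.not_mem_nil, or_false, not_or, List.nodup_nil,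
      not_false_eq_true, and_true] at hd
    obtain ⟨⟨n1, n2, n3, n4⟩, ⟨n5, n6, n7⟩, ⟨n8, n9⟩, n10⟩ := hd
    intro i j hij
    fin_cases i <;> fin_cases j <;> first | rfl | (exfalso; first
      | exact n1 hij | exact n1 hij.symm | exact n2 hij | exact n2 hij.symm
      | exact n3 hij | exact n3 hij.symm | exact n4 hij | exact n4 hij.symm
      | exact n5 hij | exact n5 hij.symm | exact n6 hij | exact n6 hij.symm
      | exact n7 hij | exact n7 hij.symm | exact n8 hij | exact n8 hij.symm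
      | exact n9 hij | exact n9 hij.symm | exact n10 hij | exact n10 hij.symm)
  · intro k; fin_cases k <;> assumption

end Five

end Pool.Agent.WW

end
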