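import Pool.Agent.Work.MP_a8f287_co.Bd.B02

/-! Part of the former bundles, compiled separately. -/

section

/-!
Soundness of the rows of the classification.
-/

namespace Pool.Agent.WW

/-- the set of codes mapped by `h` into the mask -/
def preM (M : ℕ) (h : List ℕ) : ℕ := mask ((List.range 32).filter fun m => M.testBit (linC h m))

/-- the check of one extension -/
def r5Entry (nxt : List ℕ) (M n c : ℕ) : Bool :=
  if c % 2 = 0 then certDec 5 1 (M + 2 ^ n) (c / 2) else
    let h := [c / 2 % 32, c / 2 ^ 6 % 32, c / 2 ^ 11 % 32, c / 2 ^ 16 % 32, c / 2 ^ 21 % 32]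
    ((List.range 32).all fun m => m == 0 || linC h m != 0) && nxt.contains (preM (M + 2 ^ n) h)

/-- the check of one row -/
def r5Row (nxt : List ℕ) (M : ℕ) : List ℕ → ℕ → Bool
  | [], _ => true
  | n :: l, N => r5Entry nxt M n (N % 2 ^ 26) && r5Row nxt M l (N / 2 ^ 26)

/-- the missing codes -/
def missM (M : ℕ) : List ℕ := (List.range 32).filter fun n => n != 0 && !M.testBit n

/-- the check of a list of masks with their rows -/
def r5Grp (nxt : List ℕ) (rows : List (ℕ × ℕ)) : Bool :=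
  rows.all fun r => decide (r.1 < 2 ^ 32) && !r.1.testBit 0 && r5Row nxt r.1 (missM r.1) r.2

/-- the conclusion for one mask, with extensions in `L` -/
def R5Ext (L : List ℕ) (M : ℕ) : Prop := M < 2 ^ 32 ∧ M.testBit 0 = false ∧
    ∀ n < 32, n ≠ 0 → M.testBit n = false →
      CertM (M + 2 ^ n) ∨ ∃ M' ∈ L, ∃ h : List ℕ, h.length = 5 ∧ (∀ c ∈ h, c < 32) ∧ IndepC h ∧
        ∀ m < 32, M'.testBit m = (M + 2 ^ n).testBit (linC h m)

theorem r5Entry_sound {nxt : List ℕ} {M n c : ℕ} (hc : r5Entry nxt M n c = true) :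
    CertM (M + 2 ^ n) ∨ ∃ M' ∈ nxt, ∃ h : List ℕ, h.length = 5 ∧ (∀ c ∈ h, c < 32) ∧ IndepC h ∧
        ∀ m < 32, M'.testBit m = (M + 2 ^ n).testBit (linC h m) := by
  unfold r5Entry at hc
  split_ifs at hc with h2
  · exact Or.inl (certDec_sound hc)
  · right
    simp only [Bool.and_eq_true, List.all_eq_true, List.mem_range, List.contains_iff_mem,
      Bool.or_eq_true, beq_iff_eq, bne_iff_ne] at hc
    refine ⟨_, hc.2, [c / 2 % 32, c / 2 ^ 6 % 32, c / 2 ^ 11 % 32, c / 2 ^ 16 % 32,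
      c / 2 ^ 21 % 32], rfl, ?_, ?_, ?_⟩
    · intro x hx
      simp only [List.mem_cons, List.not_mem_nil, or_false] at hx
      rcases hx with rfl | rfl | rfl | rfl | rfl <;> exact Nat.mod_lt _ (by norm_num)
    · intro m hm h0
      have hm' : m < 32 := hm
      exact (hc.1 m hm').resolve_left h0
    · intro m hm
      rw [Bool.eq_iff_iff]
      unfold preM
      rw [testBit_mask, List.mem_filter, List.mem_range]
      simp [hm]

theorem r5Row_sound {nxt : List ℕ} {M : ℕ} : ∀ {l : List ℕ} {N : ℕ},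
    r5Row nxt M l N = true → ∀ n ∈ l, ∃ c, r5Entry nxt M n c = true
  | [], _, _, n, hn => by simp at hn
  | k :: l, N, h, n, hn => by
    rw [r5Row, Bool.and_eq_true] at h
    rcases List.mem_cons.1 hn with rfl | hn
    · exact ⟨_, h.1⟩
    · exact r5Row_sound h.2 n hn

theorem r5Grp_sound {nxt L : List ℕ} {rows : List (ℕ × ℕ)} (h : r5Grp nxt rows = true)
    (hL : ∀ x ∈ nxt, x ∈ L) : ∀ r ∈ rows, R5Ext L r.1 := by
  intro r hr
  unfold r5Grp at h
  rw [List.all_eq_true] at h
  have h1 := h r hr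
  simp only [Bool.and_eq_true, decide_eq_true_eq, Bool.not_eq_true'] at h1
  refine ⟨h1.1.1, h1.1.2, ?_⟩
  intro n hn h0 hb
  obtain ⟨c, hc⟩ := r5Row_sound h1.2 n (by
    unfold missM
    rw [List.mem_filter, List.mem_range]
    refine ⟨hn, ?_⟩
    simp [h0, hb])
  rcases r5Entry_sound hc with h2 | ⟨M', hM', h2⟩
  · exact Or.inl h2
  · exact Or.inr ⟨M', hL M' hM', h2⟩

end Pool.Agent.WW

end
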