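import Pool.Agent.Work.MP_a8f287_co.Bd.B02
import Pool.Agent.Work.MP_a8f287_co.Bd.B05
import Pool.Agent.Work.MP_a8f287_co.Bd.B04
import Pool.Agent.Work.MP_a8f287_co.Bd.B03
import Pool.Agent.Work.MP_a8f287_co.Bd.B01
import Pool.Agent.Work.MP_a8f287_co.Bd.B06
import Pool.Agent.Work.MP_a8f287_co.Bd.T07
import Pool.Agent.Work.MP_a8f287_co.Bd.T10

/-! Bundle of small proof modules (one section per former module). -/

section

/-!
T13: the contraction inequality for sets without `K4`.
-/

namespace Pool.Agent.WW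

open Submodule Module

universe u

/-- a set without `K4`: no pair of doubled points with sum in the contraction -/
theorem tcontr_EE {V W : Type*} [AddCommGroup V] [Module (ZMod 2) V] [FiniteDimensional (ZMod 2) V]
    [DecidableEq V] [AddCommGroup W] [Module (ZMod 2) W] [DecidableEq W] (E : Finset V)
    (π : V →ₗ[ZMod 2] W) (e : V) (hker : ∀ v, π v = 0 ↔ v = 0 ∨ v = e) (h0 : (0 : V) ∉ E)
    (he : e ∈ E) (hK4 : K4F (E : Set V)) : EE π E e = 0 := by
  have he0 : e ≠ 0 := fun h => h0 (h ▸ he)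
  have hpe : π e = 0 := (hker e).2 (Or.inr rfl)
  rw [EE, Finset.card_eq_zero, Finset.filter_eq_empty_iff]
  rintro ⟨x, y⟩ hp hxy
  rw [Finset.mem_product] at hp
  obtain ⟨hx, hy⟩ := hp
  change x ∈ DD π E e at hx
  change y ∈ DD π E e at hy
  change x + y ∈ contr π E at hxy
  obtain ⟨hx0, a, ha, hae, rfl⟩ := (tri_mem_DD π E e x).1 hx
  obtain ⟨hy0, b, hb, hbe, rfl⟩ := (tri_mem_DD π E e y).1 hy
  obtain ⟨hxy0, c, hc, hcx⟩ := (tri_mem_contr π E _).1 hxy
  have hne : π a ≠ π b := by
    intro h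
    rw [h, tri_self] at hxy0
    exact hxy0 rfl
  -- independence
  have hind : LinearIndependent (ZMod 2) (![e, a, b] : Fin 3 → V) := by
    rw [Fintype.linearIndependent_iff]
    intro g hg
    have h1 : g 0 • e + g 1 • a + g 2 • b = 0 := by
      rw [Fin.sum_univ_three] at hg
      simpa using hg
    have h2 : g 1 • π a + g 2 • π b = 0 := by
      have := congrArg π h1
      simpa [map_add, map_smul, hpe] using this
    have h3 : g 1 = 0 ∧ g 2 = 0 := by
      rcases tri_zmod (g 1) with h | h <;> rcases tri_zmod (g 2) with h' | h' <;>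
        rw [h, h'] at h2 <;> simp only [zero_smul, one_smul, zero_add, add_zero] at h2
      · exact ⟨h, h'⟩
      · exact absurd h2 hy0
      · exact absurd h2 hx0
      · exact absurd (tri_eq_of_add h2) hne
    have h4 : g 0 = 0 := by
      rw [h3.1, h3.2] at h1
      rcases tri_zmod (g 0) with h | h
      · exact h
      · rw [h] at h1
        simp only [zero_smul, one_smul, add_zero] at h1
        exact absurd h1 he0
    intro i
    fin_cases i
    · exact h4
    · exact h3.1
    · exact h3.2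
  set U := span (ZMod 2) (Set.range (![e, a, b] : Fin 3 → V)) with hU
  have hUd : finrank (ZMod 2) U = 3 := by
    rw [hU, finrank_span_eq_card hind]
    simp
  have heU : e ∈ U := subset_span ⟨0, rfl⟩
  have haU : a ∈ U := subset_span ⟨1, rfl⟩
  have hbU : b ∈ U := subset_span ⟨2, rfl⟩
  have hcU : c ∈ U := by
    rcases tri_pi_eq hker (show π c = π (a + b) by rw [hcx, map_add]) with h | h
    · rw [h]; exact add_mem haU hbU
    · rw [h]; exact add_mem (add_mem haU hbU) heU
  -- six points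
  have hsub : ((({e, a, a + e, b, b + e, c} : Finset V)) : Set V) ⊆ (E : Set V) ∩ (U : Set V) := by
    intro z hz
    simp only [Finset.coe_insert, Finset.coe_singleton, Set.mem_insert_iff,
      Set.mem_singleton_iff] at hz
    rcases hz with rfl | rfl | rfl | rfl | rfl | rfl
    · exact ⟨he, heU⟩
    · exact ⟨ha, haU⟩
    · exact ⟨hae, add_mem haU heU⟩
    · exact ⟨hb, hbU⟩
    · exact ⟨hbe, add_mem hbU heU⟩
    · exact ⟨hc, hcU⟩
  have hcard : ({e, a, a + e, b, b + e, c} : Finset V).card = 6 := by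
    have n1 : e ≠ a := fun h => hx0 (by rw [← h, hpe])
    have n2 : e ≠ a + e := fun h => hx0 (by
      have := congrArg π h
      rw [map_add, hpe, add_zero] at this
      exact this.symm)
    have n3 : e ≠ b := fun h => hy0 (by rw [← h, hpe])
    have n4 : e ≠ b + e := fun h => hy0 (by
      have := congrArg π h
      rw [map_add, hpe, add_zero] at this
      exact this.symm)
    have n5 : e ≠ c := fun h => hxy0 (by rw [← hcx, ← h, hpe])
    have n6 : a ≠ a + e := fun h => he0 (by simpa using h)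
    have n7 : a ≠ b := fun h => hne (by rw [h])
    have n8 : a ≠ b + e := fun h => hne (by rw [h, map_add, hpe, add_zero])
    have n9 : a ≠ c := fun h => hy0 (by
      have : π a = π a + π b := by rw [← hcx, ← h]
      simpa using this)
    have n10 : a + e ≠ b := fun h => hne (by rw [← h, map_add, hpe, add_zero])
    have n11 : a + e ≠ b + e := fun h => n7 (add_right_cancel h)
    have n12 : a + e ≠ c := fun h => hy0 (by
      have : π a = π a + π b := by rw [← hcx, ← h, map_add, hpe, add_zero]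
      simpa using this)
    have n13 : b ≠ b + e := fun h => he0 (by simpa using h)
    have n14 : b ≠ c := fun h => hx0 (by
      have : π b = π a + π b := by rw [← hcx, ← h]
      simpa using this)
    have n15 : b + e ≠ c := fun h => hx0 (by
      have : π b = π a + π b := by rw [← hcx, ← h, map_add, hpe, add_zero]
      simpa using this)
    rw [Finset.card_insert_of_notMem, Finset.card_insert_of_notMem, Finset.card_insert_of_notMem,
      Finset.card_insert_of_notMem, Finset.card_insert_of_notMem, Finset.card_singleton]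
    · simpa using n15
    · simp [n14]
      exact fun h => he0 h
    · simp only [Finset.mem_insert, Finset.mem_singleton, not_or]
      exact ⟨n10, n11, n12⟩
    · simp only [Finset.mem_insert, Finset.mem_singleton, not_or]
      exact ⟨n6, n7, n8, n9⟩
    · simp only [Finset.mem_insert, Finset.mem_singleton, not_or]
      exact ⟨n1, n2, n3, n4, n5⟩
  have h1 := hK4 U hUd
  have h2 : (6 : ℕ) ≤ ((E : Set V) ∩ (U : Set V)).ncard := by
    rw [← hcard, ← Set.ncard_coe_finset]
    exact Set.ncard_le_ncard hsub (E.finite_toSet.subset Set.inter_subset_left)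
  omega

theorem claimTContr : ClaimTContr.{u} := by
  intro V _ _ _ _ W _ _ _ E π e hker h0 he hK4 hL
  have h1 := claimTriL V W E π e hker h0 he
  have h2 := card_contr π E e hker h0 he
  have h3 := tcontr_EE E π e hker h0 he hK4
  omega

end Pool.Agent.WW

end

section

/-!
T6: counting in a covering by two subspaces.
-/

namespace Pool.Agent.WW

open Submodule Module

universe u

theorem claimTriSplit : ClaimTriSplit.{u} := by
  intro V _ _ _ W A B hcov
  constructor
  · have h1 : W = res W A ∪ res W B := by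
      ext x
      rw [Finset.mem_union, mem_res, mem_res]
      constructor
      · intro hx
        rcases hcov x hx with h | h
        · exact Or.inl ⟨hx, h⟩
        · exact Or.inr ⟨hx, h⟩
      · rintro (h | h)
        · exact h.1
        · exact h.1
    have h2 : res W (A ⊓ B) = res W A ∩ res W B := by
      ext x
      rw [Finset.mem_inter, mem_res, mem_res, mem_res, Submodule.mem_inf]
      tauto
    have h3 := Finset.card_union_add_card_inter (res W A) (res W B)
    rw [← h1, ← h2] at h3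
    exact h3
  · unfold tri
    have h1 : (W ×ˢ W).filter (fun p => p.1 + p.2 ∈ W) =
        (res W A ×ˢ res W A).filter (fun p => p.1 + p.2 ∈ res W A) ∪
        (res W B ×ˢ res W B).filter (fun p => p.1 + p.2 ∈ res W B) := by
      ext ⟨a, b⟩
      simp only [Finset.mem_union, Finset.mem_filter, Finset.mem_product, mem_res]
      constructor
      · rintro ⟨⟨ha, hb⟩, hab⟩
        by_cases haA : a ∈ A
        · by_cases hbA : b ∈ A
          · exact Or.inl ⟨⟨⟨ha, haA⟩, ⟨hb, hbA⟩⟩, hab, A.add_mem haA hbA⟩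
          · have hbB : b ∈ B := (hcov b hb).resolve_left hbA
            have habA : a + b ∉ A := fun h => hbA ((Submodule.add_mem_iff_right A haA).mp h)
            have habB : a + b ∈ B := (hcov _ hab).resolve_left habA
            have haB : a ∈ B := (Submodule.add_mem_iff_left B hbB).mp habB
            exact Or.inr ⟨⟨⟨ha, haB⟩, ⟨hb, hbB⟩⟩, hab, habB⟩
        · have haB : a ∈ B := (hcov a ha).resolve_left haA
          by_cases hbB : b ∈ B
          · exact Or.inr ⟨⟨⟨ha, haB⟩, ⟨hb, hbB⟩⟩, hab, B.add_mem haB hbB⟩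
          · exfalso
            have hbA : b ∈ A := (hcov b hb).resolve_right hbB
            rcases hcov _ hab with h | h
            · exact haA ((Submodule.add_mem_iff_left A hbA).mp h)
            · exact hbB ((Submodule.add_mem_iff_right B haB).mp h)
      · rintro (⟨⟨ha, hb⟩, hab⟩ | ⟨⟨ha, hb⟩, hab⟩)
        · exact ⟨⟨ha.1, hb.1⟩, hab.1⟩
        · exact ⟨⟨ha.1, hb.1⟩, hab.1⟩
    have h2 : (res W (A ⊓ B) ×ˢ res W (A ⊓ B)).filter (fun p => p.1 + p.2 ∈ res W (A ⊓ B)) =
        (res W A ×ˢ res W A).filter (fun p => p.1 + p.2 ∈ res W A) ∩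
        (res W B ×ˢ res W B).filter (fun p => p.1 + p.2 ∈ res W B) := by
      ext ⟨a, b⟩
      simp only [Finset.mem_inter, Finset.mem_filter, Finset.mem_product, mem_res,
        Submodule.mem_inf]
      tauto
    rw [h1, h2]
    exact Finset.card_union_add_card_inter _ _

end Pool.Agent.WW

end

section

set_option autoImplicit false

namespace Pool.Agent.WW

open Submodule Module

universe u

theorem twp_self {V : Type*} [AddCommGroup V] [Module (ZMod 2) V] (x : V) : x + x = 0 := by
  have h := add_smul (1 : ZMod 2) 1 x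
  rw [show (1 : ZMod 2) + 1 = 0 from rfl, zero_smul, one_smul] at h
  exact h.symm

theorem twp_cancel {V : Type*} [AddCommGroup V] [Module (ZMod 2) V] (x y : V) :
    x + y + y = x := by
  rw [add_assoc, twp_self, add_zero]

theorem twp_aux {V : Type u} [AddCommGroup V] [Module (ZMod 2) V]
    [DecidableEq V] (E : Finset V) (Q Q' : Submodule (ZMod 2) V)
    (g : V) (h0 : (0 : V) ∉ E) (hK : K4F (E : Set V)) (hcov : ∀ x ∈ E, x ∈ Q ∨ x ∈ Q')
    (hQ : finrank (ZMod 2) Q = 3) (hg : g ∈ E) (hgQ : g ∈ Q) (hgQ' : g ∉ Q') :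
    deg E g ≤ 4 := by
  have hsub : E.filter (fun a => a + g ∈ E) ⊆ (res E Q).erase g := by
    intro a ha
    rw [Finset.mem_filter] at ha
    rw [Finset.mem_erase, mem_res]
    refine ⟨?_, ha.1, ?_⟩
    · rintro rfl
      rw [twp_self] at ha
      exact h0 ha.2
    · rcases hcov a ha.1 with h | h
      · exact h
      · rcases hcov (a + g) ha.2 with h' | h'
        · have := Q.add_mem h' hgQ
          rwa [twp_cancel] at this
        · exfalso
          apply hgQ'
          have := Q'.add_mem h' h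
          rwa [add_comm a g, twp_cancel] at this
  have h1 : (res E Q).card ≤ 5 := by
    have h2 := hK Q hQ
    rwa [← coe_res, Set.ncard_coe_finset] at h2
  have h3 := Finset.card_le_card hsub
  rw [Finset.card_erase_of_mem (mem_res.2 ⟨hg, hgQ⟩)] at h3
  unfold deg
  omega

/-- I2: a side which lies in two planes meeting in one point. -/
theorem claimTwoPlanes : ClaimTwoPlanes.{u} := by
  intro V _ _ _ _ E Q Q' b g h0 hK hcov hQ hQ' hinf hg hgb
  have hg0 : g ≠ 0 := fun h => h0 (h ▸ hg)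
  have hni : g ∉ Q ⊓ Q' := by
    rw [hinf, mem_span_singleton]
    rintro ⟨c, hc⟩
    have : ∀ c : ZMod 2, c = 0 ∨ c = 1 := by decide
    have := this c
    rcases this with rfl | rfl
    · rw [zero_smul] at hc
      exact hg0 hc.symm
    · rw [one_smul] at hc
      exact hgb hc.symm
  rw [Submodule.mem_inf] at hni
  rcases hcov g hg with h | h
  · exact twp_aux E Q Q' g h0 hK hcov hQ hg h (fun h' => hni ⟨h, h'⟩)
  · exact twp_aux E Q' Q g h0 hK (fun x hx => (hcov x hx).symm) hQ' hg h (fun h' => hni ⟨h', h⟩)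

end Pool.Agent.WW

end

section

/-!
Item D7: the density bound for the contraction.
-/

namespace Pool.Agent.WW

open Submodule Module

universe u

theorem boundN_inv {W : Type*} [AddCommGroup W] [Module (ZMod 2) W] (S : Set W)
    (G : Submodule (ZMod 2) W) : Inv S G G := by
  refine ⟨le_rfl, fun A B h => ⟨A, B, h, ?_, ?_, rfl⟩⟩
  · exact inf_of_le_left h.1
  · exact inf_of_le_left h.2.1

theorem boundN_symm {W : Type*} [AddCommGroup W] [Module (ZMod 2) W] {S : Set W}
    {G A B : Submodule (ZMod 2) W} (h : Sep S G A B) : Sep S G B A := by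
  obtain ⟨h1, h2, h3, h4, h5, h6⟩ := h
  exact ⟨h2, h1, h4, h3, fun x hx hxG => (h5 x hx hxG).symm, by rwa [inf_comm]⟩

/-- D7: the density bound for the contraction -/
theorem claimBoundN (hInv : ClaimInv.{u}) (hPiece : ClaimPiece.{u}) (hRoot : ClaimRooted.{u}) :
    ClaimBoundN.{u} := by
  classical
  intro W _ _ _ S N hNS h0 hK5 hFull hW hD hyp
  have hfin : Finite W := rooted_finite
  by_cases hsep : ∃ F F' : Submodule (ZMod 2) W, Sep S ⊤ F F'
  · obtain ⟨F, F', hs⟩ := hsep
    obtain ⟨hK2, hKS⟩ := hFull F F' hs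
    obtain ⟨hI1, hI2, hsup⟩ := hInv W S ⊤ ⊤ F F' hFull (boundN_inv S ⊤) hs
    have h1 := hRoot W S N hNS h0 hK5 hFull hD hyp F F F' hs inf_le_left le_rfl hI1
    have h2 := hRoot W S N hNS h0 hK5 hFull hD hyp F' F' F (boundN_symm hs) inf_le_left le_rfl hI2
    rw [inf_comm F' F] at h2
    have h3 := rooted_step S N hNS h0 (F ⊓ F') (F ⊓ F') ⊤ F F' hs.2.2.2.2.1 hsup rfl hK2 hKS h1 h2
    rw [finrank_top] at h3
    refine le_trans (Nat.add_le_add_right (Set.ncard_le_ncard ?_ (Set.toFinite _)) 5) h3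
    intro x hx
    exact Or.inl ⟨hx, trivial⟩
  · push Not at hsep
    have hSf : S.Finite := Set.toFinite S
    have h1 := hPiece W hSf.toFinset ⊤ (finrank (ZMod 2) W) (by simpa using h0)
      (by rw [Set.Finite.coe_toFinset]; exact hK5)
      (by
        intro hbot
        have h2 : finrank (ZMod 2) ↥(⊤ : Submodule (ZMod 2) W) = 0 := by
          rw [hbot, finrank_bot]
        rw [finrank_top] at h2
        omega)
      (by rw [Set.Finite.coe_toFinset]; exact hsep) (finrank_top _ _) (hD _ hW le_rfl)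
    refine le_trans (Nat.add_le_add_right (Set.ncard_le_ncard ?_ (Set.toFinite _)) 5) h1
    intro x hx
    rw [Set.Finite.coe_toFinset]
    exact ⟨hNS hx, trivial⟩

end Pool.Agent.WW

end

section

/-!
Item E8: two stars at different lines give an `M(K5)`-minor.
-/

namespace Pool.Agent.WW

open Submodule Module

universe u

section Aux

variable {V W : Type*} [AddCommGroup V] [Module (ZMod 2) V]
  [AddCommGroup W] [Module (ZMod 2) W]

theorem bc_span (π : V →ₗ[ZMod 2] W) (e p q : V) (hπ : ∀ v, π v = 0 ↔ v = 0 ∨ v = e) :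
    span (ZMod 2) (Set.range (![e, p, q] : Fin 3 → V)) =
      (span (ZMod 2) ({π p, π q} : Set W)).comap π := by
  have he : e ∈ span (ZMod 2) (Set.range (![e, p, q] : Fin 3 → V)) := subset_span ⟨0, rfl⟩
  have hp : p ∈ span (ZMod 2) (Set.range (![e, p, q] : Fin 3 → V)) := subset_span ⟨1, rfl⟩
  have hq : q ∈ span (ZMod 2) (Set.range (![e, p, q] : Fin 3 → V)) := subset_span ⟨2, rfl⟩
  apply le_antisymm
  · rw [span_le]
    rintro _ ⟨i, rfl⟩
    fin_cases i
    · change π e ∈ span (ZMod 2) ({π p, π q} : Set W)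
      rw [(hπ e).2 (Or.inr rfl)]
      exact zero_mem _
    · exact subset_span (by simp)
    · exact subset_span (by simp)
  · intro v hv
    rw [mem_comap, mem_span_pair] at hv
    obtain ⟨a, b, hab⟩ := hv
    have h1 : π (v + (a • p + b • q)) = 0 := by
      rw [map_add, map_add, map_smul, map_smul, hab, ZModModule.add_self]
    have h2 : v = (v + (a • p + b • q)) + (a • p + b • q) := by
      rw [add_assoc, ZModModule.add_self, add_zero]
    rw [h2]
    refine add_mem ?_ (add_mem (smul_mem _ _ hp) (smul_mem _ _ hq))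
    rcases (hπ _).1 h1 with h3 | h3
    · rw [h3]
      exact zero_mem _
    · rw [h3]
      exact he

theorem bc_li (π : V →ₗ[ZMod 2] W) (e p q : V) (hπ : ∀ v, π v = 0 ↔ v = 0 ∨ v = e)
    (he : e ≠ 0) (h2 : finrank (ZMod 2) ↥(span (ZMod 2) ({π p, π q} : Set W)) = 2) :
    LinearIndependent (ZMod 2) (![e, p, q] : Fin 3 → V) := by
  have h1 : LinearIndependent (ZMod 2) (![π p, π q] : Fin 2 → W) := by
    rw [linearIndependent_iff_card_eq_finrank_span, Set.finrank]
    have : Set.range (![π p, π q] : Fin 2 → W) = {π p, π q} := by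
      simp [Matrix.range_cons, Matrix.range_empty, Set.pair_comm]
    rw [this, h2]
    rfl
  rw [LinearIndependent.pair_iff] at h1
  rw [Fintype.linearIndependent_iff]
  intro g hg
  rw [Fin.sum_univ_three] at hg
  have hg' : g 0 • e + g 1 • p + g 2 • q = 0 := hg
  have h3 : g 1 • π p + g 2 • π q = 0 := by
    have h4 : π (g 0 • e + g 1 • p + g 2 • q) = 0 := by rw [hg', map_zero]
    rwa [map_add, map_add, map_smul, map_smul, map_smul, (hπ e).2 (Or.inr rfl), smul_zero,
      zero_add] at h4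
  obtain ⟨h5, h6⟩ := h1 _ _ h3
  rw [h5, h6, zero_smul, zero_smul, add_zero, add_zero] at hg'
  have h7 := (smul_eq_zero.mp hg').resolve_right he
  intro i
  fin_cases i
  · exact h7
  · exact h5
  · exact h6

theorem bc_comb3 {m : ℕ} (b : Fin m → V) (P Q : ℕ) (s : ℕ) (hs : s < 8) :
    comb (![comb b 1, comb b P, comb b Q] : Fin 3 → V) s =
      comb b ((s % 2) ^^^ (P * (s / 2 % 2)) ^^^ (Q * (s / 4))) := by
  rw [comb_xor, comb_xor]
  unfold comb
  rw [Fin.sum_univ_three]
  interval_cases s <;> simp [Nat.testBit]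

theorem bc_spanpair_le {A : Submodule (ZMod 2) W} {p q : W} (hp : p ∈ A) (hq : q ∈ A) :
    span (ZMod 2) ({p, q} : Set W) ≤ A := by
  rw [span_le]
  rintro x (rfl | rfl)
  · exact hp
  · exact hq

end Aux

theorem claimBranchCore (hL : ClaimLines.{u}) (hl : ClaimLift.{u}) (hS : ClaimStar.{u}) :
    ClaimBranchCore.{u} := by
  intro V _ _ _ _ W _ _ _ _ E π e Q L K K1 K' x x' hTab h0E hπs hπ heE hQ hfL hfK hfK1 hLQ
    hKQ hK1Q hLK hLK1 hKK1 hnine hGen hK'Q hxP hx'P hxQ hx'Q hstar hstar'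
  obtain ⟨c, hc, hcQ, hcL, hcK, hcK1⟩ := hL W Q L K K1 hQ hfL hfK hfK1 hLQ hKQ hK1Q hLK hLK1 hKK1
  have c0 : c 0 ∈ L := by rw [hcL]; exact subset_span (by simp)
  have c1 : c 1 ∈ L := by rw [hcL]; exact subset_span (by simp)
  have c2 : c 2 ∈ K := by rw [hcK]; exact subset_span (by simp)
  have c3 : c 3 ∈ K := by rw [hcK]; exact subset_span (by simp)
  have hmem := fun n (hn : n < 16) => lfc_memL hc hLK c0 c1 c2 c3 n hn
  have hcE : ∀ n ∈ nine, comb c n ∈ contr π E := by
    intro n hn
    have hn16 : n < 16 := by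
      unfold nine at hn
      simp only [List.mem_cons, List.not_mem_nil, or_false] at hn
      omega
    refine hnine _ (by rw [← hcQ]; exact lfc_comb_mem c n) ?_ ?_
    · rw [(hmem n hn16).1]
      unfold nine at hn
      simp only [List.mem_cons, List.not_mem_nil, or_false] at hn
      omega
    · rw [(hmem n hn16).2]
      unfold nine at hn
      simp only [List.mem_cons, List.not_mem_nil, or_false] at hn
      omega
  obtain ⟨b, hb0, hbs, hbli, hπb, b10, b12, b14, b18, hb9⟩ :=
    hl V W E π e c h0E hπ heE hc hcE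
  have heb : comb b 1 = e := by
    rw [← hb0, lfc_comb5]
    simp [Nat.testBit]
  have he0 : e ≠ 0 := by
    rintro rfl
    exact h0E heE
  have hπQ : ∀ n < 32, π (comb b n) ∈ Q := by
    intro n hn
    rw [hπb n hn, ← hcQ]
    exact lfc_comb_mem c _
  -- the lifts
  obtain ⟨β10, h10, h10'⟩ : ∃ i < 2, comb b (20 + i) ∈ E := by
    rcases hb9 10 (by simp [nine]) with h | h
    · exact ⟨0, by norm_num, h⟩
    · exact ⟨1, by norm_num, h⟩
  obtain ⟨β11, h11, h11'⟩ : ∃ i < 2, comb b (22 + i) ∈ E := by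
    rcases hb9 11 (by simp [nine]) with h | h
    · exact ⟨0, by norm_num, h⟩
    · exact ⟨1, by norm_num, h⟩
  obtain ⟨β13, h13, h13'⟩ : ∃ i < 2, comb b (26 + i) ∈ E := by
    rcases hb9 13 (by simp [nine]) with h | h
    · exact ⟨0, by norm_num, h⟩
    · exact ⟨1, by norm_num, h⟩
  obtain ⟨β14, h14, h14'⟩ : ∃ i < 2, comb b (28 + i) ∈ E := by
    rcases hb9 14 (by simp [nine]) with h | h
    · exact ⟨0, by norm_num, h⟩
    · exact ⟨1, by norm_num, h⟩
  obtain ⟨β15, h15, h15'⟩ : ∃ i < 2, comb b (30 + i) ∈ E := by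
    rcases hb9 15 (by simp [nine]) with h | h
    · exact ⟨0, by norm_num, h⟩
    · exact ⟨1, by norm_num, h⟩
  obtain ⟨β, hβ, hβ10, hβ11, hβ13, hβ14, hβ15⟩ : ∃ β < 32, β % 2 = β10 ∧ β / 2 % 2 = β11 ∧
      β / 4 % 2 = β13 ∧ β / 8 % 2 = β14 ∧ β / 16 % 2 = β15 :=
    ⟨β10 + 2 * β11 + 4 * β13 + 8 * β14 + 16 * β15, by omega, by omega, by omega, by omega,
      by omega, by omega⟩
  -- stars
  have hst : ∀ (P R : ℕ) (x : V) (K2 : Submodule (ZMod 2) W), P < 32 → R < 32 →
      finrank (ZMod 2) K2 = 2 → K2 = span (ZMod 2) {comb c (P / 2), comb c (R / 2)} →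
      Pres (E : Set V) K' x →
      3 ≤ finrank (ZMod 2) ↥(span (ZMod 2)
        {u : V | u ∈ K2.comap π ∧ Pres (E : Set V) K' (x + u)}) →
      ∃ y : V, x + y ∈ K2.comap π ∧ ∃ t ∈ starReps, ∀ s ∈ t, s < 8 ∧
        Pres (E : Set V) K' (y + comb b ((s % 2) ^^^ (P * (s / 2 % 2)) ^^^ (R * (s / 4)))) := by
    intro P R x K2 hP hR hK2 hK2' hx hstar
    have h1 : span (ZMod 2) {comb c (P / 2), comb c (R / 2)} =
        span (ZMod 2) ({π (comb b P), π (comb b R)} : Set W) := by
      rw [hπb P hP, hπb R hR]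
    have h2 : K2 = span (ZMod 2) ({π (comb b P), π (comb b R)} : Set W) := hK2'.trans h1
    have h3 := bc_span π e (comb b P) (comb b R) hπ
    rw [← h2] at h3
    have h4 := bc_li π e (comb b P) (comb b R) hπ he0 (by rw [← h2]; exact hK2)
    obtain ⟨y, hy, t, ht, hty⟩ := hS V (E : Set V) K' x ![e, comb b P, comb b R] h4 hx
      (by rw [h3]; exact hstar)
    have hst8 : ∀ t ∈ starReps, ∀ s ∈ t, s < 8 := by decide
    refine ⟨y, by rw [← h3]; exact hy, t, ht, fun s hs => ⟨hst8 t ht s hs, ?_⟩⟩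
    rw [← bc_comb3 b P R s (hst8 t ht s hs), heb]
    exact hty s hs
  have hc4 : comb c 4 = c 2 := by rw [lfc_comb4]; simp [Nat.testBit]
  have hc8 : comb c 8 = c 3 := by rw [lfc_comb4]; simp [Nat.testBit]
  have hc9 : comb c 9 = c 3 + c 0 := by rw [lfc_comb4]; simp [Nat.testBit, add_comm]
  have hc5 : comb c 5 = c 2 + c 0 := by rw [lfc_comb4]; simp [Nat.testBit, add_comm]
  have hc10 : comb c 10 = c 3 + c 1 := by rw [lfc_comb4]; simp [Nat.testBit, add_comm]
  obtain ⟨y, hxy, t, ht, hty⟩ := hst 8 16 x K (by norm_num) (by norm_num) hfK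
    (by rw [show 8 / 2 = 4 from rfl, show 16 / 2 = 8 from rfl, hc4, hc8]; exact hcK) hxP hstar
  obtain ⟨g, hg, hg1, hg2, hgK⟩ : ∃ g ∈ [((8 : ℕ), (18 : ℕ)), (10, 20)], g.1 < 32 ∧ g.2 < 32 ∧
      K1 = span (ZMod 2) {comb c (g.1 / 2), comb c (g.2 / 2)} := by
    rcases hcK1 with h | h
    · refine ⟨(8, 18), by simp, by norm_num, by norm_num, ?_⟩
      change K1 = span (ZMod 2) {comb c 4, comb c 9}
      rw [hc4, hc9]
      exact h
    · refine ⟨(10, 20), by simp, by norm_num, by norm_num, ?_⟩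
      change K1 = span (ZMod 2) {comb c 5, comb c 10}
      rw [hc5, hc10]
      exact h
  obtain ⟨y', hxy', t', ht', hty'⟩ := hst g.1 g.2 x' K1 hg1 hg2 hfK1 hgK hx'P hstar'
  obtain ⟨C, s0, s1, s2, s3, hcert⟩ := hTab β hβ t ht t' ht' g hg
  have hb6lt : ∀ n < 32, comb (Fin.snoc b y : Fin 6 → V) n = comb b n := fun n hn =>
    lfc_comb_snoc b y n hn
  have hb7lt' : ∀ n < 64, comb (Fin.snoc (Fin.snoc b y : Fin 6 → V) y' : Fin 7 → V) n =
      comb (Fin.snoc b y : Fin 6 → V) n := fun n hn => lfc_comb_snoc (Fin.snoc b y : Fin 6 → V) y' n hn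
  set b7 : Fin 7 → V := Fin.snoc (Fin.snoc b y : Fin 6 → V) y' with hb7
  have hblt : ∀ n < 32, comb b7 n = comb b n := fun n hn => by
    rw [hb7lt' n (by omega), hb6lt n hn]
  have hb32 : comb b7 32 = y := by
    rw [hb7lt' 32 (by norm_num)]
    exact lfc_comb_snoc_last b y
  have hb64 : comb b7 64 = y' := lfc_comb_snoc_last (Fin.snoc b y : Fin 6 → V) y'
  have hPE : ∀ v ∈ E, Pres (E : Set V) K' v := fun v hv =>
    ⟨v, hv, by rw [ZModModule.add_self]; exact zero_mem _⟩
  have hQm : ∀ n < 32, comb b n ∈ Q.comap π := hπQ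
  have hxyQ : x + y ∈ Q.comap π := hKQ hxy
  have hxyQ' : x' + y' ∈ Q.comap π := hK1Q hxy'
  have hyn : y ∉ Q.comap π ⊔ K' := by
    intro h
    apply hxQ
    have h2 : x = (x + y) + y := by rw [add_assoc, ZModModule.add_self, add_zero]
    rw [h2]
    exact add_mem (mem_sup_left hxyQ) h
  have hyn' : y' ∉ Q.comap π ⊔ K' ⊔ span (ZMod 2) {x} := by
    intro h
    apply hx'Q
    have h2 : x' = (x' + y') + y' := by rw [add_assoc, ZModModule.add_self, add_zero]
    rw [h2]
    exact add_mem (mem_sup_left (mem_sup_left hxyQ')) h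
  have hx32 : ∀ n < 32, comb b7 (32 ^^^ n) = y + comb b n := fun n hn => by
    rw [comb_xor, hb32, hblt n hn]
  have hx64 : ∀ n < 32, comb b7 (64 ^^^ n) = y' + comb b n := fun n hn => by
    rw [comb_xor, hb64, hblt n hn]
  have hx96 : ∀ n < 32, comb b7 (64 ^^^ (32 ^^^ n)) = y' + (y + comb b n) := fun n hn => by
    rw [comb_xor, hb64, hx32 n hn]
  have hn32 : ∀ n < 2 ^ 7, 32 ≤ n → n < 64 → n = 32 ^^^ (n - 32) := by decide
  have hn64 : ∀ n < 2 ^ 7, 64 ≤ n → n < 96 → n = 64 ^^^ (n - 64) := by decide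
  have hn96 : ∀ n < 2 ^ 7, 96 ≤ n → n = 64 ^^^ (32 ^^^ (n - 96)) := by decide
  refine hasK5_of_cert (m := 7) b7 (E : Set V) K' hGen ?_ _ ?_ C s0 s1 s2 s3 hcert
  · intro n hn hnK'
    by_cases h32 : n < 32
    · rw [hblt n h32] at hnK'
      have h1 : comb b n ∈ K' ⊓ Q.comap π := ⟨hnK', hπQ n h32⟩
      rw [hK'Q, mem_bot] at h1
      exact lfc_comb_inj hbli n h32 h1
    exfalso
    by_cases h64 : n < 64
    · rw [hn32 n hn (by omega) h64, hx32 _ (by omega)] at hnK'
      apply hyn
      have h2 : y = comb b (n - 32) + (y + comb b (n - 32)) := by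
        rw [add_comm y, lfc_add_add]
      rw [h2]
      exact add_mem_sup (hQm _ (by omega)) hnK'
    by_cases h96 : n < 96
    · rw [hn64 n hn (by omega) h96, hx64 _ (by omega)] at hnK'
      apply hyn'
      have h2 : y' = comb b (n - 64) + (y' + comb b (n - 64)) := by
        rw [add_comm y', lfc_add_add]
      rw [h2]
      exact mem_sup_left (add_mem_sup (hQm _ (by omega)) hnK')
    · rw [hn96 n hn (by omega), hx96 _ (by omega)] at hnK'
      apply hyn'
      have h2 : y' = (comb b (n - 96) + (x + y)) + (y' + (y + comb b (n - 96))) + x := by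
        have : (comb b (n - 96) + (x + y)) + (y' + (y + comb b (n - 96))) + x =
          y' + (comb b (n - 96) + comb b (n - 96)) + (x + x) + (y + y) := by abel
        rw [this, ZModModule.add_self, ZModModule.add_self, ZModModule.add_self, add_zero,
          add_zero, add_zero]
      rw [h2]
      exact add_mem (mem_sup_left (add_mem_sup (add_mem (hQm _ (by omega)) hxyQ) hnK'))
        (mem_sup_right (mem_span_singleton_self x))
  · intro n hn
    rw [testBit_mask] at hn
    have hfin : ∀ n < 32, comb b n ∈ E → n < 2 ^ 7 ∧ Pres (E : Set V) K' (comb b7 n) := by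
      intro n hn h
      refine ⟨by omega, ?_⟩
      rw [hblt n hn]
      exact hPE _ h
    rw [List.mem_append, List.mem_append] at hn
    rcases hn with (hn | hn) | hn
    · simp only [List.mem_cons, List.not_mem_nil, or_false] at hn
      rcases hn with rfl | rfl | rfl | rfl | rfl | rfl | rfl | rfl | rfl | rfl
      · exact hfin 1 (by norm_num) (by rw [heb]; exact heE)
      · exact hfin 10 (by norm_num) b10
      · exact hfin 12 (by norm_num) b12
      · exact hfin 14 (by norm_num) b14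
      · exact hfin 18 (by norm_num) b18
      · exact hfin _ (by omega) (by rw [hβ10]; exact h10')
      · exact hfin _ (by omega) (by rw [hβ11]; exact h11')
      · exact hfin _ (by omega) (by rw [hβ13]; exact h13')
      · exact hfin _ (by omega) (by rw [hβ14]; exact h14')
      · exact hfin _ (by omega) (by rw [hβ15]; exact h15')
    · rw [List.mem_map] at hn
      obtain ⟨s, hs, rfl⟩ := hn
      obtain ⟨hs8, hsP⟩ := hty s hs
      have hlt : ∀ s < 8, (s % 2) ^^^ (8 * (s / 2)) < 32 := by decide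
      have heq : ∀ s < 8, (s % 2) ^^^ (8 * (s / 2 % 2)) ^^^ (16 * (s / 4)) =
          (s % 2) ^^^ (8 * (s / 2)) := by decide
      rw [Nat.xor_assoc]
      refine ⟨Nat.xor_lt_two_pow (by norm_num) (lt_trans (hlt s hs8) (by norm_num)), ?_⟩
      rw [hx32 _ (hlt s hs8), ← heq s hs8]
      exact hsP
    · rw [List.mem_map] at hn
      obtain ⟨s, hs, rfl⟩ := hn
      obtain ⟨hs8, hsP⟩ := hty' s hs
      have hlt : ∀ g ∈ [((8 : ℕ), (18 : ℕ)), (10, 20)], ∀ s < 8,
          (s % 2) ^^^ (g.1 * (s / 2 % 2)) ^^^ (g.2 * (s / 4)) < 32 := by decide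
      have heq : 64 ^^^ (s % 2) ^^^ (g.1 * (s / 2 % 2)) ^^^ (g.2 * (s / 4)) =
          64 ^^^ ((s % 2) ^^^ (g.1 * (s / 2 % 2)) ^^^ (g.2 * (s / 4))) := by
        rw [Nat.xor_assoc, Nat.xor_assoc, Nat.xor_assoc]
      rw [heq]
      refine ⟨Nat.xor_lt_two_pow (by norm_num) (lt_trans (hlt g hg s hs8) (by norm_num)), ?_⟩
      rw [hx64 _ (hlt g hg s hs8)]
      exact hsP

end Pool.Agent.WW

end

section

/-!
G7: a Fano piece has at least two lines that are not lifted.
-/

namespace Pool.Agent.WW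

open Submodule Module

/-- the code of a list of bits -/
def fpM : List Bool → ℕ
  | [] => 0
  | b :: L => Nat.bit b (fpM L)

theorem fpM_testBit (L : List Bool) (n : ℕ) : (fpM L).testBit n = L.getD n false := by
  induction L generalizing n with
  | nil => simp [fpM]
  | cons b L ih =>
    cases n with
    | zero => rw [fpM, Nat.testBit_bit_zero]; rfl
    | succ n => rw [fpM, Nat.testBit_bit_succ, ih]; rfl

/-- the pair is lifted -/
def fpLif (M m m' : ℕ) : Bool :=
  [0, 1].any fun i => [0, 1].any fun j =>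
    M.testBit (2 * m + i) && M.testBit (2 * m' + j) && M.testBit ((2 * m + i) ^^^ (2 * m' + j))

/-- lifted pairs of codes -/
def fpS (M : ℕ) : Finset (ℕ × ℕ) :=
  (Finset.range 8 ×ˢ Finset.range 8).filter
    (fun p => p.1 ≠ 0 ∧ p.2 ≠ 0 ∧ p.1 ≠ p.2 ∧ fpLif M p.1 p.2 = true)

/-- masks of Fano planes with a basis -/
def fpF : List (ℕ × ℕ × ℕ × ℕ) :=
  [(21844, 2, 4, 8), (43604, 2, 4, 9), (42404, 2, 5, 8), (39320, 3, 4, 8), (23204, 2, 5, 9),
   (26264, 3, 4, 9), (26984, 3, 5, 8)]

/-- masks of odd triangles with hub and basis -/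
def fpD : List (ℕ × ℕ × ℕ × ℕ × ℕ) :=
  [(38270, 6, 2, 5, 12), (26102, 2, 4, 7, 8), (43510, 2, 4, 7, 13), (40790, 2, 4, 9, 10),
   (44950, 2, 8, 11, 13), (23006, 4, 2, 7, 8), (46934, 4, 2, 9, 12), (60758, 4, 2, 11, 14),
   (56150, 6, 2, 8, 15), (59222, 6, 2, 9, 14), (23966, 8, 2, 4, 11), (54710, 10, 2, 4, 15),
   (43958, 13, 2, 4, 8), (28502, 2, 4, 8, 11), (63830, 2, 4, 13, 14), (62870, 2, 8, 13, 14),
   (31574, 4, 2, 8, 13), (48470, 6, 2, 11, 12), (30134, 8, 2, 4, 13), (38390, 2, 4, 7, 10),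
   (23030, 2, 4, 7, 14), (24470, 2, 8, 11, 14), (43486, 4, 2, 7, 11), (38366, 4, 2, 7, 12),
   (26078, 4, 2, 7, 14), (22910, 6, 2, 5, 8), (43390, 6, 2, 5, 11), (25982, 6, 2, 5, 14),
   (22430, 10, 2, 4, 9), (42910, 10, 2, 7, 9), (39862, 12, 4, 7, 9), (48022, 4, 8, 11, 13),
   (43454, 7, 2, 4, 8), (22974, 7, 2, 4, 11), (26046, 7, 2, 4, 13), (38334, 7, 2, 4, 15),
   (44446, 8, 2, 7, 11), (47542, 8, 4, 7, 13), (43934, 11, 2, 4, 8), (23454, 11, 2, 7, 8),
   (27486, 11, 2, 8, 13), (39774, 11, 2, 8, 15), (42870, 13, 2, 5, 9), (26550, 13, 4, 7, 8),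
   (27510, 13, 4, 8, 11), (11198, 1, 2, 4, 8), (56726, 4, 8, 11, 14), (30614, 4, 8, 13, 14),
   (48534, 7, 8, 11, 13), (56214, 7, 8, 11, 14), (59286, 7, 8, 13, 14), (46454, 8, 2, 5, 12),
   (58838, 8, 2, 7, 14), (40286, 8, 2, 11, 12), (27998, 8, 2, 11, 14), (55766, 8, 4, 7, 14),
   (31094, 8, 4, 13, 14), (58742, 10, 2, 5, 14), (46550, 10, 2, 7, 12), (38750, 10, 2, 9, 12),
   (26462, 10, 2, 9, 14), (47574, 11, 4, 7, 13), (55734, 11, 4, 7, 14), (59766, 11, 4, 13, 14),
   (22454, 12, 2, 4, 9), (54686, 12, 2, 4, 15), (23414, 12, 2, 5, 8), (55646, 12, 2, 8, 15),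
   (40406, 12, 4, 7, 10), (38774, 12, 4, 9, 10), (44502, 13, 2, 7, 11), (58782, 13, 2, 7, 14),
   (59742, 13, 2, 11, 14), (23990, 14, 2, 4, 11), (30110, 14, 2, 4, 13), (23510, 14, 2, 7, 8),
   (31070, 14, 2, 8, 13), (26582, 14, 4, 7, 8), (28022, 14, 4, 8, 11), (44406, 15, 2, 5, 11),
   (42966, 15, 2, 7, 9), (46494, 15, 2, 7, 12), (47454, 15, 2, 11, 12), (39894, 15, 4, 7, 9),
   (40374, 15, 4, 7, 10)]

/-- all the codes of the list are in the mask -/
def fpAll (M : ℕ) (l : List ℕ) : Bool := l.all fun c => M.testBit c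

/-- the seven codes of a Fano plane -/
def fpFl (p : ℕ × ℕ × ℕ) : List ℕ :=
  [p.1, p.2.1, p.2.2, p.1 ^^^ p.2.1, p.1 ^^^ p.2.2, p.2.1 ^^^ p.2.2, p.1 ^^^ (p.2.1 ^^^ p.2.2)]

/-- the ten codes of an odd triangle -/
def fpDl (q : ℕ × ℕ × ℕ × ℕ) : List ℕ :=
  [q.1, q.2.1, q.2.2.1, q.2.2.2, q.2.1 ^^^ q.1, q.2.2.1 ^^^ q.1, q.2.2.2 ^^^ q.1,
    q.2.1 ^^^ q.2.2.1 ^^^ q.1, q.2.2.1 ^^^ q.2.2.2 ^^^ q.1, q.2.1 ^^^ q.2.2.2 ^^^ q.1]

theorem fpF_ok : ∀ p ∈ fpF, p.1 = mask (fpFl p.2) ∧ (∀ k ∈ fpFl p.2, k < 16) ∧ p.2.1 < 16 ∧ p.2.2.1 < 16 ∧ p.2.2.2 < 16 ∧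
    p.2.1 ≠ 0 ∧ p.2.2.1 ≠ 0 ∧ p.2.2.2 ≠ 0 ∧ p.2.1 ≠ p.2.2.1 ∧ p.2.1 ≠ p.2.2.2 ∧
    p.2.2.1 ≠ p.2.2.2 ∧ p.2.1 ^^^ p.2.2.1 ≠ p.2.2.2 := by
  decide +kernel

theorem fpD_ok : ∀ p ∈ fpD, p.1 = mask (fpDl p.2) ∧ (∀ k ∈ fpDl p.2, k < 16) ∧
    ∀ i ∈ [1, 2, 4, 8], i ∈ spanList [p.2.1, p.2.2.1, p.2.2.2.1, p.2.2.2.2] := by
  decide +kernel

/-- the finite check -/
def fpOk (M : ℕ) : Bool :=
  (fpF.any fun p => (M &&& p.1) == p.1) || (fpD.any fun p => (M &&& p.1) == p.1) ||
    decide ((fpS M).card ≤ 30)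

theorem fp_check : ∀ p3 p5 p6 p7 p9 p10 p11 p12 p13 p14 p15 : Bool,
    (p6 || p7) = true → (p10 || p11) = true → (p12 || p13) = true → (p14 || p15) = true →
    fpOk (fpM [false, true, true, p3, true, p5, p6, p7, true, p9, p10, p11, p12, p13, p14, p15])
      = true := by
  decide +kernel

theorem fp_and (M k n : ℕ) (h : (M &&& k) = k) (hk : k.testBit n = true) :
    M.testBit n = true := by
  have := congrArg (fun x => Nat.testBit x n) h
  simp only [Nat.testBit_and, hk, Bool.and_true] at this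
  exact this

section

variable {V : Type*} [AddCommGroup V] [Module (ZMod 2) V]

theorem fp_inj {b : Fin 4 → V} (hb : LinearIndependent (ZMod 2) b) {k : ℕ} (hk : k < 16)
    (h : comb b k = 0) : k = 0 := by
  rw [Fintype.linearIndependent_iff] at hb
  have h1 : ∑ i : Fin 4, (if k.testBit i then (1 : ZMod 2) else 0) • b i = 0 := by
    rw [← h, comb]
    refine Finset.sum_congr rfl fun i _ => ?_
    split_ifs <;> simp
  have h2 := hb _ h1
  refine Nat.eq_of_testBit_eq fun i => ?_
  rw [Nat.zero_testBit]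
  by_cases hi : i < 4
  · have h3 := h2 ⟨i, hi⟩
    by_contra hc
    have hc' : k.testBit i = true := by simpa using hc
    simp [hc'] at h3
  · have h4 : k < 2 ^ i := lt_of_lt_of_le hk (by
      have : 2 ^ 4 ≤ 2 ^ i := Nat.pow_le_pow_right (by norm_num) (not_lt.1 hi)
      simpa using this)
    exact Nat.testBit_lt_two_pow h4

theorem fp_fano {b : Fin 4 → V} (hb : LinearIndependent (ZMod 2) b) {x y z : ℕ} (hx : x < 16)
    (hy : y < 16) (hz : z < 16) (hx0 : x ≠ 0) (hy0 : y ≠ 0) (hz0 : z ≠ 0) (hxy : x ≠ y)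
    (hxz : x ≠ z) (hyz : y ≠ z) (hs : x ^^^ y ≠ z) :
    finrank (ZMod 2) ↥(span (ZMod 2) {comb b x, comb b y, comb b z}) = 3 := by
  have key : ∀ k : ℕ, k < 16 → k ≠ 0 → comb b k ≠ 0 := fun k h1 h2 h3 => h2 (fp_inj hb h1 h3)
  have hlt : ∀ {p q : ℕ}, p < 16 → q < 16 → p ^^^ q < 16 := fun h1 h2 =>
    Nat.xor_lt_two_pow (n := 4) h1 h2
  have hne : ∀ {p q : ℕ}, p < 16 → q < 16 → p ≠ q → comb b p ≠ comb b q := by
    intro p q h1 h2 h3 h4
    apply key (p ^^^ q) (hlt h1 h2) (fun h5 => h3 (Nat.xor_eq_zero_iff.1 h5))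
    rw [comb_xor, h4]
    exact tri_self _
  apply tri_finrank3
  intro c hc
  rw [Fin.sum_univ_three] at hc
  have h0 : c 0 • comb b x + c 1 • comb b y + c 2 • comb b z = 0 := by simpa using hc
  obtain ⟨h1, h2, h3⟩ := tri_indep3 (key x hx hx0) (key y hy hy0) (key z hz hz0) (hne hx hy hxy)
    (hne hx hz hxz) (hne hy hz hyz) (by rw [← comb_xor]; exact hne (hlt hx hy) hz hs) h0
  funext i
  fin_cases i
  · exact h1
  · exact h2
  · exact h3

theorem fp_rank4 {b : Fin 4 → V} (hb : LinearIndependent (ZMod 2) b) {x y z t : ℕ}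
    (h : ∀ i ∈ [1, 2, 4, 8], i ∈ spanList [x, y, z, t]) :
    finrank (ZMod 2) ↥(span (ZMod 2) {comb b x, comb b y, comb b z, comb b t}) = 4 := by
  have himg : comb b '' {c | c ∈ [x, y, z, t]} = {comb b x, comb b y, comb b z, comb b t} := by
    ext v
    simp only [List.mem_cons, List.not_mem_nil, or_false, Set.mem_image, Set.mem_ofPred_eq,
      Set.mem_insert_iff, Set.mem_singleton_iff]
    constructor
    · rintro ⟨c, rfl | rfl | rfl | rfl, rfl⟩ <;> simp
    · rintro (rfl | rfl | rfl | rfl)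
      · exact ⟨x, by simp, rfl⟩
      · exact ⟨y, by simp, rfl⟩
      · exact ⟨z, by simp, rfl⟩
      · exact ⟨t, by simp, rfl⟩
  have hmem : ∀ i : Fin 4, b i ∈ span (ZMod 2) {comb b x, comb b y, comb b z, comb b t} := by
    intro i
    rw [← himg]
    have hbi : comb b (2 ^ (i : ℕ)) = b i := by
      rw [comb]
      rw [Finset.sum_eq_single i]
      · simp [Nat.testBit_two_pow_self]
      · intro j _ hj
        rw [if_neg]
        rw [Nat.testBit_two_pow]
        simpa using fun h => hj (Fin.ext h.symm)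
      · intro h; exact absurd (Finset.mem_univ _) h
    rw [← hbi]
    apply comb_spanList
    apply h
    fin_cases i <;> simp
  have h1 : 4 ≤ finrank (ZMod 2) ↥(span (ZMod 2) {comb b x, comb b y, comb b z, comb b t}) := by
    have h2 := finrank_span_eq_card hb
    rw [Fintype.card_fin] at h2
    refine h2.symm.le.trans ?_
    haveI : FiniteDimensional (ZMod 2)
        ↥(span (ZMod 2) {comb b x, comb b y, comb b z, comb b t}) :=
      FiniteDimensional.span_of_finite _ (Set.toFinite _)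
    apply Submodule.finrank_mono
    rw [span_le]
    rintro _ ⟨i, rfl⟩
    exact hmem i
  refine le_antisymm ?_ h1
  have h3 := finrank_range_le_card (R := ZMod 2)
    (![comb b x, comb b y, comb b z, comb b t] : Fin 4 → V)
  rw [Set.finrank, tri_range4] at h3
  simpa using h3

end

universe u

theorem claimFanoPiece : ClaimFanoPiece.{u} := by
  classical
  intro V _ _ _ _ W _ _ _ _ E π e X G hker h0 he hDel hFano hG hX hXE
  have he0 : e ≠ 0 := fun h => h0 (h ▸ he)
  have hπe : π e = 0 := (hker e).2 (Or.inr rfl)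
  -- a basis of G
  obtain ⟨g⟩ : Nonempty (Basis (Fin 3) (ZMod 2) G) := ⟨finBasisOfFinrankEq _ _ hG⟩
  have hg0 : ∀ i, (g i : W) ≠ 0 := fun i h => g.ne_zero i (Subtype.ext h)
  have hgX : ∀ i, (g i : W) ∈ X := fun i => (hX _).2 ⟨(g i).2, hg0 i⟩
  have hlift : ∀ i, ∃ a ∈ E, π a = g i := by
    intro i
    have := hXE (hgX i)
    rw [tri_mem_contr] at this
    exact this.2
  choose a haE ha using hlift
  have hgne : ∀ i j, i ≠ j → (g i : W) ≠ g j := fun i j hij h =>
    hij (g.injective (Subtype.ext h))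
  have hgs : (g 0 : W) + g 1 ≠ g 2 := by
    intro h
    have h1 := Fintype.linearIndependent_iff.1 g.linearIndependent (fun _ => 1) (by
      rw [Fin.sum_univ_three]
      apply Subtype.ext
      simp only [one_smul, Submodule.coe_add, Submodule.coe_zero]
      rw [h]
      exact tri_self _) 0
    exact one_ne_zero h1
  set b : Fin 4 → V := ![e, a 0, a 1, a 2] with hbdef
  have hb : LinearIndependent (ZMod 2) b := by
    rw [Fintype.linearIndependent_iff]
    intro c hc i
    have := tri_indep4 he0 hker (p := a 0) (q := a 1) (r := a 2) (by rw [ha]; exact hg0 0)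
      (by rw [ha]; exact hg0 1) (by rw [ha]; exact hg0 2) (by rw [ha, ha]; exact hgne _ _ (by decide))
      (by rw [ha, ha]; exact hgne _ _ (by decide)) (by rw [ha, ha]; exact hgne _ _ (by decide))
      (by rw [ha, ha, ha]; exact hgs) c hc
    rw [this]
    rfl
  have hc1 : comb b 1 = e := by simp [comb, Fin.sum_univ_four, hbdef, Nat.testBit]
  have hc2 : comb b 2 = a 0 := by simp [comb, Fin.sum_univ_four, hbdef, Nat.testBit]
  have hc4 : comb b 4 = a 1 := by simp [comb, Fin.sum_univ_four, hbdef, Nat.testBit]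
  have hc8 : comb b 8 = a 2 := by simp [comb, Fin.sum_univ_four, hbdef, Nat.testBit]
  have hodd : ∀ m < 8, comb b (2 * m + 1) = comb b (2 * m) + e := by
    intro m hm
    have : 2 * m + 1 = (2 * m) ^^^ 1 := by interval_cases m <;> rfl
    rw [this, comb_xor, hc1]
  have hpi : ∀ k, π (comb b k) = (if k.testBit 1 then (g 0 : W) else 0) +
      (if k.testBit 2 then (g 1 : W) else 0) + (if k.testBit 3 then (g 2 : W) else 0) := by
    intro k
    have h1 : comb b k = (if k.testBit 0 then e else 0) + (if k.testBit 1 then a 0 else 0) +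
        (if k.testBit 2 then a 1 else 0) + (if k.testBit 3 then a 2 else 0) := by
      rw [comb, Fin.sum_univ_four]
      rfl
    rw [h1, map_add, map_add, map_add, ← ha, ← ha, ← ha]
    split_ifs <;> simp [hπe]
  have hpiG : ∀ k, π (comb b k) ∈ G := by
    intro k
    rw [hpi]
    refine add_mem (add_mem ?_ ?_) ?_ <;> split_ifs <;>
      first | exact (g _).2 | exact zero_mem _
  have hpi0 : ∀ m < 8, m ≠ 0 → π (comb b (2 * m)) ≠ 0 := by
    intro m hm hm0 h
    rcases (hker _).1 h with h1 | h1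
    · have := fp_inj hb (by omega) h1
      omega
    · have h2 : comb b ((2 * m) ^^^ 1) = 0 := by
        rw [comb_xor, hc1, h1]
        exact tri_self _
      have h3 := fp_inj hb (Nat.xor_lt_two_pow (n := 4) (by omega) (by norm_num)) h2
      have h4 := Nat.xor_eq_zero_iff.1 h3
      omega
  have hfib : ∀ m < 8, m ≠ 0 → comb b (2 * m) ∈ E ∨ comb b (2 * m + 1) ∈ E := by
    intro m hm hm0
    have h1 := hXE ((hX _).2 ⟨hpiG (2 * m), hpi0 m hm hm0⟩)
    rw [tri_mem_contr] at h1
    obtain ⟨-, a', ha', h2⟩ := h1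
    rcases tri_pi_eq hker h2 with h3 | h3
    · exact Or.inl (h3 ▸ ha')
    · right
      rw [hodd m hm, ← h3]
      exact ha'
  have hcode : ∀ x ∈ X, ∃ m, m < 8 ∧ m ≠ 0 ∧ π (comb b (2 * m)) = x := by
    intro x hx
    obtain ⟨hxG, hx0⟩ := (hX x).1 hx
    have h1 := g.sum_repr ⟨x, hxG⟩
    rw [Fin.sum_univ_three] at h1
    have h2 : x = (g.repr ⟨x, hxG⟩ 0) • (g 0 : W) + (g.repr ⟨x, hxG⟩ 1) • (g 1 : W) +
        (g.repr ⟨x, hxG⟩ 2) • (g 2 : W) := by
      have := congrArg Subtype.val h1
      simpa using this.symm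
    have h3 : ∃ m, m < 8 ∧ π (comb b (2 * m)) = x := by
      rcases tri_zmod (g.repr ⟨x, hxG⟩ 0) with h4 | h4 <;>
        rcases tri_zmod (g.repr ⟨x, hxG⟩ 1) with h5 | h5 <;>
        rcases tri_zmod (g.repr ⟨x, hxG⟩ 2) with h6 | h6 <;>
        rw [h4, h5, h6] at h2 <;> simp only [zero_smul, one_smul] at h2
      · exact ⟨0, by norm_num, by rw [hpi, h2]; simp⟩
      · exact ⟨4, by norm_num, by rw [hpi, h2]; simp [Nat.testBit]⟩
      · exact ⟨2, by norm_num, by rw [hpi, h2]; simp [Nat.testBit]⟩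
      · exact ⟨6, by norm_num, by rw [hpi, h2]; simp [Nat.testBit]⟩
      · exact ⟨1, by norm_num, by rw [hpi, h2]; simp [Nat.testBit]⟩
      · exact ⟨5, by norm_num, by rw [hpi, h2]; simp [Nat.testBit]⟩
      · exact ⟨3, by norm_num, by rw [hpi, h2]; simp [Nat.testBit]⟩
      · exact ⟨7, by norm_num, by rw [hpi, h2]; simp [Nat.testBit]⟩
    obtain ⟨m, hm, hmx⟩ := h3
    refine ⟨m, hm, ?_, hmx⟩
    rintro rfl
    apply hx0
    rw [← hmx, mul_zero, comb_zero, map_zero]
  -- the mask
  set P : ℕ → Bool := fun n => decide (comb b n ∈ E) with hP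
  have hP0 : P 0 = false := by simp [hP, comb_zero, h0]
  have hP1 : P 1 = true := by simp [hP, hc1, he]
  have hP2 : P 2 = true := by simp [hP, hc2, haE]
  have hP4 : P 4 = true := by simp [hP, hc4, haE]
  have hP8 : P 8 = true := by simp [hP, hc8, haE]
  have hor : ∀ m < 8, m ≠ 0 → (P (2 * m) || P (2 * m + 1)) = true := by
    intro m hm hm0
    simpa [hP] using hfib m hm hm0
  have hok := fp_check (P 3) (P 5) (P 6) (P 7) (P 9) (P 10) (P 11) (P 12) (P 13) (P 14) (P 15)
    (hor 3 (by norm_num) (by norm_num)) (hor 5 (by norm_num) (by norm_num))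
    (hor 6 (by norm_num) (by norm_num)) (hor 7 (by norm_num) (by norm_num))
  set M : ℕ := fpM [false, true, true, P 3, true, P 5, P 6, P 7, true, P 9, P 10, P 11, P 12,
    P 13, P 14, P 15] with hMdef
  have hM : ∀ n < 16, M.testBit n = P n := by
    intro n hn
    rw [hMdef, fpM_testBit]
    interval_cases n
    exacts [hP0.symm, hP1.symm, hP2.symm, rfl, hP4.symm, rfl, rfl, rfl, hP8.symm, rfl, rfl, rfl,
      rfl, rfl, rfl, rfl]
  have hME : ∀ n < 16, M.testBit n = true ↔ comb b n ∈ E := by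
    intro n hn
    rw [hM n hn, hP]
    simp
  rw [fpOk, Bool.or_eq_true, Bool.or_eq_true, List.any_eq_true, List.any_eq_true,
    decide_eq_true_iff] at hok
  rcases hok with (⟨p, hp, hpM⟩ | ⟨p, hp, hpM⟩) | hcard
  · -- a Fano plane
    exfalso
    obtain ⟨f1, f2, f3, f4, f5, f6, f7, f8, f9, f10, f11, f12⟩ := fpF_ok p hp
    have hpM' : M &&& p.1 = p.1 := by simpa using hpM
    have hall : ∀ k ∈ fpFl p.2, comb b k ∈ E := by
      intro k hk
      rw [← hME k (f2 k hk)]
      refine fp_and M p.1 k hpM' ?_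
      rw [f1, testBit_mask]
      exact hk
    obtain ⟨w, hwU, hw0, hwE⟩ := hFano _ (fp_fano hb f3 f4 f5 f6 f7 f8 f9 f10 f11 f12)
    have himg : comb b '' {c | c ∈ [p.2.1, p.2.2.1, p.2.2.2]} =
        {comb b p.2.1, comb b p.2.2.1, comb b p.2.2.2} := by
      ext v
      simp only [List.mem_cons, List.not_mem_nil, or_false, Set.mem_image, Set.mem_ofPred_eq,
        Set.mem_insert_iff, Set.mem_singleton_iff]
      constructor
      · rintro ⟨c, rfl | rfl | rfl, rfl⟩ <;> simp
      · rintro (rfl | rfl | rfl)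
        · exact ⟨_, Or.inl rfl, rfl⟩
        · exact ⟨_, Or.inr (Or.inl rfl), rfl⟩
        · exact ⟨_, Or.inr (Or.inr rfl), rfl⟩
    rw [← himg] at hwU
    obtain ⟨k, hk, rfl⟩ := exists_spanList b _ w hwU
    simp only [spanList, List.map_cons, List.map_nil, List.mem_append, List.mem_cons,
      List.not_mem_nil, or_false, Nat.xor_zero, List.cons_append, List.nil_append] at hk
    apply hwE
    rcases hk with rfl | hk
    · exact absurd (comb_zero b) hw0
    · apply hall
      simp only [fpFl, List.mem_cons, List.not_mem_nil, or_false]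
      tauto
  · -- an odd triangle
    exfalso
    obtain ⟨f1, f2, f3⟩ := fpD_ok p hp
    have hpM' : M &&& p.1 = p.1 := by simpa using hpM
    have hall : ∀ k ∈ fpDl p.2, comb b k ∈ E := by
      intro k hk
      rw [← hME k (f2 k hk)]
      refine fp_and M p.1 k hpM' ?_
      rw [f1, testBit_mask]
      exact hk
    refine hDel (comb b p.2.1) (comb b p.2.2.1) (comb b p.2.2.2.1) (comb b p.2.2.2.2) ?_
      (fp_rank4 hb f3)
    unfold Del4
    simp only [← comb_xor]
    refine ⟨?_, ?_, ?_, ?_, ?_, ?_, ?_, ?_, ?_, ?_⟩ <;> apply hall <;> simp [fpDl]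
  · -- counting
    refine le_trans ?_ hcard
    choose! c hc8' hcne hcx using hcode
    rw [triL]
    apply Finset.card_le_card_of_injOn (fun p => (c p.1, c p.2))
    · intro p hp
      simp only [Finset.coe_filter, Finset.mem_product, Set.mem_ofPred_eq] at hp
      obtain ⟨⟨hx, hy⟩, hxy, a1, ha1, b1, hb1, hab, h1, h2⟩ := hp
      simp only [fpS, Finset.coe_filter, Finset.mem_product, Finset.mem_range, Set.mem_ofPred_eq]
      refine ⟨⟨hc8' _ hx, hc8' _ hy⟩, hcne _ hx, hcne _ hy, ?_, ?_⟩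
      · intro h3
        have h4 : p.1 = p.2 := by rw [← hcx _ hx, ← hcx _ hy, h3]
        rw [h4, tri_self] at hxy
        exact ((hX _).1 hxy).2 rfl
      · have h3 : ∃ i ∈ [0, 1], a1 = comb b (2 * c p.1 + i) := by
          rcases tri_pi_eq hker (h1.trans (hcx _ hx).symm) with h3 | h3
          · exact ⟨0, by simp, by rw [add_zero]; exact h3⟩
          · exact ⟨1, by simp, by rw [hodd _ (hc8' _ hx)]; exact h3⟩
        have h4 : ∃ i ∈ [0, 1], b1 = comb b (2 * c p.2 + i) := by
          rcases tri_pi_eq hker (h2.trans (hcx _ hy).symm) with h3 | h3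
          · exact ⟨0, by simp, by rw [add_zero]; exact h3⟩
          · exact ⟨1, by simp, by rw [hodd _ (hc8' _ hy)]; exact h3⟩
        obtain ⟨i, hi, rfl⟩ := h3
        obtain ⟨j, hj, rfl⟩ := h4
        rw [← comb_xor] at hab
        have hi1 : i ≤ 1 := by
          simp only [List.mem_cons, List.not_mem_nil, or_false] at hi
          omega
        have hj1 : j ≤ 1 := by
          simp only [List.mem_cons, List.not_mem_nil, or_false] at hj
          omega
        have l1 : 2 * c p.1 + i < 16 := by have := hc8' _ hx; omega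
        have l2 : 2 * c p.2 + j < 16 := by have := hc8' _ hy; omega
        have l3 : (2 * c p.1 + i) ^^^ (2 * c p.2 + j) < 16 := Nat.xor_lt_two_pow (n := 4) l1 l2
        rw [fpLif, List.any_eq_true]
        refine ⟨i, hi, ?_⟩
        rw [List.any_eq_true]
        refine ⟨j, hj, ?_⟩
        rw [(hME _ l1).2 ha1, (hME _ l2).2 hb1, (hME _ l3).2 hab]
        rfl
    · intro p hp q hq hpq
      simp only [Finset.coe_filter, Finset.mem_product, Set.mem_ofPred_eq] at hp hq
      simp only [Prod.mk.injEq] at hpq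
      apply Prod.ext
      · rw [← hcx _ hp.1.1, ← hcx _ hq.1.1, hpq.1]
      · rw [← hcx _ hp.1.2, ← hcx _ hq.1.2, hpq.2]

end Pool.Agent.WW

end

section

/-!
A star over a coded subspace of a good set: tools for F1 and F2.
-/

namespace Pool.Agent.WW

open Submodule Module

variable {V : Type*} [AddCommGroup V] [Module (ZMod 2) V]

omit [Module (ZMod 2) V] in
theorem comb_two_pow {m : ℕ} (b : Fin m → V) (i : Fin m) : comb b (2 ^ (i : ℕ)) = b i := by
  unfold comb
  rw [Finset.sum_eq_single i]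
  · rw [if_pos]
    rw [Nat.testBit_two_pow_self]
  · intro j _ hj
    rw [if_neg]
    rw [Nat.testBit_two_pow]
    simp only [decide_eq_true_eq]
    intro h
    exact hj (Fin.ext h.symm)
  · intro h
    exact absurd (Finset.mem_univ _) h

theorem exists_code {m : ℕ} (b : Fin m → V) (v : V) (hv : v ∈ span (ZMod 2) (Set.range b)) :
    ∃ n < 2 ^ m, comb b n = v := by
  induction hv using span_induction with
  | mem x hx =>
    obtain ⟨i, rfl⟩ := hx
    exact ⟨2 ^ (i : ℕ), Nat.pow_lt_pow_right (by norm_num) i.2, comb_two_pow b i⟩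
  | zero => exact ⟨0, by positivity, comb_zero b⟩
  | add x y _ _ hx hy =>
    obtain ⟨n, hn, rfl⟩ := hx
    obtain ⟨k, hk, rfl⟩ := hy
    exact ⟨n ^^^ k, Nat.xor_lt_two_pow hn hk, comb_xor b n k⟩
  | smul c x _ hx =>
    rcases tri_zmod c with rfl | rfl
    · exact ⟨0, by positivity, by rw [comb_zero, zero_smul]⟩
    · rw [one_smul]
      exact hx

omit [Module (ZMod 2) V] in
theorem comb_snoc {m : ℕ} (b : Fin m → V) (x : V) (n : ℕ) :
    comb (Fin.snoc b x : Fin (m + 1) → V) n = comb b n + (if n.testBit m then x else 0) := by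
  unfold comb
  rw [Fin.sum_univ_castSucc]
  simp

/-- a star over the span of `b` in a good set, with codes -/
theorem star_codes [FiniteDimensional (ZMod 2) V] {E : Set V} (hG : Good E) {m : ℕ}
    (b : Fin m → V) (hb : LinearIndependent (ZMod 2) b) (h3 : 3 ≤ m)
    (hV : m < finrank (ZMod 2) V) :
    ∃ (K : Submodule (ZMod 2) V) (x : V) (a1 a2 a3 : ℕ), Gen E K ∧
      (∀ n < 2 ^ (m + 1), comb (Fin.snoc b x : Fin (m + 1) → V) n ∈ K → n = 0) ∧
      a1 < 2 ^ m ∧ a2 < 2 ^ m ∧ a3 < 2 ^ m ∧ a1 ≠ 0 ∧ a2 ≠ 0 ∧ a3 ≠ 0 ∧ a1 ≠ a2 ∧ a1 ≠ a3 ∧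
      a2 ≠ a3 ∧ a1 ^^^ a2 ≠ a3 ∧
      Pres E K (comb (Fin.snoc b x : Fin (m + 1) → V) (2 ^ m)) ∧
      Pres E K (comb (Fin.snoc b x : Fin (m + 1) → V) (2 ^ m ^^^ a1)) ∧
      Pres E K (comb (Fin.snoc b x : Fin (m + 1) → V) (2 ^ m ^^^ a2)) ∧
      Pres E K (comb (Fin.snoc b x : Fin (m + 1) → V) (2 ^ m ^^^ a3)) := by
  set U := span (ZMod 2) (Set.range b) with hUdef
  have hU : finrank (ZMod 2) U = m := by
    have := finrank_span_eq_card hb
    simpa using this
  obtain ⟨K, hK, hKU, x, hxE, hxU, hd⟩ := link_hyper E hG.span hG.vc U (by omega)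
    (tri_exists hG.span U (by omega))
  obtain ⟨u, hu, hli⟩ := fano_exists_three _ hd
  have hcode : ∀ i, ∃ n < 2 ^ m, comb b n = u i := fun i => exists_code b _ (hu i).1
  choose a ha hau using hcode
  have hne0 : ∀ i, u i ≠ 0 := fun i => hli.ne_zero i
  have ha0 : ∀ i, a i ≠ 0 := by
    intro i h
    apply hne0 i
    rw [← hau, h, comb_zero]
  have haij : ∀ i j, i ≠ j → a i ≠ a j := by
    intro i j hij h
    apply hij
    apply hli.injective
    rw [← hau, ← hau, h]
  have hsum : a 0 ^^^ a 1 ≠ a 2 := by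
    intro h
    have h1 : u 0 + u 1 + u 2 = 0 := by
      rw [← hau, ← hau, ← hau, ← comb_xor, ← h, ← comb_xor, Nat.xor_self, comb_zero]
    have h2 := Fintype.linearIndependent_iff.mp hli (fun _ => 1) (by
      rw [Fin.sum_univ_three]
      simpa using h1) 0
    exact one_ne_zero h2
  have hlt : ∀ i, (a i).testBit m = false := fun i => Nat.testBit_lt_two_pow (ha i)
  have hxc : comb (Fin.snoc b x : Fin (m + 1) → V) (2 ^ m) = x := by
    have := comb_two_pow (Fin.snoc b x : Fin (m + 1) → V) (Fin.last m)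
    simpa using this
  have hac : ∀ i, comb (Fin.snoc b x : Fin (m + 1) → V) (2 ^ m ^^^ a i) = x + u i := by
    intro i
    rw [comb_xor, hxc, comb_snoc, hlt, hau]
    simp
  refine ⟨K, x, a 0, a 1, a 2, hK, ?_, ha 0, ha 1, ha 2, ha0 0, ha0 1, ha0 2,
    haij 0 1 (by decide), haij 0 2 (by decide), haij 1 2 (by decide), hsum, ?_, ?_, ?_, ?_⟩
  · intro n hn
    refine comb_mem_imp _ K ?_ n hn
    intro c hc
    rw [Fin.sum_univ_castSucc] at hc
    simp only [Fin.snoc_castSucc, Fin.snoc_last] at hc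
    have hUs : ∑ i : Fin m, c i.castSucc • b i ∈ U :=
      Submodule.sum_mem _ fun i _ => U.smul_mem _ (subset_span ⟨i, rfl⟩)
    have hlast : c (Fin.last m) = 0 := by
      rcases tri_zmod (c (Fin.last m)) with h | h
      · exact h
      · exfalso
        rw [h, one_smul] at hc
        apply hxU
        have h1 : x = ∑ i : Fin m, c i.castSucc • b i + (∑ i : Fin m, c i.castSucc • b i + x) := by
          rw [← add_assoc, tri_self, zero_add]
        rw [h1]
        exact Submodule.add_mem_sup hUs hc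
    rw [hlast, zero_smul, add_zero] at hc
    have h0 : ∑ i : Fin m, c i.castSucc • b i = 0 := by
      have : ∑ i : Fin m, c i.castSucc • b i ∈ K ⊓ U := ⟨hc, hUs⟩
      rw [hKU] at this
      exact (Submodule.mem_bot _).mp this
    have h2 := Fintype.linearIndependent_iff.mp hb (fun i => c i.castSucc) h0
    funext i
    refine Fin.lastCases ?_ (fun j => ?_) i
    · exact hlast
    · exact h2 j
  · rw [hxc]
    exact fano_pres_of_mem hxE
  · rw [hac]
    exact (hu 0).2
  · rw [hac]
    exact (hu 1).2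
  · rw [hac]
    exact (hu 2).2

end Pool.Agent.WW

end

section

/-!
Item G8: `QQ` for all sets of at least three points of the contraction.
-/

namespace Pool.Agent.WW

open Submodule Module

universe u

/-- G8: `QQ` for all sets of at least three points of the contraction -/
theorem claimTL (h3 : ClaimQQMin.{u}) (h4 : ClaimQQTri.{u}) (h5 : ClaimVCSpan.{u})
    (h6 : ClaimSmall.{u}) : ClaimTL.{u} := by
  intro V _ _ _ _ W _ _ _ _ E π e _ hker h0E heE hfree hTT hFano hBig hW4
  have hc0 : (0 : W) ∉ contr π E := by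
    unfold contr
    simp
  have key : ∀ n : ℕ, ∀ X : Finset W, X.card = n → X ⊆ contr π E → 3 ≤ X.card → QQ π E X := by
    intro n
    induction n using Nat.strong_induction_on with
    | _ n ih =>
      intro X hn hX hX3
      have h0 : (0 : W) ∉ X := fun h => hc0 (hX h)
      have hXfree : ¬ HasK5 (X : Set W) := fun h =>
        hfree (HasK5.of_contr π hker E heE (h.mono (by exact_mod_cast hX)))
      by_contra hQ
      have hVC : VC (X : Set W) := by
        refine h3 V W E π X h0 hX3 hQ ?_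
        intro F hF hne hF3
        have hlt : F.card < X.card := Finset.card_lt_card (lt_of_le_of_ne hF hne)
        exact ih F.card (by omega) F rfl (hF.trans hX) hF3
      have htri : ¬ (tri X + 18 ≤ 8 * X.card) := fun h => hQ (h4 V W E π X h0 h)
      have hdim : finrank (ZMod 2) ↥(span (ZMod 2) (X : Set W)) ≤ finrank (ZMod 2) W :=
        Submodule.finrank_le _
      by_cases h5' : 5 ≤ finrank (ZMod 2) ↥(span (ZMod 2) (X : Set W))
      · exact htri (h5 W X _ h0 hXfree hVC (hTT _ h5' hdim) rfl)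
      · obtain ⟨s1, s2, s3⟩ := h6 W X h0 hX3
        rcases Nat.lt_or_ge X.card 7 with hc | hc
        · exact htri (s1 (by omega))
        · rcases Nat.lt_or_ge X.card 8 with hc8 | hc8
          · rcases s2 (by omega) with h | ⟨G, hG, hGX⟩
            · exact htri h
            · have h7 := hFano X G hG hGX hX
              exact hQ ⟨by omega, fun _ => by omega⟩
          · rcases Nat.lt_or_ge X.card 11 with hc11 | hc11
            · exact htri (s3 hc8 (by omega) (by omega))
            · have h8 := rooted_nz (span (ZMod 2) (X : Set W)) (X : Set W)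
                (fun x hx => subset_span hx) (by exact_mod_cast h0)
              rw [Set.ncard_coe_finset] at h8
              have h9 : finrank (ZMod 2) ↥(span (ZMod 2) (X : Set W)) = 4 := by
                have h10 : finrank (ZMod 2) ↥(span (ZMod 2) (X : Set W)) ≤ 4 := by omega
                interval_cases h11 : finrank (ZMod 2) ↥(span (ZMod 2) (X : Set W)) <;> omega
              have h12 := hBig X _ h9 (fun x hx => subset_span hx) hX hc11
              exact hQ ⟨by omega, fun _ => by omega⟩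
  intro X hX hX3
  exact key _ X rfl hX hX3

end Pool.Agent.WW

end

section

/-!
Item K: no house and no K_{2,3} among the doubled points.
-/

set_option autoImplicit false

namespace Pool.Agent.WW

open Submodule Module

variable {V W : Type*} [AddCommGroup V] [Module (ZMod 2) V]
  [AddCommGroup W] [Module (ZMod 2) W]

section House
variable [FiniteDimensional (ZMod 2) V] [DecidableEq V] [DecidableEq W] {E : Finset V}
  (hG : Good (E : Set V)) (h5 : 5 ≤ finrank (ZMod 2) V) {e : V} (he : e ∈ E)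
  (π : V →ₗ[ZMod 2] W) (hker : ∀ v, π v = 0 ↔ v = 0 ∨ v = e)
include hG h5 he hker

theorem no_house (a b c x y : W) (ha : a ∈ DD π E e) (hb : b ∈ DD π E e) (hc : c ∈ DD π E e)
    (hx : x ∈ DD π E e) (hy : y ∈ DD π E e) (hd : [a, b, c, x, y].Nodup)
    (h1 : a + b ∈ contr π E) (h2 : b + c ∈ contr π E) (h3 : a + c ∈ contr π E)
    (h4 : a + x ∈ contr π E) (h6 : x + y ∈ contr π E) (h7 : y + b ∈ contr π E) : False :=
  hG.free (house_core π hker he (fun h => hG.zero (by rw [← h]; exact he))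
    (no_dline hG h5 he π hker) a b c x y ha hb hc hx hy hd h1 h2 h3 h4 h6 h7)

theorem no_K23 (a b x y z : W) (ha : a ∈ DD π E e) (hb : b ∈ DD π E e) (hx : x ∈ DD π E e)
    (hy : y ∈ DD π E e) (hz : z ∈ DD π E e) (hd : [a, b, x, y, z].Nodup)
    (h1 : a + x ∈ contr π E) (h2 : a + y ∈ contr π E) (h3 : a + z ∈ contr π E)
    (h4 : b + x ∈ contr π E) (h6 : b + y ∈ contr π E) (h7 : b + z ∈ contr π E) : False :=
  hG.free (K23_core π hker he (fun h => hG.zero (by rw [← h]; exact he))
    (no_dline hG h5 he π hker) a b x y z ha hb hx hy hz hd h1 h2 h3 h4 h6 h7)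

end House

end Pool.Agent.WW

end

section

set_option autoImplicit false

/-!
# B16: the bound for an element without bad separation and without triads
-/

namespace Pool.Agent.WW

open Submodule Module

universe u

/-- a maximal free superset -/
theorem c3_maxFree {W : Type u} [AddCommGroup W] [Module (ZMod 2) W] [FiniteDimensional (ZMod 2) W]
    (N : Set W) (h0 : (0 : W) ∉ N) (hf : ¬ HasK5 N) : ∃ S : Set W, N ⊆ S ∧ MaxFree S := by
  have : Finite W := Module.finite_of_finite (ZMod 2)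
  have hfin : Finite (Set W) := inferInstance
  obtain ⟨S, hNS, hS⟩ := (Set.toFinite {S : Set W | (0 : W) ∉ S ∧ ¬ HasK5 S}).exists_le_maximal
    (show N ∈ {S : Set W | (0 : W) ∉ S ∧ ¬ HasK5 S} from ⟨h0, hf⟩)
  refine ⟨S, hNS, hS.1.1, hS.1.2, ?_⟩
  intro x hx hfx
  have h1 : insert x S ∈ {S : Set W | (0 : W) ∉ S ∧ ¬ HasK5 S} := by
    refine ⟨?_, hfx⟩
    rw [Set.mem_insert_iff, not_or]
    exact ⟨fun h => hx h.symm, hS.1.1⟩
  exact hS.2 h1 (Set.subset_insert x S) (Set.mem_insert x S)

/-- B16: the bound for an element without bad separation and without triads -/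
theorem c3Bound (hQP : C3QuadPi.{u}) (hFull : C3Full.{u}) (hPeel : C3Peel.{u})
    (hSides : C3Sides.{u}) : C3Bound.{u} := by
  intro V _ _ _ _ E H F A Γ x0 a hG h6 hH hD hQ hx0 hF hA ha hNB hTri
  have h0 : (0 : V) ∉ E := fun h => hG.zero (by exact_mod_cast h)
  have he : x0 + (a : V) ∈ E := (hA a).1 ha
  obtain ⟨π, hsurj, hker, hctr, hdeg⟩ := hQP V E H F A x0 a hH h0 hx0 hF hA ha
  have hN0 : (0 : ↥H) ∉ (contr π E : Set ↥H) := by
    unfold contr; simp
  have hNf : ¬ HasK5 (contr π E : Set ↥H) := fun h => hG.free (HasK5.of_contr π hker E he h)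
  obtain ⟨S0, hNS, hS⟩ := c3_maxFree (contr π E : Set ↥H) hN0 hNf
  have hT : ∀ S S', ¬ Triad (contr π E : Set ↥H) S S' := by
    rw [hctr]; exact hTri
  have hfull : Full S0 ⊤ := hFull V ↥H E π (x0 + (a : V)) S0 hG (by omega) hsurj hker he hT
    (fun x hx => hNS (by exact_mod_cast hx)) hS
  obtain ⟨-, -, hsp, hcov⟩ := hSides ↥H F A Γ a hQ ha
  have : Finite ↥H := Module.finite_of_finite (ZMod 2)
  have hSfin : S0.Finite := Set.toFinite S0
  have hSc : ((hSfin.toFinset : Finset ↥H) : Set ↥H) = S0 := hSfin.coe_toFinset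
  have hNS' : ∀ x ∈ NA F A a, x ∈ S0 := by
    intro x hx
    apply hNS
    rw [hctr]
    exact_mod_cast hx
  have hC : ∀ P P' : Submodule (ZMod 2) ↥H, Sep S0 ⊤ P P' → Cov (NA F A a : Set ↥H) P P' := by
    intro P P' hs
    refine ⟨hs.2.2.1, hs.2.2.2.1, fun x hx => hs.2.2.2.2.1 x (hNS' x (by exact_mod_cast hx))
      Submodule.mem_top⟩
  have hN := hPeel ↥H hSfin.toFinset (NA F A a) Γ
    (fun x hx => by rw [Set.Finite.mem_toFinset]; exact hNS' x hx)
    (by rw [Set.Finite.mem_toFinset]; exact hS.1)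
    (by rw [hSc]; exact hS.2.1)
    (by rw [hSc]; exact hfull)
    (fun m hm => hD m (by omega))
    hQ.dim hsp
    (by
      rw [hSc]
      intro P P' hs
      exact (hcov P P' (hC P P' hs) hs.2.2.2.2.2).1)
    (by
      rw [hSc]
      intro P P' hs
      exact hNB P P' (hC P P' hs) (hfull P P' hs).1)
  have h3 := card_contr π E (x0 + (a : V)) hker h0 he
  rw [hctr, hdeg] at h3
  omega

end Pool.Agent.WW

end

section

/-!
Case II of the density bound: there is a cocircuit of rank four (assembly).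
-/

namespace Pool.Agent.WW

open Submodule Module

universe u

section

variable {V : Type u} [AddCommGroup V] [Module (ZMod 2) V] [FiniteDimensional (ZMod 2) V]
  [DecidableEq V]

/-- there is a cocircuit of rank four of the first triad type -/
def CaII_T1 (E : Finset V) : Prop :=
  ∃ (H : Submodule (ZMod 2) V) (p x b c : V), Coc4 (E : Set V) H ∧
    (∀ v, v ∈ E ∧ v ∉ H ↔ v = p ∨ v = p + x ∨ v = b ∨ v = c) ∧ x ∈ E ∧ x ∈ H ∧
    ∀ v ∈ E, v ∈ H → v ∈ span (ZMod 2) ({p, x, b, c} : Set V) → v = x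

/-- the possible conclusions for an element without bad separation -/
theorem caII_elem (hPi : C3QuadPi.{u}) (hTT : C3TriadType.{u}) (hB : C3Bound.{u})
    (E : Finset V) (H : Submodule (ZMod 2) V) (F A : Finset ↥H) (Γ : Submodule (ZMod 2) ↥H)
    (x0 : V) (a : ↥H) (hG : Good (E : Set V)) (h6 : 6 ≤ finrank (ZMod 2) V)
    (hD : ∀ m, m < finrank (ZMod 2) V → D3.{u} m) (hH : Coc4 (E : Set V) H) (hQ : Quad F A Γ)
    (hx0 : x0 ∉ H) (hF : ∀ h : ↥H, h ∈ F ↔ (h : V) ∈ E)
    (hA : ∀ h : ↥H, h ∈ A ↔ x0 + (h : V) ∈ E) (ha : a ∈ A) (ht : tA F A a ≤ 2)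
    (hN : NoBad (NA F A a)) :
    deg E (x0 + (a : V)) = 2 * tA F A a ∧
    (2 * E.card + 4 ≤ 6 * finrank (ZMod 2) V + 2 * tA F A a ∨
    ∃ (H' : Submodule (ZMod 2) V) (p b c : V), Coc4 (E : Set V) H' ∧ x0 + (a : V) ∈ H' ∧
    (∀ v ∈ E, v ∈ H' → v ∈ span (ZMod 2) ({p, x0 + (a : V), b, c} : Set V) → v = x0 + (a : V)) ∧
    ((∀ v, v ∈ E ∧ v ∉ H' ↔ v = p ∨ v = p + (x0 + (a : V)) ∨ v = b ∨ v = c) ∨
      (deg E (x0 + (a : V)) = 4 ∧ ∀ v, v ∈ E ∧ v ∉ H' ↔ v = p ∨ v = p + (x0 + (a : V)) ∨ v = b ∨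
        v = b + (x0 + (a : V)) ∨ v = c))) := by
  have h0 : (0 : V) ∉ E := fun h => hG.zero (Finset.mem_coe.2 h)
  obtain ⟨π, hsurj, hker, hcontr, hdeg⟩ := hPi V E H F A x0 a hH.1 h0 hx0 hF hA ha
  refine ⟨hdeg, ?_⟩
  by_cases hT : ∃ S S', Triad (NA F A a : Set ↥H) S S'
  · right
    obtain ⟨S, S', hT⟩ := hT
    rw [← hcontr] at hT
    exact hTT V ↥H E π (x0 + (a : V)) S S' hG h6 hsurj hker ((hA a).1 ha) (by omega) hT
  · left
    push Not at hT
    exact hB V E H F A Γ x0 a hG h6 hH.1 hD hQ hx0 hF hA ha hN hT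

/-- the degree is positive if a line through `e` is full -/
theorem caII_deg_pos (E : Finset V) (e p : V) (hp : p ∈ E) (hpe : p + e ∈ E) : 0 < deg E e := by
  unfold deg
  exact Finset.card_pos.2 ⟨p, Finset.mem_filter.2 ⟨hp, hpe⟩⟩

end

/-- B17 -/
theorem c3CaseII (hDeg : C3Deg.{u}) (hPi : C3QuadPi.{u}) (hNB : C3NoBadX.{u})
    (hTau : C3Tau.{u}) (hTT : C3TriadType.{u}) (hB : C3Bound.{u}) : C3CaseII.{u} := by
  intro V _ _ _ _ E H hG hK h6 hD hC
  by_contra hlt
  push Not at hlt
  have hdeg : ∀ y ∈ E, Ctr (E : Set V) y → 6 ≤ deg E y :=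
    fun y hy hc => hDeg V E y hG hD hlt hy hc
  by_cases hT1 : CaII_T1 E
  · obtain ⟨H1, p, x, b, c, hC1, hout, hx, hxH, huniq⟩ := hT1
    obtain ⟨F, A, Γ, x0, a, hQ, hx0, hF, hA, ha, ht, hN⟩ :=
      hTau V E H1 p x b c hG hK h6 hdeg hC1 hout hx hxH huniq
    obtain ⟨hd, h1 | ⟨H', p', b', c', _, _, _, h1 | ⟨h4, _⟩⟩⟩ :=
      caII_elem hPi hTT hB E H1 F A Γ x0 a hG h6 hD hC1 hQ hx0 hF hA ha (by omega) hN
    · omega
    · have hp1 := ((h1 p').2 (Or.inl rfl)).1
      have hp2 := ((h1 (p' + (x0 + (a : V)))).2 (Or.inr (Or.inl rfl))).1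
      have := caII_deg_pos E (x0 + (a : V)) p' hp1 hp2
      omega
    · omega
  · obtain ⟨F, A, Γ, x0, a, hQ, hx0, hF, hA, ha, ht, hN⟩ := hNB V E H hG hK h6 hdeg hC
    obtain ⟨hd, h1 | ⟨H', p, b, c, hC', heH, huniq, h1 | ⟨h4, hout⟩⟩⟩ :=
      caII_elem hPi hTT hB E H F A Γ x0 a hG h6 hD hC hQ hx0 hF hA ha ht hN
    · omega
    · exact hT1 ⟨H', p, x0 + (a : V), b, c, hC', h1, (hA a).1 ha, heH, huniq⟩
    · set e : V := x0 + (a : V) with hedef
      obtain ⟨F', A', Γ', x0', a', hQ', hx0', hF', hA', ha', ht', hN'⟩ :=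
        hNB V E H' hG hK h6 hdeg hC'
      -- elements outside lie in the span
      have hspan : ∀ v, v ∈ E → v ∉ H' → v ∈ span (ZMod 2) ({p, e, b, c} : Set V) := by
        intro v hv hvH
        have hp : p ∈ span (ZMod 2) ({p, e, b, c} : Set V) := subset_span (by simp)
        have he : e ∈ span (ZMod 2) ({p, e, b, c} : Set V) := subset_span (by simp)
        have hb : b ∈ span (ZMod 2) ({p, e, b, c} : Set V) := subset_span (by simp)
        have hc : c ∈ span (ZMod 2) ({p, e, b, c} : Set V) := subset_span (by simp)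
        rcases (hout v).1 ⟨hv, hvH⟩ with h | h | h | h | h
        · rw [h]; exact hp
        · rw [h]; exact add_mem hp he
        · rw [h]; exact hb
        · rw [h]; exact add_mem hb he
        · rw [h]; exact hc
      have hnotH : ∀ h : ↥H', x0' + (h : V) ∉ H' := by
        intro h hh
        have := sub_mem hh h.2
        rw [add_sub_cancel_right] at this
        exact hx0' this
      have htA : tA F' A' a' ≤ 1 := by
        unfold tA
        rw [Finset.card_le_one]
        intro b1 hb1 b2 hb2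
        rw [Finset.mem_filter] at hb1 hb2
        have key : ∀ b1 : ↥H', b1 ∈ A' → a' + b1 ∈ F' → (b1 : V) = a' + e := by
          intro b1 hb1 hf1
          have hy : x0' + (a' : V) ∈ E := (hA' a').1 ha'
          have hy1 : x0' + (b1 : V) ∈ E := (hA' b1).1 hb1
          have hs := add_mem (hspan _ hy (hnotH a')) (hspan _ hy1 (hnotH b1))
          have e1 : x0' + (a' : V) + (x0' + (b1 : V)) = (a' : V) + b1 := by
            have : x0' + x0' = 0 := ZModModule.add_self x0'
            calc x0' + (a' : V) + (x0' + (b1 : V)) = (x0' + x0') + ((a' : V) + b1) := by abel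
              _ = _ := by rw [this, zero_add]
          rw [e1] at hs
          have hfE : ((a' + b1 : ↥H') : V) ∈ E := (hF' _).1 hf1
          rw [Submodule.coe_add] at hfE
          have hH1 : (a' : V) + b1 ∈ H' := add_mem a'.2 b1.2
          have h2 := huniq _ hfE hH1 hs
          rw [← h2, ← add_assoc, ZModModule.add_self, zero_add]
        apply Subtype.ext
        rw [key b1 hb1.1 hb1.2, key b2 hb2.1 hb2.2]
      obtain ⟨hd', h1' | ⟨H'', p', b', c', hC'', heH', huniq', h1' | ⟨h4', _⟩⟩⟩ :=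
        caII_elem hPi hTT hB E H' F' A' Γ' x0' a' hG h6 hD hC' hQ' hx0' hF' hA' ha' ht' hN'
      · omega
      · exact hT1 ⟨H'', p', x0' + (a' : V), b', c', hC'', h1', (hA' a').1 ha', heH', huniq'⟩
      · omega

end Pool.Agent.WW

end

section

/-!
Colouring a set from the density bound and colourings of proper flats, three colour coordinates.
-/

namespace Pool.Agent.WW

open Submodule Module

universe u

/-- K1. -/
theorem c3ColGood (h : ClaimExt.{u}) : C3ColGood.{u} := by
  classical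
  intro V _ _ _ E h0 hpos hcard hX
  have hfV : Finite V := Module.finite_of_finite (ZMod 2)
  obtain ⟨X, hXt, hmax⟩ : ∃ X : Submodule (ZMod 2) V, X ≠ ⊤ ∧ ∀ Y : Submodule (ZMod 2) V,
      ((E.filter (fun v => v ∈ Y)).card : ℤ) - 3 * (finrank (ZMod 2) Y : ℤ) ≤
      ((E.filter (fun v => v ∈ X)).card : ℤ) - 3 * (finrank (ZMod 2) X : ℤ) := by
    obtain ⟨X, hmax⟩ := Finite.exists_max (fun X : Submodule (ZMod 2) V =>
      ((E.filter (fun v => v ∈ X)).card : ℤ) - 3 * (finrank (ZMod 2) X : ℤ))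
    by_cases hXt : X = ⊤
    · subst hXt
      refine ⟨⊥, ?_, fun Y => (hmax Y).trans ?_⟩
      · intro hb
        have : finrank (ZMod 2) (⊥ : Submodule (ZMod 2) V) = finrank (ZMod 2) V := by
          rw [hb, finrank_top]
        rw [finrank_bot] at this
        omega
      · have h3 : E.filter (fun v => v ∈ (⊤ : Submodule (ZMod 2) V)) = E := by
          rw [Finset.filter_eq_self]
          intro v _
          trivial
        simp only [h3, finrank_bot, finrank_top]
        omega
    · exact ⟨X, hXt, hmax⟩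
  obtain ⟨f, hf⟩ := hX X hXt
  obtain ⟨g, hg1, hg2⟩ := h V 3 E X f (by
    intro A hA hAX
    have h1 := hmax (X ⊔ span (ZMod 2) (A : Set V))
    have h2 : A.card + (E.filter (fun v => v ∈ X)).card ≤
        (E.filter (fun v => v ∈ X ⊔ span (ZMod 2) (A : Set V))).card := by
      rw [← Finset.card_union_of_disjoint]
      · apply Finset.card_le_card
        intro v hv
        rcases Finset.mem_union.1 hv with hv | hv
        · exact Finset.mem_filter.2 ⟨hA hv, mem_sup_right (subset_span hv)⟩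
        · exact Finset.mem_filter.2 ⟨(Finset.mem_filter.1 hv).1,
            mem_sup_left (Finset.mem_filter.1 hv).2⟩
      · rw [Finset.disjoint_left]
        intro v hv hv'
        exact hAX v hv (Finset.mem_filter.1 hv').2
    omega)
  refine ⟨g, fun v hv => ?_⟩
  by_cases hvX : v ∈ X
  · rw [hg1 v hvX]
    exact hf v hv hvX
  · exact hg2 v hv hvX

end Pool.Agent.WW

end

section

/-!
Colouring across a separation with guts of dimension at most two, three colour coordinates.
-/

namespace Pool.Agent.WW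

open Submodule Module

universe u

/-- a colour different from three given ones -/
theorem c3cs_colour (a b : Fin 3 → ZMod 2) : ∃ c : Fin 3 → ZMod 2, c ≠ 0 ∧ c ≠ a ∧ c ≠ b := by
  classical
  have h : ({0, a, b} : Finset (Fin 3 → ZMod 2)) ≠ Finset.univ := by
    intro h
    have h1 := congrArg Finset.card h
    have h2 : (Finset.univ : Finset (Fin 3 → ZMod 2)).card = 8 := by
      rw [Finset.card_univ, Fintype.card_fun, ZMod.card, Fintype.card_fin]
      norm_num
    have h3 : ({0, a, b} : Finset (Fin 3 → ZMod 2)).card ≤ 3 := Finset.card_le_three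
    omega
  obtain ⟨c, hc⟩ : ∃ c, c ∉ ({0, a, b} : Finset (Fin 3 → ZMod 2)) := by
    by_contra hcon
    push Not at hcon
    exact h (Finset.eq_univ_iff_forall.2 hcon)
  simp only [Finset.mem_insert, Finset.mem_singleton, not_or] at hc
  exact ⟨c, hc.1, hc.2.1, hc.2.2⟩

/-- the exceptional case -/
theorem c3cs_bad (hRel : ClaimRel.{u}) {V : Type u} [AddCommGroup V]
    [Module (ZMod 2) V] [FiniteDimensional (ZMod 2) V] (E : Set V)
    (S H : Submodule (ZMod 2) V) (h0 : (0 : V) ∉ E) (hE : ¬ HasK5 E) (hS : S ≠ ⊤)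
    (hcov : ∀ x ∈ E, x ∈ S ∨ x ∈ H)
    (col : ∀ (X : Submodule (ZMod 2) V) (F : Set V), X ≠ ⊤ → (∀ x ∈ F, x ∈ X) → (0 : V) ∉ F →
      ¬ HasK5 F → ∃ f : V →ₗ[ZMod 2] (Fin 3 → ZMod 2), ∀ v ∈ F, f v ≠ 0)
    (hB : ColSepBad E S H) :
    ∃ f : V →ₗ[ZMod 2] (Fin 3 → ZMod 2), ∀ v ∈ E, f v ≠ 0 := by
  obtain ⟨x, p, q, hp, hq, hp0, hq0, hpq, hxn, hxH, hEH⟩ := hB
  have hxS : x ∉ S := fun h => hxn ⟨h, hxH⟩
  have hxE : x ∈ E := by
    have : x ∈ E ∩ (H : Set V) := by rw [hEH]; simp
    exact this.1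
  have hxp : x + p ∈ E := by
    have : x + p ∈ E ∩ (H : Set V) := by rw [hEH]; simp
    exact this.1
  have hxq : x + q ∈ E := by
    have : x + q ∈ E ∩ (H : Set V) := by rw [hEH]; simp
    exact this.1
  have hxx : ∀ v : V, (x + v) + v = x := fun v => by
    rw [add_assoc, colSep_add_self, add_zero]
  have hfree : ¬ HasK5 ((E ∩ (S : Set V)) ∪ {p, q}) := by
    intro hk
    refine hE (hRel V E _ (span (ZMod 2) {x}) S ?_ ?_ ?_ ?_ hk)
    · apply span_mono
      intro v hv
      rw [Set.mem_singleton_iff] at hv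
      subst hv
      exact ⟨hxE, mem_span_singleton_self v⟩
    · rw [eq_bot_iff]
      intro v hv
      rw [Submodule.mem_bot]
      obtain ⟨c, hc⟩ := mem_span_singleton.1 hv.1
      have h3 : ∀ a : ZMod 2, a = 0 ∨ a = 1 := by decide
      rcases h3 c with rfl | rfl
      · rw [← hc, zero_smul]
      · exfalso
        rw [one_smul] at hc
        exact hxS (hc ▸ hv.2)
    · rintro v (hv | hv)
      · exact hv.2
      · rcases hv with rfl | rfl
        · exact hp.1
        · exact hq.1
    · rintro v (hv | hv)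
      · exact ⟨v, hv.1, by rw [colSep_add_self]; exact Submodule.zero_mem _⟩
      · rcases hv with rfl | rfl
        · exact ⟨x + v, hxp, by rw [hxx]; exact mem_span_singleton_self x⟩
        · exact ⟨x + v, hxq, by rw [hxx]; exact mem_span_singleton_self x⟩
  obtain ⟨f, hf⟩ := col S _ hS (by
    rintro v (hv | hv)
    · exact hv.2
    · rcases hv with rfl | rfl
      · exact hp.1
      · exact hq.1) (by
    rintro (hv | hv)
    · exact h0 hv.1
    · rcases hv with hv | hv
      · exact hp0 hv.symm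
      · exact hq0 hv.symm) hfree
  obtain ⟨c, hc0, hcp, hcq⟩ := c3cs_colour (f p) (f q)
  obtain ⟨ψ, hψS, hψx⟩ := colSep_dual S x hxS
  refine ⟨f + ψ.smulRight (c + f x), ?_⟩
  have hx' : (f + ψ.smulRight (c + f x)) x = c := by
    rw [LinearMap.add_apply, LinearMap.smulRight_apply, hψx, one_smul, add_comm c, ← add_assoc,
      colSep_add_self, zero_add]
  have hS' : ∀ v ∈ S, (f + ψ.smulRight (c + f x)) v = f v := by
    intro v hv
    rw [LinearMap.add_apply, LinearMap.smulRight_apply, hψS v hv, zero_smul, add_zero]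
  have hne : ∀ a b : Fin 3 → ZMod 2, a ≠ b → a + b ≠ 0 := by
    intro a b hab h
    apply hab
    calc a = (a + b) + b := by rw [add_assoc, colSep_add_self, add_zero]
      _ = b := by rw [h, zero_add]
  intro v hv
  rcases hcov v hv with hvS | hvH
  · rw [hS' v hvS]
    exact hf v (Or.inl ⟨hv, hvS⟩)
  · have h1 : v ∈ E ∩ (H : Set V) := ⟨hv, hvH⟩
    rw [hEH] at h1
    rcases h1 with rfl | rfl | rfl
    · rw [hx']; exact hc0
    · rw [map_add, hx', hS' p hp.1]
      exact hne _ _ hcp
    · rw [map_add, hx', hS' q hq.1]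
      exact hne _ _ hcq

/-- K2. -/
theorem c3ColSep (hRel : ClaimRel.{u}) (hSep : ClaimLkSep.{u}) (h2 : ClaimFill.{u})
    (h1 : ClaimFillOne.{u}) (hG : ClaimGlue.{u}) : C3ColSep.{u} := by
  intro V _ _ _ E κ S H h0 hE hsp hge hκ hS hH hcov hd col
  have h0' : (0 : V) ∉ (E : Set V) := h0
  have hcov' : ∀ x ∈ (E : Set V), x ∈ S ∨ x ∈ H := hcov
  have hcov'' : ∀ x ∈ (E : Set V), x ∈ H ∨ x ∈ S := fun x hx => (hcov x hx).symm
  have hn : ∀ A B : Submodule (ZMod 2) V, A ≠ ⊤ → (∀ x ∈ (E : Set V), x ∈ A ∨ x ∈ B) →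
      A ⊓ B ≠ B := by
    intro A B hA hc h
    apply hA
    rw [eq_top_iff, ← hsp, span_le]
    intro v hv
    rcases hc v hv with hv' | hv'
    · exact hv'
    · exact inf_eq_right.1 h hv'
  have hL1 := hSep V (E : Set V) S H κ hsp hge hS hH hcov'
  have hL2 := hSep V (E : Set V) H S κ hsp hge hH hS hcov''
  have hd' : finrank (ZMod 2) ↥(H ⊓ S) = κ := by rw [inf_comm]; exact hd
  rcases colSep_or h2 h1 (E : Set V) κ S H h0' hL1 hκ hd (hn S H hS hcov') with hF1 | hB1
  · rcases colSep_or h2 h1 (E : Set V) κ H S h0' hL2 hκ hd' (hn H S hH hcov'') with hF2 | hB2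
    · have f1 := colSep_free hRel (E : Set V) S H hE hF1
      have f2 := colSep_free hRel (E : Set V) H S hE hF2
      obtain ⟨f, hf⟩ := col S _ hS (by
        rintro v (hv | hv)
        · exact hv.2
        · exact hv.1.1) (by
        rintro (hv | hv)
        · exact h0' hv.1
        · exact hv.2 rfl) f1
      obtain ⟨g, hg⟩ := col H _ hH (by
        rintro v (hv | hv)
        · exact hv.2
        · exact hv.1.1) (by
        rintro (hv | hv)
        · exact h0' hv.1
        · exact hv.2 rfl) f2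
      obtain ⟨h, hh1, hh2⟩ := hG V 3 S H f g (fun x hx hx0 =>
        ⟨hf x (Or.inr ⟨hx, hx0⟩), hg x (Or.inr ⟨⟨hx.2, hx.1⟩, hx0⟩)⟩)
      refine ⟨h, fun v hv => ?_⟩
      rcases hcov v hv with hv' | hv'
      · rw [hh1 v hv']
        exact hf v (Or.inl ⟨hv, hv'⟩)
      · exact hh2 v hv' (hg v (Or.inl ⟨hv, hv'⟩))
    · exact c3cs_bad hRel (E : Set V) H S h0' hE hH hcov'' col hB2
  · exact c3cs_bad hRel (E : Set V) S H h0' hE hS hcov' col hB1

end Pool.Agent.WW

end

section

/-!
Item C3Colour: the reduction of the colouring theorem to the density bound.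
-/

namespace Pool.Agent.WW

open Submodule Module

universe u

theorem colour_small3 {V : Type*} [AddCommGroup V] [Module (ZMod 2) V]
    [FiniteDimensional (ZMod 2) V] (h : finrank (ZMod 2) V ≤ 3) :
    ∃ f : V →ₗ[ZMod 2] (Fin 3 → ZMod 2), Function.Injective f := by
  let b := finBasis (ZMod 2) V
  let g : V →ₗ[ZMod 2] (Fin 3 → ZMod 2) := b.constr (ZMod 2) fun i =>
    Pi.single (Fin.castLE h i) (1 : ZMod 2)
  refine ⟨g, ?_⟩
  have hli : LinearIndependent (ZMod 2)
      (fun i : Fin (finrank (ZMod 2) V) => (Pi.single (Fin.castLE h i) 1 : Fin 3 → ZMod 2)) :=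
    (Pi.linearIndependent_single_one (Fin 3) (ZMod 2)).comp _ (Fin.castLE_injective h)
  rw [← LinearMap.ker_eq_bot, LinearMap.ker_eq_bot']
  intro v hv
  have h1 : g v = ∑ i, b.repr v i • (Pi.single (Fin.castLE h i) 1 : Fin 3 → ZMod 2) := by
    rw [Basis.constr_apply_fintype]
    rfl
  rw [h1] at hv
  have h2 := Fintype.linearIndependent_iff.1 hli _ hv
  have h3 : b.repr v = 0 := by
    ext i
    exact h2 i
  simpa using h3

/-- colouring of a free set inside a proper subspace -/
theorem colour_sub3 {V : Type u} [AddCommGroup V] [Module (ZMod 2) V]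
    [FiniteDimensional (ZMod 2) V]
    (ih : ∀ (W : Type u) [AddCommGroup W] [Module (ZMod 2) W] [FiniteDimensional (ZMod 2) W],
      finrank (ZMod 2) W < finrank (ZMod 2) V → ∀ E : Finset W, (0 : W) ∉ E →
      ¬ HasK5 (E : Set W) → ∃ f : W →ₗ[ZMod 2] (Fin 3 → ZMod 2), ∀ v ∈ E, f v ≠ 0)
    (X : Submodule (ZMod 2) V) (F : Set V) (hX : X ≠ ⊤) (hF : ∀ x ∈ F, x ∈ X)
    (h0 : (0 : V) ∉ F) (hfree : ¬ HasK5 F) :
    ∃ f : V →ₗ[ZMod 2] (Fin 3 → ZMod 2), ∀ v ∈ F, f v ≠ 0 := by
  classical
  have hfin : Finite X := Module.finite_of_finite (ZMod 2)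
  have : Fintype X := Fintype.ofFinite X
  let E : Finset X := Finset.univ.filter (fun x : X => (x : V) ∈ F)
  have hE : ∀ x : X, x ∈ E ↔ (x : V) ∈ F := by
    intro x
    simp [E]
  obtain ⟨f, hf⟩ := ih X (Submodule.finrank_lt hX) E (fun h => h0 (by
    have := (hE 0).1 h
    simpa using this)) (fun h => hfree (by
      refine HasK5.of_map X.subtype (E : Set X) F ⊥ ?_ ?_ ?_ h
      · intro x hx
        rw [mem_bot] at hx
        rw [hx]
        exact zero_mem _
      · intro w hw
        rw [mem_bot] at hw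
        exact Subtype.ext hw
      · intro w hw
        refine ⟨(w : V), (hE w).1 (by exact_mod_cast hw), ?_⟩
        rw [mem_bot, Submodule.subtype_apply, ZModModule.add_self]))
  obtain ⟨g, hg⟩ := LinearMap.exists_extend f
  refine ⟨g, fun v hv => ?_⟩
  have h1 := LinearMap.congr_fun hg ⟨v, hF v hv⟩
  have h2 := hf ⟨v, hF v hv⟩ ((hE _).2 hv)
  rw [← h1] at h2
  exact h2

/-- C3Colour: the reduction of the colouring theorem to the density bound -/
theorem c3Colour (h3 : C3ColGood.{u}) (h4 : C3ColSep.{u}) : C3Colour.{u} := by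
  classical
  intro hD
  have key : ∀ n : ℕ, ∀ (V : Type u) [AddCommGroup V] [Module (ZMod 2) V]
      [FiniteDimensional (ZMod 2) V], finrank (ZMod 2) V = n → ∀ E : Finset V, (0 : V) ∉ E →
      ¬ HasK5 (E : Set V) → ∃ f : V →ₗ[ZMod 2] (Fin 3 → ZMod 2), ∀ v ∈ E, f v ≠ 0 := by
    intro n
    induction n using Nat.strong_induction_on with
    | _ n ih =>
      intro V _ _ _ hn E h0 hfree
      have col := colour_sub3 (V := V) (fun W _ _ _ hW => ih _ (hn ▸ hW) W rfl)
      by_cases hspan : span (ZMod 2) (E : Set V) = ⊤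
      · rcases Nat.lt_or_ge (finrank (ZMod 2) V) 4 with hdim | hdim
        · obtain ⟨f, hf⟩ := colour_small3 (V := V) (by omega)
          refine ⟨f, fun v hv h => h0 ?_⟩
          have := hf (h.trans (map_zero f).symm)
          rwa [← this]
        · by_cases hVC : VC (E : Set V)
          · have hgood : Good (E : Set V) := ⟨by exact_mod_cast h0, hspan, hVC, hfree⟩
            have h5 := hD _ V E hgood rfl
            refine h3 V E h0 (by omega) (by omega) ?_
            intro X hX
            obtain ⟨f, hf⟩ := col X ((E : Set V) ∩ X) hX (fun x hx => hx.2)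
              (fun h => h0 (by exact_mod_cast h.1)) (fun h => hfree (h.mono Set.inter_subset_left))
            exact ⟨f, fun v hv hvX => hf v ⟨by exact_mod_cast hv, hvX⟩⟩
          · unfold VC at hVC
            push Not at hVC
            obtain ⟨H, ⟨a, ha, haH⟩, ⟨b, hb, hbH, hbS⟩, hlt⟩ := hVC
            have hex : ∃ κ : ℕ, ∃ A B : Submodule (ZMod 2) V, A ≠ ⊤ ∧ B ≠ ⊤ ∧
                (∀ x ∈ E, x ∈ A ∨ x ∈ B) ∧ finrank (ZMod 2) ↥(A ⊓ B) = κ := by
              refine ⟨_, span (ZMod 2) ((E : Set V) \ (H : Set V)), H, ?_, ?_, ?_, rfl⟩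
              · intro h
                rw [h] at hbS
                exact hbS trivial
              · intro h
                rw [h] at haH
                exact haH trivial
              · intro x hx
                by_cases hxH : x ∈ H
                · exact Or.inr hxH
                · exact Or.inl (subset_span ⟨by exact_mod_cast hx, hxH⟩)
            obtain ⟨A, B, hA, hB, hcov, hr⟩ := Nat.find_spec hex
            have hmin : ∀ A B : Submodule (ZMod 2) V, A ≠ ⊤ → B ≠ ⊤ →
                (∀ x ∈ E, x ∈ A ∨ x ∈ B) → Nat.find hex ≤ finrank (ZMod 2) ↥(A ⊓ B) :=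
              fun A B h1 h2 h5 => Nat.find_min' hex ⟨A, B, h1, h2, h5, rfl⟩
            have hκ : Nat.find hex ≤ 2 := by
              have h6 := hmin (span (ZMod 2) ((E : Set V) \ (H : Set V))) H (by
                intro h
                rw [h] at hbS
                exact hbS trivial) (by
                intro h
                rw [h] at haH
                exact haH trivial) (by
                intro x hx
                by_cases hxH : x ∈ H
                · exact Or.inr hxH
                · exact Or.inl (subset_span ⟨by exact_mod_cast hx, hxH⟩))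
              omega
            exact h4 V E (Nat.find hex) A B h0 hfree hspan
              (fun A B h1 h2 h5 => hmin A B h1 h2 (fun x hx => h5 x (by exact_mod_cast hx))) hκ
              hA hB hcov hr col
      · obtain ⟨f, hf⟩ := col _ (E : Set V) hspan (fun x hx => subset_span hx)
          (by exact_mod_cast h0) hfree
        exact ⟨f, fun v hv => hf v (by exact_mod_cast hv)⟩
  intro V _ _ _ E h0 hfree
  exact key _ V rfl E h0 hfree

end Pool.Agent.WW

end
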