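import Pool.Agent.Work.MP_a8f287_co.Bd.B06
import Pool.Agent.Work.MP_a8f287_co.Bd.B05
import Pool.Agent.Work.MP_a8f287_co.Bd.B04
import Pool.Agent.Work.MP_a8f287_co.Bd.B07
import Pool.Agent.Work.MP_a8f287_co.Bd.B01

/-! Bundle of small proof modules (one section per former module). -/

section

/-!
F2: no `C15` in a good set of rank at least six.
-/

namespace Pool.Agent.WW

open Submodule Module

universe u

theorem claimNoC15 : ClaimNoC15.{u} := by
  intro hT V _ _ _ E b hG h6 hb hE
  obtain ⟨K, x, a1, a2, a3, hK, hind, l1, l2, l3, n1, n2, n3, n12, n13, n23, ns, p0, p1, p2, p3⟩ :=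
    star_codes hG b hb (by norm_num) (by omega)
  obtain ⟨C, s0, s1, s2, s3, hc⟩ := hT a1 l1 a2 l2 a3 l3 n1 n2 n3 n12 n13 n23 ns
  refine hG.free (hasK5_of_cert (Fin.snoc b x : Fin 6 → V) E K hK hind _ ?_ C s0 s1 s2 s3 hc)
  intro n hn
  rw [testBit_mask] at hn
  simp only [List.mem_append, List.mem_cons, List.not_mem_nil, or_false] at hn
  have hx : ∀ a < 2 ^ 5, 32 ^^^ a < 2 ^ 6 := fun a ha =>
    Nat.xor_lt_two_pow (by norm_num) (ha.trans (by norm_num))
  rcases hn with hn | rfl | rfl | rfl | rfl
  · have hlt : n < 2 ^ 5 := by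
      have : ∀ k ∈ c15, k < 2 ^ 5 := by decide
      exact this n hn
    refine ⟨hlt.trans (by norm_num), fano_pres_of_mem ?_⟩
    rw [comb_snoc, Nat.testBit_lt_two_pow hlt]
    simpa using hE n hn
  · exact ⟨by norm_num, p0⟩
  · exact ⟨hx _ l1, p1⟩
  · exact ⟨hx _ l2, p2⟩
  · exact ⟨hx _ l3, p3⟩

end Pool.Agent.WW

end

section

/-!
F1: no odd triangle in a good set of rank at least five.
-/

namespace Pool.Agent.WW

open Submodule Module

universe u

theorem del4_codes {V : Type*} [AddCommGroup V] [Module (ZMod 2) V] {E : Set V} {e p q r : V}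
    (h : Del4 E e p q r) :
    ∀ n ∈ [1, 2, 4, 8, 3, 5, 9, 7, 13, 11], n < 2 ^ 4 ∧ comb (![e, p, q, r] : Fin 4 → V) n ∈ E := by
  obtain ⟨he, hp, hq, hr, hpe, hqe, hre, hpqe, hqre, hpre⟩ := h
  intro n hn
  simp only [List.mem_cons, List.not_mem_nil, or_false] at hn
  rcases hn with rfl | rfl | rfl | rfl | rfl | rfl | rfl | rfl | rfl | rfl
  · refine ⟨by norm_num, ?_⟩
    have : comb (![e, p, q, r] : Fin 4 → V) 1 = e := by
      simp [comb, Fin.sum_univ_four, Nat.testBit]
    rw [this]
    exact he
  · refine ⟨by norm_num, ?_⟩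
    have : comb (![e, p, q, r] : Fin 4 → V) 2 = p := by
      simp [comb, Fin.sum_univ_four, Nat.testBit]
    rw [this]
    exact hp
  · refine ⟨by norm_num, ?_⟩
    have : comb (![e, p, q, r] : Fin 4 → V) 4 = q := by
      simp [comb, Fin.sum_univ_four, Nat.testBit]
    rw [this]
    exact hq
  · refine ⟨by norm_num, ?_⟩
    have : comb (![e, p, q, r] : Fin 4 → V) 8 = r := by
      simp [comb, Fin.sum_univ_four, Nat.testBit]
    rw [this]
    exact hr
  · refine ⟨by norm_num, ?_⟩
    have : comb (![e, p, q, r] : Fin 4 → V) 3 = p + e := by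
      simp [comb, Fin.sum_univ_four, Nat.testBit]
      abel
    rw [this]
    exact hpe
  · refine ⟨by norm_num, ?_⟩
    have : comb (![e, p, q, r] : Fin 4 → V) 5 = q + e := by
      simp [comb, Fin.sum_univ_four, Nat.testBit]
      abel
    rw [this]
    exact hqe
  · refine ⟨by norm_num, ?_⟩
    have : comb (![e, p, q, r] : Fin 4 → V) 9 = r + e := by
      simp [comb, Fin.sum_univ_four, Nat.testBit]
      abel
    rw [this]
    exact hre
  · refine ⟨by norm_num, ?_⟩
    have : comb (![e, p, q, r] : Fin 4 → V) 7 = p + q + e := by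
      simp [comb, Fin.sum_univ_four, Nat.testBit]
      abel
    rw [this]
    exact hpqe
  · refine ⟨by norm_num, ?_⟩
    have : comb (![e, p, q, r] : Fin 4 → V) 13 = q + r + e := by
      simp [comb, Fin.sum_univ_four, Nat.testBit]
      abel
    rw [this]
    exact hqre
  · refine ⟨by norm_num, ?_⟩
    have : comb (![e, p, q, r] : Fin 4 → V) 11 = p + r + e := by
      simp [comb, Fin.sum_univ_four, Nat.testBit]
      abel
    rw [this]
    exact hpre

theorem claimNoDel4 : ClaimNoDel4.{u} := by
  intro hT V _ _ _ E e p q r hG h5 hD hfin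
  have hb : LinearIndependent (ZMod 2) (![e, p, q, r] : Fin 4 → V) := by
    apply linearIndependent_iff_card_eq_finrank_span.2
    rw [Set.finrank, tri_range4, hfin]
    rfl
  obtain ⟨K, x, a1, a2, a3, hK, hind, l1, l2, l3, n1, n2, n3, n12, n13, n23, ns, p0, p1, p2, p3⟩ :=
    star_codes hG (![e, p, q, r] : Fin 4 → V) hb (by norm_num) (by omega)
  obtain ⟨C, s0, s1, s2, s3, hc⟩ := hT a1 l1 a2 l2 a3 l3 n1 n2 n3 n12 n13 n23 ns
  refine hG.free (hasK5_of_cert (Fin.snoc (![e, p, q, r] : Fin 4 → V) x : Fin 5 → V) E K hK hind _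
    ?_ C s0 s1 s2 s3 hc)
  intro n hn
  rw [testBit_mask] at hn
  rw [show [1, 2, 4, 8, 3, 5, 9, 7, 13, 11, 16, 16 ^^^ a1, 16 ^^^ a2, 16 ^^^ a3] =
    [1, 2, 4, 8, 3, 5, 9, 7, 13, 11] ++ [16, 16 ^^^ a1, 16 ^^^ a2, 16 ^^^ a3] from rfl,
    List.mem_append] at hn
  have hx : ∀ a < 2 ^ 4, 16 ^^^ a < 2 ^ 5 := fun a ha =>
    Nat.xor_lt_two_pow (by norm_num) (ha.trans (by norm_num))
  rcases hn with hn | hn
  · obtain ⟨hlt, hmem⟩ := del4_codes hD n hn
    refine ⟨hlt.trans (by norm_num), fano_pres_of_mem ?_⟩
    rw [comb_snoc, Nat.testBit_lt_two_pow hlt]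
    simpa using hmem
  · simp only [List.mem_cons, List.not_mem_nil, or_false] at hn
    rcases hn with rfl | rfl | rfl | rfl
    · exact ⟨by norm_num, p0⟩
    · exact ⟨hx _ l1, p1⟩
    · exact ⟨hx _ l2, p2⟩
    · exact ⟨hx _ l3, p3⟩

end Pool.Agent.WW

end

section

namespace Pool.Agent.WW

open Submodule Module

universe u

/-- the triangle inequality for sets of size `n` -/
def TAst (n : ℕ) : Prop :=
  ∀ (V : Type u) [AddCommGroup V] [Module (ZMod 2) V] [FiniteDimensional (ZMod 2) V]
    [DecidableEq V] (E : Finset V), (0 : V) ∉ E → 3 ≤ E.card → ¬ HasK5 (E : Set V) →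
    E.card = n → tri E + 24 ≤ 10 * E.card

theorem add_self_eq {V : Type*} [AddCommGroup V] [Module (ZMod 2) V] (v : V) : v + v = 0 := by
  have h := two_smul (ZMod 2) v
  have h2 : (2 : ZMod 2) = 0 := by decide
  rw [h2, zero_smul] at h
  exact h.symm

theorem TA_span {n : ℕ} (ih : ∀ m < n, TAst.{u} m) (V : Type u) [AddCommGroup V]
    [Module (ZMod 2) V] [FiniteDimensional (ZMod 2) V] [DecidableEq V] (E : Finset V)
    (h0 : (0 : V) ∉ E) (h3 : 3 ≤ E.card) (hfree : ¬ HasK5 (E : Set V)) (hn : E.card = n)
    (hs : span (ZMod 2) (E : Set V) = ⊤) : tri E + 24 ≤ 10 * E.card := by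
  classical
  by_contra hbad
  rw [not_le] at hbad
  have : Finite V := Module.finite_of_finite (ZMod 2)
  have : Fintype V := Fintype.ofFinite V
  -- large
  have h9 : 9 ≤ E.card := by
    by_contra hlt
    rw [not_le] at hlt
    have h := tri_le_card E h0
    have h2 : E.card * E.card + 24 ≤ 11 * E.card := by
      generalize E.card = k at *
      interval_cases k <;> omega
    omega
  have hcardV : Fintype.card V = 2 ^ finrank (ZMod 2) V := by
    have := Module.card_eq_pow_finrank (K := ZMod 2) (V := V)
    rwa [ZMod.card] at this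
  have hElt : E.card < 2 ^ finrank (ZMod 2) V := by
    rw [← hcardV]
    exact Finset.card_lt_univ_of_notMem h0
  have hd4 : 4 ≤ finrank (ZMod 2) V := by
    by_contra hlt
    rw [not_le] at hlt
    have : 2 ^ finrank (ZMod 2) V ≤ 2 ^ 3 := Nat.pow_le_pow_right (by norm_num) (by omega)
    omega
  rcases Nat.eq_or_lt_of_le hd4 with hd | hd5
  · have := tri_rank4 hd.symm E h0 h3 hfree
    omega
  have hvc : VC (E : Set V) := by
    apply vc_of_min E h0 h3 hbad
    intro F hF hne h3F
    have hlt : F.card < E.card := Finset.card_lt_card (Finset.ssubset_iff_subset_ne.2 ⟨hF, hne⟩)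
    exact ih F.card (hn ▸ hlt) V F (fun h => h0 (hF h)) h3F
      (fun h => hfree (h.mono (by exact_mod_cast hF))) rfl
  have hG : Good (E : Set V) := ⟨by exact_mod_cast h0, hs, hvc, hfree⟩
  -- each element
  have key : ∀ e ∈ E, ∃ t : ℕ, deg E e = 2 * t ∧ 6 ≤ t ∧ ∃ M : ℕ, 3 * M ≤ 2 * t * (t - 1) ∧
      tri E + 34 + 2 * deg E e ≤ 10 * E.card + 3 * M := by
    intro e he
    have hker : ∀ v, (span (ZMod 2) {e}).mkQ v = 0 ↔ v = 0 ∨ v = e := by
      intro v
      rw [Submodule.mkQ_apply, Submodule.Quotient.mk_eq_zero, Submodule.mem_span_singleton]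
      constructor
      · rintro ⟨a, rfl⟩
        fin_cases a
        · left; exact zero_smul _ _
        · right; exact one_smul _ _
      · rintro (rfl | rfl)
        · exact ⟨0, zero_smul _ _⟩
        · exact ⟨1, one_smul _ _⟩
    set π := (span (ZMod 2) {e}).mkQ with hπ
    have hc1 := card_contr π E e hker h0 he
    have hc2 := card_DD π E e hker h0 he
    have hc3 := tri_contr π E e hker h0 he
    have hdeg : deg E e + 1 ≤ E.card := by
      unfold deg
      have : E.filter (fun a => a + e ∈ E) ⊆ E.erase e := by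
        intro a ha
        rw [Finset.mem_filter] at ha
        rw [Finset.mem_erase]
        refine ⟨?_, ha.1⟩
        rintro rfl
        rw [add_self_eq] at ha
        exact h0 ha.2
      have h := Finset.card_le_card this
      rw [Finset.card_erase_of_mem he] at h
      omega
    have hNfree : ¬ HasK5 (contr π E : Set (V ⧸ span (ZMod 2) {e})) :=
      fun h => hfree (HasK5.of_contr π hker E he h)
    have hN0 : (0 : V ⧸ span (ZMod 2) {e}) ∉ contr π E := by
      unfold contr; simp
    have hNcard : (contr π E).card < n := by omega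
    have hih := ih _ hNcard (V ⧸ span (ZMod 2) {e}) (contr π E) hN0 (by omega) hNfree rfl
    have hbig : 4 * (DD π E e).card + 10 < 3 * EE π E e := by omega
    have hgb := graph_bound (DD π E e) (fun x y => x + y ∈ contr π E)
      (fun x y h => by rwa [add_comm]) (fun x => by rw [add_self_eq]; exact hN0)
      (fun x hx y hy z hz x' hx' y' hy' z' hz' a b c a' b' c' =>
        one_triangle hG hd5 he π hker x y z x' y' z' hx hy hz a b c hx' hy' hz' a' b' c')
      (fun a ha b hb c hc x hx y hy hd e1 e2 e3 e4 e5 e6 =>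
        no_house hG hd5 he π hker a b c x y ha hb hc hx hy hd e1 e2 e3 e4 e5 e6)
      (fun a ha b hb x hx y hy z hz hd e1 e2 e3 e4 e5 e6 =>
        no_K23 hG hd5 he π hker a b x y z ha hb hx hy hz hd e1 e2 e3 e4 e5 e6)
      (EE π E e) rfl hbig
    refine ⟨(DD π E e).card, hc2.symm, hgb.1, EE π E e, hgb.2, ?_⟩
    omega
  have hEne : E.Nonempty := by
    rw [← Finset.card_pos]; omega
  obtain ⟨e, he, hmin⟩ := Finset.exists_min_image E (deg E) hEne
  obtain ⟨t, ht, h6, M, hM, hfin⟩ := key e he
  have hsum : E.card * deg E e ≤ tri E := by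
    rw [← sum_deg E h0, ← smul_eq_mul]
    exact Finset.card_nsmul_le_sum _ _ _ hmin
  have hdeg : deg E e + 1 ≤ E.card := by
    unfold deg
    have : E.filter (fun a => a + e ∈ E) ⊆ E.erase e := by
      intro a ha
      rw [Finset.mem_filter] at ha
      rw [Finset.mem_erase]
      refine ⟨?_, ha.1⟩
      rintro rfl
      rw [add_self_eq] at ha
      exact h0 ha.2
    have h := Finset.card_le_card this
    rw [Finset.card_erase_of_mem he] at h
    omega
  obtain ⟨s, rfl⟩ : ∃ s, t = s + 6 := ⟨t - 6, by omega⟩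
  rw [ht] at hsum hfin hdeg
  have hM' : 3 * M ≤ 2 * (s + 6) * (s + 5) := by simpa using hM
  have h1 : E.card * (2 * (s + 6)) + 34 + 2 * (2 * (s + 6)) ≤
      10 * E.card + 2 * (s + 6) * (s + 5) := by omega
  nlinarith [h1, hdeg]

theorem TA_all (n : ℕ) : TAst.{u} n := by
  induction n using Nat.strong_induction_on with
  | _ n ih =>
    intro V _ _ _ _ E h0 h3 hfree hn
    classical
    -- restrict to the span
    set U := span (ZMod 2) (E : Set V) with hU
    let F : Finset U := E.attach.image (fun x => (⟨x.1, subset_span x.2⟩ : U))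
    have hmem : ∀ x : U, x ∈ F ↔ (x : V) ∈ E := by
      intro x
      constructor
      · intro hx
        obtain ⟨y, -, rfl⟩ := Finset.mem_image.1 hx
        exact y.2
      · intro hx
        exact Finset.mem_image.2 ⟨⟨x.1, hx⟩, Finset.mem_attach _ _, Subtype.ext rfl⟩
    have hFE : F.image (U.subtype) = E := by
      ext x
      rw [Finset.mem_image]
      constructor
      · rintro ⟨y, hy, rfl⟩
        exact (hmem y).1 hy
      · intro hx
        exact ⟨⟨x, subset_span hx⟩, (hmem _).2 hx, rfl⟩
    have hcard : F.card = E.card := by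
      rw [← hFE, Finset.card_image_of_injective _ U.subtype_injective]
    have htri : tri F = tri E := by
      unfold tri
      apply Finset.card_bij (fun p _ => ((p.1 : V), (p.2 : V)))
      · intro p hp
        rw [Finset.mem_filter, Finset.mem_product] at hp ⊢
        exact ⟨⟨(hmem _).1 hp.1.1, (hmem _).1 hp.1.2⟩, (hmem _).1 hp.2⟩
      · intro p _ q _ h
        rw [Prod.mk.injEq] at h
        exact Prod.ext (Subtype.ext h.1) (Subtype.ext h.2)
      · intro p hp
        rw [Finset.mem_filter, Finset.mem_product] at hp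
        refine ⟨(⟨p.1, subset_span hp.1.1⟩, ⟨p.2, subset_span hp.1.2⟩), ?_, rfl⟩
        rw [Finset.mem_filter, Finset.mem_product]
        exact ⟨⟨(hmem _).2 hp.1.1, (hmem _).2 hp.1.2⟩, (hmem _).2 hp.2⟩
    have hF0 : (0 : U) ∉ F := fun h => h0 ((hmem 0).1 h)
    have hFfree : ¬ HasK5 (F : Set U) := by
      intro h
      apply hfree
      refine HasK5.of_map U.subtype (F : Set U) (E : Set V) ⊥ ?_ ?_ ?_ h
      · intro x hx
        rw [Submodule.mem_bot] at hx
        rw [hx]; exact zero_mem _
      · intro w hw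
        rw [Submodule.mem_bot] at hw
        exact Subtype.ext hw
      · intro w hw
        exact ⟨w, (hmem w).1 hw, by rw [Submodule.subtype_apply, add_self_eq]; exact zero_mem _⟩
    have hFs : span (ZMod 2) (F : Set U) = ⊤ := by
      apply Submodule.map_injective_of_injective U.subtype_injective
      rw [Submodule.map_span, Submodule.map_top, Submodule.range_subtype]
      have : (U.subtype '' (F : Set U)) = (E : Set V) := by
        rw [← Finset.coe_image, hFE]
      rw [this]
    have := TA_span ih U F hF0 (by omega) hFfree (by omega) hFs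
    omega

theorem TA {V : Type*} [AddCommGroup V] [Module (ZMod 2) V] [FiniteDimensional (ZMod 2) V]
    [DecidableEq V] (E : Finset V) (h0 : (0 : V) ∉ E) (h3 : 3 ≤ E.card)
    (hfree : ¬ HasK5 (E : Set V)) : tri E + 24 ≤ 10 * E.card :=
  TA_all E.card V E h0 h3 hfree rfl

theorem card_succ_le {V : Type*} [AddCommGroup V] [Module (ZMod 2) V]
    [FiniteDimensional (ZMod 2) V] (E : Finset V) (h0 : (0 : V) ∉ E) :
    E.card + 1 ≤ 2 ^ finrank (ZMod 2) ↥(span (ZMod 2) (E : Set V)) := by
  classical
  have : Finite V := Module.finite_of_finite (ZMod 2)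
  have : Fintype V := Fintype.ofFinite V
  have hU := Module.card_eq_pow_finrank (K := ZMod 2) (V := ↥(span (ZMod 2) (E : Set V)))
  rw [ZMod.card] at hU
  rw [← hU]
  have h : (insert (0 : V) E).card ≤ Fintype.card ↥(span (ZMod 2) (E : Set V)) := by
    rw [← Fintype.card_coe]
    apply Fintype.card_le_of_injective
      (fun x : ↥(insert (0 : V) E) => (⟨x.1, by
        rcases Finset.mem_insert.1 x.2 with h | h
        · rw [h]; exact zero_mem _
        · exact subset_span h⟩ : ↥(span (ZMod 2) (E : Set V))))
    intro x y hxy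
    have := congrArg (fun z : ↥(span (ZMod 2) (E : Set V)) => (z : V)) hxy
    exact Subtype.ext this
  rwa [Finset.card_insert_of_notMem h0] at h

/-- density: `|E| ≤ 5 r - 7` -/
theorem density_all (n : ℕ) : ∀ (V : Type u) [AddCommGroup V] [Module (ZMod 2) V]
    [FiniteDimensional (ZMod 2) V] (E : Finset V), (0 : V) ∉ E → ¬ HasK5 (E : Set V) →
    E.card = n → 2 ≤ finrank (ZMod 2) ↥(span (ZMod 2) (E : Set V)) →
    E.card + 7 ≤ 5 * finrank (ZMod 2) ↥(span (ZMod 2) (E : Set V)) := by
  induction n using Nat.strong_induction_on with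
  | _ n ih =>
    intro V _ _ _ E h0 hfree hn h2
    classical
    have : Finite V := Module.finite_of_finite (ZMod 2)
    have : Fintype V := Fintype.ofFinite V
    rcases Nat.eq_or_lt_of_le h2 with h2 | h2
    · -- rank two
      have hle := card_succ_le E h0
      rw [← h2] at hle ⊢
      norm_num at hle
      omega
    · have h3 : 3 ≤ E.card := le_trans h2 (by
        have := finrank_span_finset_le_card (R := ZMod 2) E
        exact this)
      have hTA := TA E h0 h3 hfree
      have hex : ∃ e ∈ E, deg E e ≤ 9 := by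
        by_contra hcon
        push Not at hcon
        have hs := Finset.card_nsmul_le_sum E (deg E) 10 (fun x hx => hcon x hx)
        rw [sum_deg E h0, smul_eq_mul] at hs
        omega
      obtain ⟨e, he, hde⟩ := hex
      have hker : ∀ v, (span (ZMod 2) {e}).mkQ v = 0 ↔ v = 0 ∨ v = e := by
        intro v
        rw [Submodule.mkQ_apply, Submodule.Quotient.mk_eq_zero, Submodule.mem_span_singleton]
        constructor
        · rintro ⟨a, rfl⟩
          fin_cases a
          · left; exact zero_smul _ _
          · right; exact one_smul _ _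
        · rintro (rfl | rfl)
          · exact ⟨0, zero_smul _ _⟩
          · exact ⟨1, one_smul _ _⟩
      set π := (span (ZMod 2) {e}).mkQ with hπ
      have hc1 := card_contr π E e hker h0 he
      have hc2 := card_DD π E e hker h0 he
      have hNfree : ¬ HasK5 (contr π E : Set (V ⧸ span (ZMod 2) {e})) :=
        fun h => hfree (HasK5.of_contr π hker E he h)
      have hN0 : (0 : V ⧸ span (ZMod 2) {e}) ∉ contr π E := by
        unfold contr; simp
      have hspan : span (ZMod 2) (contr π E : Set (V ⧸ span (ZMod 2) {e})) =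
          (span (ZMod 2) (E : Set V)).map π := by
        rw [Submodule.map_span]
        unfold contr
        rw [Finset.coe_erase, Finset.coe_image, Submodule.span_sdiff_singleton_zero]
      have hrank : finrank (ZMod 2) ↥((span (ZMod 2) (E : Set V)).map π) + 1 =
          finrank (ZMod 2) ↥(span (ZMod 2) (E : Set V)) := by
        have h1 := LinearMap.finrank_range_add_finrank_ker
          (π.domRestrict (span (ZMod 2) (E : Set V)))
        rw [LinearMap.range_domRestrict] at h1
        have h2 : finrank (ZMod 2)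
            ↥(LinearMap.ker (π.domRestrict (span (ZMod 2) (E : Set V)))) = 1 := by
          rw [finrank_eq_one_iff']
          have hes : e ∈ span (ZMod 2) (E : Set V) := subset_span he
          refine ⟨⟨⟨e, hes⟩, ?_⟩, ?_, ?_⟩
          · rw [LinearMap.mem_ker, LinearMap.domRestrict_apply]
            exact (hker e).2 (Or.inr rfl)
          · intro h
            have h' : e = 0 := congrArg (fun z : ↥(LinearMap.ker
              (π.domRestrict (span (ZMod 2) (E : Set V)))) =>
              ((z : ↥(span (ZMod 2) (E : Set V))) : V)) h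
            apply h0
            rw [← h']; exact he
          · rintro ⟨⟨w, hw⟩, hw2⟩
            rw [LinearMap.mem_ker, LinearMap.domRestrict_apply] at hw2
            rcases (hker w).1 hw2 with h | h
            · refine ⟨0, ?_⟩
              apply Subtype.ext; apply Subtype.ext
              simp [h]
            · refine ⟨1, ?_⟩
              apply Subtype.ext; apply Subtype.ext
              simp [h]
        omega
      have hih := ih _ (show (contr π E).card < n by omega) (V ⧸ span (ZMod 2) {e})
        (contr π E) hN0 hNfree rfl (by rw [hspan]; omega)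
      rw [hspan] at hih
      omega

/-- every set without `M(K5)`-minor satisfies `|X| ≤ 5 r(X)` for all subsets -/
theorem card_le_five {V : Type*} [AddCommGroup V] [Module (ZMod 2) V]
    [FiniteDimensional (ZMod 2) V] (E : Finset V) (h0 : (0 : V) ∉ E)
    (hfree : ¬ HasK5 (E : Set V)) (X : Finset V) (hX : X ⊆ E) :
    X.card ≤ 5 * finrank (ZMod 2) ↥(span (ZMod 2) (X : Set V)) := by
  classical
  have : Finite V := Module.finite_of_finite (ZMod 2)
  have : Fintype V := Fintype.ofFinite V
  have hX0 : (0 : V) ∉ X := fun h => h0 (hX h)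
  have hXf : ¬ HasK5 (X : Set V) := fun h => hfree (h.mono (by exact_mod_cast hX))
  rcases Nat.lt_or_ge (finrank (ZMod 2) ↥(span (ZMod 2) (X : Set V))) 2 with h | h
  · have hle := card_succ_le X hX0
    generalize finrank (ZMod 2) ↥(span (ZMod 2) (X : Set V)) = k at *
    interval_cases k <;> omega
  · have := density_all X.card V X hX0 hXf rfl h
    omega

/-- the critical exponent of a binary matroid without `M(K5)`-minor is at most five -/
theorem crit_five {V : Type*} [AddCommGroup V] [Module (ZMod 2) V]
    [FiniteDimensional (ZMod 2) V] (E : Finset V) (h0 : (0 : V) ∉ E)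
    (hfree : ¬ HasK5 (E : Set V)) :
    ∃ f : V →ₗ[ZMod 2] (Fin 5 → ZMod 2), ∀ v ∈ E, f v ≠ 0 :=
  exists_functional 5 E (fun X hX => card_le_five E h0 hfree X hX)

end Pool.Agent.WW

end
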