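import Mathlib
import Pool.Agent.Work.MP_a8f287_co.Bd.B08
import Pool.Agent.Work.MP_a8f287_co.Bd.B02
import Pool.Agent.Work.MP_a8f287_co.Bd.B04
import Pool.Agent.Work.MP_a8f287_co.Bd.B01

/-! Bundle of small proof modules (one section per former module). -/

section

/-!
The base case and the induction of the HIT lemma.
-/

namespace Pool.Agent.WW

open Submodule Module

variable {V : Type*} [AddCommGroup V] [Module (ZMod 2) V]

/-- independence modulo `K` from a dimension count, in terms of codes -/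
theorem ht_indep [FiniteDimensional (ZMod 2) V] {m : ℕ} (b : Fin m → V)
    (K : Submodule (ZMod 2) V)
    (hd : finrank (ZMod 2) K + m ≤ finrank (ZMod 2) ↥(K ⊔ span (ZMod 2) (Set.range b))) :
    ∀ n < 2 ^ m, comb b n ∈ K → n = 0 := by
  have hlin : LinearIndependent (ZMod 2) (fun i => K.mkQ (b i)) := by
    rw [linearIndependent_iff_card_le_finrank_span, Fintype.card_fin]
    have h1 : span (ZMod 2) (Set.range fun i => K.mkQ (b i)) =
        (K ⊔ span (ZMod 2) (Set.range b)).map K.mkQ := by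
      rw [Submodule.map_sup, Submodule.map_span, ← Set.range_comp]
      have : K.map K.mkQ = ⊥ := by
        rw [eq_bot_iff]
        rintro _ ⟨y, hy, rfl⟩
        simpa using hy
      rw [this, bot_sup_eq]
      rfl
    rw [Set.finrank, h1]
    have h2 := LinearMap.finrank_range_add_finrank_ker
      (K.mkQ.domRestrict (K ⊔ span (ZMod 2) (Set.range b)))
    have h3 : (K.mkQ.domRestrict (K ⊔ span (ZMod 2) (Set.range b))).range =
        (K ⊔ span (ZMod 2) (Set.range b)).map K.mkQ := by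
      rw [LinearMap.range_domRestrict]
    have h4 : finrank (ZMod 2)
        ↥(K.mkQ.domRestrict (K ⊔ span (ZMod 2) (Set.range b))).ker ≤ finrank (ZMod 2) K := by
      have h5 : (K.mkQ.domRestrict (K ⊔ span (ZMod 2) (Set.range b))).ker =
          K.comap (K ⊔ span (ZMod 2) (Set.range b)).subtype := by
        ext y
        simp [LinearMap.domRestrict_apply]
      rw [h5]
      have h6 := Submodule.finrank_map_le (K ⊔ span (ZMod 2) (Set.range b)).subtype
        (K.comap (K ⊔ span (ZMod 2) (Set.range b)).subtype)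
      have h7 : finrank (ZMod 2) ↥(K.comap (K ⊔ span (ZMod 2) (Set.range b)).subtype) =
          finrank (ZMod 2) ↥((K.comap (K ⊔ span (ZMod 2) (Set.range b)).subtype).map
            (K ⊔ span (ZMod 2) (Set.range b)).subtype) :=
        (Submodule.finrank_map_subtype_eq _ _).symm
      rw [h7]
      exact Submodule.finrank_mono (Submodule.map_comap_le _ _)
    rw [h3] at h2
    omega
  intro n hn hmem
  refine comb_mem_imp b K ?_ n hn hmem
  intro c hc
  have h1 : ∑ i, c i • K.mkQ (b i) = 0 := by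
    have h2 : K.mkQ (∑ i, c i • b i) = 0 := (Submodule.Quotient.mk_eq_zero K).2 hc
    rw [map_sum] at h2
    rw [← h2]
    exact Finset.sum_congr rfl fun i _ => (map_smul _ _ _).symm
  exact funext (Fintype.linearIndependent_iff.1 hlin c h1)

theorem ht_norm {E : Set V} {K : Submodule (ZMod 2) V} {g v : V} (h : PG E K g v) :
    ∃ w, Pres E K w ∧ (w = v ∨ w = v + g) := by
  rcases h with h | h
  · exact ⟨v, h, Or.inl rfl⟩
  · exact ⟨v + g, h, Or.inr rfl⟩

theorem Cg.of_eq {K : Submodule (ZMod 2) V} {g v w : V} (h : w = v ∨ w = v + g) :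
    Cg K g v w := by
  rcases h with rfl | rfl
  · exact Cg.refl _
  · right
    have : v + (v + g) + g = (v + v) + (g + g) := by abel
    rw [this, mf_add_self, mf_add_self, add_zero]
    exact K.zero_mem

theorem hitM_eq : hitM = mask [1, 2, 4, 8, 16, 32] := by decide

theorem hitCls_eq : hitCls =
    [[mask [6], mask [7]], [mask [10], mask [11]], [mask [18], mask [19]],
      [mask [34], mask [35]], [mask [12], mask [13]], [mask [24], mask [25]],
      [mask [48], mask [49]], [mask [38], mask [39]],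
      [mask [4, 5], mask [6, 7], mask [38, 39], mask [12, 13]],
      [mask [8, 9], mask [10, 11], mask [12, 13], mask [24, 25]],
      [mask [16, 17], mask [18, 19], mask [24, 25], mask [48, 49]],
      [mask [32, 33], mask [34, 35], mask [48, 49], mask [38, 39]]] := by decide

theorem ht_base [FiniteDimensional (ZMod 2) V] {E : Set V} {K : Submodule (ZMod 2) V}
    {g h : V} {s : ℕ → V} (L : LiftD E K g h s 4) : HasK5 E := by
  classical
  obtain ⟨h', hh', eh⟩ := ht_norm L.ph
  obtain ⟨t0, ht0, e0⟩ := ht_norm (L.ps 0)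
  obtain ⟨t1, ht1, e1⟩ := ht_norm (L.ps 1)
  obtain ⟨t2, ht2, e2⟩ := ht_norm (L.ps 2)
  obtain ⟨t3, ht3, e3⟩ := ht_norm (L.ps 3)
  have ch : Cg K g h h' := Cg.of_eq eh
  have c0 : Cg K g (s 0) t0 := Cg.of_eq e0
  have c1 : Cg K g (s 1) t1 := Cg.of_eq e1
  have c2 : Cg K g (s 2) t2 := Cg.of_eq e2
  have c3 : Cg K g (s 3) t3 := Cg.of_eq e3
  have w4 : s 4 = s 0 + h := L.tw 0
  have w5 : s 5 = s 1 + h := L.tw 1
  have w6 : s 6 = s 2 + h := L.tw 2
  have w7 : s 7 = s 3 + h := L.tw 3
  set b : Fin 6 → V := ![g, h', t0, t1, t2, t3] with hb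
  have hspan : span (ZMod 2) ({g, h} ∪ Set.range s) ≤ K ⊔ span (ZMod 2) (Set.range b) := by
    have hm : ∀ i, b i ∈ K ⊔ span (ZMod 2) (Set.range b) := fun i =>
      mem_sup_right (subset_span ⟨i, rfl⟩)
    have hg : g ∈ K ⊔ span (ZMod 2) (Set.range b) := hm 0
    have key : ∀ v w : V, (w = v ∨ w = v + g) → w ∈ K ⊔ span (ZMod 2) (Set.range b) →
        v ∈ K ⊔ span (ZMod 2) (Set.range b) := by
      rintro v w (rfl | rfl) hw
      · exact hw
      · have := add_mem hw hg
        rwa [ht_add_add] at this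
    have hh : h ∈ K ⊔ span (ZMod 2) (Set.range b) := key _ _ eh (hm 1)
    rw [span_le]
    rintro y (hy | ⟨i, rfl⟩)
    · rcases hy with rfl | rfl
      · exact hg
      · exact hh
    · refine ht_periodic (Q := fun i => s i ∈ K ⊔ span (ZMod 2) (Set.range b))
        (show 0 < 4 by norm_num) (fun j hj => ?_) (fun j hj => ?_) i
      · interval_cases j
        · exact key _ _ e0 (hm 2)
        · exact key _ _ e1 (hm 3)
        · exact key _ _ e2 (hm 4)
        · exact key _ _ e3 (hm 5)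
      · change s (j + 4) ∈ _
        rw [L.tw]
        exact add_mem hj hh
  have hind : ∀ n < 2 ^ 6, comb b n ∈ K → n = 0 := by
    apply ht_indep
    exact L.dim.trans (Submodule.finrank_mono (sup_le le_sup_left hspan))
  set P : ℕ → Prop := fun n => n < 2 ^ 6 ∧ Pres E K (comb b n) with hP
  have cb : ∀ i : Fin 6, comb b (2 ^ (i : ℕ)) = b i := by
    intro i
    unfold comb
    rw [Finset.sum_eq_single i]
    · rw [Nat.testBit_two_pow_self]; simp
    · intro j _ hj
      rw [Nat.testBit_two_pow_of_ne (fun h => hj (Fin.ext h.symm))]; simp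
    · simp
  have b1 : comb b 1 = g := cb 0
  have b2 : comb b 2 = h' := cb 1
  have b4 : comb b 4 = t0 := cb 2
  have b8 : comb b 8 = t1 := cb 3
  have b16 : comb b 16 = t2 := cb 4
  have b32 : comb b 32 = t3 := cb 5
  have cx := comb_xor b
  have x1 : ∀ n, comb b (n ^^^ 1) = comb b n + g := fun n => by rw [cx, b1]
  -- from `PG` and `PD` to codes
  have pgc : ∀ (v : V) (n : ℕ), n < 64 → (n ^^^ 1) < 64 → Cg K g v (comb b n) → PG E K g v →
      P n ∨ P (n ^^^ 1) := by
    intro v n hn hn1 hc hv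
    rcases hv.congr hc with h1 | h1
    · exact Or.inl ⟨hn, h1⟩
    · exact Or.inr ⟨hn1, by rw [x1]; exact h1⟩
  have pdc : ∀ (v : V) (n : ℕ), n < 64 → (n ^^^ 1) < 64 → Cg K g v (comb b n) → PD E K g v →
      P n ∧ P (n ^^^ 1) := by
    intro v n hn hn1 hc hv
    have h1 := hv.congr hc
    exact ⟨⟨hn, h1.1⟩, ⟨hn1, by rw [x1]; exact h1.2⟩⟩
  have one : ∀ n, P n → ∀ k, (mask [n]).testBit k = true → P k := by
    intro n hn k hk
    rw [testBit_mask, List.mem_singleton] at hk
    exact hk ▸ hn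
  have two : ∀ n n', P n → P n' → ∀ k, (mask [n, n']).testBit k = true → P k := by
    intro n n' hn hn' k hk
    rw [testBit_mask, List.mem_cons, List.mem_singleton] at hk
    rcases hk with rfl | rfl
    · exact hn
    · exact hn'
  have clause1 : ∀ (v : V) (n : ℕ), n < 64 → (n ^^^ 1) < 64 → Cg K g v (comb b n) →
      PG E K g v → ∃ a ∈ [mask [n], mask [n ^^^ 1]], ∀ k, a.testBit k = true → P k := by
    intro v n hn hn1 hc hv
    rcases pgc v n hn hn1 hc hv with h1 | h1
    · exact ⟨_, List.mem_cons_self, one _ h1⟩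
    · exact ⟨_, List.mem_cons_of_mem _ List.mem_cons_self, one _ h1⟩
  -- congruences of the points
  have d6 : Cg K g (s 0 + h) (comb b 6) := by
    have : comb b 6 = t0 + h' := (cx 4 2).trans (by rw [b4, b2])
    rw [this]; exact c0.add ch
  have d10 : Cg K g (s 1 + h) (comb b 10) := by
    have : comb b 10 = t1 + h' := by rw [show (10 : ℕ) = 8 ^^^ 2 by decide, cx, b8, b2]
    rw [this]; exact c1.add ch
  have d18 : Cg K g (s 2 + h) (comb b 18) := by
    have : comb b 18 = t2 + h' := by rw [show (18 : ℕ) = 16 ^^^ 2 by decide, cx, b16, b2]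
    rw [this]; exact c2.add ch
  have d34 : Cg K g (s 3 + h) (comb b 34) := by
    have : comb b 34 = t3 + h' := by rw [show (34 : ℕ) = 32 ^^^ 2 by decide, cx, b32, b2]
    rw [this]; exact c3.add ch
  have d12 : Cg K g (s 0 + s 1) (comb b 12) := by
    have : comb b 12 = t0 + t1 := by rw [show (12 : ℕ) = 4 ^^^ 8 by decide, cx, b4, b8]
    rw [this]; exact c0.add c1
  have d24 : Cg K g (s 1 + s 2) (comb b 24) := by
    have : comb b 24 = t1 + t2 := by rw [show (24 : ℕ) = 8 ^^^ 16 by decide, cx, b8, b16]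
    rw [this]; exact c1.add c2
  have d48 : Cg K g (s 2 + s 3) (comb b 48) := by
    have : comb b 48 = t2 + t3 := by rw [show (48 : ℕ) = 16 ^^^ 32 by decide, cx, b16, b32]
    rw [this]; exact c2.add c3
  have d38 : Cg K g (s 3 + s 4) (comb b 38) := by
    have : comb b 38 = t3 + (t0 + h') := by
      rw [show (38 : ℕ) = 32 ^^^ (4 ^^^ 2) by decide, cx, cx, b32, b4, b2]
    rw [this, w4]; exact c3.add (c0.add ch)
  have d4 : Cg K g (s 0) (comb b 4) := by rw [b4]; exact c0
  have d8 : Cg K g (s 1) (comb b 8) := by rw [b8]; exact c1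
  have d16 : Cg K g (s 2) (comb b 16) := by rw [b16]; exact c2
  have d32 : Cg K g (s 3) (comb b 32) := by rw [b32]; exact c3
  have hA : ∀ n, hitM.testBit n = true → P n := by
    intro n hn
    rw [hitM_eq, testBit_mask] at hn
    simp only [List.mem_cons, List.not_mem_nil, or_false] at hn
    rcases hn with rfl | rfl | rfl | rfl | rfl | rfl
    · exact ⟨by norm_num, by rw [b1]; exact L.pg⟩
    · exact ⟨by norm_num, by rw [b2]; exact hh'⟩
    · exact ⟨by norm_num, by rw [b4]; exact ht0⟩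
    · exact ⟨by norm_num, by rw [b8]; exact ht1⟩
    · exact ⟨by norm_num, by rw [b16]; exact ht2⟩
    · exact ⟨by norm_num, by rw [b32]; exact ht3⟩
  have hB : ∀ cl ∈ hitCls, ∃ a ∈ cl, ∀ n, a.testBit n = true → P n := by
    intro cl hcl
    rw [hitCls_eq] at hcl
    simp only [List.mem_cons, List.not_mem_nil, or_false] at hcl
    rcases hcl with rfl | rfl | rfl | rfl | rfl | rfl | rfl | rfl | rfl | rfl | rfl | rfl
    · exact clause1 _ 6 (by norm_num) (by decide) d6 (by rw [← w4]; exact L.ps 4)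
    · exact clause1 _ 10 (by norm_num) (by decide) d10 (by rw [← w5]; exact L.ps 5)
    · exact clause1 _ 18 (by norm_num) (by decide) d18 (by rw [← w6]; exact L.ps 6)
    · exact clause1 _ 34 (by norm_num) (by decide) d34 (by rw [← w7]; exact L.ps 7)
    · exact clause1 _ 12 (by norm_num) (by decide) d12 (L.pr 0)
    · exact clause1 _ 24 (by norm_num) (by decide) d24 (L.pr 1)
    · exact clause1 _ 48 (by norm_num) (by decide) d48 (L.pr 2)
    · exact clause1 _ 38 (by norm_num) (by decide) d38 (L.pr 3)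
    · -- cocircuit with centre `s 4 = s 0 + h`
      have f1 : s 4 + h = s 0 := by rw [w4, ht_add_add]
      have f2 : s 4 + s 5 = s 0 + s 1 := by
        rw [w4, w5]
        have : s 0 + h + (s 1 + h) = s 0 + s 1 + (h + h) := by abel
        rw [this, mf_add_self, add_zero]
      have hh := L.hit 3
      unfold HitAt at hh
      norm_num at hh
      rw [f1, f2] at hh
      rcases hh with h1 | h1 | h1 | h1
      · obtain ⟨p1, p2⟩ := pdc _ 6 (by norm_num) (by decide) (w4 ▸ d6) h1
        exact ⟨mask [6, 7], by simp, two _ _ p1 p2⟩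
      · obtain ⟨p1, p2⟩ := pdc _ 4 (by norm_num) (by decide) d4 h1
        exact ⟨mask [4, 5], by simp, two _ _ p1 p2⟩
      · obtain ⟨p1, p2⟩ := pdc _ 38 (by norm_num) (by decide) d38 h1
        exact ⟨mask [38, 39], by simp, two _ _ p1 p2⟩
      · obtain ⟨p1, p2⟩ := pdc _ 12 (by norm_num) (by decide) d12 h1
        exact ⟨mask [12, 13], by simp, two _ _ p1 p2⟩
    · have hh := L.hit 0
      unfold HitAt at hh
      norm_num at hh
      rcases hh with h1 | h1 | h1 | h1
      · obtain ⟨p1, p2⟩ := pdc _ 8 (by norm_num) (by decide) d8 h1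
        exact ⟨mask [8, 9], by simp, two _ _ p1 p2⟩
      · obtain ⟨p1, p2⟩ := pdc _ 10 (by norm_num) (by decide) d10 h1
        exact ⟨mask [10, 11], by simp, two _ _ p1 p2⟩
      · obtain ⟨p1, p2⟩ := pdc _ 12 (by norm_num) (by decide) d12 h1
        exact ⟨mask [12, 13], by simp, two _ _ p1 p2⟩
      · obtain ⟨p1, p2⟩ := pdc _ 24 (by norm_num) (by decide) d24 h1
        exact ⟨mask [24, 25], by simp, two _ _ p1 p2⟩
    · have hh := L.hit 1
      unfold HitAt at hh
      norm_num at hh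
      rcases hh with h1 | h1 | h1 | h1
      · obtain ⟨p1, p2⟩ := pdc _ 16 (by norm_num) (by decide) d16 h1
        exact ⟨mask [16, 17], by simp, two _ _ p1 p2⟩
      · obtain ⟨p1, p2⟩ := pdc _ 18 (by norm_num) (by decide) d18 h1
        exact ⟨mask [18, 19], by simp, two _ _ p1 p2⟩
      · obtain ⟨p1, p2⟩ := pdc _ 24 (by norm_num) (by decide) d24 h1
        exact ⟨mask [24, 25], by simp, two _ _ p1 p2⟩
      · obtain ⟨p1, p2⟩ := pdc _ 48 (by norm_num) (by decide) d48 h1
        exact ⟨mask [48, 49], by simp, two _ _ p1 p2⟩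
    · have hh := L.hit 2
      unfold HitAt at hh
      norm_num at hh
      rcases hh with h1 | h1 | h1 | h1
      · obtain ⟨p1, p2⟩ := pdc _ 32 (by norm_num) (by decide) d32 h1
        exact ⟨mask [32, 33], by simp, two _ _ p1 p2⟩
      · obtain ⟨p1, p2⟩ := pdc _ 34 (by norm_num) (by decide) d34 h1
        exact ⟨mask [34, 35], by simp, two _ _ p1 p2⟩
      · obtain ⟨p1, p2⟩ := pdc _ 48 (by norm_num) (by decide) d48 h1
        exact ⟨mask [48, 49], by simp, two _ _ p1 p2⟩
      · obtain ⟨p1, p2⟩ := pdc _ 38 (by norm_num) (by decide) d38 h1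
        exact ⟨mask [38, 39], by simp, two _ _ p1 p2⟩
  obtain ⟨M', ⟨C, q0, q1, q2, q3, hcert⟩, hM'⟩ := hitTree.sound P hitM hitCls hitTree_chk hA hB
  exact hasK5_of_cert b E K L.gen hind M' hM' C q0 q1 q2 q3 hcert

/-- the HIT lemma in the form of `LiftD` -/
theorem ht_main [FiniteDimensional (ZMod 2) V] {E : Set V} {g h : V} (n : ℕ) :
    ∀ (K : Submodule (ZMod 2) V) (s : ℕ → V), LiftD E K g h s (n + 4) → HasK5 E := by
  induction n with
  | zero => intro K s L; exact ht_base L
  | succ n ih =>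
    intro K s L
    by_cases hall : ∀ i, PD E K g (s i + s (i + 1))
    · obtain ⟨K', s', L'⟩ := LiftD.step (n := n + 4) L (by omega) (Or.inr (hall 0))
      exact ih K' s' L'
    · push Not at hall
      obtain ⟨i, hi⟩ := hall
      have L1 := L.rotate (by omega) (i + 1)
      obtain ⟨K', s', L'⟩ := LiftD.step (n := n + 4) L1 (by omega) (Or.inl (by
        have e1 : s (n + 4 + (i + 1)) = s i + h := by
          rw [show n + 4 + (i + 1) = i + (n + 1 + 4) by omega, L.tw]
        have e2 : s (n + 4 + 1 + (i + 1)) = s (i + 1) + h := by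
          rw [show n + 4 + 1 + (i + 1) = i + 1 + (n + 1 + 4) by omega, L.tw]
        have e3 : s i + h + (s (i + 1) + h) = s i + s (i + 1) := by
          have : s i + h + (s (i + 1) + h) = s i + s (i + 1) + (h + h) := by abel
          rw [this, mf_add_self, add_zero]
        rw [e1, e2, e3]
        exact hi))
      exact ih K' s' L'

end Pool.Agent.WW

end

section

/-!
Statements for the lemma L4: coextensions of `Delta` by an element of a cocircuit of rank four.
The configuration is considered modulo a contracted subspace `K`.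
-/

namespace Pool.Agent.WW

open Submodule Module

section Defs

variable {V : Type*} [AddCommGroup V] [Module (ZMod 2) V]

/-- the points of `Delta` with hub `h` and spokes `s` -/
def DPt (h : V) (s : ℕ → V) (v : V) : Prop :=
  v = h ∨ (∃ i, v = s i) ∨ ∃ i, v = s i + s (i + 1)

/-- modulo `K`, the set `E` contains `g`, all points of `Delta` outside `Γ`, and for each point
`v` of `Delta` in `Γ` one of `v`, `v + g`; the shifted points `v` (those with `v + g` present) in
`Γ` span `Γ`, which has dimension three modulo `K` -/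
structure CoD (E : Set V) (K Γ : Submodule (ZMod 2) V) (g h : V) (s : ℕ → V) (n : ℕ) : Prop where
  gen : Gen E K
  pg : Pres E K g
  tw : ∀ i, s (i + n) = s i + h
  dim : finrank (ZMod 2) K + (n + 2) ≤
    finrank (ZMod 2) ↥(K ⊔ span (ZMod 2) ({g, h} ∪ Set.range s))
  KG : K ≤ Γ
  GH : Γ ≤ K ⊔ span (ZMod 2) (insert h (Set.range s))
  fr : finrank (ZMod 2) Γ = finrank (ZMod 2) K + 3
  p1 : ∀ v, DPt h s v → Pres E K v ∨ (v ∈ Γ ∧ Pres E K (v + g))
  p2 : Γ ≤ K ⊔ span (ZMod 2) {v | DPt h s v ∧ v ∈ Γ ∧ Pres E K (v + g)}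

/-- the shifted points of `Delta` in `Γ` are among `x`, `y`, `z` -/
def Sh3 (E : Set V) (K Γ : Submodule (ZMod 2) V) (g h : V) (s : ℕ → V) (x y z : V) : Prop :=
  ∀ v, DPt h s v → v ∈ Γ → Pres E K (v + g) → v = x ∨ v = y ∨ v = z

/-- the possible configurations without `M(K5)`-minor, at position `i` -/
def ShapeAt (E : Set V) (K Γ : Submodule (ZMod 2) V) (g h : V) (s : ℕ → V) (i : ℕ) : Prop :=
  (Sh3 E K Γ g h s (s i) (s i + h) (s i + s (i + 1)) ∧ ¬ Pres E K (s i + s (i + 1))) ∨
  (Sh3 E K Γ g h s (s (i + 1)) (s (i + 1) + h) (s i + s (i + 1)) ∧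
    ¬ Pres E K (s i + s (i + 1))) ∨
  (Sh3 E K Γ g h s (s (i + 1)) (s i + s (i + 1)) (s (i + 1) + s (i + 2)) ∧
    ((¬ Pres E K (s (i + 1)) ∧ ¬ Pres E K (s i + s (i + 1))) ∨
      (¬ Pres E K (s (i + 1)) ∧ ¬ Pres E K (s (i + 1) + s (i + 2))) ∨
      (¬ Pres E K (s i + s (i + 1)) ∧ ¬ Pres E K (s (i + 1) + s (i + 2))))) ∨
  (Sh3 E K Γ g h s (s i) (s (i + 1) + h) (s (i + 1) + s (i + 2)) ∧
    ¬ Pres E K (s (i + 1) + h) ∧ ¬ Pres E K (s (i + 1) + s (i + 2))) ∨
  (Sh3 E K Γ g h s (s (i + 2)) (s (i + 1) + h) (s i + s (i + 1)) ∧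
    ¬ Pres E K (s (i + 1) + h) ∧ ¬ Pres E K (s i + s (i + 1))) ∨
  (Sh3 E K Γ g h s h (s i + s (i + 1)) (s (i + 1) + s (i + 2)) ∧
    ¬ Pres E K (s i + s (i + 1)) ∧ ¬ Pres E K (s (i + 1) + s (i + 2)))

/-- coordinate functionals: `f k` vanishes on `K`, `g`, `h` and is `1` at the spokes of
position `k` only -/
def Fun (K : Submodule (ZMod 2) V) (g h : V) (s : ℕ → V) (n : ℕ)
    (f : ℕ → V →ₗ[ZMod 2] ZMod 2) : Prop :=
  ∀ k, (∀ v ∈ K, f k v = 0) ∧ f k g = 0 ∧ f k h = 0 ∧
    ∀ i, f k (s i) = if i % n = k % n then 1 else 0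

/-- the spokes after the contraction of the last rim -/
def redS (n : ℕ) (h : V) (s : ℕ → V) : ℕ → V :=
  fun i => s (i % n) + ((i / n : ℕ) : ZMod 2) • h

/-- the lemma for `n` spokes -/
def L4At (E : Set V) (g h : V) (n : ℕ) : Prop :=
  ∀ (K Γ : Submodule (ZMod 2) V) (s : ℕ → V), CoD E K Γ g h s n →
    HasK5 E ∨ ∃ i, ShapeAt E K Γ g h s i

end Defs

universe u

/-- LA: five spokes (table) -/
def KLBase : Prop := ∀ (V : Type u) [AddCommGroup V] [Module (ZMod 2) V]
  [FiniteDimensional (ZMod 2) V] (E : Set V) (g h : V), L4At E g h 5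

/-- LB: contraction of the last rim -/
def KLStep : Prop := ∀ (V : Type u) [AddCommGroup V] [Module (ZMod 2) V]
  [FiniteDimensional (ZMod 2) V] (E : Set V) (K Γ : Submodule (ZMod 2) V) (g h : V)
  (s : ℕ → V) (n : ℕ), 2 ≤ n → CoD E K Γ g h s (n + 1) → s n + s (n + 1) ∉ Γ →
  CoD E (K ⊔ span (ZMod 2) {s n + s (n + 1)}) (Γ ⊔ span (ZMod 2) {s n + s (n + 1)}) g h
    (redS n h s) n

/-- LC: rotation, coordinate functionals, and independence modulo `K` -/
def KLFun : Prop := ∀ (V : Type u) [AddCommGroup V] [Module (ZMod 2) V]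
  [FiniteDimensional (ZMod 2) V] (E : Set V) (K Γ : Submodule (ZMod 2) V) (g h : V)
  (s : ℕ → V) (n : ℕ), 1 ≤ n → CoD E K Γ g h s n →
  (∀ k, CoD E K Γ g h (fun i => s (i + k)) n ∧
    ∀ i, ShapeAt E K Γ g h (fun i => s (i + k)) i → ShapeAt E K Γ g h s (i + k)) ∧
  (∃ f : ℕ → V →ₗ[ZMod 2] ZMod 2, Fun K g h s n f) ∧
  (∀ v ∈ span (ZMod 2) (insert h (Set.range s)), v ∈ K → v = 0)

/-- LD: two adjacent positions are not touched by `Γ` -/
def KLTouch : Prop := ∀ (V : Type u) [AddCommGroup V] [Module (ZMod 2) V]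
  [FiniteDimensional (ZMod 2) V] (E : Set V) (K Γ : Submodule (ZMod 2) V) (g h : V)
  (s : ℕ → V) (n : ℕ) (f : ℕ → V →ₗ[ZMod 2] ZMod 2), 5 ≤ n → CoD E K Γ g h s (n + 1) →
  Fun K g h s (n + 1) f → s n + s (n + 1) ∉ Γ → L4At E g h n →
  HasK5 E ∨ ∃ k, ∀ v ∈ Γ, f k v = 0 ∧ f (k + 1) v = 0

/-- LE: the induction step if the positions `n` and `n + 1` are not touched by `Γ` -/
def KLTransfer : Prop := ∀ (V : Type u) [AddCommGroup V] [Module (ZMod 2) V]
  [FiniteDimensional (ZMod 2) V] (E : Set V) (K Γ : Submodule (ZMod 2) V) (g h : V)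
  (s : ℕ → V) (n : ℕ) (f : ℕ → V →ₗ[ZMod 2] ZMod 2), 5 ≤ n → CoD E K Γ g h s (n + 1) →
  Fun K g h s (n + 1) f → (∀ v ∈ Γ, f n v = 0 ∧ f (n + 1) v = 0) → L4At E g h n →
  HasK5 E ∨ ∃ i, ShapeAt E K Γ g h s i

/-- LF: all numbers of spokes -/
def KLAll : Prop := ∀ (V : Type u) [AddCommGroup V] [Module (ZMod 2) V]
  [FiniteDimensional (ZMod 2) V] (E : Set V) (g h : V) (n : ℕ), 5 ≤ n → L4At E g h n

/-- LG: the configuration of L4 -/
def KLConf : Prop := ∀ (V : Type u) [AddCommGroup V] [Module (ZMod 2) V]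
  [FiniteDimensional (ZMod 2) V] [DecidableEq V] (W : Type u) [AddCommGroup W]
  [Module (ZMod 2) W] [FiniteDimensional (ZMod 2) W] [DecidableEq W] (E : Finset V)
  (π : V →ₗ[ZMod 2] W) (g : V) (H : Submodule (ZMod 2) V) (n : ℕ), Function.Surjective π →
  (∀ v, π v = 0 ↔ v = 0 ∨ v = g) → (0 : V) ∉ E → finrank (ZMod 2) H + 1 = finrank (ZMod 2) V →
  finrank (ZMod 2) ↥(span (ZMod 2) ((E : Set V) \ (H : Set V))) = 4 → g ∈ E → g ∉ H →
  1 ≤ n → IsDel n (contr π E : Set W) →
  ∃ (h : V) (s : ℕ → V), CoD (E : Set V) ⊥ (span (ZMod 2) ((E : Set V) \ (H : Set V)) ⊓ H)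
      g h s n ∧ finrank (ZMod 2) V = n + 2 ∧ h ∈ H ∧ (∀ i, s i ∈ H) ∧
    (∀ v ∈ E, v ∈ H → DPt h s v) ∧ (∀ v ∈ E, v ∉ H → v = g ∨ DPt h s (v + g))

/-- LH: vertical 4-connectivity leaves the first two shapes -/
def KLShape : Prop := ∀ (V : Type u) [AddCommGroup V] [Module (ZMod 2) V]
  [FiniteDimensional (ZMod 2) V] (E : Set V) (H : Submodule (ZMod 2) V) (g h : V)
  (s : ℕ → V) (n : ℕ), 5 ≤ n → Good E → finrank (ZMod 2) H + 1 = finrank (ZMod 2) V →
  g ∈ E → g ∉ H → CoD E ⊥ (span (ZMod 2) (E \ (H : Set V)) ⊓ H) g h s n →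
  finrank (ZMod 2) V = n + 2 → h ∈ H → (∀ i, s i ∈ H) → (∀ v ∈ E, v ∈ H → DPt h s v) →
  (∀ v ∈ E, v ∉ H → v = g ∨ DPt h s (v + g)) →
  ShapeAt E ⊥ (span (ZMod 2) (E \ (H : Set V)) ⊓ H) g h s 0 →
  s 0 + s 1 ∉ E ∧ (∀ v, DPt h s v → v ≠ s 0 + s 1 → v ∈ E) ∧
  ((∀ v, v ∈ E ∧ v ∉ H ↔ v = g ∨ v = s 0 + g ∨ v = s 0 + h + g ∨ v = s 0 + s 1 + g) ∨
    (∀ v, v ∈ E ∧ v ∉ H ↔ v = g ∨ v = s 1 + g ∨ v = s 1 + h + g ∨ v = s 0 + s 1 + g))

/-- LI: `Delta` with one more spoke -/
def KLIns : Prop := ∀ (V : Type u) [AddCommGroup V] [Module (ZMod 2) V]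
  [FiniteDimensional (ZMod 2) V] (E : Set V) (H Γ : Submodule (ZMod 2) V) (g h : V)
  (s : ℕ → V) (n : ℕ), 2 ≤ n → CoD E ⊥ Γ g h s n →
  g ∉ H → finrank (ZMod 2) V = n + 2 → h ∈ H → (∀ i, s i ∈ H) →
  (∀ v ∈ E, v ∈ H → DPt h s v) →
  s 0 + s 1 ∉ E → (∀ v, DPt h s v → v ≠ s 0 + s 1 → v ∈ E) →
  ((∀ v, v ∈ E ∧ v ∉ H ↔ v = g ∨ v = s 0 + g ∨ v = s 0 + h + g ∨ v = s 0 + s 1 + g) ∨
    (∀ v, v ∈ E ∧ v ∉ H ↔ v = g ∨ v = s 1 + g ∨ v = s 1 + h + g ∨ v = s 0 + s 1 + g)) →
  IsDel (n + 1) E

end Pool.Agent.WW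

end

section

/-!
F1: crossing of two away sides, first case.
-/

namespace Pool.Agent.WW

open Submodule Module

universe u

theorem kCrossA (h1 : ClaimCovDim.{u}) : KCrossA.{u} := by
  intro V _ _ _ E P G H T T' g hG hP hA1 hA2 hgE hgH hgT hgT' hne
  obtain ⟨-, hspan, hsep, -⟩ := (good_iff_sepGe E).1 hG
  obtain ⟨hc1, hg1, hPH⟩ := hA1
  obtain ⟨hc2, hg2, hPT⟩ := hA2
  have d1 := h1 V E G H hspan hc1
  have d2 := h1 V E T T' hspan hc2
  have m1 := Submodule.finrank_sup_add_finrank_inf_eq G T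
  have m2 := Submodule.finrank_sup_add_finrank_inf_eq H T'
  have hcov1 : Cov E (G ⊓ T) (H ⊔ T') := by
    refine ⟨?_, hne, ?_⟩
    · intro h
      apply hc1.1
      rw [eq_top_iff, ← h]
      exact inf_le_left
    · intro x hx
      rcases hc1.2.2 x hx with h | h
      · rcases hc2.2.2 x hx with h' | h'
        · exact Or.inl ⟨h, h'⟩
        · exact Or.inr (mem_sup_right h')
      · exact Or.inr (mem_sup_left h)
  have d3 := h1 V E (G ⊓ T) (H ⊔ T') hspan hcov1
  have k1 : 3 ≤ finrank (ZMod 2) ↥(G ⊓ T ⊓ (H ⊔ T')) :=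
    hsep _ _ hcov1.1 hcov1.2.1 hcov1.2.2
  have k2 : 3 + finrank (ZMod 2) V ≤
      finrank (ZMod 2) ↥(G ⊔ T) + finrank (ZMod 2) ↥(H ⊓ T') := by
    by_cases htop : G ⊔ T = ⊤
    · have h5 : finrank (ZMod 2) P ≤ finrank (ZMod 2) ↥(H ⊓ T') :=
        Submodule.finrank_mono (le_inf hPH hPT)
      have h6 : finrank (ZMod 2) ↥(G ⊔ T) = finrank (ZMod 2) V := by
        rw [htop]
        exact finrank_top (ZMod 2) V
      rw [hP.1] at h5
      omega
    · have hcov2 : Cov E (G ⊔ T) (H ⊓ T') := by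
        refine ⟨htop, ?_, ?_⟩
        · intro h
          apply hc1.2.1
          rw [eq_top_iff, ← h]
          exact inf_le_left
        · intro x hx
          rcases hc1.2.2 x hx with h | h
          · exact Or.inl (mem_sup_left h)
          · rcases hc2.2.2 x hx with h' | h'
            · exact Or.inl (mem_sup_right h')
            · exact Or.inr ⟨h, h'⟩
      have d4 := h1 V E (G ⊔ T) (H ⊓ T') hspan hcov2
      have k3 := hsep _ _ hcov2.1 hcov2.2.1 hcov2.2.2
      omega
  have e1 := d1.2.1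
  have e2 := d2.2.1
  have e3 := d3.2.1
  have hk : finrank (ZMod 2) ↥(G ⊓ T ⊓ (H ⊔ T')) = 3 := by omega
  refine ⟨?_, ?_, ?_, hk⟩
  · refine lt_of_le_of_ne inf_le_left ?_
    intro h
    rw [h] at e3 m1
    rw [h] at hk
    have h7 : finrank (ZMod 2) H = finrank (ZMod 2) ↥(H ⊔ T') := by omega
    have h8 : H = H ⊔ T' := Submodule.eq_of_le_of_finrank_eq le_sup_left h7
    apply hgH
    rw [h8]
    exact mem_sup_right hgT'
  · refine lt_of_le_of_ne inf_le_left ?_
    intro h
    apply hne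
    rw [eq_top_iff, ← d1.1]
    exact sup_le (by rw [← h]; exact inf_le_right) le_sup_left
  · intro x hx hxG
    rcases hc2.2.2 x hx with h | h
    · exact Or.inl h
    · exact Or.inr (mem_sup_right h)

end Pool.Agent.WW

end

section

/-!
Crossing of two away sides, second case (`KCrossB`).
-/

namespace Pool.Agent.WW

open Submodule Module

universe u

theorem kCrossB (h1 : ClaimCovDim.{u}) : KCrossB.{u} := by
  intro V _ _ _ E P G H T T' g hE hP hGH hTT hgE hgH hgT hgT' hHT'
  obtain ⟨h0, hsp, hsep, hfree⟩ := (good_iff_sepGe E).1 hE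
  obtain ⟨hc1, hd1, hPH⟩ := hGH
  obtain ⟨hc2, hd2, hPT'⟩ := hTT
  obtain ⟨-, e1, -, -⟩ := h1 V E G H hsp hc1
  obtain ⟨-, e2, -, s2⟩ := h1 V E T T' hsp hc2
  have s2' := s2 hsep hd2
  have hPd : finrank (ZMod 2) P = 3 := hP.1
  have m1 := Submodule.finrank_sup_add_finrank_inf_eq G T
  have m2 := Submodule.finrank_sup_add_finrank_inf_eq H T'
  have htop : finrank (ZMod 2) ↥(⊤ : Submodule (ZMod 2) V) = finrank (ZMod 2) V := finrank_top _ _
  -- the fourth statement
  have h4 : g ∈ span (ZMod 2) {x : V | x ∈ E ∧ x ∉ H ∧ x ∉ T'} ⊔ H := by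
    have hle : span (ZMod 2) (E \ (T' : Set V)) ≤
        span (ZMod 2) {x : V | x ∈ E ∧ x ∉ H ∧ x ∉ T'} ⊔ H := by
      refine span_le.2 ?_
      rintro x ⟨hx, hxT⟩
      by_cases hxH : x ∈ H
      · exact mem_sup_right hxH
      · exact mem_sup_left (subset_span ⟨hx, hxH, hxT⟩)
    rw [s2'] at hle
    exact hle hgT
  have h3 : ∃ x ∈ E, x ∉ H ∧ x ∉ T' := by
    by_contra hne
    have hempty : {x : V | x ∈ E ∧ x ∉ H ∧ x ∉ T'} = ∅ := by
      ext x
      simp only [Set.mem_setOf_eq, Set.mem_empty_iff_false, iff_false]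
      rintro ⟨ha, hb, hc⟩
      exact hne ⟨x, ha, hb, hc⟩
    rw [hempty, span_empty, bot_sup_eq] at h4
    exact hgH h4
  have h2 : G ⊓ T' ≠ G := by
    intro hGT
    obtain ⟨x, hxE, hxH, hxT⟩ := h3
    have hle : G ≤ T' := inf_eq_left.1 hGT
    exact hxT (hle ((hc1.2.2 x hxE).resolve_right hxH))
  -- the pair `G ⊔ T`, `H ⊓ T'`
  have hHne : ∀ S : Submodule (ZMod 2) V, H ⊓ S ≠ ⊤ := by
    intro S hS
    exact hc1.2.1 (eq_top_iff.2 (hS ▸ inf_le_left))
  have hGne : ∀ S : Submodule (ZMod 2) V, G ⊓ S ≠ ⊤ := by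
    intro S hS
    exact hc1.1 (eq_top_iff.2 (hS ▸ inf_le_left))
  have hPHT : P ≤ H ⊓ T' := le_inf hPH hPT'
  have hcov2 : ∀ x ∈ E, x ∈ G ⊔ T ∨ x ∈ H ⊓ T' := by
    intro x hx
    rcases hc1.2.2 x hx with h | h
    · exact Or.inl (mem_sup_left h)
    · rcases hc2.2.2 x hx with h' | h'
      · exact Or.inl (mem_sup_right h')
      · exact Or.inr ⟨h, h'⟩
  have h15 : finrank (ZMod 2) ↥(G ⊓ T) ≤ 3 ∧
      (finrank (ZMod 2) ↥(G ⊓ T) = 3 → G ⊔ T = ⊤ ∨ Away E P (G ⊔ T) (H ⊓ T')) := by
    rw [hHT', htop] at m2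
    by_cases hGT : G ⊔ T = ⊤
    · have hmono := Submodule.finrank_mono hPHT
      rw [hGT, htop] at m1
      refine ⟨by omega, fun _ => Or.inl hGT⟩
    · have hC : Cov E (G ⊔ T) (H ⊓ T') := ⟨hGT, hHne _, hcov2⟩
      have hk := hsep _ _ hC.1 hC.2.1 hC.2.2
      obtain ⟨-, e3, -, -⟩ := h1 V E _ _ hsp hC
      refine ⟨by omega, fun h => Or.inr ⟨hC, by omega, hPHT⟩⟩
  refine ⟨h15.1, h2, h3, h4, h15.2, ?_⟩
  intro hGT' h4'
  have m3 := Submodule.finrank_sup_add_finrank_inf_eq G T'
  have m4 := Submodule.finrank_sup_add_finrank_inf_eq H T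
  have hcov4 : ∀ x ∈ E, x ∈ G ⊔ T' ∨ x ∈ H ⊓ T := by
    intro x hx
    rcases hc1.2.2 x hx with h | h
    · exact Or.inl (mem_sup_left h)
    · rcases hc2.2.2 x hx with h' | h'
      · exact Or.inr ⟨h, h'⟩
      · exact Or.inl (mem_sup_right h')
  have hcov3 : ∀ x ∈ E, x ∈ G ⊓ T' ∨ x ∈ H ⊔ T := by
    intro x hx
    rcases hc1.2.2 x hx with h | h
    · rcases hc2.2.2 x hx with h' | h'
      · exact Or.inr (mem_sup_right h')
      · exact Or.inl ⟨h, h'⟩
    · exact Or.inr (mem_sup_left h)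
  have hC4 : Cov E (G ⊔ T') (H ⊓ T) := ⟨hGT', hHne _, hcov4⟩
  have hk4 := hsep _ _ hC4.1 hC4.2.1 hC4.2.2
  obtain ⟨-, e4, -, -⟩ := h1 V E _ _ hsp hC4
  have hHT : H ⊔ T ≠ ⊤ := by
    intro h
    rw [h, htop] at m4
    omega
  have hC3 : Cov E (G ⊓ T') (H ⊔ T) := ⟨hGne _, hHT, hcov3⟩
  have hk3 := hsep _ _ hC3.1 hC3.2.1 hC3.2.2
  obtain ⟨-, e3, -, s3⟩ := h1 V E _ _ hsp hC3
  have s3' := s3 hsep (by omega)
  rw [← s3']
  refine span_mono ?_
  rintro x ⟨hx, hxn⟩
  exact ⟨hx, fun h => hxn (mem_sup_left h), fun h => hxn (mem_sup_right h)⟩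

end Pool.Agent.WW

end

section

/-!
D7: the cocircuits of rank four at a spoke of a set `Delta`.
-/

namespace Pool.Agent.WW

open Submodule Module

universe u

section DelC4

variable {V : Type*} [AddCommGroup V] [Module (ZMod 2) V]

private theorem delC4_spoke {n : ℕ} {h : V} {s : ℕ → V} (hn : 3 ≤ n)
    (hper : ∀ i, s (i + n) = s i + h) (H : Submodule (ZMod 2) V) (hh : h ∈ H)
    (hs : ∀ i, 1 ≤ i → i < n → s i ∈ H) (k : ℕ) :
    s k ∈ H ∨ s k = s 0 ∨ s k = s 0 + h := by
  induction k using Nat.strong_induction_on with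
  | _ k ih =>
    by_cases hk : k < n
    · by_cases hk0 : k = 0
      · right; left; rw [hk0]
      · left; exact hs k (by omega) hk
    · have h1 : s k = s (k - n) + h := by
        rw [← hper (k - n)]; congr 1; omega
      rcases ih (k - n) (by omega) with h2 | h2 | h2
      · left; rw [h1]; exact H.add_mem h2 hh
      · right; right; rw [h1, h2]
      · right; left; rw [h1, h2, add_assoc, ZModModule.add_self, add_zero]

private theorem delC4_rim {n : ℕ} {h : V} {s : ℕ → V} (hn : 3 ≤ n)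
    (hper : ∀ i, s (i + n) = s i + h) (H : Submodule (ZMod 2) V)
    (hs : ∀ i, 1 ≤ i → i < n → s i ∈ H) (k : ℕ) :
    s k + s (k + 1) ∈ H ∨ s k + s (k + 1) = s 0 + s 1 ∨
      s k + s (k + 1) = s (n - 1) + s n := by
  induction k using Nat.strong_induction_on with
  | _ k ih =>
    by_cases hk : k < n
    · by_cases hk0 : k = 0
      · right; left; rw [hk0]
      · by_cases hk1 : k = n - 1
        · right; right; rw [hk1]; congr 2; omega
        · left; exact H.add_mem (hs k (by omega) hk) (hs (k + 1) (by omega) (by omega))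
    · have h1 : s k = s (k - n) + h := by
        rw [← hper (k - n)]; congr 1; omega
      have h2 : s (k + 1) = s (k - n + 1) + h := by
        rw [← hper (k - n + 1)]; congr 1; omega
      have h3 : s k + s (k + 1) = s (k - n) + s (k - n + 1) := by
        rw [h1, h2]
        have : s (k - n) + h + (s (k - n + 1) + h) = s (k - n) + s (k - n + 1) + (h + h) := by
          abel
        rw [this, ZModModule.add_self, add_zero]
      rw [h3]
      exact ih (k - n) (by omega)

end DelC4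

theorem kDelC4 : KDelC4.{u} := by
  classical
  intro V _ _ _ n S hn hS hno
  obtain ⟨h, s, ⟨hper, -, hfin⟩, hDel⟩ := hS
  set f : Fin n → V := fun i => if (i : ℕ) = 0 then h else s i with hf
  set H : Submodule (ZMod 2) V := span (ZMod 2) (Set.range f) with hH
  have hHne : H ≠ ⊤ := by
    intro htop
    have h1 : finrank (ZMod 2) H ≤ n := by
      have := finrank_range_le_card (R := ZMod 2) f
      rwa [Fintype.card_fin] at this
    rw [htop, finrank_top, hfin] at h1
    omega
  have hh : h ∈ H := by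
    apply subset_span
    exact ⟨⟨0, by omega⟩, by simp [hf]⟩
  have hs : ∀ i, 1 ≤ i → i < n → s i ∈ H := by
    intro i hi1 hin
    apply subset_span
    refine ⟨⟨i, hin⟩, ?_⟩
    simp only [hf]
    rw [if_neg (by omega)]
  have hsub : S \ (H : Set V) ⊆
      (({s 0, s 0 + h, s 0 + s 1, s (n - 1) + s n} : Finset V) : Set V) := by
    rintro v ⟨hv, hvH⟩
    simp only [Finset.coe_insert, Finset.coe_singleton, Set.mem_insert_iff,
      Set.mem_singleton_iff]
    rcases (hDel v).1 hv with rfl | ⟨i, rfl⟩ | ⟨i, rfl⟩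
    · exact absurd hh hvH
    · rcases delC4_spoke hn hper H hh hs i with h1 | h1 | h1
      · exact absurd h1 hvH
      · exact Or.inl h1
      · exact Or.inr (Or.inl h1)
    · rcases delC4_rim hn hper H hs i with h1 | h1 | h1
      · exact absurd h1 hvH
      · exact Or.inr (Or.inr (Or.inl h1))
      · exact Or.inr (Or.inr (Or.inr h1))
  have h5 := hno H hHne
  have h6 : finrank (ZMod 2) ↥(span (ZMod 2) (S \ (H : Set V))) ≤
      finrank (ZMod 2) ↥(span (ZMod 2)
        (({s 0, s 0 + h, s 0 + s 1, s (n - 1) + s n} : Finset V) : Set V)) :=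
    Submodule.finrank_mono (span_mono hsub)
  have h7 := finrank_span_finset_le_card (R := ZMod 2)
    ({s 0, s 0 + h, s 0 + s 1, s (n - 1) + s n} : Finset V)
  have h8 : ({s 0, s 0 + h, s 0 + s 1, s (n - 1) + s n} : Finset V).card ≤ 4 :=
    Finset.card_le_four
  unfold Set.finrank at h7
  omega

end Pool.Agent.WW

end

section

/-!
Item D6 of the module K4: a set `Delta` with `n` spokes has `3 n + 1` points.
-/

namespace Pool.Agent.WW

open Submodule Module

universe u

section DelCardAux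

variable {V : Type u} [AddCommGroup V] [Module (ZMod 2) V]

theorem delCard_add_self (x : V) : x + x = 0 := by
  have h : ((1 : ZMod 2) + 1) • x = 0 := by
    have : (1 : ZMod 2) + 1 = 0 := by decide
    rw [this, zero_smul]
  rwa [add_smul, one_smul] at h

theorem delCard_per {n : ℕ} {h : V} {s : ℕ → V} (hs : ∀ i, s (i + n) = s i + h) (q r : ℕ) :
    s (r + q * n) = s r + q • h := by
  induction q with
  | zero => simp
  | succ q ih =>
    have : r + (q + 1) * n = (r + q * n) + n := by ring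
    rw [this, hs, ih, succ_nsmul]
    abel

theorem delCard_nsmul (q : ℕ) (h : V) : q • h = 0 ∨ q • h = h := by
  induction q with
  | zero => left; simp
  | succ q ih =>
    rcases ih with h1 | h1
    · right
      rw [succ_nsmul, h1, zero_add]
    · left
      rw [succ_nsmul, h1, delCard_add_self]

theorem delCard_rim {n : ℕ} {h : V} {s : ℕ → V} (hs : ∀ i, s (i + n) = s i + h) (q r : ℕ) :
    s (r + q * n) + s (r + q * n + 1) = s r + s (r + 1) := by
  have h1 : r + q * n + 1 = (r + 1) + q * n := by ring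
  rw [h1, delCard_per hs, delCard_per hs]
  have h2 : s r + q • h + (s (r + 1) + q • h) = s r + s (r + 1) + (q • h + q • h) := by abel
  rw [h2, delCard_add_self, add_zero]

/-- the points of `Delta` -/
def delCardF (n : ℕ) (h : V) (s : ℕ → V) : Unit ⊕ (Fin n × Bool) ⊕ Fin n → V
  | Sum.inl _ => h
  | Sum.inr (Sum.inl (i, b)) => s i + (if b then h else 0)
  | Sum.inr (Sum.inr i) => s i + s (i + 1)

theorem delCard_range {n : ℕ} {h : V} {s : ℕ → V} {S : Set V} (hn : 3 ≤ n)
    (hs : ∀ i, s (i + n) = s i + h) (hS : DelSet h s S) : S = Set.range (delCardF n h s) := by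
  ext v
  rw [hS v]
  constructor
  · rintro (rfl | ⟨i, rfl⟩ | ⟨i, rfl⟩)
    · exact ⟨Sum.inl (), rfl⟩
    · have h1 : i = i % n + (i / n) * n := by
        have := Nat.mod_add_div i n
        rw [mul_comm (i / n) n]
        exact this.symm
      have h2 : i % n < n := Nat.mod_lt _ (by omega)
      have h3 : s i = s (i % n) + (i / n) • h := by
        conv_lhs => rw [h1]
        exact delCard_per hs _ _
      rcases delCard_nsmul (i / n) h with h4 | h4
      · refine ⟨Sum.inr (Sum.inl (⟨i % n, h2⟩, false)), ?_⟩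
        rw [h3, h4]
        simp [delCardF]
      · refine ⟨Sum.inr (Sum.inl (⟨i % n, h2⟩, true)), ?_⟩
        rw [h3, h4]
        simp [delCardF]
    · have h1 : i = i % n + (i / n) * n := by
        have := Nat.mod_add_div i n
        rw [mul_comm (i / n) n]
        exact this.symm
      have h2 : i % n < n := Nat.mod_lt _ (by omega)
      refine ⟨Sum.inr (Sum.inr ⟨i % n, h2⟩), ?_⟩
      have h3 : s i + s (i + 1) = s (i % n) + s (i % n + 1) := by
        conv_lhs => rw [h1]
        exact delCard_rim hs _ _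
      rw [h3]
      rfl
  · rintro ⟨x, rfl⟩
    rcases x with x | ⟨i, b⟩ | i
    · left; rfl
    · right; left
      cases b
      · exact ⟨i, by simp [delCardF]⟩
      · exact ⟨i + n, by rw [hs]; simp [delCardF]⟩
    · right; right
      exact ⟨i, rfl⟩

theorem delCard_inj {n : ℕ} {h : V} {s : ℕ → V} (hn : 3 ≤ n) (hs : Spk n h s) :
    Function.Injective (delCardF n h s) := by
  obtain ⟨hper, hli, hdim⟩ := hs
  classical
  have hcard : Fintype.card (Fin (n + 1)) = finrank (ZMod 2) V := by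
    rw [hdim, Fintype.card_fin]
  let B := basisOfLinearIndependentOfCardEqFinrank hli hcard
  have hB : ∀ i, B i = (Fin.cons h (fun i : Fin n => s i) : Fin (n + 1) → V) i := by
    intro i
    exact congrFun (coe_basisOfLinearIndependentOfCardEqFinrank hli hcard) i
  have hBh : B 0 = h := hB 0
  have hBs : ∀ i : Fin n, B i.succ = s i := fun i => hB i.succ
  -- coordinates
  have ch0 : B.coord 0 h = 1 := by rw [← hBh, Basis.coord_apply, Basis.repr_self]; simp
  have csh : ∀ j : Fin n, B.coord j.succ h = 0 := by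
    intro j
    rw [← hBh, Basis.coord_apply, Basis.repr_self]
    simp
  have css : ∀ i j : Fin n, B.coord j.succ (s i) = if (i : ℕ) = j then 1 else 0 := by
    intro i j
    rw [← hBs i, Basis.coord_apply, Basis.repr_self, Finsupp.single_apply]
    simp only [Fin.ext_iff, Fin.val_succ, Nat.add_right_cancel_iff]
  have c0s : ∀ i : Fin n, B.coord 0 (s i) = 0 := by
    intro i
    rw [← hBs i, Basis.coord_apply, Basis.repr_self]
    simp
  -- the next spoke
  let nx : Fin n → Fin n := fun i => if hi : (i : ℕ) + 1 < n then ⟨i + 1, hi⟩ else ⟨0, by omega⟩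
  have nxv : ∀ i : Fin n, ((nx i : Fin n) : ℕ) = if (i : ℕ) + 1 < n then (i : ℕ) + 1 else 0 := by
    intro i
    by_cases hi : (i : ℕ) + 1 < n
    · simp [nx, hi]
    · simp [nx, hi]
  have csn : ∀ i j : Fin n, B.coord j.succ (s (i + 1)) =
      if ((nx i : Fin n) : ℕ) = j then 1 else 0 := by
    intro i j
    by_cases hi : (i : ℕ) + 1 < n
    · have := css ⟨i + 1, hi⟩ j
      rw [nxv, if_pos hi]
      exact this
    · have h1 : (i : ℕ) + 1 = 0 + n := by have := i.isLt; omega
      rw [nxv, if_neg hi, h1, hper, map_add, csh, add_zero]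
      exact css ⟨0, by omega⟩ j
  have nx_ne : ∀ i : Fin n, ((nx i : Fin n) : ℕ) ≠ i := by
    intro i
    rw [nxv]
    split_ifs <;> omega
  have nx_nx : ∀ i : Fin n, ((nx (nx i) : Fin n) : ℕ) ≠ i := by
    intro i
    have := i.isLt
    have h1 := nxv i
    have h2 := nxv (nx i)
    split_ifs at h1 h2 <;> omega
  have crim : ∀ i j : Fin n, B.coord j.succ (s i + s (i + 1)) =
      if (i : ℕ) = j ∨ ((nx i : Fin n) : ℕ) = j then 1 else 0 := by
    intro i j
    rw [map_add, css, csn]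
    by_cases h1 : (i : ℕ) = j
    · have h2 : ¬ ((nx i : Fin n) : ℕ) = j := by
        rw [← h1]; exact nx_ne i
      simp [h1, h2]
    · simp [h1]
  have cspk : ∀ (i j : Fin n) (b : Bool), B.coord j.succ (s i + (if b then h else 0)) =
      if (i : ℕ) = j then 1 else 0 := by
    intro i j b
    rw [map_add, css]
    cases b
    · simp
    · simp only [if_true]
      rw [csh, add_zero]
  have h10 : (1 : ZMod 2) ≠ 0 := by decide
  rintro (x | ⟨i, b⟩ | i) (y | ⟨j, c⟩ | j) hxy
  · rfl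
  · exfalso
    have := congrArg (B.coord j.succ) hxy
    simp only [delCardF] at this
    rw [csh, cspk, if_pos rfl] at this
    exact h10 this.symm
  · exfalso
    have := congrArg (B.coord j.succ) hxy
    simp only [delCardF] at this
    rw [csh, crim, if_pos (Or.inl rfl)] at this
    exact h10 this.symm
  · exfalso
    have := congrArg (B.coord i.succ) hxy
    simp only [delCardF] at this
    rw [csh, cspk, if_pos rfl] at this
    exact h10 this
  · have h1 := congrArg (B.coord i.succ) hxy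
    simp only [delCardF] at h1
    rw [cspk, cspk, if_pos rfl] at h1
    have h2 : (j : ℕ) = i := by
      by_contra hne
      rw [if_neg hne] at h1
      exact h10 h1
    have h3 : i = j := Fin.ext h2.symm
    subst h3
    have h4 := congrArg (B.coord 0) hxy
    simp only [delCardF] at h4
    rw [map_add, map_add, c0s] at h4
    have h5 : b = c := by
      cases b <;> cases c
      · rfl
      · exfalso
        simp only [Bool.false_eq_true, if_false, if_true, map_zero] at h4
        rw [ch0] at h4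
        revert h4
        decide
      · exfalso
        simp only [Bool.false_eq_true, if_false, if_true, map_zero] at h4
        rw [ch0] at h4
        revert h4
        decide
      · rfl
    rw [h5]
  · exfalso
    have h1 := congrArg (B.coord j.succ) hxy
    have h2 := congrArg (B.coord (nx j).succ) hxy
    simp only [delCardF] at h1 h2
    rw [cspk, crim, if_pos (Or.inl rfl)] at h1
    rw [cspk, crim, if_pos (Or.inr rfl)] at h2
    have h3 : (i : ℕ) = j := by
      by_contra hne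
      rw [if_neg hne] at h1
      exact h10 h1.symm
    have h4 : (i : ℕ) = nx j := by
      by_contra hne
      rw [if_neg hne] at h2
      exact h10 h2.symm
    exact nx_ne j (h4.symm.trans h3)
  · exfalso
    have := congrArg (B.coord i.succ) hxy
    simp only [delCardF] at this
    rw [csh, crim, if_pos (Or.inl rfl)] at this
    exact h10 this
  · exfalso
    have h1 := congrArg (B.coord i.succ) hxy
    have h2 := congrArg (B.coord (nx i).succ) hxy
    simp only [delCardF] at h1 h2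
    rw [cspk, crim, if_pos (Or.inl rfl)] at h1
    rw [cspk, crim, if_pos (Or.inr rfl)] at h2
    have h3 : (j : ℕ) = i := by
      by_contra hne
      rw [if_neg hne] at h1
      exact h10 h1
    have h4 : (j : ℕ) = nx i := by
      by_contra hne
      rw [if_neg hne] at h2
      exact h10 h2
    exact nx_ne i (h4.symm.trans h3)
  · have h1 := congrArg (B.coord i.succ) hxy
    have h2 := congrArg (B.coord j.succ) hxy
    simp only [delCardF] at h1 h2
    rw [crim, crim, if_pos (Or.inl rfl)] at h1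
    rw [crim, crim, if_pos (Or.inl rfl : (j : ℕ) = j ∨ ((nx j : Fin n) : ℕ) = j)] at h2
    have h3 : (j : ℕ) = i ∨ ((nx j : Fin n) : ℕ) = i := by
      by_contra hne
      rw [if_neg hne] at h1
      exact h10 h1
    have h4 : (i : ℕ) = j ∨ ((nx i : Fin n) : ℕ) = j := by
      by_contra hne
      rw [if_neg hne] at h2
      exact h10 h2.symm
    by_cases hij : (i : ℕ) = j
    · rw [Fin.ext hij]
    · exfalso
      rcases h3 with h3 | h3
      · exact hij h3.symm
      · rcases h4 with h4 | h4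
        · exact hij h4
        · have h5 : nx j = i := Fin.ext h3
          rw [← h5] at h4
          exact nx_nx j h4

end DelCardAux

theorem kDelCard : KDelCard.{u} := by
  intro V _ _ n S hn hS
  obtain ⟨h, s, hspk, hdel⟩ := hS
  rw [delCard_range hn hspk.1 hdel]
  rw [← Set.image_univ, Set.ncard_image_of_injective _ (delCard_inj hn hspk), Set.ncard_univ,
    Nat.card_eq_fintype_card]
  simp only [Fintype.card_sum, Fintype.card_unit, Fintype.card_prod, Fintype.card_fin,
    Fintype.card_bool]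
  ring

end Pool.Agent.WW

end

section

/-!
D5: the interior element used for large away sides.
-/

namespace Pool.Agent.WW

open Submodule Module

universe u

theorem kDelCore_notMem {V : Type*} [AddCommGroup V] [Module (ZMod 2) V] (n : ℕ) (h : V)
    (s : ℕ → V) (hn : 5 ≤ n) (hs : Spk n h s) :
    s 1 + s 2 ∉ span (ZMod 2) {h, s 0, s 1} := by
  intro hmem
  obtain ⟨m, rfl⟩ : ∃ m, n = m + 5 := ⟨n - 5, by omega⟩
  have hli := hs.2.1
  have h2 : s 2 ∈ span (ZMod 2) ({h, s 0, s 1} : Set V) := by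
    have h1 : s 1 ∈ span (ZMod 2) ({h, s 0, s 1} : Set V) := subset_span (by simp)
    have h3 := sub_mem hmem h1
    simpa using h3
  have h0 : (⟨0, by omega⟩ : Fin (m + 5 + 1)) = 0 := rfl
  have hnot := hli.notMem_span_image (s := {⟨0, by omega⟩, ⟨1, by omega⟩, ⟨2, by omega⟩})
    (x := ⟨3, by omega⟩) (by simp [Fin.ext_iff])
  apply hnot
  rw [Set.image_insert_eq, Set.image_insert_eq, Set.image_singleton]
  exact h2

theorem kDelCore (h1 : KDelShift.{u}) (h2 : KDelPlane.{u}) (h3 : KDelRim.{u})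
    (h4 : KDelTr.{u}) : KDelCore.{u} := by
  intro V _ _ _ n S Γ hn hdel hK
  obtain ⟨h, s, hs, hd⟩ := hdel
  obtain ⟨i, hi⟩ := h2 V n h s S Γ (by omega) hs hd hK
  obtain ⟨hs', hd'⟩ := h1 V n h s S i (by omega) hs hd
  have hΓ : Γ = span (ZMod 2) {h, (fun k => s (k + i)) 0, (fun k => s (k + i)) 1} := by
    rw [hi]
    simp only [zero_add, add_comm 1 i]
  generalize (fun k => s (k + i)) = t at hs' hd' hΓ
  subst hΓ
  exact ⟨t 1 + t 2, (hd' _).2 (Or.inr (Or.inr ⟨1, rfl⟩)), kDelCore_notMem n h t hn hs',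
    h3 V n h t S 1 (by omega) hs' hd', fun Q R hT => h4 V n h t S Q R hn hs' hd' hT⟩

end Pool.Agent.WW

end

section

/-! D2: the planes with at least six points in the sets `Delta`. -/

namespace Pool.Agent.WW

open Submodule Module

universe u

section D2

variable {V : Type*} [AddCommGroup V] [Module (ZMod 2) V]

theorem d2_zmod (z : ZMod 2) : z = 0 ∨ z = 1 := by
  revert z; decide

theorem d2_add_self (v : V) : v + v = 0 := ZModModule.add_self v

theorem d2_modEq {n i j : ℕ} (h : i % n = j % n) :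
    (∃ k, i = j + k * n) ∨ ∃ k, j = i + k * n := by
  rcases le_total i j with hij | hij
  · right
    obtain ⟨k, hk⟩ := (Nat.modEq_iff_dvd' hij).mp h
    exact ⟨k, by rw [mul_comm]; omega⟩
  · left
    obtain ⟨k, hk⟩ := (Nat.modEq_iff_dvd' hij).mp h.symm
    exact ⟨k, by rw [mul_comm]; omega⟩

theorem d2_per {n : ℕ} {h : V} {s : ℕ → V} (hs : ∀ i, s (i + n) = s i + h) (i k : ℕ) :
    s (i + k * n) = s i ∨ s (i + k * n) = s i + h := by
  induction k with
  | zero => left; simp
  | succ k ih =>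
    have e : i + (k + 1) * n = i + k * n + n := by ring
    rw [e, hs]
    rcases ih with ih | ih
    · right; rw [ih]
    · left; rw [ih, add_assoc, d2_add_self, add_zero]

theorem d2_rim {n : ℕ} {h : V} {s : ℕ → V} (hs : ∀ i, s (i + n) = s i + h) (i k : ℕ) :
    s (i + k * n) + s (i + k * n + 1) = s i + s (i + 1) := by
  induction k with
  | zero => simp
  | succ k ih =>
    have e : i + (k + 1) * n = i + k * n + n := by ring
    have e' : i + k * n + n + 1 = i + k * n + 1 + n := by ring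
    rw [e, hs, e', hs, ← ih]
    have : s (i + k * n) + h + (s (i + k * n + 1) + h) =
      s (i + k * n) + s (i + k * n + 1) + (h + h) := by abel
    rw [this, d2_add_self, add_zero]

theorem d2_per' {n : ℕ} {h : V} {s : ℕ → V} (hs : ∀ i, s (i + n) = s i + h) {i j : ℕ}
    (hij : i % n = j % n) : s i = s j ∨ s i = s j + h := by
  rcases d2_modEq hij with ⟨k, rfl⟩ | ⟨k, rfl⟩
  · exact d2_per hs j k
  · rcases d2_per hs i k with h1 | h1
    · left; exact h1.symm
    · right; rw [h1, add_assoc, d2_add_self, add_zero]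

theorem d2_rim' {n : ℕ} {h : V} {s : ℕ → V} (hs : ∀ i, s (i + n) = s i + h) {i j : ℕ}
    (hij : i % n = j % n) : s i + s (i + 1) = s j + s (j + 1) := by
  rcases d2_modEq hij with ⟨k, rfl⟩ | ⟨k, rfl⟩
  · exact d2_rim hs j k
  · exact (d2_rim hs i k).symm

theorem d2_fun {n : ℕ} {h : V} {s : ℕ → V} (hn : 0 < n) (hS : Spk n h s) :
    ∃ f : ℕ → V →ₗ[ZMod 2] ZMod 2, (∀ m, f m h = 0) ∧
      (∀ m i, f m (s i) = if i % n = m % n then 1 else 0) ∧
      (∀ v, (∀ m, f m v = 0) → v = 0 ∨ v = h) ∧ ∀ m, f (m + n) = f m := by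
  obtain ⟨hs, hli, hfr⟩ := hS
  let b := basisOfLinearIndependentOfCardEqFinrank hli (by rw [hfr]; simp)
  have hb0 : b 0 = h := by simp [b]
  have hbs : ∀ i : Fin n, b i.succ = s i := by intro i; simp [b]
  refine ⟨fun m => b.coord (Fin.succ ⟨m % n, Nat.mod_lt _ hn⟩), ?_, ?_, ?_, ?_⟩
  · intro m
    rw [← hb0, Basis.coord_apply, Basis.repr_self, Finsupp.single_eq_of_ne]
    exact (Fin.succ_ne_zero _)
  · intro m i
    have h1 : b.coord (Fin.succ ⟨m % n, Nat.mod_lt _ hn⟩) h = 0 := by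
      rw [← hb0, Basis.coord_apply, Basis.repr_self, Finsupp.single_eq_of_ne]
      exact (Fin.succ_ne_zero _)
    have h2 : b.coord (Fin.succ ⟨m % n, Nat.mod_lt _ hn⟩) (s i) =
        b.coord (Fin.succ ⟨m % n, Nat.mod_lt _ hn⟩) (s (i % n)) := by
      rcases d2_per' hs (i := i) (j := i % n) (by simp) with h3 | h3
      · rw [h3]
      · rw [h3, map_add, h1, add_zero]
    change b.coord (Fin.succ ⟨m % n, Nat.mod_lt _ hn⟩) (s i) = _
    rw [h2]
    have h4 : s (i % n) = b (Fin.succ ⟨i % n, Nat.mod_lt _ hn⟩) := (hbs ⟨i % n, _⟩).symm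
    rw [h4, Basis.coord_apply, Basis.repr_self, Finsupp.single_apply]
    simp only [Fin.succ_inj, Fin.mk.injEq]
  · intro v hv
    have h1 : v = b.repr v 0 • h := by
      conv_lhs => rw [← b.sum_repr v, Fin.sum_univ_succ]
      rw [hb0, Finset.sum_eq_zero, add_zero]
      intro i _
      have h2 := hv i
      have h3 : (⟨(i : ℕ) % n, Nat.mod_lt _ hn⟩ : Fin n) = i := by
        ext; exact Nat.mod_eq_of_lt i.2
      change b.coord (Fin.succ ⟨(i : ℕ) % n, Nat.mod_lt _ hn⟩) v = 0 at h2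
      rw [h3] at h2
      rw [Basis.coord_apply] at h2
      rw [h2, zero_smul]
    rcases d2_zmod (b.repr v 0) with h2 | h2
    · left; rw [h1, h2, zero_smul]
    · right; rw [h1, h2, one_smul]
  · intro m
    simp only [Nat.add_mod_right]

theorem d2_ncard {Γ : Submodule (ZMod 2) V} (h3 : finrank (ZMod 2) Γ = 3) :
    (Γ : Set V).Finite ∧ (Γ : Set V).ncard = 8 := by
  have : Module.Finite (ZMod 2) Γ := Module.finite_of_finrank_pos (by omega)
  have : Finite Γ := Module.finite_of_finite (ZMod 2)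
  refine ⟨Set.toFinite _, ?_⟩
  have h1 : Nat.card Γ = Nat.card (ZMod 2) ^ finrank (ZMod 2) Γ :=
    Module.natCard_eq_pow_finrank
  rw [h3, Nat.card_zmod] at h1
  rw [← Nat.card_coe_set_eq]
  exact h1

theorem d2_count {S : Set V} {Γ : Submodule (ZMod 2) V} (h0 : (0 : V) ∉ S) (hΓ : K4P S Γ)
    (f : V →ₗ[ZMod 2] ZMod 2) {v0 : V} (hv0 : v0 ∈ Γ) (hf : f v0 = 1) (T : Finset V)
    (hTc : T.card ≤ 4) (hT : ∀ v ∈ S, f v = 1 → v ∈ T) {x y : V} (hx : x ∈ T) (hy : y ∈ T)
    (hxy : x ≠ y) : x ∈ Γ ∨ y ∈ Γ := by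
  classical
  by_contra hcon
  push Not at hcon
  obtain ⟨hfin, hcard⟩ := d2_ncard hΓ.1
  set A : Set V := {v | v ∈ Γ ∧ f v = 0} with hA
  set N : Set V := {v | v ∈ Γ ∧ f v = 1} with hN
  have hAN : A ∪ N = (Γ : Set V) := by
    ext v
    simp only [hA, hN, Set.mem_union, Set.mem_ofPred_eq, SetLike.mem_coe]
    constructor
    · rintro (h | h) <;> exact h.1
    · intro h
      rcases d2_zmod (f v) with h' | h'
      · exact Or.inl ⟨h, h'⟩
      · exact Or.inr ⟨h, h'⟩
  have hAf : A.Finite := hfin.subset (by rw [← hAN]; exact Set.subset_union_left)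
  have hNf : N.Finite := hfin.subset (by rw [← hAN]; exact Set.subset_union_right)
  have hdis : Disjoint A N := by
    rw [Set.disjoint_left]
    rintro v ⟨_, h1⟩ ⟨_, h2⟩
    rw [h1] at h2
    exact zero_ne_one h2
  have himg : (fun v => v + v0) '' A = N := by
    ext v
    simp only [hA, hN, Set.mem_image, Set.mem_ofPred_eq]
    constructor
    · rintro ⟨w, ⟨h1, h2⟩, rfl⟩
      exact ⟨Γ.add_mem h1 hv0, by rw [map_add, h2, hf, zero_add]⟩
    · rintro ⟨h1, h2⟩
      refine ⟨v + v0, ⟨Γ.add_mem h1 hv0, ?_⟩, ?_⟩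
      · rw [map_add, h2, hf]; decide
      · rw [add_assoc, d2_add_self, add_zero]
  have hNA : N.ncard = A.ncard := by
    rw [← himg]
    exact Set.ncard_image_of_injective _ (add_left_injective v0)
  have h8 : A.ncard + N.ncard = 8 := by
    rw [← Set.ncard_union_eq hdis hAf hNf, hAN, hcard]
  have hN4 : N.ncard = 4 := by omega
  have h6 := hΓ.2
  have hsplit : (S ∩ (Γ : Set V)) ∪ ((N \ S) ∪ {0}) ⊆ (Γ : Set V) := by
    rintro v (h | h | h)
    · exact h.2
    · exact h.1.1
    · rw [Set.mem_singleton_iff] at h; rw [h]; exact Γ.zero_mem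
  have hd1 : Disjoint (S ∩ (Γ : Set V)) ((N \ S) ∪ {0}) := by
    rw [Set.disjoint_left]
    rintro v ⟨h1, _⟩ (h2 | h2)
    · exact h2.2 h1
    · rw [Set.mem_singleton_iff] at h2; exact h0 (h2 ▸ h1)
  have hd2 : Disjoint (N \ S) {0} := by
    rw [Set.disjoint_left]
    rintro v ⟨h1, _⟩ h2
    rw [Set.mem_singleton_iff] at h2
    have := h1.2
    rw [h2, map_zero] at this
    exact zero_ne_one this
  have hc1 : (S ∩ (Γ : Set V)).ncard + ((N \ S).ncard + 1) ≤ 8 := by
    have e1 := Set.ncard_le_ncard hsplit hfin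
    rw [Set.ncard_union_eq hd1 (hfin.subset Set.inter_subset_right)
      ((hNf.subset Set.sdiff_subset).union (Set.finite_singleton _)),
      Set.ncard_union_eq hd2 (hNf.subset Set.sdiff_subset) (Set.finite_singleton _),
      Set.ncard_singleton, hcard] at e1
    exact e1
  have hc2 : (N ∩ S).ncard + (N \ S).ncard = N.ncard :=
    Set.ncard_inter_add_ncard_sdiff_eq_ncard N S hNf
  have hc3 : N ∩ S ⊆ (((T.erase x).erase y : Finset V) : Set V) := by
    rintro v ⟨⟨h1, h2⟩, h3⟩
    rw [Finset.mem_coe, Finset.mem_erase, Finset.mem_erase]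
    refine ⟨?_, ?_, hT v h3 h2⟩
    · rintro rfl; exact hcon.2 h1
    · rintro rfl; exact hcon.1 h1
  have hc4 := Set.ncard_le_ncard hc3 (Finset.finite_toSet _)
  rw [Set.ncard_coe_finset, Finset.card_erase_of_mem (Finset.mem_erase.mpr ⟨hxy.symm, hy⟩),
    Finset.card_erase_of_mem hx] at hc4
  omega

/-- the elements with value one of the functional -/
theorem d2_list {n : ℕ} {h : V} {s : ℕ → V} {S : Set V}
    (hs : ∀ i, s (i + n) = s i + h) (hS : DelSet h s S)
    {f : ℕ → V →ₗ[ZMod 2] ZMod 2} (fh : ∀ m, f m h = 0)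
    (fs : ∀ m i, f m (s i) = if i % n = m % n then 1 else 0) (m : ℕ) {v : V} (hv : v ∈ S)
    (hf : f (m + 1) v = 1) : v = s (m + 1) ∨ v = s (m + 1) + h ∨ v = s m + s (m + 1) ∨
      v = s (m + 1) + s (m + 2) := by
  rcases (hS v).mp hv with h1 | ⟨i, h1⟩ | ⟨i, h1⟩
  · rw [h1, fh] at hf
    exact absurd hf zero_ne_one
  · rw [h1, fs] at hf
    by_cases hi : i % n = (m + 1) % n
    · rw [h1]
      rcases d2_per' hs hi with h2 | h2
      · exact Or.inl h2
      · exact Or.inr (Or.inl h2)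
    · rw [if_neg hi] at hf
      exact absurd hf zero_ne_one
  · rw [h1, map_add, fs, fs] at hf
    by_cases hi : i % n = (m + 1) % n
    · right; right; right
      rw [h1]
      exact d2_rim' hs hi
    · rw [if_neg hi, zero_add] at hf
      by_cases hi2 : (i + 1) % n = (m + 1) % n
      · right; right; left
        rw [h1]
        exact d2_rim' hs (Nat.ModEq.add_right_cancel' 1 hi2)
      · rw [if_neg hi2] at hf
        exact absurd hf zero_ne_one

theorem d2_mod_ne {n m a b : ℕ} (hab : a < b) (hbn : b < a + n) :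
    ¬ (m + a) % n = (m + b) % n := by
  intro h
  have h1 : a ≡ b [MOD n] := Nat.ModEq.add_left_cancel' m h
  have h2 := (Nat.modEq_iff_dvd' hab.le).mp h1
  have h3 := Nat.le_of_dvd (by omega) h2
  omega

/-- the local step -/
theorem d2_local {n : ℕ} {h : V} {s : ℕ → V} {S : Set V} {Γ : Submodule (ZMod 2) V} (hn : 4 ≤ n)
    (hs : ∀ i, s (i + n) = s i + h) (hh : h ≠ 0) (h0 : (0 : V) ∉ S) (hS : DelSet h s S)
    (hΓ : K4P S Γ)
    {f : ℕ → V →ₗ[ZMod 2] ZMod 2} (fh : ∀ m, f m h = 0)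
    (fs : ∀ m i, f m (s i) = if i % n = m % n then 1 else 0) (m : ℕ) {v : V} (hv : v ∈ Γ)
    (hf : f (m + 1) v = 1) :
    (s (m + 1) ∈ Γ ∧ h ∈ Γ ∧ (s m ∈ Γ ∨ s (m + 2) ∈ Γ)) ∨
    (h ∉ Γ ∧ (s (m + 1) ∈ Γ ∨ s (m + 1) + h ∈ Γ) ∧ s m + s (m + 1) ∈ Γ ∧
      s (m + 1) + s (m + 2) ∈ Γ) := by
  classical
  set T : Finset V := {s (m + 1), s (m + 1) + h, s m + s (m + 1), s (m + 1) + s (m + 2)} with hT
  have hTc : T.card ≤ 4 := by rw [hT]; exact Finset.card_le_four
  have key := fun x y hx hy hxy => d2_count h0 hΓ (f (m + 1)) hv hf T hTc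
    (fun v hv hf => by
      rw [hT]
      simpa only [Finset.mem_insert, Finset.mem_singleton] using
        d2_list hs hS fh fs m hv hf) (x := x) (y := y) hx hy hxy
  have m1 : s (m + 1) ∈ T := by simp [hT]
  have m2 : s (m + 1) + h ∈ T := by simp [hT]
  have m3 : s m + s (m + 1) ∈ T := by simp [hT]
  have m4 : s (m + 1) + s (m + 2) ∈ T := by simp [hT]
  have v1 : f (m + 2) (s (m + 1)) = 0 := by
    rw [fs, if_neg (d2_mod_ne (by omega) (by omega))]
  have v2 : f (m + 2) (s m) = 0 := by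
    rw [fs, if_neg (show ¬ m % n = (m + 2) % n from d2_mod_ne (a := 0) (by omega) (by omega))]
  have v3 : f (m + 2) (s (m + 2)) = 1 := by rw [fs, if_pos rfl]
  have v4 : f m (s m) = 1 := by rw [fs, if_pos rfl]
  have v5 : f m (s (m + 1)) = 0 := by
    rw [fs, if_neg (fun h => d2_mod_ne (a := 0) (b := 1) (by omega) (by omega) h.symm)]
  have n12 : s (m + 1) ≠ s (m + 1) + h := by
    intro h1
    exact hh (left_eq_add.mp h1)
  have n13 : s (m + 1) ≠ s m + s (m + 1) := by
    intro h1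
    have := congrArg (f m) h1
    rw [map_add, v4, v5] at this
    revert this; decide
  have n14 : s (m + 1) ≠ s (m + 1) + s (m + 2) := by
    intro h1
    have := congrArg (f (m + 2)) h1
    rw [map_add, v1, v3] at this
    revert this; decide
  have n23 : s (m + 1) + h ≠ s m + s (m + 1) := by
    intro h1
    have := congrArg (f m) h1
    rw [map_add, map_add, v4, v5, fh] at this
    revert this; decide
  have n24 : s (m + 1) + h ≠ s (m + 1) + s (m + 2) := by
    intro h1
    have := congrArg (f (m + 2)) h1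
    rw [map_add, map_add, v1, v3, fh] at this
    revert this; decide
  have n34 : s m + s (m + 1) ≠ s (m + 1) + s (m + 2) := by
    intro h1
    have := congrArg (f (m + 2)) h1
    rw [map_add, map_add, v1, v3, v2] at this
    revert this; decide
  have canc : ∀ a b : V, a + (a + b) = b := by
    intro a b
    rw [← add_assoc, d2_add_self, zero_add]
  have canc' : ∀ a b : V, (b + a) + a = b := by
    intro a b
    rw [add_assoc, d2_add_self, add_zero]
  by_cases c1 : s (m + 1) ∈ Γ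
  · by_cases c2 : s (m + 1) + h ∈ Γ
    · left
      refine ⟨c1, ?_, ?_⟩
      · rw [← canc (s (m + 1)) h]; exact Γ.add_mem c1 c2
      · rcases key _ _ m3 m4 n34 with h3 | h3
        · left; rw [← canc' (s (m + 1)) (s m)]; exact Γ.add_mem h3 c1
        · right; rw [← canc (s (m + 1)) (s (m + 2))]; exact Γ.add_mem c1 h3
    · right
      refine ⟨fun h' => c2 (Γ.add_mem c1 h'), Or.inl c1, ?_, ?_⟩
      · exact (key _ _ m2 m3 n23).resolve_left c2
      · exact (key _ _ m2 m4 n24).resolve_left c2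
  · right
    have c2 := (key _ _ m1 m2 n12).resolve_left c1
    refine ⟨fun h' => c1 ?_, Or.inr c2, ?_, ?_⟩
    · rw [← canc' h (s (m + 1))]; exact Γ.add_mem c2 h'
    · exact (key _ _ m1 m3 n13).resolve_left c1
    · exact (key _ _ m1 m4 n14).resolve_left c1

end D2

theorem kDelPlane : KDelPlane.{u} := by
  intro V _ _ n h s S Γ hn hspk hS hΓ
  obtain ⟨f, fh, fs, fk, fp⟩ := d2_fun (by omega) hspk
  have hs := hspk.1
  have hh : h ≠ 0 := by
    have := hspk.2.1.ne_zero 0
    simpa using this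
  have h0 : (0 : V) ∉ S := by
    intro h0
    rcases (hS 0).mp h0 with h1 | ⟨i, h1⟩ | ⟨i, h1⟩
    · exact hh h1.symm
    · have h2 := fs i i
      rw [← h1, map_zero, if_pos rfl] at h2
      exact zero_ne_one h2
    · have h2 := fs i i
      have h3 := fs i (i + 1)
      rw [if_pos rfl] at h2
      rw [if_neg (fun h => d2_mod_ne (a := 0) (b := 1) (by omega) (by omega) h.symm)] at h3
      have h4 := congrArg (f i) h1
      rw [map_zero, map_add, h2, h3] at h4
      revert h4; decide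
  obtain ⟨hfin, hcard⟩ := d2_ncard hΓ.1
  have hv : ∃ v ∈ Γ, ∃ m, f m v = 1 := by
    by_contra hcon
    push Not at hcon
    have h1 : (Γ : Set V) ⊆ {0, h} := by
      intro v hv
      have := fk v (fun m => (d2_zmod _).resolve_right (hcon v hv m))
      simpa using this
    have h2 := Set.ncard_le_ncard h1 (by simp)
    have h3 : ({0, h} : Set V).ncard ≤ 2 := Set.ncard_insert_le _ _ |>.trans (by simp)
    omega
  obtain ⟨v, hv, m0, hm0⟩ := hv
  have hfm : ∀ x, f (m0 + n) x = f m0 x := by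
    intro x
    rw [fp]
  obtain ⟨m, hm⟩ : ∃ m, m0 + n = m + 1 := ⟨m0 + n - 1, by omega⟩
  have hfv : f (m + 1) v = 1 := by rw [← hm, hfm]; exact hm0
  have F : ∀ m a b, a < 4 → b < 4 → f (m + a) (s (m + b)) = if a = b then 1 else 0 := by
    intro m a b ha hb
    rw [fs]
    rcases lt_trichotomy a b with h1 | h1 | h1
    · rw [if_neg (fun h => d2_mod_ne h1 (by omega) h.symm), if_neg h1.ne]
    · rw [h1, if_pos rfl, if_pos rfl]
    · rw [if_neg (d2_mod_ne h1 (by omega)), if_neg h1.ne']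
  have : Module.Finite (ZMod 2) Γ := Module.finite_of_finrank_pos (by rw [hΓ.1]; norm_num)
  have hspan : ∀ i, h ∈ Γ → s i ∈ Γ → s (i + 1) ∈ Γ → Γ = span (ZMod 2) {h, s i, s (i + 1)} := by
    intro i h1 h2 h3
    have hli : LinearIndependent (ZMod 2) ![h, s i, s (i + 1)] := by
      rw [Fintype.linearIndependent_iff]
      intro g hg
      rw [Fin.sum_univ_three] at hg
      change g 0 • h + g 1 • s i + g 2 • s (i + 1) = 0 at hg
      have e1 := congrArg (f i) hg
      have e2 := congrArg (f (i + 1)) hg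
      have a1 := F i 0 0 (by norm_num) (by norm_num)
      have a2 := F i 0 1 (by norm_num) (by norm_num)
      have a3 := F i 1 0 (by norm_num) (by norm_num)
      have a4 := F i 1 1 (by norm_num) (by norm_num)
      simp only [add_zero, if_true, reduceIte, zero_ne_one, one_ne_zero] at a1 a2 a3 a4
      simp only [map_add, map_smul, fh, a1, a2, a3, a4, smul_eq_mul, mul_zero, mul_one,
        zero_add, add_zero, map_zero] at e1 e2
      rw [e1, e2, zero_smul, zero_smul, add_zero, add_zero] at hg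
      have e0 : g 0 = 0 := (smul_eq_zero.mp hg).resolve_right hh
      intro j
      fin_cases j
      · exact e0
      · exact e1
      · exact e2
    have hfr := finrank_span_eq_card hli
    have hr : Set.range ![h, s i, s (i + 1)] = {h, s i, s (i + 1)} := by
      rw [Matrix.range_cons, Matrix.range_cons, Matrix.range_cons, Matrix.range_empty,
        Set.union_empty, Set.insert_eq, Set.insert_eq]
    rw [hr, Fintype.card_fin] at hfr
    symm
    apply Submodule.eq_of_le_of_finrank_eq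
    · rw [span_le]
      rintro x (rfl | rfl | rfl)
      · exact h1
      · exact h2
      · exact h3
    · rw [hfr, hΓ.1]
  rcases d2_local hn hs hh h0 hS hΓ fh fs m hv hfv with ⟨h1, h2, h3 | h3⟩ | ⟨h1, h2, h3, h4⟩
  · exact ⟨m, hspan m h2 h3 h1⟩
  · exact ⟨m + 1, hspan (m + 1) h2 h1 h3⟩
  · exfalso
    obtain ⟨t, ht, hft⟩ : ∃ t ∈ Γ, ∀ j, f j t = f j (s (m + 1)) := by
      rcases h2 with h2 | h2
      · exact ⟨_, h2, fun j => rfl⟩
      · exact ⟨_, h2, fun j => by rw [map_add, fh, add_zero]⟩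
    have a00 := F m 0 0 (by norm_num) (by norm_num)
    have a01 := F m 0 1 (by norm_num) (by norm_num)
    have a02 := F m 0 2 (by norm_num) (by norm_num)
    have a03 := F m 0 3 (by norm_num) (by norm_num)
    have a10 := F m 1 0 (by norm_num) (by norm_num)
    have a11 := F m 1 1 (by norm_num) (by norm_num)
    have a12 := F m 1 2 (by norm_num) (by norm_num)
    have a13 := F m 1 3 (by norm_num) (by norm_num)
    have a20 := F m 2 0 (by norm_num) (by norm_num)
    have a21 := F m 2 1 (by norm_num) (by norm_num)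
    have a22 := F m 2 2 (by norm_num) (by norm_num)
    have a23 := F m 2 3 (by norm_num) (by norm_num)
    have a30 := F m 3 0 (by norm_num) (by norm_num)
    have a31 := F m 3 1 (by norm_num) (by norm_num)
    have a32 := F m 3 2 (by norm_num) (by norm_num)
    have a33 := F m 3 3 (by norm_num) (by norm_num)
    norm_num at a00 a01 a02 a03 a10 a11 a12 a13 a20 a21 a22 a23 a30 a31 a32 a33
    have hf2 : f (m + 1 + 1) (s (m + 1) + s (m + 2)) = 1 := by
      rw [map_add]
      change f (m + 2) _ + f (m + 2) _ = 1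
      rw [a21, a22, zero_add]
    have h5 : s (m + 2) + s (m + 3) ∈ Γ := by
      rcases d2_local hn hs hh h0 hS hΓ fh fs (m + 1) h4 hf2 with ⟨_, h6, _⟩ | ⟨_, _, _, h6⟩
      · exact absurd h6 h1
      · exact h6
    have hli : LinearIndependent (ZMod 2) ![(⟨_, h3⟩ : Γ), ⟨_, ht⟩, ⟨_, h4⟩, ⟨_, h5⟩] := by
      rw [Fintype.linearIndependent_iff]
      intro g hg
      rw [Fin.sum_univ_four] at hg
      have hg' : g 0 • (s m + s (m + 1)) + g 1 • t + g 2 • (s (m + 1) + s (m + 2)) +
        g 3 • (s (m + 2) + s (m + 3)) = 0 := congrArg (fun x : Γ => (x : V)) hg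
      have e0 := congrArg (f m) hg'
      have e1 := congrArg (f (m + 1)) hg'
      have e2 := congrArg (f (m + 2)) hg'
      have e3 := congrArg (f (m + 3)) hg'
      simp only [map_add, map_smul, hft, a00, a01, a02, a03, a10, a11, a12, a13, a20, a21, a22,
        a23, a30, a31, a32, a33, smul_eq_mul, mul_zero, mul_one, zero_add, add_zero,
        map_zero] at e0 e1 e2 e3
      rw [e3, add_zero] at e2
      rw [e0, e2, zero_add, add_zero] at e1
      intro j
      fin_cases j
      · exact e0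
      · exact e1
      · exact e2
      · exact e3
    have := hli.fintype_card_le_finrank
    rw [hΓ.1, Fintype.card_fin] at this
    omega

end Pool.Agent.WW

end

section

/-!
K D1: rotation of the spokes; coordinates for the sets `Delta` (used in D3, D4).
-/

namespace Pool.Agent.WW

open Submodule Module

section coord

variable {V : Type*} [AddCommGroup V] [Module (ZMod 2) V]

lemma dk_self (v : V) : v + v = 0 := by
  have h : (2 : ZMod 2) = 0 := rfl
  rw [← two_smul (ZMod 2) v, h, zero_smul]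

lemma dk_fin {n : ℕ} {h : V} {s : ℕ → V} (hs : Spk n h s) : FiniteDimensional (ZMod 2) V :=
  Module.finite_of_finrank_pos (by rw [hs.2.2]; omega)

lemma dk_span {n : ℕ} {h : V} {s : ℕ → V} (hs : Spk n h s) :
    span (ZMod 2) (Set.range (Fin.cons h (fun i : Fin n => s i) : Fin (n + 1) → V)) = ⊤ := by
  have := dk_fin hs
  exact hs.2.1.span_eq_top_of_card_eq_finrank' (by rw [Fintype.card_fin, hs.2.2])

lemma dk_top {n : ℕ} {h : V} {s : ℕ → V} (hs : Spk n h s) {A : Submodule (ZMod 2) V} (hA : h ∈ A)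
    (hi : ∀ i < n, s i ∈ A) : A = ⊤ := by
  rw [eq_top_iff, ← dk_span hs, span_le]
  rintro x ⟨i, rfl⟩
  refine Fin.cases ?_ (fun j => ?_) i
  · exact hA
  · rw [Fin.cons_succ]
    exact hi j j.2

/-- the coordinate of a spoke -/
lemma dk_coord {n : ℕ} {h : V} {s : ℕ → V} (hs : Spk n h s) {j : ℕ} (hj : j < n) :
    ∃ χ : V →ₗ[ZMod 2] ZMod 2, χ h = 0 ∧ ∀ i < n, χ (s i) = if i = j then 1 else 0 := by
  have := dk_fin hs
  let bas := basisOfLinearIndependentOfCardEqFinrank hs.2.1 (by rw [Fintype.card_fin, hs.2.2])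
  have hb : ∀ i, bas i = (Fin.cons h (fun i : Fin n => s i) : Fin (n + 1) → V) i := by
    intro i
    simp [bas]
  refine ⟨bas.coord (Fin.succ ⟨j, hj⟩), ?_, ?_⟩
  · have h0 : h = bas 0 := by rw [hb]; rfl
    rw [h0, Basis.coord_apply, Basis.repr_self, Finsupp.single_apply, if_neg]
    exact (Fin.succ_ne_zero _).symm
  · intro i hi
    have h0 : s i = bas (Fin.succ ⟨i, hi⟩) := by rw [hb]; rfl
    rw [h0, Basis.coord_apply, Basis.repr_self, Finsupp.single_apply]
    simp only [Fin.succ_inj, Fin.mk.injEq]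

/-- the coordinate of the hub -/
lemma dk_coordh {n : ℕ} {h : V} {s : ℕ → V} (hs : Spk n h s) :
    ∃ η : V →ₗ[ZMod 2] ZMod 2, η h = 1 ∧ ∀ i < n, η (s i) = 0 := by
  have := dk_fin hs
  let bas := basisOfLinearIndependentOfCardEqFinrank hs.2.1 (by rw [Fintype.card_fin, hs.2.2])
  have hb : ∀ i, bas i = (Fin.cons h (fun i : Fin n => s i) : Fin (n + 1) → V) i := by
    intro i
    simp [bas]
  refine ⟨bas.coord 0, ?_, ?_⟩
  · have h0 : h = bas 0 := by rw [hb]; rfl
    rw [h0, Basis.coord_apply, Basis.repr_self, Finsupp.single_apply, if_pos rfl]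
  · intro i hi
    have h0 : s i = bas (Fin.succ ⟨i, hi⟩) := by rw [hb]; rfl
    rw [h0, Basis.coord_apply, Basis.repr_self, Finsupp.single_apply, if_neg]
    exact Fin.succ_ne_zero _

lemma dk_per {n : ℕ} {h : V} {s : ℕ → V} (hs : Spk n h s) (i : ℕ) : s (i + n + n) = s i := by
  rw [hs.1, hs.1, add_assoc, dk_self, add_zero]

lemma dk_red {n : ℕ} {h : V} {s : ℕ → V} (hn : 1 ≤ n) (hs : Spk n h s) (i : ℕ) :
    ∃ j < n, s i = s j ∨ s i = s j + h := by
  induction i using Nat.strong_induction_on with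
  | _ i ih =>
    by_cases hi : i < n
    · exact ⟨i, hi, Or.inl rfl⟩
    · obtain ⟨j, hj, hj'⟩ := ih (i - n) (by omega)
      have h1 : s i = s (i - n) + h := by
        rw [← hs.1, Nat.sub_add_cancel (by omega)]
      refine ⟨j, hj, ?_⟩
      rcases hj' with h2 | h2
      · exact Or.inr (by rw [h1, h2])
      · exact Or.inl (by rw [h1, h2, add_assoc, dk_self, add_zero])

lemma dk_rim {n : ℕ} {h : V} {s : ℕ → V} (hn : 1 ≤ n) (hs : Spk n h s) (i : ℕ) :
    ∃ j < n, s i + s (i + 1) = s j + s (j + 1) := by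
  induction i using Nat.strong_induction_on with
  | _ i ih =>
    by_cases hi : i < n
    · exact ⟨i, hi, rfl⟩
    · obtain ⟨j, hj, hj'⟩ := ih (i - n) (by omega)
      refine ⟨j, hj, ?_⟩
      rw [← hj']
      have h1 : s i = s (i - n) + h := by
        rw [← hs.1, Nat.sub_add_cancel (by omega)]
      have h2 : s (i + 1) = s (i - n + 1) + h := by
        rw [← hs.1]
        congr 1
        omega
      rw [h1, h2]
      have : s (i - n) + h + (s (i - n + 1) + h) = s (i - n) + s (i - n + 1) + (h + h) := by abel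
      rw [this, dk_self, add_zero]

/-- four independent vectors in a subspace -/
lemma dk_four [FiniteDimensional (ZMod 2) V] {U : Submodule (ZMod 2) V} {v₀ v₁ v₂ v₃ : V}
    (h0 : v₀ ∈ U) (h1 : v₁ ∈ U) (h2 : v₂ ∈ U) (h3 : v₃ ∈ U)
    (h : ∀ c₀ c₁ c₂ c₃ : ZMod 2, c₀ • v₀ + c₁ • v₁ + c₂ • v₂ + c₃ • v₃ = 0 →
      c₀ = 0 ∧ c₁ = 0 ∧ c₂ = 0 ∧ c₃ = 0) : 4 ≤ finrank (ZMod 2) U := by
  have hli : LinearIndependent (ZMod 2) ![v₀, v₁, v₂, v₃] := by
    rw [Fintype.linearIndependent_iff]
    intro g hg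
    rw [Fin.sum_univ_four] at hg
    simp only [Matrix.cons_val_zero, Matrix.cons_val_one, Matrix.cons_val] at hg
    obtain ⟨a, b, c, d⟩ := h _ _ _ _ hg
    intro i
    fin_cases i
    · exact a
    · exact b
    · exact c
    · exact d
  have h5 := finrank_span_eq_card hli
  rw [Fintype.card_fin] at h5
  refine le_trans (le_of_eq h5.symm) ?_
  apply Submodule.finrank_mono
  rw [span_le]
  rintro x ⟨i, rfl⟩
  fin_cases i
  · exact h0
  · exact h1
  · exact h2
  · exact h3

end coord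

universe u

private lemma dk_shift_one {V : Type u} [AddCommGroup V] [Module (ZMod 2) V] {n : ℕ} {h : V}
    {s : ℕ → V} {S : Set V} (hn : 1 ≤ n) (hs : Spk n h s) (hS : DelSet h s S) :
    Spk n h (fun i => s (i + 1)) ∧ DelSet h (fun i => s (i + 1)) S := by
  have hfin := dk_fin hs
  have h0 : s 0 = s (n - 1 + 1) + h := by
    rw [Nat.sub_add_cancel hn, ← Nat.zero_add n, hs.1, add_assoc, dk_self, add_zero]
  refine ⟨⟨?_, ?_, hs.2.2⟩, ?_⟩
  · intro i
    change s (i + n + 1) = s (i + 1) + h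
    rw [← hs.1]
    congr 1
    omega
  · refine linearIndependent_of_top_le_span_of_card_eq_finrank ?_
      (by rw [Fintype.card_fin, hs.2.2])
    have hh : h ∈ span (ZMod 2)
        (Set.range (Fin.cons h (fun i : Fin n => s (i + 1)) : Fin (n + 1) → V)) :=
      subset_span ⟨0, rfl⟩
    have hi : ∀ i < n, s (i + 1) ∈ span (ZMod 2)
        (Set.range (Fin.cons h (fun i : Fin n => s (i + 1)) : Fin (n + 1) → V)) := fun i hi =>
      subset_span ⟨Fin.succ ⟨i, hi⟩, rfl⟩
    rw [← dk_top hs (A := span (ZMod 2)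
        (Set.range (Fin.cons h (fun i : Fin n => s (i + 1)) : Fin (n + 1) → V))) hh ?_]
    intro i hin
    cases i with
    | zero =>
      rw [h0]
      exact add_mem (hi _ (by omega)) hh
    | succ i => exact hi i (by omega)
  · intro v
    rw [hS v]
    have hp0 : s 0 = s (n + n - 1 + 1) := by
      have : n + n - 1 + 1 = 0 + n + n := by omega
      rw [this, dk_per hs]
    have hp1 : s 1 = s (n + n - 1 + 1 + 1) := by
      have : n + n - 1 + 1 + 1 = 1 + n + n := by omega
      rw [this, dk_per hs]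
    constructor
    · rintro (h1 | ⟨i, h1⟩ | ⟨i, h1⟩)
      · exact Or.inl h1
      · right; left
        cases i with
        | zero => exact ⟨n + n - 1, by rw [h1, hp0]⟩
        | succ i => exact ⟨i, h1⟩
      · right; right
        cases i with
        | zero => exact ⟨n + n - 1, by rw [h1, hp0]; congr 1⟩
        | succ i => exact ⟨i, h1⟩
    · rintro (h1 | ⟨i, h1⟩ | ⟨i, h1⟩)
      · exact Or.inl h1
      · exact Or.inr (Or.inl ⟨i + 1, h1⟩)
      · exact Or.inr (Or.inr ⟨i + 1, h1⟩)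

theorem kDelShift : KDelShift.{u} := by
  intro V _ _ n h s S k hn hs hS
  induction k with
  | zero => exact ⟨hs, hS⟩
  | succ k ih =>
    have h1 := dk_shift_one hn ih.1 ih.2
    have h2 : (fun i => (fun i => s (i + k)) (i + 1)) = fun i => s (i + (k + 1)) := by
      funext i
      change s (i + 1 + k) = s (i + (k + 1))
      congr 1
      omega
    rw [h2] at h1
    exact h1

end Pool.Agent.WW

end

section

/-!
M2: the interfaces of the module K4 with the other modules.
-/

namespace Pool.Agent.WW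

open Submodule Module

universe u

theorem kInt_span {V : Type u} [AddCommGroup V] [Module (ZMod 2) V]
    [FiniteDimensional (ZMod 2) V] {E : Set V} {H : Submodule (ZMod 2) V} {a b c d : V}
    (hsep : SepGe E 4) (h5 : 5 ≤ finrank (ZMod 2) V) (hH : H ≠ ⊤)
    (hset : E \ (H : Set V) = {a, b, c, d}) : False := by
  have hdim : finrank (ZMod 2) ↥(span (ZMod 2) (E \ (H : Set V))) ≤ 4 := by
    have h1 : (E \ (H : Set V)) = Set.range ![a, b, c, d] := by
      rw [hset]
      ext x
      simp [eq_comm]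
      tauto
    rw [h1]
    exact (finrank_range_le_card (R := ZMod 2) ![a, b, c, d]).trans (by simp)
  have hne : span (ZMod 2) (E \ (H : Set V)) ≠ ⊤ := by
    intro h
    rw [h, finrank_top] at hdim
    omega
  have h4 := hsep (span (ZMod 2) (E \ (H : Set V))) H hne hH (by
    intro x hx
    by_cases hxH : x ∈ H
    · exact Or.inr hxH
    · exact Or.inl (subset_span ⟨hx, hxH⟩))
  have h5 : span (ZMod 2) (E \ (H : Set V)) ⊓ H = span (ZMod 2) (E \ (H : Set V)) :=
    Submodule.eq_of_le_of_finrank_le inf_le_left (by omega)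
  have ha : a ∈ E \ (H : Set V) := by
    rw [hset]
    simp
  have h6 : a ∈ span (ZMod 2) (E \ (H : Set V)) ⊓ H := by
    rw [h5]
    exact subset_span ha
  exact ha.2 h6.2

theorem kInt (_h0 : ClaimCovDim.{u}) (h1 : ClaimCtrGood.{u}) (h2 : KDelCard.{u})
    (h3 : KDelC4.{u}) : KInt.{u} := by
  intro hHIT hP2
  refine ⟨?_, ?_, ?_⟩
  · intro V _ _ _ E hG h6 hno
    by_contra hK
    exact h3 V (finrank (ZMod 2) V - 1) E (by omega) (hP2 _ h6 V E hG rfl hK) hno
  · intro V _ _ _ _ W _ _ _ _ E π e hsurj hπ heE hG hsep hK h7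
    have hctr : Ctr (E : Set V) e := fun A B hAB _ => hsep A B hAB.1 hAB.2.1 hAB.2.2
    obtain ⟨hgood, hdim⟩ := h1 V W E π e hsurj hπ heE hG hctr
    by_contra hKW
    obtain ⟨h, s, hs, hd⟩ := hP2 (finrank (ZMod 2) W) (by omega) W _ hgood rfl hKW
    obtain ⟨j, H, a, b, c, d, hH, heH, hset, -⟩ := hHIT V W E π e (finrank (ZMod 2) W - 1) h s
      hsurj hπ hG.zero heE hG.free (by omega) hs hd
    exact kInt_span hsep (by omega) hH hset
  · intro V _ _ _ _ E hG h6 hK
    have hdel := hP2 _ h6 V (E : Set V) hG rfl hK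
    have hcard := h2 V (finrank (ZMod 2) V - 1) (E : Set V) (by omega) hdel
    rw [Set.ncard_coe_finset] at hcard
    omega

end Pool.Agent.WW

end

section

/-!
E6: a noncontractible element whose image is contractible.
-/

namespace Pool.Agent.WW

open Submodule Module

universe u

section

variable {V W : Type*} [AddCommGroup V] [Module (ZMod 2) V] [FiniteDimensional (ZMod 2) V]
  [AddCommGroup W] [Module (ZMod 2) W] [FiniteDimensional (ZMod 2) W]

omit [FiniteDimensional (ZMod 2) V] [FiniteDimensional (ZMod 2) W] in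
theorem kLiftCtr_ker (π : V →ₗ[ZMod 2] W) (e : V) (hker : ∀ v, π v = 0 ↔ v = 0 ∨ v = e) :
    LinearMap.ker π = span (ZMod 2) {e} := by
  ext v
  rw [LinearMap.mem_ker, hker, mem_span_singleton]
  constructor
  · rintro (rfl | rfl)
    · exact ⟨0, zero_smul _ _⟩
    · exact ⟨1, one_smul _ _⟩
  · rintro ⟨a, rfl⟩
    fin_cases a
    · left; exact zero_smul _ _
    · right; exact one_smul _ _

theorem kLiftCtr_map (π : V →ₗ[ZMod 2] W) (e : V) (hπ : Function.Surjective π)
    (hker : ∀ v, π v = 0 ↔ v = 0 ∨ v = e) (he0 : e ≠ 0) (X : Submodule (ZMod 2) V) :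
    finrank (ZMod 2) ↥(X.map π) + 1 = finrank (ZMod 2) ↥(X ⊔ span (ZMod 2) {e}) := by
  have h1 := c4_finrank_comap π e hπ hker he0 (X.map π)
  rw [Submodule.comap_map_eq, kLiftCtr_ker π e hker] at h1
  exact h1.symm

theorem kLiftCtr_in (π : V →ₗ[ZMod 2] W) (e : V) (hπ : Function.Surjective π)
    (hker : ∀ v, π v = 0 ↔ v = 0 ∨ v = e) (he0 : e ≠ 0) (X : Submodule (ZMod 2) V)
    (he : e ∈ X) : finrank (ZMod 2) ↥(X.map π) + 1 = finrank (ZMod 2) X := by
  rw [kLiftCtr_map π e hπ hker he0 X]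
  have : X ⊔ span (ZMod 2) {e} = X := by
    rw [sup_eq_left, span_singleton_le_iff_mem]
    exact he
  rw [this]

theorem kLiftCtr_out (π : V →ₗ[ZMod 2] W) (e : V) (hπ : Function.Surjective π)
    (hker : ∀ v, π v = 0 ↔ v = 0 ∨ v = e) (he0 : e ≠ 0) (X : Submodule (ZMod 2) V)
    (he : e ∉ X) : finrank (ZMod 2) ↥(X.map π) = finrank (ZMod 2) X := by
  have h1 := kLiftCtr_map π e hπ hker he0 X
  have h2 := finrank_sup_singleton' X e he
  omega

theorem kLiftCtr_ne (X : Submodule (ZMod 2) W) (h : finrank (ZMod 2) X ≠ finrank (ZMod 2) W) :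
    X ≠ ⊤ := by
  rintro rfl
  exact h (finrank_top _ _)

end

theorem kLiftCtr (h1 : ClaimCovDim.{u}) : KLiftCtr.{u} := by
  intro V _ _ _ _ W _ _ _ _ E π e c A B hπ hker heE hE hN hcov hAB hcE hcA hcB hce hC
  have he0 : e ≠ 0 := by
    rintro rfl
    exact hE.zero heE
  have hW := c4_finrank_comap π e hπ hker he0 ⊤
  rw [Submodule.comap_top, finrank_top, finrank_top] at hW
  obtain ⟨hsup, hdim, -, -⟩ := h1 V (E : Set V) A B hE.span hcov
  rw [hAB] at hdim
  obtain ⟨hA, hB, hc⟩ := hcov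
  have hAlt : finrank (ZMod 2) A < finrank (ZMod 2) V := Submodule.finrank_lt hA
  have hBlt : finrank (ZMod 2) B < finrank (ZMod 2) V := Submodule.finrank_lt hB
  have key : A.map π ≠ ⊤ → B.map π ≠ ⊤ → Cov (contr π E : Set W) (A.map π) (B.map π) ∧
      finrank (ZMod 2) ↥(A.map π ⊓ B.map π) + finrank (ZMod 2) W =
        finrank (ZMod 2) ↥(A.map π) + finrank (ZMod 2) ↥(B.map π) := by
    intro hA' hB'
    have hcov' : Cov (contr π E : Set W) (A.map π) (B.map π) := by
      refine ⟨hA', hB', ?_⟩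
      intro x hx
      rw [contr, Finset.mem_coe, Finset.mem_erase, Finset.mem_image] at hx
      obtain ⟨-, y, hy, rfl⟩ := hx
      rcases hc y hy with h | h
      · exact Or.inl (mem_map_of_mem h)
      · exact Or.inr (mem_map_of_mem h)
    exact ⟨hcov', (h1 W _ _ _ hN.span hcov').2.1⟩
  have hsep := ((good_iff_sepGe _).1 hN).2.2.1
  by_cases heA : e ∈ A
  · have h2 := kLiftCtr_in π e hπ hker he0 A heA
    by_cases heB : e ∈ B
    · exfalso
      have h3 := kLiftCtr_in π e hπ hker he0 B heB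
      have h4 := key (kLiftCtr_ne _ (by omega)) (kLiftCtr_ne _ (by omega))
      have h5 := hsep _ _ h4.1.1 h4.1.2.1 h4.1.2.2
      omega
    · right
      refine ⟨heB, ?_⟩
      by_contra hne
      have h3 := kLiftCtr_out π e hπ hker he0 B heB
      have h4 := key (kLiftCtr_ne _ (by omega)) (kLiftCtr_ne _ (by omega))
      have h5 := hC _ _ h4.1 ⟨mem_map_of_mem hcA, mem_map_of_mem hcB⟩
      omega
  · have heB : e ∈ B := (hc e heE).resolve_left heA
    have h2 := kLiftCtr_in π e hπ hker he0 B heB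
    left
    refine ⟨heA, ?_⟩
    by_contra hne
    have h3 := kLiftCtr_out π e hπ hker he0 A heA
    have h4 := key (kLiftCtr_ne _ (by omega)) (kLiftCtr_ne _ (by omega))
    have h5 := hC _ _ h4.1 ⟨mem_map_of_mem hcA, mem_map_of_mem hcB⟩
    omega

end Pool.Agent.WW

end

section

/-!
E2: the image of a `K4` plane.
-/

namespace Pool.Agent.WW

open Submodule Module

universe u

/-- E2: the image of a `K4` plane, with `0` not in `E` -/
def KMap' : Prop := ∀ (V : Type u) [AddCommGroup V] [Module (ZMod 2) V]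
  [FiniteDimensional (ZMod 2) V] [DecidableEq V] (W : Type u) [AddCommGroup W]
  [Module (ZMod 2) W] [FiniteDimensional (ZMod 2) W] [DecidableEq W] (E : Finset V)
  (π : V →ₗ[ZMod 2] W) (e : V) (P : Submodule (ZMod 2) V), Function.Surjective π →
  (∀ v, π v = 0 ↔ v = 0 ∨ v = e) → e ∉ P → K4P (E : Set V) P → (0 : V) ∉ E →
  K4P (contr π E : Set W) (P.map π)

theorem kMap : KMap'.{u} := by
  intro V _ _ _ _ W _ _ _ _ E π e P _ hker heP hP h0
  obtain ⟨hP3, h6⟩ := hP
  have hinj : Function.Injective (π.domRestrict P) := by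
    rw [← LinearMap.ker_eq_bot, LinearMap.ker_eq_bot']
    rintro ⟨x, hx⟩ hx0
    rw [LinearMap.domRestrict_apply] at hx0
    rcases (hker x).1 hx0 with h | h
    · exact Subtype.ext h
    · exact absurd (h ▸ hx) heP
  refine ⟨?_, ?_⟩
  · rw [← LinearMap.range_domRestrict, LinearMap.finrank_range_of_inj hinj, hP3]
  · have hinjOn : Set.InjOn π ((E : Set V) ∩ (P : Set V)) := by
      rintro x ⟨_, hx⟩ y ⟨_, hy⟩ hxy
      have := @hinj ⟨x, hx⟩ ⟨y, hy⟩ hxy
      exact congrArg Subtype.val this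
    have hsub : π '' ((E : Set V) ∩ (P : Set V)) ⊆
        (contr π E : Set W) ∩ ((P.map π : Submodule (ZMod 2) W) : Set W) := by
      rintro _ ⟨x, ⟨hx, hxP⟩, rfl⟩
      refine ⟨?_, Submodule.mem_map_of_mem hxP⟩
      rw [Finset.mem_coe, contr, Finset.mem_erase]
      refine ⟨fun h => ?_, Finset.mem_image_of_mem _ hx⟩
      rcases (hker x).1 h with h | h
      · exact h0 (h ▸ hx)
      · exact heP (h ▸ hxP)
    calc 6 ≤ ((E : Set V) ∩ (P : Set V)).ncard := h6
      _ = (π '' ((E : Set V) ∩ (P : Set V))).ncard := hinjOn.ncard_image.symm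
      _ ≤ _ := Set.ncard_le_ncard hsub ((Finset.finite_toSet _).inter_of_left _)

end Pool.Agent.WW

end

section

/-!
Module K4, item M1: the classification of the good sets with a `K4` plane in all ranks.
-/

namespace Pool.Agent.WW

open Submodule Module

universe u

/-- a set which is not `K4F` has a `K4` plane -/
theorem kP2_exists_plane {V : Type u} [AddCommGroup V] [Module (ZMod 2) V] (E : Set V)
    (h : ¬ K4F E) : ∃ P : Submodule (ZMod 2) V, K4P E P := by
  unfold K4F at h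
  push Not at h
  obtain ⟨P, hP, h5⟩ := h
  exact ⟨P, hP, h5⟩

/-- M1: the classification in all ranks -/
theorem kP2 (h1 : KStep1.{u}) (h2 : KS2.{u}) (h3 : KS3.{u}) (h5 : KS5.{u}) : KP2.{u} := by
  intro hL4 hHIT hTab h6 r
  induction r using Nat.strong_induction_on with
  | _ r ih =>
    intro hr
    rcases Nat.lt_or_ge r 7 with h7 | h7
    · have : r = 6 := by omega
      subst this
      exact h6
    · intro V _ _ _ E hG hrank hK
      obtain ⟨P, hP⟩ := kP2_exists_plane E hK
      have h7' : 7 ≤ finrank (ZMod 2) V := by omega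
      by_cases hc : ∃ e ∈ E, e ∉ P ∧ Ctr E e
      · obtain ⟨e, he, heP, hctr⟩ := hc
        have hP1 : P2.{u} (finrank (ZMod 2) V - 1) := by
          rw [hrank]
          exact ih (r - 1) (by omega) (by omega)
        have h := h1 hL4 hHIT V E P e hG h7' hP1 hP he heP hctr
        rw [hrank] at h
        exact h
      · exfalso
        push Not at hc
        have hd : ∀ d, 6 ≤ d → d < finrank (ZMod 2) V → P2.{u} d := by
          intro d hd6 hdr
          exact ih d (by omega) hd6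
        have hA5 : ∀ G H : Submodule (ZMod 2) V, Away E P G H → finrank (ZMod 2) G ≤ 5 := by
          intro G H hGH
          exact h2 V E P G H hG hP hc hd hGH
        have hA4 := h3 hTab V E P hG h7' hP hc hA5
        refine h5 hTab V E P hG h7' hP hc hA4 ?_
        intro h8
        exact hd _ (by omega) (by omega)

end Pool.Agent.WW

end

section

/-!
Item F4 of the module K4: away sides have dimension at most five.
-/

namespace Pool.Agent.WW

open Submodule Module

universe u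

theorem kS2 (h1 : KW.{u}) (h2 : KTrace.{u}) (h3 : KDelCore.{u}) : KS2.{u} := by
  intro V _ _ _ E P G H hE hP hc hP2 hA
  by_contra hcon
  push Not at hcon
  have hd : 6 ≤ finrank (ZMod 2) G := hcon
  obtain ⟨q, hq, hq0, hW⟩ := h1 V E P G H hE hP hA
  set W : Set ↥G := (fun x : G => (x : V)) ⁻¹' (E ∪ {x | x ∈ G ⊓ H ∧ x ≠ 0 ∧ x ≠ q}) with hWdef
  have hlt : finrank (ZMod 2) G < finrank (ZMod 2) V := Submodule.finrank_lt hA.1.1
  have hdim : finrank (ZMod 2) ↥(H.comap G.subtype) = 3 := by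
    rw [← Submodule.finrank_map_subtype_eq G (H.comap G.subtype), Submodule.map_comap_subtype]
    exact hA.2.1
  have hqG : q ∈ G := hq.1
  -- the six points
  have hK4 : K4P W (H.comap G.subtype) := by
    refine ⟨hdim, ?_⟩
    have hcard : ((H.comap G.subtype : Submodule (ZMod 2) G) : Set G).ncard = 8 := by
      have h8 := Module.natCard_eq_pow_finrank (K := ZMod 2) (V := ↥(H.comap G.subtype))
      rw [hdim, Nat.card_zmod] at h8
      exact h8
    have hfin : ((H.comap G.subtype : Submodule (ZMod 2) G) : Set G).Finite :=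
      Set.finite_of_ncard_ne_zero (by rw [hcard]; norm_num)
    have hsub : ((H.comap G.subtype : Submodule (ZMod 2) G) : Set G) \ {0, ⟨q, hqG⟩} ⊆
        W ∩ ((H.comap G.subtype : Submodule (ZMod 2) G) : Set G) := by
      rintro x ⟨hx, hxn⟩
      refine ⟨Or.inr ⟨⟨x.2, hx⟩, ?_, ?_⟩, hx⟩
      · intro h
        exact hxn (Or.inl (Subtype.ext h))
      · intro h
        exact hxn (Or.inr (Subtype.ext h))
    have hle := Set.ncard_le_ncard hsub (hfin.inter_of_right _)
    have h2le : ({0, ⟨q, hqG⟩} : Set G).ncard ≤ 2 := by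
      refine (Set.ncard_insert_le _ _).trans ?_
      rw [Set.ncard_singleton]
    have hdiff := Set.le_ncard_sdiff ({0, ⟨q, hqG⟩} : Set G)
      ((H.comap G.subtype : Submodule (ZMod 2) G) : Set G)
    omega
  have hnot : ¬ K4F W := fun hF => by
    have h5 := hF _ hdim
    have h6 := hK4.2
    omega
  have hDel : IsDel (finrank (ZMod 2) G - 1) W := hP2 _ hd hlt G W hW rfl hnot
  obtain ⟨g, hgW, hgΓ, hgC, hgR⟩ := h3 G (finrank (ZMod 2) G - 1) W (H.comap G.subtype)
    (by omega) hDel hK4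
  have hgH : (g : V) ∉ H := hgΓ
  have hgE : (g : V) ∈ E := by
    rcases hgW with h | h
    · exact h
    · exact absurd h.1.2 hgH
  have hgP : (g : V) ∉ P := fun h => hgH (hA.2.2 h)
  obtain ⟨T, T', _, _, _, _, hR3, hTr, _, _⟩ :=
    h2 V E P G H q g hE hP hA hq hq0 hgE hgH (hc _ hgE hgP) hgC
  have h4 := hgR _ _ hTr
  omega

end Pool.Agent.WW

end

section

/-!
F5: away sides have dimension four.
-/

namespace Pool.Agent.WW

open Submodule Module

universe u

section

variable {V : Type u} [AddCommGroup V] [Module (ZMod 2) V] [FiniteDimensional (ZMod 2) V]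

omit [FiniteDimensional (ZMod 2) V] in
theorem s3_fr (G H : Submodule (ZMod 2) V) :
    finrank (ZMod 2) ↥(H.comap G.subtype) = finrank (ZMod 2) ↥(G ⊓ H) := by
  rw [← Submodule.map_comap_subtype, Submodule.finrank_map_subtype_eq]

theorem s3_k4p (E : Set V) (G H : Submodule (ZMod 2) V) (q : V)
    (hd : finrank (ZMod 2) ↥(G ⊓ H) = 3) (hq : q ∈ G ⊓ H) (hq0 : q ≠ 0) :
    K4P ((fun x : G => (x : V)) ⁻¹' (E ∪ {x | x ∈ G ⊓ H ∧ x ≠ 0 ∧ x ≠ q}))
      (H.comap G.subtype) := by
  refine ⟨by rw [s3_fr, hd], ?_⟩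
  have : Finite V := Module.finite_of_finite (ZMod 2)
  have h8 : ((G ⊓ H : Submodule (ZMod 2) V) : Set V).ncard = 8 := by
    have h := Module.natCard_eq_pow_finrank (K := ZMod 2) (V := ↥(G ⊓ H))
    rw [hd, Nat.card_zmod] at h
    exact h
  have h6 : (((G ⊓ H : Submodule (ZMod 2) V) : Set V) \ {0, q}).ncard = 6 := by
    rw [Set.ncard_sdiff, h8, Set.ncard_pair hq0.symm]
    · rintro x (rfl | rfl)
      · exact zero_mem _
      · exact hq
  set S : Set G := ((fun x : G => (x : V)) ⁻¹' (E ∪ {x | x ∈ G ⊓ H ∧ x ≠ 0 ∧ x ≠ q})) ∩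
    (H.comap G.subtype : Submodule (ZMod 2) G) with hS
  have hi : ((fun x : G => (x : V)) '' S).ncard = S.ncard :=
    Set.ncard_image_of_injective _ Subtype.val_injective
  rw [← hi, ← h6]
  refine Set.ncard_le_ncard ?_ (Set.toFinite _)
  rintro x ⟨hx, hx2⟩
  have hx' : x ∈ G ⊓ H := hx
  have hx0 : x ≠ 0 := fun h => hx2 (Or.inl h)
  have hxq : x ≠ q := fun h => hx2 (Or.inr h)
  exact ⟨⟨x, hx'.1⟩, ⟨Or.inr ⟨hx', hx0, hxq⟩, hx'.2⟩, rfl⟩

theorem s3_dims (h0 : ClaimCovDim.{u}) {E : Set V} {P G H : Submodule (ZMod 2) V} (hE : Good E)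
    (hA : Away E P G H) :
    3 + finrank (ZMod 2) V = finrank (ZMod 2) G + finrank (ZMod 2) H ∧
      4 ≤ finrank (ZMod 2) G := by
  have h := (h0 V E G H hE.span hA.1).2.1
  rw [hA.2.1] at h
  have hH : finrank (ZMod 2) H < finrank (ZMod 2) V := Submodule.finrank_lt hA.1.2.1
  exact ⟨h, by omega⟩

theorem s3_step (h0 : ClaimCovDim.{u}) (h2 : KTrace.{u}) (hT : TabK5.{u}) {E : Set V}
    {P : Submodule (ZMod 2) V} (hE : Good E) (hr : 7 ≤ finrank (ZMod 2) V) (hP : K4P E P)
    (hc : ∀ e ∈ E, e ∉ P → ¬ Ctr E e)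
    (hb : ∀ G H : Submodule (ZMod 2) V, Away E P G H → finrank (ZMod 2) G ≤ 5)
    (G H : Submodule (ZMod 2) V) (hA : Away E P G H) (h5 : finrank (ZMod 2) G = 5) (q : V)
    (hq : q ∈ G ⊓ H) (hq0 : q ≠ 0)
    (hW : Good ((fun x : G => (x : V)) ⁻¹' (E ∪ {x | x ∈ G ⊓ H ∧ x ≠ 0 ∧ x ≠ q})))
    (x : ↥G) (hxW : x ∈ (fun x : G => (x : V)) ⁻¹' (E ∪ {x | x ∈ G ⊓ H ∧ x ≠ 0 ∧ x ≠ q}))
    (hxH : (x : V) ∈ H) :
    (∃ (T T' : Submodule (ZMod 2) V) (g : V), Away E P T T' ∧ finrank (ZMod 2) T = 5 ∧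
      g ∈ E ∧ g ∈ T ∧ g ∈ T') ∧ (x : V) ∉ E := by
  have hK := s3_k4p E G H q hA.2.1 hq hq0
  have hnK : ¬ K4F ((fun x : G => (x : V)) ⁻¹' (E ∪ {x | x ∈ G ⊓ H ∧ x ≠ 0 ∧ x ≠ q})) := by
    intro h
    have := h _ hK.1
    have := hK.2
    omega
  obtain ⟨-, ht⟩ := hT ↥G _ h5 hW hnK
  obtain ⟨g, hgW, hgΓ, hgC, hgT⟩ := ht (H.comap G.subtype) x hK hxW hxH
  have hgH : (g : V) ∉ H := hgΓ
  have hgE : (g : V) ∈ E := by
    rcases hgW with h | h
    · exact h
    · exact absurd h.1.2 hgH
  have hgP : (g : V) ∉ P := fun h => hgH (hA.2.2 h)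
  obtain ⟨T, T', hTA, hgT1, hgT2, -, hR3, hTr, hR3', hQ4⟩ :=
    h2 V E P G H q g hE hP hA hq hq0 hgE hgH (hc _ hgE hgP) hgC
  obtain ⟨h3R, hfin⟩ := hgT _ _ hTr
  have hR : finrank (ZMod 2) ↥(T.comap G.subtype) = 3 := by omega
  have hGT : finrank (ZMod 2) ↥(G ⊓ T) = 3 := by rw [← s3_fr, hR]
  have hsum := Submodule.finrank_sup_add_finrank_inf_eq G T
  obtain ⟨hdT, h4T⟩ := s3_dims h0 hE hTA
  have h5T := hb T T' hTA
  have htop : G ⊔ T = ⊤ := by
    rcases hR3' hR with h | h
    · exact h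
    · have := hb _ _ h
      omega
  rw [htop, finrank_top] at hsum
  have hT5 : finrank (ZMod 2) T = 5 := by omega
  have hr7 : finrank (ZMod 2) V = 7 := by omega
  have hT'5 : finrank (ZMod 2) T' = 5 := by omega
  refine ⟨⟨T, T', g, hTA, hT5, hgE, hgT1, hgT2⟩, fun hxE => ?_⟩
  refine hfin hR ?_ ?_
  · rcases hTA.1.2.2 _ hxE with h | h
    · exact Or.inr h
    · exact Or.inl h
  · intro hQ
    have hGT' : finrank (ZMod 2) ↥(T'.comap G.subtype) = finrank (ZMod 2) ↥(G ⊓ T') :=
      s3_fr G T'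
    have hsum' := Submodule.finrank_sup_add_finrank_inf_eq G T'
    have hne : G ⊔ T' ≠ ⊤ := by
      intro h
      rw [h, finrank_top] at hsum'
      omega
    refine (hQ4 hne hQ).trans (span_mono ?_)
    rintro y ⟨hy, hyH, hyT⟩
    exact ⟨Or.inl hy, hyH, hyT⟩

end

theorem kS3 (h0 : ClaimCovDim.{u}) (h1 : KW.{u}) (h2 : KTrace.{u}) : KS3.{u} := by
  intro hT V _ _ _ E P hE hr hP hc hb G H hA
  obtain ⟨-, h4⟩ := s3_dims h0 hE hA
  have h5 := hb G H hA
  by_contra hne
  have h5' : finrank (ZMod 2) G = 5 := by omega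
  obtain ⟨q, hq, hq0, hW⟩ := h1 V E P G H hE hP hA
  have hK := s3_k4p E G H q hA.2.1 hq hq0
  have hx : (((fun x : G => (x : V)) ⁻¹' (E ∪ {x | x ∈ G ⊓ H ∧ x ≠ 0 ∧ x ≠ q})) ∩
      (H.comap G.subtype : Submodule (ZMod 2) G)).Nonempty := by
    rw [Set.nonempty_iff_ne_empty]
    intro h
    have := hK.2
    rw [h, Set.ncard_empty] at this
    omega
  obtain ⟨x, hxW, hxH⟩ := hx
  obtain ⟨⟨T, T', g, hTA, hT5, hgE, hgT, hgT'⟩, -⟩ :=
    s3_step h0 h2 hT hE hr hP hc hb G H hA h5' q hq hq0 hW x hxW hxH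
  obtain ⟨q', hq', hq0', hW'⟩ := h1 V E P T T' hE hP hTA
  exact (s3_step h0 h2 hT hE hr hP hc hb T T' hTA hT5 q' hq' hq0' hW' ⟨g, hgT⟩
    (Or.inl hgE) hgT').2 hgE

end Pool.Agent.WW

end

section

/-! Step 0: there is no away side which is a hyperplane, except in `Delta`. -/

namespace Pool.Agent.WW

open Submodule Module

universe u

theorem kStep0_aux {V : Type u} [AddCommGroup V] [Module (ZMod 2) V]
    [FiniteDimensional (ZMod 2) V] {E : Set V} {P G H : Submodule (ZMod 2) V} {x : V}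
    (hsep : SepGe E 3) (hcov : ∀ y ∈ E, y ∈ G ∨ y ∈ H) (hP3 : finrank (ZMod 2) P = 3)
    (hPH : P ≤ H) (hH4 : finrank (ZMod 2) H = 4) (hxE : x ∈ E) (hxG : x ∉ G) (hxP : x ∉ P)
    {A B : Submodule (ZMod 2) V} (hAB : Cov E A B) (hx : x ∈ A ⊓ B)
    (h3 : finrank (ZMod 2) ↥(A ⊓ B) ≤ 3) (hPA : P ≤ A) : False := by
  have hxH : x ∈ H := (hcov x hxE).resolve_left hxG
  have hsup : P ⊔ span (ZMod 2) {x} = H := by
    have hle : P ⊔ span (ZMod 2) {x} ≤ H := by
      apply sup_le hPH
      rw [span_le, Set.singleton_subset_iff]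
      exact hxH
    apply Submodule.eq_of_le_of_finrank_le hle
    have hlt : P < P ⊔ span (ZMod 2) {x} := by
      apply lt_of_le_of_ne le_sup_left
      intro h
      apply hxP
      rw [h]
      exact mem_sup_right (mem_span_singleton_self x)
    have := Submodule.finrank_lt_finrank_of_lt hlt
    omega
  have hHA : H ≤ A := by
    rw [← hsup]
    apply sup_le hPA
    rw [span_le, Set.singleton_subset_iff]
    exact hx.1
  have h4 : 3 ≤ finrank (ZMod 2) ↥(A ⊓ (B ⊓ G)) := by
    apply hsep A (B ⊓ G) hAB.1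
    · intro h
      apply hAB.2.1
      rw [eq_top_iff, ← h]
      exact inf_le_left
    · intro y hy
      rcases hAB.2.2 y hy with h | h
      · exact Or.inl h
      · rcases hcov y hy with h5 | h5
        · exact Or.inr ⟨h, h5⟩
        · exact Or.inl (hHA h5)
  have hlt : A ⊓ (B ⊓ G) < A ⊓ B := by
    apply lt_of_le_of_ne (inf_le_inf_left A inf_le_left)
    intro h
    apply hxG
    have h5 : x ∈ A ⊓ (B ⊓ G) := by
      rw [h]
      exact hx
    exact h5.2.2
  have := Submodule.finrank_lt_finrank_of_lt hlt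
  omega

theorem kStep0 (h1 : ClaimCovDim.{u}) (h2 : KUnsp.{u}) (h3 : KStepA.{u}) : KStep0.{u} := by
  intro hKL V _ _ _ E P G H hG h7 hP2 hP hA hdG
  obtain ⟨hcov, hguts, hPH⟩ := hA
  obtain ⟨h0, hspan, hsep, hfree⟩ := (good_iff_sepGe E).1 hG
  have hcov' : Cov E H G := ⟨hcov.2.1, hcov.1, fun y hy => (hcov.2.2 y hy).symm⟩
  have c1 := h1 V E G H hspan hcov
  have hH4 : finrank (ZMod 2) H = 4 := by
    have := c1.2.1
    omega
  have c2 := (h1 V E H G hspan hcov').2.2.2 hsep (by rw [inf_comm]; exact hguts)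
  have hCoc : Coc4 E G := ⟨hdG, by rw [c2]; exact hH4⟩
  obtain ⟨x, hxE, hxG, hxP⟩ : ∃ x ∈ E, x ∉ G ∧ x ∉ P := by
    by_contra hcon
    push Not at hcon
    have h5 : span (ZMod 2) (E \ (G : Set V)) ≤ P :=
      span_le.2 fun y hy => hcon y hy.1 hy.2
    have h6 := Submodule.finrank_mono h5
    rw [c2, hH4, hP.1] at h6
    omega
  have hctr : Ctr E x := by
    intro A B hAB hx
    by_contra hcon
    have hle : finrank (ZMod 2) ↥(A ⊓ B) ≤ 3 := by omega
    rcases h2 V E P h0 hP A B (fun y hy _ => hAB.2.2 y hy) with hPA | hPB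
    · exact kStep0_aux hsep hcov.2.2 hP.1 hPH hH4 hxE hxG hxP hAB hx hle hPA
    · have hBA : Cov E B A := ⟨hAB.2.1, hAB.1, fun y hy => (hAB.2.2 y hy).symm⟩
      exact kStep0_aux hsep hcov.2.2 hP.1 hPH hH4 hxE hxG hxP hBA ⟨hx.2, hx.1⟩
        (by rw [inf_comm]; exact hle) hPB
  exact h3 hKL V E P G x hG h7 hP2 hP hCoc hxE hxG hxP hctr

end Pool.Agent.WW

end
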