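import Pool.Agent.Work.MP_a8f287_co.Bd.B02

/-! Part of the former bundles, compiled separately. -/

section

/-!
Table for L4 with five spokes. Codes below 128: `1` is the extra element `g`, `2` is the hub,
`4, 8, 16, 32, 64` are the spokes. For every independent triple of shifted points there is a tree
of certificates, or the triple is one of the six shapes and every further shifted point and every
forbidden present point gives a tree.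
-/

namespace Pool.Agent.WW

/-- codes of the points of `Delta` with five spokes -/
def dl5 : List ℕ := [2, 4, 6, 8, 10, 12, 16, 18, 24, 32, 34, 48, 64, 66, 70, 96]

/-- codes of the spokes -/
def cs5 (j : ℕ) : ℕ := [4, 8, 16, 32, 64, 6, 10, 18, 34, 66, 4, 8].getD j 0

/-- the triples of the shapes -/
def shl5 (τ i : ℕ) : List ℕ :=
  if τ = 0 then [cs5 i, cs5 i ^^^ 2, cs5 i ^^^ cs5 (i + 1)]
  else if τ = 1 then [cs5 (i + 1), cs5 (i + 1) ^^^ 2, cs5 i ^^^ cs5 (i + 1)]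
  else if τ = 2 then [cs5 (i + 1), cs5 i ^^^ cs5 (i + 1), cs5 (i + 1) ^^^ cs5 (i + 2)]
  else if τ = 3 then [cs5 i, cs5 (i + 1) ^^^ 2, cs5 (i + 1) ^^^ cs5 (i + 2)]
  else if τ = 4 then [cs5 (i + 2), cs5 (i + 1) ^^^ 2, cs5 i ^^^ cs5 (i + 1)]
  else [2, cs5 i ^^^ cs5 (i + 1), cs5 (i + 1) ^^^ cs5 (i + 2)]

/-- the sets of points which cannot all be present -/
def need5 (τ i : ℕ) : List (List ℕ) :=
  if τ = 0 then [[cs5 i ^^^ cs5 (i + 1)]]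
  else if τ = 1 then [[cs5 i ^^^ cs5 (i + 1)]]
  else if τ = 2 then [[cs5 (i + 1), cs5 i ^^^ cs5 (i + 1)],
    [cs5 (i + 1), cs5 (i + 1) ^^^ cs5 (i + 2)],
    [cs5 i ^^^ cs5 (i + 1), cs5 (i + 1) ^^^ cs5 (i + 2)]]
  else if τ = 3 then [[cs5 (i + 1) ^^^ 2], [cs5 (i + 1) ^^^ cs5 (i + 2)]]
  else if τ = 4 then [[cs5 (i + 1) ^^^ 2], [cs5 i ^^^ cs5 (i + 1)]]
  else [[cs5 i ^^^ cs5 (i + 1)], [cs5 (i + 1) ^^^ cs5 (i + 2)]]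

/-- an entry of the table -/
inductive En5
  | k5 (t : BT) : En5
  | shp (τ i : ℕ) (ts : List BT) : En5

/-- the present codes -/
def base5 (x y z : ℕ) : ℕ :=
  mask ([1, x ^^^ 1, y ^^^ 1, z ^^^ 1] ++
    dl5.filter (fun v => !((spanList [x, y, z]).contains v)))

/-- the other codes in the span -/
def oth5 (x y z : ℕ) : List ℕ :=
  dl5.filter (fun v => (spanList [x, y, z]).contains v && !([x, y, z].contains v))

/-- the clauses -/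
def cls5 (x y z : ℕ) : List (List ℕ) := (oth5 x y z).map (fun v => [mask [v], mask [v ^^^ 1]])

/-- the extra present codes of the goals of a shape -/
def goals5 (τ i x y z : ℕ) : List (List ℕ) :=
  (oth5 x y z).map (fun v => [v ^^^ 1]) ++ need5 τ i

/-- check of a list of goals -/
def chkGoals (M : ℕ) (cls : List (List ℕ)) : List BT → List (List ℕ) → Bool
  | [], [] => true
  | t :: ts, ex :: gs => t.chk (M ||| mask ex) cls && chkGoals M cls ts gs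
  | _, _ => false

/-- check of an entry -/
def chkEn (x y z : ℕ) : En5 → Bool
  | .k5 t => t.chk (base5 x y z) (cls5 x y z)
  | .shp τ i ts => decide (τ < 6) && decide (i < 10) &&
      ([x, y, z].all fun v => (shl5 τ i).contains v) &&
      ((shl5 τ i).all fun v => [x, y, z].contains v) &&
      chkGoals (base5 x y z) (cls5 x y z) ts (goals5 τ i x y z)

/-- check of a list of entries -/
def chkPairs (x : ℕ) : List (ℕ × ℕ) → List En5 → Bool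
  | [], [] => true
  | p :: ps, e :: es => chkEn x p.1 p.2 e && chkPairs x ps es
  | _, _ => false

/-- the pairs completing `x` to a sorted independent triple -/
def trip5 (x : ℕ) : List (ℕ × ℕ) :=
  dl5.flatMap fun y => (dl5.filter fun z => decide (x < y) && decide (y < z) &&
    !(x ^^^ y == z)).map fun z => (y, z)

theorem chkPairs_sound {x : ℕ} : ∀ {ps : List (ℕ × ℕ)} {es : List En5},
    chkPairs x ps es = true → ∀ p ∈ ps, ∃ e, chkEn x p.1 p.2 e = true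
  | [], _, _, p, hp => by simp at hp
  | q :: ps, [], h, p, hp => by simp [chkPairs] at h
  | q :: ps, e :: es, h, p, hp => by
    rw [chkPairs, Bool.and_eq_true] at h
    rcases List.mem_cons.1 hp with rfl | hp
    · exact ⟨e, h.1⟩
    · exact chkPairs_sound h.2 p hp

/-- entries for 2 -/
def row5_2 : List En5 :=
  [.k5 (.br 2 0 (.leaf [24, 32, 70] 1 2 4 8) (.br 2 0 (.leaf [3, 13, 24] 1 4 33 65) (.abs 2))),
    .k5 (.br 2 0 (.leaf [5, 11, 24] 1 2 34 66) (.br 2 0 (.leaf [3, 13, 24] 1 4 33 65) (.abs 2))),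
    .k5 (.leaf [3, 13, 24] 1 4 33 65),
    .k5 (.leaf [5, 48, 64] 1 2 8 16),
    .k5 (.leaf [5, 8, 19] 1 2 34 66),
    .k5 (.leaf [3, 12, 25] 1 4 33 65),
    .k5 (.leaf [5, 33, 64] 1 2 8 16),
    .k5 (.leaf [5, 8, 48] 1 2 18 66),
    .k5 (.leaf [3, 12, 24] 1 4 33 65),
    .k5 (.br 2 0 (.leaf [5, 12, 65] 1 2 16 32) (.br 2 0 (.leaf [3, 12, 71] 1 4 16 32) (.abs 2))),
    .k5 (.br 2 0 (.leaf [12, 16, 96] 1 2 4 34) (.br 2 0 (.leaf [3, 12, 71] 1 4 16 32) (.abs 2))),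
    .k5 (.leaf [3, 12, 71] 1 4 16 32),
    .k5 (.leaf [3, 12, 24] 1 4 32 65),
    .k5 (.br 2 0 (.leaf [7, 9, 24] 1 2 32 64) (.br 2 0 (.leaf [3, 13, 24] 1 4 33 65) (.abs 2))),
    .k5 (.br 2 0 (.leaf [24, 32, 70] 1 2 6 10) (.br 2 0 (.leaf [3, 13, 24] 1 4 33 65) (.abs 2))),
    .k5 (.leaf [3, 13, 24] 1 4 33 65),
    .k5 (.leaf [7, 8, 17] 1 2 32 64),
    .k5 (.leaf [7, 48, 64] 1 2 10 18),
    .k5 (.leaf [3, 12, 25] 1 4 33 65),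
    .k5 (.leaf [7, 8, 48] 1 2 16 64),
    .k5 (.leaf [7, 35, 64] 1 2 10 18),
    .k5 (.leaf [3, 12, 24] 1 4 33 65),
    .k5 (.br 2 0 (.leaf [12, 16, 96] 1 2 6 32) (.br 2 0 (.leaf [3, 12, 71] 1 4 16 32) (.abs 2))),
    .k5 (.br 2 0 (.leaf [7, 12, 67] 1 2 18 34) (.br 2 0 (.leaf [3, 12, 71] 1 4 16 32) (.abs 2))),
    .k5 (.leaf [3, 12, 71] 1 4 16 32),
    .k5 (.leaf [3, 12, 24] 1 4 32 65),
    .k5 (.leaf [3, 13, 24] 1 4 33 65),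
    .k5 (.br 2 0 (.leaf [12, 48, 64] 1 2 4 16) (.br 2 0 (.leaf [3, 12, 25] 1 4 33 65) (.abs 2))),
    .k5 (.br 2 0 (.leaf [9, 12, 19] 1 2 34 66) (.br 2 0 (.leaf [3, 12, 25] 1 4 33 65) (.abs 2))),
    .k5 (.leaf [3, 12, 25] 1 4 33 65),
    .k5 (.leaf [4, 9, 96] 1 2 16 32),
    .k5 (.leaf [9, 16, 35] 1 2 4 66),
    .k5 (.leaf [3, 12, 24] 1 4 33 65),
    .k5 (.leaf [4, 9, 65] 1 2 16 32),
    .k5 (.leaf [9, 16, 96] 1 2 4 34),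
    .k5 (.leaf [3, 12, 24] 1 4 32 64),
    .k5 (.leaf [3, 12, 24] 1 4 32 65),
    .k5 (.leaf [3, 13, 24] 1 4 33 65),
    .k5 (.br 2 0 (.leaf [11, 12, 17] 1 2 32 64) (.br 2 0 (.leaf [3, 12, 25] 1 4 33 65) (.abs 2))),
    .k5 (.br 2 0 (.leaf [12, 48, 64] 1 2 6 18) (.br 2 0 (.leaf [3, 12, 25] 1 4 33 65) (.abs 2))),
    .k5 (.leaf [3, 12, 25] 1 4 33 65),
    .k5 (.leaf [11, 16, 33] 1 2 6 64),
    .k5 (.leaf [4, 11, 96] 1 2 18 34),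
    .k5 (.leaf [3, 12, 24] 1 4 33 65),
    .k5 (.leaf [11, 16, 96] 1 2 6 32),
    .k5 (.leaf [4, 11, 67] 1 2 18 34),
    .k5 (.leaf [3, 12, 24] 1 4 32 64),
    .k5 (.leaf [3, 12, 24] 1 4 32 65),
    .k5 (.leaf [3, 13, 24] 1 4 33 65),
    .k5 (.leaf [3, 13, 24] 1 4 33 65),
    .shp 5 0 [(.leaf [3, 12, 25] 1 4 33 65), (.leaf [3, 13, 24] 1 4 33 65)],
    .k5 (.leaf [3, 13, 48] 1 4 17 65),
    .k5 (.leaf [3, 13, 48] 1 4 17 65),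
    .k5 (.leaf [4, 32, 64] 1 2 8 16),
    .k5 (.leaf [3, 13, 70] 1 4 17 33),
    .k5 (.leaf [3, 13, 70] 1 4 17 33),
    .shp 5 4 [(.leaf [3, 13, 24] 1 4 33 65), (.leaf [3, 12, 24] 1 4 32 64)],
    .k5 (.leaf [4, 13, 64] 1 2 16 32),
    .k5 (.leaf [3, 12, 25] 1 4 33 65),
    .k5 (.br 2 0 (.leaf [4, 24, 96] 1 2 8 32) (.br 2 0 (.leaf [3, 12, 49] 1 4 16 65) (.abs 2))),
    .k5 (.br 2 0 (.leaf [12, 17, 35] 1 2 4 66) (.br 2 0 (.leaf [3, 24, 49] 1 4 8 65) (.abs 2))),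
    .k5 (.leaf [3, 24, 49] 1 4 8 65),
    .k5 (.leaf [4, 24, 65] 1 2 8 32),
    .k5 (.leaf [17, 32, 67] 1 2 4 8),
    .k5 (.leaf [3, 12, 24] 1 4 32 64),
    .k5 (.leaf [3, 12, 24] 1 4 32 65),
    .k5 (.leaf [3, 12, 25] 1 4 33 65),
    .k5 (.br 2 0 (.leaf [12, 19, 33] 1 2 6 64) (.br 2 0 (.leaf [3, 24, 49] 1 4 8 65) (.abs 2))),
    .k5 (.br 2 0 (.leaf [4, 24, 96] 1 2 10 34) (.br 2 0 (.leaf [3, 12, 49] 1 4 16 65) (.abs 2))),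
    .k5 (.leaf [3, 24, 49] 1 4 8 65),
    .k5 (.leaf [19, 32, 65] 1 2 6 10),
    .k5 (.leaf [4, 24, 67] 1 2 10 34),
    .k5 (.leaf [3, 12, 24] 1 4 32 64),
    .k5 (.leaf [3, 12, 24] 1 4 32 65),
    .k5 (.leaf [3, 12, 48] 1 4 17 65),
    .k5 (.leaf [3, 12, 48] 1 4 17 65),
    .shp 5 1 [(.leaf [3, 12, 24] 1 4 33 65), (.leaf [3, 12, 25] 1 4 33 65)],
    .k5 (.leaf [3, 12, 70] 1 4 17 33),
    .k5 (.leaf [3, 12, 70] 1 4 17 33),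
    .k5 (.leaf [4, 10, 25] 1 2 34 66),
    .k5 (.leaf [4, 8, 64] 1 2 16 32),
    .k5 (.leaf [3, 24, 49] 1 4 8 65),
    .k5 (.br 2 0 (.leaf [8, 48, 70] 1 2 6 16) (.br 2 0 (.leaf [3, 12, 97] 1 4 16 32) (.abs 2))),
    .k5 (.br 2 0 (.leaf [12, 33, 67] 1 2 4 16) (.br 2 0 (.leaf [3, 48, 70] 1 4 8 16) (.abs 2))),
    .k5 (.leaf [3, 12, 48] 1 4 16 64),
    .k5 (.leaf [3, 48, 70] 1 4 8 16),
    .k5 (.leaf [3, 24, 49] 1 4 8 65),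
    .k5 (.br 2 0 (.leaf [12, 35, 65] 1 2 6 18) (.br 2 0 (.leaf [3, 48, 70] 1 4 8 16) (.abs 2))),
    .k5 (.br 2 0 (.leaf [8, 48, 70] 1 2 4 18) (.br 2 0 (.leaf [3, 12, 97] 1 4 16 32) (.abs 2))),
    .k5 (.leaf [3, 12, 48] 1 4 16 64),
    .k5 (.leaf [3, 48, 70] 1 4 8 16),
    .k5 (.leaf [3, 12, 70] 1 4 16 33),
    .k5 (.leaf [3, 12, 70] 1 4 16 33),
    .k5 (.leaf [4, 8, 18] 1 2 34 66),
    .shp 5 2 [(.leaf [3, 12, 24] 1 4 32 65), (.leaf [3, 12, 24] 1 4 33 65)],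
    .k5 (.leaf [3, 12, 71] 1 4 16 32),
    .k5 (.leaf [3, 48, 70] 1 4 8 16),
    .k5 (.leaf [3, 12, 71] 1 4 16 32),
    .k5 (.leaf [3, 48, 70] 1 4 8 16),
    .shp 5 3 [(.leaf [3, 12, 24] 1 4 32 64), (.leaf [3, 12, 24] 1 4 32 65)]]

theorem row5_2_chk : chkPairs 2 (trip5 2) row5_2 = true := by
  decide +kernel

/-- entries for 4 -/
def row5_4 : List En5 :=
  [.k5 (.leaf [7, 9, 24] 1 2 32 64),
    .k5 (.leaf [5, 11, 24] 1 2 34 66),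
    .shp 0 0 [(.leaf [3, 13, 24] 1 4 33 65), (.leaf [7, 9, 24] 1 2 32 64), (.leaf [5, 11, 24] 1 2
      34 66), (.leaf [24, 32, 70] 1 4 6 12)],
    .k5 (.leaf [5, 48, 64] 1 2 8 16),
    .k5 (.leaf [5, 8, 19] 1 2 34 66),
    .k5 (.leaf [5, 10, 25] 1 2 34 66),
    .k5 (.leaf [5, 12, 96] 1 2 16 32),
    .k5 (.leaf [5, 10, 48] 1 2 18 66),
    .k5 (.leaf [5, 10, 18] 1 2 34 66),
    .k5 (.leaf [5, 12, 65] 1 2 16 32),
    .k5 (.leaf [7, 12, 67] 1 2 18 34),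
    .shp 1 4 [(.leaf [3, 12, 71] 1 4 16 32), (.leaf [5, 12, 65] 1 2 16 32), (.leaf [7, 12, 67] 1 2
      18 34), (.leaf [12, 16, 96] 1 4 6 38)],
    .k5 (.leaf [5, 12, 64] 1 2 16 32),
    .k5 (.leaf [5, 11, 24] 1 2 34 66),
    .k5 (.br 0 1 (.leaf [10, 13, 17] 1 2 32 64) (.br 0 0 (.br 1 0 (.leaf [2, 48, 70] 1 4 8 16) (.br
      1 0 (.leaf [5, 10, 25] 1 2 34 66) (.abs 1))) (.abs 0))),
    .k5 (.leaf [5, 9, 19] 1 2 34 66),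
    .k5 (.leaf [5, 10, 25] 1 2 34 66),
    .k5 (.leaf [5, 9, 64] 1 2 16 32),
    .k5 (.leaf [5, 9, 18] 1 2 34 66),
    .k5 (.leaf [5, 9, 18] 1 2 34 66),
    .k5 (.leaf [5, 9, 65] 1 2 16 32),
    .k5 (.br 0 1 (.leaf [6, 13, 67] 1 2 18 34) (.br 0 0 (.br 1 0 (.leaf [2, 24, 48] 1 4 8 64) (.br
      1 0 (.leaf [6, 9, 71] 1 2 16 32) (.abs 1))) (.abs 0))),
    .k5 (.leaf [6, 9, 71] 1 2 16 32),
    .k5 (.leaf [5, 9, 64] 1 2 16 32),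
    .k5 (.br 0 0 (.leaf [5, 11, 24] 1 2 34 66) (.br 0 0 (.leaf [3, 13, 24] 1 4 33 65) (.abs 0))),
    .k5 (.leaf [2, 48, 70] 1 4 8 16),
    .k5 (.leaf [5, 8, 19] 1 2 34 66),
    .shp 3 0 [(.leaf [5, 8, 19] 1 2 34 66), (.leaf [5, 10, 25] 1 2 34 66), (.leaf [5, 11, 24] 1 2
      34 66)],
    .k5 (.leaf [2, 24, 70] 1 4 8 32),
    .k5 (.leaf [2, 24, 70] 1 4 8 32),
    .k5 (.leaf [5, 8, 18] 1 2 34 66),
    .k5 (.leaf [2, 24, 48] 1 4 8 64),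
    .k5 (.leaf [5, 11, 67] 1 2 18 34),
    .shp 4 4 [(.leaf [5, 11, 24] 1 2 34 66), (.leaf [4, 11, 71] 1 2 18 34), (.leaf [5, 11, 24] 1 2
      34 66)],
    .k5 (.leaf [5, 11, 66] 1 2 18 34),
    .k5 (.leaf [10, 13, 17] 1 2 32 64),
    .k5 (.leaf [5, 10, 19] 1 2 34 66),
    .k5 (.leaf [5, 10, 25] 1 2 34 66),
    .k5 (.leaf [13, 24, 33] 1 2 6 64),
    .k5 (.leaf [5, 10, 18] 1 2 34 66),
    .k5 (.leaf [5, 10, 18] 1 2 34 66),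
    .shp 3 4 [(.leaf [5, 9, 65] 1 2 16 32), (.leaf [4, 13, 65] 1 2 16 32), (.leaf [5, 12, 65] 1 2
      16 32)],
    .k5 (.leaf [6, 13, 67] 1 2 18 34),
    .shp 2 9 [(.leaf [6, 9, 71] 1 2 16 32), (.leaf [6, 13, 67] 1 2 18 34), (.leaf [10, 16, 34] 1 4
      6 70), (.leaf [16, 32, 64] 1 4 6 12), (.leaf [2, 24, 48] 1 4 12 68)],
    .k5 (.leaf [6, 13, 66] 1 2 18 34),
    .k5 (.leaf [5, 8, 19] 1 2 34 66),
    .k5 (.leaf [5, 10, 25] 1 2 34 66),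
    .k5 (.leaf [17, 33, 66] 1 2 4 8),
    .k5 (.leaf [2, 12, 70] 1 4 16 32),
    .k5 (.leaf [5, 8, 49] 1 2 19 66),
    .k5 (.leaf [2, 12, 48] 1 4 16 64),
    .k5 (.leaf [5, 32, 64] 1 2 8 16),
    .k5 (.leaf [5, 32, 64] 1 2 8 16),
    .k5 (.leaf [5, 8, 64] 1 2 16 32),
    .k5 (.leaf [5, 8, 19] 1 2 34 66),
    .k5 (.leaf [2, 12, 70] 1 4 16 32),
    .k5 (.leaf [8, 16, 35] 1 2 4 66),
    .k5 (.leaf [5, 10, 49] 1 2 19 66),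
    .k5 (.leaf [2, 12, 48] 1 4 16 64),
    .k5 (.leaf [5, 10, 67] 1 2 18 34),
    .k5 (.leaf [8, 19, 71] 1 2 5 34),
    .k5 (.leaf [5, 10, 66] 1 2 18 34),
    .k5 (.leaf [5, 8, 64] 1 2 16 32),
    .k5 (.leaf [5, 8, 18] 1 2 34 66),
    .k5 (.leaf [5, 8, 18] 1 2 34 66),
    .k5 (.leaf [5, 8, 65] 1 2 16 32),
    .k5 (.leaf [5, 10, 67] 1 2 18 34),
    .k5 (.leaf [6, 8, 71] 1 2 16 32),
    .k5 (.leaf [2, 25, 97] 1 4 8 33),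
    .k5 (.leaf [5, 10, 48] 1 2 18 66),
    .k5 (.leaf [5, 12, 49] 1 2 19 66),
    .k5 (.leaf [5, 33, 65] 1 2 8 16),
    .k5 (.leaf [5, 12, 64] 1 2 16 32),
    .k5 (.leaf [5, 12, 64] 1 2 16 32),
    .k5 (.leaf [5, 33, 66] 1 2 8 16),
    .k5 (.leaf [5, 49, 64] 1 2 8 16),
    .k5 (.leaf [2, 12, 24] 1 4 32 64),
    .k5 (.br 0 1 (.leaf [12, 35, 64] 1 2 6 18) (.br 0 0 (.br 1 0 (.leaf [2, 12, 24] 1 4 32 64) (.br
      1 0 (.leaf [5, 12, 97] 1 2 16 32) (.abs 1))) (.abs 0))),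
    .k5 (.leaf [12, 35, 64] 1 2 6 18),
    .k5 (.leaf [5, 48, 64] 1 2 8 16),
    .k5 (.leaf [5, 8, 49] 1 2 18 67),
    .k5 (.leaf [5, 32, 64] 1 2 8 16),
    .k5 (.leaf [5, 32, 64] 1 2 8 16),
    .k5 (.leaf [5, 8, 49] 1 2 18 66),
    .k5 (.leaf [5, 12, 65] 1 2 16 32),
    .k5 (.br 0 0 (.leaf [5, 12, 65] 1 2 16 32) (.br 0 0 (.leaf [3, 12, 71] 1 4 16 32) (.abs 0))),
    .shp 4 8 [(.leaf [5, 12, 65] 1 2 16 32), (.leaf [5, 12, 48] 1 2 16 65), (.leaf [5, 12, 65] 1 2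
      16 32)],
    .k5 (.leaf [5, 12, 97] 1 2 16 32),
    .k5 (.leaf [5, 48, 64] 1 2 8 16)]

theorem row5_4_chk : chkPairs 4 (trip5 4) row5_4 = true := by
  decide +kernel

/-- entries for 6 -/
def row5_6 : List En5 :=
  [.k5 (.leaf [7, 9, 24] 1 2 32 64),
    .k5 (.br 0 0 (.leaf [7, 9, 24] 1 2 32 64) (.br 0 0 (.leaf [3, 13, 24] 1 4 33 65) (.abs 0))),
    .k5 (.leaf [7, 9, 17] 1 2 32 64),
    .k5 (.leaf [2, 48, 70] 1 4 8 16),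
    .shp 3 5 [(.leaf [7, 9, 17] 1 2 32 64), (.leaf [7, 8, 25] 1 2 32 64), (.leaf [7, 9, 24] 1 2 32
      64)],
    .k5 (.leaf [2, 24, 70] 1 4 8 32),
    .k5 (.leaf [2, 24, 70] 1 4 8 32),
    .k5 (.leaf [4, 32, 64] 1 2 8 16),
    .k5 (.leaf [4, 9, 65] 1 2 16 32),
    .k5 (.leaf [2, 24, 48] 1 4 8 64),
    .shp 4 9 [(.leaf [4, 9, 65] 1 2 16 32), (.leaf [6, 9, 71] 1 2 16 32), (.leaf [7, 9, 24] 1 2 32
      64)],
    .k5 (.leaf [4, 9, 64] 1 2 16 32),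
    .k5 (.leaf [7, 8, 17] 1 2 32 64),
    .k5 (.br 0 1 (.leaf [8, 13, 19] 1 2 34 66) (.br 0 0 (.br 1 0 (.leaf [2, 48, 70] 1 4 8 16) (.br
      1 0 (.leaf [7, 8, 25] 1 2 32 64) (.abs 1))) (.abs 0))),
    .k5 (.leaf [7, 8, 25] 1 2 32 64),
    .k5 (.leaf [7, 8, 16] 1 2 32 64),
    .k5 (.leaf [4, 11, 66] 1 2 18 34),
    .k5 (.leaf [7, 8, 16] 1 2 32 64),
    .k5 (.br 0 1 (.leaf [4, 13, 65] 1 2 16 32) (.br 0 0 (.br 1 0 (.leaf [2, 24, 48] 1 4 8 64) (.br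
      1 0 (.leaf [4, 11, 71] 1 2 18 34) (.abs 1))) (.abs 0))),
    .k5 (.leaf [4, 11, 24] 1 2 34 66),
    .k5 (.leaf [4, 11, 71] 1 2 18 34),
    .k5 (.leaf [4, 11, 66] 1 2 18 34),
    .k5 (.leaf [7, 8, 17] 1 2 32 64),
    .k5 (.leaf [8, 13, 19] 1 2 34 66),
    .k5 (.leaf [7, 8, 25] 1 2 32 64),
    .k5 (.leaf [4, 13, 64] 1 2 16 32),
    .k5 (.leaf [13, 24, 35] 1 2 4 66),
    .k5 (.leaf [7, 8, 16] 1 2 32 64),
    .k5 (.leaf [4, 13, 65] 1 2 16 32),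
    .shp 3 9 [(.leaf [4, 11, 24] 1 2 34 66), (.leaf [6, 13, 67] 1 2 18 34), (.leaf [7, 12, 67] 1 2
      18 34)],
    .shp 2 4 [(.leaf [4, 11, 71] 1 2 18 34), (.leaf [4, 13, 65] 1 2 16 32), (.leaf [8, 16, 32] 1 4
      6 70), (.leaf [18, 32, 66] 1 4 6 12), (.leaf [2, 24, 48] 1 4 12 68)],
    .k5 (.leaf [4, 13, 64] 1 2 16 32),
    .k5 (.leaf [7, 8, 17] 1 2 32 64),
    .k5 (.leaf [7, 10, 17] 1 2 32 64),
    .k5 (.leaf [10, 17, 33] 1 2 6 64),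
    .k5 (.leaf [2, 12, 70] 1 4 16 32),
    .k5 (.leaf [7, 8, 49] 1 2 17 64),
    .k5 (.leaf [4, 8, 65] 1 2 16 32),
    .k5 (.leaf [2, 12, 48] 1 4 16 64),
    .k5 (.leaf [10, 17, 71] 1 2 7 32),
    .k5 (.leaf [4, 8, 64] 1 2 16 32),
    .k5 (.leaf [7, 8, 25] 1 2 32 64),
    .k5 (.leaf [2, 12, 70] 1 4 16 32),
    .k5 (.leaf [19, 32, 64] 1 2 6 10),
    .k5 (.leaf [7, 8, 49] 1 2 17 64),
    .k5 (.leaf [7, 34, 65] 1 2 10 18),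
    .k5 (.leaf [2, 12, 48] 1 4 16 64),
    .k5 (.leaf [4, 10, 71] 1 2 18 34),
    .k5 (.leaf [4, 10, 66] 1 2 18 34),
    .k5 (.leaf [4, 8, 64] 1 2 16 32),
    .k5 (.leaf [4, 10, 66] 1 2 18 34),
    .k5 (.leaf [7, 8, 16] 1 2 32 64),
    .k5 (.leaf [4, 8, 65] 1 2 16 32),
    .k5 (.leaf [4, 10, 25] 1 2 34 66),
    .k5 (.leaf [4, 10, 71] 1 2 18 34),
    .k5 (.leaf [2, 25, 97] 1 4 8 33),
    .k5 (.leaf [7, 8, 48] 1 2 16 64),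
    .k5 (.leaf [7, 49, 64] 1 2 10 18),
    .k5 (.br 0 1 (.leaf [12, 33, 66] 1 2 4 16) (.br 0 0 (.br 1 0 (.leaf [2, 12, 24] 1 4 32 64) (.br
      1 0 (.leaf [7, 12, 97] 1 2 18 34) (.abs 1))) (.abs 0))),
    .k5 (.leaf [2, 12, 24] 1 4 32 64),
    .k5 (.leaf [12, 33, 66] 1 2 4 16),
    .k5 (.leaf [7, 48, 66] 1 2 10 18),
    .k5 (.leaf [7, 12, 49] 1 2 17 64),
    .k5 (.leaf [7, 12, 66] 1 2 18 34),
    .k5 (.leaf [7, 35, 64] 1 2 10 18),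
    .k5 (.leaf [7, 12, 66] 1 2 18 34),
    .k5 (.leaf [7, 35, 64] 1 2 10 18),
    .k5 (.leaf [7, 34, 65] 1 2 10 18),
    .k5 (.leaf [4, 8, 18] 1 2 34 66),
    .k5 (.leaf [7, 34, 66] 1 2 10 18),
    .k5 (.leaf [7, 8, 49] 1 2 16 64),
    .k5 (.leaf [7, 12, 67] 1 2 18 34),
    .k5 (.leaf [7, 12, 97] 1 2 18 34),
    .k5 (.br 0 0 (.leaf [7, 12, 67] 1 2 18 34) (.br 0 0 (.leaf [3, 12, 71] 1 4 16 32) (.abs 0))),
    .shp 4 3 [(.leaf [7, 12, 67] 1 2 18 34), (.leaf [7, 12, 48] 1 2 18 67), (.leaf [7, 12, 67] 1 2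
      18 34)],
    .k5 (.leaf [7, 48, 66] 1 2 10 18)]

theorem row5_6_chk : chkPairs 6 (trip5 6) row5_6 = true := by
  decide +kernel

/-- entries for 8 -/
def row5_8 : List En5 :=
  [.shp 1 0 [(.leaf [3, 13, 24] 1 4 33 65), (.leaf [5, 11, 24] 1 2 34 66), (.leaf [7, 9, 24] 1 2 32
      64), (.leaf [24, 32, 70] 1 8 10 12)],
    .k5 (.leaf [11, 12, 17] 1 2 32 64),
    .k5 (.leaf [9, 12, 19] 1 2 34 66),
    .shp 0 1 [(.leaf [3, 12, 25] 1 4 33 65), (.leaf [11, 12, 17] 1 2 32 64), (.leaf [9, 12, 19] 1 2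
      34 66), (.leaf [12, 48, 64] 1 4 6 20)],
    .k5 (.leaf [6, 9, 96] 1 2 16 32),
    .k5 (.leaf [4, 11, 96] 1 2 18 34),
    .k5 (.leaf [9, 12, 18] 1 2 34 66),
    .k5 (.leaf [4, 9, 65] 1 2 16 32),
    .k5 (.leaf [4, 11, 67] 1 2 18 34),
    .k5 (.leaf [4, 11, 24] 1 2 34 66),
    .k5 (.leaf [4, 11, 66] 1 2 18 34),
    .k5 (.leaf [10, 13, 17] 1 2 32 64),
    .shp 4 5 [(.leaf [5, 9, 19] 1 2 34 66), (.leaf [8, 13, 19] 1 2 34 66), (.leaf [9, 12, 19] 1 2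
      34 66)],
    .shp 2 0 [(.leaf [5, 10, 25] 1 2 34 66), (.leaf [10, 13, 17] 1 2 32 64), (.leaf [18, 32, 66] 1
      8 10 12), (.leaf [6, 32, 64] 1 8 10 24), (.leaf [2, 48, 70] 1 8 12 24)],
    .k5 (.leaf [6, 9, 64] 1 2 16 32),
    .k5 (.leaf [13, 16, 35] 1 2 4 66),
    .k5 (.leaf [10, 13, 16] 1 2 32 64),
    .k5 (.leaf [6, 9, 24] 1 2 32 64),
    .k5 (.leaf [6, 13, 67] 1 2 18 34),
    .k5 (.leaf [6, 9, 71] 1 2 16 32),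
    .k5 (.leaf [6, 9, 64] 1 2 16 32),
    .k5 (.leaf [9, 12, 19] 1 2 34 66),
    .k5 (.br 0 1 (.leaf [12, 18, 33] 1 2 6 64) (.br 0 0 (.br 1 0 (.leaf [2, 12, 70] 1 4 16 32) (.br
      1 0 (.leaf [4, 33, 64] 1 2 8 16) (.abs 1))) (.abs 0))),
    .k5 (.leaf [9, 12, 18] 1 2 34 66),
    .k5 (.leaf [9, 12, 49] 1 2 19 66),
    .k5 (.leaf [6, 9, 17] 1 2 32 64),
    .k5 (.leaf [9, 17, 34] 1 2 4 66),
    .k5 (.leaf [6, 9, 17] 1 2 32 64),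
    .k5 (.leaf [9, 17, 34] 1 2 4 66),
    .k5 (.br 0 0 (.leaf [9, 12, 19] 1 2 34 66) (.br 0 0 (.leaf [3, 12, 25] 1 4 33 65) (.abs 0))),
    .k5 (.leaf [2, 12, 70] 1 4 16 32),
    .k5 (.leaf [9, 16, 35] 1 2 4 66),
    .shp 3 1 [(.leaf [9, 12, 19] 1 2 34 66), (.leaf [9, 12, 49] 1 2 19 66), (.leaf [4, 24, 66] 1 8
      10 40)],
    .k5 (.leaf [2, 12, 48] 1 4 16 64),
    .k5 (.leaf [2, 12, 48] 1 4 16 64),
    .k5 (.leaf [4, 9, 19] 1 2 34 66),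
    .k5 (.leaf [4, 9, 97] 1 2 17 33),
    .k5 (.leaf [12, 18, 33] 1 2 6 64),
    .k5 (.leaf [9, 12, 18] 1 2 34 66),
    .k5 (.leaf [9, 18, 49] 1 2 4 66),
    .k5 (.leaf [4, 25, 65] 1 2 9 32),
    .k5 (.leaf [4, 10, 25] 1 2 34 66),
    .k5 (.leaf [4, 10, 25] 1 2 34 66),
    .k5 (.leaf [9, 18, 34] 1 2 4 66),
    .k5 (.leaf [6, 9, 96] 1 2 16 32),
    .k5 (.leaf [9, 18, 49] 1 2 4 66),
    .k5 (.leaf [4, 33, 65] 1 2 8 16),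
    .k5 (.leaf [2, 12, 24] 1 4 32 64),
    .k5 (.leaf [4, 9, 64] 1 2 16 32),
    .k5 (.leaf [4, 33, 66] 1 2 8 16),
    .k5 (.leaf [9, 16, 35] 1 2 4 66),
    .k5 (.leaf [2, 12, 24] 1 4 32 64),
    .k5 (.leaf [16, 32, 67] 1 2 4 8),
    .k5 (.leaf [4, 9, 18] 1 2 34 66),
    .k5 (.leaf [9, 12, 97] 1 2 16 32),
    .k5 (.leaf [4, 32, 65] 1 2 8 16),
    .k5 (.leaf [4, 9, 18] 1 2 34 66),
    .k5 (.leaf [2, 49, 71] 1 4 8 16),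
    .k5 (.leaf [4, 9, 97] 1 2 16 33),
    .k5 (.leaf [4, 9, 65] 1 2 16 32),
    .k5 (.leaf [4, 9, 65] 1 2 16 32),
    .k5 (.leaf [6, 9, 97] 1 2 16 32),
    .k5 (.leaf [6, 9, 71] 1 2 16 32),
    .k5 (.leaf [4, 9, 97] 1 2 16 32),
    .k5 (.leaf [4, 9, 64] 1 2 16 32)]

theorem row5_8_chk : chkPairs 8 (trip5 8) row5_8 = true := by
  decide +kernel

/-- entries for 10 -/
def row5_10 : List En5 :=
  [.shp 4 0 [(.leaf [7, 8, 17] 1 2 32 64), (.leaf [10, 13, 17] 1 2 32 64), (.leaf [11, 12, 17] 1 2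
      32 64)],
    .k5 (.leaf [8, 13, 19] 1 2 34 66),
    .shp 2 5 [(.leaf [7, 8, 25] 1 2 32 64), (.leaf [8, 13, 19] 1 2 34 66), (.leaf [16, 32, 64] 1 8
      10 12), (.leaf [4, 34, 64] 1 8 10 24), (.leaf [2, 48, 70] 1 8 12 24)],
    .k5 (.leaf [13, 18, 33] 1 2 6 64),
    .k5 (.leaf [4, 11, 66] 1 2 18 34),
    .k5 (.leaf [8, 13, 18] 1 2 34 66),
    .k5 (.leaf [4, 13, 65] 1 2 16 32),
    .k5 (.leaf [4, 11, 24] 1 2 34 66),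
    .k5 (.leaf [4, 11, 71] 1 2 18 34),
    .k5 (.leaf [4, 11, 66] 1 2 18 34),
    .k5 (.leaf [11, 12, 17] 1 2 32 64),
    .k5 (.br 0 0 (.leaf [11, 12, 17] 1 2 32 64) (.br 0 0 (.leaf [3, 12, 25] 1 4 33 65) (.abs 0))),
    .k5 (.leaf [11, 17, 33] 1 2 6 64),
    .k5 (.leaf [2, 12, 70] 1 4 16 32),
    .shp 3 6 [(.leaf [11, 12, 17] 1 2 32 64), (.leaf [11, 12, 49] 1 2 17 64), (.leaf [4, 24, 64] 1
      8 10 40)],
    .k5 (.leaf [2, 12, 48] 1 4 16 64),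
    .k5 (.leaf [2, 12, 48] 1 4 16 64),
    .k5 (.leaf [4, 11, 24] 1 2 34 66),
    .k5 (.leaf [4, 8, 64] 1 2 16 32),
    .k5 (.leaf [11, 12, 16] 1 2 32 64),
    .k5 (.br 0 1 (.leaf [12, 16, 35] 1 2 4 66) (.br 0 0 (.br 1 0 (.leaf [2, 12, 70] 1 4 16 32) (.br
      1 0 (.leaf [6, 35, 64] 1 2 10 18) (.abs 1))) (.abs 0))),
    .k5 (.leaf [11, 12, 49] 1 2 17 64),
    .k5 (.leaf [11, 16, 32] 1 2 6 64),
    .k5 (.leaf [4, 8, 19] 1 2 34 66),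
    .k5 (.leaf [4, 8, 19] 1 2 34 66),
    .k5 (.leaf [11, 16, 32] 1 2 6 64),
    .k5 (.leaf [11, 12, 16] 1 2 32 64),
    .k5 (.leaf [12, 16, 35] 1 2 4 66),
    .k5 (.leaf [11, 16, 49] 1 2 6 64),
    .k5 (.leaf [4, 25, 65] 1 2 9 32),
    .k5 (.leaf [6, 25, 67] 1 2 11 34),
    .k5 (.leaf [6, 8, 25] 1 2 32 64),
    .k5 (.leaf [11, 16, 32] 1 2 6 64),
    .k5 (.leaf [4, 11, 96] 1 2 18 34),
    .k5 (.leaf [11, 18, 33] 1 2 6 64),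
    .k5 (.leaf [18, 33, 65] 1 2 6 10),
    .k5 (.leaf [2, 12, 24] 1 4 32 64),
    .k5 (.leaf [4, 11, 48] 1 2 18 66),
    .k5 (.leaf [11, 12, 97] 1 2 18 34),
    .k5 (.leaf [11, 16, 49] 1 2 6 64),
    .k5 (.leaf [2, 12, 24] 1 4 32 64),
    .k5 (.leaf [6, 35, 64] 1 2 10 18),
    .k5 (.leaf [4, 8, 18] 1 2 34 66),
    .k5 (.leaf [6, 35, 64] 1 2 10 18),
    .k5 (.leaf [6, 8, 16] 1 2 32 64),
    .k5 (.leaf [4, 8, 18] 1 2 34 66),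
    .k5 (.leaf [2, 49, 71] 1 4 8 16),
    .k5 (.leaf [4, 11, 97] 1 2 18 35),
    .k5 (.leaf [4, 11, 67] 1 2 18 34),
    .k5 (.leaf [4, 11, 71] 1 2 18 34),
    .k5 (.leaf [4, 11, 97] 1 2 18 34),
    .k5 (.leaf [6, 11, 67] 1 2 18 34),
    .k5 (.leaf [4, 11, 97] 1 2 18 34),
    .k5 (.leaf [4, 11, 66] 1 2 18 34)]

theorem row5_10_chk : chkPairs 10 (trip5 10) row5_10 = true := by
  decide +kernel

/-- entries for 12 -/
def row5_12 : List En5 :=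
  [.k5 (.leaf [8, 13, 19] 1 2 34 66),
    .k5 (.leaf [10, 13, 17] 1 2 32 64),
    .k5 (.leaf [10, 17, 33] 1 2 6 64),
    .k5 (.leaf [4, 32, 64] 1 2 8 16),
    .k5 (.leaf [8, 13, 49] 1 2 19 66),
    .k5 (.leaf [4, 8, 65] 1 2 16 32),
    .k5 (.leaf [4, 32, 64] 1 2 8 16),
    .k5 (.leaf [4, 32, 64] 1 2 8 16),
    .k5 (.leaf [2, 13, 97] 1 4 17 33),
    .k5 (.leaf [8, 13, 19] 1 2 34 66),
    .k5 (.leaf [6, 34, 64] 1 2 10 18),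
    .k5 (.leaf [8, 16, 35] 1 2 4 66),
    .k5 (.leaf [10, 13, 49] 1 2 17 64),
    .k5 (.leaf [4, 24, 65] 1 2 8 32),
    .k5 (.leaf [4, 8, 19] 1 2 34 66),
    .k5 (.leaf [4, 8, 19] 1 2 34 66),
    .k5 (.leaf [2, 13, 97] 1 4 17 33),
    .k5 (.leaf [6, 8, 64] 1 2 16 32),
    .k5 (.leaf [4, 10, 66] 1 2 18 34),
    .k5 (.leaf [8, 13, 18] 1 2 34 66),
    .k5 (.leaf [4, 8, 65] 1 2 16 32),
    .k5 (.leaf [4, 10, 25] 1 2 34 66),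
    .k5 (.leaf [4, 10, 25] 1 2 34 66),
    .k5 (.leaf [4, 10, 66] 1 2 18 34),
    .k5 (.leaf [4, 13, 96] 1 2 16 32),
    .k5 (.leaf [10, 18, 33] 1 2 6 64),
    .k5 (.leaf [4, 33, 65] 1 2 8 16),
    .k5 (.leaf [4, 13, 64] 1 2 16 32),
    .k5 (.leaf [4, 13, 64] 1 2 16 32),
    .k5 (.leaf [4, 33, 66] 1 2 8 16),
    .k5 (.leaf [8, 16, 35] 1 2 4 66),
    .k5 (.leaf [4, 13, 96] 1 2 16 32),
    .k5 (.leaf [6, 35, 64] 1 2 10 18),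
    .k5 (.leaf [4, 10, 18] 1 2 34 66),
    .k5 (.leaf [6, 35, 64] 1 2 10 18),
    .k5 (.leaf [2, 13, 49] 1 4 17 64),
    .k5 (.leaf [2, 13, 49] 1 4 17 64),
    .k5 (.leaf [4, 10, 18] 1 2 34 66),
    .k5 (.leaf [4, 13, 97] 1 2 16 33),
    .k5 (.leaf [4, 13, 65] 1 2 16 32),
    .k5 (.leaf [4, 13, 65] 1 2 16 32),
    .k5 (.leaf [6, 13, 97] 1 2 18 34),
    .k5 (.leaf [6, 13, 67] 1 2 18 34),
    .k5 (.leaf [4, 13, 97] 1 2 16 32),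
    .k5 (.leaf [4, 13, 64] 1 2 16 32)]

theorem row5_12_chk : chkPairs 12 (trip5 12) row5_12 = true := by
  decide +kernel

/-- entries for 16 -/
def row5_16 : List En5 :=
  [.shp 1 1 [(.leaf [3, 12, 25] 1 4 33 65), (.leaf [9, 12, 19] 1 2 34 66), (.leaf [11, 12, 17] 1 2
      32 64), (.leaf [12, 48, 64] 1 16 18 20)],
    .k5 (.leaf [19, 24, 33] 1 2 6 64),
    .k5 (.leaf [17, 24, 35] 1 2 4 66),
    .shp 0 2 [(.leaf [3, 12, 49] 1 4 16 65), (.leaf [12, 19, 33] 1 2 6 64), (.leaf [12, 17, 35] 1 2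
      4 66), (.leaf [4, 24, 96] 1 8 10 40)],
    .k5 (.leaf [4, 24, 65] 1 2 8 32),
    .k5 (.leaf [6, 24, 67] 1 2 10 34),
    .k5 (.leaf [4, 8, 19] 1 2 34 66),
    .k5 (.leaf [12, 17, 34] 1 2 4 66),
    .k5 (.leaf [12, 18, 33] 1 2 6 64),
    .shp 4 6 [(.leaf [9, 12, 18] 1 2 34 66), (.leaf [12, 16, 35] 1 2 4 66), (.leaf [4, 48, 64] 1 16
      18 24)],
    .shp 2 1 [(.leaf [9, 12, 49] 1 2 19 66), (.leaf [12, 18, 33] 1 2 6 64), (.leaf [4, 34, 64] 1 16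
      18 24), (.leaf [4, 10, 64] 1 16 18 48), (.leaf [2, 12, 70] 1 16 20 48)],
    .k5 (.leaf [6, 10, 17] 1 2 32 64),
    .k5 (.leaf [12, 25, 67] 1 2 7 34),
    .k5 (.leaf [6, 10, 17] 1 2 32 64),
    .k5 (.leaf [12, 18, 32] 1 2 6 64),
    .k5 (.leaf [17, 24, 35] 1 2 4 66),
    .k5 (.br 0 1 (.leaf [12, 49, 65] 1 2 6 18) (.br 0 0 (.br 1 0 (.leaf [2, 12, 24] 1 4 32 64) (.br
      1 0 (.leaf [4, 8, 65] 1 2 16 32) (.abs 1))) (.abs 0))),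
    .k5 (.leaf [12, 17, 34] 1 2 4 66),
    .k5 (.leaf [17, 33, 66] 1 2 4 8),
    .k5 (.leaf [12, 17, 97] 1 2 4 35),
    .k5 (.br 0 0 (.leaf [12, 17, 35] 1 2 4 66) (.br 0 0 (.leaf [3, 24, 49] 1 4 8 65) (.abs 0))),
    .k5 (.leaf [2, 12, 24] 1 4 32 64),
    .k5 (.leaf [12, 32, 67] 1 2 4 16),
    .k5 (.leaf [4, 8, 18] 1 2 34 66),
    .shp 3 2 [(.leaf [12, 17, 35] 1 2 4 66), (.leaf [12, 17, 70] 1 2 4 35), (.leaf [4, 8, 48] 1 16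
      18 80)],
    .k5 (.leaf [24, 34, 65] 1 2 6 10),
    .k5 (.leaf [12, 17, 34] 1 2 4 66),
    .k5 (.leaf [12, 49, 71] 1 4 6 18),
    .k5 (.leaf [17, 34, 70] 1 2 4 8),
    .k5 (.leaf [4, 24, 65] 1 2 8 32),
    .k5 (.leaf [4, 8, 65] 1 2 16 32),
    .k5 (.leaf [17, 34, 70] 1 2 4 8),
    .k5 (.leaf [12, 17, 71] 1 2 7 32),
    .k5 (.leaf [12, 32, 67] 1 2 4 16),
    .k5 (.leaf [4, 8, 64] 1 2 16 32)]

theorem row5_16_chk : chkPairs 16 (trip5 16) row5_16 = true := by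
  decide +kernel

/-- entries for 18 -/
def row5_18 : List En5 :=
  [.shp 4 1 [(.leaf [11, 12, 16] 1 2 32 64), (.leaf [12, 18, 33] 1 2 6 64), (.leaf [6, 48, 64] 1 16
      18 24)],
    .k5 (.leaf [12, 16, 35] 1 2 4 66),
    .shp 2 6 [(.leaf [11, 12, 49] 1 2 17 64), (.leaf [12, 16, 35] 1 2 4 66), (.leaf [6, 32, 64] 1
      16 18 24), (.leaf [4, 8, 66] 1 16 18 48), (.leaf [2, 12, 70] 1 16 20 48)],
    .k5 (.leaf [12, 25, 65] 1 2 5 32),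
    .k5 (.leaf [4, 8, 19] 1 2 34 66),
    .k5 (.leaf [4, 8, 19] 1 2 34 66),
    .k5 (.leaf [12, 16, 34] 1 2 4 66),
    .k5 (.leaf [19, 24, 33] 1 2 6 64),
    .k5 (.br 0 0 (.leaf [12, 19, 33] 1 2 6 64) (.br 0 0 (.leaf [3, 24, 49] 1 4 8 65) (.abs 0))),
    .k5 (.leaf [12, 34, 65] 1 2 6 18),
    .k5 (.leaf [2, 12, 24] 1 4 32 64),
    .k5 (.leaf [6, 8, 16] 1 2 32 64),
    .shp 3 7 [(.leaf [12, 19, 33] 1 2 6 64), (.leaf [12, 19, 70] 1 2 6 33), (.leaf [6, 8, 48] 1 16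
      18 80)],
    .k5 (.leaf [12, 19, 32] 1 2 6 64),
    .k5 (.br 0 1 (.leaf [12, 49, 67] 1 2 4 16) (.br 0 0 (.br 1 0 (.leaf [2, 12, 24] 1 4 32 64) (.br
      1 0 (.leaf [4, 10, 67] 1 2 18 34) (.abs 1))) (.abs 0))),
    .k5 (.leaf [19, 32, 64] 1 2 6 10),
    .k5 (.leaf [12, 19, 97] 1 2 6 33),
    .k5 (.leaf [12, 19, 32] 1 2 6 64),
    .k5 (.leaf [24, 32, 67] 1 2 4 8),
    .k5 (.leaf [12, 49, 71] 1 4 6 16),
    .k5 (.leaf [19, 32, 70] 1 2 6 10),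
    .k5 (.leaf [6, 24, 67] 1 2 10 34),
    .k5 (.leaf [12, 19, 71] 1 2 5 34),
    .k5 (.leaf [12, 34, 65] 1 2 6 18),
    .k5 (.leaf [6, 10, 67] 1 2 18 34),
    .k5 (.leaf [19, 32, 70] 1 2 6 10),
    .k5 (.leaf [6, 10, 66] 1 2 18 34)]

theorem row5_18_chk : chkPairs 18 (trip5 18) row5_18 = true := by
  decide +kernel

/-- entries for 24 -/
def row5_24 : List En5 :=
  [.k5 (.leaf [12, 16, 35] 1 2 4 66),
    .k5 (.leaf [12, 18, 33] 1 2 6 64),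
    .k5 (.leaf [18, 33, 65] 1 2 6 10),
    .k5 (.leaf [4, 8, 64] 1 2 16 32),
    .k5 (.leaf [2, 25, 71] 1 4 8 33),
    .k5 (.leaf [12, 25, 97] 1 4 6 35),
    .k5 (.leaf [12, 16, 35] 1 2 4 66),
    .k5 (.leaf [4, 10, 66] 1 2 18 34),
    .k5 (.leaf [16, 32, 67] 1 2 4 8),
    .k5 (.leaf [2, 25, 71] 1 4 8 33),
    .k5 (.leaf [12, 25, 97] 1 4 6 33),
    .k5 (.leaf [4, 25, 65] 1 2 8 32),
    .k5 (.leaf [4, 8, 18] 1 2 34 66),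
    .k5 (.leaf [4, 8, 18] 1 2 34 66),
    .k5 (.leaf [12, 16, 34] 1 2 4 66),
    .k5 (.leaf [4, 8, 65] 1 2 16 32),
    .k5 (.leaf [4, 8, 65] 1 2 16 32),
    .k5 (.leaf [12, 25, 97] 1 4 6 35),
    .k5 (.leaf [6, 10, 67] 1 2 18 34),
    .k5 (.leaf [12, 25, 97] 1 4 6 33),
    .k5 (.leaf [4, 8, 64] 1 2 16 32)]

theorem row5_24_chk : chkPairs 24 (trip5 24) row5_24 = true := by
  decide +kernel

/-- entries for 32 -/
def row5_32 : List En5 :=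
  [.shp 1 2 [(.leaf [3, 12, 24] 1 4 33 65), (.leaf [12, 17, 35] 1 2 4 66), (.leaf [12, 19, 33] 1 2
      6 64), (.leaf [4, 24, 96] 1 32 34 40)],
    .k5 (.leaf [35, 48, 65] 1 2 6 10),
    .k5 (.leaf [33, 48, 67] 1 2 4 8),
    .k5 (.leaf [12, 33, 66] 1 2 4 16),
    .shp 0 3 [(.leaf [3, 12, 70] 1 4 16 32), (.leaf [12, 35, 65] 1 2 6 18), (.leaf [12, 33, 67] 1 2
      4 16), (.leaf [8, 48, 70] 1 16 18 22)],
    .k5 (.leaf [12, 49, 65] 1 2 6 18),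
    .shp 4 7 [(.leaf [12, 17, 34] 1 2 4 66), (.leaf [12, 24, 67] 1 2 4 33), (.leaf [4, 8, 96] 1 32
      34 48)],
    .k5 (.leaf [12, 49, 71] 1 4 6 18),
    .shp 2 2 [(.leaf [12, 17, 97] 1 2 4 35), (.leaf [12, 49, 65] 1 2 6 18), (.leaf [4, 8, 66] 1 32
      34 48), (.leaf [6, 8, 18] 1 32 34 96), (.leaf [2, 12, 24] 1 32 36 96)],
    .k5 (.leaf [33, 48, 67] 1 2 4 8),
    .k5 (.leaf [12, 33, 66] 1 2 4 16),
    .shp 3 3 [(.leaf [5, 12, 64] 1 2 16 32), (.leaf [12, 24, 33] 1 2 4 67), (.leaf [8, 16, 96] 1 32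
      34 38)],
    .k5 (.br 0 0 (.leaf [12, 33, 67] 1 2 4 16) (.br 0 0 (.leaf [3, 48, 70] 1 4 8 16) (.abs 0))),
    .k5 (.leaf [12, 33, 66] 1 2 4 16)]

theorem row5_32_chk : chkPairs 32 (trip5 32) row5_32 = true := by
  decide +kernel

/-- entries for 34 -/
def row5_34 : List En5 :=
  [.shp 4 2 [(.leaf [12, 19, 32] 1 2 6 64), (.leaf [12, 24, 65] 1 2 6 35), (.leaf [4, 10, 96] 1 32
      34 48)],
    .k5 (.leaf [12, 49, 67] 1 2 4 16),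
    .k5 (.leaf [12, 49, 71] 1 4 6 16),
    .shp 2 7 [(.leaf [12, 19, 97] 1 2 6 33), (.leaf [12, 49, 67] 1 2 4 16), (.leaf [4, 10, 64] 1 32
      34 48), (.leaf [4, 8, 16] 1 32 34 96), (.leaf [2, 12, 24] 1 32 36 96)],
    .k5 (.leaf [35, 48, 65] 1 2 6 10),
    .shp 3 8 [(.leaf [7, 12, 66] 1 2 18 34), (.leaf [12, 24, 35] 1 2 6 65), (.leaf [10, 16, 96] 1
      32 34 38)],
    .k5 (.br 0 0 (.leaf [12, 35, 65] 1 2 6 18) (.br 0 0 (.leaf [3, 48, 70] 1 4 8 16) (.abs 0))),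
    .k5 (.leaf [12, 35, 64] 1 2 6 18),
    .k5 (.leaf [12, 35, 64] 1 2 6 18)]

theorem row5_34_chk : chkPairs 34 (trip5 34) row5_34 = true := by
  decide +kernel

/-- entries for 48 -/
def row5_48 : List En5 :=
  [.k5 (.leaf [12, 32, 67] 1 2 4 16),
    .k5 (.leaf [12, 32, 66] 1 2 4 16),
    .k5 (.leaf [24, 34, 65] 1 2 6 10),
    .k5 (.leaf [12, 34, 64] 1 2 6 18),
    .k5 (.leaf [24, 32, 67] 1 2 4 8),
    .k5 (.leaf [12, 32, 66] 1 2 4 16)]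

theorem row5_48_chk : chkPairs 48 (trip5 48) row5_48 = true := by
  decide +kernel

/-- entries for 64 -/
def row5_64 : List En5 :=
  [.shp 0 4 [(.leaf [3, 12, 24] 1 4 32 64), (.leaf [5, 12, 65] 1 2 16 32), (.leaf [7, 12, 67] 1 2
      18 34), (.leaf [12, 16, 96] 1 32 34 38)],
    .shp 1 3 [(.leaf [3, 12, 48] 1 4 16 65), (.leaf [12, 33, 67] 1 2 4 16), (.leaf [12, 35, 65] 1 2
      6 18), (.leaf [8, 48, 70] 1 4 6 22)],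
    .shp 2 3 [(.leaf [7, 12, 97] 1 2 18 34), (.leaf [12, 33, 66] 1 2 4 16), (.leaf [4, 8, 16] 1 64
      66 96), (.leaf [10, 16, 34] 1 64 66 70), (.leaf [2, 12, 24] 1 64 68 96)]]

theorem row5_64_chk : chkPairs 64 (trip5 64) row5_64 = true := by
  decide +kernel

/-- entries for 66 -/
def row5_66 : List En5 :=
  [.shp 2 8 [(.leaf [5, 12, 97] 1 2 16 32), (.leaf [12, 35, 64] 1 2 6 18), (.leaf [6, 8, 18] 1 64
      66 96), (.leaf [8, 16, 32] 1 64 66 70), (.leaf [2, 12, 24] 1 64 68 96)]]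

theorem row5_66_chk : chkPairs 66 (trip5 66) row5_66 = true := by
  decide +kernel

/-- entries for 70 -/
def row5_70 : List En5 :=
  []

theorem row5_70_chk : chkPairs 70 (trip5 70) row5_70 = true := by
  decide +kernel

/-- entries for 96 -/
def row5_96 : List En5 :=
  []

theorem row5_96_chk : chkPairs 96 (trip5 96) row5_96 = true := by
  decide +kernel

theorem l4_tab : ∀ x ∈ dl5, ∀ y ∈ dl5, ∀ z ∈ dl5, x < y → y < z → x ^^^ y ≠ z →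
    ∃ e, chkEn x y z e = true := by
  intro x hx y hy z hz hxy hyz hne
  have hp : (y, z) ∈ trip5 x := by
    unfold trip5
    rw [List.mem_flatMap]
    refine ⟨y, hy, List.mem_map.2 ⟨z, List.mem_filter.2 ⟨hz, ?_⟩, rfl⟩⟩
    simp [hxy, hyz, hne]
  have hx' := hx
  simp only [dl5, List.mem_cons, List.not_mem_nil, or_false] at hx'
  rcases hx' with rfl | rfl | rfl | rfl | rfl | rfl | rfl | rfl | rfl | rfl | rfl | rfl | rfl | rfl | rfl | rfl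
  · exact chkPairs_sound row5_2_chk (y, z) hp
  · exact chkPairs_sound row5_4_chk (y, z) hp
  · exact chkPairs_sound row5_6_chk (y, z) hp
  · exact chkPairs_sound row5_8_chk (y, z) hp
  · exact chkPairs_sound row5_10_chk (y, z) hp
  · exact chkPairs_sound row5_12_chk (y, z) hp
  · exact chkPairs_sound row5_16_chk (y, z) hp
  · exact chkPairs_sound row5_18_chk (y, z) hp
  · exact chkPairs_sound row5_24_chk (y, z) hp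
  · exact chkPairs_sound row5_32_chk (y, z) hp
  · exact chkPairs_sound row5_34_chk (y, z) hp
  · exact chkPairs_sound row5_48_chk (y, z) hp
  · exact chkPairs_sound row5_64_chk (y, z) hp
  · exact chkPairs_sound row5_66_chk (y, z) hp
  · exact chkPairs_sound row5_70_chk (y, z) hp
  · exact chkPairs_sound row5_96_chk (y, z) hp

end Pool.Agent.WW

end
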