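import Pool.Agent.Work.MP_a8f287_co.Bd.B04

/-! Part of the former bundles, compiled separately. -/

section

/-!
Tools for the table of the good sets of rank six with a `K4` plane: a state is a list of codes
below 64 whose points lie in the set; a row shows that some point outside two given subspaces
gives a certificate or a state of the next level.
-/

namespace Pool.Agent.WW

open Submodule Module

/-- the check of a packed linear map onto a state of the next level -/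
def isoDec (nxt : List (List ℕ)) (M c : ℕ) : Bool :=
  match nxt[c % 256]? with
  | none => false
  | some l =>
    (l.all fun m => M.testBit (linC [c / 2 ^ 8 % 64, c / 2 ^ 14 % 64, c / 2 ^ 20 % 64,
      c / 2 ^ 26 % 64, c / 2 ^ 32 % 64, c / 2 ^ 38 % 64] m)) &&
    ((List.range 6).all fun i => linC [c / 2 ^ 8 % 64, c / 2 ^ 14 % 64, c / 2 ^ 20 % 64,
      c / 2 ^ 26 % 64, c / 2 ^ 32 % 64, c / 2 ^ 38 % 64] (c / 2 ^ (44 + 6 * i) % 64) == 2 ^ i)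

/-- the check of a list of packed linear maps -/
def chkI (nxt : List (List ℕ)) (M : ℕ) : List ℕ → ℕ → Bool
  | [], _ => true
  | y :: l, N => isoDec nxt (M + 2 ^ y) (N % 2 ^ 80) && chkI nxt M l (N / 2 ^ 80)

/-- the data of a row: the state, generators of the two subspaces, the masks of the state, of
the union of the subspaces, of the points with a linear map, the certificates and the maps -/
abbrev Row6 := List ℕ × (List ℕ × List ℕ) × (ℕ × ℕ × ℕ) × (ℕ × ℕ)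

/-- the check of a row -/
def row6 (nxt : List (List ℕ)) (r : Row6) : Bool :=
  decide (r.2.1.1.length ≤ 5) && decide (r.2.1.2.length ≤ 5) &&
  decide (r.2.1.1.length + r.2.1.2.length ≤ 8) &&
  (r.1.all fun m => decide (m < 64) && r.2.2.1.2.1.testBit m) &&
  (r.2.2.1.1 == mask r.1) &&
  (r.2.2.1.2.1 == mask (spanList r.2.1.1 ++ spanList r.2.1.2)) &&
  chkL (fun y => r.2.2.1.1 + 2 ^ y) 6 2 ((List.range 64).filter fun y =>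
    !r.2.2.1.2.1.testBit y && !r.2.2.1.2.2.testBit y) r.2.2.2.1 &&
  chkI nxt r.2.2.1.1 ((List.range 64).filter fun y =>
    !r.2.2.1.2.1.testBit y && r.2.2.1.2.2.testBit y) r.2.2.2.2

section

variable {V : Type*} [AddCommGroup V] [Module (ZMod 2) V]

/-- some state of the list is contained in `E` up to the choice of a basis -/
def Reach (E : Set V) (L : List (List ℕ)) : Prop :=
  ∃ l ∈ L, ∃ b : Fin 6 → V, LinearIndependent (ZMod 2) b ∧ ∀ n ∈ l, comb b n ∈ E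

theorem k6_surj [FiniteDimensional (ZMod 2) V] (hV : finrank (ZMod 2) V = 6)
    {b : Fin 6 → V} (hb : LinearIndependent (ZMod 2) b) (v : V) : ∃ n < 64, comb b n = v := by
  have : Finite V := Module.finite_of_finite (ZMod 2)
  have := Fintype.ofFinite V
  have hcard : Fintype.card V = 64 := by
    rw [card_eq_pow_finrank (K := ZMod 2) (V := V), hV, ZMod.card]
    norm_num
  have hinj : Function.Injective (fun n : Fin 64 => comb b n) := by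
    intro x y hxy
    ext
    exact r5s_comb_inj hb (lt_of_lt_of_le x.2 (by norm_num)) (lt_of_lt_of_le y.2 (by norm_num)) hxy
  have hbij : Function.Bijective (fun n : Fin 64 => comb b n) :=
    (Fintype.bijective_iff_injective_and_card _).mpr ⟨hinj, by simp [hcard]⟩
  obtain ⟨n, hn⟩ := hbij.2 v
  exact ⟨n, n.2, hn⟩

omit [Module (ZMod 2) V] in
theorem k6_pow {b : Fin 6 → V} (i : Fin 6) : comb b (2 ^ (i : ℕ)) = b i := by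
  unfold comb
  rw [Finset.sum_eq_single i]
  · rw [if_pos]
    exact Nat.testBit_two_pow_self
  · intro j _ hj
    rw [if_neg]
    rw [Nat.testBit_two_pow_of_ne]
    · simp
    · intro h
      exact hj (Fin.ext h).symm
  · intro h
    exact absurd (Finset.mem_univ i) h

/-- a certificate for a state contained in `E` -/
theorem k6_cert {E : Set V} {b : Fin 6 → V} (hb : LinearIndependent (ZMod 2) b)
    {l : List ℕ} (hl : ∀ n ∈ l, n < 64 ∧ comb b n ∈ E) {y : ℕ} (hy : y < 64)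
    (hyE : comb b y ∈ E) (hyl : y ∉ l) (h : CertM (mask l + 2 ^ y)) : HasK5 E := by
  obtain ⟨C, s0, s1, s2, s3, hc⟩ := h
  have hM : (mask l).testBit y = false := by
    by_contra h
    rw [Bool.not_eq_false] at h
    exact hyl ((testBit_mask l y).1 h)
  refine hasK5_of_cert b E ⊥ ?_ ?_ (mask l + 2 ^ y) ?_ C s0 s1 s2 s3 hc
  · unfold Gen
    exact bot_le
  · intro k hk hk0
    rw [mem_bot] at hk0
    exact r5s_comb_zero_imp hb k hk hk0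
  · intro k hk
    rw [r5s_testBit_add hM, testBit_mask] at hk
    rcases hk with hk | hk
    · exact ⟨by simpa using (hl k hk).1, comb b k, (hl k hk).2, by
        rw [add_self_z2]; exact zero_mem _⟩
    · rw [hk]
      exact ⟨by simpa using hy, comb b y, hyE, by rw [add_self_z2]; exact zero_mem _⟩

theorem isoDec_sound [FiniteDimensional (ZMod 2) V] (hV : finrank (ZMod 2) V = 6) {E : Set V}
    {b : Fin 6 → V} {nxt : List (List ℕ)}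
    {M c : ℕ} (hM : ∀ n, M.testBit n = true → comb b n ∈ E) (hb : LinearIndependent (ZMod 2) b)
    (h : isoDec nxt M c = true) : Reach E nxt := by
  unfold isoDec at h
  split at h
  · exact absurd h (by simp)
  · rename_i l hl
    rw [Bool.and_eq_true, List.all_eq_true, List.all_eq_true] at h
    obtain ⟨h1, h2⟩ := h
    obtain ⟨hh, hhdef⟩ : ∃ hh : List ℕ, hh = [c / 2 ^ 8 % 64, c / 2 ^ 14 % 64, c / 2 ^ 20 % 64,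
      c / 2 ^ 26 % 64, c / 2 ^ 32 % 64, c / 2 ^ 38 % 64] := ⟨_, rfl⟩
    rw [← hhdef] at h1 h2
    have hlen : hh.length = 6 := by rw [hhdef]; rfl
    obtain ⟨b', hb'⟩ : ∃ b' : Fin 6 → V, ∀ k, comb b' k = comb b (linC hh k) := by
      refine ⟨fun i => comb b (hh.get (i.cast hlen.symm)), fun k => ?_⟩
      rw [← r5s_linC]
      unfold comb
      refine (Fintype.sum_equiv (finCongr hlen) _ _ ?_).symm
      intro i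
      rfl
    refine ⟨l, List.mem_of_getElem? hl, b', ?_, fun n hn => ?_⟩
    · have hsp : span (ZMod 2) (Set.range b) ≤ span (ZMod 2) (Set.range b') := by
        rw [span_le]
        rintro _ ⟨i, rfl⟩
        have h3 := h2 (i : ℕ) (List.mem_range.2 i.2)
        rw [beq_iff_eq] at h3
        rw [← k6_pow (b := b) i, ← h3, ← hb', SetLike.mem_coe]
        unfold comb
        refine Submodule.sum_mem _ fun j _ => ?_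
        split_ifs
        · exact subset_span ⟨j, rfl⟩
        · exact zero_mem _
      have hbtop : span (ZMod 2) (Set.range b) = ⊤ := by
        apply Submodule.eq_top_of_finrank_eq
        rw [finrank_span_eq_card hb, Fintype.card_fin, hV]
      apply linearIndependent_of_top_le_span_of_card_eq_finrank
      · rw [← hbtop]
        exact hsp
      · rw [Fintype.card_fin, hV]
    · rw [hb']
      exact hM _ (h1 n hn)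

theorem chkI_sound {nxt : List (List ℕ)} {M : ℕ} : ∀ {l : List ℕ} {N : ℕ},
    chkI nxt M l N = true → ∀ y ∈ l, ∃ c, isoDec nxt (M + 2 ^ y) c = true
  | [], _, _, n, hn => by simp at hn
  | k :: l, N, h, n, hn => by
    rw [chkI, Bool.and_eq_true] at h
    rcases List.mem_cons.1 hn with rfl | hn
    · exact ⟨_, h.1⟩
    · exact chkI_sound h.2 n hn

/-- the span of the vectors with the codes of a list -/
theorem k6_span (b : Fin 6 → V) (l : List ℕ) :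
    finrank (ZMod 2) ↥(span (ZMod 2) (comb b '' {c | c ∈ l})) ≤ l.length := by
  classical
  have h1 : comb b '' {c | c ∈ l} = ((l.toFinset.image (comb b) : Finset V) : Set V) := by
    ext x
    simp
  rw [h1]
  exact (finrank_span_finset_le_card _).trans
    (Finset.card_image_le.trans (List.toFinset_card_le l))

theorem row6_step [FiniteDimensional (ZMod 2) V] {E : Set V} (hE : Good E)
    (hV : finrank (ZMod 2) V = 6) {nxt : List (List ℕ)} {rows : List Row6}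
    (h : rows.all (row6 nxt) = true) (hr : Reach E (rows.map Prod.fst)) : Reach E nxt := by
  obtain ⟨l, hl, b, hb, hlE⟩ := hr
  obtain ⟨r, hr, rfl⟩ := List.mem_map.1 hl
  have h1 := List.all_eq_true.1 h r hr
  unfold row6 at h1
  simp only [Bool.and_eq_true, decide_eq_true_eq, List.all_eq_true, beq_iff_eq] at h1
  obtain ⟨⟨⟨⟨⟨⟨⟨h5, h5'⟩, h8⟩, hlt⟩, hM⟩, hU⟩, hc⟩, hi⟩ := h1
  set A : Submodule (ZMod 2) V := span (ZMod 2) (comb b '' {c | c ∈ r.2.1.1}) with hA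
  set B : Submodule (ZMod 2) V := span (ZMod 2) (comb b '' {c | c ∈ r.2.1.2}) with hB
  have hfA : finrank (ZMod 2) ↥A ≤ r.2.1.1.length := k6_span b r.2.1.1
  have hfB : finrank (ZMod 2) ↥B ≤ r.2.1.2.length := k6_span b r.2.1.2
  obtain ⟨h0, hs, hsep, hf⟩ := (good_iff_sepGe E).1 hE
  have hAtop : A ≠ ⊤ := by
    intro hA'
    rw [hA', finrank_top, hV] at hfA
    omega
  have hBtop : B ≠ ⊤ := by
    intro hB'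
    rw [hB', finrank_top, hV] at hfB
    omega
  -- a point outside both subspaces
  have hex : ∃ v ∈ E, v ∉ A ∧ v ∉ B := by
    by_contra hcon
    push Not at hcon
    have hcov : ∀ x ∈ E, x ∈ A ∨ x ∈ B := by
      intro x hx
      by_cases hxA : x ∈ A
      · exact Or.inl hxA
      · exact Or.inr (hcon x hx hxA)
    have h3 := hsep A B hAtop hBtop hcov
    have hsup : A ⊔ B = ⊤ := by
      rw [eq_top_iff, ← hs, span_le]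
      intro x hx
      rcases hcov x hx with hx | hx
      · exact mem_sup_left hx
      · exact mem_sup_right hx
    have h4 := Submodule.finrank_sup_add_finrank_inf_eq A B
    rw [hsup, finrank_top, hV] at h4
    omega
  obtain ⟨v, hvE, hvA, hvB⟩ := hex
  obtain ⟨y, hy, rfl⟩ := k6_surj hV hb v
  have hyU : r.2.2.1.2.1.testBit y = false := by
    by_contra hcon
    rw [Bool.not_eq_false, hU, testBit_mask, List.mem_append] at hcon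
    rcases hcon with hcon | hcon
    · exact hvA (comb_spanList b _ y hcon)
    · exact hvB (comb_spanList b _ y hcon)
  have hyl : y ∉ r.1 := fun hyl => by
    rw [(hlt y hyl).2] at hyU
    exact absurd hyU (by simp)
  by_cases hF : r.2.2.1.2.2.testBit y = true
  · obtain ⟨c, hc'⟩ := chkI_sound hi y (by
      rw [List.mem_filter, List.mem_range]
      exact ⟨hy, by simp [hyU, hF]⟩)
    refine isoDec_sound hV (b := b) ?_ hb hc'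
    intro n hn
    rw [hM] at hn
    have hMy : (mask r.1).testBit y = false := by
      by_contra h
      rw [Bool.not_eq_false] at h
      exact hyl ((testBit_mask _ y).1 h)
    rw [r5s_testBit_add hMy, testBit_mask] at hn
    rcases hn with hn | hn
    · exact hlE n hn
    · rw [hn]
      exact hvE
  · exfalso
    rw [Bool.not_eq_true] at hF
    have h7 := chkL_sound hc y (by
      rw [List.mem_filter, List.mem_range]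
      exact ⟨hy, by simp [hyU, hF]⟩)
    rw [hM] at h7
    exact hf (k6_cert hb (fun n hn => ⟨(hlt n hn).1, hlE n hn⟩) hy hvE hyl h7)

end

end Pool.Agent.WW

end

section

/-!
The states of the table for rank six, by number of points.
-/

namespace Pool.Agent.WW

def k6L9 : List (List ℕ) := [
  [1, 2, 3, 4, 5, 6, 8, 16, 32]]

def k6L10 : List (List ℕ) := [
  [1, 2, 3, 4, 5, 6, 8, 9, 16, 32],
  [1, 2, 3, 4, 5, 6, 8, 16, 25, 32]]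

def k6L11 : List (List ℕ) := [
  [1, 2, 3, 4, 5, 6, 8, 9, 10, 16, 32],
  [1, 2, 3, 4, 5, 6, 8, 9, 16, 18, 32],
  [1, 2, 3, 4, 5, 6, 8, 9, 16, 26, 32],
  [1, 2, 3, 4, 5, 6, 8, 9, 16, 32, 50],
  [1, 2, 3, 4, 5, 6, 8, 9, 16, 32, 58],
  [1, 2, 3, 4, 5, 6, 8, 16, 25, 32, 42]]

def k6L12 : List (List ℕ) := [
  [1, 2, 3, 4, 5, 6, 8, 9, 10, 16, 17, 32],
  [1, 2, 3, 4, 5, 6, 8, 9, 10, 16, 20, 32],
  [1, 2, 3, 4, 5, 6, 8, 9, 10, 16, 23, 32],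
  [1, 2, 3, 4, 5, 6, 8, 9, 10, 16, 29, 32],
  [1, 2, 3, 4, 5, 6, 8, 9, 16, 18, 24, 32],
  [1, 2, 3, 4, 5, 6, 8, 9, 16, 18, 28, 32],
  [1, 2, 3, 4, 5, 6, 8, 9, 16, 18, 32, 40],
  [1, 2, 3, 4, 5, 6, 8, 9, 16, 18, 32, 42],
  [1, 2, 3, 4, 5, 6, 8, 9, 16, 18, 32, 44],
  [1, 2, 3, 4, 5, 6, 8, 9, 16, 18, 32, 46],
  [1, 2, 3, 4, 5, 6, 8, 9, 16, 18, 32, 56],
  [1, 2, 3, 4, 5, 6, 8, 9, 16, 18, 32, 60],
  [1, 2, 3, 4, 5, 6, 8, 9, 16, 23, 26, 32],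
  [1, 2, 3, 4, 5, 6, 8, 9, 16, 26, 32, 48],
  [1, 2, 3, 4, 5, 6, 8, 9, 16, 26, 32, 49],
  [1, 2, 3, 4, 5, 6, 8, 9, 16, 26, 32, 50],
  [1, 2, 3, 4, 5, 6, 8, 9, 16, 26, 32, 52],
  [1, 2, 3, 4, 5, 6, 8, 9, 16, 26, 32, 55],
  [1, 2, 3, 4, 5, 6, 8, 9, 16, 22, 32, 50],
  [1, 2, 3, 4, 5, 6, 8, 9, 16, 23, 32, 50],
  [1, 2, 3, 4, 5, 6, 8, 9, 16, 24, 32, 50],
  [1, 2, 3, 4, 5, 6, 8, 9, 16, 30, 32, 50],
  [1, 2, 3, 4, 5, 6, 8, 9, 16, 23, 32, 58],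
  [1, 2, 3, 4, 5, 6, 8, 16, 25, 32, 42, 48],
  [1, 2, 3, 4, 5, 6, 8, 16, 25, 32, 42, 49],
  [1, 2, 3, 4, 5, 6, 8, 16, 25, 32, 42, 52]]

def k6L13 : List (List ℕ) := [
  [1, 2, 3, 4, 5, 6, 8, 9, 10, 16, 17, 20, 32],
  [1, 2, 3, 4, 5, 6, 8, 9, 10, 16, 17, 22, 32],
  [1, 2, 3, 4, 5, 6, 8, 9, 10, 16, 17, 30, 32],
  [1, 2, 3, 4, 5, 6, 8, 9, 10, 16, 17, 32, 48],
  [1, 2, 3, 4, 5, 6, 8, 9, 10, 16, 17, 32, 50],
  [1, 2, 3, 4, 5, 6, 8, 9, 10, 16, 17, 32, 52],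
  [1, 2, 3, 4, 5, 6, 8, 9, 10, 16, 17, 32, 54],
  [1, 2, 3, 4, 5, 6, 8, 9, 10, 16, 17, 32, 62],
  [1, 2, 3, 4, 5, 6, 8, 9, 10, 16, 20, 25, 32],
  [1, 2, 3, 4, 5, 6, 8, 9, 10, 16, 20, 32, 49],
  [1, 2, 3, 4, 5, 6, 8, 9, 10, 16, 20, 32, 51],
  [1, 2, 3, 4, 5, 6, 8, 9, 10, 16, 20, 32, 57],
  [1, 2, 3, 4, 5, 6, 8, 9, 10, 16, 23, 32, 49],
  [1, 2, 3, 4, 5, 6, 8, 9, 10, 16, 29, 32, 50],
  [1, 2, 3, 4, 5, 6, 8, 9, 10, 16, 29, 32, 52],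
  [1, 2, 3, 4, 5, 6, 8, 9, 14, 16, 18, 24, 32],
  [1, 2, 3, 4, 5, 6, 8, 9, 15, 16, 18, 24, 32],
  [1, 2, 3, 4, 5, 6, 8, 9, 16, 18, 24, 28, 32],
  [1, 2, 3, 4, 5, 6, 8, 9, 16, 18, 24, 32, 36],
  [1, 2, 3, 4, 5, 6, 8, 9, 16, 18, 24, 32, 37],
  [1, 2, 3, 4, 5, 6, 8, 9, 16, 18, 24, 32, 39],
  [1, 2, 3, 4, 5, 6, 8, 9, 16, 18, 24, 32, 45],
  [1, 2, 3, 4, 5, 6, 8, 9, 16, 18, 24, 32, 46],
  [1, 2, 3, 4, 5, 6, 8, 9, 16, 18, 24, 32, 47],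
  [1, 2, 3, 4, 5, 6, 8, 9, 16, 18, 24, 32, 60],
  [1, 2, 3, 4, 5, 6, 8, 9, 16, 18, 28, 32, 33],
  [1, 2, 3, 4, 5, 6, 8, 9, 16, 18, 28, 32, 36],
  [1, 2, 3, 4, 5, 6, 8, 9, 16, 18, 28, 32, 37],
  [1, 2, 3, 4, 5, 6, 8, 9, 16, 18, 28, 32, 40],
  [1, 2, 3, 4, 5, 6, 8, 9, 16, 18, 28, 32, 41],
  [1, 2, 3, 4, 5, 6, 8, 9, 16, 18, 28, 32, 43],
  [1, 2, 3, 4, 5, 6, 8, 9, 16, 18, 28, 32, 44],
  [1, 2, 3, 4, 5, 6, 8, 9, 16, 18, 28, 32, 46],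
  [1, 2, 3, 4, 5, 6, 8, 9, 16, 18, 28, 32, 47],
  [1, 2, 3, 4, 5, 6, 8, 9, 16, 18, 28, 32, 56],
  [1, 2, 3, 4, 5, 6, 8, 9, 16, 18, 28, 32, 61],
  [1, 2, 3, 4, 5, 6, 8, 9, 16, 18, 20, 32, 40],
  [1, 2, 3, 4, 5, 6, 8, 9, 16, 18, 24, 32, 40],
  [1, 2, 3, 4, 5, 6, 8, 9, 16, 18, 25, 32, 40],
  [1, 2, 3, 4, 5, 6, 8, 9, 16, 18, 32, 40, 48],
  [1, 2, 3, 4, 5, 6, 8, 9, 16, 18, 32, 40, 49],
  [1, 2, 3, 4, 5, 6, 8, 9, 16, 18, 32, 40, 52],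
  [1, 2, 3, 4, 5, 6, 8, 9, 16, 18, 32, 40, 53],
  [1, 2, 3, 4, 5, 6, 8, 9, 16, 18, 21, 32, 42],
  [1, 2, 3, 4, 5, 6, 8, 9, 16, 18, 25, 32, 42],
  [1, 2, 3, 4, 5, 6, 8, 9, 16, 18, 32, 42, 49],
  [1, 2, 3, 4, 5, 6, 8, 9, 16, 18, 32, 42, 53],
  [1, 2, 3, 4, 5, 6, 8, 9, 16, 18, 32, 44, 53],
  [1, 2, 3, 4, 5, 6, 8, 9, 16, 18, 32, 46, 53],
  [1, 2, 3, 4, 5, 6, 8, 9, 16, 18, 32, 33, 56],
  [1, 2, 3, 4, 5, 6, 8, 9, 16, 18, 32, 35, 56],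
  [1, 2, 3, 4, 5, 6, 8, 9, 16, 18, 32, 33, 60],
  [1, 2, 3, 4, 5, 6, 8, 9, 16, 18, 32, 36, 60],
  [1, 2, 3, 4, 5, 6, 8, 9, 16, 23, 26, 32, 40],
  [1, 2, 3, 4, 5, 6, 8, 9, 16, 23, 26, 32, 58],
  [1, 2, 3, 4, 5, 6, 8, 9, 16, 23, 26, 32, 59],
  [1, 2, 3, 4, 5, 6, 8, 9, 16, 26, 32, 33, 48],
  [1, 2, 3, 4, 5, 6, 8, 9, 16, 26, 32, 40, 48],
  [1, 2, 3, 4, 5, 6, 8, 9, 16, 26, 32, 43, 48],
  [1, 2, 3, 4, 5, 6, 8, 9, 16, 26, 32, 46, 48],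
  [1, 2, 3, 4, 5, 6, 8, 9, 14, 16, 26, 32, 50],
  [1, 2, 3, 4, 5, 6, 8, 9, 15, 16, 26, 32, 50],
  [1, 2, 3, 4, 5, 6, 8, 9, 16, 23, 26, 32, 50],
  [1, 2, 3, 4, 5, 6, 8, 9, 16, 26, 32, 38, 50],
  [1, 2, 3, 4, 5, 6, 8, 9, 16, 26, 32, 33, 52],
  [1, 2, 3, 4, 5, 6, 8, 9, 16, 22, 24, 32, 50],
  [1, 2, 3, 4, 5, 6, 8, 9, 16, 23, 24, 32, 50],
  [1, 2, 3, 4, 5, 6, 8, 9, 16, 23, 28, 32, 50],
  [1, 2, 3, 4, 5, 6, 8, 9, 16, 23, 32, 40, 50],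
  [1, 2, 3, 4, 5, 6, 8, 9, 14, 16, 24, 32, 50],
  [1, 2, 3, 4, 5, 6, 8, 9, 15, 16, 24, 32, 50],
  [1, 2, 3, 4, 5, 6, 8, 9, 16, 24, 32, 46, 50],
  [1, 2, 3, 4, 5, 6, 8, 9, 16, 30, 32, 47, 50],
  [1, 2, 3, 4, 5, 6, 8, 15, 16, 25, 32, 42, 48],
  [1, 2, 3, 4, 5, 6, 8, 9, 16, 25, 32, 42, 49],
  [1, 2, 3, 4, 5, 6, 8, 11, 16, 25, 32, 42, 49]]

def k6L14 : List (List ℕ) := [
  [1, 2, 3, 4, 5, 6, 8, 9, 10, 16, 17, 20, 32, 34],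
  [1, 2, 3, 4, 5, 6, 8, 9, 10, 16, 17, 20, 32, 40],
  [1, 2, 3, 4, 5, 6, 8, 9, 10, 16, 17, 20, 32, 42],
  [1, 2, 3, 4, 5, 6, 8, 9, 10, 16, 17, 20, 32, 43],
  [1, 2, 3, 4, 5, 6, 8, 9, 10, 16, 17, 20, 32, 45],
  [1, 2, 3, 4, 5, 6, 8, 9, 10, 16, 17, 20, 32, 46],
  [1, 2, 3, 4, 5, 6, 8, 9, 10, 16, 17, 20, 32, 57],
  [1, 2, 3, 4, 5, 6, 8, 9, 10, 16, 17, 22, 32, 40],
  [1, 2, 3, 4, 5, 6, 8, 9, 10, 16, 17, 22, 32, 42],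
  [1, 2, 3, 4, 5, 6, 8, 9, 10, 16, 17, 22, 32, 43],
  [1, 2, 3, 4, 5, 6, 8, 9, 10, 16, 17, 19, 30, 32],
  [1, 2, 3, 4, 5, 6, 8, 9, 10, 16, 17, 30, 32, 48],
  [1, 2, 3, 4, 5, 6, 8, 9, 10, 16, 17, 30, 32, 51],
  [1, 2, 3, 4, 5, 6, 8, 9, 10, 16, 17, 30, 32, 62],
  [1, 2, 3, 4, 5, 6, 8, 9, 10, 16, 17, 30, 32, 63],
  [1, 2, 3, 4, 5, 6, 8, 9, 10, 16, 17, 32, 34, 48],
  [1, 2, 3, 4, 5, 6, 8, 9, 10, 16, 17, 32, 36, 48],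
  [1, 2, 3, 4, 5, 6, 8, 9, 10, 16, 17, 32, 38, 48],
  [1, 2, 3, 4, 5, 6, 8, 9, 10, 16, 17, 32, 39, 48],
  [1, 2, 3, 4, 5, 6, 8, 9, 10, 16, 17, 32, 46, 48],
  [1, 2, 3, 4, 5, 6, 8, 9, 10, 16, 17, 32, 36, 50],
  [1, 2, 3, 4, 5, 6, 8, 9, 10, 16, 17, 32, 39, 50],
  [1, 2, 3, 4, 5, 6, 8, 9, 10, 16, 17, 32, 45, 50],
  [1, 2, 3, 4, 5, 6, 8, 9, 10, 16, 17, 32, 33, 52],
  [1, 2, 3, 4, 5, 6, 8, 9, 10, 16, 17, 32, 34, 52],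
  [1, 2, 3, 4, 5, 6, 8, 9, 10, 16, 17, 20, 25, 32],
  [1, 2, 3, 4, 5, 6, 8, 9, 10, 16, 20, 25, 32, 48],
  [1, 2, 3, 4, 5, 6, 8, 9, 10, 16, 20, 25, 32, 49],
  [1, 2, 3, 4, 5, 6, 8, 9, 10, 16, 20, 25, 32, 52],
  [1, 2, 3, 4, 5, 6, 8, 9, 10, 16, 20, 25, 32, 61],
  [1, 2, 3, 4, 5, 6, 8, 9, 10, 13, 16, 20, 32, 49],
  [1, 2, 3, 4, 5, 6, 8, 9, 10, 14, 16, 20, 32, 49],
  [1, 2, 3, 4, 5, 6, 8, 9, 10, 15, 16, 20, 32, 49],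
  [1, 2, 3, 4, 5, 6, 8, 9, 10, 16, 20, 32, 40, 49],
  [1, 2, 3, 4, 5, 6, 8, 9, 10, 16, 29, 32, 33, 52],
  [1, 2, 3, 4, 5, 6, 8, 9, 14, 16, 18, 24, 32, 48],
  [1, 2, 3, 4, 5, 6, 8, 9, 14, 16, 18, 24, 32, 50],
  [1, 2, 3, 4, 5, 6, 8, 9, 14, 16, 18, 24, 32, 56],
  [1, 2, 3, 4, 5, 6, 8, 9, 14, 16, 18, 24, 32, 58],
  [1, 2, 3, 4, 5, 6, 8, 9, 15, 16, 18, 24, 32, 48],
  [1, 2, 3, 4, 5, 6, 8, 9, 15, 16, 18, 24, 32, 50],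
  [1, 2, 3, 4, 5, 6, 8, 9, 15, 16, 18, 24, 32, 56],
  [1, 2, 3, 4, 5, 6, 8, 9, 15, 16, 18, 24, 32, 58],
  [1, 2, 3, 4, 5, 6, 8, 9, 16, 18, 24, 28, 32, 33],
  [1, 2, 3, 4, 5, 6, 8, 9, 16, 18, 24, 28, 32, 40],
  [1, 2, 3, 4, 5, 6, 8, 9, 16, 18, 24, 28, 32, 41],
  [1, 2, 3, 4, 5, 6, 8, 9, 16, 18, 24, 32, 36, 41],
  [1, 2, 3, 4, 5, 6, 8, 9, 16, 18, 24, 32, 36, 42],
  [1, 2, 3, 4, 5, 6, 8, 9, 16, 18, 24, 32, 36, 56],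
  [1, 2, 3, 4, 5, 6, 8, 9, 16, 18, 24, 32, 34, 37],
  [1, 2, 3, 4, 5, 6, 8, 9, 16, 18, 24, 32, 35, 37],
  [1, 2, 3, 4, 5, 6, 8, 9, 16, 18, 24, 32, 37, 42],
  [1, 2, 3, 4, 5, 6, 8, 9, 16, 18, 24, 32, 37, 48],
  [1, 2, 3, 4, 5, 6, 8, 9, 16, 18, 24, 32, 37, 50],
  [1, 2, 3, 4, 5, 6, 8, 9, 16, 18, 28, 32, 33, 40],
  [1, 2, 3, 4, 5, 6, 8, 9, 16, 18, 28, 32, 33, 46],
  [1, 2, 3, 4, 5, 6, 8, 9, 16, 18, 28, 32, 33, 50],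
  [1, 2, 3, 4, 5, 6, 8, 9, 16, 18, 28, 32, 33, 60],
  [1, 2, 3, 4, 5, 6, 8, 9, 16, 18, 28, 32, 36, 43],
  [1, 2, 3, 4, 5, 6, 8, 9, 16, 18, 28, 32, 35, 37],
  [1, 2, 3, 4, 5, 6, 8, 9, 16, 18, 28, 32, 37, 43],
  [1, 2, 3, 4, 5, 6, 8, 9, 16, 18, 28, 32, 37, 50],
  [1, 2, 3, 4, 5, 6, 8, 9, 16, 18, 28, 32, 35, 40],
  [1, 2, 3, 4, 5, 6, 8, 9, 16, 18, 28, 32, 38, 40],
  [1, 2, 3, 4, 5, 6, 8, 9, 16, 18, 28, 32, 40, 52],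
  [1, 2, 3, 4, 5, 6, 8, 9, 16, 18, 28, 32, 40, 53],
  [1, 2, 3, 4, 5, 6, 8, 9, 16, 18, 28, 32, 41, 52],
  [1, 2, 3, 4, 5, 6, 8, 9, 16, 18, 28, 32, 36, 56],
  [1, 2, 3, 4, 5, 6, 8, 9, 16, 18, 20, 32, 40, 50],
  [1, 2, 3, 4, 5, 6, 8, 9, 16, 18, 20, 32, 40, 51],
  [1, 2, 3, 4, 5, 6, 8, 9, 13, 16, 18, 24, 32, 40],
  [1, 2, 3, 4, 5, 6, 8, 9, 14, 16, 18, 24, 32, 40],
  [1, 2, 3, 4, 5, 6, 8, 9, 15, 16, 18, 24, 32, 40],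
  [1, 2, 3, 4, 5, 6, 8, 9, 16, 18, 24, 32, 37, 40],
  [1, 2, 3, 4, 5, 6, 8, 9, 12, 16, 18, 25, 32, 40],
  [1, 2, 3, 4, 5, 6, 8, 9, 14, 16, 18, 25, 32, 40],
  [1, 2, 3, 4, 5, 6, 8, 9, 15, 16, 18, 25, 32, 40],
  [1, 2, 3, 4, 5, 6, 8, 9, 14, 16, 18, 32, 40, 48],
  [1, 2, 3, 4, 5, 6, 8, 9, 15, 16, 18, 32, 40, 48],
  [1, 2, 3, 4, 5, 6, 8, 9, 16, 18, 28, 32, 40, 48],
  [1, 2, 3, 4, 5, 6, 8, 9, 16, 18, 32, 39, 40, 48],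
  [1, 2, 3, 4, 5, 6, 8, 9, 16, 18, 21, 32, 40, 49],
  [1, 2, 3, 4, 5, 6, 8, 9, 16, 18, 23, 32, 40, 49],
  [1, 2, 3, 4, 5, 6, 8, 9, 16, 18, 32, 39, 40, 49],
  [1, 2, 3, 4, 5, 6, 8, 9, 16, 18, 32, 40, 52, 60],
  [1, 2, 3, 4, 5, 6, 8, 9, 16, 18, 32, 40, 52, 61],
  [1, 2, 3, 4, 5, 6, 8, 9, 16, 18, 29, 32, 40, 53],
  [1, 2, 3, 4, 5, 6, 8, 9, 16, 18, 32, 40, 53, 61],
  [1, 2, 3, 4, 5, 6, 8, 9, 16, 18, 24, 32, 33, 56],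
  [1, 2, 3, 4, 5, 6, 8, 9, 16, 18, 26, 32, 33, 56],
  [1, 2, 3, 4, 5, 6, 8, 9, 16, 18, 32, 36, 56, 60],
  [1, 2, 3, 4, 5, 6, 8, 9, 16, 26, 29, 32, 33, 48],
  [1, 2, 3, 4, 5, 6, 8, 9, 14, 16, 26, 32, 40, 48],
  [1, 2, 3, 4, 5, 6, 8, 9, 15, 16, 26, 32, 40, 48],
  [1, 2, 3, 4, 5, 6, 8, 9, 16, 26, 29, 32, 40, 48],
  [1, 2, 3, 4, 5, 6, 8, 9, 16, 26, 32, 40, 46, 48],
  [1, 2, 3, 4, 5, 6, 8, 9, 16, 23, 26, 32, 41, 50],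
  [1, 2, 3, 4, 5, 6, 8, 9, 16, 26, 32, 38, 50, 56]]

def k6L15 : List (List ℕ) := [
  [1, 2, 3, 4, 5, 6, 8, 9, 10, 16, 17, 19, 20, 32, 34],
  [1, 2, 3, 4, 5, 6, 8, 9, 10, 16, 17, 20, 22, 32, 34],
  [1, 2, 3, 4, 5, 6, 8, 9, 10, 16, 17, 20, 23, 32, 34],
  [1, 2, 3, 4, 5, 6, 8, 9, 10, 16, 17, 20, 25, 32, 34],
  [1, 2, 3, 4, 5, 6, 8, 9, 10, 16, 17, 20, 32, 34, 49],
  [1, 2, 3, 4, 5, 6, 8, 9, 10, 16, 17, 20, 32, 34, 52],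
  [1, 2, 3, 4, 5, 6, 8, 9, 10, 16, 17, 19, 20, 32, 40],
  [1, 2, 3, 4, 5, 6, 8, 9, 10, 16, 17, 20, 22, 32, 40],
  [1, 2, 3, 4, 5, 6, 8, 9, 10, 16, 17, 20, 23, 32, 40],
  [1, 2, 3, 4, 5, 6, 8, 9, 10, 16, 17, 20, 32, 40, 49],
  [1, 2, 3, 4, 5, 6, 8, 9, 10, 16, 17, 20, 32, 34, 42],
  [1, 2, 3, 4, 5, 6, 8, 9, 10, 16, 17, 19, 30, 32, 36],
  [1, 2, 3, 4, 5, 6, 8, 9, 10, 16, 17, 19, 30, 32, 62],
  [1, 2, 3, 4, 5, 6, 8, 9, 10, 16, 17, 30, 32, 35, 48],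
  [1, 2, 3, 4, 5, 6, 8, 9, 10, 16, 17, 22, 32, 34, 48],
  [1, 2, 3, 4, 5, 6, 8, 9, 10, 16, 17, 23, 32, 34, 48],
  [1, 2, 3, 4, 5, 6, 8, 9, 10, 16, 17, 32, 34, 48, 52],
  [1, 2, 3, 4, 5, 6, 8, 9, 10, 13, 16, 17, 32, 36, 48],
  [1, 2, 3, 4, 5, 6, 8, 9, 10, 14, 16, 17, 32, 36, 48],
  [1, 2, 3, 4, 5, 6, 8, 9, 10, 15, 16, 17, 32, 36, 48],
  [1, 2, 3, 4, 5, 6, 8, 9, 10, 16, 17, 32, 36, 41, 48],
  [1, 2, 3, 4, 5, 6, 8, 9, 10, 16, 17, 20, 32, 33, 52],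
  [1, 2, 3, 4, 5, 6, 8, 9, 10, 16, 17, 20, 25, 32, 38],
  [1, 2, 3, 4, 5, 6, 8, 9, 10, 16, 20, 25, 32, 37, 49],
  [1, 2, 3, 4, 5, 6, 8, 9, 10, 16, 20, 32, 40, 49, 57],
  [1, 2, 3, 4, 5, 6, 8, 9, 16, 18, 24, 28, 32, 33, 40],
  [1, 2, 3, 4, 5, 6, 8, 9, 16, 18, 24, 32, 34, 35, 37],
  [1, 2, 3, 4, 5, 6, 8, 9, 16, 18, 28, 32, 33, 40, 53],
  [1, 2, 3, 4, 5, 6, 8, 9, 16, 18, 28, 32, 33, 40, 60],
  [1, 2, 3, 4, 5, 6, 8, 9, 16, 18, 28, 32, 33, 40, 61],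
  [1, 2, 3, 4, 5, 6, 8, 9, 13, 16, 18, 24, 32, 38, 40],
  [1, 2, 3, 4, 5, 6, 8, 9, 14, 16, 18, 24, 32, 40, 48],
  [1, 2, 3, 4, 5, 6, 8, 9, 14, 16, 18, 24, 32, 40, 50],
  [1, 2, 3, 4, 5, 6, 8, 9, 15, 16, 18, 24, 32, 40, 48],
  [1, 2, 3, 4, 5, 6, 8, 9, 15, 16, 18, 24, 32, 40, 50],
  [1, 2, 3, 4, 5, 6, 8, 9, 16, 18, 21, 24, 32, 33, 56],
  [1, 2, 3, 4, 5, 6, 8, 9, 16, 18, 22, 24, 32, 33, 56],
  [1, 2, 3, 4, 5, 6, 8, 9, 16, 18, 23, 24, 32, 33, 56]]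

def k6L16 : List (List ℕ) := [
  [1, 2, 3, 4, 6, 8, 12, 16, 24, 32, 33, 34, 36, 40, 48, 49],
  [1, 2, 3, 4, 5, 6, 8, 9, 10, 16, 17, 19, 20, 32, 34, 40],
  [1, 2, 3, 4, 5, 6, 8, 9, 10, 16, 17, 19, 20, 32, 34, 41],
  [1, 2, 3, 4, 5, 6, 8, 9, 10, 16, 17, 20, 22, 32, 34, 40],
  [1, 2, 3, 4, 5, 6, 8, 9, 10, 16, 17, 20, 22, 32, 34, 41],
  [1, 2, 3, 4, 5, 6, 8, 9, 10, 16, 17, 20, 23, 32, 34, 40],
  [1, 2, 3, 4, 5, 6, 8, 9, 10, 16, 17, 20, 23, 32, 34, 41],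
  [1, 2, 3, 4, 5, 6, 8, 9, 10, 16, 17, 20, 25, 32, 34, 36],
  [1, 2, 3, 4, 5, 6, 8, 9, 10, 16, 17, 19, 30, 32, 33, 36]]

end Pool.Agent.WW

end
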