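import Pool.Agent.Work.MP_a8f287_co.Bd.T08
import Pool.Agent.Work.MP_a8f287_co.C4.R5Prop

/-! Part of the former bundles, compiled separately. -/

section

/-!
The triangle inequality in rank five: table.
-/

namespace Pool.Agent.WW

/-- the mask contains a `K4` -/
def K4M (M : ℕ) : Prop := ∃ h : List ℕ, h.length = 3 ∧ (∀ c ∈ h, c < 32) ∧ IndepC h ∧
  ∀ m ∈ [1, 2, 3, 4, 5, 6], M.testBit (linC h m) = true

/-- the mask contains `GQ13` -/
def GQM (M : ℕ) : Prop := ∃ h : List ℕ, h.length = 5 ∧ (∀ c ∈ h, c < 32) ∧ IndepC h ∧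
  ∀ m ∈ gq13, M.testBit (linC h m) = true

/-- masks with a `K4` or a `GQ13` that violate the triangle inequality, with the images of the
unit codes -/
def t5W : List (ℕ × List ℕ) := [
  (66046, [1, 2, 4]),
  (33620478, [1, 2, 4]),
  (68542, [1, 2, 5]),
  (66558, [1, 2, 4]),
  (16843262, [1, 2, 4]),
  (71766302, [1, 2, 16]),
  (1117118, [1, 2, 5]),
  (101310, [1, 2, 5]),
  (68606, [1, 2, 4]),
  (592830, [1, 2, 5]),
  (4276734, [1, 2, 4]),
  (2165246, [1, 2, 4]),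
  (69622, [1, 4, 6]),
  (33620990, [1, 2, 4]),
  (33621502, [1, 2, 4]),
  (17105918, [1, 2, 4]),
  (1150902, [1, 4, 11]),
  (1280950, [1, 4, 16]),
  (1379262, [1, 2, 5]),
  (1117182, [1, 2, 4]),
  (4263870, [1, 2, 5]),
  (4296630, [1, 4, 11]),
  (136389118, [1, 2, 4]),
  (33627126, [1, 4, 6]),
  (153166270, [1, 2, 5]),
  (33754102, [1, 4, 6]),
  (33623038, [1, 2, 4]),
  (4295670, [1, 4, 6]),
  (616894, [1, 2, 5]),
  (33624054, [1, 4, 6]),
  (69630, [1, 2, 4]),
  (71766366, [1, 2, 16]),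
  (36112798, [1, 2, 16]),
  (109502, [1, 2, 5]),
  (72290590, [1, 2, 16]),
  (34671550, [1, 2, 5]),
  (199678, [1, 2, 4]),
  (36637086, [1, 2, 16]),
  (616958, [1, 2, 4]),
  (137438142, [1, 2, 5]),
  (2714046, [1, 2, 5]),
  (1094796222, [1, 2, 5]),
  (17928118, [1, 4, 11]),
  (1379326, [1, 2, 4]),
  (84231158, [1, 4, 6]),
  (1510334, [1, 2, 5]),
  (1642486, [1, 4, 6]),
  (1210130942, [1, 2, 4]),
  (286330806, [1, 8, 10]),
  (50660350, [1, 2, 4]),
  (1210132926, [1, 2, 5]),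
  (17895414, [1, 4, 6]),
  (17899446, [1, 4, 8]),
  (17106942, [1, 2, 4]),
  (151323646, [1, 2, 4]),
  (21049270, [1, 4, 9]),
  (4688822, [10, 19, 29, 30, 6]),
  (125886, [1, 2, 5]),
  (1118206, [1, 2, 4]),
  (4296694, [1, 4, 6]),
  (1094795774, [1, 2, 4]),
  (105320798, [1, 2, 16]),
  (17107966, [1, 2, 4]),
  (4300726, [1, 4, 8]),
  (571542518, [1, 4, 6]),
  (747966, [1, 2, 5]),
  (12815286, [1, 16, 23]),
  (2190270, [1, 2, 5]),
  (256958, [1, 2, 5]),
  (71797686, [6, 10, 29, 30, 19]),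
  (36669854, [1, 2, 16]),
  (748030, [1, 2, 4]),
  (40831390, [1, 2, 16]),
  (84232182, [1, 4, 6]),
  (1210133438, [1, 2, 5]),
  (3357747638, [1, 4, 17]),
  (1210149790, [1, 2, 9]),
  (6908350, [1, 2, 5]),
  (1094796286, [1, 2, 4]),
  (1094828990, [1, 2, 5]),
  (17928182, [1, 4, 6]),
  (17932214, [1, 4, 8]),
  (1210132990, [1, 2, 4]),
  (1210166206, [1, 2, 5]),
  (107940254, [1, 2, 16]),
  (1010174, [1, 2, 4]),
  (573540766, [1, 2, 16]),
  (2219281334, [3, 13, 20, 24, 30]),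
  (519102, [1, 2, 5]),
  (1210182590, [1, 2, 5])]

/-- check of a witness -/
def t5wChk (r : ℕ × List ℕ) : Bool :=
  (r.2.all fun c => decide (c < 32)) &&
  ((List.range (2 ^ r.2.length)).all fun m => m == 0 || linC r.2 m != 0) &&
  ((r.2.length == 3 && ([1, 2, 3, 4, 5, 6].all fun m => r.1.testBit (linC r.2 m))) ||
   (r.2.length == 5 && (gq13.all fun m => r.1.testBit (linC r.2 m))))

theorem t5wChk_sound {r : ℕ × List ℕ} (h : t5wChk r = true) : K4M r.1 ∨ GQM r.1 := by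
  unfold t5wChk at h
  simp only [Bool.and_eq_true, decide_eq_true_eq, List.all_eq_true, List.mem_range,
    Bool.or_eq_true, beq_iff_eq, bne_iff_ne] at h
  obtain ⟨⟨h1, h2⟩, h3⟩ := h
  have hI : IndepC r.2 := fun m hm h0 => (h2 m hm).resolve_left h0
  rcases h3 with ⟨h3, h4⟩ | ⟨h3, h4⟩
  · exact Or.inl ⟨r.2, h3, h1, hI, h4⟩
  · exact Or.inr ⟨r.2, h3, h1, hI, h4⟩

theorem t5wAll : t5W.all t5wChk = true := by decide +kernel

/-- check of one mask -/
def t5Chk (M : ℕ) : Bool :=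
  (t5W.map Prod.fst).contains M ||
    decide (triF M ((List.range 32).filter fun n => M.testBit n) + 24 ≤ 6 * popM M)

theorem t5_a : (r5M5 ++ r5M6 ++ r5M7 ++ r5M8 ++ r5M9 ++ r5M10).all t5Chk = true := by
  decide +kernel

theorem t5_b : (r5M11 ++ r5M12).all t5Chk = true := by decide +kernel

theorem t5_c : (r5M13 ++ r5M14 ++ r5M15 ++ r5M16).all t5Chk = true := by decide +kernel

theorem t5_prop (M : ℕ) (hM : M ∈ r5L) :
    triM M + 24 ≤ 6 * popM M ∨ K4M M ∨ GQM M := by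
  have h : t5Chk M = true := by
    have ha := List.all_eq_true.1 t5_a M
    have hb := List.all_eq_true.1 t5_b M
    have hc := List.all_eq_true.1 t5_c M
    unfold r5L at hM
    simp only [List.mem_append] at ha hb hc hM
    tauto
  unfold t5Chk at h
  rw [Bool.or_eq_true, decide_eq_true_eq, List.contains_iff_mem, List.mem_map] at h
  rcases h with ⟨r, hr, rfl⟩ | h
  · exact Or.inr (t5wChk_sound (List.all_eq_true.1 t5wAll r hr))
  · left
    rw [triM_eq]
    exact h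

end Pool.Agent.WW

end
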