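import Mathlib
import Pool.Agent.Work.MP_a8f287_co.Bd.B08
import Pool.Agent.Work.MP_a8f287_co.C4.R5Prop
import Pool.Agent.Work.MP_a8f287_co.Bd.B04
import Pool.Agent.Work.MP_a8f287_co.Bd.B02
import Pool.Agent.Work.MP_a8f287_co.Bd.B01
import Pool.Agent.Work.MP_a8f287_co.Bd.B05
import Pool.Agent.Work.MP_a8f287_co.Bd.B10
import Pool.Agent.Work.MP_a8f287_co.Bd.B11
import Pool.Agent.Work.MP_a8f287_co.Bd.B06
import Pool.Agent.Work.MP_a8f287_co.Bd.T05
import Pool.Agent.Work.MP_a8f287_co.Bd.T11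
import Pool.Agent.Work.MP_a8f287_co.Bd.T12
import Pool.Agent.Work.MP_a8f287_co.Bd.T13
import Pool.Agent.Work.MP_a8f287_co.Bd.T17
import Pool.Agent.Work.MP_a8f287_co.Bd.T18
import Pool.Agent.Work.MP_a8f287_co.Bd.T20

/-! Bundle of small proof modules (one section per former module). -/

section

/-!
E5 (module K4): a contractible element outside a `K4` plane.
-/

namespace Pool.Agent.WW

open Submodule Module

universe u

theorem kstep1_cov_symm {V : Type*} [AddCommGroup V] [Module (ZMod 2) V] {E : Set V}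
    {A B : Submodule (ZMod 2) V} (h : Cov E A B) : Cov E B A :=
  ⟨h.2.1, h.1, fun x hx => (h.2.2 x hx).symm⟩

theorem kstep1_ker {V : Type*} [AddCommGroup V] [Module (ZMod 2) V] (e v : V) :
    (span (ZMod 2) ({e} : Set V)).mkQ v = 0 ↔ v = 0 ∨ v = e := by
  rw [mkQ_apply, Quotient.mk_eq_zero, mem_span_singleton]
  constructor
  · rintro ⟨c, rfl⟩
    have : c = 0 ∨ c = 1 := by
      revert c
      decide
    rcases this with rfl | rfl
    · left; simp
    · right; simp
  · rintro (rfl | rfl)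
    · exact ⟨0, by simp⟩
    · exact ⟨1, by simp⟩

theorem kstep1_end (h1 : ClaimCovDim.{u}) (h6 : KStep0.{u}) (h7 : KStepA.{u}) (hL : KL4.{u})
    {V : Type u} [AddCommGroup V] [Module (ZMod 2) V] [FiniteDimensional (ZMod 2) V] {E : Set V}
    {P A B : Submodule (ZMod 2) V} {e : V} (hG : Good E) (hr : 7 ≤ finrank (ZMod 2) V)
    (hP2 : P2.{u} (finrank (ZMod 2) V - 1)) (hP : K4P E P) (hU : Unsp E P) (heE : e ∈ E)
    (heP : e ∉ P) (hCtr : Ctr E e) (hsep : SepGe E 3) (hcov : Cov E A B)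
    (h3 : finrank (ZMod 2) ↥(A ⊓ B) = 3) (heB : e ∉ B)
    (hB : finrank (ZMod 2) B + 1 = finrank (ZMod 2) V) : IsDel (finrank (ZMod 2) V - 1) E := by
  obtain ⟨_, hdim, _, hsp⟩ := h1 V E A B hG.span hcov
  rcases hU A B (fun x hx _ => hcov.2.2 x hx) with hPA | hPB
  · refine h6 hL V E P B A hG hr hP2 hP ⟨kstep1_cov_symm hcov, ?_, hPA⟩ hB
    rw [inf_comm]
    exact h3
  · refine h7 hL V E P B e hG hr hP2 hP ⟨hB, ?_⟩ heE heB heP hCtr
    rw [hsp hsep h3]
    omega

theorem kStep1 (h1 : ClaimCovDim.{u}) (h2 : ClaimCtrGood.{u}) (h3 : KUnsp.{u}) (h4 : KMap.{u})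
    (h5 : KDelRim.{u}) (h6 : KStep0.{u}) (h7 : KStepA.{u}) (h8 : KLiftCtr.{u}) :
    KStep1.{u} := by
  intro hL hHIT V _ _ _ E P e hG hr hP2 hP heE heP hCtr
  classical
  haveI : Finite V := Module.finite_of_finite (ZMod 2)
  obtain ⟨h0, hspan, hsep, hfree⟩ := (good_iff_sepGe E).1 hG
  have hU := h3 V E P h0 hP
  let E' : Finset V := (Set.toFinite E).toFinset
  have hE' : (E' : Set V) = E := (Set.toFinite E).coe_toFinset
  let π := (span (ZMod 2) ({e} : Set V)).mkQ
  have hsurj : Function.Surjective π := mkQ_surjective _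
  have hker : ∀ v, π v = 0 ↔ v = 0 ∨ v = e := kstep1_ker e
  have heE' : e ∈ E' := by
    rw [← Finset.mem_coe, hE']
    exact heE
  have h0' : (0 : V) ∉ E' := by
    rw [← Finset.mem_coe, hE']
    exact h0
  have hG' : Good (E' : Set V) := by rw [hE']; exact hG
  have hC' : Ctr (E' : Set V) e := by rw [hE']; exact hCtr
  have hP' : K4P (E' : Set V) P := by rw [hE']; exact hP
  have hF' : ¬ HasK5 (E' : Set V) := by rw [hE']; exact hfree
  obtain ⟨hGN, hdimW⟩ := h2 V (V ⧸ span (ZMod 2) ({e} : Set V)) E' π e hsurj hker heE' hG' hC'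
  have hPN := h4 V (V ⧸ span (ZMod 2) ({e} : Set V)) E' π e P hsurj hker heP h0' hP'
  have hNK : ¬ K4F (contr π E' : Set (V ⧸ span (ZMod 2) ({e} : Set V))) := by
    intro h
    have := h _ hPN.1
    have := hPN.2
    omega
  obtain ⟨h, s, hspk, hdel⟩ := hP2 (V ⧸ span (ZMod 2) ({e} : Set V)) _ hGN (by omega) hNK
  obtain ⟨j, H, a, b, c, d, hHtop, heH, hEH, hπa, hπb, hπc, hπd⟩ :=
    hHIT V (V ⧸ span (ZMod 2) ({e} : Set V)) E' π e _ h s hsurj hker h0' heE' hF'
      (by omega) hspk hdel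
  rw [hE'] at hEH
  set G := span (ZMod 2) (E \ (H : Set V)) with hGdef
  have hG4 : finrank (ZMod 2) G ≤ 4 := by
    rw [hGdef, hEH]
    have := finrank_span_finset_le_card (R := ZMod 2) ({a, b, c, d} : Finset V)
    have h4' : ({a, b, c, d} : Finset V).card ≤ 4 := Finset.card_le_four
    have e1 : (({a, b, c, d} : Finset V) : Set V) = {a, b, c, d} := by simp
    rw [e1] at this
    exact this.trans h4'
  have hGtop : G ≠ ⊤ := by
    intro h
    rw [h, finrank_top] at hG4
    omega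
  have hcovGH : Cov E G H := by
    refine ⟨hGtop, hHtop, fun x hx => ?_⟩
    by_cases hxH : x ∈ H
    · exact Or.inr hxH
    · exact Or.inl (subset_span ⟨hx, hxH⟩)
  have hGH3 := hsep G H hGtop hHtop hcovGH.2.2
  obtain ⟨_, hdimGH, _, _⟩ := h1 V E G H hspan hcovGH
  have hHlt : finrank (ZMod 2) H < finrank (ZMod 2) V := Submodule.finrank_lt hHtop
  have hGHeq : finrank (ZMod 2) ↥(G ⊓ H) = 3 := by omega
  have hHr : finrank (ZMod 2) H + 1 = finrank (ZMod 2) V := by omega
  have hGeq : finrank (ZMod 2) G = 4 := by omega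
  have hcoc : Coc4 E H := ⟨hHr, hGeq⟩
  rcases hU G H (fun x hx _ => hcovGH.2.2 x hx) with hPG | hPH
  · refine h6 hL V E P H G hG hr hP2 hP ⟨kstep1_cov_symm hcovGH, ?_, hPG⟩ hHr
    rw [inf_comm]
    exact hGHeq
  · have hcEH : c ∈ E \ (H : Set V) := by
      rw [hEH]
      simp
    have hcE : c ∈ E := hcEH.1
    have hcH : c ∉ H := hcEH.2
    have hcP : c ∉ P := fun h => hcH (hPH h)
    by_cases hcC : Ctr E c
    · exact h7 hL V E P H c hG hr hP2 hP hcoc hcE hcH hcP hcC
    · unfold Ctr at hcC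
      push Not at hcC
      obtain ⟨A, B, hcov, hcAB, hlt⟩ := hcC
      have h3' : finrank (ZMod 2) ↥(A ⊓ B) = 3 := by
        have := hsep A B hcov.1 hcov.2.1 hcov.2.2
        omega
      have hcE' : c ∈ E' := by
        rw [← Finset.mem_coe, hE']
        exact hcE
      have hce : c ≠ e := fun h => hcH (h ▸ heH)
      have hrim : Ctr (contr π E' : Set (V ⧸ span (ZMod 2) ({e} : Set V))) (π c) := by
        rw [hπc]
        exact h5 _ _ h s _ j (by omega) hspk hdel
      rcases h8 V (V ⧸ span (ZMod 2) ({e} : Set V)) E' π e c A B hsurj hker heE' hG' hGN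
        (by rw [hE']; exact hcov) h3' hcE' hcAB.1 hcAB.2 hce hrim with ⟨heA, hA⟩ | ⟨heB, hB⟩
      · exact kstep1_end h1 h6 h7 hL hG hr hP2 hP hU heE heP hCtr hsep (kstep1_cov_symm hcov)
          (by rw [inf_comm]; exact h3') heA hA
      · exact kstep1_end h1 h6 h7 hL hG hr hP2 hP hU heE heP hCtr hsep hcov h3' heB hB

end Pool.Agent.WW

end

section

/-!
`kStepA`: a contractible element in a cocircuit of rank four, outside the `K4` plane.
-/

namespace Pool.Agent.WW

open Submodule Module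

universe u

theorem ksta_ker {V : Type u} [AddCommGroup V] [Module (ZMod 2) V] (e : V) :
    ∀ v, (span (ZMod 2) {e}).mkQ v = 0 ↔ v = 0 ∨ v = e := by
  intro v
  rw [Submodule.mkQ_apply, Submodule.Quotient.mk_eq_zero, Submodule.mem_span_singleton]
  constructor
  · rintro ⟨a, rfl⟩
    fin_cases a
    · left; exact zero_smul _ _
    · right; exact one_smul _ _
  · rintro (rfl | rfl)
    · exact ⟨0, zero_smul _ _⟩
    · exact ⟨1, one_smul _ _⟩

theorem kStepA (h1 : ClaimCtrGood.{u}) (h2 : KMap.{u}) : KStepA.{u} := by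
  intro hL4 V _ _ _ E P H g hE h7 hP2 hP hH hgE hgH hgP hgC
  classical
  have : Finite V := Module.finite_of_finite (ZMod 2)
  set F : Finset V := E.toFinite.toFinset with hF
  have hFE : (F : Set V) = E := Set.Finite.coe_toFinset _
  have hgF : g ∈ F := by
    rw [← Finset.mem_coe, hFE]
    exact hgE
  have hsurj : Function.Surjective (span (ZMod 2) {g}).mkQ := Submodule.mkQ_surjective _
  obtain ⟨hG, hfr⟩ := h1 V (V ⧸ span (ZMod 2) {g}) F (span (ZMod 2) {g}).mkQ g hsurj
    (ksta_ker g) hgF (by rw [hFE]; exact hE) (by rw [hFE]; exact hgC)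
  have h0F : (0 : V) ∉ F := by
    rw [← Finset.mem_coe, hFE]
    exact hE.zero
  obtain ⟨hd, hn⟩ := h2 V (V ⧸ span (ZMod 2) {g}) F (span (ZMod 2) {g}).mkQ g P hsurj
    (ksta_ker g) hgP h0F (by rw [hFE]; exact hP)
  have hnot : ¬ K4F (contr (span (ZMod 2) {g}).mkQ F : Set (V ⧸ span (ZMod 2) {g})) := by
    intro hK
    have := hK _ hd
    omega
  have hdel := hP2 (V ⧸ span (ZMod 2) {g}) _ hG (by omega) hnot
  have hfin := hL4 V (V ⧸ span (ZMod 2) {g}) F (span (ZMod 2) {g}).mkQ g H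
    (finrank (ZMod 2) V - 1 - 1) hsurj (ksta_ker g) (by rw [hFE]; exact hE)
    (by rw [hFE]; exact hH) hgF hgH (by omega) hdel
  rw [hFE] at hfin
  have h3 : finrank (ZMod 2) V - 1 - 1 + 1 = finrank (ZMod 2) V - 1 := by omega
  rw [h3] at hfin
  exact hfin

end Pool.Agent.WW

end

section

/-!
Statements of the second half of the module K4: linking, compression of an away side, and the
case in which all away sides have dimension four.
-/

namespace Pool.Agent.WW

open Submodule Module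

universe u

/-! ### Linking -/

/-- W1: linking two subspaces of the same dimension -/
def KLink : Prop := ∀ (V : Type u) [AddCommGroup V] [Module (ZMod 2) V]
  [FiniteDimensional (ZMod 2) V] (B : Set V) (P U : Submodule (ZMod 2) V) (κ : ℕ),
  finrank (ZMod 2) P = κ → finrank (ZMod 2) U = κ →
  (∀ A A' : Submodule (ZMod 2) V, P ≤ A → U ≤ A' → (∀ x ∈ B, x ∈ A ∨ x ∈ A') →
    finrank (ZMod 2) V + κ ≤ finrank (ZMod 2) A + finrank (ZMod 2) A') →
  ∃ K : Submodule (ZMod 2) V, Gen B K ∧ K ⊓ P = ⊥ ∧ K ⊓ U = ⊥ ∧ K ⊔ P = ⊤ ∧ K ⊔ U = ⊤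

/-- W2: the link of the `K4` plane onto the guts -/
def KPlaneLink : Prop := ∀ (V : Type u) [AddCommGroup V] [Module (ZMod 2) V]
  [FiniteDimensional (ZMod 2) V] (E : Set V) (P G H : Submodule (ZMod 2) V), Good E →
  K4P E P → Away E P G H → ∃ (K : Submodule (ZMod 2) V) (q : V), Gen E K ∧ K ⊓ G = ⊥ ∧
    q ∈ G ⊓ H ∧ q ≠ 0 ∧ ∀ x ∈ G ⊓ H, x ≠ 0 → x ≠ q → Pres E K x

/-- W3: the compression is vertically 4-connected -/
def KWSep : Prop := ∀ (V : Type u) [AddCommGroup V] [Module (ZMod 2) V]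
  [FiniteDimensional (ZMod 2) V] (E : Set V) (P G H : Submodule (ZMod 2) V) (q : V), Good E →
  Away E P G H → q ∈ G ⊓ H → q ≠ 0 →
  span (ZMod 2) ((fun x : G => (x : V)) ⁻¹' (E ∪ {x | x ∈ G ⊓ H ∧ x ≠ 0 ∧ x ≠ q})) = ⊤ ∧
  SepGe ((fun x : G => (x : V)) ⁻¹' (E ∪ {x | x ∈ G ⊓ H ∧ x ≠ 0 ∧ x ≠ q})) 3

/-! ### All away sides have dimension four -/

/-- the standing assumptions of Steps 4 and 5: no contractible element outside the `K4` plane
`P`, and all away sides have dimension four -/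
structure KAll {V : Type u} [AddCommGroup V] [Module (ZMod 2) V] (E : Set V)
    (P : Submodule (ZMod 2) V) : Prop where
  good : Good E
  r7 : 7 ≤ finrank (ZMod 2) V
  pl : K4P E P
  nc : ∀ e ∈ E, e ∉ P → ¬ Ctr E e
  four : ∀ G H : Submodule (ZMod 2) V, Away E P G H → finrank (ZMod 2) G = 4

/-- `u` is the only element of the cocircuit at `H` outside `T'` -/
structure KPart {V : Type u} [AddCommGroup V] [Module (ZMod 2) V] (E : Set V)
    (P G H T T' : Submodule (ZMod 2) V) (g u : V) : Prop where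
  aw : Away E P T T'
  gT : g ∈ T
  gT' : g ∈ T'
  uE : u ∈ E
  uH : u ∉ H
  uT : u ∉ T'
  only : ∀ a ∈ E, a ∉ H → a ∉ T' → a = u
  inf : G ⊓ T = span (ZMod 2) {g, u}
  dim : finrank (ZMod 2) ↥(G ⊓ T') = 3

/-- S1: the separation of an element of an away cocircuit -/
def KSu : Prop := ∀ (V : Type u) [AddCommGroup V] [Module (ZMod 2) V]
  [FiniteDimensional (ZMod 2) V] (E : Set V) (P G H : Submodule (ZMod 2) V) (g : V),
  KAll E P → Away E P G H → g ∈ E → g ∉ H → ∃ T T' u, KPart E P G H T T' g u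

/-- S2: away cocircuits have four elements -/
def KSfour : Prop := ∀ (V : Type u) [AddCommGroup V] [Module (ZMod 2) V]
  [FiniteDimensional (ZMod 2) V] (E : Set V) (P G H : Submodule (ZMod 2) V),
  KAll E P → Away E P G H → ∃ a : Fin 4 → V, LinearIndependent (ZMod 2) a ∧
    (∀ v, v ∈ E ∧ v ∉ H ↔ ∃ i, v = a i) ∧ G = span (ZMod 2) (Set.range a) ∧
    finrank (ZMod 2) H + 1 = finrank (ZMod 2) V

/-- S3: the points in the guts -/
def KSguts : Prop := ∀ (V : Type u) [AddCommGroup V] [Module (ZMod 2) V]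
  [FiniteDimensional (ZMod 2) V] (E : Set V) (P G H : Submodule (ZMod 2) V) (x : V),
  KAll E P → Away E P G H → x ∈ E → x ∈ G → x ∈ H →
  ∃ a ∈ E, ∃ b ∈ E, a ∉ H ∧ b ∉ H ∧ a ≠ b ∧ x = a + b

/-- S4: the partner -/
def KSpartner : Prop := ∀ (V : Type u) [AddCommGroup V] [Module (ZMod 2) V]
  [FiniteDimensional (ZMod 2) V] (E : Set V) (P G H T T' : Submodule (ZMod 2) V) (g u : V),
  KAll E P → Away E P G H → g ∈ E → g ∉ H → KPart E P G H T T' g u → g + u ∈ E

/-- S5: only one full line through an element of an away cocircuit -/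
def KSone : Prop := ∀ (V : Type u) [AddCommGroup V] [Module (ZMod 2) V]
  [FiniteDimensional (ZMod 2) V] (E : Set V) (P G H : Submodule (ZMod 2) V) (g y z : V),
  KAll E P → Away E P G H → g ∈ E → g ∉ H → y ∈ E → g + y ∈ E → z ∈ E → g + z ∈ E →
  z = y ∨ z = g + y

/-- S6: every point outside `P` is in an away cocircuit -/
def KSall : Prop := ∀ (V : Type u) [AddCommGroup V] [Module (ZMod 2) V]
  [FiniteDimensional (ZMod 2) V] (E : Set V) (P : Submodule (ZMod 2) V) (x : V),
  KAll E P → x ∈ E → x ∉ P → ∃ G H, Away E P G H ∧ x ∉ H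

/-- S7: exactly one full line through every point outside `P`, and it misses `P` -/
def KSline : Prop := ∀ (V : Type u) [AddCommGroup V] [Module (ZMod 2) V]
  [FiniteDimensional (ZMod 2) V] (E : Set V) (P : Submodule (ZMod 2) V) (x : V),
  KAll E P → x ∈ E → x ∉ P → ∃ y ∈ E, y ∉ P ∧ x + y ∈ E ∧ x + y ∉ P ∧
    ∀ z ∈ E, x + z ∈ E → z = y ∨ z = x + y

/-- S8: the away cocircuit at a point of a full line -/
def KScoc : Prop := ∀ (V : Type u) [AddCommGroup V] [Module (ZMod 2) V]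
  [FiniteDimensional (ZMod 2) V] (E : Set V) (P : Submodule (ZMod 2) V) (x y : V),
  KAll E P → x ∈ E → x ∉ P → y ∈ E → x + y ∈ E → ∃ T T' k l, Away E P T T' ∧ x ∈ T ∧
    x ∈ T' ∧ y ∉ T' ∧ x + y ∉ T' ∧ k ∈ E ∧ l ∈ E ∧ k ∉ T' ∧ l ∉ T' ∧ k + l ∈ E ∧
    (∀ v ∈ E, v ∉ T' → v = y ∨ v = x + y ∨ v = k ∨ v = l) ∧
    finrank (ZMod 2) T' + 1 = finrank (ZMod 2) V

/-- S9: the contraction of a full line is good -/
def KSctr : Prop := ∀ (V : Type u) [AddCommGroup V] [Module (ZMod 2) V]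
  [FiniteDimensional (ZMod 2) V] (W : Type u) [AddCommGroup W] [Module (ZMod 2) W]
  [FiniteDimensional (ZMod 2) W] (E : Set V) (P : Submodule (ZMod 2) V) (x y : V)
  (π : V →ₗ[ZMod 2] W), KAll E P → x ∈ E → x ∉ P → y ∈ E → x + y ∈ E →
  Function.Surjective π → (∀ v, π v = 0 ↔ v = 0 ∨ v = x ∨ v = y ∨ v = x + y) →
  Good {w : W | w ≠ 0 ∧ ∃ v ∈ E, π v = w} ∧ finrank (ZMod 2) W + 2 = finrank (ZMod 2) V ∧
    ¬ K4F {w : W | w ≠ 0 ∧ ∃ v ∈ E, π v = w} ∧
    {w : W | w ≠ 0 ∧ ∃ v ∈ E, π v = w}.ncard + 3 = E.ncard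

/-- S10: the number of points -/
def KScount : Prop := ∀ (V : Type u) [AddCommGroup V] [Module (ZMod 2) V]
  [FiniteDimensional (ZMod 2) V] (E : Set V) (P : Submodule (ZMod 2) V), KAll E P →
  ∃ N : ℕ, E.ncard = 6 + 3 * N ∧ finrank (ZMod 2) V ≤ 2 * N

end Pool.Agent.WW

end

section

/-! A noncontractible element of an away side, seen in the compression. -/

namespace Pool.Agent.WW

open Submodule Module

universe u

section KTraceAux

variable {V : Type u} [AddCommGroup V] [Module (ZMod 2) V]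

theorem kTrace_finrank_comap (G S : Submodule (ZMod 2) V) :
    finrank (ZMod 2) ↥(S.comap G.subtype) = finrank (ZMod 2) ↥(G ⊓ S) := by
  rw [← Submodule.map_comap_subtype, Submodule.finrank_map_subtype_eq]

theorem kTrace_span (G : Submodule (ZMod 2) V) (S : Set V) (hS : ∀ x ∈ S, x ∈ G) (y : ↥G)
    (hy : (y : V) ∈ span (ZMod 2) S) : y ∈ span (ZMod 2) {x : ↥G | (x : V) ∈ S} := by
  have h1 : S = G.subtype '' {x : ↥G | (x : V) ∈ S} := by
    ext x
    constructor
    · intro hx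
      exact ⟨⟨x, hS x hx⟩, hx, rfl⟩
    · rintro ⟨x, hx, rfl⟩
      exact hx
  rw [h1, Submodule.span_image] at hy
  obtain ⟨z, hz, hzy⟩ := Submodule.mem_map.1 hy
  have h2 : z = y := Subtype.ext hzy
  exact h2 ▸ hz

theorem kTrace_comap_ne_top {G S : Submodule (ZMod 2) V} (h : ¬ G ≤ S) :
    S.comap G.subtype ≠ ⊤ := by
  intro h1
  exact h (Submodule.comap_subtype_eq_top.1 h1)

end KTraceAux

theorem kTrace (h1 : KCrossA.{u}) (h2 : KCrossB.{u}) (h3 : KUnsp.{u}) : KTrace.{u} := by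
  intro V _ _ _ E P G H q g hG hP hA hq hq0 hgE hgH hnc hctr
  obtain ⟨h0, hspan, hsep, hfree⟩ := (good_iff_sepGe E).1 hG
  -- the separation through `g`
  obtain ⟨T, T', hT, hgT, hgT'⟩ : ∃ T T' : Submodule (ZMod 2) V, Away E P T T' ∧
      (g : V) ∈ T ∧ (g : V) ∈ T' := by
    unfold Ctr at hnc
    push Not at hnc
    obtain ⟨A, B, hAB, hgAB, hlt⟩ := hnc
    have hge := hsep A B hAB.1 hAB.2.1 hAB.2.2
    have h4 : finrank (ZMod 2) ↥(A ⊓ B) = 3 := by omega
    rcases h3 V E P h0 hP A B (fun y hy _ => hAB.2.2 y hy) with hPA | hPB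
    · exact ⟨B, A, ⟨⟨hAB.2.1, hAB.1, fun y hy => (hAB.2.2 y hy).symm⟩,
        by rw [inf_comm]; exact h4, hPA⟩, hgAB.2, hgAB.1⟩
    · exact ⟨A, B, ⟨hAB, h4, hPB⟩, hgAB.1, hgAB.2⟩
  have hcovGH := hA.1.2.2
  by_cases htop : H ⊔ T' = ⊤
  · obtain ⟨c1, c2, ⟨x, hxE, hxH, hxT'⟩, c4, c5, c6⟩ :=
      h2 V E P G H T T' g hG hP hA hT hgE hgH hgT hgT' htop
    refine ⟨T, T', hT, hgT, hgT', htop, ?_, ?_, ?_, ?_⟩
    · rw [kTrace_finrank_comap]
      exact c1
    · refine ⟨?_, hgT', hgT, ?_, ?_, ?_⟩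
      · apply kTrace_comap_ne_top
        intro h
        exact c2 (inf_eq_left.2 h)
      · intro y hy hyΓ
        have hyH : (y : V) ∉ H := hyΓ
        have hyE : (y : V) ∈ E := by
          rcases hy with h | h
          · exact h
          · exact absurd h.1.2 hyH
        exact (hT.1.2.2 y hyE).symm
      · have hxG : x ∈ G := (hcovGH x hxE).resolve_right hxH
        exact ⟨⟨x, hxG⟩, Or.inl hxE, hxH, hxT'⟩
      · obtain ⟨a, ha, b, hb, hab⟩ := Submodule.mem_sup.1 c4
        have hSG : ∀ y ∈ {x : V | x ∈ E ∧ x ∉ H ∧ x ∉ T'}, y ∈ G := fun y hy =>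
          (hcovGH y hy.1).resolve_right hy.2.1
        have haG : a ∈ G := span_le.2 hSG ha
        have hbG : b ∈ G := by
          have h5 : b = (g : V) - a := by rw [← hab]; abel
          rw [h5]
          exact sub_mem g.2 haG
        have h6 : (⟨a, haG⟩ : ↥G) ∈ span (ZMod 2) {x : ↥G | (x : V) ∈
            {x : V | x ∈ E ∧ x ∉ H ∧ x ∉ T'}} := kTrace_span G _ hSG ⟨a, haG⟩ ha
        have h7 : (g : ↥G) = (⟨a, haG⟩ : ↥G) + ⟨b, hbG⟩ := Subtype.ext hab.symm
        rw [h7]
        apply Submodule.add_mem_sup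
        · refine Submodule.span_mono ?_ h6
          intro y hy
          exact ⟨Or.inl hy.1, hy.2.1, hy.2.2⟩
        · exact hb
    · intro h
      rw [kTrace_finrank_comap] at h
      exact c5 h
    · intro h8 h9
      rw [kTrace_finrank_comap] at h9
      intro y hy
      have hSG : ∀ y ∈ {x : V | x ∈ E ∧ x ∉ H ∧ x ∉ T}, y ∈ G := fun y hy =>
        (hcovGH y hy.1).resolve_right hy.2.1
      exact kTrace_span G _ hSG y (c6 h8 h9 ⟨y.2, hy⟩)
  · exfalso
    obtain ⟨c1, c2, c3, c4⟩ := h1 V E P G H T T' g hG hP hA hT hgE hgH hgT hgT' htop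
    have h5 := hctr (T.comap G.subtype) ((H ⊔ T').comap G.subtype) ⟨?_, ?_, ?_⟩
      ⟨hgT, mem_sup_right hgT'⟩
    · rw [← Submodule.comap_inf, kTrace_finrank_comap, ← inf_assoc, c4] at h5
      omega
    · apply kTrace_comap_ne_top
      intro h
      exact c1.ne (inf_eq_left.2 h)
    · apply kTrace_comap_ne_top
      intro h
      exact c2.ne (inf_eq_left.2 h)
    · intro y hy
      rcases hy with h | h
      · exact c3 y h y.2
      · exact Or.inr (mem_sup_left h.1.2)

end Pool.Agent.WW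

end

section

/-!
E1: a `K4` plane is not covered by two proper subspaces.
-/

namespace Pool.Agent.WW

open Submodule Module

universe u

theorem kunsp_ncard {V : Type*} [AddCommGroup V] [Module (ZMod 2) V]
    [FiniteDimensional (ZMod 2) V] (A : Submodule (ZMod 2) V) :
    (A : Set V).ncard = 2 ^ finrank (ZMod 2) A := by
  have h := Module.natCard_eq_pow_finrank (K := ZMod 2) (V := A)
  rw [Nat.card_zmod] at h
  rw [← h, ← Nat.card_coe_set_eq]
  rfl

theorem kUnsp : KUnsp.{u} := by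
  intro V _ _ _ E P h0 hP A B hcov
  obtain ⟨hP3, h6⟩ := hP
  by_contra hne
  rw [not_or] at hne
  obtain ⟨hA, hB⟩ := hne
  have hfin : Finite V := Module.finite_of_finite (ZMod 2)
  have ha : finrank (ZMod 2) ↥(A ⊓ P) < finrank (ZMod 2) P :=
    Submodule.finrank_lt_finrank_of_lt
      (lt_of_le_of_ne inf_le_right fun h => hA (inf_eq_right.1 h))
  have hb : finrank (ZMod 2) ↥(B ⊓ P) < finrank (ZMod 2) P :=
    Submodule.finrank_lt_finrank_of_lt
      (lt_of_le_of_ne inf_le_right fun h => hB (inf_eq_right.1 h))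
  rw [hP3] at ha hb
  have hsum := Submodule.finrank_sup_add_finrank_inf_eq (A ⊓ P) (B ⊓ P)
  have hsup : finrank (ZMod 2) ↥((A ⊓ P) ⊔ (B ⊓ P)) ≤ 3 := by
    rw [← hP3]
    exact Submodule.finrank_mono (sup_le inf_le_right inf_le_right)
  have hsub : insert (0 : V) (E ∩ (P : Set V)) ⊆
      ((A ⊓ P : Submodule (ZMod 2) V) : Set V) ∪ ((B ⊓ P : Submodule (ZMod 2) V) : Set V) := by
    rintro x (rfl | ⟨hx, hxP⟩)
    · exact Or.inl (Submodule.zero_mem _)
    · rcases hcov x hx hxP with h | h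
      · exact Or.inl ⟨h, hxP⟩
      · exact Or.inr ⟨h, hxP⟩
  have h1 := Set.ncard_le_ncard hsub (Set.toFinite _)
  rw [Set.ncard_insert_of_notMem (fun h => h0 h.1) (Set.toFinite _)] at h1
  have h2 := Set.ncard_union_add_ncard_inter ((A ⊓ P : Submodule (ZMod 2) V) : Set V)
    ((B ⊓ P : Submodule (ZMod 2) V) : Set V) (Set.toFinite _) (Set.toFinite _)
  have h3 : ((A ⊓ P : Submodule (ZMod 2) V) : Set V) ∩ ((B ⊓ P : Submodule (ZMod 2) V) : Set V) =
      (((A ⊓ P) ⊓ (B ⊓ P) : Submodule (ZMod 2) V) : Set V) := rfl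
  rw [h3, kunsp_ncard, kunsp_ncard, kunsp_ncard] at h2
  have h4 : 7 ≤ (((A ⊓ P : Submodule (ZMod 2) V) : Set V) ∪
      ((B ⊓ P : Submodule (ZMod 2) V) : Set V)).ncard := by omega
  generalize (((A ⊓ P : Submodule (ZMod 2) V) : Set V) ∪
      ((B ⊓ P : Submodule (ZMod 2) V) : Set V)).ncard = N at *
  generalize finrank (ZMod 2) ↥(A ⊓ P) = a at *
  generalize finrank (ZMod 2) ↥(B ⊓ P) = b at *
  generalize finrank (ZMod 2) ↥((A ⊓ P) ⊓ (B ⊓ P)) = c at *
  generalize finrank (ZMod 2) ↥((A ⊓ P) ⊔ (B ⊓ P)) = d at *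
  have hc : 1 ≤ 2 ^ c := Nat.one_le_two_pow
  have hc' : 1 ≤ c → 2 ≤ 2 ^ c := fun h => by
    calc 2 = 2 ^ 1 := rfl
      _ ≤ 2 ^ c := Nat.pow_le_pow_right (by norm_num) h
  interval_cases a <;> interval_cases b <;> norm_num at h2 <;> omega

end Pool.Agent.WW

end

section

/-!
H3: pieces of rank four with at least eleven points.
-/

namespace Pool.Agent.WW

open Submodule Module

universe u

section Codes

variable {V : Type*} [AddCommGroup V] [Module (ZMod 2) V]

/-- the family of vectors of a list of codes -/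
def bpFam {m : ℕ} (b : Fin m → V) (h : List ℕ) : Fin h.length → V := fun i => comb b (h.get i)

theorem bp_comb_linC {m : ℕ} (b : Fin m → V) (h : List ℕ) (n : ℕ) :
    comb (bpFam b h) n = comb b (linC h n) := by
  induction h generalizing n with
  | nil => simp [comb, linC]
  | cons c h ih =>
    rw [linC, comb_xor, ← ih]
    have h1 : comb (bpFam b (c :: h)) n =
        (if n.testBit 0 then comb b c else 0) + comb (bpFam b h) (n / 2) := by
      unfold comb
      refine (Fin.sum_univ_succ (n := h.length) _).trans ?_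
      refine congrArg₂ (· + ·) rfl (Finset.sum_congr rfl fun i _ => ?_)
      rw [Fin.val_succ, Nat.testBit_succ]
      rfl
    rw [h1]
    congr 1
    rw [Nat.testBit_zero]
    by_cases hn : n % 2 = 1
    · simp [hn]
    · simp [hn, comb_zero]

theorem bp_linC_lt (h : List ℕ) (hh : ∀ c ∈ h, c < 32) (n : ℕ) : linC h n < 32 := by
  induction h generalizing n with
  | nil => simp [linC]
  | cons c h ih =>
    rw [linC]
    have h1 : (if n % 2 = 1 then c else 0) < 2 ^ 5 := by
      split_ifs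
      · exact hh c List.mem_cons_self
      · norm_num
    have h2 : linC h (n / 2) < 2 ^ 5 := ih (fun c hc => hh c (List.mem_cons_of_mem _ hc)) _
    exact Nat.xor_lt_two_pow h1 h2

theorem bp_exists_code (m : ℕ) (c : Fin m → ZMod 2) :
    ∃ n < 2 ^ m, ∀ i : Fin m, n.testBit i = decide (c i = 1) := by
  induction m with
  | zero => exact ⟨0, by norm_num, fun i => i.elim0⟩
  | succ m ih =>
    obtain ⟨n, hn, h⟩ := ih (fun i => c i.succ)
    refine ⟨2 * n + (if c 0 = 1 then 1 else 0), ?_, ?_⟩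
    · rw [pow_succ]
      split_ifs <;> omega
    · intro i
      refine Fin.cases ?_ (fun j => ?_) i
      · simp only [Fin.val_zero, Nat.testBit_zero]
        split_ifs with h1
        · simp [h1]
        · simp [h1]
      · rw [Fin.val_succ, Nat.testBit_succ]
        have : (2 * n + (if c 0 = 1 then 1 else 0)) / 2 = n := by
          split_ifs <;> omega
        rw [this]
        exact h j

theorem bp_comb_eq_sum {m : ℕ} (b : Fin m → V) (c : Fin m → ZMod 2) (n : ℕ)
    (h : ∀ i : Fin m, n.testBit i = decide (c i = 1)) : comb b n = ∑ i, c i • b i := by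
  unfold comb
  refine Finset.sum_congr rfl fun i _ => ?_
  rw [h i]
  rcases tri_zmod (c i) with h0 | h1
  · rw [h0]; simp
  · rw [h1]; simp

theorem bp_indep {b : Fin 5 → V} (hb : ∀ n < 32, comb b n = 0 → n = 0) (h : List ℕ)
    (hlt : ∀ c ∈ h, c < 32) (hi : IndepC h) : LinearIndependent (ZMod 2) (bpFam b h) := by
  rw [Fintype.linearIndependent_iff]
  intro c hc i
  obtain ⟨n, hn, hbit⟩ := bp_exists_code h.length c
  rw [← bp_comb_eq_sum (bpFam b h) c n hbit, bp_comb_linC] at hc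
  have h1 := hb _ (bp_linC_lt h hlt n) hc
  have h2 : n = 0 := by
    by_contra h0
    exact hi n hn h0 h1
  have h3 := hbit i
  rw [h2, Nat.zero_testBit] at h3
  rcases tri_zmod (c i) with h4 | h4
  · exact h4
  · rw [h4] at h3
    simp at h3

theorem bp_fano {E : Set V} {b : Fin 5 → V} (hb : ∀ n < 32, comb b n = 0 → n = 0) {M : ℕ}
    (hM : ∀ n < 32, M.testBit n = true → comb b n ∈ E)
    (hno : ∀ U : Submodule (ZMod 2) V, finrank (ZMod 2) U = 3 → ∃ u ∈ U, u ≠ 0 ∧ u ∉ E) :
    ¬ FanoM M := by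
  rintro ⟨h, hlen, hlt, hi, hall⟩
  have hli := bp_indep hb h hlt hi
  obtain ⟨u, hu, hu0, huE⟩ := hno (span (ZMod 2) (Set.range (bpFam b h))) (by
    rw [finrank_span_eq_card hli, Fintype.card_fin, hlen])
  rw [mem_span_range_iff_exists_fun] at hu
  obtain ⟨c, hc⟩ := hu
  obtain ⟨n, hn, hbit⟩ := bp_exists_code _ c
  rw [← bp_comb_eq_sum _ c n hbit, bp_comb_linC] at hc
  rw [hlen] at hn
  have hn0 : n ≠ 0 := by
    rintro rfl
    apply hu0
    rw [← hc, ← bp_comb_linC, comb_zero]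
  apply huE
  rw [← hc]
  exact hM _ (bp_linC_lt h hlt n) (hall n hn hn0)

theorem bp_del4 {E : Set V} {b : Fin 5 → V} (hb : ∀ n < 32, comb b n = 0 → n = 0) {M : ℕ}
    (hM : ∀ n < 32, M.testBit n = true → comb b n ∈ E)
    (hno : ∀ e p q r : V, Del4 E e p q r →
      finrank (ZMod 2) ↥(span (ZMod 2) {e, p, q, r}) = 4 → False) :
    ¬ Del4M M := by
  rintro ⟨h, hlen, hlt, hi, hall⟩
  have hli := bp_indep hb h hlt hi
  have hkey : ∀ m ∈ [1, 2, 4, 8, 3, 5, 9, 7, 13, 11], comb (bpFam b h) m ∈ E := by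
    intro m hm
    rw [bp_comb_linC]
    exact hM _ (bp_linC_lt h hlt m) (hall m hm)
  obtain ⟨h0, h1, h2, h3, rfl⟩ : ∃ h0 h1 h2 h3, h = [h0, h1, h2, h3] := by
    rcases h with _ | ⟨h0, _ | ⟨h1, _ | ⟨h2, _ | ⟨h3, _ | ⟨h4, t⟩⟩⟩⟩⟩ <;> simp at hlen
    exact ⟨h0, h1, h2, h3, rfl⟩
  simp only [List.mem_cons, List.not_mem_nil, or_false, forall_eq_or_imp, forall_eq,
    bp_comb_linC, linC, comb_xor] at hkey
  norm_num [comb_zero] at hkey
  obtain ⟨k1, k2, k4, k8, k3, k5, k9, k7, k13, k11⟩ := hkey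
  refine hno (comb b h0) (comb b h1) (comb b h2) (comb b h3)
    ⟨k1, k2, k4, k8, ?_, ?_, ?_, ?_, ?_, ?_⟩ ?_
  · rw [add_comm]; exact k3
  · rw [add_comm]; exact k5
  · rw [add_comm]; exact k9
  · rw [add_comm]; exact k7
  · rw [add_comm]; exact k13
  · rw [add_comm]; exact k11
  · apply tri_finrank4
    intro c hc
    have h5 := Fintype.linearIndependent_iff.mp hli c (by
      rw [← hc]
      refine Finset.sum_congr rfl fun i _ => ?_
      congr 1
      fin_cases i <;> rfl)
    funext i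
    exact h5 i

theorem bp_c15 {E : Set V} {b : Fin 5 → V} (hb : ∀ n < 32, comb b n = 0 → n = 0) {M : ℕ}
    (hM : ∀ n < 32, M.testBit n = true → comb b n ∈ E)
    (hno : ∀ b : Fin 5 → V, LinearIndependent (ZMod 2) b → (∀ n ∈ c15, comb b n ∈ E) → False) :
    ¬ C15M M := by
  rintro ⟨h, hlen, hlt, hi, hall⟩
  have hli := bp_indep hb h hlt hi
  have hkey : ∀ m ∈ c15, comb (bpFam b h) m ∈ E := by
    intro m hm
    rw [bp_comb_linC]
    exact hM _ (bp_linC_lt h hlt m) (hall m hm)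
  obtain ⟨h0, h1, h2, h3, h4, rfl⟩ : ∃ h0 h1 h2 h3 h4, h = [h0, h1, h2, h3, h4] := by
    rcases h with _ | ⟨h0, _ | ⟨h1, _ | ⟨h2, _ | ⟨h3, _ | ⟨h4, _ | ⟨h5, t⟩⟩⟩⟩⟩⟩ <;> simp at hlen
    exact ⟨h0, h1, h2, h3, h4, rfl⟩
  exact hno (bpFam b [h0, h1, h2, h3, h4]) hli hkey

end Codes

section Counting

variable {V W : Type*} [AddCommGroup V] [Module (ZMod 2) V] [AddCommGroup W] [Module (ZMod 2) W]
  [DecidableEq V] [DecidableEq W]
  {π : V →ₗ[ZMod 2] W} {E : Finset V} {e : V} {X : Finset W} {b : Fin 5 → V} {M ε : ℕ}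

omit [DecidableEq V] in
theorem bp_pr (hker : ∀ v, π v = 0 ↔ v = 0 ∨ v = e) (hε : ε < 32) (hbe : comb b ε = e)
    (hM : ∀ n < 32, M.testBit n = true ↔ (comb b n ∈ E ∧ (comb b n = e ∨ π (comb b n) ∈ X)))
    (hX : X ⊆ contr π E) {v : ℕ} (hv : v < 32) (hvX : π (comb b v) ∈ X) :
    prM M ε v = true := by
  have hpe : π e = 0 := (hker e).mpr (Or.inr rfl)
  obtain ⟨hne, a, haE, ha⟩ := (tri_mem_contr π E _).mp (hX hvX)
  have hv0 : v ≠ 0 := by
    rintro rfl
    apply hne
    rw [comb_zero, map_zero]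
  have hvε : v ≠ ε := by
    rintro rfl
    apply hne
    rw [hbe, hpe]
  unfold prM
  rw [Bool.and_eq_true, Bool.and_eq_true, Bool.or_eq_true, bne_iff_ne, bne_iff_ne]
  refine ⟨⟨hv0, hvε⟩, ?_⟩
  rcases tri_pi_eq hker ha with h | h
  · left
    rw [hM v hv]
    rw [← h]
    refine ⟨haE, Or.inr ?_⟩
    rw [ha]
    exact hvX
  · right
    rw [hM _ (Nat.xor_lt_two_pow (n := 5) hv hε), comb_xor, hbe]
    rw [← h]
    refine ⟨haE, Or.inr ?_⟩
    rw [ha]
    exact hvX

omit [DecidableEq V] [DecidableEq W] in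
theorem bp_bit (hε : ε < 32) (hbe : comb b ε = e)
    (hM : ∀ n < 32, M.testBit n = true ↔ (comb b n ∈ E ∧ (comb b n = e ∨ π (comb b n) ∈ X)))
    (hker : ∀ v, π v = 0 ↔ v = 0 ∨ v = e)
    {u : ℕ} (hu : u < 32) {a : V} (ha : a ∈ E) (hau : π a = π (comb b u))
    (huX : π (comb b u) ∈ X) :
    ∃ i ∈ [0, ε], M.testBit (u ^^^ i) = true ∧ comb b (u ^^^ i) = a := by
  rcases tri_pi_eq hker hau with h | h
  · refine ⟨0, by simp, ?_, ?_⟩
    · rw [Nat.xor_zero, hM u hu, ← h]
      exact ⟨ha, Or.inr (by rw [hau]; exact huX)⟩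
    · rw [Nat.xor_zero, h]
  · refine ⟨ε, by simp, ?_, ?_⟩
    · rw [hM _ (Nat.xor_lt_two_pow (n := 5) hu hε), comb_xor, hbe, ← h]
      exact ⟨ha, Or.inr (by rw [hau]; exact huX)⟩
    · rw [comb_xor, hbe, h]

omit [DecidableEq V] [DecidableEq W] in
theorem bp_lif (hker : ∀ v, π v = 0 ↔ v = 0 ∨ v = e) (hε : ε < 32) (hbe : comb b ε = e)
    (hM : ∀ n < 32, M.testBit n = true ↔ (comb b n ∈ E ∧ (comb b n = e ∨ π (comb b n) ∈ X)))
    {u v : ℕ} (hu : u < 32) (hv : v < 32) (huX : π (comb b u) ∈ X) (hvX : π (comb b v) ∈ X)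
    (huvX : π (comb b u) + π (comb b v) ∈ X)
    (hL : Lif π E (π (comb b u)) (π (comb b v))) : lifM M ε u v = true := by
  obtain ⟨a, ha, c, hc, hac, hau, hcv⟩ := hL
  obtain ⟨i, hi, hi1, hi2⟩ := bp_bit hε hbe hM hker hu ha hau huX
  obtain ⟨j, hj, hj1, hj2⟩ := bp_bit hε hbe hM hker hv hc hcv hvX
  unfold lifM
  rw [List.any_eq_true]
  refine ⟨i, hi, ?_⟩
  rw [List.any_eq_true]
  refine ⟨j, hj, ?_⟩
  rw [Bool.and_eq_true, Bool.and_eq_true]
  refine ⟨⟨hi1, hj1⟩, ?_⟩
  have hilt : i < 2 ^ 5 := by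
    simp only [List.mem_cons, List.not_mem_nil, or_false] at hi
    rcases hi with rfl | rfl
    · norm_num
    · exact hε
  have hjlt : j < 2 ^ 5 := by
    simp only [List.mem_cons, List.not_mem_nil, or_false] at hj
    rcases hj with rfl | rfl
    · norm_num
    · exact hε
  rw [hM _ (Nat.xor_lt_two_pow (n := 5) (Nat.xor_lt_two_pow hu hilt) (Nat.xor_lt_two_pow hv hjlt)),
    comb_xor (b := b) (u ^^^ i) (v ^^^ j), hi2, hj2]
  refine ⟨hac, Or.inr ?_⟩
  rw [map_add, hau, hcv]
  exact huvX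

/-- a section with a choice of the lift -/
def bpF (σ : W → ℕ) (ε : ℕ) (p : W × Bool) : ℕ := σ p.1 ^^^ (if p.2 then ε else 0)

omit [DecidableEq V] [DecidableEq W] in
theorem bp_F_lt {σ : W → ℕ} (hε : ε < 32) (hσ : ∀ x ∈ X, σ x < 32 ∧ π (comb b (σ x)) = x)
    {p : W × Bool} (hp : p.1 ∈ X) : bpF σ ε p < 32 := by
  unfold bpF
  refine Nat.xor_lt_two_pow (n := 5) (hσ _ hp).1 ?_
  split_ifs
  · exact hε
  · norm_num

omit [DecidableEq V] [DecidableEq W] in
theorem bp_F_pi {σ : W → ℕ} (hpe : π e = 0) (hbe : comb b ε = e)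
    (hσ : ∀ x ∈ X, σ x < 32 ∧ π (comb b (σ x)) = x)
    {p : W × Bool} (hp : p.1 ∈ X) : π (comb b (bpF σ ε p)) = p.1 := by
  unfold bpF
  rw [comb_xor, map_add, (hσ _ hp).2]
  split_ifs
  · rw [hbe, hpe, add_zero]
  · rw [comb_zero, map_zero, add_zero]

omit [DecidableEq V] [DecidableEq W] in
theorem bp_F_inj {σ : W → ℕ} (hpe : π e = 0) (hbe : comb b ε = e) (hε0 : ε ≠ 0)
    (hσ : ∀ x ∈ X, σ x < 32 ∧ π (comb b (σ x)) = x)
    {p q : W × Bool} (hp : p.1 ∈ X) (hq : q.1 ∈ X) (h : bpF σ ε p = bpF σ ε q) : p = q := by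
  have h1 : p.1 = q.1 := by
    rw [← bp_F_pi hpe hbe hσ hp, ← bp_F_pi hpe hbe hσ hq, h]
  refine Prod.ext h1 ?_
  unfold bpF at h
  rw [h1] at h
  have h2 := Nat.xor_right_inj.mp h
  rcases hp2 : p.2 with _ | _ <;> rcases hq2 : q.2 with _ | _ <;> rw [hp2, hq2] at h2
  · exact absurd h2.symm (by simpa using hε0)
  · exact absurd h2 (by simpa using hε0)

omit [DecidableEq V] in
theorem bp_nX (hker : ∀ v, π v = 0 ↔ v = 0 ∨ v = e) (hε : ε < 32) (hε0 : ε ≠ 0)
    (hbe : comb b ε = e)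
    (hM : ∀ n < 32, M.testBit n = true ↔ (comb b n ∈ E ∧ (comb b n = e ∨ π (comb b n) ∈ X)))
    (hX : X ⊆ contr π E) {σ : W → ℕ} (hσ : ∀ x ∈ X, σ x < 32 ∧ π (comb b (σ x)) = x) :
    X.card * 2 ≤ nXM M ε := by
  have hpe : π e = 0 := (hker e).mpr (Or.inr rfl)
  have h1 : nXM M ε = ((List.range 32).filter (prM M ε)).toFinset.card :=
    (List.toFinset_card_of_nodup (List.nodup_range.filter _)).symm
  have h2 : X.card * 2 = (X ×ˢ (Finset.univ : Finset Bool)).card := by
    rw [Finset.card_product]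
    rfl
  rw [h1, h2]
  refine Finset.card_le_card_of_injOn (bpF σ ε) ?_ ?_
  · intro p hp
    have hp1 : p.1 ∈ X := (Finset.mem_product.mp hp).1
    rw [Finset.mem_coe, List.mem_toFinset, List.mem_filter, List.mem_range]
    refine ⟨bp_F_lt hε hσ hp1, bp_pr hker hε hbe hM hX (bp_F_lt hε hσ hp1) ?_⟩
    rw [bp_F_pi hpe hbe hσ hp1]
    exact hp1
  · intro p hp q hq h
    exact bp_F_inj hpe hbe hε0 hσ (Finset.mem_product.mp hp).1 (Finset.mem_product.mp hq).1 h

omit [DecidableEq V] in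
theorem bp_tri (hker : ∀ v, π v = 0 ↔ v = 0 ∨ v = e) (hε : ε < 32) (hε0 : ε ≠ 0)
    (hbe : comb b ε = e)
    (hM : ∀ n < 32, M.testBit n = true ↔ (comb b n ∈ E ∧ (comb b n = e ∨ π (comb b n) ∈ X)))
    (hX : X ⊆ contr π E) {σ : W → ℕ} (hσ : ∀ x ∈ X, σ x < 32 ∧ π (comb b (σ x)) = x) :
    triL π E X * 4 ≤ triLM M ε := by
  classical
  have hpe : π e = 0 := (hker e).mpr (Or.inr rfl)
  have h1 : triLM M ε = ((List.range 32 ×ˢ List.range 32).filter
    (fun p => prM M ε p.1 && prM M ε p.2 && prM M ε (p.1 ^^^ p.2) &&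
      lifM M ε p.1 p.2)).toFinset.card :=
    (List.toFinset_card_of_nodup ((List.nodup_range.product List.nodup_range).filter _)).symm
  have h2 : triL π E X * 4 = (((X ×ˢ X).filter (fun p => p.1 + p.2 ∈ X ∧ Lif π E p.1 p.2)) ×ˢ
      (Finset.univ : Finset (Bool × Bool))).card := by
    rw [Finset.card_product]
    unfold triL
    congr 2
  rw [h1, h2]
  refine Finset.card_le_card_of_injOn
    (fun p => (bpF σ ε (p.1.1, p.2.1), bpF σ ε (p.1.2, p.2.2))) ?_ ?_
  · intro p hp
    obtain ⟨hp1, -⟩ := Finset.mem_product.mp hp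
    obtain ⟨hp2, hp3, hp4⟩ := Finset.mem_filter.mp hp1
    obtain ⟨hx, hy⟩ := Finset.mem_product.mp hp2
    have ax : (p.1.1, p.2.1).1 ∈ X := hx
    have ay : (p.1.2, p.2.2).1 ∈ X := hy
    have lx := bp_F_lt (b := b) hε hσ ax
    have ly := bp_F_lt (b := b) hε hσ ay
    have px := bp_F_pi hpe hbe hσ ax
    have py := bp_F_pi hpe hbe hσ ay
    rw [Finset.mem_coe, List.mem_toFinset, List.mem_filter, List.mem_product, List.mem_range,
      List.mem_range]
    refine ⟨⟨lx, ly⟩, ?_⟩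
    rw [Bool.and_eq_true, Bool.and_eq_true, Bool.and_eq_true]
    refine ⟨⟨⟨?_, ?_⟩, ?_⟩, ?_⟩
    · exact bp_pr hker hε hbe hM hX lx (by rw [px]; exact hx)
    · exact bp_pr hker hε hbe hM hX ly (by rw [py]; exact hy)
    · refine bp_pr hker hε hbe hM hX (Nat.xor_lt_two_pow (n := 5) lx ly) ?_
      rw [comb_xor, map_add, px, py]
      exact hp3
    · refine bp_lif hker hε hbe hM lx ly (by rw [px]; exact hx) (by rw [py]; exact hy) ?_ ?_
      · rw [px, py]
        exact hp3
      · rw [px, py]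
        exact hp4
  · intro p hp q hq h
    obtain ⟨hp1, -⟩ := Finset.mem_product.mp hp
    obtain ⟨hp2, -⟩ := Finset.mem_filter.mp hp1
    obtain ⟨hx, hy⟩ := Finset.mem_product.mp hp2
    obtain ⟨hq1, -⟩ := Finset.mem_product.mp hq
    obtain ⟨hq2, -⟩ := Finset.mem_filter.mp hq1
    obtain ⟨hx', hy'⟩ := Finset.mem_product.mp hq2
    have e1 := bp_F_inj hpe hbe hε0 hσ (p := (p.1.1, p.2.1)) (q := (q.1.1, q.2.1)) hx hx'
      (congrArg Prod.fst h)
    have e2 := bp_F_inj hpe hbe hε0 hσ (p := (p.1.2, p.2.2)) (q := (q.1.2, q.2.2)) hy hy'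
      (congrArg Prod.snd h)
    rw [Prod.mk.injEq] at e1 e2
    exact Prod.ext (Prod.ext e1.1 e2.1) (Prod.ext e1.2 e2.2)

end Counting

theorem claimBigPiece (hR5 : ClaimR5.{u}) : ClaimBigPiece.{u} := by
  intro hTab V _ _ _ _ W _ _ _ _ E π e X Q hπ hker h0 he hfree hdel hfano hc15 hQ hXQ hX hcard
  obtain ⟨L, hL, hprop⟩ := hTab
  have hpe : π e = 0 := (hker e).mpr (Or.inr rfl)
  have he0 : e ≠ 0 := fun h => h0 (h ▸ he)
  set T : Submodule (ZMod 2) V := comap π Q with hT
  -- the dimension of `T`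
  have hTrank : finrank (ZMod 2) T = 5 := by
    have h1 := LinearMap.finrank_range_add_finrank_ker (π.domRestrict T)
    have h2 : finrank (ZMod 2) (LinearMap.range (π.domRestrict T)) = 4 := by
      rw [LinearMap.range_domRestrict, hT, map_comap_eq_of_surjective hπ, hQ]
    have h3 : finrank (ZMod 2) (LinearMap.ker (π.domRestrict T)) = 1 := by
      have heT : e ∈ T := by
        rw [hT, mem_comap, hpe]
        exact zero_mem _
      rw [finrank_eq_one_iff']
      refine ⟨⟨⟨e, heT⟩, ?_⟩, ?_, ?_⟩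
      · rw [LinearMap.mem_ker]
        exact hpe
      · intro h
        apply he0
        exact congrArg (fun z : LinearMap.ker (π.domRestrict T) => ((z : T) : V)) h
      · rintro ⟨⟨w, hwT⟩, hw⟩
        rw [LinearMap.mem_ker] at hw
        rcases (hker w).mp hw with h | h
        · refine ⟨0, ?_⟩
          rw [zero_smul]
          exact Subtype.ext (Subtype.ext h.symm)
        · refine ⟨1, ?_⟩
          rw [one_smul]
          exact Subtype.ext (Subtype.ext h.symm)
    omega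
  have heT : e ∈ T := by
    rw [hT, mem_comap, hpe]
    exact zero_mem _
  have hX0 : (0 : W) ∉ X := fun h => ((tri_mem_contr π E 0).mp (hX h)).1 rfl
  -- `X` spans `Q`
  have hXspan : span (ZMod 2) (X : Set W) = Q := by
    apply eq_of_le_of_finrank_le (span_le.mpr hXQ)
    have h1 := card_succ_le X hX0
    rw [hQ]
    by_contra h2
    have h3 : finrank (ZMod 2) ↥(span (ZMod 2) (X : Set W)) ≤ 3 := by omega
    have h4 := Nat.pow_le_pow_right (n := 2) (by norm_num) h3
    omega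
  set A : Set T := {t | (t : V) ∈ E ∧ ((t : V) = e ∨ π t ∈ X)} with hA
  have hA0 : (0 : T) ∉ A := fun h => h0 h.1
  have hAfree : ¬ HasK5 A := by
    intro h
    apply hfree
    refine HasK5.of_map T.subtype A (E : Set V) ⊥ bot_le ?_ ?_ h
    · intro w hw
      rw [mem_bot] at hw
      exact Subtype.ext hw
    · intro w hw
      refine ⟨w, hw.1, ?_⟩
      rw [Submodule.subtype_apply, tri_self]
      exact zero_mem _
  have hAspan : span (ZMod 2) A = ⊤ := by
    set P : Submodule (ZMod 2) V := map T.subtype (span (ZMod 2) A) with hP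
    have heP : e ∈ P := ⟨⟨e, heT⟩, subset_span ⟨he, Or.inl rfl⟩, rfl⟩
    have h1 : span (ZMod 2) (X : Set W) ≤ map π P := by
      rw [span_le]
      intro x hx
      obtain ⟨-, a, haE, hax⟩ := (tri_mem_contr π E x).mp (hX hx)
      have haT : a ∈ T := by
        rw [hT, mem_comap, hax]
        exact hXQ x hx
      refine ⟨a, ⟨⟨a, haT⟩, subset_span ⟨haE, Or.inr ?_⟩, rfl⟩, hax⟩
      change π a ∈ X
      rw [hax]
      exact hx
    rw [eq_top_iff]
    intro t _
    have h2 : π (t : V) ∈ map π P := by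
      apply h1
      rw [hXspan]
      exact t.2
    obtain ⟨p, hpP, hpt⟩ := h2
    have htP : (t : V) ∈ P := by
      rcases tri_pi_eq hker hpt with h | h
      · rw [← h]
        exact hpP
      · have h3 : (t : V) = p + e := by
          rw [h, tri_cancel]
        rw [h3]
        exact add_mem hpP heP
    obtain ⟨t', ht', htt⟩ := htP
    rw [← Subtype.ext htt]
    exact ht'
  obtain ⟨M, hML, b', hli, hM'⟩ := hR5 L hL T A hTrank hA0 hAspan hAfree
  set b : Fin 5 → V := fun i => (b' i : V) with hbdef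
  have hbb : ∀ n, comb b n = ((comb b' n : T) : V) := by
    intro n
    unfold comb
    rw [Submodule.coe_sum]
    refine Finset.sum_congr rfl fun i _ => ?_
    split_ifs
    · rfl
    · rfl
  have hb : ∀ n < 32, comb b n = 0 → n = 0 := by
    intro n hn h
    refine comb_mem_imp b' ⊥ ?_ n hn ?_
    · intro c hc
      rw [mem_bot] at hc
      funext i
      exact Fintype.linearIndependent_iff.mp hli c hc i
    · rw [mem_bot]
      rw [hbb] at h
      exact Subtype.ext h
  have hsurj : ∀ t ∈ T, ∃ n < 32, comb b n = t := by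
    intro t ht
    have h1 : span (ZMod 2) (Set.range b') = ⊤ :=
      hli.span_eq_top_of_card_eq_finrank (by rw [hTrank, Fintype.card_fin])
    have h2 : (⟨t, ht⟩ : T) ∈ span (ZMod 2) (Set.range b') := by
      rw [h1]
      exact mem_top
    rw [mem_span_range_iff_exists_fun] at h2
    obtain ⟨c, hc⟩ := h2
    obtain ⟨n, hn, hbit⟩ := bp_exists_code 5 c
    refine ⟨n, hn, ?_⟩
    rw [hbb, bp_comb_eq_sum b' c n hbit, hc]
  have hM : ∀ n < 32, M.testBit n = true ↔
      (comb b n ∈ E ∧ (comb b n = e ∨ π (comb b n) ∈ X)) := by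
    intro n hn
    rw [hM' n hn, hbb]
    rfl
  obtain ⟨ε, hε, hbe⟩ := hsurj e heT
  have hε0 : ε ≠ 0 := by
    rintro rfl
    rw [comb_zero] at hbe
    exact he0 hbe.symm
  have hMε : M.testBit ε = true := by
    rw [hM ε hε, hbe]
    exact ⟨he, Or.inl rfl⟩
  have hσ' : ∀ x : W, ∃ n, x ∈ X → n < 32 ∧ π (comb b n) = x := by
    intro x
    by_cases hx : x ∈ X
    · obtain ⟨v, hv⟩ := hπ x
      obtain ⟨n, hn, hnv⟩ := hsurj v (by
        rw [hT, mem_comap, hv]
        exact hXQ x hx)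
      exact ⟨n, fun _ => ⟨hn, by rw [hnv, hv]⟩⟩
    · exact ⟨0, fun h => absurd h hx⟩
  choose σ hσ using hσ'
  have hn := bp_nX hker hε hε0 hbe hM hX hσ
  have ht := bp_tri hker hε hε0 hbe hM hX hσ
  have hME : ∀ n < 32, M.testBit n = true → comb b n ∈ E := fun n hn h => ((hM n hn).mp h).1
  rcases (hprop M hML).2 ε hε hMε (by omega) with h | h | h | h
  · omega
  · exact absurd h (bp_fano (E := (E : Set V)) hb hME hfano)
  · exact absurd h (bp_del4 (E := (E : Set V)) hb hME hdel)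
  · exact absurd h (bp_c15 (E := (E : Set V)) hb hME hc15)

end Pool.Agent.WW

end

section

namespace Pool.Agent.WW

theorem r5_ext_of_mem {nxt : List ℕ} {rows : List (ℕ × ℕ)} {M : ℕ} (hc : r5Grp nxt rows = true)
    (hL : ∀ x ∈ nxt, x ∈ r5L) (h : M ∈ rows.map Prod.fst) : R5Ext r5L M := by
  obtain ⟨r, hr, rfl⟩ := List.mem_map.1 h
  exact r5Grp_sound hc hL r hr

theorem r5L_mem {x : ℕ} : x ∈ r5L ↔ x ∈ r5M5 ∨ x ∈ r5M6 ∨ x ∈ r5M7 ∨ x ∈ r5M8 ∨ x ∈ r5M9 ∨ x ∈ r5M10 ∨ x ∈ r5M11 ∨ x ∈ r5M12 ∨ x ∈ r5M13 ∨ x ∈ r5M14 ∨ x ∈ r5M15 ∨ x ∈ r5M16 := by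
  unfold r5L
  simp only [List.mem_append, or_assoc]

theorem r5ext5 : ∀ M ∈ r5M5, R5Ext r5L M := by
  have hn : ∀ x ∈ r5M6, x ∈ r5L := fun x hx => by
    rw [r5L_mem]; tauto
  have he : r5M5 = r5R5_0.map Prod.fst := by decide +kernel
  intro M hM
  rw [he] at hM
  exact r5_ext_of_mem r5chk5_0 hn hM

theorem r5ext6 : ∀ M ∈ r5M6, R5Ext r5L M := by
  have hn : ∀ x ∈ r5M7, x ∈ r5L := fun x hx => by
    rw [r5L_mem]; tauto
  have he : r5M6 = r5R6_0.map Prod.fst := by decide +kernel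
  intro M hM
  rw [he] at hM
  exact r5_ext_of_mem r5chk6_0 hn hM

theorem r5ext7 : ∀ M ∈ r5M7, R5Ext r5L M := by
  have hn : ∀ x ∈ r5M8, x ∈ r5L := fun x hx => by
    rw [r5L_mem]; tauto
  have he : r5M7 = r5R7_0.map Prod.fst ++ r5R7_1.map Prod.fst := by decide +kernel
  intro M hM
  rw [he] at hM
  simp only [List.mem_append, or_assoc] at hM
  rcases hM with h | h
  · exact r5_ext_of_mem r5chk7_0 hn h
  · exact r5_ext_of_mem r5chk7_1 hn h

theorem r5ext8 : ∀ M ∈ r5M8, R5Ext r5L M := by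
  have hn : ∀ x ∈ r5M9, x ∈ r5L := fun x hx => by
    rw [r5L_mem]; tauto
  have he : r5M8 = r5R8_0.map Prod.fst ++ r5R8_1.map Prod.fst ++ r5R8_2.map Prod.fst := by decide +kernel
  intro M hM
  rw [he] at hM
  simp only [List.mem_append, or_assoc] at hM
  rcases hM with h | h | h
  · exact r5_ext_of_mem r5chk8_0 hn h
  · exact r5_ext_of_mem r5chk8_1 hn h
  · exact r5_ext_of_mem r5chk8_2 hn h

theorem r5ext9 : ∀ M ∈ r5M9, R5Ext r5L M := by
  have hn : ∀ x ∈ r5M10, x ∈ r5L := fun x hx => by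
    rw [r5L_mem]; tauto
  have he : r5M9 = r5R9_0.map Prod.fst ++ r5R9_1.map Prod.fst ++ r5R9_2.map Prod.fst ++ r5R9_3.map Prod.fst ++ r5R9_4.map Prod.fst := by decide +kernel
  intro M hM
  rw [he] at hM
  simp only [List.mem_append, or_assoc] at hM
  rcases hM with h | h | h | h | h
  · exact r5_ext_of_mem r5chk9_0 hn h
  · exact r5_ext_of_mem r5chk9_1 hn h
  · exact r5_ext_of_mem r5chk9_2 hn h
  · exact r5_ext_of_mem r5chk9_3 hn h
  · exact r5_ext_of_mem r5chk9_4 hn h

theorem r5ext10 : ∀ M ∈ r5M10, R5Ext r5L M := by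
  have hn : ∀ x ∈ r5M11, x ∈ r5L := fun x hx => by
    rw [r5L_mem]; tauto
  have he : r5M10 = r5R10_0.map Prod.fst ++ r5R10_1.map Prod.fst ++ r5R10_2.map Prod.fst ++ r5R10_3.map Prod.fst ++ r5R10_4.map Prod.fst ++ r5R10_5.map Prod.fst ++ r5R10_6.map Prod.fst ++ r5R10_7.map Prod.fst := by decide +kernel
  intro M hM
  rw [he] at hM
  simp only [List.mem_append, or_assoc] at hM
  rcases hM with h | h | h | h | h | h | h | h
  · exact r5_ext_of_mem r5chk10_0 hn h
  · exact r5_ext_of_mem r5chk10_1 hn h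
  · exact r5_ext_of_mem r5chk10_2 hn h
  · exact r5_ext_of_mem r5chk10_3 hn h
  · exact r5_ext_of_mem r5chk10_4 hn h
  · exact r5_ext_of_mem r5chk10_5 hn h
  · exact r5_ext_of_mem r5chk10_6 hn h
  · exact r5_ext_of_mem r5chk10_7 hn h

theorem r5ext11 : ∀ M ∈ r5M11, R5Ext r5L M := by
  have hn : ∀ x ∈ r5M12, x ∈ r5L := fun x hx => by
    rw [r5L_mem]; tauto
  have he : r5M11 = r5R11_0.map Prod.fst ++ r5R11_1.map Prod.fst ++ r5R11_2.map Prod.fst ++ r5R11_3.map Prod.fst ++ r5R11_4.map Prod.fst ++ r5R11_5.map Prod.fst ++ r5R11_6.map Prod.fst ++ r5R11_7.map Prod.fst ++ r5R11_8.map Prod.fst ++ r5R11_9.map Prod.fst := by decide +kernel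
  intro M hM
  rw [he] at hM
  simp only [List.mem_append, or_assoc] at hM
  rcases hM with h | h | h | h | h | h | h | h | h | h
  · exact r5_ext_of_mem r5chk11_0 hn h
  · exact r5_ext_of_mem r5chk11_1 hn h
  · exact r5_ext_of_mem r5chk11_2 hn h
  · exact r5_ext_of_mem r5chk11_3 hn h
  · exact r5_ext_of_mem r5chk11_4 hn h
  · exact r5_ext_of_mem r5chk11_5 hn h
  · exact r5_ext_of_mem r5chk11_6 hn h
  · exact r5_ext_of_mem r5chk11_7 hn h
  · exact r5_ext_of_mem r5chk11_8 hn h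
  · exact r5_ext_of_mem r5chk11_9 hn h

theorem r5ext12 : ∀ M ∈ r5M12, R5Ext r5L M := by
  have hn : ∀ x ∈ r5M13, x ∈ r5L := fun x hx => by
    rw [r5L_mem]; tauto
  have he : r5M12 = r5R12_0.map Prod.fst ++ r5R12_1.map Prod.fst ++ r5R12_2.map Prod.fst ++ r5R12_3.map Prod.fst ++ r5R12_4.map Prod.fst ++ r5R12_5.map Prod.fst ++ r5R12_6.map Prod.fst ++ r5R12_7.map Prod.fst ++ r5R12_8.map Prod.fst ++ r5R12_9.map Prod.fst ++ r5R12_10.map Prod.fst := by decide +kernel
  intro M hM
  rw [he] at hM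
  simp only [List.mem_append, or_assoc] at hM
  rcases hM with h | h | h | h | h | h | h | h | h | h | h
  · exact r5_ext_of_mem r5chk12_0 hn h
  · exact r5_ext_of_mem r5chk12_1 hn h
  · exact r5_ext_of_mem r5chk12_2 hn h
  · exact r5_ext_of_mem r5chk12_3 hn h
  · exact r5_ext_of_mem r5chk12_4 hn h
  · exact r5_ext_of_mem r5chk12_5 hn h
  · exact r5_ext_of_mem r5chk12_6 hn h
  · exact r5_ext_of_mem r5chk12_7 hn h
  · exact r5_ext_of_mem r5chk12_8 hn h
  · exact r5_ext_of_mem r5chk12_9 hn h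
  · exact r5_ext_of_mem r5chk12_10 hn h

theorem r5ext13 : ∀ M ∈ r5M13, R5Ext r5L M := by
  have hn : ∀ x ∈ r5M14, x ∈ r5L := fun x hx => by
    rw [r5L_mem]; tauto
  have he : r5M13 = r5R13_0.map Prod.fst ++ r5R13_1.map Prod.fst ++ r5R13_2.map Prod.fst ++ r5R13_3.map Prod.fst ++ r5R13_4.map Prod.fst ++ r5R13_5.map Prod.fst ++ r5R13_6.map Prod.fst := by decide +kernel
  intro M hM
  rw [he] at hM
  simp only [List.mem_append, or_assoc] at hM
  rcases hM with h | h | h | h | h | h | h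
  · exact r5_ext_of_mem r5chk13_0 hn h
  · exact r5_ext_of_mem r5chk13_1 hn h
  · exact r5_ext_of_mem r5chk13_2 hn h
  · exact r5_ext_of_mem r5chk13_3 hn h
  · exact r5_ext_of_mem r5chk13_4 hn h
  · exact r5_ext_of_mem r5chk13_5 hn h
  · exact r5_ext_of_mem r5chk13_6 hn h

theorem r5ext14 : ∀ M ∈ r5M14, R5Ext r5L M := by
  have hn : ∀ x ∈ r5M15, x ∈ r5L := fun x hx => by
    rw [r5L_mem]; tauto
  have he : r5M14 = r5R14_0.map Prod.fst ++ r5R14_1.map Prod.fst ++ r5R14_2.map Prod.fst := by decide +kernel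
  intro M hM
  rw [he] at hM
  simp only [List.mem_append, or_assoc] at hM
  rcases hM with h | h | h
  · exact r5_ext_of_mem r5chk14_0 hn h
  · exact r5_ext_of_mem r5chk14_1 hn h
  · exact r5_ext_of_mem r5chk14_2 hn h

theorem r5ext15 : ∀ M ∈ r5M15, R5Ext r5L M := by
  have hn : ∀ x ∈ r5M16, x ∈ r5L := fun x hx => by
    rw [r5L_mem]; tauto
  have he : r5M15 = r5R15_0.map Prod.fst := by decide +kernel
  intro M hM
  rw [he] at hM
  exact r5_ext_of_mem r5chk15_0 hn hM

theorem r5ext16 : ∀ M ∈ r5M16, R5Ext r5L M := by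
  have hn : ∀ x ∈ r5M17, x ∈ r5L := fun x hx => by
    simp [r5M17] at hx
  have he : r5M16 = r5R16_0.map Prod.fst := by decide +kernel
  intro M hM
  rw [he] at hM
  exact r5_ext_of_mem r5chk16_0 hn hM

theorem r5_closed : ClosedList r5L := by
  constructor
  · rw [r5L_mem]
    left
    decide +kernel
  · intro M hM
    rw [r5L_mem] at hM
    rcases hM with h | h | h | h | h | h | h | h | h | h | h | h
    · exact r5ext5 M h
    · exact r5ext6 M h
    · exact r5ext7 M h
    · exact r5ext8 M h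
    · exact r5ext9 M h
    · exact r5ext10 M h
    · exact r5ext11 M h
    · exact r5ext12 M h
    · exact r5ext13 M h
    · exact r5ext14 M h
    · exact r5ext15 M h
    · exact r5ext16 M h

theorem tabR5 : TabR5 := ⟨r5L, r5_closed, r5_prop⟩

end Pool.Agent.WW

end

section

/-!
Assembly of the lemma L4 (`KL4`).
-/

namespace Pool.Agent.WW

open Submodule Module

universe u

section Rot

variable {V : Type*} [AddCommGroup V] [Module (ZMod 2) V]

theorem al_dpt_of_rot {h : V} {s : ℕ → V} {k : ℕ} {v : V}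
    (hv : DPt h (fun i => s (i + k)) v) : DPt h s v := by
  rcases hv with h1 | ⟨i, h1⟩ | ⟨i, h1⟩
  · exact Or.inl h1
  · exact Or.inr (Or.inl ⟨i + k, h1⟩)
  · refine Or.inr (Or.inr ⟨i + k, ?_⟩)
    have h2 : v = s (i + k) + s (i + 1 + k) := h1
    rwa [show i + 1 + k = i + k + 1 by omega] at h2

theorem al_dpt_rot {n : ℕ} (hn : 0 < n) {h : V} {s : ℕ → V} (tw : ∀ i, s (i + n) = s i + h)
    {k : ℕ} {v : V} (hv : DPt h s v) : DPt h (fun i => s (i + k)) v := by
  have hk : k ≤ 2 * n * k := Nat.le_mul_of_pos_left k (by omega)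
  have key : ∀ i, s i = s (i + 2 * n * k - k + k) := fun i => by
    rw [Nat.sub_add_cancel (by omega), ht_period tw]
  rcases hv with h1 | ⟨i, h1⟩ | ⟨i, h1⟩
  · exact Or.inl h1
  · exact Or.inr (Or.inl ⟨i + 2 * n * k - k, by rw [h1]; exact key i⟩)
  · refine Or.inr (Or.inr ⟨i + 2 * n * k - k, ?_⟩)
    change v = s (i + 2 * n * k - k + k) + s (i + 2 * n * k - k + 1 + k)
    rw [← key i, show i + 2 * n * k - k + 1 + k = (i + 1) + 2 * n * k - k + k by omega,
      ← key (i + 1), h1]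

theorem al_sh3_rot {E : Set V} {K Γ : Submodule (ZMod 2) V} {g h : V} {s : ℕ → V} {k : ℕ}
    {x y z : V} (H : Sh3 E K Γ g h s x y z) : Sh3 E K Γ g h (fun i => s (i + k)) x y z :=
  fun v hv hΓ hp => H v (al_dpt_of_rot hv) hΓ hp

theorem al_shape_rot {E : Set V} {K Γ : Submodule (ZMod 2) V} {g h : V} {s : ℕ → V} {k : ℕ}
    (H : ShapeAt E K Γ g h s k) : ShapeAt E K Γ g h (fun i => s (i + k)) 0 := by
  have e0 : 0 + k = k := Nat.zero_add k
  have e1 : 0 + 1 + k = k + 1 := by omega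
  have e2 : 0 + 2 + k = k + 2 := by omega
  unfold ShapeAt at H ⊢
  simp only [e0, e1, e2]
  rcases H with ⟨H, H'⟩ | ⟨H, H'⟩ | ⟨H, H'⟩ | ⟨H, H'⟩ | ⟨H, H'⟩ | ⟨H, H'⟩
  · exact Or.inl ⟨al_sh3_rot H, H'⟩
  · exact Or.inr (Or.inl ⟨al_sh3_rot H, H'⟩)
  · exact Or.inr (Or.inr (Or.inl ⟨al_sh3_rot H, H'⟩))
  · exact Or.inr (Or.inr (Or.inr (Or.inl ⟨al_sh3_rot H, H'⟩)))
  · exact Or.inr (Or.inr (Or.inr (Or.inr (Or.inl ⟨al_sh3_rot H, H'⟩))))
  · exact Or.inr (Or.inr (Or.inr (Or.inr (Or.inr ⟨al_sh3_rot H, H'⟩))))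

end Rot

/-- the lemma L4 from its modules -/
theorem kL4_of (hC : KLFun.{u}) (hF : KLAll.{u}) (hG : KLConf.{u}) (hS : KLShape.{u})
    (hI : KLIns.{u}) : KL4.{u} := by
  intro V _ _ _ _ W _ _ _ _ E π g H n hπ hker hE hH hgE hgH hn hD
  obtain ⟨h, s, hco, hV, hhH, hsH, hin, hout⟩ := hG V W E π g H n hπ hker hE.zero hH.1 hH.2 hgE
    hgH (by omega) hD
  rcases hF V (E : Set V) g h n hn ⊥ _ s hco with h5 | ⟨k, hk⟩
  · exact absurd h5 hE.free
  · have hn0 : 0 < n := by omega
    have tw := hco.tw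
    have hco' := ((hC V (E : Set V) ⊥ _ g h s n (by omega) hco).1 k).1
    have hsh := al_shape_rot hk
    have hin' : ∀ v ∈ (E : Set V), v ∈ H → DPt h (fun i => s (i + k)) v :=
      fun v hv hvH => al_dpt_rot hn0 tw (hin v hv hvH)
    have hout' : ∀ v ∈ (E : Set V), v ∉ H → v = g ∨ DPt h (fun i => s (i + k)) (v + g) :=
      fun v hv hvH => (hout v hv hvH).imp id (fun h' => al_dpt_rot hn0 tw h')
    obtain ⟨ha, hb, hc⟩ := hS V (E : Set V) H g h (fun i => s (i + k)) n hn hE hH.1 hgE hgH hco'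
      hV hhH (fun i => hsH _) hin' hout' hsh
    exact hI V (E : Set V) H _ g h (fun i => s (i + k)) n (by omega) hco' hgH hV hhH
      (fun i => hsH _) hin' ha hb hc


end Pool.Agent.WW

end

section

/-! The lemma L4 for all numbers of spokes. -/

namespace Pool.Agent.WW

open Submodule Module

universe u

section KLAllAux

variable {V : Type u} [AddCommGroup V] [Module (ZMod 2) V]

/-- one of the first four rims is not in `Γ` -/
theorem kLAll_rim [FiniteDimensional (ZMod 2) V] {E : Set V} {K Γ : Submodule (ZMod 2) V}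
    {g h : V} {s : ℕ → V} {n : ℕ} (hn : 5 ≤ n) (hco : CoD E K Γ g h s (n + 1))
    {f : ℕ → V →ₗ[ZMod 2] ZMod 2} (hf : Fun K g h s (n + 1) f) :
    ∃ j, s j + s (j + 1) ∉ Γ := by
  by_contra hcon
  push Not at hcon
  have hval : ∀ k < 4, ∀ i < 5, f k (s i) = if i = k then 1 else 0 := by
    intro k hk i hi
    rw [(hf k).2.2.2 i, Nat.mod_eq_of_lt (by omega : i < n + 1),
      Nat.mod_eq_of_lt (by omega : k < n + 1)]
  set Φ : ↥Γ →ₗ[ZMod 2] (Fin 4 → ZMod 2) :=
    (LinearMap.pi fun k : Fin 4 => f (k : ℕ)).comp Γ.subtype with hΦ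
  have hΦa : ∀ (v : V) (hv : v ∈ Γ) (k : Fin 4), Φ ⟨v, hv⟩ k = f (k : ℕ) v := fun v hv k => rfl
  have hsurj : Function.Surjective Φ := by
    intro c
    refine ⟨c 0 • ⟨_, hcon 0⟩ + (c 0 + c 1) • ⟨_, hcon 1⟩ + (c 0 + c 1 + c 2) • ⟨_, hcon 2⟩ +
      (c 0 + c 1 + c 2 + c 3) • ⟨_, hcon 3⟩, ?_⟩
    have h2 : ∀ x : ZMod 2, x + x = 0 := by decide
    have e : ∀ a b : ZMod 2, a + (a + b) = b := by decide
    ext k
    fin_cases k
    · simp [hΦa, hval]
    · simp [hΦa, hval, e]
    · simp [hΦa, hval, e]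
    · simp [hΦa, hval, e]
  have h1 := LinearMap.finrank_range_add_finrank_ker Φ
  rw [LinearMap.range_eq_top.2 hsurj, finrank_top, Module.finrank_fin_fun] at h1
  have h2 : finrank (ZMod 2) K ≤ finrank (ZMod 2) ↥(LinearMap.ker Φ) := by
    have h3 : K.comap Γ.subtype ≤ LinearMap.ker Φ := by
      intro v hv
      rw [LinearMap.mem_ker]
      ext k
      have := hΦa v v.2 k
      rw [Subtype.coe_eta] at this
      rw [this, Pi.zero_apply]
      exact (hf k).1 v hv
    have h4 := Submodule.finrank_mono h3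
    have h5 : finrank (ZMod 2) ↥(K.comap Γ.subtype) = finrank (ZMod 2) K := by
      rw [← Submodule.finrank_map_subtype_eq, Submodule.map_comap_subtype,
        inf_eq_right.2 hco.KG]
    omega
  have h6 := hco.fr
  omega

theorem kLAll_fun {K : Submodule (ZMod 2) V} {g h : V} {s : ℕ → V} {n : ℕ}
    {f : ℕ → V →ₗ[ZMod 2] ZMod 2} (hf : Fun K g h s n f) (k : ℕ) :
    Fun K g h (fun i => s (i + k)) n (fun m => f (m + k)) := by
  intro m
  refine ⟨(hf (m + k)).1, (hf (m + k)).2.1, (hf (m + k)).2.2.1, fun i => ?_⟩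
  rw [(hf (m + k)).2.2.2 (i + k)]
  congr 1
  apply propext
  constructor
  · intro h1
    exact Nat.ModEq.add_right_cancel' k h1
  · intro h1
    exact Nat.ModEq.add_right k h1

theorem kLAll_per {E : Set V} {K Γ : Submodule (ZMod 2) V}
    {g h : V} {s : ℕ → V} {n : ℕ} (hco : CoD E K Γ g h s n)
    {f : ℕ → V →ₗ[ZMod 2] ZMod 2} (hf : Fun K g h s n f) (k : ℕ) :
    ∀ v ∈ Γ, f (k + n) v = f k v := by
  have h1 : K ⊔ span (ZMod 2) (insert h (Set.range s)) ≤ LinearMap.eqLocus (f (k + n)) (f k) := by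
    apply sup_le
    · intro v hv
      rw [LinearMap.mem_eqLocus, (hf (k + n)).1 v hv, (hf k).1 v hv]
    · rw [span_le]
      rintro v (rfl | ⟨i, rfl⟩)
      · change _ ∈ LinearMap.eqLocus _ _
        rw [LinearMap.mem_eqLocus, (hf (k + n)).2.2.1, (hf k).2.2.1]
      · change _ ∈ LinearMap.eqLocus _ _
        rw [LinearMap.mem_eqLocus, (hf (k + n)).2.2.2 i, (hf k).2.2.2 i, Nat.add_mod_right]
  intro v hv
  exact LinearMap.mem_eqLocus.1 (h1 (hco.GH hv))

end KLAllAux

theorem kLAll (hA : KLBase.{u}) (hC : KLFun.{u}) (hD : KLTouch.{u}) (hE : KLTransfer.{u}) :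
    KLAll.{u} := by
  intro V _ _ _ E g h n hn
  induction n, hn using Nat.le_induction with
  | base => exact hA V E g h
  | succ n hn ih =>
    intro K Γ s hco
    obtain ⟨hrot, ⟨f0, hf0⟩, -⟩ := hC V E K Γ g h s (n + 1) (by omega) hco
    obtain ⟨j, hj⟩ := kLAll_rim hn hco hf0
    -- first rotation
    obtain ⟨hco1, hback1⟩ := hrot (j + 1)
    set s1 : ℕ → V := fun i => s (i + (j + 1)) with hs1
    have hrim : s1 n + s1 (n + 1) ∉ Γ := by
      have e1 : s1 n = s j + h := by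
        rw [hs1]
        simp only
        rw [← hco.tw j]
        congr 1
        omega
      have e2 : s1 (n + 1) = s (j + 1) + h := by
        rw [hs1]
        simp only
        rw [← hco.tw (j + 1)]
        congr 1
        omega
      have e3 : s1 n + s1 (n + 1) = s j + s (j + 1) := by
        rw [e1, e2]
        have : s j + h + (s (j + 1) + h) = s j + s (j + 1) + (h + h) := by abel
        rw [this, mf_add_self, add_zero]
      rw [e3]
      exact hj
    obtain ⟨hrot1, ⟨f, hf⟩, -⟩ := hC V E K Γ g h s1 (n + 1) (by omega) hco1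
    rcases hD V E K Γ g h s1 n f hn hco1 hf hrim ih with h5 | ⟨k, hk⟩
    · exact Or.inl h5
    -- second rotation
    obtain ⟨hco2, hback2⟩ := hrot1 (k + 1)
    have hf2 := kLAll_fun hf (k + 1)
    have hzero : ∀ v ∈ Γ, (fun m => f (m + (k + 1))) n v = 0 ∧
        (fun m => f (m + (k + 1))) (n + 1) v = 0 := by
      intro v hv
      have h1 := kLAll_per hco1 hf k v hv
      have h2 := kLAll_per hco1 hf (k + 1) v hv
      refine ⟨?_, ?_⟩
      · change f (n + (k + 1)) v = 0
        rw [show n + (k + 1) = k + (n + 1) by omega, h1]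
        exact (hk v hv).1
      · change f (n + 1 + (k + 1)) v = 0
        rw [show n + 1 + (k + 1) = k + 1 + (n + 1) by omega, h2]
        exact (hk v hv).2
    rcases hE V E K Γ g h (fun i => s1 (i + (k + 1))) n (fun m => f (m + (k + 1))) hn hco2 hf2
      hzero ih with h5 | ⟨i, hi⟩
    · exact Or.inl h5
    · exact Or.inr ⟨_, hback1 _ (hback2 i hi)⟩

end Pool.Agent.WW

end

section

/-!
Three independent points.
-/

namespace Pool.Agent.WW

open Submodule Module

theorem lb_triple {V : Type*} [AddCommGroup V] [Module (ZMod 2) V] [FiniteDimensional (ZMod 2) V]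
    {K Γ : Submodule (ZMod 2) V} {S : Set V} (hKG : K ≤ Γ) (hS : S ⊆ (Γ : Set V))
    (hG : Γ ≤ K ⊔ span (ZMod 2) S)
    (hf : finrank (ZMod 2) Γ = finrank (ZMod 2) K + 3) :
    ∃ x ∈ S, ∃ y ∈ S, ∃ z ∈ S, Γ = K ⊔ span (ZMod 2) {x, y, z} ∧ x + y ∉ K ∧ x + z ∉ K ∧
      y + z ∉ K ∧ x + y + z ∉ K := by
  have hmap : span (ZMod 2) (K.mkQ '' S) = Γ.map K.mkQ := by
    apply le_antisymm
    · rw [span_le]
      rintro _ ⟨v, hv, rfl⟩
      exact Submodule.mem_map_of_mem (hS hv)
    · have h1 := Submodule.map_mono (f := K.mkQ) hG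
      rw [Submodule.map_sup, Submodule.map_span] at h1
      have : K.map K.mkQ = ⊥ := by
        rw [eq_bot_iff]
        rintro _ ⟨y, hy, rfl⟩
        simpa using hy
      rwa [this, bot_sup_eq] at h1
  have hfin : finrank (ZMod 2) ↥(span (ZMod 2) (K.mkQ '' S)) = 3 := by
    rw [hmap]
    have h2 := LinearMap.finrank_range_add_finrank_ker (K.mkQ.domRestrict Γ)
    have h3 : (K.mkQ.domRestrict Γ).range = Γ.map K.mkQ := by
      rw [LinearMap.range_domRestrict]
    have h4 : finrank (ZMod 2) ↥(K.mkQ.domRestrict Γ).ker = finrank (ZMod 2) K := by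
      have h5 : (K.mkQ.domRestrict Γ).ker = K.comap Γ.subtype := by
        ext y
        simp [LinearMap.domRestrict_apply]
      rw [h5]
      exact (Submodule.comapSubtypeEquivOfLe hKG).finrank_eq
    rw [h3, h4] at h2
    omega
  obtain ⟨f, hf1, hf2, hf3⟩ : ∃ f : Fin 3 → V ⧸ K, (∀ i, f i ∈ K.mkQ '' S) ∧
      span (ZMod 2) (Set.range f) = span (ZMod 2) (K.mkQ '' S) ∧
      LinearIndependent (ZMod 2) f := by
    have := Submodule.exists_fun_fin_finrank_span_eq (ZMod 2) (K.mkQ '' S)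
    rwa [hfin] at this
  obtain ⟨x, hxS, hx⟩ := hf1 0
  obtain ⟨y, hyS, hy⟩ := hf1 1
  obtain ⟨z, hzS, hz⟩ := hf1 2
  have hli := Fintype.linearIndependent_iff.1 hf3
  have hmem : ∀ v, v ∈ K ↔ K.mkQ v = 0 := fun v => (Submodule.Quotient.mk_eq_zero K).symm
  refine ⟨x, hxS, y, hyS, z, hzS, ?_, ?_, ?_, ?_, ?_⟩
  · apply le_antisymm
    · intro v hv
      have h1 : K.mkQ v ∈ span (ZMod 2) (K.mkQ '' {x, y, z}) := by
        have h2 : K.mkQ v ∈ span (ZMod 2) (Set.range f) := by
          rw [hf2, hmap]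
          exact Submodule.mem_map_of_mem hv
        refine span_mono ?_ h2
        rintro _ ⟨i, rfl⟩
        fin_cases i
        · exact ⟨x, by simp, hx⟩
        · exact ⟨y, by simp, hy⟩
        · exact ⟨z, by simp, hz⟩
      rw [← Submodule.map_span] at h1
      obtain ⟨w, hw, hwv⟩ := h1
      have h3 : v + w ∈ K := by
        rw [hmem, map_add, hwv, mf_add_self]
      have h4 : v = (v + w) + w := by rw [add_assoc, mf_add_self, add_zero]
      rw [h4]
      exact add_mem (mem_sup_left h3) (mem_sup_right hw)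
    · refine sup_le hKG ?_
      rw [span_le]
      rintro v (rfl | rfl | rfl)
      · exact hS hxS
      · exact hS hyS
      · exact hS hzS
  · intro h
    rw [hmem, map_add, hx, hy] at h
    have := hli ![1, 1, 0] (by simpa [Fin.sum_univ_three] using h) 0
    simp at this
  · intro h
    rw [hmem, map_add, hx, hz] at h
    have := hli ![1, 0, 1] (by simpa [Fin.sum_univ_three] using h) 0
    simp at this
  · intro h
    rw [hmem, map_add, hy, hz] at h
    have := hli ![0, 1, 1] (by simpa [Fin.sum_univ_three] using h) 1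
    simp at this
  · intro h
    rw [hmem, map_add, map_add, hx, hy, hz] at h
    have := hli ![1, 1, 1] (by simpa [Fin.sum_univ_three] using h) 0
    simp at this

end Pool.Agent.WW

end

section

/-!
The interface of the table of five spokes.
-/

namespace Pool.Agent.WW

open Submodule Module

variable {V : Type*} [AddCommGroup V] [Module (ZMod 2) V]

theorem chkGoals_sound {M : ℕ} {cls : List (List ℕ)} : ∀ {ts : List BT} {gs : List (List ℕ)},
    chkGoals M cls ts gs = true → ∀ ex ∈ gs, ∃ t : BT, t.chk (M ||| mask ex) cls = true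
  | [], [], _, ex, hex => by simp at hex
  | [], _ :: _, h, _, _ => by simp [chkGoals] at h
  | _ :: _, [], h, _, _ => by simp [chkGoals] at h
  | t :: ts, e :: gs, h, ex, hex => by
    rw [chkGoals, Bool.and_eq_true] at h
    rcases List.mem_cons.1 hex with rfl | hex
    · exact ⟨t, h.1⟩
    · exact chkGoals_sound h.2 ex hex

/-- the data of a configuration in coordinates -/
structure Crd5 (E : Set V) (K Γ : Submodule (ZMod 2) V) (g h : V) (s : ℕ → V)
    (b : Fin 7 → V) : Prop where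
  gen : Gen E K
  ind : ∀ n < 2 ^ 7, comb b n ∈ K → n = 0
  b1 : comb b 1 = g
  b2 : comb b 2 = h
  cs : ∀ j < 12, comb b (cs5 j) = s j
  pg : Pres E K g
  D1 : ∀ v, DPt h s v → ∃ c ∈ dl5, v = comb b c
  D2 : ∀ c ∈ dl5, DPt h s (comb b c)
  p1 : ∀ v, DPt h s v → Pres E K v ∨ (v ∈ Γ ∧ Pres E K (v + g))

theorem dl5_lt : ∀ c ∈ dl5, c < 128 ∧ c ^^^ 1 < 128 ∧ c ≠ 0 := by decide

theorem cs5_lt : ∀ j < 12, cs5 j < 128 := by decide

theorem need5_lt : ∀ τ < 6, ∀ i < 10, ∀ ex ∈ need5 τ i, ∀ n ∈ ex, n < 128 := by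
  decide +kernel

theorem crd5_mem {E : Set V} {K Γ : Submodule (ZMod 2) V} {g h : V} {s : ℕ → V}
    {b : Fin 7 → V} (C : Crd5 E K Γ g h s b) {x y z : ℕ} (hx : x < 128) (hy : y < 128)
    (hz : z < 128) (hΓ : Γ = K ⊔ span (ZMod 2) {comb b x, comb b y, comb b z}) (c : ℕ)
    (hc : c < 128) : comb b c ∈ Γ ↔ c ∈ spanList [x, y, z] := by
  have himg : comb b '' {c | c ∈ [x, y, z]} = {comb b x, comb b y, comb b z} := by
    ext v
    simp only [List.mem_cons, List.not_mem_nil, or_false, Set.mem_image, Set.mem_ofPred_eq,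
      Set.mem_insert_iff, Set.mem_singleton_iff]
    constructor
    · rintro ⟨k, rfl | rfl | rfl, rfl⟩ <;> simp
    · rintro (rfl | rfl | rfl)
      · exact ⟨x, by simp, rfl⟩
      · exact ⟨y, by simp, rfl⟩
      · exact ⟨z, by simp, rfl⟩
  have hlt := spanList_lt (m := 7) [x, y, z] (by
    intro k hk
    simp only [List.mem_cons, List.not_mem_nil, or_false] at hk
    rcases hk with rfl | rfl | rfl <;> assumption)
  constructor
  · intro hm
    rw [hΓ, ← himg, mem_sup] at hm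
    obtain ⟨a, ha, w, hw, haw⟩ := hm
    obtain ⟨k, hk, rfl⟩ := exists_spanList b _ w hw
    have h1 : comb b (c ^^^ k) ∈ K := by
      rw [comb_xor, ← haw, add_assoc, mf_add_self, add_zero]
      exact ha
    have h2 := C.ind _ (Nat.xor_lt_two_pow hc (hlt k hk)) h1
    have h3 : c = k := by
      have h4 : (c ^^^ k) ^^^ k = 0 ^^^ k := by rw [h2]
      rwa [Nat.xor_xor_cancel_right, Nat.zero_xor] at h4
    rwa [h3]
  · intro hm
    have := comb_spanList b _ c hm
    rw [himg] at this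
    rw [hΓ]
    exact mem_sup_right this

/-- a tree gives an `M(K5)`-minor -/
theorem crd5_tree {E : Set V} {K Γ : Submodule (ZMod 2) V} {g h : V} {s : ℕ → V}
    {b : Fin 7 → V} (C : Crd5 E K Γ g h s b) {x y z : ℕ} (hx : x ∈ dl5) (hy : y ∈ dl5)
    (hz : z ∈ dl5) (hΓ : Γ = K ⊔ span (ZMod 2) {comb b x, comb b y, comb b z})
    (px : Pres E K (comb b x + g)) (py : Pres E K (comb b y + g))
    (pz : Pres E K (comb b z + g)) (ex : List ℕ)
    (hex : ∀ n ∈ ex, n < 128 ∧ Pres E K (comb b n)) (t : BT)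
    (ht : t.chk (base5 x y z ||| mask ex) (cls5 x y z) = true) : HasK5 E := by
  have hmem := fun c hc => crd5_mem C (dl5_lt x hx).1 (dl5_lt y hy).1 (dl5_lt z hz).1 hΓ c hc
  have x1 : ∀ n, comb b (n ^^^ 1) = comb b n + g := fun n => by rw [comb_xor, C.b1]
  have hA : ∀ n, (base5 x y z ||| mask ex).testBit n = true →
      n < 2 ^ 7 ∧ Pres E K (comb b n) := by
    intro n hn
    rw [Nat.testBit_or, Bool.or_eq_true, testBit_mask] at hn
    rcases hn with hn | hn
    · unfold base5 at hn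
      rw [testBit_mask, List.mem_append] at hn
      rcases hn with hn | hn
      · simp only [List.mem_cons, List.not_mem_nil, or_false] at hn
        rcases hn with rfl | rfl | rfl | rfl
        · exact ⟨by norm_num, by rw [C.b1]; exact C.pg⟩
        · exact ⟨(dl5_lt x hx).2.1, by rw [x1]; exact px⟩
        · exact ⟨(dl5_lt y hy).2.1, by rw [x1]; exact py⟩
        · exact ⟨(dl5_lt z hz).2.1, by rw [x1]; exact pz⟩
      · rw [List.mem_filter] at hn
        obtain ⟨hn, hs⟩ := hn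
        refine ⟨(dl5_lt n hn).1, ?_⟩
        rcases C.p1 _ (C.D2 n hn) with h1 | ⟨h1, -⟩
        · exact h1
        · exfalso
          rw [hmem n (dl5_lt n hn).1] at h1
          simp only [Bool.not_eq_true', List.contains_eq_mem, decide_eq_false_iff_not] at hs
          exact hs h1
    · exact hex n hn
  have hB : ∀ cl ∈ cls5 x y z, ∃ a ∈ cl, ∀ n, a.testBit n = true →
      n < 2 ^ 7 ∧ Pres E K (comb b n) := by
    intro cl hcl
    unfold cls5 at hcl
    rw [List.mem_map] at hcl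
    obtain ⟨v, hv, rfl⟩ := hcl
    have hvd : v ∈ dl5 := (List.mem_filter.1 hv).1
    rcases C.p1 _ (C.D2 v hvd) with h1 | ⟨-, h1⟩
    · refine ⟨mask [v], by simp, fun n hn => ?_⟩
      rw [testBit_mask, List.mem_singleton] at hn
      rw [hn]
      exact ⟨(dl5_lt v hvd).1, h1⟩
    · refine ⟨mask [v ^^^ 1], by simp, fun n hn => ?_⟩
      rw [testBit_mask, List.mem_singleton] at hn
      rw [hn]
      exact ⟨(dl5_lt v hvd).2.1, by rw [x1]; exact h1⟩
  obtain ⟨M', ⟨D, q0, q1, q2, q3, hcert⟩, hM'⟩ := t.sound _ _ _ ht hA hB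
  exact hasK5_of_cert b E K C.gen C.ind M' hM' D q0 q1 q2 q3 hcert

theorem mask_nil : mask [] = 0 := rfl

/-- the conclusion for a sorted triple of codes -/
theorem crd5_triple {E : Set V} {K Γ : Submodule (ZMod 2) V} {g h : V} {s : ℕ → V}
    {b : Fin 7 → V} (C : Crd5 E K Γ g h s b) {x y z : ℕ} (hx : x ∈ dl5) (hy : y ∈ dl5)
    (hz : z ∈ dl5) (hxy : x < y) (hyz : y < z) (hne : x ^^^ y ≠ z)
    (hΓ : Γ = K ⊔ span (ZMod 2) {comb b x, comb b y, comb b z})
    (px : Pres E K (comb b x + g)) (py : Pres E K (comb b y + g))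
    (pz : Pres E K (comb b z + g)) : HasK5 E ∨ ∃ i, ShapeAt E K Γ g h s i := by
  obtain ⟨e, he⟩ := l4_tab x hx y hy z hz hxy hyz hne
  have x1 : ∀ n, comb b (n ^^^ 1) = comb b n + g := fun n => by rw [comb_xor, C.b1]
  cases e with
  | k5 t =>
    left
    refine crd5_tree C hx hy hz hΓ px py pz [] (by simp) t ?_
    rw [mask_nil, Nat.or_zero]
    exact he
  | shp τ i ts =>
    by_cases hK5 : HasK5 E
    · exact Or.inl hK5
    right
    refine ⟨i, ?_⟩
    rw [chkEn, Bool.and_eq_true, Bool.and_eq_true, Bool.and_eq_true, Bool.and_eq_true,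
      decide_eq_true_eq, decide_eq_true_eq, List.all_eq_true, List.all_eq_true] at he
    obtain ⟨⟨⟨⟨hτ, hi⟩, hs1⟩, -⟩, hg⟩ := he
    have hno : ∀ ex ∈ goals5 τ i x y z, ¬ ∀ n ∈ ex, n < 128 ∧ Pres E K (comb b n) := by
      intro ex hex hall
      obtain ⟨t, ht⟩ := chkGoals_sound hg ex hex
      exact hK5 (crd5_tree C hx hy hz hΓ px py pz ex hall t ht)
    have hmem := fun c hc => crd5_mem C (dl5_lt x hx).1 (dl5_lt y hy).1 (dl5_lt z hz).1 hΓ c hc
    have hsh : ∀ v, DPt h s v → v ∈ Γ → Pres E K (v + g) → ∃ c ∈ shl5 τ i, v = comb b c := by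
      intro v hv hvΓ hvg
      obtain ⟨c, hc, rfl⟩ := C.D1 v hv
      by_cases hcx : c ∈ [x, y, z]
      · have := hs1 c hcx
        rw [List.contains_eq_mem, decide_eq_true_eq] at this
        exact ⟨c, this, rfl⟩
      · exfalso
        refine hno [c ^^^ 1] ?_ ?_
        · unfold goals5
          rw [List.mem_append]
          left
          rw [List.mem_map]
          refine ⟨c, ?_, rfl⟩
          unfold oth5
          rw [List.mem_filter]
          refine ⟨hc, ?_⟩
          rw [hmem c (dl5_lt c hc).1] at hvΓ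
          simp only [List.contains_eq_mem, Bool.and_eq_true, decide_eq_true_eq,
            Bool.not_eq_true', decide_eq_false_iff_not]
          exact ⟨hvΓ, hcx⟩
        · intro n hn
          rw [List.mem_singleton] at hn
          rw [hn]
          exact ⟨(dl5_lt c hc).2.1, by rw [x1]; exact hvg⟩
    have hneed : ∀ ex ∈ need5 τ i, ¬ ∀ n ∈ ex, Pres E K (comb b n) := by
      intro ex hex hall
      refine hno ex ?_ ?_
      · unfold goals5
        rw [List.mem_append]
        exact Or.inr hex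
      · intro n hn
        exact ⟨need5_lt τ hτ i hi ex hex n hn, hall n hn⟩
    -- translation of codes
    have e0 : comb b (cs5 i) = s i := C.cs i (by omega)
    have e1 : comb b (cs5 (i + 1)) = s (i + 1) := C.cs _ (by omega)
    have e2 : comb b (cs5 (i + 2)) = s (i + 2) := C.cs _ (by omega)
    have e3 : comb b (cs5 i ^^^ 2) = s i + h := by rw [comb_xor, e0, C.b2]
    have e4 : comb b (cs5 (i + 1) ^^^ 2) = s (i + 1) + h := by rw [comb_xor, e1, C.b2]
    have e5 : comb b (cs5 i ^^^ cs5 (i + 1)) = s i + s (i + 1) := by rw [comb_xor, e0, e1]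
    have e6 : comb b (cs5 (i + 1) ^^^ cs5 (i + 2)) = s (i + 1) + s (i + 2) := by
      rw [comb_xor, e1, e2]
    unfold ShapeAt
    have h6 : τ = 0 ∨ τ = 1 ∨ τ = 2 ∨ τ = 3 ∨ τ = 4 ∨ τ = 5 := by omega
    rcases h6 with rfl | rfl | rfl | rfl | rfl | rfl
    · left
      constructor
      · intro v h1 h2 h3
        obtain ⟨c, hc, rfl⟩ := hsh v h1 h2 h3
        simp only [shl5, if_true, List.mem_cons, List.not_mem_nil, or_false] at hc
        rcases hc with rfl | rfl | rfl
        · exact Or.inl e0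
        · exact Or.inr (Or.inl e3)
        · exact Or.inr (Or.inr e5)
      · have := hneed [cs5 i ^^^ cs5 (i + 1)] (by simp [need5])
        simpa [e5] using this
    · right; left
      constructor
      · intro v h1 h2 h3
        obtain ⟨c, hc, rfl⟩ := hsh v h1 h2 h3
        simp [shl5] at hc
        rcases hc with rfl | rfl | rfl
        · exact Or.inl e1
        · exact Or.inr (Or.inl e4)
        · exact Or.inr (Or.inr e5)
      · have := hneed [cs5 i ^^^ cs5 (i + 1)] (by simp [need5])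
        simpa [e5] using this
    · right; right; left
      constructor
      · intro v h1 h2 h3
        obtain ⟨c, hc, rfl⟩ := hsh v h1 h2 h3
        simp [shl5] at hc
        rcases hc with rfl | rfl | rfl
        · exact Or.inl e1
        · exact Or.inr (Or.inl e5)
        · exact Or.inr (Or.inr e6)
      · have n1 := hneed [cs5 (i + 1), cs5 i ^^^ cs5 (i + 1)] (by simp [need5])
        have n2 := hneed [cs5 (i + 1), cs5 (i + 1) ^^^ cs5 (i + 2)] (by simp [need5])
        have n3 := hneed [cs5 i ^^^ cs5 (i + 1), cs5 (i + 1) ^^^ cs5 (i + 2)] (by simp [need5])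
        simp only [List.mem_cons, List.not_mem_nil, or_false, forall_eq_or_imp, forall_eq,
          e1, e5, e6] at n1 n2 n3
        tauto
    · right; right; right; left
      constructor
      · intro v h1 h2 h3
        obtain ⟨c, hc, rfl⟩ := hsh v h1 h2 h3
        simp [shl5] at hc
        rcases hc with rfl | rfl | rfl
        · exact Or.inl e0
        · exact Or.inr (Or.inl e4)
        · exact Or.inr (Or.inr e6)
      · have n1 := hneed [cs5 (i + 1) ^^^ 2] (by simp [need5])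
        have n2 := hneed [cs5 (i + 1) ^^^ cs5 (i + 2)] (by simp [need5])
        simp only [List.mem_cons, List.not_mem_nil, or_false, forall_eq, e4, e6] at n1 n2
        exact ⟨n1, n2⟩
    · right; right; right; right; left
      constructor
      · intro v h1 h2 h3
        obtain ⟨c, hc, rfl⟩ := hsh v h1 h2 h3
        simp [shl5] at hc
        rcases hc with rfl | rfl | rfl
        · exact Or.inl e2
        · exact Or.inr (Or.inl e4)
        · exact Or.inr (Or.inr e5)
      · have n1 := hneed [cs5 (i + 1) ^^^ 2] (by simp [need5])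
        have n2 := hneed [cs5 i ^^^ cs5 (i + 1)] (by simp [need5])
        simp only [List.mem_cons, List.not_mem_nil, or_false, forall_eq, e4, e5] at n1 n2
        exact ⟨n1, n2⟩
    · right; right; right; right; right
      constructor
      · intro v h1 h2 h3
        obtain ⟨c, hc, rfl⟩ := hsh v h1 h2 h3
        simp [shl5] at hc
        rcases hc with rfl | rfl | rfl
        · exact Or.inl C.b2
        · exact Or.inr (Or.inl e5)
        · exact Or.inr (Or.inr e6)
      · have n1 := hneed [cs5 i ^^^ cs5 (i + 1)] (by simp [need5])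
        have n2 := hneed [cs5 (i + 1) ^^^ cs5 (i + 2)] (by simp [need5])
        simp only [List.mem_cons, List.not_mem_nil, or_false, forall_eq, e5, e6] at n1 n2
        exact ⟨n1, n2⟩

end Pool.Agent.WW

end

section

/-!
LG: the configuration of L4.
-/

namespace Pool.Agent.WW

open Submodule Module

universe u

section LConfAux

variable {V W : Type*} [AddCommGroup V] [Module (ZMod 2) V]
  [AddCommGroup W] [Module (ZMod 2) W]

theorem lconf_add_self (v : V) : v + v = 0 := by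
  have h : (2 : ZMod 2) • v = 0 := by
    have h2 : (2 : ZMod 2) = 0 := rfl
    rw [h2, zero_smul]
  rwa [two_smul] at h

theorem lconf_sub (u v : V) : u - v = u + v := by
  have h := lconf_add_self v
  rw [sub_eq_add_neg, neg_eq_of_add_eq_zero_left h]

theorem lconf_add_cancel (u v : V) : u + v + v = u := by
  rw [add_assoc, lconf_add_self, add_zero]

theorem lconf_eq_of_add {u v w : V} (h : u + v = w) : u = w + v := by
  rw [← h, lconf_add_cancel]

theorem lconf_two : ∀ c : ZMod 2, c = 0 ∨ c = 1 := by decide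

/-- a linear section of the projection with values in the hyperplane -/
theorem lconf_section [FiniteDimensional (ZMod 2) V] [FiniteDimensional (ZMod 2) W]
    (π : V →ₗ[ZMod 2] W) (g : V) (H : Submodule (ZMod 2) V)
    (hker : ∀ v, π v = 0 ↔ v = 0 ∨ v = g) (hg : g ∉ H)
    (hdim : finrank (ZMod 2) H = finrank (ZMod 2) W) :
    ∃ ψ : W →ₗ[ZMod 2] V, (∀ w, π (ψ w) = w) ∧ (∀ w, ψ w ∈ H) ∧ ∀ v ∈ H, ψ (π v) = v := by
  have hinj : Function.Injective (π.domRestrict H) := by
    rw [injective_iff_map_eq_zero]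
    intro a ha
    have ha' : π (a : V) = 0 := ha
    rcases (hker _).1 ha' with h | h
    · exact Subtype.ext h
    · exact absurd (h ▸ a.2) hg
  let e : H ≃ₗ[ZMod 2] W := LinearEquiv.ofInjectiveOfFinrankEq (π.domRestrict H) hinj hdim
  have he : ∀ a : H, e a = π (a : V) := fun a => rfl
  refine ⟨H.subtype ∘ₗ (e.symm : W →ₗ[ZMod 2] H), ?_, ?_, ?_⟩
  · intro w
    show π ((e.symm w : H) : V) = w
    rw [← he, LinearEquiv.apply_symm_apply]
  · intro w
    exact (e.symm w).2
  · intro v hv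
    show ((e.symm (π v) : H) : V) = v
    have h1 : π v = e ⟨v, hv⟩ := (he ⟨v, hv⟩).symm
    rw [h1, LinearEquiv.symm_apply_apply]

end LConfAux

theorem kLConf : KLConf.{u} := by
  intro V _ _ _ _ W _ _ _ _ E π g H n hsurj hker h0E hH hS hgE hgH hn hDel
  obtain ⟨h0, s0, ⟨htw, hli, hW⟩, hD⟩ := hDel
  have hg0 : g ≠ 0 := fun h => h0E (h ▸ hgE)
  -- the dimension of `V`
  have hkerspan : LinearMap.ker π = span (ZMod 2) {g} := by
    ext v
    rw [LinearMap.mem_ker, hker, mem_span_singleton]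
    constructor
    · rintro (h | h)
      · exact ⟨0, by rw [zero_smul, h]⟩
      · exact ⟨1, by rw [one_smul, h]⟩
    · rintro ⟨c, hc⟩
      have hc2 : c = 0 ∨ c = 1 := lconf_two c
      rcases hc2 with h | h
      · left; rw [← hc, h, zero_smul]
      · right; rw [← hc, h, one_smul]
  have hV : finrank (ZMod 2) V = n + 2 := by
    have h1 := LinearMap.finrank_range_add_finrank_ker π
    rw [LinearMap.range_eq_top.2 hsurj, finrank_top, hW, hkerspan,
      finrank_span_singleton hg0] at h1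
    omega
  obtain ⟨ψ, hψ1, hψ2, hψ3⟩ := lconf_section π g H hker hgH (by omega)
  have hcls : ∀ v : V, v = ψ (π v) ∨ v = ψ (π v) + g := by
    intro v
    have h1 : π (v + ψ (π v)) = 0 := by
      rw [map_add, hψ1, lconf_add_self]
    rcases (hker _).1 h1 with h | h
    · left
      have := lconf_eq_of_add h
      rwa [zero_add] at this
    · right
      have := lconf_eq_of_add h
      rwa [add_comm] at this
  have hspanW : span (ZMod 2) (insert h0 (Set.range s0)) = ⊤ := by
    rw [eq_top_iff]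
    have h1 : span (ZMod 2) (Set.range (Fin.cons h0 (fun i : Fin n => s0 i) : Fin (n + 1) → W))
        = ⊤ := by
      apply hli.span_eq_top_of_card_eq_finrank'
      rw [Fintype.card_fin, hW]
    rw [← h1]
    apply span_mono
    rintro x ⟨i, rfl⟩
    refine Fin.cases ?_ (fun j => ?_) i
    · simp
    · simp only [Fin.cons_succ]
      exact Or.inr ⟨j, rfl⟩
  have hHsp : H ≤ span (ZMod 2) (insert (ψ h0) (Set.range (fun i => ψ (s0 i)))) := by
    intro v hv
    have h1 : π v ∈ span (ZMod 2) (insert h0 (Set.range s0)) := by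
      rw [hspanW]; exact mem_top
    have h2 : ψ (π v) ∈ (span (ZMod 2) (insert h0 (Set.range s0))).map ψ :=
      mem_map_of_mem h1
    rw [map_span, hψ3 v hv, Set.image_insert_eq, ← Set.range_comp] at h2
    exact h2
  -- points of Delta
  have hDP : ∀ v : V, v ∈ H → v ≠ 0 → (π v ∈ contr π E ↔ DPt (ψ h0) (fun i => ψ (s0 i)) v) := by
    intro v hv hv0
    have h1 : π v ∈ (contr π E : Set W) ↔ _ := hD (π v)
    rw [Finset.mem_coe] at h1
    rw [h1]
    constructor
    · rintro (h | ⟨i, h⟩ | ⟨i, h⟩)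
      · left; rw [← h, hψ3 v hv]
      · right; left
        refine ⟨i, ?_⟩
        show v = ψ (s0 i)
        rw [← h, hψ3 v hv]
      · right; right
        refine ⟨i, ?_⟩
        show v = ψ (s0 i) + ψ (s0 (i + 1))
        rw [← map_add, ← h, hψ3 v hv]
    · rintro (h | ⟨i, h⟩ | ⟨i, h⟩)
      · left; rw [h, hψ1]
      · right; left; exact ⟨i, by rw [h]; exact hψ1 _⟩
      · right; right
        refine ⟨i, ?_⟩
        rw [h]
        show π (ψ (s0 i) + ψ (s0 (i + 1))) = _
        rw [map_add, hψ1, hψ1]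
  have hDH : ∀ v, DPt (ψ h0) (fun i => ψ (s0 i)) v → v ∈ H := by
    rintro v (h | ⟨i, h⟩ | ⟨i, h⟩)
    · rw [h]; exact hψ2 _
    · rw [h]; exact hψ2 _
    · rw [h]; exact H.add_mem (hψ2 _) (hψ2 _)
  have hcontr : ∀ w, w ∈ contr π E ↔ w ≠ 0 ∧ ∃ x ∈ E, π x = w := by
    intro w
    simp [contr, Finset.mem_erase, Finset.mem_image]
  have hDC : ∀ v, DPt (ψ h0) (fun i => ψ (s0 i)) v → π v ∈ contr π E := by
    intro v hv
    have h1 : π v ∈ (contr π E : Set W) := by
      rw [hD (π v)]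
      rcases hv with h | ⟨i, h⟩ | ⟨i, h⟩
      · left; rw [h, hψ1]
      · right; left; exact ⟨i, by rw [h]; exact hψ1 _⟩
      · right; right
        refine ⟨i, ?_⟩
        rw [h]
        show π (ψ (s0 i) + ψ (s0 (i + 1))) = _
        rw [map_add, hψ1, hψ1]
    exact h1
  have hpres : ∀ v, v ∈ E → Pres (E : Set V) ⊥ v := fun v hv =>
    ⟨v, hv, by rw [lconf_add_self]; exact zero_mem _⟩
  have hE1 : ∀ v ∈ E, v ∈ H → DPt (ψ h0) (fun i => ψ (s0 i)) v := by
    intro v hv hvH
    have hv0 : v ≠ 0 := fun h => h0E (h ▸ hv)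
    rw [← hDP v hvH hv0, hcontr]
    refine ⟨?_, v, hv, rfl⟩
    intro h
    rcases (hker v).1 h with h | h
    · exact hv0 h
    · exact hgH (h ▸ hvH)
  have hE2 : ∀ v ∈ E, v ∉ H → v = g ∨ DPt (ψ h0) (fun i => ψ (s0 i)) (v + g) := by
    intro v hv hvH
    by_cases hvg : v = g
    · exact Or.inl hvg
    · right
      have hv0 : v ≠ 0 := fun h => h0E (h ▸ hv)
      have h1 : v = ψ (π v) + g := by
        rcases hcls v with h | h
        · exact absurd (h ▸ hψ2 _) hvH
        · exact h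
      have h2 : v + g = ψ (π v) := by
        nth_rewrite 1 [h1]
        rw [lconf_add_cancel]
      have h3 : v + g ∈ H := by rw [h2]; exact hψ2 _
      have h4 : v + g ≠ 0 := by
        intro h
        apply hvg
        have := lconf_eq_of_add h
        rwa [zero_add] at this
      rw [← hDP _ h3 h4, hcontr]
      have h5 : π (v + g) = π v := by
        rw [map_add, (hker g).2 (Or.inr rfl), add_zero]
      refine ⟨?_, v, hv, h5.symm⟩
      rw [h5]
      intro h
      rcases (hker v).1 h with h | h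
      · exact hv0 h
      · exact hvg h
  refine ⟨ψ h0, fun i => ψ (s0 i), ?_, hV, hψ2 _, fun i => hψ2 _, hE1, hE2⟩
  have hgS : g ∈ span (ZMod 2) ((E : Set V) \ (H : Set V)) := subset_span ⟨hgE, hgH⟩
  refine ⟨bot_le, hpres g hgE, ?_, ?_, bot_le, ?_, ?_, ?_, ?_⟩
  · intro i
    show ψ (s0 (i + n)) = ψ (s0 i) + ψ h0
    rw [htw, map_add]
  · have htop : (⊥ : Submodule (ZMod 2) V) ⊔
        span (ZMod 2) ({g, ψ h0} ∪ Set.range (fun i => ψ (s0 i))) = ⊤ := by
      rw [bot_sup_eq, eq_top_iff]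
      intro v _
      have hle : H ≤ span (ZMod 2) ({g, ψ h0} ∪ Set.range (fun i => ψ (s0 i))) := by
        refine hHsp.trans (span_mono ?_)
        rintro x (hx | hx)
        · left; right; exact hx
        · right; exact hx
      have hgm : g ∈ span (ZMod 2) ({g, ψ h0} ∪ Set.range (fun i => ψ (s0 i))) :=
        subset_span (Or.inl (Or.inl rfl))
      rcases hcls v with h | h
      · rw [h]; exact hle (hψ2 _)
      · rw [h]; exact add_mem (hle (hψ2 _)) hgm
    rw [htop, finrank_bot, finrank_top, hV, zero_add]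
  · rw [bot_sup_eq]
    exact inf_le_right.trans hHsp
  · have h1 := Submodule.finrank_sup_add_finrank_inf_eq
      (span (ZMod 2) ((E : Set V) \ (H : Set V))) H
    have h2 : H < span (ZMod 2) ((E : Set V) \ (H : Set V)) ⊔ H := by
      refine lt_of_le_of_ne le_sup_right ?_
      intro h
      apply hgH
      rw [h]
      exact mem_sup_left hgS
    have h3 := Submodule.finrank_lt_finrank_of_lt h2
    have h4 := Submodule.finrank_le
      (span (ZMod 2) ((E : Set V) \ (H : Set V)) ⊔ H)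
    rw [finrank_bot]
    omega
  · intro v hv
    have hvH := hDH v hv
    have hc := (hcontr _).1 (hDC v hv)
    obtain ⟨hne, x, hx, hxv⟩ := hc
    have h1 : π (x + v) = 0 := by rw [map_add, hxv, lconf_add_self]
    rcases (hker _).1 h1 with h | h
    · left
      have h2 := lconf_eq_of_add h
      rw [zero_add] at h2
      exact hpres v (h2 ▸ hx)
    · right
      have h2 := lconf_eq_of_add h
      have h3 : v + g ∈ E := by
        rw [add_comm, ← h2]; exact hx
      have h4 : v + g ∉ H := by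
        intro h5
        apply hgH
        have h6 := H.add_mem hvH h5
        rwa [← add_assoc, lconf_add_self, zero_add] at h6
      refine ⟨⟨?_, hvH⟩, hpres _ h3⟩
      have h5 : v + g + g ∈ span (ZMod 2) ((E : Set V) \ (H : Set V)) :=
        add_mem (subset_span ⟨h3, h4⟩) hgS
      rwa [lconf_add_cancel] at h5
  · rw [bot_sup_eq]
    rintro v ⟨hvS, hvH⟩
    set Y : Set V := {v | DPt (ψ h0) (fun i => ψ (s0 i)) v ∧
      v ∈ span (ZMod 2) ((E : Set V) \ (H : Set V)) ⊓ H ∧ Pres (E : Set V) ⊥ (v + g)} with hY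
    have hYH : span (ZMod 2) Y ≤ H := by
      rw [span_le]
      intro y hy
      exact hy.2.1.2
    have hle : span (ZMod 2) ((E : Set V) \ (H : Set V)) ≤ span (ZMod 2) {g} ⊔ span (ZMod 2) Y := by
      rw [span_le]
      rintro x ⟨hxE, hxH⟩
      rcases hE2 x hxE hxH with h | h
      · rw [h]
        exact mem_sup_left (mem_span_singleton_self g)
      · have h1 : x + g ∈ Y := by
          refine ⟨h, ⟨?_, hDH _ h⟩, ?_⟩
          · exact add_mem (subset_span ⟨hxE, hxH⟩) hgS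
          · rw [lconf_add_cancel]
            exact hpres x hxE
        have h2 : x = g + (x + g) := by
          rw [add_comm, lconf_add_cancel]
        show x ∈ span (ZMod 2) {g} ⊔ span (ZMod 2) Y
        rw [h2]
        exact add_mem (mem_sup_left (mem_span_singleton_self g))
          (mem_sup_right (subset_span h1))
    obtain ⟨a, ha, y, hy, hay⟩ := mem_sup.1 (hle hvS)
    rw [← hkerspan, LinearMap.mem_ker, hker] at ha
    rcases ha with ha | ha
    · rw [ha, zero_add] at hay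
      rw [← hay]; exact hy
    · exfalso
      apply hgH
      have h1 : a = v + y := lconf_eq_of_add hay
      rw [← ha, h1]
      exact H.add_mem hvH (hYH hy)

end Pool.Agent.WW

end

section

/-!
Item LC of the lemma L4: rotation of the configuration, coordinate functionals, and
independence modulo `K`.
-/

namespace Pool.Agent.WW

open Submodule Module

section LFun

variable {V : Type*} [AddCommGroup V] [Module (ZMod 2) V]

/-- independence modulo `K` from a dimension count -/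
theorem lf_indep [FiniteDimensional (ZMod 2) V] {m : ℕ} (b : Fin m → V)
    (K : Submodule (ZMod 2) V)
    (hd : finrank (ZMod 2) K + m ≤ finrank (ZMod 2) ↥(K ⊔ span (ZMod 2) (Set.range b))) :
    LinearIndependent (ZMod 2) (fun i => K.mkQ (b i)) := by
  rw [linearIndependent_iff_card_le_finrank_span, Fintype.card_fin]
  have h1 : span (ZMod 2) (Set.range fun i => K.mkQ (b i)) =
      (K ⊔ span (ZMod 2) (Set.range b)).map K.mkQ := by
    rw [Submodule.map_sup, Submodule.map_span, ← Set.range_comp]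
    have : K.map K.mkQ = ⊥ := by
      rw [eq_bot_iff]
      rintro _ ⟨y, hy, rfl⟩
      simpa using hy
    rw [this, bot_sup_eq]
    rfl
  rw [Set.finrank, h1]
  have h2 := LinearMap.finrank_range_add_finrank_ker
    (K.mkQ.domRestrict (K ⊔ span (ZMod 2) (Set.range b)))
  have h3 : (K.mkQ.domRestrict (K ⊔ span (ZMod 2) (Set.range b))).range =
      (K ⊔ span (ZMod 2) (Set.range b)).map K.mkQ := by
    rw [LinearMap.range_domRestrict]
  have h4 : finrank (ZMod 2)
      ↥(K.mkQ.domRestrict (K ⊔ span (ZMod 2) (Set.range b))).ker ≤ finrank (ZMod 2) K := by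
    have h5 : (K.mkQ.domRestrict (K ⊔ span (ZMod 2) (Set.range b))).ker =
        K.comap (K ⊔ span (ZMod 2) (Set.range b)).subtype := by
      ext y
      simp [LinearMap.domRestrict_apply]
    rw [h5]
    have h7 : finrank (ZMod 2) ↥(K.comap (K ⊔ span (ZMod 2) (Set.range b)).subtype) =
        finrank (ZMod 2) ↥((K.comap (K ⊔ span (ZMod 2) (Set.range b)).subtype).map
          (K ⊔ span (ZMod 2) (Set.range b)).subtype) :=
      (Submodule.finrank_map_subtype_eq _ _).symm
    rw [h7]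
    exact Submodule.finrank_mono (Submodule.map_comap_le _ _)
  rw [h3] at h2
  omega

/-- the family `g, h, s 0, ..., s (n - 1)` -/
def lfB (g h : V) (s : ℕ → V) (n : ℕ) : Fin (n + 2) → V :=
  fun i => if (i : ℕ) = 0 then g else if (i : ℕ) = 1 then h else s ((i : ℕ) - 2)

theorem lf_span {g h : V} {s : ℕ → V} {n : ℕ} (hn : 1 ≤ n) (tw : ∀ i, s (i + n) = s i + h) :
    span (ZMod 2) ({g, h} ∪ Set.range s) ≤ span (ZMod 2) (Set.range (lfB g h s n)) := by
  have hm : ∀ i, lfB g h s n i ∈ span (ZMod 2) (Set.range (lfB g h s n)) := fun i =>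
    subset_span ⟨i, rfl⟩
  have hg : g ∈ span (ZMod 2) (Set.range (lfB g h s n)) := by
    have := hm ⟨0, by omega⟩
    simpa [lfB] using this
  have hh : h ∈ span (ZMod 2) (Set.range (lfB g h s n)) := by
    have := hm ⟨1, by omega⟩
    simpa [lfB] using this
  rw [span_le]
  rintro y (hy | ⟨i, rfl⟩)
  · rcases hy with rfl | rfl
    · exact hg
    · exact hh
  · refine ht_periodic (Q := fun i => s i ∈ span (ZMod 2) (Set.range (lfB g h s n)))
      (show 0 < n by omega) (fun j hj => ?_) (fun j hj => ?_) i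
    · have := hm ⟨j + 2, by omega⟩
      simpa [lfB] using this
    · rw [tw]
      exact add_mem hj hh

theorem lf_li [FiniteDimensional (ZMod 2) V] {E : Set V} {K Γ : Submodule (ZMod 2) V}
    {g h : V} {s : ℕ → V} {n : ℕ} (hn : 1 ≤ n) (C : CoD E K Γ g h s n) :
    LinearIndependent (ZMod 2) (fun i => K.mkQ (lfB g h s n i)) := by
  apply lf_indep
  exact C.dim.trans (Submodule.finrank_mono (sup_le_sup_left (lf_span hn C.tw) K))

theorem lf_functionals [FiniteDimensional (ZMod 2) V] {E : Set V}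
    {K Γ : Submodule (ZMod 2) V} {g h : V} {s : ℕ → V} {n : ℕ} (hn : 1 ≤ n)
    (C : CoD E K Γ g h s n) : ∃ f : ℕ → V →ₗ[ZMod 2] ZMod 2, Fun K g h s n f := by
  classical
  have hli := lf_li hn C
  set T : (Fin (n + 2) → ZMod 2) →ₗ[ZMod 2] V ⧸ K :=
    Fintype.linearCombination (ZMod 2) (fun i => K.mkQ (lfB g h s n i)) with hT
  have hTi : T.ker = ⊥ := by
    rw [LinearMap.ker_eq_bot']
    intro c hc
    rw [hT, Fintype.linearCombination_apply] at hc
    exact funext (Fintype.linearIndependent_iff.1 hli c hc)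
  obtain ⟨L, hL⟩ := LinearMap.exists_leftInverse_of_injective T hTi
  have hLb : ∀ i, L (K.mkQ (lfB g h s n i)) = Pi.single i 1 := by
    intro i
    have h1 : T (Pi.single i 1) = K.mkQ (lfB g h s n i) := by
      rw [hT, Fintype.linearCombination_apply_single, one_smul]
    rw [← h1]
    exact LinearMap.congr_fun hL (Pi.single i 1)
  have hkn : ∀ k, k % n + 2 < n + 2 := fun k => by
    have := Nat.mod_lt k (show 0 < n by omega)
    omega
  refine ⟨fun k => (LinearMap.proj (⟨k % n + 2, hkn k⟩ : Fin (n + 2))) ∘ₗ L ∘ₗ K.mkQ, fun k => ?_⟩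
  have hg : L (K.mkQ g) = Pi.single ⟨0, by omega⟩ 1 := by
    have := hLb ⟨0, by omega⟩
    simpa [lfB] using this
  have hh : L (K.mkQ h) = Pi.single ⟨1, by omega⟩ 1 := by
    have := hLb ⟨1, by omega⟩
    simpa [lfB] using this
  have fh : ((LinearMap.proj (⟨k % n + 2, hkn k⟩ : Fin (n + 2))) ∘ₗ L ∘ₗ K.mkQ) h = 0 := by
    rw [LinearMap.comp_apply, LinearMap.comp_apply, hh, LinearMap.proj_apply, Pi.single_apply,
      if_neg]
    intro e
    have := congrArg Fin.val e
    simp at this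
  refine ⟨fun v hv => ?_, ?_, fh, fun i => ?_⟩
  · have : K.mkQ v = 0 := (Submodule.Quotient.mk_eq_zero K).2 hv
    rw [LinearMap.comp_apply, LinearMap.comp_apply, this, map_zero, map_zero]
  · rw [LinearMap.comp_apply, LinearMap.comp_apply, hg, LinearMap.proj_apply, Pi.single_apply,
      if_neg]
    intro e
    have := congrArg Fin.val e
    simp at this
  · refine ht_periodic (Q := fun i => ((LinearMap.proj (⟨k % n + 2, hkn k⟩ : Fin (n + 2))) ∘ₗ L
      ∘ₗ K.mkQ) (s i) = if i % n = k % n then 1 else 0) (show 0 < n by omega)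
      (fun j hj => ?_) (fun j hj => ?_) i
    · have h1 : L (K.mkQ (s j)) = Pi.single ⟨j + 2, by omega⟩ 1 := by
        have := hLb ⟨j + 2, by omega⟩
        simpa [lfB] using this
      change ((LinearMap.proj (⟨k % n + 2, hkn k⟩ : Fin (n + 2))) ∘ₗ L ∘ₗ K.mkQ) (s j) = _
      rw [LinearMap.comp_apply, LinearMap.comp_apply, h1, LinearMap.proj_apply, Pi.single_apply]
      rw [Nat.mod_eq_of_lt hj]
      by_cases hjk : j = k % n
      · rw [if_pos hjk, if_pos]
        exact Fin.ext (by simp [hjk])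
      · rw [if_neg hjk, if_neg]
        intro e
        have := congrArg Fin.val e
        simp only at this
        omega
    · rw [C.tw, map_add, fh, add_zero, Nat.add_mod_right]
      exact hj

theorem lf_zero [FiniteDimensional (ZMod 2) V] {E : Set V}
    {K Γ : Submodule (ZMod 2) V} {g h : V} {s : ℕ → V} {n : ℕ} (hn : 1 ≤ n)
    (C : CoD E K Γ g h s n) {v : V} (hv : v ∈ span (ZMod 2) (insert h (Set.range s)))
    (hK : v ∈ K) : v = 0 := by
  have hli := lf_li hn C
  have h1 : v ∈ span (ZMod 2) (Set.range (lfB g h s n)) := by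
    refine lf_span (g := g) hn C.tw (span_mono ?_ hv)
    rintro y (rfl | hy)
    · exact Or.inl (Or.inr rfl)
    · exact Or.inr hy
  rw [Submodule.mem_span_range_iff_exists_fun] at h1
  obtain ⟨c, hc⟩ := h1
  have h2 : ∑ i, c i • K.mkQ (lfB g h s n i) = 0 := by
    have h3 : K.mkQ v = 0 := (Submodule.Quotient.mk_eq_zero K).2 hK
    rw [← h3, ← hc, map_sum]
    exact Finset.sum_congr rfl fun i _ => (map_smul _ _ _).symm
  have h4 := Fintype.linearIndependent_iff.1 hli c h2
  rw [← hc]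
  exact Finset.sum_eq_zero fun i _ => by rw [h4 i, zero_smul]

theorem lf_dpt {h : V} {s : ℕ → V} {n : ℕ} (hn : 1 ≤ n) (tw : ∀ i, s (i + n) = s i + h)
    (k : ℕ) (v : V) : DPt h (fun i => s (i + k)) v ↔ DPt h s v := by
  constructor
  · rintro (h1 | ⟨i, h1⟩ | ⟨i, h1⟩)
    · exact Or.inl h1
    · exact Or.inr (Or.inl ⟨i + k, h1⟩)
    · refine Or.inr (Or.inr ⟨i + k, ?_⟩)
      rw [h1]
      change s (i + k) + s (i + 1 + k) = _
      rw [show i + 1 + k = i + k + 1 by omega]
  · have hk : ∀ i, ∃ j, j + k = i + 2 * n * k := by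
      intro i
      refine ⟨i + 2 * n * k - k, ?_⟩
      have : k ≤ 2 * n * k := Nat.le_mul_of_pos_left k (by omega)
      omega
    rintro (h1 | ⟨i, h1⟩ | ⟨i, h1⟩)
    · exact Or.inl h1
    · obtain ⟨j, hj⟩ := hk i
      refine Or.inr (Or.inl ⟨j, ?_⟩)
      change v = s (j + k)
      rw [hj, ht_period tw, h1]
    · obtain ⟨j, hj⟩ := hk i
      refine Or.inr (Or.inr ⟨j, ?_⟩)
      change v = s (j + k) + s (j + 1 + k)
      rw [show j + 1 + k = j + k + 1 by omega, hj,
        show i + 2 * n * k + 1 = i + 1 + 2 * n * k by omega, ht_period tw, ht_period tw, h1]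

theorem lf_sh3 {E : Set V} {K Γ : Submodule (ZMod 2) V} {g h : V} {s : ℕ → V} {n : ℕ}
    (hn : 1 ≤ n) (tw : ∀ i, s (i + n) = s i + h) (k : ℕ) {x y z : V}
    (H : Sh3 E K Γ g h (fun i => s (i + k)) x y z) : Sh3 E K Γ g h s x y z :=
  fun v hv => H v ((lf_dpt hn tw k v).2 hv)

theorem lf_rotate [FiniteDimensional (ZMod 2) V] {E : Set V}
    {K Γ : Submodule (ZMod 2) V} {g h : V} {s : ℕ → V} {n : ℕ} (hn : 1 ≤ n)
    (C : CoD E K Γ g h s n) (k : ℕ) : CoD E K Γ g h (fun i => s (i + k)) n := by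
  refine ⟨C.gen, C.pg, fun i => ?_, ?_, C.KG, ?_, C.fr, fun v hv => ?_, ?_⟩
  · rw [← C.tw]; congr 1; omega
  · rw [ht_range hn C.tw k]
    exact C.dim
  · rw [ht_range hn C.tw k]
    exact C.GH
  · exact C.p1 v ((lf_dpt hn C.tw k v).1 hv)
  · refine C.p2.trans (sup_le_sup_left (span_mono ?_) K)
    rintro v ⟨h1, h2, h3⟩
    exact ⟨(lf_dpt hn C.tw k v).2 h1, h2, h3⟩

theorem lf_shape {E : Set V} {K Γ : Submodule (ZMod 2) V} {g h : V} {s : ℕ → V} {n : ℕ}
    (hn : 1 ≤ n) (tw : ∀ i, s (i + n) = s i + h) (k i : ℕ)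
    (H : ShapeAt E K Γ g h (fun i => s (i + k)) i) : ShapeAt E K Γ g h s (i + k) := by
  unfold ShapeAt at H ⊢
  simp only [] at H
  rw [show i + 1 + k = i + k + 1 by omega, show i + 2 + k = i + k + 2 by omega] at H
  rcases H with ⟨h1, h2⟩ | ⟨h1, h2⟩ | ⟨h1, h2⟩ | ⟨h1, h2⟩ | ⟨h1, h2⟩ | ⟨h1, h2⟩
  · exact Or.inl ⟨lf_sh3 hn tw k h1, h2⟩
  · exact Or.inr (Or.inl ⟨lf_sh3 hn tw k h1, h2⟩)
  · exact Or.inr (Or.inr (Or.inl ⟨lf_sh3 hn tw k h1, h2⟩))
  · exact Or.inr (Or.inr (Or.inr (Or.inl ⟨lf_sh3 hn tw k h1, h2⟩)))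
  · exact Or.inr (Or.inr (Or.inr (Or.inr (Or.inl ⟨lf_sh3 hn tw k h1, h2⟩))))
  · exact Or.inr (Or.inr (Or.inr (Or.inr (Or.inr ⟨lf_sh3 hn tw k h1, h2⟩))))

end LFun

universe u

/-- item LC -/
theorem kLFun : KLFun.{u} := by
  intro V _ _ _ E K Γ g h s n hn C
  exact ⟨fun k => ⟨lf_rotate hn C k, fun i => lf_shape hn C.tw k i⟩, lf_functionals hn C,
    fun v hv hK => lf_zero hn C hv hK⟩

end Pool.Agent.WW

end
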