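import Pool.Agent.Work.MP_a8f287_co.Bd.B11

/-! Bundle of small proof modules (one section per former module). -/

section

/-!
Item LI: `Delta` with one more spoke.
-/

namespace Pool.Agent.WW

open Submodule Module

universe u

section Ins

variable {V : Type*} [AddCommGroup V] [Module (ZMod 2) V]

theorem ins_tw {N : ℕ} (hN : 0 < N) (h : V) (u : ℕ → V) (i : ℕ) :
    redS N h u (i + N) = redS N h u i + h := by
  simp only [redS]
  rw [Nat.add_mod_right, Nat.add_div_right i hN, Nat.cast_succ, add_smul, one_smul, add_assoc]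

theorem ins_lt {N : ℕ} (h : V) (u : ℕ → V) {i : ℕ} (hi : i < N) : redS N h u i = u i := by
  simp only [redS]
  rw [Nat.mod_eq_of_lt hi, Nat.div_eq_of_lt hi, Nat.cast_zero, zero_smul, add_zero]

theorem ins_hh (a c h : V) : a + h + (c + h) = a + c := by
  have : a + h + (c + h) = a + c + (h + h) := by abel
  rw [this, mf_add_self, add_zero]

theorem ins_span [FiniteDimensional (ZMod 2) V] {g h : V} {s : ℕ → V} {n : ℕ}
    (hn : 2 ≤ n) (tw : ∀ i, s (i + n) = s i + h) (U : Submodule (ZMod 2) V)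
    (hg : g ∈ U) (hh : h ∈ U) (hs : ∀ i < n, s i ∈ U) :
    span (ZMod 2) ({g, h} ∪ Set.range s) ≤ U := by
  rw [span_le]
  rintro y (hy | ⟨i, rfl⟩)
  · rcases hy with rfl | rfl
    · exact hg
    · exact hh
  · refine ht_periodic (Q := fun i => s i ∈ U) (show 0 < n by omega) hs (fun j hj => ?_) i
    change s (j + n) ∈ U
    rw [tw]
    exact add_mem hj hh

theorem ins_top [FiniteDimensional (ZMod 2) V] {E : Set V} {Γ : Submodule (ZMod 2) V} {g h : V}
    {s : ℕ → V} {n : ℕ} (C : CoD E ⊥ Γ g h s n) (hV : finrank (ZMod 2) V = n + 2) :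
    span (ZMod 2) ({g, h} ∪ Set.range s) = ⊤ := by
  apply Submodule.eq_top_of_finrank_eq
  have h1 := C.dim
  rw [finrank_bot, bot_sup_eq] at h1
  have h2 := Submodule.finrank_le (span (ZMod 2) ({g, h} ∪ Set.range s))
  omega

theorem ins_fun [FiniteDimensional (ZMod 2) V] {E : Set V} {Γ : Submodule (ZMod 2) V} {g h : V}
    {s : ℕ → V} {n : ℕ} (hn : 2 ≤ n) (C : CoD E ⊥ Γ g h s n)
    (hV : finrank (ZMod 2) V = n + 2) :
    ∃ φ0 φ1 φh : V →ₗ[ZMod 2] ZMod 2, (∀ j < n, φ0 (s j) = if j = 0 then 1 else 0) ∧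
      (∀ j < n, φ1 (s j) = if j = 1 then 1 else 0) ∧ (∀ j < n, φh (s j) = 0) ∧
      φ0 h = 0 ∧ φ1 h = 0 ∧ φh h = 1 := by
  set c : Fin (n + 2) → V := Fin.cons g (Fin.cons h fun i : Fin n => s i) with hc
  have c1 : c (Fin.succ 0) = h := by rw [hc, Fin.cons_succ, Fin.cons_zero]
  have cs : ∀ j : Fin n, c (Fin.succ (Fin.succ j)) = s j := fun j => by
    rw [hc, Fin.cons_succ, Fin.cons_succ]
  have hle : ⊤ ≤ span (ZMod 2) (Set.range c) := by
    rw [← ins_top C hV]
    refine ins_span hn C.tw _ (subset_span ⟨0, ?_⟩) (subset_span ⟨Fin.succ 0, c1⟩) fun i hi => ?_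
    · rw [hc, Fin.cons_zero]
    · exact subset_span ⟨Fin.succ (Fin.succ ⟨i, hi⟩), cs _⟩
  have hli : LinearIndependent (ZMod 2) c :=
    linearIndependent_of_top_le_span_of_card_eq_finrank hle (by rw [Fintype.card_fin, hV])
  let B := Basis.mk hli hle
  have hB : ∀ i, B i = c i := fun i => by
    show Basis.mk hli hle i = c i
    rw [Basis.mk_apply]
  have hco : ∀ k j, B.coord k (c j) = if j = k then 1 else 0 := by
    intro k j
    rw [← hB j, Basis.coord_apply, Basis.repr_self, Finsupp.single_apply]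
  refine ⟨B.coord (Fin.succ (Fin.succ ⟨0, by omega⟩)),
    B.coord (Fin.succ (Fin.succ ⟨1, by omega⟩)), B.coord (Fin.succ 0), ?_, ?_, ?_, ?_, ?_, ?_⟩
  · intro j hj
    rw [← cs ⟨j, hj⟩, hco]
    simp [Fin.ext_iff]
  · intro j hj
    rw [← cs ⟨j, hj⟩, hco]
    simp [Fin.ext_iff]
  · intro j hj
    rw [← cs ⟨j, hj⟩, hco]
    simp [Fin.ext_iff]
  · rw [← c1, hco]
    simp [Fin.ext_iff]
  · rw [← c1, hco]
    simp [Fin.ext_iff]
  · rw [← c1, hco]
    simp

end Ins

theorem ins_main (V : Type u) [AddCommGroup V] [Module (ZMod 2) V]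
    [FiniteDimensional (ZMod 2) V] (E : Set V) (H Γ : Submodule (ZMod 2) V) (g h : V)
    (s : ℕ → V) (n : ℕ) (hn : 2 ≤ n) (C : CoD E ⊥ Γ g h s n)
    (hV : finrank (ZMod 2) V = n + 2)
    (hH : ∀ v ∈ E, v ∈ H → DPt h s v) (h01 : s 0 + s 1 ∉ E)
    (hP : ∀ v, DPt h s v → v ≠ s 0 + s 1 → v ∈ E) (w : V) (hw : w = s 0 ∨ w = s 1)
    (hE : ∀ v, v ∈ E ∧ v ∉ H ↔ v = g ∨ v = w + g ∨ v = w + h + g ∨ v = s 0 + s 1 + g) :
    IsDel (n + 1) E := by
  obtain ⟨φ0, φ1, φh, f0, f1, fh, f0h, f1h, fhh⟩ := ins_fun hn C hV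
  have hn0 : 0 < n := by omega
  have tw := C.tw
  -- points of `Delta` different from the rim `s 0 + s 1`
  have r0 : φ0 (s 0 + s 1) = 1 := by
    rw [map_add, f0 0 hn0, f0 1 (by omega)]; simp
  have r1 : φ1 (s 0 + s 1) = 1 := by
    rw [map_add, f1 0 hn0, f1 1 (by omega)]; simp
  have rh : φh (s 0 + s 1) = 0 := by
    rw [map_add, fh 0 hn0, fh 1 (by omega), add_zero]
  have eh : h ∈ E := by
    refine hP h (Or.inl rfl) fun e => ?_
    rw [← e, f0h] at r0
    exact zero_ne_one r0
  have es : ∀ i, s i ∈ E := by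
    intro i
    refine hP _ (Or.inr (Or.inl ⟨i, rfl⟩)) fun e => ?_
    have hq : φ0 (s i) = 0 ∨ φ1 (s i) = 0 := by
      refine ht_periodic (Q := fun i => φ0 (s i) = 0 ∨ φ1 (s i) = 0) hn0 (fun j hj => ?_)
        (fun j hj => ?_) i
      · rcases Nat.eq_zero_or_pos j with h1 | h1
        · right
          rw [f1 j hj, if_neg (by omega)]
        · left
          rw [f0 j hj, if_neg (by omega)]
      · change φ0 (s (j + n)) = 0 ∨ φ1 (s (j + n)) = 0
        rw [tw, map_add, map_add, f0h, f1h, add_zero, add_zero]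
        exact hj
    rcases hq with h1 | h1
    · rw [e, r0] at h1
      exact one_ne_zero h1
    · rw [e, r1] at h1
      exact one_ne_zero h1
  have esh : ∀ i, s i + h ∈ E := fun i => by
    rw [← tw]; exact es _
  have er : ∀ j, 1 ≤ j → j < n → s j + s (j + 1) ∈ E := by
    intro j hj1 hj
    refine hP _ (Or.inr (Or.inr ⟨j, rfl⟩)) fun e => ?_
    by_cases h1 : j + 1 < n
    · have h2 : φ0 (s j + s (j + 1)) = 0 := by
        rw [map_add, f0 j hj, f0 (j + 1) h1, if_neg (by omega), if_neg (by omega), add_zero]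
      rw [e, r0] at h2
      exact one_ne_zero h2
    · have h3 : j + 1 = 0 + n := by omega
      have h2 : φh (s j + s (j + 1)) = 1 := by
        rw [h3, tw, map_add, map_add, fh j hj, fh 0 hn0, fhh]
        simp
      rw [e, rh] at h2
      exact zero_ne_one h2
  -- the new spokes
  set u : ℕ → V := fun i => if i = 0 then s 0 else if i = 1 then w + g else s (i - 1) with hu
  set t : ℕ → V := redS (n + 1) h u with ht
  have hN : 0 < n + 1 := Nat.succ_pos n
  have ttw : ∀ i, t (i + (n + 1)) = t i + h := ins_tw hN h u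
  have tlt : ∀ i, i < n + 1 → t i = u i := fun i hi => ins_lt h u hi
  have t0 : t 0 = s 0 := by
    rw [tlt 0 hN]; simp [hu]
  have t1 : t 1 = w + g := by
    rw [tlt 1 (by omega)]; simp [hu]
  have ts : ∀ j, 1 ≤ j → j ≤ n → t (j + 1) = s j := by
    intro j hj1 hj
    by_cases h1 : j < n
    · rw [tlt (j + 1) (by omega)]
      simp only [hu]
      rw [if_neg (by omega), if_neg (by omega), Nat.add_sub_cancel]
    · have h2 : j = n := by omega
      have h3 := ttw 0
      have h4 := tw 0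
      rw [Nat.zero_add] at h3 h4
      rw [h2, h3, t0, h4]
  have t2 : t 2 = s 1 := ts 1 le_rfl (by omega)
  -- points outside `H`
  have eg : g ∈ E := ((hE g).2 (Or.inl rfl)).1
  have ewg : w + g ∈ E := ((hE _).2 (Or.inr (Or.inl rfl))).1
  have ewhg : w + g + h ∈ E := ((hE _).2 (Or.inr (Or.inr (Or.inl (by abel))))).1
  have esg : s 0 + s 1 + g ∈ E := ((hE _).2 (Or.inr (Or.inr (Or.inr rfl)))).1
  -- the two rims at `t 1`
  have hr : (t 0 + t 1 = g ∧ t 1 + t 2 = s 0 + s 1 + g) ∨
      (t 0 + t 1 = s 0 + s 1 + g ∧ t 1 + t 2 = g) := by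
    rw [t0, t1, t2]
    rcases hw with rfl | rfl
    · left
      constructor
      · rw [← add_assoc, mf_add_self, zero_add]
      · abel
    · right
      constructor
      · abel
      · have : s 1 + g + s 1 = s 1 + s 1 + g := by abel
        rw [this, mf_add_self, zero_add]
  -- all the old spokes are new spokes
  have st : ∀ i, ∃ k, s i = t k := by
    intro i
    refine ht_periodic (Q := fun i => ∃ k, s i = t k) hn0 (fun j hj => ?_) (fun j hj => ?_) i
    · rcases Nat.eq_zero_or_pos j with h1 | h1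
      · exact ⟨0, by rw [h1, t0]⟩
      · exact ⟨j + 1, (ts j h1 hj.le).symm⟩
    · obtain ⟨k, hk⟩ := hj
      exact ⟨k + (n + 1), by rw [tw, ttw, hk]⟩
  have sr : ∀ i, s i + s (i + 1) = s 0 + s 1 ∨ ∃ k, s i + s (i + 1) = t k + t (k + 1) := by
    intro i
    refine ht_periodic (Q := fun i => s i + s (i + 1) = s 0 + s 1 ∨
      ∃ k, s i + s (i + 1) = t k + t (k + 1)) hn0 (fun j hj => ?_) (fun j hj => ?_) i
    · rcases Nat.eq_zero_or_pos j with h1 | h1
      · left; rw [h1]
      · right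
        exact ⟨j + 1, by rw [ts j h1 hj.le, ts (j + 1) (by omega) (by omega)]⟩
    · have e : s (j + n) + s (j + n + 1) = s j + s (j + 1) := by
        rw [show j + n + 1 = j + 1 + n by omega, tw, tw, ins_hh]
      change s (j + n) + s (j + n + 1) = s 0 + s 1 ∨
        ∃ k, s (j + n) + s (j + n + 1) = t k + t (k + 1)
      rw [e]
      exact hj
  refine ⟨h, t, ⟨ttw, ?_, hV⟩, ?_⟩
  · -- independence
    have hm : ∀ i, t i ∈ span (ZMod 2)
        (Set.range (Fin.cons h (fun i : Fin (n + 1) => t i) : Fin (n + 1 + 1) → V)) := by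
      intro i
      have hh : h ∈ span (ZMod 2)
          (Set.range (Fin.cons h (fun i : Fin (n + 1) => t i) : Fin (n + 1 + 1) → V)) :=
        subset_span ⟨0, by rw [Fin.cons_zero]⟩
      refine ht_periodic (Q := fun i => t i ∈ span (ZMod 2)
        (Set.range (Fin.cons h (fun i : Fin (n + 1) => t i) : Fin (n + 1 + 1) → V))) hN
        (fun j hj => ?_) (fun j hj => ?_) i
      · exact subset_span ⟨Fin.succ ⟨j, hj⟩, by rw [Fin.cons_succ]⟩
      · change t (j + (n + 1)) ∈ _
        rw [ttw]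
        exact add_mem hj hh
    have hh : h ∈ span (ZMod 2)
        (Set.range (Fin.cons h (fun i : Fin (n + 1) => t i) : Fin (n + 1 + 1) → V)) :=
      subset_span ⟨0, by rw [Fin.cons_zero]⟩
    have hs : ∀ i, s i ∈ span (ZMod 2)
        (Set.range (Fin.cons h (fun i : Fin (n + 1) => t i) : Fin (n + 1 + 1) → V)) := by
      intro i
      obtain ⟨k, hk⟩ := st i
      rw [hk]
      exact hm k
    refine linearIndependent_of_top_le_span_of_card_eq_finrank ?_
      (by rw [Fintype.card_fin, hV])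
    rw [← ins_top C hV]
    refine ins_span hn tw _ ?_ hh fun i _ => hs i
    have h1 : g = w + t 1 := by
      rw [t1, mf_cancel]
    rw [h1]
    refine add_mem ?_ (hm 1)
    rcases hw with rfl | rfl
    · exact hs 0
    · exact hs 1
  · -- the points
    intro v
    constructor
    · intro hv
      by_cases hvH : v ∈ H
      · rcases hH v hv hvH with h1 | ⟨i, h1⟩ | ⟨i, h1⟩
        · exact Or.inl h1
        · obtain ⟨k, hk⟩ := st i
          exact Or.inr (Or.inl ⟨k, by rw [h1, hk]⟩)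
        · rcases sr i with h2 | ⟨k, h2⟩
          · exact absurd (h2 ▸ h1 ▸ hv) h01
          · exact Or.inr (Or.inr ⟨k, by rw [h1, h2]⟩)
      · rcases (hE v).1 ⟨hv, hvH⟩ with h1 | h1 | h1 | h1
        · rcases hr with ⟨h2, _⟩ | ⟨_, h2⟩
          · exact Or.inr (Or.inr ⟨0, by rw [h1]; exact h2.symm⟩)
          · exact Or.inr (Or.inr ⟨1, by rw [h1]; exact h2.symm⟩)
        · exact Or.inr (Or.inl ⟨1, by rw [h1, t1]⟩)
        · refine Or.inr (Or.inl ⟨1 + (n + 1), ?_⟩)
          rw [ttw, t1, h1]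
          abel
        · rcases hr with ⟨_, h2⟩ | ⟨h2, _⟩
          · exact Or.inr (Or.inr ⟨1, by rw [h1]; exact h2.symm⟩)
          · exact Or.inr (Or.inr ⟨0, by rw [h1]; exact h2.symm⟩)
    · rintro (rfl | ⟨i, rfl⟩ | ⟨i, rfl⟩)
      · exact eh
      · have : t i ∈ E ∧ t i + h ∈ E := by
          refine ht_periodic (Q := fun i => t i ∈ E ∧ t i + h ∈ E) hN (fun j hj => ?_)
            (fun j hj => ?_) i
          · rcases j with _ | _ | j
            · change t 0 ∈ E ∧ t 0 + h ∈ E
              rw [t0]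
              exact ⟨es 0, esh 0⟩
            · change t 1 ∈ E ∧ t 1 + h ∈ E
              rw [t1]
              exact ⟨ewg, ewhg⟩
            · change t (j + 1 + 1) ∈ E ∧ t (j + 1 + 1) + h ∈ E
              rw [ts (j + 1) (by omega) (by omega)]
              exact ⟨es _, esh _⟩
          · change t (j + (n + 1)) ∈ E ∧ t (j + (n + 1)) + h ∈ E
            rw [ttw, ht_add_add]
            exact ⟨hj.2, hj.1⟩
        exact this.1
      · refine ht_periodic (Q := fun i => t i + t (i + 1) ∈ E) hN (fun j hj => ?_)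
          (fun j hj => ?_) i
        · rcases j with _ | _ | j
          · change t 0 + t 1 ∈ E
            rcases hr with ⟨h2, _⟩ | ⟨h2, _⟩
            · rw [h2]; exact eg
            · rw [h2]; exact esg
          · change t 1 + t 2 ∈ E
            rcases hr with ⟨_, h2⟩ | ⟨_, h2⟩
            · rw [h2]; exact esg
            · rw [h2]; exact eg
          · change t (j + 1 + 1) + t (j + 1 + 1 + 1) ∈ E
            rw [ts (j + 1) (by omega) (by omega), ts (j + 1 + 1) (by omega) (by omega)]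
            exact er (j + 1) (by omega) (by omega)
        · change t (j + (n + 1)) + t (j + (n + 1) + 1) ∈ E
          rw [show j + (n + 1) + 1 = j + 1 + (n + 1) by omega, ttw, ttw, ins_hh]
          exact hj

theorem kLIns : KLIns.{u} := by
  intro V _ _ _ E H Γ g h s n hn C _ hV _ _ hH h01 hP hE
  rcases hE with hE | hE
  · exact ins_main V E H Γ g h s n hn C hV hH h01 hP (s 0) (Or.inl rfl) hE
  · exact ins_main V E H Γ g h s n hn C hV hH h01 hP (s 1) (Or.inr rfl) hE

end Pool.Agent.WW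

end

section

/-!
LH: vertical 4-connectivity leaves two shapes.
-/

set_option autoImplicit false

namespace Pool.Agent.WW

open Submodule Module

section

variable {V : Type*} [AddCommGroup V] [Module (ZMod 2) V]

theorem lsh_pres {E : Set V} {v : V} : Pres E ⊥ v ↔ v ∈ E := by
  constructor
  · rintro ⟨x, hx, hxv⟩
    rw [mem_bot] at hxv
    have h1 : x + (x + v) = v := mf_cancel x v
    rw [hxv, add_zero] at h1
    rw [← h1]; exact hx
  · intro h
    exact ⟨v, h, by rw [mf_add_self]; exact zero_mem _⟩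

theorem lsh_z {a : ZMod 2} (h : a ≠ 0) : a = 1 := by
  revert a; decide

theorem lsh_tw {n : ℕ} {h : V} {s : ℕ → V} (tw : ∀ i, s (i + n) = s i + h) (c k : ℕ) :
    s (c + n * k) = s c ∨ s (c + n * k) = s c + h := by
  induction k with
  | zero => left; rw [Nat.mul_zero, Nat.add_zero]
  | succ k ih =>
    have e : c + n * (k + 1) = c + n * k + n := by ring
    rw [e, tw]
    rcases ih with h1 | h1
    · right; rw [h1]
    · left; rw [h1, ht_add_add]

theorem lsh_tw2 {n : ℕ} {h : V} {s : ℕ → V} (tw : ∀ i, s (i + n) = s i + h) (c k : ℕ) :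
    s (c + n * k) + s (c + n * k + 1) = s c + s (c + 1) := by
  induction k with
  | zero => rw [Nat.mul_zero, Nat.add_zero]
  | succ k ih =>
    have e : c + n * (k + 1) = c + n * k + n := by ring
    have e2 : c + n * k + n + 1 = c + n * k + 1 + n := by ring
    rw [e, e2, tw, tw, ← ih]
    have : s (c + n * k) + h + (s (c + n * k + 1) + h) =
        s (c + n * k) + s (c + n * k + 1) + (h + h) := by abel
    rw [this, mf_add_self, add_zero]

theorem lsh_mod {n : ℕ} {h : V} {s : ℕ → V} (tw : ∀ i, s (i + n) = s i + h) {c i : ℕ}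
    (hi : i % n = c) : (s i = s c ∨ s i = s c + h) ∧ s i + s (i + 1) = s c + s (c + 1) := by
  have e : i = c + n * (i / n) := by rw [← hi]; exact (Nat.mod_add_div i n).symm
  have h1 := lsh_tw tw c (i / n)
  have h2 := lsh_tw2 tw c (i / n)
  rw [← e] at h1 h2
  exact ⟨h1, h2⟩

theorem lsh_psi {H : Submodule (ZMod 2) V} {g : V} (hg : g ∉ H) :
    ∃ ψ : V →ₗ[ZMod 2] ZMod 2, ψ g = 1 ∧ ∀ x ∈ H, ψ x = 0 := by
  obtain ⟨ψ, h1, h2⟩ := Submodule.exists_le_ker_of_notMem hg
  exact ⟨ψ, lsh_z h1, fun x hx => h2 hx⟩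

theorem lsh_fin3 [FiniteDimensional (ZMod 2) V] (a b d : V) :
    finrank (ZMod 2) ↥(span (ZMod 2) ({a, b, d} : Set V)) ≤ 3 := by
  classical
  have h1 := finrank_span_finset_le_card (R := ZMod 2) ({a, b, d} : Finset V)
  have h2 : (({a, b, d} : Finset V) : Set V) = {a, b, d} := by simp
  rw [h2] at h1
  exact h1.trans Finset.card_le_three

theorem lsh_fin2 [FiniteDimensional (ZMod 2) V] (a b : V) :
    finrank (ZMod 2) ↥(span (ZMod 2) ({a, b} : Set V)) ≤ 2 := by
  classical
  have h1 := finrank_span_finset_le_card (R := ZMod 2) ({a, b} : Finset V)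
  have h2 : (({a, b} : Finset V) : Set V) = {a, b} := by simp
  rw [h2] at h1
  exact h1.trans Finset.card_le_two

theorem lsh_dim [FiniteDimensional (ZMod 2) V] {E : Set V} (hG : Good E)
    (φ : V →ₗ[ZMod 2] ZMod 2) {g : V} (hg : g ∈ E) (hφ : φ g = 1)
    (hV : 7 ≤ finrank (ZMod 2) V) (a b d : V)
    (h : ∀ x ∈ E, φ x = 1 → x ∈ span (ZMod 2) ({a, b, d} : Set V)) : False := by
  obtain ⟨-, -, hsep, -⟩ := (good_iff_sepGe E).1 hG
  obtain ⟨A, hA⟩ : ∃ A, A = span (ZMod 2) ({a, b, d} : Set V) := ⟨_, rfl⟩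
  have hA3 : finrank (ZMod 2) A ≤ 3 := by rw [hA]; exact lsh_fin3 a b d
  rw [← hA] at h
  have hAtop : A ≠ ⊤ := by
    intro hA2
    rw [hA2, finrank_top] at hA3
    omega
  have hF : LinearMap.ker φ ≠ ⊤ := by
    intro hF
    have : g ∈ LinearMap.ker φ := hF ▸ mem_top
    rw [LinearMap.mem_ker, hφ] at this
    exact one_ne_zero this
  have hcov : ∀ x ∈ E, x ∈ A ∨ x ∈ LinearMap.ker φ := by
    intro x hx
    by_cases hx1 : φ x = 0
    · right; exact hx1
    · left; exact h x hx (lsh_z hx1)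
  have h3 := hsep A (LinearMap.ker φ) hAtop hF hcov
  have hlt : A ⊓ LinearMap.ker φ < A := by
    refine lt_of_le_of_ne inf_le_left ?_
    intro he
    have hgA : g ∈ A := h g hg hφ
    rw [← he] at hgA
    have h4 := hgA.2
    rw [SetLike.mem_coe, LinearMap.mem_ker, hφ] at h4
    exact one_ne_zero h4
  have h5 := Submodule.finrank_lt_finrank_of_lt hlt
  omega

theorem lsh_cut {E : Set V} {H : Submodule (ZMod 2) V} {g h : V} {s : ℕ → V} {n : ℕ}
    (tw : ∀ i, s (i + n) = s i + h)
    (f : V →ₗ[ZMod 2] ZMod 2) (c p : ℕ) (hp : p < n) (hpc : (p + 1) % n = c)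
    (f0 : f g = 0) (fh : f h = 0) (fs : ∀ i, f (s i) = if i % n = c then 1 else 0)
    (ψ : V →ₗ[ZMod 2] ZMod 2) (hψ : ∀ x ∈ H, ψ x = 0) (hψg : ψ g = 1)
    (hh : h ∈ H) (hs : ∀ i, s i ∈ H) (hD : ∀ v ∈ E, v ∈ H → DPt h s v)
    (hD' : ∀ v ∈ E, v ∉ H → v = g ∨ DPt h s (v + g))
    {x : V} (hx : x ∈ E) (hφ : (f + ψ) x = 1) :
    (x ∈ H ∧ (x = s c ∨ x = s c + h ∨ x = s p + s (p + 1) ∨ x = s c + s (c + 1))) ∨ x = g ∨
      (DPt h s (x + g) ∧ f (x + g) = 0) := by
  rw [LinearMap.add_apply] at hφ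
  by_cases hxH : x ∈ H
  · left
    refine ⟨hxH, ?_⟩
    rw [hψ x hxH, add_zero] at hφ
    rcases hD x hx hxH with rfl | ⟨i, rfl⟩ | ⟨i, rfl⟩
    · rw [fh] at hφ
      exact absurd hφ zero_ne_one
    · rw [fs] at hφ
      split_ifs at hφ with hi
      · rcases (lsh_mod tw hi).1 with h1 | h1
        · exact Or.inl h1
        · exact Or.inr (Or.inl h1)
      · exact absurd hφ zero_ne_one
    · by_cases hi : i % n = c
      · exact Or.inr (Or.inr (Or.inr (lsh_mod tw hi).2))
      · rw [map_add, fs, fs, if_neg hi, zero_add] at hφ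
        split_ifs at hφ with hi2
        · have h1 : (i + 1) % n = (p + 1) % n := by rw [hi2, hpc]
          have h2 : i % n = p % n := Nat.ModEq.add_right_cancel' 1 h1
          rw [Nat.mod_eq_of_lt hp] at h2
          exact Or.inr (Or.inr (Or.inl (lsh_mod tw h2).2))
        · exact absurd hφ zero_ne_one
  · right
    rcases hD' x hx hxH with h1 | h1
    · exact Or.inl h1
    · right
      refine ⟨h1, ?_⟩
      have h2 : x + g ∈ H := by
        rcases h1 with h1 | ⟨i, h1⟩ | ⟨i, h1⟩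
        · rw [h1]; exact hh
        · rw [h1]; exact hs i
        · rw [h1]; exact H.add_mem (hs _) (hs _)
      have h3 := hψ _ h2
      rw [map_add, hψg] at h3
      have h4 : ψ x = 1 := by
        have : ∀ a : ZMod 2, a + 1 = 0 → a = 1 := by decide
        exact this _ h3
      rw [h4] at hφ
      have h5 : f x = 0 := by
        have : ∀ a : ZMod 2, a + 1 = 1 → a = 0 := by decide
        exact this _ hφ
      rw [map_add, h5, f0, add_zero]

theorem lsh_all [FiniteDimensional (ZMod 2) V] {Γ : Submodule (ZMod 2) V} {S : Set V}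
    (h3 : finrank (ZMod 2) Γ = 3) (hle : Γ ≤ span (ZMod 2) S) {x y z : V}
    (hS : ∀ v ∈ S, v = x ∨ v = y ∨ v = z) : x ∈ S ∧ y ∈ S ∧ z ∈ S := by
  have key : ∀ a b : V, ¬ S ⊆ {a, b} := by
    intro a b hab
    have h1 := Submodule.finrank_mono (hle.trans (span_mono hab))
    have h2 := lsh_fin2 a b
    omega
  refine ⟨?_, ?_, ?_⟩
  · by_contra hn
    apply key y z
    intro v hv
    rcases hS v hv with rfl | rfl | rfl
    · exact absurd hv hn
    · simp
    · simp
  · by_contra hn
    apply key x z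
    intro v hv
    rcases hS v hv with rfl | rfl | rfl
    · simp
    · exact absurd hv hn
    · simp
  · by_contra hn
    apply key x y
    intro v hv
    rcases hS v hv with rfl | rfl | rfl
    · simp
    · simp
    · exact absurd hv hn

end

universe u

theorem kLShape (hC : KLFun.{u}) : KLShape.{u} := by
  intro V _ _ _ E H g h s n hn hG hH hgE hgH hCo hV hh hs hD hD' hShape
  obtain ⟨-, ⟨f, hf⟩, -⟩ := hC V E ⊥ _ g h s n (by omega) hCo
  obtain ⟨ψ, hψg, hψ⟩ := lsh_psi hgH
  have tw := hCo.tw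
  have hV7 : 7 ≤ finrank (ZMod 2) V := by omega
  obtain ⟨Γ, hΓ⟩ : ∃ Γ, Γ = span (ZMod 2) (E \ (H : Set V)) ⊓ H := ⟨_, rfl⟩
  rw [← hΓ] at hCo hShape
  have hDH : ∀ v, DPt h s v → v ∈ H := by
    rintro v (rfl | ⟨i, rfl⟩ | ⟨i, rfl⟩)
    · exact hh
    · exact hs i
    · exact H.add_mem (hs _) (hs _)
  have hvg : ∀ v, v ∈ H → v + g ∉ H := by
    intro v hv hvg
    apply hgH
    have := H.add_mem hv hvg
    rwa [mf_cancel] at this
  have hDΓ : ∀ v, DPt h s v → v + g ∈ E → v ∈ Γ := by
    intro v hv hvE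
    rw [hΓ]
    refine ⟨?_, hDH v hv⟩
    have h1 : v + g ∈ span (ZMod 2) (E \ (H : Set V)) := subset_span ⟨hvE, hvg v (hDH v hv)⟩
    have h2 : g ∈ span (ZMod 2) (E \ (H : Set V)) := subset_span ⟨hgE, hgH⟩
    have h3 := add_mem h1 h2
    rwa [ht_add_add] at h3
  -- the shifted points
  have hSh : ∀ x y z, Sh3 E ⊥ Γ g h s x y z → (∀ v, DPt h s v → v + g ∈ E → v = x ∨ v = y ∨ v = z) ∧
      (x + g ∈ E ∧ y + g ∈ E ∧ z + g ∈ E) ∧ x ∈ H ∧ y ∈ H ∧ z ∈ H := by
    intro x y z h1
    have h2 := hCo.p2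
    rw [bot_sup_eq] at h2
    have h3 := hCo.fr
    rw [finrank_bot, zero_add] at h3
    obtain ⟨hx, hy, hz⟩ := lsh_all h3 h2 (x := x) (y := y) (z := z)
      (fun v hv => h1 v hv.1 hv.2.1 hv.2.2)
    exact ⟨fun v hv hvE => h1 v hv (hDΓ v hv hvE) (lsh_pres.2 hvE),
      ⟨lsh_pres.1 hx.2.2, lsh_pres.1 hy.2.2, lsh_pres.1 hz.2.2⟩,
      hDH _ hx.1, hDH _ hy.1, hDH _ hz.1⟩
  have hm0 : 0 % n = 0 := Nat.mod_eq_of_lt (by omega)
  have hm1 : 1 % n = 1 := Nat.mod_eq_of_lt (by omega)
  have hm2 : 2 % n = 2 := Nat.mod_eq_of_lt (by omega)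
  have fs0 : ∀ i, f 0 (s i) = if i % n = 0 then 1 else 0 := by
    intro i; rw [(hf 0).2.2.2 i, hm0]
  have fs1 : ∀ i, f 1 (s i) = if i % n = 1 then 1 else 0 := by
    intro i; rw [(hf 1).2.2.2 i, hm1]
  have f00 : f 0 (s 0) = 1 := by rw [fs0, if_pos hm0]
  have f01 : f 0 (s 1) = 0 := by rw [fs0, if_neg (by omega)]
  have f10 : f 1 (s 0) = 0 := by rw [fs1, if_neg (by omega)]
  have f11 : f 1 (s 1) = 1 := by rw [fs1, if_pos hm1]
  have f12 : f 1 (s 2) = 0 := by rw [fs1, if_neg (by omega)]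
  have f0h : f 0 h = 0 := (hf 0).2.2.1
  have f1h : f 1 h = 0 := (hf 1).2.2.1
  have φ0g : (f 0 + ψ) g = 1 := by rw [LinearMap.add_apply, (hf 0).2.1, hψg, zero_add]
  have φ1g : (f 1 + ψ) g = 1 := by rw [LinearMap.add_apply, (hf 1).2.1, hψg, zero_add]
  -- the elements off the two hyperplanes, given the shifted points
  have cut0 := fun {x : V} (hx : x ∈ E) (hφ : (f 0 + ψ) x = 1) =>
    lsh_cut tw (f 0) 0 (n - 1) (by omega)
      (by rw [Nat.sub_add_cancel (by omega), Nat.mod_self]) (hf 0).2.1 f0h fs0 ψ hψ hψg hh hs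
      hD hD' hx hφ
  have cut1 := fun {x : V} (hx : x ∈ E) (hφ : (f 1 + ψ) x = 1) =>
    lsh_cut tw (f 1) 1 0 (by omega) hm1 (hf 1).2.1 f1h fs1 ψ hψ hψg hh hs
      hD hD' hx hφ
  -- the final assembly from two present spokes
  have fin : ∀ a : V, (∀ v, DPt h s v → v + g ∈ E → v = a ∨ v = a + h ∨ v = s 0 + s 1) →
      (a + g ∈ E ∧ a + h + g ∈ E ∧ s 0 + s 1 + g ∈ E) → (a ∈ H ∧ a + h ∈ H ∧ s 0 + s 1 ∈ H) →
      a ∈ E → a + h ∈ E → (∀ v, DPt h s v → v ≠ s 0 + s 1 → v ∈ E) ∧
      (∀ v, v ∈ E ∧ v ∉ H ↔ v = g ∨ v = a + g ∨ v = a + h + g ∨ v = s 0 + s 1 + g) := by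
    intro a h1 h2 h3 h4 h5
    constructor
    · intro v hv hne
      rcases hCo.p1 v hv with h6 | h6
      · exact lsh_pres.1 h6
      · rcases h1 v hv (lsh_pres.1 h6.2) with rfl | rfl | h7
        · exact h4
        · exact h5
        · exact absurd h7 hne
    · intro v
      constructor
      · rintro ⟨hvE, hvH⟩
        rcases hD' v hvE hvH with h6 | h6
        · exact Or.inl h6
        · right
          have h7 : v + g + g = v := ht_add_add v g
          rcases h1 (v + g) h6 (by rw [h7]; exact hvE) with h8 | h8 | h8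
          · left; rw [← h8, h7]
          · right; left; rw [← h8, h7]
          · right; right; rw [← h8, h7]
      · rintro (rfl | rfl | rfl | rfl)
        · exact ⟨hgE, hgH⟩
        · exact ⟨h2.1, hvg _ h3.1⟩
        · exact ⟨h2.2.1, hvg _ h3.2.1⟩
        · exact ⟨h2.2.2, hvg _ h3.2.2⟩
  have m1 : ∀ {a b d x : V}, x = a → x ∈ span (ZMod 2) ({a, b, d} : Set V) := by
    intro a b d x hx; rw [hx]; exact subset_span (by simp)
  have m2 : ∀ {a b d x : V}, x = b → x ∈ span (ZMod 2) ({a, b, d} : Set V) := by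
    intro a b d x hx; rw [hx]; exact subset_span (by simp)
  have m3 : ∀ {a b d x : V}, x = d → x ∈ span (ZMod 2) ({a, b, d} : Set V) := by
    intro a b d x hx; rw [hx]; exact subset_span (by simp)
  have hgx : ∀ {x y : V}, x + g = y → x = y + g := by
    intro x y hxy; rw [← hxy, ht_add_add]
  unfold ShapeAt at hShape
  simp only [zero_add, lsh_pres] at hShape
  rcases hShape with ⟨hS, hr⟩ | ⟨hS, hr⟩ | ⟨hS, hr⟩ | ⟨hS, hr1, hr2⟩ | ⟨hS, hr1, hr2⟩ |
    ⟨hS, hr1, hr2⟩
  · -- first shape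
    obtain ⟨h1, h2, h3⟩ := hSh _ _ _ hS
    have hg0 : ∀ {x : V}, x ∈ E → DPt h s (x + g) ∧ f 0 (x + g) = 0 → False := by
      rintro x hx ⟨h4, h5⟩
      rcases h1 _ h4 (by rw [ht_add_add]; exact hx) with h6 | h6 | h6
      · rw [h6, f00] at h5; exact one_ne_zero h5
      · rw [h6, map_add, f00, f0h, add_zero] at h5; exact one_ne_zero h5
      · rw [h6, map_add, f00, f01, add_zero] at h5; exact one_ne_zero h5
    have ha : s 0 ∈ E := by
      by_contra hna
      refine lsh_dim hG (f 0 + ψ) hgE φ0g hV7 (s 0 + h) (s (n - 1) + s (n - 1 + 1)) g ?_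
      intro x hx hφ
      rcases cut0 hx hφ with ⟨-, h4 | h4 | h4 | h4⟩ | h4 | h4
      · exact absurd (h4 ▸ hx) hna
      · exact m1 h4
      · exact m2 h4
      · exact absurd (h4 ▸ hx) hr
      · exact m3 h4
      · exact (hg0 hx h4).elim
    have hb : s 0 + h ∈ E := by
      by_contra hnb
      refine lsh_dim hG (f 0 + ψ) hgE φ0g hV7 (s 0) (s (n - 1) + s (n - 1 + 1)) g ?_
      intro x hx hφ
      rcases cut0 hx hφ with ⟨-, h4 | h4 | h4 | h4⟩ | h4 | h4
      · exact m1 h4
      · exact absurd (h4 ▸ hx) hnb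
      · exact m2 h4
      · exact absurd (h4 ▸ hx) hr
      · exact m3 h4
      · exact (hg0 hx h4).elim
    obtain ⟨h6, h7⟩ := fin (s 0) h1 h2 h3 ha hb
    exact ⟨hr, h6, Or.inl h7⟩
  · -- second shape
    obtain ⟨h1, h2, h3⟩ := hSh _ _ _ hS
    have hg1 : ∀ {x : V}, x ∈ E → DPt h s (x + g) ∧ f 1 (x + g) = 0 → False := by
      rintro x hx ⟨h4, h5⟩
      rcases h1 _ h4 (by rw [ht_add_add]; exact hx) with h6 | h6 | h6
      · rw [h6, f11] at h5; exact one_ne_zero h5
      · rw [h6, map_add, f11, f1h, add_zero] at h5; exact one_ne_zero h5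
      · rw [h6, map_add, f11, f10, zero_add] at h5; exact one_ne_zero h5
    have ha : s 1 ∈ E := by
      by_contra hna
      refine lsh_dim hG (f 1 + ψ) hgE φ1g hV7 (s 1 + h) (s 1 + s (1 + 1)) g ?_
      intro x hx hφ
      rcases cut1 hx hφ with ⟨-, h4 | h4 | h4 | h4⟩ | h4 | h4
      · exact absurd (h4 ▸ hx) hna
      · exact m1 h4
      · exact absurd (h4 ▸ hx) hr
      · exact m2 h4
      · exact m3 h4
      · exact (hg1 hx h4).elim
    have hb : s 1 + h ∈ E := by
      by_contra hnb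
      refine lsh_dim hG (f 1 + ψ) hgE φ1g hV7 (s 1) (s 1 + s (1 + 1)) g ?_
      intro x hx hφ
      rcases cut1 hx hφ with ⟨-, h4 | h4 | h4 | h4⟩ | h4 | h4
      · exact m1 h4
      · exact absurd (h4 ▸ hx) hnb
      · exact absurd (h4 ▸ hx) hr
      · exact m2 h4
      · exact m3 h4
      · exact (hg1 hx h4).elim
    obtain ⟨h6, h7⟩ := fin (s 1) h1 h2 h3 ha hb
    exact ⟨hr, h6, Or.inr h7⟩
  · -- third shape
    exfalso
    obtain ⟨h1, h2, h3⟩ := hSh _ _ _ hS
    have hg1 : ∀ {x : V}, x ∈ E → DPt h s (x + g) ∧ f 1 (x + g) = 0 → False := by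
      rintro x hx ⟨h4, h5⟩
      rcases h1 _ h4 (by rw [ht_add_add]; exact hx) with h6 | h6 | h6
      · rw [h6, f11] at h5; exact one_ne_zero h5
      · rw [h6, map_add, f11, f10, zero_add] at h5; exact one_ne_zero h5
      · rw [h6, map_add, f11, f12, add_zero] at h5; exact one_ne_zero h5
    rcases hr with ⟨hr1, hr2⟩ | ⟨hr1, hr2⟩ | ⟨hr1, hr2⟩
    · refine lsh_dim hG (f 1 + ψ) hgE φ1g hV7 (s 1 + h) (s 1 + s (1 + 1)) g ?_
      intro x hx hφ
      rcases cut1 hx hφ with ⟨-, h4 | h4 | h4 | h4⟩ | h4 | h4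
      · exact absurd (h4 ▸ hx) hr1
      · exact m1 h4
      · exact absurd (h4 ▸ hx) hr2
      · exact m2 h4
      · exact m3 h4
      · exact (hg1 hx h4).elim
    · refine lsh_dim hG (f 1 + ψ) hgE φ1g hV7 (s 1 + h) (s 0 + s (0 + 1)) g ?_
      intro x hx hφ
      rcases cut1 hx hφ with ⟨-, h4 | h4 | h4 | h4⟩ | h4 | h4
      · exact absurd (h4 ▸ hx) hr1
      · exact m1 h4
      · exact m2 h4
      · exact absurd (h4 ▸ hx) hr2
      · exact m3 h4
      · exact (hg1 hx h4).elim
    · refine lsh_dim hG (f 1 + ψ) hgE φ1g hV7 (s 1) (s 1 + h) g ?_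
      intro x hx hφ
      rcases cut1 hx hφ with ⟨-, h4 | h4 | h4 | h4⟩ | h4 | h4
      · exact m1 h4
      · exact m2 h4
      · exact absurd (h4 ▸ hx) hr1
      · exact absurd (h4 ▸ hx) hr2
      · exact m3 h4
      · exact (hg1 hx h4).elim
  · -- fourth shape
    exfalso
    obtain ⟨h1, h2, h3⟩ := hSh _ _ _ hS
    refine lsh_dim hG (f 1 + ψ) hgE φ1g hV7 (s 1) (s 0) g ?_
    intro x hx hφ
    rcases cut1 hx hφ with ⟨-, h4 | h4 | h4 | h4⟩ | h4 | ⟨h4, h5⟩
    · exact m1 h4
    · exact absurd (h4 ▸ hx) hr1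
    · rw [h4]; exact add_mem (m2 rfl) (m1 rfl)
    · exact absurd (h4 ▸ hx) hr2
    · exact m3 h4
    · rcases h1 _ h4 (by rw [ht_add_add]; exact hx) with h6 | h6 | h6
      · rw [hgx h6]; exact add_mem (m2 rfl) (m3 rfl)
      · rw [h6, map_add, f11, f1h, add_zero] at h5; exact absurd h5 one_ne_zero
      · rw [h6, map_add, f11, f12, add_zero] at h5; exact absurd h5 one_ne_zero
  · -- fifth shape
    exfalso
    obtain ⟨h1, h2, h3⟩ := hSh _ _ _ hS
    refine lsh_dim hG (f 1 + ψ) hgE φ1g hV7 (s 1) (s 2) g ?_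
    intro x hx hφ
    rcases cut1 hx hφ with ⟨-, h4 | h4 | h4 | h4⟩ | h4 | ⟨h4, h5⟩
    · exact m1 h4
    · exact absurd (h4 ▸ hx) hr1
    · exact absurd (h4 ▸ hx) hr2
    · rw [h4]; exact add_mem (m1 rfl) (m2 rfl)
    · exact m3 h4
    · rcases h1 _ h4 (by rw [ht_add_add]; exact hx) with h6 | h6 | h6
      · rw [hgx h6]; exact add_mem (m2 rfl) (m3 rfl)
      · rw [h6, map_add, f11, f1h, add_zero] at h5; exact absurd h5 one_ne_zero
      · rw [h6, map_add, f11, f10, zero_add] at h5; exact absurd h5 one_ne_zero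
  · -- sixth shape
    exfalso
    obtain ⟨h1, h2, h3⟩ := hSh _ _ _ hS
    refine lsh_dim hG (f 1 + ψ) hgE φ1g hV7 (s 1) h g ?_
    intro x hx hφ
    rcases cut1 hx hφ with ⟨-, h4 | h4 | h4 | h4⟩ | h4 | ⟨h4, h5⟩
    · exact m1 h4
    · rw [h4]; exact add_mem (m1 rfl) (m2 rfl)
    · exact absurd (h4 ▸ hx) hr1
    · exact absurd (h4 ▸ hx) hr2
    · exact m3 h4
    · rcases h1 _ h4 (by rw [ht_add_add]; exact hx) with h6 | h6 | h6
      · rw [hgx h6]; exact add_mem (m2 rfl) (m3 rfl)
      · rw [h6, map_add, f11, f10, zero_add] at h5; exact absurd h5 one_ne_zero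
      · rw [h6, map_add, f11, f12, add_zero] at h5; exact absurd h5 one_ne_zero

end Pool.Agent.WW

end

section

/-!
Lemma L4, item LB: contraction of the last rim.
-/

namespace Pool.Agent.WW

open Submodule Module

universe u

section KLStepAux

variable {V : Type u} [AddCommGroup V] [Module (ZMod 2) V]

theorem kls_tw {n : ℕ} (hn0 : 0 < n) (h : V) (s : ℕ → V) (i : ℕ) :
    redS n h s (i + n) = redS n h s i + h := by
  unfold redS
  rw [Nat.add_mod_right, Nat.add_div_right i hn0, Nat.cast_succ, add_smul, one_smul, add_assoc]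

theorem kls_lt {n : ℕ} (h : V) (s : ℕ → V) (i : ℕ) (hi : i < n) :
    redS n h s i = s i := by
  unfold redS
  rw [Nat.mod_eq_of_lt hi, Nat.div_eq_of_lt hi, Nat.cast_zero, zero_smul, add_zero]

theorem kls_n {n : ℕ} (hn0 : 0 < n) (h : V) (s : ℕ → V) (tw : ∀ i, s (i + (n + 1)) = s i + h) :
    redS n h s n = s (n + 1) := by
  have h1 := kls_tw hn0 h s 0
  have h2 := tw 0
  rw [Nat.zero_add] at h1 h2
  rw [h1, h2, kls_lt h s 0 hn0]

theorem kls_cancel2 (a c h : V) : a + h + (c + h) = a + c := by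
  have : a + h + (c + h) = a + c + (h + h) := by abel
  rw [this, mf_add_self, add_zero]

/-- the points of the new sequence, modulo the last rim -/
theorem kls_fwd {n : ℕ} (hn : 2 ≤ n) (h : V) (s : ℕ → V)
    (tw : ∀ i, s (i + (n + 1)) = s i + h) (v' : V) (hv : DPt h (redS n h s) v') :
    ∃ v, DPt h s v ∧ v + v' ∈ span (ZMod 2) {s n + s (n + 1)} := by
  have hn0 : 0 < n := by omega
  rcases hv with rfl | ⟨i, rfl⟩ | ⟨i, rfl⟩
  · exact ⟨v', Or.inl rfl, by rw [mf_add_self]; exact zero_mem _⟩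
  · have hc2 : ∀ c : ZMod 2, c = 0 ∨ c = 1 := by decide
    rcases hc2 ((i / n : ℕ) : ZMod 2) with h0 | h0
    · refine ⟨s (i % n), Or.inr (Or.inl ⟨_, rfl⟩), ?_⟩
      unfold redS
      rw [h0, zero_smul, add_zero, mf_add_self]
      exact zero_mem _
    · refine ⟨s (i % n + (n + 1)), Or.inr (Or.inl ⟨_, rfl⟩), ?_⟩
      unfold redS
      rw [h0, one_smul, tw, mf_add_self]
      exact zero_mem _
  · refine ht_periodic (Q := fun i => ∃ v, DPt h s v ∧
      v + (redS n h s i + redS n h s (i + 1)) ∈ span (ZMod 2) {s n + s (n + 1)}) hn0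
      (fun j hj => ?_) (fun j hj => ?_) i
    · refine ⟨s j + s (j + 1), Or.inr (Or.inr ⟨j, rfl⟩), ?_⟩
      rcases Nat.lt_or_ge (j + 1) n with h1 | h1
      · rw [kls_lt h s j hj, kls_lt h s (j + 1) h1, mf_add_self]
        exact zero_mem _
      · have h2 : j + 1 = n := by omega
        rw [kls_lt h s j hj, h2, kls_n hn0 h s tw]
        have : s j + s n + (s j + s (n + 1)) = s n + s (n + 1) + (s j + s j) := by abel
        rw [this, mf_add_self, add_zero]
        exact mem_span_singleton_self _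
    · obtain ⟨v, hv1, hv2⟩ := hj
      refine ⟨v, hv1, ?_⟩
      rw [show j + n + 1 = j + 1 + n by omega, kls_tw hn0, kls_tw hn0, kls_cancel2]
      exact hv2

/-- the spokes of the old sequence, modulo the last rim -/
theorem kls_spoke {n : ℕ} (hn : 2 ≤ n) (h : V) (s : ℕ → V)
    (tw : ∀ i, s (i + (n + 1)) = s i + h) (i : ℕ) :
    ∃ j, s i + redS n h s j ∈ span (ZMod 2) {s n + s (n + 1)} := by
  have hn0 : 0 < n := by omega
  refine ht_periodic (Q := fun i => ∃ j, s i + redS n h s j ∈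
    span (ZMod 2) {s n + s (n + 1)}) (Nat.succ_pos n) (fun j hj => ?_) (fun j hj => ?_) i
  · rcases Nat.lt_or_ge j n with h1 | h1
    · refine ⟨j, ?_⟩
      rw [kls_lt h s j h1, mf_add_self]
      exact zero_mem _
    · have h2 : j = n := by omega
      refine ⟨n, ?_⟩
      rw [h2, kls_n hn0 h s tw]
      exact mem_span_singleton_self _
  · obtain ⟨k, hk⟩ := hj
    refine ⟨k + n, ?_⟩
    rw [kls_tw hn0, show j + n.succ = j + (n + 1) from rfl, tw, kls_cancel2]
    exact hk

/-- the points of the old sequence other than the last rim, modulo the last rim -/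
theorem kls_bwd {n : ℕ} (hn : 2 ≤ n) (h : V) (s : ℕ → V)
    (tw : ∀ i, s (i + (n + 1)) = s i + h) (v : V) (hv : DPt h s v)
    (hr : v ≠ s n + s (n + 1)) :
    ∃ v', DPt h (redS n h s) v' ∧ v + v' ∈ span (ZMod 2) {s n + s (n + 1)} := by
  have hn0 : 0 < n := by omega
  rcases hv with rfl | ⟨i, rfl⟩ | ⟨i, rfl⟩
  · exact ⟨v, Or.inl rfl, by rw [mf_add_self]; exact zero_mem _⟩
  · obtain ⟨j, hj⟩ := kls_spoke hn h s tw i
    exact ⟨_, Or.inr (Or.inl ⟨j, rfl⟩), hj⟩
  · have key : s i + s (i + 1) ≠ s n + s (n + 1) → ∃ j, s i + s (i + 1) +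
        (redS n h s j + redS n h s (j + 1)) ∈ span (ZMod 2) {s n + s (n + 1)} := by
      refine ht_periodic (Q := fun i => s i + s (i + 1) ≠ s n + s (n + 1) → ∃ j, s i + s (i + 1) +
        (redS n h s j + redS n h s (j + 1)) ∈ span (ZMod 2) {s n + s (n + 1)})
        (Nat.succ_pos n) (fun j hj => ?_) (fun j hj => ?_) i
      · intro hne
        rcases Nat.lt_or_ge (j + 1) n with h1 | h1
        · refine ⟨j, ?_⟩
          rw [kls_lt h s j (by omega), kls_lt h s (j + 1) h1, mf_add_self]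
          exact zero_mem _
        · rcases Nat.lt_or_ge j n with h3 | h3
          · have h2 : j + 1 = n := by omega
            refine ⟨j, ?_⟩
            rw [kls_lt h s j h3, h2, kls_n hn0 h s tw]
            have : s j + s n + (s j + s (n + 1)) = s n + s (n + 1) + (s j + s j) := by abel
            rw [this, mf_add_self, add_zero]
            exact mem_span_singleton_self _
          · have h2 : j = n := by omega
            exact absurd (by rw [h2]) hne
      · intro hne
        have e : s (j + n.succ) + s (j + n.succ + 1) = s j + s (j + 1) := by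
          rw [show j + n.succ + 1 = j + 1 + (n + 1) by omega,
            show j + n.succ = j + (n + 1) from rfl, tw, tw, kls_cancel2]
        rw [e] at hne ⊢
        exact hj hne
    obtain ⟨j, hj⟩ := key hr
    exact ⟨_, Or.inr (Or.inr ⟨j, rfl⟩), hj⟩

theorem kls_mem {S : Submodule (ZMod 2) V} {v w : V} (h1 : v + w ∈ S) (h2 : v ∈ S) : w ∈ S := by
  have : w = v + (v + w) := (mf_cancel v w).symm
  rw [this]
  exact S.add_mem h2 h1

theorem kls_mem' {S : Submodule (ZMod 2) V} {v w : V} (h1 : v + w ∈ S) (h2 : w ∈ S) : v ∈ S := by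
  rw [add_comm] at h1
  exact kls_mem h1 h2

end KLStepAux

/-- LB: contraction of the last rim -/
theorem kLStep : KLStep.{u} := by
  intro V _ _ _ E K Γ g h s n hn D hr
  have hn0 : 0 < n := by omega
  have tw := D.tw
  obtain ⟨r, hrdef⟩ : ∃ r, r = s n + s (n + 1) := ⟨_, rfl⟩
  have fwd := kls_fwd hn h s tw
  have bwd := kls_bwd hn h s tw
  have spoke := kls_spoke hn h s tw
  have hDr : DPt h s (s n + s (n + 1)) := Or.inr (Or.inr ⟨n, rfl⟩)
  rw [← hrdef] at hr fwd bwd spoke hDr ⊢
  have hKK : K ≤ K ⊔ span (ZMod 2) {r} := le_sup_left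
  have hΓΓ : Γ ≤ Γ ⊔ span (ZMod 2) {r} := le_sup_left
  have hRK : span (ZMod 2) {r} ≤ K ⊔ span (ZMod 2) {r} := le_sup_right
  have hrK : r ∈ K ⊔ span (ZMod 2) {r} := hRK (mem_span_singleton_self r)
  have hKG : K ⊔ span (ZMod 2) {r} ≤ Γ ⊔ span (ZMod 2) {r} := sup_le_sup_right D.KG _
  have hRΓ : span (ZMod 2) {r} ≤ Γ ⊔ span (ZMod 2) {r} := le_sup_right
  have hrnK : r ∉ K := fun h => hr (D.KG h)
  have fK := finrank_sup_singleton' K r hrnK
  have fΓ := finrank_sup_singleton' Γ r hr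
  refine ⟨?_, pres_mono hKK D.pg, kls_tw hn0 h s, ?_, hKG, ?_, ?_, ?_, ?_⟩
  · -- gen
    have hx : Pres E K r := (D.p1 r hDr).resolve_right fun h => hr h.1
    obtain ⟨x, hxE, hxr⟩ := hx
    have hxK : x ∈ K ⊔ span (ZMod 2) {r} := kls_mem' (hKK hxr) hrK
    have hK : K ≤ span (ZMod 2) (E ∩ ((K ⊔ span (ZMod 2) {r} : Submodule (ZMod 2) V) : Set V)) := by
      refine D.gen.trans (span_mono ?_)
      rintro y ⟨hy1, hy2⟩
      exact ⟨hy1, hKK hy2⟩
    refine sup_le hK ?_
    rw [span_singleton_le_iff_mem]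
    exact kls_mem (hK hxr) (subset_span ⟨hxE, hxK⟩)
  · -- dim
    have h2 : K ⊔ span (ZMod 2) ({g, h} ∪ Set.range s) ≤
        (K ⊔ span (ZMod 2) {r}) ⊔ span (ZMod 2) ({g, h} ∪ Set.range (redS n h s)) := by
      refine sup_le (hKK.trans le_sup_left) ?_
      rw [span_le]
      rintro y (hy | ⟨i, rfl⟩)
      · exact mem_sup_right (subset_span (Or.inl hy))
      · obtain ⟨j, hj⟩ := spoke i
        exact kls_mem' (mem_sup_left (hRK hj)) (mem_sup_right (subset_span (Or.inr ⟨j, rfl⟩)))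
    have h3 := Submodule.finrank_mono h2
    have h4 := D.dim
    omega
  · -- GH
    refine sup_le ?_ (hRK.trans le_sup_left)
    refine D.GH.trans (sup_le (hKK.trans le_sup_left) ?_)
    rw [span_le]
    rintro y (rfl | ⟨i, rfl⟩)
    · exact mem_sup_right (subset_span (Set.mem_insert _ _))
    · obtain ⟨j, hj⟩ := spoke i
      exact kls_mem' (mem_sup_left (hRK hj))
        (mem_sup_right (subset_span (Set.mem_insert_of_mem _ ⟨j, rfl⟩)))
  · -- fr
    have := D.fr
    omega
  · -- p1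
    intro v' hv'
    obtain ⟨v, hv, hvv⟩ := fwd v' hv'
    rcases D.p1 v hv with h1 | ⟨h1, h2⟩
    · exact Or.inl (pres_congr (hRK hvv) (pres_mono hKK h1))
    · refine Or.inr ⟨kls_mem (hRΓ hvv) (hΓΓ h1), ?_⟩
      refine pres_congr ?_ (pres_mono hKK h2)
      rw [kls_cancel2]
      exact hRK hvv
  · -- p2
    refine sup_le ?_ (hRK.trans le_sup_left)
    refine D.p2.trans (sup_le (hKK.trans le_sup_left) ?_)
    rw [span_le]
    rintro v ⟨hv1, hv2, hv3⟩
    obtain ⟨v', hv', hvv⟩ := bwd v hv1 (fun h => hr (h ▸ hv2))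
    refine kls_mem' (mem_sup_left (hRK hvv)) (mem_sup_right (subset_span ⟨hv', ?_, ?_⟩))
    · exact kls_mem (hRΓ hvv) (hΓΓ hv2)
    · refine pres_congr ?_ (pres_mono hKK hv3)
      rw [kls_cancel2]
      exact hRK hvv

end Pool.Agent.WW

end

section

/-!
Two adjacent positions are not touched by `Γ`.
-/

namespace Pool.Agent.WW

open Submodule Module

section LTouch

variable {V : Type*} [AddCommGroup V] [Module (ZMod 2) V]

theorem lt_mod {n : ℕ} (i k : ℕ) (hk : k < n) :
    (i + k) % n = i % n + k ∨ (i + k) % n + n = i % n + k := by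
  have hn : 0 < n := by omega
  have hq : i % n < n := Nat.mod_lt _ hn
  have e : (i + k) % n = (i % n + k) % n := (Nat.mod_add_mod i n k).symm
  by_cases h : i % n + k < n
  · left; rw [e, Nat.mod_eq_of_lt h]
  · right
    rw [e, Nat.mod_eq_sub_mod (by omega), Nat.mod_eq_of_lt (by omega)]
    omega

theorem lt_two (a : ZMod 2) : a = 0 ∨ a = 1 := by revert a; decide

theorem lt_van {K Γ : Submodule (ZMod 2) V} {S : Set V} (h : Γ ≤ K ⊔ span (ZMod 2) S)
    (F : V →ₗ[ZMod 2] ZMod 2) (hK : ∀ v ∈ K, F v = 0) (hS : ∀ v ∈ S, F v = 0) :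
    ∀ v ∈ Γ, F v = 0 := by
  have h1 : K ⊔ span (ZMod 2) S ≤ LinearMap.ker F := by
    refine sup_le (fun v hv => LinearMap.mem_ker.2 (hK v hv)) ?_
    rw [span_le]
    intro v hv
    exact LinearMap.mem_ker.2 (hS v hv)
  intro v hv
  exact LinearMap.mem_ker.1 (h1 (h hv))

/-- a functional which vanishes at the hub and at the positions of the shape vanishes at the
shifted points -/
theorem lt_shape {E : Set V} {K Γ : Submodule (ZMod 2) V} {g h : V} {s : ℕ → V} {i : ℕ}
    (H : ShapeAt E K Γ g h s i) (F : V →ₗ[ZMod 2] ZMod 2) (hh : F h = 0) (h0 : F (s i) = 0)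
    (h1 : F (s (i + 1)) = 0) (h2 : F (s (i + 2)) = 0) (v : V) (hv : DPt h s v) (hvΓ : v ∈ Γ)
    (hp : Pres E K (v + g)) : F v = 0 := by
  rcases H with ⟨a, -⟩ | ⟨a, -⟩ | ⟨a, -⟩ | ⟨a, -⟩ | ⟨a, -⟩ | ⟨a, -⟩ <;>
  rcases a v hv hvΓ hp with e | e | e <;> rw [e] <;>
  simp only [map_add, hh, h0, h1, h2, add_zero]

theorem lt_redS {n : ℕ} {h : V} {s : ℕ → V} (F : V →ₗ[ZMod 2] ZMod 2) (hh : F h = 0) (i : ℕ) :
    F (redS n h s i) = F (s (i % n)) := by
  unfold redS
  rw [map_add, map_smul, hh, smul_zero, add_zero]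

theorem lt_rim {n : ℕ} {h : V} {s : ℕ → V} (tw : ∀ i, s (i + n) = s i + h) (j t : ℕ) :
    s (j + n * t) + s (j + n * t + 1) = s j + s (j + 1) := by
  induction t with
  | zero => rw [Nat.mul_zero, Nat.add_zero]
  | succ t ih =>
    have e1 : j + n * (t + 1) = (j + n * t) + n := by ring
    have e2 : j + n * t + n + 1 = (j + n * t + 1) + n := by ring
    rw [e1, e2, tw, tw, ← ih]
    have : s (j + n * t) + h + (s (j + n * t + 1) + h) =
      s (j + n * t) + s (j + n * t + 1) + (h + h) := by abel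
    rw [this, mf_add_self, add_zero]

/-- two functionals with the same positions agree on `Γ` -/
theorem lt_agree {K Γ : Submodule (ZMod 2) V} {g h : V} {s : ℕ → V} {m : ℕ}
    {f : ℕ → V →ₗ[ZMod 2] ZMod 2} (hf : Fun K g h s m f)
    (hG : Γ ≤ K ⊔ span (ZMod 2) (insert h (Set.range s))) {a b : ℕ} (hab : a % m = b % m)
    (v : V) (hv : v ∈ Γ) (h0 : f a v = 0) : f b v = 0 := by
  have h1 : (f a + f b) v = 0 := by
    refine lt_van hG (f a + f b) (fun w hw => ?_) ?_ v hv
    · rw [LinearMap.add_apply, (hf a).1 w hw, (hf b).1 w hw, add_zero]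
    · rintro w (hw | ⟨i, rfl⟩)
      · rw [hw, LinearMap.add_apply, (hf a).2.2.1, (hf b).2.2.1, add_zero]
      · rw [LinearMap.add_apply, (hf a).2.2.2, (hf b).2.2.2, hab]
        exact CharTwo.add_self_eq_zero _
  rw [LinearMap.add_apply, h0, zero_add] at h1
  exact h1

/-- the last rim is not in `Γ`: if `f 0 + f n` vanishes on `Γ`, so do `f 0` and `f n` -/
theorem lt_split {E : Set V} {K Γ : Submodule (ZMod 2) V} {g h : V} {s : ℕ → V} {n : ℕ}
    {f : ℕ → V →ₗ[ZMod 2] ZMod 2} (hn : 2 ≤ n) (C : CoD E K Γ g h s (n + 1))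
    (hf : Fun K g h s (n + 1) f) (hr : s n + s (n + 1) ∉ Γ)
    (hs : ∀ v ∈ Γ, f 0 v + f n v = 0) (v : V) (hv : v ∈ Γ) : f 0 v = 0 ∧ f n v = 0 := by
  have key : ∀ v ∈ Γ, f 0 v = 0 := by
    refine lt_van C.p2 (f 0) (hf 0).1 ?_
    rintro w ⟨hw, hwΓ, -⟩
    have hsum := hs w hwΓ
    have hz : (0 : ℕ) % (n + 1) = 0 := Nat.zero_mod _
    have hnn : n % (n + 1) = n := Nat.mod_eq_of_lt (by omega)
    have h10 : (1 : ZMod 2) ≠ 0 := by decide
    rcases hw with hw | ⟨j, hw⟩ | ⟨j, hw⟩
    · rw [hw]; exact (hf 0).2.2.1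
    · rw [hw, (hf 0).2.2.2, (hf n).2.2.2, hz, hnn] at hsum
      rw [hw, (hf 0).2.2.2, hz]
      split_ifs at hsum ⊢ with c1 c2
      · exfalso; omega
      · exact absurd hsum (by decide)
      · rfl
      · rfl
    · have hj := lt_mod (n := n + 1) j 1 (by omega)
      have hjl : j % (n + 1) < n + 1 := Nat.mod_lt _ (by omega)
      have hjl1 : (j + 1) % (n + 1) < n + 1 := Nat.mod_lt _ (by omega)
      by_cases hjn : j % (n + 1) = n
      · exfalso
        apply hr
        have e := Nat.mod_add_div j (n + 1)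
        rw [hjn] at e
        have := lt_rim C.tw n (j / (n + 1))
        rw [e] at this
        rw [← this, ← hw]
        exact hwΓ
      · rw [hw, map_add, map_add, (hf 0).2.2.2, (hf 0).2.2.2, (hf n).2.2.2, (hf n).2.2.2, hz,
          hnn] at hsum
        rw [hw, map_add, (hf 0).2.2.2, (hf 0).2.2.2, hz]
        have hj1 : (j + 1) % (n + 1) = j % (n + 1) + 1 := by omega
        rw [hj1] at hsum ⊢
        rw [if_neg hjn, if_neg (by omega : ¬ j % (n + 1) + 1 = 0)] at hsum
        rw [if_neg (by omega : ¬ j % (n + 1) + 1 = 0)]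
        by_cases c1 : j % (n + 1) = 0
        · rw [if_pos c1, if_neg (by omega : ¬ j % (n + 1) + 1 = n)] at hsum
          exact absurd hsum (by decide)
        · rw [if_neg c1, add_zero]
  refine ⟨key v hv, ?_⟩
  have h1 := hs v hv
  rwa [key v hv, zero_add] at h1

end LTouch

universe u

theorem kLTouch (hB : KLStep.{u}) : KLTouch.{u} := by
  intro V _ _ _ E K Γ g h s n f hn C hf hr hL
  have hC := hB V E K Γ g h s n (by omega) C hr
  rcases hL _ _ _ hC with h5 | ⟨i, hi⟩
  · exact Or.inl h5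
  refine Or.inr ?_
  have hz : (0 : ℕ) % (n + 1) = 0 := Nat.zero_mod _
  have hnn : n % (n + 1) = n := Nat.mod_eq_of_lt (by omega)
  have hn1 : (n + 1) % (n + 1) = 0 := Nat.mod_self _
  -- the values of `f` at the last rim
  have hrm : ∀ m, 0 < m → m < n → f m (s n + s (n + 1)) = 0 := by
    intro m h1 h2
    have hm : m % (n + 1) = m := Nat.mod_eq_of_lt (by omega)
    rw [map_add, (hf m).2.2.2, (hf m).2.2.2, hm, hnn, hn1, if_neg (by omega), if_neg (by omega),
      add_zero]
  have hr0 : (f 0 + f n) (s n + s (n + 1)) = 0 := by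
    rw [LinearMap.add_apply, map_add, map_add, (hf 0).2.2.2, (hf 0).2.2.2, (hf n).2.2.2,
      (hf n).2.2.2, hz, hnn, hn1, if_neg (by omega), if_pos rfl, if_pos rfl, if_neg (by omega)]
    decide
  -- a functional vanishing at the positions of the shape vanishes on `Γ`
  have hvan : ∀ F : V →ₗ[ZMod 2] ZMod 2, (∀ v ∈ K, F v = 0) → F (s n + s (n + 1)) = 0 →
      F h = 0 → F (s (i % n)) = 0 → F (s ((i + 1) % n)) = 0 → F (s ((i + 2) % n)) = 0 →
      ∀ v ∈ Γ, F v = 0 := by
    intro F hK hrr hh h0 h1 h2 v hv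
    refine lt_van hC.p2 F ?_ ?_ v (mem_sup_left hv)
    · intro w hw
      have hle : K ⊔ span (ZMod 2) {s n + s (n + 1)} ≤ LinearMap.ker F := by
        refine sup_le (fun w hw => LinearMap.mem_ker.2 (hK w hw)) ?_
        rw [span_singleton_le_iff_mem]
        exact LinearMap.mem_ker.2 hrr
      exact LinearMap.mem_ker.1 (hle hw)
    · rintro w ⟨hw1, hw2, hw3⟩
      exact lt_shape hi F hh (by rw [lt_redS F hh]; exact h0) (by rw [lt_redS F hh]; exact h1)
        (by rw [lt_redS F hh]; exact h2) w hw1 hw2 hw3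
  have q0 : i % n < n := Nat.mod_lt _ (by omega)
  have q1 : (i + 1) % n < n := Nat.mod_lt _ (by omega)
  have q2 : (i + 2) % n < n := Nat.mod_lt _ (by omega)
  have q3 : (i + 3) % n < n := Nat.mod_lt _ (by omega)
  have q4 : (i + 4) % n < n := Nat.mod_lt _ (by omega)
  have m1 := lt_mod (n := n) i 1 (by omega)
  have m2 := lt_mod (n := n) i 2 (by omega)
  have m3 := lt_mod (n := n) i 3 (by omega)
  have m4 := lt_mod (n := n) i 4 (by omega)
  -- positions
  have hpos : ∀ m, 0 < m → m < n → m ≠ i % n → m ≠ (i + 1) % n → m ≠ (i + 2) % n →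
      ∀ v ∈ Γ, f m v = 0 := by
    intro m h1 h2 d0 d1 d2
    have hm : m % (n + 1) = m := Nat.mod_eq_of_lt (by omega)
    have hval : ∀ q, q < n → m ≠ q → f m (s q) = 0 := by
      intro q hq hmq
      rw [(hf m).2.2.2, hm, Nat.mod_eq_of_lt (by omega : q < n + 1), if_neg (Ne.symm hmq)]
    exact hvan (f m) (hf m).1 (hrm m h1 h2) (hf m).2.2.1 (hval _ q0 d0) (hval _ q1 d1)
      (hval _ q2 d2)
  have hzero : 0 ≠ i % n → 0 ≠ (i + 1) % n → 0 ≠ (i + 2) % n →
      ∀ v ∈ Γ, f 0 v = 0 ∧ f n v = 0 := by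
    intro d0 d1 d2
    have hval : ∀ q, q < n → 0 ≠ q → (f 0 + f n) (s q) = 0 := by
      intro q hq hmq
      rw [LinearMap.add_apply, (hf 0).2.2.2, (hf n).2.2.2, hz, hnn,
        Nat.mod_eq_of_lt (by omega : q < n + 1), if_neg (Ne.symm hmq), if_neg (by omega),
        add_zero]
    have hs := hvan (f 0 + f n) (fun w hw => by
      rw [LinearMap.add_apply, (hf 0).1 w hw, (hf n).1 w hw, add_zero]) hr0
      (by rw [LinearMap.add_apply, (hf 0).2.2.1, (hf n).2.2.1, add_zero])
      (hval _ q0 d0) (hval _ q1 d1) (hval _ q2 d2)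
    intro v hv
    exact lt_split (by omega) C hf hr (fun w hw => hs w hw) v hv
  by_cases ha : (i + 3) % n = 0
  · have h0 := hzero (by omega) (by omega) (by omega)
    refine ⟨n, fun v hv => ⟨(h0 v hv).2, ?_⟩⟩
    exact lt_agree hf C.GH (a := 0) (b := n + 1) (by rw [hz, hn1]) v hv (h0 v hv).1
  · by_cases hb : (i + 4) % n = 0
    · have h0 := hzero (by omega) (by omega) (by omega)
      have h1 := hpos ((i + 3) % n) (by omega) q3 (by omega) (by omega) (by omega)
      have e : (i + 3) % n + 1 = n := by omega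
      refine ⟨(i + 3) % n, fun v hv => ⟨h1 v hv, ?_⟩⟩
      rw [e]
      exact (h0 v hv).2
    · have h1 := hpos ((i + 3) % n) (by omega) q3 (by omega) (by omega) (by omega)
      have h2 := hpos ((i + 4) % n) (by omega) q4 (by omega) (by omega) (by omega)
      have e : (i + 3) % n + 1 = (i + 4) % n := by omega
      refine ⟨(i + 3) % n, fun v hv => ⟨h1 v hv, ?_⟩⟩
      rw [e]
      exact h2 v hv

end Pool.Agent.WW

end

section

/-!
The induction step of L4 if the positions `n` and `n + 1` are not touched by `Γ`.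
-/

namespace Pool.Agent.WW

open Submodule Module

section LT

variable {V : Type*} [AddCommGroup V] [Module (ZMod 2) V]

theorem lt_zmod (z : ZMod 2) : z = 0 ∨ z = 1 := by
  revert z; decide

theorem lt_tw_mul {n : ℕ} {h : V} {s : ℕ → V} (tw : ∀ i, s (i + (n + 1)) = s i + h)
    (a q : ℕ) : s (a + q * (n + 1)) = s a + (q : ZMod 2) • h := by
  induction q with
  | zero => simp
  | succ q ih =>
    have e : a + (q + 1) * (n + 1) = a + q * (n + 1) + (n + 1) := by ring
    rw [e, tw, ih, Nat.cast_succ, add_smul, one_smul, add_assoc]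

theorem lt_red {n : ℕ} {h : V} {s : ℕ → V} {a : ℕ} (ha : a < n) (q : ℕ) :
    redS n h s (a + n * q) = s a + (q : ZMod 2) • h := by
  unfold redS
  rw [Nat.add_mul_mod_self_left, Nat.mod_eq_of_lt ha, Nat.add_mul_div_left _ _ (by omega),
    Nat.div_eq_of_lt ha, Nat.zero_add]

theorem lt_red0 {n : ℕ} {h : V} {s : ℕ → V} {a : ℕ} (ha : a < n) :
    redS n h s a = s a := by
  have := lt_red (h := h) (s := s) ha 0
  simpa using this

theorem lt_fin1 [FiniteDimensional (ZMod 2) V] (A : Submodule (ZMod 2) V) (x : V) :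
    finrank (ZMod 2) ↥(A ⊔ span (ZMod 2) {x}) ≤ finrank (ZMod 2) A + 1 := by
  have h2 := Submodule.finrank_add_le_finrank_add_finrank A (span (ZMod 2) {x})
  have h3 : finrank (ZMod 2) ↥(span (ZMod 2) {x}) ≤ 1 := by
    by_cases hx0 : x = 0
    · rw [hx0, span_zero_singleton, finrank_bot]; omega
    · rw [finrank_span_singleton hx0]
  exact h2.trans (by omega)

theorem lt_mem1 [FiniteDimensional (ZMod 2) V] {E : Set V} {K Γ : Submodule (ZMod 2) V}
    {g h : V} {s : ℕ → V} {n : ℕ} (C : CoD E K Γ g h s n) {x y z : V}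
    (hs : Sh3 E K Γ g h s x y z) : x ∈ Γ := by
  by_contra hx
  have h1 : Γ ≤ (K ⊔ span (ZMod 2) {y}) ⊔ span (ZMod 2) {z} := by
    refine C.p2.trans (sup_le (le_sup_left.trans le_sup_left) ?_)
    rw [span_le]
    rintro v ⟨hv1, hv2, hv3⟩
    rcases hs v hv1 hv2 hv3 with rfl | rfl | rfl
    · exact absurd hv2 hx
    · exact mem_sup_left (mem_sup_right (mem_span_singleton_self _))
    · exact mem_sup_right (mem_span_singleton_self _)
  have h2 := Submodule.finrank_mono h1
  have h3 := lt_fin1 (K ⊔ span (ZMod 2) {y}) z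
  have h4 := lt_fin1 K y
  have h5 := C.fr
  omega

theorem lt_mem3 [FiniteDimensional (ZMod 2) V] {E : Set V} {K Γ : Submodule (ZMod 2) V}
    {g h : V} {s : ℕ → V} {n : ℕ} (C : CoD E K Γ g h s n) {x y z : V}
    (hs : Sh3 E K Γ g h s x y z) : x ∈ Γ ∧ y ∈ Γ ∧ z ∈ Γ := by
  refine ⟨lt_mem1 C hs, lt_mem1 C (y := x) (z := z) ?_, lt_mem1 C (y := x) (z := y) ?_⟩
  · intro v h1 h2 h3
    rcases hs v h1 h2 h3 with h | h | h <;> simp [h]
  · intro v h1 h2 h3
    rcases hs v h1 h2 h3 with h | h | h <;> simp [h]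

theorem lt_mod1 {n i : ℕ} (h1 : (i + 1) % n ≠ 0) (hn : 0 < n) : i % n + 1 < n := by
  have h2 := Nat.mod_lt i hn
  by_contra h3
  have h4 : i % n + 1 = n := by omega
  apply h1
  have h5 := Nat.div_add_mod i n
  have h6 : i + 1 = n * (i / n + 1) := by rw [mul_add, mul_one]; omega
  rw [h6, Nat.mul_mod_right]

theorem lt_mod2 {n i : ℕ} (h1 : (i + 1) % n ≠ 0) (h2 : (i + 2) % n ≠ 0) (hn : 0 < n) :
    i % n + 2 < n := by
  have h3 := lt_mod1 h1 hn
  by_contra h4
  have h5 : i % n + 2 = n := by omega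
  apply h2
  have h6 := Nat.div_add_mod i n
  have h7 : i + 2 = n * (i / n + 1) := by rw [mul_add, mul_one]; omega
  rw [h7, Nat.mul_mod_right]

end LT

universe u

theorem kLTransfer (hB : KLStep.{u}) : KLTransfer.{u} := by
  intro V _ _ _ E K Γ g h s n f hn C hf ht hL
  have tw := C.tw
  -- the rim
  have fn : ∀ i, f n (s i) = if i % (n + 1) = n then 1 else 0 := by
    intro i
    rw [(hf n).2.2.2 i, Nat.mod_eq_of_lt (Nat.lt_succ_self n)]
  have f0 : ∀ i, f 0 (s i) = if i % (n + 1) = 0 then 1 else 0 := by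
    intro i
    rw [(hf 0).2.2.2 i, Nat.zero_mod]
  have fn1 : ∀ i, f (n + 1) (s i) = if i % (n + 1) = 0 then 1 else 0 := by
    intro i
    rw [(hf (n + 1)).2.2.2 i, Nat.mod_self]
  have mn : n % (n + 1) = n := Nat.mod_eq_of_lt (Nat.lt_succ_self n)
  set r := s n + s (n + 1) with hr
  have fnr : f n r = 1 := by
    rw [hr, map_add, fn, fn, mn, if_pos rfl, Nat.mod_self, if_neg (by omega), add_zero]
  have f0r : f 0 r = 1 := by
    rw [hr, map_add, f0, f0, mn, if_neg (by omega), Nat.mod_self, if_pos rfl, zero_add]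
  have hrΓ : r ∉ Γ := by
    intro hmem
    have := (ht r hmem).1
    rw [fnr] at this
    exact one_ne_zero this
  have C' := hB V E K Γ g h s n (by omega) C hrΓ
  set K' := K ⊔ span (ZMod 2) {r} with hK'
  set Γ' := Γ ⊔ span (ZMod 2) {r} with hΓ'
  set s' := redS n h s with hs'
  rcases hL K' Γ' s' C' with h5 | ⟨i, hsh⟩
  · exact Or.inl h5
  right
  have hKK : K ≤ K' := le_sup_left
  have hΓΓ : Γ ≤ Γ' := le_sup_left
  have np : ∀ {v : V}, ¬ Pres E K' v → ¬ Pres E K v := fun h1 h2 => h1 (pres_mono hKK h2)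
  -- the two functionals agree on `Γ`
  have hagree : ∀ v ∈ Γ, f 0 v = 0 := by
    intro v hv
    have h1 : ∀ w ∈ K ⊔ span (ZMod 2) (insert h (Set.range s)), f 0 w = f (n + 1) w := by
      intro w hw
      have h2 : K ⊔ span (ZMod 2) (insert h (Set.range s)) ≤
          LinearMap.ker (f 0 - f (n + 1)) := by
        refine sup_le (fun x hx => ?_) ?_
        · rw [LinearMap.mem_ker, LinearMap.sub_apply, (hf 0).1 x hx, (hf (n + 1)).1 x hx,
            sub_zero]
        · rw [span_le]
          rintro x (rfl | ⟨j, rfl⟩)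
          · rw [SetLike.mem_coe, LinearMap.mem_ker, LinearMap.sub_apply, (hf 0).2.2.1,
              (hf (n + 1)).2.2.1, sub_zero]
          · rw [SetLike.mem_coe, LinearMap.mem_ker, LinearMap.sub_apply, f0, fn1, sub_self]
      have h3 := h2 hw
      rw [LinearMap.mem_ker, LinearMap.sub_apply] at h3
      exact sub_eq_zero.mp h3
    rw [h1 v (C.GH hv)]
    exact (ht v hv).2
  have hF : ∀ v ∈ Γ', f 0 v + f n v = 0 := by
    intro v hv
    have h2 : Γ' ≤ LinearMap.ker (f 0 + f n) := by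
      refine sup_le (fun x hx => ?_) ?_
      · rw [LinearMap.mem_ker, LinearMap.add_apply, hagree x hx, (ht x hx).1, add_zero]
      · rw [span_singleton_le_iff_mem, LinearMap.mem_ker, LinearMap.add_apply, f0r, fnr]
        decide
    have h3 := h2 hv
    rwa [LinearMap.mem_ker, LinearMap.add_apply] at h3
  have hn0 : 0 < n := by omega
  have hFs : ∀ j, f 0 (s' j) + f n (s' j) = if j % n = 0 then 1 else 0 := by
    intro j
    have h1 : s' j = s (j % n) + ((j / n : ℕ) : ZMod 2) • h := rfl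
    have h2 := Nat.mod_lt j hn0
    have h3 : j % n % (n + 1) = j % n := Nat.mod_eq_of_lt (by omega)
    rw [h1, map_add, map_add, map_smul, map_smul, (hf 0).2.2.1, (hf n).2.2.1, smul_zero,
      add_zero, add_zero, f0, fn, h3, if_neg (show ¬ j % n = n by omega), add_zero]
  -- positions
  have pos1 : ∀ j, s' j ∈ Γ' → j % n ≠ 0 := by
    intro j hj h0
    have h1 := hF _ hj
    rw [hFs, if_pos h0] at h1
    exact one_ne_zero h1
  have pos2 : ∀ j, s' j + h ∈ Γ' → j % n ≠ 0 := by
    intro j hj h0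
    have h1 := hF _ hj
    rw [map_add, map_add, (hf 0).2.2.1, (hf n).2.2.1, add_zero, add_zero, hFs, if_pos h0] at h1
    exact one_ne_zero h1
  have pos3 : ∀ j, s' j + s' (j + 1) ∈ Γ' → j % n ≠ 0 ∧ (j + 1) % n ≠ 0 := by
    intro j hj
    have h1 := hF _ hj
    have h2 : f 0 (s' j + s' (j + 1)) + f n (s' j + s' (j + 1)) =
        (f 0 (s' j) + f n (s' j)) + (f 0 (s' (j + 1)) + f n (s' (j + 1))) := by
      rw [map_add, map_add]; ring
    rw [h2, hFs, hFs] at h1
    have h3 : ¬ (j % n = 0 ∧ (j + 1) % n = 0) := by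
      rintro ⟨h4, h5⟩
      have h6 := Nat.dvd_of_mod_eq_zero h4
      have h7 := Nat.dvd_of_mod_eq_zero h5
      have h8 := (Nat.dvd_add_right h6).mp h7
      have := Nat.le_of_dvd Nat.one_pos h8
      omega
    by_cases h4 : j % n = 0
    · rw [if_pos h4, if_neg (fun h5 => h3 ⟨h4, h5⟩), add_zero] at h1
      exact absurd h1 one_ne_zero
    · by_cases h5 : (j + 1) % n = 0
      · rw [if_neg h4, if_pos h5, zero_add] at h1
        exact absurd h1 one_ne_zero
      · exact ⟨h4, h5⟩
  -- points of `Delta` in `Γ`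
  have hpt : ∀ v, DPt h s v → v ∈ Γ → DPt h s' v := by
    intro v hv hvΓ
    rcases hv with h1 | ⟨j, h1⟩ | ⟨j, h1⟩
    · exact Or.inl h1
    · right; left
      have h2 := (ht v hvΓ).1
      have h3 := hagree v hvΓ
      rw [h1, fn] at h2
      rw [h1, f0] at h3
      have h4 : j % (n + 1) ≠ n := by
        intro h4; rw [if_pos h4] at h2; exact one_ne_zero h2
      have h6 : j % (n + 1) < n + 1 := Nat.mod_lt j (Nat.succ_pos n)
      refine ⟨j % (n + 1) + n * (j / (n + 1)), ?_⟩
      rw [h1, hs', lt_red (by omega), ← lt_tw_mul tw]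
      congr 1
      rw [mul_comm]
      exact (Nat.mod_add_div j (n + 1)).symm
    · right; right
      have h2 := (ht v hvΓ).1
      have h3 := hagree v hvΓ
      rw [h1, map_add, fn, fn] at h2
      rw [h1, map_add, f0, f0] at h3
      have h6 : j % (n + 1) < n + 1 := Nat.mod_lt j (Nat.succ_pos n)
      have h7 : j = j % (n + 1) + (j / (n + 1)) * (n + 1) := by
        rw [mul_comm]
        exact (Nat.mod_add_div j (n + 1)).symm
      have h8 : j % (n + 1) ≠ n := by
        intro h8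
        have h9 : (j + 1) % (n + 1) = 0 := by
          rw [h7, h8]
          have : n + j / (n + 1) * (n + 1) + 1 = (n + 1) * (j / (n + 1) + 1) := by ring
          rw [this, Nat.mul_mod_right]
        rw [if_pos h8, h9, if_neg (by omega), add_zero] at h2
        exact one_ne_zero h2
      have h9 : (j + 1) % (n + 1) = j % (n + 1) + 1 := by
        have : j + 1 = (j % (n + 1) + 1) + (n + 1) * (j / (n + 1)) := by
          rw [mul_comm]; omega
        rw [this, Nat.add_mul_mod_self_left, Nat.mod_eq_of_lt (by omega)]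
      have h10 : j % (n + 1) + 1 ≠ n := by
        intro h10
        rw [if_neg h8, h9, if_pos h10, zero_add] at h2
        exact one_ne_zero h2
      refine ⟨j % (n + 1), ?_⟩
      rw [h1, hs', lt_red0 (show j % (n + 1) < n by omega),
        lt_red0 (show j % (n + 1) + 1 < n by omega)]
      have e1 : s j = s (j % (n + 1)) + ((j / (n + 1) : ℕ) : ZMod 2) • h := by
        rw [← lt_tw_mul tw, ← h7]
      have e2 : s (j + 1) = s (j % (n + 1) + 1) + ((j / (n + 1) : ℕ) : ZMod 2) • h := by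
        rw [← lt_tw_mul tw]
        congr 1
        omega
      rw [e1, e2]
      have : s (j % (n + 1)) + ((j / (n + 1) : ℕ) : ZMod 2) • h +
          (s (j % (n + 1) + 1) + ((j / (n + 1) : ℕ) : ZMod 2) • h) =
          s (j % (n + 1)) + s (j % (n + 1) + 1) +
          (((j / (n + 1) : ℕ) : ZMod 2) • h + ((j / (n + 1) : ℕ) : ZMod 2) • h) := by abel
      rw [this, mf_add_self, add_zero]
  have tr : ∀ {x y z : V}, Sh3 E K' Γ' g h s' x y z → Sh3 E K Γ g h s x y z := by
    intro x y z h1 v h2 h3 h4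
    exact h1 v (hpt v h2 h3) (hΓΓ h3) (pres_mono hKK h4)
  have hi := Nat.div_add_mod i n
  have ee : ∀ j, i % n + j < n → s' (i + j) = s (i % n + (i / n) * (n + 1) + j) := by
    intro j hj
    have h1 : i + j = (i % n + j) + n * (i / n) := by omega
    have h2 : i % n + (i / n) * (n + 1) + j = (i % n + j) + (i / n) * (n + 1) := by ring
    rw [h2, lt_tw_mul tw, hs']
    conv_lhs => rw [h1]
    rw [lt_red hj]
  refine ⟨i % n + (i / n) * (n + 1), ?_⟩
  rcases hsh with ⟨h1, h2⟩ | ⟨h1, h2⟩ | ⟨h1, h2⟩ | ⟨h1, h2⟩ | ⟨h1, h2⟩ | ⟨h1, h2⟩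
  · obtain ⟨m1, m2, m3⟩ := lt_mem3 C' h1
    have q1 := pos3 _ m3
    have a1 := lt_mod1 q1.2 hn0
    have e0 := ee 0 (by omega)
    have e1 := ee 1 a1
    rw [add_zero, add_zero] at e0
    rw [e0, e1] at h1 h2
    exact Or.inl ⟨tr h1, np h2⟩
  · obtain ⟨m1, m2, m3⟩ := lt_mem3 C' h1
    have q1 := pos3 _ m3
    have a1 := lt_mod1 q1.2 hn0
    have e0 := ee 0 (by omega)
    have e1 := ee 1 a1
    rw [add_zero, add_zero] at e0
    rw [e0, e1] at h1 h2
    exact Or.inr (Or.inl ⟨tr h1, np h2⟩)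
  · obtain ⟨m1, m2, m3⟩ := lt_mem3 C' h1
    have q1 := pos3 _ m2
    have q2 := pos3 _ m3
    have a2 := lt_mod2 q1.2 q2.2 hn0
    have e0 := ee 0 (by omega)
    have e1 := ee 1 (by omega)
    have e2 := ee 2 a2
    rw [add_zero, add_zero] at e0
    rw [e0, e1, e2] at h1 h2
    refine Or.inr (Or.inr (Or.inl ⟨tr h1, ?_⟩))
    rcases h2 with h2 | h2 | h2
    · exact Or.inl ⟨np h2.1, np h2.2⟩
    · exact Or.inr (Or.inl ⟨np h2.1, np h2.2⟩)
    · exact Or.inr (Or.inr ⟨np h2.1, np h2.2⟩)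
  · obtain ⟨m1, m2, m3⟩ := lt_mem3 C' h1
    have q1 := pos2 _ m2
    have q2 := pos3 _ m3
    have a2 := lt_mod2 q1 q2.2 hn0
    have e0 := ee 0 (by omega)
    have e1 := ee 1 (by omega)
    have e2 := ee 2 a2
    rw [add_zero, add_zero] at e0
    rw [e1] at h2
    rw [e0, e1, e2] at h1
    rw [e2] at h2
    exact Or.inr (Or.inr (Or.inr (Or.inl ⟨tr h1, np h2.1, np h2.2⟩)))
  · obtain ⟨m1, m2, m3⟩ := lt_mem3 C' h1
    have q1 := pos1 _ m1
    have q2 := pos3 _ m3
    have a2 := lt_mod2 q2.2 q1 hn0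
    have e0 := ee 0 (by omega)
    have e1 := ee 1 (by omega)
    have e2 := ee 2 a2
    rw [add_zero, add_zero] at e0
    rw [e0, e1, e2] at h1
    rw [e0, e1] at h2
    exact Or.inr (Or.inr (Or.inr (Or.inr (Or.inl ⟨tr h1, np h2.1, np h2.2⟩))))
  · obtain ⟨m1, m2, m3⟩ := lt_mem3 C' h1
    have q1 := pos3 _ m2
    have q2 := pos3 _ m3
    have a2 := lt_mod2 q1.2 q2.2 hn0
    have e0 := ee 0 (by omega)
    have e1 := ee 1 (by omega)
    have e2 := ee 2 a2
    rw [add_zero, add_zero] at e0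
    rw [e0, e1, e2] at h1 h2
    exact Or.inr (Or.inr (Or.inr (Or.inr (Or.inr ⟨tr h1, np h2.1, np h2.2⟩))))

end Pool.Agent.WW

end

section

/-!
K D3: the rims are contractible.
-/

namespace Pool.Agent.WW

open Submodule Module

universe u

section

variable {V : Type u} [AddCommGroup V] [Module (ZMod 2) V] {n : ℕ} {h : V} {s : ℕ → V}
  {S : Set V} {A B : Submodule (ZMod 2) V}

/-- the hub is in the guts -/
private lemma dr_hub (hs : Spk n h s) (hS : DelSet h s S) (hA : A ≠ ⊤)
    (hcov : ∀ x ∈ S, x ∈ A ∨ x ∈ B) : h ∈ B := by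
  by_contra hB
  have hhA : h ∈ A := (hcov h ((hS h).2 (Or.inl rfl))).resolve_right hB
  apply hA
  refine dk_top hs hhA ?_
  intro i _
  have h1 : s i ∈ S := (hS _).2 (Or.inr (Or.inl ⟨i, rfl⟩))
  have h2 : s i + h ∈ S := (hS _).2 (Or.inr (Or.inl ⟨i + n, (hs.1 i).symm⟩))
  rcases hcov _ h1 with h3 | h3
  · exact h3
  · rcases hcov _ h2 with h4 | h4
    · have := add_mem h4 hhA
      rwa [add_assoc, dk_self, add_zero] at this
    · exfalso
      apply hB
      have := add_mem h3 h4
      rwa [← add_assoc, dk_self, zero_add] at this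

/-- the case of two spokes of different types in increasing order -/
private lemma dr_core (hs : Spk n h s) (hS : DelSet h s S)
    (hcov : ∀ x ∈ S, x ∈ A ∨ x ∈ B) (hhA : h ∈ A) (hhB : h ∈ B)
    (hgA : s (n - 1) + s 0 + h ∈ A) (hgB : s (n - 1) + s 0 + h ∈ B) {a b : ℕ} (hab : a < b)
    (hbn : b < n) (ha : s a ∉ B) (hb : s b ∉ A) : 4 ≤ finrank (ZMod 2) ↥(A ⊓ B) := by
  have hfin := dk_fin hs
  have hAB : ∀ i, s i ∈ A ∨ s i ∈ B := fun i => hcov _ ((hS _).2 (Or.inr (Or.inl ⟨i, rfl⟩)))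
  have hrim : ∀ i, s i + s (i + 1) ∈ A ∨ s i + s (i + 1) ∈ B := fun i =>
    hcov _ ((hS _).2 (Or.inr (Or.inr ⟨i, rfl⟩)))
  have hcan : ∀ (C : Submodule (ZMod 2) V) (x y : V), x + y ∈ C → x ∈ C → y ∈ C := by
    intro C x y h1 h2
    have := add_mem h2 h1
    rwa [← add_assoc, dk_self, zero_add] at this
  have hcan' : ∀ (C : Submodule (ZMod 2) V) (x y : V), x + y ∈ C → y ∈ C → x ∈ C := by
    intro C x y h1 h2
    have := add_mem h1 h2
    rwa [add_assoc, dk_self, add_zero] at this
  -- no change of type between consecutive spokes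
  have h3 : ∀ i, s i ∉ B → s (i + 1) ∉ A → False := by
    intro i h1 h2
    rcases hrim i with h4 | h4
    · exact h2 (hcan A _ _ h4 ((hAB i).resolve_right h1))
    · exact h1 (hcan' B _ _ h4 ((hAB (i + 1)).resolve_left h2))
  have h3' : ∀ i, s i ∉ A → s (i + 1) ∉ B → False := by
    intro i h1 h2
    rcases hrim i with h4 | h4
    · exact h1 (hcan' A _ _ h4 ((hAB (i + 1)).resolve_right h2))
    · exact h2 (hcan B _ _ h4 ((hAB i).resolve_left h1))
  -- a gap between `a` and `b`
  obtain ⟨p, hap, hpb, hpA, hpB⟩ : ∃ p, a < p ∧ p < b ∧ s p ∈ A ∧ s p ∈ B := by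
    by_contra hne
    push Not at hne
    have h4 : ∀ j, a ≤ j → j < b → s j ∉ B := by
      intro j haj
      induction j, haj using Nat.le_induction with
      | base => exact fun _ => ha
      | succ j haj ih =>
        intro hjb hjB
        have h5 := ih (by omega)
        by_cases hjA : s (j + 1) ∈ A
        · exact hne (j + 1) (by omega) hjb hjA hjB
        · exact h3 j h5 hjA
    refine h3 (b - 1) (h4 (b - 1) (by omega) (by omega)) ?_
    rw [Nat.sub_add_cancel (by omega)]
    exact hb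
  -- a gap outside
  obtain ⟨q, hqn, hq, hqA, hqB⟩ : ∃ q, q < n ∧ (q < a ∨ b < q) ∧ s q ∈ A ∧ s q ∈ B := by
    by_contra hne
    push Not at hne
    have h4 : ∀ j, j ≤ a → s (a - j) ∉ B := by
      intro j
      induction j with
      | zero => exact fun _ => ha
      | succ j ih =>
        intro hja hjB
        have h5 := ih (by omega)
        have h6 : a - j = a - (j + 1) + 1 := by omega
        rw [h6] at h5
        by_cases hjA : s (a - (j + 1)) ∈ A
        · exact hne _ (by omega) (Or.inl (by omega)) hjA hjB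
        · exact h3' _ hjA h5
    have h5 : ∀ j, b ≤ j → j < n → s j ∉ A := by
      intro j hbj
      induction j, hbj using Nat.le_induction with
      | base => exact fun _ => hb
      | succ j hbj ih =>
        intro hjn hjA
        have h5 := ih (by omega)
        by_cases hjB : s (j + 1) ∈ B
        · exact hne (j + 1) hjn (Or.inr (by omega)) hjA hjB
        · exact h3' j h5 hjB
    have h6 : s 0 ∈ A := by
      have := h4 a le_rfl
      rw [Nat.sub_self] at this
      exact (hAB 0).resolve_right this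
    have h7 := h5 (n - 1) (by omega) (by omega)
    exact h7 (hcan' A _ _ (hcan' A _ _ hgA hhA) h6)
  refine dk_four (v₀ := h) (v₁ := s p) (v₂ := s q) (v₃ := s (n - 1) + s 0 + h)
    ⟨hhA, hhB⟩ ⟨hpA, hpB⟩ ⟨hqA, hqB⟩ ⟨hgA, hgB⟩ ?_
  intro c₀ c₁ c₂ c₃ hc
  have hpn : p < n := by omega
  have hev : ∀ j < n, (if p = j then c₁ else 0) + (if q = j then c₂ else 0) +
      ((if n - 1 = j then c₃ else 0) + (if 0 = j then c₃ else 0)) = 0 := by
    intro j hj
    obtain ⟨χ, hχ0, hχ⟩ := dk_coord hs hj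
    have h1 := congrArg χ hc
    simp only [map_add, map_smul, map_zero, hχ0, hχ p hpn, hχ q hqn, hχ (n - 1) (by omega),
      hχ 0 (by omega), smul_eq_mul, mul_zero, zero_add, add_zero, mul_ite, mul_one, mul_add] at h1
    exact h1
  have hc1 : c₁ = 0 := by
    have := hev p hpn
    rw [if_pos rfl, if_neg (by omega), if_neg (by omega), if_neg (by omega)] at this
    simpa using this
  have hc3 : c₃ = 0 := by
    by_cases hq0 : q = 0
    · have := hev (n - 1) (by omega)
      rw [if_neg (by omega), if_neg (by omega), if_pos rfl, if_neg (by omega)] at this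
      simpa using this
    · have := hev 0 (by omega)
      rw [if_neg (by omega), if_neg (by omega), if_neg (by omega), if_pos rfl] at this
      simpa using this
  have hc2 : c₂ = 0 := by
    have := hev q hqn
    rw [if_neg (by omega), if_pos rfl, hc3] at this
    simpa using this
  refine ⟨?_, hc1, hc2, hc3⟩
  obtain ⟨η, hη, -⟩ := dk_coordh hs
  have h1 := congrArg η hc
  rw [hc1, hc2, hc3] at h1
  simpa [hη] using h1

end

theorem kDelRim (h : KDelShift.{u}) : KDelRim.{u} := by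
  intro V _ _ n hh s S i hn hs hS
  obtain ⟨hs', hS'⟩ := h V n hh s S (i + n + 1) (by omega) hs hS
  set t : ℕ → V := fun j => s (j + (i + n + 1)) with ht
  have hg : s i + s (i + 1) = t (n - 1) + t 0 + hh := by
    have h1 : t (n - 1) = s i := by
      rw [ht]
      change s (n - 1 + (i + n + 1)) = s i
      rw [← dk_per hs i]
      congr 1
      omega
    have h2 : t 0 + hh = s (i + 1) := by
      rw [← hs'.1 0, ht]
      change s (0 + n + (i + n + 1)) = s (i + 1)
      rw [← dk_per hs (i + 1)]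
      congr 1
      omega
    rw [add_assoc, h1, h2]
  rw [hg]
  rintro A B ⟨hA, hB, hcov⟩ ⟨hgA, hgB⟩
  have hcov' : ∀ x ∈ S, x ∈ B ∨ x ∈ A := fun x hx => (hcov x hx).symm
  have hhB := dr_hub hs' hS' hA hcov
  have hhA := dr_hub hs' hS' hB hcov'
  obtain ⟨a, han, ha⟩ : ∃ a < n, t a ∉ B := by
    by_contra hne
    push Not at hne
    exact hB (dk_top hs' hhB hne)
  obtain ⟨b, hbn, hb⟩ : ∃ b < n, t b ∉ A := by
    by_contra hne
    push Not at hne
    exact hA (dk_top hs' hhA hne)
  have hne : a ≠ b := by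
    rintro rfl
    rcases hcov _ ((hS' _).2 (Or.inr (Or.inl ⟨a, rfl⟩))) with h1 | h1
    · exact hb h1
    · exact ha h1
  rcases lt_or_gt_of_ne hne with hlt | hlt
  · exact dr_core hs' hS' hcov hhA hhB hgA hgB hlt hbn ha hb
  · rw [inf_comm]
    exact dr_core hs' hS' hcov' hhB hhA hgB hgA hlt han hb ha

end Pool.Agent.WW

end

section

/-!
K D4: the traces at a rim next to a `K4` plane are large.
-/

namespace Pool.Agent.WW

open Submodule Module

universe u

theorem kDelTr : KDelTr.{u} := by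
  intro V _ _ n h s S Q R hn hs hS hTr
  have hfin := dk_fin hs
  obtain ⟨hQ, hgQ, hgR, hcov, -, hg⟩ := hTr
  set Γ := span (ZMod 2) {h, s 0, s 1} with hΓ
  -- membership in S
  have hspoke : ∀ i, s i ∈ S := fun i => (hS _).2 (Or.inr (Or.inl ⟨i, rfl⟩))
  have hspoke' : ∀ i, s i + h ∈ S := fun i => by rw [← hs.1]; exact hspoke _
  have hrim : ∀ i, s i + s (i + 1) ∈ S := fun i => (hS _).2 (Or.inr (Or.inr ⟨i, rfl⟩))
  -- points outside Γ
  have hout : ∀ (χ : V →ₗ[ZMod 2] ZMod 2), χ h = 0 → χ (s 0) = 0 → χ (s 1) = 0 → ∀ x,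
      χ x ≠ 0 → x ∉ Γ := by
    intro χ h1 h2 h3 x hx hxΓ
    apply hx
    have h4 : Γ ≤ LinearMap.ker χ := by
      rw [hΓ, span_le]
      rintro y (rfl | rfl | rfl)
      · exact h1
      · exact h2
      · exact h3
    exact h4 hxΓ
  have hout2 : ∀ j, 2 ≤ j → j < n → ∀ x, (∀ χ : V →ₗ[ZMod 2] ZMod 2, χ h = 0 →
      (∀ i < n, χ (s i) = if i = j then 1 else 0) → χ x = 1) → x ∉ Γ := by
    intro j hj hjn x hx
    obtain ⟨χ, h1, h2⟩ := dk_coord hs hjn
    refine hout χ h1 ?_ ?_ x ?_
    · rw [h2 0 (by omega), if_neg (by omega)]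
    · rw [h2 1 (by omega), if_neg (by omega)]
    · rw [hx χ h1 h2]
      exact one_ne_zero
  have hsΓ : ∀ j, 2 ≤ j → j < n → s j ∉ Γ := fun j hj hjn =>
    hout2 j hj hjn _ fun χ _ h2 => by rw [h2 j hjn, if_pos rfl]
  have hshΓ : ∀ j, 2 ≤ j → j < n → s j + h ∉ Γ := fun j hj hjn =>
    hout2 j hj hjn _ fun χ h1 h2 => by rw [map_add, h1, h2 j hjn, if_pos rfl, add_zero]
  have hrΓ : ∀ j, 1 ≤ j → j + 1 < n → s j + s (j + 1) ∉ Γ := fun j hj hjn =>
    hout2 (j + 1) (by omega) hjn _ fun χ _ h2 => by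
      rw [map_add, h2 j (by omega), h2 (j + 1) hjn, if_neg (by omega), if_pos rfl, zero_add]
  have hcan : ∀ (C : Submodule (ZMod 2) V) (x y : V), x + y ∈ C → x ∈ C → y ∈ C := by
    intro C x y h1 h2
    have := add_mem h2 h1
    rwa [← add_assoc, dk_self, zero_add] at this
  have hcan' : ∀ (C : Submodule (ZMod 2) V) (x y : V), x + y ∈ C → y ∈ C → x ∈ C := by
    intro C x y h1 h2
    have := add_mem h1 h2
    rwa [add_assoc, dk_self, add_zero] at this
  by_cases hhQ : h ∈ Q
  swap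
  · -- the hub is not in Q
    have hex : ∀ i, 2 ≤ i → i < n → ∃ ε : ZMod 2, s i + ε • h ∈ R := by
      intro i hi hin
      by_cases h1 : s i ∈ Q
      · refine ⟨1, ?_⟩
        rw [one_smul]
        refine (hcov _ (hspoke' i) (hshΓ i hi hin)).resolve_left ?_
        intro h2
        exact hhQ (hcan Q _ _ h2 h1)
      · refine ⟨0, ?_⟩
        rw [zero_smul, add_zero]
        exact (hcov _ (hspoke i) (hsΓ i hi hin)).resolve_left h1
    obtain ⟨ε2, h2⟩ := hex 2 (by omega) (by omega)
    obtain ⟨ε3, h3⟩ := hex 3 (by omega) (by omega)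
    obtain ⟨ε4, h4⟩ := hex 4 (by omega) (by omega)
    refine dk_four h2 h3 h4 hgR ?_
    intro c₀ c₁ c₂ c₃ hc
    have hev : ∀ j < n, ((if 2 = j then c₀ else 0) + (if 3 = j then c₁ else 0) +
        (if 4 = j then c₂ else 0)) + ((if 1 = j then c₃ else 0) + (if 2 = j then c₃ else 0)) = 0 := by
      intro j hj
      obtain ⟨χ, hχ0, hχ⟩ := dk_coord hs hj
      have h1 := congrArg χ hc
      simp only [map_add, map_smul, map_zero, hχ0, hχ 1 (by omega), hχ 2 (by omega),
        hχ 3 (by omega), hχ 4 (by omega), smul_eq_mul, mul_zero, zero_add, add_zero, mul_ite,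
        mul_one, mul_add] at h1
      exact h1
    have e3 : c₃ = 0 := by simpa using hev 1 (by omega)
    have e1 : c₁ = 0 := by simpa using hev 3 (by omega)
    have e2 : c₂ = 0 := by simpa using hev 4 (by omega)
    have e0 : c₀ = 0 := by simpa [e3] using hev 2 (by omega)
    exact ⟨e0, e1, e2, e3⟩
  -- the hub is in Q
  have hJ : ∀ i, 2 ≤ i → i < n → s i ∉ Q → h ∈ R ∧ s i ∈ R := by
    intro i hi hin h1
    have h2 := (hcov _ (hspoke i) (hsΓ i hi hin)).resolve_left h1
    have h3 := (hcov _ (hspoke' i) (hshΓ i hi hin)).resolve_left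
      (fun h4 => h1 (hcan' Q _ _ h4 hhQ))
    exact ⟨hcan R _ _ h3 h2, h2⟩
  by_cases h2Q : s 2 ∈ Q
  swap
  · -- case (a)
    obtain ⟨hhR, h2R⟩ := hJ 2 le_rfl (by omega) h2Q
    have h1R : s 1 ∈ R := hcan' R _ _ hgR h2R
    have h3R : s 3 ∈ R := by
      by_cases h3Q : s 3 ∈ Q
      · have h4 : s 2 + s 3 ∈ R := by
          refine (hcov _ (hrim 2) (hrΓ 2 (by omega) (by omega))).resolve_left ?_
          intro h5
          exact h2Q (hcan' Q _ _ h5 h3Q)
        exact hcan R _ _ h4 h2R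
      · exact (hJ 3 (by omega) (by omega) h3Q).2
    refine dk_four hhR h1R h2R h3R ?_
    intro c₀ c₁ c₂ c₃ hc
    have hev : ∀ j < n, (if 1 = j then c₁ else 0) + (if 2 = j then c₂ else 0) +
        (if 3 = j then c₃ else 0) = 0 := by
      intro j hj
      obtain ⟨χ, hχ0, hχ⟩ := dk_coord hs hj
      have h1 := congrArg χ hc
      simp only [map_add, map_smul, map_zero, hχ0, hχ 1 (by omega), hχ 2 (by omega),
        hχ 3 (by omega), smul_eq_mul, mul_zero, zero_add, add_zero, mul_ite,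
        mul_one] at h1
      exact h1
    have e1 : c₁ = 0 := by simpa using hev 1 (by omega)
    have e2 : c₂ = 0 := by simpa using hev 2 (by omega)
    have e3 : c₃ = 0 := by simpa using hev 3 (by omega)
    obtain ⟨η, hη, -⟩ := dk_coordh hs
    have h1 := congrArg η hc
    rw [e1, e2, e3] at h1
    exact ⟨by simpa [hη] using h1, e1, e2, e3⟩
  have h1Q : s 1 ∈ Q := hcan' Q _ _ hgQ h2Q
  by_cases hex : ∃ i, 3 ≤ i ∧ i < n ∧ s i ∉ Q
  · -- case (b)
    obtain ⟨i, ⟨hi3, hin, hiQ⟩, hmin⟩ : ∃ i, (3 ≤ i ∧ i < n ∧ s i ∉ Q) ∧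
        ∀ j, j < i → ¬ (3 ≤ j ∧ j < n ∧ s j ∉ Q) := by
      classical
      exact ⟨Nat.find hex, Nat.find_spec hex, fun j hj => Nat.find_min hex hj⟩
    have hpQ : s (i - 1) ∈ Q := by
      by_cases h3 : i = 3
      · subst h3
        exact h2Q
      · have := hmin (i - 1) (by omega)
        by_contra h4
        exact this ⟨by omega, by omega, h4⟩
    obtain ⟨hhR, hiR⟩ := hJ i (by omega) hin hiQ
    have hr : s (i - 1) + s i ∈ R := by
      have h5 := hcov _ (hrim (i - 1)) (hrΓ (i - 1) (by omega) (by omega))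
      rw [Nat.sub_add_cancel (by omega)] at h5
      refine h5.resolve_left ?_
      intro h6
      exact hiQ (hcan Q _ _ h6 hpQ)
    have hpR : s (i - 1) ∈ R := hcan' R _ _ hr hiR
    refine dk_four hhR hiR hpR hgR ?_
    intro c₀ c₁ c₂ c₃ hc
    have hev : ∀ j < n, (if i = j then c₁ else 0) + (if i - 1 = j then c₂ else 0) +
        ((if 1 = j then c₃ else 0) + (if 2 = j then c₃ else 0)) = 0 := by
      intro j hj
      obtain ⟨χ, hχ0, hχ⟩ := dk_coord hs hj
      have h1 := congrArg χ hc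
      simp only [map_add, map_smul, map_zero, hχ0, hχ 1 (by omega), hχ 2 (by omega),
        hχ i hin, hχ (i - 1) (by omega), smul_eq_mul, mul_zero, zero_add, add_zero, mul_ite,
        mul_one, mul_add] at h1
      exact h1
    have e3 : c₃ = 0 := by
      have := hev 1 (by omega)
      rw [if_neg (by omega), if_neg (by omega), if_pos rfl, if_neg (by omega)] at this
      simpa using this
    have e1 : c₁ = 0 := by
      have := hev i hin
      rw [if_pos rfl, if_neg (by omega), e3] at this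
      simpa using this
    have e2 : c₂ = 0 := by
      have := hev (i - 1) (by omega)
      rw [if_neg (by omega), if_pos rfl, e3] at this
      simpa using this
    obtain ⟨η, hη, -⟩ := dk_coordh hs
    have h1 := congrArg η hc
    rw [e1, e2, e3] at h1
    exact ⟨by simpa [hη] using h1, e1, e2, e3⟩
  · -- case (c)
    exfalso
    push Not at hex
    have hallQ : ∀ i, 1 ≤ i → i < n → s i ∈ Q := by
      intro i hi hin
      by_cases h3 : 3 ≤ i
      · exact hex i h3 hin
      · have : i = 1 ∨ i = 2 := by omega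
        rcases this with rfl | rfl
        · exact h1Q
        · exact h2Q
    have hhΓ : h ∈ Γ := subset_span (by simp)
    have h0Γ : s 0 ∈ Γ := subset_span (by simp)
    have h1Γ : s 1 ∈ Γ := subset_span (by simp)
    set b := s (n - 1) + s 0 + h with hb
    have hsub : {x : V | x ∈ S ∧ x ∉ Γ ∧ x ∉ Q} ⊆ {b} := by
      rintro x ⟨hxS, hxΓ, hxQ⟩
      rw [Set.mem_singleton_iff]
      rcases (hS x).1 hxS with rfl | ⟨i, rfl⟩ | ⟨i, rfl⟩
      · exact absurd hhΓ hxΓ
      · exfalso
        obtain ⟨j, hj, hj'⟩ := dk_red (by omega) hs i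
        by_cases hj0 : j = 0
        · subst hj0
          apply hxΓ
          rcases hj' with h3 | h3
          · rw [h3]; exact h0Γ
          · rw [h3]; exact add_mem h0Γ hhΓ
        · apply hxQ
          have h4 := hallQ j (by omega) hj
          rcases hj' with h3 | h3
          · rw [h3]; exact h4
          · rw [h3]; exact add_mem h4 hhQ
      · obtain ⟨j, hj, hj'⟩ := dk_rim (by omega) hs i
        rw [hj'] at hxΓ hxQ ⊢
        by_cases hj0 : j = 0
        · subst hj0
          exact absurd (add_mem h0Γ h1Γ) hxΓ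
        · by_cases hjn : j + 1 < n
          · exact absurd (add_mem (hallQ j (by omega) hj) (hallQ (j + 1) (by omega) hjn)) hxQ
          · have h5 : j = n - 1 := by omega
            subst h5
            rw [Nat.sub_add_cancel (by omega), hb, add_assoc, ← hs.1, Nat.zero_add]
    obtain ⟨χ, hχ0, hχ⟩ := dk_coord hs (j := 2) (by omega)
    have hker : span (ZMod 2) {x : V | x ∈ S ∧ x ∉ Γ ∧ x ∉ Q} ⊔ Γ ≤ LinearMap.ker χ := by
      refine sup_le ?_ ?_
      · rw [span_le]
        refine hsub.trans ?_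
        rintro y rfl
        change χ b = 0
        rw [hb, map_add, map_add, hχ0, hχ (n - 1) (by omega), hχ 0 (by omega),
          if_neg (by omega), if_neg (by omega)]
        simp
      · rw [hΓ, span_le]
        rintro y (rfl | rfl | rfl)
        · exact hχ0
        · change χ (s 0) = 0
          rw [hχ 0 (by omega), if_neg (by omega)]
        · change χ (s 1) = 0
          rw [hχ 1 (by omega), if_neg (by omega)]
    have h6 := hker hg
    rw [LinearMap.mem_ker, map_add, hχ 1 (by omega), hχ 2 (by omega), if_neg (by omega),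
      if_pos rfl, zero_add] at h6
    exact one_ne_zero h6

end Pool.Agent.WW

end

section

/-!
The interface `KHIT` from the HIT lemma.
-/

namespace Pool.Agent.WW

open Submodule Module

universe u

/-- a point of the contraction which is not doubled has exactly one preimage -/
theorem kh_unique {V W : Type*} [AddCommGroup V] [Module (ZMod 2) V] [AddCommGroup W]
    [Module (ZMod 2) W] [DecidableEq V] [DecidableEq W] {E : Finset V} {π : V →ₗ[ZMod 2] W}
    {e : V} (hker : ∀ v, π v = 0 ↔ v = 0 ∨ v = e) {v : V}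
    (hv : π v ∈ contr π E) (hnd : ¬ PD (E : Set V) ⊥ e v) :
    ∃ a ∈ E, π a = π v ∧ ∀ x ∈ E, π x = π v → x = a := by
  have hpres : ∀ w : V, Pres (E : Set V) ⊥ w ↔ w ∈ E := by
    intro w
    constructor
    · rintro ⟨x, hx, hxw⟩
      rw [Submodule.mem_bot] at hxw
      have : x = w := by
        have h1 := mf_cancel x w
        rw [hxw, add_zero] at h1
        exact h1
      exact this ▸ hx
    · intro h
      exact ⟨w, h, by rw [mf_add_self]; exact zero_mem _⟩
  unfold contr at hv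
  rw [Finset.mem_erase, Finset.mem_image] at hv
  obtain ⟨-, a, ha, hav⟩ := hv
  refine ⟨a, ha, hav, ?_⟩
  intro x hx hxv
  have h1 : ∀ y : V, π y = π v → y = v ∨ y = v + e := by
    intro y hy
    have h2 : π (y + v) = 0 := by rw [map_add, hy, mf_add_self]
    rcases (hker _).1 h2 with h3 | h3
    · left
      have h4 := mf_cancel y v
      rw [h3, add_zero] at h4
      exact h4
    · right
      have h4 : y = (y + v) + v := by rw [ht_add_add]
      rw [h4, h3, add_comm]
  have hnd' : ¬ (v ∈ E ∧ v + e ∈ E) := by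
    rintro ⟨k1, k2⟩
    exact hnd ⟨(hpres _).2 k1, (hpres _).2 k2⟩
  rcases h1 a hav with rfl | rfl <;> rcases h1 x hxv with rfl | rfl
  · rfl
  · exact absurd ⟨ha, hx⟩ hnd'
  · exact absurd ⟨hx, ha⟩ hnd'
  · rfl

theorem kHIT : KHIT.{u} := by
  intro V _ _ _ _ W _ _ _ _ E π e n h s hsurj hker h0 he hfree hn hs hS
  obtain ⟨h', hh'⟩ := hsurj h
  choose t ht using fun i => hsurj (s i)
  have hn0 : 0 < n := by omega
  set s' : ℕ → V := fun i => t (i % n) + ((i / n : ℕ) : ZMod 2) • h' with hs'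
  have tw' : ∀ i, s' (i + n) = s' i + h' := by
    intro i
    simp only [hs']
    rw [Nat.add_mod_right, Nat.add_div_right i hn0, Nat.cast_succ, add_smul, one_smul, add_assoc]
  have hπ : ∀ i, π (s' i) = s i := by
    refine ht_periodic hn0 (fun i hi => ?_) (fun i hi => ?_)
    · simp only [hs']
      rw [Nat.mod_eq_of_lt hi, Nat.div_eq_of_lt hi, Nat.cast_zero, zero_smul, add_zero, ht]
    · rw [tw', map_add, hi, hh', hs.1]
  have hmem : ∀ v, π v ∈ contr π E → PG (E : Set V) ⊥ e v := by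
    intro v hv
    unfold contr at hv
    rw [Finset.mem_erase, Finset.mem_image] at hv
    obtain ⟨-, a, ha, hav⟩ := hv
    have h2 : π (a + v) = 0 := by rw [map_add, hav, mf_add_self]
    rcases (hker _).1 h2 with h3 | h3
    · exact Or.inl ⟨a, ha, by rw [h3]; exact zero_mem _⟩
    · refine Or.inr ⟨a, ha, ?_⟩
      rw [← add_assoc, h3, mf_add_self]
      exact zero_mem _
  have cS : ∀ w, w = h ∨ (∃ i, w = s i) ∨ (∃ i, w = s i + s (i + 1)) → w ∈ contr π E := by
    intro w hw
    exact (hS w).2 hw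
  by_contra hcon
  apply hfree
  have hm : n - 4 + 4 = n := by omega
  refine ht_main (n - 4) ⊥ s' (g := e) (h := h') ?_
  rw [hm]
  refine ⟨bot_le, ⟨e, he, by rw [mf_add_self]; exact zero_mem _⟩, tw', ?_, ?_, ?_, ?_, ?_⟩
  · exact hmem _ (by rw [hh']; exact cS _ (Or.inl rfl))
  · intro i
    exact hmem _ (by rw [hπ]; exact cS _ (Or.inr (Or.inl ⟨i, rfl⟩)))
  · intro i
    exact hmem _ (by rw [map_add, hπ, hπ]; exact cS _ (Or.inr (Or.inr ⟨i, rfl⟩)))
  · -- dimension
    rw [finrank_bot, bot_sup_eq]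
    have hr : finrank (ZMod 2) V = n + 2 := by
      have h1 := LinearMap.finrank_range_add_finrank_ker π
      have h2 : LinearMap.ker π = span (ZMod 2) {e} := by
        ext v
        rw [LinearMap.mem_ker, hker, mem_span_singleton]
        constructor
        · rintro (rfl | rfl)
          · exact ⟨0, by simp⟩
          · exact ⟨1, by simp⟩
        · rintro ⟨c, rfl⟩
          have hc : ∀ c : ZMod 2, c = 0 ∨ c = 1 := by decide
          rcases hc c with rfl | rfl
          · left; simp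
          · right; simp
      have he0 : e ≠ 0 := by
        rintro rfl
        exact h0 he
      rw [LinearMap.range_eq_top.2 hsurj, finrank_top, h2, finrank_span_singleton he0, hs.2.2] at h1
      omega
    have htop : span (ZMod 2) ({e, h'} ∪ Set.range s') = ⊤ := by
      set S := span (ZMod 2) ({e, h'} ∪ Set.range s') with hSdef
      have heS : e ∈ S := subset_span (Or.inl (Or.inl rfl))
      have hmap : S.map π = ⊤ := by
        apply dk_top hs
        · exact ⟨h', subset_span (Or.inl (Or.inr rfl)), hh'⟩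
        · intro i _
          exact ⟨s' i, subset_span (Or.inr ⟨i, rfl⟩), hπ i⟩
      rw [eq_top_iff]
      rintro v -
      have h1 : π v ∈ S.map π := by rw [hmap]; exact mem_top
      obtain ⟨w, hw, hwv⟩ := h1
      have h2 : π (v + w) = 0 := by rw [map_add, hwv, mf_add_self]
      have h3 : v + w ∈ S := by
        rcases (hker _).1 h2 with h3 | h3
        · rw [h3]; exact S.zero_mem
        · rw [h3]; exact heS
      have h4 : v = (v + w) + w := by rw [ht_add_add]
      rw [h4]
      exact S.add_mem h3 hw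
    rw [htop, finrank_top, hr]
    omega
  · -- hit
    intro j
    by_contra hnh
    unfold HitAt at hnh
    push Not at hnh
    obtain ⟨n1, n2, n3, n4⟩ := hnh
    obtain ⟨a, ha, hav, hau⟩ := kh_unique hker (E := E) (v := s' (j + 1))
      (by rw [hπ]; exact cS _ (Or.inr (Or.inl ⟨_, rfl⟩))) n1
    obtain ⟨b, hb, hbv, hbu⟩ := kh_unique hker (E := E) (v := s' (j + 1) + h')
      (by rw [← tw', hπ]; exact cS _ (Or.inr (Or.inl ⟨_, rfl⟩))) n2
    obtain ⟨c, hc, hcv, hcu⟩ := kh_unique hker (E := E) (v := s' j + s' (j + 1))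
      (by rw [map_add, hπ, hπ]; exact cS _ (Or.inr (Or.inr ⟨_, rfl⟩))) n3
    obtain ⟨d, hd, hdv, hdu⟩ := kh_unique hker (E := E) (v := s' (j + 1) + s' (j + 2))
      (by rw [map_add, hπ, hπ]; exact cS _ (Or.inr (Or.inr ⟨_, rfl⟩))) n4
    rw [hπ] at hav hau
    rw [map_add, hπ, hh'] at hbv hbu
    rw [map_add, hπ, hπ] at hcv hcu hdv hdu
    obtain ⟨hs2, hS2⟩ := kDelShift W n h s (contr π E : Set W) (j + 1) hn0 hs hS
    obtain ⟨χ, hχh, hχ⟩ := dk_coord hs2 hn0
    have e0 : s (0 + (j + 1)) = s (j + 1) := by rw [Nat.zero_add]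
    have e1 : s (1 + (j + 1)) = s (j + 2) := by congr 1; omega
    have χ0 : χ (s (j + 1)) = 1 := by
      have := hχ 0 hn0
      rw [if_pos rfl] at this
      rw [← e0]
      exact this
    have χi : ∀ i < n, i ≠ 0 → χ (s (i + (j + 1))) = 0 := by
      intro i hi hi0
      have := hχ i hi
      rw [if_neg hi0] at this
      exact this
    have χn : χ (s (n + (j + 1))) = 1 := by
      rw [show n + (j + 1) = (j + 1) + n by omega, hs.1, map_add, χ0, hχh, add_zero]
    have ej : s (n - 1 + (j + 1)) + s (n + (j + 1)) = s j + s (j + 1) := by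
      rw [show n - 1 + (j + 1) = j + n by omega, show n + (j + 1) = (j + 1) + n by omega, hs.1,
        hs.1]
      have : s j + h + (s (j + 1) + h) = s j + s (j + 1) + (h + h) := by abel
      rw [this, mf_add_self, add_zero]
    have χj : χ (s j + s (j + 1)) = 1 := by
      rw [← ej, map_add, χn, χi (n - 1) (by omega) (by omega), zero_add]
    have χ2 : χ (s (j + 1) + s (j + 2)) = 1 := by
      rw [map_add, χ0, ← e1, χi 1 (by omega) (by omega), add_zero]
    apply hcon
    have key : ∀ x : V, x ∈ (LinearMap.ker χ).comap π ↔ χ (π x) = 0 := by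
      intro x
      rw [mem_comap, LinearMap.mem_ker]
    refine ⟨j, (LinearMap.ker χ).comap π, a, b, c, d, ?_, ?_, ?_, hav, hbv, hcv, hdv⟩
    · intro htop
      have : a ∈ (LinearMap.ker χ).comap π := by rw [htop]; exact mem_top
      rw [key, hav, χ0] at this
      exact one_ne_zero this
    · rw [key, (hker e).2 (Or.inr rfl), map_zero]
    · ext x
      have hiff : (x ∈ (E : Set V) \ (((LinearMap.ker χ).comap π : Submodule (ZMod 2) V) : Set V)) ↔
          x ∈ E ∧ ¬ χ (π x) = 0 := by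
        rw [← key]
        rfl
      rw [hiff]
      simp only [Set.mem_insert_iff, Set.mem_singleton_iff]
      constructor
      · rintro ⟨hx, hxχ⟩
        have hx0 : π x ≠ 0 := by
          intro h1
          rw [h1, map_zero] at hxχ
          exact hxχ rfl
        have hxc : π x ∈ (contr π E : Set W) := by
          unfold contr
          rw [Finset.mem_coe, Finset.mem_erase, Finset.mem_image]
          exact ⟨hx0, x, hx, rfl⟩
        rcases (hS2 (π x)).1 hxc with h1 | ⟨i, h1⟩ | ⟨i, h1⟩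
        · rw [h1, hχh] at hxχ
          exact absurd rfl hxχ
        · obtain ⟨k, hk, hk2⟩ := dk_red hn0 hs2 i
          simp only at hk2 h1
          by_cases hk0 : k = 0
          · subst hk0
            rw [e0] at hk2
            rcases hk2 with hk2 | hk2
            · left
              exact hau x hx (by rw [h1, hk2])
            · right; left
              exact hbu x hx (by rw [h1, hk2])
          · exfalso
            apply hxχ
            rw [h1]
            rcases hk2 with hk2 | hk2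
            · rw [hk2]; exact χi k hk hk0
            · rw [hk2, map_add, χi k hk hk0, hχh, add_zero]
        · obtain ⟨k, hk, hk2⟩ := dk_rim hn0 hs2 i
          simp only at hk2 h1
          by_cases hk0 : k = 0
          · subst hk0
            right; right; right
            refine hdu x hx ?_
            rw [h1, hk2, e0, show 0 + 1 + (j + 1) = j + 2 by omega]
          · by_cases hk1 : k = n - 1
            · subst hk1
              right; right; left
              refine hcu x hx ?_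
              rw [h1, hk2, show n - 1 + 1 + (j + 1) = n + (j + 1) by omega, ej]
            · exfalso
              apply hxχ
              rw [h1, hk2, map_add, χi k hk hk0, χi (k + 1) (by omega) (by omega), add_zero]
      · rintro (rfl | rfl | rfl | rfl)
        · refine ⟨ha, ?_⟩
          rw [hav, χ0]; exact one_ne_zero
        · refine ⟨hb, ?_⟩
          rw [hbv, map_add, χ0, hχh, add_zero]; exact one_ne_zero
        · refine ⟨hc, ?_⟩
          rw [hcv, χj]; exact one_ne_zero
        · refine ⟨hd, ?_⟩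
          rw [hdv, χ2]; exact one_ne_zero

end Pool.Agent.WW

end
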