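import Pool.Agent.Work.MP_a8f287_co.Bd.B02
import Pool.Agent.Work.MP_a8f287_co.Bd.B07
import Pool.Agent.Work.MP_a8f287_co.Bd.B06
import Pool.Agent.Work.MP_a8f287_co.Bd.B05
import Pool.Agent.Work.MP_a8f287_co.Bd.B04
import Pool.Agent.Work.MP_a8f287_co.Bd.B01

/-! Bundle of small proof modules (one section per former module). -/

section

/-!
T15: no `GQ13` in a good set of rank at least six.
-/

namespace Pool.Agent.WW

open Submodule Module

universe u

theorem claimNoGQ : ClaimNoGQ.{u} := by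
  intro hT V _ _ _ E hG h6 b hb
  by_contra hcon
  push Not at hcon
  have hE : ∀ n ∈ gq13, comb b n ∈ E := hcon
  obtain ⟨K, x, a1, a2, a3, hK, hind, l1, l2, l3, n1, n2, n3, n12, n13, n23, ns, p0, p1, p2, p3⟩ :=
    star_codes hG b hb (by norm_num) (by omega)
  obtain ⟨C, s0, s1, s2, s3, hc⟩ := hT a1 l1 a2 l2 a3 l3 n1 n2 n3 n12 n13 n23 ns
  refine hG.free (hasK5_of_cert (Fin.snoc b x : Fin 6 → V) E K hK hind _ ?_ C s0 s1 s2 s3 hc)
  intro n hn
  rw [testBit_mask] at hn
  simp only [List.mem_append, List.mem_cons, List.not_mem_nil, or_false] at hn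
  have hx : ∀ a < 2 ^ 5, 32 ^^^ a < 2 ^ 6 := fun a ha =>
    Nat.xor_lt_two_pow (by norm_num) (ha.trans (by norm_num))
  rcases hn with hn | rfl | rfl | rfl | rfl
  · have hlt : n < 2 ^ 5 := by
      have : ∀ k ∈ gq13, k < 2 ^ 5 := by decide
      exact this n hn
    refine ⟨hlt.trans (by norm_num), fano_pres_of_mem ?_⟩
    rw [comb_snoc, Nat.testBit_lt_two_pow hlt]
    simpa using hE n hn
  · exact ⟨by norm_num, p0⟩
  · exact ⟨hx _ l1, p1⟩
  · exact ⟨hx _ l2, p2⟩
  · exact ⟨hx _ l3, p3⟩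

end Pool.Agent.WW

end

section

/-!
# Item B10: plane sides are light
-/

namespace Pool.Agent.WW

open Submodule Module

universe u

theorem pl3_card_two {W : Type*} [AddCommGroup W] [Module (ZMod 2) W]
    [FiniteDimensional (ZMod 2) W] (S : Submodule (ZMod 2) W) :
    (S : Set W).ncard = 2 ^ finrank (ZMod 2) S := by
  have h : Nat.card ↥S = Nat.card (ZMod 2) ^ finrank (ZMod 2) ↥S :=
    Module.natCard_eq_pow_finrank
  rw [Nat.card_zmod] at h
  exact h

/-- counting the two parts of a side of dimension three -/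
theorem pl3_count {W : Type*} [AddCommGroup W] [Module (ZMod 2) W]
    [FiniteDimensional (ZMod 2) W] (N : Finset W) (S S' : Submodule (ZMod 2) W)
    (h0 : (0 : W) ∉ N) (h2 : finrank (ZMod 2) ↥(S ⊓ S') = 2) (h3 : finrank (ZMod 2) S = 3) :
    (res N S).card = ((N : Set W) ∩ ((S : Set W) \ (S' : Set W))).ncard +
        ((N : Set W) ∩ ((S ⊓ S' : Submodule (ZMod 2) W) : Set W)).ncard ∧
      ((N : Set W) ∩ ((S : Set W) \ (S' : Set W))).ncard ≤ 4 ∧
      ((N : Set W) ∩ ((S ⊓ S' : Submodule (ZMod 2) W) : Set W)).ncard ≤ 3 ∧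
      ((∃ y ∈ S ⊓ S', y ≠ 0 ∧ y ∉ N) →
        ((N : Set W) ∩ ((S ⊓ S' : Submodule (ZMod 2) W) : Set W)).ncard ≤ 2) := by
  have : Finite W := Module.finite_of_finite (ZMod 2)
  have hS : (S : Set W).ncard = 8 := by rw [pl3_card_two, h3]; norm_num
  have hI : ((S ⊓ S' : Submodule (ZMod 2) W) : Set W).ncard = 4 := by
    rw [pl3_card_two, h2]; norm_num
  have hdiff : (S : Set W) \ (S' : Set W) =
      (S : Set W) \ ((S ⊓ S' : Submodule (ZMod 2) W) : Set W) := by
    ext x
    simp only [Set.mem_sdiff, SetLike.mem_coe, Submodule.mem_inf]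
    tauto
  have hD : ((S : Set W) \ (S' : Set W)).ncard = 4 := by
    rw [hdiff]
    have := Set.ncard_sdiff_add_ncard_of_subset
      (s := ((S ⊓ S' : Submodule (ZMod 2) W) : Set W)) (t := (S : Set W))
      (fun x hx => (Submodule.mem_inf.1 hx).1)
    omega
  refine ⟨?_, ?_, ?_, ?_⟩
  · rw [← Set.ncard_coe_finset, coe_res, ← Set.ncard_union_eq]
    · congr 1
      ext x
      simp only [Set.mem_union, Set.mem_inter_iff, Set.mem_sdiff, SetLike.mem_coe,
        Submodule.mem_inf]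
      tauto
    · rw [Set.disjoint_left]
      intro x hx hx'
      exact hx.2.2 (Submodule.mem_inf.1 hx'.2).2
  · exact (Set.ncard_le_ncard Set.inter_subset_right).trans hD.le
  · have h1 : (N : Set W) ∩ ((S ⊓ S' : Submodule (ZMod 2) W) : Set W) ⊆
        ((S ⊓ S' : Submodule (ZMod 2) W) : Set W) \ {0} := by
      rintro x ⟨hx, hx'⟩
      refine ⟨hx', ?_⟩
      rintro rfl
      exact h0 hx
    have h2 := Set.ncard_le_ncard h1
    rw [Set.ncard_sdiff_singleton_of_mem (show (0 : W) ∈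
      ((S ⊓ S' : Submodule (ZMod 2) W) : Set W) from zero_mem _)] at h2
    omega
  · rintro ⟨y, hy, hy0, hyN⟩
    have h1 : (N : Set W) ∩ ((S ⊓ S' : Submodule (ZMod 2) W) : Set W) ⊆
        (((S ⊓ S' : Submodule (ZMod 2) W) : Set W) \ {0}) \ {y} := by
      rintro x ⟨hx, hx'⟩
      refine ⟨⟨hx', ?_⟩, ?_⟩
      · rintro rfl
        exact h0 hx
      · rintro rfl
        exact hyN hx
    have h2 := Set.ncard_le_ncard h1
    rw [Set.ncard_sdiff_singleton_of_mem (show y ∈
      (((S ⊓ S' : Submodule (ZMod 2) W) : Set W) \ {0} : Set W) from ⟨hy, hy0⟩),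
      Set.ncard_sdiff_singleton_of_mem (show (0 : W) ∈
      ((S ⊓ S' : Submodule (ZMod 2) W) : Set W) from zero_mem _)] at h2
    omega

/-- two vectors outside a hyperplane differ by a vector of the hyperplane -/
theorem pl3_hyp {V : Type*} [AddCommGroup V] [Module (ZMod 2) V]
    [FiniteDimensional (ZMod 2) V] (H : Submodule (ZMod 2) V)
    (hH : finrank (ZMod 2) H + 1 = finrank (ZMod 2) V) {x y : V} (hx : x ∉ H) (hy : y ∉ H) :
    x + y ∈ H := by
  have hlt : H < H ⊔ span (ZMod 2) {x} := by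
    refine lt_of_le_of_ne le_sup_left ?_
    intro h
    apply hx
    rw [h]
    exact mem_sup_right (mem_span_singleton_self x)
  have h1 := Submodule.finrank_lt_finrank_of_lt hlt
  have h2 : H ⊔ span (ZMod 2) {x} = ⊤ := by
    apply Submodule.eq_top_of_finrank_eq
    have := Submodule.finrank_le (H ⊔ span (ZMod 2) {x})
    omega
  have h3 : y ∈ H ⊔ span (ZMod 2) {x} := by rw [h2]; exact mem_top
  obtain ⟨h, hh, z, hz, hy'⟩ := mem_sup.1 h3
  obtain ⟨c, rfl⟩ := mem_span_singleton.1 hz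
  have hz2 : ∀ c : ZMod 2, c = 0 ∨ c = 1 := by decide
  rcases hz2 c with rfl | rfl
  · exfalso
    apply hy
    rw [← hy', zero_smul, add_zero]
    exact hh
  · rw [← hy', one_smul, add_comm h x, ← add_assoc, ctr_two_add, zero_add]
    exact hh

/-- B10: plane sides are light -/
theorem c3Plane (hQ : C3Quad.{u}) (hT : C3Types.{u}) (hO : C3OneCtr.{u}) : C3Plane.{u} := by
  intro V _ _ _ _ W _ _ _ _ E π e S S' hE hK hdim hdeg hπ hker he hcov h2 h3
  have h0E := hE.zero
  have he0 : e ≠ 0 := by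
    rintro rfl
    exact h0E he
  obtain ⟨hsep, hctr⟩ := claimSepGe V W E hE (by omega)
  obtain ⟨hspN, -⟩ := hctr π e hπ hker he
  have h0N : (0 : W) ∉ contr π E := by
    rw [contr]
    exact Finset.notMem_erase _ _
  have hmemN : ∀ x ∈ E, π x ≠ 0 → π x ∈ contr π E := by
    intro x hx hx0
    rw [contr, Finset.mem_erase]
    exact ⟨hx0, Finset.mem_image_of_mem π hx⟩
  have hofN : ∀ w ∈ contr π E, ∃ x ∈ E, π x = w ∧ w ≠ 0 := by
    intro w hw
    rw [contr, Finset.mem_erase, Finset.mem_image] at hw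
    obtain ⟨hw0, x, hx, hxw⟩ := hw
    exact ⟨x, hx, hxw, hw0⟩
  -- dimensions
  obtain ⟨-, hd1⟩ := covdim_aux hspN hcov
  have hdW : finrank (ZMod 2) V = finrank (ZMod 2) W + 1 := by
    have := c4_finrank_comap π e hπ hker he0 ⊤
    rw [comap_top, finrank_top, finrank_top] at this
    exact this
  set H := S'.comap π with hH
  set G := S.comap π with hG
  have hdH : finrank (ZMod 2) H = finrank (ZMod 2) S' + 1 :=
    c4_finrank_comap π e hπ hker he0 S'
  have hdG : finrank (ZMod 2) G = finrank (ZMod 2) S + 1 :=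
    c4_finrank_comap π e hπ hker he0 S
  have hdGH : finrank (ZMod 2) ↥(G ⊓ H) = 3 := by
    have := c4_finrank_comap π e hπ hker he0 (S ⊓ S')
    rw [h2] at this
    exact this
  have hHt : finrank (ZMod 2) H + 1 = finrank (ZMod 2) V := by omega
  have hHne : H ≠ ⊤ := by
    intro h
    rw [h, finrank_top] at hHt
    omega
  have heH : e ∈ H := by
    rw [hH, mem_comap, (hker e).2 (Or.inr rfl)]
    exact zero_mem _
  have hEH : ∀ x ∈ E, x ∉ H → x ∈ G := by
    intro x hx hxH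
    have hx0 : π x ≠ 0 := by
      intro h
      apply hxH
      rw [hH, mem_comap, h]
      exact zero_mem _
    rcases hcov.2.2 (π x) (Finset.mem_coe.2 (hmemN x hx hx0)) with h | h
    · exact h
    · exact absurd h hxH
  have hYG : span (ZMod 2) ((E : Set V) \ (H : Set V)) ≤ G := by
    refine span_le.2 ?_
    rintro x ⟨hx, hxH⟩
    exact hEH x (Finset.mem_coe.1 hx) hxH
  have hYle := Submodule.finrank_mono hYG
  have hYne : span (ZMod 2) ((E : Set V) \ (H : Set V)) ≠ ⊤ := by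
    intro h
    rw [h, finrank_top] at hYle
    omega
  have hY3 := hsep _ H hYne hHne (by
    intro x hx
    by_cases hxH : x ∈ H
    · exact Or.inr hxH
    · exact Or.inl (subset_span ⟨hx, hxH⟩))
  have hYH : ¬ span (ZMod 2) ((E : Set V) \ (H : Set V)) ≤ H := by
    intro h
    apply hHne
    rw [eq_top_iff, ← hE.span]
    refine span_le.2 ?_
    intro x hx
    by_cases hxH : x ∈ H
    · exact hxH
    · exact h (subset_span ⟨hx, hxH⟩)
  have hYlt : span (ZMod 2) ((E : Set V) \ (H : Set V)) ⊓ H <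
      span (ZMod 2) ((E : Set V) \ (H : Set V)) := by
    refine lt_of_le_of_ne inf_le_left ?_
    intro h
    exact hYH (h ▸ inf_le_right)
  have hYfin := Submodule.finrank_lt_finrank_of_lt hYlt
  have hcoc : Coc4 (E : Set V) H := ⟨hHt, by omega⟩
  obtain ⟨F, A, Γ, x0, hq, hx0, hF, hA⟩ := hQ V E H hE (by omega) hcoc
  have hlpl : LPl F A Γ := by
    rcases hT V E H F A Γ x0 hE.free hK hq hx0 hF hA with h | h
    · exfalso
      obtain ⟨y, hy, -, hyc, hyd⟩ := hO V E H F A Γ x0 hE hHt hq hx0 hF hA h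
      have := hdeg y hy hyc
      omega
    · exact h.2
  -- the subspace `Γ`
  have hΓ : Γ.map H.subtype = G ⊓ H := by
    obtain ⟨a, ha⟩ := hq.ne
    apply Submodule.eq_of_le_of_finrank_le
    · rw [map_le_iff_le_comap]
      refine (hq.sp a ha).trans (span_le.2 ?_)
      rintro c ⟨b, hb, rfl⟩
      have h1 : ∀ d ∈ A, x0 + (d : V) ∈ G := by
        intro d hd
        refine hEH _ ((hA d).1 hd) ?_
        intro h
        exact hx0 ((Submodule.add_mem_iff_left H d.2).1 h)
      have h2 := G.add_mem (h1 a ha) (h1 b hb)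
      have h3 : x0 + (a : V) + (x0 + (b : V)) = (a : V) + (b : V) := by
        rw [add_add_add_comm, ctr_two_add, zero_add]
      rw [h3] at h2
      exact ⟨h2, (a + b).2⟩
    · rw [hdGH, Submodule.finrank_map_subtype_eq, hq.dim]
  have hcount := pl3_count (contr π E) S S' h0N h2 h3
  obtain ⟨hc0, hc1, hc2, hc3⟩ := hcount
  have hkey : ((contr π E : Set W) ∩ ((S : Set W) \ (S' : Set W))).ncard = 4 →
      ((contr π E : Set W) ∩ ((S ⊓ S' : Submodule (ZMod 2) W) : Set W)).ncard ≤ 1 := by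
    intro hc4
    classical
    have hΓmem : ∀ x : V, x ∈ G → ∀ hx : x ∈ H, (⟨x, hx⟩ : ↥H) ∈ Γ := by
      intro x hxG hxH
      have : x ∈ Γ.map H.subtype := by
        rw [hΓ]
        exact ⟨hxG, hxH⟩
      obtain ⟨u, hu, hux⟩ := this
      have : (⟨x, hxH⟩ : ↥H) = u := Subtype.ext hux.symm
      rw [this]
      exact hu
    have heG : e ∈ G := by
      rw [hG, mem_comap, (hker e).2 (Or.inr rfl)]
      exact zero_mem _
    set eH : ↥H := ⟨e, heH⟩ with heHdef
    have heF : eH ∈ F := (hF eH).2 he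
    have heΓ : eH ∈ Γ := hΓmem e heG heH
    -- the contraction of the part outside
    set E' : Finset V := insert e (E.filter (fun x => x ∉ H)) with hE'
    have hmE' : ∀ x, x ∈ E' ↔ x = e ∨ (x ∈ E ∧ x ∉ H) := by
      intro x
      rw [hE', Finset.mem_insert, Finset.mem_filter]
    have h0' : (0 : V) ∉ E' := by
      rw [hmE']
      rintro (h | h)
      · exact he0 h.symm
      · exact h0E h.1
    have he' : e ∈ E' := (hmE' e).2 (Or.inl rfl)
    have hcc := card_contr π E' e hker h0' he'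
    have hx0H : ∀ h : ↥H, x0 + (h : V) ∉ H := by
      intro h h'
      exact hx0 ((Submodule.add_mem_iff_left H h.2).1 h')
    have hout : ∀ x ∈ E, x ∉ H → ∃ h ∈ A, x = x0 + ((h : ↥H) : V) := by
      intro x hx hxH
      have h1 := pl3_hyp H hHt hx0 hxH
      have h2 : x0 + (x0 + x) = x := by rw [← add_assoc, ctr_two_add, zero_add]
      refine ⟨⟨x0 + x, h1⟩, (hA _).2 ?_, ?_⟩
      · change x0 + (x0 + x) ∈ E
        rw [h2]
        exact hx
      · exact h2.symm
    have hk1 : (contr π E').card = 4 := by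
      rw [← hc4, ← Set.ncard_coe_finset]
      congr 1
      ext w
      simp only [Set.mem_inter_iff, Set.mem_sdiff, SetLike.mem_coe]
      constructor
      · intro hw
        rw [contr, Finset.mem_erase, Finset.mem_image] at hw
        obtain ⟨hw0, x, hx, rfl⟩ := hw
        rcases (hmE' x).1 hx with rfl | ⟨hxE, hxH⟩
        · exact absurd ((hker x).2 (Or.inr rfl)) hw0
        · exact ⟨hmemN x hxE hw0, hEH x hxE hxH, hxH⟩
      · rintro ⟨hw, hwS, hwS'⟩
        obtain ⟨x, hx, rfl, hx0'⟩ := hofN w hw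
        rw [contr, Finset.mem_erase]
        exact ⟨hx0', Finset.mem_image_of_mem π ((hmE' x).2 (Or.inr ⟨hx, hwS'⟩))⟩
    have hinj : Function.Injective (fun h : ↥H => x0 + (h : V)) := by
      intro a b hab
      exact Subtype.ext (add_left_cancel hab)
    have hk2 : E'.card = A.card + 1 := by
      have h1 : E.filter (fun x => x ∉ H) = A.image (fun h : ↥H => x0 + (h : V)) := by
        ext x
        rw [Finset.mem_filter, Finset.mem_image]
        constructor
        · rintro ⟨hx, hxH⟩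
          obtain ⟨h, hh, rfl⟩ := hout x hx hxH
          exact ⟨h, hh, rfl⟩
        · rintro ⟨h, hh, rfl⟩
          exact ⟨(hA h).1 hh, hx0H h⟩
      rw [hE', Finset.card_insert_of_notMem, h1, Finset.card_image_of_injective _ hinj]
      rw [Finset.mem_filter]
      exact fun h => h.2 heH
    have hk3 : deg E' e = (A.filter (fun a => a + eH ∈ A)).card := by
      rw [← Finset.card_image_of_injective _ hinj]
      unfold deg
      congr 1
      ext x
      rw [Finset.mem_filter, Finset.mem_image]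
      constructor
      · rintro ⟨hx, hxe⟩
        rcases (hmE' x).1 hx with rfl | ⟨hxE, hxH⟩
        · rw [ctr_two_add] at hxe
          exact absurd hxe h0'
        · obtain ⟨h, hh, rfl⟩ := hout x hxE hxH
          refine ⟨h, Finset.mem_filter.2 ⟨hh, (hA _).2 ?_⟩, rfl⟩
          rcases (hmE' _).1 hxe with h' | h'
          · exfalso
            apply h0E
            have : x0 + (h : V) = 0 := by simpa using h'
            rw [← this]
            exact hxE
          · have : x0 + ((h + eH : ↥H) : V) = x0 + (h : V) + e := by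
              rw [Submodule.coe_add, add_assoc]
            rw [this]
            exact h'.1
      · rintro ⟨h, hh, rfl⟩
        rw [Finset.mem_filter] at hh
        have : x0 + (h : V) + e = x0 + ((h + eH : ↥H) : V) := by
          rw [Submodule.coe_add, add_assoc]
        refine ⟨(hmE' _).2 (Or.inr ⟨(hA h).1 hh.1, hx0H h⟩), ?_⟩
        rw [this]
        exact (hmE' _).2 (Or.inr ⟨(hA _).1 hh.2, hx0H _⟩)
    have hk4 : 2 * A.card = 8 + (A.filter (fun a => a + eH ∈ A)).card := by omega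
    have hl := hlpl eH heF heΓ hk4
    have : Finite W := Module.finite_of_finite (ZMod 2)
    rw [Set.ncard_le_one_iff (Set.toFinite _)]
    rintro w w' ⟨hw, hwS⟩ ⟨hw', hwS'⟩
    obtain ⟨x, hx, rfl, hx0'⟩ := hofN w (Finset.mem_coe.1 hw)
    obtain ⟨y, hy, rfl, hy0'⟩ := hofN w' (Finset.mem_coe.1 hw')
    have hxH : x ∈ H := (Submodule.mem_inf.1 hwS).2
    have hyH : y ∈ H := (Submodule.mem_inf.1 hwS').2
    have hxG : x ∈ G := (Submodule.mem_inf.1 hwS).1
    have hyG : y ∈ G := (Submodule.mem_inf.1 hwS').1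
    have hne : ∀ (z : V) (hz : z ∈ H), π z ≠ 0 → (⟨z, hz⟩ : ↥H) ≠ eH := by
      intro z hz hz0 h
      exact hz0 ((hker z).2 (Or.inr (congrArg Subtype.val h)))
    rcases hl ⟨x, hxH⟩ ((hF _).2 hx) ⟨y, hyH⟩ ((hF _).2 hy) (hΓmem x hxG hxH)
      (hΓmem y hyG hyH) (hne x hxH hx0') (hne y hyH hy0') with h | h
    · rw [show x = y from congrArg Subtype.val h]
    · have h1 : x + y = e := congrArg Subtype.val h
      rw [ctr_pi_eq_iff π e hker]
      right
      rw [← h1, ← add_assoc, add_comm y x, add_assoc, ctr_two_add, add_zero]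
  unfold Light
  constructor
  · by_cases hc : ((contr π E : Set W) ∩ ((S : Set W) \ (S' : Set W))).ncard = 4
    · have := hkey hc
      omega
    · omega
  · intro hm
    have h5 := hc3 hm
    by_cases hc : ((contr π E : Set W) ∩ ((S : Set W) \ (S' : Set W))).ncard = 4
    · have := hkey hc
      omega
    · omega

end Pool.Agent.WW

end

section

set_option autoImplicit false

/-!
# P5: three light parts at one line
-/

namespace Pool.Agent.WW

open Submodule Module

universe u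

theorem sameline_sep_symm {W : Type*} [AddCommGroup W] [Module (ZMod 2) W] {S : Set W}
    {Z A B : Submodule (ZMod 2) W} (h : Sep S Z A B) : Sep S Z B A := by
  obtain ⟨h1, h2, h3, h4, h5, h6⟩ := h
  refine ⟨h2, h1, h4, h3, fun x hx hxZ => (h5 x hx hxZ).symm, ?_⟩
  rw [inf_comm]
  exact h6

theorem sameline_count {W : Type*} [AddCommGroup W] [Module (ZMod 2) W] (N : Finset W)
    (Z A B : Submodule (ZMod 2) W) (hA : A ≤ Z) (hB : B ≤ Z)
    (h : ∀ x ∈ N, x ∈ Z → x ∈ A ∨ x ∈ B) :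
    (res N Z).card + (res N (A ⊓ B)).card = (res N A).card + (res N B).card := by
  classical
  rw [← Finset.card_union_add_card_inter (res N A) (res N B)]
  congr 2
  · ext x
    rw [Finset.mem_union, mem_res, mem_res, mem_res]
    constructor
    · rintro ⟨h1, h2⟩
      rcases h x h1 h2 with h3 | h3
      · exact Or.inl ⟨h1, h3⟩
      · exact Or.inr ⟨h1, h3⟩
    · rintro (⟨h1, h2⟩ | ⟨h1, h2⟩)
      · exact ⟨h1, hA h2⟩
      · exact ⟨h1, hB h2⟩
  · ext x
    rw [Finset.mem_inter, mem_res, mem_res, mem_res, mem_inf]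
    tauto

/-- P5: three light parts at one line -/
theorem c3SameLine (hExt : C3ExtSep.{u}) : C3SameLine.{u} := by
  intro W _ _ _ _ S N U Z A B hNS h0 hF hUZ hAB hL lU lA lB
  classical
  have hI : Inv (S : Set W) ⊤ ⊤ :=
    ⟨le_rfl, fun A' B' h => ⟨A', B', h, inf_top_eq _, inf_top_eq _, rfl⟩⟩
  obtain ⟨-, e1, -, e2, e3⟩ := hExt W (S : Set W) ⊤ U Z A B hF hI hUZ hAB
    (by rw [← hL]; exact inf_le_right)
  obtain ⟨-, e4, -, -, -⟩ := hExt W (S : Set W) ⊤ U Z B A hF hI hUZ (sameline_sep_symm hAB)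
    (by rw [← hL]; exact inf_le_left)
  obtain ⟨hd, -⟩ := hF U Z hUZ
  have d1 := Submodule.finrank_sup_add_finrank_inf_eq U Z
  have d2 := Submodule.finrank_sup_add_finrank_inf_eq A B
  rw [e2, finrank_top, hd] at d1
  rw [e3, hL, hd] at d2
  have c1 := sameline_count N ⊤ U Z le_top le_top (fun x hx _ => hUZ.2.2.2.2.1 x (hNS hx) mem_top)
  have c2 := sameline_count N Z A B hAB.1 hAB.2.1 (fun x hx hxZ => hAB.2.2.2.2.1 x (hNS hx) hxZ)
  have e0 : res N ⊤ = N := by
    ext x
    rw [mem_res]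
    simp
  rw [e0] at c1
  rw [hL] at c2
  unfold Light at lU lA lB
  rw [e1, hL] at lA
  rw [e4, inf_comm B A, hL] at lB
  by_cases hall : ∀ y ∈ U ⊓ Z, y ≠ 0 → y ∈ N
  · have hr : 3 ≤ (res N (U ⊓ Z)).card := by
      haveI : Finite W := Module.finite_of_finite (ZMod 2)
      haveI : Fintype W := Fintype.ofFinite W
      have h4 : (Finset.univ.filter (fun y : W => y ∈ U ⊓ Z)).card = 4 := by
        have h5 := Module.card_eq_pow_finrank (K := ZMod 2) (V := ↥(U ⊓ Z))
        rw [hd, ZMod.card] at h5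
        rw [← Fintype.card_subtype]
        exact h5
      have h5 : ((Finset.univ.filter (fun y : W => y ∈ U ⊓ Z)).erase 0).card = 3 := by
        rw [Finset.card_erase_of_mem, h4]
        rw [Finset.mem_filter]
        exact ⟨Finset.mem_univ _, zero_mem _⟩
      rw [← h5]
      apply Finset.card_le_card
      intro y hy
      rw [Finset.mem_erase, Finset.mem_filter] at hy
      rw [mem_res]
      exact ⟨hall y hy.2.2 hy.1, hy.2.2⟩
    have l1 := lU.1
    have l2 := lA.1
    have l3 := lB.1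
    omega
  · push Not at hall
    obtain ⟨y, hy, hy0, hyN⟩ := hall
    have l1 := lU.2 ⟨y, hy, hy0, hyN⟩
    have l2 := lA.2 ⟨y, hy, hy0, hyN⟩
    have l3 := lB.2 ⟨y, hy, hy0, hyN⟩
    omega

end Pool.Agent.WW

end

section

/-!
C3Sides and C3Six: the contraction of an element of the cocircuit is vertically 3-connected, and
six elements in `Γ` make it vertically 4-connected.
-/

namespace Pool.Agent.WW

open Submodule Module

universe u

section SidesAux

variable {W : Type u} [AddCommGroup W] [Module (ZMod 2) W]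

theorem sides_ncard [FiniteDimensional (ZMod 2) W] (P : Submodule (ZMod 2) W) :
    (P : Set W).ncard = 2 ^ finrank (ZMod 2) P := by
  have h := Module.natCard_eq_pow_finrank (K := ZMod 2) (V := P)
  rw [Nat.card_zmod] at h
  rw [← h]
  rfl

/-- two subspaces of dimension at most two of a space of dimension three cover at most five
nonzero vectors -/
theorem sides_union [FiniteDimensional (ZMod 2) W] (Γ P P' : Submodule (ZMod 2) W) (hP : P ≤ Γ)
    (hP' : P' ≤ Γ) (hΓ : finrank (ZMod 2) Γ = 3) (h2 : finrank (ZMod 2) P ≤ 2)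
    (h2' : finrank (ZMod 2) P' ≤ 2) (X : Set W) (h0 : (0 : W) ∉ X)
    (hX : ∀ x ∈ X, x ∈ P ∨ x ∈ P') : X.ncard ≤ 5 := by
  have hfin : Finite W := Module.finite_of_finite (ZMod 2)
  have h3 := Submodule.finrank_sup_add_finrank_inf_eq P P'
  have h4 : finrank (ZMod 2) ↥(P ⊔ P') ≤ 3 := hΓ ▸ Submodule.finrank_mono (sup_le hP hP')
  have h5 : X.ncard + 1 ≤ ((P : Set W) ∪ (P' : Set W)).ncard := by
    rw [← Set.ncard_insert_of_notMem h0 (Set.toFinite _)]
    refine Set.ncard_le_ncard ?_ (Set.toFinite _)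
    rintro x (rfl | hx)
    · exact Or.inl P.zero_mem
    · exact hX x hx
  have h6 : ((P : Set W) ∪ (P' : Set W)).ncard + ((P : Set W) ∩ (P' : Set W)).ncard =
      (P : Set W).ncard + (P' : Set W).ncard := Set.ncard_union_add_ncard_inter _ _
  have h7 : ((P : Set W) ∩ (P' : Set W)).ncard = 2 ^ finrank (ZMod 2) ↥(P ⊓ P') :=
    sides_ncard (P ⊓ P')
  rw [h7, sides_ncard, sides_ncard] at h6
  have h8 : 1 ≤ 2 ^ finrank (ZMod 2) ↥(P ⊓ P') := Nat.one_le_two_pow
  obtain ⟨a, ha⟩ : ∃ a, finrank (ZMod 2) P = a := ⟨_, rfl⟩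
  obtain ⟨b, hb⟩ : ∃ b, finrank (ZMod 2) P' = b := ⟨_, rfl⟩
  obtain ⟨c, hc⟩ : ∃ c, finrank (ZMod 2) ↥(P ⊓ P') = c := ⟨_, rfl⟩
  rw [ha] at h2 h6 h3
  rw [hb] at h2' h6 h3
  rw [hc] at h6 h8 h3
  have h9 : 1 ≤ 2 ^ c := Nat.one_le_two_pow
  rcases Nat.lt_or_ge a 2 with ha2 | ha2
  · have h10 : 2 ^ a ≤ 2 ^ 1 := Nat.pow_le_pow_right (by norm_num) (by omega)
    have h11 : 2 ^ b ≤ 2 ^ 2 := Nat.pow_le_pow_right (by norm_num) h2'
    omega
  · rcases Nat.lt_or_ge b 2 with hb2 | hb2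
    · have h10 : 2 ^ b ≤ 2 ^ 1 := Nat.pow_le_pow_right (by norm_num) (by omega)
      have h11 : 2 ^ a ≤ 2 ^ 2 := Nat.pow_le_pow_right (by norm_num) h2
      omega
    · have h10 : 2 ^ b ≤ 2 ^ 2 := Nat.pow_le_pow_right (by norm_num) h2'
      have h11 : 2 ^ a ≤ 2 ^ 2 := Nat.pow_le_pow_right (by norm_num) h2
      have h12 : 2 ^ 1 ≤ 2 ^ c := Nat.pow_le_pow_right (by norm_num) (by omega)
      omega

variable [DecidableEq W]

theorem sides_memF {F A : Finset W} {Γ : Submodule (ZMod 2) W} {a f : W} (hq : Quad F A Γ)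
    (hf : f ∈ F) : f ∈ NA F A a := by
  unfold NA
  rw [Finset.mem_erase, Finset.mem_union]
  exact ⟨fun h => hq.zero (h ▸ hf), Or.inl hf⟩

omit [Module (ZMod 2) W] in
theorem sides_memA {F A : Finset W} {a b : W} (hb : b ∈ A) (h : a + b ≠ 0) :
    a + b ∈ NA F A a := by
  unfold NA
  rw [Finset.mem_erase, Finset.mem_union, Finset.mem_image]
  exact ⟨h, Or.inr ⟨b, hb, rfl⟩⟩

omit [Module (ZMod 2) W] in
theorem sides_zero {F A : Finset W} {a : W} : (0 : W) ∉ NA F A a := by
  unfold NA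
  exact Finset.notMem_erase _ _

theorem sides_gamma {F A : Finset W} {Γ : Submodule (ZMod 2) W} {a : W} (hq : Quad F A Γ)
    (ha : a ∈ A) {S S' : Submodule (ZMod 2) W} (hS : S ≠ ⊤)
    (hcov : ∀ x ∈ (NA F A a : Set W), x ∈ S ∨ x ∈ S') (hΓ : Γ ≤ S) :
    3 ≤ finrank (ZMod 2) ↥(S' ⊓ S) := by
  refine hq.v1 S' S a hS ?_ ?_
  · intro f hf
    exact (hcov f (Finset.mem_coe.2 (sides_memF hq hf))).symm
  · intro b hb
    exact hΓ (hq.sub a ha b hb)

end SidesAux

theorem c3Sides : C3Sides.{u} := by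
  intro W _ _ _ _ F A Γ a hq ha
  refine ⟨?_, ?_, ?_, ?_⟩
  · intro S S' hS hS' hcov
    refine hq.v2 S S' a a hS hS' (fun f hf => hcov f (Finset.mem_coe.2 (sides_memF hq hf))) ?_
    intro c hc
    by_cases h : a + c = 0
    · left
      rw [h]
      exact S.zero_mem
    · exact hcov _ (Finset.mem_coe.2 (sides_memA hc h))
  · rw [eq_top_iff, ← hq.spF]
    exact span_mono fun f hf => Finset.mem_coe.2 (sides_memF hq hf)
  · refine (hq.sp a ha).trans (span_le.2 ?_)
    rintro c ⟨b, hb, rfl⟩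
    by_cases h : a + b = 0
    · rw [h]
      exact Submodule.zero_mem _
    · exact subset_span ⟨Finset.mem_coe.2 (sides_memA hb h), hq.sub a ha b hb⟩
  · intro S S' hcov hd
    constructor
    · intro hΓ
      have := sides_gamma hq ha hcov.1 hcov.2.2 hΓ
      rw [inf_comm] at this
      omega
    · intro hΓ
      have := sides_gamma hq ha hcov.2.1 (fun x hx => (hcov.2.2 x hx).symm) hΓ
      omega

theorem c3Six : C3Six.{u} := by
  intro W _ _ _ _ F A Γ a hq ha h6 S S' hS hS' hcov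
  by_cases h1 : Γ ≤ S
  · have := sides_gamma hq ha hS hcov h1
    rwa [inf_comm] at this
  by_cases h2 : Γ ≤ S'
  · exact sides_gamma hq ha hS' (fun x hx => (hcov x hx).symm) h2
  exfalso
  have hlt : ∀ T : Submodule (ZMod 2) W, ¬ Γ ≤ T → finrank (ZMod 2) ↥(T ⊓ Γ) ≤ 2 := by
    intro T hT
    have h3 : T ⊓ Γ < Γ := lt_of_le_of_ne inf_le_right fun h => hT (inf_eq_right.1 h)
    have h4 := Submodule.finrank_lt_finrank_of_lt h3
    rw [hq.dim] at h4
    omega
  have h5 := sides_union Γ (S ⊓ Γ) (S' ⊓ Γ) inf_le_right inf_le_right hq.dim (hlt S h1) (hlt S' h2)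
    ((res (NA F A a) Γ : Finset W) : Set W)
    (fun h => sides_zero (mem_res.1 (Finset.mem_coe.1 h)).1) (by
      intro x hx
      obtain ⟨hx1, hx2⟩ := mem_res.1 (Finset.mem_coe.1 hx)
      rcases hcov x (Finset.mem_coe.2 hx1) with h | h
      · exact Or.inl ⟨h, hx2⟩
      · exact Or.inr ⟨h, hx2⟩)
  rw [Set.ncard_coe_finset] at h5
  omega

end Pool.Agent.WW

end

section

/-!
A4: the density bound in rank at most five.
-/

namespace Pool.Agent.WW

open Submodule Module

universe u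

theorem c3Small (h : ClaimR5.{u}) (ht : ClaimTwelve.{u}) : C3Small.{u} := by
  rintro ⟨L, hL, hprop⟩ n hn V _ _ _ _ E hE hV
  have hcard : n ≤ 3 → E.card ≤ 3 * n := by
    intro hn3
    have : Finite V := Module.finite_of_finite (ZMod 2)
    have : Fintype V := Fintype.ofFinite V
    have hc : Fintype.card V = 2 ^ n := by
      rw [Module.card_eq_pow_finrank (K := ZMod 2), hV, ZMod.card]
    have h0 : (0 : V) ∉ E := hE.zero
    have h1 : (insert 0 E).card ≤ Fintype.card V := Finset.card_le_univ _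
    rw [Finset.card_insert_of_notMem h0, hc] at h1
    interval_cases n <;> omega
  rcases Nat.lt_or_ge 3 n with h3 | h3
  · rcases Nat.lt_or_ge 4 n with h4 | h4
    · have h5 : n = 5 := by omega
      subst h5
      obtain ⟨M, hML, b, hb, hM⟩ := h L hL V (E : Set V) hV hE.zero hE.span hE.free
      rcases (hprop M hML).1 with h1 | ⟨h1, h2⟩
      · exact absurd ((good_iff_sepGe (E : Set V)).1 hE).2.2.1
          (base_nonvc hV b hb (E : Set V) M hM h1)
      · obtain ⟨e1, e2⟩ := base_count hV b hb E M hM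
        rw [e1] at h1
        omega
    · have h5 : n = 4 := by omega
      subst h5
      have h1 := (ht V (E : Set V) ⊤ hE.zero hE.free (by rw [finrank_top, hV])).1
      rw [Submodule.top_coe, Set.inter_univ, Set.ncard_coe_finset] at h1
      omega
  · exact hcard h3

end Pool.Agent.WW

end

section

/-!
B6: small sides are light.
-/

namespace Pool.Agent.WW

open Submodule Module

universe u

theorem sms_nz {W : Type*} [AddCommGroup W] [Module (ZMod 2) W] [FiniteDimensional (ZMod 2) W]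
    (U : Submodule (ZMod 2) W) (k : ℕ) (h : finrank (ZMod 2) U ≤ k) :
    ((U : Set W) \ {0}).ncard + 1 ≤ 2 ^ k := by
  have : Finite W := Module.finite_of_finite (ZMod 2)
  have h1 : Nat.card U = 2 ^ finrank (ZMod 2) U := by
    have := Module.natCard_eq_pow_finrank (K := ZMod 2) (V := U)
    rw [this]
    simp
  have h2 : ((U : Set W) \ {0}).ncard + 1 = (U : Set W).ncard :=
    Set.ncard_sdiff_singleton_add_one (by simp) (Set.toFinite _)
  have h3 : (U : Set W).ncard = Nat.card U := by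
    exact (Nat.card_coe_set_eq (U : Set W)).symm
  rw [h2, h3, h1]
  exact Nat.pow_le_pow_right (by norm_num) h

theorem c3SmallSide (h1 : C3CovSum.{u}) (h2 : C3Sides.{u}) : C3SmallSide.{u} := by
  intro W _ _ _ _ F A Γ S S' P P' x hQ hx hC hdim h3 hPP hP hP' hΓ
  have : Finite W := Module.finite_of_finite (ZMod 2)
  obtain ⟨-, hspan, -, hside⟩ := h2 W F A Γ x hQ hx
  obtain ⟨hnS, hnS'⟩ := hside S S' hC hdim.le
  obtain ⟨hsup, -⟩ := h1 W (NA F A x : Set W) S S' hspan hC.2.2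
  have hS3 : 3 ≤ finrank (ZMod 2) S := by
    have hlt : S ⊓ S' < S := by
      refine lt_of_le_of_ne inf_le_left ?_
      intro h
      apply hC.2.1
      rw [eq_top_iff, ← hsup]
      exact sup_le (inf_eq_left.1 h) le_rfl
    have := Submodule.finrank_lt_finrank_of_lt hlt
    omega
  rcases Nat.eq_or_lt_of_le hS3 with h | hS4
  · exact h3 h.symm
  have hSΓ : finrank (ZMod 2) ↥(S ⊓ Γ) ≤ 2 := by
    have hlt : S ⊓ Γ < Γ := by
      refine lt_of_le_of_ne inf_le_right ?_
      intro h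
      apply hnS
      rw [← h]
      exact inf_le_left
    have := Submodule.finrank_lt_finrank_of_lt hlt
    have := hQ.dim
    omega
  have hsub : ((res (NA F A x) S : Finset W) : Set W) ⊆
      (((S ⊓ P : Submodule (ZMod 2) W) : Set W) \ {0}) ∪
      ((((S ⊓ P' : Submodule (ZMod 2) W) : Set W) \ {0}) ∪
      (((S ⊓ Γ : Submodule (ZMod 2) W) : Set W) \ {0})) := by
    intro v hv
    rw [Finset.mem_coe, mem_res] at hv
    obtain ⟨hvN, hvS⟩ := hv
    have hvN' := hvN
    unfold NA at hvN'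
    rw [Finset.mem_erase, Finset.mem_union, Finset.mem_image] at hvN'
    obtain ⟨hv0, hvF | ⟨b, hb, hbv⟩⟩ := hvN'
    · rcases hPP v hvF hvS with h | h
      · exact Or.inl ⟨⟨hvS, h⟩, hv0⟩
      · exact Or.inr (Or.inl ⟨⟨hvS, h⟩, hv0⟩)
    · refine Or.inr (Or.inr ⟨⟨hvS, ?_⟩, hv0⟩)
      rw [← hbv]
      exact hQ.sub x hx b hb
  have hcard : (res (NA F A x) S).card ≤ 8 := by
    rw [← Set.ncard_coe_finset]
    have e1 := sms_nz (S ⊓ P) 2 hP
    have e2 := sms_nz (S ⊓ P') 2 hP'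
    rcases Nat.lt_or_ge (finrank (ZMod 2) ↥(S ⊓ Γ)) 2 with hlt | hge
    · have e3 := sms_nz (S ⊓ Γ) 1 (by omega)
      have u1 := Set.ncard_le_ncard hsub (Set.toFinite _)
      have u2 := Set.ncard_union_le (((S ⊓ P : Submodule (ZMod 2) W) : Set W) \ {0})
        ((((S ⊓ P' : Submodule (ZMod 2) W) : Set W) \ {0}) ∪
          (((S ⊓ Γ : Submodule (ZMod 2) W) : Set W) \ {0}))
      have u3 := Set.ncard_union_le (((S ⊓ P' : Submodule (ZMod 2) W) : Set W) \ {0})
          (((S ⊓ Γ : Submodule (ZMod 2) W) : Set W) \ {0})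
      omega
    · have e3 := sms_nz (S ⊓ Γ) 2 hSΓ
      -- a common nonzero vector
      have hw : ∃ w : W, w ≠ 0 ∧ w ∈ S ⊓ Γ ∧ (w ∈ S ⊓ P ∨ w ∈ S ⊓ P') := by
        have hdΓ := hQ.dim
        have hle : 3 ≤ finrank (ZMod 2) ↥(P ⊓ Γ) + finrank (ZMod 2) ↥(P' ⊓ Γ) := by
          have a1 := Submodule.finrank_mono hΓ
          have a2 := Submodule.finrank_add_le_finrank_add_finrank (P ⊓ Γ) (P' ⊓ Γ)
          omega
        have aux : ∀ X : Submodule (ZMod 2) W, 2 ≤ finrank (ZMod 2) ↥(X ⊓ Γ) →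
            ∃ w : W, w ≠ 0 ∧ w ∈ S ⊓ Γ ∧ w ∈ S ⊓ X := by
          intro X hX
          have a1 := Submodule.finrank_sup_add_finrank_inf_eq (S ⊓ Γ) (X ⊓ Γ)
          have a2 : finrank (ZMod 2) ↥((S ⊓ Γ) ⊔ (X ⊓ Γ)) ≤ 3 := by
            rw [← hdΓ]
            exact Submodule.finrank_mono (sup_le inf_le_right inf_le_right)
          have a3 : (S ⊓ Γ) ⊓ (X ⊓ Γ) ≠ ⊥ := by
            intro h
            rw [h, finrank_bot] at a1
            omega
          obtain ⟨w, hw, hw0⟩ := Submodule.exists_mem_ne_zero_of_ne_bot a3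
          exact ⟨w, hw0, hw.1, hw.1.1, hw.2.1⟩
        rcases Nat.lt_or_ge (finrank (ZMod 2) ↥(P ⊓ Γ)) 2 with hp | hp
        · obtain ⟨w, a, b, c⟩ := aux P' (by omega)
          exact ⟨w, a, b, Or.inr c⟩
        · obtain ⟨w, a, b, c⟩ := aux P hp
          exact ⟨w, a, b, Or.inl c⟩
      obtain ⟨w, hw0, hwΓ, hwP⟩ := hw
      have hsub2 : ((res (NA F A x) S : Finset W) : Set W) ⊆
          (((S ⊓ P : Submodule (ZMod 2) W) : Set W) \ {0}) ∪
          ((((S ⊓ P' : Submodule (ZMod 2) W) : Set W) \ {0}) ∪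
          ((((S ⊓ Γ : Submodule (ZMod 2) W) : Set W) \ {0}) \ {w})) := by
        intro v hv
        by_cases hvw : v = w
        · subst hvw
          rcases hwP with h | h
          · exact Or.inl ⟨h, hw0⟩
          · exact Or.inr (Or.inl ⟨h, hw0⟩)
        · rcases hsub hv with h | h | h
          · exact Or.inl h
          · exact Or.inr (Or.inl h)
          · exact Or.inr (Or.inr ⟨h, hvw⟩)
      have u0 : ((((S ⊓ Γ : Submodule (ZMod 2) W) : Set W) \ {0}) \ {w}).ncard + 1 =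
          (((S ⊓ Γ : Submodule (ZMod 2) W) : Set W) \ {0}).ncard :=
        Set.ncard_sdiff_singleton_add_one ⟨hwΓ, hw0⟩ (Set.toFinite _)
      have u1 := Set.ncard_le_ncard hsub2 (Set.toFinite _)
      have u2 := Set.ncard_union_le (((S ⊓ P : Submodule (ZMod 2) W) : Set W) \ {0})
        ((((S ⊓ P' : Submodule (ZMod 2) W) : Set W) \ {0}) ∪
          ((((S ⊓ Γ : Submodule (ZMod 2) W) : Set W) \ {0}) \ {w}))
      have u3 := Set.ncard_union_le (((S ⊓ P' : Submodule (ZMod 2) W) : Set W) \ {0})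
          ((((S ⊓ Γ : Submodule (ZMod 2) W) : Set W) \ {0}) \ {w})
      omega
  constructor
  · omega
  · intro _
    omega

end Pool.Agent.WW

end

section

set_option autoImplicit false

/-!
# B12: the first triad type
-/

namespace Pool.Agent.WW

open Submodule Module

universe u

section Tau3Aux

variable {W : Type*} [AddCommGroup W] [Module (ZMod 2) W]

theorem tau3_self (x : W) : x + x = 0 := ZModModule.add_self x

/-- the sum of two vectors outside a hyperplane lies in the hyperplane -/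
theorem tau3_add [FiniteDimensional (ZMod 2) W] (H : Submodule (ZMod 2) W)
    (hH : finrank (ZMod 2) H + 1 = finrank (ZMod 2) W) {a b : W} (ha : a ∉ H) (hb : b ∉ H) :
    a + b ∈ H := by
  have hlt : H < H ⊔ span (ZMod 2) {b} := by
    refine lt_of_le_of_ne le_sup_left ?_
    intro h
    apply hb
    rw [h]
    exact mem_sup_right (mem_span_singleton_self b)
  have h1 := Submodule.finrank_lt_finrank_of_lt hlt
  have h2 := Submodule.finrank_le (H ⊔ span (ZMod 2) {b})
  have htop : H ⊔ span (ZMod 2) {b} = ⊤ := by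
    apply Submodule.eq_top_of_finrank_eq
    omega
  have ha2 : a ∈ H ⊔ span (ZMod 2) {b} := htop ▸ mem_top
  obtain ⟨h, hh, y, hy, rfl⟩ := mem_sup.1 ha2
  obtain ⟨c, rfl⟩ := mem_span_singleton.1 hy
  have hz : ∀ z : ZMod 2, z = 0 ∨ z = 1 := by decide
  rcases hz c with rfl | rfl
  · exact absurd (by simpa using hh) ha
  · rw [one_smul, add_assoc, tau3_self, add_zero]
    exact hh

theorem tau3_swap1 {A : Finset W} {l l' m m' : Submodule (ZMod 2) W} (h : Compat A l l' m m') :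
    Compat A l' l m m' := by
  unfold Compat at h ⊢
  rcases h with h | h
  · right
    rw [add_comm]
    exact h
  · left
    rw [add_comm]
    exact h

theorem tau3_swap2 {A : Finset W} {l l' m m' : Submodule (ZMod 2) W} (h : Compat A l l' m m') :
    Compat A l l' m' m := by
  unfold Compat at h ⊢
  exact h.symm

theorem tau3_core [FiniteDimensional (ZMod 2) W] (A : Finset W)
    (Γ l l' m m' : Submodule (ZMod 2) W) (ξ a0 β γ : W)
    (hA : ∀ h ∈ A, h = a0 ∨ h = a0 + ξ ∨ h = β ∨ h = γ) (h3 : finrank (ZMod 2) Γ = 3)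
    (hΓ : Γ ≤ span (ZMod 2) {ξ, a0 + β, a0 + γ}) (hξl : ξ ∈ l) (hul : a0 + β ∈ l)
    (hl' : β + γ ∈ l') (hξm : ξ ∈ m) (hwm : a0 + γ ∈ m) (hm' : β + γ ∈ m') :
    ¬ Compat A l l' m m' := by
  have hM : ∀ M : Submodule (ZMod 2) W, ξ ∈ M → a0 + β ∈ M → a0 + γ ∈ M →
      ∀ L : Submodule (ZMod 2) W, 3 ≤ cb A L M := by
    intro M h1 h2 h4 L
    have h5 : Γ ≤ M := by
      refine hΓ.trans (span_le.2 ?_)
      rintro y (rfl | rfl | rfl)
      · exact h1
      · exact h2
      · exact h4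
    have h6 := Submodule.finrank_mono h5
    rw [h3] at h6
    exact h6.trans (le_max_left _ _)
  have e1 : a0 + β = a0 + γ + (β + γ) := by
    have := tau3_self γ
    calc a0 + β = a0 + β + 0 := (add_zero _).symm
      _ = a0 + β + (γ + γ) := by rw [this]
      _ = a0 + γ + (β + γ) := by abel
  have e2 : a0 + γ = a0 + β + (β + γ) := by
    have := tau3_self β
    calc a0 + γ = a0 + γ + 0 := (add_zero _).symm
      _ = a0 + γ + (β + β) := by rw [this]
      _ = a0 + β + (β + γ) := by abel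
  unfold Compat
  rintro (h | h)
  · have h1 : 2 ≤ cb A (l ⊓ m) (l' ⊔ m') := by
      have hs : Spl A (l ⊓ m) (l' ⊔ m') := by
        refine ⟨a0, β, fun c hc => ?_⟩
        rcases hA c hc with rfl | rfl | rfl | rfl
        · left
          rw [tau3_self]
          exact zero_mem _
        · left
          rw [← add_assoc, tau3_self, zero_add]
          exact ⟨hξl, hξm⟩
        · right
          rw [tau3_self]
          exact zero_mem _
        · right
          exact mem_sup_left hl'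
      unfold cb
      rw [if_pos hs]
      exact le_max_right _ _
    have h2 := hM (l ⊔ m) (mem_sup_left hξl) (mem_sup_left hul) (mem_sup_right hwm) (l' ⊓ m')
    omega
  · have h1 := hM (l' ⊔ m) (mem_sup_right hξm) (by
      rw [e1]
      exact add_mem (mem_sup_right hwm) (mem_sup_left hl')) (mem_sup_right hwm) (l ⊓ m')
    have h2 := hM (l ⊔ m') (mem_sup_left hξl) (mem_sup_left hul) (by
      rw [e2]
      exact add_mem (mem_sup_left hul) (mem_sup_right hm')) (l' ⊓ m)
    omega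

/-- three points of a line covered by two subspaces -/
theorem tau3_line {S S' : Submodule (ZMod 2) W} {x u : W} (h1 : x ∈ S ∨ x ∈ S')
    (h2 : u ∈ S ∨ u ∈ S') (h3 : u + x ∈ S ∨ u + x ∈ S') :
    (x ∈ S ∧ u ∈ S) ∨ (x ∈ S' ∧ u ∈ S') := by
  have e1 : ∀ T : Submodule (ZMod 2) W, x ∈ T → u + x ∈ T → u ∈ T := by
    intro T ha hb
    have : u = u + x + x := by rw [add_assoc, tau3_self, add_zero]
    rw [this]
    exact add_mem hb ha
  have e2 : ∀ T : Submodule (ZMod 2) W, u ∈ T → u + x ∈ T → x ∈ T := by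
    intro T ha hb
    have : x = u + x + u := by
      rw [add_comm u x, add_assoc, tau3_self, add_zero]
    rw [this]
    exact add_mem hb ha
  rcases h1 with h1 | h1 <;> rcases h2 with h2 | h2
  · exact Or.inl ⟨h1, h2⟩
  · rcases h3 with h3 | h3
    · exact Or.inl ⟨h1, e1 S h1 h3⟩
    · exact Or.inr ⟨e2 S' h2 h3, h2⟩
  · rcases h3 with h3 | h3
    · exact Or.inl ⟨e2 S h2 h3, h2⟩
    · exact Or.inr ⟨h1, e1 S' h1 h3⟩
  · exact Or.inr ⟨h1, h2⟩

end Tau3Aux

/-- the position of the traces for one element of the cocircuit -/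
theorem tau3_pos {W : Type u} [AddCommGroup W] [Module (ZMod 2) W]
    [FiniteDimensional (ZMod 2) W] [DecidableEq W] (F A : Finset W) (Γ S S' : Submodule (ZMod 2) W)
    (ξ a0 β γ : W) (hξF : ξ ∈ F) (ha0 : a0 ∈ A) (ha1 : a0 + ξ ∈ A) (hγ : γ ∈ A)
    (hξ0 : ξ ≠ 0) (hu0 : a0 + β ≠ 0) (hu1 : a0 + β ≠ ξ) (huw : β + γ ≠ 0)
    (hΓ : Γ ≤ span (ZMod 2) {ξ, a0 + β, a0 + γ})
    (hcov : Cov (NA F A β : Set W) S S') (hS1 : ¬ Γ ≤ S) (hS2 : ¬ Γ ≤ S') :
    (ξ ∈ S ∧ a0 + β ∈ S ∧ β + γ ∈ S') ∨ (ξ ∈ S' ∧ a0 + β ∈ S' ∧ β + γ ∈ S) := by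
  have hNF : ∀ y ∈ F, y ≠ 0 → y ∈ (NA F A β : Set W) := by
    intro y hy hy0
    unfold NA
    rw [Finset.mem_coe, Finset.mem_erase, Finset.mem_union]
    exact ⟨hy0, Or.inl hy⟩
  have hNA : ∀ y ∈ A, β + y ≠ 0 → β + y ∈ (NA F A β : Set W) := by
    intro y hy hy0
    unfold NA
    rw [Finset.mem_coe, Finset.mem_erase, Finset.mem_union]
    exact ⟨hy0, Or.inr (Finset.mem_image_of_mem _ hy)⟩
  have c1 := hcov.2.2 ξ (hNF ξ hξF hξ0)
  have c2 := hcov.2.2 (β + a0) (hNA a0 ha0 (by rw [add_comm]; exact hu0))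
  have e3 : β + (a0 + ξ) = a0 + β + ξ := by abel
  have c3 := hcov.2.2 (β + (a0 + ξ)) (hNA _ ha1 (by
    rw [e3]
    intro h
    apply hu1
    calc a0 + β = a0 + β + ξ + ξ := by rw [add_assoc (a0 + β), tau3_self, add_zero]
      _ = ξ := by rw [h, zero_add]))
  have c4 := hcov.2.2 (β + γ) (hNA γ hγ huw)
  rw [add_comm β a0] at c2
  rw [e3] at c3
  have key : ∀ T : Submodule (ZMod 2) W, ξ ∈ T → a0 + β ∈ T → β + γ ∈ T → Γ ≤ T := by
    intro T h1 h2 h4
    refine hΓ.trans (span_le.2 ?_)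
    have e2 : a0 + γ = a0 + β + (β + γ) := by
      have := tau3_self β
      calc a0 + γ = a0 + γ + 0 := (add_zero _).symm
        _ = a0 + γ + (β + β) := by rw [this]
        _ = a0 + β + (β + γ) := by abel
    rintro y (rfl | rfl | rfl)
    · exact h1
    · exact h2
    · rw [e2]
      exact add_mem h2 h4
  rcases tau3_line c1 c2 c3 with ⟨h1, h2⟩ | ⟨h1, h2⟩
  · left
    refine ⟨h1, h2, c4.resolve_left fun h => hS1 (key S h1 h2 h)⟩
  · right
    refine ⟨h1, h2, c4.resolve_right fun h => hS2 (key S' h1 h2 h)⟩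

/-- B12: the first triad type -/
theorem c3Tau (hQ : C3Quad.{u}) (hQP : C3QuadPi.{u}) (hS : C3Sides.{u}) (hX : C3Cross.{u})
    (hP : C3Plane.{u}) : C3Tau.{u} := by
  intro V _ _ _ _ E H p x b c hE hK h6 hdeg hcoc hv hxE hxH honly
  obtain ⟨F, A, Γ, x0, hQd, hx0, hF, hA⟩ := hQ V E H hE (by omega) hcoc
  have hp := (hv p).2 (Or.inl rfl)
  have hpx := (hv (p + x)).2 (Or.inr (Or.inl rfl))
  have hb := (hv b).2 (Or.inr (Or.inr (Or.inl rfl)))
  have hc := (hv c).2 (Or.inr (Or.inr (Or.inr rfl)))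
  have h0E : (0 : V) ∉ E := fun h => hE.zero (Finset.mem_coe.2 h)
  have hx0' : x ≠ 0 := by
    rintro rfl
    exact h0E hxE
  let a0 : ↥H := ⟨x0 + p, tau3_add H hcoc.1 hx0 hp.2⟩
  let β : ↥H := ⟨x0 + b, tau3_add H hcoc.1 hx0 hb.2⟩
  let γ : ↥H := ⟨x0 + c, tau3_add H hcoc.1 hx0 hc.2⟩
  let ξ : ↥H := ⟨x, hxH⟩
  have hxx : ∀ y : V, x0 + (x0 + y) = y := by
    intro y
    rw [← add_assoc, tau3_self, zero_add]
  have ha0 : a0 ∈ A := (hA a0).2 (by
    show x0 + (x0 + p) ∈ E
    rw [hxx]; exact hp.1)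
  have ha1 : a0 + ξ ∈ A := (hA _).2 (by
    show x0 + (x0 + p + x) ∈ E
    rw [add_assoc, hxx]; exact hpx.1)
  have hβ : β ∈ A := (hA β).2 (by
    show x0 + (x0 + b) ∈ E
    rw [hxx]; exact hb.1)
  have hγ : γ ∈ A := (hA γ).2 (by
    show x0 + (x0 + c) ∈ E
    rw [hxx]; exact hc.1)
  have hAall : ∀ h ∈ A, h = a0 ∨ h = a0 + ξ ∨ h = β ∨ h = γ := by
    intro h hh
    have h1 := (hA h).1 hh
    have h2 : x0 + (h : V) ∉ H := by
      intro h3
      apply hx0
      have : x0 = x0 + (h : V) + h := by rw [add_assoc, tau3_self, add_zero]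
      rw [this]
      exact add_mem h3 h.2
    have h4 : ∀ y : V, x0 + (h : V) = y → (h : V) = x0 + y := by
      rintro y rfl
      rw [hxx]
    rcases (hv _).1 ⟨h1, h2⟩ with h5 | h5 | h5 | h5
    · left; exact Subtype.ext (h4 _ h5)
    · right; left
      apply Subtype.ext
      show (h : V) = x0 + p + x
      rw [add_assoc]
      exact h4 _ h5
    · right; right; left; exact Subtype.ext (h4 _ h5)
    · right; right; right; exact Subtype.ext (h4 _ h5)
  have hξF : ξ ∈ F := (hF ξ).2 hxE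
  have hξ0 : ξ ≠ 0 := by
    intro h
    exact hx0' (congrArg Subtype.val h)
  have hΓ : Γ ≤ span (ZMod 2) {ξ, a0 + β, a0 + γ} := by
    refine (hQd.sp a0 ha0).trans (span_le.2 ?_)
    rintro y ⟨h, hh, rfl⟩
    rcases hAall h hh with rfl | rfl | rfl | rfl
    · rw [tau3_self]; exact zero_mem _
    · rw [← add_assoc, tau3_self, zero_add]
      exact subset_span (by simp)
    · exact subset_span (by simp)
    · exact subset_span (by simp)
  have htwo : ∀ y z : ↥H, ¬ Γ ≤ span (ZMod 2) {y, z} := by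
    intro y z h
    have h1 := Submodule.finrank_mono h
    rw [hQd.dim] at h1
    have h2 : finrank (ZMod 2) ↥(span (ZMod 2) ({y, z} : Set ↥H)) ≤ 2 := by
      classical
      have h3 := finrank_span_finset_le_card (R := ZMod 2) ({y, z} : Finset ↥H)
      have h4 : ((({y, z} : Finset ↥H)) : Set ↥H) = {y, z} := by simp
      rw [Set.finrank, h4] at h3
      exact h3.trans Finset.card_le_two
    omega
  have hsp : ∀ y z : ↥H, ξ ∈ span (ZMod 2) {y, z} → a0 + β ∈ span (ZMod 2) {y, z} →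
      a0 + γ ∈ span (ZMod 2) {y, z} → False := by
    intro y z h1 h2 h3
    refine htwo y z (hΓ.trans (span_le.2 ?_))
    rintro t (rfl | rfl | rfl)
    · exact h1
    · exact h2
    · exact h3
  have e2 : β + γ = a0 + β + (a0 + γ) := by
    have := tau3_self a0
    calc β + γ = β + γ + 0 := (add_zero _).symm
      _ = β + γ + (a0 + a0) := by rw [this]
      _ = a0 + β + (a0 + γ) := by abel
  have hl : ∀ y z : ↥H, y ∈ span (ZMod 2) ({y, z} : Set ↥H) := fun y z =>
    subset_span (by simp)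
  have hr : ∀ y z : ↥H, z ∈ span (ZMod 2) ({y, z} : Set ↥H) := fun y z =>
    subset_span (by simp)
  have hu0 : a0 + β ≠ 0 := fun h => hsp ξ (a0 + γ) (hl _ _) (by rw [h]; exact zero_mem _) (hr _ _)
  have hu1 : a0 + β ≠ ξ := fun h => hsp ξ (a0 + γ) (hl _ _) (by rw [h]; exact hl _ _) (hr _ _)
  have hw0 : a0 + γ ≠ 0 := fun h => hsp ξ (a0 + β) (hl _ _) (hr _ _) (by rw [h]; exact zero_mem _)
  have hw1 : a0 + γ ≠ ξ := fun h => hsp ξ (a0 + β) (hl _ _) (hr _ _) (by rw [h]; exact hl _ _)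
  have hγe : a0 + γ = a0 + β + (β + γ) := by
    rw [e2, ← add_assoc, tau3_self, zero_add]
  have huw0 : β + γ ≠ 0 := by
    intro h
    refine hsp ξ (a0 + β) (hl _ _) (hr _ _) ?_
    rw [hγe, h, add_zero]
    exact hr _ _
  have huw1 : β + γ ≠ ξ := by
    intro h
    refine hsp ξ (a0 + β) (hl _ _) (hr _ _) ?_
    rw [hγe, h]
    exact add_mem (hr _ _) (hl _ _)
  -- the elements of `F` in `Γ`
  have hpar : ∀ h ∈ A, x0 + (h : V) ∈ span (ZMod 2) ({p, x, b, c} : Set V) := by
    intro h hh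
    have mp : p ∈ span (ZMod 2) ({p, x, b, c} : Set V) := subset_span (by simp)
    have mx : x ∈ span (ZMod 2) ({p, x, b, c} : Set V) := subset_span (by simp)
    have mb : b ∈ span (ZMod 2) ({p, x, b, c} : Set V) := subset_span (by simp)
    have mc : c ∈ span (ZMod 2) ({p, x, b, c} : Set V) := subset_span (by simp)
    rcases hAall h hh with rfl | rfl | rfl | rfl
    · show x0 + (x0 + p) ∈ _
      rw [hxx]; exact mp
    · show x0 + (x0 + p + x) ∈ _
      rw [add_assoc, hxx]; exact add_mem mp mx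
    · show x0 + (x0 + b) ∈ _
      rw [hxx]; exact mb
    · show x0 + (x0 + c) ∈ _
      rw [hxx]; exact mc
  have hFx : ∀ h ∈ A, ∀ k ∈ A, h + k ∈ F → h + k = ξ := by
    intro h hh k hk hhk
    apply Subtype.ext
    refine honly _ ((hF _).1 hhk) (h + k).2 ?_
    have h1 : ((h + k : ↥H) : V) = x0 + (h : V) + (x0 + (k : V)) := by
      show (h : V) + (k : V) = x0 + (h : V) + (x0 + (k : V))
      have := tau3_self x0
      calc (h : V) + k = h + k + 0 := (add_zero _).symm
        _ = h + k + (x0 + x0) := by rw [this]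
        _ = x0 + (h : V) + (x0 + (k : V)) := by abel
    rw [h1]
    exact add_mem (hpar h hh) (hpar k hk)
  have htβ : tA F A β = 0 := by
    unfold tA
    rw [Finset.card_eq_zero, Finset.filter_eq_empty_iff]
    intro k hk hkF
    have h1 := hFx β hβ k hk hkF
    rcases hAall k hk with rfl | rfl | rfl | rfl
    · exact hu1 (by rw [add_comm]; exact h1)
    · apply hu0
      have : a0 + β = β + (a0 + ξ) + ξ := by
        rw [← add_assoc, add_assoc (β + a0), tau3_self, add_zero, add_comm]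
      rw [this, h1, tau3_self]
    · rw [tau3_self] at h1
      exact hξ0 h1.symm
    · exact huw1 h1
  have htγ : tA F A γ = 0 := by
    unfold tA
    rw [Finset.card_eq_zero, Finset.filter_eq_empty_iff]
    intro k hk hkF
    have h1 := hFx γ hγ k hk hkF
    rcases hAall k hk with rfl | rfl | rfl | rfl
    · exact hw1 (by rw [add_comm]; exact h1)
    · apply hw0
      have : a0 + γ = γ + (a0 + ξ) + ξ := by
        rw [← add_assoc, add_assoc (γ + a0), tau3_self, add_zero, add_comm]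
      rw [this, h1, tau3_self]
    · rw [add_comm] at h1
      exact huw1 h1
    · rw [tau3_self] at h1
      exact hξ0 h1.symm
  have hplane : ∀ a ∈ A, ∀ T T' : Submodule (ZMod 2) ↥H, Cov (NA F A a : Set ↥H) T T' →
      finrank (ZMod 2) ↥(T ⊓ T') = 2 → finrank (ZMod 2) T = 3 → Light (NA F A a) T T' := by
    intro a ha T T' hT h2 h3
    obtain ⟨π, hπ, hker, hcon, -⟩ := hQP V E H F A x0 a hcoc.1 h0E hx0 hF hA ha
    rw [← hcon] at hT ⊢
    exact hP V ↥H E π (x0 + (a : V)) T T' hE hK h6 hdeg hπ hker ((hA a).1 ha) hT h2 h3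
  by_cases hNβ : NoBad (NA F A β)
  · exact ⟨F, A, Γ, x0, β, hQd, hx0, hF, hA, hβ, htβ, hNβ⟩
  by_cases hNγ : NoBad (NA F A γ)
  · exact ⟨F, A, Γ, x0, γ, hQd, hx0, hF, hA, hγ, htγ, hNγ⟩
  exfalso
  unfold NoBad at hNβ hNγ
  push Not at hNβ hNγ
  obtain ⟨S, S', hcS, hS2, hS3, hS4⟩ := hNβ
  obtain ⟨R, R', hcR, hR2, hR3, hR4⟩ := hNγ
  have hcomp := hX ↥H F A Γ S S' R R' β γ hQd hβ hγ (hplane β hβ) (hplane γ hγ) hcS hS2 hcR hR2
    hS3 hS4 hR3 hR4
  have hsβ := (hS ↥H F A Γ β hQd hβ).2.2.2 S S' hcS hS2.le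
  have hsγ := (hS ↥H F A Γ γ hQd hγ).2.2.2 R R' hcR hR2.le
  have hΓ' : Γ ≤ span (ZMod 2) {ξ, a0 + γ, a0 + β} := by
    refine hΓ.trans (span_mono ?_)
    rintro y (rfl | rfl | rfl) <;> simp
  have pβ := tau3_pos F A Γ S S' ξ a0 β γ hξF ha0 ha1 hγ hξ0 hu0 hu1 huw0 hΓ hcS hsβ.1 hsβ.2
  have pγ := tau3_pos F A Γ R R' ξ a0 γ β hξF ha0 ha1 hβ hξ0 hw0 hw1
    (by rw [add_comm]; exact huw0) hΓ' hcR hsγ.1 hsγ.2
  rw [add_comm γ β] at pγ
  have gξ : ξ ∈ Γ := by
    have := hQd.sub a0 ha0 (a0 + ξ) ha1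
    rwa [← add_assoc, tau3_self, zero_add] at this
  have gu : a0 + β ∈ Γ := hQd.sub a0 ha0 β hβ
  have gw : a0 + γ ∈ Γ := hQd.sub a0 ha0 γ hγ
  have guw : β + γ ∈ Γ := hQd.sub β hβ γ hγ
  rcases pβ with ⟨q1, q2, q3⟩ | ⟨q1, q2, q3⟩ <;> rcases pγ with ⟨r1, r2, r3⟩ | ⟨r1, r2, r3⟩
  · exact tau3_core A Γ (S ⊓ Γ) (S' ⊓ Γ) (R ⊓ Γ) (R' ⊓ Γ) ξ a0 β γ hAall hQd.dim hΓ ⟨q1, gξ⟩
      ⟨q2, gu⟩ ⟨q3, guw⟩ ⟨r1, gξ⟩ ⟨r2, gw⟩ ⟨r3, guw⟩ hcomp
  · exact tau3_core A Γ (S ⊓ Γ) (S' ⊓ Γ) (R' ⊓ Γ) (R ⊓ Γ) ξ a0 β γ hAall hQd.dim hΓ ⟨q1, gξ⟩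
      ⟨q2, gu⟩ ⟨q3, guw⟩ ⟨r1, gξ⟩ ⟨r2, gw⟩ ⟨r3, guw⟩ (tau3_swap2 hcomp)
  · exact tau3_core A Γ (S' ⊓ Γ) (S ⊓ Γ) (R ⊓ Γ) (R' ⊓ Γ) ξ a0 β γ hAall hQd.dim hΓ ⟨q1, gξ⟩
      ⟨q2, gu⟩ ⟨q3, guw⟩ ⟨r1, gξ⟩ ⟨r2, gw⟩ ⟨r3, guw⟩ (tau3_swap1 hcomp)
  · exact tau3_core A Γ (S' ⊓ Γ) (S ⊓ Γ) (R' ⊓ Γ) (R ⊓ Γ) ξ a0 β γ hAall hQd.dim hΓ ⟨q1, gξ⟩
      ⟨q2, gu⟩ ⟨q3, guw⟩ ⟨r1, gξ⟩ ⟨r2, gw⟩ ⟨r3, guw⟩ (tau3_swap1 (tau3_swap2 hcomp))

end Pool.Agent.WW

end

section

/-!
P3: there are at most three branches.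
-/

namespace Pool.Agent.WW

open Submodule Module

universe u

theorem tr4_sum {V : Type*} [AddCommGroup V] [Module (ZMod 2) V] [FiniteDimensional (ZMod 2) V]
    (U : Submodule (ZMod 2) V) (hU : finrank (ZMod 2) U ≤ 2) {x y z : V} (hx : x ∈ U)
    (hy : y ∈ U) (hz : z ∈ U) (hx0 : x ≠ 0) (hy0 : y ≠ 0) (hz0 : z ≠ 0) (hxy : x ≠ y)
    (hxz : x ≠ z) (hyz : y ≠ z) : z = x + y := by
  have h01 : ∀ a : ZMod 2, a = 0 ∨ a = 1 := by decide
  have h1 : finrank (ZMod 2) (span (ZMod 2) {x}) = 1 := finrank_span_singleton hx0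
  have hyn : y ∉ span (ZMod 2) {x} := by
    intro h
    rw [mem_span_singleton] at h
    obtain ⟨a, ha⟩ := h
    rcases h01 a with rfl | rfl
    · rw [zero_smul] at ha
      exact hy0 ha.symm
    · rw [one_smul] at ha
      exact hxy ha
  have h2 : finrank (ZMod 2) ↥(span (ZMod 2) {x} ⊔ span (ZMod 2) {y}) = 2 := by
    rw [link_rank_singleton _ _ hyn, h1]
  have h3 : span (ZMod 2) {x} ⊔ span (ZMod 2) {y} = U := by
    apply Submodule.eq_of_le_of_finrank_le
    · refine sup_le ?_ ?_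
      · rw [span_le]
        simpa using hx
      · rw [span_le]
        simpa using hy
    · rw [h2]
      exact hU
  rw [← h3, ← span_union, Set.singleton_union, mem_span_pair] at hz
  obtain ⟨a, b, hab⟩ := hz
  rcases h01 a with rfl | rfl <;> rcases h01 b with rfl | rfl <;>
    simp only [zero_smul, one_smul, add_zero, zero_add] at hab
  · exact absurd hab.symm hz0
  · exact absurd hab hyz
  · exact absurd hab hxz
  · exact hab.symm

theorem c3Trace4 : C3Trace4.{u} := by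
  intro W _ _ _ N Γ U C hΓ hspan hcov hU hC hUC
  have key : ∀ i, ∃ x, x ∈ N ∧ x ∈ Γ ∧ x ∉ C i := by
    intro i
    by_contra hne
    push Not at hne
    apply hC i
    refine hspan.trans (span_le.2 ?_)
    rintro x ⟨hx, hxΓ⟩
    exact hne x hx hxΓ
  choose x hxN hxΓ hxC using key
  have hxU : ∀ i, x i ∈ U i := fun i => (hcov i (x i) (hxN i)).resolve_right (hxC i)
  have hxj : ∀ i j, i ≠ j → x i ∈ C j := fun i j h => hUC i j h (hxU i)
  have hx0 : ∀ i, x i ≠ 0 := by
    intro i h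
    apply hxC i
    rw [h]
    exact zero_mem _
  have hinj : ∀ i j, i ≠ j → x i ≠ x j := by
    intro i j hij h
    apply hxC j
    rw [← h]
    exact hxj i j hij
  have hdim : ∀ j, finrank (ZMod 2) ↥(C j ⊓ Γ) ≤ 2 := by
    intro j
    have hlt : C j ⊓ Γ < Γ := by
      refine lt_of_le_of_ne inf_le_right ?_
      intro h
      apply hC j
      rw [← h]
      exact inf_le_left
    have := Submodule.finrank_lt_finrank_of_lt hlt
    omega
  have h3 := tr4_sum (C 3 ⊓ Γ) (hdim 3) (x := x 0) (y := x 1) (z := x 2)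
    ⟨hxj 0 3 (by decide), hxΓ 0⟩ ⟨hxj 1 3 (by decide), hxΓ 1⟩ ⟨hxj 2 3 (by decide), hxΓ 2⟩
    (hx0 0) (hx0 1) (hx0 2) (hinj 0 1 (by decide)) (hinj 0 2 (by decide))
    (hinj 1 2 (by decide))
  have h2 := tr4_sum (C 2 ⊓ Γ) (hdim 2) (x := x 0) (y := x 1) (z := x 3)
    ⟨hxj 0 2 (by decide), hxΓ 0⟩ ⟨hxj 1 2 (by decide), hxΓ 1⟩ ⟨hxj 3 2 (by decide), hxΓ 3⟩
    (hx0 0) (hx0 1) (hx0 3) (hinj 0 1 (by decide)) (hinj 0 3 (by decide))
    (hinj 1 3 (by decide))
  exact hinj 2 3 (by decide) (h3.trans h2.symm)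

end Pool.Agent.WW

end

section

/-!
T8: the value of `tri` in rank three.
-/

namespace Pool.Agent.WW

open Submodule Module

universe u

/-- the conclusion of T8 for masks; the mask `150` is the 4-circuit `{1, 2, 4, 7}` -/
def tpFin (M : ℕ) : Bool := decide (6 * tfPop M = tfTri M + 18) || decide (M = 150)

theorem tp_check : tfGo [(1, 2, 4)] tpFin [3, 5, 6, 7] 22 = true := by
  decide +kernel

theorem claimTriPlane : ClaimTriPlane.{u} := by
  intro V _ _ _ _ Y h0 hK hr
  obtain ⟨b, hbY, hb⟩ := tf_basis Y hr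
  have hc : ∀ y ∈ Y, ∃ n < 2 ^ 3, comb b n = y := fun y hy =>
    tf_surj hb (span (ZMod 2) (Y : Set V)) (fun i => subset_span (hbY i)) hr y (subset_span hy)
  have hlt : ∀ n ∈ tfN b Y, n < 8 := by
    intro n hn
    have := (mem_tfN.1 hn).1
    simpa using this
  have hlt' : ∀ n ∈ tfN b Y, n < 16 := fun n hn => lt_trans (hlt n hn) (by norm_num)
  have hb1 : comb b 1 = b 0 := by simp [comb, Fin.sum_univ_three, Nat.testBit]
  have hb2 : comb b 2 = b 1 := by simp [comb, Fin.sum_univ_three, Nat.testBit]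
  have hb4 : comb b 4 = b 2 := by simp [comb, Fin.sum_univ_three, Nat.testBit]
  have hb7 : comb b 7 = b 0 + b 1 + b 2 := by
    have h5 : (7 : ℕ) = 1 ^^^ 2 ^^^ 4 := by decide
    rw [h5, comb_xor, comb_xor, hb1, hb2, hb4]
  obtain ⟨M, hM1, hM2⟩ := tfGo_sound (N := tfN b Y) (P := [(1, 2, 4)]) (by decide) (by
    intro h hh
    rw [List.mem_singleton] at hh
    subst hh
    exact tf_plane hb hK (by decide) (by decide) (by decide) (by decide)) _ _ tp_check (by
      intro n hn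
      have hn' : n < 8 := by
        by_contra hge
        have : Nat.testBit 22 n = false := Nat.testBit_lt_two_pow
          (lt_of_lt_of_le (by norm_num : 22 < 2 ^ 8)
            (Nat.pow_le_pow_right (by norm_num) (by omega)))
        rw [this] at hn
        exact Bool.false_ne_true hn
      have h5 : n = 1 ∨ n = 2 ∨ n = 4 := by
        revert hn
        revert n
        decide
      rw [mem_tfN]
      rcases h5 with rfl | rfl | rfl
      · exact ⟨by norm_num, by rw [hb1]; exact hbY 0⟩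
      · exact ⟨by norm_num, by rw [hb2]; exact hbY 1⟩
      · exact ⟨by norm_num, by rw [hb4]; exact hbY 2⟩) (by
      intro n hn
      have h1 := hlt n hn
      have h2 : n ≠ 0 := by
        rintro rfl
        have := (mem_tfN.1 hn).2
        rw [comb_zero] at this
        exact h0 this
      revert h1 h2
      clear hn
      revert n
      decide)
  rw [tf_card hb hc, tf_tri hb hc, tf_pop hlt' hM2, tf_triM hlt' hM2]
  rw [tpFin, Bool.or_eq_true, decide_eq_true_eq, decide_eq_true_eq] at hM1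
  rcases hM1 with h | h
  · exact Or.inl h
  · right
    refine ⟨by rw [h]; decide +kernel, by rw [h]; decide +kernel, b 0, b 1, b 2, ?_, ?_⟩
    · have : ![b 0, b 1, b 2] = b := by
        funext i
        fin_cases i <;> rfl
      rw [this]
      exact hb
    · have hN : ∀ n < 8, n ∈ tfN b Y ↔ n = 1 ∨ n = 2 ∨ n = 4 ∨ n = 7 := by
        intro n hn
        rw [← hM2, h]
        revert n
        decide
      ext y
      simp only [Finset.mem_insert, Finset.mem_singleton]
      rw [← hb7, ← hb1, ← hb2, ← hb4]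
      constructor
      · intro hy
        obtain ⟨n, hn, rfl⟩ := hc y hy
        have h8 : n < 8 := by simpa using hn
        rcases (hN n h8).1 (mem_tfN.2 ⟨hn, hy⟩) with rfl | rfl | rfl | rfl
        · exact Or.inl rfl
        · exact Or.inr (Or.inl rfl)
        · exact Or.inr (Or.inr (Or.inl rfl))
        · exact Or.inr (Or.inr (Or.inr rfl))
      · rintro (rfl | rfl | rfl | rfl)
        · exact (mem_tfN.1 ((hN 1 (by norm_num)).2 (Or.inl rfl))).2
        · exact (mem_tfN.1 ((hN 2 (by norm_num)).2 (Or.inr (Or.inl rfl)))).2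
        · exact (mem_tfN.1 ((hN 4 (by norm_num)).2 (Or.inr (Or.inr (Or.inl rfl))))).2
        · exact (mem_tfN.1 ((hN 7 (by norm_num)).2 (Or.inr (Or.inr (Or.inr rfl))))).2

end Pool.Agent.WW

end
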