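import Mathlib
import Pool.Agent.Work.MP_a8f287_co.Bd.B12
import Pool.Agent.Work.MP_a8f287_co.Bd.B02
import Pool.Agent.Work.MP_a8f287_co.Bd.B06
import Pool.Agent.Work.MP_a8f287_co.Bd.B08
import Pool.Agent.Work.MP_a8f287_co.Bd.B01
import Pool.Agent.Work.MP_a8f287_co.Bd.T18

/-! Bundle of small proof modules (one section per former module). -/

section

/-!
Module K4, item W1: linking two subspaces of the same dimension (Tutte's linking theorem).
-/

namespace Pool.Agent.WW

open Submodule Module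

universe u

section KLinkAux

variable {V : Type u} [AddCommGroup V] [Module (ZMod 2) V] [FiniteDimensional (ZMod 2) V]

/-- the connectivity condition modulo `K` for the set `S` -/
def kLinkC (P U : Submodule (ZMod 2) V) (κ : ℕ) (K : Submodule (ZMod 2) V) (S : Set V) : Prop :=
  ∀ A A' : Submodule (ZMod 2) V, K ≤ A → K ≤ A' → P ≤ A → U ≤ A' →
    (∀ x ∈ S, x ∈ A ∨ x ∈ A') →
    finrank (ZMod 2) V + κ + finrank (ZMod 2) K ≤ finrank (ZMod 2) A + finrank (ZMod 2) A'

omit [FiniteDimensional (ZMod 2) V] in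
theorem kLink_step_set (P U : Submodule (ZMod 2) V) (κ : ℕ) (K : Submodule (ZMod 2) V)
    (s : Finset V) (hs : kLinkC P U κ K (s : Set V)) :
    kLinkC P U κ K ∅ ∨ ∃ (t : Finset V) (b : V), t ⊆ s ∧ b ∈ s ∧
      kLinkC P U κ K (insert b (t : Set V)) ∧ ¬ kLinkC P U κ K (t : Set V) := by
  classical
  induction s using Finset.induction_on with
  | empty => left; simpa using hs
  | insert b s hb ih =>
    by_cases h : kLinkC P U κ K (s : Set V)
    · rcases ih h with h1 | ⟨t, c, h1, h2, h3, h4⟩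
      · exact Or.inl h1
      · exact Or.inr ⟨t, c, h1.trans (Finset.subset_insert _ _), Finset.mem_insert_of_mem h2,
          h3, h4⟩
    · right
      refine ⟨s, b, Finset.subset_insert _ _, Finset.mem_insert_self _ _, ?_, h⟩
      rw [Finset.coe_insert] at hs
      exact hs

omit [FiniteDimensional (ZMod 2) V] in
theorem kLink_inf_bot (K P A : Submodule (ZMod 2) V) (b : V) (hKP : K ⊓ P = ⊥) (hK : K ≤ A)
    (hP : P ≤ A) (hb : b ∉ A) : (K ⊔ span (ZMod 2) {b}) ⊓ P = ⊥ := by
  rw [eq_bot_iff]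
  rintro x ⟨hx1, hx2⟩
  rw [SetLike.mem_coe, Submodule.mem_sup] at hx1
  obtain ⟨k, hk, y, hy, rfl⟩ := hx1
  obtain ⟨c, rfl⟩ := Submodule.mem_span_singleton.1 hy
  by_cases hc : c = 0
  · subst hc
    rw [zero_smul, add_zero] at hx2 ⊢
    have : k ∈ K ⊓ P := ⟨hk, hx2⟩
    rw [hKP] at this
    exact this
  · exfalso
    apply hb
    have h1 : c • b ∈ A := by
      have : c • b = (k + c • b) - k := by abel
      rw [this]
      exact A.sub_mem (hP hx2) (hK hk)
    have h2 : c⁻¹ • (c • b) ∈ A := A.smul_mem _ h1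
    rwa [smul_smul, inv_mul_cancel₀ hc, one_smul] at h2

theorem kLink_finrank_sup (K : Submodule (ZMod 2) V) (b : V) (hb : b ∉ K) :
    finrank (ZMod 2) ↥(K ⊔ span (ZMod 2) {b}) = finrank (ZMod 2) K + 1 := by
  have h0 : b ≠ 0 := by
    rintro rfl
    exact hb K.zero_mem
  have h1 := Submodule.finrank_sup_add_finrank_inf_eq K (span (ZMod 2) {b})
  have h2 : K ⊓ span (ZMod 2) {b} = ⊥ := by
    rw [eq_bot_iff]
    rintro x ⟨hx1, hx2⟩
    obtain ⟨c, rfl⟩ := Submodule.mem_span_singleton.1 hx2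
    by_cases hc : c = 0
    · subst hc
      simp
    · exfalso
      apply hb
      have h2 : c⁻¹ • (c • b) ∈ K := K.smul_mem _ hx1
      rwa [smul_smul, inv_mul_cancel₀ hc, one_smul] at h2
  rw [h2, finrank_bot, finrank_span_singleton h0] at h1
  omega

theorem kLink_main (B : Set V) (P U : Submodule (ZMod 2) V) (κ : ℕ)
    (hP : finrank (ZMod 2) P = κ) (hU : finrank (ZMod 2) U = κ) (n : ℕ) :
    ∀ K : Submodule (ZMod 2) V, finrank (ZMod 2) V - finrank (ZMod 2) K = n → Gen B K →
      K ⊓ P = ⊥ → K ⊓ U = ⊥ → kLinkC P U κ K B →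
      ∃ K : Submodule (ZMod 2) V, Gen B K ∧ K ⊓ P = ⊥ ∧ K ⊓ U = ⊥ ∧ K ⊔ P = ⊤ ∧ K ⊔ U = ⊤ := by
  classical
  haveI : Finite V := Module.finite_of_finite (ZMod 2)
  induction n using Nat.strong_induction_on with
  | _ n ih =>
    intro K hn hG hKP hKU hC
    have hfin : B.Finite := Set.toFinite B
    have hC' : kLinkC P U κ K (hfin.toFinset : Set V) := by
      rw [Set.Finite.coe_toFinset]
      exact hC
    rcases kLink_step_set P U κ K hfin.toFinset hC' with h0 | ⟨t, b, ht, hb, h1, h2⟩
    · refine ⟨K, hG, hKP, hKU, ?_⟩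
      have h3 := h0 (K ⊔ P) (K ⊔ U) le_sup_left le_sup_left le_sup_right le_sup_right
        (by intro x hx; exact absurd hx (Set.notMem_empty x))
      have h4 := Submodule.finrank_sup_add_finrank_inf_eq K P
      have h5 := Submodule.finrank_sup_add_finrank_inf_eq K U
      rw [hKP, finrank_bot, hP] at h4
      rw [hKU, finrank_bot, hU] at h5
      have h6 := Submodule.finrank_le (K ⊔ P)
      have h7 := Submodule.finrank_le (K ⊔ U)
      constructor
      · apply Submodule.eq_top_of_finrank_eq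
        omega
      · apply Submodule.eq_top_of_finrank_eq
        omega
    · have hbB : b ∈ B := hfin.mem_toFinset.1 hb
      unfold kLinkC at h2
      push Not at h2
      obtain ⟨A, A', hKA, hKA', hPA, hUA', hcov, hlt⟩ := h2
      have hbA : b ∉ A := by
        intro h
        have := h1 A A' hKA hKA' hPA hUA' (by
          intro x hx
          rcases Set.mem_insert_iff.1 hx with rfl | hx
          · exact Or.inl h
          · exact hcov x hx)
        omega
      have hbA' : b ∉ A' := by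
        intro h
        have := h1 A A' hKA hKA' hPA hUA' (by
          intro x hx
          rcases Set.mem_insert_iff.1 hx with rfl | hx
          · exact Or.inr h
          · exact hcov x hx)
        omega
      have hbK : b ∉ K := fun h => hbA (hKA h)
      have hdim := kLink_finrank_sup K b hbK
      have hle := Submodule.finrank_le (K ⊔ span (ZMod 2) {b})
      have hbK' : b ∈ K ⊔ span (ZMod 2) {b} :=
        (le_sup_right : span (ZMod 2) {b} ≤ K ⊔ span (ZMod 2) {b}) (mem_span_singleton_self b)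
      refine ih (finrank (ZMod 2) V - finrank (ZMod 2) ↥(K ⊔ span (ZMod 2) {b})) (by omega)
        (K ⊔ span (ZMod 2) {b}) rfl ?_ (kLink_inf_bot K P A b hKP hKA hPA hbA)
        (kLink_inf_bot K U A' b hKU hKA' hUA' hbA') ?_
      · refine sup_le ?_ ?_
        · refine hG.trans (span_mono ?_)
          rintro x ⟨hx1, hx2⟩
          exact ⟨hx1, (le_sup_left : K ≤ K ⊔ span (ZMod 2) {b}) hx2⟩
        · rw [span_singleton_le_iff_mem]
          exact subset_span ⟨hbB, hbK'⟩
      · intro D D' hKD hKD' hPD hUD' hcovD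
        have hKD0 : K ≤ D := le_sup_left.trans hKD
        have hKD0' : K ≤ D' := le_sup_left.trans hKD'
        have hbD : b ∈ D := hKD hbK'
        have hbD' : b ∈ D' := hKD' hbK'
        have e1 := h1 (A ⊓ D) (A' ⊔ D') (le_inf hKA hKD0) (hKA'.trans le_sup_left)
          (le_inf hPA hPD) (hUA'.trans le_sup_left) (by
            intro x hx
            rcases Set.mem_insert_iff.1 hx with rfl | hx
            · exact Or.inr ((le_sup_right : D' ≤ A' ⊔ D') hbD')
            · have hxB : x ∈ B := hfin.mem_toFinset.1 (ht hx)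
              rcases hcov x hx with h | h
              · rcases hcovD x hxB with h' | h'
                · exact Or.inl ⟨h, h'⟩
                · exact Or.inr ((le_sup_right : D' ≤ A' ⊔ D') h')
              · exact Or.inr ((le_sup_left : A' ≤ A' ⊔ D') h))
        have e2 := h1 (A ⊔ D) (A' ⊓ D') (hKA.trans le_sup_left) (le_inf hKA' hKD0')
          (hPA.trans le_sup_left) (le_inf hUA' hUD') (by
            intro x hx
            rcases Set.mem_insert_iff.1 hx with rfl | hx
            · exact Or.inl ((le_sup_right : D ≤ A ⊔ D) hbD)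
            · have hxB : x ∈ B := hfin.mem_toFinset.1 (ht hx)
              rcases hcov x hx with h | h
              · exact Or.inl ((le_sup_left : A ≤ A ⊔ D) h)
              · rcases hcovD x hxB with h' | h'
                · exact Or.inl ((le_sup_right : D ≤ A ⊔ D) h')
                · exact Or.inr ⟨h, h'⟩)
        have e3 := Submodule.finrank_sup_add_finrank_inf_eq A D
        have e4 := Submodule.finrank_sup_add_finrank_inf_eq A' D'
        omega

end KLinkAux

/-- W1: linking two subspaces of the same dimension -/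
theorem kLink : KLink.{u} := by
  intro V _ _ _ B P U κ hP hU h
  refine kLink_main B P U κ hP hU _ ⊥ rfl ?_ (by simp) (by simp) ?_
  · unfold Gen
    exact bot_le
  · intro A A' _ _ hPA hUA' hcov
    rw [finrank_bot]
    exact h A A' hPA hUA' hcov

end Pool.Agent.WW

end

section

/-!
W2: the link of the `K4` plane onto the guts.
-/

namespace Pool.Agent.WW

open Submodule Module

universe u

/-- in a `K4` plane all points except possibly one are in `E` -/
theorem kPlaneLink_pt {V : Type*} [AddCommGroup V] [Module (ZMod 2) V]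
    [FiniteDimensional (ZMod 2) V] (E : Set V) (P : Submodule (ZMod 2) V) (hK : K4P E P)
    (h0 : (0 : V) ∉ E) : ∃ p ∈ P, p ≠ 0 ∧ ∀ x ∈ P, x ≠ 0 → x ≠ p → x ∈ E := by
  obtain ⟨h3, h6⟩ := hK
  by_cases hall : ∀ x ∈ P, x ≠ 0 → x ∈ E
  · have hne : P ≠ ⊥ := by
      rintro rfl
      rw [finrank_bot] at h3
      omega
    obtain ⟨p, hp, hp0⟩ := exists_mem_ne_zero_of_ne_bot hne
    exact ⟨p, hp, hp0, fun x hx hx0 _ => hall x hx hx0⟩
  · push Not at hall
    obtain ⟨p, hp, hp0, hpE⟩ := hall
    refine ⟨p, hp, hp0, ?_⟩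
    intro y hy hy0 hyp
    by_contra hyE
    have hcard : (P : Set V).ncard = 8 := by
      have h1 := Module.natCard_eq_pow_finrank (K := ZMod 2) (V := P)
      rw [h3, Nat.card_zmod] at h1
      rw [← Nat.card_coe_set_eq]
      exact h1
    have hfin : (P : Set V).Finite := by
      apply Set.finite_of_ncard_ne_zero
      omega
    have hsub : E ∩ (P : Set V) ⊆ (P : Set V) \ {0, p, y} := by
      rintro x ⟨hxE, hxP⟩
      refine ⟨hxP, ?_⟩
      rintro (rfl | rfl | rfl)
      · exact h0 hxE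
      · exact hpE hxE
      · exact hyE hxE
    have h1 := Set.ncard_le_ncard hsub (hfin.subset Set.sdiff_subset)
    have h2 : ({0, p, y} : Set V) ⊆ (P : Set V) := by
      rintro x (rfl | rfl | rfl)
      · exact zero_mem _
      · exact hp
      · exact hy
    have h4 := Set.ncard_sdiff h2 (hfin.subset h2)
    have h5 : ({0, p, y} : Set V).ncard = 3 := by
      rw [Set.ncard_eq_three]
      exact ⟨0, p, y, hp0.symm, hy0.symm, hyp.symm, rfl⟩
    omega

theorem kPlaneLink (h0 : ClaimCovDim.{u}) (h1 : KLink.{u}) : KPlaneLink.{u} := by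
  intro V _ _ _ E P G H hE hK hA
  obtain ⟨hcov, hGH, hPH⟩ := hA
  obtain ⟨h0E, hsp, hsep, -⟩ := (good_iff_sepGe E).1 hE
  obtain ⟨-, hdim, -, -⟩ := h0 V E G H hsp hcov
  rw [hGH] at hdim
  obtain ⟨hG, hH, hc⟩ := hcov
  have hmapcomap : ∀ X : Submodule (ZMod 2) V,
      finrank (ZMod 2) ↥(X.comap H.subtype) = finrank (ZMod 2) ↥(H ⊓ X) := by
    intro X
    rw [← finrank_map_subtype_eq, map_comap_subtype]
  have hP1 : finrank (ZMod 2) ↥(P.comap H.subtype) = 3 := by
    rw [hmapcomap, inf_eq_right.2 hPH]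
    exact hK.1
  have hU1 : finrank (ZMod 2) ↥(G.comap H.subtype) = 3 := by
    rw [hmapcomap, inf_comm]
    exact hGH
  obtain ⟨K1, hgen, hKP, hKU, hKP', hKU'⟩ := h1 ↥H ((fun x : H => (x : V)) ⁻¹' E)
    (P.comap H.subtype) (G.comap H.subtype) 3 hP1 hU1 (by
      intro A A' hPA hUA' hcovH
      have h2 : finrank (ZMod 2) ↥(A.map H.subtype) = finrank (ZMod 2) A :=
        finrank_map_subtype_eq _ _
      have h3 : finrank (ZMod 2) ↥(A'.map H.subtype) = finrank (ZMod 2) A' :=
        finrank_map_subtype_eq _ _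
      have hAle : A.map H.subtype ≤ H := map_subtype_le _ _
      have hA'le : A'.map H.subtype ≤ H := map_subtype_le _ _
      have hGHA' : G ⊓ H ≤ A'.map H.subtype := by
        rw [inf_comm, ← map_comap_subtype]
        exact map_mono hUA'
      by_cases htop : finrank (ZMod 2) A' = finrank (ZMod 2) H
      · have h4 := Submodule.finrank_mono hPA
        omega
      · have h4 : finrank (ZMod 2) A' < finrank (ZMod 2) H := by
          have := Submodule.finrank_mono hA'le
          omega
        have h5 : A'.map H.subtype ⊓ G = G ⊓ H := by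
          apply le_antisymm
          · exact le_inf inf_le_right (inf_le_left.trans hA'le)
          · exact le_inf hGHA' inf_le_left
        have h6 := Submodule.finrank_sup_add_finrank_inf_eq (A'.map H.subtype) G
        rw [h5, hGH, h3] at h6
        have h7 : A'.map H.subtype ⊔ G ≠ ⊤ := by
          intro h
          rw [h, finrank_top] at h6
          omega
        have h8 : A.map H.subtype ≠ ⊤ := by
          intro h
          rw [h] at hAle
          exact hH (top_le_iff.1 hAle)
        have h9 : Cov E (A.map H.subtype) (A'.map H.subtype ⊔ G) := by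
          refine ⟨h8, h7, ?_⟩
          intro x hx
          rcases hc x hx with hxG | hxH
          · exact Or.inr (mem_sup_right hxG)
          · rcases hcovH ⟨x, hxH⟩ hx with h | h
            · exact Or.inl ⟨⟨x, hxH⟩, h, rfl⟩
            · exact Or.inr (mem_sup_left ⟨⟨x, hxH⟩, h, rfl⟩)
        have h10 := hsep _ _ h9.1 h9.2.1 h9.2.2
        obtain ⟨-, h11, -, -⟩ := h0 V E _ _ hsp h9
        omega)
  obtain ⟨p, hpP, hp0, hpE⟩ := kPlaneLink_pt E P hK h0E
  -- decomposition along `K1`
  have hdecU : ∀ x : V, x ∈ H → ∃ k ∈ K1, ∃ z : H, (z : V) ∈ G ∧ (k : V) + z = x := by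
    intro x hx
    have h2 : (⟨x, hx⟩ : H) ∈ K1 ⊔ G.comap H.subtype := by
      rw [hKU']
      exact mem_top
    obtain ⟨k, hk, z, hz, hkz⟩ := mem_sup.1 h2
    exact ⟨k, hk, z, hz, congrArg Subtype.val hkz⟩
  have hdecP : ∀ x : V, x ∈ H → ∃ k ∈ K1, ∃ z : H, (z : V) ∈ P ∧ (k : V) + z = x := by
    intro x hx
    have h2 : (⟨x, hx⟩ : H) ∈ K1 ⊔ P.comap H.subtype := by
      rw [hKP']
      exact mem_top
    obtain ⟨k, hk, z, hz, hkz⟩ := mem_sup.1 h2
    exact ⟨k, hk, z, hz, congrArg Subtype.val hkz⟩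
  have hzeroG : ∀ k ∈ K1, (k : V) ∈ G → (k : V) = 0 := by
    intro k hk hkG
    have h2 : k ∈ K1 ⊓ G.comap H.subtype := ⟨hk, hkG⟩
    rw [hKU, mem_bot] at h2
    rw [h2]
    rfl
  have hzeroP : ∀ k ∈ K1, (k : V) ∈ P → (k : V) = 0 := by
    intro k hk hkP
    have h2 : k ∈ K1 ⊓ P.comap H.subtype := ⟨hk, hkP⟩
    rw [hKP, mem_bot] at h2
    rw [h2]
    rfl
  obtain ⟨k, hk, q, hqG, hkq⟩ := hdecU p (hPH hpP)
  refine ⟨K1.map H.subtype, (q : V), ?_, ?_, ⟨hqG, q.2⟩, ?_, ?_⟩
  · -- `Gen`
    unfold Gen at hgen ⊢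
    have h2 := map_mono (f := H.subtype) hgen
    refine h2.trans ?_
    rw [map_span]
    apply span_mono
    rintro _ ⟨x, ⟨hxE, hxK⟩, rfl⟩
    exact ⟨hxE, ⟨x, hxK, rfl⟩⟩
  · rw [eq_bot_iff]
    rintro _ ⟨⟨x, hx, rfl⟩, hxG⟩
    rw [mem_bot]
    exact hzeroG x hx hxG
  · intro hq0
    rw [hq0, add_zero] at hkq
    apply hp0
    rw [← hkq]
    exact hzeroP k hk (hkq ▸ hpP)
  · rintro x ⟨hxG, hxH⟩ hx0 hxq
    obtain ⟨k', hk', y, hyP, hky⟩ := hdecP x hxH
    have hy0 : (y : V) ≠ 0 := by
      intro hy0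
      rw [hy0, add_zero] at hky
      apply hx0
      rw [← hky]
      exact hzeroG k' hk' (hky ▸ hxG)
    have hyp : (y : V) ≠ p := by
      intro hyp
      apply hxq
      have h2 : ((k' + k : H) : V) = x - q := by
        rw [← hky, hyp, ← hkq, coe_add]
        abel
      have h3 : ((k' + k : H) : V) = 0 := by
        apply hzeroG _ (add_mem hk' hk)
        rw [h2]
        exact sub_mem hxG hqG
      rw [h3] at h2
      exact (sub_eq_zero.1 h2.symm)
    refine ⟨y, hpE y hyP hy0 hyp, ?_⟩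
    have h2 : (y : V) + x = k' := by
      rw [← hky]
      calc (y : V) + (k' + y) = k' + (y + y) := by abel
        _ = k' := by rw [ZModModule.add_self, add_zero]
    rw [h2]
    exact ⟨k', hk', rfl⟩

end Pool.Agent.WW

end

section

/-! Steps 4 and 5: it is impossible that all away sides have dimension four. -/

namespace Pool.Agent.WW

open Submodule Module

universe u

theorem kS5_ker {V : Type u} [AddCommGroup V] [Module (ZMod 2) V] (x y : V) :
    ∀ v, (span (ZMod 2) {x, y}).mkQ v = 0 ↔ v = 0 ∨ v = x ∨ v = y ∨ v = x + y := by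
  intro v
  rw [Submodule.mkQ_apply, Submodule.Quotient.mk_eq_zero, Submodule.mem_span_pair]
  constructor
  · rintro ⟨a, b, rfl⟩
    have h2 : ∀ c : ZMod 2, c = 0 ∨ c = 1 := by decide
    rcases h2 a with ha | ha <;> rcases h2 b with hb | hb <;> rw [ha, hb] <;> simp
  · rintro (rfl | rfl | rfl | rfl)
    · exact ⟨0, 0, by simp⟩
    · exact ⟨1, 0, by simp⟩
    · exact ⟨0, 1, by simp⟩
    · exact ⟨1, 1, by simp⟩

theorem kS5 (_h1 : KSall.{u}) (h2 : KSline.{u}) (h3 : KSctr.{u}) (h4 : KScount.{u})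
    (h5 : KDelCard.{u}) : KS5.{u} := by
  intro hTab V _ _ _ E P hG h7 hP hnc hfour hP2
  have hall : KAll E P := ⟨hG, h7, hP, hnc, hfour⟩
  obtain ⟨x, hxE, hxP⟩ : ∃ x ∈ E, x ∉ P := by
    by_contra hcon
    push Not at hcon
    have h6 : span (ZMod 2) E ≤ P := span_le.2 hcon
    rw [hG.span] at h6
    have h8 := Submodule.finrank_mono h6
    rw [finrank_top, hP.1] at h8
    omega
  obtain ⟨y, hyE, hyP, hxyE, hxyP, _⟩ := h2 V E P x hall hxE hxP
  obtain ⟨c1, c2, c3, c4⟩ := h3 V (V ⧸ span (ZMod 2) {x, y}) E P x y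
    (span (ZMod 2) {x, y}).mkQ hall hxE hxP hyE hxyE (Submodule.mkQ_surjective _) (kS5_ker x y)
  obtain ⟨N, hN1, hN2⟩ := h4 V E P hall
  rcases Nat.lt_or_ge (finrank (ZMod 2) V) 8 with h8 | h8
  · have h9 : finrank (ZMod 2) (V ⧸ span (ZMod 2) {x, y}) = 5 := by omega
    have h10 := (hTab (V ⧸ span (ZMod 2) {x, y}) _ h9 c1 c3).1
    omega
  · have h9 := hP2 h8 (V ⧸ span (ZMod 2) {x, y}) _ c1 (by omega) c3
    have h10 := h5 (V ⧸ span (ZMod 2) {x, y}) (finrank (ZMod 2) V - 2 - 1) _ (by omega) h9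
    omega

end Pool.Agent.WW

end

section

/-!
S6: every point outside `P` is in an away cocircuit.
-/

namespace Pool.Agent.WW

open Submodule Module

universe u

theorem sall_sep (h0 : KUnsp.{u}) {V : Type u} [AddCommGroup V] [Module (ZMod 2) V]
    [FiniteDimensional (ZMod 2) V] {E : Set V} {P : Submodule (ZMod 2) V} {x : V}
    (hK : KAll E P) (hx : x ∈ E) (hxP : x ∉ P) :
    ∃ T T' : Submodule (ZMod 2) V, Away E P T T' ∧ x ∈ T ∧ x ∈ T' := by
  have hn := hK.nc x hx hxP
  unfold Ctr at hn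
  push Not at hn
  obtain ⟨A, B, hAB, hxAB, h4⟩ := hn
  have hg := (good_iff_sepGe E).1 hK.good
  have h3 : 3 ≤ finrank (ZMod 2) ↥(A ⊓ B) := hg.2.2.1 A B hAB.1 hAB.2.1 hAB.2.2
  have hd : finrank (ZMod 2) ↥(A ⊓ B) = 3 := by omega
  rcases h0 V E P hg.1 hK.pl A B (fun y hy _ => hAB.2.2 y hy) with h | h
  · exact ⟨B, A, ⟨⟨hAB.2.1, hAB.1, fun y hy => (hAB.2.2 y hy).symm⟩,
      by rw [inf_comm]; exact hd, h⟩, hxAB.2, hxAB.1⟩
  · exact ⟨A, B, ⟨hAB, hd, h⟩, hxAB.1, hxAB.2⟩

theorem kSall (h0 : KUnsp.{u}) (h1 : KSu.{u}) (h2 : KSguts.{u}) (h3 : KSpartner.{u})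
    (h4 : KSone.{u}) : KSall.{u} := by
  intro V _ _ _ E P x hK hx hxP
  obtain ⟨T, T', hA, hxT, hxT'⟩ := sall_sep h0 hK hx hxP
  obtain ⟨a, haE, b, hbE, haT, hbT, -, hxab⟩ := h2 V E P T T' x hK hA hx hxT hxT'
  obtain ⟨S, S', u, hp⟩ := h1 V E P T T' a hK hA haE haT
  have hau := h3 V E P T T' S S' a u hK hA haE haT hp
  have hab : a + b ∈ E := hxab ▸ hx
  refine ⟨S, S', hp.aw, fun hxS => ?_⟩
  rcases h4 V E P T T' a b u hK hA haE haT hbE hab hp.uE hau with h | h
  · apply hp.uT
    rw [h]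
    have : b = x - a := by rw [hxab]; abel
    rw [this]
    exact sub_mem hxS hp.gT'
  · apply hp.uH
    rw [h, ← hxab]
    exact hxT'

end Pool.Agent.WW

end

section

/-! The away cocircuit at a point of a full line. -/

namespace Pool.Agent.WW

open Submodule Module

universe u

theorem kScoc_fin4 : ∀ i j : Fin 4, i ≠ j → ∃ p q : Fin 4, p ≠ q ∧ p ≠ i ∧ p ≠ j ∧ q ≠ i ∧
    q ≠ j ∧ ∀ r : Fin 4, r = i ∨ r = j ∨ r = p ∨ r = q := by
  decide

theorem kScoc_add_self {V : Type u} [AddCommGroup V] [Module (ZMod 2) V] (x : V) :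
    x + x = 0 := by
  have h : (2 : ZMod 2) • x = 0 := by
    have h2 : (2 : ZMod 2) = 0 := rfl
    rw [h2, zero_smul]
  rwa [two_smul] at h

theorem kScoc (h0 : KUnsp.{u}) (h1 : KSfour.{u}) (h2 : KSguts.{u}) (h3 : KSu.{u})
    (h4 : KSpartner.{u}) (h5 : KSone.{u}) (h6 : KSline.{u}) : KScoc.{u} := by
  intro V _ _ _ E P x y hA hx hxP hy hxy
  have hG := hA.good
  obtain ⟨hz, hspan, hsep, hfree⟩ := (good_iff_sepGe E).1 hG
  have hdbl : ∀ v : V, v + v = 0 := kScoc_add_self
  have hx0 : x ≠ 0 := fun h => hz (h ▸ hx)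
  -- the separation through `x`
  obtain ⟨T, T', hT, hxT, hxT'⟩ : ∃ T T' : Submodule (ZMod 2) V, Away E P T T' ∧
      x ∈ T ∧ x ∈ T' := by
    have hnc := hA.nc x hx hxP
    unfold Ctr at hnc
    push Not at hnc
    obtain ⟨A, B, hAB, hgAB, hlt⟩ := hnc
    have hge := hsep A B hAB.1 hAB.2.1 hAB.2.2
    have h4 : finrank (ZMod 2) ↥(A ⊓ B) = 3 := by omega
    rcases h0 V E P hz hA.pl A B (fun y hy _ => hAB.2.2 y hy) with hPA | hPB
    · exact ⟨B, A, ⟨⟨hAB.2.1, hAB.1, fun y hy => (hAB.2.2 y hy).symm⟩,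
        by rw [inf_comm]; exact h4, hPA⟩, hgAB.2, hgAB.1⟩
    · exact ⟨A, B, ⟨hAB, h4, hPB⟩, hgAB.1, hgAB.2⟩
  obtain ⟨a, haE, b, hbE, haT', hbT', hab, hxab⟩ := h2 V E P T T' x hA hT hx hxT hxT'
  obtain ⟨y0, hy0E, hy0P, hxy0E, hxy0P, huniq⟩ := h6 V E P x hA hx hxP
  have hxa : x + a = b := by
    rw [hxab]
    have := hdbl a
    calc a + b + a = (a + a) + b := by abel
      _ = b := by rw [this, zero_add]
  have ha1 := huniq a haE (by rw [hxa]; exact hbE)
  have hy1 := huniq y hy hxy
  have hxxy : ∀ v : V, x + (x + v) = v := by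
    intro v
    rw [← add_assoc, hdbl x, zero_add]
  have key : (y ∉ T') ∧ (x + y ∉ T') := by
    have hcase : (a = y ∧ b = x + y) ∨ (a = x + y ∧ b = y) := by
      rcases ha1 with h | h <;> rcases hy1 with h' | h'
      · left
        have : a = y := by rw [h, h']
        exact ⟨this, by rw [← hxa, this]⟩
      · right
        have : a = x + y := by rw [h, h', hxxy]
        exact ⟨this, by rw [← hxa, this, hxxy]⟩
      · right
        have : a = x + y := by rw [h, h']
        exact ⟨this, by rw [← hxa, this, hxxy]⟩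
      · left
        have : a = y := by rw [h, h']
        exact ⟨this, by rw [← hxa, this]⟩
    rcases hcase with ⟨h, h'⟩ | ⟨h, h'⟩
    · rw [← h', ← h]; exact ⟨haT', hbT'⟩
    · rw [← h, ← h']; exact ⟨hbT', haT'⟩
  obtain ⟨hyT', hxyT'⟩ := key
  obtain ⟨c, hcli, hc, hTc, hdimT'⟩ := h1 V E P T T' hA hT
  obtain ⟨i, hi⟩ := (hc y).1 ⟨hy, hyT'⟩
  obtain ⟨j, hj⟩ := (hc (x + y)).1 ⟨hxy, hxyT'⟩
  have hinj := hcli.injective
  have hij : i ≠ j := by
    rintro rfl
    have h7 : x + y = y := by rw [hj, ← hi]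
    exact hx0 (by simpa using h7)
  obtain ⟨p, q, hpq, hpi, hpj, hqi, hqj, hall⟩ := kScoc_fin4 i j hij
  have hk := (hc (c p)).2 ⟨p, rfl⟩
  have hl := (hc (c q)).2 ⟨q, rfl⟩
  have hky : c p ≠ y := by rw [hi]; exact fun h => hpi (hinj h)
  have hkxy : c p ≠ x + y := by rw [hj]; exact fun h => hpj (hinj h)
  have hkx : c p ≠ x := fun h => hk.2 (h ▸ hxT')
  have hyxy : y + (x + y) = x := by
    calc y + (x + y) = x + (y + y) := by abel
      _ = x := by rw [hdbl, add_zero]
  have hxyy : x + y + y = x := by rw [add_assoc, hdbl, add_zero]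
  obtain ⟨S, S', w, hw⟩ := h3 V E P T T' (c p) hA hT hk.1 hk.2
  have hkw := h4 V E P T T' S S' (c p) w hA hT hk.1 hk.2 hw
  have hwk : w ≠ c p := fun h => hw.uT (h ▸ hw.gT')
  have hwl : w = c q := by
    obtain ⟨r, hr⟩ := (hc w).1 ⟨hw.uE, hw.uH⟩
    rcases hall r with h | h | h | h
    · exfalso
      have hwy : w = y := by rw [hr, h, hi]
      rw [hwy] at hkw
      rcases h5 V E P T T' y (x + y) (c p) hA hT hy hyT' hxy (by rw [hyxy]; exact hx) hk.1
        (by rw [add_comm]; exact hkw) with h' | h'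
      · exact hkxy h'
      · exact hkx (by rw [h', hyxy])
    · exfalso
      have hwy : w = x + y := by rw [hr, h, hj]
      rw [hwy] at hkw
      rcases h5 V E P T T' (x + y) y (c p) hA hT hxy hxyT' hy (by rw [hxyy]; exact hx) hk.1
        (by rw [add_comm]; exact hkw) with h' | h'
      · exact hky h'
      · exact hkx (by rw [h', hxyy])
    · exact absurd (by rw [hr, h]) hwk
    · rw [hr, h]
  refine ⟨T, T', c p, c q, hT, hxT, hxT', hyT', hxyT', hk.1, hl.1, hk.2, hl.2,
    by rw [← hwl]; exact hkw, ?_, hdimT'⟩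
  intro v hv hvT'
  obtain ⟨r, hr⟩ := (hc v).1 ⟨hv, hvT'⟩
  rcases hall r with h | h | h | h
  · left; rw [hr, h, hi]
  · right; left; rw [hr, h, hj]
  · right; right; left; rw [hr, h]
  · right; right; right; rw [hr, h]

end Pool.Agent.WW

end

section

/-!
S10: the number of points.
-/

namespace Pool.Agent.WW

open Submodule Module

universe u

theorem kScount (h4 : KSline.{u}) : KScount.{u} := by
  classical
  intro V _ _ _ E P hK
  have hfin : Finite V := Module.finite_of_finite (ZMod 2)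
  have hP3 : finrank (ZMod 2) P = 3 := hK.pl.1
  have h0E : (0 : V) ∉ E := hK.good.zero
  have hself : ∀ v : V, v + v = 0 := fun v => ZModModule.add_self v
  have hcanc : ∀ v w : V, v + (v + w) = w := fun v w => by
    rw [← add_assoc, hself, zero_add]
  have hsep : SepGe E 3 := ((good_iff_sepGe E).1 hK.good).2.2.1
  have hPtop : P ≠ ⊤ := by
    intro h
    have h5 := hK.r7
    rw [h, finrank_top] at hP3
    omega
  -- the plane
  have h6 : (E ∩ (P : Set V)).ncard = 6 := by
    apply le_antisymm _ hK.pl.2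
    have hne : ∃ a ∈ E, a ∉ P := by
      by_contra hcon
      push Not at hcon
      apply hPtop
      rw [eq_top_iff, ← hK.good.span]
      exact span_le.2 hcon
    obtain ⟨w, hwP, hw0, hwE⟩ := no_fano hK.good P hP3 hne
    have hPc : (P : Set V).ncard = 8 := by
      have h7 : Nat.card P = Nat.card (ZMod 2) ^ finrank (ZMod 2) P :=
        Module.natCard_eq_pow_finrank
      rw [hP3, Nat.card_zmod] at h7
      rw [← Nat.card_coe_set_eq]
      exact h7
    have hsub : E ∩ (P : Set V) ⊆ (P : Set V) \ {0, w} := by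
      rintro v ⟨hv, hvP⟩
      refine ⟨hvP, ?_⟩
      rintro (h | h)
      · exact h0E (h ▸ hv)
      · exact hwE ((Set.mem_singleton_iff.1 h) ▸ hv)
    have h8 := Set.ncard_le_ncard hsub (Set.toFinite _)
    have h9 : ((P : Set V) \ {0, w}).ncard = 6 := by
      rw [Set.ncard_diff _ (Set.toFinite _), hPc, Set.ncard_pair (Ne.symm hw0)]
      rintro v (h | h)
      · rw [h]; exact P.zero_mem
      · rw [Set.mem_singleton_iff.1 h]; exact hwP
    omega
  -- the span of the rest
  have hS : span (ZMod 2) (E \ (P : Set V)) = ⊤ := by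
    by_contra hcon
    have h7 := hsep P (span (ZMod 2) (E \ (P : Set V))) hPtop hcon (by
      intro x hx
      by_cases hxP : x ∈ P
      · exact Or.inl hxP
      · exact Or.inr (subset_span ⟨hx, hxP⟩))
    have h8 : P ⊓ span (ZMod 2) (E \ (P : Set V)) = P :=
      Submodule.eq_of_le_of_finrank_le inf_le_left (by omega)
    apply hcon
    rw [eq_top_iff, ← hK.good.span]
    refine span_le.2 ?_
    intro x hx
    by_cases hxP : x ∈ P
    · have h9 : x ∈ P ⊓ span (ZMod 2) (E \ (P : Set V)) := by rw [h8]; exact hxP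
      exact h9.2
    · exact subset_span ⟨hx, hxP⟩
  -- lines
  have uniq : ∀ a ∈ E, a ∉ P → ∀ b ∈ E, a + b ∈ E → ∀ z ∈ E, a + z ∈ E → z = b ∨ z = a + b := by
    intro a ha haP b hb hab z hz haz
    obtain ⟨y, hy, hyP, hay, hayP, hu⟩ := h4 V E P a hK ha haP
    rcases hu b hb hab with rfl | rfl
    · exact hu z hz haz
    · rcases hu z hz haz with rfl | rfl
      · right
        rw [hcanc]
      · left
        rfl
  have key : ∀ n : ℕ, ∀ X : Set V, X ⊆ E \ (P : Set V) →
      (∀ x ∈ X, ∀ z ∈ E, x + z ∈ E → z ∈ X) → X.ncard = n →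
      ∃ N, X.ncard = 3 * N ∧ finrank (ZMod 2) ↥(span (ZMod 2) X) ≤ 2 * N := by
    intro n
    induction n using Nat.strong_induction_on with
    | _ n ih =>
      intro X hXE hXc hXn
      rcases Set.eq_empty_or_nonempty X with rfl | ⟨x, hx⟩
      · refine ⟨0, ?_, ?_⟩
        · rw [Set.ncard_empty]
        · rw [span_empty, finrank_bot]
      · have hxE := (hXE hx).1
        have hxP := (hXE hx).2
        obtain ⟨y, hy, hyP, hxy, hxyP, _⟩ := h4 V E P x hK hxE hxP
        have hyX : y ∈ X := hXc x hx y hy hxy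
        have hxyX : x + y ∈ X := hXc x hx (x + y) hxy (by rw [hcanc]; exact hy)
        have hx0 : x ≠ 0 := fun h => h0E (h ▸ hxE)
        have hy0 : y ≠ 0 := fun h => h0E (h ▸ hy)
        have hne1 : x ≠ y := by
          rintro rfl
          rw [hself] at hxy
          exact h0E hxy
        have hne2 : x ≠ x + y := fun h => hy0 (left_eq_add.mp h)
        have hne3 : y ≠ x + y := fun h => hx0 (right_eq_add.mp h)
        set L : Set V := {x, y, x + y} with hL
        have hLX : L ⊆ X := by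
          rintro v (rfl | rfl | rfl)
          · exact hx
          · exact hyX
          · exact hxyX
        have hLc : L.ncard = 3 := Set.ncard_eq_three.2 ⟨x, y, x + y, hne1, hne2, hne3, rfl⟩
        have hXL : (X \ L).ncard + 3 = X.ncard := by
          have h9 := Set.ncard_diff_add_ncard_of_subset hLX (Set.toFinite _)
          omega
        obtain ⟨N, hN1, hN2⟩ := ih (X \ L).ncard (by omega) (X \ L)
          (fun v hv => hXE hv.1) (by
            rintro w ⟨hwX, hwL⟩ z hz hwz
            refine ⟨hXc w hwX z hz hwz, ?_⟩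
            have hwE := (hXE hwX).1
            have hzw : z + w ∈ E := by rw [add_comm]; exact hwz
            rintro (rfl | rfl | rfl)
            · rcases uniq z hxE hxP y hy hxy w hwE hzw with h | h
              · exact hwL (by rw [h]; right; left; rfl)
              · exact hwL (by rw [h]; right; right; rfl)
            · rcases uniq z hy hyP x hxE (by rw [add_comm]; exact hxy) w hwE hzw with h | h
              · exact hwL (by rw [h]; left; rfl)
              · exact hwL (by rw [h, add_comm]; right; right; rfl)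
            · rcases uniq (x + y) hxy hxyP x hxE (by rw [add_comm, hcanc]; exact hy) w hwE
                hzw with h | h
              · exact hwL (by rw [h]; left; rfl)
              · exact hwL (by rw [h, add_comm, hcanc]; right; left; rfl)) rfl
        refine ⟨N + 1, by omega, ?_⟩
        have h10 : span (ZMod 2) X ≤ span (ZMod 2) (X \ L) ⊔ span (ZMod 2) {x, y} := by
          refine span_le.2 ?_
          intro v hv
          by_cases hvL : v ∈ L
          · apply mem_sup_right
            rcases hvL with rfl | rfl | rfl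
            · exact subset_span (by simp)
            · exact subset_span (by simp)
            · exact add_mem (subset_span (by simp)) (subset_span (by simp))
          · exact mem_sup_left (subset_span ⟨hv, hvL⟩)
        have h11 := (Submodule.finrank_mono h10).trans
          (Submodule.finrank_add_le_finrank_add_finrank _ _)
        have h12 : finrank (ZMod 2) ↥(span (ZMod 2) ({x, y} : Set V)) ≤ 2 := by
          have h13 := finrank_span_finset_le_card (R := ZMod 2) ({x, y} : Finset V)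
          rw [Finset.coe_insert, Finset.coe_singleton] at h13
          exact h13.trans Finset.card_le_two
        omega
  obtain ⟨N, hN1, hN2⟩ := key _ (E \ (P : Set V)) subset_rfl (by
    rintro x ⟨hx, hxP⟩ z hz hxz
    refine ⟨hz, ?_⟩
    obtain ⟨y, hy, hyP, hxy, hxyP, hu⟩ := h4 V E P x hK hx hxP
    rcases hu z hz hxz with rfl | rfl
    · exact hyP
    · exact hxyP) rfl
  refine ⟨N, ?_, ?_⟩
  · have h7 := Set.ncard_inter_add_ncard_diff_eq_ncard E (P : Set V) (Set.toFinite _)
    omega
  · rw [hS, finrank_top] at hN2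
    exact hN2

end Pool.Agent.WW

end

section

/-!
S9: the contraction of a full line is good.
-/

namespace Pool.Agent.WW

open Submodule Module

universe u

section
variable {V W : Type u} [AddCommGroup V] [Module (ZMod 2) V] [AddCommGroup W] [Module (ZMod 2) W]

theorem sct_self (v : V) : v + v = 0 := ZModModule.add_self v

theorem sct_eq {a b : V} (h : a + b = 0) : a = b := by
  calc a = a + (b + b) := by rw [sct_self, add_zero]
    _ = (a + b) + b := by rw [add_assoc]
    _ = b := by rw [h, zero_add]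

theorem sct_move {a b c : V} (h : a + b = c) : c + a = b := by
  rw [← h]
  calc a + b + a = (a + a) + b := by abel
    _ = b := by rw [sct_self, zero_add]

/-- uniqueness of the full line -/
theorem sct_line (h4 : KSline.{u}) [FiniteDimensional (ZMod 2) V] {E : Set V}
    {P : Submodule (ZMod 2) V} (hA : KAll E P) {a b : V} (ha : a ∈ E) (haP : a ∉ P) (hb : b ∈ E)
    (hab : a + b ∈ E) : b ∉ P ∧ a + b ∉ P ∧ ∀ z ∈ E, a + z ∈ E → z = b ∨ z = a + b := by
  obtain ⟨y, hy, hyP, hay, hayP, huniq⟩ := h4 V E P a hA ha haP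
  rcases huniq b hb hab with h | h
  · subst h
    exact ⟨hyP, hayP, huniq⟩
  · have e : a + b = y := by
      rw [h, ← add_assoc, sct_self, zero_add]
    refine ⟨by rw [h]; exact hayP, by rw [e]; exact hyP, ?_⟩
    intro z hz haz
    rcases huniq z hz haz with h' | h'
    · right; rw [h', e]
    · left; rw [h', h]

/-- a `K5` in a contraction comes from a `K5` -/
theorem sct_HasK5 (π : V →ₗ[ZMod 2] W) (E : Set V)
    (hker : ∀ v, π v = 0 → v = 0 ∨ v ∈ E)
    (h : HasK5 {w : W | w ≠ 0 ∧ ∃ v ∈ E, π v = w}) : HasK5 E := by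
  obtain ⟨K', hG, s, hi, hp, hpp⟩ := h
  have hmem : ∀ w ∈ {w : W | w ≠ 0 ∧ ∃ v ∈ E, π v = w}, ∃ x ∈ E, π x = w := fun w hw => hw.2
  choose w hw hws using hp
  choose x hx hxw using fun i => hmem (w i) (hw i)
  have hxs : ∀ i, π (x i) + s i ∈ K' := fun i => by rw [hxw]; exact hws i
  refine ⟨comap π K', ?_, x, ?_, ?_, ?_⟩
  · intro v hv
    have hv' : π v ∈ K' := hv
    have h1 : π v ∈ map π (span (ZMod 2) (E ∩ comap π K')) := by
      rw [map_span]
      refine span_mono ?_ (hG hv')
      rintro u ⟨hu, huK⟩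
      obtain ⟨a, ha, rfl⟩ := hmem u hu
      exact ⟨a, ⟨ha, huK⟩, rfl⟩
    obtain ⟨u, hu, huv⟩ := h1
    have h2 : π (v - u) = 0 := by rw [map_sub, huv, sub_self]
    have h3 : v - u ∈ span (ZMod 2) (E ∩ comap π K') := by
      rcases hker _ h2 with h | h
      · rw [h]; exact zero_mem _
      · refine subset_span ⟨h, ?_⟩
        change π (v - u) ∈ K'
        rw [h2]; exact zero_mem _
    have := add_mem h3 hu
    rwa [sub_add_cancel] at this
  · intro c hc
    apply hi
    have hc' : π (∑ i, c i • x i) ∈ K' := hc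
    have e1 : ∑ i, c i • s i = ∑ i, c i • (π (x i) + s i) - π (∑ i, c i • x i) := by
      rw [map_sum]
      simp only [map_smul, smul_add, Finset.sum_add_distrib]
      abel
    rw [e1]
    exact sub_mem (sum_mem fun i _ => smul_mem _ _ (hxs i)) hc'
  · intro i
    refine ⟨x i, hx i, ?_⟩
    rw [sct_self]; exact zero_mem _
  · intro i j hij
    obtain ⟨z, hz, hzs⟩ := hpp i j hij
    obtain ⟨y, hy, rfl⟩ := hmem z hz
    refine ⟨y, hy, ?_⟩
    change π (y + (x i + x j)) ∈ K'
    have e1 : π (y + (x i + x j)) = (π y + (s i + s j)) + (π (x i) + s i) + (π (x j) + s j) := by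
      rw [map_add, map_add]
      calc π y + (π (x i) + π (x j)) =
          π y + (π (x i) + π (x j)) + (s i + s i) + (s j + s j) := by
            rw [sct_self, sct_self, add_zero, add_zero]
        _ = _ := by abel
    rw [e1]
    exact add_mem (add_mem hzs (hxs i)) (hxs j)

/-- dimension of a preimage -/
theorem sct_comap [FiniteDimensional (ZMod 2) V] [FiniteDimensional (ZMod 2) W]
    (π : V →ₗ[ZMod 2] W) (X : Submodule (ZMod 2) W) :
    finrank (ZMod 2) ↥(comap π X) ≤ finrank (ZMod 2) X + finrank (ZMod 2) (LinearMap.ker π) := by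
  have h1 := LinearMap.finrank_range_add_finrank_ker (π.domRestrict (comap π X))
  have h2 : finrank (ZMod 2) (LinearMap.range (π.domRestrict (comap π X))) ≤
      finrank (ZMod 2) X := by
    refine Submodule.finrank_mono ?_
    rintro w ⟨⟨v, hv⟩, rfl⟩
    exact hv
  have h3 : finrank (ZMod 2) (LinearMap.ker (π.domRestrict (comap π X))) ≤
      finrank (ZMod 2) (LinearMap.ker π) := by
    rw [← Submodule.finrank_map_subtype_eq (comap π X)
      (LinearMap.ker (π.domRestrict (comap π X)))]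
    refine Submodule.finrank_mono ?_
    rintro v hv
    obtain ⟨u, hu, rfl⟩ := Submodule.mem_map.1 hv
    exact hu
  omega

end

/-- the main case distinction -/
theorem sct_core (h0 : ClaimCovDim.{u}) (h2 : KScoc.{u}) (h3 : KSguts.{u}) (h4 : KSline.{u})
    {V : Type u} [AddCommGroup V] [Module (ZMod 2) V]
    [FiniteDimensional (ZMod 2) V] (E : Set V) (P : Submodule (ZMod 2) V) (x y : V)
    (hA : KAll E P) (hx : x ∈ E) (hxP : x ∉ P) (hy : y ∈ E) (hxy : x + y ∈ E)
    (U U' : Submodule (ZMod 2) V) (hcov : Cov E U U') (hxU : x ∈ U) (hyU : y ∈ U)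
    (hxU' : x ∈ U') (hyU' : y ∈ U') (hdim : finrank (ZMod 2) ↥(U ⊓ U') ≤ 4) (hPU : P ≤ U') :
    False := by
  obtain ⟨hz, hsp, hsep, -⟩ := (good_iff_sepGe E).1 hA.good
  obtain ⟨T, T', k, l, haw, hxT, hxT', hyT', hxyT', hk, hl, hkT, hlT, hkl, hall, hT'⟩ :=
    h2 V E P x y hA hx hxP hy hxy
  have hPT' : P ≤ T' := haw.2.2
  obtain ⟨hUt, hU't, hUU⟩ := hcov
  -- the intersection drops
  have hdrop : finrank (ZMod 2) ↥(U ⊓ U' ⊓ T') < finrank (ZMod 2) ↥(U ⊓ U') := by
    refine Submodule.finrank_lt_finrank_of_lt (lt_of_le_of_ne inf_le_left ?_)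
    intro h
    have : y ∈ U ⊓ U' ⊓ T' := by rw [h]; exact ⟨hyU, hyU'⟩
    exact hyT' this.2
  by_cases c1 : k ∈ U ∧ l ∈ U
  · obtain ⟨hkU, hlU⟩ := c1
    have hc : Cov E U (U' ⊓ T') := by
      refine ⟨hUt, ?_, ?_⟩
      · intro h
        apply hU't
        rw [eq_top_iff, ← h]
        exact inf_le_left
      · intro v hv
        by_cases hvT : v ∈ T'
        · rcases hUU v hv with h | h
          · exact Or.inl h
          · exact Or.inr ⟨h, hvT⟩
        · left
          rcases hall v hv hvT with h | h | h | h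
          · rw [h]; exact hyU
          · rw [h]; exact add_mem hxU hyU
          · rw [h]; exact hkU
          · rw [h]; exact hlU
    have e : U ⊓ (U' ⊓ T') = U ⊓ U' ⊓ T' := (inf_assoc U U' T').symm
    have h5 := hsep _ _ hc.1 hc.2.1 hc.2.2
    rw [e] at h5
    have h6 : finrank (ZMod 2) ↥(U ⊓ (U' ⊓ T')) = 3 := by rw [e]; omega
    have h7 := hA.four U (U' ⊓ T') ⟨hc, h6, le_inf hPU hPT'⟩
    have h8 : U ⊓ U' = U := by
      apply Submodule.eq_of_le_of_finrank_le inf_le_left
      omega
    have h9 := (h0 V E U U' hsp ⟨hUt, hU't, hUU⟩).1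
    apply hU't
    rw [← h9]
    exact (sup_eq_right.2 (inf_eq_left.1 h8)).symm
  by_cases c2 : k ∈ U' ∧ l ∈ U'
  · obtain ⟨hkU, hlU⟩ := c2
    have hc : Cov E (U ⊓ T') U' := by
      refine ⟨?_, hU't, ?_⟩
      · intro h
        apply hUt
        rw [eq_top_iff, ← h]
        exact inf_le_left
      · intro v hv
        by_cases hvT : v ∈ T'
        · rcases hUU v hv with h | h
          · exact Or.inl ⟨h, hvT⟩
          · exact Or.inr h
        · right
          rcases hall v hv hvT with h | h | h | h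
          · rw [h]; exact hyU'
          · rw [h]; exact add_mem hxU' hyU'
          · rw [h]; exact hkU
          · rw [h]; exact hlU
    have e : U ⊓ T' ⊓ U' = U ⊓ U' ⊓ T' := inf_right_comm U T' U'
    have h5 := hsep _ _ hc.1 hc.2.1 hc.2.2
    rw [e] at h5
    have h6 : finrank (ZMod 2) ↥(U ⊓ T' ⊓ U') = 3 := by rw [e]; omega
    obtain ⟨a, ha, b, hb, haU, hbU, -, hxab⟩ :=
      h3 V E P (U ⊓ T') U' x hA ⟨hc, h6, hPU⟩ hx ⟨hxU, hxT'⟩ hxU'
    have hline := (sct_line h4 hA hx hxP hy hxy).2.2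
    have h7 : x + a ∈ E := by rw [sct_move hxab.symm]; exact hb
    rcases hline a ha h7 with h | h
    · apply haU
      rw [h]; exact hyU'
    · apply haU
      rw [h]; exact add_mem hxU' hyU'
  -- the mixed cases
  have hmix : ∀ p q : V, p ∉ U' → q ∉ U → p ∈ U → q ∈ U' → p + q ∈ E → False := by
    intro p q hp hq hpU hqU hpq
    rcases hUU _ hpq with h | h
    · apply hq
      have := U.sub_mem h hpU
      rwa [add_sub_cancel_left] at this
    · apply hp
      have := U'.sub_mem h hqU
      rwa [add_sub_cancel_right] at this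
  rcases hUU k hk with h | h
  · have hlU : l ∉ U := fun h' => c1 ⟨h, h'⟩
    have hlU' : l ∈ U' := (hUU l hl).resolve_left hlU
    exact hmix k l (fun h' => c2 ⟨h', hlU'⟩) hlU h hlU' hkl
  · have hlU' : l ∉ U' := fun h' => c2 ⟨h, h'⟩
    have hlU : l ∈ U := (hUU l hl).resolve_right hlU'
    exact hmix l k hlU' (fun h' => c1 ⟨h', hlU⟩) hlU h (by rw [add_comm]; exact hkl)

theorem kSctr (h0 : ClaimCovDim.{u}) (h1 : KUnsp.{u}) (h2 : KScoc.{u}) (h3 : KSguts.{u})
    (h4 : KSline.{u}) : KSctr.{u} := by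
  classical
  intro V _ _ _ W _ _ _ E P x y π hA hx hxP hy hxy hsurj hker
  obtain ⟨hz, hsp, hsep, hk5⟩ := (good_iff_sepGe E).1 hA.good
  have hfV : Finite V := Module.finite_of_finite (ZMod 2)
  have hfW : Finite W := Module.finite_of_finite (ZMod 2)
  obtain ⟨hyP, hxyP, hlx⟩ := sct_line h4 hA hx hxP hy hxy
  have hyx : y + x ∈ E := by rw [add_comm]; exact hxy
  obtain ⟨-, -, hly⟩ := sct_line h4 hA hy hyP hx hyx
  have hxyx : (x + y) + x = y := by
    calc (x + y) + x = (x + x) + y := by abel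
      _ = y := by rw [sct_self, zero_add]
  obtain ⟨-, -, hlxy⟩ := sct_line h4 hA hxy hxyP hx (by rw [hxyx]; exact hy)
  have hx0 : x ≠ 0 := fun h => hz (h ▸ hx)
  have hy0 : y ≠ 0 := fun h => hz (h ▸ hy)
  have hxy0 : x + y ≠ 0 := fun h => hz (h ▸ hxy)
  have hxney : x ≠ y := by
    intro h
    apply hxy0
    rw [h, sct_self]
  -- the kernel
  have hkerspan : LinearMap.ker π = span (ZMod 2) ({x, y} : Set V) := by
    apply le_antisymm
    · intro v hv
      rw [LinearMap.mem_ker, hker] at hv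
      have mx : x ∈ span (ZMod 2) ({x, y} : Set V) := subset_span (by simp)
      have my : y ∈ span (ZMod 2) ({x, y} : Set V) := subset_span (by simp)
      rcases hv with h | h | h | h
      · rw [h]; exact zero_mem _
      · rw [h]; exact mx
      · rw [h]; exact my
      · rw [h]; exact add_mem mx my
    · rw [span_le]
      rintro v (h | h)
      · rw [h, SetLike.mem_coe, LinearMap.mem_ker, hker]; exact Or.inr (Or.inl rfl)
      · rw [Set.mem_singleton_iff] at h
        rw [h, SetLike.mem_coe, LinearMap.mem_ker, hker]; exact Or.inr (Or.inr (Or.inl rfl))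
  have hkerdim : finrank (ZMod 2) (LinearMap.ker π) = 2 := by
    rw [hkerspan]
    exact TriLine.finrank_pair hx0 hy0 hxney
  have hdimW : finrank (ZMod 2) W + 2 = finrank (ZMod 2) V := by
    have := LinearMap.finrank_range_add_finrank_ker π
    rw [hkerdim, LinearMap.range_eq_top.2 hsurj, finrank_top] at this
    exact this
  obtain ⟨C, hC⟩ : ∃ C : Set W, C = {w : W | w ≠ 0 ∧ ∃ v ∈ E, π v = w} := ⟨_, rfl⟩
  have hCm : ∀ w, w ∈ C ↔ w ≠ 0 ∧ ∃ v ∈ E, π v = w := fun w => by rw [hC]; rfl
  rw [← hC]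
  refine ⟨?_, hdimW, ?_, ?_⟩
  · -- good
    refine (good_iff_sepGe C).2 ⟨?_, ?_, ?_, ?_⟩
    · intro h
      exact ((hCm 0).1 h).1 rfl
    · rw [eq_top_iff, ← LinearMap.range_eq_top.2 hsurj, LinearMap.range_eq_map, ← hsp, map_span,
        span_le]
      rintro w ⟨v, hv, rfl⟩
      by_cases h : π v = 0
      · rw [h]; exact zero_mem _
      · exact subset_span ((hCm _).2 ⟨h, v, hv, rfl⟩)
    · intro A B hAt hBt hcov
      by_contra hcon
      push Not at hcon
      have hproper : ∀ X : Submodule (ZMod 2) W, X ≠ ⊤ → comap π X ≠ ⊤ := by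
        intro X hX h
        apply hX
        rw [eq_top_iff]
        intro w _
        obtain ⟨v, rfl⟩ := hsurj w
        have : v ∈ comap π X := by rw [h]; exact mem_top
        exact this
      have hcovE : ∀ v ∈ E, v ∈ comap π A ∨ v ∈ comap π B := by
        intro v hv
        by_cases h : π v = 0
        · left
          rw [mem_comap, h]
          exact zero_mem _
        · exact hcov _ ((hCm _).2 ⟨h, v, hv, rfl⟩)
      have hk : ∀ X : Submodule (ZMod 2) W, x ∈ comap π X ∧ y ∈ comap π X := by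
        intro X
        rw [mem_comap, mem_comap, (hker x).2 (Or.inr (Or.inl rfl)),
          (hker y).2 (Or.inr (Or.inr (Or.inl rfl)))]
        exact ⟨zero_mem _, zero_mem _⟩
      have hdim : finrank (ZMod 2) ↥(comap π A ⊓ comap π B) ≤ 4 := by
        rw [← comap_inf]
        have := sct_comap π (A ⊓ B)
        rw [hkerdim] at this
        omega
      rcases h1 V E P hz hA.pl (comap π A) (comap π B) (fun v hv _ => hcovE v hv) with h | h
      · refine sct_core h0 h2 h3 h4 E P x y hA hx hxP hy hxy (comap π B) (comap π A)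
          ⟨hproper B hBt, hproper A hAt, fun v hv => (hcovE v hv).symm⟩ (hk B).1 (hk B).2 (hk A).1
          (hk A).2 ?_ h
        rw [inf_comm]
        exact hdim
      · exact sct_core h0 h2 h3 h4 E P x y hA hx hxP hy hxy (comap π A) (comap π B)
          ⟨hproper A hAt, hproper B hBt, hcovE⟩ (hk A).1 (hk A).2 (hk B).1 (hk B).2 hdim h
    · intro h
      rw [hC] at h
      apply hk5
      refine sct_HasK5 π E ?_ h
      intro v hv
      rcases (hker v).1 hv with h' | h' | h' | h'
      · exact Or.inl h'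
      · right; rw [h']; exact hx
      · right; rw [h']; exact hy
      · right; rw [h']; exact hxy
  · -- the plane
    intro hK
    obtain ⟨hP3, hP6⟩ := hA.pl
    have hPker : ∀ v ∈ P, π v = 0 → v = 0 := by
      intro v hv h
      rcases (hker v).1 h with h' | h' | h' | h'
      · exact h'
      · exact absurd (h' ▸ hv) hxP
      · exact absurd (h' ▸ hv) hyP
      · exact absurd (h' ▸ hv) hxyP
    have hPinj : Set.InjOn π (P : Set V) := by
      intro a ha b hb hab
      have h5 : π (a + b) = 0 := by rw [map_add, hab, sct_self]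
      exact sct_eq (hPker _ (P.add_mem ha hb) h5)
    have hdimP : finrank (ZMod 2) ↥(P.map π) = 3 := by
      have h5 := LinearMap.finrank_range_add_finrank_ker (π.domRestrict P)
      have h6 : LinearMap.ker (π.domRestrict P) = ⊥ := by
        rw [LinearMap.ker_eq_bot']
        rintro ⟨v, hv⟩ h7
        have h8 : π v = 0 := h7
        exact Subtype.ext (hPker v hv h8)
      have h7 : LinearMap.range (π.domRestrict P) = P.map π := by
        ext w
        constructor
        · rintro ⟨⟨v, hv⟩, rfl⟩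
          exact ⟨v, hv, rfl⟩
        · rintro ⟨v, hv, rfl⟩
          exact ⟨⟨v, hv⟩, rfl⟩
      rw [h6, finrank_bot, h7, hP3] at h5
      omega
    have h5 := hK (P.map π) hdimP
    have h6 : (π '' (E ∩ (P : Set V))).ncard = (E ∩ (P : Set V)).ncard :=
      (hPinj.mono Set.inter_subset_right).ncard_image
    have h7 : π '' (E ∩ (P : Set V)) ⊆ C ∩ ((P.map π : Submodule (ZMod 2) W) : Set W) := by
      rintro w ⟨v, ⟨hv, hvP⟩, rfl⟩
      refine ⟨(hCm _).2 ⟨?_, v, hv, rfl⟩, ⟨v, hvP, rfl⟩⟩
      intro h8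
      exact hz ((hPker v hvP h8) ▸ hv)
    have h8 := Set.ncard_le_ncard h7 (Set.toFinite _)
    omega
  · -- the number of points
    obtain ⟨E', hE'⟩ : ∃ E' : Set V, E' = E \ {x, y, x + y} := ⟨_, rfl⟩
    have hE'm : ∀ v, v ∈ E' ↔ v ∈ E ∧ v ≠ x ∧ v ≠ y ∧ v ≠ x + y := by
      intro v
      rw [hE']
      simp only [Set.mem_sdiff, Set.mem_insert_iff, Set.mem_singleton_iff, not_or]
    have himg : C = π '' E' := by
      ext w
      rw [hCm]
      constructor
      · rintro ⟨hw, v, hv, rfl⟩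
        refine ⟨v, (hE'm v).2 ⟨hv, ?_, ?_, ?_⟩, rfl⟩
        · intro h; exact hw ((hker v).2 (Or.inr (Or.inl h)))
        · intro h; exact hw ((hker v).2 (Or.inr (Or.inr (Or.inl h))))
        · intro h; exact hw ((hker v).2 (Or.inr (Or.inr (Or.inr h))))
      · rintro ⟨v, hv, rfl⟩
        obtain ⟨hvE, n1, n2, n3⟩ := (hE'm v).1 hv
        refine ⟨?_, v, hvE, rfl⟩
        intro h
        rcases (hker v).1 h with h' | h' | h' | h'
        · exact hz (h' ▸ hvE)
        · exact n1 h'
        · exact n2 h'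
        · exact n3 h'
    have hinj : Set.InjOn π E' := by
      intro a ha b hb hab
      obtain ⟨haE, a1, a2, a3⟩ := (hE'm a).1 ha
      obtain ⟨hbE, -, -, -⟩ := (hE'm b).1 hb
      have h5 : π (a + b) = 0 := by rw [map_add, hab, sct_self]
      rcases (hker _).1 h5 with h' | h' | h' | h'
      · exact sct_eq h'
      · exfalso
        rcases hlx a haE (by rw [sct_move h']; exact hbE) with h | h
        · exact a2 h
        · exact a3 h
      · exfalso
        rcases hly a haE (by rw [sct_move h']; exact hbE) with h | h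
        · exact a1 h
        · exact a3 (by rw [h, add_comm])
      · exfalso
        rcases hlxy a haE (by rw [sct_move h']; exact hbE) with h | h
        · exact a1 h
        · exact a2 (by rw [h, hxyx])
    have hcard : ({x, y, x + y} : Set V).ncard = 3 := by
      have n1 : x ≠ x + y := by
        intro h
        apply hy0
        have := sct_move (a := x) (b := y) rfl
        rw [← h] at this
        rw [← this, sct_self]
      have n2 : y ≠ x + y := by
        intro h
        apply hx0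
        have h' : (x + y) + y = 0 := by rw [← h, sct_self]
        rw [add_assoc, sct_self, add_zero] at h'
        exact h'
      exact Set.ncard_eq_three.2 ⟨x, y, x + y, hxney, n1, n2, rfl⟩
    have hsub : ({x, y, x + y} : Set V) ⊆ E := by
      rintro v (h | h | h)
      · rw [h]; exact hx
      · rw [h]; exact hy
      · rw [Set.mem_singleton_iff] at h
        rw [h]; exact hxy
    rw [himg, hinj.ncard_image, hE', ← hcard]
    exact Set.ncard_sdiff_add_ncard_of_subset hsub (Set.toFinite _)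

end Pool.Agent.WW

end

section

/-!
Item S2 of the module K4: away cocircuits have four elements.
-/

namespace Pool.Agent.WW

open Submodule Module

universe u

/-- a plane section has at most two elements outside a hyperplane -/
theorem sf_two {V : Type*} [AddCommGroup V] [Module (ZMod 2) V] [FiniteDimensional (ZMod 2) V]
    (L H : Submodule (ZMod 2) V) (hL : finrank (ZMod 2) L = 2)
    (hH : finrank (ZMod 2) H + 1 = finrank (ZMod 2) V) (S : Set V)
    (hSL : ∀ x ∈ S, x ∈ L) (hSH : ∀ x ∈ S, x ∉ H) : S.ncard ≤ 2 := by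
  have : Finite V := Module.finite_of_finite (ZMod 2)
  by_contra hcon
  push Not at hcon
  rw [Set.two_lt_ncard_iff (Set.toFinite S)] at hcon
  obtain ⟨x, y, z, hx, hy, hz, hxy, hxz, hyz⟩ := hcon
  have hlt : finrank (ZMod 2) ↥(L ⊓ H) < finrank (ZMod 2) L := by
    refine Submodule.finrank_lt_finrank_of_lt (lt_of_le_of_ne inf_le_left ?_)
    intro h
    exact hSH x hx (h.ge (hSL x hx)).2
  have h1 : finrank (ZMod 2) ↥(L ⊓ H) ≤ 1 := by omega
  obtain ⟨v, hv⟩ := finrank_le_one_iff.1 h1
  have hxy' : x + y ∈ L ⊓ H := ⟨L.add_mem (hSL x hx) (hSL y hy),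
    qd_hyper hH (hSH x hx) (hSH y hy)⟩
  have hxz' : x + z ∈ L ⊓ H := ⟨L.add_mem (hSL x hx) (hSL z hz),
    qd_hyper hH (hSH x hx) (hSH z hz)⟩
  have hself : ∀ w : V, w + w = 0 := fun w => by
    rw [← two_smul (ZMod 2) w, show (2 : ZMod 2) = 0 from rfl, zero_smul]
  have hne : ∀ a b : V, a ≠ b → a + b ≠ 0 := by
    intro a b hab h
    apply hab
    have h2 : a + b + b = b := by rw [h, zero_add]
    rwa [add_assoc, hself b, add_zero] at h2
  have key : ∀ w : V, ∀ hw : w ∈ L ⊓ H, w ≠ 0 → w = (v : V) := by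
    intro w hw hw0
    obtain ⟨c, hc⟩ := hv ⟨w, hw⟩
    have hc' : c • (v : V) = w := congrArg Subtype.val hc
    have hcc : ∀ c : ZMod 2, c = 0 ∨ c = 1 := by decide
    rcases hcc c with h | h
    · rw [h, zero_smul] at hc'
      exact absurd hc'.symm hw0
    · rw [h, one_smul] at hc'
      exact hc'.symm
  have h3 := (key _ hxy' (hne x y hxy)).trans (key _ hxz' (hne x z hxz)).symm
  exact hyz (add_left_cancel h3)

theorem kSfour (h0 : ClaimCovDim.{u}) (h1 : KSu.{u}) : KSfour.{u} := by
  intro V _ _ _ E P G H hK hA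
  have : Finite V := Module.finite_of_finite (ZMod 2)
  have hG4 : finrank (ZMod 2) G = 4 := hK.four G H hA
  have hsep : SepGe E 3 := ((good_iff_sepGe E).1 hK.good).2.2.1
  obtain ⟨-, hdim, -, hspan⟩ := h0 V E G H hK.good.span hA.1
  have hsp : span (ZMod 2) (E \ (H : Set V)) = G := hspan hsep hA.2.1
  have h3 := hA.2.1
  have hH : finrank (ZMod 2) H + 1 = finrank (ZMod 2) V := by omega
  have hEG : ∀ x ∈ E, x ∉ H → x ∈ G := fun x hx hxH => by
    rw [← hsp]
    exact subset_span ⟨hx, hxH⟩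
  -- an element of the cocircuit
  have hne : ∃ g ∈ E, g ∉ H := by
    by_contra hcon
    push Not at hcon
    have : E \ (H : Set V) = ∅ := by
      ext x
      simp only [Set.mem_sdiff, SetLike.mem_coe, Set.mem_empty_iff_false, iff_false, not_and,
        not_not]
      exact hcon x
    rw [this, span_empty] at hsp
    rw [← hsp, finrank_bot] at hG4
    omega
  obtain ⟨g, hgE, hgH⟩ := hne
  obtain ⟨T, T', u, hp⟩ := h1 V E P G H g hK hA hgE hgH
  obtain ⟨T2, T2', u2, hp2⟩ := h1 V E P G H u hK hA hp.uE hp.uH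
  have huG : u ∈ G := hEG u hp.uE hp.uH
  set Q : Submodule (ZMod 2) V := G ⊓ T' with hQ
  set Q2 : Submodule (ZMod 2) V := G ⊓ T2' with hQ2
  have hQ3 : finrank (ZMod 2) Q = 3 := hp.dim
  have hQ23 : finrank (ZMod 2) Q2 = 3 := hp2.dim
  have huQ : u ∉ Q := fun h => hp.uT h.2
  have huQ2 : u ∈ Q2 := ⟨huG, hp2.gT'⟩
  have hsup : Q ⊔ Q2 = G := by
    apply Submodule.eq_of_le_of_finrank_le
    · exact sup_le inf_le_left inf_le_left
    · have hlt : Q < Q ⊔ Q2 := by
        refine lt_of_le_of_ne le_sup_left ?_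
        intro h
        exact huQ (h ▸ mem_sup_right huQ2)
      have := Submodule.finrank_lt_finrank_of_lt hlt
      omega
  have hL : finrank (ZMod 2) ↥(Q ⊓ Q2) = 2 := by
    have h4 := Submodule.finrank_sup_add_finrank_inf_eq Q Q2
    rw [hsup] at h4
    omega
  -- the cocircuit has at most four elements
  set A : Set V := E \ (H : Set V) with hAdef
  have hAfin : A.Finite := Set.toFinite A
  have hcov : A ⊆ {u, u2} ∪ (A \ {u, u2}) := fun x hx => by
    by_cases h : x ∈ ({u, u2} : Set V)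
    · exact Or.inl h
    · exact Or.inr ⟨hx, h⟩
  have hrest : (A \ {u, u2} : Set V).ncard ≤ 2 := by
    refine sf_two (Q ⊓ Q2) H hL hH _ ?_ ?_
    · rintro x ⟨⟨hxE, hxH⟩, hxn⟩
      have hxu : x ≠ u := fun h => hxn (Or.inl h)
      have hxu2 : x ≠ u2 := fun h => hxn (Or.inr h)
      have hxG := hEG x hxE hxH
      refine ⟨⟨hxG, ?_⟩, ⟨hxG, ?_⟩⟩
      · by_contra hxT
        exact hxu (hp.only x hxE hxH hxT)
      · by_contra hxT
        exact hxu2 (hp2.only x hxE hxH hxT)
    · rintro x ⟨⟨-, hxH⟩, -⟩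
      exact hxH
  have hpair : ({u, u2} : Set V).ncard ≤ 2 := by
    refine (Set.ncard_insert_le _ _).trans ?_
    rw [Set.ncard_singleton]
  have hA4 : A.ncard ≤ 4 := by
    have h5 := Set.ncard_le_ncard hcov (Set.toFinite _)
    have h6 := Set.ncard_union_le ({u, u2} : Set V) (A \ {u, u2})
    omega
  have : Fintype A := Fintype.ofFinite A
  have hcardA : Fintype.card A = A.ncard := by
    rw [← Nat.card_eq_fintype_card]
    rfl
  have hfr : Set.finrank (ZMod 2) A = 4 := by
    unfold Set.finrank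
    rw [hsp, hG4]
  have hA4' : 4 ≤ A.ncard := by
    have h7 := finrank_span_le_card (R := ZMod 2) A
    rw [Set.toFinset_card, hcardA, hsp, hG4] at h7
    exact h7
  have hA44 : Fintype.card A = 4 := by omega
  let e : Fin 4 ≃ A := (Fintype.equivFinOfCardEq hA44).symm
  have hrange : Set.range (fun i => ((e i : A) : V)) = A := by
    ext x
    constructor
    · rintro ⟨i, rfl⟩
      exact (e i).2
    · intro hx
      exact ⟨e.symm ⟨x, hx⟩, by simp⟩
  refine ⟨fun i => ((e i : A) : V), ?_, ?_, ?_, hH⟩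
  · rw [linearIndependent_iff_card_eq_finrank_span, hrange, hfr, Fintype.card_fin]
  · intro v
    constructor
    · rintro ⟨hvE, hvH⟩
      have : v ∈ Set.range (fun i => ((e i : A) : V)) := by
        rw [hrange]
        exact ⟨hvE, hvH⟩
      obtain ⟨i, hi⟩ := this
      exact ⟨i, hi.symm⟩
    · rintro ⟨i, rfl⟩
      exact ⟨(e i).2.1, (e i).2.2⟩
  · rw [hrange, hsp]

end Pool.Agent.WW

end

section

/-!
S3: the points in the guts.
-/

namespace Pool.Agent.WW

open Submodule Module

universe u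

theorem sguts_01 (c : ZMod 2) : c = 0 ∨ c = 1 := by
  revert c; decide

theorem sguts_hyper {V : Type*} [AddCommGroup V] [Module (ZMod 2) V]
    [FiniteDimensional (ZMod 2) V] {H : Submodule (ZMod 2) V}
    (hH : finrank (ZMod 2) H + 1 = finrank (ZMod 2) V) {x y : V} (hx : x ∉ H) (hy : y ∉ H) :
    x + y ∈ H := by
  have h1 : H < H ⊔ span (ZMod 2) {x} := by
    refine lt_of_le_of_ne le_sup_left ?_
    intro h
    apply hx
    rw [h]
    exact mem_sup_right (mem_span_singleton_self x)
  have h2 := Submodule.finrank_lt_finrank_of_lt h1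
  have h3 : H ⊔ span (ZMod 2) {x} = ⊤ := by
    apply Submodule.eq_top_of_finrank_eq
    have h4 := Submodule.finrank_le (H ⊔ span (ZMod 2) {x})
    omega
  have h5 : y ∈ H ⊔ span (ZMod 2) {x} := by rw [h3]; trivial
  obtain ⟨h, hh, z, hz, hsum⟩ := mem_sup.1 h5
  obtain ⟨c, rfl⟩ := mem_span_singleton.1 hz
  have hc : c = 0 ∨ c = 1 := sguts_01 c
  rcases hc with rfl | rfl
  · rw [zero_smul, add_zero] at hsum
    exact absurd (hsum ▸ hh) hy
  · rw [one_smul] at hsum
    have h6 : x + y = h := by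
      rw [← hsum, add_comm h x, ← add_assoc, ZModModule.add_self, zero_add]
    rw [h6]
    exact hh

theorem kSguts (h1 : KSu.{u}) (h2 : KSfour.{u}) : KSguts.{u} := by
  intro V _ _ _ E P G H x hK hA hx hxG hxH
  obtain ⟨a, hli, ha, hG, hH⟩ := h2 V E P G H hK hA
  have haE : ∀ i, a i ∈ E := fun i => ((ha (a i)).2 ⟨i, rfl⟩).1
  have haH : ∀ i, a i ∉ H := fun i => ((ha (a i)).2 ⟨i, rfl⟩).2
  have hinj : Function.Injective a := hli.injective
  have hx0 : x ≠ 0 := fun h => hK.good.zero (h ▸ hx)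
  obtain ⟨T, T', u, hp⟩ := h1 V E P G H (a 0) hK hA (haE 0) (haH 0)
  have huH : u ∉ H := hp.uH
  rcases hp.aw.1.2.2 x hx with hT | hT
  · have h3 : x ∈ G ⊓ T := ⟨hxG, hT⟩
    rw [hp.inf, mem_span_pair] at h3
    obtain ⟨c, d, hcd⟩ := h3
    have hc : c = 0 ∨ c = 1 := sguts_01 c
    have hd : d = 0 ∨ d = 1 := sguts_01 d
    rcases hc with rfl | rfl <;> rcases hd with rfl | rfl
    · rw [zero_smul, zero_smul, add_zero] at hcd
      exact absurd hcd.symm hx0
    · rw [zero_smul, one_smul, zero_add] at hcd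
      exact absurd (hcd ▸ hxH) huH
    · rw [one_smul, zero_smul, add_zero] at hcd
      exact absurd (hcd ▸ hxH) (haH 0)
    · rw [one_smul, one_smul] at hcd
      refine ⟨a 0, haE 0, u, hp.uE, haH 0, huH, ?_, hcd.symm⟩
      intro h
      exact hp.uT (h ▸ hp.gT')
  · obtain ⟨j, hj⟩ := (ha u).1 ⟨hp.uE, huH⟩
    have haT : ∀ i, i ≠ j → a i ∈ T' := by
      intro i hij
      by_contra hcon
      have h4 := hp.only (a i) (haE i) (haH i) hcon
      rw [hj] at h4
      exact hij (hinj h4)
    rw [hG] at hxG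
    obtain ⟨c, hc⟩ := (mem_span_range_iff_exists_fun (ZMod 2)).1 hxG
    have hc01 : ∀ i, c i = 0 ∨ c i = 1 := by
      intro i
      have : ∀ e : ZMod 2, e = 0 ∨ e = 1 := by decide
      exact this (c i)
    have hcj : c j = 0 := by
      rcases hc01 j with h | h
      · exact h
      · exfalso
        apply hp.uT
        rw [← Finset.add_sum_erase _ _ (Finset.mem_univ j), h, one_smul, ← hj] at hc
        have h5 : ∑ i ∈ Finset.univ.erase j, c i • a i ∈ T' := by
          apply Submodule.sum_mem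
          intro i hi
          exact T'.smul_mem _ (haT i (Finset.ne_of_mem_erase hi))
        have h6 : u = x + ∑ i ∈ Finset.univ.erase j, c i • a i := by
          rw [← hc, add_assoc, ZModModule.add_self, add_zero]
        rw [h6]
        exact T'.add_mem hT h5
    have hpair : ∀ i k, a i + a k ∈ H := fun i k => sguts_hyper hH (haH i) (haH k)
    rw [Fin.sum_univ_four] at hc
    have e3 : ∀ i k l, a i + a k + a l ∉ H := by
      intro i k l h
      apply haH l
      have h6 := H.add_mem (hpair i k) h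
      rwa [← add_assoc, ZModModule.add_self, zero_add] at h6
    have hne : ∀ i k, i ≠ k → a i ≠ a k := fun i k h h' => h (hinj h')
    have two : ∀ i k, i ≠ k → x = a i + a k → ∃ a ∈ E, ∃ b ∈ E, a ∉ H ∧ b ∉ H ∧ a ≠ b ∧
        x = a + b := fun i k hik h =>
      ⟨a i, haE i, a k, haE k, haH i, haH k, hne i k hik, h⟩
    have hfour : ¬ (c 0 = 1 ∧ c 1 = 1 ∧ c 2 = 1 ∧ c 3 = 1) := by
      rintro ⟨e0, e1, e2, e3'⟩
      have : ∀ i : Fin 4, c i = 1 := by
        intro i
        fin_cases i
        · exact e0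
        · exact e1
        · exact e2
        · exact e3'
      rw [this j] at hcj
      exact absurd hcj (by decide)
    rcases hc01 0 with h0 | h0 <;> rcases hc01 1 with h1' | h1' <;>
      rcases hc01 2 with h2' | h2' <;> rcases hc01 3 with h3' | h3' <;>
      simp only [h0, h1', h2', h3', zero_smul, one_smul, zero_add, add_zero] at hc
    · exact absurd hc.symm hx0
    · exact absurd (hc ▸ hxH) (haH 3)
    · exact absurd (hc ▸ hxH) (haH 2)
    · exact two 2 3 (by decide) hc.symm
    · exact absurd (hc ▸ hxH) (haH 1)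
    · exact two 1 3 (by decide) hc.symm
    · exact two 1 2 (by decide) hc.symm
    · exact absurd (hc ▸ hxH) (e3 1 2 3)
    · exact absurd (hc ▸ hxH) (haH 0)
    · exact two 0 3 (by decide) hc.symm
    · exact two 0 2 (by decide) hc.symm
    · exact absurd (hc ▸ hxH) (e3 0 2 3)
    · exact two 0 1 (by decide) hc.symm
    · exact absurd (hc ▸ hxH) (e3 0 1 3)
    · exact absurd (hc ▸ hxH) (e3 0 1 2)
    · exact absurd ⟨h0, h1', h2', h3'⟩ hfour

end Pool.Agent.WW

end

section

/-!
S7: exactly one full line through every point outside `P`.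
-/

namespace Pool.Agent.WW

open Submodule Module

universe u

theorem kSline (h1 : KSu.{u}) (h3 : KSpartner.{u}) (h4 : KSone.{u}) (h5 : KSall.{u}) :
    KSline.{u} := by
  intro V _ _ _ E P x hK hx hxP
  obtain ⟨G, H, hA, hxH⟩ := h5 V E P x hK hx hxP
  obtain ⟨T, T', u, hp⟩ := h1 V E P G H x hK hA hx hxH
  have hxu : x + u ∈ E := h3 V E P G H T T' x u hK hA hx hxH hp
  refine ⟨u, hp.uE, ?_, hxu, ?_, ?_⟩
  · intro h
    exact hp.uH (hA.2.2 h)
  · intro h
    apply hp.uT
    have h6 : x + (x + u) ∈ T' := T'.add_mem hp.gT' (hp.aw.2.2 h)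
    rwa [← add_assoc, ZModModule.add_self, zero_add] at h6
  · intro z hz hxz
    exact h4 V E P G H x u z hK hA hx hxH hp.uE hxu hz hxz

end Pool.Agent.WW

end

section

/-!
S5: only one full line through an element of an away cocircuit.
-/

namespace Pool.Agent.WW

open Submodule Module

universe u

theorem sone_hyp {V : Type*} [AddCommGroup V] [Module (ZMod 2) V]
    [FiniteDimensional (ZMod 2) V] {H : Submodule (ZMod 2) V}
    (hH : finrank (ZMod 2) H + 1 = finrank (ZMod 2) V) {x y : V} (hx : x ∉ H) (hy : y ∉ H) :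
    x + y ∈ H := by
  have hq : finrank (ZMod 2) (V ⧸ H) = 1 := by
    have := Submodule.finrank_quotient_add_finrank H
    omega
  have hx' : (Submodule.Quotient.mk x : V ⧸ H) ≠ 0 := fun h =>
    hx ((Submodule.Quotient.mk_eq_zero H).1 h)
  obtain ⟨c, hc⟩ := exists_smul_eq_of_finrank_eq_one hq hx' (Submodule.Quotient.mk y : V ⧸ H)
  have hc1 : c = 1 := by
    have hc0 : c ≠ 0 := by
      rintro rfl
      rw [zero_smul] at hc
      exact hy ((Submodule.Quotient.mk_eq_zero H).1 hc.symm)
    have hz : ∀ c : ZMod 2, c ≠ 0 → c = 1 := by decide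
    exact hz c hc0
  rw [hc1, one_smul] at hc
  rw [← Submodule.Quotient.mk_eq_zero H, Submodule.Quotient.mk_add, ← hc]
  exact ZModModule.add_self _

/-- the sum of two elements of the cocircuit which is in `E` does not involve the element
outside `T'` -/
theorem sone_aux {V : Type u} [AddCommGroup V] [Module (ZMod 2) V]
    [FiniteDimensional (ZMod 2) V] {E : Set V} {P G H T T' : Submodule (ZMod 2) V}
    {p q u : V} (h0 : (0 : V) ∉ E) (hH : finrank (ZMod 2) H + 1 = finrank (ZMod 2) V)
    (hK : KPart E P G H T T' p u) (hp : p ∉ H) (hq : q ∉ H) (hqE : q ∈ E)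
    (hqG : q ∈ G) (huG : u ∈ G) (hpq : p ≠ q) (hqu : q ≠ u) (hs : q + u ∈ E) :
    False := by
  have hqT' : q ∈ T' := by
    by_contra h
    exact hqu (hK.only q hqE hq h)
  have hsG : q + u ∈ G := G.add_mem hqG huG
  have hsH : q + u ∈ H := sone_hyp hH hq hK.uH
  rcases hK.aw.1.2.2 _ hs with h | h
  · have h1 : q + u ∈ G ⊓ T := ⟨hsG, h⟩
    rw [hK.inf, mem_span_pair] at h1
    obtain ⟨a, b, hab⟩ := h1
    have hz : ∀ c : ZMod 2, c = 0 ∨ c = 1 := by decide
    rcases hz a with rfl | rfl <;> rcases hz b with rfl | rfl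
    · apply h0
      rw [zero_smul, zero_smul, add_zero] at hab
      rwa [hab]
    · rw [zero_smul, zero_add, one_smul] at hab
      apply h0
      have : q = 0 := by
        have := congrArg (fun t => t + u) hab
        simp only [ZModModule.add_self, add_assoc, add_zero] at this
        exact this.symm
      rwa [← this]
    · rw [zero_smul, add_zero, one_smul] at hab
      rw [hab] at hp
      exact hp hsH
    · rw [one_smul, one_smul] at hab
      exact hpq (add_right_cancel hab)
  · exact hK.uT ((T'.add_mem_iff_right hqT').1 h)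

theorem sone_main {V : Type u} [AddCommGroup V] [Module (ZMod 2) V]
    [FiniteDimensional (ZMod 2) V] (h1 : KSu.{u}) (h2 : KSfour.{u}) {E : Set V}
    {P G H : Submodule (ZMod 2) V} {g y z : V} (hA : KAll E P) (hG : Away E P G H)
    (hgE : g ∈ E) (hg : g ∉ H) (hyE : y ∈ E) (hy : y ∉ H) (hgy : g + y ∈ E) (hzE : z ∈ E)
    (hz : z ∉ H) (hgz : g + z ∈ E) : y = z := by
  obtain ⟨a, hind, hmem, hGa, hH⟩ := h2 V E P G H hA hG
  have h0 : (0 : V) ∉ E := hA.good.zero
  have hinj := hind.injective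
  obtain ⟨i0, hi0⟩ := (hmem g).1 ⟨hgE, hg⟩
  obtain ⟨i1, hi1⟩ := (hmem y).1 ⟨hyE, hy⟩
  obtain ⟨i2, hi2⟩ := (hmem z).1 ⟨hzE, hz⟩
  by_contra hyz
  have h01 : i0 ≠ i1 := by
    rintro rfl
    apply h0
    rw [hi0, hi1, ZModModule.add_self] at hgy
    exact hgy
  have h02 : i0 ≠ i2 := by
    rintro rfl
    apply h0
    rw [hi0, hi2, ZModModule.add_self] at hgz
    exact hgz
  have h12 : i1 ≠ i2 := by
    rintro rfl
    exact hyz (hi1.trans hi2.symm)
  have hex : ∀ i0 i1 i2 : Fin 4, ∃ i3, i3 ≠ i0 ∧ i3 ≠ i1 ∧ i3 ≠ i2 := by decide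
  obtain ⟨i3, h30, h31, h32⟩ := hex i0 i1 i2
  have hGm : ∀ i, a i ∈ G := fun i => by
    rw [hGa]
    exact subset_span ⟨i, rfl⟩
  obtain ⟨hwE, hwH⟩ := (hmem (a i3)).2 ⟨i3, rfl⟩
  obtain ⟨T, T', u, hK⟩ := h1 V E P G H (a i3) hA hG hwE hwH
  obtain ⟨j, hj⟩ := (hmem u).1 ⟨hK.uE, hK.uH⟩
  have hj3 : j ≠ i3 := by
    rintro rfl
    exact hK.uT (hj ▸ hK.gT')
  have hfin : ∀ i0 i1 i2 i3 j : Fin 4, i0 ≠ i1 → i0 ≠ i2 → i1 ≠ i2 → i3 ≠ i0 → i3 ≠ i1 →
      i3 ≠ i2 → j ≠ i3 → j = i0 ∨ j = i1 ∨ j = i2 := by decide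
  have hne : ∀ i, i ≠ j → a i ≠ u := fun i hi h => hi (hinj (h.trans hj))
  have hgen : ∀ i, i ≠ j → i ≠ i3 → a i + a j ∈ E → False := by
    intro i hij hi3 hs
    obtain ⟨hiE, hiH⟩ := (hmem (a i)).2 ⟨i, rfl⟩
    refine sone_aux h0 hH hK hwH hiH hiE (hGm i) (hj ▸ hGm j) ?_ (hne _ hij)
      (by rwa [hj])
    intro h
    exact hi3 (hinj h.symm)
  rcases hfin i0 i1 i2 i3 j h01 h02 h12 h30 h31 h32 hj3 with rfl | rfl | rfl
  · refine hgen i1 h01.symm h31.symm ?_
    rw [← hi0, ← hi1, add_comm]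
    exact hgy
  · refine hgen i0 h01 h30.symm ?_
    rw [← hi0, ← hi1]
    exact hgy
  · refine hgen i0 h02 h30.symm ?_
    rw [← hi0, ← hi2]
    exact hgz

theorem kSone (h1 : KSu.{u}) (h2 : KSfour.{u}) : KSone.{u} := by
  intro V _ _ _ E P G H g y z hA hG hgE hg hyE hgy hzE hgz
  have key : ∀ y ∈ E, g + y ∈ E → ∃ y' ∈ E, y' ∉ H ∧ g + y' ∈ E ∧ (y' = y ∨ y' = g + y) := by
    intro y hyE hgy
    by_cases hy : y ∈ H
    · refine ⟨g + y, hgy, fun h => hg ((H.add_mem_iff_left hy).1 h), ?_, Or.inr rfl⟩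
      rw [← add_assoc, ZModModule.add_self, zero_add]
      exact hyE
    · exact ⟨y, hyE, hy, hgy, Or.inl rfl⟩
  obtain ⟨y', hy'E, hy'H, hgy', hy⟩ := key y hyE hgy
  obtain ⟨z', hz'E, hz'H, hgz', hz⟩ := key z hzE hgz
  have hyz := sone_main h1 h2 hA hG hgE hg hy'E hy'H hgy' hz'E hz'H hgz'
  subst hyz
  rcases hy with hy | hy <;> rcases hz with hz | hz
  · exact Or.inl (hz.symm.trans hy)
  · right
    rw [← hy, hz, ← add_assoc, ZModModule.add_self, zero_add]
  · exact Or.inr (hz.symm.trans hy)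
  · exact Or.inl (add_left_cancel (hz.symm.trans hy))

end Pool.Agent.WW

end

section

/-!
S4: the partner of an element of an away cocircuit.
-/

namespace Pool.Agent.WW

open Submodule Module

universe u

theorem kSpartner (h1 : KSguts.{u}) : KSpartner.{u} := by
  intro V _ _ _ E P G H T T' g u hK hA hgE hgH hP
  obtain ⟨a, haE, b, hbE, haT, hbT, hab, hg⟩ := h1 V E P T T' g hK hP.aw hgE hP.gT hP.gT'
  have key : ∀ a b : V, a ∈ E → b ∈ E → a ∉ T' → a ∉ H → g = a + b → g + u ∈ E := by
    intro a b haE hbE haT haH hg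
    have hau : a = u := hP.only a haE haH haT
    have h2 : a + a = 0 := by
      rw [← two_smul (ZMod 2) a, show (2 : ZMod 2) = 0 from rfl, zero_smul]
    have hb : g + u = b := by
      rw [hg, ← hau, add_comm a b, add_assoc, h2, add_zero]
    rw [hb]; exact hbE
  by_cases haH : a ∈ H
  · by_cases hbH : b ∈ H
    · exact absurd (by rw [hg]; exact H.add_mem haH hbH) hgH
    · exact key b a hbE haE hbT hbH (by rw [hg, add_comm])
  · exact key a b haE hbE haT haH hg

end Pool.Agent.WW

end

section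

/-!
Item K S1: the separation of an element of an away cocircuit.
-/

namespace Pool.Agent.WW

open Submodule Module

universe u

private lemma kSu_self {V : Type*} [AddCommGroup V] [Module (ZMod 2) V] (v : V) : v + v = 0 := by
  have h : (2 : ZMod 2) = 0 := rfl
  rw [← two_smul (ZMod 2) v, h, zero_smul]

private lemma kSu_bit (c : ZMod 2) : c = 0 ∨ c = 1 := by
  revert c; decide

/-- a subspace which is not contained in a hyperplane spans everything together with it -/
private lemma kSu_top {V : Type*} [AddCommGroup V] [Module (ZMod 2) V]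
    [FiniteDimensional (ZMod 2) V] {H T : Submodule (ZMod 2) V}
    (hH : finrank (ZMod 2) H + 1 = finrank (ZMod 2) V) {x : V} (hx : x ∈ T) (hxH : x ∉ H) :
    H ⊔ T = ⊤ := by
  have h1 : H < H ⊔ T := by
    refine lt_of_le_of_ne le_sup_left fun h => hxH ?_
    rw [h]
    exact (le_sup_right : T ≤ H ⊔ T) hx
  have h2 := Submodule.finrank_lt_finrank_of_lt h1
  refine Submodule.eq_top_of_finrank_eq (le_antisymm (Submodule.finrank_le _) ?_)
  omega

/-- the sum of two vectors outside a hyperplane lies in the hyperplane -/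
private lemma kSu_hyp {V : Type*} [AddCommGroup V] [Module (ZMod 2) V]
    [FiniteDimensional (ZMod 2) V] {H : Submodule (ZMod 2) V}
    (hH : finrank (ZMod 2) H + 1 = finrank (ZMod 2) V) {x y : V} (hx : x ∉ H) (hy : y ∉ H) :
    x + y ∈ H := by
  have h1 : H ⊔ span (ZMod 2) {x} = ⊤ := kSu_top hH (mem_span_singleton_self x) hx
  have h2 : y ∈ H ⊔ span (ZMod 2) {x} := by rw [h1]; exact mem_top
  obtain ⟨a, ha, b, hb, hab⟩ := mem_sup.1 h2
  obtain ⟨c, rfl⟩ := mem_span_singleton.1 hb
  have hc := kSu_bit c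
  rcases hc with rfl | rfl
  · exact absurd (by rw [← hab, zero_smul, add_zero]; exact ha) hy
  · have e : x + y = a := by
      rw [← hab, one_smul]
      calc x + (a + x) = a + (x + x) := by abel
        _ = a := by rw [kSu_self, add_zero]
    rw [e]
    exact ha

theorem kSu (h0 : ClaimCovDim.{u}) (h1 : KUnsp.{u}) (h2 : KCrossB.{u}) : KSu.{u} := by
  intro V _ _ _ E P G H g hK hA hgE hgH
  have hz := hK.good.zero
  obtain ⟨-, hspan, hsep, -⟩ := (good_iff_sepGe E).1 hK.good
  have hr := hK.r7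
  have hG4 := hK.four G H hA
  obtain ⟨hGH, hGHd, -, -⟩ := h0 V E G H hspan hA.1
  have hHd : finrank (ZMod 2) H + 1 = finrank (ZMod 2) V := by
    have := hA.2.1
    omega
  have hgP : g ∉ P := fun h => hgH (hA.2.2 h)
  -- the separation through g
  have hex : ∃ T T' : Submodule (ZMod 2) V, Away E P T T' ∧ g ∈ T ∧ g ∈ T' := by
    have hnc := hK.nc g hgE hgP
    unfold Ctr at hnc
    push Not at hnc
    obtain ⟨A, B, hAB, hgAB, hlt⟩ := hnc
    have h3 := hsep A B hAB.1 hAB.2.1 hAB.2.2
    have h4 : finrank (ZMod 2) ↥(A ⊓ B) = 3 := by omega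
    rcases h1 V E P hz hK.pl A B (fun x hx _ => hAB.2.2 x hx) with h | h
    · refine ⟨B, A, ⟨⟨hAB.2.1, hAB.1, fun x hx => (hAB.2.2 x hx).symm⟩, ?_, h⟩, hgAB.2, hgAB.1⟩
      rw [inf_comm]
      exact h4
    · exact ⟨A, B, ⟨hAB, h4, h⟩, hgAB.1, hgAB.2⟩
  obtain ⟨T, T', hT, hgT, hgT'⟩ := hex
  have hT4 := hK.four T T' hT
  obtain ⟨-, hTd, -, -⟩ := h0 V E T T' hspan hT.1
  have hT'd : finrank (ZMod 2) T' + 1 = finrank (ZMod 2) V := by
    have := hT.2.1
    omega
  have htop : H ⊔ T' = ⊤ := kSu_top hHd hgT' hgH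
  obtain ⟨c1, c2, ⟨u, huE, huH, huT⟩, -, c3, -⟩ :=
    h2 V E P G H T T' g hK.good hK.pl hA hT hgE hgH hgT hgT' htop
  have hc1 : finrank (ZMod 2) ↥(G ⊓ T) ≤ 2 := by
    by_contra hcon
    have h3 : finrank (ZMod 2) ↥(G ⊓ T) = 3 := by omega
    have h5 := Submodule.finrank_sup_add_finrank_inf_eq G T
    rcases c3 h3 with h | h
    · rw [h, finrank_top] at h5
      omega
    · have := hK.four _ _ h
      omega
  have huG : u ∈ G := (hA.1.2.2 u huE).resolve_right huH
  have huTT : u ∈ T := (hT.1.2.2 u huE).resolve_right huT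
  have hgG : g ∈ G := (hA.1.2.2 g hgE).resolve_right hgH
  have hgu : g ≠ u := fun h => huT (h ▸ hgT')
  have hg0 : g ≠ 0 := fun h => hz (h ▸ hgE)
  have hu0 : u ≠ 0 := fun h => hz (h ▸ huE)
  have hli : LinearIndependent (ZMod 2) ![g, u] := by
    rw [LinearIndependent.pair_iff]
    intro c d hcd
    have hc := kSu_bit c
    have hd := kSu_bit d
    rcases hc with rfl | rfl <;> rcases hd with rfl | rfl
    · exact ⟨rfl, rfl⟩
    · exact absurd (by simpa using hcd) hu0
    · exact absurd (by simpa using hcd) hg0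
    · exfalso
      apply hgu
      rw [one_smul, one_smul] at hcd
      calc g = g + (u + u) := by rw [kSu_self, add_zero]
        _ = (g + u) + u := by abel
        _ = u := by rw [hcd, zero_add]
  have hsp : finrank (ZMod 2) ↥(span (ZMod 2) ({g, u} : Set V)) = 2 := by
    have h := finrank_span_eq_card hli
    have e : Set.range ![g, u] = ({g, u} : Set V) := by
      ext x
      simp only [Set.mem_range, Fin.exists_fin_two, Matrix.cons_val_zero, Matrix.cons_val_one,
        Set.mem_insert_iff, Set.mem_singleton_iff]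
      exact ⟨fun h => h.imp Eq.symm Eq.symm, fun h => h.imp Eq.symm Eq.symm⟩
    rw [e] at h
    exact h.trans (Fintype.card_fin 2)
  have hle : span (ZMod 2) ({g, u} : Set V) ≤ G ⊓ T := by
    refine span_le.2 ?_
    rintro x (rfl | rfl)
    · exact ⟨hgG, hgT⟩
    · exact ⟨huG, huTT⟩
  have hinf : G ⊓ T = span (ZMod 2) {g, u} :=
    (Submodule.eq_of_le_of_finrank_le hle (by rw [hsp]; exact hc1)).symm
  refine ⟨T, T', u, ⟨hT, hgT, hgT', huE, huH, huT, ?_, hinf, ?_⟩⟩
  · intro a haE haH haT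
    have haG : a ∈ G := (hA.1.2.2 a haE).resolve_right haH
    have haTT : a ∈ T := (hT.1.2.2 a haE).resolve_right haT
    have h3 : a ∈ span (ZMod 2) ({g, u} : Set V) := by
      rw [← hinf]
      exact ⟨haG, haTT⟩
    obtain ⟨c, d, hcd⟩ := mem_span_pair.1 h3
    have hc := kSu_bit c
    have hd := kSu_bit d
    rcases hc with rfl | rfl <;> rcases hd with rfl | rfl
    · exact absurd (by simpa using hcd.symm) (fun h : a = 0 => hz (h ▸ haE))
    · simpa using hcd.symm
    · have h4 : a = g := by simpa using hcd.symm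
      exact absurd hgT' (h4 ▸ haT)
    · have h4 : a = g + u := by simpa using hcd.symm
      exact absurd (h4 ▸ kSu_hyp hHd hgH huH) haH
  · have h3 := Submodule.finrank_sup_add_finrank_inf_eq G T'
    have h4 : G ⊔ T' = ⊤ := by
      rw [sup_comm]
      exact kSu_top hT'd huG huT
    rw [h4, finrank_top] at h3
    omega

end Pool.Agent.WW

end

section

/-!
Item K W4: the compression of an away side is good.
-/

namespace Pool.Agent.WW

open Submodule Module

universe u

theorem kW (h1 : KPlaneLink.{u}) (h2 : KWSep.{u}) : KW.{u} := by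
  intro V _ _ _ E P G H hE hP hA
  obtain ⟨K, q, hK, hKG, hq, hq0, hpr⟩ := h1 V E P G H hE hP hA
  obtain ⟨hs, hsep⟩ := h2 V E P G H q hE hA hq hq0
  refine ⟨q, hq, hq0, (good_iff_sepGe _).2 ⟨?_, hs, hsep, ?_⟩⟩
  · rintro (h | ⟨-, h, -⟩)
    · exact hE.zero h
    · exact h rfl
  · intro hf
    refine hE.free (HasK5.of_map G.subtype _ E K hK ?_ ?_ hf)
    · intro w hw
      have h3 : (w : V) ∈ K ⊓ G := ⟨hw, w.2⟩
      rw [hKG, mem_bot] at h3
      exact Subtype.ext h3
    · rintro w (hw | ⟨hw, hw0, hwq⟩)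
      · refine ⟨(w : V), hw, ?_⟩
        have h4 : (w : V) + G.subtype w = 0 := by
          have h : (2 : ZMod 2) = 0 := rfl
          show (w : V) + (w : V) = 0
          rw [← two_smul (ZMod 2) (w : V), h, zero_smul]
        rw [h4]
        exact zero_mem K
      · exact hpr w hw hw0 hwq

end Pool.Agent.WW

end

section

/-!
W3: the compression of an away side is vertically 4-connected.
-/

namespace Pool.Agent.WW

open Submodule Module

universe u

section WSepAux

variable {V : Type*} [AddCommGroup V] [Module (ZMod 2) V] [FiniteDimensional (ZMod 2) V]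

private theorem wsep_ncard (A : Submodule (ZMod 2) V) :
    (A : Set V).ncard = 2 ^ finrank (ZMod 2) A := by
  have h := Module.natCard_eq_pow_finrank (K := ZMod 2) (V := A)
  rw [Nat.card_zmod] at h
  rw [← h, ← Nat.card_coe_set_eq]
  rfl

omit [FiniteDimensional (ZMod 2) V] in
private theorem wsep_finrank_map (G : Submodule (ZMod 2) V) (A : Submodule (ZMod 2) G) :
    finrank (ZMod 2) ↥(A.map G.subtype) = finrank (ZMod 2) A :=
  (LinearEquiv.finrank_eq (Submodule.equivMapOfInjective G.subtype G.injective_subtype A)).symm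

omit [FiniteDimensional (ZMod 2) V] in
private theorem wsep_map_le (G : Submodule (ZMod 2) V) (A : Submodule (ZMod 2) G) :
    A.map G.subtype ≤ G := Submodule.map_subtype_le G A

/-- one side contains the plane `G ⊓ H` -/
private theorem wsep_aux (E : Set V) (G H : Submodule (ZMod 2) V) (hsep : SepGe E 3)
    (hc : Cov E G H) (h3 : finrank (ZMod 2) ↥(G ⊓ H) = 3)
    (hd : finrank (ZMod 2) ↥(G ⊓ H) + finrank (ZMod 2) V =
      finrank (ZMod 2) G + finrank (ZMod 2) H)
    (W : Set G) (hW : ∀ x : G, (x : V) ∈ E → x ∈ W) (A B : Submodule (ZMod 2) G)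
    (hA : A ≠ ⊤) (hcov : ∀ x ∈ W, x ∈ A ∨ x ∈ B)
    (hle : H.comap G.subtype ≤ A) : 3 ≤ finrank (ZMod 2) ↥(A ⊓ B) := by
  have hA1 := wsep_map_le G A
  have hB1 := wsep_map_le G B
  have hGH : G ⊓ H ≤ A.map G.subtype := by
    rintro x ⟨hxG, hxH⟩
    exact ⟨⟨x, hxG⟩, hle (show (⟨x, hxG⟩ : G) ∈ H.comap G.subtype from hxH), rfl⟩
  have hinf : A.map G.subtype ⊓ H = G ⊓ H :=
    le_antisymm (inf_le_inf_right H hA1) (le_inf hGH inf_le_right)
  have hcovE : ∀ x ∈ E, x ∈ A.map G.subtype ⊔ H ∨ x ∈ B.map G.subtype := by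
    intro x hx
    rcases hc.2.2 x hx with hxG | hxH
    · rcases hcov ⟨x, hxG⟩ (hW ⟨x, hxG⟩ hx) with h | h
      · exact Or.inl (mem_sup_left ⟨⟨x, hxG⟩, h, rfl⟩)
      · exact Or.inr ⟨⟨x, hxG⟩, h, rfl⟩
    · exact Or.inl (mem_sup_right hxH)
  have hBtop : B.map G.subtype ≠ ⊤ := by
    intro h
    exact hc.1 (eq_top_iff.2 (h ▸ hB1))
  have hAtop : A.map G.subtype ⊔ H ≠ ⊤ := by
    intro h
    have h4 := Submodule.finrank_sup_add_finrank_inf_eq (A.map G.subtype) H
    rw [h, finrank_top, hinf, wsep_finrank_map] at h4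
    have h5 : finrank (ZMod 2) A < finrank (ZMod 2) G := Submodule.finrank_lt hA
    omega
  have h6 := hsep _ _ hAtop hBtop hcovE
  have h7 : (A.map G.subtype ⊔ H) ⊓ B.map G.subtype ≤ (A ⊓ B).map G.subtype := by
    rw [Submodule.map_inf _ G.injective_subtype]
    refine le_inf ?_ inf_le_right
    have h8 : (A.map G.subtype ⊔ H) ⊓ G = A.map G.subtype := by
      rw [sup_inf_assoc_of_le H hA1]
      rw [inf_comm H G]
      exact sup_eq_left.2 hGH
    calc (A.map G.subtype ⊔ H) ⊓ B.map G.subtype ≤ (A.map G.subtype ⊔ H) ⊓ G :=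
          inf_le_inf_left _ hB1
      _ ≤ A.map G.subtype := h8.le
  have h9 := Submodule.finrank_mono h7
  rw [wsep_finrank_map] at h9
  omega

end WSepAux

theorem kWSep (h0 : ClaimCovDim.{u}) (h1 : KUnsp.{u}) : KWSep.{u} := by
  intro V _ _ _ E P G H q hE hAw hq hq0
  obtain ⟨hz, hs, hsep, -⟩ := (good_iff_sepGe E).1 hE
  obtain ⟨hc, h3, -⟩ := hAw
  obtain ⟨-, hd, hle, heq⟩ := h0 V E G H hs hc
  have hG := heq hsep h3
  set W : Set G := (fun x : G => (x : V)) ⁻¹' (E ∪ {x | x ∈ G ⊓ H ∧ x ≠ 0 ∧ x ≠ q}) with hWdef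
  have hWE : ∀ x : G, (x : V) ∈ E → x ∈ W := fun x hx => Or.inl hx
  have hW0 : (0 : G) ∉ W := by
    rintro (h | h)
    · exact hz h
    · exact h.2.1 rfl
  constructor
  · -- the span
    rw [eq_top_iff]
    rintro x -
    have hx : (x : V) ∈ span (ZMod 2) (E \ (H : Set V)) := by
      rw [hG]
      exact x.2
    have hsub : E \ (H : Set V) ⊆ G.subtype '' W := by
      rintro y ⟨hy, hyH⟩
      have hyG : y ∈ G := (hc.2.2 y hy).resolve_right hyH
      exact ⟨⟨y, hyG⟩, hWE ⟨y, hyG⟩ hy, rfl⟩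
    have hx2 := span_mono hsub hx
    rw [← Submodule.map_span] at hx2
    obtain ⟨y, hy, hyx⟩ := hx2
    have : y = x := Subtype.ext hyx
    rw [← this]
    exact hy
  · -- the separations
    have hfin : Finite V := Module.finite_of_finite (ZMod 2)
    have hfinG : Finite G := Subtype.finite
    set Γ : Submodule (ZMod 2) G := H.comap G.subtype with hΓ
    have hmapΓ : Γ.map G.subtype = G ⊓ H := by
      rw [hΓ, Submodule.map_comap_subtype]
    have hΓ3 : finrank (ZMod 2) Γ = 3 := by
      rw [← wsep_finrank_map, hmapΓ, h3]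
    have hK : K4P W Γ := by
      refine ⟨hΓ3, ?_⟩
      have hsub : (Γ : Set G) ⊆ (W ∩ (Γ : Set G)) ∪ {0, ⟨q, hq.1⟩} := by
        intro x hx
        by_cases hx0 : x = 0
        · right; left; exact hx0
        · by_cases hxq : x = ⟨q, hq.1⟩
          · right; right; exact hxq
          · left
            refine ⟨Or.inr ⟨⟨x.2, hx⟩, ?_, ?_⟩, hx⟩
            · intro h
              exact hx0 (Subtype.ext h)
            · intro h
              exact hxq (Subtype.ext h)
      have h4 := Set.ncard_le_ncard hsub (Set.toFinite _)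
      rw [wsep_ncard, hΓ3] at h4
      have h5 := Set.ncard_union_le (W ∩ (Γ : Set G)) {0, ⟨q, hq.1⟩}
      have h6 : ({0, ⟨q, hq.1⟩} : Set G).ncard ≤ 2 := Set.ncard_insert_le _ _ |>.trans (by
        rw [Set.ncard_singleton])
      omega
    have hU := h1 G W Γ hW0 hK
    intro A B hA hB hcov
    rcases hU A B (fun x hx _ => hcov x hx) with h | h
    · exact wsep_aux E G H hsep hc h3 hd W hWE A B hA hcov h
    · have h7 := wsep_aux E G H hsep hc h3 hd W hWE B A hB (fun x hx => (hcov x hx).symm) h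
      rw [inf_comm] at h7
      exact h7

end Pool.Agent.WW

end
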