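import Pool.Agent.Work.MP_a8f287_co.Bd.T33

/-! Kernel checks, compiled separately. -/

section

/-!
The types of a cocircuit of rank four: kernel checks.
-/

namespace Pool.Agent.WW

theorem ty_all : ∀ A ∈ tyAs, ∀ k < 128, tyChk A (2 * k) = true := by
  intro A hA k hk
  have hA' : A = 23 ∨ A = 31 ∨ A = 55 ∨ A = 63 ∨ A = 87 ∨ A = 95 ∨ A = 119 ∨ A = 127 ∨
      A = 151 ∨ A = 159 ∨ A = 183 ∨ A = 191 ∨ A = 215 ∨ A = 223 ∨ A = 247 ∨ A = 255 := by
    have h0 : tyAs = [23, 31, 55, 63, 87, 95, 119, 127, 151, 159, 183, 191, 215, 223, 247, 255] := by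
      decide +kernel
    rw [h0] at hA
    simpa using hA
  have hm : k ∈ List.range 128 := List.mem_range.2 hk
  rcases hA' with rfl | rfl | rfl | rfl | rfl | rfl | rfl | rfl | rfl | rfl | rfl | rfl | rfl |
    rfl | rfl | rfl
  · exact List.all_eq_true.1 ty_23 k hm
  · exact List.all_eq_true.1 ty_31 k hm
  · exact List.all_eq_true.1 ty_55 k hm
  · exact List.all_eq_true.1 ty_63 k hm
  · exact List.all_eq_true.1 ty_87 k hm
  · exact List.all_eq_true.1 ty_95 k hm
  · exact List.all_eq_true.1 ty_119 k hm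
  · exact List.all_eq_true.1 ty_127 k hm
  · exact List.all_eq_true.1 ty_151 k hm
  · exact List.all_eq_true.1 ty_159 k hm
  · exact List.all_eq_true.1 ty_183 k hm
  · exact List.all_eq_true.1 ty_191 k hm
  · exact List.all_eq_true.1 ty_215 k hm
  · exact List.all_eq_true.1 ty_223 k hm
  · exact List.all_eq_true.1 ty_247 k hm
  · exact List.all_eq_true.1 ty_255 k hm

end Pool.Agent.WW

end
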