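import Pool.Agent.Work.MP_a8f287_co.Bd.B06
import Pool.Agent.Work.MP_a8f287_co.Bd.B05
import Pool.Agent.Work.MP_a8f287_co.Bd.B04
import Pool.Agent.Work.MP_a8f287_co.Bd.B07

/-! Part of the former bundles, compiled separately. -/

section

/-!
B13: the cocircuit of rank four at a triad.
-/

namespace Pool.Agent.WW

open Submodule Module

universe u

namespace TriadType

variable {V W : Type u} [AddCommGroup V] [Module (ZMod 2) V] [AddCommGroup W]
  [Module (ZMod 2) W]

lemma add_self (x : V) : x + x = 0 := ZModModule.add_self x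

lemma pi_eq {π : V →ₗ[ZMod 2] W} {e : V} (hker : ∀ v, π v = 0 ↔ v = 0 ∨ v = e) {a b : V}
    (h : π a = π b) : a = b ∨ a = b + e := by
  have h1 : π (a + b) = 0 := by
    rw [map_add, h]
    exact add_self (V := W) (π b)
  have h3 : a + b + b = a := by rw [add_assoc, add_self, add_zero]
  rcases (hker _).1 h1 with h2 | h2
  · left
    rw [h2, zero_add] at h3
    exact h3.symm
  · right
    rw [h2, add_comm] at h3
    exact h3.symm

/-- the final bookkeeping -/
lemma fin_one {E : Finset V} {e : V}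
    {H : Submodule (ZMod 2) V} {v1 v2 v3 : V}
    (hall : ∀ v, v ∈ E ∧ v ∉ H ↔ v = v1 ∨ v = v2 ∨ v = v3 ∨ (v1 + e ∈ E ∧ v = v1 + e) ∨
      (v2 + e ∈ E ∧ v = v2 + e) ∨ (v3 + e ∈ E ∧ v = v3 + e))
    (h1 : v1 + e ∈ E) (h2 : v2 + e ∉ E) (h3 : v3 + e ∉ E) :
    ∀ v, v ∈ E ∧ v ∉ H ↔ v = v1 ∨ v = v1 + e ∨ v = v2 ∨ v = v3 := by
  intro v
  rw [hall]
  simp only [h1, h2, h3, true_and, false_and, or_false]
  constructor
  · rintro (h | h | h | h)
    exacts [Or.inl h, Or.inr (Or.inr (Or.inl h)), Or.inr (Or.inr (Or.inr h)), Or.inr (Or.inl h)]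
  · rintro (h | h | h | h)
    exacts [Or.inl h, Or.inr (Or.inr (Or.inr h)), Or.inr (Or.inl h), Or.inr (Or.inr (Or.inl h))]

lemma fin_two {E : Finset V} {e : V}
    {H : Submodule (ZMod 2) V} {v1 v2 v3 : V}
    (hall : ∀ v, v ∈ E ∧ v ∉ H ↔ v = v1 ∨ v = v2 ∨ v = v3 ∨ (v1 + e ∈ E ∧ v = v1 + e) ∨
      (v2 + e ∈ E ∧ v = v2 + e) ∨ (v3 + e ∈ E ∧ v = v3 + e))
    (h1 : v1 + e ∈ E) (h2 : v2 + e ∈ E) (h3 : v3 + e ∉ E) :
    ∀ v, v ∈ E ∧ v ∉ H ↔ v = v1 ∨ v = v1 + e ∨ v = v2 ∨ v = v2 + e ∨ v = v3 := by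
  intro v
  rw [hall]
  simp only [h1, h2, h3, true_and, false_and, or_false]
  constructor
  · rintro (h | h | h | h | h)
    exacts [Or.inl h, Or.inr (Or.inr (Or.inl h)), Or.inr (Or.inr (Or.inr (Or.inr h))),
      Or.inr (Or.inl h), Or.inr (Or.inr (Or.inr (Or.inl h)))]
  · rintro (h | h | h | h | h)
    exacts [Or.inl h, Or.inr (Or.inr (Or.inr (Or.inl h))), Or.inr (Or.inl h),
      Or.inr (Or.inr (Or.inr (Or.inr h))), Or.inr (Or.inr (Or.inl h))]

/-- two doubled elements give degree at least four -/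
lemma deg_two [DecidableEq V] {E : Finset V} {π : V →ₗ[ZMod 2] W} {e : V} (he0 : e ≠ 0)
    (hker : ∀ v, π v = 0 ↔ v = 0 ∨ v = e) {v1 v2 : V} (hv1 : v1 ∈ E) (hv2 : v2 ∈ E)
    (hne : π v1 ≠ π v2) (h1 : v1 + e ∈ E) (h2 : v2 + e ∈ E) : 4 ≤ deg E e := by
  have hpe : π e = 0 := (hker e).2 (Or.inr rfl)
  have hcard : ({v1, v1 + e, v2, v2 + e} : Finset V).card = 4 := by
    rw [Finset.card_insert_of_notMem, Finset.card_insert_of_notMem, Finset.card_insert_of_notMem,
      Finset.card_singleton]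
    · rw [Finset.mem_singleton]
      intro h
      exact he0 (by simpa using h.symm)
    · simp only [Finset.mem_insert, Finset.mem_singleton, not_or]
      refine ⟨fun h => hne ?_, fun h => hne ?_⟩
      · rw [← h, map_add, hpe, add_zero]
      · have := congrArg π h
        rwa [map_add, map_add, hpe, add_zero, add_zero] at this
    · simp only [Finset.mem_insert, Finset.mem_singleton, not_or]
      refine ⟨fun h => he0 (by simpa using h.symm), fun h => hne (by rw [h]), fun h => hne ?_⟩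
      rw [h, map_add, hpe, add_zero]
  rw [← hcard]
  unfold deg
  apply Finset.card_le_card
  intro v hv
  simp only [Finset.mem_insert, Finset.mem_singleton] at hv
  rw [Finset.mem_filter]
  rcases hv with rfl | rfl | rfl | rfl
  · exact ⟨hv1, h1⟩
  · refine ⟨h1, ?_⟩
    rw [add_assoc, add_self, add_zero]
    exact hv1
  · exact ⟨hv2, h2⟩
  · refine ⟨h2, ?_⟩
    rw [add_assoc, add_self, add_zero]
    exact hv2

/-- three doubled elements give degree at least six -/
lemma deg_three [DecidableEq V] {E : Finset V} {π : V →ₗ[ZMod 2] W} {e : V} (he0 : e ≠ 0)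
    (hker : ∀ v, π v = 0 ↔ v = 0 ∨ v = e) {v1 v2 v3 : V} (hv1 : v1 ∈ E) (hv2 : v2 ∈ E)
    (hv3 : v3 ∈ E) (h12 : π v1 ≠ π v2) (h13 : π v1 ≠ π v3) (h23 : π v2 ≠ π v3)
    (h1 : v1 + e ∈ E) (h2 : v2 + e ∈ E) (h3 : v3 + e ∈ E) : 5 ≤ deg E e := by
  have hpe : π e = 0 := (hker e).2 (Or.inr rfl)
  have hcard : ({v3, v1, v1 + e, v2, v2 + e} : Finset V).card = 5 := by
    rw [Finset.card_insert_of_notMem, Finset.card_insert_of_notMem, Finset.card_insert_of_notMem,
      Finset.card_insert_of_notMem, Finset.card_singleton]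
    · rw [Finset.mem_singleton]
      intro h
      exact he0 (by simpa using h.symm)
    · simp only [Finset.mem_insert, Finset.mem_singleton, not_or]
      refine ⟨fun h => h12 ?_, fun h => h12 ?_⟩
      · rw [← h, map_add, hpe, add_zero]
      · have := congrArg π h
        rwa [map_add, map_add, hpe, add_zero, add_zero] at this
    · simp only [Finset.mem_insert, Finset.mem_singleton, not_or]
      refine ⟨fun h => he0 (by simpa using h.symm), fun h => h12 (by rw [h]), fun h => h12 ?_⟩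
      rw [h, map_add, hpe, add_zero]
    · simp only [Finset.mem_insert, Finset.mem_singleton, not_or]
      refine ⟨fun h => h13 (by rw [h]), fun h => h13 ?_, fun h => h23 (by rw [h]), fun h => h23 ?_⟩
      · rw [h, map_add, hpe, add_zero]
      · rw [h, map_add, hpe, add_zero]
  rw [← hcard]
  unfold deg
  apply Finset.card_le_card
  intro v hv
  simp only [Finset.mem_insert, Finset.mem_singleton] at hv
  rw [Finset.mem_filter]
  rcases hv with rfl | rfl | rfl | rfl | rfl
  · exact ⟨hv3, h3⟩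
  · exact ⟨hv1, h1⟩
  · refine ⟨h1, ?_⟩
    rw [add_assoc, add_self, add_zero]
    exact hv1
  · exact ⟨hv2, h2⟩
  · refine ⟨h2, ?_⟩
    rw [add_assoc, add_self, add_zero]
    exact hv2

lemma finrank_three_le [FiniteDimensional (ZMod 2) V] (a b c : V) :
    finrank (ZMod 2) ↥(span (ZMod 2) ({a, b, c} : Set V)) ≤ 3 := by
  classical
  have h := finrank_span_finset_le_card (R := ZMod 2) ({a, b, c} : Finset V)
  have h2 : ({a, b, c} : Finset V).card ≤ 3 := Finset.card_le_three
  have e : (({a, b, c} : Finset V) : Set V) = {a, b, c} := by push_cast; rfl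
  unfold Set.finrank at h
  rw [e] at h
  omega

end TriadType

open TriadType in
theorem c3TriadType : C3TriadType.{u} := by
  intro V _ _ _ _ W _ _ _ _ E π e S S' hG h6 hsurj hker he hdeg hT
  obtain ⟨hcov, hgd, hS'3, x, p, q, hxS', hxS, hp, hq, hp0, hq0, hpq, hN⟩ := hT
  have hG' := (good_iff_sepGe (E : Set V)).1 hG
  obtain ⟨h0E, hspan, hsep, -⟩ := hG'
  have he0 : e ≠ 0 := fun h => h0E (h ▸ he)
  have hpe : π e = 0 := (hker e).2 (Or.inr rfl)
  -- the contraction spans
  have hmem : ∀ v ∈ E, π v ≠ 0 → π v ∈ contr π E := by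
    intro v hv h
    unfold contr
    rw [Finset.mem_erase]
    exact ⟨h, Finset.mem_image_of_mem π hv⟩
  have hspN : span (ZMod 2) ((contr π E : Finset W) : Set W) = ⊤ := by
    rw [eq_top_iff]
    have h1 : (⊤ : Submodule (ZMod 2) W) = (span (ZMod 2) (E : Set V)).map π := by
      rw [hspan, Submodule.map_top]
      exact (LinearMap.range_eq_top.2 hsurj).symm
    rw [h1, Submodule.map_span, span_le]
    rintro _ ⟨v, hv, rfl⟩
    by_cases h : π v = 0
    · rw [h]
      exact Submodule.zero_mem _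
    · exact subset_span (hmem v hv h)
  obtain ⟨hsup, hdim⟩ := covdim_aux hspN hcov
  set H := S.comap π with hH
  have hfrH : finrank (ZMod 2) H = finrank (ZMod 2) S + 1 :=
    c4_finrank_comap π e hsurj hker he0 S
  have hfrT : finrank (ZMod 2) ↥(S'.comap π) = finrank (ZMod 2) S' + 1 :=
    c4_finrank_comap π e hsurj hker he0 S'
  have hfrV : finrank (ZMod 2) V = finrank (ZMod 2) W + 1 := by
    have h := c4_finrank_comap π e hsurj hker he0 ⊤
    rw [Submodule.comap_top, finrank_top, finrank_top] at h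
    exact h
  have hHV : finrank (ZMod 2) H + 1 = finrank (ZMod 2) V := by omega
  have hHtop : H ≠ ⊤ := by
    intro h
    rw [h, finrank_top] at hHV
    omega
  -- elements outside H
  have hout : ∀ v ∈ E, v ∉ H → π v = x ∨ π v = x + p ∨ π v = x + q := by
    intro v hv hvH
    have h1 : π v ∉ S := hvH
    have h2 : π v ≠ 0 := fun h => h1 (h ▸ S.zero_mem)
    have h3 := hmem v hv h2
    exact hN _ (by exact_mod_cast h3) ((hcov.2.2 _ (by exact_mod_cast h3)).resolve_left h1)
  have hxpS : x + p ∉ S := fun h => hxS (by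
    have := S.sub_mem h hp.1
    rwa [add_sub_cancel_right] at this)
  have hxqS : x + q ∉ S := fun h => hxS (by
    have := S.sub_mem h hq.1
    rwa [add_sub_cancel_right] at this)
  set T := span (ZMod 2) ((E : Set V) \ (H : Set V)) with hTdef
  have hTle : T ≤ S'.comap π := by
    rw [hTdef, span_le]
    rintro v ⟨hv, hvH⟩
    rw [SetLike.mem_coe, Submodule.mem_comap]
    rcases hout v hv hvH with h | h | h <;> rw [h]
    · exact hxS'
    · exact S'.add_mem hxS' hp.2
    · exact S'.add_mem hxS' hq.2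
  have hTtop : T ≠ ⊤ := by
    intro h
    rw [h, top_le_iff] at hTle
    rw [hTle, finrank_top] at hfrT
    omega
  have hcovT : Cov (E : Set V) T H := by
    refine ⟨hTtop, hHtop, ?_⟩
    intro v hv
    by_cases hvH : v ∈ H
    · exact Or.inr hvH
    · exact Or.inl (subset_span ⟨hv, hvH⟩)
  have h3T := hsep T H hTtop hHtop hcovT.2.2
  obtain ⟨-, hdimT⟩ := covdim_aux hspan hcovT
  have hT4 : finrank (ZMod 2) T = 4 := by
    have := Submodule.finrank_mono hTle
    omega
  have hcoc : Coc4 (E : Set V) H := ⟨hHV, hT4⟩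
  have heH : e ∈ H := by
    rw [hH, Submodule.mem_comap, hpe]
    exact S.zero_mem
  -- the third condition
  have hthird : ∀ v1 v2 v3 : V, v1 ∈ T → v2 ∈ T → v3 ∈ T → ∀ v ∈ E, v ∈ H →
      v ∈ span (ZMod 2) ({v1, e, v2, v3} : Set V) → v = e := by
    intro v1 v2 v3 h1 h2 h3 v hv hvH hvs
    have h4 : π v ∈ S' := by
      have h5 : span (ZMod 2) ({v1, e, v2, v3} : Set V) ≤ S'.comap π := by
        rw [span_le]
        rintro y (rfl | rfl | rfl | rfl)
        · exact hTle h1
        · rw [SetLike.mem_coe, Submodule.mem_comap, hpe]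
          exact S'.zero_mem
        · exact hTle h2
        · exact hTle h3
      exact h5 hvs
    have h5 : π v ∈ S := hvH
    by_cases h6 : π v = 0
    · rcases (hker v).1 h6 with h7 | h7
      · exact absurd (h7 ▸ hv) h0E
      · exact h7
    · exfalso
      rcases hN _ (by exact_mod_cast hmem v hv h6) h4 with h7 | h7 | h7
      · exact hxS (h7 ▸ h5)
      · exact hxpS (h7 ▸ h5)
      · exact hxqS (h7 ▸ h5)
  -- the three fibres are not empty
  have hTfib : ∀ a b : V, ¬ (∀ v ∈ E, v ∉ H → v ∈ span (ZMod 2) ({a, b, e} : Set V)) := by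
    intro a b h
    have h1 : T ≤ span (ZMod 2) ({a, b, e} : Set V) := by
      rw [hTdef, span_le]
      rintro v ⟨hv, hvH⟩
      exact h v hv hvH
    have h2 := Submodule.finrank_mono h1
    have h3 := finrank_three_le a b e
    omega
  have two_fib : ∀ y1 y2 y3 : W, (∀ v ∈ E, v ∉ H → π v = y1 ∨ π v = y2 ∨ π v = y3) →
      ∃ v ∈ E, v ∉ H ∧ π v = y1 := by
    intro y1 y2 y3 h
    by_contra hcon
    push Not at hcon
    obtain ⟨a, ha⟩ : ∃ a : V, ∀ v ∈ E, v ∉ H → π v = y2 → v ∈ span (ZMod 2) ({a, e} : Set V) := by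
      by_cases h2 : ∃ a ∈ E, a ∉ H ∧ π a = y2
      · obtain ⟨a, -, -, ha⟩ := h2
        refine ⟨a, fun v hv hvH hpv => ?_⟩
        rcases pi_eq hker (hpv.trans ha.symm) with h3 | h3
        · rw [h3]; exact subset_span (by simp)
        · rw [h3]
          exact Submodule.add_mem _ (subset_span (by simp)) (subset_span (by simp))
      · push Not at h2
        exact ⟨0, fun v hv hvH hpv => absurd hpv (h2 v hv hvH)⟩
    obtain ⟨b, hb⟩ : ∃ a : V, ∀ v ∈ E, v ∉ H → π v = y3 → v ∈ span (ZMod 2) ({a, e} : Set V) := by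
      by_cases h2 : ∃ a ∈ E, a ∉ H ∧ π a = y3
      · obtain ⟨a, -, -, ha⟩ := h2
        refine ⟨a, fun v hv hvH hpv => ?_⟩
        rcases pi_eq hker (hpv.trans ha.symm) with h3 | h3
        · rw [h3]; exact subset_span (by simp)
        · rw [h3]
          exact Submodule.add_mem _ (subset_span (by simp)) (subset_span (by simp))
      · push Not at h2
        exact ⟨0, fun v hv hvH hpv => absurd hpv (h2 v hv hvH)⟩
    apply hTfib a b
    intro v hv hvH
    rcases h v hv hvH with h1 | h1 | h1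
    · exact absurd h1 (hcon v hv hvH)
    · exact span_mono (by intro y hy; rcases hy with rfl | rfl <;> simp) (ha v hv hvH h1)
    · exact span_mono (by intro y hy; rcases hy with rfl | rfl <;> simp) (hb v hv hvH h1)
  obtain ⟨v1, hv1, hv1H, hpv1⟩ := two_fib x (x + p) (x + q) hout
  obtain ⟨v2, hv2, hv2H, hpv2⟩ := two_fib (x + p) x (x + q) (fun v hv hvH => by
    have := hout v hv hvH
    tauto)
  obtain ⟨v3, hv3, hv3H, hpv3⟩ := two_fib (x + q) x (x + p) (fun v hv hvH => by
    have := hout v hv hvH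
    tauto)
  have n12 : π v1 ≠ π v2 := by
    rw [hpv1, hpv2]
    intro h
    exact hp0 (by simpa using h.symm)
  have n13 : π v1 ≠ π v3 := by
    rw [hpv1, hpv3]
    intro h
    exact hq0 (by simpa using h.symm)
  have n23 : π v2 ≠ π v3 := by
    rw [hpv2, hpv3]
    intro h
    exact hpq (by simpa using h)
  have addH : ∀ v, v ∉ H → v + e ∉ H := by
    intro v hv h
    apply hv
    have := H.sub_mem h heH
    rwa [add_sub_cancel_right] at this
  have hall : ∀ v, v ∈ E ∧ v ∉ H ↔ v = v1 ∨ v = v2 ∨ v = v3 ∨ (v1 + e ∈ E ∧ v = v1 + e) ∨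
      (v2 + e ∈ E ∧ v = v2 + e) ∨ (v3 + e ∈ E ∧ v = v3 + e) := by
    intro v
    constructor
    · rintro ⟨hv, hvH⟩
      rcases hout v hv hvH with h | h | h
      · rcases pi_eq hker (h.trans hpv1.symm) with h1 | h1
        · exact Or.inl h1
        · right; right; right; left
          exact ⟨h1 ▸ hv, h1⟩
      · rcases pi_eq hker (h.trans hpv2.symm) with h1 | h1
        · exact Or.inr (Or.inl h1)
        · right; right; right; right; left
          exact ⟨h1 ▸ hv, h1⟩
      · rcases pi_eq hker (h.trans hpv3.symm) with h1 | h1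
        · exact Or.inr (Or.inr (Or.inl h1))
        · right; right; right; right; right
          exact ⟨h1 ▸ hv, h1⟩
    · rintro (h | h | h | ⟨h1, h⟩ | ⟨h1, h⟩ | ⟨h1, h⟩) <;> rw [h]
      · exact ⟨hv1, hv1H⟩
      · exact ⟨hv2, hv2H⟩
      · exact ⟨hv3, hv3H⟩
      · exact ⟨h1, addH _ hv1H⟩
      · exact ⟨h1, addH _ hv2H⟩
      · exact ⟨h1, addH _ hv3H⟩
  have mT : ∀ v ∈ E, v ∉ H → v ∈ T := fun v hv hvH => subset_span ⟨hv, hvH⟩
  have t1 := mT v1 hv1 hv1H
  have t2 := mT v2 hv2 hv2H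
  have t3 := mT v3 hv3 hv3H
  by_cases d1 : v1 + e ∈ E <;> by_cases d2 : v2 + e ∈ E <;> by_cases d3 : v3 + e ∈ E
  · exfalso
    have := deg_three he0 hker hv1 hv2 hv3 n12 n13 n23 d1 d2 d3
    omega
  · have hd := deg_two he0 hker hv1 hv2 n12 d1 d2
    exact ⟨H, v1, v2, v3, hcoc, heH, hthird v1 v2 v3 t1 t2 t3,
      Or.inr ⟨by omega, fin_two hall d1 d2 d3⟩⟩
  · have hd := deg_two he0 hker hv1 hv3 n13 d1 d3
    exact ⟨H, v1, v3, v2, hcoc, heH, hthird v1 v3 v2 t1 t3 t2,
      Or.inr ⟨by omega, fin_two (fun v => by rw [hall v]; tauto) d1 d3 d2⟩⟩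
  · exact ⟨H, v1, v2, v3, hcoc, heH, hthird v1 v2 v3 t1 t2 t3,
      Or.inl (fin_one hall d1 d2 d3)⟩
  · have hd := deg_two he0 hker hv2 hv3 n23 d2 d3
    exact ⟨H, v2, v3, v1, hcoc, heH, hthird v2 v3 v1 t2 t3 t1,
      Or.inr ⟨by omega, fin_two (fun v => by rw [hall v]; tauto) d2 d3 d1⟩⟩
  · exact ⟨H, v2, v1, v3, hcoc, heH, hthird v2 v1 v3 t2 t1 t3,
      Or.inl (fin_one (fun v => by rw [hall v]; tauto) d2 d1 d3)⟩
  · exact ⟨H, v3, v1, v2, hcoc, heH, hthird v3 v1 v2 t3 t1 t2,
      Or.inl (fin_one (fun v => by rw [hall v]; tauto) d3 d1 d2)⟩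
  · exfalso
    have h1 : T ≤ span (ZMod 2) ({v1, v2, v3} : Set V) := by
      rw [hTdef, span_le]
      rintro v ⟨hv, hvH⟩
      have := (hall v).1 ⟨hv, hvH⟩
      apply subset_span
      simp only [Set.mem_insert_iff, Set.mem_singleton_iff]
      tauto
    have h2 := Submodule.finrank_mono h1
    have h3 := finrank_three_le v1 v2 v3
    omega

end Pool.Agent.WW

end
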