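import Pool.Agent.Work.MP_a8f287_co.Bd.B12
import Pool.Agent.Work.MP_a8f287_co.Bd.B02
import Pool.Agent.Work.MP_a8f287_co.Bd.B06
import Pool.Agent.Work.MP_a8f287_co.Bd.B04
import Pool.Agent.Work.MP_a8f287_co.Bd.B07
import Pool.Agent.Work.MP_a8f287_co.Bd.B08
import Pool.Agent.Work.MP_a8f287_co.Bd.B09
import Pool.Agent.Work.MP_a8f287_co.Bd.B10
import Pool.Agent.Work.MP_a8f287_co.C3.K4.TabK5Chk
import Pool.Agent.Work.MP_a8f287_co.Bd.B14
import Pool.Agent.Work.MP_a8f287_co.Bd.T00
import Pool.Agent.Work.MP_a8f287_co.Bd.T16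
import Pool.Agent.Work.MP_a8f287_co.Bd.T19
import Pool.Agent.Work.MP_a8f287_co.C4.AsmA

/-! Bundle of small proof modules (one section per former module). -/

section

/-!
The triangle inequality in rank five.
-/

namespace Pool.Agent.WW

open Submodule Module

universe u

theorem k4f_not_k4m {V : Type u} [AddCommGroup V] [Module (ZMod 2) V]
    [FiniteDimensional (ZMod 2) V] {E : Set V} (hE : K4F E) {b : Fin 5 → V}
    (hb : ∀ n < 32, comb b n = 0 → n = 0) {M : ℕ}
    (hM : ∀ n < 32, M.testBit n = true → comb b n ∈ E) : ¬ K4M M := by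
  rintro ⟨h, hlen, hlt, hi, hall⟩
  have : Finite V := Module.finite_of_finite (ZMod 2)
  have hli := bp_indep hb h hlt hi
  have h3 := hE (span (ZMod 2) (Set.range (bpFam b h))) (by
    rw [finrank_span_eq_card hli, Fintype.card_fin, hlen])
  have hinj : ∀ x < 8, ∀ y < 8, comb b (linC h x) = comb b (linC h y) → x = y := by
    intro x hx y hy hxy
    have h1 : comb (bpFam b h) (x ^^^ y) = 0 := by
      rw [comb_xor, bp_comb_linC, bp_comb_linC, hxy, add_self_z2]
    rw [bp_comb_linC] at h1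
    have h2 := hb _ (bp_linC_lt h hlt _) h1
    have h4 : x ^^^ y < 2 ^ h.length := by
      rw [hlen]
      exact Nat.xor_lt_two_pow (n := 3) hx hy
    have h5 : x ^^^ y = 0 := by
      by_contra h0
      exact hi _ h4 h0 h2
    exact Nat.xor_eq_zero_iff.1 h5
  have hsub : (fun m : ℕ => comb b (linC h m)) '' ((Finset.Icc 1 6 : Finset ℕ) : Set ℕ) ⊆
      E ∩ (span (ZMod 2) (Set.range (bpFam b h)) : Set V) := by
    rintro _ ⟨m, hm, rfl⟩
    rw [Finset.coe_Icc, Set.mem_Icc] at hm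
    refine ⟨hM _ (bp_linC_lt h hlt m) (hall m ?_), ?_⟩
    · obtain ⟨h1, h2⟩ := hm
      interval_cases m <;> simp
    · show comb b (linC h m) ∈ span (ZMod 2) (Set.range (bpFam b h))
      rw [← bp_comb_linC]
      unfold comb
      refine Submodule.sum_mem _ fun i _ => ?_
      split_ifs
      · exact subset_span ⟨i, rfl⟩
      · exact zero_mem _
  have hc := Set.ncard_le_ncard hsub (Set.toFinite _)
  rw [Set.ncard_image_of_injOn, Set.ncard_coe_finset] at hc
  · rw [Nat.card_Icc] at hc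
    omega
  · intro x hx y hy hxy
    rw [Finset.coe_Icc, Set.mem_Icc] at hx hy
    exact hinj x (by omega) y (by omega) hxy

theorem gqf_not_gqm {V : Type u} [AddCommGroup V] [Module (ZMod 2) V]
    {E : Set V} (hE : GQF E) {b : Fin 5 → V}
    (hb : ∀ n < 32, comb b n = 0 → n = 0) {M : ℕ}
    (hM : ∀ n < 32, M.testBit n = true → comb b n ∈ E) : ¬ GQM M := by
  rintro ⟨h, hlen, hlt, hi, hall⟩
  have hli := bp_indep hb h hlt hi
  have h5 : ∃ b' : Fin 5 → V, LinearIndependent (ZMod 2) b' ∧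
      ∀ n, comb b' n = comb b (linC h n) := by
    obtain ⟨h0, h1, h2, h3, h4, rfl⟩ : ∃ h0 h1 h2 h3 h4, h = [h0, h1, h2, h3, h4] := by
      rcases h with _ | ⟨h0, _ | ⟨h1, _ | ⟨h2, _ | ⟨h3, _ | ⟨h4, _ | ⟨h5, t⟩⟩⟩⟩⟩⟩ <;>
        simp at hlen
      exact ⟨h0, h1, h2, h3, h4, rfl⟩
    exact ⟨bpFam b [h0, h1, h2, h3, h4], hli, fun n => bp_comb_linC b _ n⟩
  obtain ⟨b', hb', hc⟩ := h5
  obtain ⟨n, hn, hnE⟩ := hE b' hb'
  apply hnE
  rw [hc]
  exact hM _ (bp_linC_lt h hlt n) (hall n hn)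

theorem ta3_5 : TA3.{u} 5 := by
  intro V _ _ _ _ W h0 hspan hV hK4 hfree hGQ
  obtain ⟨M, hML, b, hb, hM⟩ := claimR5 r5L r5_closed V (W : Set V) hV h0 hspan hfree
  have hb0 : ∀ n < 32, comb b n = 0 → n = 0 := by
    intro n hn h
    exact base_inj b hb hn (by norm_num) (by rw [h, comb_zero])
  rcases t5_prop M hML with h | h | h
  · obtain ⟨e1, e2⟩ := base_count hV b hb W M hM
    rw [e1, e2] at h
    exact h
  · exact absurd h (k4f_not_k4m hK4 hb0 fun n hn hx => (hM n hn).1 hx)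
  · exact absurd h (gqf_not_gqm hGQ hb0 fun n hn hx => (hM n hn).1 hx)

/-- the triangle inequality in rank five -/
theorem tr5 : TR.{u} 5 := claimTRel 5 ta3_5

end Pool.Agent.WW

end

section

/-!
The types of a cocircuit of rank four.
-/

namespace Pool.Agent.WW

open Submodule Module

universe u

section Codes

variable {V : Type u} [AddCommGroup V] [Module (ZMod 2) V]

theorem ty_indep {m : ℕ} {b : Fin m → V} (hb : ∀ n < 2 ^ m, comb b n = 0 → n = 0) (h : List ℕ)
    (hlt : ∀ c ∈ h, c < 2 ^ m) (hi : IndepC h) : LinearIndependent (ZMod 2) (bpFam b h) := by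
  rw [Fintype.linearIndependent_iff]
  intro c hc i
  obtain ⟨n, hn, hbit⟩ := bp_exists_code h.length c
  rw [← bp_comb_eq_sum (bpFam b h) c n hbit, bp_comb_linC] at hc
  have h1 := hb _ (r5s_linC_lt h hlt n) hc
  have h2 : n = 0 := by
    by_contra h0
    exact hi n hn h0 h1
  have h3 := hbit i
  rw [h2, Nat.zero_testBit] at h3
  rcases tri_zmod (c i) with h4 | h4
  · exact h4
  · rw [h4] at h3
    simp at h3

/-- a `K4` given by codes -/
theorem ty_k4 [FiniteDimensional (ZMod 2) V] {E : Set V} (hE : K4F E) {m : ℕ} {b : Fin m → V}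
    (hb : ∀ n < 2 ^ m, comb b n = 0 → n = 0) {M : ℕ}
    (hM : ∀ n < 2 ^ m, M.testBit n = true → comb b n ∈ E) (h : List ℕ) (hlen : h.length = 3)
    (hlt : ∀ c ∈ h, c < 2 ^ m) (hi : IndepC h)
    (hall : ∀ k ∈ [1, 2, 3, 4, 5, 6], M.testBit (linC h k) = true) : False := by
  have : Finite V := Module.finite_of_finite (ZMod 2)
  have hli := ty_indep hb h hlt hi
  have h3 := hE (span (ZMod 2) (Set.range (bpFam b h))) (by
    rw [finrank_span_eq_card hli, Fintype.card_fin, hlen])
  have hinj : ∀ x < 8, ∀ y < 8, comb b (linC h x) = comb b (linC h y) → x = y := by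
    intro x hx y hy hxy
    have h1 : comb (bpFam b h) (x ^^^ y) = 0 := by
      rw [comb_xor, bp_comb_linC, bp_comb_linC, hxy, add_self_z2]
    rw [bp_comb_linC] at h1
    have h2 := hb _ (r5s_linC_lt h hlt _) h1
    have h4 : x ^^^ y < 2 ^ h.length := by
      rw [hlen]
      exact Nat.xor_lt_two_pow (n := 3) hx hy
    have h5 : x ^^^ y = 0 := by
      by_contra h0
      exact hi _ h4 h0 h2
    exact Nat.xor_eq_zero_iff.1 h5
  have hsub : (fun k : ℕ => comb b (linC h k)) '' ((Finset.Icc 1 6 : Finset ℕ) : Set ℕ) ⊆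
      E ∩ (span (ZMod 2) (Set.range (bpFam b h)) : Set V) := by
    rintro _ ⟨k, hk, rfl⟩
    rw [Finset.coe_Icc, Set.mem_Icc] at hk
    refine ⟨hM _ (r5s_linC_lt h hlt k) (hall k ?_), ?_⟩
    · obtain ⟨h1, h2⟩ := hk
      interval_cases k <;> simp
    · show comb b (linC h k) ∈ span (ZMod 2) (Set.range (bpFam b h))
      rw [← bp_comb_linC]
      unfold comb
      refine Submodule.sum_mem _ fun i _ => ?_
      split_ifs
      · exact subset_span ⟨i, rfl⟩
      · exact zero_mem _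
  have hc := Set.ncard_le_ncard hsub (Set.toFinite _)
  rw [Set.InjOn.ncard_image, Set.ncard_coe_finset] at hc
  · rw [Nat.card_Icc] at hc
    omega
  · intro x hx y hy hxy
    rw [Finset.coe_Icc, Set.mem_Icc] at hx hy
    exact hinj x (by omega) y (by omega) hxy

theorem ty_pop_card (p : ℕ → Bool) :
    ((List.range 8).filter p).length = ((Finset.range 8).filter (fun n => p n = true)).card := by
  rw [Finset.card_def, Finset.filter_val, Finset.range_val]
  unfold Multiset.range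
  rw [Multiset.filter_coe, Multiset.coe_card]
  simp

/-- codes of the elements of a three-dimensional space -/
theorem ty_surj {Γ : Submodule (ZMod 2) V} {g : Fin 3 → V} (hg : span (ZMod 2) (Set.range g) = Γ)
    {v : V} (hv : v ∈ Γ) : ∃ n < 8, comb g n = v := by
  rw [← hg, mem_span_range_iff_exists_fun] at hv
  obtain ⟨c, hc⟩ := hv
  obtain ⟨n, hn, hbit⟩ := bp_exists_code 3 c
  refine ⟨n, hn, ?_⟩
  rw [bp_comb_eq_sum g c n hbit, hc]

theorem ty_comb_mem {Γ : Submodule (ZMod 2) V} {g : Fin 3 → V}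
    (hg : span (ZMod 2) (Set.range g) = Γ) (n : ℕ) : comb g n ∈ Γ := by
  rw [← hg]
  unfold comb
  refine Submodule.sum_mem _ fun i _ => ?_
  split_ifs
  · exact subset_span ⟨i, rfl⟩
  · exact zero_mem _

open Classical in
/-- the mask of codes in a subspace -/
noncomputable def smk (g : Fin 3 → V) (P : Submodule (ZMod 2) V) : ℕ :=
  mask ((List.range 8).filter fun n => decide (comb g n ∈ P))

theorem smk_bit {g : Fin 3 → V} {P : Submodule (ZMod 2) V} {n : ℕ} :
    (smk g P).testBit n = true ↔ n < 8 ∧ comb g n ∈ P := by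
  unfold smk
  rw [testBit_mask, List.mem_filter, List.mem_range]
  simp

theorem mask_lt_256 {l : List ℕ} (h : ∀ n ∈ l, n < 8) : mask l < 256 := by
  by_contra hge
  obtain ⟨i, hi, hb⟩ := Nat.exists_ge_and_testBit_of_ge_two_pow (n := 8) (by omega : 2 ^ 8 ≤ mask l)
  have := h i ((testBit_mask l i).1 hb)
  omega

theorem smk_mem_subM {Γ : Submodule (ZMod 2) V} {g : Fin 3 → V}
    (hg : span (ZMod 2) (Set.range g) = Γ) {l : Submodule (ZMod 2) V} (h1 : l ≤ Γ)
    (h2 : l ≠ Γ) : smk g l ∈ subM := by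
  have h := List.all_eq_true.1 subM_ok (smk g l) (List.mem_range.2 (by
    unfold smk
    apply mask_lt_256
    intro n hn
    exact List.mem_range.1 (List.mem_of_mem_filter hn)))
  rw [Bool.or_eq_true, Bool.or_eq_true, Bool.or_eq_true] at h
  rcases h with ((h | h) | h) | h
  · exfalso
    have h0 : (smk g l).testBit 0 = true := smk_bit.2 ⟨by norm_num, by
      rw [comb_zero]; exact zero_mem _⟩
    rw [h0] at h
    simp at h
  · exfalso
    apply h2
    apply le_antisymm h1
    intro v hv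
    obtain ⟨n, hn, rfl⟩ := ty_surj hg hv
    have h3 : (smk g l).testBit n = true := by
      rw [beq_iff_eq.1 h]
      interval_cases n <;> decide
    exact (smk_bit.1 h3).2
  · exfalso
    rw [Bool.not_eq_true', List.all_eq_false] at h
    obtain ⟨x, hx, h⟩ := h
    rw [Bool.not_eq_true, List.all_eq_false] at h
    obtain ⟨y, hy, h⟩ := h
    rw [List.mem_range] at hx hy
    apply h
    by_cases hx' : (smk g l).testBit x = true
    · by_cases hy' : (smk g l).testBit y = true
      · have : (smk g l).testBit (x ^^^ y) = true := smk_bit.2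
          ⟨Nat.xor_lt_two_pow (n := 3) hx hy, by
            rw [comb_xor]
            exact add_mem (smk_bit.1 hx').2 (smk_bit.1 hy').2⟩
        rw [this]
        simp
      · rw [Bool.not_eq_true] at hy'
        rw [hy']
        simp
    · rw [Bool.not_eq_true] at hx'
      rw [hx']
      simp
  · exact List.contains_iff_mem.1 h

/-- lower bound for the dimension -/
theorem dimM_le [FiniteDimensional (ZMod 2) V] {g : Fin 3 → V}
    (hinj : ∀ x < 8, ∀ y < 8, comb g x = comb g y → x = y) {P : Submodule (ZMod 2) V} {J : ℕ}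
    (hJ : ∀ n < 8, J.testBit n = true → comb g n ∈ P) : dimM J ≤ finrank (ZMod 2) P := by
  classical
  have : Finite V := Module.finite_of_finite (ZMod 2)
  have : Fintype ↥P := Fintype.ofFinite _
  have h1 : pop8 J ≤ 2 ^ finrank (ZMod 2) P := by
    have h2 : Fintype.card ↥P = 2 ^ finrank (ZMod 2) P := by
      rw [Module.card_eq_pow_finrank (K := ZMod 2), ZMod.card]
    have h3 : (P : Set V).ncard = Fintype.card ↥P := by
      rw [← Nat.card_coe_set_eq, ← Nat.card_eq_fintype_card]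
      rfl
    rw [← h2, ← h3]
    unfold pop8
    rw [ty_pop_card]
    have h4 : (comb g '' (((Finset.range 8).filter (fun n => J.testBit n = true) : Finset ℕ) :
        Set ℕ)).ncard = ((Finset.range 8).filter (fun n => J.testBit n = true)).card := by
      rw [Set.InjOn.ncard_image, Set.ncard_coe_finset]
      intro x hx y hy hxy
      rw [Finset.mem_coe, Finset.mem_filter, Finset.mem_range] at hx hy
      exact hinj x hx.1 y hy.1 hxy
    rw [← h4]
    refine Set.ncard_le_ncard ?_ (Set.toFinite _)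
    rintro _ ⟨n, hn, rfl⟩
    rw [Finset.mem_coe, Finset.mem_filter, Finset.mem_range] at hn
    exact hJ n hn.1 hn.2
  unfold dimM
  split_ifs with h8 h4 h2
  · by_contra hlt
    have : 2 ^ finrank (ZMod 2) P ≤ 2 ^ 2 := Nat.pow_le_pow_right (by norm_num) (by omega)
    omega
  · by_contra hlt
    have : 2 ^ finrank (ZMod 2) P ≤ 2 ^ 1 := Nat.pow_le_pow_right (by norm_num) (by omega)
    omega
  · by_contra hlt
    have : 2 ^ finrank (ZMod 2) P ≤ 2 ^ 0 := Nat.pow_le_pow_right (by norm_num) (by omega)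
    omega
  · omega

end Codes

/-- the configuration `A`, `F` in codes -/
structure TyCfg {W : Type u} [AddCommGroup W] [Module (ZMod 2) W] (F A : Finset W)
    (Γ : Submodule (ZMod 2) W) (g : Fin 3 → W) (a0 : W) (AM XM : ℕ) : Prop where
  sp : span (ZMod 2) (Set.range g) = Γ
  inj : ∀ x < 8, ∀ y < 8, comb g x = comb g y → x = y
  hA : ∀ n < 8, (AM.testBit n = true ↔ a0 + comb g n ∈ A)
  hX : ∀ n < 8, (XM.testBit n = true ↔ comb g n ∈ F)
  surj : ∀ a ∈ A, ∃ n < 8, a = a0 + comb g n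
  ltA : AM < 256
  ltX : XM < 256

section Cfg

variable {W : Type u} [AddCommGroup W] [Module (ZMod 2) W] {F A : Finset W}
  {Γ : Submodule (ZMod 2) W} {g : Fin 3 → W} {a0 : W} {AM XM : ℕ}

theorem ty_add (g : Fin 3 → W) (a0 : W) (i j : ℕ) :
    a0 + comb g i + (a0 + comb g j) = comb g (i ^^^ j) := by
  rw [comb_xor]
  have h : a0 + comb g i + (a0 + comb g j) = (a0 + a0) + (comb g i + comb g j) := by abel
  rw [h, add_self_z2, zero_add]

theorem ty_add' (g : Fin 3 → W) (a0 : W) (i j : ℕ) :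
    a0 + comb g i + comb g j = a0 + comb g (i ^^^ j) := by
  rw [comb_xor, add_assoc]

theorem xor_lt8 {i j : ℕ} (hi : i < 8) (hj : j < 8) : i ^^^ j < 8 :=
  Nat.xor_lt_two_pow (n := 3) hi hj

theorem ty_cardA (h : TyCfg F A Γ g a0 AM XM) (p : ℕ → Bool) (q : W → Prop) [DecidablePred q]
    (hpq : ∀ n < 8, AM.testBit n = true → (p n = true ↔ q (a0 + comb g n))) :
    ((List.range 8).filter fun n => AM.testBit n && p n).length = (A.filter q).card := by
  classical
  rw [ty_pop_card]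
  have h1 : A.filter q = ((Finset.range 8).filter (fun n => (AM.testBit n && p n) = true)).image
      (fun n => a0 + comb g n) := by
    ext a
    rw [Finset.mem_filter, Finset.mem_image]
    constructor
    · rintro ⟨ha, hq⟩
      obtain ⟨n, hn, rfl⟩ := h.surj a ha
      refine ⟨n, ?_, rfl⟩
      rw [Finset.mem_filter, Finset.mem_range, Bool.and_eq_true]
      have h2 := (h.hA n hn).2 ha
      exact ⟨hn, h2, (hpq n hn h2).2 hq⟩
    · rintro ⟨n, hn, rfl⟩
      rw [Finset.mem_filter, Finset.mem_range, Bool.and_eq_true] at hn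
      exact ⟨(h.hA n hn.1).1 hn.2.1, (hpq n hn.1 hn.2.1).1 hn.2.2⟩
  rw [h1, Finset.card_image_of_injOn]
  intro x hx y hy hxy
  rw [Finset.mem_coe, Finset.mem_filter, Finset.mem_range] at hx hy
  exact h.inj x hx.1 y hy.1 (add_left_cancel hxy)

theorem ty_cardA' (h : TyCfg F A Γ g a0 AM XM) : pop8 AM = A.card := by
  have h1 := ty_cardA h (fun _ => true) (fun _ => True) (fun n _ _ => by simp)
  rw [Finset.filter_true] at h1
  rw [← h1]
  unfold pop8
  congr 1
  apply List.filter_congr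
  intro x _
  simp

theorem ty_tM [DecidableEq W] (h : TyCfg F A Γ g a0 AM XM) {a : ℕ} (ha : a < 8) :
    tM AM XM a = tA F A (a0 + comb g a) := by
  unfold tM tA
  apply ty_cardA h
  intro n hn _
  rw [ty_add]
  exact h.hX _ (xor_lt8 ha hn)

theorem ty_nM_bit {a n : ℕ} : (nM AM XM a).testBit n = true ↔
    n < 8 ∧ n ≠ 0 ∧ (XM.testBit n = true ∨ AM.testBit (a ^^^ n) = true) := by
  unfold nM
  rw [testBit_mask, List.mem_filter, List.mem_range, Bool.and_eq_true, Bool.or_eq_true,
    bne_iff_ne]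

theorem ty_comb_ne (h : TyCfg F A Γ g a0 AM XM) {n : ℕ} (hn : n < 8) (h0 : n ≠ 0) :
    comb g n ≠ 0 := by
  intro hc
  exact h0 (h.inj n hn 0 (by norm_num) (by rw [hc, comb_zero]))

theorem ty_nM [DecidableEq W] (h : TyCfg F A Γ g a0 AM XM) {a n : ℕ} (ha : a < 8)
    (hn : (nM AM XM a).testBit n = true) : n < 8 ∧ comb g n ∈ NA F A (a0 + comb g a) := by
  obtain ⟨hn8, hn0, hn⟩ := ty_nM_bit.1 hn
  refine ⟨hn8, ?_⟩
  unfold NA
  rw [Finset.mem_erase, Finset.mem_union, Finset.mem_image]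
  refine ⟨ty_comb_ne h hn8 hn0, ?_⟩
  rcases hn with hn | hn
  · exact Or.inl ((h.hX n hn8).1 hn)
  · refine Or.inr ⟨a0 + comb g (a ^^^ n), (h.hA _ (xor_lt8 ha hn8)).1 hn, ?_⟩
    rw [ty_add, ← Nat.xor_assoc, Nat.xor_self, Nat.zero_xor]

theorem ty_pop_nM [DecidableEq W] (h : TyCfg F A Γ g a0 AM XM) {a : ℕ} (ha : a < 8) :
    pop8 (nM AM XM a) ≤ (res (NA F A (a0 + comb g a)) Γ).card := by
  unfold pop8
  rw [ty_pop_card, ← Finset.card_image_of_injOn (f := comb g)]
  · apply Finset.card_le_card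
    intro x hx
    rw [Finset.mem_image] at hx
    obtain ⟨n, hn, rfl⟩ := hx
    rw [Finset.mem_filter] at hn
    exact mem_res.2 ⟨(ty_nM h ha hn.2).2, ty_comb_mem h.sp n⟩
  · intro x hx y hy hxy
    rw [Finset.mem_coe, Finset.mem_filter, Finset.mem_range] at hx hy
    exact h.inj x hx.1 y hy.1 hxy

theorem ty_low [DecidableEq W] (h : TyCfg F A Γ g a0 AM XM) {a : ℕ} (ha : a ∈ lowM AM XM) :
    a < 8 ∧ a0 + comb g a ∈ A ∧ tA F A (a0 + comb g a) ≤ 2 := by
  unfold lowM at ha
  rw [List.mem_filter, List.mem_range, Bool.and_eq_true, decide_eq_true_eq] at ha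
  obtain ⟨h1, h2, h3⟩ := ha
  exact ⟨h1, (h.hA a h1).1 h2, by rw [← ty_tM h h1]; exact h3⟩

theorem ty_one [DecidableEq W] (h : TyCfg F A Γ g a0 AM XM) (ho : oneM AM XM = true) :
    One F A Γ := by
  unfold oneM at ho
  rw [List.any_eq_true] at ho
  obtain ⟨a, ha, h6⟩ := ho
  rw [decide_eq_true_eq] at h6
  obtain ⟨h1, h2, h3⟩ := ty_low h ha
  exact ⟨_, h2, h6.trans (ty_pop_nM h h1), h3⟩

theorem ty_spl (h : TyCfg F A Γ g a0 AM XM) {L M : Submodule (ZMod 2) W} {p q : ℕ}
    (hp : ∀ n < 8, p.testBit n = true → comb g n ∈ L)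
    (hq : ∀ n < 8, q.testBit n = true → comb g n ∈ M) (hs : splM AM p q = true) :
    Spl A L M := by
  unfold splM at hs
  rw [List.any_eq_true] at hs
  obtain ⟨i, hi, hs⟩ := hs
  rw [List.any_eq_true] at hs
  obtain ⟨j, hj, hs⟩ := hs
  rw [List.all_eq_true] at hs
  rw [List.mem_range] at hi hj
  refine ⟨a0 + comb g i, a0 + comb g j, ?_⟩
  intro c hc
  obtain ⟨n, hn, rfl⟩ := h.surj c hc
  have h1 := hs n (List.mem_range.2 hn)
  rw [Bool.or_eq_true, Bool.or_eq_true, Bool.not_eq_true', (h.hA n hn).2 hc] at h1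
  rcases h1 with (h1 | h1) | h1
  · simp at h1
  · left
    rw [ty_add]
    exact hp _ (xor_lt8 hi hn) h1
  · right
    rw [ty_add]
    exact hq _ (xor_lt8 hj hn) h1

theorem ty_cb [FiniteDimensional (ZMod 2) W] (h : TyCfg F A Γ g a0 AM XM)
    {L M : Submodule (ZMod 2) W} {p q : ℕ}
    (hp : ∀ n < 8, p.testBit n = true → comb g n ∈ L)
    (hq : ∀ n < 8, q.testBit n = true → comb g n ∈ M) : cbM AM p q ≤ cb A L M := by
  unfold cbM cb
  have h1 := dimM_le h.inj hq
  by_cases h2 : 2 ≤ dimM q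
  · rw [if_pos h2]
    exact h1.trans (le_max_left _ _)
  · rw [if_neg h2]
    by_cases h3 : splM AM p q = true
    · rw [if_pos h3, if_pos (ty_spl h hp hq h3)]
      exact le_max_right _ _
    · rw [if_neg h3]
      exact h1.trans (le_max_left _ _)

theorem ty_and {L M : Submodule (ZMod 2) W} {p q : ℕ}
    (hp : ∀ n < 8, p.testBit n = true → comb g n ∈ L)
    (hq : ∀ n < 8, q.testBit n = true → comb g n ∈ M) :
    ∀ n < 8, (p &&& q).testBit n = true → comb g n ∈ L ⊓ M := by
  intro n hn h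
  rw [Nat.testBit_and, Bool.and_eq_true] at h
  exact ⟨hp n hn h.1, hq n hn h.2⟩

theorem ty_join {L M : Submodule (ZMod 2) W} {p q : ℕ}
    (hp : ∀ n < 8, p.testBit n = true → comb g n ∈ L)
    (hq : ∀ n < 8, q.testBit n = true → comb g n ∈ M) :
    ∀ n < 8, (joinM p q).testBit n = true → comb g n ∈ L ⊔ M := by
  intro n hn h
  unfold joinM at h
  rw [testBit_mask, List.mem_filter, List.any_eq_true] at h
  obtain ⟨-, x, hx, h⟩ := h
  rw [List.mem_range] at hx
  rw [Bool.and_eq_true] at h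
  have h1 : comb g n = comb g x + comb g (n ^^^ x) := by
    rw [← comb_xor, Nat.xor_comm n x, ← Nat.xor_assoc, Nat.xor_self, Nat.zero_xor]
  rw [h1]
  exact add_mem (mem_sup_left (hp x hx h.1)) (mem_sup_right (hq _ (xor_lt8 hn hx) h.2))

theorem ty_smk {L : Submodule (ZMod 2) W} :
    ∀ n < 8, (smk g L).testBit n = true → comb g n ∈ L :=
  fun _ _ h => (smk_bit.1 h).2

theorem ty_compat [FiniteDimensional (ZMod 2) W] (h : TyCfg F A Γ g a0 AM XM)
    {l l' m m' : Submodule (ZMod 2) W} (hc : Compat A l l' m m') :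
    compatM AM (smk g l, smk g l') (smk g m, smk g m') = true := by
  unfold compatM
  rw [Bool.or_eq_true, decide_eq_true_eq, decide_eq_true_eq]
  rcases hc with hc | hc
  · left
    refine le_trans (add_le_add ?_ ?_) hc
    · exact ty_cb h (ty_and ty_smk ty_smk) (ty_join ty_smk ty_smk)
    · exact ty_cb h (ty_and ty_smk ty_smk) (ty_join ty_smk ty_smk)
  · right
    refine le_trans (add_le_add ?_ ?_) hc
    · exact ty_cb h (ty_and ty_smk ty_smk) (ty_join ty_smk ty_smk)
    · exact ty_cb h (ty_and ty_smk ty_smk) (ty_join ty_smk ty_smk)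

theorem ty_trs [DecidableEq W] (h : TyCfg F A Γ g a0 AM XM) {a : ℕ} (ha : a < 8)
    {l l' : Submodule (ZMod 2) W} (ht : IsTr F A Γ (a0 + comb g a) l l') :
    (smk g l, smk g l') ∈ trsM (nM AM XM a) := by
  obtain ⟨h1, h2, h3, h4, h5⟩ := ht
  unfold trsM
  rw [List.mem_filter, List.mem_product, beq_iff_eq]
  refine ⟨⟨smk_mem_subM h.sp h1 h3, smk_mem_subM h.sp h2 h4⟩, ?_⟩
  apply Nat.eq_of_testBit_eq
  intro n
  rw [Nat.testBit_or, Nat.testBit_or]
  by_cases hn : (nM AM XM a).testBit n = true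
  · obtain ⟨hn8, hN⟩ := ty_nM h ha hn
    have h6 := h5 _ hN (ty_comb_mem h.sp n)
    have h7 : ((smk g l).testBit n || (smk g l').testBit n) = true := by
      rw [Bool.or_eq_true]
      rcases h6 with h6 | h6
      · exact Or.inl (smk_bit.2 ⟨hn8, h6⟩)
      · exact Or.inr (smk_bit.2 ⟨hn8, h6⟩)
    rw [h7, Bool.or_true]
  · rw [Bool.not_eq_true] at hn
    rw [hn, Bool.false_or]

theorem ty_asg [DecidableEq W] [FiniteDimensional (ZMod 2) W] (h : TyCfg F A Γ g a0 AM XM)
    (l l' : W → Submodule (ZMod 2) W) : ∀ (els prev : List ℕ),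
    (∀ a ∈ els, a < 8 ∧ IsTr F A Γ (a0 + comb g a) (l (a0 + comb g a)) (l' (a0 + comb g a))) →
    (∀ a ∈ els, ∀ b ∈ prev, Compat A (l (a0 + comb g a)) (l' (a0 + comb g a))
      (l (a0 + comb g b)) (l' (a0 + comb g b))) →
    (els.Pairwise fun b a => Compat A (l (a0 + comb g a)) (l' (a0 + comb g a))
      (l (a0 + comb g b)) (l' (a0 + comb g b))) →
    asgM AM XM els (prev.map fun b => (smk g (l (a0 + comb g b)), smk g (l' (a0 + comb g b)))) =
      true → False := by
  intro els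
  induction els with
  | nil =>
    intro prev _ _ _ ha
    simp [asgM] at ha
  | cons a els ih =>
    intro prev htr hcp hpw ha
    rw [asgM, List.all_eq_true] at ha
    have h1 := ha _ (ty_trs h (htr a List.mem_cons_self).1 (htr a List.mem_cons_self).2)
    rw [Bool.or_eq_true] at h1
    rw [List.pairwise_cons] at hpw
    rcases h1 with h1 | h1
    · rw [List.any_eq_true] at h1
      obtain ⟨q, hq, h1⟩ := h1
      rw [List.mem_map] at hq
      obtain ⟨b, hb, rfl⟩ := hq
      rw [ty_compat h (hcp a List.mem_cons_self b hb)] at h1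
      simp at h1
    · refine ih (a :: prev) (fun c hc => htr c (List.mem_cons_of_mem _ hc)) ?_ hpw.2 ?_
      · intro c hc b hb
        rw [List.mem_cons] at hb
        rcases hb with rfl | hb
        · exact hpw.1 c hc
        · exact hcp c (List.mem_cons_of_mem _ hc) b hb
      · rw [List.map_cons]
        exact h1

theorem els_mem {a : ℕ} (ha : a ∈ elsM AM XM) : a ∈ lowM AM XM := by
  unfold elsM at ha
  rw [List.mem_append, List.mem_append, List.mem_filter, List.mem_filter, List.mem_filter] at ha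
  rcases ha with (ha | ha) | ha <;> exact ha.1

theorem els_nodup : (elsM AM XM).Nodup := by
  have hl : (lowM AM XM).Nodup := List.Nodup.filter _ List.nodup_range
  unfold elsM
  refine List.Nodup.append (List.Nodup.append (hl.filter _) (hl.filter _) ?_) (hl.filter _) ?_
  · intro x h1 h2
    rw [List.mem_filter, decide_eq_true_eq] at h1
    rw [List.mem_filter, beq_iff_eq] at h2
    omega
  · intro x h1 h2
    rw [List.mem_append, List.mem_filter, List.mem_filter, decide_eq_true_eq, beq_iff_eq] at h1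
    rw [List.mem_filter, decide_eq_true_eq] at h2
    omega

theorem ty_noass [DecidableEq W] [FiniteDimensional (ZMod 2) W] (h : TyCfg F A Γ g a0 AM XM)
    (ho : asgM AM XM (elsM AM XM) [] = true) : NoAss F A Γ := by
  intro l l' htr hcp
  refine ty_asg h l l' (elsM AM XM) [] ?_ ?_ ?_ ho
  · intro a ha
    obtain ⟨h1, h2, h3⟩ := ty_low h (els_mem ha)
    exact ⟨h1, htr _ h2 h3⟩
  · intro a _ b hb
    exact absurd hb List.not_mem_nil
  · refine List.Pairwise.imp_of_mem ?_ (els_nodup (AM := AM) (XM := XM))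
    intro b a hb ha hne
    obtain ⟨h1, h2, h3⟩ := ty_low h (els_mem ha)
    obtain ⟨h1', h2', h3'⟩ := ty_low h (els_mem hb)
    refine hcp _ h2 _ h2' ?_ h3 h3'
    intro he
    exact hne (h.inj b h1' a h1 (add_left_cancel he).symm)

theorem ty_lpl [DecidableEq W] (h : TyCfg F A Γ g a0 AM XM)
    (ho : lplM AM XM = true) : LPl F A Γ := by
  intro x hx hxΓ hcard u hu v hv huΓ hvΓ hux hvx
  obtain ⟨nx, hnx, rfl⟩ := ty_surj h.sp hxΓ
  obtain ⟨nu, hnu, rfl⟩ := ty_surj h.sp huΓ
  obtain ⟨nv, hnv, rfl⟩ := ty_surj h.sp hvΓ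
  unfold lplM at ho
  rw [List.all_eq_true] at ho
  have h1 := ho nx (List.mem_range.2 hnx)
  rw [(h.hX nx hnx).2 hx] at h1
  have h2 : (2 * pop8 AM == 8 + ((List.range 8).filter fun a => AM.testBit a &&
      AM.testBit (a ^^^ nx)).length) = true := by
    rw [beq_iff_eq, ty_cardA' h, hcard]
    congr 1
    refine (ty_cardA h (fun n => AM.testBit (n ^^^ nx)) (fun a => a + comb g nx ∈ A) ?_).symm
    intro n hn _
    rw [ty_add']
    exact h.hA _ (xor_lt8 hn hnx)
  rw [h2] at h1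
  rw [Bool.or_eq_true, Bool.or_eq_true] at h1
  rcases h1 with (h1 | h1) | h1
  · simp at h1
  · simp at h1
  · rw [List.all_eq_true] at h1
    have h3 := h1 nu (List.mem_range.2 hnu)
    rw [List.all_eq_true] at h3
    have h4 := h3 nv (List.mem_range.2 hnv)
    rw [(h.hX nu hnu).2 hu, (h.hX nv hnv).2 hv] at h4
    rw [Bool.or_eq_true, Bool.or_eq_true, Bool.or_eq_true, Bool.or_eq_true, Bool.or_eq_true,
      beq_iff_eq, beq_iff_eq, beq_iff_eq, beq_iff_eq] at h4
    rcases h4 with ((((h4 | h4) | h4) | h4) | h4) | h4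
    · simp at h4
    · simp at h4
    · exact absurd (by rw [h4]) hux
    · exact absurd (by rw [h4]) hvx
    · left
      rw [h4]
    · right
      rw [← comb_xor, h4]

end Cfg

/-- every configuration has codes in normal form -/
theorem ty_exists {W : Type u} [AddCommGroup W] [Module (ZMod 2) W] [FiniteDimensional (ZMod 2) W]
    [DecidableEq W] {F A : Finset W} {Γ : Submodule (ZMod 2) W} (hQ : Quad F A Γ) :
    ∃ (g : Fin 3 → W) (a0 : W) (AM XM : ℕ), TyCfg F A Γ g a0 AM XM ∧ AM ∈ tyAs ∧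
      ∃ k < 128, XM = 2 * k := by
  classical
  obtain ⟨a0, ha0⟩ := hQ.ne
  have hS : span (ZMod 2) {c : W | ∃ b ∈ A, c = a0 + b} = Γ := by
    apply le_antisymm
    · rw [span_le]
      rintro _ ⟨b, hb, rfl⟩
      exact hQ.sub a0 ha0 b hb
    · exact hQ.sp a0 ha0
  have hdim : finrank (ZMod 2) ↥(span (ZMod 2) {c : W | ∃ b ∈ A, c = a0 + b}) = 3 := by
    rw [hS, hQ.dim]
  obtain ⟨f, hf1, hf2, hf3⟩ := exists_fun_fin_finrank_span_eq (ZMod 2)
    {c : W | ∃ b ∈ A, c = a0 + b}
  let g : Fin 3 → W := fun i => f (finCongr hdim.symm i)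
  have hg1 : ∀ i, g i ∈ {c : W | ∃ b ∈ A, c = a0 + b} := fun i => hf1 _
  have hgsp : span (ZMod 2) (Set.range g) = Γ := by
    rw [← hS, ← hf2]
    congr 1
    ext x
    constructor
    · rintro ⟨i, rfl⟩
      exact ⟨_, rfl⟩
    · rintro ⟨i, rfl⟩
      exact ⟨(finCongr hdim.symm).symm i, by simp [g]⟩
  have hgli : LinearIndependent (ZMod 2) g := hf3.comp _ (finCongr hdim.symm).injective
  have hinj : ∀ x < 8, ∀ y < 8, comb g x = comb g y → x = y :=
    fun x hx y hy h => r5s_comb_inj hgli (by simpa using hx) (by simpa using hy) h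
  have hgA : ∀ i, a0 + g i ∈ A := by
    intro i
    obtain ⟨b, hb, h⟩ := hg1 i
    rw [h, ← add_assoc, add_self_z2, zero_add]
    exact hb
  refine ⟨g, a0, mask ((List.range 8).filter fun n => decide (a0 + comb g n ∈ A)),
    mask ((List.range 8).filter fun n => decide (comb g n ∈ F)),
    ⟨hgsp, hinj, ?_, ?_, ?_, ?_, ?_⟩, ?_, ?_⟩
  · intro n hn
    rw [testBit_mask, List.mem_filter, List.mem_range, decide_eq_true_eq]
    exact ⟨fun h => h.2, fun h => ⟨hn, h⟩⟩
  · intro n hn
    rw [testBit_mask, List.mem_filter, List.mem_range, decide_eq_true_eq]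
    exact ⟨fun h => h.2, fun h => ⟨hn, h⟩⟩
  · intro a ha
    obtain ⟨n, hn, h⟩ := ty_surj hgsp (hQ.sub a0 ha0 a ha)
    refine ⟨n, hn, ?_⟩
    rw [h, ← add_assoc, add_self_z2, zero_add]
  · apply mask_lt_256
    intro n hn
    exact List.mem_range.1 (List.mem_of_mem_filter hn)
  · apply mask_lt_256
    intro n hn
    exact List.mem_range.1 (List.mem_of_mem_filter hn)
  · have hlt : mask ((List.range 8).filter fun n => decide (a0 + comb g n ∈ A)) < 256 := by
      apply mask_lt_256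
      intro n hn
      exact List.mem_range.1 (List.mem_of_mem_filter hn)
    have hb : ∀ n < 8, a0 + comb g n ∈ A →
        (mask ((List.range 8).filter fun n => decide (a0 + comb g n ∈ A))).testBit n = true := by
      intro n hn h
      rw [testBit_mask, List.mem_filter, List.mem_range, decide_eq_true_eq]
      exact ⟨hn, h⟩
    have h0 := hb 0 (by norm_num) (by rw [comb_zero, add_zero]; exact ha0)
    have h1 := hb 1 (by norm_num) (by
      have : comb g 1 = g 0 := by simp [comb, Fin.sum_univ_three, Nat.testBit]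
      rw [this]; exact hgA 0)
    have h2 := hb 2 (by norm_num) (by
      have : comb g 2 = g 1 := by simp [comb, Fin.sum_univ_three, Nat.testBit]
      rw [this]; exact hgA 1)
    have h4 := hb 4 (by norm_num) (by
      have : comb g 4 = g 2 := by simp [comb, Fin.sum_univ_three, Nat.testBit]
      rw [this]; exact hgA 2)
    have key : ((List.range 256).all fun M => !M.testBit 0 || !M.testBit 1 || !M.testBit 2 ||
        !M.testBit 4 || tyAs.contains M) = true := by decide +kernel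
    have h5 := List.all_eq_true.1 key _ (List.mem_range.2 hlt)
    rw [h0, h1, h2, h4] at h5
    simpa using h5
  · have hlt : mask ((List.range 8).filter fun n => decide (comb g n ∈ F)) < 256 := by
      apply mask_lt_256
      intro n hn
      exact List.mem_range.1 (List.mem_of_mem_filter hn)
    have h0 : (mask ((List.range 8).filter fun n => decide (comb g n ∈ F))).testBit 0 = false := by
      rw [← Bool.not_eq_true, testBit_mask, List.mem_filter, decide_eq_true_eq, comb_zero]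
      exact fun h => hQ.zero h.2
    rw [Nat.testBit_zero, decide_eq_false_iff_not] at h0
    exact ⟨mask ((List.range 8).filter fun n => decide (comb g n ∈ F)) / 2, by omega, by omega⟩

theorem ty_bits {AM XM : ℕ} (hX : XM < 256) (hA : AM < 256) {n : ℕ}
    (hn : (XM + 256 * AM).testBit n = true) :
    (n < 8 ∧ XM.testBit n = true) ∨ ∃ m < 8, n = 8 + m ∧ AM.testBit m = true := by
  have h : XM + 256 * AM = 2 ^ 8 * AM + XM := by ring
  rw [h, Nat.testBit_two_pow_mul_add _ (by norm_num; exact hX)] at hn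
  split_ifs at hn with h8
  · exact Or.inl ⟨h8, hn⟩
  · refine Or.inr ⟨n - 8, ?_, by omega, hn⟩
    by_contra hge
    have h1 : AM.testBit (n - 8) = false := by
      apply Nat.testBit_lt_two_pow
      exact lt_of_lt_of_le hA (by
        calc (256 : ℕ) = 2 ^ 8 := by norm_num
          _ ≤ 2 ^ (n - 8) := Nat.pow_le_pow_right (by norm_num) (by omega))
    rw [h1] at hn
    simp at hn

/-- B8: the types of a cocircuit of rank four -/
theorem c3Types : C3Types.{u} := by
  intro V _ _ _ _ E H F A Γ x0 hK5 hK4 hQ hx0 hF hA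
  obtain ⟨g, a0, AM, XM, h, hAM, k, hk, hXM⟩ := ty_exists hQ
  have hchk := ty_all AM hAM k hk
  rw [← hXM] at hchk
  -- codes in `V`
  have hcoe : ∀ n, comb (fun i : Fin 3 => (g i : V)) n = ((comb g n : ↥H) : V) := by
    intro n
    unfold comb
    rw [← Submodule.subtype_apply, map_sum]
    refine Finset.sum_congr rfl fun i _ => ?_
    split_ifs <;> simp
  have hcomb : ∀ n, comb (Fin.snoc (fun i : Fin 3 => (g i : V)) (x0 + (a0 : V)) : Fin 4 → V) n =
      ((comb g n : ↥H) : V) + (if n.testBit 3 then x0 + (a0 : V) else 0) := by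
    intro n
    rw [comb_snoc, hcoe]
  have hhi : ∀ m < 8, comb g (8 + m) = comb g m ∧ (8 + m).testBit 3 = true ∧
      m.testBit 3 = false := by
    intro m hm
    have hb : ∀ i < 3, (8 + m).testBit i = m.testBit i := by
      intro i hi
      interval_cases m <;> interval_cases i <;> decide
    refine ⟨?_, ?_, ?_⟩
    · unfold comb
      refine Finset.sum_congr rfl fun i _ => ?_
      rw [hb i i.2]
    · interval_cases m <;> decide
    · interval_cases m <;> decide
  have hM : ∀ n, (XM + 256 * AM).testBit n = true → n < 2 ^ 4 ∧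
      comb (Fin.snoc (fun i : Fin 3 => (g i : V)) (x0 + (a0 : V)) : Fin 4 → V) n ∈
        (E : Set V) := by
    intro n hn
    rcases ty_bits h.ltX h.ltA hn with ⟨hn8, hn'⟩ | ⟨m, hm, rfl, hn'⟩
    · refine ⟨by norm_num; omega, ?_⟩
      rw [hcomb, (hhi n hn8).2.2]
      have h1 := (hF _).1 ((h.hX n hn8).1 hn')
      simpa using h1
    · refine ⟨by norm_num; omega, ?_⟩
      rw [hcomb, (hhi m hm).2.1, (hhi m hm).1]
      have h1 := (hA _).1 ((h.hA m hm).1 hn')
      have h2 : ((comb g m : ↥H) : V) + (if true = true then x0 + (a0 : V) else 0) =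
          x0 + ((a0 + comb g m : ↥H) : V) := by
        rw [if_pos rfl, Submodule.coe_add]
        abel
      rw [h2]
      exact h1
  have hinj : ∀ n < 2 ^ 4, comb (Fin.snoc (fun i : Fin 3 => (g i : V)) (x0 + (a0 : V)) :
      Fin 4 → V) n = 0 → n = 0 := by
    intro n hn h0
    rw [hcomb] at h0
    by_cases hn8 : n < 8
    · rw [(hhi n hn8).2.2] at h0
      have h1 : comb g n = 0 := by
        apply Subtype.ext
        simpa using h0
      exact h.inj n hn8 0 (by norm_num) (by rw [h1, comb_zero])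
    · exfalso
      obtain ⟨m, hm, rfl⟩ : ∃ m < 8, n = 8 + m := ⟨n - 8, by norm_num at hn; omega, by omega⟩
      rw [(hhi m hm).2.1, if_pos rfl, (hhi m hm).1] at h0
      apply hx0
      have h1 : x0 = ((comb g m : ↥H) : V) + (a0 : V) := by
        have h2 : x0 = ((comb g m : ↥H) : V) + (x0 + (a0 : V)) + (((comb g m : ↥H) : V) +
            (a0 : V)) := by
          have h3 : ((comb g m : ↥H) : V) + (x0 + (a0 : V)) + (((comb g m : ↥H) : V) +
            (a0 : V)) = x0 + ((((comb g m : ↥H) : V) + ((comb g m : ↥H) : V)) +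
              ((a0 : V) + (a0 : V))) := by abel
          rw [h3, add_self_z2, add_self_z2, add_zero, add_zero]
        rw [h0, zero_add] at h2
        exact h2
      rw [h1]
      exact add_mem (comb g m).2 a0.2
  unfold tyChk at hchk
  rw [Bool.or_eq_true, Bool.or_eq_true, Bool.or_eq_true] at hchk
  rcases hchk with ((hchk | hchk) | hchk) | hchk
  · exfalso
    apply hK5
    rw [List.any_eq_true] at hchk
    obtain ⟨⟨M, s0, s1, s2, s3⟩, hf, hM1⟩ := hchk
    have h1 := List.all_eq_true.1 tyK5_ok _ hf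
    rw [Bool.and_eq_true] at h1
    refine hasK5_of_cert (Fin.snoc (fun i : Fin 3 => (g i : V)) (x0 + (a0 : V)) : Fin 4 → V) _ ⊥
      bot_le ?_ M ?_ [] s0 s1 s2 s3 h1.1
    · intro n hn h0
      exact hinj n hn ((mem_bot _).1 h0)
    · intro n hn
      rw [beq_iff_eq] at hM1
      simp only at hM1
      rw [← hM1, Nat.testBit_and, Bool.and_eq_true] at hn
      obtain ⟨h2, h3⟩ := hM n hn.1
      exact ⟨h2, fano_pres_of_mem h3⟩
  · exfalso
    rw [List.any_eq_true] at hchk
    obtain ⟨⟨M, l⟩, hf, hM1⟩ := hchk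
    have h1 := List.all_eq_true.1 tyK4_ok _ hf
    rw [Bool.and_eq_true, Bool.and_eq_true, Bool.and_eq_true, beq_iff_eq] at h1
    obtain ⟨⟨⟨h2, h3⟩, h4⟩, h5⟩ := h1
    rw [beq_iff_eq] at hM1
    simp only at hM1 h2 h3 h4 h5
    refine ty_k4 hK4 hinj (M := M) ?_ l h2 ?_ ?_ ?_
    · intro n _ hn
      rw [← hM1, Nat.testBit_and, Bool.and_eq_true] at hn
      exact (hM n hn.1).2
    · intro c hc
      have := List.all_eq_true.1 h3 c hc
      simpa using this
    · intro n hn h0
      rw [h2] at hn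
      have := List.all_eq_true.1 h4 n (List.mem_range.2 (by simpa using hn))
      simpa [h0] using this
    · intro n hn
      exact List.all_eq_true.1 h5 n hn
  · exact Or.inl (ty_one h hchk)
  · rw [Bool.and_eq_true] at hchk
    exact Or.inr ⟨ty_noass h hchk.1, ty_lpl h hchk.2⟩

end Pool.Agent.WW

end

section

/-!
Assembly of Case II and of the colouring for three colours.
-/

namespace Pool.Agent.WW

open Submodule Module

universe u

theorem a3Small : C3Small.{u} := c3Small claimR5 claimTwelve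
theorem a3Cross : C3Cross.{u} := c3Cross c3CovSum c3Sides c3Corner (c3SmallSide c3CovSum c3Sides)
theorem a3OneCtr : C3OneCtr.{u} := c3OneCtr c3QuadPi c3Six
theorem a3Plane (hT : C3Types.{u}) : C3Plane.{u} := c3Plane c3Quad hT a3OneCtr
theorem a3NoBadX (hT : C3Types.{u}) : C3NoBadX.{u} :=
  c3NoBadX c3Quad c3QuadPi hT a3OneCtr c3Sides a3Cross (a3Plane hT)
theorem a3Tau (hT : C3Types.{u}) : C3Tau.{u} :=
  c3Tau c3Quad c3QuadPi c3Sides a3Cross (a3Plane hT)
theorem a3Full : C3Full.{u} := c3Full claimRel claimSum claimLkSep cFill claimSepGe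
theorem a3ExtSep : C3ExtSep.{u} := c3ExtSep claimInv
theorem a3Piece : C3Piece.{u} := c3Piece claimSub
theorem a3SameLine : C3SameLine.{u} := c3SameLine a3ExtSep
theorem a3Peel : C3Peel.{u} :=
  c3Peel claimInv a3ExtSep c3LineSide c3Trace4 a3Piece a3SameLine
theorem a3Bound : C3Bound.{u} := c3Bound c3QuadPi a3Full a3Peel c3Sides
theorem a3CaseII (hT : C3Types.{u}) (hD : C3Deg.{u}) : C3CaseII.{u} :=
  c3CaseII hD c3QuadPi (a3NoBadX hT) (a3Tau hT) c3TriadType a3Bound
theorem a3ColGood : C3ColGood.{u} := c3ColGood claimExt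
theorem a3ColSep : C3ColSep.{u} := c3ColSep claimRel claimLkSep cFill cFillOne claimGlue
theorem a3Colour : C3Colour.{u} := c3Colour a3ColGood a3ColSep

end Pool.Agent.WW

end

section

/-!
Coordinates of the configuration with five spokes.
-/

namespace Pool.Agent.WW

open Submodule Module

variable {V : Type*} [AddCommGroup V] [Module (ZMod 2) V]

theorem dl5_cases : ∀ c ∈ dl5, c = 2 ∨ (∃ i < 10, c = cs5 i) ∨
    ∃ i < 10, c = cs5 i ^^^ cs5 (i + 1) := by decide +kernel

theorem cs5_mem : ∀ i < 10, cs5 i ∈ dl5 ∧ cs5 i ^^^ cs5 (i + 1) ∈ dl5 := by decide +kernel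

theorem crd5_exists [FiniteDimensional (ZMod 2) V] {E : Set V} {K Γ : Submodule (ZMod 2) V}
    {g h : V} {s : ℕ → V} (L : CoD E K Γ g h s 5) : ∃ b : Fin 7 → V, Crd5 E K Γ g h s b := by
  set b : Fin 7 → V := ![g, h, s 0, s 1, s 2, s 3, s 4] with hb
  have hspan : span (ZMod 2) ({g, h} ∪ Set.range s) ≤ K ⊔ span (ZMod 2) (Set.range b) := by
    have hm : ∀ i, b i ∈ K ⊔ span (ZMod 2) (Set.range b) := fun i =>
      mem_sup_right (subset_span ⟨i, rfl⟩)
    have hh : h ∈ K ⊔ span (ZMod 2) (Set.range b) := hm 1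
    rw [span_le]
    rintro y (hy | ⟨i, rfl⟩)
    · rcases hy with rfl | rfl
      · exact hm 0
      · exact hh
    · refine ht_periodic (Q := fun i => s i ∈ K ⊔ span (ZMod 2) (Set.range b))
        (show 0 < 5 by norm_num) (fun j hj => ?_) (fun j hj => ?_) i
      · interval_cases j
        · exact hm 2
        · exact hm 3
        · exact hm 4
        · exact hm 5
        · exact hm 6
      · have h1 : s (j + 5) = s j + h := L.tw j
        rw [h1]
        exact add_mem hj hh
  have hind : ∀ n < 2 ^ 7, comb b n ∈ K → n = 0 := by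
    apply ht_indep
    exact L.dim.trans (Submodule.finrank_mono (sup_le le_sup_left hspan))
  have cb : ∀ i : Fin 7, comb b (2 ^ (i : ℕ)) = b i := by
    intro i
    unfold comb
    rw [Finset.sum_eq_single i]
    · rw [Nat.testBit_two_pow_self]; simp
    · intro j _ hj
      rw [Nat.testBit_two_pow_of_ne (fun h => hj (Fin.ext h.symm))]; simp
    · simp
  have b1 : comb b 1 = g := cb 0
  have b2 : comb b 2 = h := cb 1
  have b4 : comb b 4 = s 0 := cb 2
  have b8 : comb b 8 = s 1 := cb 3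
  have b16 : comb b 16 = s 2 := cb 4
  have b32 : comb b 32 = s 3 := cb 5
  have b64 : comb b 64 = s 4 := cb 6
  have cx := comb_xor b
  have w5 : s 5 = s 0 + h := L.tw 0
  have w6 : s 6 = s 1 + h := L.tw 1
  have w7 : s 7 = s 2 + h := L.tw 2
  have w8 : s 8 = s 3 + h := L.tw 3
  have w9 : s 9 = s 4 + h := L.tw 4
  have w10 : s 10 = s 0 := by
    have : s 10 = s 5 + h := L.tw 5
    rw [this, w5, ht_add_add]
  have w11 : s 11 = s 1 := by
    have : s 11 = s 6 + h := L.tw 6
    rw [this, w6, ht_add_add]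
  have hcs : ∀ j < 12, comb b (cs5 j) = s j := by
    intro j hj
    interval_cases j
    · exact b4
    · exact b8
    · exact b16
    · exact b32
    · exact b64
    · change comb b 6 = s 5
      rw [w5, show (6 : ℕ) = 4 ^^^ 2 by decide, cx, b4, b2]
    · change comb b 10 = s 6
      rw [w6, show (10 : ℕ) = 8 ^^^ 2 by decide, cx, b8, b2]
    · change comb b 18 = s 7
      rw [w7, show (18 : ℕ) = 16 ^^^ 2 by decide, cx, b16, b2]
    · change comb b 34 = s 8
      rw [w8, show (34 : ℕ) = 32 ^^^ 2 by decide, cx, b32, b2]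
    · change comb b 66 = s 9
      rw [w9, show (66 : ℕ) = 64 ^^^ 2 by decide, cx, b64, b2]
    · change comb b 4 = s 10
      rw [w10, b4]
    · change comb b 8 = s 11
      rw [w11, b8]
  have per : ∀ i, s i = s (i % 10) ∧ s (i + 1) = s (i % 10 + 1) := by
    intro i
    have h1 := ht_period L.tw (i % 10) (i / 10)
    have h2 := ht_period L.tw (i % 10 + 1) (i / 10)
    have e1 : i % 10 + 2 * 5 * (i / 10) = i := Nat.mod_add_div i 10
    have e2 : i % 10 + 1 + 2 * 5 * (i / 10) = i + 1 := by omega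
    rw [e1] at h1
    rw [e2] at h2
    exact ⟨h1, h2⟩
  refine ⟨b, ⟨L.gen, hind, b1, b2, hcs, L.pg, ?_, ?_, L.p1⟩⟩
  · rintro v (rfl | ⟨i, rfl⟩ | ⟨i, rfl⟩)
    · exact ⟨2, by decide, b2.symm⟩
    · refine ⟨cs5 (i % 10), (cs5_mem _ (Nat.mod_lt _ (by norm_num))).1, ?_⟩
      rw [hcs _ (by omega)]
      exact (per i).1
    · refine ⟨cs5 (i % 10) ^^^ cs5 (i % 10 + 1), (cs5_mem _ (Nat.mod_lt _ (by norm_num))).2, ?_⟩
      rw [cx, hcs _ (by omega), hcs _ (by omega), (per i).1, (per i).2]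
  · intro c hc
    rcases dl5_cases c hc with rfl | ⟨i, hi, rfl⟩ | ⟨i, hi, rfl⟩
    · exact Or.inl b2
    · exact Or.inr (Or.inl ⟨i, hcs i (by omega)⟩)
    · exact Or.inr (Or.inr ⟨i, by rw [cx, hcs i (by omega), hcs (i + 1) (by omega)]⟩)

end Pool.Agent.WW

end

section

/-!
Good sets of rank five with a `K4` plane: soundness of the table.
-/

namespace Pool.Agent.WW

open Submodule Module

universe u

variable {V : Type u} [AddCommGroup V] [Module (ZMod 2) V]

open Classical in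
/-- the mask of the codes below `2 ^ i` in a set -/
noncomputable def sm5 (b : Fin 5 → V) (S : Set V) (i : ℕ) : ℕ :=
  mask ((List.range 32).filter fun n => decide (n < 2 ^ i ∧ comb b n ∈ S))

theorem sm5_bit {b : Fin 5 → V} {S : Set V} {i n : ℕ} :
    (sm5 b S i).testBit n = true ↔ n < 32 ∧ n < 2 ^ i ∧ comb b n ∈ S := by
  unfold sm5
  rw [testBit_mask, List.mem_filter, List.mem_range]
  simp

theorem trs5_bit {c m n : ℕ} : (trs5 c m).testBit n = true ↔ n < 32 ∧ m.testBit (n ^^^ c) = true := by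
  unfold trs5
  rw [testBit_mask, List.mem_filter, List.mem_range]

theorem k5_xor : ∀ i < 5, ∀ c < 32, ∀ n < 32, 2 ^ i ≤ c → c < 2 ^ (i + 1) → 2 ^ i ≤ n →
    n < 2 ^ (i + 1) → n ^^^ c < 2 ^ i := by
  intro i hi c hc n hn h1 h2 h3 h4
  have h : ∀ i : Fin 5, ∀ c n : Fin 32, 2 ^ (i : ℕ) ≤ (c : ℕ) → (c : ℕ) < 2 ^ ((i : ℕ) + 1) →
    2 ^ (i : ℕ) ≤ (n : ℕ) → (n : ℕ) < 2 ^ ((i : ℕ) + 1) → (n : ℕ) ^^^ (c : ℕ) < 2 ^ (i : ℕ) := by
    decide +kernel
  exact h ⟨i, hi⟩ ⟨c, hc⟩ ⟨n, hn⟩ h1 h2 h3 h4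

theorem k5_xor2 : ∀ i < 5, ∀ c < 32, ∀ n < 32, 2 ^ i ≤ c → c < 2 ^ (i + 1) → n ^^^ c < 2 ^ i →
    n < 2 ^ (i + 1) := by
  intro i hi c hc n hn h1 h2 h3
  have h : ∀ i : Fin 5, ∀ c n : Fin 32, 2 ^ (i : ℕ) ≤ (c : ℕ) → (c : ℕ) < 2 ^ ((i : ℕ) + 1) →
    (n : ℕ) ^^^ (c : ℕ) < 2 ^ (i : ℕ) → (n : ℕ) < 2 ^ ((i : ℕ) + 1) := by
    decide +kernel
  exact h ⟨i, hi⟩ ⟨c, hc⟩ ⟨n, hn⟩ h1 h2 h3

theorem ksStep_sound {b : Fin 5 → V} {X : Submodule (ZMod 2) V} {i : ℕ} (hi : i < 5)
    {L L' : List ℕ} (h : ksStep (2 ^ i) L L' = true) (hm : sm5 b (X : Set V) i ∈ L) :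
    sm5 b (X : Set V) (i + 1) ∈ L' := by
  unfold ksStep at h
  rw [List.all_eq_true] at h
  have h1 := h _ hm
  rw [Bool.and_eq_true, List.all_eq_true] at h1
  obtain ⟨h1, h2⟩ := h1
  by_cases hc : ∃ c < 32, 2 ^ i ≤ c ∧ c < 2 ^ (i + 1) ∧ comb b c ∈ X
  · obtain ⟨c, hc32, hc1, hc2, hcX⟩ := hc
    have h3 := h2 c (List.mem_range.2 hc32)
    rw [Bool.or_eq_true, Bool.or_eq_true, decide_eq_true_eq, decide_eq_true_eq,
      List.contains_iff_mem] at h3
    have h4 : sm5 b (X : Set V) i ||| trs5 c (sm5 b (X : Set V) i) ∈ L' := by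
      rcases h3 with (h3 | h3) | h3
      · omega
      · rw [pow_succ] at hc2; omega
      · exact h3
    have h5 : sm5 b (X : Set V) (i + 1) = sm5 b (X : Set V) i ||| trs5 c (sm5 b (X : Set V) i) := by
      apply Nat.eq_of_testBit_eq
      intro n
      rw [Bool.eq_iff_iff, Nat.testBit_or, Bool.or_eq_true, trs5_bit, sm5_bit, sm5_bit, sm5_bit]
      constructor
      · rintro ⟨a1, a2, a3⟩
        by_cases h6 : n < 2 ^ i
        · exact Or.inl ⟨a1, h6, a3⟩
        · right
          have h7 := k5_xor i hi c hc32 n a1 hc1 hc2 (by omega) a2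
          refine ⟨a1, ?_, h7, ?_⟩
          · exact lt_of_lt_of_le h7 (Nat.pow_le_pow_right (by norm_num) (by omega : i ≤ 5))
          · rw [comb_xor]
            exact add_mem a3 hcX
      · rintro (⟨a1, a2, a3⟩ | ⟨a1, -, a3, a4⟩)
        · exact ⟨a1, a2.trans (Nat.pow_lt_pow_right (by norm_num) (by omega)), a3⟩
        · refine ⟨a1, k5_xor2 i hi c hc32 n a1 hc1 hc2 a3, ?_⟩
          have h8 := add_mem (s := X) a4 hcX
          rw [← comb_xor, Nat.xor_assoc, Nat.xor_self, Nat.xor_zero] at h8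
          exact h8
    rw [h5]
    exact h4
  · have h5 : sm5 b (X : Set V) (i + 1) = sm5 b (X : Set V) i := by
      apply Nat.eq_of_testBit_eq
      intro n
      rw [Bool.eq_iff_iff, sm5_bit, sm5_bit]
      constructor
      · rintro ⟨a1, a2, a3⟩
        refine ⟨a1, ?_, a3⟩
        by_contra h6
        exact hc ⟨n, a1, by omega, a2, a3⟩
      · rintro ⟨a1, a2, a3⟩
        exact ⟨a1, a2.trans (Nat.pow_lt_pow_right (by norm_num) (by omega)), a3⟩
    rw [h5]
    exact List.contains_iff_mem.1 h1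

theorem sm5_mem (b : Fin 5 → V) (X : Submodule (ZMod 2) V) : sm5 b (X : Set V) 5 ∈ sub5 := by
  have h := ks_ok
  simp only [Bool.and_eq_true] at h
  obtain ⟨⟨⟨⟨h0, h1⟩, h2⟩, h3⟩, h4⟩ := h
  have m0 : sm5 b (X : Set V) 0 ∈ ks0 := by
    have : sm5 b (X : Set V) 0 = 1 := by
      apply Nat.eq_of_testBit_eq
      intro n
      rw [Bool.eq_iff_iff, sm5_bit, Nat.testBit_one_eq_true_iff_self_eq_zero]
      constructor
      · rintro ⟨-, a, -⟩
        simpa using a
      · rintro rfl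
        exact ⟨by norm_num, by norm_num, by rw [comb_zero]; exact X.zero_mem⟩
    rw [this]
    decide
  have m1 := ksStep_sound (by norm_num) (i := 0) h0 m0
  have m2 := ksStep_sound (by norm_num) (i := 1) h1 m1
  have m3 := ksStep_sound (by norm_num) (i := 2) h2 m2
  have m4 := ksStep_sound (by norm_num) (i := 3) h3 m3
  exact ksStep_sound (by norm_num) (i := 4) h4 m4

/-- number of bits and number of elements -/
theorem pop_eq [FiniteDimensional (ZMod 2) V] (hV : finrank (ZMod 2) V = 5) {b : Fin 5 → V}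
    (hb : LinearIndependent (ZMod 2) b) {S : Set V} {N : ℕ}
    (hN : ∀ n < 32, N.testBit n = true ↔ comb b n ∈ S) : popM N = S.ncard := by
  classical
  have : Finite V := Module.finite_of_finite (ZMod 2)
  have h := (base_count hV b hb (S.toFinite.toFinset) N (by
    intro n hn
    rw [hN n hn]
    simp)).1
  rw [h, Set.ncard_eq_toFinset_card]

theorem pop_sub [FiniteDimensional (ZMod 2) V] (hV : finrank (ZMod 2) V = 5) {b : Fin 5 → V}
    (hb : LinearIndependent (ZMod 2) b) {X : Submodule (ZMod 2) V} {N : ℕ}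
    (hN : ∀ n < 32, N.testBit n = true ↔ comb b n ∈ X) : popM N = 2 ^ finrank (ZMod 2) X := by
  have : Finite V := Module.finite_of_finite (ZMod 2)
  have : Fintype X := Fintype.ofFinite X
  rw [pop_eq hV hb (S := (X : Set V)) hN, ← Nat.card_coe_set_eq]
  have h := Module.card_eq_pow_finrank (K := ZMod 2) (V := X)
  rw [ZMod.card] at h
  rw [← h, ← Nat.card_eq_fintype_card]
  rfl

theorem sm5_iff {b : Fin 5 → V} {S : Set V} {n : ℕ} (hn : n < 32) :
    (sm5 b S 5).testBit n = true ↔ comb b n ∈ S := by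
  rw [sm5_bit]
  exact ⟨fun h => h.2.2, fun h => ⟨hn, hn, h⟩⟩

theorem sm5_lt {b : Fin 5 → V} {S : Set V} {n : ℕ} (h : (sm5 b S 5).testBit n = true) : n < 32 :=
  (sm5_bit.1 h).1

theorem sm5_prp [FiniteDimensional (ZMod 2) V] (hV : finrank (ZMod 2) V = 5) {b : Fin 5 → V}
    (hb : LinearIndependent (ZMod 2) b) {X : Submodule (ZMod 2) V} {g : ℕ} (hg : g < 32)
    (hX : X ≠ ⊤) (hgX : comb b g ∈ X) : sm5 b (X : Set V) 5 ∈ prp g := by
  unfold prp
  rw [List.mem_filter, Bool.and_eq_true, bne_iff_ne]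
  refine ⟨sm5_mem b X, (sm5_iff hg).2 hgX, ?_⟩
  intro h
  apply hX
  rw [eq_top_iff]
  rintro v -
  obtain ⟨n, hn, rfl⟩ := base_surj hV b hb v
  have h1 : (sm5 b (X : Set V) 5).testBit n = true := by
    rw [h]
    revert n
    decide +kernel
  exact (sm5_iff hn).1 h1

theorem ctrM_sound [FiniteDimensional (ZMod 2) V] (hV : finrank (ZMod 2) V = 5) {b : Fin 5 → V}
    (hb : LinearIndependent (ZMod 2) b) {W : Set V} {M g : ℕ}
    (hM : ∀ n < 32, M.testBit n = true ↔ comb b n ∈ W) (hM32 : ∀ n, M.testBit n = true → n < 32)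
    (hg : g < 32) (h : ctrM M g = true) : Ctr W (comb b g) := by
  intro A B hc hgAB
  unfold ctrM at h
  rw [List.all_eq_true] at h
  have h1 := h _ (sm5_prp hV hb hg hc.1 hgAB.1)
  rw [List.all_eq_true] at h1
  have h2 := h1 _ (sm5_prp hV hb hg hc.2.1 hgAB.2)
  rw [Bool.or_eq_true, bne_iff_ne, decide_eq_true_eq] at h2
  have h3 : (M &&& sm5 b (A : Set V) 5) ||| (M &&& sm5 b (B : Set V) 5) = M := by
    apply Nat.eq_of_testBit_eq
    intro n
    rw [Bool.eq_iff_iff, Nat.testBit_or, Nat.testBit_and, Nat.testBit_and, Bool.or_eq_true,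
      Bool.and_eq_true, Bool.and_eq_true]
    constructor
    · rintro (⟨a, -⟩ | ⟨a, -⟩) <;> exact a
    · intro a
      have hn := hM32 n a
      rcases hc.2.2 _ ((hM n hn).1 a) with h4 | h4
      · exact Or.inl ⟨a, (sm5_iff hn).2 h4⟩
      · exact Or.inr ⟨a, (sm5_iff hn).2 h4⟩
  have h4 := h2.resolve_left (fun h => h h3)
  rw [pop_sub hV hb (X := A ⊓ B) (by
    intro n hn
    rw [Nat.testBit_and, Bool.and_eq_true, sm5_iff hn, sm5_iff hn]
    rfl)] at h4
  by_contra h5
  have h6 : finrank (ZMod 2) ↥(A ⊓ B) ≤ 3 := by omega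
  have h7 : 2 ^ finrank (ZMod 2) ↥(A ⊓ B) ≤ 2 ^ 3 := Nat.pow_le_pow_right (by norm_num) h6
  omega

/-- the hyperplanes of the table -/
theorem hyp5_sound [FiniteDimensional (ZMod 2) V] (hV : finrank (ZMod 2) V = 5) {b : Fin 5 → V}
    (hb : LinearIndependent (ZMod 2) b) {Z : ℕ} (hZ : Z ∈ hyp5) :
    ∃ Y : Submodule (ZMod 2) V, ∀ n < 32, Z.testBit n = true ↔ comb b n ∈ Y := by
  rw [hyp5_ok, List.mem_map] at hZ
  obtain ⟨f, -, rfl⟩ := hZ
  obtain ⟨φ, hφ⟩ := base_functional hV b hb f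
  refine ⟨LinearMap.ker φ, fun n hn => ?_⟩
  rw [testBit_mask, List.mem_filter, List.mem_range, LinearMap.mem_ker, hφ]
  cases hp : parC (f &&& n)
  · simp [hn]
  · simp

/-- inclusion of masks -/
theorem and_eq_imp {S Z n : ℕ} (h : S &&& Z = S) (hn : S.testBit n = true) : Z.testBit n = true := by
  rw [← h, Nat.testBit_and, Bool.and_eq_true] at hn
  exact hn.2

theorem trM_sound [FiniteDimensional (ZMod 2) V] (hV : finrank (ZMod 2) V = 5) {b : Fin 5 → V}
    (hb : LinearIndependent (ZMod 2) b) {W : Set V} {M g x XM : ℕ} {Γ : Submodule (ZMod 2) V}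
    (hM : ∀ n < 32, M.testBit n = true ↔ comb b n ∈ W) (hM32 : ∀ n, M.testBit n = true → n < 32)
    (hg : g < 32) (hx : x < 32) (hxX : XM.testBit x = true)
    (h : trM M (sm5 b (Γ : Set V) 5) XM g = true) (Q R : Submodule (ZMod 2) V)
    (ht : Tr W Γ Q R (comb b g)) :
    3 ≤ finrank (ZMod 2) R ∧ (finrank (ZMod 2) R = 3 → (comb b x ∈ Q ∨ comb b x ∈ R) →
      (4 ≤ finrank (ZMod 2) Q → Q ≤ span (ZMod 2) {y : V | y ∈ W ∧ y ∉ Γ ∧ y ∉ R}) → False) := by
  obtain ⟨hQt, hgQ, hgR, hcov, ⟨x0, hx0W, hx0Γ, hx0Q⟩, hsp⟩ := ht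
  by_cases h4 : 4 ≤ finrank (ZMod 2) R
  · exact ⟨by omega, fun h => by omega⟩
  have hR3 : finrank (ZMod 2) R ≤ 3 := by omega
  have hRt : R ≠ ⊤ := by
    rintro rfl
    rw [finrank_top] at hR3
    omega
  set mQ := sm5 b (Q : Set V) 5 with hmQ
  set mR := sm5 b (R : Set V) 5 with hmR
  set mG := sm5 b (Γ : Set V) 5 with hmG
  have bQ : ∀ n < 32, mQ.testBit n = true ↔ comb b n ∈ Q := fun n hn => sm5_iff hn
  have bR : ∀ n < 32, mR.testBit n = true ↔ comb b n ∈ R := fun n hn => sm5_iff hn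
  have bG : ∀ n < 32, mG.testBit n = true ↔ comb b n ∈ Γ := fun n hn => sm5_iff hn
  have pR : popM mR = 2 ^ finrank (ZMod 2) R := pop_sub hV hb bR
  have pQ : popM mQ = 2 ^ finrank (ZMod 2) Q := pop_sub hV hb bQ
  unfold trM at h
  rw [List.all_eq_true] at h
  have h1 := h _ (sm5_prp hV hb hg hQt hgQ)
  rw [List.all_eq_true] at h1
  have h2 := h1 mR (by
    rw [List.mem_filter, decide_eq_true_eq]
    refine ⟨sm5_prp hV hb hg hRt hgR, ?_⟩
    rw [pR]
    have : 2 ^ finrank (ZMod 2) R ≤ 2 ^ 3 := Nat.pow_le_pow_right (by norm_num) hR3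
    omega)
  rw [← hmQ] at h2
  set I := M ^^^ (M &&& mG) with hI
  have bI : ∀ n, I.testBit n = true ↔ n < 32 ∧ comb b n ∈ W ∧ comb b n ∉ Γ := by
    intro n
    rw [hI, Nat.testBit_xor, Nat.testBit_and]
    by_cases hMn : M.testBit n = true
    · have hn := hM32 n hMn
      rw [hMn, Bool.true_and, Bool.true_xor, Bool.not_eq_true', ← Bool.not_eq_true, bG n hn]
      exact ⟨fun h => ⟨hn, (hM n hn).1 hMn, h⟩, fun h => h.2.2⟩
    · have hMn' : M.testBit n = false := by
        rw [Bool.not_eq_true] at hMn; exact hMn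
      rw [hMn', Bool.false_and, Bool.false_xor]
      constructor
      · intro h; exact absurd h (by simp)
      · rintro ⟨h, h', -⟩
        exact absurd ((hM n h).2 h') hMn
  rw [Bool.or_eq_true, Bool.or_eq_true, Bool.or_eq_true, bne_iff_ne, beq_iff_eq] at h2
  have key : popM mR = 8 ∧ ((XM &&& (mQ ||| mR)) = 0 ∨
      (16 ≤ popM mQ ∧ ∃ Z ∈ hyp5, (I ^^^ (I &&& mR)) &&& Z = I ^^^ (I &&& mR) ∧
        mQ &&& Z ≠ mQ)) := by
    rcases h2 with ((h2 | h2) | h2) | h2
    · exfalso
      apply h2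
      apply Nat.eq_of_testBit_eq
      intro n
      rw [Bool.eq_iff_iff, Nat.testBit_or, Nat.testBit_and, Nat.testBit_and, Bool.or_eq_true,
        Bool.and_eq_true, Bool.and_eq_true]
      constructor
      · rintro (⟨a, -⟩ | ⟨a, -⟩) <;> exact a
      · intro a
        obtain ⟨hn, a1, a2⟩ := (bI n).1 a
        rcases hcov _ a1 a2 with a3 | a3
        · exact Or.inl ⟨a, (bQ n hn).2 a3⟩
        · exact Or.inr ⟨a, (bR n hn).2 a3⟩
    · exfalso
      obtain ⟨n, hn, rfl⟩ := base_surj hV b hb x0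
      exact hx0Q ((bQ n hn).1 (and_eq_imp h2 ((bI n).2 ⟨hn, hx0W, hx0Γ⟩)))
    · exfalso
      rw [List.any_eq_true] at h2
      obtain ⟨Z, hZ, h2⟩ := h2
      rw [Bool.and_eq_true, beq_iff_eq, Bool.not_eq_true'] at h2
      obtain ⟨h2, h3⟩ := h2
      obtain ⟨Y, hY⟩ := hyp5_sound hV hb hZ
      have h5 : span (ZMod 2) {x : V | x ∈ W ∧ x ∉ Γ ∧ x ∉ Q} ⊔ Γ ≤ Y := by
        refine sup_le (span_le.2 ?_) ?_
        · rintro y ⟨y1, y2, y3⟩
          obtain ⟨n, hn, rfl⟩ := base_surj hV b hb y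
          refine (hY n hn).1 (and_eq_imp h2 ?_)
          rw [Nat.testBit_or, Nat.testBit_xor, Nat.testBit_and, (bI n).2 ⟨hn, y1, y2⟩]
          have : mQ.testBit n = false := by
            rw [← Bool.not_eq_true, bQ n hn]; exact y3
          rw [this]
          rfl
        · intro y hy
          obtain ⟨n, hn, rfl⟩ := base_surj hV b hb y
          refine (hY n hn).1 (and_eq_imp h2 ?_)
          rw [Nat.testBit_or, (bG n hn).2 hy, Bool.or_true]
      have h6 := (hY g hg).2 (h5 hsp)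
      rw [h3] at h6
      exact absurd h6 (by simp)
    · rw [Bool.and_eq_true, beq_iff_eq, Bool.or_eq_true, beq_iff_eq, Bool.and_eq_true,
        decide_eq_true_eq, List.any_eq_true] at h2
      refine ⟨h2.1, h2.2.imp id ?_⟩
      rintro ⟨a1, Z, hZ, a2⟩
      rw [Bool.and_eq_true, beq_iff_eq, bne_iff_ne] at a2
      exact ⟨a1, Z, hZ, a2⟩
  obtain ⟨k1, k2⟩ := key
  have hR : finrank (ZMod 2) R = 3 := by
    rw [pR] at k1
    exact Nat.pow_right_injective (le_refl 2) (by simpa using k1 : 2 ^ finrank (ZMod 2) R = 2 ^ 3)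
  refine ⟨by omega, fun _ hxQR hsub => ?_⟩
  rcases k2 with k2 | ⟨k2, Z, hZ, k3, k4⟩
  · have h7 : (XM &&& (mQ ||| mR)).testBit x = true := by
      rw [Nat.testBit_and, Nat.testBit_or, hxX, Bool.true_and, Bool.or_eq_true, bQ x hx, bR x hx]
      exact hxQR
    rw [k2] at h7
    simp at h7
  · have h8 : 4 ≤ finrank (ZMod 2) Q := by
      by_contra h9
      have h10 : 2 ^ finrank (ZMod 2) Q ≤ 2 ^ 3 := Nat.pow_le_pow_right (by norm_num) (by omega)
      rw [← pQ] at h10
      omega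
    obtain ⟨Y, hY⟩ := hyp5_sound hV hb hZ
    have h9 : span (ZMod 2) {y : V | y ∈ W ∧ y ∉ Γ ∧ y ∉ R} ≤ Y := by
      refine span_le.2 ?_
      rintro y ⟨y1, y2, y3⟩
      obtain ⟨n, hn, rfl⟩ := base_surj hV b hb y
      refine (hY n hn).1 (and_eq_imp k3 ?_)
      rw [Nat.testBit_xor, Nat.testBit_and, (bI n).2 ⟨hn, y1, y2⟩]
      have : mR.testBit n = false := by
        rw [← Bool.not_eq_true, bR n hn]; exact y3
      rw [this]
      rfl
    apply k4
    apply Nat.eq_of_testBit_eq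
    intro n
    rw [Bool.eq_iff_iff, Nat.testBit_and, Bool.and_eq_true]
    constructor
    · exact fun a => a.1
    · intro a
      have hn := sm5_lt a
      exact ⟨a, (hY n hn).2 (h9 (hsub h8 ((bQ n hn).1 a)))⟩

theorem tabK5 : TabK5.{u} := by
  intro V _ _ _ W hV hG hK
  obtain ⟨M, hML, b, hb, hM⟩ := claimR5 r5L r5_closed V W hV hG.zero hG.span hG.free
  have hM32 : ∀ n, M.testBit n = true → n < 32 := by
    intro n hn
    by_contra h
    have h1 := (r5_closed.2 M hML).1
    have h2 : 2 ^ n ≤ M := Nat.ge_two_pow_of_testBit hn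
    have h3 : 2 ^ 32 ≤ 2 ^ n := Nat.pow_le_pow_right (by norm_num) (by omega)
    omega
  have hS := ((good_iff_sepGe W).1 hG).2.2.1
  have hpl : ∀ Γ : Submodule (ZMod 2) V, finrank (ZMod 2) Γ = 3 →
      popM (sm5 b (Γ : Set V) 5) = 8 := by
    intro Γ h
    rw [pop_sub hV hb (X := Γ) (fun n hn => sm5_iff hn), h]
    norm_num
  have hand : ∀ Γ : Submodule (ZMod 2) V, popM (M &&& sm5 b (Γ : Set V) 5) =
      (W ∩ (Γ : Set V)).ncard := by
    intro Γ
    apply pop_eq hV hb
    intro n hn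
    rw [Nat.testBit_and, Bool.and_eq_true, hM n hn, sm5_iff hn]
    rfl
  have hc := List.all_eq_true.1 k5_cases M hML
  rw [Bool.or_eq_true, Bool.or_eq_true, List.contains_iff_mem, List.contains_iff_mem,
    List.any_eq_true] at hc
  rcases hc with (hc | hc) | ⟨e, he, hc⟩
  · have h1 := List.all_eq_true.1 k5T_all M hc
    rw [Bool.and_eq_true, decide_eq_true_eq, List.all_eq_true] at h1
    obtain ⟨h1, h2⟩ := h1
    refine ⟨by rw [← pop_eq hV hb hM]; exact h1, ?_⟩
    intro Γ x hP hxW hxΓ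
    have h3 := h2 _ (sm5_mem b Γ)
    rw [Bool.or_eq_true, Bool.or_eq_true, bne_iff_ne, decide_eq_true_eq, hpl Γ hP.1, hand Γ,
      List.any_eq_true] at h3
    have h3' := (h3.resolve_left (by
      rintro (h3 | h3)
      · exact h3 rfl
      · exact absurd hP.2 (by omega)))
    clear h3
    obtain ⟨e, he, h3⟩ := h3'
    rw [Bool.and_eq_true, Bool.and_eq_true, beq_iff_eq, beq_iff_eq, List.all_eq_true] at h3
    obtain ⟨⟨e1, e2⟩, h4⟩ := h3
    obtain ⟨n, hn, rfl⟩ := base_surj hV b hb x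
    have h5 := h4 n (List.mem_range.2 hn)
    rw [Bool.or_eq_true, Bool.not_eq_true', List.any_eq_true] at h5
    have h6 : (M &&& sm5 b (Γ : Set V) 5).testBit n = true := by
      rw [Nat.testBit_and, Bool.and_eq_true, hM n hn, sm5_iff hn]
      exact ⟨hxW, hxΓ⟩
    rw [h6] at h5
    obtain ⟨p, hp, h7⟩ := h5.resolve_left (by simp)
    have h8 := List.all_eq_true.1 k5T_ok e he
    unfold k5Ent at h8
    rw [List.all_eq_true] at h8
    have h9 := h8 p hp
    rw [e1, e2, Bool.and_eq_true, Bool.and_eq_true, Bool.and_eq_true, Bool.not_eq_true'] at h9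
    obtain ⟨⟨⟨a1, a2⟩, a3⟩, a4⟩ := h9
    have hp32 := hM32 _ a1
    refine ⟨comb b p.1, (hM _ hp32).1 a1, ?_, ctrM_sound hV hb hM hM32 hp32 a3, ?_⟩
    · intro h
      rw [(sm5_iff hp32).2 h] at a2
      exact absurd a2 (by simp)
    · intro Q R ht
      exact trM_sound hV hb hM hM32 hp32 hn h7 a4 Q R ht
  · exfalso
    apply hK
    intro U hU
    have h1 := List.all_eq_true.1 k5Free_ok M hc
    rw [List.all_eq_true] at h1
    have h3 := h1 _ (sm5_mem b U)
    rw [Bool.or_eq_true, bne_iff_ne, decide_eq_true_eq, hpl U hU, hand U] at h3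
    rcases h3 with h3 | h3
    · exact absurd rfl h3
    · omega
  · exfalso
    have h1 := nvChk_sound (List.all_eq_true.1 k5NV_ok e he)
    rw [beq_iff_eq] at hc
    rw [hc] at h1
    exact base_nonvc hV b hb W M hM h1 hS

end Pool.Agent.WW

end
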