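import Pool.Agent.Work.MP_a8f287_co.Bd.T35

/-! Kernel checks, compiled separately. -/

section

/-!
Certificates for TabBranch, type B.
-/

namespace Pool.Agent.WW

theorem brB_all (β : ℕ) (hβ : β < 32) : ∀ p ∈ List.range 7 ×ˢ List.range 7, CertM (mask (brCodesB β p)) := by
  interval_cases β
  · exact chkL_sound brB_0
  · exact chkL_sound brB_1
  · exact chkL_sound brB_2
  · exact chkL_sound brB_3
  · exact chkL_sound brB_4
  · exact chkL_sound brB_5
  · exact chkL_sound brB_6
  · exact chkL_sound brB_7
  · exact chkL_sound brB_8
  · exact chkL_sound brB_9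
  · exact chkL_sound brB_10
  · exact chkL_sound brB_11
  · exact chkL_sound brB_12
  · exact chkL_sound brB_13
  · exact chkL_sound brB_14
  · exact chkL_sound brB_15
  · exact chkL_sound brB_16
  · exact chkL_sound brB_17
  · exact chkL_sound brB_18
  · exact chkL_sound brB_19
  · exact chkL_sound brB_20
  · exact chkL_sound brB_21
  · exact chkL_sound brB_22
  · exact chkL_sound brB_23
  · exact chkL_sound brB_24
  · exact chkL_sound brB_25
  · exact chkL_sound brB_26
  · exact chkL_sound brB_27
  · exact chkL_sound brB_28
  · exact chkL_sound brB_29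
  · exact chkL_sound brB_30
  · exact chkL_sound brB_31

end Pool.Agent.WW

end
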