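import Pool.Agent.Work.MP_a8f287_co.Bd.T02
import Pool.Agent.Work.MP_a8f287_co.Bd.T03
import Pool.Agent.Work.MP_a8f287_co.Bd.T04

/-! Part of the former bundles, compiled separately. -/

section

namespace Pool.Agent.WW

theorem tabBranch : TabBranch := by
  intro β hβ t ht t' ht' g hg
  obtain ⟨i, hi, rfl⟩ := starReps_get t ht
  obtain ⟨j, hj, rfl⟩ := starReps_get t' ht'
  have hm : (i, j) ∈ List.range 7 ×ˢ List.range 7 :=
    List.mem_product.2 ⟨List.mem_range.2 hi, List.mem_range.2 hj⟩
  simp only [List.mem_cons, List.not_mem_nil, or_false] at hg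
  rcases hg with rfl | rfl
  · have h := brA_all β hβ (i, j) hm
    simp only [brCodesA] at h
    exact h
  · have h := brB_all β hβ (i, j) hm
    simp only [brCodesB] at h
    exact h

end Pool.Agent.WW

end
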