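import Pool.Agent.Work.MP_a8f287_co.Bd.B14
import Pool.Agent.Work.MP_a8f287_co.C4.Assembly
import Pool.Agent.Work.MP_a8f287_co.Bd.B07
import Pool.Agent.Work.MP_a8f287_co.Bd.B12
import Pool.Agent.Work.MP_a8f287_co.Bd.B15

/-! Bundle of small proof modules (one section per former module). -/

section

/-!
The bound `c(M;2) ≤ 4` for binary matroids without `M(K5)`-minor.
-/

namespace Pool.Agent.WW

universe u

/-- the critical exponent of a binary matroid without `M(K5)`-minor is at most four -/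
theorem crit_four {V : Type u} [AddCommGroup V] [Module (ZMod 2) V]
    [FiniteDimensional (ZMod 2) V] (E : Finset V) (h0 : (0 : V) ∉ E)
    (hfree : ¬ HasK5 (E : Set V)) :
    ∃ f : V →ₗ[ZMod 2] (Fin 4 → ZMod 2), ∀ v ∈ E, f v ≠ 0 :=
  crit_four_of claimFanoPiece E h0 hfree

end Pool.Agent.WW

end

section

/-!
L4 for five spokes.
-/

namespace Pool.Agent.WW

open Submodule Module

universe u

theorem kLBase : KLBase.{u} := by
  intro V _ _ _ E g h K Γ s L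
  obtain ⟨b, C⟩ := crd5_exists L
  have hS : {v | DPt h s v ∧ v ∈ Γ ∧ Pres E K (v + g)} ⊆ (Γ : Set V) := fun v hv => hv.2.1
  obtain ⟨x, ⟨dx, xΓ, px⟩, y, ⟨dy, yΓ, py⟩, z, ⟨dz, zΓ, pz⟩, hΓ, nxy, nxz, nyz, nxyz⟩ :=
    lb_triple L.KG hS L.p2 L.fr
  obtain ⟨cx, hcx, rfl⟩ := C.D1 x dx
  obtain ⟨cy, hcy, rfl⟩ := C.D1 y dy
  obtain ⟨cz, hcz, rfl⟩ := C.D1 z dz
  refine sorted_triple 128 (fun a c d => a ∈ dl5 → c ∈ dl5 → d ∈ dl5 →
    Γ = K ⊔ span (ZMod 2) {comb b a, comb b c, comb b d} →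
    Pres E K (comb b a + g) → Pres E K (comb b c + g) → Pres E K (comb b d + g) →
    HasK5 E ∨ ∃ i, ShapeAt E K Γ g h s i) ?_ ?_ ?_ cx (dl5_lt _ hcx).1 cy (dl5_lt _ hcy).1 cz
    (dl5_lt _ hcz).1 (dl5_lt _ hcx).2.2 (dl5_lt _ hcy).2.2 (dl5_lt _ hcz).2.2 ?_ ?_ ?_ ?_
    hcx hcy hcz hΓ px py pz
  · intro a c d H ha hc hd hG pa pc pd
    refine H hc ha hd ?_ pc pa pd
    rw [hG, Set.insert_comm]
  · intro a c d H ha hc hd hG pa pc pd
    refine H ha hd hc ?_ pa pd pc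
    rw [hG, Set.pair_comm]
  · intro a _ c _ d _ _ hac hcd hne ha hc hd hG pa pc pd
    exact crd5_triple C ha hc hd hac hcd hne hG pa pc pd
  · rintro rfl
    exact nxy (by rw [mf_add_self]; exact K.zero_mem)
  · rintro rfl
    exact nxz (by rw [mf_add_self]; exact K.zero_mem)
  · rintro rfl
    exact nyz (by rw [mf_add_self]; exact K.zero_mem)
  · intro hz
    refine nxyz ?_
    rw [← hz, comb_xor, mf_add_self]
    exact K.zero_mem

end Pool.Agent.WW

end
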