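import Pool.Agent.Work.MP_a8f287_co.Bd.B06
import Pool.Agent.Work.MP_a8f287_co.Bd.T38

/-! Part of the former bundles, compiled separately. -/

section

/-!
T9: the inequality for `tri` in rank four, by a kernel check over bit masks.
-/

namespace Pool.Agent.WW

open Submodule Module

universe u

theorem tf_check1 : tfGo tfP4 tfFin1 [3, 5, 6, 7, 9, 10, 11, 12, 13, 14, 15] 278 = true := by
  have a1 := tf_c1
  have a2 := tf_c2
  have a3 := tf_c3
  have a4 := tf_c4
  have a5 := tf_c5
  have b1 : tfGo tfP4 tfFin1 [6, 7, 9, 10, 11, 12, 13, 14, 15] 278 = true := by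
    rw [tfGo, a1, Bool.true_and]
    exact Bool.or_eq_true_iff.2 (Or.inr a2)
  have b2 : tfGo tfP4 tfFin1 [5, 6, 7, 9, 10, 11, 12, 13, 14, 15] 278 = true := by
    rw [tfGo, b1, Bool.true_and]
    exact Bool.or_eq_true_iff.2 (Or.inr a3)
  have b3 : tfGo tfP4 tfFin1 [5, 6, 7, 9, 10, 11, 12, 13, 14, 15] 286 = true := by
    rw [tfGo, a4, Bool.true_and]
    exact Bool.or_eq_true_iff.2 (Or.inr a5)
  rw [tfGo, b2, Bool.true_and]
  exact Bool.or_eq_true_iff.2 (Or.inr b3)

theorem tfP4_nodup : ∀ h ∈ tfP4, (tfSp h).Nodup := by decide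

theorem tfP4_prop : ∀ h ∈ tfP4, h.1 < 2 ^ 4 ∧ h.2.1 < 2 ^ 4 ∧ h.2.2 < 2 ^ 4 ∧
    tfInd h = true := by decide

theorem claimTriFour : ClaimTriFour.{u} := by
  intro V _ _ _ _ Y h0 hK hr
  -- planes
  have hpl : ∀ b : Fin 4 → V, LinearIndependent (ZMod 2) b → ∀ h ∈ tfP4,
      ((tfN b Y).filter (fun n => n ∈ tfSp h)).card ≤ 5 := by
    intro b hb h hh
    obtain ⟨h1, h2, h3, h4⟩ := tfP4_prop h hh
    exact tf_plane hb hK h1 h2 h3 h4
  have hlt : ∀ b : Fin 4 → V, ∀ n ∈ tfN b Y, n < 16 := by
    intro b n hn
    have := (mem_tfN.1 hn).1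
    simpa using this
  have hcode : ∀ b : Fin 4 → V, LinearIndependent (ZMod 2) b →
      (∀ i, b i ∈ span (ZMod 2) (Y : Set V)) → ∀ y ∈ Y, ∃ n < 2 ^ 4, comb b n = y := by
    intro b hb hbY y hy
    exact tf_surj hb (span (ZMod 2) (Y : Set V)) hbY hr y (subset_span hy)
  constructor
  · obtain ⟨b, hbY, hb⟩ := tf_basis Y hr
    have hc := hcode b hb (fun i => subset_span (hbY i))
    have hb1 : comb b 1 = b 0 := by simp [comb, Fin.sum_univ_four, Nat.testBit]
    have hb2 : comb b 2 = b 1 := by simp [comb, Fin.sum_univ_four, Nat.testBit]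
    have hb4 : comb b 4 = b 2 := by simp [comb, Fin.sum_univ_four, Nat.testBit]
    have hb8 : comb b 8 = b 3 := by simp [comb, Fin.sum_univ_four, Nat.testBit]
    obtain ⟨M, hM1, hM2⟩ := tfGo_sound tfP4_nodup (hpl b hb) _ _ tf_check1 (by
      intro n hn
      have hn' : n < 16 := by
        by_contra hge
        have : Nat.testBit 278 n = false := Nat.testBit_lt_two_pow
          (lt_of_lt_of_le (by norm_num : 278 < 2 ^ 16)
            (Nat.pow_le_pow_right (by norm_num) (by omega)))
        rw [this] at hn
        exact Bool.false_ne_true hn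
      have h5 : n = 1 ∨ n = 2 ∨ n = 4 ∨ n = 8 := by
        revert hn
        revert n
        decide
      rw [mem_tfN]
      rcases h5 with rfl | rfl | rfl | rfl
      · exact ⟨by norm_num, by rw [hb1]; exact hbY 0⟩
      · exact ⟨by norm_num, by rw [hb2]; exact hbY 1⟩
      · exact ⟨by norm_num, by rw [hb4]; exact hbY 2⟩
      · exact ⟨by norm_num, by rw [hb8]; exact hbY 3⟩) (by
      intro n hn
      have h1 := hlt b n hn
      have h2 : n ≠ 0 := by
        rintro rfl
        have := (mem_tfN.1 hn).2
        rw [comb_zero] at this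
        exact h0 this
      revert h1 h2
      clear hn
      revert n
      decide)
    rw [tfFin1, decide_eq_true_eq] at hM1
    rw [tf_card hb hc, tf_tri hb hc, tf_pop (hlt b) hM2, tf_triM (hlt b) hM2]
    exact hM1
  · intro Γ a b c hΓ habc hres h4
    -- points
    have hmem : ∀ x, x ∈ Y ∧ x ∈ Γ ↔ x = a ∨ x = b ∨ x = c ∨ x = a + b + c := by
      intro x
      rw [← mem_res, hres]
      simp
    have ha := (hmem a).2 (Or.inl rfl)
    have hb := (hmem b).2 (Or.inr (Or.inl rfl))
    have hc := (hmem c).2 (Or.inr (Or.inr (Or.inl rfl)))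
    have habc' := (hmem (a + b + c)).2 (Or.inr (Or.inr (Or.inr rfl)))
    obtain ⟨d, hdY, hdΓ⟩ : ∃ d ∈ Y, d ∉ Γ := by
      by_contra hne
      push Not at hne
      have : ((Y : Set V) \ (Γ : Set V)) = ∅ := by
        ext x
        simp only [Set.mem_sdiff, Finset.mem_coe, SetLike.mem_coe, Set.mem_empty_iff_false,
          iff_false, not_and, not_not]
        exact hne x
      rw [this, span_empty, finrank_bot] at h4
      exact absurd h4 (by norm_num)
    have hli : LinearIndependent (ZMod 2) ![a, b, c, d] := by
      rw [Fintype.linearIndependent_iff]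
      intro g hg
      rw [Fin.sum_univ_four] at hg
      simp only [Matrix.cons_val_zero, Matrix.cons_val_one, Matrix.cons_val] at hg
      have hcases : ∀ x : ZMod 2, x = 0 ∨ x = 1 := by decide
      have hg3 : g 3 = 0 := by
        rcases hcases (g 3) with h | h
        · exact h
        · exfalso
          rw [h, one_smul] at hg
          apply hdΓ
          have : d = g 0 • a + g 1 • b + g 2 • c := by
            have h5 := congrArg (fun z => z + d) hg
            simp only [add_assoc, add_self_z2, add_zero, zero_add] at h5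
            rw [← h5, ← add_assoc]
          rw [this]
          exact add_mem (add_mem (Γ.smul_mem _ ha.2) (Γ.smul_mem _ hb.2)) (Γ.smul_mem _ hc.2)
      rw [hg3, zero_smul, add_zero] at hg
      have h5 := Fintype.linearIndependent_iff.mp habc ![g 0, g 1, g 2] (by
        rw [Fin.sum_univ_three]
        simpa using hg)
      intro i
      fin_cases i
      · simpa using h5 0
      · simpa using h5 1
      · simpa using h5 2
      · exact hg3
    set β : Fin 4 → V := ![a, b, c, d] with hβ
    have hcd := hcode β hli (by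
      intro i
      fin_cases i
      · exact subset_span ha.1
      · exact subset_span hb.1
      · exact subset_span hc.1
      · exact subset_span hdY)
    have hb1 : comb β 1 = a := by simp [comb, Fin.sum_univ_four, Nat.testBit, hβ]
    have hb2 : comb β 2 = b := by simp [comb, Fin.sum_univ_four, Nat.testBit, hβ]
    have hb4 : comb β 4 = c := by simp [comb, Fin.sum_univ_four, Nat.testBit, hβ]
    have hb8 : comb β 8 = d := by simp [comb, Fin.sum_univ_four, Nat.testBit, hβ]
    have hb7 : comb β 7 = a + b + c := by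
      have h5 : (7 : ℕ) = 1 ^^^ 2 ^^^ 4 := by decide
      rw [h5, comb_xor, comb_xor, hb1, hb2, hb4]
    have hlow : ∀ n < 8, comb β n ∈ Γ := by
      intro n hn
      have h5 : n ∈ tfSp (1, 2, 4) := by
        revert hn
        revert n
        decide
      have h6 := tf_mem_span β (1, 2, 4) h5
      have h7 : span (ZMod 2) (Set.range ![comb β 1, comb β 2, comb β 4]) ≤ Γ := by
        rw [span_le]
        rintro x ⟨i, rfl⟩
        fin_cases i
        · change comb β 1 ∈ Γ
          rw [hb1]; exact ha.2
        · change comb β 2 ∈ Γ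
          rw [hb2]; exact hb.2
        · change comb β 4 ∈ Γ
          rw [hb4]; exact hc.2
      exact h7 h6
    have hhigh : ∀ n, 8 ≤ n → n < 16 → comb β n ∉ Γ := by
      intro n h8 h16 hn
      apply hdΓ
      have h5 : n ^^^ 8 < 8 := by
        revert h8 h16
        clear hn
        revert n
        decide
      have h6 := hlow _ h5
      rw [comb_xor, hb8] at h6
      have h7 := add_mem hn h6
      rwa [← add_assoc, add_self_z2, zero_add] at h7
    have hN8 : ∀ n < 8, n ∈ tfN β Y → n = 1 ∨ n = 2 ∨ n = 4 ∨ n = 7 := by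
      intro n hn hnN
      have h5 := (hmem (comb β n)).1 ⟨(mem_tfN.1 hnN).2, hlow n hn⟩
      have hn16 : n < 2 ^ 4 := by omega
      rcases h5 with h | h | h | h
      · rw [← hb1] at h
        exact Or.inl (tf_inj hli hn16 (by norm_num) h)
      · rw [← hb2] at h
        exact Or.inr (Or.inl (tf_inj hli hn16 (by norm_num) h))
      · rw [← hb4] at h
        exact Or.inr (Or.inr (Or.inl (tf_inj hli hn16 (by norm_num) h)))
      · rw [← hb7] at h
        exact Or.inr (Or.inr (Or.inr (tf_inj hli hn16 (by norm_num) h)))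
    obtain ⟨M, hM1, hM2⟩ := tfGo_sound tfP4_nodup (hpl β hli) _ _ tf_check2 (by
      intro n hn
      have hn' : n < 16 := by
        by_contra hge
        have : Nat.testBit 150 n = false := Nat.testBit_lt_two_pow
          (lt_of_lt_of_le (by norm_num : 150 < 2 ^ 16)
            (Nat.pow_le_pow_right (by norm_num) (by omega)))
        rw [this] at hn
        exact Bool.false_ne_true hn
      have h5 : n = 1 ∨ n = 2 ∨ n = 4 ∨ n = 7 := by
        revert hn
        revert n
        decide
      rw [mem_tfN]
      rcases h5 with rfl | rfl | rfl | rfl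
      · exact ⟨by norm_num, by rw [hb1]; exact ha.1⟩
      · exact ⟨by norm_num, by rw [hb2]; exact hb.1⟩
      · exact ⟨by norm_num, by rw [hb4]; exact hc.1⟩
      · exact ⟨by norm_num, by rw [hb7]; exact habc'.1⟩) (by
      intro n hn
      have h1 := hlt β n hn
      have h2 := fun h => hN8 n h hn
      revert h1 h2
      clear hn
      revert n
      decide)
    rw [tfFin2, Bool.or_eq_true, decide_eq_true_eq] at hM1
    rw [tf_card hli hcd, tf_tri hli hcd, tf_pop (hlt β) hM2, tf_triM (hlt β) hM2]
    refine hM1.resolve_left ?_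
    intro hex
    rw [List.any_eq_true] at hex
    obtain ⟨h, hh, hall⟩ := hex
    rw [List.all_eq_true] at hall
    have hsub : ((Y : Set V) \ (Γ : Set V)) ⊆
        (span (ZMod 2) (Set.range ![comb β h.1, comb β h.2.1, comb β h.2.2]) : Set V) := by
      rintro y ⟨hyY, hyΓ⟩
      obtain ⟨n, hn, rfl⟩ := hcd y hyY
      have h8 : 8 ≤ n := by
        by_contra hlt8
        exact hyΓ (hlow n (by omega))
      have h9 := hall n (List.mem_range.2 (by simpa using hn))
      rw [Bool.or_eq_true, Bool.or_eq_true, decide_eq_true_eq, decide_eq_true_eq,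
        Bool.not_eq_true'] at h9
      rcases h9 with (h9 | h9) | h9
      · omega
      · exfalso
        have := (hM2 n).2 (mem_tfN.2 ⟨hn, hyY⟩)
        rw [h9] at this
        exact Bool.false_ne_true this
      · exact tf_mem_span β h h9
    have h5 := Submodule.finrank_mono (span_le.2 hsub)
    rw [h4] at h5
    have h6 : finrank (ZMod 2)
        ↥(span (ZMod 2) (Set.range ![comb β h.1, comb β h.2.1, comb β h.2.2])) ≤ 3 := by
      have := finrank_range_le_card (R := ZMod 2) ![comb β h.1, comb β h.2.1, comb β h.2.2]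
      simpa [Set.finrank] using this
    omega

end Pool.Agent.WW

end
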