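import Pool.Agent.Work.MP_a8f287_co.Bd.B14
import Pool.Agent.Work.MP_a8f287_co.Bd.B12
import Pool.Agent.Work.MP_a8f287_co.Bd.B11
import Pool.Agent.Work.MP_a8f287_co.Bd.B13
import Pool.Agent.Work.MP_a8f287_co.Bd.B15
import Pool.Agent.Work.MP_a8f287_co.Bd.B05
import Pool.Agent.Work.MP_a8f287_co.Bd.B16
import Pool.Agent.Work.MP_a8f287_co.Bd.B09
import Pool.Agent.Work.MP_a8f287_co.Bd.B08
import Pool.Agent.Work.MP_a8f287_co.Bd.B06
import Pool.Agent.Work.MP_a8f287_co.Bd.B07
import Pool.Agent.Work.MP_a8f287_co.Bd.B04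
import Pool.Agent.Work.MP_a8f287_co.Bd.B02
import Pool.Agent.Work.MP_a8f287_co.Bd.T14
import Pool.Agent.Work.MP_a8f287_co.Bd.T15
import Pool.Agent.Work.MP_a8f287_co.Bd.T21
import Pool.Agent.Work.MP_a8f287_co.Bd.T22
import Pool.Agent.Work.MP_a8f287_co.Bd.T23
import Pool.Agent.Work.MP_a8f287_co.Bd.T24

/-! Bundle of small proof modules (one section per former module). -/

section

/-!
Assembly of the module K4.
-/

namespace Pool.Agent.WW

open Submodule Module

universe u

theorem aKMap : KMap.{u} := by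
  intro V _ _ _ _ W _ _ _ _ E π e P hs hk he h0 hP
  exact kMap V W E π e P hs hk he hP h0

theorem aKTrace : KTrace.{u} := kTrace (kCrossA claimCovDim) (kCrossB claimCovDim) kUnsp
theorem aKW : KW.{u} := kW (kPlaneLink claimCovDim kLink) (kWSep claimCovDim kUnsp)
theorem aKDelRim : KDelRim.{u} := kDelRim kDelShift
theorem aKDelCore : KDelCore.{u} := kDelCore kDelShift kDelPlane aKDelRim kDelTr
theorem aKStepA : KStepA.{u} := kStepA claimCtrGood aKMap
theorem aKStep0 : KStep0.{u} := kStep0 claimCovDim kUnsp aKStepA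
theorem aKStep1 : KStep1.{u} :=
  kStep1 claimCovDim claimCtrGood kUnsp aKMap aKDelRim aKStep0 aKStepA (kLiftCtr claimCovDim)
theorem aKS2 : KS2.{u} := kS2 aKW aKTrace aKDelCore
theorem aKS3 : KS3.{u} := kS3 claimCovDim aKW aKTrace
theorem aKSu : KSu.{u} := kSu claimCovDim kUnsp (kCrossB claimCovDim)
theorem aKSfour : KSfour.{u} := kSfour claimCovDim aKSu
theorem aKSguts : KSguts.{u} := kSguts aKSu aKSfour
theorem aKSpartner : KSpartner.{u} := kSpartner aKSguts
theorem aKSone : KSone.{u} := kSone aKSu aKSfour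
theorem aKSall : KSall.{u} := kSall kUnsp aKSu aKSguts aKSpartner aKSone
theorem aKSline : KSline.{u} := kSline aKSu aKSpartner aKSone aKSall
theorem aKScoc : KScoc.{u} := kScoc kUnsp aKSfour aKSguts aKSu aKSpartner aKSone aKSline
theorem aKSctr : KSctr.{u} := kSctr claimCovDim kUnsp aKScoc aKSguts aKSline
theorem aKS5 : KS5.{u} := kS5 aKSall aKSline aKSctr (kScount aKSline) kDelCard
theorem aKP2 : KP2.{u} := kP2 aKStep1 aKS2 aKS3 aKS5
theorem aKInt : KInt.{u} := kInt claimCovDim claimCtrGood kDelCard kDelC4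

/-- the module K4 from L4, HIT and the classification in rank six -/
theorem k4_of (hL : KL4.{u}) (hH : KHIT.{u}) (h6 : P2.{u} 6) : K4a.{u} ∧ K4b.{u} ∧ K4c.{u} :=
  aKInt hH (aKP2 hL hH tabK5 h6)

end Pool.Agent.WW

end

section

/-!
The chain of levels of the table for rank six.
-/

namespace Pool.Agent.WW

open Submodule Module

/-- codes of `Delta` with five spokes -/
def del6 : List ℕ := [1, 2, 3, 4, 6, 8, 12, 16, 24, 32, 33, 34, 36, 40, 48, 49]

theorem k6eq16 : k6L16 = del6 :: k6R16_0.map Prod.fst := by decide +kernel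

theorem k6eq9 : k6L9 = (k6R9_0).map Prod.fst := by decide +kernel

theorem k6all9 : (k6R9_0).all (row6 k6L10) = true := by
  exact k6chk9_0

theorem k6eq10 : k6L10 = (k6R10_0).map Prod.fst := by decide +kernel

theorem k6all10 : (k6R10_0).all (row6 k6L11) = true := by
  exact k6chk10_0

theorem k6eq11 : k6L11 = (k6R11_0).map Prod.fst := by decide +kernel

theorem k6all11 : (k6R11_0).all (row6 k6L12) = true := by
  exact k6chk11_0

theorem k6eq12 : k6L12 = (k6R12_0 ++ k6R12_1 ++ k6R12_2 ++ k6R12_3).map Prod.fst := by decide +kernel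

theorem k6all12 : (k6R12_0 ++ k6R12_1 ++ k6R12_2 ++ k6R12_3).all (row6 k6L13) = true := by
  simp only [List.all_append, Bool.and_eq_true]
  exact ⟨⟨⟨k6chk12_0, k6chk12_1⟩, k6chk12_2⟩, k6chk12_3⟩

theorem k6eq13 : k6L13 = (k6R13_0 ++ k6R13_1 ++ k6R13_2 ++ k6R13_3 ++ k6R13_4 ++ k6R13_5 ++ k6R13_6 ++ k6R13_7 ++ k6R13_8 ++ k6R13_9).map Prod.fst := by decide +kernel

theorem k6all13 : (k6R13_0 ++ k6R13_1 ++ k6R13_2 ++ k6R13_3 ++ k6R13_4 ++ k6R13_5 ++ k6R13_6 ++ k6R13_7 ++ k6R13_8 ++ k6R13_9).all (row6 k6L14) = true := by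
  simp only [List.all_append, Bool.and_eq_true]
  exact ⟨⟨⟨⟨⟨⟨⟨⟨⟨k6chk13_0, k6chk13_1⟩, k6chk13_2⟩, k6chk13_3⟩, k6chk13_4⟩, k6chk13_5⟩, k6chk13_6⟩, k6chk13_7⟩, k6chk13_8⟩, k6chk13_9⟩

theorem k6eq14 : k6L14 = (k6R14_0 ++ k6R14_1 ++ k6R14_2 ++ k6R14_3 ++ k6R14_4 ++ k6R14_5 ++ k6R14_6 ++ k6R14_7 ++ k6R14_8 ++ k6R14_9 ++ k6R14_10 ++ k6R14_11 ++ k6R14_12).map Prod.fst := by decide +kernel

theorem k6all14 : (k6R14_0 ++ k6R14_1 ++ k6R14_2 ++ k6R14_3 ++ k6R14_4 ++ k6R14_5 ++ k6R14_6 ++ k6R14_7 ++ k6R14_8 ++ k6R14_9 ++ k6R14_10 ++ k6R14_11 ++ k6R14_12).all (row6 k6L15) = true := by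
  simp only [List.all_append, Bool.and_eq_true]
  exact ⟨⟨⟨⟨⟨⟨⟨⟨⟨⟨⟨⟨k6chk14_0, k6chk14_1⟩, k6chk14_2⟩, k6chk14_3⟩, k6chk14_4⟩, k6chk14_5⟩, k6chk14_6⟩, k6chk14_7⟩, k6chk14_8⟩, k6chk14_9⟩, k6chk14_10⟩, k6chk14_11⟩, k6chk14_12⟩

theorem k6eq15 : k6L15 = (k6R15_0 ++ k6R15_1 ++ k6R15_2 ++ k6R15_3 ++ k6R15_4).map Prod.fst := by decide +kernel

theorem k6all15 : (k6R15_0 ++ k6R15_1 ++ k6R15_2 ++ k6R15_3 ++ k6R15_4).all (row6 k6L16) = true := by
  simp only [List.all_append, Bool.and_eq_true]
  exact ⟨⟨⟨⟨k6chk15_0, k6chk15_1⟩, k6chk15_2⟩, k6chk15_3⟩, k6chk15_4⟩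

variable {V : Type*} [AddCommGroup V] [Module (ZMod 2) V]

/-- the full states -/
theorem k6_final [FiniteDimensional (ZMod 2) V] {E : Set V} (hE : Good E)
    (hV : finrank (ZMod 2) V = 6) (hr : Reach E k6L9) : Reach E [del6] := by
  rw [k6eq9] at hr
  have h10 := row6_step hE hV k6all9 hr
  rw [k6eq10] at h10
  have h11 := row6_step hE hV k6all10 h10
  rw [k6eq11] at h11
  have h12 := row6_step hE hV k6all11 h11
  rw [k6eq12] at h12
  have h13 := row6_step hE hV k6all12 h12
  rw [k6eq13] at h13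
  have h14 := row6_step hE hV k6all13 h13
  rw [k6eq14] at h14
  have h15 := row6_step hE hV k6all14 h14
  rw [k6eq15] at h15
  have h16 := row6_step hE hV k6all15 h15
  rw [k6eq16] at h16
  obtain ⟨l, hl, b, hb, hlE⟩ := h16
  rcases List.mem_cons.1 hl with h | h
  · exact ⟨del6, List.mem_cons_self, b, hb, h ▸ hlE⟩
  · exfalso
    obtain ⟨l', hl', -⟩ := row6_step hE hV k6chk16_0 ⟨l, h, b, hb, hlE⟩
    exact absurd hl' (by simp)

end Pool.Agent.WW

end

section

/-!
The colouring theorem for three colours, from the module K4 and the step to rank six.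
-/

namespace Pool.Agent.WW

open Submodule Module

universe u

theorem a3Cross' : ClaimCross.{u} := claimCross claimCovDim
theorem a3Five : ClaimFive.{u} := claimFive claimCovDim
theorem a3MinFrag : ClaimMinFrag.{u} := claimMinFrag claimCovDim a3Cross' a3Five
theorem a3ThmC : ClaimThmC.{u} := claimThmC a3MinFrag
theorem a3CaseI : ClaimCaseI.{u} :=
  claimCaseI claimCovDim a3Cross' a3Five a3MinFrag claimDegRes claimTwoPlanes
    (claimSide (claimCount claimTriLine claimTriPlane))
theorem a3TStep : ClaimTStep.{u} :=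
  claimTStep claimCovDim claimTriPlane claimTriFour (claimTNot4 claimTriSplit claimTriLine)
    (claimTSep claimTriSplit claimTriLine claimTriPlane) (claimTC4 claimTriSplit claimTriLine claimTriPlane claimTriFour)
    claimTContr claimCtrGood claimNoGQ
theorem a3TAll : ClaimTAll.{u} := claimTAll claimTRel a3TStep
theorem a3D3NoC4 : ClaimD3NoC4.{u} := claimD3NoC4 a3TAll a3CaseI claimCtrGood claimNoGQ

theorem crit_three_K4 (ka : K4a.{u}) (kb : K4b.{u}) (kc : K4c.{u}) (t6 : T6step.{u})
    {V : Type u} [AddCommGroup V] [Module (ZMod 2) V] [FiniteDimensional (ZMod 2) V]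
    (E : Finset V) (h0 : (0 : V) ∉ E) (hfree : ¬ HasK5 (E : Set V)) :
    ∃ f : V →ₗ[ZMod 2] (Fin 3 → ZMod 2), ∀ v ∈ E, f v ≠ 0 :=
  crit_three_of (d3_all_of tabR5 a3Small a3D3NoC4 ka kb kc t6 tabGQ tr5
    (a3CaseII c3Types (c3Deg claimCtrGood)) c3NoC4) a3Colour E h0 hfree

end Pool.Agent.WW

end

section

/-!
The step of the triangle inequality from rank five to rank six.
-/

namespace Pool.Agent.WW

open Submodule Module

universe u

theorem base_bool6 (a0 a1 a2 a3 a4 a5 : Bool) :
    (if a0 = true then (1 : ZMod 2) else 0) + (if a1 = true then 1 else 0) +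
      (if a2 = true then 1 else 0) + (if a3 = true then 1 else 0) + (if a4 = true then 1 else 0) +
      (if a5 = true then 1 else 0) =
      if (((a0 ^^ a1) ^^ ((a2 ^^ a3) ^^ a4)) ^^ a5) = true then 1 else 0 := by
  revert a0 a1 a2 a3 a4 a5
  decide

/-- codes of a basis in rank six -/
theorem t6_surj {V : Type u} [AddCommGroup V] [Module (ZMod 2) V]
    [FiniteDimensional (ZMod 2) V] (hV : finrank (ZMod 2) V = 6) {b : Fin 6 → V}
    (hb : LinearIndependent (ZMod 2) b) (v : V) : ∃ n < 64, comb b n = v := by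
  have h1 : span (ZMod 2) (Set.range b) = ⊤ :=
    hb.span_eq_top_of_card_eq_finrank (by rw [hV, Fintype.card_fin])
  have h2 : v ∈ span (ZMod 2) (Set.range b) := by
    rw [h1]
    exact mem_top
  rw [mem_span_range_iff_exists_fun] at h2
  obtain ⟨c, hc⟩ := h2
  obtain ⟨n, hn, hbit⟩ := bp_exists_code 6 c
  exact ⟨n, hn, by rw [bp_comb_eq_sum b c n hbit, hc]⟩

/-- the functional with code `f` -/
theorem t6_functional {V : Type u} [AddCommGroup V] [Module (ZMod 2) V]
    [FiniteDimensional (ZMod 2) V] (hV : finrank (ZMod 2) V = 6) {b : Fin 6 → V}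
    (hb : LinearIndependent (ZMod 2) b) (f : ℕ) :
    ∃ φ : V →ₗ[ZMod 2] ZMod 2, ∀ v : ℕ, φ (comb b v) = if par6 (f &&& v) then 1 else 0 := by
  have hcard : Fintype.card (Fin 6) = finrank (ZMod 2) V := by rw [Fintype.card_fin, hV]
  let B := basisOfLinearIndependentOfCardEqFinrank hb hcard
  have hB : ∀ i, B i = b i := fun i => by
    simp [B]
  refine ⟨B.constr (ZMod 2) (fun i => if f.testBit i then (1 : ZMod 2) else 0), ?_⟩
  intro v
  have h1 : ∀ i : Fin 6, (B.constr (ZMod 2) (fun i => if f.testBit i then (1 : ZMod 2) else 0))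
      (if v.testBit i then b i else 0) = if (f &&& v).testBit i then 1 else 0 := by
    intro i
    rw [Nat.testBit_land]
    cases hv : v.testBit i
    · simp
    · rw [if_pos rfl, ← hB i, Basis.constr_basis]
      simp
  unfold comb
  rw [map_sum]
  simp only [h1]
  unfold par6 parC
  rw [Fin.sum_univ_six]
  generalize f &&& v = w
  simp only [Fin.val_zero, Fin.val_one, Fin.val_two]
  have h3 : ((3 : Fin 6) : ℕ) = 3 := rfl
  have h4 : ((4 : Fin 6) : ℕ) = 4 := rfl
  have h5 : ((5 : Fin 6) : ℕ) = 5 := rfl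
  rw [h3, h4, h5]
  exact base_bool6 (w.testBit 0) (w.testBit 1) (w.testBit 2) (w.testBit 3) (w.testBit 4)
    (w.testBit 5)

theorem t6_comb_mod {W : Type u} [AddCommGroup W] [Module (ZMod 2) W] (b : Fin 5 → W) (n : ℕ) :
    comb b (n % 32) = comb b n := by
  unfold comb
  refine Finset.sum_congr rfl fun i _ => ?_
  have h : (n % 32).testBit i = n.testBit i := by
    have h1 := Nat.testBit_mod_two_pow n 5 i
    rw [show (2 : ℕ) ^ 5 = 32 by norm_num] at h1
    rw [h1]
    simp
  rw [h]

section Ctx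

variable {V : Type u} [AddCommGroup V] [Module (ZMod 2) V] [FiniteDimensional (ZMod 2) V]
  [DecidableEq V] {W : Type u} [AddCommGroup W] [Module (ZMod 2) W]
  [FiniteDimensional (ZMod 2) W] [DecidableEq W] {E : Finset V} {π : V →ₗ[ZMod 2] W} {e : V}
  {M : ℕ} {b : Fin 5 → W} {c : Fin 6 → V}

/-- the codes of a set in rank six and of its contraction -/
structure T6Ctx (E : Finset V) (π : V →ₗ[ZMod 2] W) (e : V) (M : ℕ) (b : Fin 5 → W)
    (c : Fin 6 → V) : Prop where
  hker : ∀ v, π v = 0 ↔ v = 0 ∨ v = e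
  he : e ∈ E
  good : Good (E : Set V)
  sep : SepGe (E : Set V) 4
  k4 : K4F (E : Set V)
  rV : finrank (ZMod 2) V = 6
  rW : finrank (ZMod 2) W = 5
  hb : LinearIndependent (ZMod 2) b
  hM : ∀ n < 32, M.testBit n = true ↔ comb b n ∈ contr π E
  hc : LinearIndependent (ZMod 2) c
  hce : comb c 32 = e
  hcb : ∀ n, π (comb c n) = comb b n

/-- present and absent codes -/
def T6Ok (E : Finset V) (c : Fin 6 → V) (P A : ℕ) : Prop :=
  (∀ n, P.testBit n = true → n < 64 ∧ comb c n ∈ E) ∧ ∀ n, A.testBit n = true → comb c n ∉ E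

theorem t6_inj (h : T6Ctx E π e M b c) : ∀ n < 2 ^ 6, comb c n = 0 → n = 0 :=
  fun n hn h0 => r5s_comb_zero_imp h.hc n hn h0

theorem t6_xor (h : T6Ctx E π e M b c) (n : ℕ) : comb c (n ^^^ 32) = comb c n + e := by
  rw [comb_xor, h.hce]

theorem t6_or (h : T6Ctx E π e M b c) {n : ℕ} (hn : M.testBit (n % 32) = true) :
    comb c n ∈ E ∨ comb c (n ^^^ 32) ∈ E := by
  have h1 := (h.hM (n % 32) (Nat.mod_lt _ (by norm_num))).1 hn
  rw [t6_comb_mod] at h1
  rw [t6_xor h]
  exact tri_one h.hker h1 (h.hcb n)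

theorem t6_k5 (h : T6Ctx E π e M b c) {P A : ℕ} (hs : T6Ok E c P A) {C : List ℕ}
    {s0 s1 s2 s3 : ℕ} (hk : checkK5 P C s0 s1 s2 s3 = true) : False := by
  refine h.good.free (hasK5_of_cert c _ ⊥ bot_le ?_ P ?_ C s0 s1 s2 s3 hk)
  · intro n hn h0
    exact t6_inj h n hn ((mem_bot _).1 h0)
  · intro n hn
    obtain ⟨h1, h2⟩ := hs.1 n hn
    exact ⟨h1, fano_pres_of_mem h2⟩

theorem t6_k4 (h : T6Ctx E π e M b c) {P A : ℕ} (hs : T6Ok E c P A) {l : List ℕ}
    (hl : l.length = 3) (hk : t6K4 P l = true) : False := by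
  unfold t6K4 at hk
  rw [Bool.and_eq_true, Bool.and_eq_true] at hk
  obtain ⟨⟨h1, h2⟩, h3⟩ := hk
  refine ty_k4 h.k4 (t6_inj h) (M := P) (fun n _ hn => (hs.1 n hn).2) l hl ?_ ?_ ?_
  · intro x hx
    have := List.all_eq_true.1 h1 x hx
    simpa using this
  · intro n hn h0
    rw [hl] at hn
    have := List.all_eq_true.1 h2 n (List.mem_range.2 (by simpa using hn))
    simpa [h0] using this
  · intro n hn
    exact List.all_eq_true.1 h3 n hn

theorem t6_nv (h : T6Ctx E π e M b c) {P A f : ℕ} (hs : T6Ok E c P A) {gs : List ℕ}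
    (hl : gs.length = 4) (hk : t6Nv M A f gs = true) : False := by
  classical
  unfold t6Nv at hk
  rw [Bool.and_eq_true, List.all_eq_true, List.any_eq_true] at hk
  obtain ⟨h1, g, hg, hpg⟩ := hk
  obtain ⟨φ, hφ⟩ := t6_functional h.rV h.hc f
  let S : Finset V := (gs.map (comb c)).toFinset
  have hSset : comb c '' {x | x ∈ gs} = (S : Set V) := by
    ext v
    simp [S]
  have hS4 : finrank (ZMod 2) ↥(span (ZMod 2) (S : Set V)) ≤ 4 := by
    refine (finrank_span_finset_le_card S).trans ((List.toFinset_card_le _).trans ?_)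
    rw [List.length_map, hl]
  have hgB : comb c g ∈ span (ZMod 2) (S : Set V) := by
    rw [← hSset]
    exact subset_span ⟨g, hg, rfl⟩
  have hgA : comb c g ∉ LinearMap.ker φ := by
    rw [LinearMap.mem_ker, hφ, hpg]
    simp
  have h2 := h.sep (LinearMap.ker φ) (span (ZMod 2) (S : Set V)) ?_ ?_ ?_
  · have h3 : LinearMap.ker φ ⊓ span (ZMod 2) (S : Set V) < span (ZMod 2) (S : Set V) := by
      refine lt_of_le_of_ne inf_le_right ?_
      intro h
      exact hgA (inf_eq_right.1 h hgB)
    have h4 := Submodule.finrank_lt_finrank_of_lt h3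
    omega
  · intro h
    exact hgA (h ▸ Submodule.mem_top)
  · intro h'
    rw [h', finrank_top, h.rV] at hS4
    omega
  · intro x hx
    obtain ⟨n, hn, rfl⟩ := t6_surj h.rV h.hc x
    have h3 := h1 n (List.mem_range.2 hn)
    have hA : A.testBit n = false := by
      rw [← Bool.not_eq_true]
      intro hA
      exact hs.2 n hA hx
    have hMn : (M.testBit (n % 32) || n == 32) = true := by
      rw [Bool.or_eq_true, beq_iff_eq]
      by_cases hn32 : n = 32
      · exact Or.inr hn32
      · left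
        rw [h.hM _ (Nat.mod_lt _ (by norm_num)), t6_comb_mod, ← h.hcb, tri_mem_contr]
        refine ⟨?_, _, hx, rfl⟩
        intro h0
        rcases (h.hker _).1 h0 with h0 | h0
        · exact h.good.zero (h0 ▸ hx)
        · rw [← h.hce] at h0
          exact hn32 (r5s_comb_inj h.hc hn (by norm_num) h0)
    rw [hA, hMn] at h3
    simp only [Bool.not_true, Bool.false_or, Bool.or_eq_true, Bool.not_eq_true',
      List.contains_iff_mem] at h3
    rcases h3 with h3 | h3
    · left
      rw [LinearMap.mem_ker, hφ, h3]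
      simp
    · right
      rw [← hSset]
      exact comb_spanList c _ n h3

theorem t6_un (h : T6Ctx E π e M b c) {P A : ℕ} (hs : T6Ok E c P A) (hk : t6Un M A = true) :
    triL π E (contr π E) + 18 ≤ 6 * (contr π E).card := by
  classical
  have hcard := (base_count h.rW b h.hb (contr π E) M fun n hn => h.hM n hn).1
  unfold t6Un at hk
  rw [decide_eq_true_eq, hcard] at hk
  refine le_trans (Nat.add_le_add_right ?_ 18) hk
  rw [← filter_prod (fun n => M.testBit n)
    (fun p => M.testBit (p.1 ^^^ p.2) && !t6Dead A p.1 p.2), base_list2]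
  have hσ' : ∀ x : W, ∃ n < 32, comb b n = x := fun x => base_surj h.rW b h.hb x
  choose σ hσ1 hσ2 using hσ'
  unfold triL
  refine Finset.card_le_card_of_injOn (fun p => (σ p.1, σ p.2)) ?_ ?_
  · rintro ⟨x, y⟩ hp
    rw [Finset.mem_coe, Finset.mem_filter, Finset.mem_product] at hp
    obtain ⟨⟨hx, hy⟩, hxy, a, ha, d, hd, had, hax, hdy⟩ := hp
    simp only at hx hy hxy hax hdy
    rw [Finset.mem_coe, Finset.mem_filter, Finset.mem_product, Finset.mem_range,
      Finset.mem_range]
    refine ⟨⟨hσ1 x, hσ1 y⟩, ?_⟩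
    have e1 : M.testBit (σ x) = true := (h.hM _ (hσ1 x)).2 (by rw [hσ2]; exact hx)
    have e2 : M.testBit (σ y) = true := (h.hM _ (hσ1 y)).2 (by rw [hσ2]; exact hy)
    have e3 : M.testBit (σ x ^^^ σ y) = true :=
      (h.hM _ (Nat.xor_lt_two_pow (n := 5) (hσ1 x) (hσ1 y))).2 (by
        rw [comb_xor, hσ2, hσ2]; exact hxy)
    have hlift : ∀ (z : W) (v : V), v ∈ E → π v = z → ∃ i ∈ [0, 32], comb c (σ z ^^^ i) = v := by
      intro z v _ hv
      have h1 : π v = π (comb c (σ z)) := by rw [h.hcb, hσ2, hv]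
      rcases tri_pi_eq h.hker h1 with h2 | h2
      · exact ⟨0, by simp, by rw [Nat.xor_zero, h2]⟩
      · exact ⟨32, by simp, by rw [t6_xor h, h2]⟩
    have e4 : t6Dead A (σ x) (σ y) = false := by
      rw [← Bool.not_eq_true]
      intro hdead
      obtain ⟨i, hi, hi'⟩ := hlift x a ha hax
      obtain ⟨j, hj, hj'⟩ := hlift y d hd hdy
      unfold t6Dead at hdead
      have h1 := List.all_eq_true.1 (List.all_eq_true.1 hdead i hi) j hj
      rw [Bool.or_eq_true, Bool.or_eq_true] at h1
      rcases h1 with (h1 | h1) | h1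
      · exact hs.2 _ h1 (by rw [hi']; exact ha)
      · exact hs.2 _ h1 (by rw [hj']; exact hd)
      · exact hs.2 _ h1 (by rw [comb_xor, hi', hj']; exact had)
    simp only [e1, e2, e3, e4, Bool.not_false, Bool.and_true]
  · rintro ⟨x, y⟩ _ ⟨x', y'⟩ _ hxy
    have h1 : σ x = σ x' := (Prod.mk.inj hxy).1
    have h2 : σ y = σ y' := (Prod.mk.inj hxy).2
    rw [← hσ2 x, ← hσ2 y, h1, h2, hσ2, hσ2]

theorem t6_leaf (h : T6Ctx E π e M b c) {P A d : ℕ} (hs : T6Ok E c P A)
    (hk : t6Leaf M d P A = true) :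
    triL π E (contr π E) + 18 ≤ 6 * (contr π E).card := by
  unfold t6Leaf at hk
  simp only [cond_eq_ite] at hk
  split_ifs at hk
  · exact (t6_k5 h hs hk).elim
  · exact (t6_k4 h hs rfl hk).elim
  · exact t6_un h hs hk
  · exact (t6_nv h hs rfl hk).elim

theorem t6_run_sound (h : T6Ctx E π e M b c) : ∀ (l : List ℕ) (st : List (ℕ × ℕ)),
    t6Run M l st = true → ∀ s ∈ st, T6Ok E c s.1 s.2 →
    triL π E (contr π E) + 18 ≤ 6 * (contr π E).card := by
  intro l
  induction l with
  | nil =>
    intro st hk s hs _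
    rw [t6Run, List.isEmpty_iff] at hk
    rw [hk] at hs
    exact absurd hs List.not_mem_nil
  | cons d l ih =>
    intro st hk s hs hok
    rcases st with _ | ⟨t, st⟩
    · exact absurd hs List.not_mem_nil
    · rw [t6Run] at hk
      simp only [cond_eq_ite] at hk
      split_ifs at hk with hd
      · rw [Bool.and_eq_true, Bool.and_eq_true, decide_eq_true_eq] at hk
        obtain ⟨⟨hq, hq64⟩, hk⟩ := hk
        rw [List.mem_cons] at hs
        rcases hs with rfl | hs
        · by_cases hE : comb c (d / 8) ∈ E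
          · refine ih _ hk (t6P (d / 8) s) (List.mem_cons_of_mem _ List.mem_cons_self) ⟨?_, hok.2⟩
            intro n hn
            unfold t6P at hn
            rw [Nat.testBit_or, Bool.or_eq_true, Nat.testBit_two_pow, decide_eq_true_eq] at hn
            rcases hn with hn | hn
            · exact hok.1 n hn
            · rw [← hn]
              exact ⟨hq64, hE⟩
          · refine ih _ hk (t6A (d / 8) s) List.mem_cons_self ⟨?_, ?_⟩
            · intro n hn
              unfold t6A at hn
              rw [Nat.testBit_or, Bool.or_eq_true, Nat.testBit_two_pow, decide_eq_true_eq] at hn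
              rcases hn with hn | hn
              · exact hok.1 n hn
              · rw [← hn]
                exact ⟨Nat.xor_lt_two_pow (n := 6) hq64 (by norm_num),
                  (t6_or h hq).resolve_left hE⟩
            · intro n hn
              unfold t6A at hn
              rw [Nat.testBit_or, Bool.or_eq_true, Nat.testBit_two_pow, decide_eq_true_eq] at hn
              rcases hn with hn | hn
              · exact hok.2 n hn
              · rw [← hn]
                exact hE
        · exact ih _ hk s (List.mem_cons_of_mem _ (List.mem_cons_of_mem _ hs)) hok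
      · rw [Bool.and_eq_true] at hk
        rw [List.mem_cons] at hs
        rcases hs with rfl | hs
        · exact t6_leaf h hok hk.1
        · exact ih _ hk.2 s hs hok

end Ctx

/-- the step from rank five to rank six -/
theorem t6step : T6step.{u} := by
  intro V _ _ _ _ W _ _ _ _ E π e hπ hker he hG hS hK4 _ hV
  have hpe : π e = 0 := (hker e).2 (Or.inr rfl)
  have he0 : e ≠ 0 := by
    rintro rfl
    exact hG.zero he
  obtain ⟨hN, hW⟩ := claimCtrGood V W E π e hπ hker he hG (fun A B hcov _ =>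
    hS A B hcov.1 hcov.2.1 hcov.2.2)
  have hW5 : finrank (ZMod 2) W = 5 := by omega
  obtain ⟨hN0, hNspan, hNsep, hNfree⟩ := (good_iff_sepGe _).1 hN
  obtain ⟨M, hML, b, hb, hM⟩ := claimR5 r5L r5_closed W (contr π E : Set W) hW5 hN0 hNspan hNfree
  obtain ⟨e1, e2⟩ := base_count hW5 b hb (contr π E) M hM
  rcases t6_prop M hML with h | h | h
  · have h1 : triL π E (contr π E) ≤ tri (contr π E) := by
      classical
      unfold triL tri
      apply Finset.card_le_card
      intro p hp
      rw [Finset.mem_filter] at hp ⊢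
      exact ⟨hp.1, hp.2.1⟩
    rw [e1, e2] at h
    omega
  · exact absurd hNsep (base_nonvc hW5 b hb _ M hM h)
  · obtain ⟨⟨l, hl⟩, m1, m2, m4, m8, m16, m0⟩ := t6_run M h
    have hlift : ∀ i : Fin 5, ∃ v ∈ E, π v = b i := by
      intro i
      have h1 : M.testBit (2 ^ (i : ℕ)) = true := by
        fin_cases i <;> assumption
      have h2 : 2 ^ (i : ℕ) < 32 := by
        have h3 := Nat.pow_lt_pow_right (a := 2) (by norm_num) i.2
        simpa using h3
      have h3 := (hM _ h2).1 h1
      rw [r5s_comb_pow, Finset.mem_coe, tri_mem_contr] at h3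
      exact h3.2
    choose c' hc'E hc' using hlift
    have hcb : ∀ n, π (comb (Fin.snoc c' e : Fin 6 → V) n) = comb b n := by
      intro n
      rw [comb_snoc, map_add]
      have h1 : π (if n.testBit 5 then e else 0) = 0 := by
        split_ifs
        · exact hpe
        · exact map_zero π
      rw [h1, add_zero]
      unfold comb
      rw [map_sum]
      refine Finset.sum_congr rfl fun i _ => ?_
      split_ifs
      · exact hc' i
      · exact map_zero π
    have hce : comb (Fin.snoc c' e : Fin 6 → V) 32 = e := by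
      rw [comb_snoc]
      have h1 : comb c' 32 = 0 := by
        have h2 := t6_comb_mod c' 32
        rw [← h2]
        exact comb_zero c'
      rw [h1, zero_add, if_pos (by decide)]
    have hinj : ∀ n < 64, comb (Fin.snoc c' e : Fin 6 → V) n = 0 → n = 0 := by
      intro n hn h0
      have h1 : comb b (n % 32) = 0 := by rw [t6_comb_mod, ← hcb, h0, map_zero]
      have h2 : n % 32 = 0 :=
        r5s_comb_zero_imp hb _ (by norm_num; exact Nat.mod_lt _ (by norm_num)) h1
      have h3 : n = 0 ∨ n = 32 := by omega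
      rcases h3 with h3 | h3
      · exact h3
      · rw [h3, hce] at h0
        exact absurd h0 he0
    have hli : LinearIndependent (ZMod 2) (Fin.snoc c' e : Fin 6 → V) := by
      rw [Fintype.linearIndependent_iff]
      intro d hd i
      obtain ⟨n, hn, hbit⟩ := bp_exists_code 6 d
      rw [← bp_comb_eq_sum _ d n hbit] at hd
      have h2 := hinj n hn hd
      have h3 := hbit i
      rw [h2, Nat.zero_testBit] at h3
      rcases tri_zmod (d i) with h4 | h4
      · exact h4
      · rw [h4] at h3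
        simp at h3
    have ctx : T6Ctx E π e M b (Fin.snoc c' e : Fin 6 → V) :=
      ⟨hker, he, hG, hS, hK4, hV, hW5, hb, hM, hli, hce, hcb⟩
    refine t6_run_sound ctx l _ hl _ List.mem_cons_self ⟨?_, ?_⟩
    · intro n hn
      have hlt : n < 64 := by
        by_contra hge
        have h1 : (2 ^ 32 + 65814 : ℕ).testBit n = false := by
          apply Nat.testBit_lt_two_pow
          calc (2 ^ 32 + 65814 : ℕ) < 2 ^ 64 := by norm_num
            _ ≤ 2 ^ n := Nat.pow_le_pow_right (by norm_num) (by omega)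
        simp only at hn
        rw [h1] at hn
        exact absurd hn (by simp)
      refine ⟨hlt, ?_⟩
      have h1 : n = 1 ∨ n = 2 ∨ n = 4 ∨ n = 8 ∨ n = 16 ∨ n = 32 := by
        have h2 : ((List.range 64).all fun n => !(2 ^ 32 + 65814 : ℕ).testBit n || n == 1 ||
            n == 2 || n == 4 || n == 8 || n == 16 || n == 32) = true := by decide +kernel
        have h3 := List.all_eq_true.1 h2 n (List.mem_range.2 hlt)
        simp only at hn
        rw [hn] at h3
        simpa [or_assoc] using h3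
      have hu : ∀ i : Fin 5, comb (Fin.snoc c' e : Fin 6 → V) (2 ^ (i : ℕ)) = c' i := by
        intro i
        rw [comb_snoc, r5s_comb_pow]
        have h2 : (2 ^ (i : ℕ)).testBit 5 = false := by
          fin_cases i <;> decide
        rw [h2]
        simp
      rcases h1 with rfl | rfl | rfl | rfl | rfl | rfl
      · have h2 := hu 0
        rw [show (2 : ℕ) ^ ((0 : Fin 5) : ℕ) = 1 by decide] at h2
        rw [h2]; exact hc'E 0
      · have h2 := hu 1
        rw [show (2 : ℕ) ^ ((1 : Fin 5) : ℕ) = 2 by decide] at h2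
        rw [h2]; exact hc'E 1
      · have h2 := hu 2
        rw [show (2 : ℕ) ^ ((2 : Fin 5) : ℕ) = 4 by decide] at h2
        rw [h2]; exact hc'E 2
      · have h2 := hu 3
        rw [show (2 : ℕ) ^ ((3 : Fin 5) : ℕ) = 8 by decide] at h2
        rw [h2]; exact hc'E 3
      · have h2 := hu 4
        rw [show (2 : ℕ) ^ ((4 : Fin 5) : ℕ) = 16 by decide] at h2
        rw [h2]; exact hc'E 4
      · rw [hce]; exact he
    · intro n hn
      simp only at hn
      rw [Nat.zero_testBit] at hn
      exact absurd hn (by simp)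

end Pool.Agent.WW

end

section

/-!
The good sets of rank six with a `K4` plane.
-/

namespace Pool.Agent.WW

open Submodule Module

universe u

/-- certificates for the points outside `Delta` -/
theorem k6full : chkL (fun y => mask del6 + 2 ^ y) 6 2 ((List.range 64).filter fun y =>
    y != 0 && !del6.contains y)
    22063720711728717434027796460787617049313064148070262274300406291586185414452028014420703111986101209570217626086702046545681422019600531468436794036738144785080748533792604870252391363397095204625925459896096447464179499011826171404124254645525458273335198722296907011077508730484093165883339850345098625833370171819239356998934689374907380566764343202919146629312676642095704604715267289394296345987000627010193181305084377556672285773005340544705593109630166755951688067227869035912446995814715405563462664 = true := by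
  decide +kernel

variable {V : Type*} [AddCommGroup V] [Module (ZMod 2) V]

/-- the spokes with the hub -/
def k6s : List ℕ := [1, 2, 4, 8, 16, 33, 34, 36, 40, 48]

/-- a set which contains the points of `Delta` is `Delta` -/
theorem k6_isDel [FiniteDimensional (ZMod 2) V] {E : Set V} (hE : Good E)
    (hV : finrank (ZMod 2) V = 6) (hr : Reach E [del6]) : IsDel 5 E := by
  obtain ⟨l, hl, b, hb, hlE⟩ := hr
  rw [List.mem_singleton] at hl
  subst hl
  have hmem : ∀ n < 64, (comb b n ∈ E ↔ n ∈ del6) := by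
    intro n hn
    refine ⟨fun h => ?_, fun h => hlE n h⟩
    by_contra hcon
    have hn0 : n ≠ 0 := by
      rintro rfl
      rw [comb_zero] at h
      exact hE.zero h
    have h1 := chkL_sound k6full n (by
      rw [List.mem_filter, List.mem_range]
      refine ⟨hn, ?_⟩
      simp only [Bool.and_eq_true, bne_iff_ne, ne_eq, hn0, not_false_eq_true, true_and,
        Bool.not_eq_true', List.contains_eq_mem, decide_eq_false_iff_not]
      exact hcon)
    refine hE.free (k6_cert hb (l := del6) (fun m hm => ⟨?_, hlE m hm⟩) hn h hcon h1)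
    revert m
    decide
  have hs : ∀ i : ℕ, k6s.getD (i % 10) 0 ∈ del6 := by
    intro i
    have h1 : ∀ j < 10, k6s.getD j 0 ∈ del6 := by decide
    exact h1 _ (Nat.mod_lt _ (by norm_num))
  have hs2 : ∀ i : ℕ, k6s.getD (i % 10) 0 ^^^ k6s.getD ((i + 1) % 10) 0 ∈ del6 := by
    intro i
    have h1 : ∀ j < 10, k6s.getD j 0 ^^^ k6s.getD ((j + 1) % 10) 0 ∈ del6 := by decide
    have h2 := h1 (i % 10) (Nat.mod_lt _ (by norm_num))
    have h3 : (i % 10 + 1) % 10 = (i + 1) % 10 := by omega
    rwa [h3] at h2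
  refine ⟨comb b 32, fun i => comb b (k6s.getD (i % 10) 0), ⟨?_, ?_, hV⟩, ?_⟩
  · intro i
    have h1 : ∀ j < 10, k6s.getD ((j + 5) % 10) 0 = k6s.getD j 0 ^^^ 32 := by decide
    have h2 := h1 (i % 10) (Nat.mod_lt _ (by norm_num))
    have h3 : (i % 10 + 5) % 10 = (i + 5) % 10 := by omega
    rw [h3] at h2
    show comb b (k6s.getD ((i + 5) % 10) 0) = _
    rw [h2, comb_xor]
  · have h1 : (Fin.cons (comb b 32) (fun i : Fin 5 => comb b (k6s.getD ((i : ℕ) % 10) 0)) :
        Fin 6 → V) = b ∘ (Fin.cons 5 (fun i : Fin 5 => i.castSucc) : Fin 6 → Fin 6) := by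
      funext i
      refine Fin.cases ?_ (fun j => ?_) i
      · exact k6_pow (b := b) 5
      · rw [Fin.cons_succ, Function.comp_apply, Fin.cons_succ, ← k6_pow (b := b) j.castSucc]
        congr 1
        revert j
        decide
    rw [h1]
    refine hb.comp _ ?_
    decide
  · intro v
    constructor
    · intro hv
      obtain ⟨n, hn, rfl⟩ := k6_surj hV hb v
      have h1 := (hmem n hn).1 hv
      have h2 : ∀ n ∈ del6, n = 32 ∨ (∃ i < 10, n = k6s.getD i 0) ∨
          ∃ i < 10, n = k6s.getD i 0 ^^^ k6s.getD ((i + 1) % 10) 0 := by decide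
      rcases h2 n h1 with rfl | ⟨i, hi, rfl⟩ | ⟨i, hi, rfl⟩
      · exact Or.inl rfl
      · refine Or.inr (Or.inl ⟨i, ?_⟩)
        show comb b (k6s.getD i 0) = comb b (k6s.getD (i % 10) 0)
        rw [Nat.mod_eq_of_lt hi]
      · refine Or.inr (Or.inr ⟨i, ?_⟩)
        show _ = comb b (k6s.getD (i % 10) 0) + comb b (k6s.getD ((i + 1) % 10) 0)
        rw [Nat.mod_eq_of_lt hi, comb_xor]
    · rintro (rfl | ⟨i, rfl⟩ | ⟨i, rfl⟩)
      · exact hlE 32 (by decide)
      · exact hlE _ (hs i)
      · rw [← comb_xor]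
        exact hlE _ (hs2 i)

/-- a basis inside a spanning set which starts with three given vectors -/
theorem k6_basis [FiniteDimensional (ZMod 2) V] {E : Set V} (hs : span (ZMod 2) E = ⊤)
    (hV : finrank (ZMod 2) V = 6) {a b c : V} (h : LinearIndependent (ZMod 2) ![c, b, a]) :
    ∃ d e f : V, d ∈ E ∧ e ∈ E ∧ f ∈ E ∧ LinearIndependent (ZMod 2) ![f, e, d, c, b, a] := by
  have step : ∀ (k : ℕ) (v : Fin k → V), k < 6 → LinearIndependent (ZMod 2) v →
      ∃ x ∈ E, LinearIndependent (ZMod 2) (Fin.cons x v : Fin (k + 1) → V) := by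
    intro k v hk hv
    have hne : ¬ E ⊆ (span (ZMod 2) (Set.range v) : Submodule (ZMod 2) V) := by
      intro hsub
      have h1 : span (ZMod 2) (Set.range v) = ⊤ := by
        rw [eq_top_iff, ← hs]
        exact span_le.2 hsub
      have h2 := finrank_span_eq_card hv
      rw [h1, finrank_top, hV, Fintype.card_fin] at h2
      omega
    obtain ⟨x, hx, hxv⟩ := Set.not_subset.1 hne
    exact ⟨x, hx, linearIndependent_finCons.2 ⟨hv, hxv⟩⟩
  obtain ⟨d, hd, h1⟩ := step 3 _ (by norm_num) h
  obtain ⟨e, he, h2⟩ := step 4 _ (by norm_num) h1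
  obtain ⟨f, hf, h3⟩ := step 5 _ (by norm_num) h2
  exact ⟨d, e, f, hd, he, hf, h3⟩

/-- coordinates in a plane with six points -/
theorem k6_plane [FiniteDimensional (ZMod 2) V] {E : Set V} (h0 : (0 : V) ∉ E)
    {U : Submodule (ZMod 2) V} (hU : K4P E U) : ∃ a b c : V,
      LinearIndependent (ZMod 2) ![c, b, a] ∧ a ∈ E ∧ b ∈ E ∧ c ∈ E ∧ a + b ∈ E ∧ a + c ∈ E ∧
        b + c ∈ E := by
  classical
  have : Finite V := Module.finite_of_finite (ZMod 2)
  have : Fintype V := Fintype.ofFinite V
  have hcard : Fintype.card U = 8 := by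
    rw [card_eq_pow_finrank (K := ZMod 2) (V := U), hU.1, ZMod.card]
    norm_num
  -- the missing point
  obtain ⟨q, hqU, hq0, hq⟩ : ∃ q ∈ U, q ≠ 0 ∧ ∀ x ∈ U, x ≠ 0 → x ≠ q → x ∈ E := by
    by_contra hcon
    push Not at hcon
    have hUf : (U : Set V).ncard = 8 := by
      rw [Set.ncard_eq_toFinset_card', ← hcard]
      simp [Set.toFinset_card]
    -- two missing points
    obtain ⟨p, hpU, hp0⟩ : ∃ p ∈ U, p ≠ 0 := by
      have : U ≠ ⊥ := by
        rintro h
        have h1 := hU.1
        rw [h, finrank_bot] at h1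
        exact absurd h1 (by norm_num)
      obtain ⟨p, hp, hp0⟩ := (Submodule.ne_bot_iff U).1 this
      exact ⟨p, hp, hp0⟩
    obtain ⟨x, hxU, hx0, -, hxE⟩ := hcon p hpU hp0
    obtain ⟨y, hyU, hy0, hyx, hyE⟩ := hcon x hxU hx0
    have hsub : E ∩ (U : Set V) ⊆ (U : Set V) \ ({0, x, y} : Set V) := by
      rintro z ⟨hzE, hzU⟩
      refine ⟨hzU, ?_⟩
      rintro (rfl | rfl | rfl)
      · exact h0 hzE
      · exact hxE hzE
      · exact hyE hzE
    have h1 := Set.ncard_le_ncard hsub (Set.toFinite _)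
    have h2 : ({0, x, y} : Set V).ncard = 3 := by
      rw [Set.ncard_eq_three]
      exact ⟨0, x, y, fun h => hx0 h.symm, fun h => hy0 h.symm, fun h => hyx h.symm, rfl⟩
    have h3 : ({0, x, y} : Set V) ⊆ (U : Set V) := by
      rintro z (rfl | rfl | rfl)
      · exact U.zero_mem
      · exact hxU
      · exact hyU
    rw [Set.ncard_sdiff h3 (Set.toFinite _), hUf, h2] at h1
    have := hU.2
    omega
  -- a, b outside the span of q
  have hne : ∀ (k : ℕ) (v : Fin k → V), k < 3 → LinearIndependent (ZMod 2) v →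
      ∃ x ∈ U, LinearIndependent (ZMod 2) (Fin.cons x v : Fin (k + 1) → V) := by
    intro k v hk hv
    have hne : ¬ (U : Set V) ⊆ (span (ZMod 2) (Set.range v) : Submodule (ZMod 2) V) := by
      intro hsub
      have h1 : U ≤ span (ZMod 2) (Set.range v) := hsub
      have h2 := Submodule.finrank_mono h1
      have h3 := finrank_span_eq_card hv
      rw [h3, hU.1, Fintype.card_fin] at h2
      omega
    obtain ⟨x, hx, hxv⟩ := Set.not_subset.1 hne
    exact ⟨x, hx, linearIndependent_finCons.2 ⟨hv, hxv⟩⟩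
  have hq1 : LinearIndependent (ZMod 2) ![q] := LinearIndependent.of_subsingleton 0 hq0
  obtain ⟨b, hbU, h2⟩ := hne 1 ![q] (by norm_num) hq1
  obtain ⟨a, haU, h3⟩ := hne 2 _ (by norm_num) h2
  have hli : ∀ i j k : ZMod 2, i • a + j • b + k • q = 0 → i = 0 ∧ j = 0 ∧ k = 0 := by
    intro i j k h
    have h4 := Fintype.linearIndependent_iff.1 h3 ![i, j, k] (by
      simp only [Fin.sum_univ_succ, Fin.cons_zero, Fin.cons_succ, Finset.univ_eq_empty,
        Finset.sum_empty, add_zero, Matrix.cons_val_zero, Matrix.cons_val_succ]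
      rw [← h]
      abel)
    exact ⟨h4 0, h4 1, h4 2⟩
  have hm : ∀ i j k : ZMod 2, (i ≠ 0 ∨ j ≠ 0) → i • a + j • b + k • q ∈ E := by
    intro i j k hij
    apply hq
    · exact U.add_mem (U.add_mem (U.smul_mem _ haU) (U.smul_mem _ hbU)) (U.smul_mem _ hqU)
    · intro h
      obtain ⟨h1, h2, -⟩ := hli i j k h
      rcases hij with h' | h'
      · exact h' h1
      · exact h' h2
    · intro h
      have h5 : i • a + j • b + (k + 1) • q = 0 := by
        rw [add_smul, one_smul, ← add_assoc, h, add_self_z2]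
      obtain ⟨h1, h2, -⟩ := hli i j (k + 1) h5
      rcases hij with h' | h'
      · exact h' h1
      · exact h' h2
  have haE := hm 1 0 0 (by simp)
  have hbE := hm 0 1 0 (by simp)
  have hcE := hm 1 1 1 (by simp)
  have habE := hm 1 1 0 (by simp)
  have haqE := hm 1 0 1 (by simp)
  have hbqE := hm 0 1 1 (by simp)
  simp only [one_smul, zero_smul, add_zero, zero_add] at haE hbE hcE habE haqE hbqE
  have e1 : a + (a + b + q) = b + q := by
    rw [← add_assoc, ← add_assoc, add_self_z2, zero_add]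
  have e2 : b + (a + b + q) = a + q := by
    rw [show b + (a + b + q) = a + (b + b) + q by abel, add_self_z2, add_zero]
  refine ⟨a, b, a + b + q, ?_, haE, hbE, hcE, habE, ?_, ?_⟩
  · rw [Fintype.linearIndependent_iff]
    intro g hg
    simp only [Fin.sum_univ_succ, Finset.univ_eq_empty,
      Finset.sum_empty, add_zero, Matrix.cons_val_zero, Matrix.cons_val_succ] at hg
    have h4 := hli (g 0 + g 2) (g 0 + g 1) (g 0) (by
      rw [← hg]
      simp only [smul_add, add_smul, Fin.succ_zero_eq_one, Fin.succ_one_eq_two]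
      abel)
    have h5 : g 2 = 0 := by
      have := h4.1
      rw [h4.2.2, zero_add] at this
      exact this
    have h6 : g 1 = 0 := by
      have := h4.2.1
      rw [h4.2.2, zero_add] at this
      exact this
    intro i
    fin_cases i
    · exact h4.2.2
    · exact h6
    · exact h5
  · rw [e1]; exact hbqE
  · rw [e2]; exact haqE

/-- the sets of rank six with a `K4` plane -/
theorem p2six : P2.{u} 6 := by
  intro V _ _ _ E hE hV hK
  have hU : ∃ U, K4P E U := by
    unfold K4F at hK
    push Not at hK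
    obtain ⟨U, hU, h6⟩ := hK
    exact ⟨U, hU, h6⟩
  obtain ⟨U, hU⟩ := hU
  obtain ⟨a, b, c, hli, ha, hb, hc, hab, hac, hbc⟩ := k6_plane hE.zero hU
  obtain ⟨d, e, f, hd, he, hf, h6⟩ := k6_basis hE.span hV hli
  refine k6_isDel hE hV (k6_final hE hV ⟨[1, 2, 3, 4, 5, 6, 8, 16, 32], by decide +kernel,
    ![f, e, d, c, b, a] ∘ Fin.rev, h6.comp _ Fin.rev_injective, ?_⟩)
  obtain ⟨B, hB⟩ : ∃ B, B = ![f, e, d, c, b, a] ∘ (Fin.rev : Fin 6 → Fin 6) := ⟨_, rfl⟩
  rw [← hB]
  have e1 : comb B 1 = a := (k6_pow (b := B) 0).trans (by rw [hB]; rfl)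
  have e2 : comb B 2 = b := (k6_pow (b := B) 1).trans (by rw [hB]; rfl)
  have e4 : comb B 4 = c := (k6_pow (b := B) 2).trans (by rw [hB]; rfl)
  have e8 : comb B 8 = d := (k6_pow (b := B) 3).trans (by rw [hB]; rfl)
  have e16 : comb B 16 = e := (k6_pow (b := B) 4).trans (by rw [hB]; rfl)
  have e32 : comb B 32 = f := (k6_pow (b := B) 5).trans (by rw [hB]; rfl)
  intro n hn
  simp only [List.mem_cons, List.not_mem_nil, or_false] at hn
  rcases hn with rfl | rfl | rfl | rfl | rfl | rfl | rfl | rfl | rfl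
  · rw [e1]; exact ha
  · rw [e2]; exact hb
  · have h := comb_xor B 1 2
    rw [e1, e2] at h
    exact h ▸ hab
  · rw [e4]; exact hc
  · have h := comb_xor B 1 4
    rw [e1, e4] at h
    exact h ▸ hac
  · have h := comb_xor B 2 4
    rw [e2, e4] at h
    exact h ▸ hbc
  · rw [e8]; exact hd
  · rw [e16]; exact he
  · rw [e32]; exact hf

end Pool.Agent.WW

end

section

/-!
The colouring theorem for three colours, from HIT and L4.
-/

namespace Pool.Agent.WW

universe u

theorem crit_three_HL (hL : KL4.{u}) (hH : KHIT.{u})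
    {V : Type u} [AddCommGroup V] [Module (ZMod 2) V] [FiniteDimensional (ZMod 2) V]
    (E : Finset V) (h0 : (0 : V) ∉ E) (hfree : ¬ HasK5 (E : Set V)) :
    ∃ f : V →ₗ[ZMod 2] (Fin 3 → ZMod 2), ∀ v ∈ E, f v ≠ 0 :=
  have h := k4_of hL hH p2six
  crit_three_K4 h.1 h.2.1 h.2.2 t6step E h0 hfree

end Pool.Agent.WW

end
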