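import Pool.Agent.Work.MP_a8f287_co.Bd.T32

/-! Kernel checks, compiled separately. -/

section

/-!
Certificates for TabBranch, type A.
-/

namespace Pool.Agent.WW

theorem brA_all (β : ℕ) (hβ : β < 32) : ∀ p ∈ List.range 7 ×ˢ List.range 7, CertM (mask (brCodesA β p)) := by
  interval_cases β
  · exact chkL_sound brA_0
  · exact chkL_sound brA_1
  · exact chkL_sound brA_2
  · exact chkL_sound brA_3
  · exact chkL_sound brA_4
  · exact chkL_sound brA_5
  · exact chkL_sound brA_6
  · exact chkL_sound brA_7
  · exact chkL_sound brA_8
  · exact chkL_sound brA_9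
  · exact chkL_sound brA_10
  · exact chkL_sound brA_11
  · exact chkL_sound brA_12
  · exact chkL_sound brA_13
  · exact chkL_sound brA_14
  · exact chkL_sound brA_15
  · exact chkL_sound brA_16
  · exact chkL_sound brA_17
  · exact chkL_sound brA_18
  · exact chkL_sound brA_19
  · exact chkL_sound brA_20
  · exact chkL_sound brA_21
  · exact chkL_sound brA_22
  · exact chkL_sound brA_23
  · exact chkL_sound brA_24
  · exact chkL_sound brA_25
  · exact chkL_sound brA_26
  · exact chkL_sound brA_27
  · exact chkL_sound brA_28
  · exact chkL_sound brA_29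
  · exact chkL_sound brA_30
  · exact chkL_sound brA_31

end Pool.Agent.WW

end
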