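import Pool.Agent.Work.MP_a8f287_co.Bd.B01
import Pool.Agent.Work.MP_a8f287_co.Bd.T38

/-! Kernel checks, compiled separately. -/

namespace Pool.Agent.WW

theorem tyK5_ok : (tyK5.all fun f =>
    checkK5 f.1 [] f.2.1 f.2.2.1 f.2.2.2.1 f.2.2.2.2 && decide (f.1 < 65536)) = true := by
  decide +kernel

theorem tyK4_ok : (tyK4.all fun f => f.2.length == 3 && (f.2.all fun c => decide (c < 16)) &&
    ((List.range 8).all fun m => m == 0 || linC f.2 m != 0) &&
    ([1, 2, 3, 4, 5, 6].all fun m => f.1.testBit (linC f.2 m))) = true := by
  decide +kernel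

theorem subM_ok : ((List.range 256).all fun L => !L.testBit 0 || L == 255 ||
    !((List.range 8).all fun x => (List.range 8).all fun y =>
      !L.testBit x || !L.testBit y || L.testBit (x ^^^ y)) || subM.contains L) = true := by
  decide +kernel

theorem ty_23 : ((List.range 128).all fun k => tyChk 23 (2 * k)) = true := by
  decide +kernel

theorem ty_31 : ((List.range 128).all fun k => tyChk 31 (2 * k)) = true := by
  decide +kernel

end Pool.Agent.WW
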