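import Pool.Agent.Work.MP_a8f287_co.Bd.T27

/-! Kernel checks, compiled separately. -/

namespace Pool.Agent.WW

theorem ty_151 : ((List.range 128).all fun k => tyChk 151 (2 * k)) = true := by
  decide +kernel

theorem ty_159 : ((List.range 128).all fun k => tyChk 159 (2 * k)) = true := by
  decide +kernel

theorem ty_183 : ((List.range 128).all fun k => tyChk 183 (2 * k)) = true := by
  decide +kernel

theorem ty_191 : ((List.range 128).all fun k => tyChk 191 (2 * k)) = true := by
  decide +kernel

end Pool.Agent.WW
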