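import Pool.Agent.Work.MP_a8f287_co.Bd.B02

/-! Kernel checks, compiled separately. -/

namespace Pool.Agent.WW

/-- the codes of a pattern -/
def brCodesA (β : ℕ) (p : ℕ × ℕ) : List ℕ :=
  [1, 10, 12, 14, 18, 20 + β % 2, 22 + β / 2 % 2, 26 + β / 4 % 2,
    28 + β / 8 % 2, 30 + β / 16 % 2] ++
    (starReps.getD p.1 []).map (fun s => 32 ^^^ (s % 2) ^^^ (8 * (s / 2))) ++
    (starReps.getD p.2 []).map
      (fun s => 64 ^^^ (s % 2) ^^^ (8 * (s / 2 % 2)) ^^^ (18 * (s / 4)))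

/-- the mask of a pattern -/
def brMskA (β : ℕ) (p : ℕ × ℕ) : ℕ := mask (brCodesA β p)

end Pool.Agent.WW
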