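import Pool.Agent.Work.MP_a8f287_co.Bd.T28

/-! Kernel checks, compiled separately. -/

namespace Pool.Agent.WW

theorem ty_215 : ((List.range 128).all fun k => tyChk 215 (2 * k)) = true := by
  decide +kernel

theorem ty_223 : ((List.range 128).all fun k => tyChk 223 (2 * k)) = true := by
  decide +kernel

theorem ty_247 : ((List.range 128).all fun k => tyChk 247 (2 * k)) = true := by
  decide +kernel

theorem ty_255 : ((List.range 128).all fun k => tyChk 255 (2 * k)) = true := by
  decide +kernel

end Pool.Agent.WW
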