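import Pool.Agent.Work.MP_a8f287_co.Bd.B06
import Pool.Agent.Work.MP_a8f287_co.Bd.T14

/-! Kernel checks, compiled separately. -/

namespace Pool.Agent.WW

/-- the fifteen planes of rank four -/
def tfP4 : List (ℕ × ℕ × ℕ) := [(2, 4, 8), (1, 4, 8), (3, 4, 8), (1, 2, 8), (2, 5, 8), (1, 6, 8),
  (3, 5, 8), (1, 2, 4), (2, 4, 9), (1, 4, 10), (3, 4, 9), (1, 2, 12), (2, 5, 9), (1, 6, 10),
  (3, 5, 9)]

/-- the first conclusion -/
def tfFin1 (M : ℕ) : Bool := decide (tfTri M + 18 ≤ 6 * tfPop M)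

/-- the codes `≥ 8` are in a plane, or the second conclusion holds -/
def tfFin2 (M : ℕ) : Bool :=
  tfP4.any (fun h => (List.range 16).all fun n =>
    decide (n < 8) || !(M.testBit n) || decide (n ∈ tfSp h)) ||
  decide (tfTri M + 24 ≤ 6 * tfPop M)

theorem tf_c1 : tfGo tfP4 tfFin1 [7, 9, 10, 11, 12, 13, 14, 15] 278 = true := by decide +kernel

theorem tf_c2 : tfGo tfP4 tfFin1 [7, 9, 10, 11, 12, 13, 14, 15] 342 = true := by decide +kernel

end Pool.Agent.WW
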