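import Pool.Agent.Work.MP_a8f287_co.Bd.T36

/-! Kernel checks, compiled separately. -/

namespace Pool.Agent.WW

theorem tf_c3 : tfGo tfP4 tfFin1 [6, 7, 9, 10, 11, 12, 13, 14, 15] 310 = true := by decide +kernel

theorem tf_c4 : tfGo tfP4 tfFin1 [6, 7, 9, 10, 11, 12, 13, 14, 15] 286 = true := by decide +kernel

end Pool.Agent.WW
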